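import Pool.Agent.Lib.MP_c1f5fe_lc.SpecA

/-! Towers and the classes `TB`, `BB` of bounded functions. -/

namespace Pool.Agent.Lib.MP_c1f5fe_lc

/-! ### `tw` -/

@[simp] theorem tw_zero (x : ℕ) : tw 0 x = x := rfl

theorem tw_succ (h x : ℕ) : tw (h + 1) x = 2 ^ tw h x := rfl

theorem tw_add (h h' x : ℕ) : tw (h + h') x = tw h (tw h' x) := by
  induction h with
  | zero => simp
  | succ h ih => rw [Nat.add_right_comm, tw_succ, tw_succ, ih]

theorem tw_succ' (h x : ℕ) : tw (h + 1) x = tw h (2 ^ x) := tw_add h 1 x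

theorem tw_eq_iterate (h x : ℕ) : tw h x = (fun y => 2 ^ y)^[h] x := by
  induction h with
  | zero => rfl
  | succ h ih => rw [Function.iterate_succ_apply', tw_succ, ih]

theorem add_le_tw (h x : ℕ) : h + x ≤ tw h x := by
  induction h with
  | zero => simp
  | succ h ih =>
    have := Nat.lt_two_pow_self (n := tw h x)
    rw [tw_succ]; omega

theorem le_tw (h x : ℕ) : x ≤ tw h x := le_trans (Nat.le_add_left _ _) (add_le_tw h x)

theorem le_tw_left (h x : ℕ) : h ≤ tw h x := le_trans (Nat.le_add_right _ _) (add_le_tw h x)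

theorem tw_mono_right (h : ℕ) {x y : ℕ} (l : x ≤ y) : tw h x ≤ tw h y := by
  induction h with
  | zero => exact l
  | succ h ih => exact Nat.pow_le_pow_right (by norm_num) ih

theorem tw_mono {h h' x y : ℕ} (k : h ≤ h') (l : x ≤ y) : tw h x ≤ tw h' y := by
  obtain ⟨d, rfl⟩ := Nat.exists_eq_add_of_le k
  rw [tw_add]
  exact tw_mono_right h (l.trans (le_tw d y))

theorem tw_mono_left {h h' : ℕ} (k : h ≤ h') (x : ℕ) : tw h x ≤ tw h' x := tw_mono k le_rfl

theorem two_mul_le_two_pow (m : ℕ) : 2 * m ≤ 2 ^ m := by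
  rcases m with _ | m
  · simp
  · have := Nat.lt_two_pow_self (n := m)
    rw [pow_succ]; omega

/-! ### `bg` -/

@[simp] theorem bg_zero (x : ℕ) : bg 0 x = x := rfl

theorem bg_succ (h x : ℕ) : bg (h + 1) x = tw (bg h x + 1) (bg h x + 1) := rfl

theorem bg_add (h h' x : ℕ) : bg (h + h') x = bg h (bg h' x) := by
  induction h with
  | zero => simp
  | succ h ih => rw [Nat.add_right_comm, bg_succ, bg_succ, ih]

theorem add_le_bg (h x : ℕ) : h + x ≤ bg h x := by
  induction h with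
  | zero => simp
  | succ h ih =>
    have := le_tw (bg h x + 1) (bg h x + 1)
    rw [bg_succ]; omega

theorem le_bg (h x : ℕ) : x ≤ bg h x := le_trans (Nat.le_add_left _ _) (add_le_bg h x)

theorem le_bg_left (h x : ℕ) : h ≤ bg h x := le_trans (Nat.le_add_right _ _) (add_le_bg h x)

theorem bg_mono_right (h : ℕ) {x y : ℕ} (l : x ≤ y) : bg h x ≤ bg h y := by
  induction h with
  | zero => exact l
  | succ h ih => exact tw_mono (by omega) (by omega)

theorem bg_mono {h h' x y : ℕ} (k : h ≤ h') (l : x ≤ y) : bg h x ≤ bg h' y := by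
  obtain ⟨d, rfl⟩ := Nat.exists_eq_add_of_le k
  rw [bg_add]
  exact bg_mono_right h (l.trans (le_bg d y))

theorem bg_mono_left {h h' : ℕ} (k : h ≤ h') (x : ℕ) : bg h x ≤ bg h' x := bg_mono k le_rfl

theorem tw_le_bg (h x : ℕ) : tw h x ≤ bg h x := by
  induction h with
  | zero => exact le_rfl
  | succ h ih =>
    rw [bg_succ, tw_succ, tw_succ]
    exact Nat.pow_le_pow_right (by norm_num)
      (ih.trans ((Nat.le_succ _).trans (le_tw _ _)))

theorem primrec_tw : Primrec₂ tw := by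
  have p : Primrec fun y : ℕ => 2 ^ y :=
    (Primrec₂.unpaired'.1 Nat.Primrec.pow).comp (Primrec.const 2) Primrec.id
  have := Primrec.nat_iterate (α := ℕ × ℕ) (h := fun _ y => 2 ^ y) Primrec.fst Primrec.snd
    (p.comp Primrec.snd).to₂
  exact this.of_eq fun a => (tw_eq_iterate a.1 a.2).symm

theorem primrec_bg (h : ℕ) : Primrec (bg h) := by
  induction h with
  | zero => exact Primrec.id
  | succ h ih => exact primrec_tw.comp (Primrec.succ.comp ih) (Primrec.succ.comp ih)

theorem computable_bg (h : ℕ) : Computable (bg h) := (primrec_bg h).to_comp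

theorem computable_tw (h : ℕ) : Computable (tw h) :=
  (primrec_tw.comp (Primrec.const h) Primrec.id).to_comp

/-! ### `TB` -/

namespace TB
variable {A B : Type} {κ κ' f g : A → ℕ}

theorem self (κ : A → ℕ) : TB κ κ := ⟨0, fun _ => le_rfl⟩

theorem self' (κ : A → ℕ) : TB κ fun a => κ a := self κ

theorem const (c : ℕ) : TB κ fun _ => c := ⟨c, fun _ => le_tw_left _ _⟩

theorem mono (hg : TB κ g) (h : ∀ a, f a ≤ g a) : TB κ f :=
  let ⟨n, hn⟩ := hg; ⟨n, fun a => (h a).trans (hn a)⟩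

theorem of_le (h : ∀ a, f a ≤ κ a) : TB κ f := (self κ).mono h

theorem trans (h : TB κ κ') (hf : TB κ' f) : TB κ f :=
  let ⟨n, hn⟩ := h; let ⟨m, hm⟩ := hf
  ⟨m + n, fun a => by rw [tw_add]; exact (hm a).trans (tw_mono_right m (hn a))⟩

/-- change of the argument -/
theorem comp (hf : TB κ f) (φ : B → A) : TB (fun b => κ (φ b)) fun b => f (φ b) :=
  let ⟨n, hn⟩ := hf; ⟨n, fun b => hn (φ b)⟩

/-- substitution: `f` is bounded in `κ`, and `κ` at `φ b` is bounded in `μ` -/
theorem subst {μ : B → ℕ} (hf : TB κ f) (φ : B → A) (h : TB μ fun b => κ (φ b)) :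
    TB μ fun b => f (φ b) := h.trans (hf.comp φ)

theorem app {u : ℕ → ℕ} (hu : TB (fun x => x) u) (hf : TB κ f) : TB κ fun a => u (f a) :=
  hu.subst f hf

theorem both (hf : TB κ f) (hg : TB κ g) : ∃ h, ∀ a, f a ≤ tw h (κ a) ∧ g a ≤ tw h (κ a) :=
  let ⟨n, hn⟩ := hf; let ⟨m, hm⟩ := hg
  ⟨n + m, fun a => ⟨(hn a).trans (tw_mono_left (by omega) _),
    (hm a).trans (tw_mono_left (by omega) _)⟩⟩

theorem max (hf : TB κ f) (hg : TB κ g) : TB κ fun a => Max.max (f a) (g a) :=
  let ⟨n, hn⟩ := hf.both hg; ⟨n, fun a => max_le (hn a).1 (hn a).2⟩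

theorem tw (h : ℕ) (hf : TB κ f) : TB κ fun a => MP_c1f5fe_lc.tw h (f a) :=
  hf.trans ⟨h, fun _ => le_rfl⟩

theorem two_pow (hf : TB κ f) : TB κ fun a => 2 ^ f a := hf.tw 1

theorem add (hf : TB κ f) (hg : TB κ g) : TB κ fun a => f a + g a :=
  (hf.max hg).two_pow.mono fun a => by
    have := two_mul_le_two_pow (Max.max (f a) (g a))
    omega

theorem mul (hf : TB κ f) (hg : TB κ g) : TB κ fun a => f a * g a :=
  (hf.add hg).two_pow.mono fun a => by
    rw [pow_add]
    exact Nat.mul_le_mul Nat.lt_two_pow_self.le Nat.lt_two_pow_self.le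

theorem pow (hf : TB κ f) (hg : TB κ g) : TB κ fun a => f a ^ g a :=
  (hf.mul hg).two_pow.mono fun a => by
    rw [pow_mul]
    exact Nat.pow_le_pow_left Nat.lt_two_pow_self.le _

theorem factorial (hf : TB κ f) : TB κ fun a => (f a).factorial :=
  (hf.pow hf).mono fun _ => Nat.factorial_le_pow _

theorem choose (hf : TB κ f) (g : A → ℕ) : TB κ fun a => (f a).choose (g a) :=
  hf.two_pow.mono fun _ => Nat.choose_le_two_pow _ _

theorem sub (hf : TB κ f) (g : A → ℕ) : TB κ fun a => f a - g a :=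
  hf.mono fun _ => Nat.sub_le _ _

theorem div (hf : TB κ f) (g : A → ℕ) : TB κ fun a => f a / g a :=
  hf.mono fun _ => Nat.div_le_self _ _

theorem succ (hf : TB κ f) : TB κ fun a => f a + 1 := hf.add (const 1)

theorem fst : TB (fun p : ℕ × ℕ => p.1 + p.2) fun p => p.1 := of_le fun _ => Nat.le_add_right _ _

theorem snd : TB (fun p : ℕ × ℕ => p.1 + p.2) fun p => p.2 := of_le fun _ => Nat.le_add_left _ _

end TB

/-! ### `BB` -/

namespace BB
variable {A B : Type} {κ κ' f g c : A → ℕ}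

theorem of_TB (hf : TB κ f) : BB κ f :=
  let ⟨n, hn⟩ := hf; ⟨n, fun a => (hn a).trans (tw_le_bg _ _)⟩

theorem self (κ : A → ℕ) : BB κ κ := ⟨0, fun _ => le_rfl⟩

theorem self' (κ : A → ℕ) : BB κ fun a => κ a := self κ

theorem const (c : ℕ) : BB κ fun _ => c := of_TB (TB.const c)

theorem mono (hg : BB κ g) (h : ∀ a, f a ≤ g a) : BB κ f :=
  let ⟨n, hn⟩ := hg; ⟨n, fun a => (h a).trans (hn a)⟩

theorem of_le (h : ∀ a, f a ≤ κ a) : BB κ f := (self κ).mono h

theorem trans (h : BB κ κ') (hf : BB κ' f) : BB κ f :=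
  let ⟨n, hn⟩ := h; let ⟨m, hm⟩ := hf
  ⟨m + n, fun a => by rw [bg_add]; exact (hm a).trans (bg_mono_right m (hn a))⟩

theorem trans_TB (h : BB κ κ') (hf : TB κ' f) : BB κ f := h.trans (of_TB hf)

/-- change of the argument -/
theorem comp (hf : BB κ f) (φ : B → A) : BB (fun b => κ (φ b)) fun b => f (φ b) :=
  let ⟨n, hn⟩ := hf; ⟨n, fun b => hn (φ b)⟩

/-- substitution: `f` is bounded in `κ`, and `κ` at `φ b` is bounded in `μ` -/
theorem subst {μ : B → ℕ} (hf : BB κ f) (φ : B → A) (h : BB μ fun b => κ (φ b)) :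
    BB μ fun b => f (φ b) := h.trans (hf.comp φ)

theorem app {u : ℕ → ℕ} (hu : BB (fun x => x) u) (hf : BB κ f) : BB κ fun a => u (f a) :=
  hu.subst f hf

theorem both (hf : BB κ f) (hg : BB κ g) : ∃ h, ∀ a, f a ≤ bg h (κ a) ∧ g a ≤ bg h (κ a) :=
  let ⟨n, hn⟩ := hf; let ⟨m, hm⟩ := hg
  ⟨n + m, fun a => ⟨(hn a).trans (bg_mono_left (by omega) _),
    (hm a).trans (bg_mono_left (by omega) _)⟩⟩

theorem max (hf : BB κ f) (hg : BB κ g) : BB κ fun a => Max.max (f a) (g a) :=
  let ⟨n, hn⟩ := hf.both hg; ⟨n, fun a => max_le (hn a).1 (hn a).2⟩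

theorem left (f g : A → ℕ) : TB (fun a => Max.max (f a) (g a)) f :=
  TB.of_le fun _ => le_max_left _ _

theorem right (f g : A → ℕ) : TB (fun a => Max.max (f a) (g a)) g :=
  TB.of_le fun _ => le_max_right _ _

theorem add (hf : BB κ f) (hg : BB κ g) : BB κ fun a => f a + g a :=
  (hf.max hg).trans_TB ((left f g).add (right f g))

theorem mul (hf : BB κ f) (hg : BB κ g) : BB κ fun a => f a * g a :=
  (hf.max hg).trans_TB ((left f g).mul (right f g))

theorem pow (hf : BB κ f) (hg : BB κ g) : BB κ fun a => f a ^ g a :=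
  (hf.max hg).trans_TB ((left f g).pow (right f g))

theorem two_pow (hf : BB κ f) : BB κ fun a => 2 ^ f a := hf.trans_TB (TB.self f).two_pow

theorem factorial (hf : BB κ f) : BB κ fun a => (f a).factorial :=
  hf.trans_TB (TB.self f).factorial

theorem choose (hf : BB κ f) (g : A → ℕ) : BB κ fun a => (f a).choose (g a) :=
  hf.trans_TB ((TB.self f).choose g)

theorem sub (hf : BB κ f) (g : A → ℕ) : BB κ fun a => f a - g a :=
  hf.mono fun _ => Nat.sub_le _ _

theorem div (hf : BB κ f) (g : A → ℕ) : BB κ fun a => f a / g a :=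
  hf.mono fun _ => Nat.div_le_self _ _

theorem succ (hf : BB κ f) : BB κ fun a => f a + 1 := hf.add (const 1)

theorem tw (h : ℕ) (hf : BB κ f) : BB κ fun a => MP_c1f5fe_lc.tw h (f a) :=
  hf.trans_TB ((TB.self f).tw h)

theorem tw2 (hf : BB κ f) (hg : BB κ g) : BB κ fun a => MP_c1f5fe_lc.tw (f a) (g a) :=
  let ⟨n, hn⟩ := hf.both hg
  ⟨n + 1, fun a => tw_mono ((hn a).1.trans (Nat.le_succ _)) ((hn a).2.trans (Nat.le_succ _))⟩

theorem bg (h : ℕ) (hf : BB κ f) : BB κ fun a => MP_c1f5fe_lc.bg h (f a) :=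
  hf.trans ⟨h, fun _ => le_rfl⟩

theorem iter_le (h y n x : ℕ) :
    (fun x => MP_c1f5fe_lc.tw h (x + y))^[n] x ≤ MP_c1f5fe_lc.tw ((h + 1) * n) (x + y) := by
  induction n with
  | zero => simp
  | succ n ih =>
    rw [Function.iterate_succ_apply', Nat.mul_succ, Nat.add_comm ((h + 1) * n), tw_add, tw_succ']
    apply tw_mono_right
    have a := le_tw ((h + 1) * n) (x + y)
    have b := two_mul_le_two_pow (MP_c1f5fe_lc.tw ((h + 1) * n) (x + y))
    omega

theorem iter (h : ℕ) (hf : BB κ f) (hg : BB κ g) (hc : BB κ c) :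
    BB κ fun a => (fun x => MP_c1f5fe_lc.tw h (x + f a))^[g a] (c a) :=
  (((const (h + 1)).mul hg).tw2 (hc.add hf)).mono fun _ => iter_le _ _ _ _

/-- a sequence whose step is bounded by a tower in the previous term and `f` -/
theorem seq (h : ℕ) (s : A → ℕ → ℕ) (hf : BB κ f) (hg : BB κ g) (h0 : BB κ fun a => s a 0)
    (hs : ∀ a n, s a (n + 1) ≤ MP_c1f5fe_lc.tw h (s a n + f a)) : BB κ fun a => s a (g a) :=
  (iter h hf hg h0).mono fun a => by
    generalize g a = n
    induction n with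
    | zero => exact le_rfl
    | succ n ih =>
      rw [Function.iterate_succ_apply']
      exact (hs a n).trans (tw_mono_right h (Nat.add_le_add_right ih _))

end BB

/-! Usage: list the rules, with reducible transparency. -/

example (h : ℕ) : TB (fun p : ℕ × ℕ => p.1 + p.2)
    fun p => 3 * p.1 ^ p.2 + tw h (2 ^ (p.1 + 7) * p.2.factorial) := by
  apply_rules (transparency := .reducible) (maxDepth := 99) [TB.add, TB.mul, TB.tw, TB.pow,
    TB.factorial, TB.const, TB.fst, TB.snd]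

example (h : ℕ) : BB (fun k : ℕ => k) fun k => tw (3 * k + 1) (bg h (k ^ k) + 2 ^ k) := by
  apply_rules (transparency := .reducible) (maxDepth := 99) [BB.add, BB.mul, BB.tw2, BB.bg,
    BB.pow, BB.factorial, BB.const, BB.self']

end Pool.Agent.Lib.MP_c1f5fe_lc
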