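import Pool.Agent.Lib.MP_c1f5fe_lc.SpecD
import Pool.Agent.Lib.MP_c1f5fe_lc.Tb

/-! The candidate sets. -/

namespace Pool.Agent.Lib.MP_c1f5fe_lc

open Function Relation
open Pool.Agent.Lib.Complexity

namespace AlgCand

section graph
variable {V : Type} {G : SimpleGraph V} {T Y : Set V}

theorem comp_reach {v : V} (hv : v ∉ T) : Comp G T {u | (rst G Tᶜ).Reachable v u} := by
  have off : ∀ u, (rst G Tᶜ).Reachable v u → u ∉ T := by
    intro u hu
    rw [SimpleGraph.reachable_iff_reflTransGen] at hu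
    cases hu with
    | refl => exact hv
    | tail _ h => exact h.2.2
  have go : ∀ u, (rst G Tᶜ).Reachable v u → ReflTransGen (fun x y => G.Adj x y ∧
      x ∈ {u | (rst G Tᶜ).Reachable v u} ∧ y ∈ {u | (rst G Tᶜ).Reachable v u}) v u := by
    intro u hu
    rw [SimpleGraph.reachable_iff_reflTransGen] at hu
    induction hu with
    | refl => exact .refl
    | tail h1 h2 ih =>
      have h3 := (SimpleGraph.reachable_iff_reflTransGen _ _).2 h1
      exact ih.tail ⟨h2.1, h3, h3.trans h2.reachable⟩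
  refine ⟨⟨⟨v, SimpleGraph.Reachable.refl _⟩, fun a ha b hb => ?_⟩,
    Set.disjoint_left.2 off, fun u ⟨hu, w, hw, h⟩ => ?_⟩
  · refine ReflTransGen.trans ?_ (go b hb)
    have := go a ha
    clear ha
    induction this with
    | refl => exact .refl
    | tail _ h ih => exact .head ⟨h.1.symm, h.2.2, h.2.1⟩ ih
  · by_contra n
    exact hu (SimpleGraph.Reachable.trans hw (SimpleGraph.Adj.reachable ⟨h, off w hw, n⟩))

theorem comp_eq (h : Comp G T Y) {v : V} (hv : v ∈ Y) : Y = {u | (rst G Tᶜ).Reachable v u} := by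
  have off := Set.disjoint_left.1 h.2.1
  ext u
  simp only [Set.mem_ofPred_eq, SimpleGraph.reachable_iff_reflTransGen]
  constructor
  · intro hu
    have := h.1.2 v hv u hu
    clear hu
    induction this with
    | refl => exact .refl
    | tail _ k ih => exact ih.tail ⟨k.1, off k.2.1, off k.2.2⟩
  · intro hu
    induction hu with
    | refl => exact hv
    | tail _ h2 ih =>
      by_contra n
      exact h2.2.2 (h.2.2 ⟨n, _, ih, h2.1⟩)

end graph

def ad (x : Ins) (u v : ℕ) : Bool :=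
  decide (u < x.1) && decide (v < x.1) && decide (u ≠ v) &&
    (decide ((u, v) ∈ x.2.1) || decide ((v, u) ∈ x.2.1))

def nbL (x : Ins) (K : List ℕ) : List ℕ :=
  (List.range x.1).filter fun u => !decide (u ∈ K) && K.any fun w => ad x w u

def st (x : Ins) (p : List ℕ × List ℕ) (b : Bool) : List ℕ × List ℕ :=
  ((nbL x p.1).filter fun u => !decide (u ∈ p.2)).head?.elim p
    fun u => bif b then (u :: p.1, p.2) else (p.1, u :: p.2)

def run (x : Ins) (v : ℕ) (bits : List Bool) : List ℕ := (bits.foldl (st x) ([v], [])).1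

def clo (x : Ins) (T c : List ℕ) : List ℕ :=
  (List.range x.1).filter fun u => decide (u ∈ c) ||
    c.any fun w => ad x w u && !decide (w ∈ T) && !decide (u ∈ T)

def cmp (x : Ins) (T : List ℕ) (v : ℕ) : List ℕ := (clo x T)^[x.1] [v]

def roots (x : Ins) (T : List ℕ) (s : ℕ) : List ℕ :=
  (List.range x.1).filter fun v => !decide (v ∈ T) && decide ((cmp x T v).length ≤ s) &&
    (cmp x T v).all fun u => decide (v ≤ u)

def uni (x : Ins) (T : List ℕ) (s j : ℕ) : List ℕ :=
  (List.range x.1).filter fun u => ((roots x T s).take j).any fun v => decide (u ∈ cmp x T v)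

def cands (x : Ins) (s : ℕ) (K : List ℕ) : List (List ℕ) :=
  ((List.range x.1).filter fun u => decide (u ∈ K)) :: (List.range (s + 1)).map (uni x (nbL x K) s)

def all (s : ℕ) (x : Ins) (B : List (List Bool)) : List (List ℕ) :=
  ((List.range x.1).flatMap fun v => B.flatMap fun b => cands x s (run x v b)).filter
    fun l => decide (l.length ≤ s * s + s) && decide ((nbL x l).length ≤ s)

section pt
variable {A : Type} [Enc A] {x : A → Ins} {K T : A → List ℕ} {u v : A → ℕ}

@[fun_prop] theorem pt_ad (hx : PT x) (hu : PT u) (hv : PT v) :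
    PT fun a => ad (x a) (u a) (v a) := by unfold ad; fun_prop

@[fun_prop] theorem pt_nbL (hx : PT x) (hK : PT K) : PT fun a => nbL (x a) (K a) := by
  unfold nbL; fun_prop

@[fun_prop] theorem pt_run {b : A → List Bool} (hx : PT x) (hv : PT v) (hb : PT b) :
    PT fun a => run (x a) (v a) (b a) := by
  refine PT.fst (PT.foldl_add (f := fun a => st (x a)) (C := fun a => (x a).1 + 1) hb (by fun_prop)
    (by unfold st; fun_prop) (PT.pb_nat (by fun_prop)) fun a p c _ => ?_)
  unfold st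
  cases h : ((nbL (x a) p.1).filter fun u => !decide (u ∈ p.2)).head? with
  | none => exact Nat.le_add_right _ _
  | some w =>
    have := List.mem_range.1 (List.mem_filter.1 (List.mem_filter.1 (List.mem_of_head? h)).1).1
    rw [sz_prod p]
    cases c <;> simp <;> omega

@[fun_prop] theorem pt_cmp (hx : PT x) (hT : PT T) (hv : PT v) :
    PT fun a => cmp (x a) (T a) (v a) := by
  refine PT.iterate (step := fun a => clo (x a) (T a)) (by fun_prop) (by fun_prop)
    (by unfold clo; fun_prop) (B := fun a => sz [v a] + sz (List.range (x a).1))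
    (PT.pb_nat (by fun_prop)) fun a i _ => ?_
  cases i with
  | zero => exact Nat.le_add_right _ _
  | succ i =>
    rw [iterate_succ_apply']
    exact (sz_le_of_sublist List.filter_sublist).trans (Nat.le_add_left _ _)

@[fun_prop] theorem pt_roots (hx : PT x) (hT : PT T) (hv : PT v) :
    PT fun a => roots (x a) (T a) (v a) := by unfold roots; fun_prop

@[fun_prop] theorem pt_uni (hx : PT x) (hT : PT T) (hu : PT u) (hv : PT v) :
    PT fun a => uni (x a) (T a) (u a) (v a) := by unfold uni; fun_prop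

@[fun_prop] theorem pt_cands (hx : PT x) (hu : PT u) (hK : PT K) :
    PT fun a => cands (x a) (u a) (K a) := by unfold cands; fun_prop

theorem pt_all : PT fun p : (ℕ × Ins) × List (List Bool) => all p.1.1 p.1.2 p.2 := by
  unfold all; fun_prop

end pt

variable {x : Ins}

theorem ad_iff {u v : ℕ} : ad x u v = true ↔
    ∃ (hu : u < x.1) (hv : v < x.1), (gOf x).Adj ⟨u, hu⟩ ⟨v, hv⟩ := by
  simp only [ad, gOf, SimpleGraph.fromRel_adj, Bool.and_eq_true, Bool.or_eq_true,
    decide_eq_true_eq, ne_eq, Fin.mk.injEq, exists_prop, and_assoc]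

theorem ad_fin {u v : Fin x.1} : ad x u v = true ↔ (gOf x).Adj u v :=
  ad_iff.trans ⟨fun ⟨_, _, h⟩ => h, fun h => ⟨u.2, v.2, h⟩⟩

theorem set_nbL (K : List ℕ) : setOf' x (nbL x K) = nb (gOf x) (setOf' x K) := by
  ext u
  simp only [setOf', nbL, nb, Set.mem_ofPred_eq, List.mem_filter, List.mem_range, u.2, true_and,
    Bool.and_eq_true, Bool.not_eq_true', decide_eq_false_iff_not, List.any_eq_true]
  refine and_congr_right fun _ => ⟨fun ⟨w, hw, h⟩ => ?_, fun ⟨w, hw, h⟩ => ⟨w, hw, ad_fin.2 h⟩⟩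
  obtain ⟨a, _, h⟩ := ad_iff.1 h
  exact ⟨⟨w, a⟩, hw, h⟩

theorem ncard_set {l : List ℕ} (nd : l.Nodup) (lt : ∀ v ∈ l, v < x.1) :
    (setOf' x l).ncard = l.length := by
  rw [← Set.ncard_image_of_injective _ Fin.val_injective, ← List.toFinset_card_of_nodup nd,
    ← Set.ncard_coe_finset]
  congr 1
  ext u
  simp only [setOf', Set.mem_image, Set.mem_ofPred_eq, List.coe_toFinset]
  exact ⟨fun ⟨_, h, e⟩ => e ▸ h, fun h => ⟨⟨u, lt u h⟩, h, rfl⟩⟩

theorem sel_ok (p : ℕ → Bool) : ((List.range x.1).filter p).Nodup ∧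
    ∀ v ∈ (List.range x.1).filter p, v < x.1 :=
  ⟨List.nodup_range.filter _, fun _ h => List.mem_range.1 (List.mem_filter.1 h).1⟩

theorem len_nbL (K : List ℕ) : (nbL x K).length = (nb (gOf x) (setOf' x K)).ncard := by
  rw [← set_nbL]
  exact (ncard_set (sel_ok _).1 (sel_ok _).2).symm

theorem run_ex {X : Set (Fin x.1)} (hX : Cn (gOf x) X) : ∀ (m : ℕ) (K T : List ℕ), K ≠ [] →
    K.Nodup → T.Nodup → (∀ v ∈ K, v < x.1) → (∀ v ∈ T, v < x.1) → setOf' x K ⊆ X →
    setOf' x T ⊆ nb (gOf x) X → X.ncard + (nb (gOf x) X).ncard ≤ m + K.length + T.length →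
    ∃ b : List Bool, b.length ≤ m ∧ setOf' x (b.foldl (st x) (K, T)).1 = X := by
  intro m
  induction m with
  | zero =>
    intro K T _ n1 n2 l1 l2 s1 s2 h
    refine ⟨[], le_rfl, Set.eq_of_subset_of_ncard_le s1 ?_⟩
    have := Set.ncard_le_ncard s2
    rw [ncard_set n2 l2] at this
    rw [List.foldl_nil, ncard_set n1 l1]
    omega
  | succ m ih =>
    intro K T ne n1 n2 l1 l2 s1 s2 h
    cases e : ((nbL x K).filter fun u => !decide (u ∈ T)).head? with
    | none =>
      refine ⟨[], Nat.zero_le _, s1.antisymm fun u hu => ?_⟩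
      obtain ⟨v, hv⟩ := List.exists_mem_of_ne_nil K ne
      have := hX.2 ⟨v, l1 v hv⟩ (s1 hv) u hu
      induction this with
      | refl => exact hv
      | @tail a b _ h2 ih2 =>
        by_contra n
        have h3 : b ∈ setOf' x (nbL x K) := by rw [set_nbL]; exact ⟨n, a, ih2 h2.2.1, h2.1⟩
        have h4 := List.filter_eq_nil_iff.1 (List.head?_eq_none_iff.1 e) b h3
        exact (s2 (show b ∈ setOf' x T by simpa [setOf'] using h4)).1 h2.2.2
    | some u =>
      obtain ⟨h1, h2⟩ := List.mem_filter.1 (List.mem_of_head? e)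
      have ul := (sel_ok _).2 u h1
      have h3 : (⟨u, ul⟩ : Fin x.1) ∈ nb (gOf x) (setOf' x K) := by rw [← set_nbL]; exact h1
      have h4 : u ∉ T := by simpa using h2
      by_cases hu : (⟨u, ul⟩ : Fin x.1) ∈ X
      · obtain ⟨b, hb, r⟩ := ih (u :: K) T (by simp) (List.nodup_cons.2 ⟨h3.1, n1⟩) n2
          (by simpa [ul] using l1) l2 (fun w hw => by
            rcases List.mem_cons.1 hw with e | hw
            · exact (Fin.ext e : w = ⟨u, ul⟩) ▸ hu
            · exact s1 hw) s2 (by simp; omega)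
        exact ⟨true :: b, by simpa using hb, by simpa [st, e] using r⟩
      · obtain ⟨b, hb, r⟩ := ih K (u :: T) ne n1 (List.nodup_cons.2 ⟨h4, n2⟩) l1
          (by simpa [ul] using l2) s1 (fun w hw => by
            rcases List.mem_cons.1 hw with e | hw
            · obtain ⟨-, a, ha, h5⟩ := h3
              exact (Fin.ext e : w = ⟨u, ul⟩) ▸ ⟨hu, a, s1 ha, h5⟩
            · exact s2 hw) (by simp; omega)
        exact ⟨false :: b, by simpa using hb, by simpa [st, e] using r⟩

theorem cmp_spec (T : List ℕ) (v : Fin x.1) : (cmp x T v).Nodup ∧ (∀ u ∈ cmp x T v, u < x.1) ∧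
    setOf' x (cmp x T v) = {u | (rst (gOf x) (setOf' x T)ᶜ).Reachable v u} := by
  set H := rst (gOf x) (setOf' x T)ᶜ with hH
  have mem : ∀ c (u : ℕ), u ∈ clo x T c ↔
      u < x.1 ∧ (u ∈ c ∨ ∃ w ∈ c, (ad x w u = true ∧ w ∉ T) ∧ u ∉ T) := by
    intro c u
    simp only [clo, List.mem_filter, List.mem_range, Bool.or_eq_true, decide_eq_true_eq,
      List.any_eq_true, Bool.and_eq_true, Bool.not_eq_true', decide_eq_false_iff_not]
  have a : ∀ i, ((clo x T)^[i] [v.val]).Nodup ∧
      ∀ u ∈ (clo x T)^[i] [v.val], ∃ h : u < x.1, H.Reachable v ⟨u, h⟩ := by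
    intro i
    induction i with
    | zero =>
      refine ⟨by simp, fun u hu => ?_⟩
      obtain rfl : u = v.val := by simpa using hu
      exact ⟨v.2, .refl _⟩
    | succ i ih =>
      rw [iterate_succ_apply']
      refine ⟨List.nodup_range.filter _, fun u hu => ?_⟩
      obtain ⟨h, h1 | ⟨w, hw, ⟨h1, h4⟩, h5⟩⟩ := (mem _ u).1 hu
      · exact ih.2 u h1
      · obtain ⟨h2, h3⟩ := ih.2 w hw
        obtain ⟨_, _, h6⟩ := ad_iff.1 h1
        exact ⟨h, h3.trans (SimpleGraph.Adj.reachable ⟨h6, h4, h5⟩)⟩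
  have b : ∀ i (u : Fin x.1) (p : H.Walk u v), p.length ≤ i → u.val ∈ (clo x T)^[i] [v.val] := by
    intro i
    induction i with
    | zero =>
      intro u p hp
      cases p with
      | nil => simp
      | cons _ _ => simp at hp
    | succ i ih =>
      intro u p hp
      rw [iterate_succ_apply', mem]
      refine ⟨u.2, ?_⟩
      cases p with
      | nil => exact Or.inl (ih _ .nil (Nat.zero_le _))
      | cons h p =>
        exact Or.inr ⟨_, ih _ p (by simpa using hp), ⟨ad_fin.2 h.1.symm, h.2.2⟩, h.2.1⟩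
  refine ⟨(a _).1, fun u hu => ((a _).2 u hu).1, Set.ext fun u =>
    ⟨fun h => ((a _).2 _ h).2, fun h => ?_⟩⟩
  obtain ⟨p, hp⟩ := (SimpleGraph.Reachable.symm h).exists_isPath
  have := hp.length_lt
  rw [Fintype.card_fin] at this
  exact b _ u p this.le

theorem mem_roots {T : List ℕ} {s v : ℕ} : v ∈ roots x T s ↔ v < x.1 ∧
    (v ∉ T ∧ (cmp x T v).length ≤ s) ∧ ∀ u ∈ cmp x T v, v ≤ u := by
  simp only [roots, List.mem_filter, List.mem_range, Bool.and_eq_true, Bool.not_eq_true',
    decide_eq_false_iff_not, decide_eq_true_eq, List.all_eq_true]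

theorem outB {k s q : ℕ} {T : List ℕ} (hT : (setOf' x T).ncard ≤ s) (hq : q ≤ s)
    {Y : Fin q → Set (Fin x.1)} (inj : Injective Y)
    (hY : ∀ i, Comp (gOf x) (setOf' x T) (Y i) ∧ (Y i).ncard ≤ s)
    (h : ∀ Y : Fin q → Set (Fin x.1), Injective Y → (∀ i, Comp (gOf x) (setOf' x T) (Y i)) →
      ∃ j ≤ q, RedIn k (gOf x) (uOf x) (⋃ i : Fin q, ⋃ _ : i.val < j, Y i)) :
    ∃ j ≤ s, (uni x T s j).length ≤ s * s + s ∧ (nbL x (uni x T s j)).length ≤ s ∧
      RedIn k (gOf x) (uOf x) (setOf' x (uni x T s j)) := by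
  have ex : ∀ i, ∃ v ∈ Y i, v.val ∈ roots x T s := by
    intro i
    obtain ⟨v, hv, mn⟩ := Set.exists_min_image (Y i) id (Set.toFinite _) (hY i).1.1.1
    obtain ⟨a, b, c⟩ := cmp_spec T v
    rw [← comp_eq (hY i).1 hv] at c
    refine ⟨v, hv, mem_roots.2 ⟨v.2, ⟨Set.disjoint_left.1 (hY i).1.2.1 hv, ?_⟩, fun u hu => ?_⟩⟩
    · rw [← ncard_set a b, c]; exact (hY i).2
    · exact mn ⟨u, b u hu⟩ (c ▸ hu)
  choose r hr hr' using ex
  have nd : (roots x T s).Nodup := (sel_ok _).1
  have le : q ≤ (roots x T s).length := by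
    have i2 : Injective fun i => (r i).val := fun i j e => inj (by
      rw [comp_eq (hY i).1 (hr i), comp_eq (hY j).1 (hr j), Fin.ext e])
    have := (List.subperm_of_subset ((List.nodup_finRange q).map i2) (l₂ := roots x T s)
      fun v hv => by obtain ⟨i, -, rfl⟩ := List.mem_map.1 hv; exact hr' i).length_le
    simpa using this
  have mr : ∀ i : Fin q, (roots x T s)[i.val]'(by omega) ∈ roots x T s := fun i => List.getElem_mem _
  let ρ : Fin q → Fin x.1 := fun i => ⟨_, (mem_roots.1 (mr i)).1⟩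
  have cp : ∀ i, Comp (gOf x) (setOf' x T) (setOf' x (cmp x T (ρ i))) := fun i => by
    rw [(cmp_spec T (ρ i)).2.2]; exact comp_reach (mem_roots.1 (mr i)).2.1.1
  have self : ∀ i, ρ i ∈ setOf' x (cmp x T (ρ i)) := fun i => by
    rw [(cmp_spec T (ρ i)).2.2]; exact SimpleGraph.Reachable.refl _
  obtain ⟨j, hj, red⟩ := h (fun i => setOf' x (cmp x T (ρ i))) (fun i i' e => by
    have a : ρ i ∈ setOf' x (cmp x T (ρ i')) := (show setOf' x _ = setOf' x _ from e) ▸ self i
    have b : ρ i' ∈ setOf' x (cmp x T (ρ i)) := (show setOf' x _ = setOf' x _ from e).symm ▸ self i'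
    exact Fin.ext ((List.Nodup.getElem_inj_iff nd).1 (le_antisymm
      ((mem_roots.1 (mr i)).2.2 _ b) ((mem_roots.1 (mr i')).2.2 _ a)))) cp
  have e : setOf' x (uni x T s j) = ⋃ i : Fin q, ⋃ _ : i.val < j, setOf' x (cmp x T (ρ i)) := by
    ext u
    simp only [setOf', uni, Set.mem_ofPred_eq, List.mem_filter, List.mem_range, u.2, true_and,
      List.any_eq_true, decide_eq_true_eq, Set.mem_iUnion, List.mem_take_iff_getElem]
    constructor
    · rintro ⟨_, ⟨i, hi, rfl⟩, hu⟩
      exact ⟨⟨i, by omega⟩, by dsimp only; omega, hu⟩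
    · rintro ⟨i, hi, hu⟩
      exact ⟨_, ⟨i, by omega, rfl⟩, hu⟩
  refine ⟨j, hj.trans hq, ?_, ?_, e ▸ red⟩
  · have h1 := (List.subperm_of_subset (l₁ := uni x T s j) (sel_ok _).1
      (l₂ := ((roots x T s).take j).flatMap (cmp x T)) fun u hu => by
        simpa using (List.mem_filter.1 hu).2).length_le
    have h2 := List.sum_le_card_nsmul (((roots x T s).take j).map fun v => (cmp x T v).length) s
      fun n hn => by
        obtain ⟨v, hv, rfl⟩ := List.mem_map.1 hn
        exact (mem_roots.1 (List.mem_of_mem_take hv)).2.1.2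
    rw [List.length_flatMap] at h1
    rw [List.length_map, smul_eq_mul] at h2
    have h3 : ((roots x T s).take j).length ≤ s := (List.length_take_le _ _).trans (hj.trans hq)
    have h4 := Nat.mul_le_mul_right s h3
    omega
  · rw [len_nbL, e]
    refine (Set.ncard_le_ncard ?_).trans hT
    rintro u ⟨hu, w, hw, a⟩
    simp only [Set.mem_iUnion, not_exists] at hu hw
    obtain ⟨i, hi, hw⟩ := hw
    exact (cp i).2.2 ⟨hu i hi, w, hw, a⟩

theorem sz_bits (l : List Bool) : sz l ≤ 2 * l.length := PT.sz_str_le l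

end AlgCand

open AlgCand

theorem cand (ka : KA) : CandSt := by
  obtain ⟨en, fe, he⟩ := ka.enum (List Bool)
  refine ⟨fun a => all a.1 a.2 (en (4 * a.1)), ?_, fun s x => ⟨fun l hl => ?_, fun k h => ?_⟩⟩
  · exact ka.comp (κ' := fun _ => 0) (ka.of_pt _ pt_all)
      (ka.pair (ka.of_pt _ PT.id) (ka.comp fe (ka.of_pt _ (by fun_prop))
        ((BB.const 4).mul (BB.self _)))) (BB.const 0)
  · obtain ⟨h1, h2⟩ := List.mem_filter.1 hl
    simp only [Bool.and_eq_true, decide_eq_true_eq, len_nbL] at h2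
    simp only [List.mem_flatMap, cands, List.mem_cons, List.mem_map] at h1
    obtain ⟨v, -, b, -, rfl | ⟨j, -, rfl⟩⟩ := h1 <;> exact ⟨(sel_ok _).1, (sel_ok _).2, h2⟩
  have key : ∀ X : Set (Fin x.1), Cn (gOf x) X → X.ncard ≤ s → (nb (gOf x) X).ncard ≤ s →
      ∃ K, setOf' x K = X ∧ ∀ l ∈ cands x s K, l.length ≤ s * s + s → (nbL x l).length ≤ s →
        l ∈ all s x (en (4 * s)) := by
    intro X hX h1 h2
    obtain ⟨v, hv⟩ := hX.1
    obtain ⟨b, hb, r⟩ := run_ex hX (2 * s) [v] [] (by simp) (by simp) (by simp) (by simp) (by simp)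
      (fun w hw => (Fin.ext (List.mem_singleton.1 hw) : w = v) ▸ hv)
      (fun w hw => absurd hw List.not_mem_nil) (by omega)
    refine ⟨run x v b, r, fun l hl a c => List.mem_filter.2 ⟨?_, by simp [a, c]⟩⟩
    have := sz_bits b
    exact List.mem_flatMap.2 ⟨v, List.mem_range.2 v.2,
      List.mem_flatMap.2 ⟨b, (he _ _).2 (by omega), hl⟩⟩
  rcases h with ⟨X, hX, -, h1, h2, red⟩ | ⟨X, q, hX, h1, h2, hq, ⟨Y, inj, hY⟩, h⟩
  · obtain ⟨K, rfl, hK⟩ := key X hX h1 h2
    have e : setOf' x ((List.range x.1).filter fun u => decide (u ∈ K)) = setOf' x K := by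
      ext u
      simp [setOf']
    refine ⟨_, hK _ List.mem_cons_self ?_ ?_, e ▸ red⟩
    · rw [← ncard_set (sel_ok _).1 (sel_ok _).2, e]
      omega
    · rwa [len_nbL, e]
  · obtain ⟨K, rfl, hK⟩ := key X hX h1 h2
    rw [← set_nbL] at h2 hY h
    obtain ⟨j, hj, a, b, c⟩ := outB h2 hq inj (fun i => ⟨(hY i).1, (hY i).2.1⟩) h
    exact ⟨_, hK _ (List.mem_cons_of_mem _
      (List.mem_map.2 ⟨j, List.mem_range.2 (by omega), rfl⟩)) a b, c⟩

end Pool.Agent.Lib.MP_c1f5fe_lc
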