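import Pool.Agent.Lib.MP_c1f5fe_lc.AlgDecB
import Pool.Agent.Lib.MP_c1f5fe_lc.Tb

/-! A solution has a small certificate; the decision procedure for small instances. -/

namespace Pool.Agent.Lib.MP_c1f5fe_lc

open Function Equiv Relation
open Pool.Agent.Lib.Complexity
open Pool.Agent.Lib.MP_c1f5fe_lc.AlgP

namespace AlgDec

theorem theta_bd {k : ℕ} {D : Type} [Finite D] (φ : Perm D) (T : D → Prop)
    (hT : ∀ d, T (φ d) ↔ T d) (w θ : D → FG k) (L : ℕ) (hL : ∀ d, (w d).norm ≤ L)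
    (h : ∀ d, ¬T d → θ d * w d = θ (φ d)) :
    ∃ η : D → FG k, (∀ d, (η d).norm ≤ (Nat.card D + 1) * L) ∧
      ∀ d, ¬T d → η d * w d = η (φ d) := by
  classical
  have := Fintype.ofFinite D
  have tp : ∀ (j : ℕ) x, T ((φ ^ j) x) ↔ T x := by
    intro j x
    induction j with
    | zero => rfl
    | succ j ih => rw [pow_succ', Perm.mul_apply, hT, ih]
  have nb : ∀ (j : ℕ) x, ¬T x → ((θ x)⁻¹ * θ ((φ ^ j) x)).norm ≤ j * L := by
    intro j x nx
    induction j with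
    | zero => simp
    | succ j ih =>
      rw [pow_succ', Perm.mul_apply, ← h _ (mt (tp j x).1 nx), ← mul_assoc]
      have := FreeGroup.norm_mul_le ((θ x)⁻¹ * θ ((φ ^ j) x)) (w ((φ ^ j) x))
      have := hL ((φ ^ j) x)
      rw [Nat.succ_mul]
      omega
  obtain ⟨b, b1, b2⟩ : ∃ b : D → D, (∀ d, φ.SameCycle (b d) d) ∧ ∀ d, b (φ d) = b d :=
    ⟨fun d => (Quotient.mk (Perm.SameCycle.setoid φ) d).out,
      fun d => Quotient.mk_out (s := Perm.SameCycle.setoid φ) d, fun d =>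
        congrArg Quotient.out (Quotient.sound
          (Perm.sameCycle_apply_left.2 (Perm.SameCycle.refl φ d)))⟩
  refine ⟨fun d => if T d then 1 else (θ (b d))⁻¹ * θ d, fun d => ?_, fun d nd => ?_⟩
  · beta_reduce
    split_ifs with nd
    · simp
    · obtain ⟨j, -, l, hj⟩ := (b1 d).exists_pow_eq φ
      have a := nb j (b d) fun q => nd (hj ▸ (tp j _).2 q)
      rw [hj] at a
      have := Finset.card_le_univ (φ.cycleOf (b d)).support
      rw [Nat.card_eq_fintype_card]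
      exact a.trans (Nat.mul_le_mul_right _ (by omega))
  · beta_reduce
    rw [if_neg nd, if_neg (mt (hT d).1 nd), b2, mul_assoc, h d nd]

theorem cg_fwd {k c : ℕ} {x : Ins} (g1 : Indep (gOf x) (uOf x))
    (g2 : Nat.card (gOf x).ConnectedComponent ≤ 2 * k + 1) (hk : 2 * k + 1 ≤ c) (hn : x.1 ≤ c) :
    ∃ rt rv : List ℕ, sz rt ≤ c * (c + 1) ∧ sz rv ≤ c * (c + 1) ∧
      CG k x.1 x.2.1 x.2.2 rt rv := by
  let e := Finite.equivFin (gOf x).ConnectedComponent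
  let rt := tb e fun C => C.out.val
  obtain ⟨rv, r1, r2⟩ := rank_ex (gOf x).Adj (fun v => v.val ∈ rt) fun v =>
    ⟨((gOf x).connectedComponentMk v).out,
      List.mem_ofFn.2 ⟨e ((gOf x).connectedComponentMk v), by simp⟩,
      (SimpleGraph.reachable_iff_reflTransGen _ _).1
        (SimpleGraph.ConnectedComponent.exact (Quot.out_eq _))⟩
  refine ⟨rt, tb (Equiv.refl _) rv, sz_tb _ _ (g2.trans hk) fun C => ?_,
    sz_tb _ _ hn fun v => ?_, ?_, (length_tb _ _).trans_le g2, ?_⟩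
  · simpa using C.out.2.le.trans hn
  · simpa using (r1 v).trans (by simpa using hn)
  · simp only [allL_fin, adj_iff]
    exact fun u v a b => g1 u a v b
  · have hr : ∀ v : Fin x.1, lk (tb (Equiv.refl _) rv) v = rv v := lk_tb (Equiv.refl _) rv
    simp only [allL_fin, exL_fin, adj_iff, hr]
    exact r2

theorem cm_fwd {k N c : ℕ} {D : Type} [Finite D] (e : D ≃ Fin N) (M : HMap D) {ph al : List ℕ}
    (hφ : ∀ d, lk ph (e d) = e (M.φ d)) (hα : ∀ d, lk al (e d) = e (M.α d)) (con : M.Con)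
    (chi : 2 - 2 * (k : ℤ) ≤ M.chi) (hN : N ≤ c) :
    ∃ rk : List ℕ, sz rk ≤ c * (c + 1) ∧ CM k N ph al rk := by
  have cd : Nat.card D = N := by rw [Nat.card_congr e]; simp
  have tr : ∀ {a b}, Conn M.φ M.α a b →
      ReflTransGen (fun x y => y = M.φ x ∨ y = M.α x ∨ x = M.φ y ∨ x = M.α y) a b := by
    intro a b p
    induction p with
    | rel x y h => exact .single (by tauto)
    | refl => exact .refl
    | symm x y _ ih =>
      clear * - ih
      induction ih with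
      | refl => exact .refl
      | tail _ s ih => exact .head (by tauto) ih
    | trans x y z _ _ p q => exact p.trans q
  obtain ⟨rk, r1, r2⟩ := rank_ex (fun x y => y = M.φ x ∨ y = M.α x ∨ x = M.φ y ∨ x = M.α y)
    (fun d => (e d).val = 0) fun d => ⟨e.symm ⟨0, (e d).pos⟩, by simp, tr (con _ _)⟩
  have ei : ∀ a b, (e a).val = (e b).val ↔ a = b := fun a b => by
    rw [← Fin.ext_iff, e.injective.eq_iff]
  refine ⟨tb e rk, sz_tb _ _ hN fun d => ?_, ?_, ?_, ?_⟩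
  · simpa using (r1 d).trans (cd.le.trans hN)
  · simp only [allL_iff e, hφ, hα, ei]
    exact fun d => ⟨(e _).2, (e _).2, M.αα d, fun d' q => M.φ.injective q⟩
  · simp only [allL_iff e, exL_iff e, hφ, hα, ei, lk_tb]
    exact r2
  · have e3 := cyc_eq (t := sg N ph al) (π := M.φ * M.α) e fun d => by
      rw [lk_sg _ _ (e d).2, hα, hφ, Perm.mul_apply]
    rw [cyc_eq e hφ, cyc_eq e hα, e3]
    simp only [HMap.chi, MP_c1f5fe_lc.chi, cd] at chi
    omega

theorem eqv_wd {k : ℕ} {a b c : FG k} (h : a * b = c) : Eqv (wd a ++ wd b) (wd c) := by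
  rw [Eqv, ← FreeGroup.mul_mk, mk_wd, mk_wd, mk_wd, ← map_mul, h]

theorem fwd {k B : ℕ} {x : Ins} {D : Type} [Finite D] (S : Sk k (gOf x) (uOf x) D)
    (w : D → FG k) (top : S.Top) (val : S.Valid w) (g1 : Indep (gOf x) (uOf x))
    (g2 : Nat.card (gOf x).ConnectedComponent ≤ 2 * k + 1) (hN : Nat.card D ≤ B) (hn : x.1 ≤ B)
    (hk : k ≤ B) (hL : ∀ d, (w d).norm ≤ B) :
    ∃ W : Wit, sz W ≤ 11 * ((2 * B + 5) ^ 3 * ((2 * B + 5) ^ 3 + 1)) + 10 ∧ Chk k x W := by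
  classical
  obtain ⟨θ₀, h₀⟩ := val.pot
  obtain ⟨θ, θ1, θ2⟩ := theta_bd S.φ S.IsT S.isT_φ w θ₀ B hL h₀
  obtain ⟨c, hc⟩ : ∃ c, c = (2 * B + 5) ^ 3 := ⟨_, rfl⟩
  rw [← hc]
  have c3 : (B + 1) * B * (B + 5) ≤ c := by
    rw [hc, pow_succ, pow_two]
    exact Nat.mul_le_mul (Nat.mul_le_mul (by omega) (by omega)) (by omega)
  have c2 : (2 * B + 5) * (2 * B + 5) ≤ c := by
    rw [hc, pow_succ, pow_two]
    exact Nat.le_mul_of_pos_right _ (by omega)
  have c1 : 2 * B + 5 ≤ c := (Nat.le_mul_of_pos_right _ (by omega)).trans c2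
  generalize hN' : Nat.card D = N at hN θ1
  obtain ⟨e⟩ : Nonempty (D ≃ Fin N) := ⟨hN' ▸ Finite.equivFin D⟩
  have Nc : N ≤ c := by omega
  have ec : ∀ d, sz (e d).val ≤ c := fun d => by simpa using (e d).2.le.trans Nc
  obtain ⟨rt, rv, z1, z2, hG⟩ := cg_fwd (c := c) g1 g2 (by omega) (by omega)
  obtain ⟨ph, z3, lph, hφ⟩ : ∃ t : List ℕ, sz t ≤ c * (c + 1) ∧ t.length = N ∧
      ∀ d, lk t (e d) = e (S.φ d) :=
    ⟨tb e fun d => (e (S.φ d)).val, sz_tb _ _ Nc fun d => ec _, length_tb _ _, lk_tb e _⟩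
  obtain ⟨al, z4, hα⟩ : ∃ t : List ℕ, sz t ≤ c * (c + 1) ∧ ∀ d, lk t (e d) = e (S.α d) :=
    ⟨tb e fun d => (e (S.α d)).val, sz_tb _ _ Nc fun d => ec _, lk_tb e _⟩
  obtain ⟨rk, z5, hM⟩ := cm_fwd e S.toHMap hφ hα top.1 top.2 Nc
  obtain ⟨vx, z6, hv⟩ : ∃ t : List ℕ, sz t ≤ c * (c + 1) ∧ ∀ d, lk t (e d) = vo (S.vx d) :=
    ⟨tb e fun d => vo (S.vx d), sz_tb _ _ Nc fun d => by
      simpa using (vo_le _).trans (by omega), lk_tb e _⟩
  obtain ⟨tm, z7, ht⟩ : ∃ t : List ℕ, sz t ≤ c * (c + 1) ∧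
      ∀ i : Fin k, lk t i = e (S.term i) :=
    ⟨tb (Equiv.refl _) fun i => (e (S.term i)).val, sz_tb _ _ (by omega) fun d => ec _,
      lk_tb (Equiv.refl _) _⟩
  obtain ⟨re, z8, hr⟩ : ∃ t : List Bool, sz t ≤ c * (c + 1) ∧
      ∀ d, lk t (e d) = true ↔ S.real d :=
    ⟨tb e fun d => decide (S.real d), sz_tb _ _ Nc fun d => (sz_bool _).trans (by omega),
      fun d => by simp [lk_tb]⟩
  obtain ⟨wt, z9, hw⟩ : ∃ t : List Wd, sz t ≤ c * (c + 1) ∧ ∀ d, lk t (e d) = wd (w d) :=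
    ⟨tb e fun d => wd (w d), sz_tb _ _ Nc fun d => (sz_wd _).trans
      ((Nat.mul_le_mul ((hL d).trans (by omega)) (by omega)).trans c2), lk_tb e _⟩
  obtain ⟨th, z10, hθ⟩ : ∃ t : List Wd, sz t ≤ c * (c + 1) ∧ ∀ d, lk t (e d) = wd (θ d) :=
    ⟨tb e fun d => wd (θ d), sz_tb _ _ Nc fun d => (sz_wd _).trans
      ((Nat.mul_le_mul ((θ1 d).trans (Nat.mul_le_mul_right _ (by omega))) (by omega)).trans c3),
      lk_tb e _⟩
  obtain ⟨ok, z11, ho⟩ : ∃ t : List (Lb × Lb), sz t ≤ c * (c + 1) ∧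
      ∀ p, p ∈ t ↔ ∃ a b, S.ok a b ∧ p = (em a, em b) := by
    refine ⟨((Finset.univ.filter fun p : Lab k × Lab k => S.ok p.1 p.2).toList).map
      fun p => (em p.1, em p.2), (sz_list_le (B := c) fun p hp => ?_).trans
        (Nat.mul_le_mul_right _ ?_), fun p => by simp [eq_comm]⟩
    · obtain ⟨q, -, rfl⟩ := List.mem_map.1 hp
      have := sz_em q.1
      have := sz_em q.2
      simp only [sz_pair]
      omega
    · rw [List.length_map, Finset.length_toList]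
      refine (Finset.card_le_univ _).trans (le_trans ?_ c2)
      simp only [Fintype.card_prod, Fintype.card_fin, Fintype.card_bool]
      exact Nat.mul_le_mul (by omega) (by omega)
  have ho' : ∀ a b, (em a, em b) ∈ ok ↔ S.ok a b := fun a b =>
    (ho _).trans ⟨fun ⟨a', b', o, q⟩ => by
      rw [em_inj (Prod.mk.inj q).1, em_inj (Prod.mk.inj q).2]; exact o, fun o => ⟨a, b, o, rfl⟩⟩
  have hσ : ∀ d, lk (sg N ph al) (e d) = e (S.toHMap.σ d) := fun d => by
    rw [lk_sg _ _ (e d).2, hα, hφ]; rfl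
  have scφ := sc_iff e hφ
  have scσ := sc_iff e hσ
  have ei : ∀ a b, (e a).val = (e b).val ↔ a = b := fun a b => by
    rw [← Fin.ext_iff, e.injective.eq_iff]
  have adj' : ∀ {a b : Option (Fin x.1)}, (∃ u v, a = some u ∧ b = some v ∧ (gOf x).Adj u v) →
      vo a < x.1 ∧ vo b < x.1 ∧ adj x.2.1 (vo a) (vo b) := by
    rintro _ _ ⟨u, v, rfl, rfl, a⟩
    exact ⟨u.2, v.2, (adj_iff x u v).2 a⟩
  refine ⟨((ph, al, rk, vx), (rt, rv, tm, re), wt, th, ok), by simp only [sz_pair]; omega,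
    hG, lph ▸ hM, ?_, ?_, ?_⟩
  · dsimp only
    rw [lph]
    simp only [CS, allL_iff e, exL_iff e, allL_fin (N := x.1), hφ, hα, hv, hr, scσ, ei, adj_iff,
      vo_eq]
    refine ⟨fun d => by rw [S.vx_σ], fun d d' l q => ?_, fun d r =>
      ⟨S.real_α d r, adj' (S.real_adj d r)⟩, fun u v a => (S.real_ex u v a).exists,
      fun d d' r r' p q => ?_, fun d l u => ?_⟩
    · obtain ⟨v, a⟩ := vo_lt l
      exact S.vx_cyc d d' v a (vo_inj q ▸ a)
    · obtain ⟨u, v, a, b, c⟩ := S.real_adj d r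
      exact (S.real_ex u v c).unique ⟨r, a, b⟩ ⟨r', vo_inj p ▸ a, vo_inj q ▸ b⟩
    · obtain ⟨v, a⟩ := vo_lt l
      rw [a] at u
      obtain ⟨r, p, q⟩ := S.cap d v a u
      exact ⟨r, p, adj' q⟩
  · dsimp only
    rw [lph]
    simp only [CT, allL_iff e, allL_fin (N := k), ht, hφ, hv, hw, scφ, ei]
    refine ⟨fun i => ⟨(e _).2, fun d s => by rw [S.term_vx i d s]; exact le_rfl, S.term_four i,
      ?_, ?_, ?_, ?_⟩, fun p hp => ?_⟩
    · rw [Eqv, mk_wd, val.t0]; rfl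
    · rw [Eqv, mk_wd, val.t1]; rfl
    · rw [Eqv, mk_wd, val.t2, mk_false, map_inv]; rfl
    · rw [Eqv, mk_wd, val.t3, mk_false, map_inv]; rfl
    · obtain ⟨⟨i, a⟩, ⟨j, b⟩, o, rfl⟩ := (ho p).1 hp
      have n : i ≠ j := by rintro rfl; exact S.ok_idx i a b o
      exact ⟨(ho' _ _).2 (S.ok_symm _ _ o), fun q => n (Fin.ext q),
        fun q => S.ok_once i j a b n o ((ho' (i, !a) (j, !b)).1 q)⟩
  · dsimp only
    rw [lph]
    simp only [CW, allL_iff e, allL_fin (N := k), exL_fin (N := k), ht, hφ, hα, hv, hw, hθ, hr,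
      scφ, fst_wd]
    refine ⟨fun d => ⟨eqv_wd (c := 1) (by rw [val.inv, inv_mul_cancel]), ?_, fun r => ?_⟩,
      fun d d' r r' q i a b => ?_⟩
    · by_cases t : S.IsT d
      · exact .inl t
      · exact .inr (eqv_wd (θ2 d t))
    · exact List.pairwise_map.2 ((val.edge d r).imp fun o => (ho' _ _).2 o)
    · exact val.vert d d' i r r' (vo_inj q)
        ((List.mem_map_of_injective em_inj (a := (i, false))).1 a)
        ((List.mem_map_of_injective em_inj (a := (i, true))).1 b)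

theorem card_dart (n : ℕ) (G : SimpleGraph (Fin n)) : Nat.card G.Dart ≤ n * n := by
  have := Nat.card_le_card_of_injective _ (SimpleGraph.Dart.toProd_injective (G := G))
  simpa using this

end AlgDec

open AlgDec

theorem dec (K : KA) (hP : PrepSt) (hM : MinSt) (hE : E1St) : DecSt := by
  obtain ⟨h₁, hP⟩ := hP
  obtain ⟨h₂, hE⟩ := hE
  have k1 : TB (fun a : ℕ × Ins => a.1 + a.2.1) fun a => a.1 :=
    TB.of_le fun _ => Nat.le_add_right _ _
  have n1 : TB (fun a : ℕ × Ins => a.1 + a.2.1) fun a => a.2.1 :=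
    TB.of_le fun _ => Nat.le_add_left _ _
  have b1 := (((((TB.const 3).mul (n1.mul n1)).add (k1.tw h₁)).add (k1.tw h₂)).add n1).add k1
  have b2 := (((TB.const 2).mul b1).add (TB.const 5)).pow (TB.const 3)
  obtain ⟨H, hH⟩ := ((TB.const 11).mul (b2.mul b2.succ)).add (TB.const 10)
  have key : ∀ a : ℕ × Ins, PPI a.1 a.2 ↔
      ∃ W : Wit, sz W ≤ tw H (a.1 + a.2.1) ∧ Chk a.1 a.2 W := by
    rintro ⟨k, x⟩
    dsimp only
    refine ⟨fun ⟨g1, g2, s⟩ => ?_, fun ⟨W, _, c⟩ => bwd c⟩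
    obtain ⟨D, _, S, w₀, top, v₀, nf⟩ := hP k _ _ _ s g2
    obtain ⟨w, val, mn, -⟩ := (hM k _ D _ _ S w₀ v₀).2
    have a1 := nf.size
    have a2 := card_dart _ (gOf x)
    obtain ⟨W, z, c⟩ := fwd (B := 3 * (x.1 * x.1) + tw h₁ k + tw h₂ k + x.1 + k) S w top val g1 g2
      (by omega) (by omega) (by omega)
      fun d => (hE k _ D _ _ S w top val mn d).trans (by omega)
    exact ⟨W, z.trans (hH (k, x)), c⟩
  have := K.ex_sz (κ := fun a : ℕ × Ins => a.1 + a.2.1) (μ := fun _ => 0)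
    (f := fun a => tw H (a.1 + a.2.1)) (κ' := fun _ => 0)
    (p := fun q : (ℕ × Ins) × Wit => Chk q.1.1 q.1.2 q.2)
    (K.comp (K.tw H) (K.of_pt _ (by fun_prop)) (BB.self _))
    (BB.of_TB ((TB.self _).tw H)) (AlgP.fd K _ pt_Chk) (BB.const 0) fun _ _ _ => le_rfl
  unfold DecSt
  rw [funext fun a => propext (key a)]
  exact this

end Pool.Agent.Lib.MP_c1f5fe_lc
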