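import Pool.Agent.Lib.MP_c1f5fe_lc.AlgP

/-! The certificate of a solution and its check. -/

namespace Pool.Agent.Lib.MP_c1f5fe_lc.AlgDec

open Function Equiv
open Pool.Agent.Lib.Complexity
open Pool.Agent.Lib.MP_c1f5fe_lc.AlgP

abbrev Lb : Type := ℕ × Bool

abbrev Wd : Type := List (Lb × Bool)

def SCt (N : ℕ) (t : List ℕ) (d e : ℕ) : Prop := ExL (N + 2) fun j => itr t j d = e

noncomputable def cyc (N : ℕ) (t : List ℕ) : ℕ := cnt N fun d => AllL d fun e => ¬SCt N t d e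

def Eqv (a b : Wd) : Prop := FreeGroup.mk a = FreeGroup.mk b

def adj (E : List (ℕ × ℕ)) (u v : ℕ) : Prop := u ≠ v ∧ ((u, v) ∈ E ∨ (v, u) ∈ E)

def sg (N : ℕ) (ph al : List ℕ) : List ℕ := (List.range N).map fun d => lk ph (lk al d)

/-- caps and components -/
def CG (k n : ℕ) (E : List (ℕ × ℕ)) (U rt rv : List ℕ) : Prop :=
  (AllL n fun u => AllL n fun v => Imp (u ∈ U) (Imp (v ∈ U) (¬adj E u v))) ∧
    rt.length ≤ 2 * k + 1 ∧
    AllL n fun v => v ∈ rt ∨ ExL n fun u => adj E u v ∧ lk rv u < lk rv v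

/-- the map -/
def CM (k N : ℕ) (ph al rk : List ℕ) : Prop :=
  (AllL N fun d => lk ph d < N ∧ lk al d < N ∧ lk al (lk al d) = d ∧
      AllL N fun e => Imp (lk ph d = lk ph e) (d = e)) ∧
    (AllL N fun d => d = 0 ∨ ExL N fun e =>
      (d = lk ph e ∨ d = lk al e ∨ e = lk ph d ∨ e = lk al d) ∧ lk rk e < lk rk d) ∧
    N + 2 ≤ cyc N ph + cyc N al + cyc N (sg N ph al) + 2 * k

/-- labels -/
def CS (n : ℕ) (E : List (ℕ × ℕ)) (U : List ℕ) (N : ℕ) (ph al vx : List ℕ) (re : List Bool) :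
    Prop :=
  (AllL N fun d => lk vx (lk ph (lk al d)) = lk vx d) ∧
    (AllL N fun d => AllL N fun e =>
      Imp (lk vx d < n) (Imp (lk vx d = lk vx e) (SCt N (sg N ph al) d e))) ∧
    (AllL N fun d => Imp (lk re d = true) (lk re (lk al d) = true ∧ lk vx d < n ∧
      lk vx (lk al d) < n ∧ adj E (lk vx d) (lk vx (lk al d)))) ∧
    (AllL n fun u => AllL n fun v => Imp (adj E u v)
      (ExL N fun d => lk re d = true ∧ lk vx d = u ∧ lk vx (lk al d) = v)) ∧
    (AllL N fun d => AllL N fun e => Imp (lk re d = true) (Imp (lk re e = true)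
      (Imp (lk vx d = lk vx e) (Imp (lk vx (lk al d) = lk vx (lk al e)) (d = e))))) ∧
    AllL N fun d => Imp (lk vx d < n) (Imp (lk vx d ∈ U) (lk re d = true ∧
      lk ph (lk ph (lk ph d)) = d ∧ lk vx (lk ph d) < n ∧ lk vx (lk ph (lk ph d)) < n ∧
      adj E (lk vx (lk ph d)) (lk vx (lk ph (lk ph d)))))

/-- terminals -/
def CT (k n N : ℕ) (ph vx tm : List ℕ) (w : List Wd) (ok : List (Lb × Lb)) : Prop :=
  (AllL k fun i => lk tm i < N ∧ (AllL N fun d => Imp (SCt N ph (lk tm i) d) (n ≤ lk vx d)) ∧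
      lk ph (lk ph (lk ph (lk ph (lk tm i)))) = lk tm i ∧
      Eqv (lk w (lk tm i)) [((i, false), true)] ∧
      Eqv (lk w (lk ph (lk tm i))) [((i, true), true)] ∧
      Eqv (lk w (lk ph (lk ph (lk tm i)))) [((i, false), false)] ∧
      Eqv (lk w (lk ph (lk ph (lk ph (lk tm i))))) [((i, true), false)]) ∧
    AllM ok fun p => (p.2, p.1) ∈ ok ∧ p.1.1 ≠ p.2.1 ∧
      ¬((p.1.1, !p.1.2), (p.2.1, !p.2.2)) ∈ ok

/-- words -/
def CW (k N : ℕ) (ph al vx tm : List ℕ) (re : List Bool) (w th : List Wd) (ok : List (Lb × Lb)) :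
    Prop :=
  (AllL N fun d => Eqv (lk w (lk al d) ++ lk w d) [] ∧
      ((ExL k fun i => SCt N ph (lk tm i) d) ∨ Eqv (lk th d ++ lk w d) (lk th (lk ph d))) ∧
      Imp (lk re d = true) (((lk w d).map Prod.fst).Pairwise fun x y => (x, y) ∈ ok)) ∧
    AllL N fun d => AllL N fun e => Imp (lk re d = true) (Imp (lk re e = true)
      (Imp (lk vx d = lk vx e) (AllL k fun i => Imp ((i, false) ∈ (lk w d).map Prod.fst)
        (¬(i, true) ∈ (lk w e).map Prod.fst))))

abbrev Wit : Type :=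
  (List ℕ × List ℕ × List ℕ × List ℕ) × (List ℕ × List ℕ × List ℕ × List Bool) ×
    List Wd × List Wd × List (Lb × Lb)

def Chk (k : ℕ) (x : Ins) (W : Wit) : Prop :=
  CG k x.1 x.2.1 x.2.2 W.2.1.1 W.2.1.2.1 ∧ CM k W.1.1.length W.1.1 W.1.2.1 W.1.2.2.1 ∧
    CS x.1 x.2.1 x.2.2 W.1.1.length W.1.1 W.1.2.1 W.1.2.2.2 W.2.1.2.2.2 ∧
    CT k x.1 W.1.1.length W.1.1 W.1.2.2.2 W.2.1.2.2.1 W.2.2.1 W.2.2.2.2 ∧
    CW k W.1.1.length W.1.1 W.1.2.1 W.1.2.2.2 W.2.1.2.2.1 W.2.1.2.2.2 W.2.2.1 W.2.2.2.1 W.2.2.2.2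

section pt
variable {A : Type} [Enc A]

@[fun_prop] theorem pt_SCt {N d e : A → ℕ} {t : A → List ℕ} (hN : PT N) (ht : PT t) (hd : PT d)
    (he : PT e) : PT fun a => SCt (N a) (t a) (d a) (e a) := by
  unfold SCt; fun_prop

@[fun_prop] theorem pt_cyc {N : A → ℕ} {t : A → List ℕ} (hN : PT N) (ht : PT t) :
    PT fun a => cyc (N a) (t a) := by
  unfold cyc; fun_prop

def rstep (x : Lb × Bool) (l : Wd) : Wd :=
  List.casesOn (motive := fun _ => Wd) l [x] fun y r =>
    if x.1 = y.1 ∧ x.2 = !y.2 then r else x :: y :: r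

theorem reduce_eq (l : Wd) : FreeGroup.reduce l = l.foldr rstep [] := by
  induction l with
  | nil => rfl
  | cons x l ih => rw [FreeGroup.reduce.cons, ih]; rfl

@[fun_prop] theorem pt_reduce {l : A → Wd} (hl : PT l) : PT fun a => FreeGroup.reduce (l a) := by
  have := PT.foldr_add' (f := fun _ => rstep) (g := fun _ x => sz x + 1) hl (PT.const [])
    (by unfold rstep; fun_prop) (by fun_prop) fun _ x l => by
      rcases l with _ | ⟨y, r⟩
      · simp [rstep]
      · simp only [rstep]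
        split_ifs <;> simp only [sz_cons] <;> omega
  exact this.of_eq fun a => (reduce_eq _).symm

@[fun_prop] theorem pt_Eqv {l m : A → Wd} (hl : PT l) (hm : PT m) :
    PT fun a => Eqv (l a) (m a) :=
  AlgP.congr (AlgP.eq (pt_reduce hl) (pt_reduce hm)) fun _ =>
    ⟨FreeGroup.reduce.exact, FreeGroup.reduce.sound⟩

@[fun_prop] theorem pt_adj {E : A → List (ℕ × ℕ)} {u v : A → ℕ} (hE : PT E) (hu : PT u)
    (hv : PT v) : PT fun a => adj (E a) (u a) (v a) := by
  unfold adj; fun_prop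

@[fun_prop] theorem pt_sg {N : A → ℕ} {s t : A → List ℕ} (hN : PT N) (hs : PT s) (ht : PT t) :
    PT fun a => sg (N a) (s a) (t a) := by
  unfold sg; fun_prop

theorem pt_CG {k n : A → ℕ} {E : A → List (ℕ × ℕ)} {U rt rv : A → List ℕ} (h1 : PT k)
    (h2 : PT n) (h3 : PT E) (h4 : PT U) (h5 : PT rt) (h6 : PT rv) :
    PT fun a => CG (k a) (n a) (E a) (U a) (rt a) (rv a) := by
  unfold CG; fun_prop

theorem pt_CM {k N : A → ℕ} {ph al rk : A → List ℕ} (h1 : PT k) (h2 : PT N) (h3 : PT ph)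
    (h4 : PT al) (h5 : PT rk) : PT fun a => CM (k a) (N a) (ph a) (al a) (rk a) := by
  unfold CM; fun_prop

theorem pt_CS {n N : A → ℕ} {E : A → List (ℕ × ℕ)} {U ph al vx : A → List ℕ}
    {re : A → List Bool} (h1 : PT n) (h2 : PT E) (h3 : PT U) (h4 : PT N) (h5 : PT ph)
    (h6 : PT al) (h7 : PT vx) (h8 : PT re) :
    PT fun a => CS (n a) (E a) (U a) (N a) (ph a) (al a) (vx a) (re a) := by
  unfold CS; fun_prop

theorem pt_CT {k n N : A → ℕ} {ph vx tm : A → List ℕ} {w : A → List Wd}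
    {ok : A → List (Lb × Lb)} (h1 : PT k) (h2 : PT n) (h3 : PT N) (h4 : PT ph) (h5 : PT vx)
    (h6 : PT tm) (h7 : PT w) (h8 : PT ok) :
    PT fun a => CT (k a) (n a) (N a) (ph a) (vx a) (tm a) (w a) (ok a) := by
  unfold CT; fun_prop

theorem pt_CW {k N : A → ℕ} {ph al vx tm : A → List ℕ} {re : A → List Bool}
    {w th : A → List Wd} {ok : A → List (Lb × Lb)} (h1 : PT k) (h2 : PT N) (h3 : PT ph)
    (h4 : PT al) (h5 : PT vx) (h6 : PT tm) (h7 : PT re) (h8 : PT w) (h9 : PT th) (h10 : PT ok) :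
    PT fun a => CW (k a) (N a) (ph a) (al a) (vx a) (tm a) (re a) (w a) (th a) (ok a) := by
  unfold CW; fun_prop

theorem pt_Chk : PT fun a : (ℕ × Ins) × Wit => Chk a.1.1 a.1.2 a.2 := by
  unfold Chk
  refine AlgP.and (pt_CG ?_ ?_ ?_ ?_ ?_ ?_) (AlgP.and (pt_CM ?_ ?_ ?_ ?_ ?_)
    (AlgP.and (pt_CS ?_ ?_ ?_ ?_ ?_ ?_ ?_ ?_) (AlgP.and (pt_CT ?_ ?_ ?_ ?_ ?_ ?_ ?_ ?_)
      (pt_CW ?_ ?_ ?_ ?_ ?_ ?_ ?_ ?_ ?_ ?_)))) <;> fun_prop

end pt

/-! ### meaning of the tables -/

section sem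
variable {D : Type} {N : ℕ} (e : D ≃ Fin N) {t : List ℕ} {π : Perm D}

theorem itr_eq (h : ∀ d, lk t (e d) = e (π d)) (j : ℕ) (d : D) :
    itr t j (e d) = e ((π ^ j) d) := by
  induction j with
  | zero => rfl
  | succ j ih =>
    unfold itr at ih ⊢
    rw [iterate_succ_apply', ih, h, pow_succ', Perm.mul_apply]

theorem sc_iff (h : ∀ d, lk t (e d) = e (π d)) (x y : D) :
    SCt N t (e x) (e y) ↔ π.SameCycle x y := by
  classical
  have : Fintype D := Fintype.ofEquiv _ e.symm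
  constructor
  · rintro ⟨j, -, hj⟩
    rw [itr_eq e h] at hj
    exact ⟨j, by simpa using e.injective (Fin.ext hj)⟩
  · intro s
    obtain ⟨j, -, l, hj⟩ := s.exists_pow_eq π
    refine ⟨j, ?_, (itr_eq e h j x).trans (by rw [hj])⟩
    have := Finset.card_le_univ (π.cycleOf x).support
    rw [Fintype.card_congr e, Fintype.card_fin] at this
    omega

theorem cyc_eq (h : ∀ d, lk t (e d) = e (π d)) : cyc N t = ncyc π := by
  rw [cyc, cnt_eq, ncyc]
  have key : ∀ i : Fin N, (AllL i fun j => ¬SCt N t i j) ↔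
      ∀ y, e y < i → ¬π.SameCycle (e.symm i) y := by
    intro i
    constructor
    · intro a y l s
      exact a (e y) l (by simpa using (sc_iff e h (e.symm i) y).2 s)
    · intro a j l s
      refine a (e.symm ⟨j, l.trans i.2⟩) (by simpa [Fin.lt_def] using l)
        ((sc_iff e h _ _).1 (by simpa using s))
  refine Nat.card_congr (Equiv.ofBijective (fun i => Quotient.mk _ (e.symm i.1)) ⟨?_, ?_⟩)
  · rintro ⟨i, hi⟩ ⟨j, hj⟩ q
    have s : π.SameCycle (e.symm i) (e.symm j) := Quotient.exact q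
    rcases lt_trichotomy i j with l | l | l
    · exact absurd s.symm ((key j).1 hj _ (by simpa using l))
    · exact Subtype.ext l
    · exact absurd s ((key i).1 hi _ (by simpa using l))
  · intro c
    obtain ⟨x, rfl⟩ := Quotient.exists_rep c
    obtain ⟨i, hi, m⟩ := wellFounded_lt.has_min {i : Fin N | π.SameCycle x (e.symm i)}
      ⟨e x, by simpa using Perm.SameCycle.refl π x⟩
    refine ⟨⟨i, (key i).2 fun y l s => m (e y) ?_ l⟩, Quotient.sound hi.symm⟩
    simpa using Perm.SameCycle.trans hi s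

theorem lk_sg (ph al : List ℕ) {d : ℕ} (h : d < N) : lk (sg N ph al) d = lk ph (lk al d) := by
  unfold sg
  rw [lk, List.getD_eq_getElem _ _ (by simpa using h)]
  simp

end sem

/-! ### vertices and words -/

def ov (n x : ℕ) : Option (Fin n) := if h : x < n then some ⟨x, h⟩ else none

def vo {n : ℕ} (o : Option (Fin n)) : ℕ := o.elim n Fin.val

theorem ov_some {n x : ℕ} {v : Fin n} : ov n x = some v ↔ x = v := by
  unfold ov
  split_ifs with h
  · simp [Fin.ext_iff]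
  · have := v.2
    simp; omega

theorem ov_none {n x : ℕ} : ov n x = none ↔ n ≤ x := by
  unfold ov
  split_ifs with h <;> simp <;> omega

theorem vo_eq {n : ℕ} {o : Option (Fin n)} {v : Fin n} : vo o = v ↔ o = some v := by
  rcases o with _ | u
  · have := v.2
    simp [vo]; omega
  · simp [vo, Fin.ext_iff]

theorem vo_lt {n : ℕ} {o : Option (Fin n)} (h : vo o < n) : ∃ v, o = some v :=
  ⟨⟨_, h⟩, vo_eq.1 rfl⟩

theorem vo_le {n : ℕ} (o : Option (Fin n)) : vo o ≤ n := by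
  rcases o with _ | u
  · exact le_rfl
  · exact u.2.le

theorem vo_inj {n : ℕ} {o o' : Option (Fin n)} (h : vo o = vo o') : o = o' := by
  rcases o' with _ | u
  · rcases o with _ | v
    · rfl
    · exact absurd h v.2.ne
  · exact vo_eq.1 h

theorem adj_iff (x : Ins) (u v : Fin x.1) : adj x.2.1 u v ↔ (gOf x).Adj u v := by
  simp [adj, gOf, SimpleGraph.fromRel_adj, Fin.ext_iff]

def em {k : ℕ} (x : Lab k) : Lb := (x.1, x.2)

theorem em_inj {k : ℕ} : Injective (em (k := k)) := fun _ _ h =>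
  Prod.ext (Fin.ext (congrArg Prod.fst h)) (congrArg (Prod.snd : Lb → Bool) h)

def pr (k : ℕ) : FreeGroup Lb →* FG k :=
  FreeGroup.lift fun x => if h : x.1 < k then .of (⟨x.1, h⟩, x.2) else 1

theorem pr_of {k : ℕ} (i : Fin k) (b : Bool) : pr k (.of (i, b)) = .of (i, b) := by
  simp [pr]

theorem mk_true {B : Type} (x : B) : FreeGroup.mk [(x, true)] = .of x := rfl

theorem mk_false {B : Type} (x : B) : FreeGroup.mk [(x, false)] = (FreeGroup.of x)⁻¹ := by
  rw [← mk_true, FreeGroup.inv_mk]; rfl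

theorem pr_mk (k : ℕ) (l : Wd) : ∃ m : List (Let k), pr k (.mk l) = .mk m ∧
    ((m.map Prod.fst).map em).Sublist (l.map Prod.fst) := by
  induction l with
  | nil => exact ⟨[], map_one _, by simp⟩
  | cons x l ih =>
    obtain ⟨m, e, s⟩ := ih
    obtain ⟨⟨i, b⟩, c⟩ := x
    have e0 : FreeGroup.mk (((i, b), c) :: l) = .mk [((i, b), c)] * .mk l := rfl
    by_cases h : i < k
    · refine ⟨((⟨i, h⟩, b), c) :: m, ?_, s.cons_cons _⟩
      have e1 : FreeGroup.mk ((((⟨i, h⟩ : Fin k), b), c) :: m) =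
        .mk [((⟨i, h⟩, b), c)] * .mk m := rfl
      rw [e0, e1, map_mul, e]
      congr 1
      cases c
      · rw [mk_false, mk_false, map_inv]; exact congrArg _ (pr_of ⟨i, h⟩ b)
      · exact pr_of ⟨i, h⟩ b
    · refine ⟨m, ?_, s.cons _⟩
      rw [e0, map_mul, e]
      cases c
      · simp [mk_false, pr, h]
      · simp [mk_true, pr, h]

theorem labs_pr (k : ℕ) (l : Wd) : ((labs (pr k (.mk l))).map em).Sublist (l.map Prod.fst) := by
  obtain ⟨m, e, s⟩ := pr_mk k l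
  rw [e, labs, FreeGroup.toWord_mk]
  exact (((FreeGroup.Red.sublist FreeGroup.reduce.red).map _).map _).trans s

def wd {k : ℕ} (g : FG k) : Wd := g.toWord.map fun y => (em y.1, y.2)

theorem mk_wd {k : ℕ} (g : FG k) : FreeGroup.mk (wd g) = FreeGroup.map em g := by
  rw [wd, ← FreeGroup.map.mk, FreeGroup.mk_toWord]

theorem fst_wd {k : ℕ} (g : FG k) : (wd g).map Prod.fst = (labs g).map em := by
  simp [wd, labs]

theorem sz_em {k : ℕ} (x : Lab k) : sz (em x) ≤ k + 2 := by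
  have := x.1.2
  have := sz_bool x.2
  simp only [em, sz_pair, sz_nat]
  omega

theorem sz_wd {k : ℕ} (g : FG k) : sz (wd g) ≤ g.norm * (k + 5) := by
  have := sz_list_le (l := wd g) (B := k + 4) fun a ha => by
    obtain ⟨y, -, rfl⟩ := List.mem_map.1 ha
    have := sz_em y.1
    have := sz_bool y.2
    simp only [sz_pair]
    omega
  simpa [wd, FreeGroup.norm] using this

end Pool.Agent.Lib.MP_c1f5fe_lc.AlgDec
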