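import Pool.Agent.Lib.MP_c1f5fe_lc.AlgDecA

/-! A checked certificate gives a solution. -/

namespace Pool.Agent.Lib.MP_c1f5fe_lc.AlgDec

open Function Equiv Relation
open Pool.Agent.Lib.Complexity
open Pool.Agent.Lib.MP_c1f5fe_lc.AlgP

theorem cg_bwd {k : ℕ} {x : Ins} {rt rv : List ℕ} (h : CG k x.1 x.2.1 x.2.2 rt rv) :
    Indep (gOf x) (uOf x) ∧ Nat.card (gOf x).ConnectedComponent ≤ 2 * k + 1 := by
  classical
  obtain ⟨h1, h2, h3⟩ := h
  refine ⟨fun u hu v hv a => h1 u u.2 v v.2 hu hv ((adj_iff x u v).2 a), ?_⟩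
  have key := rank_ind (gOf x).Adj (fun v => v.val ∈ rt) (fun v => lk rv v) fun v => by
    rcases h3 v v.2 with a | a
    · exact .inl a
    · obtain ⟨u, a, l⟩ := (exL_fin _).1 a
      exact .inr ⟨u, (adj_iff x u v).1 a, l⟩
  have ex : ∀ c : (gOf x).ConnectedComponent, ∃ r : Fin x.1, r.val ∈ rt ∧
      (gOf x).connectedComponentMk r = c := by
    intro c
    obtain ⟨v, rfl⟩ := c.exists_rep
    obtain ⟨r, hr, p⟩ := key v
    exact ⟨r, hr, SimpleGraph.ConnectedComponent.sound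
      ((SimpleGraph.reachable_iff_reflTransGen _ _).2 p)⟩
  choose f f1 f2 using ex
  have := Nat.card_le_card_of_injective
    (fun c => (⟨(f c).val, List.mem_toFinset.2 (f1 c)⟩ : rt.toFinset)) fun c c' q => by
      rw [← f2 c, ← f2 c', Fin.ext (congrArg Subtype.val q)]
  rw [Nat.card_eq_fintype_card (α := rt.toFinset), Fintype.card_coe] at this
  exact this.trans ((List.toFinset_card_le rt).trans h2)

theorem cm_bwd {k N : ℕ} {ph al rk : List ℕ} (h : CM k N ph al rk) :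
    ∃ M : HMap (Fin N), (∀ d : Fin N, lk ph d = M.φ d) ∧ (∀ d : Fin N, lk al d = M.α d) ∧
      M.Con ∧ 2 - 2 * (k : ℤ) ≤ M.chi := by
  obtain ⟨h1, h2, h3⟩ := h
  let f : Fin N → Fin N := fun d => ⟨lk ph d, (h1 d d.2).1⟩
  let g : Fin N → Fin N := fun d => ⟨lk al d, (h1 d d.2).2.1⟩
  have fi : Injective f := fun d e q =>
    Fin.ext ((h1 d d.2).2.2.2 e e.2 (congrArg Fin.val q))
  have gi : Involutive g := fun d => Fin.ext (h1 d d.2).2.2.1
  let M : HMap (Fin N) :=
    ⟨Equiv.ofBijective f (Finite.injective_iff_bijective.1 fi), gi.toPerm g, gi⟩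
  have hφ : ∀ d : Fin N, lk ph d = M.φ d := fun _ => rfl
  have hα : ∀ d : Fin N, lk al d = M.α d := fun _ => rfl
  clear_value M
  refine ⟨M, hφ, hα, ?_, ?_⟩
  · have key := rank_ind (Conn M.φ M.α) (fun d => d.val = 0) (fun d => lk rk d) fun d => by
      rcases h2 d d.2 with a | a
      · exact .inl a
      · obtain ⟨e, a, l⟩ := (exL_fin _).1 a
        refine .inr ⟨e, ?_, l⟩
        rw [hφ, hα, hφ, hα] at a
        rcases a with a | a | a | a
        · exact .rel _ _ (.inl (Fin.ext a))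
        · exact .rel _ _ (.inr (Fin.ext a))
        · exact .symm _ _ (.rel _ _ (.inl (Fin.ext a)))
        · exact .symm _ _ (.rel _ _ (.inr (Fin.ext a)))
    have tr : ∀ {a b}, ReflTransGen (Conn M.φ M.α) a b → Conn M.φ M.α a b := by
      intro a b p
      induction p with
      | refl => exact .refl _
      | tail _ s ih => exact .trans _ _ _ ih s
    intro d e
    obtain ⟨a, a0, p⟩ := key d
    obtain ⟨b, b0, q⟩ := key e
    obtain rfl : a = b := Fin.ext (a0.trans b0.symm)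
    exact .trans _ _ _ (.symm _ _ (tr p)) (tr q)
  · have e1 := cyc_eq (Equiv.refl _) hφ
    have e2 := cyc_eq (Equiv.refl _) hα
    have e3 := cyc_eq (t := sg N ph al) (π := M.φ * M.α) (Equiv.refl _) fun d => by
      simp only [Equiv.refl_apply, Perm.mul_apply]
      rw [lk_sg _ _ d.2, hα, hφ]
    rw [e1, e2, e3] at h3
    simp only [HMap.chi, chi, Nat.card_eq_fintype_card, Fintype.card_fin]
    omega

theorem eqv_pr {k : ℕ} {a b : Wd} (h : Eqv a b) : pr k (.mk a) = pr k (.mk b) := congrArg _ h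

theorem bwd {k : ℕ} {x : Ins} {W : Wit} (h : Chk k x W) : PPI k x := by
  obtain ⟨⟨ph, al, rk, vx⟩, ⟨rt, rv, tm, re⟩, w, th, ok⟩ := W
  obtain ⟨hG, hM, hS, hT, hW⟩ := h
  dsimp only at hG hM hS hT hW
  generalize ph.length = N at hM hS hT hW
  obtain ⟨g1, g2⟩ := cg_bwd hG
  refine ⟨g1, g2, ?_⟩
  obtain ⟨M, hφ, hα, con, chi⟩ := cm_bwd hM
  obtain ⟨s1, s2, s3, s4, s5, s6⟩ := hS
  obtain ⟨t1, t2⟩ := hT
  obtain ⟨w1, w2⟩ := hW
  have hσ : ∀ d : Fin N, lk (sg N ph al) d = M.σ d := fun d => by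
    rw [lk_sg _ _ d.2, hα, hφ]; rfl
  have scφ := sc_iff (Equiv.refl _) hφ
  have scσ := sc_iff (t := sg N ph al) (π := M.σ) (Equiv.refl _) hσ
  simp only [Equiv.refl_apply] at scφ scσ
  obtain ⟨T, hT⟩ : ∃ T : Fin k → Fin N, ∀ i : Fin k, lk tm i = T i :=
    ⟨fun i => ⟨lk tm i, (t1 i i.2).1⟩, fun _ => rfl⟩
  have t1' := (allL_fin _).1 t1
  simp only [hT, hφ, allL_fin, scφ] at t1'
  simp only [allL_fin, exL_fin, hφ, hα, scσ, hT, scφ] at s1 s2 s3 s4 s5 s6 w1 w2
  have adj' : ∀ {a b : ℕ}, a < x.1 → b < x.1 → adj x.2.1 a b →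
      ∃ u v, ov x.1 a = some u ∧ ov x.1 b = some v ∧ (gOf x).Adj u v := fun a b c =>
    ⟨⟨_, a⟩, ⟨_, b⟩, ov_some.2 rfl, ov_some.2 rfl, (adj_iff x ⟨_, a⟩ ⟨_, b⟩).1 c⟩
  let S : Sk k (gOf x) (uOf x) (Fin N) :=
    { toHMap := M
      vx := fun d => ov x.1 (lk vx d)
      real := fun d => lk re d = true
      term := T
      ok := fun a b => (em a, em b) ∈ ok
      vx_σ := fun d => by rw [s1]
      vx_cyc := fun d e v a b => by
        rw [ov_some] at a b
        exact s2 d e (a ▸ v.2) (a.trans b.symm)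
      real_α := fun d r => (s3 d r).1
      real_adj := fun d r => adj' (s3 d r).2.1 (s3 d r).2.2.1 (s3 d r).2.2.2
      real_ex := fun u v a => by
        obtain ⟨d, r, p, q⟩ := s4 u v ((adj_iff x u v).2 a)
        refine ⟨d, ⟨r, ov_some.2 p, ov_some.2 q⟩, ?_⟩
        rintro e ⟨r', p', q'⟩
        rw [ov_some] at p' q'
        exact Fin.ext (s5 e d r' r (p'.trans p.symm) (q'.trans q.symm))
      term_vx := fun i d s => ov_none.2 ((t1' i).2.1 d s)
      term_four := fun i => Fin.ext (t1' i).2.2.1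
      ok_symm := fun a b o => (t2 _ o).1
      ok_idx := fun i a b o => (t2 _ o).2.1 rfl
      ok_once := fun i j a b _ o => (t2 _ o).2.2
      cap := fun d z a u => by
        rw [ov_some] at a
        obtain ⟨r, p, q, q', c⟩ := s6 d (a ▸ z.2) (a ▸ u)
        exact ⟨r, Fin.ext p, adj' q q' c⟩ }
  refine ⟨Fin N, inferInstance, S, fun d => pr k (.mk (lk w d)), ⟨con, chi⟩,
    ⟨⟨fun d => ?_, ⟨fun d => pr k (.mk (lk th d)), fun d nt => ?_⟩, fun i => ?_, fun i => ?_,
      fun i => ?_, fun i => ?_⟩, fun d r => ?_, fun d e i r r' q a b => ?_⟩⟩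
  · have := eqv_pr (k := k) (w1 d).1
    rw [← FreeGroup.mul_mk, map_mul] at this
    exact eq_inv_of_mul_eq_one_left (this.trans (map_one _))
  · have := eqv_pr (k := k) ((w1 d).2.1.resolve_left nt)
    rwa [← FreeGroup.mul_mk, map_mul] at this
  · exact (eqv_pr (t1' i).2.2.2.1).trans (pr_of i false)
  · exact (eqv_pr (t1' i).2.2.2.2.1).trans (pr_of i true)
  · refine (eqv_pr (t1' i).2.2.2.2.2.1).trans ?_
    rw [mk_false, map_inv, pr_of]
  · refine (eqv_pr (t1' i).2.2.2.2.2.2).trans ?_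
    rw [mk_false, map_inv, pr_of]
  · have := List.pairwise_map.1 (((w1 d).2.2 r).sublist (labs_pr k (lk w d)))
    exact this
  · have q' : lk vx d = lk vx e := by
      have : ov x.1 (lk vx e) = some ⟨_, (s3 e r').2.1⟩ := ov_some.2 rfl
      exact ov_some.1 (q.trans this)
    exact w2 d e r r' q' i ((labs_pr k _).subset (List.mem_map_of_mem a))
      ((labs_pr k _).subset (List.mem_map_of_mem b))

end Pool.Agent.Lib.MP_c1f5fe_lc.AlgDec
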