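import Pool.Agent.Lib.MP_c1f5fe_lc.SpecD
import Pool.Agent.Lib.MP_c1f5fe_lc.Tb

/-! From a padded polynomial time decision to one machine with time `f k * (n + 1) ^ c`. -/

namespace Pool.Agent.Lib.MP_c1f5fe_lc

open Function Turing
open Pool.Agent.Lib.Complexity

namespace AlgFinal

/-! ### truncated towers -/

theorem iter_min {f : ℕ → ℕ} (hq : ∀ x, x ≤ f x) (q n x : ℕ) :
    (fun z => min (f z) q)^[n] (min x q) = min (f^[n] x) q := by
  induction n with
  | zero => rfl
  | succ n ih =>
    rw [iterate_succ_apply', iterate_succ_apply', ih]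
    rcases le_total (f^[n] x) q with l | l
    · rw [min_eq_left l]
    · rw [min_eq_right l, min_eq_right (hq q), min_eq_right (l.trans (hq _))]

theorem iter_two (n : ℕ) : (fun z => 2 * z)^[n] 1 = 2 ^ n := by
  induction n with
  | zero => rfl
  | succ n ih => rw [iterate_succ_apply', ih, pow_succ, mul_comm]

variable {A : Type} [Enc A]

theorem pt_pow {y q : A → ℕ} (hy : PT y) (hq : PT q) : PT fun a => min (2 ^ y a) (q a) := by
  have e : ∀ a i, (fun z => min (2 * z) (q a))^[i] (min 1 (q a)) = min (2 ^ i) (q a) := by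
    intro a i
    rw [iter_min (f := fun z => 2 * z) (fun x => by omega), iter_two]
  refine (PT.iterate (step := fun a z => min (2 * z) (q a)) (init := fun a => min 1 (q a)) hy
    (by fun_prop) (by fun_prop) hq.pb_nat fun a i _ => ?_).of_eq fun a => e a _
  rw [e, sz_nat]
  exact min_le_right _ _

theorem pt_tw {n y q : A → ℕ} (hn : PT n) (hy : PT y) (hq : PT q) :
    PT fun a => min (tw (n a) (y a)) (q a) := by
  have e : ∀ a i, (fun z => min (2 ^ z) (q a))^[i] (min (y a) (q a)) = min (tw i (y a)) (q a) := by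
    intro a i
    rw [iter_min (f := fun z => 2 ^ z) (fun x => Nat.lt_two_pow_self.le), tw_eq_iterate]
  refine (PT.iterate (step := fun a z => min (2 ^ z) (q a)) (init := fun a => min (y a) (q a)) hn
    (by fun_prop) (pt_pow (by fun_prop) (by fun_prop)) hq.pb_nat fun a i _ => ?_).of_eq
    fun a => e a _
  rw [e, sz_nat]
  exact min_le_right _ _

theorem pt_bg (h : ℕ) {y q : A → ℕ} (hy : PT y) (hq : PT q) :
    PT fun a => min (bg h (y a)) (q a) := by
  induction h with
  | zero => exact hy.min hq
  | succ h ih =>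
    refine (pt_tw ih.succ ih.succ hq).of_eq fun a => ?_
    rw [bg_succ]
    rcases le_total (bg h (y a)) (q a) with l | l
    · rw [min_eq_left l]
    · have a1 := le_tw (q a + 1) (q a + 1)
      have a2 := le_tw (bg h (y a) + 1) (bg h (y a) + 1)
      rw [min_eq_right l, min_eq_right (by omega), min_eq_right (by omega)]

theorem pt_bg_le (h : ℕ) {y p : A → ℕ} (hy : PT y) (hp : PT p) :
    PT fun a => decide (bg h (y a) ≤ p a) :=
  ((pt_bg h hy hp.succ).dec_le hp).of_eq fun a => by
    refine decide_eq_decide.2 ?_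
    omega

theorem par_eq (l : List Bool) : l.foldr (fun b m => bif b then m + 1 else 0) 0 = par l := by
  induction l with
  | nil => rfl
  | cons b l ih => cases b <;> simp [par] at ih ⊢; exact ih

theorem pt_par : PT par :=
  (PT.foldr_add' (l := fun l : List Bool => l) (init := fun _ => (0 : ℕ))
    (f := fun _ b m => bif b then m + 1 else 0) (g := fun _ _ => 1) PT.id (PT.const _)
    (by fun_prop) (PT.const 1) (fun a b x => by cases b <;> simp)).of_eq par_eq

/-! ### an unbounded loop -/

def whileP (P : Prog) (N : ℕ) : Prog := .loop N (.seq P (.ite 0 .skip (.pop N)))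

theorem while_eval {P : Prog} {N : ℕ} (hN : 0 < N) {G : Str → Str} {U : Str → ℕ}
    (hG : ∀ x, Spec P N x (G x) (U x)) (W m : ℕ) :
    ∀ (x : Str) (s : St), s 0 = x → s N = [true] → (∀ i, 0 < i → i < N → s i = []) →
      (∀ i ≤ m, U (G^[i] x) ≤ W) → (∀ i < m, (G^[i + 1] x).head? = some true) →
      (G^[m + 1] x).head? ≠ some true →
      Eval (whileP P N) s (update (update s N []) 0 (G^[m + 1] x)) ((m + 1) * (W + 3) + 1) := by
  have n0 : N ≠ 0 := by omega
  induction m with
  | zero =>
    intro x s h0 h1 hs hW _ hF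
    have a1 := hG x s h0 hs
    have a2 : Eval (.ite 0 .skip (.pop N)) (update s 0 (G x)) _ _ :=
      Eval.iteF (by simpa using hF) (Eval.pop N _)
    have hW0 := hW 0 le_rfl
    refine (Eval.loopS (by simp [h1]) (a1.seq a2) (Eval.loop0 (by simp [n0, h1]))).of_eq ?_ ?_
    · funext i
      simp only [update_apply]
      split_ifs <;> simp_all
    · simp only [iterate_zero, id_eq] at hW0; omega
  | succ m ih =>
    intro x s h0 h1 hs hW hT hF
    have a1 := hG x s h0 hs
    have a2 : Eval (.ite 0 .skip (.pop N)) (update s 0 (G x)) _ _ :=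
      Eval.iteT (by simpa using hT 0 (by omega)) (Eval.skip _)
    have a3 := ih (G x) (update s 0 (G x)) (by simp) (by simp [n0, h1])
      (fun i i0 iN => by rw [update_of_ne (by omega)]; exact hs i i0 iN)
      (fun i hi => by simpa using hW (i + 1) (by omega))
      (fun i hi => by simpa using hT (i + 1) (by omega)) (by simpa using hF)
    have hW0 := hW 0 (by omega)
    refine (Eval.loopS (by simp [h1]) (a1.seq a2) a3).of_eq ?_ ?_
    · funext i
      simp only [update_apply]
      split_ifs <;> simp_all
    · simp only [iterate_zero, id_eq] at hW0; nlinarith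

theorem spec_tm {P : Prog} {N : ℕ} {x y : Str} {T : ℕ} (h : Spec P N x y T) :
    Nonempty (TM2OutputsInTime P.machine x (some y) T) := by
  have h1 := h (update (fun _ => []) 0 x) (by simp) (fun i h1 _ => by
    rw [update_of_ne (by omega)])
  obtain ⟨n, ln, e⟩ :=
    h1.sim (M := P.bnd) (P.code (rho P.bnd) id .halt) id .halt le_rfl (fun _ => rfl)
  have e1 : initList P.machine x
      = ⟨some P.entry, false, res P.bnd (update (fun _ => []) 0 x)⟩ := by
    simp only [initList, Prog.machine]
    congr 1
    funext k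
    by_cases hk : k = 0
    · subst hk; simp [res]
    · have : k.val ≠ 0 := fun e => hk (Fin.ext e)
      simp [res, hk]
  have e2 : haltList P.machine y
      = ⟨none, false, res P.bnd (update (update (fun _ => []) 0 x) 0 y)⟩ := by
    simp only [haltList, Prog.machine]
    congr 1
    funext k
    by_cases hk : k = 0
    · subst hk; simp [res]
    · have : k.val ≠ 0 := fun e => hk (Fin.ext e)
      simp [res, hk]
  refine ⟨⟨⟨n, ?_⟩, ln⟩⟩
  change (flip bind P.machine.step)^[n] (some (initList P.machine x))
    = some (haltList P.machine y)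
  rw [e1, e2]
  exact e

/-! ### the search for the padding -/

def st (l : Str) (p : ℕ) : Str := true :: (enc (l, p)).bits

def un (x : Str) : Str × ℕ := rd (PT.parse x.tail)

theorem un_st (l : Str) (p : ℕ) : un (st l p) = (l, p) := by
  simp only [un, st, List.tail_cons, PT.parse_bits', Rd.rd_enc]

theorem pt_un : PT un := PT.rd (PT.parse'.comp (PT.tail PT.id))

theorem length_st (l : Str) (p : ℕ) : (st l p).length ≤ 4 * (l.length + p) + 4 := by
  have := PT.sz_str_le l
  have e : (enc (l, p)).size = sz l + p + 1 := by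
    rw [← sz_nat p, ← sz_pair, sz_nat]; rfl
  simp only [st, List.length_cons, T.length_bits, e]
  omega

def stepG (h : ℕ) (F : Str × ℕ → Bool) (x : Str) : Str :=
  if bg h (par (un x).1) ≤ (un x).2 then [false, F (un x)] else st (un x).1 ((un x).2 + 1)

theorem pt_st {l : A → Str} {p : A → ℕ} (hl : PT l) (hp : PT p) : PT fun a => st (l a) (p a) := by
  unfold st
  fun_prop

theorem pt_stepG (h : ℕ) {F : Str × ℕ → Bool} (hF : PT F) : PT (stepG h F) := by
  have u := pt_un
  exact PT.ite (pt_bg_le h (pt_par.comp u.fst) u.snd)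
    (PT.cons (PT.const _) (PT.cons (hF.comp u) (PT.const _))) (pt_st u.fst u.snd.succ)

theorem stepG_iter (h : ℕ) (F : Str × ℕ → Bool) (l : Str) (i : ℕ) (hi : i ≤ bg h (par l)) :
    (stepG h F)^[i] (st l 0) = st l i := by
  induction i with
  | zero => rfl
  | succ i ih =>
    rw [iterate_succ_apply', ih (by omega), stepG, un_st, if_neg (by dsimp only; omega)]

theorem stepG_last (h : ℕ) (F : Str × ℕ → Bool) (l : Str) :
    (stepG h F)^[bg h (par l) + 1] (st l 0) = [false, F (l, bg h (par l))] := by
  rw [iterate_succ_apply', stepG_iter h F l _ le_rfl, stepG, un_st, if_pos le_rfl]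

theorem prog_ex {dec : Str → Bool} (hd : FP par dec) :
    ∃ (h : ℕ) (P : Prog) (N : ℕ) (q : Polynomial ℕ),
      ∀ l, Spec P N l [dec l] (q.eval (l.length + bg h (par l))) := by
  obtain ⟨h, F, hF, hdec⟩ := hd
  obtain ⟨P₀, N₀, q₀, h₀⟩ := (pt_st (A := Str) PT.id (PT.const 0)).raw
  obtain ⟨P₁, N₁, q₁, h₁⟩ := (pt_stepG h hF).raw
  obtain ⟨N, hN⟩ : ∃ N, N = max N₀ N₁ + 1 := ⟨_, rfl⟩
  have pb : PB (fun x : ℕ => x) fun x =>
      q₀.eval x + 1 + ((x + 1) * (q₁.eval (4 * x + 4) + 3) + 1) + 1 :=
    (((PB.self.eval q₀).add (PB.const 1)).add (((PB.self.add (PB.const 1)).mul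
      (((((PB.const 4).mul PB.self).add (PB.const 4)).eval q₁).add (PB.const 3))).add
      (PB.const 1))).add (PB.const 1)
  obtain ⟨q, hq⟩ := pb
  refine ⟨h, .seq (.seq (.seq P₀ (.push N true)) (whileP P₁ N)) (.pop 0), N + 1, q,
    fun l s s0 hs => ?_⟩
  have n0 : N ≠ 0 := by omega
  have sN : s N = [] := hs N (by omega) (by omega)
  have a1 := (h₀ l s s0 fun i i0 iN => hs i i0 (by omega)).seq (Eval.push N true _)
  have a2 := while_eval (P := P₁) (N := N) (by omega) (G := stepG h F)
    (U := fun x => q₁.eval x.length) (fun x => (h₁ x).mono (by omega) le_rfl)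
    (q₁.eval (4 * (l.length + bg h (par l)) + 4)) (bg h (par l)) (st l 0)
    (update (update s 0 (st l 0)) N (true :: update s 0 (st l 0) N))
    (by simp [n0.symm]) (by simp [n0, sN])
    (fun i i0 iN => by
      rw [update_of_ne (by omega), update_of_ne (by omega)]; exact hs i i0 (by omega))
    (fun i hi => by
      rw [stepG_iter h F l i hi]
      exact peval_mono _ ((length_st l i).trans (by omega)))
    (fun i hi => by rw [stepG_iter h F l (i + 1) hi]; rfl)
    (by rw [stepG_last]; simp)
  rw [stepG_last, hdec l _ le_rfl] at a2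
  refine ((a1.seq a2).seq (Eval.pop 0 _)).of_eq ?_ (le_trans ?_ (hq _))
  · funext i
    simp only [update_apply]
    split_ifs <;> simp_all
  · have b1 : q₀.eval l.length ≤ q₀.eval (l.length + bg h (par l)) := peval_mono _ (by omega)
    have b2 : (bg h (par l) + 1) * (q₁.eval (4 * (l.length + bg h (par l)) + 4) + 3) ≤
        (l.length + bg h (par l) + 1) * (q₁.eval (4 * (l.length + bg h (par l)) + 4) + 3) :=
      Nat.mul_le_mul_right _ (by omega)
    dsimp only
    omega

/-! ### the time bound -/

theorem eval_mul (q : Polynomial ℕ) : ∃ c, ∀ a b, 0 < b → q.eval (a * b) ≤ q.eval a * b ^ c := by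
  induction q using Polynomial.induction_on' with
  | add p q hp hq =>
    obtain ⟨c, hc⟩ := hp
    obtain ⟨d, hd⟩ := hq
    refine ⟨c + d, fun a b b0 => ?_⟩
    have e1 : b ^ c ≤ b ^ (c + d) := Nat.pow_le_pow_right b0 (by omega)
    have e2 : b ^ d ≤ b ^ (c + d) := Nat.pow_le_pow_right b0 (by omega)
    rw [Polynomial.eval_add, Polynomial.eval_add, add_mul]
    exact Nat.add_le_add ((hc a b b0).trans (Nat.mul_le_mul_left _ e1))
      ((hd a b b0).trans (Nat.mul_le_mul_left _ e2))
  | monomial k c =>
    exact ⟨k, fun a b _ => by simp only [Polynomial.eval_monomial, mul_pow, mul_assoc, le_refl]⟩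

theorem bb_eval {B : Type} {κ f : B → ℕ} (hf : BB κ f) (q : Polynomial ℕ) :
    BB κ fun a => q.eval (f a) := by
  induction q using Polynomial.induction_on' with
  | add p q hp hq => simpa only [Polynomial.eval_add] using hp.add hq
  | monomial k c =>
    simpa only [Polynomial.eval_monomial] using (BB.const c).mul (hf.pow (BB.const k))

theorem par_code (k n : ℕ) (G : SimpleGraph (Fin n)) : par (code k n G) = k := by
  unfold par code
  induction k with
  | zero => simp
  | succ k ih => simp [List.replicate_succ]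

theorem length_code (k n : ℕ) (G : SimpleGraph (Fin n)) :
    (code k n G).length = k + n + n * n + 2 := by
  simp [code, List.length_flatMap]
  omega

end AlgFinal

open AlgFinal

theorem final' : FinalSt := by
  intro dec hd hc
  obtain ⟨h, P, N, q, hP⟩ := prog_ex hd
  obtain ⟨c, hq⟩ := eval_mul q
  obtain ⟨h', hb⟩ := bb_eval (κ := fun k : ℕ => k) (f := fun k => k + 2 + bg h k)
    (((BB.self' _).add (BB.const 2)).add ((BB.self' _).bg h)) q
  refine ⟨⟨P.machine, Equiv.refl Bool, Equiv.refl Bool⟩, bg h', 2 * c, computable_bg h',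
    fun k n G => ?_⟩
  have t : q.eval ((code k n G).length + bg h (par (code k n G))) ≤ bg h' k * (n + 1) ^ (2 * c) := by
    rw [par_code, length_code, pow_mul]
    refine le_trans (peval_mono q ?_) ((hq (k + 2 + bg h k) ((n + 1) ^ 2) (by positivity)).trans
      (Nat.mul_le_mul_right _ (hb k)))
    nlinarith [Nat.zero_le (k * n), Nat.zero_le (k * n * n), Nat.zero_le (bg h k * n),
      Nat.zero_le (bg h k * n * n)]
  have a := spec_tm ((hP (code k n G)).mono le_rfl t)
  rw [hc] at a
  have e1 : List.map (Equiv.refl Bool).symm (code k n G) = code k n G := List.map_id _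
  have e2 : ∀ l : List Bool, List.map (Equiv.refl Bool).symm l = l := fun l => List.map_id _
  exact (congrArg₂ (fun x y => Nonempty (TM2OutputsInTime P.machine x (some y)
    (bg h' k * (n + 1) ^ (2 * c)))) e1 (e2 _)).mpr a

theorem final : KA → FinalSt := fun _ => final'

end Pool.Agent.Lib.MP_c1f5fe_lc
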