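import Pool.Agent.Lib.MP_c1f5fe_lc.AlgKit

/-! The search for a smaller equivalent piece, and one round of the algorithm. -/

namespace Pool.Agent.Lib.MP_c1f5fe_lc

open Function
open Pool.Agent.Lib.Complexity

namespace AlgFind

/-! ### instances given by tests -/

def prs (a b : ℕ) : List (ℕ × ℕ) := (List.range a).flatMap fun i => (List.range b).map fun j => (i, j)

theorem mem_prs {a b : ℕ} {p : ℕ × ℕ} : p ∈ prs a b ↔ p.1 < a ∧ p.2 < b := by
  obtain ⟨i, j⟩ := p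
  simp [prs]

theorem length_prs (a b : ℕ) : (prs a b).length = a * b := by
  simp [prs, List.length_flatMap]

theorem sz_prs (a b : ℕ) (E : ℕ × ℕ → Bool) : sz ((prs a b).filter E) ≤ a * b * (a + b + 1) := by
  refine (sz_le_of_sublist List.filter_sublist).trans ?_
  refine le_trans (sz_list_le (B := a + b) fun p hp => ?_) (by rw [length_prs])
  have := mem_prs.1 hp
  rw [sz_prod, sz_nat, sz_nat]
  omega

def mkI (n : ℕ) (E : ℕ × ℕ → Bool) (U : ℕ → Bool) : Ins :=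
  (n, (prs n n).filter E, (List.range n).filter U)

theorem sz_mkI (n : ℕ) (E : ℕ × ℕ → Bool) (U : ℕ → Bool) : sz (mkI n E U) ≤ 4 * (n + 1) ^ 3 := by
  have a := sz_prs n n E
  have b : sz ((List.range n).filter U) ≤ n * (n + 1) := by
    refine (sz_le_of_sublist List.filter_sublist).trans ?_
    have := sz_list_le (l := List.range n) (B := n) fun p hp => by
      rw [sz_nat]; exact (List.mem_range.1 hp).le
    rwa [List.length_range] at this
  simp only [mkI, sz_pair, sz_nat]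
  nlinarith [Nat.zero_le (n * n), Nat.zero_le (n * n * n)]

theorem adj_mkI {n : ℕ} {E : ℕ × ℕ → Bool} {U : ℕ → Bool} (u v : Fin n) :
    (gOf (mkI n E U)).Adj u v ↔ u ≠ v ∧ (E (u.val, v.val) = true ∨ E (v.val, u.val) = true) := by
  refine (SimpleGraph.fromRel_adj _ _ _).trans ?_
  simp [mkI, mem_prs]

theorem mem_mkI {n : ℕ} {E : ℕ × ℕ → Bool} {U : ℕ → Bool} (u : Fin n) :
    u ∈ uOf (mkI n E U) ↔ U u.val = true := by
  change u.val ∈ (List.range n).filter U ↔ _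
  simp

theorem adj_gOf {x : Ins} (u v : Fin x.1) :
    (gOf x).Adj u v ↔ u ≠ v ∧ ((u.val, v.val) ∈ x.2.1 ∨ (v.val, u.val) ∈ x.2.1) :=
  SimpleGraph.fromRel_adj _ _ _

section pt
variable {A : Type} [Enc A]

@[fun_prop] theorem pt_prs {a b : A → ℕ} (ha : PT a) (hb : PT b) : PT fun x => prs (a x) (b x) := by
  unfold prs
  fun_prop

@[fun_prop] theorem pt_mkI {n : A → ℕ} {E : A → ℕ × ℕ → Bool} {U : A → ℕ → Bool} (hn : PT n)
    (hE : PT fun p : A × ℕ × ℕ => E p.1 p.2) (hU : PT fun p : A × ℕ => U p.1 p.2) :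
    PT fun x => mkI (n x) (E x) (U x) := by
  unfold mkI
  fun_prop

end pt

open Classical in
theorem rep_ex {V : Type} (G : SimpleGraph V) (U : Set V) {n : ℕ} (e : V ≃ Fin n) :
    ∃ E W, (∀ u v, G.Adj u v ↔ (gOf (mkI n E W)).Adj (e u) (e v)) ∧
      ∀ v, v ∈ U ↔ e v ∈ uOf (mkI n E W) := by
  refine ⟨fun p => decide (∃ u v, (e u).val = p.1 ∧ (e v).val = p.2 ∧ G.Adj u v),
    fun i => decide (∃ u, (e u).val = i ∧ u ∈ U), fun u v => ?_, fun v => ?_⟩
  · rw [adj_mkI]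
    simp only [decide_eq_true_eq, Fin.val_inj, e.injective.eq_iff, exists_and_left, exists_eq_left]
    refine ⟨fun h => ⟨e.injective.ne h.ne, Or.inl h⟩, fun h => h.2.elim id fun h => h.symm⟩
  · rw [mem_mkI]
    simp only [decide_eq_true_eq, Fin.val_inj, e.injective.eq_iff, exists_eq_left]

/-! ### gluing -/

def glueI (t : ℕ) (y c : PIns) : Ins :=
  mkI (y.1.1 + c.1.1)
    (fun p => if p.1 < y.1.1 then
        if p.2 < y.1.1 then decide (p ∈ y.1.2.1)
        else (List.range t).any fun s => decide ((p.1, s) ∈ y.2) && decide ((s, p.2 - y.1.1) ∈ c.2)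
      else if p.2 < y.1.1 then false else decide ((p.1 - y.1.1, p.2 - y.1.1) ∈ c.1.2.1))
    fun i => if i < y.1.1 then decide (i ∈ y.1.2.2) else decide (i - y.1.1 ∈ c.1.2.2)

theorem pt_glueI : PT fun a : ℕ × PIns × PIns => glueI a.1 a.2.1 a.2.2 := by
  unfold glueI
  fun_prop

theorem glueI_spec (bas : BasSt) (k t : ℕ) (y c : PIns) {K : Type} (C : Ctx t K)
    (e : K ≃ Fin c.1.1) (h1 : ∀ u v, C.G.Adj u v ↔ (gOf c.1).Adj (e u) (e v))
    (h2 : ∀ v, v ∈ C.U ↔ e v ∈ uOf c.1) (h3 : ∀ s u, C.β s = u ↔ (s.val, (e u).val) ∈ c.2) :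
    PP k (glue (pOf t y) C) (glueU (pOf t y) C) ↔ PPI k (glueI t y c) := by
  refine (bas.iso k _ _ _ _ ((Equiv.sumCongr (Equiv.refl _) e).trans finSumFinEquiv)
    (fun u v => ?_) fun v => ?_).2
  · have mix : ∀ (u : Fin y.1.1) (v : K), (∃ s, (pOf t y).att u s ∧ C.β s = v) ↔
        ∃ s < t, (u.val, s) ∈ y.2 ∧ (s, (e v).val) ∈ c.2 := fun u v =>
      ⟨fun ⟨s, a, b⟩ => ⟨s.val, s.2, a, (h3 s v).1 b⟩,
        fun ⟨s, l, a, b⟩ => ⟨⟨s, l⟩, a, (h3 ⟨s, l⟩ v).2 b⟩⟩
    refine Iff.trans ?_ (adj_mkI _ _).symm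
    rcases u with u | u <;> rcases v with v | v
    · refine (adj_gOf u v).trans ?_
      simp [Fin.ext_iff]
    · refine (mix u v).trans ?_
      have := u.2
      simp [Fin.ext_iff]
      omega
    · refine (mix v u).trans ?_
      have := v.2
      simp [Fin.ext_iff]
      omega
    · refine ((h1 u v).trans (adj_gOf _ _)).trans ?_
      simp
  · refine Iff.trans ?_ (mem_mkI _).symm
    rcases v with v | v
    · change v.val ∈ y.1.2.2 ↔ _
      simp
    · refine (h2 v).trans ?_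
      change (e v).val ∈ c.1.2.2 ↔ _
      simp

/-- the list of pairs is the graph of an injection -/
def valid (t : ℕ) (c : PIns) : Bool :=
  ((List.range t).all fun s => (List.range c.1.1).any fun j => decide ((s, j) ∈ c.2)) &&
    c.2.all fun p => c.2.all fun q => decide (p.1 = q.1) == decide (p.2 = q.2)

theorem pt_valid : PT fun a : ℕ × PIns => valid a.1 a.2 := by
  unfold valid
  fun_prop

theorem valid_iff {t : ℕ} {c : PIns} : valid t c = true ↔
    (∀ s < t, ∃ j < c.1.1, (s, j) ∈ c.2) ∧ ∀ p ∈ c.2, ∀ q ∈ c.2, (p.1 = q.1 ↔ p.2 = q.2) := by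
  simp only [valid, Bool.and_eq_true, List.all_eq_true, List.any_eq_true, List.mem_range,
    decide_eq_true_eq, beq_iff_eq, decide_eq_decide]

theorem ctx_of_valid {t : ℕ} {c : PIns} (h : valid t c = true) :
    ∃ C : Ctx t (Fin c.1.1), C.G = gOf c.1 ∧ C.U = uOf c.1 ∧
      ∀ s u, C.β s = u ↔ (s.val, u.val) ∈ c.2 := by
  obtain ⟨h1, h2⟩ := valid_iff.1 h
  choose f f1 f2 using fun s : Fin t => h1 s.val s.2
  refine ⟨⟨gOf c.1, uOf c.1, fun s => ⟨f s, f1 s⟩, fun s s' e => ?_⟩, rfl, rfl, fun s u => ?_⟩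
  · exact Fin.ext ((h2 _ (f2 s) _ (f2 s')).2 (congrArg Fin.val e))
  · exact ⟨fun e => e ▸ f2 s, fun m => Fin.ext ((h2 _ (f2 s) _ m).1 rfl)⟩

open Classical in
theorem ctx_ex {t n : ℕ} (C : Ctx t (Fin n)) :
    ∃ (E : ℕ × ℕ → Bool) (W : ℕ → Bool) (b : List (ℕ × ℕ)), valid t (mkI n E W, b) = true ∧
      sz (mkI n E W, b) ≤ 8 * (n + t + 1) ^ 3 ∧ C.G = gOf (mkI n E W) ∧ C.U = uOf (mkI n E W) ∧
      ∀ s u, C.β s = u ↔ (s.val, u.val) ∈ b := by
  obtain ⟨E, W, h1, h2⟩ := rep_ex C.G C.U (Equiv.refl _)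
  have m : ∀ p : ℕ × ℕ, p ∈ ((prs t n).filter fun p =>
      decide (∃ s : Fin t, s.val = p.1 ∧ (C.β s).val = p.2)) ↔
      ∃ s : Fin t, s.val = p.1 ∧ (C.β s).val = p.2 := fun p => by
    simp only [List.mem_filter, decide_eq_true_eq, mem_prs]
    exact ⟨fun h => h.2, fun ⟨s, a, b⟩ => ⟨⟨a ▸ s.2, b ▸ (C.β s).2⟩, s, a, b⟩⟩
  refine ⟨E, W, (prs t n).filter fun p => decide (∃ s : Fin t, s.val = p.1 ∧ (C.β s).val = p.2),
    valid_iff.2 ⟨fun s l => ⟨_, (C.β ⟨s, l⟩).2, (m _).2 ⟨⟨s, l⟩, rfl, rfl⟩⟩, fun p hp q hq => ?_⟩,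
    ?_, ?_, Set.ext h2, fun s u => ?_⟩
  · obtain ⟨s, a, b⟩ := (m p).1 hp
    obtain ⟨s', a', b'⟩ := (m q).1 hq
    rw [← a, ← a', ← b, ← b', Fin.val_inj, Fin.val_inj, C.inj.eq_iff]
  · have a := sz_mkI n E W
    have b := sz_prs t n fun p => decide (∃ s : Fin t, s.val = p.1 ∧ (C.β s).val = p.2)
    have c1 : (n + 1) ^ 3 ≤ (n + t + 1) ^ 3 := Nat.pow_le_pow_left (by omega) 3
    have c2 : t * n * (t + n + 1) + 1 ≤ (n + t + 1) ^ 3 := by
      nlinarith [Nat.zero_le (n * n), Nat.zero_le (n * t), Nat.zero_le (t * t),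
        Nat.zero_le (n * n * n), Nat.zero_le (n * n * t), Nat.zero_le (n * t * t),
        Nat.zero_le (t * t * t)]
    rw [sz_pair]
    omega
  · ext u v
    exact h1 u v
  · rw [m]
    simp only [Fin.val_inj, exists_eq_left]

open Classical in
theorem piece_ex (bas : BasSt) (k : ℕ) {t : ℕ} {I : Type} [Finite I] (P : Piece t I) :
    ∃ y : PIns, y.1.1 = Nat.card I ∧ sz y ≤ 8 * (Nat.card I + t + 1) ^ 3 ∧
      Equi k P (pOf t y) := by
  obtain ⟨n, hn⟩ : ∃ n, n = Nat.card I := ⟨_, rfl⟩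
  have e : I ≃ Fin n := hn ▸ Finite.equivFin I
  obtain ⟨E, W, h1, h2⟩ := rep_ex P.G P.U e
  rw [← hn]
  refine ⟨(mkI n E W, (prs n t).filter fun p =>
    decide (∃ u, ∃ s : Fin t, (e u).val = p.1 ∧ s.val = p.2 ∧ P.att u s)), rfl, ?_,
    bas.piso k t _ _ e h1 (fun v s => ?_) h2⟩
  · have a := sz_mkI n E W
    have b := sz_prs n t fun p =>
      decide (∃ u, ∃ s : Fin t, (e u).val = p.1 ∧ s.val = p.2 ∧ P.att u s)
    have c1 : (n + 1) ^ 3 ≤ (n + t + 1) ^ 3 := Nat.pow_le_pow_left (by omega) 3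
    have c2 : n * t * (n + t + 1) + 1 ≤ (n + t + 1) ^ 3 := by
      nlinarith [Nat.zero_le (n * n), Nat.zero_le (n * t), Nat.zero_le (t * t),
        Nat.zero_le (n * n * n), Nat.zero_le (n * n * t), Nat.zero_le (n * t * t),
        Nat.zero_le (t * t * t)]
    rw [sz_pair]
    omega
  · change _ ↔ ((e v).val, s.val) ∈ List.filter _ _
    simp only [List.mem_filter, decide_eq_true_eq, mem_prs, Fin.val_inj, e.injective.eq_iff,
      exists_and_left, exists_eq_left, Fin.is_lt, true_and]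

theorem equi_symm {k t : ℕ} {I I' : Type} {P : Piece t I} {P' : Piece t I'} (h : Equi k P P') :
    Equi k P' P := fun K _ C => (h K C).symm

theorem equi_trans {k t : ℕ} {I I' I'' : Type} {P : Piece t I} {P' : Piece t I'}
    {P'' : Piece t I''} (h : Equi k P P') (h' : Equi k P' P'') : Equi k P P'' :=
  fun K _ C => (h K C).trans (h' K C)

/-- the same answer in all coded contexts up to size `S` -/
def Same (k t S : ℕ) (y y' : PIns) : Prop :=
  ∀ c : PIns, sz c ≤ S → valid t c = true → (PPI k (glueI t y c) ↔ PPI k (glueI t y' c))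

theorem same_of (bas : BasSt) {k t : ℕ} (S : ℕ) {y y' : PIns} (h : Equi k (pOf t y) (pOf t y')) :
    Same k t S y y' := by
  intro c _ hv
  obtain ⟨C, a, b, d⟩ := ctx_of_valid hv
  rw [← glueI_spec bas k t y c C (Equiv.refl _) (fun _ _ => by rw [a]; rfl)
    (fun _ => by rw [b]; rfl) d, ← glueI_spec bas k t y' c C (Equiv.refl _)
    (fun _ _ => by rw [a]; rfl) (fun _ => by rw [b]; rfl) d]
  exact h _ C

theorem of_same (bas : BasSt) {k t B : ℕ} {y y' : PIns}
    (h : Same k t (8 * (B + t + 1) ^ 3) y y') : EquiB k B (pOf t y) (pOf t y') := by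
  intro n hn C
  obtain ⟨E, W, b, hv, hs, a1, a2, a3⟩ := ctx_ex C
  rw [glueI_spec bas k t y (mkI n E W, b) C (Equiv.refl _) (fun _ _ => by rw [a1]; rfl)
    (fun _ => by rw [a2]; rfl) a3, glueI_spec bas k t y' (mkI n E W, b) C (Equiv.refl _)
    (fun _ _ => by rw [a1]; rfl) (fun _ => by rw [a2]; rfl) a3]
  exact h _ (hs.trans (Nat.mul_le_mul_left _ (Nat.pow_le_pow_left (by omega) 3))) hv

theorem le_sz (c : PIns) : c.1.1 ≤ sz c := by
  obtain ⟨⟨n, x⟩, b⟩ := c
  simp only [sz_pair, sz_nat]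
  omega

theorem fd_glue (dec : DecSt) {A : Type} [Enc A] {κ k t : A → ℕ} {y c : A → PIns} (hk : PT k)
    (ht : PT t) (hy : PT y) (hc : PT c) (h : ∀ a, k a + ((y a).1.1 + (c a).1.1) ≤ κ a) :
    FD κ fun a => PPI (k a) (glueI (t a) (y a) (c a)) :=
  AlgKit.comp (f := fun a => (k a, glueI (t a) (y a) (c a))) dec
    (AlgKit.of_pt _ (hk.prodMk (pt_glueI.comp (ht.prodMk (hy.prodMk hc))))) (BB.of_le h)

theorem fd_same (dec : DecSt) (h : ℕ) :
    FD (fun z : (ℕ × ℕ × PIns) × PIns => z.1.1 + z.1.2.1 + z.1.2.2.1.1 + z.2.1.1) fun z =>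
      Same z.1.1 z.1.2.1
        (8 * (bg h (z.1.1 + z.1.2.1 + z.1.2.2.1.1 + z.2.1.1) + z.1.2.1 + 1) ^ 3) z.1.2.2 z.2 := by
  have bS : BB (fun z : (ℕ × ℕ × PIns) × PIns => z.1.1 + z.1.2.1 + z.1.2.2.1.1 + z.2.1.1) fun z =>
      8 * (bg h (z.1.1 + z.1.2.1 + z.1.2.2.1.1 + z.2.1.1) + z.1.2.1 + 1) ^ 3 :=
    (BB.const 8).mul (((((BB.self' _).bg h).add (BB.of_le fun z => by omega)).succ).pow
      (BB.const 3))
  have fS : FP (fun z : (ℕ × ℕ × PIns) × PIns => z.1.1 + z.1.2.1 + z.1.2.2.1.1 + z.2.1.1) fun z =>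
      8 * (bg h (z.1.1 + z.1.2.1 + z.1.2.2.1.1 + z.2.1.1) + z.1.2.1 + 1) ^ 3 :=
    AlgKit.post (g := fun q : ℕ × ℕ => 8 * (q.1 + q.2 + 1) ^ 3) (by fun_prop)
      (AlgKit.pair (AlgKit.comp (AlgKit.fp_bg h) (AlgKit.of_pt _ (by fun_prop)) (BB.self' _))
        (AlgKit.of_pt _ (by fun_prop)))
  have g1 := fd_glue dec (A := ((ℕ × ℕ × PIns) × PIns) × PIns)
    (κ := fun w => w.1.1.1 + w.1.1.2.1 + w.1.1.2.2.1.1 + w.1.2.1.1 + w.2.1.1)
    (k := fun w => w.1.1.1) (t := fun w => w.1.1.2.1) (y := fun w => w.1.1.2.2)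
    (c := fun w => w.2) (by fun_prop) (by fun_prop) (by fun_prop) (by fun_prop) fun w => by omega
  have g2 := fd_glue dec (A := ((ℕ × ℕ × PIns) × PIns) × PIns)
    (κ := fun w => w.1.1.1 + w.1.1.2.1 + w.1.1.2.2.1.1 + w.1.2.1.1 + w.2.1.1)
    (k := fun w => w.1.1.1) (t := fun w => w.1.1.2.1) (y := fun w => w.1.2)
    (c := fun w => w.2) (by fun_prop) (by fun_prop) (by fun_prop) (by fun_prop) fun w => by omega
  have g0 : FD (fun w : ((ℕ × ℕ × PIns) × PIns) × PIns =>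
      w.1.1.1 + w.1.1.2.1 + w.1.1.2.2.1.1 + w.1.2.1.1 + w.2.1.1)
      fun w => valid w.1.1.2.1 w.2 = true :=
    AlgKit.fd_of (AlgKit.of_pt _ (pt_valid.comp
      (f := fun w : ((ℕ × ℕ × PIns) × PIns) × PIns => (w.1.1.2.1, w.2)) (by fun_prop)))
      fun _ => Iff.rfl
  have g := AlgKit.all_sz fS bS
    (AlgKit.fd_imp g0 (AlgKit.fd_and (AlgKit.fd_imp g1 g2) (AlgKit.fd_imp g2 g1)))
    ((BB.self' _).add bS) fun z c hc => Nat.add_le_add_left ((le_sz c).trans hc) _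
  simpa only [Same, iff_def] using g

/-! ### cutting an instance -/

theorem enum_ex {n : ℕ} (l : List ℕ) (hn : l.Nodup) (hl : ∀ v ∈ l, v < n) (X : Set (Fin n))
    (hX : ∀ v : Fin n, v ∈ X ↔ v.val ∈ l) :
    ∃ e : Fin l.length ≃ X, ∀ i, (e i).1.val = l.getD i 0 := by
  have m : ∀ i : Fin l.length, l[i.val] ∈ l := fun i => List.getElem_mem i.2
  refine ⟨Equiv.ofBijective (fun i => ⟨⟨l[i.val], hl _ (m i)⟩, (hX _).2 (m i)⟩)
    ⟨fun i j e => ?_, fun v => ?_⟩, fun i => ?_⟩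
  · exact Fin.ext ((hn.getElem_inj_iff).1 (congrArg (fun v : X => v.1.val) e))
  · obtain ⟨i, hi, e⟩ := List.getElem_of_mem ((hX v.1).1 v.2)
    exact ⟨⟨i, hi⟩, Subtype.ext (Fin.ext e)⟩
  · exact (List.getD_eq_getElem l 0 i.2).symm

def adjB (x : Ins) (u v : ℕ) : Bool :=
  !decide (u = v) && (decide ((u, v) ∈ x.2.1) || decide ((v, u) ∈ x.2.1))

theorem adjB_iff {x : Ins} (u v : Fin x.1) : adjB x u.val v.val = true ↔ (gOf x).Adj u v := by
  simp [adjB, adj_gOf, Fin.val_inj]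

def subI (x : Ins) (l : List ℕ) : Ins :=
  mkI l.length (fun p => decide ((l.getD p.1 0, l.getD p.2 0) ∈ x.2.1))
    fun i => decide (l.getD i 0 ∈ x.2.2)

theorem subI_spec {x : Ins} {l : List ℕ} {X : Set (Fin x.1)} (e : Fin l.length ≃ X)
    (he : ∀ i, (e i).1.val = l.getD i 0) :
    (∀ u v, (gOf (subI x l)).Adj u v ↔ ((gOf x).induce X).Adj (e u) (e v)) ∧
      ∀ u, u ∈ uOf (subI x l) ↔ (e u).1 ∈ uOf x := by
  refine ⟨fun u v => (adj_mkI u v).trans (Iff.trans ?_ (adj_gOf _ _).symm),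
    fun u => (mem_mkI u).trans ?_⟩
  · simp only [decide_eq_true_eq, ← he, Embedding.subtype_apply, ne_eq, Subtype.val_inj,
      e.injective.eq_iff]
    rfl
  · simp only [decide_eq_true_eq, ← he]
    rfl

def nbL (x : Ins) (l : List ℕ) : List ℕ :=
  (List.range x.1).filter fun v => !decide (v ∈ l) && l.any fun u => decide (u < x.1) && adjB x u v

def rest (x : Ins) (l : List ℕ) : List ℕ := (List.range x.1).filter fun v => !decide (v ∈ l)

theorem nbL_ex (x : Ins) (l : List ℕ) : ∃ e : Fin (nbL x l).length ≃ nb (gOf x) (setOf' x l),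
    ∀ i, (e i).1.val = (nbL x l).getD i 0 := by
  refine enum_ex _ (List.nodup_range.filter _)
    (fun v hv => List.mem_range.1 (List.mem_filter.1 hv).1) _ fun v => ?_
  simp only [List.mem_filter, List.mem_range, Fin.is_lt, true_and, Bool.and_eq_true,
    Bool.not_eq_true', decide_eq_false_iff_not, List.any_eq_true, decide_eq_true_eq]
  exact and_congr Iff.rfl ⟨fun ⟨u, a, b⟩ => ⟨u.val, a, u.2, (adjB_iff u v).2 b⟩,
    fun ⟨u, a, b, c⟩ => ⟨⟨u, b⟩, a, (adjB_iff ⟨u, b⟩ v).1 c⟩⟩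

theorem rest_ex (x : Ins) (l : List ℕ) : ∃ e : Fin (rest x l).length ≃ ((setOf' x l)ᶜ : Set _),
    ∀ i, (e i).1.val = (rest x l).getD i 0 := by
  refine enum_ex _ (List.nodup_range.filter _)
    (fun v hv => List.mem_range.1 (List.mem_filter.1 hv).1) _ fun v => ?_
  simp [setOf']

theorem length_nbL (x : Ins) (l : List ℕ) :
    (nbL x l).length = (nb (gOf x) (setOf' x l)).ncard := by
  obtain ⟨e, -⟩ := nbL_ex x l
  rw [← Nat.card_coe_set_eq, ← Nat.card_congr e, Nat.card_eq_fintype_card, Fintype.card_fin]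

def pieceI (x : Ins) (l : List ℕ) : PIns :=
  (subI x l, (prs l.length (nbL x l).length).filter fun p =>
    adjB x (l.getD p.1 0) ((nbL x l).getD p.2 0))

def ctxI (x : Ins) (l : List ℕ) : PIns :=
  (subI x (rest x l), (prs (nbL x l).length (rest x l).length).filter fun p =>
    decide ((nbL x l).getD p.1 0 = (rest x l).getD p.2 0))

section pt
variable {A : Type} [Enc A]

@[fun_prop] theorem pt_adjB {x : A → Ins} {u v : A → ℕ} (hx : PT x) (hu : PT u) (hv : PT v) :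
    PT fun a => adjB (x a) (u a) (v a) := by
  unfold adjB
  fun_prop

@[fun_prop] theorem pt_subI {x : A → Ins} {l : A → List ℕ} (hx : PT x) (hl : PT l) :
    PT fun a => subI (x a) (l a) := by
  unfold subI
  fun_prop

@[fun_prop] theorem pt_nbL {x : A → Ins} {l : A → List ℕ} (hx : PT x) (hl : PT l) :
    PT fun a => nbL (x a) (l a) := by
  unfold nbL
  fun_prop

@[fun_prop] theorem pt_rest {x : A → Ins} {l : A → List ℕ} (hx : PT x) (hl : PT l) :
    PT fun a => rest (x a) (l a) := by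
  unfold rest
  fun_prop

@[fun_prop] theorem pt_pieceI {x : A → Ins} {l : A → List ℕ} (hx : PT x) (hl : PT l) :
    PT fun a => pieceI (x a) (l a) := by
  unfold pieceI
  fun_prop

@[fun_prop] theorem pt_ctxI {x : A → Ins} {l : A → List ℕ} (hx : PT x) (hl : PT l) :
    PT fun a => ctxI (x a) (l a) := by
  unfold ctxI
  fun_prop

end pt

theorem cut_spec (bas : BasSt) (k : ℕ) (x : Ins) (l : List ℕ) (hn : l.Nodup)
    (hl : ∀ v ∈ l, v < x.1) :
    l.length + (rest x l).length = x.1 ∧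
      (∀ y', Equi k (pOf (nbL x l).length (pieceI x l)) (pOf (nbL x l).length y') →
        (PPI k x ↔ PPI k (glueI (nbL x l).length y' (ctxI x l)))) ∧
      (RedIn k (gOf x) (uOf x) (setOf' x l) → Red k (pOf (nbL x l).length (pieceI x l))) := by
  classical
  obtain ⟨e, he⟩ := enum_ex l hn hl (setOf' x l) fun _ => Iff.rfl
  obtain ⟨b, hb⟩ := nbL_ex x l
  obtain ⟨r, hr⟩ := rest_ex x l
  have inj : Injective fun s => (b s).1 := Subtype.val_injective.comp b.injective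
  have off : ∀ s, (b s).1 ∉ setOf' x l := fun s => (b s).2.1
  have ran : Set.range (fun s => (b s).1) = nb (gOf x) (setOf' x l) := by
    ext v
    exact ⟨fun ⟨s, a⟩ => a ▸ (b s).2, fun a => ⟨b.symm ⟨v, a⟩, by simp⟩⟩
  have eq : Equi k (pOf (nbL x l).length (pieceI x l))
      (pieceOf (gOf x) (uOf x) (setOf' x l) fun s => (b s).1) := by
    refine bas.piso k _ _ _ e (subI_spec e he).1 (fun v s => ?_) (subI_spec e he).2
    change (v.val, s.val) ∈ List.filter _ _ ↔ (gOf x).Adj (e v).1 (b s).1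
    rw [← adjB_iff, he, hb, List.mem_filter, mem_prs]
    exact and_iff_right ⟨v.2, s.2⟩
  refine ⟨?_, fun y' hy => ?_, fun h => ?_⟩
  · have := Nat.card_congr ((e.sumCongr r).trans (Equiv.Set.sumCompl _))
    simpa using this
  · refine (bas.dec k _ _ _ _ _ inj off ran.ge).trans ?_
    rw [← eq _ _, hy _ _]
    refine glueI_spec bas k _ y' (ctxI x l) _ r.symm (fun u v => ?_) (fun v => ?_) fun s u => ?_
    · have := (subI_spec r hr).1 (r.symm u) (r.symm v)
      rw [Equiv.apply_symm_apply, Equiv.apply_symm_apply] at this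
      exact this.symm
    · have := (subI_spec r hr).2 (r.symm v)
      rw [Equiv.apply_symm_apply] at this
      exact this.symm
    · change _ ↔ (s.val, (r.symm u).val) ∈ List.filter _ _
      rw [List.mem_filter, mem_prs, decide_eq_true_eq, ← hb, ← hr, Equiv.apply_symm_apply,
        and_iff_right ⟨s.2, (r.symm u).2⟩, Fin.val_inj]
      exact Subtype.ext_iff
  · obtain ⟨I, fI, P, lt, hP⟩ := h _ _ inj ran
    exact ⟨I, fI, P, lt.trans_eq (Nat.card_congr e).symm, equi_trans eq hP⟩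

end AlgFind

open AlgFind

theorem find : KA → BasSt → BoundSt → DecSt → FindSt := by
  classical
  intro _ bas ⟨h, hb⟩ dec
  obtain ⟨en, he, hen⟩ := AlgKit.enum PIns
  have bS : BB (fun a : ℕ × ℕ × PIns => a.1 + a.2.1 + a.2.2.1.1) fun a =>
      8 * (a.2.2.1.1 + a.2.1 + 1) ^ 3 :=
    (BB.const 8).mul ((BB.of_le fun a => by omega).succ.pow (BB.const 3))
  have g0 : FD (fun z : (ℕ × ℕ × PIns) × PIns => z.1.1 + z.1.2.1 + z.1.2.2.1.1 + z.2.1.1)
      fun z => z.2.1.1 < z.1.2.2.1.1 :=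
    AlgKit.fd_of (f := fun z => decide (z.2.1.1 < z.1.2.2.1.1)) (AlgKit.of_pt _ (by fun_prop))
      fun _ => by simp
  refine ⟨_, AlgKit.find (AlgKit.comp he (AlgKit.of_pt _ (by fun_prop)) bS)
    (AlgKit.fd_and g0 (fd_same dec h)) ((BB.self' _).add bS)
    fun a c hc => Nat.add_le_add_left ((le_sz c).trans ((hen _ _).1 hc)) _,
    fun k t y => ⟨fun y' e => ?_, fun e ⟨I, _, P, lt, hP⟩ => ?_⟩⟩
  · have := List.find?_some e
    simp only [decide_eq_true_eq] at this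
    refine ⟨this.1, hb k t _ _ _ _ ?_⟩
    simpa only [Nat.card_eq_fintype_card, Fintype.card_fin] using of_same bas this.2
  · obtain ⟨y', a1, a2, a3⟩ := piece_ex bas k P
    simp only [Nat.card_eq_fintype_card, Fintype.card_fin] at lt
    have := List.find?_eq_none.1 e y' ((hen _ _).2
      (a2.trans (Nat.mul_le_mul_left _ (Nat.pow_le_pow_left (by dsimp only; omega) 3))))
    simp only [decide_eq_true_eq] at this
    exact this ⟨by omega, same_of bas _ (equi_trans hP a3)⟩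

theorem step : KA → BasSt → FindSt → StepSt := by
  intro _ bas ⟨find, hf, hs⟩
  have f1 : FP (fun a : ℕ × Ins × List ℕ =>
      a.1 + a.2.2.length + (nb (gOf a.2.1) (setOf' a.2.1 a.2.2)).ncard) fun a =>
      find (a.1, (nbL a.2.1 a.2.2).length, pieceI a.2.1 a.2.2) :=
    AlgKit.comp hf (AlgKit.of_pt _ (by fun_prop)) (BB.of_le fun a => by
      rw [← length_nbL]
      change a.1 + (nbL a.2.1 a.2.2).length + a.2.2.length ≤ _
      omega)
  have p : PT fun q : (ℕ × Ins × List ℕ) × Option PIns => q.2.map fun y' =>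
      glueI (nbL q.1.2.1 q.1.2.2).length y' (ctxI q.1.2.1 q.1.2.2) :=
    PT.option_map (by fun_prop) (pt_glueI.comp
      (f := fun r : ((ℕ × Ins × List ℕ) × Option PIns) × PIns =>
        ((nbL r.1.1.2.1 r.1.1.2.2).length, r.2, ctxI r.1.1.2.1 r.1.1.2.2)) (by fun_prop))
  refine ⟨_, AlgKit.post p (AlgKit.pair (AlgKit.of_pt _ PT.id) f1), fun k x l hn hl => ?_⟩
  obtain ⟨c1, c2, c3⟩ := cut_spec bas k x l hn hl
  refine ⟨fun x' e => ?_, fun e h => (hs _ _ _).2 (Option.map_eq_none_iff.1 e) (c3 h)⟩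
  obtain ⟨y', a, rfl⟩ := Option.map_eq_some_iff.1 e
  obtain ⟨a1, a2⟩ := (hs _ _ _).1 y' a
  have lt : y'.1.1 + (rest x l).length < x.1 := by
    change y'.1.1 < l.length at a1
    omega
  refine ⟨lt, (sz_mkI _ _ _).trans ?_, c2 y' a2⟩
  exact Nat.mul_le_mul (by omega) (Nat.pow_le_pow_left (Nat.succ_le_succ lt.le) 3)

end Pool.Agent.Lib.MP_c1f5fe_lc
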