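import Pool.Agent.Lib.MP_c1f5fe_lc.SpecD
import Pool.Agent.Lib.MP_c1f5fe_lc.Tb

/-! The kit for computations with padding. -/

namespace Pool.Agent.Lib.MP_c1f5fe_lc

open Function
open Pool.Agent.Lib.Complexity

namespace AlgKit

variable {A B C S : Type}

/-- true for every large padding -/
def Lg (κ : A → ℕ) (P : A → ℕ → Prop) : Prop := ∃ h, ∀ a p, bg h (κ a) ≤ p → P a p

theorem Lg.and {κ : A → ℕ} {P Q : A → ℕ → Prop} (h1 : Lg κ P) (h2 : Lg κ Q) :
    Lg κ fun a p => P a p ∧ Q a p :=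
  let ⟨n, hn⟩ := h1; let ⟨m, hm⟩ := h2
  ⟨n + m, fun a p l => ⟨hn a p ((bg_mono_left (by omega) _).trans l),
    hm a p ((bg_mono_left (by omega) _).trans l)⟩⟩

variable [Enc A] [Enc B] [Enc C] [Enc S]

theorem mk {κ : A → ℕ} {f : A → B} {P : A → ℕ → Prop} (F : A × ℕ → B) (hF : PT F) (h : Lg κ P)
    (e : ∀ a p, P a p → F (a, p) = f a) : FP κ f :=
  let ⟨n, hn⟩ := h; ⟨n, F, hF, fun a p l => e a p (hn a p l)⟩

theorem out {κ : A → ℕ} {f : A → B} (h : FP κ f) :
    ∃ F : A × ℕ → B, PT F ∧ Lg κ fun a p => F (a, p) = f a :=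
  let ⟨n, F, hF, e⟩ := h; ⟨F, hF, n, e⟩

omit [Enc A] in
theorem pad {κ μ : A → ℕ} {κ' : B → ℕ} {g : B → C} (hg : FP κ' g) (hμ : BB κ μ) :
    ∃ G : B × ℕ → C, PT G ∧ Lg κ fun a p => ∀ x, κ' x ≤ μ a → G (x, p) = g x := by
  obtain ⟨n, G, hG, e⟩ := hg
  obtain ⟨m, hm⟩ := hμ
  refine ⟨G, hG, n + m, fun a p l x hx => e x p (le_trans ?_ l)⟩
  rw [bg_add]
  exact bg_mono_right n (hx.trans (hm a))

theorem of_pt (κ : A → ℕ) {f : A → B} (h : PT f) : FP κ f :=
  ⟨0, fun q => f q.1, h.comp (by fun_prop), fun _ _ _ => rfl⟩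

theorem congr {κ : A → ℕ} {f g : A → B} (h : FP κ f) (e : ∀ a, f a = g a) : FP κ g :=
  funext e ▸ h

theorem comp {κ : A → ℕ} {κ' : B → ℕ} {g : B → C} {f : A → B} (hg : FP κ' g) (hf : FP κ f)
    (hb : BB κ fun a => κ' (f a)) : FP κ fun a => g (f a) := by
  obtain ⟨G, hG, e1⟩ := pad hg hb
  obtain ⟨F, hF, e2⟩ := out hf
  refine mk (fun q => G (F q, q.2)) (hG.comp (by fun_prop)) (e1.and e2) fun a p h => ?_
  simp only [h.2]
  exact h.1 _ le_rfl

theorem mono {κ κ' : A → ℕ} {f : A → B} (hb : BB κ κ') (hf : FP κ' f) : FP κ f :=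
  comp hf (of_pt κ PT.id) hb

theorem post {κ : A → ℕ} {g : B → C} {f : A → B} (hg : PT g) (hf : FP κ f) :
    FP κ fun a => g (f a) :=
  comp (of_pt (fun _ => 0) hg) hf (BB.const 0)

theorem pair {κ : A → ℕ} {f : A → B} {g : A → C} (hf : FP κ f) (hg : FP κ g) :
    FP κ fun a => (f a, g a) := by
  obtain ⟨G, hG, e1⟩ := out hg
  obtain ⟨F, hF, e2⟩ := out hf
  refine mk (fun q => (F q, G q)) (hF.prodMk hG) (e1.and e2) fun a p h => ?_
  simp only [h.1, h.2]

/-! ### truncated towers -/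

theorem iter_pow (y p : ℕ) : (fun z => min (2 * z) p)^[y] (min 1 p) = min (2 ^ y) p := by
  induction y with
  | zero => rfl
  | succ y ih => rw [iterate_succ_apply', ih, pow_succ]; omega

theorem pt_pow : PT fun q : ℕ × ℕ => min (2 ^ q.1) q.2 := by
  refine (PT.iterate (n := fun q : ℕ × ℕ => q.1) (init := fun q => min 1 q.2)
    (step := fun q z => min (2 * z) q.2) (by fun_prop) (by fun_prop) (by fun_prop)
    (B := fun q => q.2) (PT.pb_nat (by fun_prop)) fun a i _ => ?_).of_eq fun q => iter_pow _ _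
  rw [iter_pow, sz_nat]
  exact min_le_right _ _

theorem iter_tw (n x p : ℕ) : (fun y => min (2 ^ y) p)^[n] (min x p) = min (tw n x) p := by
  induction n with
  | zero => rfl
  | succ n ih =>
    rw [iterate_succ_apply', ih, tw_succ]
    rcases le_total (tw n x) p with l | l
    · rw [min_eq_left l]
    · rw [min_eq_right l, min_eq_right Nat.lt_two_pow_self.le,
        min_eq_right (l.trans Nat.lt_two_pow_self.le)]

theorem pt_tw : PT fun q : ℕ × ℕ × ℕ => min (tw q.1 q.2.1) q.2.2 := by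
  refine (PT.iterate (n := fun q : ℕ × ℕ × ℕ => q.1) (init := fun q => min q.2.1 q.2.2)
    (step := fun q y => min (2 ^ y) q.2.2) (by fun_prop) (by fun_prop)
    (pt_pow.comp (f := fun r : (ℕ × ℕ × ℕ) × ℕ => (r.2, r.1.2.2)) (by fun_prop))
    (B := fun q => q.2.2) (PT.pb_nat (by fun_prop)) fun a i _ => ?_).of_eq fun q => iter_tw _ _ _
  rw [iter_tw, sz_nat]
  exact min_le_right _ _

theorem pt_bg (h : ℕ) : PT fun q : ℕ × ℕ => min (bg h q.1) q.2 := by
  induction h with
  | zero => exact (by fun_prop : PT fun q : ℕ × ℕ => min q.1 q.2)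
  | succ h ih =>
    refine (pt_tw.comp (f := fun q : ℕ × ℕ =>
      (min (bg h q.1) q.2 + 1, min (bg h q.1) q.2 + 1, q.2)) (by fun_prop)).of_eq fun q => ?_
    rw [bg_succ]
    rcases le_total (bg h q.1) q.2 with l | l
    · simp only [min_eq_left l]
    · simp only [min_eq_right l]
      rw [min_eq_right ((Nat.le_succ _).trans (le_tw _ _)),
        min_eq_right ((l.trans (Nat.le_succ _)).trans (le_tw _ _))]

theorem fp_bg (h : ℕ) : FP (fun n : ℕ => n) (bg h) :=
  ⟨h, _, pt_bg h, fun _ _ l => min_eq_left l⟩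

theorem fp_tw (h : ℕ) : FP (fun n : ℕ => n) (tw h) :=
  ⟨h, _, pt_tw.comp (f := fun q : ℕ × ℕ => (h, q.1, q.2)) (by fun_prop),
    fun _ _ l => min_eq_left ((tw_le_bg _ _).trans l)⟩

/-! ### control -/

open Classical in
theorem ite {κ κ₁ κ₂ μ : A → ℕ} {c : A → Prop} {f g : A → B} (hc : FD κ c) (hf : FP κ₁ f)
    (hg : FP κ₂ g) (hμ : BB κ μ) (h1 : ∀ a, c a → κ₁ a ≤ μ a) (h2 : ∀ a, ¬c a → κ₂ a ≤ μ a) :
    FP κ fun a => if c a then f a else g a := by
  obtain ⟨X, hX, e0⟩ := out hc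
  obtain ⟨F, hF, e1⟩ := pad hf hμ
  obtain ⟨G, hG, e2⟩ := pad hg hμ
  refine mk (fun q => cond (X q) (F q) (G q)) (hX.cond hF hG) (e0.and (e1.and e2))
    fun a p h => ?_
  simp only [h.1]
  by_cases k : c a
  · simp [k, h.2.1 a (h1 a k)]
  · simp [k, h.2.2 a (h2 a k)]

theorem map {κ μ : A → ℕ} {κ' : A × B → ℕ} {l : A → List B} {g : A × B → C} (hl : FP κ l)
    (hg : FP κ' g) (hμ : BB κ μ) (h1 : ∀ a, ∀ b ∈ l a, κ' (a, b) ≤ μ a) :
    FP κ fun a => (l a).map fun b => g (a, b) := by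
  obtain ⟨L, hL, e0⟩ := out hl
  obtain ⟨G, hG, e1⟩ := pad hg hμ
  refine mk (fun q => (L q).map fun b => G ((q.1, b), q.2))
    (hL.map (hG.comp (f := fun r : (A × ℕ) × B => ((r.1.1, r.2), r.1.2)) (by fun_prop)))
    (e0.and e1) fun a p h => ?_
  simp only [h.1]
  exact List.map_congr_left fun b hb => h.2 _ (h1 a b hb)

theorem iter {κ μ : A → ℕ} {κ' : A × S → ℕ} {step : A × S → S} {init : A → S} {n bd : A → ℕ}
    (hs : FP κ' step) (hi : FP κ init) (hn : FP κ n) (hb : FP κ bd) (hμ : BB κ μ)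
    (h1 : ∀ a i, i ≤ n a → κ' (a, (fun s => step (a, s))^[i] (init a)) ≤ μ a ∧
      sz ((fun s => step (a, s))^[i] (init a)) ≤ bd a) :
    FP κ fun a => (fun s => step (a, s))^[n a] (init a) := by
  obtain ⟨St, hSt, e0⟩ := pad hs hμ
  obtain ⟨I, hI, e1⟩ := out hi
  obtain ⟨N, hN, e2⟩ := out hn
  obtain ⟨D, hD, e3⟩ := out hb
  have hS : PT fun r : (A × ℕ) × S => St ((r.1.1, r.2), r.1.2) := hSt.comp (by fun_prop)
  have hD' : PT fun r : (A × ℕ) × S => D r.1 := hD.comp (by fun_prop)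
  refine mk (fun q => (fun s => if sz (St ((q.1, s), q.2)) ≤ D q then St ((q.1, s), q.2)
    else s)^[N q] (I q)) (PT.iterate hN hI (PT.ite (hS.sz'.dec_le hD') hS (by fun_prop))
      (B := fun q => sz (I q) + D q) (hI.pb.add hD.pb_nat) fun q i _ => ?_)
    (e0.and (e1.and (e2.and e3))) fun a p h => ?_
  · clear * -
    induction i with
    | zero => exact Nat.le_add_right _ _
    | succ i ih =>
      rw [iterate_succ_apply']
      split_ifs with k
      · omega
      · exact ih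
  · obtain ⟨k0, k1, k2, k3⟩ := h
    simp only [k1, k2, k3]
    have : ∀ i, i ≤ n a → (fun s => if sz (St ((a, s), p)) ≤ bd a then St ((a, s), p)
        else s)^[i] (init a) = (fun s => step (a, s))^[i] (init a) := by
      intro i hi
      induction i with
      | zero => rfl
      | succ i ih =>
        have u := (h1 a (i + 1) hi).2
        rw [iterate_succ_apply'] at u
        rw [iterate_succ_apply', iterate_succ_apply', ih (by omega),
          k0 _ (h1 a i (by omega)).1, if_pos u]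
    exact this _ le_rfl

/-! ### enumeration -/

def more (L : List (List Bool)) : List (List Bool) :=
  [] :: L.flatMap fun l => [false :: l, true :: l]

theorem more_mem (i : ℕ) (l : List Bool) : l ∈ more^[i] [[]] ↔ l.length ≤ i := by
  induction i generalizing l with
  | zero => simp
  | succ i ih =>
    rw [iterate_succ_apply', more]
    rcases l with _ | ⟨b, l⟩
    · simp
    · cases b <;> simp [ih]

theorem more_len (i : ℕ) : (more^[i] [[]]).length + 1 = 2 ^ (i + 1) := by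
  induction i with
  | zero => rfl
  | succ i ih =>
    rw [iterate_succ_apply', more, List.length_cons, List.length_flatMap, pow_succ, ← ih]
    simp
    omega

theorem fp_more : FP (fun n : ℕ => n) fun n => more^[2 * n + 1] [[]] := by
  obtain ⟨h, hh⟩ : TB (fun n : ℕ => n) fun n => 2 ^ (2 * n + 1 + 1) * (2 * (2 * n + 1) + 1) :=
    ((((TB.const 2).mul (TB.self' _)).succ).succ.two_pow).mul
      (((TB.const 2).mul ((TB.const 2).mul (TB.self' _)).succ).succ)
  refine iter (κ' := fun _ => 0) (μ := fun _ => 0) (step := fun q : ℕ × List (List Bool) => more q.2)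
    (init := fun _ => [[]]) (n := fun n => 2 * n + 1) (bd := tw h)
    (of_pt _ (by unfold more; fun_prop)) (of_pt _ (by fun_prop)) (of_pt _ (by fun_prop)) (fp_tw h)
    (BB.const 0) fun a i hi => ⟨le_rfl, le_trans ?_ (hh a)⟩
  refine (sz_list_le (B := 2 * (2 * a + 1)) fun l hl => ?_).trans (Nat.mul_le_mul_right _ ?_)
  · have := (more_mem i l).1 hl
    have := PT.sz_str_le l
    omega
  · have := more_len i
    have : 2 ^ (i + 1) ≤ 2 ^ (2 * a + 1 + 1) := Nat.pow_le_pow_right (by omega) (by omega)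
    change (more^[i] [[]]).length ≤ _
    omega

theorem enum (B : Type) [Enc B] [Rd B] :
    ∃ en : ℕ → List B, FP (fun n : ℕ => n) en ∧ ∀ n b, b ∈ en n ↔ sz b ≤ n := by
  refine ⟨fun n => ((more^[2 * n + 1] [[]]).map fun l => (rd (PT.parse l) : B)).filter
    fun b => decide (sz b ≤ n), ?_, fun n b => ?_⟩
  · have p : PT fun r : (ℕ × List (List Bool)) × List Bool => (rd (PT.parse r.2) : B) :=
      PT.rd (PT.parse'.comp (by fun_prop))
    exact post (g := fun q : ℕ × List (List Bool) =>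
      (q.2.map fun l => (rd (PT.parse l) : B)).filter fun b => decide (sz b ≤ q.1))
      (PT.filter (PT.map (by fun_prop) p) (by fun_prop)) (pair (of_pt _ PT.id) fp_more)
  · simp only [List.mem_filter, List.mem_map, more_mem, decide_eq_true_eq]
    refine ⟨fun h => h.2, fun h => ⟨⟨(enc b).bits, ?_, ?_⟩, h⟩⟩
    · rw [T.length_bits]
      unfold sz at h
      omega
    · rw [PT.parse_bits', Rd.rd_enc]

/-! ### decisions -/

theorem fd_of {κ : A → ℕ} {p : A → Prop} {f : A → Bool} (hf : FP κ f)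
    (e : ∀ a, p a ↔ f a = true) : FD κ p :=
  congr hf fun a => by simp [e]

theorem fd_not {κ : A → ℕ} {p : A → Prop} (hp : FD κ p) : FD κ fun a => ¬p a :=
  fd_of (post (g := fun b : Bool => !b) (by fun_prop) hp) fun a => by simp

theorem fd_and {κ : A → ℕ} {p q : A → Prop} (hp : FD κ p) (hq : FD κ q) :
    FD κ fun a => p a ∧ q a :=
  fd_of (post (g := fun b : Bool × Bool => b.1 && b.2) (by fun_prop) (pair hp hq))
    fun a => by simp

theorem fd_or {κ : A → ℕ} {p q : A → Prop} (hp : FD κ p) (hq : FD κ q) :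
    FD κ fun a => p a ∨ q a :=
  fd_of (post (g := fun b : Bool × Bool => b.1 || b.2) (by fun_prop) (pair hp hq))
    fun a => by simp

theorem fd_imp {κ : A → ℕ} {p q : A → Prop} (hp : FD κ p) (hq : FD κ q) :
    FD κ fun a => p a → q a :=
  fd_of (post (g := fun b : Bool × Bool => !b.1 || b.2) (by fun_prop) (pair hp hq))
    fun a => by simp [imp_iff_not_or]

section lists
variable {κ μ : A → ℕ} {κ' : A × B → ℕ} {l : A → List B} {p : A × B → Prop}

open Classical in
theorem tag (hl : FP κ l) (hp : FD κ' p) (hμ : BB κ μ)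
    (h1 : ∀ a, ∀ b ∈ l a, κ' (a, b) ≤ μ a) :
    FP κ fun a => (l a).map fun b => (b, decide (p (a, b))) :=
  map (g := fun q => (q.2, decide (p q))) hl (pair (of_pt _ (by fun_prop)) hp) hμ h1

theorem ex_mem (hl : FP κ l) (hp : FD κ' p) (hμ : BB κ μ)
    (h1 : ∀ a, ∀ b ∈ l a, κ' (a, b) ≤ μ a) : FD κ fun a => ∃ b ∈ l a, p (a, b) :=
  fd_of (post (g := fun L : List (B × Bool) => L.any fun x => x.2) (by fun_prop)
    (tag hl hp hμ h1)) fun a => by simp

theorem all_mem (hl : FP κ l) (hp : FD κ' p) (hμ : BB κ μ)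
    (h1 : ∀ a, ∀ b ∈ l a, κ' (a, b) ≤ μ a) : FD κ fun a => ∀ b ∈ l a, p (a, b) :=
  fd_of (post (g := fun L : List (B × Bool) => L.all fun x => x.2) (by fun_prop)
    (tag hl hp hμ h1)) fun a => by simp

open Classical in
theorem find (hl : FP κ l) (hp : FD κ' p) (hμ : BB κ μ)
    (h1 : ∀ a, ∀ b ∈ l a, κ' (a, b) ≤ μ a) :
    FP κ fun a => (l a).find? fun b => decide (p (a, b)) :=
  congr (post (g := fun L : List (B × Bool) => (L.find? fun x => x.2).map fun x => x.1)
    (by fun_prop) (tag hl hp hμ h1)) fun a => by simp [List.find?_map, comp_def]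

open Classical in
theorem filter (hl : FP κ l) (hp : FD κ' p) (hμ : BB κ μ)
    (h1 : ∀ a, ∀ b ∈ l a, κ' (a, b) ≤ μ a) :
    FP κ fun a => (l a).filter fun b => decide (p (a, b)) :=
  congr (post (g := fun L : List (B × Bool) => (L.filter fun x => x.2).map fun x => x.1)
    (by fun_prop) (tag hl hp hμ h1)) fun a => by simp [List.filter_map, comp_def]

variable [Rd B] {f : A → ℕ}

theorem ex_sz (hf : FP κ f) (hb : BB κ f) (hp : FD κ' p) (hμ : BB κ μ)
    (h1 : ∀ a b, sz b ≤ f a → κ' (a, b) ≤ μ a) : FD κ fun a => ∃ b, sz b ≤ f a ∧ p (a, b) := by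
  obtain ⟨en, he, e⟩ := enum B
  have := ex_mem (comp he hf hb) hp hμ fun a b m => h1 a b ((e _ _).1 m)
  simpa only [e] using this

theorem all_sz (hf : FP κ f) (hb : BB κ f) (hp : FD κ' p) (hμ : BB κ μ)
    (h1 : ∀ a b, sz b ≤ f a → κ' (a, b) ≤ μ a) : FD κ fun a => ∀ b, sz b ≤ f a → p (a, b) := by
  obtain ⟨en, he, e⟩ := enum B
  have := all_mem (comp he hf hb) hp hμ fun a b m => h1 a b ((e _ _).1 m)
  simpa only [e] using this

end lists

end AlgKit

theorem ka : KA where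
  of_pt := AlgKit.of_pt
  mono := AlgKit.mono
  comp := AlgKit.comp
  pair := AlgKit.pair
  bg := AlgKit.fp_bg
  tw := AlgKit.fp_tw
  ite := AlgKit.ite
  map := AlgKit.map
  iter := AlgKit.iter
  enum := AlgKit.enum
  fd_of := AlgKit.fd_of
  fd_not := AlgKit.fd_not
  fd_and := AlgKit.fd_and
  fd_or := AlgKit.fd_or
  fd_imp := AlgKit.fd_imp
  ex_mem := AlgKit.ex_mem
  all_mem := AlgKit.all_mem
  ex_sz := AlgKit.ex_sz
  all_sz := AlgKit.all_sz
  find := AlgKit.find
  filter := AlgKit.filter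

end Pool.Agent.Lib.MP_c1f5fe_lc
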