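import Pool.Agent.Lib.MP_c1f5fe_lc.SpecD
import Pool.Agent.Lib.MP_c1f5fe_lc.Tb

/-! The main loop and the top level of the algorithm. -/

namespace Pool.Agent.Lib.MP_c1f5fe_lc

open Function
open Pool.Agent.Lib.Complexity

namespace AlgLoop

/-- the first success, or the old instance -/
def pick (o : List (Option Ins)) (x : Ins) : Ins := ((o.filterMap fun y => y).head?).getD x

theorem pick_spec (o : List (Option Ins)) (x : Ins) :
    some (pick o x) ∈ o ∨ (pick o x = x ∧ ∀ y ∈ o, y = none) := by
  induction o with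
  | nil => exact Or.inr ⟨rfl, by simp⟩
  | cons y o ih =>
    cases y with
    | none =>
      have e : pick (none :: o) x = pick o x := by simp [pick]
      rw [e]
      rcases ih with h | h
      · exact Or.inl (List.mem_cons_of_mem _ h)
      · exact Or.inr ⟨h.1, by simpa using h.2⟩
    | some y => exact Or.inl (by simp [pick])

theorem pt_par : PT par := by
  have : PT fun l : List Bool =>
      (List.range l.length).countP fun i => (l.take (i + 1)).all fun b => b := by fun_prop
  refine this.of_eq fun l => ?_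
  induction l with
  | nil => rfl
  | cons b l ih =>
    rw [List.length_cons, List.range_succ_eq_map, List.countP_cons, List.countP_map]
    cases b with
    | false => simp [par, Function.comp_def]
    | true =>
      have e : par (true :: l) = par l + 1 := by simp [par]
      rw [e, ← ih]
      simp [Function.comp_def]

theorem par_eq (k : ℕ) (l : List Bool) : par (List.replicate k true ++ false :: l) = k := by
  induction k with
  | zero => simp [par]
  | succ k _ => simp [par, List.replicate_succ]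

theorem get_flat {A B : Type} (g : A → List B) (n : ℕ) (hg : ∀ a, (g a).length = n) (L : List A)
    (u v : ℕ) (hu : u < L.length) (hv : v < n) : (L.flatMap g)[u * n + v]? = (g L[u])[v]? := by
  induction L generalizing u with
  | nil => simp at hu
  | cons a L ih =>
    rw [List.flatMap_cons]
    cases u with
    | zero => rw [List.getElem?_append_left (by rw [hg]; omega)]; simp
    | succ u =>
      rw [List.getElem?_append_right (by rw [hg]; nlinarith), hg,
        show (u + 1) * n + v - n = u * n + v by rw [Nat.succ_mul]; omega]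
      exact ih u (by simpa using hu)

/-- the number of vertices -/
def nOf (l : List Bool) : ℕ := par (l.drop (par l + 1))

/-- the adjacency matrix -/
def adj (l : List Bool) (u v : ℕ) : Bool := (l.drop (par l + 1 + nOf l + 1)).getD (u * nOf l + v) false

@[fun_prop] theorem pt_par' {A : Type} [Enc A] {f : A → List Bool} (hf : PT f) :
    PT fun a => par (f a) := pt_par.comp hf

@[fun_prop] theorem pt_nOf {A : Type} [Enc A] {f : A → List Bool} (hf : PT f) :
    PT fun a => nOf (f a) := by unfold nOf; fun_prop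

@[fun_prop] theorem pt_adj {A : Type} [Enc A] {f : A → List Bool} {u v : A → ℕ} (hf : PT f)
    (hu : PT u) (hv : PT v) : PT fun a => adj (f a) (u a) (v a) := by unfold adj; fun_prop

open Classical in
theorem code_spec (k n : ℕ) (G : SimpleGraph (Fin n)) : par (code k n G) = k ∧
    nOf (code k n G) = n ∧ ∀ u v : Fin n, adj (code k n G) u v = decide (G.Adj u v) := by
  set M := (List.finRange n).flatMap fun u => (List.finRange n).map fun v => decide (G.Adj u v)
    with hM
  have e : code k n G = List.replicate k true ++ false :: (List.replicate n true ++ false :: M) := by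
    simp [code, hM]
  have h1 : par (code k n G) = k := by rw [e, par_eq]
  have d1 : (code k n G).drop (k + 1) = List.replicate n true ++ false :: M := by
    rw [e, ← List.drop_drop, List.drop_left' (by simp)]; rfl
  have h2 : nOf (code k n G) = n := by rw [nOf, h1, d1, par_eq]
  refine ⟨h1, h2, fun u v => ?_⟩
  have d2 : (code k n G).drop (k + 1 + n + 1) = M := by
    rw [← List.drop_drop, ← List.drop_drop (i := n), d1, List.drop_left' (by simp)]; rfl
  rw [adj, h1, h2, d2, List.getD_eq_getElem?_getD, hM,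
    get_flat _ n (by simp) _ u v (by simp) v.2]
  simp

/-- the instance induced on a list of vertices -/
def ind (l : List Bool) (c : List ℕ) : Ins :=
  (c.length, ((List.range c.length).flatMap fun i => (List.range c.length).map fun j => (i, j)).filter
    fun p => adj l (c.getD p.1 0) (c.getD p.2 0), [])

@[fun_prop] theorem pt_ind {A : Type} [Enc A] {f : A → List Bool} {c : A → List ℕ} (hf : PT f)
    (hc : PT c) : PT fun a => ind (f a) (c a) := by unfold ind; fun_prop

open Classical in
theorem ind_spec (bas : BasSt) (k : ℕ) {n : ℕ} {G : SimpleGraph (Fin n)} {l : List Bool}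
    (hl : ∀ u v : Fin n, adj l u v = decide (G.Adj u v)) {c : List ℕ} (nd : c.Nodup)
    (lt : ∀ v ∈ c, v < n) {X : Set (Fin n)} (hX : ∀ v, v ∈ X ↔ v.val ∈ c) :
    PPI k (ind l c) ↔ PP k (G.induce X) ∅ := by
  let f : Fin c.length → X := fun i =>
    ⟨⟨(c)[i.val]'i.2, lt _ (List.getElem_mem _)⟩, (hX _).2 (List.getElem_mem _)⟩
  have hf : Bijective f := by
    constructor
    · intro i j h
      exact Fin.ext ((List.Nodup.getElem_inj_iff nd).1 (congrArg (fun x : X => x.1.1) h))
    · rintro ⟨v, hv⟩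
      obtain ⟨i, hi, e⟩ := List.getElem_of_mem ((hX v).1 hv)
      exact ⟨⟨i, hi⟩, Subtype.ext (Fin.ext e)⟩
  have key : ∀ i j : Fin c.length, (i.val, j.val) ∈ (ind l c).2.1 ↔ G.Adj (f i).1 (f j).1 := by
    intro i j
    have := hl (f i).1 (f j).1
    simp only [ind, List.mem_filter, List.mem_flatMap, List.mem_range, List.mem_map,
      List.getD_eq_getElem?_getD, List.getElem?_eq_getElem i.2, List.getElem?_eq_getElem j.2,
      Option.getD_some]
    constructor
    · rintro ⟨-, h⟩
      exact of_decide_eq_true (this.symm.trans h)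
    · intro h
      exact ⟨⟨i, i.2, j, j.2, rfl⟩, this.trans (decide_eq_true h)⟩
  refine (bas.iso k (gOf (ind l c)) (uOf (ind l c)) (G.induce X) ∅ (Equiv.ofBijective f hf)
    (fun i j => ?_) fun v => ⟨fun h => absurd h List.not_mem_nil, False.elim⟩).2
  exact ⟨fun h => h.2.elim (key i j).1 fun h => ((key j i).1 h).symm,
    fun h => ⟨fun e => h.ne (by rw [e]), Or.inl ((key i j).2 h)⟩⟩

/-- one round of neighbourhood closure -/
def clo (l : List Bool) (c : List ℕ) : List ℕ :=
  (List.range (nOf l)).filter fun u => decide (u ∈ c) || c.any fun w => adj l w u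

/-- the component of `v` -/
def cmp (l : List Bool) (v : ℕ) : List ℕ := (clo l)^[nOf l] [v]

theorem pt_cmp : PT fun a : List Bool × ℕ => cmp a.1 a.2 := by
  refine PT.iterate (step := fun a : List Bool × ℕ => clo a.1) (by fun_prop) (by fun_prop)
    (by unfold clo; fun_prop) (B := fun a => sz [a.2] + sz (List.range (nOf a.1)))
    (PT.pb_nat (by fun_prop)) fun a i _ => ?_
  cases i with
  | zero => exact Nat.le_add_right _ _
  | succ i =>
    rw [iterate_succ_apply']
    exact (sz_le_of_sublist List.filter_sublist).trans (Nat.le_add_left _ _)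

open Classical in
theorem cmp_spec {n : ℕ} {G : SimpleGraph (Fin n)} {l : List Bool} (hn : nOf l = n)
    (hl : ∀ u v : Fin n, adj l u v = decide (G.Adj u v)) (v : Fin n) :
    (cmp l v).Nodup ∧ (∀ u ∈ cmp l v, u < n) ∧
      ∀ u : Fin n, u ∈ {u | G.Reachable v u} ↔ u.val ∈ cmp l v := by
  have mem : ∀ c (u : ℕ), u ∈ clo l c ↔ u < n ∧ (u ∈ c ∨ ∃ w ∈ c, adj l w u = true) := by
    intro c u
    simp [clo, hn]
  have a : ∀ i, ((clo l)^[i] [v.val]).Nodup ∧
      ∀ u ∈ (clo l)^[i] [v.val], ∃ h : u < n, G.Reachable v ⟨u, h⟩ := by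
    intro i
    induction i with
    | zero =>
      refine ⟨by simp, fun u hu => ?_⟩
      obtain rfl : u = v.val := by simpa using hu
      exact ⟨v.2, .refl _⟩
    | succ i ih =>
      rw [iterate_succ_apply']
      refine ⟨List.nodup_range.filter _, fun u hu => ?_⟩
      obtain ⟨h, h1 | ⟨w, hw, h1⟩⟩ := (mem _ u).1 hu
      · exact ih.2 u h1
      · obtain ⟨h2, h3⟩ := ih.2 w hw
        exact ⟨h, h3.trans (of_decide_eq_true ((hl ⟨w, h2⟩ ⟨u, h⟩).symm.trans h1)).reachable⟩
  have b : ∀ i (u : Fin n) (p : G.Walk u v), p.length ≤ i → u.val ∈ (clo l)^[i] [v.val] := by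
    intro i
    induction i with
    | zero =>
      intro u p hp
      cases p with
      | nil => simp
      | cons _ _ => simp at hp
    | succ i ih =>
      intro u p hp
      rw [iterate_succ_apply', mem]
      refine ⟨u.2, ?_⟩
      cases p with
      | nil => exact Or.inl (ih _ .nil (Nat.zero_le _))
      | cons h p =>
        exact Or.inr ⟨_, ih _ p (by simpa using hp), (hl _ _).trans (decide_eq_true h.symm)⟩
  refine ⟨(a _).1, fun u hu => ((a _).2 u hu).1, fun u => ⟨fun h => ?_, fun h => ((a _).2 _ h).2⟩⟩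
  obtain ⟨p, hp⟩ := (SimpleGraph.Reachable.symm h).exists_isPath
  have := hp.length_lt
  rw [Fintype.card_fin] at this
  exact b _ u p (by rw [hn]; omega)

end AlgLoop

open AlgLoop

theorem loop (ka : KA) (main : MainSt) (dec : DecSt) (cand : CandSt) (step : StepSt) : LoopSt := by
  classical
  obtain ⟨h, main⟩ := main
  obtain ⟨cand, fc, hc⟩ := cand
  obtain ⟨step, fs, hs⟩ := step
  have bs : BB (fun a : ℕ × Ins => a.1) fun a => bg h a.1 := (BB.self _).bg h
  have f0 : FP (fun a : ℕ × Ins => a.1) fun a => bg h a.1 :=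
    ka.comp (ka.bg h) (ka.of_pt _ (by fun_prop)) (BB.self _)
  have f1 : FP (fun a : ℕ × Ins => a.1) fun a => cand (bg h a.1, a.2) :=
    ka.comp fc (ka.pair f0 (ka.of_pt _ (by fun_prop))) bs
  have f2 : FP (fun a : ℕ × Ins => a.1) fun a =>
      (cand (bg h a.1, a.2)).map fun l => step (a.1, a.2, l) := by
    refine ka.map (g := fun p : (ℕ × Ins) × List ℕ => step (p.1.1, p.1.2, p.2))
      (κ' := fun p => p.1.1 + p.2.length + (nb (gOf p.1.2) (setOf' p.1.2 p.2)).ncard)
      (μ := fun a => a.1 + (bg h a.1 * bg h a.1 + bg h a.1) + bg h a.1) f1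
      (ka.comp fs (ka.of_pt _ (by fun_prop)) (BB.self _))
      (((BB.self _).add ((bs.mul bs).add bs)).add bs) fun a l hl => ?_
    obtain ⟨-, -, h1, h2⟩ := (hc (bg h a.1) a.2).1 l hl
    dsimp only
    omega
  let rd : ℕ × Ins → Ins := fun a => pick ((cand (bg h a.1, a.2)).map fun l => step (a.1, a.2, l)) a.2
  have f3 : FP (fun a : ℕ × Ins => a.1) rd :=
    ka.comp (κ' := fun _ => 0) (g := fun p : List (Option Ins) × Ins => pick p.1 p.2)
      (ka.of_pt _ (by unfold pick; fun_prop)) (ka.pair f2 (ka.of_pt _ (by fun_prop))) (BB.const 0)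
  have r : ∀ k x, ((rd (k, x)).1 < x.1 ∧ sz (rd (k, x)) ≤ 8 * (x.1 + 1) ^ 3 ∧
      (PPI k x ↔ PPI k (rd (k, x)))) ∨ (rd (k, x) = x ∧ (bg h k < x.1 → ¬PPI k x)) := by
    intro k x
    rcases pick_spec ((cand (bg h k, x)).map fun l => step (k, x, l)) x with h1 | ⟨h1, h2⟩
    · obtain ⟨l, hl, e⟩ := List.mem_map.1 h1
      obtain ⟨a, b, -⟩ := (hc (bg h k) x).1 l hl
      exact Or.inl ((hs k x l a b).1 _ e)
    · refine Or.inr ⟨h1, fun lt pp => ?_⟩
      obtain ⟨l, hl, red⟩ := (hc (bg h k) x).2 k
        (main k 0 _ (gOf x) (uOf x) ∅ pp (by simp) (by simpa using lt))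
      obtain ⟨a, b, -⟩ := (hc (bg h k) x).1 l hl
      exact (hs k x l a b).2 (h2 _ (List.mem_map.2 ⟨l, hl, rfl⟩)) red
  have inv : ∀ k (x : Ins) i, ((fun s => rd (k, s))^[i] x).1 ≤ x.1 ∧
      sz ((fun s => rd (k, s))^[i] x) ≤ sz x + 8 * (x.1 + 1) ^ 3 ∧
      (PPI k x ↔ PPI k ((fun s => rd (k, s))^[i] x)) ∧
      (((fun s => rd (k, s))^[i] x).1 + i ≤ x.1 ∨
        (bg h k < ((fun s => rd (k, s))^[i] x).1 → ¬PPI k x)) := by
    intro k x i
    induction i with
    | zero => exact ⟨le_rfl, Nat.le_add_right _ _, Iff.rfl, Or.inl le_rfl⟩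
    | succ i ih =>
      rw [iterate_succ_apply']
      obtain ⟨a, b, c, d⟩ := ih
      generalize (fun s => rd (k, s))^[i] x = y at *
      rcases r k y with ⟨h1, h2, h3⟩ | ⟨h1, h2⟩
      · refine ⟨by omega, ?_, c.trans h3, d.imp (by omega) fun d lt => d (by omega)⟩
        have : (y.1 + 1) ^ 3 ≤ (x.1 + 1) ^ 3 := Nat.pow_le_pow_left (by omega) 3
        omega
      · rw [h1]
        exact ⟨a, b, c, Or.inr fun lt pp => h2 lt (c.1 pp)⟩
  let y : ℕ × Ins → Ins := fun a => (fun s => rd (a.1, s))^[a.2.1] a.2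
  have f4 : FP (fun a : ℕ × Ins => a.1) y :=
    ka.iter (step := fun p : (ℕ × Ins) × Ins => rd (p.1.1, p.2)) (κ' := fun p => p.1.1)
      (bd := fun a => sz a.2 + 8 * (a.2.1 + 1) ^ 3) (μ := fun a => a.1)
      (ka.comp f3 (ka.of_pt _ (by fun_prop)) (BB.self _)) (ka.of_pt _ (by fun_prop))
      (ka.of_pt _ (by fun_prop)) (ka.of_pt _ (by fun_prop)) (BB.self _)
      fun a i _ => ⟨le_rfl, (inv a.1 a.2 i).2.1⟩
  have f5 : FD (fun a : ℕ × Ins => a.1) fun a => (y a).1 ≤ bg h a.1 :=
    ka.fd_of (ka.comp (κ' := fun _ => 0) (g := fun p : Ins × ℕ => decide (p.1.1 ≤ p.2))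
      (ka.of_pt _ (by fun_prop)) (ka.pair f4 f0) (BB.const 0)) fun a => by simp
  have f6 : FP (fun a : ℕ × Ins => a.1 + (y a).1) fun a => decide (PPI a.1 (y a)) :=
    ka.comp dec (ka.mono (BB.of_le fun a => Nat.le_add_right _ _)
      (ka.pair (ka.of_pt _ (by fun_prop)) f4)) (BB.self _)
  have f7 := ka.ite (μ := fun a => a.1 + bg h a.1) f5 f6
    (ka.of_pt (fun a : ℕ × Ins => a.1) (PT.const false)) ((BB.self _).add bs)
    (fun a ha => Nat.add_le_add_left ha _) fun a _ => Nat.le_add_right _ _
  refine ka.fd_of f7 fun a => ?_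
  obtain ⟨-, -, c, d⟩ := inv a.1 a.2 a.2.1
  by_cases hy : (y a).1 ≤ bg h a.1
  · simpa [hy] using c
  · simp only [hy, if_false, Bool.false_eq_true, iff_false]
    rcases d with d | d
    · exact absurd (show (y a).1 ≤ bg h a.1 by
        have : (y a).1 + a.2.1 ≤ a.2.1 := d
        omega) hy
    · exact d (not_le.1 hy)

theorem top (ka : KA) (bas : BasSt) (loop : LoopSt) : TopSt := by
  classical
  have f1 : FD (fun _ : List Bool × ℕ => 0) fun a => ¬PPI 0 (ind a.1 (cmp a.1 a.2)) :=
    ka.fd_not (ka.comp (f := fun a : List Bool × ℕ => (0, ind a.1 (cmp a.1 a.2))) loop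
      (ka.of_pt _ ((PT.const 0).prodMk (pt_ind (by fun_prop) pt_cmp))) (BB.const 0))
  have f2 := ka.filter (κ := par) (μ := par) (l := fun l => List.range (nOf l))
    (ka.of_pt _ (by fun_prop)) f1 (BB.self _) fun _ _ _ => Nat.zero_le _
  have f3 := ka.comp (κ' := fun _ => 0)
    (g := fun p : List Bool × List ℕ => (par p.1, ind p.1 p.2)) (ka.of_pt _ (by fun_prop))
    (ka.pair (ka.of_pt par PT.id) f2) (BB.const 0)
  refine ⟨_, ka.comp loop f3 (BB.self _), fun k n G => ?_⟩
  obtain ⟨h1, h2, h3⟩ := code_spec k n G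
  refine decide_eq_decide.2 ?_
  dsimp only
  rw [h1]
  refine ind_spec bas k h3 (List.nodup_range.filter _)
    (fun v hv => by simpa [h2] using (List.mem_filter.1 hv).1) fun v => ?_
  obtain ⟨a, b, c⟩ := cmp_spec h2 h3 v
  simp only [List.mem_filter, List.mem_range, h2, v.2, true_and, decide_eq_true_eq]
  exact not_congr (ind_spec bas 0 h3 a b c).symm

end Pool.Agent.Lib.MP_c1f5fe_lc
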