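import Pool.Agent.Lib.MP_c1f5fe_lc.SpecD

/-! Polynomial time predicates: `PT` with values in `Prop`. -/

namespace Pool.Agent.Lib.MP_c1f5fe_lc.AlgP

open Function
open Pool.Agent.Lib.Complexity

open Classical in
noncomputable instance encProp : Enc Prop :=
  ⟨fun p => enc (decide p), fun p q h => by
    have := Enc.inj h
    exact propext (by simpa using this)⟩

variable {A B C : Type} [Enc A] [Enc B] [Enc C]

theorem of_dec {p : A → Prop} {i : ∀ a, Decidable (p a)} (h : PT fun a => @decide (p a) (i a)) :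
    PT p :=
  h.out fun a => by
    show enc (@decide (p a) (i a)) = enc (@decide (p a) (Classical.propDecidable _))
    congr

@[fun_prop] theorem to_dec {p : A → Prop} [i : ∀ a, Decidable (p a)] (h : PT p) :
    PT fun a => decide (p a) :=
  h.out fun a => by
    show enc (@decide (p a) (Classical.propDecidable _)) = enc (@decide (p a) (i a))
    congr

theorem of_bool {p : A → Prop} {f : A → Bool} (h : PT f) (e : ∀ a, p a ↔ f a = true) : PT p := by
  classical
  exact of_dec (i := fun _ => inferInstance) (h.of_eq fun a => by cases hf : f a <;> simp [e, hf])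

theorem congr {p q : A → Prop} (h : PT p) (e : ∀ a, p a ↔ q a) : PT q :=
  h.of_eq fun a => propext (e a)

theorem fd (K : KA) (κ : A → ℕ) {p : A → Prop} (h : PT p) : FD κ p := by
  classical
  exact K.fd_of (K.of_pt κ (to_dec h)) fun a => by simp

@[fun_prop] theorem and {p q : A → Prop} (hp : PT p) (hq : PT q) : PT fun a => p a ∧ q a := by
  classical
  exact of_bool ((to_dec hp).and (to_dec hq)) fun a => by simp

@[fun_prop] theorem or {p q : A → Prop} (hp : PT p) (hq : PT q) : PT fun a => p a ∨ q a := by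
  classical
  exact of_bool ((to_dec hp).or (to_dec hq)) fun a => by simp

@[fun_prop] theorem not {p : A → Prop} (hp : PT p) : PT fun a => ¬p a := by
  classical
  exact of_bool (to_dec hp).not fun a => by simp

/-- implication -/
def Imp (p q : Prop) : Prop := p → q

@[fun_prop] theorem imp {p q : A → Prop} (hp : PT p) (hq : PT q) : PT fun a => Imp (p a) (q a) :=
  congr (or (not hp) hq) fun a => by unfold Imp; tauto

@[fun_prop] theorem iff {p q : A → Prop} (hp : PT p) (hq : PT q) : PT fun a => p a ↔ q a :=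
  congr (and (imp hp hq) (imp hq hp)) fun a => by unfold Imp; tauto

@[fun_prop] theorem eq {f g : A → B} (hf : PT f) (hg : PT g) : PT fun a => f a = g a := by
  classical
  exact of_dec (PT.dec_eq hf hg)

@[fun_prop] theorem ne {f g : A → B} (hf : PT f) (hg : PT g) : PT fun a => f a ≠ g a :=
  not (eq hf hg)

@[fun_prop] theorem le {f g : A → ℕ} (hf : PT f) (hg : PT g) : PT fun a => f a ≤ g a :=
  of_dec (PT.dec_le hf hg)

@[fun_prop] theorem lt {f g : A → ℕ} (hf : PT f) (hg : PT g) : PT fun a => f a < g a :=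
  of_dec (PT.dec_lt hf hg)

@[fun_prop] theorem mem {f : A → B} {l : A → List B} (hf : PT f) (hl : PT l) :
    PT fun a => f a ∈ l a := by
  classical
  exact of_dec (PT.dec_mem hf hl)

def AllM {B : Type} (l : List B) (p : B → Prop) : Prop := ∀ b ∈ l, p b

def ExM {B : Type} (l : List B) (p : B → Prop) : Prop := ∃ b ∈ l, p b

def AllL (n : ℕ) (p : ℕ → Prop) : Prop := ∀ i, i < n → p i

def ExL (n : ℕ) (p : ℕ → Prop) : Prop := ∃ i, i < n ∧ p i

@[fun_prop] theorem allM {l : A → List B} {p : A → B → Prop} (hl : PT l)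
    (hp : PT fun q : A × B => p q.1 q.2) : PT fun a => AllM (l a) (p a) := by
  classical
  exact of_bool (PT.all (f := fun a b => decide (p a b)) hl (to_dec hp)) fun a => by simp [AllM]

@[fun_prop] theorem exM {l : A → List B} {p : A → B → Prop} (hl : PT l)
    (hp : PT fun q : A × B => p q.1 q.2) : PT fun a => ExM (l a) (p a) := by
  classical
  exact of_bool (PT.any (f := fun a b => decide (p a b)) hl (to_dec hp)) fun a => by simp [ExM]

@[fun_prop] theorem allL {n : A → ℕ} {p : A → ℕ → Prop} (hn : PT n)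
    (hp : PT fun q : A × ℕ => p q.1 q.2) : PT fun a => AllL (n a) (p a) :=
  congr (allM hn.range hp) fun a => by simp [AllM, AllL]

@[fun_prop] theorem exL {n : A → ℕ} {p : A → ℕ → Prop} (hn : PT n)
    (hp : PT fun q : A × ℕ => p q.1 q.2) : PT fun a => ExL (n a) (p a) :=
  congr (exM hn.range hp) fun a => by simp [ExM, ExL]

open Classical in
/-- the number of `i < n` with `p i` -/
noncomputable def cnt (n : ℕ) (p : ℕ → Prop) : ℕ := (List.range n).countP fun i => decide (p i)

@[fun_prop] theorem pt_cnt {n : A → ℕ} {p : A → ℕ → Prop} (hn : PT n)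
    (hp : PT fun q : A × ℕ => p q.1 q.2) : PT fun a => cnt (n a) (p a) := by
  classical
  exact PT.countP (f := fun a b => decide (p a b)) hn.range (to_dec hp)

theorem cnt_eq (n : ℕ) (p : ℕ → Prop) : cnt n p = Nat.card {i : Fin n // p i} := by
  classical
  rw [Nat.card_eq_fintype_card, Fintype.card_subtype, cnt, List.countP_eq_length_filter,
    ← List.toFinset_card_of_nodup (List.nodup_range.filter _)]
  refine (Finset.card_bij (fun i _ => i.val) ?_ ?_ ?_).symm
  · intro i hi
    simpa using hi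
  · intro i _ j _ h
    exact Fin.ext h
  · intro i hi
    have : i < n ∧ p i := by simpa using hi
    exact ⟨⟨i, this.1⟩, by simpa using this.2, rfl⟩

@[fun_prop] theorem pairwise {l : A → List B} {r : A → B → B → Prop} (hl : PT l)
    (hr : PT fun q : A × B × B => r q.1 q.2.1 q.2.2) : PT fun a => (l a).Pairwise (r a) := by
  have : PT fun a => AllL (l a).length fun j => AllL j fun i => AllM ((l a)[i]?).toList fun x =>
      AllM ((l a)[j]?).toList fun y => r a x y := by fun_prop
  refine congr this fun a => ?_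
  rw [List.pairwise_iff_getElem]
  simp only [AllL, AllM, Option.mem_toList]
  constructor
  · intro h i j hi hj l
    exact h j hj i l _ (List.getElem?_eq_getElem hi) _ (List.getElem?_eq_getElem hj)
  · intro h j hj i l x hx y hy
    have hi := l.trans hj
    rw [List.getElem?_eq_getElem hi] at hx
    rw [List.getElem?_eq_getElem hj] at hy
    rw [← Option.some.inj hx, ← Option.some.inj hy]
    exact h i j hi hj l

/-! ### tables -/

/-- table lookup -/
def lk {B : Type} [Inhabited B] (t : List B) (i : ℕ) : B := t.getD i default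

@[fun_prop] theorem pt_lk [Inhabited B] {t : A → List B} {i : A → ℕ} (ht : PT t) (hi : PT i) :
    PT fun a => lk (t a) (i a) := PT.getD ht hi (PT.const _)

theorem lk_le (t : List ℕ) (i : ℕ) : lk t i ≤ sz t := by
  unfold lk
  by_cases h : i < t.length
  · rw [List.getD_eq_getElem _ _ h]
    simpa using (sz_lt_of_mem (List.getElem_mem h)).le
  · rw [List.getD_eq_default _ _ (by omega)]
    exact Nat.zero_le _

def itr (t : List ℕ) (j d : ℕ) : ℕ := (lk t)^[j] d

@[fun_prop] theorem pt_itr {t : A → List ℕ} {j d : A → ℕ} (ht : PT t) (hj : PT j) (hd : PT d) :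
    PT fun a => itr (t a) (j a) (d a) :=
  PT.iterate (step := fun a x => lk (t a) x) hj hd (by fun_prop) (B := fun a => sz (t a) + d a)
    (ht.pb.add hd.pb_nat) fun a i _ => by
      rcases i with _ | i
      · simp
      · rw [iterate_succ_apply']
        simpa using (lk_le _ _).trans (Nat.le_add_right _ _)

/-- the table of a function on a finite type -/
def tb {D B : Type} {N : ℕ} (e : D ≃ Fin N) (f : D → B) : List B :=
  List.ofFn fun i => f (e.symm i)

theorem lk_tb {D B : Type} [Inhabited B] {N : ℕ} (e : D ≃ Fin N) (f : D → B) (d : D) :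
    lk (tb e f) (e d) = f d := by
  unfold lk tb
  rw [List.getD_eq_getElem _ _ (by simp)]
  simp

theorem length_tb {D B : Type} {N : ℕ} (e : D ≃ Fin N) (f : D → B) : (tb e f).length = N := by
  simp [tb]

theorem sz_tb {D : Type} {N c : ℕ} (e : D ≃ Fin N) (f : D → B) (hN : N ≤ c)
    (h : ∀ d, sz (f d) ≤ c) : sz (tb e f) ≤ c * (c + 1) := by
  have := sz_list_le (l := tb e f) (B := c) fun a ha => by
    obtain ⟨i, rfl⟩ := List.mem_ofFn.1 ha
    exact h _
  rw [length_tb] at this
  exact this.trans (Nat.mul_le_mul_right _ hN)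

theorem allL_iff {D : Type} {N : ℕ} (e : D ≃ Fin N) (p : ℕ → Prop) :
    AllL N p ↔ ∀ d, p (e d) :=
  ⟨fun h d => h _ (e d).2, fun h i hi => by simpa using h (e.symm ⟨i, hi⟩)⟩

theorem exL_iff {D : Type} {N : ℕ} (e : D ≃ Fin N) (p : ℕ → Prop) :
    ExL N p ↔ ∃ d, p (e d) :=
  ⟨fun ⟨i, hi, h⟩ => ⟨e.symm ⟨i, hi⟩, by simpa using h⟩, fun ⟨d, h⟩ => ⟨_, (e d).2, h⟩⟩

theorem allL_fin {N : ℕ} (p : ℕ → Prop) : AllL N p ↔ ∀ d : Fin N, p d :=
  allL_iff (Equiv.refl _) p

theorem exL_fin {N : ℕ} (p : ℕ → Prop) : ExL N p ↔ ∃ d : Fin N, p d :=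
  exL_iff (Equiv.refl _) p

/-! ### ranks -/

theorem rank_ind {D : Type} (r : D → D → Prop) (R : D → Prop) (rk : D → ℕ)
    (h : ∀ d, R d ∨ ∃ e, r e d ∧ rk e < rk d) (d : D) :
    ∃ e, R e ∧ Relation.ReflTransGen r e d := by
  induction hn : rk d using Nat.strong_induction_on generalizing d with
  | _ n ih =>
    rcases h d with h | ⟨e, he, l⟩
    · exact ⟨d, h, .refl⟩
    · obtain ⟨x, hx, p⟩ := ih _ (hn ▸ l) e rfl
      exact ⟨x, hx, p.tail he⟩

theorem rank_ex {D : Type} [Finite D] (r : D → D → Prop) (R : D → Prop)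
    (h : ∀ d, ∃ e, R e ∧ Relation.ReflTransGen r e d) :
    ∃ rk : D → ℕ, (∀ d, rk d ≤ Nat.card D) ∧ ∀ d, R d ∨ ∃ e, r e d ∧ rk e < rk d := by
  let P : ℕ → D → Prop := fun n => Nat.rec R (fun _ Q d => ∃ e, Q e ∧ r e d) n
  have ex : ∀ d, ∃ n, P n d := by
    intro d
    obtain ⟨e, he, p⟩ := h d
    induction p with
    | refl => exact ⟨0, he⟩
    | tail _ s ih => obtain ⟨n, hn⟩ := ih; exact ⟨n + 1, _, hn, s⟩
  obtain ⟨f, sp, mn⟩ : ∃ f : D → ℕ, (∀ d, P (f d) d) ∧ ∀ d n, P n d → f d ≤ n := by
    have : ∀ d, ∃ m, P m d ∧ ∀ n, P n d → m ≤ n := fun d => by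
      obtain ⟨m, hm, l⟩ := wellFounded_lt.has_min {n | P n d} (ex d)
      exact ⟨m, hm, fun n h => not_lt.1 (l n h)⟩
    choose f a b using this
    exact ⟨f, a, b⟩
  refine ⟨fun d => {e | f e < f d}.ncard, fun d => Set.ncard_le_card _, fun d => ?_⟩
  have hd := sp d
  rcases hf : f d with _ | n
  · rw [hf] at hd; exact .inl hd
  · rw [hf] at hd
    obtain ⟨e, he, s⟩ := hd
    have l : f e < f d := lt_of_le_of_lt (mn e n he) (by omega)
    refine .inr ⟨e, s, Set.ncard_lt_ncard ⟨fun x hx => lt_trans hx l, fun hs => ?_⟩⟩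
    exact lt_irrefl _ (show f e < f e from hs l)

end Pool.Agent.Lib.MP_c1f5fe_lc.AlgP
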