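import Pool.Agent.Lib.MP_c1f5fe_lc.SpecA
import Pool.Agent.Lib.MP_d32f96_gt.T1
import Pool.Agent.Lib.MP_d32f96_gt.T2

/-! Alternating pairs of points on the unit circle. -/

namespace Pool.Agent.Lib.MP_c1f5fe_lc

open Set Metric Complex
open Pool.Agent.Lib.MP_d32f96_gt Pool.Agent.Lib.MP_1e9af3_an

namespace AltT

/-- the cross ratio is positive. -/
def CR (a a' b b' : ℂ) : Prop := ∃ r : ℝ, 0 < r ∧ (a - b) * (a' - b') = r * ((a - b') * (a' - b))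

lemma CR.symm {a a' b b' : ℂ} (h : CR a a' b b') : CR b b' a a' := by
  obtain ⟨r, h1, h2⟩ := h
  exact ⟨r, h1, by linear_combination h2⟩

lemma exp_sub_exp (x y : ℝ) : exp (x * I) - exp (y * I)
    = 2 * I * exp (((x + y) / 2 : ℝ) * I) * (Real.sin ((x - y) / 2) : ℝ) := by
  have h1 : exp (x * I) = exp (((x + y) / 2 : ℝ) * I) * exp (((x - y) / 2 : ℝ) * I) := by
    rw [← exp_add]; congr 1; push_cast; ring
  have h2 : exp (y * I) = exp (((x + y) / 2 : ℝ) * I) * exp (-((x - y) / 2 : ℝ) * I) := by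
    rw [← exp_add]; congr 1; push_cast; ring
  rw [h1, h2, ofReal_sin, exp_mul_I (((x - y) / 2 : ℝ) : ℂ), exp_mul_I (-((x - y) / 2 : ℝ) : ℂ),
    cos_neg, sin_neg]
  ring

lemma exp_arg {a : ℂ} (ha : ‖a‖ = 1) : exp (a.arg * I) = a := by
  simpa [ha] using norm_mul_exp_arg_mul_I a

lemma sin_sg (a b : ℂ) (h : a.arg ≠ b.arg) :
    0 < Real.sin ((a.arg - b.arg) / 2) * (a.arg - b.arg) := by
  have h1 := arg_mem_Ioc a
  have h2 := arg_mem_Ioc b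
  rcases lt_or_gt_of_ne h with h | h
  · refine mul_pos_of_neg_of_neg (Real.sin_neg_of_neg_of_neg_pi_lt ?_ ?_) ?_ <;>
      linarith [h1.1, h1.2, h2.1, h2.2]
  · refine mul_pos (Real.sin_pos_of_pos_of_lt_pi ?_ ?_) ?_ <;> linarith [h1.1, h1.2, h2.1, h2.2]

lemma arg_ne {a b : ℂ} (ha : ‖a‖ = 1) (hb : ‖b‖ = 1) (h : a ≠ b) : a.arg ≠ b.arg :=
  fun e => h (by rw [← exp_arg ha, ← exp_arg hb, e])

lemma btw (x x' y : ℝ) : (min x x' < y ∧ y < max x x') ↔ (x - y) * (x' - y) < 0 := by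
  rw [min_lt_iff, lt_max_iff, mul_neg_iff]
  constructor
  · rintro ⟨h1 | h1, h2 | h2⟩
    · linarith
    · right; constructor <;> linarith
    · left; constructor <;> linarith
    · linarith
  · rintro (⟨h1, h2⟩ | ⟨h1, h2⟩)
    · exact ⟨Or.inr (by linarith), Or.inl (by linarith)⟩
    · exact ⟨Or.inl (by linarith), Or.inr (by linarith)⟩

lemma not_alt {a a' b b' : ℂ} (ha : ‖a‖ = 1) (ha' : ‖a'‖ = 1) (hb : ‖b‖ = 1) (hb' : ‖b'‖ = 1)
    (h1 : a ≠ b) (h2 : a ≠ b') (h3 : a' ≠ b) (h4 : a' ≠ b') (h : CR a a' b b') :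
    ¬Alt a a' b b' := by
  obtain ⟨r, hr, h⟩ := h
  have s1 := sin_sg a b (arg_ne ha hb h1)
  have s2 := sin_sg a b' (arg_ne ha hb' h2)
  have s3 := sin_sg a' b (arg_ne ha' hb h3)
  have s4 := sin_sg a' b' (arg_ne ha' hb' h4)
  rw [← exp_arg ha, ← exp_arg ha', ← exp_arg hb, ← exp_arg hb'] at h
  simp only [exp_sub_exp] at h
  unfold Alt altO
  rw [not_not, btw, btw]
  generalize a.arg = x at *
  generalize a'.arg = x' at *
  generalize b.arg = y at *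
  generalize b'.arg = y' at *
  have e1 : exp (((x + y) / 2 : ℝ) * I) * exp (((x' + y') / 2 : ℝ) * I)
      = exp (((x + y') / 2 : ℝ) * I) * exp (((x' + y) / 2 : ℝ) * I) := by
    rw [← exp_add, ← exp_add]; congr 1; push_cast; ring
  generalize Real.sin ((x - y) / 2) = p at *
  generalize Real.sin ((x - y') / 2) = q at *
  generalize Real.sin ((x' - y) / 2) = p' at *
  generalize Real.sin ((x' - y') / 2) = q' at *
  have e2 : p * q' = r * (q * p') := by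
    have h5 : (2 * I) ^ 2 * (exp (((x + y') / 2 : ℝ) * I) * exp (((x' + y) / 2 : ℝ) * I)) ≠ 0 :=
      mul_ne_zero (pow_ne_zero _ (mul_ne_zero two_ne_zero I_ne_zero))
        (mul_ne_zero (exp_ne_zero _) (exp_ne_zero _))
    have h6 : (p * q' : ℂ) = r * (q * p') :=
      mul_left_cancel₀ h5 (by linear_combination h - (2 * I) ^ 2 * p * q' * e1)
    exact_mod_cast h6
  have e3 : 0 < (x - y) * (x' - y) * ((x - y') * (x' - y')) := by
    have h5 : 0 < p * (x - y) * (p' * (x' - y)) * (q * (x - y') * (q' * (x' - y'))) := by positivity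
    have h6 : p * (x - y) * (p' * (x' - y)) * (q * (x - y') * (q' * (x' - y')))
        = r * (q * p') ^ 2 * ((x - y) * (x' - y) * ((x - y') * (x' - y'))) := by
      linear_combination (q * p' * ((x - y) * (x' - y) * ((x - y') * (x' - y')))) * e2
    rw [h6] at h5
    exact pos_of_mul_pos_right h5 (by positivity)
  rcases mul_pos_iff.1 e3 with ⟨h5, h6⟩ | ⟨h5, h6⟩
  · exact iff_of_false h5.le.not_gt h6.le.not_gt
  · exact iff_of_true h5 h6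

/-- the reflection in the unit circle. -/
noncomputable def rf (z : ℂ) : ℂ := ((starRingEnd ℂ) z)⁻¹

lemma rf_one {z : ℂ} (h : ‖z‖ = 1) : rf z = z := by
  rw [rf, ← inv_eq_conj h, inv_inv]

lemma norm_rf (z : ℂ) : ‖rf z‖ = ‖z‖⁻¹ := by simp [rf]

lemma conj_ee (w : ℂ) : ee ((starRingEnd ℂ) w) = ((starRingEnd ℂ) (ee w))⁻¹ := by
  rw [ee, ee, ← exp_conj, ← exp_neg]
  congr 1
  simp [tpi, map_ofNat]

lemma core {A B : Set ℂ} {a a' b b' : ℂ} (hA : IsCompact A) (cA : IsPreconnected A)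
    (cB : IsPreconnected B) (h0 : (0 : ℂ) ∉ A) (hd : Disjoint A B) (hd' : Disjoint (rf '' A) B)
    (ma : a ∈ A) (ma' : a' ∈ A) (mb : b ∈ B) (mb' : b' ∈ B) (ha : ‖a‖ = 1) (ha' : ‖a'‖ = 1)
    (hb : ‖b‖ = 1) (hb' : ‖b'‖ = 1) : CR a a' b b' := by
  have hne : ∀ z ∈ A, z ≠ 0 := fun z hz h => h0 (h ▸ hz)
  have hrf : ContinuousOn rf A :=
    continuous_conj.continuousOn.inv₀ fun z hz => by simpa using hne z hz
  have hK : IsCompact (A ∪ rf '' A) := hA.union (hA.image_of_continuousOn hrf)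
  have hB : B ⊆ (A ∪ rf '' A)ᶜ := (hd.union_left hd').symm.subset_compl_right
  obtain ⟨L, hL, he⟩ := T1.log_of_cc hK.isClosed (cB.subset_connectedComponentIn mb hB mb')
  have hM : ContinuousOn (fun z => L z + (starRingEnd ℂ) (L (rf z))) A :=
    (hL.mono subset_union_left).add (continuous_conj.comp_continuousOn
      (hL.comp hrf fun z hz => Or.inr ⟨z, hz, rfl⟩))
  have b0 : b ≠ 0 := by rintro rfl; simp at hb
  have b0' : b' ≠ 0 := by rintro rfl; simp at hb'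
  have n1 : ∀ z ∈ A, z - b ≠ 0 := fun z hz h => disjoint_left.1 hd hz (sub_eq_zero.1 h ▸ mb)
  have n2 : ∀ z ∈ A, z - b' ≠ 0 := fun z hz h => disjoint_left.1 hd hz (sub_eq_zero.1 h ▸ mb')
  have hE : ∀ z ∈ A, ee (L z + (starRingEnd ℂ) (L (rf z))) = b / b' := fun z hz => by
    rw [ee_add, conj_ee, he z (Or.inl hz), he _ (Or.inr ⟨z, hz, rfl⟩)]
    have z0 := hne z hz
    have h1 := n1 z hz
    have h2 := n2 z hz
    have h3 : b - z ≠ 0 := fun h => h1 (by linear_combination -h)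
    have h4 : b' - z ≠ 0 := fun h => h2 (by linear_combination -h)
    simp only [rf, map_div₀, map_sub, map_inv₀, conj_conj, ← inv_eq_conj hb, ← inv_eq_conj hb']
    rw [inv_sub_inv z0 b0, inv_sub_inv z0 b0']
    field_simp
    ring
  have h2 := int_const cA (hM.sub (continuousOn_const (c := L a + (starRingEnd ℂ) (L (rf a)))))
    (fun z hz => by
      obtain ⟨n, hn⟩ := ee_eq_iff.1 ((hE z hz).trans (hE a ma).symm)
      exact ⟨n, by simp only [Pi.sub_apply]; rw [hn]; ring⟩) ma ma'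
  simp only [Pi.sub_apply, rf_one ha, rf_one ha', add_conj] at h2
  have h3 : (L a).re = (L a').re := by
    have := congrArg Complex.re h2
    simp at this
    linarith
  refine ⟨‖ee (L a - L a')‖, norm_pos_iff.2 (ee_ne _), ?_⟩
  have h4 := MP_069d55_gt.ee_polar (L a - L a')
  rw [sub_re, h3, sub_self, ofReal_zero, ee_zero, mul_one] at h4
  rw [← h4, ee_sub, he a (Or.inl ma), he a' (Or.inl ma')]
  have := n1 a' ma'
  have := n2 a' ma'
  have := n2 a ma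
  field_simp

lemma ins0 {A B : Set ℂ} {a a' b b' : ℂ} (hA : IsCompact A) (cA : IsPreconnected A)
    (cB : IsPreconnected B) (h0 : (0 : ℂ) ∉ A) (hd : Disjoint A B) (hn : ∀ z ∈ A ∪ B, ‖z‖ ≤ 1)
    (ma : a ∈ A) (ma' : a' ∈ A) (mb : b ∈ B) (mb' : b' ∈ B) (ha : ‖a‖ = 1) (ha' : ‖a'‖ = 1)
    (hb : ‖b‖ = 1) (hb' : ‖b'‖ = 1) : CR a a' b b' := by
  refine core hA cA cB h0 hd (disjoint_left.2 ?_) ma ma' mb mb' ha ha' hb hb'
  rintro _ ⟨z, hz, rfl⟩ h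
  have h1 := hn _ (Or.inr h)
  have h2 : 0 < ‖z‖ := norm_pos_iff.2 fun e => h0 (e ▸ hz)
  rw [norm_rf, inv_le_one₀ h2] at h1
  rw [rf_one ((hn z (Or.inl hz)).antisymm h1)] at h
  exact disjoint_left.1 hd hz h

lemma ins (A B : Set ℂ) (a a' b b' : ℂ) (hA : IsCompact A) (cA : IsPreconnected A)
    (hB : IsCompact B) (cB : IsPreconnected B) (hd : Disjoint A B) (hn : ∀ z ∈ A ∪ B, ‖z‖ ≤ 1)
    (ma : a ∈ A) (ma' : a' ∈ A) (mb : b ∈ B) (mb' : b' ∈ B) (ha : ‖a‖ = 1) (ha' : ‖a'‖ = 1)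
    (hb : ‖b‖ = 1) (hb' : ‖b'‖ = 1) : ¬Alt a a' b b' := by
  refine not_alt ha ha' hb hb' (hd.ne_of_mem ma mb) (hd.ne_of_mem ma mb') (hd.ne_of_mem ma' mb)
    (hd.ne_of_mem ma' mb') ?_
  by_cases h0 : (0 : ℂ) ∈ A
  · exact (ins0 hB cB cA (disjoint_left.1 hd h0) hd.symm (by rwa [union_comm]) mb mb' ma ma' hb hb'
      ha ha').symm
  · exact ins0 hA cA cB h0 hd hn ma ma' mb mb' ha ha' hb hb'

lemma out (A B : Set ℂ) (a a' b b' : ℂ) (hA : IsCompact A) (cA : IsPreconnected A)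
    (_ : IsCompact B) (cB : IsPreconnected B) (hd : Disjoint A B) (hn : ∀ z ∈ A ∪ B, 1 ≤ ‖z‖)
    (ma : a ∈ A) (ma' : a' ∈ A) (mb : b ∈ B) (mb' : b' ∈ B) (ha : ‖a‖ = 1) (ha' : ‖a'‖ = 1)
    (hb : ‖b‖ = 1) (hb' : ‖b'‖ = 1) : ¬Alt a a' b b' := by
  refine not_alt ha ha' hb hb' (hd.ne_of_mem ma mb) (hd.ne_of_mem ma mb') (hd.ne_of_mem ma' mb)
    (hd.ne_of_mem ma' mb') ?_
  refine core hA cA cB (fun h => by simpa using (hn _ (Or.inl h)).not_gt) hd (disjoint_left.2 ?_)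
    ma ma' mb mb' ha ha' hb hb'
  rintro _ ⟨z, hz, rfl⟩ h
  have h1 := hn _ (Or.inr h)
  have h3 := hn z (Or.inl hz)
  rw [norm_rf, one_le_inv₀ (one_pos.trans_le h3)] at h1
  rw [rf_one (h1.antisymm h3)] at h
  exact disjoint_left.1 hd hz h

/-! ### arcs of the circle -/

lemma exp_inj {s t : ℝ} (h : exp (s * I) = exp (t * I)) (hst : |s - t| < 2 * Real.pi) : s = t := by
  obtain ⟨n, hn⟩ := exp_eq_exp_iff_exists_int.1 h
  have h1 : s = t + n * (2 * Real.pi) := by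
    have := congrArg Complex.im hn
    simpa using this
  rw [h1, add_sub_cancel_left, abs_mul, abs_of_pos Real.two_pi_pos,
    mul_lt_iff_lt_one_left Real.two_pi_pos] at hst
  have h3 : n = 0 := Int.abs_lt_one_iff.1 (by exact_mod_cast hst)
  simpa [h3] using h1

lemma arc_of {x x' : ℝ} (h : x ≠ x') (h' : |x - x'| < 2 * Real.pi) : ∃ A : Set ℂ,
    IsArc A (exp (x * I)) (exp (x' * I)) ∧
      ∀ z ∈ A, ∃ t : ℝ, min x x' ≤ t ∧ t ≤ max x x' ∧ z = exp (t * I) := by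
  refine ⟨_, ⟨fun t => exp ((x + t * (x' - x) : ℝ) * I), by fun_prop, fun s hs t ht e => ?_,
    by simp, by simp, rfl⟩, ?_⟩
  · have h1 := exp_inj e (by
      rw [show x + s * (x' - x) - (x + t * (x' - x)) = (t - s) * (x - x') by ring, abs_mul]
      have : |t - s| ≤ 1 := abs_le.2 ⟨by linarith [hs.2, ht.1], by linarith [hs.1, ht.2]⟩
      exact (mul_le_of_le_one_left (abs_nonneg _) this).trans_lt h')
    exact mul_right_cancel₀ (sub_ne_zero.2 h.symm) (add_left_cancel h1)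
  · rintro _ ⟨t, ht, rfl⟩
    refine ⟨_, ?_, ?_, rfl⟩
    · nlinarith [min_le_left x x', min_le_right x x', ht.1, ht.2]
    · nlinarith [le_max_left x x', le_max_right x x', ht.1, ht.2]

/-- the conclusion of `arcs`. -/
def Two (a a' b b' : ℂ) : Prop :=
  ∃ A B : Set ℂ, IsArc A a a' ∧ IsArc B b b' ∧ Disjoint A B ∧ ∀ z ∈ A ∪ B, ‖z‖ = 1

lemma Two.symm {a a' b b' : ℂ} (h : Two a a' b b') : Two b b' a a' := by
  obtain ⟨A, B, h1, h2, h3, h4⟩ := h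
  exact ⟨B, A, h2, h1, h3.symm, by rwa [union_comm]⟩

lemma two {x x' y y' : ℝ} (hx : x ≠ x') (hy : y ≠ y') (h1 : max x x' < min y y')
    (h2 : max y y' < min x x' + 2 * Real.pi) :
    Two (exp (x * I)) (exp (x' * I)) (exp (y * I)) (exp (y' * I)) := by
  have k1 := min_le_left x x'
  have k2 := min_le_right x x'
  have k3 := le_max_left x x'
  have k4 := le_max_right x x'
  have k5 := min_le_left y y'
  have k6 := min_le_right y y'
  have k7 := le_max_left y y'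
  have k8 := le_max_right y y'
  obtain ⟨A, hA, eA⟩ := arc_of hx (abs_lt.2 ⟨by linarith, by linarith⟩)
  obtain ⟨B, hB, eB⟩ := arc_of hy (abs_lt.2 ⟨by linarith, by linarith⟩)
  refine ⟨A, B, hA, hB, disjoint_left.2 fun z h3 h4 => ?_, ?_⟩
  · obtain ⟨s, s1, s2, rfl⟩ := eA z h3
    obtain ⟨t, t1, t2, e⟩ := eB _ h4
    have := exp_inj e (abs_lt.2 ⟨by linarith, by linarith⟩)
    linarith
  · rintro z (h | h)
    · obtain ⟨s, -, -, rfl⟩ := eA z h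
      exact norm_exp_ofReal_mul_I s
    · obtain ⟨s, -, -, rfl⟩ := eB z h
      exact norm_exp_ofReal_mul_I s

lemma exp_shift (y : ℝ) : exp (((y + 2 * Real.pi : ℝ) : ℂ) * I) = exp (y * I) := by
  push_cast
  rw [add_mul, exp_add, exp_two_pi_mul_I, mul_one]

lemma nest {x x' y y' : ℝ} (hx : x ≠ x') (h1 : min y y' < min x x') (h2 : max x x' < max y y')
    (h3 : |y - y'| < 2 * Real.pi) :
    Two (exp (x * I)) (exp (x' * I)) (exp (y * I)) (exp (y' * I)) := by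
  have k := (min_le_max (a := x) (b := x'))
  obtain ⟨h4, h5⟩ := abs_lt.1 h3
  rcases le_total y y' with h | h
  · rw [min_eq_left h] at h1
    rw [max_eq_right h] at h2
    rw [← exp_shift y]
    exact two hx (by linarith) (lt_min (by linarith) h2) (max_lt (by linarith) (by linarith))
  · rw [min_eq_right h] at h1
    rw [max_eq_left h] at h2
    rw [← exp_shift y']
    exact two hx (by linarith) (lt_min h2 (by linarith)) (max_lt (by linarith) (by linarith))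

lemma arcs (a a' b b' : ℂ) (ha : ‖a‖ = 1) (ha' : ‖a'‖ = 1) (hb : ‖b‖ = 1) (hb' : ‖b'‖ = 1)
    (hn : [a, a', b, b'].Nodup) (h : ¬Alt a a' b b') : Two a a' b b' := by
  simp only [List.nodup_cons, List.mem_cons, List.not_mem_nil, or_false, not_or, not_false_eq_true,
    List.nodup_nil, and_true] at hn
  obtain ⟨⟨n1, n2, n3⟩, ⟨n4, n5⟩, n6⟩ := hn
  replace n1 := arg_ne ha ha' n1
  replace n2 := arg_ne ha hb n2
  replace n3 := arg_ne ha hb' n3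
  replace n4 := arg_ne ha' hb n4
  replace n5 := arg_ne ha' hb' n5
  replace n6 := arg_ne hb hb' n6
  rw [← exp_arg ha, ← exp_arg ha', ← exp_arg hb, ← exp_arg hb']
  unfold Alt altO at h
  obtain ⟨p1, p2⟩ := arg_mem_Ioc a
  obtain ⟨p3, p4⟩ := arg_mem_Ioc a'
  obtain ⟨p5, p6⟩ := arg_mem_Ioc b
  obtain ⟨p7, p8⟩ := arg_mem_Ioc b'
  generalize a.arg = x at *
  generalize a'.arg = x' at *
  generalize b.arg = y at *
  generalize b'.arg = y' at *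
  have : max x x' < min y y' ∨ max y y' < min x x' ∨ (min y y' < min x x' ∧ max x x' < max y y') ∨
      (min x x' < min y y' ∧ max y y' < max x x') := by grind
  rcases this with h1 | h1 | h1 | h1
  · exact two n1 n6 h1 (by grind)
  · exact (two n6 n1 h1 (by grind)).symm
  · exact nest n1 h1.1 h1.2 (abs_lt.2 ⟨by linarith, by linarith⟩)
  · exact (nest n6 h1.1 h1.2 (abs_lt.2 ⟨by linarith, by linarith⟩)).symm

/-! ### proper crossings -/

/-- the two pieces of an arc `A` from `a` to `a'` after removing the open subarc `ψ (-ε, ε)`. -/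
structure Cut (A : Set ℂ) (ψ : ℝ → ℂ) (ε : ℝ) (P N : Set ℂ) : Prop where
  kP : IsCompact P
  kN : IsCompact N
  cP : IsPreconnected P
  cN : IsPreconnected N
  sP : P ⊆ A
  sN : N ⊆ A
  dj : Disjoint P N
  mP : ψ ε ∈ P
  mN : ψ (-ε) ∈ N
  zP : ψ 0 ∉ P
  zN : ψ 0 ∉ N

lemma Cut.symm {A : Set ℂ} {ψ : ℝ → ℂ} {ε : ℝ} {P N : Set ℂ} (h : Cut A ψ ε P N) :
    Cut A (fun t => ψ (-t)) ε N P :=
  ⟨h.kN, h.kP, h.cN, h.cP, h.sN, h.sP, h.dj.symm, h.mN, by simpa using h.mP,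
    by simpa using h.zN, by simpa using h.zP⟩

lemma cut0 {γ : ℝ → ℂ} (hc : ContinuousOn γ (Icc 0 1)) (hi : InjOn γ (Icc 0 1)) {ψ : ℝ → ℂ}
    {ε s m t : ℝ} (h0 : 0 ≤ s) (h1 : s < m) (h2 : m < t) (h3 : t ≤ 1) (e1 : γ s = ψ (-ε))
    (e2 : γ m = ψ 0) (e3 : γ t = ψ ε) :
    Cut (γ '' Icc 0 1) ψ ε (γ '' Icc t 1) (γ '' Icc 0 s) := by
  have s1 : Icc t 1 ⊆ Icc 0 1 := Icc_subset_Icc_left (by linarith)
  have s2 : Icc 0 s ⊆ Icc 0 1 := Icc_subset_Icc_right (by linarith)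
  have hm : m ∈ Icc (0 : ℝ) 1 := ⟨by linarith, by linarith⟩
  refine ⟨isCompact_Icc.image_of_continuousOn (hc.mono s1),
    isCompact_Icc.image_of_continuousOn (hc.mono s2), isPreconnected_Icc.image _ (hc.mono s1),
    isPreconnected_Icc.image _ (hc.mono s2), image_mono s1, image_mono s2, disjoint_left.2 ?_,
    ⟨t, ⟨le_rfl, h3⟩, e3⟩, ⟨s, ⟨h0, le_rfl⟩, e1⟩, ?_, ?_⟩
  · rintro _ ⟨x, hx, rfl⟩ ⟨y, hy, e⟩
    have := hi (s2 hy) (s1 hx) e
    linarith [hx.1, hy.2]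
  · rintro ⟨x, hx, e⟩
    have := hi (s1 hx) hm (e.trans e2.symm)
    linarith [hx.1]
  · rintro ⟨x, hx, e⟩
    have := hi (s2 hx) hm (e.trans e2.symm)
    linarith [hx.2]

lemma cut {A : Set ℂ} {a a' : ℂ} (hA : IsArc A a a') {ψ : ℝ → ℂ} {ε : ℝ} (hε : 0 < ε)
    (hc : ContinuousOn ψ (Icc (-ε) ε)) (hi : InjOn ψ (Icc (-ε) ε))
    (hm : ∀ t ∈ Icc (-ε) ε, ψ t ∈ A) :
    ∃ P N, Cut A ψ ε P N ∧ ((a ∈ P ∧ a' ∈ N) ∨ (a' ∈ P ∧ a ∈ N)) := by
  obtain ⟨γ, gc, gi, rfl, rfl, rfl⟩ := hA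
  let σ : ℂ → ℝ := Function.invFunOn γ (Icc 0 1)
  have hσ : ContinuousOn σ (γ '' Icc 0 1) :=
    T2.continuousOn_image isCompact_Icc gc continuousOn_id fun x hx => gi.leftInvOn_invFunOn hx
  have k1 : ∀ t ∈ Icc (-ε) ε, σ (ψ t) ∈ Icc (0 : ℝ) 1 := fun t ht =>
    Function.invFunOn_mem (hm t ht)
  have k2 : ∀ t ∈ Icc (-ε) ε, γ (σ (ψ t)) = ψ t := fun t ht => Function.invFunOn_eq (hm t ht)
  have m1 : -ε ∈ Icc (-ε) ε := ⟨le_rfl, by linarith⟩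
  have m2 : (0 : ℝ) ∈ Icc (-ε) ε := ⟨by linarith, hε.le⟩
  have m3 : ε ∈ Icc (-ε) ε := ⟨by linarith, le_rfl⟩
  rcases ContinuousOn.strictMonoOn_of_injOn_Icc' (f := fun t => σ (ψ t)) (by linarith : -ε ≤ ε)
    (hσ.comp hc hm) (fun s hs t ht e => hi hs ht (by
      rw [← k2 s hs, ← k2 t ht]; exact congrArg γ e)) with h | h
  · exact ⟨_, _, cut0 gc gi (k1 _ m1).1 (h m1 m2 (by linarith)) (h m2 m3 hε) (k1 _ m3).2 (k2 _ m1)
      (k2 _ m2) (k2 _ m3), Or.inr ⟨⟨1, ⟨(k1 _ m3).2, le_rfl⟩, rfl⟩, ⟨0, ⟨le_rfl, (k1 _ m1).1⟩, rfl⟩⟩⟩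
  · have := (cut0 (ψ := fun t => ψ (-t)) (ε := ε) gc gi (k1 _ m3).1 (h m2 m3 hε)
      (h m1 m2 (by linarith)) (k1 _ m1).2 (by simpa using k2 _ m3) (by simpa using k2 _ m2)
      (k2 _ m1)).symm
    simp only [neg_neg] at this
    exact ⟨_, _, this, Or.inl ⟨⟨0, ⟨le_rfl, (k1 _ m3).1⟩, rfl⟩, ⟨1, ⟨(k1 _ m1).2, le_rfl⟩, rfl⟩⟩⟩

/-- smoothing a crossing. -/
lemma smooth {A B P N P' N' : Set ℂ} {Φ : ℂ → ℂ} {ε σ : ℝ} (hε : 0 < ε) (hσ : σ = 1 ∨ σ = -1)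
    (hc : ContinuousOn Φ (closedBall 0 ε)) (hi : InjOn Φ (closedBall 0 ε))
    (hd : ∀ z ∈ closedBall (0 : ℂ) ε, ‖Φ z‖ ≤ 1 ∧ (Φ z ∈ A → z.im = 0) ∧ (Φ z ∈ B → z.re = 0))
    (hA : ∀ z ∈ A, ‖z‖ ≤ 1) (hB : ∀ z ∈ B, ‖z‖ ≤ 1) (hAB : ∀ z ∈ A, z ∈ B → z = Φ 0)
    (C : Cut A (fun t => Φ t) ε P N) (C' : Cut B (fun t => Φ ((σ * t : ℝ) * I)) ε P' N')
    {x x' y y' : ℂ} (mx : x ∈ P) (mx' : x' ∈ N) (my : y ∈ P') (my' : y' ∈ N') (hx : ‖x‖ = 1)
    (hx' : ‖x'‖ = 1) (hy : ‖y‖ = 1) (hy' : ‖y'‖ = 1) : ¬Alt x y x' y' := by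
  have sg : ∀ u : ℝ, |u| = ε → segment ℝ (u : ℂ) ((σ * u : ℝ) * I) ⊆ closedBall 0 ε := by
    intro u hu
    refine (convex_closedBall _ _).segment_subset (by simp [hu]) ?_
    rcases hσ with rfl | rfl <;> simp [hu]
  have ks : ∀ u v : ℂ, IsCompact (segment ℝ u v) := fun u v => by
    rw [segment_eq_image]
    exact isCompact_Icc.image (by fun_prop)
  have e1 : |ε| = ε := abs_of_pos hε
  have e2 : |-ε| = ε := by rw [abs_neg, e1]
  have σ0 : σ ≠ 0 := by rcases hσ with rfl | rfl <;> norm_num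
  have s1 : ∀ u : ℝ, |u| = ε → ∀ z ∈ segment ℝ (u : ℂ) ((σ * u : ℝ) * I), ∃ c : ℝ, 0 ≤ c ∧
      z.re = c * u ∧ (z.im = 0 → z = u) ∧ (z.re = 0 → z = (σ * u : ℝ) * I) := by
    rintro u hu _ ⟨c, d, c0, d0, cd, rfl⟩
    have u0 : u ≠ 0 := by rintro rfl; simp at hu; linarith
    refine ⟨c, c0, by simp, fun h => ?_, fun h => ?_⟩
    · have : d = 0 := by simpa [u0, σ0] using h
      rw [this, add_zero] at cd
      simp [this, cd]
    · have : c = 0 := by simpa [u0] using h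
      rw [this, zero_add] at cd
      simp [this, cd]
  have zP : Φ 0 ∉ P := by simpa using C.zP
  have zN : Φ 0 ∉ N := by simpa using C.zN
  have piece : ∀ (u : ℝ) (X X' : Set ℂ), |u| = ε → IsCompact X → IsPreconnected X → IsCompact X' →
      IsPreconnected X' → Φ u ∈ X → Φ ((σ * u : ℝ) * I) ∈ X' →
      IsCompact (X ∪ Φ '' segment ℝ (u : ℂ) ((σ * u : ℝ) * I) ∪ X') ∧
        IsPreconnected (X ∪ Φ '' segment ℝ (u : ℂ) ((σ * u : ℝ) * I) ∪ X') := by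
    intro u X X' hu k1 c1 k2 c2 m1 m2
    exact ⟨(k1.union ((ks _ _).image_of_continuousOn (hc.mono (sg u hu)))).union k2,
      IsPreconnected.union _ (Or.inr (mem_image_of_mem Φ (right_mem_segment _ _ _))) m2
        (IsPreconnected.union _ m1 (mem_image_of_mem Φ (left_mem_segment _ _ _)) c1
          ((convex_segment _ _).isPreconnected.image _ (hc.mono (sg u hu)))) c2⟩
  obtain ⟨k1, c1⟩ := piece ε P P' e1 C.kP C.cP C'.kP C'.cP C.mP C'.mP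
  obtain ⟨k2, c2⟩ := piece (-ε) N N' e2 C.kN C.cN C'.kN C'.cN C.mN C'.mN
  refine ins _ _ x y x' y' k1 c1 k2 c2 (disjoint_left.2 ?_) ?_ (Or.inl (Or.inl mx)) (Or.inr my)
    (Or.inl (Or.inl mx')) (Or.inr my') hx hy hx' hy'
  · rintro w ((h1 | ⟨z, hz, rfl⟩) | h1) ((h2 | ⟨z', hz', h2⟩) | h2)
    · exact disjoint_left.1 C.dj h1 h2
    · obtain ⟨c, -, -, h3, -⟩ := s1 _ e2 z' hz'
      rw [h3 ((hd _ (sg _ e2 hz')).2.1 (h2 ▸ C.sP h1))] at h2
      exact disjoint_left.1 C.dj h1 (h2 ▸ C.mN)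
    · exact zP (hAB w (C.sP h1) (C'.sN h2) ▸ h1)
    · obtain ⟨c, -, -, h3, -⟩ := s1 _ e1 z hz
      rw [h3 ((hd _ (sg _ e1 hz)).2.1 (C.sN h2))] at h2
      exact disjoint_left.1 C.dj C.mP h2
    · obtain rfl := hi (sg _ e2 hz') (sg _ e1 hz) h2
      obtain ⟨c, c0, h3, -, h4⟩ := s1 _ e1 _ hz
      obtain ⟨d, d0, h5, -, h6⟩ := s1 _ e2 _ hz'
      have h7 : z'.re = 0 := by nlinarith
      have h8 := congrArg Complex.im ((h4 h7).symm.trans (h6 h7))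
      rcases hσ with rfl | rfl <;> simp at h8 <;> linarith
    · obtain ⟨c, -, -, -, h3⟩ := s1 _ e1 z hz
      rw [h3 ((hd _ (sg _ e1 hz)).2.2 (C'.sN h2))] at h2
      exact disjoint_left.1 C'.dj C'.mP h2
    · exact zN (hAB w (C.sN h2) (C'.sP h1) ▸ h2)
    · obtain ⟨c, -, -, -, h3⟩ := s1 _ e2 z' hz'
      rw [h3 ((hd _ (sg _ e2 hz')).2.2 (h2 ▸ C'.sP h1))] at h2
      exact disjoint_left.1 C'.dj h1 (h2 ▸ C'.mN)
    · exact disjoint_left.1 C'.dj h1 h2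
  · rintro w (((h | ⟨z, hz, rfl⟩) | h) | ((h | ⟨z, hz, rfl⟩) | h))
    exacts [hA _ (C.sP h), (hd _ (sg _ e1 hz)).1, hB _ (C'.sP h), hA _ (C.sN h),
      (hd _ (sg _ e2 hz)).1, hB _ (C'.sN h)]

lemma third {x x' y y' : ℝ} (n1 : x ≠ x') (n2 : x ≠ y) (n3 : x ≠ y') (n4 : x' ≠ y) (n5 : x' ≠ y')
    (n6 : y ≠ y') (h1 : ¬altO x y x' y') (h2 : ¬altO x y' x' y) :
    altO x x' y y' ∧ altO x' x y y' ∧ altO x x' y' y ∧ altO x' x y' y := by
  have h : altO x x' y y' := by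
    unfold altO at *
    simp only [min_lt_iff, lt_max_iff, not_not] at *
    rcases lt_or_gt_of_ne n1 with a | a <;> rcases lt_or_gt_of_ne n2 with b | b <;>
      rcases lt_or_gt_of_ne n3 with c | c <;> rcases lt_or_gt_of_ne n4 with d | d <;>
      rcases lt_or_gt_of_ne n5 with e | e <;> rcases lt_or_gt_of_ne n6 with f | f <;>
      simp only [a, b, c, d, e, f, a.not_gt, b.not_gt, c.not_gt, d.not_gt, e.not_gt, f.not_gt,
        or_self, or_true, true_or, and_self, and_true, true_and, iff_self, iff_true, true_iff,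
        not_false_eq_true] at h1 h2 ⊢
  unfold altO at *
  rw [min_comm x' x, max_comm x' x]
  exact ⟨h, h, fun e => h e.symm, fun e => h e.symm⟩

lemma cross (A B : Set ℂ) (a a' b b' p : ℂ) (hA : IsArc (A ∩ closedBall 0 1) a a')
    (hB : IsArc (B ∩ closedBall 0 1) b b') (sA : A ∩ sphere 0 1 = {a, a'})
    (sB : B ∩ sphere 0 1 = {b, b'}) (hAB : A ∩ B ∩ closedBall 0 1 = {p}) (hp : ‖p‖ < 1)
    (hX : ProperCross A B p) : Alt a a' b b' := by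
  obtain ⟨Φ, h0, rfl, hΦ⟩ := hX
  have hU : Φ.source ∩ Φ ⁻¹' ball 0 1 ∈ nhds (0 : ℂ) :=
    (Φ.isOpen_inter_preimage isOpen_ball).mem_nhds ⟨h0, mem_ball_zero_iff.2 hp⟩
  obtain ⟨ε, hε, hs⟩ := nhds_basis_closedBall.mem_iff.1 hU
  have hc : ContinuousOn Φ (closedBall 0 ε) := Φ.continuousOn.mono fun z hz => (hs hz).1
  have hi : InjOn Φ (closedBall 0 ε) := Φ.injOn.mono fun z hz => (hs hz).1
  have hn : ∀ z ∈ closedBall (0 : ℂ) ε, ‖Φ z‖ ≤ 1 := fun z hz =>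
    (mem_ball_zero_iff.1 (hs hz).2).le
  have r1 : ∀ t ∈ Icc (-ε) ε, (t : ℂ) ∈ closedBall (0 : ℂ) ε := fun t ht => by
    simpa using abs_le.2 ht
  have r2 : ∀ t ∈ Icc (-ε) ε, ((1 * t : ℝ) : ℂ) * I ∈ closedBall (0 : ℂ) ε := fun t ht => by
    simpa using abs_le.2 ht
  obtain ⟨P, N, C, hPN⟩ := cut hA (ψ := fun t => Φ t) hε
    (hc.comp continuous_ofReal.continuousOn r1)
    (fun s h1 t h2 e => ofReal_injective (hi (r1 s h1) (r1 t h2) e))
    (fun t ht => ⟨(hΦ _ (hs (r1 t ht)).1).1.2 (by simp), mem_closedBall_zero_iff.2 (hn _ (r1 t ht))⟩)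
  obtain ⟨P', N', C', hPN'⟩ := cut hB (ψ := fun t => Φ ((1 * t : ℝ) * I)) hε
    (hc.comp (by fun_prop) r2)
    (fun s h1 t h2 e => by simpa using hi (r2 s h1) (r2 t h2) e)
    (fun t ht => ⟨(hΦ _ (hs (r2 t ht)).1).2.2 (by simp), mem_closedBall_zero_iff.2 (hn _ (r2 t ht))⟩)
  have C'' : Cut (B ∩ closedBall 0 1) (fun t => Φ ((-1 * t : ℝ) * I)) ε N' P' := by
    simpa using C'.symm
  have hd : ∀ z ∈ closedBall (0 : ℂ) ε, ‖Φ z‖ ≤ 1 ∧ (Φ z ∈ A ∩ closedBall 0 1 → z.im = 0) ∧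
      (Φ z ∈ B ∩ closedBall 0 1 → z.re = 0) := fun z hz =>
    ⟨hn z hz, fun h => (hΦ _ (hs hz).1).1.1 h.1, fun h => (hΦ _ (hs hz).1).2.1 h.1⟩
  have hm : ∀ z ∈ A ∩ closedBall 0 1, z ∈ B ∩ closedBall 0 1 → z = Φ 0 := fun z h1 h2 =>
    mem_singleton_iff.1 (hAB ▸ ⟨⟨h1.1, h2.1⟩, h1.2⟩)
  have key : ∀ x ∈ P, ∀ x' ∈ N, ∀ y ∈ P', ∀ y' ∈ N', ‖x‖ = 1 → ‖x'‖ = 1 → ‖y‖ = 1 → ‖y'‖ = 1 →
      Alt x x' y y' ∧ Alt x' x y y' ∧ Alt x x' y' y ∧ Alt x' x y' y := by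
    intro x mx x' mx' y my y' my' hx hx' hy hy'
    have ne : ∀ u ∈ A ∩ closedBall 0 1, ∀ v ∈ B ∩ closedBall 0 1, ‖u‖ = 1 → u ≠ v := by
      rintro u hu _ hv h1 rfl
      rw [hm u hu hv] at h1
      exact hp.ne h1
    exact third (arg_ne hx hx' (C.dj.ne_of_mem mx mx')) (arg_ne hx hy (ne _ (C.sP mx) _ (C'.sP my) hx))
      (arg_ne hx hy' (ne _ (C.sP mx) _ (C'.sN my') hx))
      (arg_ne hx' hy (ne _ (C.sN mx') _ (C'.sP my) hx'))
      (arg_ne hx' hy' (ne _ (C.sN mx') _ (C'.sN my') hx'))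
      (arg_ne hy hy' (C'.dj.ne_of_mem my my'))
      (smooth hε (Or.inl rfl) hc hi hd (fun z h => mem_closedBall_zero_iff.1 h.2)
        (fun z h => mem_closedBall_zero_iff.1 h.2) hm C C' mx mx' my my' hx hx' hy hy')
      (smooth hε (Or.inr rfl) hc hi hd (fun z h => mem_closedBall_zero_iff.1 h.2)
        (fun z h => mem_closedBall_zero_iff.1 h.2) hm C C'' mx mx' my' my hx hx' hy' hy)
  have ha : ‖a‖ = 1 := mem_sphere_zero_iff_norm.1 (sA.ge (by simp)).2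
  have ha' : ‖a'‖ = 1 := mem_sphere_zero_iff_norm.1 (sA.ge (by simp)).2
  have hb : ‖b‖ = 1 := mem_sphere_zero_iff_norm.1 (sB.ge (by simp)).2
  have hb' : ‖b'‖ = 1 := mem_sphere_zero_iff_norm.1 (sB.ge (by simp)).2
  rcases hPN with ⟨h1, h2⟩ | ⟨h1, h2⟩ <;> rcases hPN' with ⟨h3, h4⟩ | ⟨h3, h4⟩
  · exact (key _ h1 _ h2 _ h3 _ h4 ha ha' hb hb').1
  · exact (key _ h1 _ h2 _ h3 _ h4 ha ha' hb' hb).2.2.1
  · exact (key _ h1 _ h2 _ h3 _ h4 ha' ha hb hb').2.1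
  · exact (key _ h1 _ h2 _ h3 _ h4 ha' ha hb' hb).2.2.2

end AltT

theorem alt0 : AltSt := ⟨AltT.ins, AltT.out, AltT.arcs, AltT.cross⟩

theorem alt (_ : NonPl) : AltSt := alt0

end Pool.Agent.Lib.MP_c1f5fe_lc
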