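import Pool.Agent.Lib.MP_c1f5fe_lc.SpecD

/-! The last step. -/

namespace Pool.Agent.Lib.MP_c1f5fe_lc

theorem t1_of (nd : NDSt) (ndh : NDHSt) : T1St := fun k V _ G h => ndh k V G (nd k V G h)

theorem fpt_of (t1 : T1St) (t2 : T2St) (cmh : CMHSt) (hmc : HMCSt) (comp : CompSt)
    (top : TopSt) (fin : FinalSt) : FPT := by
  classical
  obtain ⟨dec, h1, h2⟩ := top
  refine fin dec h1 fun k n G => ?_
  rw [h2]
  refine decide_eq_decide.2 ?_
  rw [← comp k _ G]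
  exact ⟨fun h => t2 k _ G (cmh k _ G h), fun h => hmc k _ G (t1 k _ G h)⟩

end Pool.Agent.Lib.MP_c1f5fe_lc
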