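import Pool.Agent.Lib.MP_c1f5fe_lc.B4b

/-! From a planar order to a simple drawing with few bundled crossings. -/

namespace Pool.Agent.Lib.MP_c1f5fe_lc

open Set
open Pool.Agent.Lib.MP_50b5c6_lc.Np (NC)

namespace B4

namespace Dt
variable {k : ℕ} {V : Type} {G : SimpleGraph V} [DecidableEq V] {T : Dt k G}

lemma edge_arc {u v : V} (h : G.Adj u v) : IsArc (T.curve s(u, v)) (P (T.p u)) (P (T.p v)) := by
  set n := (T.lab u v).length with hn
  have sg : ∀ j ≤ n, IsSg G T.lab (u, v, j) := fun j hj => ⟨h, hj⟩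
  let W : ℕ → Set ℂ := fun j => {z | ∃ i ≤ j, z ∈ T.up (u, v, i) ∨ z ∈ T.lo (u, v, i)}
  have two : ∀ j ≤ n, ∀ A : Set ℂ, IsArc A (P (T.p u)) (P (T.c (u, v, j))) →
      (∀ z ∈ A, (∃ i ≤ j, z ∈ T.up (u, v, i)) ∨ ∃ i < j, z ∈ T.lo (u, v, i)) →
      IsArc (A ∪ T.lo (u, v, j)) (P (T.p u)) (P (T.c (opp T.lab (u, v, j)))) := by
    intro j hj A hA hs
    refine arc_trans hA (isArc _ (c_ne (sg j hj))) fun z hz hz' => ?_
    rcases hs z hz with ⟨i, hi, k⟩ | ⟨i, hi, k⟩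
    · rcases ul (sg i (by omega)) k hz' with ⟨e | e, e'⟩ | ⟨-, e | e, -⟩
      · rw [e', e]
      · exact absurd (congrArg Prod.fst e) h.ne
      · exact absurd (congrArg Prod.fst e) h.ne'
      · simp only [kap, opp, Prod.mk.injEq, true_and] at e
        omega
    · rcases ll (sg i (by omega)) (sg j hj) k hz' with e | e
      · simp only [Prod.mk.injEq, true_and] at e
        omega
      · exact absurd (congrArg Prod.fst e) h.ne
  have main : ∀ j ≤ n, IsArc (W j) (P (T.p u)) (P (T.c (opp T.lab (u, v, j)))) := by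
    intro j
    induction j with
    | zero =>
      intro hj
      have h1 : IsArc (T.up (u, v, 0)) (P (T.p u)) (P (T.c (u, v, 0))) := isArc 1 (p_ne_c _ _)
      convert two 0 hj _ h1 fun z hz => Or.inl ⟨0, le_rfl, hz⟩ using 1
      ext z
      simp [W]
    | succ j ih =>
      intro hj
      have e : kap T.lab (u, v, j + 1) = opp T.lab (u, v, j) := by
        simp only [kap, opp, Prod.mk.injEq, true_and]
        omega
      have h1 := isArc 1 (t_ne (sg _ hj))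
      rw [t1 (Nat.succ_ne_zero j), e] at h1
      have h2 : IsArc (W j ∪ T.up (u, v, j + 1)) (P (T.p u)) (P (T.c (u, v, j + 1))) := by
        refine arc_trans (ih (by omega)) (by rwa [up, t1 (Nat.succ_ne_zero j), e]) ?_
        rintro z ⟨i, hi, k | k⟩ hz
        · obtain ⟨d, nd⟩ := node_pos (sg _ hj) (Nat.succ_ne_zero j)
          have := uu (sg i (by omega)) (sg _ hj) k hz
          rcases same_disc T.ok (sg _ hj) (sg i (by omega)) rfl nd (this.trans nd) with a | a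
          · simp only [Prod.mk.injEq, true_and] at a
            omega
          · exact absurd (congrArg Prod.fst a) h.ne
        · rcases ul (sg _ hj) hz k with ⟨a | a, -⟩ | ⟨-, -, a⟩
          · simp only [Prod.mk.injEq, true_and] at a
            omega
          · exact absurd (congrArg Prod.fst a) h.ne
          · rw [a, e]
      convert two (j + 1) hj _ h2 ?_ using 1
      · ext z
        simp only [W, mem_ofPred_eq, mem_union]
        constructor
        · rintro ⟨i, hi, k⟩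
          rcases Nat.le_succ_iff.1 hi with a | rfl
          · exact Or.inl (Or.inl ⟨i, a, k⟩)
          · exact k.elim (fun k => Or.inl (Or.inr k)) Or.inr
        · rintro ((⟨i, hi, k⟩ | k) | k)
          exacts [⟨i, by omega, k⟩, ⟨_, le_rfl, Or.inl k⟩, ⟨_, le_rfl, Or.inr k⟩]
      · rintro z (⟨i, hi, k | k⟩ | k)
        exacts [Or.inl ⟨i, by omega, k⟩, Or.inr ⟨i, by omega, k⟩, Or.inl ⟨_, le_rfl, k⟩]
  have s0 : IsSg G T.lab (v, u, 0) := ⟨h.symm, Nat.zero_le _⟩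
  have e0 : opp T.lab (u, v, n) = (v, u, 0) := by simp [opp, hn]
  have h1 : IsArc (T.up (v, u, 0)) (P (T.p v)) (P (T.c (v, u, 0))) := isArc 1 (p_ne_c _ _)
  have h2 := main n le_rfl
  rw [e0] at h2
  convert arc_trans h2 (arc_symm h1) ?_ using 1
  · ext z
    constructor
    · rintro ⟨⟨a, b, j⟩, hx, e, k⟩
      rcases Sym2.eq_iff.1 e with ⟨rfl, rfl⟩ | ⟨rfl, rfl⟩
      · exact Or.inl ⟨j, hx.2, k⟩
      · have l1 := len_symm T.ok h
        have l2 := hx.2
        simp only at l1 l2 hn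
        rcases k with k | k
        · rcases Nat.eq_zero_or_pos j with rfl | hj
          · exact Or.inr k
          · rw [← up_kap hx hj.ne'] at k
            exact Or.inl ⟨(T.lab a b).length - j + 1, by omega, Or.inl k⟩
        · rw [← lo_opp hx] at k
          exact Or.inl ⟨(T.lab a b).length - j, by omega, Or.inr k⟩
    · rintro (⟨i, hi, k⟩ | k)
      · exact ⟨_, sg i hi, rfl, k⟩
      · exact ⟨_, s0, Sym2.eq_swap, Or.inl k⟩
  · rintro z ⟨i, hi, k | k⟩ hz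
    · have := uu (sg i hi) s0 k hz
      rw [node0 (x := (v, u, 0)) rfl] at this
      exact absurd (node_inl this).2 h.ne
    · rcases ul s0 hz k with ⟨-, a⟩ | ⟨a, -⟩
      · exact a
      · exact absurd rfl a

lemma avoid {e : Sym2 V} {v : V} (h : P (T.p v) ∈ T.curve e) : v ∈ e := by
  obtain ⟨x, -, rfl, k | k⟩ := h
  · rcases ends one_ne_zero k rfl with a | a
    · by_cases x0 : x.2.2 = 0
      · rw [t0 x0] at a
        rw [p_inj (P_inj a)]
        exact Sym2.mem_mk_left _ _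
      · rw [t1 x0] at a
        exact absurd (P_inj a) (p_ne_c _ _)
    · exact absurd (P_inj a) (p_ne_c _ _)
  · rcases ends (by norm_num) k rfl with a | a <;> exact absurd (P_inj a) (p_ne_c _ _)

lemma S_fin (i : Fin k) : (T.S i).Finite :=
  (T.L.finite_toSet.image T.c).subset fun _ ⟨x, hx, _, e⟩ => ⟨x, (T.mem x).2 hx, e.symm⟩

lemma D_conv (i : Fin k) : Convex ℝ (T.D i) := convex_convexHull _ _

lemma c_mem {x : Sg V} {i : Fin k} (hx : IsSg G T.lab x) (nx : node T.lab x = .inr (some i)) :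
    P (T.c x) ∈ T.D i := subset_convexHull _ _ ⟨_, ⟨x, hx, nx, rfl⟩, rfl⟩

lemma t_mem {x : Sg V} {i : Fin k} (hx : IsSg G T.lab x) (nx : node T.lab x = .inr (some i)) :
    P (T.t x) ∈ T.D i := by
  have x0 := (node_disc nx).1
  rw [t1 x0]
  exact c_mem (kap_sg T.ok hx x0) (by rw [node_kap T.ok hx x0, nx])

lemma up_D {x : Sg V} {i : Fin k} (hx : IsSg G T.lab x) (nx : node T.lab x = .inr (some i)) :
    T.up x ⊆ T.D i := up_sub (D_conv i) (t_ne hx) (t_mem hx nx) (c_mem hx nx)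

lemma pos_D (i : Fin k) (v : V) : P (T.p v) ∉ T.D i := fun h => by
  obtain ⟨x, -, -, e⟩ := hull_P h
  exact p_ne_c _ _ e

lemma In.mem {e : Sym2 V} {i : Fin k} {b : Bool} {z : ℂ} (h : T.In e i b z) :
    z ∈ T.D i ∧ z ∈ T.curve e ∧ e ∈ G.edgeSet := by
  obtain ⟨x, hx, rfl, nx, -, k⟩ := h
  exact ⟨up_D hx nx k, ⟨x, hx, rfl, Or.inl k⟩, hx.1⟩

lemma in_D {e : Sym2 V} {i : Fin k} {z : ℂ} (h : z ∈ T.D i) (h' : z ∈ T.curve e) :
    ∃ b, T.In e i b z := by
  obtain ⟨y, hy, rfl, k | k⟩ := h'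
  · have ny : node T.lab y = .inr (some i) := by
      by_contra hne
      refine hull_off ?_ h k
      rintro _ ⟨a, ha, na, rfl⟩ _ ⟨b, hb, nb, rfl⟩
      exact cls_prod (cls_t hy) (cls_c hy) (na ▸ cls_c ha) (nb ▸ cls_c hb) hne
    obtain ⟨-, b, l⟩ := node_disc ny
    exact ⟨b, y, hy, rfl, ny, l, k⟩
  · have hz : z.im = z.re ^ 2 := by linarith [hull_up _ z h, k.1, k.2]
    have key : ∀ y', IsSg G T.lab y' → z = P (T.c y') → ∃ b, T.In (ed y') i b z := by
      intro y' hy' e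
      obtain ⟨x, hx, nx, a⟩ := hull_P (e ▸ h : P (T.c y') ∈ T.D i)
      rw [← c_inj hy' a] at nx
      obtain ⟨-, b, l⟩ := node_disc nx
      exact ⟨b, y', hy', rfl, nx, l, e ▸ right_mem _ _ _⟩
    rcases ends (by norm_num) k hz with a | a
    · exact key y hy a
    · simpa using key _ (opp_sg T.ok hy) a

lemma In.same {x : Sg V} {i : Fin k} {b : Bool} {z : ℂ} (hx : IsSg G T.lab x)
    (nx : node T.lab x = .inr (some i)) (h : T.In (ed x) i b z) :
    z ∈ T.up x ∧ lb T.lab x = some (i, b) := by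
  obtain ⟨y, hy, e, ny, l, k⟩ := h
  have x0 := (node_disc nx).1
  rcases same_disc T.ok hx hy e.symm nx ny with rfl | rfl
  · exact ⟨k, l⟩
  · exact ⟨up_kap hx x0 ▸ k, lb_kap T.ok hx x0 ▸ l⟩

lemma curve_D {x : Sg V} {i : Fin k} (hx : IsSg G T.lab x)
    (nx : node T.lab x = .inr (some i)) : T.curve (ed x) ∩ T.D i = T.up x := by
  ext z
  constructor
  · rintro ⟨a, b⟩
    obtain ⟨_, h⟩ := in_D b a
    exact (h.same hx nx).1
  · exact fun h => ⟨⟨x, hx, rfl, Or.inl h⟩, up_D hx nx h⟩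

lemma In.bit {e : Sym2 V} {i : Fin k} {b b' : Bool} {z z' : ℂ} (h : T.In e i b z)
    (h' : T.In e i b' z') : b = b' := by
  obtain ⟨x, hx, rfl, nx, l, -⟩ := h
  simpa [l] using (h'.same hx nx).2

lemma In.disc {e f : Sym2 V} {i j : Fin k} {b b' : Bool} {z : ℂ} (h : T.In e i b z)
    (h' : T.In f j b' z) : i = j := by
  obtain ⟨x, hx, -, nx, -, k⟩ := h
  obtain ⟨y, hy, -, ny, -, k'⟩ := h'
  simpa [nx, ny] using uu hx hy k k'

lemma In.lab {u v : V} {i : Fin k} {b : Bool} {z : ℂ} (h : T.In s(u, v) i b z) :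
    G.Adj u v ∧ (i, b) ∈ T.lab u v := by
  obtain ⟨x, hx, e, -, l, -⟩ := h
  exact lb_mem T.ok hx l e

lemma In.once {e f : Sym2 V} {i j : Fin k} {b b' : Bool} {z1 z2 z3 z4 : ℂ} (h1 : T.In e i b z1)
    (h2 : T.In f i (!b) z2) (h3 : T.In e j b' z3) (h4 : T.In f j (!b') z4) : i = j := by
  by_contra hne
  induction e using Sym2.ind with | _ u v => ?_
  induction f using Sym2.ind with | _ u' v' => ?_
  exact T.ok.once u v u' v' i j b b' h1.lab.1 h2.lab.1 hne h1.lab.2 h3.lab.2 h2.lab.2 h4.lab.2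

lemma In.vert {e f : Sym2 V} {i : Fin k} {b : Bool} {z z' : ℂ} {v : V} (h1 : T.In e i b z)
    (h2 : T.In f i (!b) z') (he : v ∈ e) (hf : v ∈ f) : False := by
  obtain ⟨a, rfl⟩ := Sym2.mem_iff_exists.1 he
  obtain ⟨a', rfl⟩ := Sym2.mem_iff_exists.1 hf
  cases b
  · exact T.ok.vert v a a' i h1.lab.1 h2.lab.1 h1.lab.2 h2.lab.2
  · exact T.ok.vert v a' a i h2.lab.1 h1.lab.1 h2.lab.2 h1.lab.2

lemma chords {x y : Sg V} {i : Fin k} {b : Bool} (hx : IsSg G T.lab x) (hy : IsSg G T.lab y)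
    (nx : node T.lab x = .inr (some i)) (ny : node T.lab y = .inr (some i))
    (lx : lb T.lab x = some (i, b)) (ly : lb T.lab y = some (i, !b)) :
    T.t x + T.c x ≠ T.t y + T.c y ∧ ∃ z, z ∈ T.up x ∧ z ∈ T.up y ∧ z ∈ interior (T.D i) := by
  have h := (disc_Q hx hy nx ny lx ly).1 (by simp)
  obtain ⟨z, z1, z2, z3⟩ := cross h
  exact ⟨sum_ne h, z, z1, z2, int_cross (D_conv i) (sum_ne h) (up_D hx nx) (up_D hy ny) z1 z2 z3⟩

lemma In.cross {e f : Sym2 V} {i : Fin k} {b : Bool} {z z' : ℂ} (h1 : T.In e i b z)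
    (h2 : T.In f i (!b) z') : ∃ y, y ∈ interior (T.D i) ∧ T.In e i b y ∧ T.In f i (!b) y ∧
      (∀ y', T.In e i b y' → T.In f i (!b) y' → y' = y) ∧
      ProperCross (T.curve e) (T.curve f) y := by
  obtain ⟨x, hx, rfl, nx, lx, -⟩ := h1
  obtain ⟨x', hx', rfl, nx', lx', -⟩ := h2
  obtain ⟨s, y, y1, y2, y3⟩ := chords hx hx' nx nx' lx lx'
  exact ⟨y, y3, ⟨x, hx, rfl, nx, lx, y1⟩, ⟨x', hx', rfl, nx', lx', y2⟩, fun y' a b =>
    uniq one_ne_zero s (a.same hx nx).1 (b.same hx' nx').1 y1 y2,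
    proper (hull_up _) s (curve_D hx nx) (curve_D hx' nx') y1 y2 y3⟩

variable (T) in
/-- the drawing. -/
noncomputable def draw : SimpleDrawing G where
  pos v := P (T.p v)
  curve := T.curve
  pos_inj _ _ h := p_inj (P_inj h)
  arc _ _ h := edge_arc h
  avoid _ _ _ h := avoid h
  once e he f hf hne z hz z' hz' := by
    rcases master hz.1 hz.2 hne with ⟨v, a, b, rfl⟩ | ⟨i, b, h1, h2⟩ <;>
      rcases master hz'.1 hz'.2 hne with ⟨v', a', b', rfl⟩ | ⟨i', b', h1', h2'⟩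
    · by_contra h
      exact hne (Sym2.eq_of_ne_mem (fun e => h (by rw [e])) a a' b b')
    · exact (h1'.vert h2' a b).elim
    · exact (h1.vert h2 a' b').elim
    · obtain rfl := h1.once h2 h1' h2'
      obtain rfl := h1.bit h1'
      obtain ⟨y, -, -, -, u, -⟩ := h1.cross h2
      rw [u z h1 h2, u z' h1' h2']
  proper e he f hf hne z hz := by
    rcases master hz.1 hz.2 hne with ⟨v, -, -, rfl⟩ | ⟨i, b, h1, h2⟩
    · exact Or.inl ⟨v, rfl⟩
    · obtain ⟨y, -, -, -, u, pc⟩ := h1.cross h2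
      exact Or.inr (u z h1 h2 ▸ pc)
  three e he f hf g hg n1 n2 n3 z hz := by
    rcases master hz.1.1 hz.1.2 n1 with ⟨v, -, -, rfl⟩ | ⟨i, b, h1, h2⟩
    · exact ⟨v, rfl⟩
    rcases master hz.1.1 hz.2 n2 with ⟨v, -, -, rfl⟩ | ⟨i', b', h3, h4⟩
    · exact ⟨v, rfl⟩
    rcases master hz.1.2 hz.2 n3 with ⟨v, -, -, rfl⟩ | ⟨i'', b'', h5, h6⟩
    · exact ⟨v, rfl⟩
    obtain rfl := h1.disc h3
    obtain rfl := h1.disc h5
    obtain rfl := h1.bit h3
    obtain rfl := h2.bit h5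
    exact absurd (h4.bit h6) (by simp)

lemma crossAt {e f : Sym2 V} {z : ℂ} :
    T.draw.CrossAt e f z ↔ ∃ i b, T.In e i b z ∧ T.In f i (!b) z := by
  constructor
  · rintro ⟨-, -, hne, h1, h2, h3⟩
    rcases master h1 h2 hne with ⟨v, -, -, rfl⟩ | h
    · exact absurd ⟨v, rfl⟩ h3
    · exact h
  · rintro ⟨i, b, h1, h2⟩
    refine ⟨h1.mem.2.2, h2.mem.2.2, ?_, h1.mem.2.1, h2.mem.2.1, ?_⟩
    · rintro rfl
      exact absurd (h1.bit h2) (by simp)
    · rintro ⟨v, rfl⟩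
      exact pos_D i v h1.mem.1

variable (T) in
/-- the edges of a bundle. -/
def E (i : Fin k) (b : Bool) : Set (Sym2 V) := {e | ∃ z, T.In e i b z}

variable (T) in
/-- the crossings in a disc. -/
def C (i : Fin k) : Set ℂ := {z | ∃ e ∈ T.E i false, ∃ f ∈ T.E i true, T.draw.CrossAt e f z}

lemma mem_C {i : Fin k} {z : ℂ} : z ∈ T.C i ↔ ∃ e f b, T.In e i b z ∧ T.In f i (!b) z := by
  constructor
  · rintro ⟨e, ⟨z1, h1⟩, f, ⟨z2, h2⟩, h⟩
    obtain ⟨j, b, h3, h4⟩ := crossAt.1 h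
    obtain rfl := h1.once (b := false) h2 h3 h4
    exact ⟨e, f, b, h3, h4⟩
  · rintro ⟨e, f, b, h1, h2⟩
    cases b
    · exact ⟨e, ⟨z, h1⟩, f, ⟨z, h2⟩, crossAt.2 ⟨i, false, h1, h2⟩⟩
    · exact ⟨f, ⟨z, h2⟩, e, ⟨z, h1⟩, crossAt.2 ⟨i, false, h2, h1⟩⟩

lemma cross_D {i : Fin k} : T.draw.crossings ∩ T.D i = T.C i := by
  ext z
  rw [mem_C]
  constructor
  · rintro ⟨⟨e, f, h⟩, hz⟩
    obtain ⟨j, b, h1, h2⟩ := crossAt.1 h
    obtain ⟨b', h3⟩ := in_D hz h1.mem.2.1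
    obtain rfl := h1.disc h3
    exact ⟨e, f, b, h1, h2⟩
  · rintro ⟨e, f, b, h1, h2⟩
    exact ⟨⟨e, f, crossAt.2 ⟨i, b, h1, h2⟩⟩, h1.mem.1⟩

lemma bundled {i : Fin k} (hi : (T.C i).Nonempty) : T.draw.Bundled (T.C i) := by
  obtain ⟨z0, hz0⟩ := hi
  obtain ⟨e0, f0, b0, k1, k2⟩ := mem_C.1 hz0
  have both : ∀ b, ∃ f z, T.In f i (!b) z := by
    intro b
    by_cases h : b = b0
    · exact ⟨f0, z0, h ▸ k2⟩
    · exact ⟨e0, z0, by rwa [show (!b) = b0 by revert h; cases b <;> cases b0 <;> simp]⟩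
  have fr : frontier (T.D i) ⊆ T.D i := (hull_closed (S_fin i)).frontier_subset
  refine ⟨T.E i false, T.E i true, fun e ⟨z, h⟩ => h.mem.2.2, fun e ⟨z, h⟩ => h.mem.2.2,
    Set.disjoint_left.2 fun e ⟨z, h⟩ ⟨z', h'⟩ => absurd (h.bit h') (by simp), ?_, rfl, T.D i,
    ⟨?_, ?_, fun e _ => ⟨?_, ?_⟩⟩, cross_D, ?_, ?_⟩
  · rintro e ⟨z, h⟩ f ⟨z', h'⟩
    obtain ⟨y, -, a, b, -⟩ := h.cross (b := false) h'
    exact ⟨y, crossAt.2 ⟨i, false, a, b⟩⟩
  · obtain ⟨y, a, -⟩ := k1.cross k2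
    exact hull_ball (S_fin i) ⟨y, a⟩
  · rw [Set.disjoint_left]
    rintro z hz (⟨v, rfl⟩ | h)
    · exact pos_D i v (fr hz)
    · obtain ⟨e, f, b, h1, h2⟩ := mem_C.1 ((cross_D (T := T)).subset ⟨h, fr hz⟩)
      obtain ⟨y, a, -, -, u, -⟩ := h1.cross h2
      exact hz.2 (u z h1 h2 ▸ a)
  · rcases (T.curve e ∩ frontier (T.D i)).eq_empty_or_nonempty with h | ⟨z, h1, h2⟩
    · change (T.curve e ∩ _).encard ≤ 2
      simp [h]
    · obtain ⟨b, h⟩ := in_D (fr h2) h1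
      obtain ⟨f, z', h'⟩ := both b
      obtain ⟨y, a, y1, -⟩ := h.cross h'
      obtain ⟨x, hx, rfl, nx, -, -⟩ := h
      have : T.curve (ed x) ∩ frontier (T.D i) ⊆ {P (T.t x), P (T.c x)} := by
        rintro s ⟨s1, s2⟩
        by_contra hn
        simp only [mem_insert_iff, mem_singleton_iff, not_or] at hn
        exact s2.2 (int_chord (D_conv i) (t_mem hx nx) (c_mem hx nx) (y1.same hx nx).1 a
          ((curve_D hx nx).subset ⟨s1, fr s2⟩) hn.1 hn.2)
      exact (encard_le_encard this).trans ((encard_insert_le _ _).trans (by simp; norm_num))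
  · rintro ⟨z, h1, h2⟩
    obtain ⟨b, x, hx, rfl, nx, -, -⟩ := in_D h2 h1
    refine ⟨P (T.t x), P (T.c x), ?_⟩
    change IsArc (T.curve (ed x) ∩ T.D i) _ _
    rw [curve_D hx nx]
    exact isArc 1 (t_ne hx)
  · rw [Set.disjoint_left]
    rintro z hz ⟨v, rfl⟩
    exact pos_D i v hz
  · rintro e - ⟨z, h1, h2⟩
    obtain ⟨b, h⟩ := in_D h2 h1
    cases b
    · exact Or.inl ⟨z, h⟩
    · exact Or.inr ⟨z, h⟩

lemma bc_le (T : Dt k G) : bc G ≤ k := by
  classical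
  let U := {i : Fin k // (T.C i).Nonempty}
  let φ := (Fintype.equivFin U).symm
  refine sInf_le_of_le (b := (Fintype.card U : ℕ∞)) ⟨T.draw, _, ⟨fun j => T.C (φ j).1,
    fun j => ⟨(φ j).2, bundled (φ j).2⟩, fun j j' hne => ?_, ?_⟩, rfl⟩ ?_
  · refine Set.disjoint_left.2 fun z h h' => hne (φ.injective (Subtype.ext ?_))
    obtain ⟨e, f, b, h1, -⟩ := mem_C.1 h
    obtain ⟨e', f', b', h2, -⟩ := mem_C.1 h'
    exact h1.disc h2
  · ext z
    simp only [mem_iUnion]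
    constructor
    · rintro ⟨j, h⟩
      exact ((cross_D (T := T)).superset h).1
    · rintro ⟨e, f, h⟩
      obtain ⟨i, b, h1, h2⟩ := crossAt.1 h
      have : z ∈ T.C i := mem_C.2 ⟨e, f, b, h1, h2⟩
      exact ⟨φ.symm ⟨i, z, this⟩, by simpa using this⟩
  · exact_mod_cast (Fintype.card_subtype_le _).trans (Fintype.card_fin k).le

end Dt

end B4

theorem t2 : T2St := by
  intro k V _ G h
  classical
  obtain ⟨lab, L, ok, nd, mem, n1, n2, rot⟩ := h
  obtain ⟨e, he⟩ := Countable.exists_injective_nat V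
  refine B4.Dt.bc_le ⟨lab, L, e, he, ok, nd, mem, n1, n2, fun i => ?_⟩
  obtain ⟨A, B, hA, hB, hr⟩ := rot i
  exact ⟨_, A, B, List.filter_sublist, fun x => by simp, hA, hB, hr⟩

end Pool.Agent.Lib.MP_c1f5fe_lc
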