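import Pool.Agent.Lib.MP_c1f5fe_lc.SpecA

/-! Chords of the parabola and their mirror images. -/

namespace Pool.Agent.Lib.MP_c1f5fe_lc

open Set Complex

namespace B4

lemma arc_symm {A : Set ℂ} {p q : ℂ} (h : IsArc A p q) : IsArc A q p := by
  obtain ⟨γ, h1, h2, h3, h4, h5⟩ := h
  have hm : MapsTo (fun t : ℝ => 1 - t) (Icc 0 1) (Icc 0 1) := fun t ht =>
    ⟨by linarith [ht.2], by linarith [ht.1]⟩
  refine ⟨fun t => γ (1 - t), h1.comp (by fun_prop) hm, fun s hs t ht e => ?_, by simpa,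
    by simpa, ?_⟩
  · have := h2 (hm hs) (hm ht) e
    linarith
  · rw [← h5]
    ext z
    constructor
    · rintro ⟨t, ht, rfl⟩
      exact ⟨1 - t, hm ht, rfl⟩
    · rintro ⟨t, ht, rfl⟩
      exact ⟨1 - t, hm ht, by simp⟩

lemma arc_trans {A B : Set ℂ} {p q r : ℂ} (h : IsArc A p q) (h' : IsArc B q r)
    (hi : ∀ z ∈ A, z ∈ B → z = q) : IsArc (A ∪ B) p r := by
  obtain ⟨γ, h1, h2, h3, h4, h5⟩ := h
  obtain ⟨δ, k1, k2, k3, k4, k5⟩ := h'
  have m1 : ∀ t ∈ Icc (0 : ℝ) 1, t ≤ 1 / 2 → 2 * t ∈ Icc (0 : ℝ) 1 := fun t ht h =>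
    ⟨by linarith [ht.1], by linarith⟩
  have m2 : ∀ t ∈ Icc (0 : ℝ) 1, 1 / 2 ≤ t → 2 * t - 1 ∈ Icc (0 : ℝ) 1 := fun t ht h =>
    ⟨by linarith, by linarith [ht.2]⟩
  have mix : ∀ s ∈ Icc (0 : ℝ) 1, ∀ t ∈ Icc (0 : ℝ) 1, s ≤ 1 / 2 → ¬ t ≤ 1 / 2 →
      γ (2 * s) ≠ δ (2 * t - 1) := by
    intro s hs t ht a b e
    have b' := m2 t ht (not_le.1 b).le
    have := hi (γ (2 * s)) (h5 ▸ mem_image_of_mem _ (m1 s hs a))
      (e ▸ k5 ▸ mem_image_of_mem _ b')
    have := k2 b' (left_mem_Icc.2 zero_le_one) (by rw [← e, this, k3])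
    exact b (by linarith)
  refine ⟨fun t => if t ≤ 1 / 2 then γ (2 * t) else δ (2 * t - 1), ?_, fun s hs t ht e => ?_,
    by simpa, by norm_num [k4], ?_⟩
  · refine ContinuousOn.if (fun a ha => ?_) ?_ ?_
    · have : a = 1 / 2 := by
        have := ha.2
        rwa [show {a : ℝ | a ≤ 1 / 2} = Iic (1 / 2) from rfl, frontier_Iic, mem_singleton_iff]
          at this
      rw [this]
      norm_num [h4, k3]
    · refine h1.comp (by fun_prop) fun t ht => m1 t ht.1 ?_
      have := ht.2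
      rwa [show {a : ℝ | a ≤ 1 / 2} = Iic (1 / 2) from rfl, closure_Iic] at this
    · refine k1.comp (by fun_prop) fun t ht => m2 t ht.1 ?_
      have := ht.2
      rwa [show {a : ℝ | ¬ a ≤ 1 / 2} = Ioi (1 / 2) from by ext; simp, closure_Ioi] at this
  · by_cases a : s ≤ 1 / 2 <;> by_cases b : t ≤ 1 / 2 <;> simp only [a, b, if_true, if_false] at e
    · have := h2 (m1 s hs a) (m1 t ht b) e
      linarith
    · exact absurd e (mix s hs t ht a b)
    · exact absurd e.symm (mix t ht s hs b a)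
    · have := k2 (m2 s hs (not_le.1 a).le) (m2 t ht (not_le.1 b).le) e
      linarith
  · rw [← h5, ← k5]
    ext z
    constructor
    · rintro ⟨t, ht, rfl⟩
      by_cases a : t ≤ 1 / 2
      · exact Or.inl ⟨_, m1 t ht a, by simp only [a, if_true]⟩
      · exact Or.inr ⟨_, m2 t ht (not_le.1 a).le, by simp only [a, if_false]⟩
    · rintro (⟨t, ht, rfl⟩ | ⟨t, ht, rfl⟩)
      · refine ⟨t / 2, ⟨by linarith [ht.1], by linarith [ht.2]⟩, ?_⟩
        have : t / 2 ≤ 1 / 2 := by linarith [ht.2]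
        simp only [this, if_true]
        congr 1; ring
      · refine ⟨(t + 1) / 2, ⟨by linarith [ht.1], by linarith [ht.2]⟩, ?_⟩
        by_cases a : (t + 1) / 2 ≤ 1 / 2
        · have : t = 0 := by linarith [ht.1]
          rw [this]
          norm_num [h4, k3]
        · simp only [a, if_false]
          congr 1; ring

/-- the point of the parabola. -/
def P (r : ℝ) : ℂ := ⟨r, r ^ 2⟩

lemma P_inj {r s : ℝ} (h : P r = P s) : r = s := congrArg re h

/-- positive between `a` and `b`. -/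
def w (a b t : ℝ) : ℝ := (t - a) * (b - t)

/-- the chord (`ε = 1`) and its mirror image (`ε = -1`). -/
def arc (ε a b : ℝ) : Set ℂ := {z | 0 ≤ w a b z.re ∧ z.im = z.re ^ 2 + ε * w a b z.re}

lemma w_comm (a b t : ℝ) : w a b t = w b a t := by unfold w; ring

lemma arc_comm (ε a b : ℝ) : arc ε a b = arc ε b a := by
  ext z; simp only [arc, w_comm a b]

lemma left_mem (ε a b : ℝ) : P a ∈ arc ε a b := by simp [arc, P, w]

lemma right_mem (ε a b : ℝ) : P b ∈ arc ε a b := by simp [arc, P, w]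

lemma par {a b t : ℝ} (hab : a ≠ b) (h : 0 ≤ w a b t) :
    ∃ l : ℝ, 0 ≤ l ∧ l ≤ 1 ∧ t = a + l * (b - a) := by
  have h0 : b - a ≠ 0 := sub_ne_zero.2 hab.symm
  have h1 : 0 < (b - a) ^ 2 := by positivity
  refine ⟨(t - a) / (b - a), ?_, ?_, by field_simp; ring⟩
  · rw [show (t - a) / (b - a) = (t - a) * (b - a) / (b - a) ^ 2 by field_simp]
    exact div_nonneg (by unfold w at h; nlinarith [sq_nonneg (t - a)]) h1.le
  · rw [show (t - a) / (b - a) = (t - a) * (b - a) / (b - a) ^ 2 by field_simp, div_le_one h1]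
    unfold w at h; nlinarith [sq_nonneg (b - t)]

lemma isArc (ε : ℝ) {a b : ℝ} (hab : a ≠ b) : IsArc (arc ε a b) (P a) (P b) := by
  have h0 : b - a ≠ 0 := sub_ne_zero.2 hab.symm
  refine ⟨fun l => ((a + l * (b - a) : ℝ) : ℂ) +
    (((a + l * (b - a)) ^ 2 + ε * w a b (a + l * (b - a)) : ℝ) : ℂ) * I, ?_, fun s _ t _ e => ?_,
    ?_, ?_, ?_⟩
  · unfold w; fun_prop
  · have := congrArg re e
    simp only [add_re, ofReal_re, mul_re, I_re, mul_zero, ofReal_im, I_im, mul_one, sub_self,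
      add_zero] at this
    exact mul_right_cancel₀ h0 (by linarith)
  · apply Complex.ext <;> simp [P, w, -ofReal_pow]
  · apply Complex.ext <;> simp [P, w, -ofReal_pow]
  · ext z
    constructor
    · rintro ⟨l, hl, rfl⟩
      simp only [arc, mem_ofPred_eq, add_re, ofReal_re, mul_re, I_re, mul_zero, ofReal_im, I_im,
        mul_one, sub_self, add_zero, add_im, mul_im, zero_add, and_true]
      have : w a b (a + l * (b - a)) = l * (1 - l) * (b - a) ^ 2 := by unfold w; ring
      rw [this]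
      exact mul_nonneg (mul_nonneg hl.1 (by linarith [hl.2])) (sq_nonneg _)
    · rintro ⟨h1, h2⟩
      obtain ⟨l, l0, l1, e⟩ := par hab h1
      refine ⟨l, ⟨l0, l1⟩, ?_⟩
      apply Complex.ext
      · simp only [add_re, ofReal_re, mul_re, I_re, mul_zero, ofReal_im, I_im, mul_one, sub_self,
          add_zero, ← e]
      · simp only [add_im, ofReal_re, mul_im, I_re, mul_zero, ofReal_im, I_im, mul_one,
          add_zero, zero_add, ← e, h2]

/-- a point of an arc on the parabola is an end. -/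
lemma ends {ε a b : ℝ} (hε : ε ≠ 0) {z : ℂ} (h : z ∈ arc ε a b) (hz : z.im = z.re ^ 2) :
    z = P a ∨ z = P b := by
  have : w a b z.re = 0 := by
    have := h.2
    exact (mul_eq_zero.1 (by linarith : ε * w a b z.re = 0)).resolve_left hε
  rcases mul_eq_zero.1 this with e | e
  · exact Or.inl (Complex.ext (by simp only [P]; linarith) (by
      simp only [P]; rw [hz, sub_eq_zero.1 e]))
  · exact Or.inr (Complex.ext (by simp only [P]; linarith) (by
      simp only [P]; rw [hz, sub_eq_zero.1 e]))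

lemma up_lo {a b c d : ℝ} {z : ℂ} (h : z ∈ arc 1 a b) (h' : z ∈ arc (-1) c d) :
    z.im = z.re ^ 2 := by
  linarith [h.1, h.2, h'.1, h'.2]

lemma meet {ε a b c d : ℝ} (hε : ε ≠ 0) (hcd : c ≠ d) {z : ℂ} (h : z ∈ arc ε a b)
    (h' : z ∈ arc ε c d) : w a b c * w a b d ≤ 0 := by
  obtain ⟨l, l0, l1, e⟩ := par hcd h'.1
  have e1 : w a b z.re = w c d z.re := mul_left_cancel₀ hε (by linarith [h.2, h'.2])
  have e2 : (1 - l) * w a b c + l * w a b d = 0 := by
    rw [e] at e1; unfold w at e1 ⊢; linear_combination e1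
  by_contra hn
  push Not at hn
  have e3 : (1 - l) * w a b c ^ 2 + l * w a b d ^ 2 + w a b c * w a b d = 0 := by
    linear_combination (w a b c + w a b d) * e2
  have := mul_nonneg (sub_nonneg.2 l1) (sq_nonneg (w a b c))
  have := mul_nonneg l0 (sq_nonneg (w a b d))
  linarith

lemma uniq {ε a b c d : ℝ} (hε : ε ≠ 0) (hs : a + b ≠ c + d) {z z' : ℂ} (h : z ∈ arc ε a b)
    (h' : z ∈ arc ε c d) (k : z' ∈ arc ε a b) (k' : z' ∈ arc ε c d) : z = z' := by
  have e1 : w a b z.re = w c d z.re := mul_left_cancel₀ hε (by linarith [h.2, h'.2])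
  have e2 : w a b z'.re = w c d z'.re := mul_left_cancel₀ hε (by linarith [k.2, k'.2])
  have e : z.re = z'.re := mul_left_cancel₀ (sub_ne_zero.2 hs) (by
    unfold w at e1 e2; linear_combination e1 - e2)
  exact Complex.ext e (by rw [h.2, k.2, e])

lemma sum_ne {a b c d : ℝ} (h : w a b c * w a b d < 0) : a + b ≠ c + d := by
  intro e
  have : w a b c = w a b d := by unfold w; linear_combination (c - d) * e
  rw [this] at h
  nlinarith [sq_nonneg (w a b d)]

lemma w_swap (a b c d : ℝ) : w a b c * w a b d = w c d a * w c d b := by unfold w; ring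

/-- the affine function that vanishes on the chord. -/
def el (a b : ℝ) (z : ℂ) : ℝ := (a + b) * z.re - a * b - z.im

lemma el_P (a b r : ℝ) : el a b (P r) = w a b r := by simp only [el, P, w]; ring

lemma mem_up {a b : ℝ} {z : ℂ} : z ∈ arc 1 a b ↔ el a b z = 0 ∧ z.re ^ 2 ≤ z.im := by
  simp only [arc, el, w, mem_ofPred_eq]
  constructor <;> rintro ⟨h1, h2⟩ <;> constructor <;> nlinarith

lemma cross {a b c d : ℝ} (h : w a b c * w a b d < 0) :
    ∃ z, z ∈ arc 1 a b ∧ z ∈ arc 1 c d ∧ z.re ^ 2 < z.im := by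
  have h0 : w a b c - w a b d ≠ 0 := by
    intro e
    rw [sub_eq_zero.1 e] at h
    nlinarith [sq_nonneg (w a b d)]
  have hcd : d - c ≠ 0 := fun e => h0 (by rw [sub_eq_zero.1 e, sub_self])
  set l := w a b c / (w a b c - w a b d) with hl
  have e0 : l * (w a b c - w a b d) = w a b c := by rw [hl]; field_simp
  have e1 : l * (1 - l) * (w a b c - w a b d) ^ 2 = -(w a b c * w a b d) := by
    linear_combination (-(w a b d) - l * (w a b c - w a b d)) * e0
  have e2 : 0 < l * (1 - l) := by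
    by_contra hn
    push Not at hn
    nlinarith [sq_nonneg (w a b c - w a b d)]
  have e3 : w c d (c + l * (d - c)) = l * (1 - l) * (d - c) ^ 2 := by unfold w; ring
  have e4 : 0 < w c d (c + l * (d - c)) := by rw [e3]; positivity
  have e5 : w a b (c + l * (d - c)) = w c d (c + l * (d - c)) := by
    unfold w at e0 ⊢; linear_combination -e0
  exact ⟨⟨c + l * (d - c), (c + l * (d - c)) ^ 2 + w c d (c + l * (d - c))⟩,
    ⟨by simp only [e5]; exact e4.le, by simp only [e5, one_mul]⟩,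
    ⟨e4.le, by simp only [one_mul]⟩, by simp only; linarith⟩

/-- the affine chart in which two chords are the axes. -/
noncomputable def H (a b c d : ℝ) (hs : a + b ≠ c + d) : ℂ ≃ₜ ℂ where
  toFun z := ((el c d z : ℝ) : ℂ) + ((el a b z : ℝ) : ℂ) * I
  invFun u := (((u.im - u.re + a * b - c * d) / (a + b - (c + d)) : ℝ) : ℂ) +
    (((a + b) * ((u.im - u.re + a * b - c * d) / (a + b - (c + d))) - a * b - u.im : ℝ) : ℂ) * I
  left_inv z := by
    have := sub_ne_zero.2 hs
    apply Complex.ext <;>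
      simp only [add_re, add_im, ofReal_re, mul_re, mul_im, I_re, mul_zero, ofReal_im, I_im,
        mul_one, sub_self, add_zero, zero_add, el] <;> field_simp <;> ring
  right_inv u := by
    have := sub_ne_zero.2 hs
    apply Complex.ext <;>
      simp only [add_re, add_im, ofReal_re, mul_re, mul_im, I_re, mul_zero, ofReal_im, I_im,
        mul_one, sub_self, add_zero, zero_add, el] <;> field_simp <;> ring
  continuous_toFun := by unfold el; fun_prop
  continuous_invFun := by fun_prop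

lemma H_re (a b c d : ℝ) (hs : a + b ≠ c + d) (z : ℂ) : (H a b c d hs z).re = el c d z := by
  simp [H]

lemma H_im (a b c d : ℝ) (hs : a + b ≠ c + d) (z : ℂ) : (H a b c d hs z).im = el a b z := by
  simp [H]

lemma el_mid (a b : ℝ) (z z' : ℂ) :
    el a b ((1 / 2 : ℝ) • z + (1 / 2 : ℝ) • z') = (el a b z + el a b z') / 2 := by
  simp [el]; ring

lemma int_cross {D : Set ℂ} (hD : Convex ℝ D) {a b c d : ℝ} (hs : a + b ≠ c + d)
    (h1 : arc 1 a b ⊆ D) (h2 : arc 1 c d ⊆ D) {z : ℂ} (k1 : z ∈ arc 1 a b) (k2 : z ∈ arc 1 c d)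
    (k3 : z.re ^ 2 < z.im) : z ∈ interior D := by
  set F := H a b c d hs
  have f0 : F z = 0 := Complex.ext (by rw [H_re, (mem_up.1 k2).1]; rfl)
    (by rw [H_im, (mem_up.1 k1).1]; rfl)
  have ho : {y : ℂ | y.re ^ 2 < y.im} ∈ nhds z :=
    (isOpen_lt (by fun_prop) (by fun_prop)).mem_nhds k3
  have key : ∀ g : ℂ → ℂ, Continuous g → g 0 = 0 →
      ∀ᶠ y in nhds z, (F.symm (g (F y))).re ^ 2 < (F.symm (g (F y))).im := by
    intro g hg g0
    have : ContinuousAt (fun y => F.symm (g (F y))) z := by fun_prop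
    refine this.eventually_mem (s := {y : ℂ | y.re ^ 2 < y.im}) ?_
    rwa [f0, g0, ← f0, F.symm_apply_apply]
  rw [mem_interior_iff_mem_nhds]
  filter_upwards [key (fun u => ((2 * u.re : ℝ) : ℂ)) (by fun_prop) (by simp),
    key (fun u => ((2 * u.im : ℝ) : ℂ) * I) (by fun_prop) (by simp)] with y y1 y2
  set p := F.symm ((2 * (F y).re : ℝ) : ℂ) with hp
  set q := F.symm (((2 * (F y).im : ℝ) : ℂ) * I) with hq
  have p1 : el a b p = 0 := by rw [← H_im a b c d hs, hp, F.apply_symm_apply]; simp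
  have p2 : el c d p = 2 * (F y).re := by rw [← H_re a b c d hs, hp, F.apply_symm_apply]; simp
  have q1 : el a b q = 2 * (F y).im := by rw [← H_im a b c d hs, hq, F.apply_symm_apply]; simp
  have q2 : el c d q = 0 := by rw [← H_re a b c d hs, hq, F.apply_symm_apply]; simp
  have : y = (1 / 2 : ℝ) • p + (1 / 2 : ℝ) • q := F.injective (Complex.ext
    (by rw [H_re a b c d hs (_ + _), el_mid, p2, q2]; ring)
    (by rw [H_im a b c d hs (_ + _), el_mid, p1, q1]; ring))
  rw [this]
  exact hD (h1 (mem_up.2 ⟨p1, y1.le⟩)) (h2 (mem_up.2 ⟨q2, y2.le⟩)) (by norm_num) (by norm_num)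
    (by norm_num)

lemma seg {a b : ℝ} {x y z : ℂ} (hx : el a b x = 0) (hy : el a b y = 0) (hz : el a b z = 0)
    {l : ℝ} (h : z.re = x.re + l * (y.re - x.re)) : z = (1 - l) • x + l • y := by
  unfold el at hx hy hz
  apply Complex.ext
  · simp [h]; ring
  · simp only [add_im, real_smul, mul_im, ofReal_re, ofReal_im, zero_mul, add_zero]
    linear_combination (1 - l) * hx + l * hy - hz + (a + b) * h

lemma up_sub {D : Set ℂ} (hD : Convex ℝ D) {a b : ℝ} (hab : a ≠ b) (ha : P a ∈ D) (hb : P b ∈ D) :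
    arc 1 a b ⊆ D := by
  intro z hz
  obtain ⟨l, l0, l1, e⟩ := par hab hz.1
  rw [seg (mem_up.1 (left_mem 1 a b)).1 (mem_up.1 (right_mem 1 a b)).1 (mem_up.1 hz).1 e]
  exact hD ha hb (by linarith) l0 (by ring)

lemma int_chord {D : Set ℂ} (hD : Convex ℝ D) {a b : ℝ} (ha : P a ∈ D) (hb : P b ∈ D) {x z : ℂ}
    (hx : x ∈ arc 1 a b) (hx' : x ∈ interior D) (hz : z ∈ arc 1 a b) (za : z ≠ P a)
    (zb : z ≠ P b) : z ∈ interior D := by
  have key : ∀ r : ℝ, P r ∈ D → el a b (P r) = 0 → z ≠ P r → 0 ≤ w r x.re z.re → r ≠ x.re →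
      z ∈ interior D := by
    intro r hr e hne hw hrx
    obtain ⟨l, l0, l1, e1⟩ := par hrx hw
    have e2 := seg e (mem_up.1 hx).1 (mem_up.1 hz).1 e1
    rcases l0.eq_or_lt with rfl | l0
    · exact absurd (by simpa using e2) hne
    · rw [e2, add_comm]
      exact hD.combo_interior_self_mem_interior hx' hr l0 (by linarith) (by ring)
  have ea := (mem_up.1 (left_mem 1 a b)).1
  have eb := (mem_up.1 (right_mem 1 a b)).1
  have h1 := hx.1
  have h2 := hz.1
  by_cases c1 : a = x.re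
  · by_cases c2 : b = x.re
    · refine absurd ?_ za
      have : z.re = a := by unfold w at h2; nlinarith [sq_nonneg (z.re - a)]
      exact Complex.ext this (by rw [hz.2, this]; simp [w, P])
    · exact key b hb eb zb (by rw [← c1, w_comm]; exact h2) c2
  by_cases c2 : b = x.re
  · exact key a ha ea za (by rw [← c2]; exact h2) c1
  by_cases c3 : 0 ≤ w a x.re z.re
  · exact key a ha ea za c3 c1
  refine key b hb eb zb ?_ c2
  unfold w at *
  push Not at c3
  by_contra c4
  push Not at c4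
  have := mul_pos_of_neg_of_neg c3 c4
  nlinarith [mul_nonneg h2 (sq_nonneg (x.re - z.re))]

lemma proper {D A B : Set ℂ} (hD : ∀ z ∈ D, z.re ^ 2 ≤ z.im) {a b c d : ℝ} (hs : a + b ≠ c + d)
    (hA : A ∩ D = arc 1 a b) (hB : B ∩ D = arc 1 c d) {z : ℂ} (k1 : z ∈ arc 1 a b)
    (k2 : z ∈ arc 1 c d) (hz : z ∈ interior D) : ProperCross A B z := by
  set F := H a b c d hs
  have f0 : F z = 0 := Complex.ext (by rw [H_re, (mem_up.1 k2).1]; rfl)
    (by rw [H_im, (mem_up.1 k1).1]; rfl)
  have f1 : F.symm 0 = z := by rw [← f0, F.symm_apply_apply]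
  refine ⟨F.symm.toOpenPartialHomeomorph.restrOpen (F.symm ⁻¹' interior D)
    (isOpen_interior.preimage F.symm.continuous), ⟨trivial, by rwa [mem_preimage, f1]⟩, f1,
    fun u hu => ?_⟩
  have h1 : F.symm u ∈ D := interior_subset hu.2
  have key : ∀ (A : Set ℂ) (a b : ℝ), A ∩ D = arc 1 a b →
      (F.symm u ∈ A ↔ el a b (F.symm u) = 0) := by
    intro A a b hA
    constructor
    · intro h
      exact (mem_up.1 (hA ▸ (⟨h, h1⟩ : F.symm u ∈ A ∩ D))).1
    · intro h
      have : F.symm u ∈ A ∩ D := hA ▸ mem_up.2 ⟨h, hD _ h1⟩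
      exact this.1
  change (F.symm u ∈ A ↔ _) ∧ (F.symm u ∈ B ↔ _)
  rw [key A a b hA, key B c d hB, ← H_im a b c d hs, ← H_re a b c d hs, F.apply_symm_apply]
  exact ⟨Iff.rfl, Iff.rfl⟩

/-- the convex hull of points of the parabola. -/
def hull (S : Set ℝ) : Set ℂ := convexHull ℝ (P '' S)

lemma el_lin (a b : ℝ) : IsLinearMap ℝ fun z : ℂ => (a + b) * z.re - z.im :=
  ⟨fun x y => by simp; ring, fun c x => by simp; ring⟩

lemma hull_neg {S : Set ℝ} {a b : ℝ} (h : ∀ s ∈ S, w a b s < 0) : ∀ z ∈ hull S, el a b z < 0 := by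
  intro z hz
  have : z ∈ {z : ℂ | (a + b) * z.re - z.im < a * b} :=
    convexHull_min (by
      rintro _ ⟨s, hs, rfl⟩
      have := h s hs
      rw [← el_P, el] at this
      simp only [mem_ofPred_eq]; linarith) (convex_halfSpace_lt (el_lin a b) _) hz
  simp only [mem_ofPred_eq, el] at this ⊢
  linarith

lemma hull_pos {S : Set ℝ} {a b : ℝ} (h : ∀ s ∈ S, 0 < w a b s) : ∀ z ∈ hull S, 0 < el a b z := by
  intro z hz
  have : z ∈ {z : ℂ | a * b < (a + b) * z.re - z.im} :=
    convexHull_min (by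
      rintro _ ⟨s, hs, rfl⟩
      have := h s hs
      rw [← el_P, el] at this
      simp only [mem_ofPred_eq]; linarith) (convex_halfSpace_gt (el_lin a b) _) hz
  simp only [mem_ofPred_eq, el] at this ⊢
  linarith

lemma hull_up (S : Set ℝ) : ∀ z ∈ hull S, z.re ^ 2 ≤ z.im := by
  intro z hz
  have : z ∈ {y : ℂ | (z.re + z.re) * y.re - y.im ≤ z.re * z.re} :=
    convexHull_min (by
      rintro _ ⟨s, -, rfl⟩
      simp only [mem_ofPred_eq, P]
      nlinarith [sq_nonneg (s - z.re)]) (convex_halfSpace_le (el_lin z.re z.re) _) hz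
  simp only [mem_ofPred_eq] at this
  linarith

lemma hull_P {S : Set ℝ} {r : ℝ} (h : P r ∈ hull S) : r ∈ S := by
  by_contra hr
  have := hull_neg (a := r) (b := r) (fun s hs => by
    have : s - r ≠ 0 := fun e => hr (sub_eq_zero.1 e ▸ hs)
    have : 0 < (s - r) ^ 2 := by positivity
    unfold w; linarith) _ h
  rw [el_P] at this
  simp [w] at this

lemma hull_off {S : Set ℝ} {a b : ℝ} (h : ∀ s ∈ S, ∀ s' ∈ S, 0 < w a b s * w a b s') {z : ℂ}
    (hz : z ∈ hull S) : z ∉ arc 1 a b := by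
  intro k
  have k0 := (mem_up.1 k).1
  by_cases c : ∀ s ∈ S, w a b s < 0
  · exact (hull_neg c z hz).ne k0
  · push Not at c
    obtain ⟨s, hs, c⟩ := c
    refine (hull_pos (fun s' hs' => ?_) z hz).ne' k0
    rcases mul_pos_iff.1 (h s hs s' hs') with ⟨_, q⟩ | ⟨q, _⟩
    · exact q
    · linarith

lemma hull_closed {S : Set ℝ} (h : S.Finite) : IsClosed (hull S) :=
  ((h.image P).isCompact_convexHull ℝ).isClosed

lemma hull_ball {S : Set ℝ} (h : S.Finite) (hne : (interior (hull S)).Nonempty) :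
    Nonempty (hull S ≃ₜ Metric.closedBall (0 : ℂ) 1) := by
  obtain ⟨f, -, e, -⟩ := exists_homeomorph_image_interior_closure_frontier_eq_unitBall
    (convex_convexHull ℝ (P '' S)) hne ((h.image P).isCompact_convexHull ℝ).isBounded
  rw [show closure (convexHull ℝ (P '' S)) = hull S from (hull_closed h).closure_eq] at e
  exact ⟨(f.image _).trans (Homeomorph.setCongr e)⟩

/-- no crossing of classes forces a positive product. -/
lemma nc_prod {β : Type} (C : ℝ → β → Prop) (hu : ∀ r N N', C r N → C r N' → N = N')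
    (hn : ∀ a b c d N N', a < b → b < c → c < d → C a N → C b N' → C c N → C d N' → N = N')
    {a b c d : ℝ} {N N' : β} (ha : C a N) (hb : C b N) (hc : C c N') (hd : C d N')
    (hne : N ≠ N') : 0 < w a b c * w a b d := by
  have key : ∀ a b c d, a ≤ b → c ≤ d → C a N → C b N → C c N' → C d N' →
      0 < w a b c * w a b d := by
    intro a b c d hab hcd ha hb hc hd
    have n1 : ∀ r s, C r N → C s N' → r < s ∨ s < r := fun r s hr hs =>
      lt_or_gt_of_ne fun e => hne (hu s N N' (e ▸ hr) hs)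
    have wp : ∀ t, a < t → t < b → 0 < w a b t := fun t h1 h2 =>
      mul_pos (sub_pos.2 h1) (sub_pos.2 h2)
    have w1 : ∀ t, t < a → w a b t < 0 := fun t h1 =>
      mul_neg_of_neg_of_pos (sub_neg.2 h1) (by linarith)
    have w2 : ∀ t, b < t → w a b t < 0 := fun t h1 =>
      mul_neg_of_pos_of_neg (by linarith) (sub_neg.2 h1)
    rcases n1 a c ha hc with h1 | h1
    · rcases n1 b c hb hc with h2 | h2
      · exact mul_pos_of_neg_of_neg (w2 c h2) (w2 d (by linarith))
      · rcases n1 b d hb hd with h3 | h3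
        · exact absurd (hn a c b d N N' h1 h2 h3 ha hc hb hd) hne
        · exact mul_pos (wp c h1 h2) (wp d (by linarith) h3)
    · rcases n1 a d ha hd with h2 | h2
      · rcases n1 b d hb hd with h3 | h3
        · exact mul_pos_of_neg_of_neg (w1 c h1) (w2 d h3)
        · exact absurd (hn c a d b N' N h1 h2 h3 hc ha hd hb).symm hne
      · exact mul_pos_of_neg_of_neg (w1 c h1) (w1 d h2)
  rcases le_total a b with h | h <;> rcases le_total c d with k | k
  · exact key a b c d h k ha hb hc hd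
  · rw [mul_comm]; exact key a b d c h k ha hb hd hc
  · rw [w_comm a b, w_comm a b]; exact key b a c d h k hb ha hc hd
  · rw [w_comm a b, w_comm a b, mul_comm]; exact key b a d c h k hb ha hd hc

/-- cyclic order of four reals. -/
def Cy (a b c d : ℝ) : Prop :=
  (a < b ∧ b < c ∧ c < d) ∨ (b < c ∧ c < d ∧ d < a) ∨ (c < d ∧ d < a ∧ a < b) ∨
    (d < a ∧ a < b ∧ b < c)

lemma Cy.alt {a b c d : ℝ} (h : Cy a b c d) : w a c b * w a c d < 0 := by
  unfold w
  rcases h with ⟨p, q, r⟩ | ⟨p, q, r⟩ | ⟨p, q, r⟩ | ⟨p, q, r⟩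
  · exact mul_neg_of_pos_of_neg (mul_pos (by linarith) (by linarith))
      (mul_neg_of_pos_of_neg (by linarith) (by linarith))
  · exact mul_neg_of_neg_of_pos (mul_neg_of_neg_of_pos (by linarith) (by linarith))
      (mul_pos_of_neg_of_neg (by linarith) (by linarith))
  · exact mul_neg_of_neg_of_pos (mul_neg_of_pos_of_neg (by linarith) (by linarith))
      (mul_pos_of_neg_of_neg (by linarith) (by linarith))
  · exact mul_neg_of_pos_of_neg (mul_pos (by linarith) (by linarith))
      (mul_neg_of_neg_of_pos (by linarith) (by linarith))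

lemma Cy.nalt {a b c d : ℝ} (h : Cy a b c d) : 0 < w a d b * w a d c := by
  unfold w
  rcases h with ⟨p, q, r⟩ | ⟨p, q, r⟩ | ⟨p, q, r⟩ | ⟨p, q, r⟩
  · exact mul_pos (mul_pos (by linarith) (by linarith)) (mul_pos (by linarith) (by linarith))
  · exact mul_pos_of_neg_of_neg (mul_neg_of_neg_of_pos (by linarith) (by linarith))
      (mul_neg_of_neg_of_pos (by linarith) (by linarith))
  · exact mul_pos_of_neg_of_neg (mul_neg_of_pos_of_neg (by linarith) (by linarith))
      (mul_neg_of_neg_of_pos (by linarith) (by linarith))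
  · exact mul_pos_of_neg_of_neg (mul_neg_of_pos_of_neg (by linarith) (by linarith))
      (mul_neg_of_pos_of_neg (by linarith) (by linarith))

section lists
variable {α : Type} [BEq α] [LawfulBEq α] {L : List α}

lemma pw_idx (hL : L.Nodup) : L.Pairwise fun x y => L.idxOf x < L.idxOf y := by
  rw [List.pairwise_iff_getElem]
  intro i j hi hj hij
  rwa [hL.idxOf_getElem, hL.idxOf_getElem]

lemma sub_idx (hL : L.Nodup) (l : List α) (hs : l ⊆ L)
    (hp : l.Pairwise fun x y => L.idxOf x < L.idxOf y) : l.Sublist L := by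
  have : Std.Antisymm fun x y : α => L.idxOf x < L.idxOf y := ⟨fun _ _ h h' => by omega⟩
  exact List.sublist_of_subperm_of_pairwise
    (List.subperm_of_subset (hp.imp fun h e => by rw [e] at h; omega) hs) hp (pw_idx hL)

lemma cy_of (hL : L.Nodup) {F R : List α} (hF : F.Sublist L) (hR : F ~r R) {a b c d : α}
    (h : [a, b, c, d].Sublist R) :
    Cy (L.idxOf a) (L.idxOf b) (L.idxOf c) (L.idxOf d) := by
  obtain ⟨n, hn, rfl⟩ := List.isRotated_iff_mod.1 hR
  rw [List.rotate_eq_drop_append_take hn, List.sublist_append_iff] at h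
  obtain ⟨s1, s2, e, h1, h2⟩ := h
  have h3 : (s2 ++ s1).Sublist L := by
    refine List.Sublist.trans ?_ hF
    conv_rhs => rw [← List.take_append_drop n F]
    exact h2.append h1
  have h4 := (pw_idx hL).sublist h3
  unfold Cy
  simp only [Nat.cast_lt]
  rcases s1 with _ | ⟨x1, _ | ⟨x2, _ | ⟨x3, _ | ⟨x4, s1⟩⟩⟩⟩ <;>
    simp only [List.nil_append, List.cons_append, List.cons.injEq] at e
  · subst e
    simp at h4; omega
  · obtain ⟨rfl, rfl⟩ := e
    simp at h4; omega
  · obtain ⟨rfl, rfl, rfl⟩ := e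
    simp at h4; omega
  · obtain ⟨rfl, rfl, rfl, rfl⟩ := e
    simp at h4; omega
  · obtain ⟨rfl, rfl, rfl, rfl, e⟩ := e
    obtain ⟨rfl, rfl⟩ := List.append_eq_nil_iff.1 e.symm
    simp at h4; omega

end lists

end B4

end Pool.Agent.Lib.MP_c1f5fe_lc
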