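import Pool.Agent.Lib.MP_c1f5fe_lc.B4a

/-! The pieces of the drawing attached to a planar order and their intersections. -/

namespace Pool.Agent.Lib.MP_c1f5fe_lc

open Set
open Pool.Agent.Lib.MP_50b5c6_lc.Np (NC)

namespace B4

variable {k : ℕ} {V : Type} {G : SimpleGraph V}

/-- the edge of a dart. -/
def ed (x : Sg V) : Sym2 V := s(x.1, x.2.1)

section darts
variable {lab : V → V → List (Lab k)}

@[simp] lemma ed_opp (x : Sg V) : ed (opp lab x) = ed x := Sym2.eq_swap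
@[simp] lemma ed_kap (x : Sg V) : ed (kap lab x) = ed x := Sym2.eq_swap

lemma opp_ne {x : Sg V} (h : IsSg G lab x) : opp lab x ≠ x := fun e =>
  h.1.ne' (congrArg Prod.fst e)

lemma kap_ne {x : Sg V} (h : IsSg G lab x) : kap lab x ≠ x := fun e =>
  h.1.ne' (congrArg Prod.fst e)

lemma kap_pos (x : Sg V) : (kap lab x).2.2 ≠ 0 := Nat.succ_ne_zero _

lemma node0 {x : Sg V} (h : x.2.2 = 0) : node lab x = .inl x.1 := if_pos h

lemma node1 {x : Sg V} (h : x.2.2 ≠ 0) : node lab x = .inr ((lb lab x).map Prod.fst) := if_neg h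

lemma node_inl {x : Sg V} {v : V} (h : node lab x = .inl v) : x.2.2 = 0 ∧ x.1 = v := by
  by_cases e : x.2.2 = 0
  · rw [node0 e] at h
    exact ⟨e, Sum.inl.inj h⟩
  · rw [node1 e] at h
    exact absurd h Sum.inr_ne_inl

lemma node_disc {x : Sg V} {i : Fin k} (h : node lab x = .inr (some i)) :
    x.2.2 ≠ 0 ∧ ∃ b, lb lab x = some (i, b) := by
  by_cases e : x.2.2 = 0
  · rw [node0 e] at h
    exact absurd h Sum.inl_ne_inr
  · rw [node1 e, Sum.inr.injEq, Option.map_eq_some_iff] at h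
    obtain ⟨⟨j, b⟩, h1, rfl⟩ := h
    exact ⟨e, b, h1⟩

lemma node_pos {x : Sg V} (h : IsSg G lab x) (e : x.2.2 ≠ 0) :
    ∃ i, node lab x = .inr (some i) := by
  have : x.2.2 - 1 < (lab x.1 x.2.1).length := by have := h.2; omega
  exact ⟨_, by rw [node1 e, lb, List.getElem?_eq_getElem this, Option.map_some]⟩

variable (ok : LabOK G lab)
include ok

lemma len_symm {u v : V} (h : G.Adj u v) : (lab v u).length = (lab u v).length := by
  rw [ok.rev u v h, List.length_reverse]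

lemma opp_sg {x : Sg V} (h : IsSg G lab x) : IsSg G lab (opp lab x) :=
  ⟨h.1.symm, by simp only [opp, len_symm ok h.1]; omega⟩

lemma opp_opp {x : Sg V} (h : IsSg G lab x) : opp lab (opp lab x) = x := by
  obtain ⟨u, v, j⟩ := x
  have := h.2
  simp only [opp, len_symm ok h.1, Prod.mk.injEq, true_and] at this ⊢
  omega

lemma kap_sg {x : Sg V} (h : IsSg G lab x) (e : x.2.2 ≠ 0) : IsSg G lab (kap lab x) :=
  ⟨h.1.symm, by have := h.2; simp only [kap, len_symm ok h.1]; omega⟩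

lemma kap_kap {x : Sg V} (h : IsSg G lab x) (e : x.2.2 ≠ 0) : kap lab (kap lab x) = x := by
  obtain ⟨u, v, j⟩ := x
  have := h.2
  simp only [kap, len_symm ok h.1, Prod.mk.injEq, true_and] at this e ⊢
  omega

lemma lb_kap {x : Sg V} (h : IsSg G lab x) (e : x.2.2 ≠ 0) : lb lab (kap lab x) = lb lab x := by
  have := h.2
  simp only [lb, kap, ok.rev _ _ h.1, Nat.add_sub_cancel]
  rw [List.getElem?_reverse (by omega)]
  congr 1
  omega

lemma node_kap {x : Sg V} (h : IsSg G lab x) (e : x.2.2 ≠ 0) :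
    node lab (kap lab x) = node lab x := by
  rw [node1 e, node1 (kap_pos x), lb_kap ok h e]

lemma same_disc {x y : Sg V} {i : Fin k} (hx : IsSg G lab x) (hy : IsSg G lab y)
    (e : ed x = ed y) (nx : node lab x = .inr (some i)) (ny : node lab y = .inr (some i)) :
    y = x ∨ y = kap lab x := by
  have key : ∀ x : Sg V, IsSg G lab x → node lab x = .inr (some i) → x.1 = y.1 →
      x.2.1 = y.2.1 → y = x := by
    rintro ⟨u, v, j⟩ hx nx rfl rfl
    obtain ⟨x0, b, x1⟩ := node_disc nx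
    obtain ⟨y0, b', y1⟩ := node_disc ny
    have hn := ok.idx _ _ hx.1
    have l1 := hx.2
    have : j - 1 = y.2.2 - 1 := by
      refine (List.getElem?_inj (by simp only [List.length_map] at *; omega) hn).1 ?_
      simp only [lb] at x1 y1
      rw [List.getElem?_map, List.getElem?_map, x1, y1]
      rfl
    refine Prod.ext rfl (Prod.ext rfl ?_)
    simp only at x0 ⊢
    omega
  rcases Sym2.eq_iff.1 e with ⟨a, b⟩ | ⟨a, b⟩
  · exact Or.inl (key x hx nx a b)
  · have x0 := (node_disc nx).1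
    exact Or.inr (key _ (kap_sg ok hx x0) (by rw [node_kap ok hx x0, nx]) b a)

lemma lb_mem {x : Sg V} {l : Lab k} (hx : IsSg G lab x) (h : lb lab x = some l) {u v : V}
    (e : ed x = s(u, v)) : G.Adj u v ∧ l ∈ lab u v := by
  have h1 : l ∈ lab x.1 x.2.1 := List.mem_of_getElem? h
  rcases Sym2.eq_iff.1 e with ⟨rfl, rfl⟩ | ⟨rfl, rfl⟩
  · exact ⟨hx.1, h1⟩
  · exact ⟨hx.1.symm, by rwa [ok.rev _ _ hx.1, List.mem_reverse]⟩

end darts

/-- the data of a planar order. -/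
structure Dt (k : ℕ) (G : SimpleGraph V) where
  lab : V → V → List (Lab k)
  L : List (Sg V)
  e : V → ℕ
  einj : Function.Injective e
  ok : LabOK G lab
  nd : L.Nodup
  mem : ∀ x, x ∈ L ↔ IsSg G lab x
  n1 : NC (node lab) L
  n2 : NC (fun x => s(x, opp lab x)) L
  rot : ∀ i, ∃ F A B : List (Sg V), F.Sublist L ∧
    (∀ x, x ∈ F ↔ x ∈ L ∧ node lab x = .inr (some i)) ∧ (∀ x ∈ A, lb lab x = some (i, false)) ∧
    (∀ x ∈ B, lb lab x = some (i, true)) ∧
    F ~r A ++ B ++ A.reverse.map (kap lab) ++ B.reverse.map (kap lab)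

lemma pair_sub {α : Type} {A : List α} {a a' : α} (h : a ∈ A) (h' : a' ∈ A) (e : a' ≠ a) :
    [a, a'].Sublist A ∨ [a', a].Sublist A := by
  obtain ⟨s, t, rfl⟩ := List.append_of_mem h
  rcases List.mem_append.1 h' with k | k
  · exact Or.inr ((List.singleton_sublist.2 k).append (l₁ := [a']) (r₁ := [a]) (by simp))
  · exact Or.inl (((List.singleton_sublist.2 ((List.mem_cons.1 k).resolve_left e)).cons_cons
      a).trans (List.sublist_append_right _ _))

namespace Dt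
variable [DecidableEq V] (T : Dt k G)

/-- the abscissa of a dart. -/
def c (x : Sg V) : ℝ := T.L.idxOf x

open Classical in
/-- the abscissa of a vertex. -/
noncomputable def p (v : V) : ℝ :=
  if h : ∃ x, IsSg G T.lab x ∧ node T.lab x = .inl v then T.c h.choose - 1 / 2 else -1 - T.e v

/-- the other end of the chord at a dart. -/
noncomputable def t (x : Sg V) : ℝ := if x.2.2 = 0 then T.p x.1 else T.c (kap T.lab x)

def up (x : Sg V) : Set ℂ := arc 1 (T.t x) (T.c x)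

def lo (x : Sg V) : Set ℂ := arc (-1) (T.c x) (T.c (opp T.lab x))

def curve (e : Sym2 V) : Set ℂ :=
  {z | ∃ x, IsSg G T.lab x ∧ ed x = e ∧ (z ∈ T.up x ∨ z ∈ T.lo x)}

def S (i : Fin k) : Set ℝ := {r | ∃ x, IsSg G T.lab x ∧ node T.lab x = .inr (some i) ∧ r = T.c x}

def D (i : Fin k) : Set ℂ := hull (T.S i)

def In (e : Sym2 V) (i : Fin k) (b : Bool) (z : ℂ) : Prop :=
  ∃ x, IsSg G T.lab x ∧ ed x = e ∧ node T.lab x = .inr (some i) ∧ lb T.lab x = some (i, b) ∧
    z ∈ T.up x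

def Cls (r : ℝ) (N : V ⊕ Option (Fin k)) : Prop :=
  (∃ x, IsSg G T.lab x ∧ node T.lab x = N ∧ r = T.c x) ∨ ∃ v, N = .inl v ∧ r = T.p v

variable {T}

lemma c_inj {x y : Sg V} (hx : IsSg G T.lab x) (h : T.c x = T.c y) : x = y :=
  (List.idxOf_inj ((T.mem x).2 hx)).1 (Nat.cast_injective (R := ℝ) h)

lemma c_nonneg (x : Sg V) : 0 ≤ T.c x := Nat.cast_nonneg _

lemma p_cases (v : V) : (∃ x, IsSg G T.lab x ∧ node T.lab x = .inl v ∧ T.p v = T.c x - 1 / 2) ∨
    ((¬ ∃ x, IsSg G T.lab x ∧ node T.lab x = .inl v) ∧ T.p v = -1 - T.e v) := by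
  by_cases h : ∃ x, IsSg G T.lab x ∧ node T.lab x = .inl v
  · exact Or.inl ⟨_, h.choose_spec.1, h.choose_spec.2, dif_pos h⟩
  · exact Or.inr ⟨h, dif_neg h⟩

lemma p_ne_c (v : V) (x : Sg V) : T.p v ≠ T.c x := by
  intro h
  rcases p_cases (T := T) v with ⟨y, -, -, e⟩ | ⟨-, e⟩
  · have : (2 * T.L.idxOf y : ℝ) = 2 * T.L.idxOf x + 1 := by
      unfold c at e h; linarith
    have : 2 * T.L.idxOf y = 2 * T.L.idxOf x + 1 := by exact_mod_cast this
    omega
  · have := c_nonneg (T := T) x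
    have : (0 : ℝ) ≤ T.e v := Nat.cast_nonneg _
    linarith

lemma p_inj : Function.Injective T.p := by
  intro v u h
  have h1 : (0 : ℝ) ≤ T.e v := Nat.cast_nonneg _
  have h2 : (0 : ℝ) ≤ T.e u := Nat.cast_nonneg _
  rcases p_cases (T := T) v with ⟨x, hx, nx, e⟩ | ⟨-, e⟩ <;>
    rcases p_cases (T := T) u with ⟨y, -, ny, e'⟩ | ⟨-, e'⟩
  · have : x = y := c_inj hx (by linarith)
    rw [this, ny] at nx
    exact (Sum.inl.inj nx).symm
  · linarith [c_nonneg (T := T) x]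
  · linarith [c_nonneg (T := T) y]
  · exact T.einj (Nat.cast_injective (R := ℝ) (by linarith))

lemma t0 {x : Sg V} (h : x.2.2 = 0) : T.t x = T.p x.1 := if_pos h

lemma t1 {x : Sg V} (h : x.2.2 ≠ 0) : T.t x = T.c (kap T.lab x) := if_neg h

lemma t_ne {x : Sg V} (hx : IsSg G T.lab x) : T.t x ≠ T.c x := by
  by_cases h : x.2.2 = 0
  · rw [t0 h]; exact p_ne_c _ _
  · rw [t1 h]; exact fun e => kap_ne hx (c_inj hx e.symm).symm

lemma c_ne {x : Sg V} (hx : IsSg G T.lab x) : T.c x ≠ T.c (opp T.lab x) := fun e =>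
  opp_ne hx (c_inj hx e).symm

lemma cls_c {x : Sg V} (hx : IsSg G T.lab x) : T.Cls (T.c x) (node T.lab x) :=
  Or.inl ⟨x, hx, rfl, rfl⟩

lemma cls_t {x : Sg V} (hx : IsSg G T.lab x) : T.Cls (T.t x) (node T.lab x) := by
  by_cases h : x.2.2 = 0
  · exact Or.inr ⟨_, node0 h, t0 h⟩
  · exact Or.inl ⟨_, kap_sg T.ok hx h, node_kap T.ok hx h, t1 h⟩

lemma nc_c {β : Type} {f : Sg V → β} (h : NC f T.L) {x y x' y' : Sg V} (hx : IsSg G T.lab x)
    (hy : IsSg G T.lab y) (hx' : IsSg G T.lab x') (hy' : IsSg G T.lab y') (h1 : T.c x < T.c y)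
    (h2 : T.c y < T.c x') (h3 : T.c x' < T.c y') (e1 : f x = f x') (e2 : f y = f y') :
    f x = f y := by
  unfold c at h1 h2 h3
  rw [Nat.cast_lt] at h1 h2 h3
  refine h x y x' y' (sub_idx T.nd _ (by simp [T.mem, *]) ?_) e1 e2
  simp
  omega

lemma cls_prod {a b c d : ℝ} {N N' : V ⊕ Option (Fin k)} (ha : T.Cls a N) (hb : T.Cls b N)
    (hc : T.Cls c N') (hd : T.Cls d N') (hne : N ≠ N') : 0 < w a b c * w a b d := by
  refine nc_prod T.Cls (fun r N N' h h' => ?_) (fun a b c d N N' h1 h2 h3 ha hb hc hd => ?_)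
    ha hb hc hd hne
  · rcases h with ⟨x, hx, rfl, rfl⟩ | ⟨v, rfl, rfl⟩ <;> rcases h' with ⟨y, -, rfl, e⟩ | ⟨u, rfl, e⟩
    · rw [c_inj hx e]
    · exact absurd e.symm (p_ne_c _ _)
    · exact absurd e (p_ne_c _ _)
    · rw [p_inj e]
  · by_contra hne
    have near : ∀ r s N, T.Cls r N → T.Cls s N → r ≠ s →
        ∃ x, IsSg G T.lab x ∧ node T.lab x = N ∧ T.c x - 1 / 2 ≤ r ∧ r ≤ T.c x := by
      rintro r s N (⟨x, hx, rfl, rfl⟩ | ⟨v, rfl, rfl⟩) hs hrs
      · exact ⟨x, hx, rfl, by linarith, le_rfl⟩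
      · rcases p_cases (T := T) v with ⟨x, hx, nx, e⟩ | ⟨hn, -⟩
        · exact ⟨x, hx, nx, e.ge, by linarith⟩
        · rcases hs with ⟨y, hy, ny, -⟩ | ⟨u, e, rfl⟩
          · exact absurd ⟨y, hy, ny⟩ hn
          · exact absurd (by rw [Sum.inl.inj e]) hrs
    have step : ∀ x y : Sg V, IsSg G T.lab x → node T.lab x ≠ node T.lab y →
        T.c x - 1 / 2 < T.c y → T.c x < T.c y := by
      intro x y hx hn h
      have h1 : T.L.idxOf x < T.L.idxOf y + 1 := by
        have : (T.L.idxOf x : ℝ) < T.L.idxOf y + 1 := by unfold Dt.c at h; linarith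
        exact_mod_cast this
      refine lt_of_le_of_ne (Nat.cast_le.2 (by omega)) fun e => hn (by rw [c_inj hx e])
    obtain ⟨x, hx, rfl, x1, x2⟩ := near a c N ha hc (by linarith)
    obtain ⟨y, hy, rfl, y1, y2⟩ := near b d N' hb hd (by linarith)
    obtain ⟨x', hx', nx, x3, x4⟩ := near c a _ hc ha (by linarith)
    obtain ⟨y', hy', ny, y3, y4⟩ := near d b _ hd hb (by linarith)
    exact hne (nc_c T.n1 hx hy hx' hy' (step x y hx hne (by linarith))
      (step y x' hy (by rw [nx]; exact Ne.symm hne) (by linarith))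
      (step x' y' hx' (by rw [nx, ny]; exact hne) (by linarith)) nx.symm ny.symm)

lemma uu {x y : Sg V} (hx : IsSg G T.lab x) (hy : IsSg G T.lab y) {z : ℂ} (h : z ∈ T.up x)
    (h' : z ∈ T.up y) : node T.lab x = node T.lab y := by
  by_contra hne
  exact (cls_prod (cls_t hx) (cls_c hx) (cls_t hy) (cls_c hy) hne).not_ge
    (meet one_ne_zero (t_ne hy) h h')

lemma ll {x y : Sg V} (hx : IsSg G T.lab x) (hy : IsSg G T.lab y) {z : ℂ} (h : z ∈ T.lo x)
    (h' : z ∈ T.lo y) : y = x ∨ y = opp T.lab x := by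
  by_contra hne
  have sw : ∀ x, IsSg G T.lab x →
      s(opp T.lab x, opp T.lab (opp T.lab x)) = s(x, opp T.lab x) := fun x hx => by
    rw [opp_opp T.ok hx, Sym2.eq_swap]
  refine (nc_prod (fun r N => ∃ x, IsSg G T.lab x ∧ s(x, opp T.lab x) = N ∧ r = T.c x) ?_ ?_
    ⟨x, hx, rfl, rfl⟩ ⟨_, opp_sg T.ok hx, sw x hx, rfl⟩ ⟨y, hy, rfl, rfl⟩
    ⟨_, opp_sg T.ok hy, sw y hy, rfl⟩ fun e => hne ?_).not_ge
    (meet (by norm_num) (c_ne hy) h h')
  · rintro r N N' ⟨x, hx, rfl, rfl⟩ ⟨y, -, rfl, e⟩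
    rw [c_inj hx e]
  · rintro a b c d N N' h1 h2 h3 ⟨x, hx, rfl, rfl⟩ ⟨y, hy, rfl, rfl⟩ ⟨x', hx', e1, rfl⟩
      ⟨y', hy', e2, rfl⟩
    exact nc_c T.n2 hx hy hx' hy' h1 h2 h3 e1.symm e2.symm
  · rcases Sym2.eq_iff.1 e with ⟨a, -⟩ | ⟨-, a⟩
    · exact Or.inl a.symm
    · exact Or.inr a.symm

lemma ul {x y : Sg V} (hx : IsSg G T.lab x) {z : ℂ} (h : z ∈ T.up x) (h' : z ∈ T.lo y) :
    ((x = y ∨ x = opp T.lab y) ∧ z = P (T.c x)) ∨ (x.2.2 ≠ 0 ∧
      (kap T.lab x = y ∨ kap T.lab x = opp T.lab y) ∧ z = P (T.c (kap T.lab x))) := by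
  have hz := up_lo h h'
  have key : ∀ x', IsSg G T.lab x' → z = P (T.c x') → x' = y ∨ x' = opp T.lab y := by
    intro x' hx' e
    rcases ends (by norm_num) h' hz with a | a
    · exact Or.inl (c_inj hx' (P_inj (e.symm.trans a)))
    · exact Or.inr (c_inj hx' (P_inj (e.symm.trans a)))
  rcases ends one_ne_zero h hz with e | e
  · by_cases x0 : x.2.2 = 0
    · rw [t0 x0] at e
      rcases ends (by norm_num) h' hz with a | a <;>
        exact absurd (P_inj (e.symm.trans a)) (p_ne_c _ _)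
    · rw [t1 x0] at e
      exact Or.inr ⟨x0, key _ (kap_sg T.ok hx x0) e, e⟩
  · exact Or.inl ⟨key x hx e, e⟩

lemma up_kap {x : Sg V} (hx : IsSg G T.lab x) (h : x.2.2 ≠ 0) : T.up (kap T.lab x) = T.up x := by
  rw [up, up, t1 h, t1 (kap_pos x), kap_kap T.ok hx h, arc_comm]

lemma lo_opp {x : Sg V} (hx : IsSg G T.lab x) : T.lo (opp T.lab x) = T.lo x := by
  rw [lo, lo, opp_opp T.ok hx, arc_comm]

variable (T) in
/-- the product that decides whether two chords cross. -/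
noncomputable def Q (x y : Sg V) : ℝ := w (T.t x) (T.c x) (T.t y) * w (T.t x) (T.c x) (T.c y)

lemma Q_comm (x y : Sg V) : T.Q x y = T.Q y x := w_swap _ _ _ _

lemma Q_kap {x : Sg V} (hx : IsSg G T.lab x) (h : x.2.2 ≠ 0) (y : Sg V) :
    T.Q (kap T.lab x) y = T.Q x y := by
  rw [Q, Q, t1 h, t1 (kap_pos x), kap_kap T.ok hx h, w_comm (T.c x), w_comm (T.c x)]

lemma disc_Q {x y : Sg V} {i : Fin k} {b b' : Bool} (hx : IsSg G T.lab x) (hy : IsSg G T.lab y)
    (nx : node T.lab x = .inr (some i)) (ny : node T.lab y = .inr (some i))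
    (lx : lb T.lab x = some (i, b)) (ly : lb T.lab y = some (i, b')) :
    (b ≠ b' → T.Q x y < 0) ∧ (b = b' → ed x ≠ ed y → 0 < T.Q x y) := by
  obtain ⟨F, A, B, hF, mF, hA, hB, hr⟩ := T.rot i
  let C : Bool → List (Sg V) := fun b => if b then B else A
  have hC : ∀ b, ∀ a ∈ C b, lb T.lab a = some (i, b) := by
    intro b; cases b
    · exact hA
    · exact hB
  have mC : ∀ b, ∀ a ∈ C b, IsSg G T.lab a ∧ a.2.2 ≠ 0 := by
    intro b a ha
    have : a ∈ F := hr.mem_iff.2 (by cases b <;> simp only [List.mem_append] <;> tauto)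
    exact ⟨(T.mem a).1 ((mF a).1 this).1, (node_disc ((mF a).1 this).2).1⟩
  have rep : ∀ x b, IsSg G T.lab x → node T.lab x = .inr (some i) → lb T.lab x = some (i, b) →
      ∃ a ∈ C b, ed a = ed x ∧ ∀ y, T.Q a y = T.Q x y := by
    intro x b hx nx lx
    have h1 := hr.mem_iff.1 ((mF x).2 ⟨(T.mem x).2 hx, nx⟩)
    have h2 : ∃ b', x ∈ C b' ∨ ∃ a ∈ C b', kap T.lab a = x := by
      simp only [List.mem_append, List.mem_map, List.mem_reverse] at h1
      rcases h1 with ((h | h) | h) | h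
      exacts [⟨false, Or.inl h⟩, ⟨true, Or.inl h⟩, ⟨false, Or.inr h⟩, ⟨true, Or.inr h⟩]
    obtain ⟨b', h | ⟨a, h, rfl⟩⟩ := h2
    · have := (hC b' x h).symm.trans lx
      simp only [Option.some.injEq, Prod.mk.injEq, true_and] at this
      exact ⟨x, this ▸ h, rfl, fun _ => rfl⟩
    · rw [lb_kap T.ok (mC b' a h).1 (mC b' a h).2] at lx
      have := (hC b' a h).symm.trans lx
      simp only [Option.some.injEq, Prod.mk.injEq, true_and] at this
      exact ⟨a, this ▸ h, (ed_kap a).symm, fun y => (Q_kap (mC b' a h).1 (mC b' a h).2 y).symm⟩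
  have Qeq : ∀ b b', ∀ a ∈ C b, ∀ a' ∈ C b', T.Q a a' =
      w (T.c a) (T.c (kap T.lab a)) (T.c a') *
        w (T.c a) (T.c (kap T.lab a)) (T.c (kap T.lab a')) := by
    intro b b' a ha a' ha'
    rw [Q, t1 (mC b a ha).2, t1 (mC b' a' ha').2, mul_comm, w_comm _ (T.c a), w_comm _ (T.c a)]
  have alt : ∀ a ∈ C false, ∀ a' ∈ C true, T.Q a a' < 0 := by
    intro a ha a' ha'
    rw [Qeq _ _ a ha a' ha']
    refine Cy.alt (cy_of T.nd hF hr ?_)
    have s1 := List.singleton_sublist.2 ha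
    have s2 := List.singleton_sublist.2 ha'
    exact ((s1.append s2).append (s1.reverse.map _)).append (s2.reverse.map _)
  have nalt : ∀ b, ∀ a ∈ C b, ∀ a' ∈ C b, [a, a'].Sublist (C b) → 0 < T.Q a a' := by
    intro b a ha a' ha' s
    rw [Qeq _ _ a ha a' ha']
    refine Cy.nalt (cy_of T.nd hF hr ?_)
    cases b
    · exact ((s.append (List.nil_sublist _)).append (s.reverse.map _)).append
        (List.nil_sublist _)
    · exact (((List.nil_sublist _).append s).append (List.nil_sublist _)).append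
        (s.reverse.map _)
  obtain ⟨a, ha, ea, qa⟩ := rep x b hx nx lx
  obtain ⟨a', ha', ea', qa'⟩ := rep y b' hy ny ly
  rw [← qa, Q_comm, ← qa', ← ea, ← ea']
  refine ⟨fun h => ?_, fun h h' => ?_⟩
  · cases b <;> cases b'
    · exact absurd rfl h
    · rw [Q_comm]; exact alt a ha a' ha'
    · exact alt a' ha' a ha
    · exact absurd rfl h
  · subst h
    rcases pair_sub ha ha' (fun e => h' (by rw [e])) with s | s
    · rw [Q_comm]; exact nalt b a ha a' ha' s
    · exact nalt b a' ha' a ha s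

lemma master {e f : Sym2 V} {z : ℂ} (he : z ∈ T.curve e) (hf : z ∈ T.curve f) (hne : e ≠ f) :
    (∃ v, v ∈ e ∧ v ∈ f ∧ z = P (T.p v)) ∨ ∃ i b, T.In e i b z ∧ T.In f i (!b) z := by
  obtain ⟨x, hx, rfl, zx⟩ := he
  obtain ⟨y, hy, rfl, zy⟩ := hf
  have mix : ∀ x y : Sg V, IsSg G T.lab x → z ∈ T.up x → z ∈ T.lo y → ed x = ed y := by
    intro x y hx a b
    rcases ul hx a b with ⟨h | h, -⟩ | ⟨-, h | h, -⟩ <;> simpa using congrArg ed h
  rcases zx with zx | zx <;> rcases zy with zy | zy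
  · have hn := uu hx hy zx zy
    by_cases x0 : x.2.2 = 0
    · rw [node0 x0] at hn
      obtain ⟨y0, e⟩ := node_inl hn.symm
      refine Or.inl ⟨x.1, Sym2.mem_mk_left _ _, e ▸ Sym2.mem_mk_left _ _, ?_⟩
      rw [up, t0 x0] at zx
      rw [up, t0 y0, e] at zy
      exact uniq one_ne_zero (fun h => hne (by rw [c_inj hx (add_left_cancel h)])) zx zy
        (left_mem _ _ _) (left_mem _ _ _)
    · obtain ⟨i, nx⟩ := node_pos hx x0
      have ny := hn.symm.trans nx
      obtain ⟨-, b, lx⟩ := node_disc nx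
      obtain ⟨-, b', ly⟩ := node_disc ny
      have hb : b' = !b := by
        by_contra h
        exact ((disc_Q hx hy nx ny lx ly).2 (by revert h; cases b <;> cases b' <;> simp)
          hne).not_ge (meet one_ne_zero (t_ne hy) zx zy)
      exact Or.inr ⟨i, b, ⟨x, hx, rfl, nx, lx, zx⟩, y, hy, rfl, ny, hb ▸ ly, zy⟩
  · exact absurd (mix x y hx zx zy) hne
  · exact absurd (mix y x hy zy zx).symm hne
  · rcases ll hx hy zx zy with h | h <;> exact absurd (by simp [h]) hne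

end Dt

end B4

end Pool.Agent.Lib.MP_c1f5fe_lc
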