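import Pool.Agent.Lib.MP_c1f5fe_lc.SpecB

/-! Few balls carry even sets of corners that are not boundaries. -/

namespace Pool.Agent.Lib.MP_c1f5fe_lc

open Equiv Function Relation

namespace Ball

abbrev F := ZMod 2

variable {D : Type} (M : HMap D)

lemma rv_eq {d e : D} : M.rv d = M.rv e ↔ M.σ.SameCycle d e := by
  simp only [HMap.rv, Sum.inl.injEq, Quotient.eq]; rfl

lemma rf_eq {d e : D} : M.rf d = M.rf e ↔ M.φ.SameCycle d e := by
  simp only [HMap.rf, Sum.inr.injEq, Quotient.eq]; rfl

lemma rv_ne (d e : D) : M.rv d ≠ M.rf e := by simp [HMap.rv, HMap.rf]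

lemma rf_φ (d : D) : M.rf (M.φ d) = M.rf d :=
  (rf_eq M).2 (Perm.sameCycle_apply_left.2 (Perm.SameCycle.refl _ _))

lemma rv_σ (d : D) : M.rv (M.σ d) = M.rv d :=
  (rv_eq M).2 (Perm.sameCycle_apply_left.2 (Perm.SameCycle.refl _ _))

lemma rv_φ (d : D) : M.rv (M.φ d) = M.rv (M.α d) := by
  rw [← rv_σ M (M.α d), M.σ_apply, M.αα]

/-- the corner `d` is at the node `u` -/
def Inc (u : M.Node) (d : D) : Prop := M.rv d = u ∨ M.rf d = u

lemma adj (d : D) : M.rg.Adj (M.rv d) (M.rf d) := by
  rw [HMap.rg, SimpleGraph.fromRel_adj]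
  exact ⟨rv_ne M d d, .inl ⟨d, rfl, rfl⟩⟩

lemma adj_ex {a b : M.Node} (h : M.rg.Adj a b) :
    ∃ d, (M.rv d = a ∧ M.rf d = b) ∨ (M.rv d = b ∧ M.rf d = a) := by
  rw [HMap.rg, SimpleGraph.fromRel_adj] at h
  rcases h.2 with ⟨d, h1, h2⟩ | ⟨d, h1, h2⟩
  · exact ⟨d, .inl ⟨h1.symm, h2.symm⟩⟩
  · exact ⟨d, .inr ⟨h1.symm, h2.symm⟩⟩

lemma inc_ex (u : M.Node) : ∃ d, Inc M u d := by
  rcases u with u | u <;> obtain ⟨d, rfl⟩ := Quotient.exists_rep u
  · exact ⟨d, .inl rfl⟩
  · exact ⟨d, .inr rfl⟩

lemma reach (h : M.Con) (a b : M.Node) : M.rg.Reachable a b := by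
  have k : ∀ d e, Conn M.φ M.α d e → M.rg.Reachable (M.rf d) (M.rf e) := by
    intro d e c
    induction c with
    | rel x y r =>
      rcases r with rfl | rfl
      · rw [rf_φ]
      · rw [← rf_φ M x]
        exact (adj M _).symm.reachable.trans (by rw [rv_φ]; exact (adj M _).reachable)
    | refl => rfl
    | symm _ _ _ i => exact i.symm
    | trans _ _ _ _ _ i j => exact i.trans j
  have l : ∀ u d, Inc M u d → M.rg.Reachable u (M.rf d) := by
    rintro u d (rfl | rfl)
    · exact (adj M d).reachable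
    · rfl
  obtain ⟨d, hd⟩ := inc_ex M a
  obtain ⟨e, he⟩ := inc_ex M b
  exact (l a d hd).trans ((k d e (h d e)).trans (l b e he).symm)

/-- `π` is a colouring of the edges whose set of changes is `y` -/
def Co (y π : D → F) : Prop := (∀ d, π (M.α d) = π d) ∧ ∀ d, y (M.φ d) = π d + π (M.φ d)

lemma Co.add {y y' π π' : D → F} (h : Co M y π) (h' : Co M y' π') : Co M (y + y') (π + π') :=
  ⟨fun d => by simp [h.1, h'.1], fun d => by simp only [Pi.add_apply, h.2, h'.2]; ring⟩

lemma f2 (a : F) : a + a = 0 := by revert a; decide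

lemma f_eq {a b : F} (h : a + b = 0) : a = b := by revert a b; decide

lemma f_one {a : F} : a ≠ 0 ↔ a = 1 := by revert a; decide

noncomputable def sz (y : D → F) : ℕ := (support y).ncard

/-- the corners at nodes near `x` -/
def Nr (x : M.Node) (ρ : ℕ) (d : D) : Prop :=
  M.rg.dist x (M.rv d) ≤ ρ ∨ M.rg.dist x (M.rf d) ≤ ρ

variable [Fintype D]

lemma sz_add (y z : D → F) : sz (y + z) ≤ sz y + sz z :=
  (Set.ncard_le_ncard (support_add y z) (Set.toFinite _)).trans (Set.ncard_union_le _ _)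

open Classical in
lemma sz_single (d : D) : sz (Pi.single d (1 : F) : D → F) ≤ 1 :=
  (Set.ncard_le_ncard Pi.support_single_subset (Set.toFinite _)).trans (by simp)

lemma sz_sum (s : Finset D) (f : D → D → F) (c : ℕ) (h : ∀ d ∈ s, sz (f d) ≤ c) :
    sz (∑ d ∈ s, f d) ≤ c * s.card := by
  classical
  induction s using Finset.induction_on with
  | empty => simp [sz]
  | insert a s ha i =>
    rw [Finset.sum_insert ha, Finset.card_insert_of_notMem ha, mul_add, mul_one, add_comm (c * _)]
    exact (sz_add _ _).trans (add_le_add (h a (by simp)) (i fun d hd => h d (by simp [hd])))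

lemma const_node {y π : D → F} (h : Co M y π) {u : M.Node} (hy : ∀ d, Inc M u d → y d = 0)
    {d e : D} (hd : Inc M u d) (he : Inc M u e) : π d = π e := by
  rcases hd with rfl | rfl <;> rcases he with he | he
  · obtain ⟨n, rfl⟩ := ((rv_eq M).1 he.symm).exists_nat_pow_eq
    clear he
    induction n with
    | zero => rfl
    | succ n i =>
      have := hy ((M.σ ^ (n + 1)) d) (.inl ((rv_eq M).2 (Perm.sameCycle_pow_left.2 .rfl)))
      rw [pow_succ', Perm.mul_apply, M.σ_apply] at this ⊢
      rw [h.2, h.1] at this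
      rw [i, f_eq this]
  · exact absurd he.symm (rv_ne M _ _)
  · exact absurd he (rv_ne M _ _)
  · obtain ⟨n, rfl⟩ := ((rf_eq M).1 he.symm).exists_nat_pow_eq
    clear he
    induction n with
    | zero => rfl
    | succ n i =>
      have := hy ((M.φ ^ (n + 1)) d) (.inr ((rf_eq M).2 (Perm.sameCycle_pow_left.2 .rfl)))
      rw [pow_succ', Perm.mul_apply] at this ⊢
      rw [h.2] at this
      rw [i, f_eq this]

lemma const (hM : M.Con) {y π : D → F} (h : Co M y π) {x : M.Node} {ρ : ℕ}
    (hy : ∀ d, Nr M x ρ d → y d = 0) {d e : D} (hd : Nr M x ρ d) (he : Nr M x ρ e) :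
    π d = π e := by
  have k : ∀ u, M.rg.dist x u ≤ ρ → ∀ d, Inc M u d → y d = 0 := by
    rintro u hu d (rfl | rfl)
    · exact hy d (.inl hu)
    · exact hy d (.inr hu)
  obtain ⟨o, ho⟩ := inc_ex M x
  have w : ∀ (n x' : M.Node) (p : M.rg.Walk n x'), x' = x → p.length ≤ ρ → ∀ d, Inc M n d →
      π d = π o := by
    intro n x' p
    induction p with
    | nil => rintro rfl - d hd; exact const_node M h (k _ (by simp)) hd ho
    | @cons a b c r q i =>
      rintro rfl l d hd
      have da : M.rg.dist c a ≤ ρ := by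
        rw [SimpleGraph.dist_comm]; exact (SimpleGraph.dist_le (.cons r q)).trans l
      obtain ⟨t, ht⟩ := adj_ex M r
      rw [const_node M h (k a da) hd (e := t) (ht.imp And.left And.right)]
      exact i rfl (by simp at l; omega) t (ht.symm.imp And.left And.right)
  have z : ∀ d, Nr M x ρ d → π d = π o := by
    rintro d (hd | hd)
    · obtain ⟨p, hp⟩ := (reach M hM (M.rv d) x).exists_walk_length_eq_dist
      exact w _ _ p rfl (by rw [hp, SimpleGraph.dist_comm]; exact hd) d (.inl rfl)
    · obtain ⟨p, hp⟩ := (reach M hM (M.rf d) x).exists_walk_length_eq_dist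
      exact w _ _ p rfl (by rw [hp, SimpleGraph.dist_comm]; exact hd) d (.inr rfl)
  rw [z d hd, z e he]

open Classical in
/-- the boundary of a set of corners in the radial graph -/
noncomputable def bd (y : D → F) (u : M.Node) : F :=
  ∑ d, y d * ((if M.rv d = u then 1 else 0) + if M.rf d = u then 1 else 0)

lemma bd_add (y z : D → F) (u : M.Node) : bd M (y + z) u = bd M y u + bd M z u := by
  simp [bd, add_mul, Finset.sum_add_distrib]

open Classical in
lemma bd_single (d : D) (u : M.Node) : bd M (Pi.single d 1) u =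
    (if M.rv d = u then 1 else 0) + if M.rf d = u then 1 else 0 := by
  rw [bd, Finset.sum_eq_single d] <;> simp +contextual

open Classical in
lemma path_walk {n x : M.Node} (p : M.rg.Walk n x) : ∃ P : D → F, sz P ≤ p.length ∧
    (∀ d, P d ≠ 0 → M.ball x p.length d) ∧
    ∀ u, bd M P u = (if n = u then 1 else 0) + if x = u then 1 else 0 := by
  induction p with
  | nil => exact ⟨0, by simp [sz], by simp, fun u => by rw [f2]; simp [bd]⟩
  | @cons a b c r q i =>
    obtain ⟨P, h1, h2, h3⟩ := i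
    obtain ⟨t, ht⟩ := adj_ex M r
    have da : M.rg.dist c a ≤ q.length + 1 := by
      rw [SimpleGraph.dist_comm]; exact SimpleGraph.dist_le (.cons r q)
    have db : M.rg.dist c b ≤ q.length + 1 := by
      rw [SimpleGraph.dist_comm]; exact (SimpleGraph.dist_le q).trans (by omega)
    refine ⟨P + Pi.single t 1, (sz_add _ _).trans (add_le_add h1 (sz_single t)), fun d hd => ?_,
      fun u => ?_⟩
    · by_cases e : d = t
      · subst e
        rcases ht with ⟨h, h'⟩ | ⟨h, h'⟩ <;> rw [HMap.ball, h, h'] <;> exact ⟨‹_›, ‹_›⟩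
      · have := h2 d (by simpa [e] using hd)
        exact ⟨this.1.trans (by simp), this.2.trans (by simp)⟩
    · rw [bd_add, bd_single, h3]
      rcases ht with ⟨h, h'⟩ | ⟨h, h'⟩ <;> rw [h, h'] <;>
        linear_combination f2 (if b = u then 1 else 0)

open Classical in
lemma path (hM : M.Con) (x n : M.Node) : ∃ P : D → F, sz P ≤ M.rg.dist x n ∧
    (∀ d, P d ≠ 0 → M.ball x (M.rg.dist x n) d) ∧
    ∀ u, bd M P u = (if n = u then 1 else 0) + if x = u then 1 else 0 := by
  obtain ⟨p, hp⟩ := (reach M hM n x).exists_walk_length_eq_dist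
  rw [SimpleGraph.dist_comm, ← hp]
  exact path_walk M p

open Classical in
lemma ev_iff (a : Perm D) (y : D → F) : Ev a (fun e => y e = 1) ↔
    ∀ d, ∑ e, y e * (if a.SameCycle e d then 1 else 0) = 0 := by
  refine forall_congr' fun d => ?_
  rw [← ZMod.natCast_eq_zero_iff_even, Nat.card_eq_fintype_card, Fintype.card_subtype,
    Finset.card_filter]
  push_cast
  refine Eq.congr (Finset.sum_congr rfl fun e _ => ?_) rfl
  by_cases h : a.SameCycle d e
  · rcases (by decide : ∀ a : F, a = 0 ∨ a = 1) (y e) with k | k <;> simp [h, h.symm, k]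
  · have : ¬a.SameCycle e d := fun k => h k.symm
    simp [h, this]

lemma bd_iff (y : D → F) :
    (∀ u, bd M y u = 0) ↔ Ev M.σ (fun e => y e = 1) ∧ Ev M.φ fun e => y e = 1 := by
  classical
  have e1 : ∀ d, bd M y (M.rv d) = ∑ e, y e * (if M.σ.SameCycle e d then 1 else 0) := fun d => by
    simp only [bd, rv_eq, (rv_ne M d _).symm, if_false, add_zero]
  have e2 : ∀ d, bd M y (M.rf d) = ∑ e, y e * (if M.φ.SameCycle e d then 1 else 0) := fun d => by
    simp only [bd, rf_eq, rv_ne M _ d, if_false, zero_add]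
  rw [ev_iff, ev_iff]
  refine ⟨fun h => ⟨fun d => ?_, fun d => ?_⟩, fun h u => ?_⟩
  · convert h (M.rv d) using 1; convert (e1 d).symm
  · convert h (M.rf d) using 1; convert (e2 d).symm
  · obtain ⟨d, rfl | rfl⟩ := inc_ex M u
    · rw [e1]; convert h.1 d
    · rw [e2]; convert h.2 d

lemma small {θ c : ℕ} (hT : M.Tg θ c) {y π : D → F} (h : Co M y π) (hy : sz y ≤ θ) :
    ∃ π, Co M y π ∧ sz π ≤ c := by
  have k : ∀ a b : F, ¬(a = 1 ↔ b = 1) ↔ a + b ≠ 0 := by decide
  have := hT (fun d => π d = 1) (fun d => by rw [h.1]) (le_trans (le_of_eq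
    (Nat.card_congr (M.φ.subtypeEquiv fun d => by rw [k, ← h.2]; rfl))) hy)
  rcases this with t | t
  · exact ⟨π, h, le_trans (le_of_eq (Nat.card_congr (Equiv.subtypeEquivRight fun d => f_one))) t⟩
  · refine ⟨π + 1, ⟨fun d => by simp [h.1], fun d => ?_⟩, le_trans (le_of_eq (Nat.card_congr
      (Equiv.subtypeEquivRight fun d => ?_))) t⟩
    · simp only [Pi.add_apply, Pi.one_apply, h.2]; linear_combination -f2 1
    · show π d + 1 ≠ 0 ↔ ¬π d = 1
      generalize π d = a; revert a; decide

lemma bad (hM : M.Con) {θ c ρ b : ℕ} (hT : M.Tg θ c) (hθ : 2 * ρ + 1 ≤ θ) (x : M.Node)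
    (hb : Nat.card {d // M.ball x ρ d} ≤ b) (h : ¬M.GB x ρ (c * b)) :
    ∃ (d : D) (y : D → F), M.ball x ρ d ∧ sz y ≤ 2 * ρ + 1 ∧ (∀ e, y e ≠ 0 → M.ball x ρ e) ∧
      (∀ u, bd M y u = 0) ∧ ∀ π, ¬Co M y π := by
  classical
  choose P h1 h2 h3 using path M hM x
  by_contra hc
  apply h
  have k : ∀ d, ∃ π, M.ball x ρ d →
      Co M (Pi.single d 1 + (P (M.rv d) + P (M.rf d))) π ∧ sz π ≤ c := by
    intro d
    by_cases hd : M.ball x ρ d
    swap
    · exact ⟨0, fun h => absurd h hd⟩
    have s : sz (Pi.single d 1 + (P (M.rv d) + P (M.rf d)) : D → F) ≤ 2 * ρ + 1 := by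
      have := sz_add (Pi.single d 1) (P (M.rv d) + P (M.rf d))
      have := sz_add (P (M.rv d)) (P (M.rf d))
      have := sz_single d
      have := h1 (M.rv d)
      have := h1 (M.rf d)
      have := hd.1
      have := hd.2
      omega
    by_contra hn
    refine hc ⟨d, _, hd, s, fun e he => ?_, fun u => ?_, fun π hπ => ?_⟩
    · by_cases e1 : e = d
      · exact e1 ▸ hd
      by_cases e2 : P (M.rv d) e = 0
      · have := h2 (M.rf d) e (by simpa [e1, e2] using he)
        exact ⟨this.1.trans hd.2, this.2.trans hd.2⟩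
      · have := h2 _ e e2
        exact ⟨this.1.trans hd.1, this.2.trans hd.1⟩
    · rw [bd_add, bd_add, h3, h3]
      have := bd_single M d u
      linear_combination this + f2 (if M.rv d = u then 1 else 0) +
        f2 (if M.rf d = u then 1 else 0) + f2 (if x = u then 1 else 0)
    · obtain ⟨π', h'⟩ := small M hT hπ (s.trans hθ)
      exact hn ⟨π', fun _ => h'⟩
  choose π hπ using k
  intro Y hY e1 e2
  let s : Finset D := Finset.univ.filter Y
  let y : D → F := fun d => if Y d then 1 else 0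
  have ey : (fun e => y e = 1) = Y := by funext e; simp [y]
  have b0 := (bd_iff M y).2 (by rw [ey]; exact ⟨e1, e2⟩)
  have := Fintype.ofFinite M.Node
  have z : ∀ e, ∑ d ∈ s, (P (M.rv d) e + P (M.rf d) e) = 0 := by
    intro e
    have : ∑ u, bd M y u * P u e = 0 := by simp [b0]
    rw [← this]
    simp only [bd, Finset.sum_mul]
    rw [Finset.sum_comm, Finset.sum_filter]
    refine Finset.sum_congr rfl fun d _ => ?_
    by_cases hd : Y d <;> simp [y, hd, add_mul, Finset.sum_add_distrib]
  have m : ∀ d ∈ s, M.ball x ρ d := fun d hd => hY d (by simpa [s] using hd)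
  refine ⟨fun e => (∑ d ∈ s, π d) e = 1, fun e => ?_, fun e => ?_, ?_⟩
  · simp only [Finset.sum_apply]
    rw [Finset.sum_congr rfl fun d hd => (hπ d (m d hd)).1.1 e]
  · have k : ∀ a b : F, ¬(a = 1 ↔ b = 1) ↔ a + b = 1 := by decide
    rw [k]
    simp only [Finset.sum_apply]
    rw [← Finset.sum_add_distrib, ← Finset.sum_congr rfl fun d hd => (hπ d (m d hd)).1.2 e]
    simp only [Pi.add_apply]
    rw [Finset.sum_add_distrib, z]
    by_cases h : Y (M.φ e) <;> simp [Pi.single_apply, s, h]
  · refine le_trans (le_of_eq (Nat.card_congr (Equiv.subtypeEquivRight fun d => f_one.symm)))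
      ((sz_sum s π c fun d hd => (hπ d (m d hd)).2).trans (Nat.mul_le_mul_left _ (le_trans ?_ hb)))
    rw [Nat.card_eq_fintype_card, Fintype.card_subtype]
    exact Finset.card_le_card fun d hd => by simpa using m d hd

lemma tour {I : Type} [DecidableEq I] (J : Finset I) (A : I → I → Prop) [DecidableRel A] (c : ℕ)
    (h : ∀ i ∈ J, ∀ j ∈ J, i ≠ j → A i j ∨ A j i) (hc : ∀ j ∈ J, (J.filter (A j)).card ≤ c) :
    J.card ≤ 2 * c + 1 := by
  have e : ∑ j ∈ J, ∑ i ∈ J, (if A j i then 1 else 0) ≤ J.card * c := by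
    rw [← smul_eq_mul, ← Finset.sum_const]
    exact Finset.sum_le_sum fun j hj => by rw [← Finset.card_filter]; exact hc j hj
  have : ∑ j ∈ J, ∑ _i ∈ J, 1 ≤ ∑ j ∈ J, ∑ i ∈ J,
      ((if j = i then 1 else 0) + ((if A j i then 1 else 0) + if A i j then 1 else 0)) := by
    refine Finset.sum_le_sum fun j hj => Finset.sum_le_sum fun i hi => ?_
    by_cases k : j = i
    · simp [k]
    · rcases h j hj i hi k with t | t <;> simp only [t, if_true] <;> omega
  simp only [Finset.sum_add_distrib] at this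
  rw [Finset.sum_comm (f := fun j i => if A i j then 1 else 0)] at this
  have o : ∑ j ∈ J, ∑ i ∈ J, (if j = i then 1 else 0) = J.card := by
    rw [Finset.card_eq_sum_ones]
    exact Finset.sum_congr rfl fun j hj => by simp [hj]
  simp only [Finset.sum_const, smul_eq_mul, mul_one] at this
  by_contra l
  nlinarith

end Ball

open Ball in
theorem ball (_ : K1) (h4 : K4) : BallSt := by
  intro D _ M g θ c ρ b p x hM hg hT hθ _ hx hb hG
  classical
  have := Fintype.ofFinite D
  choose d y h1 h2 h3 h5 h6 using fun i => bad M hM hT (by omega) (x i) (hb i) (hG i)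
  have con : M.rg.Preconnected := reach M hM
  have far : ∀ i j, i ≠ j → ∀ e, Nr M (x i) ρ e → ¬M.ball (x j) ρ e := by
    intro i j ne e he hj
    have cc : M.rg.Connected := @SimpleGraph.Connected.mk _ _ con ⟨x i⟩
    have := hx i j ne
    rcases he with he | he
    · have t := cc.dist_triangle (u := x i) (v := M.rv e) (w := x j)
      have := hj.1
      rw [SimpleGraph.dist_comm] at this
      omega
    · have t := cc.dist_triangle (u := x i) (v := M.rf e) (w := x j)
      have := hj.2
      rw [SimpleGraph.dist_comm] at this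
      omega
  have zero : ∀ i j, i ≠ j → ∀ e, Nr M (x i) ρ e → y j e = 0 := fun i j ne e he =>
    by_contra fun k => far i j ne e he (h3 j e k)
  have yy : ∀ i, y i + y i = 0 := fun i => funext fun e => f2 _
  let r : Setoid (Fin p) := ⟨fun i j => ∃ π, Co M (y i + y j) π,
    fun i => ⟨0, by rw [yy]; exact ⟨fun _ => rfl, fun _ => by simp⟩⟩,
    fun ⟨π, h⟩ => ⟨π, by rwa [add_comm]⟩,
    fun {i j k} ⟨π, h⟩ ⟨π', h'⟩ => ⟨π + π', by
      have := h.add M h'
      rwa [add_assoc, ← add_assoc (y j), yy, zero_add] at this⟩⟩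
  have q : Fintype.card (Quotient r) ≤ 2 ^ g := by
    by_contra l
    let E := (Fintype.equivFin (Quotient r)).symm
    obtain ⟨i, j, ne, π, p1, p2⟩ := h4.rad M _ (fun i e => y (E i).out e = 1)
      (fun i => (bd_iff M _).1 (h5 _))
      (lt_of_le_of_lt (Nat.pow_le_pow_right two_pos (by omega)) (not_le.1 l))
    refine ne (E.injective ?_)
    rw [← (E i).out_eq, ← (E j).out_eq]
    refine Quotient.sound ⟨fun e => if π e then 1 else 0, fun e => by simp only [p1], fun e => ?_⟩
    have k := p2 e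
    have : ∀ a b : F, ¬(a = 1 ↔ b = 1) ↔ a + b = 1 := by decide
    rw [this] at k
    have t : ∀ a : F, ¬a = 1 → a = 0 := by decide
    by_cases a : π e <;> by_cases b : π (M.φ e) <;> simp only [a, b, if_true, if_false] <;>
      simp only [a, b] at k
    · exact (t _ (by simpa using k)).trans (by decide)
    · exact (k.2 (by simp)).trans (by decide)
    · exact (k.2 (by simp)).trans (by decide)
    · exact (t _ (by simpa using k)).trans (by decide)
  by_contra l
  obtain ⟨cl, hcl⟩ := Fintype.exists_lt_card_fiber_of_mul_lt_card (n := 4 * c + 8)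
    (Quotient.mk r) (by
      rw [Fintype.card_fin]
      exact lt_of_le_of_lt (Nat.mul_le_mul_right _ q) (not_le.1 l))
  obtain ⟨o, ho⟩ := Finset.card_pos.1 (lt_of_le_of_lt (Nat.zero_le _) hcl)
  set C := Finset.univ.filter fun i => Quotient.mk r i = cl with hC
  have k : ∀ j, ∃ π, j ∈ C → Co M (y o + y j) π ∧ sz π ≤ c := by
    intro j
    by_cases hj : j ∈ C
    · obtain ⟨π, h⟩ : r o j := Quotient.exact
        ((Finset.mem_filter.1 ho).2.trans (Finset.mem_filter.1 hj).2.symm)
      obtain ⟨π', h'⟩ := small M hT h ((sz_add _ _).trans (by have := h2 o; have := h2 j; omega))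
      exact ⟨π', fun _ => h'⟩
    · exact ⟨0, fun h => absurd h hj⟩
  choose π hπ using k
  obtain ⟨v, -, hv⟩ := Finset.exists_lt_card_fiber_of_mul_lt_card_of_maps_to (s := C.erase o)
    (t := Finset.univ) (f := fun j => π j (d o)) (n := 2 * c + 3) (fun _ _ => Finset.mem_univ _)
    (by rw [Finset.card_erase_of_mem ho, Finset.card_univ, ZMod.card]; omega)
  set J := (C.erase o).filter fun j => π j (d o) = v with hJ
  have mJ : ∀ j ∈ J, j ≠ o ∧ j ∈ C ∧ π j (d o) = v := fun j hj => by
    simpa only [hJ, Finset.mem_filter, Finset.mem_erase, and_assoc] using hj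
  have nr : ∀ i, Nr M (x i) ρ (d i) := fun i => .inl (h1 i).1
  have back : ∀ i e, Nr M (x i) ρ (M.φ e) → Nr M (x i) ρ e ∨ Nr M (x i) ρ (M.α e) := by
    rintro i e (h | h)
    · exact .inr (.inl (by rwa [← rv_φ]))
    · exact .inl (.inr (by rwa [← rf_φ]))
  have := tour J (fun j i => π j (d i) ≠ 0) c (fun i hi j hj ne => ?_) (fun j hj => ?_)
  · omega
  · by_contra t
    simp only [not_or, not_not] at t
    obtain ⟨io, iC, iv⟩ := mJ i hi
    obtain ⟨jo, jC, jv⟩ := mJ j hj
    have ci := (hπ i iC).1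
    have cj := (hπ j jC).1
    have two : ∀ (f : D → F) k, (∀ e, f (M.α e) = f e) → (∀ e, Nr M (x k) ρ e → f e = 0) →
        ∀ e, Nr M (x k) ρ (M.φ e) → f e = 0 := fun f k a z e he =>
      (back k e he).elim (z e) fun h => a e ▸ z _ h
    have a0 : ∀ e, Nr M (x o) ρ e → (π i + π j) e = 0 := fun e he => by
      rw [const M hM (ci.add M cj) (fun e he => ?_) he (nr o)]
      · simp [iv, jv, f2]
      · simp only [Pi.add_apply, zero o i io.symm e he, zero o j jo.symm e he, add_zero, f2]
    have a1 : ∀ e, Nr M (x j) ρ e → π i e = 0 := fun e he => by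
      rw [const M hM ci (fun e he => ?_) he (nr j), t.1]
      simp [zero j o jo e he, zero j i ne.symm e he]
    have a2 : ∀ e, Nr M (x i) ρ e → π j e = 0 := fun e he => by
      rw [const M hM cj (fun e he => ?_) he (nr i), t.2]
      simp [zero i o io e he, zero i j ne e he]
    refine h6 o (π i * π j) ⟨fun e => by simp [ci.1, cj.1], fun e => ?_⟩
    have e1 := ci.2 e
    have e2 := cj.2 e
    simp only [Pi.add_apply, Pi.mul_apply] at e1 e2 ⊢
    by_cases n0 : Nr M (x o) ρ (M.φ e)
    · have u1 := f_eq (a0 _ n0)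
      have u2 := f_eq (two _ o (fun e => by simp [ci.1, cj.1]) a0 e n0)
      have sq : ∀ a : F, a * a = a := by decide
      rw [← u1, ← u2, sq, sq, ← e1, zero o i io.symm _ n0, add_zero]
    by_cases n1 : Nr M (x j) ρ (M.φ e)
    · simp [a1 _ n1, two _ j ci.1 a1 e n1, zero j o jo _ n1]
    by_cases n2 : Nr M (x i) ρ (M.φ e)
    · simp [a2 _ n2, two _ i cj.1 a2 e n2, zero i o io _ n2]
    have z : ∀ k, ¬Nr M (x k) ρ (M.φ e) → y k (M.φ e) = 0 := fun k h =>
      by_contra fun t => h (.inl (h3 k _ t).1)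
    rw [z o n0, z i n2, add_zero] at e1
    rw [z o n0, z j n1, add_zero] at e2
    rw [z o n0, f_eq e1.symm, f_eq e2.symm, f2]
  · refine le_trans ?_ (hπ j (mJ j hj).2.1).2
    rw [← Set.ncard_coe_finset]
    refine Set.ncard_le_ncard_of_injOn d (fun i hi => (Finset.mem_filter.1 hi).2)
      (fun i _ i' _ e => by_contra fun ne => far i i' ne _ (nr i) (e ▸ h1 i')) (Set.toFinite _)

end Pool.Agent.Lib.MP_c1f5fe_lc
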