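import Pool.Agent.Lib.MP_c1f5fe_lc.SpecC
import Pool.Agent.Lib.MP_c1f5fe_lc.Tb

/-! Isomorphisms, pieces, and bounded contexts. -/

namespace Pool.Agent.Lib.MP_c1f5fe_lc

open Equiv Function Relation Sum

namespace Bas

theorem sol_map (dm : DemoteSt) {k : ℕ} {V V' : Type} {G : SimpleGraph V} {U : Set V}
    {G' : SimpleGraph V'} {U' : Set V'} (e : V ≃ V') (h : ∀ u v, G.Adj u v ↔ G'.Adj (e u) (e v))
    (hU : ∀ v, e v ∈ U' → v ∈ U) (s : Sol k G U) : Sol k G' U' := by
  obtain ⟨D, _, S, w, top, hw⟩ := s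
  obtain ⟨S', e1, -, -, -, -, hv⟩ := dm k V V' D G U G' U' S (fun v => some (e v))
    (fun u v x a b => e.injective (Option.some.inj (a.trans b.symm)))
    (fun x y a => ⟨e.symm x, e.symm y, by simp, by simp, (h _ _).2 (by simpa using a)⟩)
    (by
      rintro z _ ⟨⟩ hz
      refine ⟨hU z hz, fun y a => ⟨e y, rfl, (h _ _).1 a⟩, ?_⟩
      rintro y₁ y₂ _ _ - - a ⟨⟩ ⟨⟩
      exact (h _ _).1 a)
  exact ⟨D, inferInstance, S', w, by rw [Sk.Top, e1]; exact top, hv w hw⟩

theorem iso (dm : DemoteSt) (k : ℕ) {V V' : Type} (G : SimpleGraph V) (U : Set V)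
    (G' : SimpleGraph V') (U' : Set V') (e : V ≃ V')
    (h : ∀ u v, G.Adj u v ↔ G'.Adj (e u) (e v)) (hU : ∀ v, v ∈ U ↔ e v ∈ U') :
    (Sol k G U ↔ Sol k G' U') ∧ (PP k G U ↔ PP k G' U') := by
  have s : Sol k G U ↔ Sol k G' U' := ⟨sol_map dm e h fun v => (hU v).2,
    sol_map dm e.symm (fun u v => by rw [h]; simp) fun v q => by simpa using (hU _).1 q⟩
  have c : Nat.card G.ConnectedComponent = Nat.card G'.ConnectedComponent :=
    Nat.card_congr (SimpleGraph.Iso.connectedComponentEquiv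
      (⟨e, fun {a b} => (h a b).symm⟩ : G ≃g G'))
  have i : Indep G U ↔ Indep G' U' := by
    constructor
    · intro i x hx y hy a
      exact i (e.symm x) ((hU _).2 (by simpa using hx)) (e.symm y) ((hU _).2 (by simpa using hy))
        ((h _ _).2 (by simpa using a))
    · exact fun i x hx y hy a => i _ ((hU x).1 hx) _ ((hU y).1 hy) ((h _ _).1 a)
  exact ⟨s, by rw [PP, PP, s, c, i]⟩

theorem dec_adj {t : ℕ} {V : Type} (G : SimpleGraph V) (U X : Set V) (b : Fin t → V)
    (hb : Injective b) (hX : ∀ s, b s ∉ X) (hn : nb G X ⊆ Set.range b)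
    (x y : X ⊕ (Xᶜ : Set V)) :
    (glue (pieceOf G U X b) (ctxOf G U X b hb hX)).Adj x y ↔
      G.Adj (Sum.elim Subtype.val Subtype.val x) (Sum.elim Subtype.val Subtype.val y) := by
  have key : ∀ (x : X) (y : (Xᶜ : Set V)),
      (∃ s, G.Adj x (b s) ∧ (⟨b s, hX s⟩ : (Xᶜ : Set V)) = y) ↔ G.Adj x y := by
    intro x y
    constructor
    · rintro ⟨s, a, rfl⟩
      exact a
    · intro a
      obtain ⟨s, e⟩ := hn ⟨y.2, x, x.2, a⟩
      exact ⟨s, e ▸ a, Subtype.ext e⟩
  rcases x with x | x <;> rcases y with y | y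
  · rfl
  · exact key x y
  · exact (key y x).trans (G.adj_comm _ _)
  · rfl

/-- the equivalence that splits off `X` -/
noncomputable def spl {V : Type} (X : Set V) : X ⊕ (Xᶜ : Set V) ≃ V :=
  open Classical in Equiv.Set.sumCompl X

theorem spl_eq {V : Type} (X : Set V) (x : X ⊕ (Xᶜ : Set V)) :
    spl X x = Sum.elim Subtype.val Subtype.val x := by
  cases x <;> rfl

/-- a context with a second piece glued in -/
def ext {t t' : ℕ} {J K : Type} (Q : Piece t' J) (C' : Ctx t' K) (β : Fin t → K)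
    (hβ : Injective β) : Ctx t (J ⊕ K) where
  G := glue Q C'
  U := glueU Q C'
  β := inr ∘ β
  inj := inr_injective.comp hβ

def exch (I J K : Type) : I ⊕ J ⊕ K ≃ J ⊕ I ⊕ K where
  toFun := Sum.elim (inr ∘ inl) (Sum.elim inl (inr ∘ inr))
  invFun := Sum.elim (inr ∘ inl) (Sum.elim inl (inr ∘ inr))
  left_inv := by rintro (x | x | x) <;> rfl
  right_inv := by rintro (x | x | x) <;> rfl

end Bas

open Bas in
theorem bas (dm : DemoteSt) : BasSt where
  iso k := iso dm k
  mono k V G U U' h := sol_map dm (Equiv.refl V) (fun _ _ => Iff.rfl) fun _ q => h q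
  dec k t V G U X b hb hX hn :=
    (iso dm k _ _ G U (spl X) (fun x y => by rw [dec_adj G U X b hb hX hn, spl_eq, spl_eq])
      (by rintro (x | x) <;> rfl)).2.symm
  piso k t I I' P P' e h1 h2 h3 K _ C :=
    (iso dm k _ _ _ _ (e.sumCongr (Equiv.refl K)) (by
      rintro (x | x) (y | y)
      · exact h1 x y
      · exact exists_congr fun s => and_congr_left' (h2 x s)
      · exact exists_congr fun s => and_congr_left' (h2 y s)
      · rfl) (by
      rintro (x | x)
      · exact h3 x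
      · rfl)).2
  redIn k t V G U X b hb hr := by
    rintro ⟨I', _, P', lt, eq⟩ t' b' hb' hr'
    let σ : Fin t' ≃ Fin t := (Equiv.ofInjective b' hb').trans
      ((Equiv.setCongr (hr'.trans hr.symm)).trans (Equiv.ofInjective b hb).symm)
    have hσ : ∀ s, b (σ s) = b' s := fun s => Equiv.apply_ofInjective_symm hb _
    have key : ∀ (I K : Type) (P : Piece t I) (Q : Piece t' I) (C : Ctx t' K), Q.G = P.G →
        Q.U = P.U → (∀ x s, Q.att x s ↔ P.att x (σ s)) → (PP k (glue Q C) (glueU Q C) ↔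
          PP k (glue P ⟨C.G, C.U, C.β ∘ σ.symm, C.inj.comp σ.symm.injective⟩)
            (glueU P ⟨C.G, C.U, C.β ∘ σ.symm, C.inj.comp σ.symm.injective⟩)) := by
      intro I K P Q C h1 h2 h3
      have : ∀ x y, (∃ s, Q.att x s ∧ C.β s = y) ↔ ∃ s, P.att x s ∧ C.β (σ.symm s) = y :=
        fun x y => σ.exists_congr fun s => by rw [h3, σ.symm_apply_apply]
      refine (iso dm k _ _ _ _ (Equiv.refl _) ?_ ?_).2
      · rintro (x | x) (y | y)
        · exact show Q.G.Adj x y ↔ P.G.Adj x y by rw [h1]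
        · exact this x y
        · exact this y x
        · rfl
      · rintro (x | x)
        · exact show x ∈ Q.U ↔ x ∈ P.U by rw [h2]
        · rfl
    refine ⟨I', inferInstance, ⟨P'.G, fun x s => P'.att x (σ s), P'.U⟩, lt, fun K _ C => ?_⟩
    rw [key X K (pieceOf G U X b) _ C rfl rfl fun x s => by simp only [pieceOf, hσ],
      key I' K P' _ C rfl rfl fun _ _ => Iff.rfl]
    exact eq K _

theorem many (fin : FinSt) (bas : BasSt) : ManySt := by
  classical
  obtain ⟨h₀, H⟩ := fin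
  obtain ⟨h, hh⟩ : TB (fun p : ℕ × ℕ => p.1 + p.2) fun p => (p.2 + 1) * tw h₀ (p.1 + p.2) :=
    TB.snd.succ.mul ((TB.self _).tw h₀)
  refine ⟨h, fun k τ V _ G U Y hY inj => ?_⟩
  obtain ⟨t, ht⟩ := Fintype.exists_lt_card_fiber_of_mul_lt_card
    (fun i => (⟨(nb G (Y i)).ncard, Nat.lt_succ_of_le (hY i)⟩ : Fin (τ + 1)))
    (n := tw h₀ (k + τ)) (by
      have := hh (k, τ)
      simp only [Fintype.card_fin] at this ⊢
      omega)
  set F := Finset.univ.filter fun i =>
    (⟨(nb G (Y i)).ncard, Nat.lt_succ_of_le (hY i)⟩ : Fin (τ + 1)) = t with hF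
  let g : Fin F.card → Fin (tw h (k + τ) + 1) := fun i => F.equivFin.symm i
  have gi : Injective g := Subtype.val_injective.comp F.equivFin.symm.injective
  have : ∀ i, ∃ b : Fin t → V, Injective b ∧ Set.range b = nb G (Y (g i)) := by
    intro i
    have e : Nat.card (nb G (Y (g i))) = t :=
      congrArg Fin.val (Finset.mem_filter.1 (F.equivFin.symm i).2).2
    let q := (Finite.equivFinOfCardEq e).symm
    exact ⟨Subtype.val ∘ q, Subtype.val_injective.comp q.injective, by
      rw [Set.range_comp, q.surjective.range_eq, Set.image_univ, Subtype.range_coe]⟩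
  choose b b1 b2 using this
  obtain ⟨i, j, ne, eq⟩ := H k t F.card (fun i => Y (g i)) (fun i => pieceOf G U (Y (g i)) (b i))
    (lt_of_le_of_lt (tw_mono_right _ (by omega)) ht)
  rcases lt_or_gt_of_ne (fun e => ne (gi (inj e)) : (Y (g i)).ncard ≠ (Y (g j)).ncard) with l | l
  · exact ⟨g j, bas.redIn k t G U _ _ (b1 j) (b2 j)
      ⟨_, inferInstance, _, l, fun K _ C => (eq K C).symm⟩⟩
  · exact ⟨g i, bas.redIn k t G U _ _ (b1 i) (b2 i) ⟨_, inferInstance, _, l, eq⟩⟩

namespace Bas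

theorem exchange (bas : BasSt) {k t t' : ℕ} {I J K : Type} (P : Piece t I) (Q : Piece t' J)
    (G : SimpleGraph K) (U : Set K) (β : Fin t → K) (hβ : Injective β) (β' : Fin t' → K)
    (hβ' : Injective β') :
    PP k (glue P (ext Q ⟨G, U, β', hβ'⟩ β hβ)) (glueU P (ext Q ⟨G, U, β', hβ'⟩ β hβ)) ↔
      PP k (glue Q (ext P ⟨G, U, β, hβ⟩ β' hβ')) (glueU Q (ext P ⟨G, U, β, hβ⟩ β' hβ')) := by
  refine (bas.iso k _ _ _ _ (exch I J K) ?_ ?_).2
  · rintro (x | x | x) (y | y | y) <;> simp [glue, ext, exch]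
  · rintro (x | x | x) <;> rfl

theorem ctx_iso (bas : BasSt) {k t : ℕ} {I K K' : Type} (P : Piece t I) (C : Ctx t K)
    (C' : Ctx t K') (e : K ≃ K') (h1 : ∀ x y, C.G.Adj x y ↔ C'.G.Adj (e x) (e y))
    (h2 : ∀ x, x ∈ C.U ↔ e x ∈ C'.U) (h3 : ∀ s, e (C.β s) = C'.β s) :
    PP k (glue P C) (glueU P C) ↔ PP k (glue P C') (glueU P C') := by
  have : ∀ x y, (∃ s, P.att x s ∧ C.β s = y) ↔ ∃ s, P.att x s ∧ C'.β s = e y :=
    fun x y => exists_congr fun s => by rw [← h3, e.apply_eq_iff_eq]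
  refine (bas.iso k _ _ _ _ ((Equiv.refl I).sumCongr e) ?_ ?_).2
  · rintro (x | x) (y | y)
    · rfl
    · exact this x y
    · exact this y x
    · exact h1 x y
  · rintro (x | x)
    · rfl
    · exact h2 x

theorem shrink (bas : BasSt) {k t : ℕ} {I K : Type} [Finite K] (P : Piece t I) (C : Ctx t K)
    (X : Set (I ⊕ K)) (hd : Disjoint X (Set.range inl ∪ Set.range (inr ∘ C.β)))
    (hr : RedIn k (glue P C) (glueU P C) X) :
    ∃ (K' : Type) (_ : Finite K') (C' : Ctx t K'), Nat.card K' < Nat.card K ∧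
      ∀ (J : Type) [Finite J] (Q : Piece t J),
        PP k (glue Q C) (glueU Q C) ↔ PP k (glue Q C') (glueU Q C') := by
  set X₀ : Set K := inr ⁻¹' X with hX₀
  have d1 : ∀ x, inl x ∉ X := fun x q => Set.disjoint_left.1 hd q (.inl ⟨x, rfl⟩)
  have d2 : ∀ s, C.β s ∉ X₀ := fun s q => Set.disjoint_left.1 hd q (.inr ⟨s, rfl⟩)
  let q := (Finite.equivFin (nb C.G X₀)).symm
  let b : Fin (Nat.card (nb C.G X₀)) → K := Subtype.val ∘ q
  have b1 : Injective b := Subtype.val_injective.comp q.injective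
  have b2 : Set.range b = nb C.G X₀ := by
    rw [Set.range_comp, q.surjective.range_eq, Set.image_univ, Subtype.range_coe]
  have b3 : ∀ s, b s ∉ X₀ := fun s => (q s).2.1
  obtain ⟨I', _, P', lt, eq⟩ := hr _ (inr ∘ b) (inr_injective.comp b1) (by
    rw [Set.range_comp, b2]
    ext v
    constructor
    · rintro ⟨y, ⟨h1, x, hx, a⟩, rfl⟩
      exact ⟨h1, inr x, hx, a⟩
    · rintro ⟨h1, x | x, hx, a⟩
      · exact absurd hx (d1 x)
      · rcases v with v | v
        · obtain ⟨s, -, rfl⟩ := a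
          exact absurd hx (d2 s)
        · exact ⟨v, ⟨h1, x, hx, a⟩, rfl⟩)
  let e : X₀ ≃ X := Equiv.ofBijective (fun x => ⟨inr x.1, x.2⟩) ⟨fun x y h =>
    Subtype.ext (inr_injective (congrArg Subtype.val h)), by
      rintro ⟨x | x, hx⟩
      · exact absurd hx (d1 x)
      · exact ⟨⟨x, hx⟩, rfl⟩⟩
  have eq' := bas.piso k _ (pieceOf C.G C.U X₀ b) (pieceOf (glue P C) (glueU P C) X (inr ∘ b)) e
    (fun _ _ => Iff.rfl) (fun _ _ => Iff.rfl) fun _ => Iff.rfl
  let β : Fin t → (X₀ᶜ : Set K) := fun s => ⟨C.β s, d2 s⟩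
  have hβ : Injective β := fun _ _ h => C.inj (congrArg Subtype.val h)
  refine ⟨I' ⊕ (X₀ᶜ : Set K), inferInstance, ext P' (ctxOf C.G C.U X₀ b b1 b3) β hβ, ?_,
    fun J _ Q => ?_⟩
  · rw [← Nat.card_congr (spl X₀), Nat.card_sum, Nat.card_sum, Nat.card_congr e]
    omega
  · rw [← ctx_iso bas Q (ext (pieceOf C.G C.U X₀ b) (ctxOf C.G C.U X₀ b b1 b3) β hβ) C (spl X₀)
      (fun x y => by
        rw [spl_eq, spl_eq]
        exact dec_adj C.G C.U X₀ b b1 b3 b2.ge x y) (by rintro (x | x) <;> rfl) fun _ => rfl]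
    exact (exchange bas _ _ _ _ _ _ _ _).trans (((eq' _ _).trans (eq _ _)).trans
      (exchange bas _ _ _ _ _ _ _ _))

end Bas

open Bas in
theorem bound (bas : BasSt) (main : MainSt) : BoundSt := by
  obtain ⟨h, H⟩ := main
  refine ⟨h, fun k t I I' _ _ P P' hB => ?_⟩
  have small : ∀ (J K : Type) [Finite J] [Finite K] (Q : Piece t J) (C : Ctx t K),
      Nat.card J ≤ Nat.card I + Nat.card I' →
      bg h (k + t + Nat.card I + Nat.card I') < Nat.card K → PP k (glue Q C) (glueU Q C) →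
      ∃ (K' : Type) (_ : Finite K') (C' : Ctx t K'), Nat.card K' < Nat.card K ∧
        ∀ (J : Type) [Finite J] (Q : Piece t J),
          PP k (glue Q C) (glueU Q C) ↔ PP k (glue Q C') (glueU Q C') := by
    intro J K _ _ Q C hJ hK pp
    have := H k (t + Nat.card I + Nat.card I') _ _ _ (Set.range inl ∪ Set.range (inr ∘ C.β)) pp
      (by
        refine (Set.ncard_union_le _ _).trans ?_
        rw [Set.ncard_range_of_injective inl_injective,
          Set.ncard_range_of_injective (inr_injective.comp C.inj), Nat.card_fin]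
        omega) (by
        rw [Nat.card_sum, ← add_assoc, ← add_assoc]
        omega)
    rcases this with ⟨X, -, hd, -, -, hr⟩ | ⟨K₀, q, -, -, -, -, ⟨Y, y1, y2⟩, hy⟩
    · exact shrink bas Q C X hd hr
    · obtain ⟨j, -, hr⟩ := hy Y y1 fun i => (y2 i).1
      exact shrink bas Q C _ (by
        simp only [Set.disjoint_iUnion_left]
        exact fun i _ => (y2 i).2.2) hr
  intro K _ C
  induction hm : Nat.card K using Nat.strong_induction_on generalizing K with
  | _ m ih =>
    subst hm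
    rcases le_or_gt (Nat.card K) (bg h (k + t + Nat.card I + Nat.card I')) with le | lt
    · let e := Finite.equivFin K
      let C' : Ctx t (Fin (Nat.card K)) :=
        ⟨C.G.comap e.symm, e.symm ⁻¹' C.U, e ∘ C.β, e.injective.comp C.inj⟩
      have : ∀ (J : Type) (Q : Piece t J),
          PP k (glue Q C) (glueU Q C) ↔ PP k (glue Q C') (glueU Q C') := fun J Q =>
        ctx_iso bas Q C C' e (by simp [C']) (by simp [C']) fun _ => rfl
      rw [this, this]
      exact hB _ le C'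
    · constructor
      · intro pp
        obtain ⟨K', _, C', l, q⟩ := small I K P C (by omega) lt pp
        exact (q _ P').2 ((ih _ l K' C' rfl).1 ((q _ P).1 pp))
      · intro pp
        obtain ⟨K', _, C', l, q⟩ := small I' K P' C (by omega) lt pp
        exact (q _ P).2 ((ih _ l K' C' rfl).2 ((q _ P').1 pp))

end Pool.Agent.Lib.MP_c1f5fe_lc
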