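import Pool.Agent.Lib.MP_c1f5fe_lc.Cut1

/-! The cut map and the number of its faces. -/

namespace Pool.Agent.Lib.MP_c1f5fe_lc

open Equiv Function Cut1

namespace Cut2
variable {k : ℕ} {V D : Type} {G : SimpleGraph V} {U : Set V}

structure PC (S : Sk k G U D) (w : D → FG k) (H : HMap (Seg w)) (fs μ : Perm (Seg w)) : Prop where
  φ_eq : H.φ = fs * μ
  α_eq : ∀ x, (H.α x).1 = (S.α x.1.1, (w x.1.1).norm - x.1.2)
  fs_lt : ∀ x, x.1.2 < (w x.1.1).norm → (fs x).1 = (x.1.1, x.1.2 + 1)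
  fs_eq : ∀ x, x.1.2 = (w x.1.1).norm → (fs x).1 = (S.φ x.1.1, 0)
  μ_eq : ∀ x, x.1.2 = (w x.1.1).norm → μ x = x
  μ_t : ∀ x, S.IsT x.1.1 → x.1.2 = 0 → S.φ (μ x).1.1 = x.1.1 ∧ (μ x).1.2 = 0
  μ_n : ∀ x, ¬S.IsT x.1.1 → S.φ.SameCycle x.1.1 (μ x).1.1 ∧ μ (μ x) = x ∧
    slet (μ x) = (slet x).map linv
  sel : ∀ P : D → ℕ → Prop,
    (∀ x : Seg w, ¬S.IsT x.1.1 → x.1.2 < (w x.1.1).norm → P x.1.1 x.1.2 →
      P (μ x).1.1 (μ x).1.2) →
    ∃ θ : D → FG k, ∀ d, ¬S.IsT d →
      θ d * FreeGroup.mk (sel (w d).toWord (P d)) = θ (S.φ d)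
  cnt : 2 * ncyc S.φ + Nat.card (Seg w) + 2 * k ≤ 2 * ncyc H.φ + Nat.card D

lemma sc_inv {X B : Type} [Finite X] {π : Perm X} (f : X → B) (hf : ∀ x, f (π x) = f x) {x y : X}
    (h : π.SameCycle x y) : f x = f y := by
  obtain ⟨n, -, rfl⟩ := h.exists_pow_eq'
  induction n with
  | zero => rfl
  | succ n ih => rw [pow_succ', Perm.mul_apply, hf]; exact ih ⟨n, by simp⟩

lemma isT_sc {S : Sk k G U D} {d e : D} (h : S.φ.SameCycle d e) : S.IsT d ↔ S.IsT e :=
  ⟨fun ⟨i, q⟩ => ⟨i, q.trans h⟩, fun ⟨i, q⟩ => ⟨i, q.trans h.symm⟩⟩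

def z0 (w : D → FG k) (d : D) : Seg w := ⟨(d, 0), Nat.zero_le _⟩

lemma card_let : Nat.card (Let k) = 4 * k := by
  simp [Nat.card_eq_fintype_card]; ring

lemma card_seg [Finite D] {S : Sk k G U D} {w : D → FG k} (h : S.Pre w) :
    Nat.card (Seg w) ≤
      Nat.card D + Nat.card {x : Seg w // ¬S.IsT x.1.1 ∧ x.1.2 < (w x.1.1).norm} + 4 * k := by
  rw [← card_let, ← Nat.card_sum, ← Nat.card_sum]
  refine Nat.card_le_card_of_surjective (Sum.elim (Sum.elim (fun d => ⟨(d, (w d).norm), le_rfl⟩)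
    Subtype.val) fun c => z0 w (tl S c)) ?_
  rintro ⟨⟨d, j⟩, p⟩
  rcases p.eq_or_lt with e | l
  · exact ⟨.inl (.inl d), Subtype.ext (Prod.ext rfl e.symm)⟩
  by_cases t : S.IsT d
  · obtain ⟨c, rfl⟩ := ex_tl S t
    rw [n_tl h] at l
    exact ⟨.inr c, Subtype.ext (Prod.ext rfl (by simp [z0] at l ⊢; omega))⟩
  · exact ⟨.inl (.inr ⟨_, t, l⟩), rfl⟩

lemma pre (hk : K1) (hm : MatchSt) [Finite D] (S : Sk k G U D) (w : D → FG k) (h : S.Pre w) :
    ∃ H fs μ, PC S w H fs μ := by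
  classical
  obtain ⟨fs, f1, f2⟩ := ex_fs S w
  obtain ⟨a, a1, a2⟩ := ex_α h
  obtain ⟨τ, t1, t2⟩ := ex_τ S w
  obtain ⟨θ, hθ⟩ := h.pot
  have fq : ∀ x, Quotient.mk (Perm.SameCycle.setoid S.φ) (fs x).1.1 = Quotient.mk _ x.1.1 := by
    intro x
    rcases x.2.eq_or_lt with e | l
    · rw [f2 x e]; exact Quotient.sound (show S.φ.SameCycle _ _ by simp [Perm.SameCycle.refl])
    · rw [f1 x l]
  have fsc : ∀ x y, fs.SameCycle x y → S.φ.SameCycle x.1.1 y.1.1 := fun x y e =>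
    Quotient.exact (sc_inv (fun x : Seg w => Quotient.mk (Perm.SameCycle.setoid S.φ) x.1.1) fq e)
  have fT : ∀ x, S.IsT (fs x).1.1 ↔ S.IsT x.1.1 := fun x => isT_sc (Quotient.exact (fq x))
  set lt : Seg w → Option (Let k) := fun x => if S.IsT x.1.1 then none else slet x with hlt
  have ln : ∀ x, ¬S.IsT x.1.1 → lt x = slet x := fun x t => by simp [hlt, t]
  have l0 : ∀ x, S.IsT x.1.1 → lt x = none := fun x t => by simp [hlt, t]
  have se : ∀ x : Seg w, x.1.2 = (w x.1.1).norm → slet x = none := fun x e =>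
    by_contra fun q => ((slet_ne x).1 q).ne e
  obtain ⟨μ, m1, m2, m3, m4, m5, m6⟩ := hm (Seg w) k fs lt
    (fun x => if S.IsT x.1.1 then 1 else θ x.1.1 * FreeGroup.mk ((w x.1.1).toWord.take x.1.2)) (by
      intro x
      by_cases t : S.IsT x.1.1
      · simp [t, fT, l0 x t, olet]
      simp only [t, fT, if_false, ln x t]
      rcases x.2.eq_or_lt with e | l
      · rw [f2 x e, se x e, ← hθ _ t, e, FreeGroup.norm, List.take_length, FreeGroup.mk_toWord]
        simp [olet, ← FreeGroup.one_eq_mk]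
      · rw [f1 x l, List.take_add_one, ← FreeGroup.mul_mk, mul_assoc, slet,
          List.getElem?_eq_getElem l]
        rfl)
  have mT : ∀ x, S.IsT (μ x).1.1 ↔ S.IsT x.1.1 := fun x => (isT_sc (fsc _ _ (m4 x))).symm
  have un : ∀ x, ¬S.IsT x.1.1 → (μ * τ) x = μ x := fun x t => by
    rw [Perm.mul_apply, t2 x fun q => t q.1]
  have τT : ∀ x, S.IsT x.1.1 → S.IsT (τ x).1.1 := fun x t => by
    by_cases e : x.1.2 = 0
    · rw [← S.isT_φ, (t1 x t e).1]; exact t
    · rw [t2 x fun q => e q.2]; exact t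
  have ut : ∀ x, S.IsT x.1.1 → (μ * τ) x = τ x := fun x t => by
    rw [Perm.mul_apply, m3 _ (l0 _ (τT x t))]
  refine ⟨⟨fs * (μ * τ), a, a1⟩, fs, μ * τ, rfl, a2, f1, f2, fun x e => ?_, fun x t e => ?_,
    fun x t => ?_, fun P hP => ?_, ?_⟩
  · by_cases t : S.IsT x.1.1
    · rw [ut x t, t2 x fun q => by have := n_term h t; omega]
    · rw [un x t, m3 x (by rw [ln x t, se x e])]
  · rw [ut x t]; exact t1 x t e
  · have t' : ¬S.IsT (μ x).1.1 := fun q => t ((mT x).1 q)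
    rw [un x t, un _ t', ← ln x t, ← ln _ t']
    exact ⟨fsc _ _ (m4 x), m1 x, m2 x⟩
  · obtain ⟨η, hη⟩ := m6 (fun x => ¬S.IsT x.1.1 ∧ x.1.2 < (w x.1.1).norm ∧ P x.1.1 x.1.2) (by
      rintro x ⟨t, l, p⟩
      have t' : ¬S.IsT (μ x).1.1 := fun q => t ((mT x).1 q)
      refine ⟨t', ?_, un x t ▸ hP x t l p⟩
      rw [← slet_ne, ← ln _ t', m2, ln _ t]
      simpa using (slet_ne x).2 l)
    refine ⟨fun d => η (z0 w d), fun d t => ?_⟩
    have key : ∀ j (p : j ≤ (w d).norm),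
        η (z0 w d) * FreeGroup.mk (sel ((w d).toWord.take j) (P d)) = η ⟨(d, j), p⟩ := by
      intro j
      induction j with
      | zero => intro p; simp [sel_nil, ← FreeGroup.one_eq_mk, z0]
      | succ j ih =>
        intro p
        have l : j < (w d).toWord.length := p
        have e : fs ⟨(d, j), l.le⟩ = ⟨(d, j + 1), p⟩ := Subtype.ext (f1 _ p)
        rw [← e, ← hη, ← ih, List.take_add_one, List.getElem?_eq_getElem l, Option.toList_some,
          sel_concat, ← FreeGroup.mul_mk, mul_assoc, ln _ t, slet, List.getElem?_eq_getElem l,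
          List.length_take_of_le l.le]
        by_cases q : P d j
        · simp only [q, t, if_true, not_false_eq_true, true_and, and_true]
          rw [if_pos (show j < (w d).norm from p)]; rfl
        · simp [q, ← FreeGroup.one_eq_mk]
    have k1 := key _ le_rfl
    have k2 := hη ⟨(d, (w d).norm), le_rfl⟩
    have e : fs ⟨(d, (w d).norm), le_rfl⟩ = z0 w (S.φ d) := Subtype.ext (f2 _ rfl)
    rw [e] at k2
    rw [List.take_of_length_le (le_refl (w d).norm)] at k1
    beta_reduce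
    rw [k1, ← k2]
    simp [FreeGroup.norm]
  · have c1 : ncyc S.φ ≤ ncyc fs := by
      rw [← hk.at_univ fs]
      exact low hk fs _ (fun x : Seg w => Quotient.mk (Perm.SameCycle.setoid S.φ) x.1.1) id fq
        injective_id fun j => by
          obtain ⟨d, rfl⟩ := j.exists_rep
          exact ⟨z0 w d, trivial, rfl⟩
    have c2 := card_seg h
    have c3 : Nat.card {x : Seg w // ¬S.IsT x.1.1 ∧ x.1.2 < (w x.1.1).norm} =
        Nat.card {x // lt x ≠ none} := by
      refine Nat.card_congr (Equiv.subtypeEquivRight fun x => ?_)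
      by_cases t : S.IsT x.1.1
      · simp [t, l0 x t]
      · rw [ln x t, slet_ne]; simp [t]
    have c4 := hk.ncyc_on_at (fs * μ) fun x => S.IsT x.1.1
    have c5 := hk.ncyc_on_at (fs * (μ * τ)) fun x => S.IsT x.1.1
    have c6 := hk.on_congr (fs * μ) (fs * (μ * τ)) (fun x => ¬S.IsT x.1.1) fun x t => by
      rw [Perm.mul_apply, Perm.mul_apply fs, un x t]
    have one : ∀ d, S.IsT d → (fs * μ).SameCycle (z0 w d) (fs (z0 w d)) := fun d t =>
      ⟨1, by rw [zpow_one, Perm.mul_apply, m3 _ (l0 _ t)]⟩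
    have v1 : ∀ d, S.IsT d → (fs (z0 w d)).1 = (d, 1) := fun d t =>
      f1 _ (by simp [z0, n_term h t])
    have two : ∀ d, S.IsT d → (fs * μ).SameCycle (z0 w d) (z0 w (S.φ d)) := fun d t => by
      refine (one d t).trans ⟨1, ?_⟩
      rw [zpow_one, Perm.mul_apply, m3 _ (l0 _ ((fT _).2 t))]
      apply Subtype.ext
      rw [f2 _ (by simp [v1 d t, n_term h t]), v1 d t]; rfl
    have c7 : ncycAt (fs * μ) (fun x => S.IsT x.1.1) ≤ k := by
      refine (hk.at_le (fs * μ) _ (fun i : Fin k => z0 w (S.term i)) ?_).trans (by simp)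
      rintro ⟨⟨d, j⟩, p⟩ ⟨i, t⟩
      have t' : S.IsT d := ⟨i, t⟩
      have : (fs * μ).SameCycle (z0 w (S.term i)) (z0 w d) := by
        obtain ⟨n, -, rfl⟩ := t.exists_pow_eq'
        clear p t t'
        induction n with
        | zero => exact Perm.SameCycle.refl _ _
        | succ n ih =>
          rw [pow_succ', Perm.mul_apply]
          exact ih.trans (two _ ⟨i, n, by simp⟩)
      refine ⟨i, this.trans ?_⟩
      have p' : j ≤ 1 := n_term h t' ▸ p
      rcases Nat.le_one_iff_eq_zero_or_eq_one.1 p' with rfl | rfl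
      · exact Perm.SameCycle.refl _ _
      · exact (Subtype.ext (v1 d t') : fs (z0 w d) = ⟨(d, 1), p⟩) ▸ one d t'
    have c8 : Nat.card (Let k) ≤ ncycAt (fs * (μ * τ)) fun x => S.IsT x.1.1 := by
      refine low hk _ _ (fun x : Seg w => if S.IsT x.1.1 then
        some (if x.1.2 = 0 then x.1.1 else S.φ x.1.1) else none) (fun c => some (tl S c)) ?_
        (fun _ _ e => tl_inj h (Option.some.inj e)) fun c => ⟨z0 w (tl S c), isT_tl S c, ?_⟩
      · intro x
        rw [Perm.mul_apply]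
        by_cases t : S.IsT x.1.1
        · rw [ut x t]
          simp only [fT, τT x t, t, if_true]
          by_cases e : x.1.2 = 0
          · rw [f1 _ (by rw [(t1 x t e).2, n_term h (τT x t)]; exact one_pos)]
            simp [e, (t1 x t e).1]
          · have := x.2
            rw [t2 x fun q => e q.2, f2 _ (by rw [n_term h t] at this ⊢; omega)]
            simp [e]
        · rw [un x t]; simp [fT, mT, t]
      · simp [z0, isT_tl]
    rw [card_let] at c8
    change _ ≤ 2 * ncyc (fs * (μ * τ)) + _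
    omega

end Cut2

end Pool.Agent.Lib.MP_c1f5fe_lc
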