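import Pool.Agent.Lib.MP_c1f5fe_lc.SpecC
import Pool.Agent.Lib.MP_c1f5fe_lc.Cut2
import Pool.Agent.Lib.MP_50b5c6_lc.NpQ

/-! From a solution to a planar order. -/

namespace Pool.Agent.Lib.MP_c1f5fe_lc

open Equiv Function Relation Cut1 Cut2
open Pool.Agent.Lib.MP_50b5c6_lc.Np (NC Pl)

namespace CMH

lemma rot_filter {A : Type} {l l' : List A} (h : l ~r l') (p : A → Bool) :
    l.filter p ~r l'.filter p := by
  obtain ⟨n, rfl⟩ := h
  rw [List.rotate_eq_drop_append_take_mod, List.filter_append]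
  conv_lhs => rw [← List.take_append_drop (n % l.length) l, List.filter_append]
  exact List.isRotated_append

lemma sc_invol {X : Type} [Finite X] {a : Perm X} (h : ∀ x, a (a x) = x) {x y : X} :
    a.SameCycle x y ↔ y = x ∨ y = a x := by
  constructor
  · intro e
    have := sc_inv (fun z => s(z, a z)) (fun z => by rw [h, Sym2.eq_swap]) e
    rcases Sym2.eq_iff.1 this with q | q
    · exact .inl q.1.symm
    · exact .inr q.2.symm
  · rintro (rfl | rfl)
    · exact Perm.SameCycle.refl _ _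
    · exact ⟨1, rfl⟩

variable {k : ℕ} {V D : Type} {G : SimpleGraph V} {U : Set V} {S : Sk k G U D} {w : D → FG k}
  {H : HMap (Seg w)} {fs μ : Perm (Seg w)}

lemma labs_α (h : S.Pre w) (d : D) : labs (w (S.α d)) = (labs (w d)).reverse := by
  simp [labs, h.inv, FreeGroup.invRev, List.map_reverse, Function.comp_def]

lemma labs_len (g : FG k) : (labs g).length = g.norm := List.length_map _

lemma slab_kap (h : S.Pre w) {p : D × ℕ} {c : Lab k} (l : 1 ≤ p.2) (e : slab w p = some c) :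
    slab w (S.α p.1, (w p.1).norm - p.2 + 1) = some c := by
  have b : p.2 - 1 < (labs (w p.1)).length := by
    by_contra q
    rw [slab, List.getElem?_eq_none (not_lt.1 q)] at e
    cases e
  rw [← e, slab, slab, labs_α h, List.getElem?_reverse (by rw [labs_len] at *; simp only; omega)]
  congr 1
  rw [labs_len] at *; simp only; omega

lemma σ_z (h : S.Pre w) (hc : Cut S w H fs μ) (d : D) :
    H.σ (z0 w d) = z0 w (S.toHMap.σ d) := by
  have e' : (H.α (z0 w d)).1.2 = (w (H.α (z0 w d)).1.1).norm := by rw [hc.α_eq, n_α h]; rfl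
  apply Subtype.ext
  rw [H.σ_apply, hc.φ_eq, Perm.mul_apply, hc.μ_eq _ e', hc.fs_eq _ e', hc.α_eq]; rfl

lemma sc_z [Finite D] (h : S.Pre w) (hc : Cut S w H fs μ) (d : D) (y : Seg w) :
    H.σ.SameCycle (z0 w d) y ↔ y.1.2 = 0 ∧ S.toHMap.σ.SameCycle d y.1.1 := by
  have key : ∀ n : ℕ, (H.σ ^ n) (z0 w d) = z0 w ((S.toHMap.σ ^ n) d) := by
    intro n
    induction n with
    | zero => rfl
    | succ n ih => rw [pow_succ', pow_succ', Perm.mul_apply, Perm.mul_apply, ih, σ_z h hc]
  constructor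
  · intro e
    obtain ⟨n, -, rfl⟩ := e.exists_pow_eq'
    rw [key]
    exact ⟨rfl, n, by simp [z0]⟩
  · rintro ⟨a, e⟩
    obtain ⟨n, -, e⟩ := e.exists_pow_eq'
    exact ⟨n, by rw [zpow_natCast, key, e]; exact Subtype.ext (Prod.ext rfl a.symm)⟩

lemma nodeI [Finite D] (h : S.Pre w) (hc : Cut S w H fs μ) (i : Fin k) :
    ∃ (x₀ : Seg w) (A B : List (D × ℕ)) (n : ℕ),
    (List.iterate H.σ x₀ n).map Subtype.val =
      A ++ B ++ (A.reverse.map fun p => (S.α p.1, (w p.1).norm - p.2 + 1)) ++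
        (B.reverse.map fun p => (S.α p.1, (w p.1).norm - p.2 + 1)) ∧
    (List.iterate H.σ x₀ n).Nodup ∧ (∀ x, x ∈ List.iterate H.σ x₀ n ↔ H.σ.SameCycle x₀ x) ∧
    (∀ p ∈ A, slab w p = some (i, false)) ∧ (∀ p ∈ B, slab w p = some (i, true)) ∧
    ∀ x : Seg w, H.σ.SameCycle x₀ x ↔ x.1.2 ≠ 0 ∧ (slab w x.1).map Prod.fst = some i := by
  obtain ⟨x₀, A, B, n, e0, e1, nd, e2, a, b, m⟩ := hc.node i
  have n0 : 0 < n := by
    have := m x₀ false (by rw [e0]) (by simp [e0, slab, labs, h.t0])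
    rcases n with _ | n
    · simp at this
    · omega
  refine ⟨x₀, A, B, n, e1, nd, fun x => mem_it _ _ _ n n0 e2, fun p j => (a p j).2,
    fun p j => (b p j).2, fun x => ?_⟩
  rw [← mem_it _ _ _ n n0 e2]
  constructor
  · intro j
    have j' := List.mem_map_of_mem (f := Subtype.val) j
    rw [e1] at j'
    simp only [List.mem_append, List.mem_map, List.mem_reverse] at j'
    rcases j' with ((j | j) | ⟨p, j, e⟩) | ⟨p, j, e⟩
    · exact ⟨Nat.one_le_iff_ne_zero.1 (a _ j).1, by rw [(a _ j).2]; rfl⟩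
    · exact ⟨Nat.one_le_iff_ne_zero.1 (b _ j).1, by rw [(b _ j).2]; rfl⟩
    · rw [← e, slab_kap h (a p j).1 (a p j).2]; simp
    · rw [← e, slab_kap h (b p j).1 (b p j).2]; simp
  · rintro ⟨u, v⟩
    obtain ⟨⟨_, c⟩, e, rfl⟩ := Option.map_eq_some_iff.1 v
    exact m x c (by omega) e

lemma eg0 [Finite D] (hk : K1) (hc : Cut S w H fs μ) : eg H.σ H.α = 0 := by
  have i : H.α⁻¹ = H.α := Perm.ext fun x => Perm.inv_eq_iff_eq.2 (H.αα x).symm
  have e := hk.eg_mul H.φ H.α
  rw [i] at e
  have c : 2 ≤ chi H.φ H.α := hc.chi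
  have n := hk.eg_nonneg H.φ H.α
  change eg (H.φ * H.α) H.α = 0
  rw [e]
  rcases isEmpty_or_nonempty (Seg w) with q | q
  · simp [chi, ncyc] at c
  · have := (hk.ncomp_one H.φ H.α).1 hc.con
    rw [eg, this] at n ⊢
    omega

end CMH

open CMH Pool.Agent.Lib.MP_50b5c6_lc.Np in
theorem cmh (hk : K1) (ho : OrdSt) (hmin : MinSt) (hcut : CutSt) : CMHSt := by
  classical
  rintro k V _ G ⟨D, _, S, w₀, ht, hv₀⟩
  rcases isEmpty_or_nonempty V with hV | hV
  · refine ⟨fun _ _ => [], [], ⟨?_, ?_, ?_, ?_⟩, List.nodup_nil, ?_, ?_, ?_,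
      fun i => ⟨[], [], ?_⟩⟩ <;> simp [NC]
  obtain ⟨w, hv, hm, -⟩ := (hmin k V D G ∅ S w₀ hv₀).2
  have h := hv.toPre
  obtain ⟨H, fs, μ, hc⟩ := hcut k V D G ∅ S w ht hv hm
  obtain ⟨L, nd, al, n1, n2, ro⟩ := ho (Seg w) H.σ H.α (eg0 hk hc)
  have ea : ∀ d, ∃ u, S.real d → S.vx d = some u := fun d => by
    by_cases r : S.real d
    · obtain ⟨u, -, e, -⟩ := S.real_adj d r
      exact ⟨u, fun _ => e⟩
    · exact ⟨hV.some, fun q => absurd q r⟩
  choose a ha using ea
  have adj : ∀ d, S.real d → G.Adj (a d) (a (S.α d)) := fun d r => by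
    obtain ⟨u, v, e, e', q⟩ := S.real_adj d r
    rw [ha d r, Option.some.injEq] at e
    rw [ha _ (S.real_α d r), Option.some.injEq] at e'
    rwa [e, e']
  have uq : ∀ d e, S.real d → S.real e → a d = a e → a (S.α d) = a (S.α e) → d = e :=
    fun d e r r' p q => (S.real_ex _ _ (adj d r)).unique ⟨r, ha d r, ha _ (S.real_α d r)⟩
      ⟨r', p ▸ ha e r', q ▸ ha _ (S.real_α e r')⟩
  have ex : ∀ u v, G.Adj u v → ∃ d, S.real d ∧ a d = u ∧ a (S.α d) = v := fun u v q => by
    obtain ⟨d, r, e, e'⟩ := (S.real_ex u v q).exists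
    rw [ha d r, Option.some.injEq] at e
    rw [ha _ (S.real_α d r), Option.some.injEq] at e'
    exact ⟨d, r, e, e'⟩
  obtain ⟨lab, hl⟩ : ∃ lab : V → V → List (Lab k),
      ∀ d, S.real d → lab (a d) (a (S.α d)) = labs (w d) := by
    refine ⟨fun u v => if q : G.Adj u v then labs (w (ex u v q).choose) else [], fun d r => ?_⟩
    have := (ex _ _ (adj d r)).choose_spec
    simp only [dif_pos (adj d r)]
    rw [uq _ _ this.1 r this.2.1 this.2.2]
  have ra : ∀ d, S.real (S.α d) ↔ S.real d := fun d =>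
    ⟨fun r => S.αα d ▸ S.real_α _ r, S.real_α d⟩
  set g : D × ℕ → Sg V := fun p => (a p.1, a (S.α p.1), p.2) with hg
  have gi : ∀ x y : Seg w, S.real x.1.1 → S.real y.1.1 → g x.1 = g y.1 → x = y := by
    intro x y r r' e
    simp only [hg, Prod.mk.injEq] at e
    exact Subtype.ext (Prod.ext (uq _ _ r r' e.1 e.2.1) e.2.2)
  have glb : ∀ p, S.real p.1 → lb lab (g p) = slab w p := fun p r => by
    simp only [lb, hg, hl _ r, slab]
  have gn : ∀ p, S.real p.1 → node lab (g p) =
      if p.2 = 0 then .inl (a p.1) else .inr ((slab w p).map Prod.fst) := fun p r => by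
    simp only [node, hg, hl _ r, slab]
  have go : ∀ x : Seg w, S.real x.1.1 → opp lab (g x.1) = g (H.α x).1 := fun x r => by
    simp only [opp, hg, hl _ r, hc.α_eq, S.αα, labs_len]
  have gk : ∀ p, S.real p.1 → kap lab (g p) = g (S.α p.1, (w p.1).norm - p.2 + 1) := fun p r => by
    simp only [kap, hg, hl _ r, S.αα, labs_len]
  have ok : ∀ d x y, S.real d → x ∈ labs (w d) → y ∈ labs (w d) → x ≠ y → S.ok x y := by
    intro d x y r p q n
    have : Std.Symm S.ok := ⟨S.ok_symm⟩
    exact (hv.edge d r).forall p q n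
  have idx : ∀ x : Seg w, x.1.2 ≠ 0 → ∃ i, (slab w x.1).map Prod.fst = some i := by
    intro x n
    have := x.2
    exact ⟨_, by rw [slab, List.getElem?_eq_getElem (by rw [labs_len]; omega)]; rfl⟩
  refine ⟨lab, (L.filter fun x => S.real x.1.1).map fun x => g x.1, ⟨?_, ?_, ?_, ?_⟩, ?_, ?_, ?_,
    ?_, fun i => ?_⟩
  · intro u v q
    obtain ⟨d, r, rfl, rfl⟩ := ex u v q
    rw [hl d r, ← labs_α h, ← hl _ (S.real_α d r), S.αα]
  · intro u v q
    obtain ⟨d, r, rfl, rfl⟩ := ex u v q
    rw [hl d r, List.Nodup, List.pairwise_map]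
    refine (hv.edge d r).imp ?_
    rintro ⟨i, x⟩ ⟨j, y⟩ o e
    obtain rfl : i = j := e
    exact S.ok_idx _ _ _ o
  · intro u v u' v' i j x y q q' n p1 p2 p3 p4
    obtain ⟨d, r, rfl, rfl⟩ := ex u v q
    obtain ⟨e, r', rfl, rfl⟩ := ex u' v' q'
    rw [hl d r] at p1 p2
    rw [hl e r'] at p3 p4
    exact S.ok_once i j x y n (ok d _ _ r p1 p2 (by simp [n])) (ok e _ _ r' p3 p4 (by simp [n]))
  · intro u v v' i q q' p
    obtain ⟨d, r, rfl, rfl⟩ := ex u v q
    obtain ⟨e, r', e1, rfl⟩ := ex _ v' q'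
    rw [hl d r] at p
    rw [← e1, hl e r']
    exact hv.vert d e i r r' (by rw [ha d r, ha e r', e1]) p
  · refine (nd.filter _).map_on fun x p y q => gi x y ?_ ?_
    · simpa using (List.mem_filter.1 p).2
    · simpa using (List.mem_filter.1 q).2
  · rintro ⟨u, v, j⟩
    simp only [List.mem_map, List.mem_filter, al, true_and, decide_eq_true_eq, IsSg]
    constructor
    · rintro ⟨x, r, e⟩
      simp only [hg, Prod.mk.injEq] at e
      obtain ⟨rfl, rfl, rfl⟩ := e
      exact ⟨adj _ r, by rw [hl _ r, labs_len]; exact x.2⟩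
    · rintro ⟨q, l⟩
      obtain ⟨d, r, rfl, rfl⟩ := ex u v q
      rw [hl d r, labs_len] at l
      exact ⟨⟨(d, j), l⟩, r, rfl⟩
  · refine NC.map ((n1.sub List.filter_sublist).congr fun x p y q => ?_)
    have r : S.real x.1.1 := by simpa using (List.mem_filter.1 p).2
    have r' : S.real y.1.1 := by simpa using (List.mem_filter.1 q).2
    rw [gn _ r, gn _ r', Quotient.eq]
    change H.σ.SameCycle x y ↔ _
    by_cases e : x.1.2 = 0
    · have ex : x = z0 w x.1.1 := Subtype.ext (Prod.ext rfl e)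
      rw [if_pos e]
      conv_lhs => rw [ex, sc_z h hc]
      by_cases e' : y.1.2 = 0
      · simp only [e', true_and, if_true, Sum.inl.injEq]
        refine ⟨fun s => ?_, fun s => S.vx_cyc _ _ _ (ha _ r) (s ▸ ha _ r')⟩
        have := sc_inv (π := S.toHMap.σ) S.vx S.vx_σ s
        rwa [ha _ r, ha _ r', Option.some.injEq] at this
      · simp [e']
    obtain ⟨i, hi⟩ := idx x e
    obtain ⟨x₀, -, -, -, -, -, -, -, -, m⟩ := nodeI h hc i
    have s := (m x).2 ⟨e, hi⟩
    rw [if_neg e, hi, show H.σ.SameCycle x y ↔ H.σ.SameCycle x₀ y from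
      ⟨s.trans, s.symm.trans⟩, m]
    by_cases e' : y.1.2 = 0
    · simp [e']
    · simp only [e', if_false, Sum.inr.injEq, ne_eq, not_false_eq_true, true_and]
      exact eq_comm
  · refine NC.map ((n2.sub List.filter_sublist).congr fun x p y q => ?_)
    have r : S.real x.1.1 := by simpa using (List.mem_filter.1 p).2
    have r' : S.real y.1.1 := by simpa using (List.mem_filter.1 q).2
    rw [go _ r, go _ r', Quotient.eq]
    change H.α.SameCycle x y ↔ _
    rw [sc_invol H.αα, Sym2.eq_iff]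
    constructor
    · rintro (rfl | rfl)
      · exact .inl ⟨rfl, rfl⟩
      · exact .inr ⟨by rw [H.αα], rfl⟩
    · rintro (e | e)
      · exact .inl (gi _ _ r r' e.1).symm
      · exact .inr (gi _ _ (by rw [hc.α_eq]; exact S.real_α _ r) r' e.2).symm
  · obtain ⟨x₀, A, B, n, e1, nd', mi, a1, b1, m⟩ := nodeI h hc i
    obtain ⟨n', ro'⟩ := ro x₀
    obtain rfl : n = n' := by
      have := (List.perm_ext_iff_of_nodup nd' (ro'.nodup_iff.1 (nd.filter _))).2 fun x => by
        rw [← ro'.mem_iff, mi]; simp [al]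
      simpa using this.length_eq
    have rv : ∀ C : List (D × ℕ),
        ((C.reverse.map fun p => (S.α p.1, (w p.1).norm - p.2 + 1)).filter
          fun p => S.real p.1).map g =
        (((C.filter fun p => S.real p.1).map g).reverse).map (kap lab) := by
      intro C
      rw [List.filter_map, ← List.map_reverse, ← List.filter_reverse, List.map_map, List.map_map]
      simp only [Function.comp_def, ra]
      refine List.map_congr_left fun p j => (gk p ?_).symm
      simpa using (List.mem_filter.1 j).2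
    refine ⟨(A.filter fun p => S.real p.1).map g, (B.filter fun p => S.real p.1).map g, ?_, ?_, ?_⟩
    · intro x j'
      obtain ⟨p, j, rfl⟩ := List.mem_map.1 j'
      rw [glb p (by simpa using (List.mem_filter.1 j).2), a1 p (List.mem_filter.1 j).1]
    · intro x j'
      obtain ⟨p, j, rfl⟩ := List.mem_map.1 j'
      rw [glb p (by simpa using (List.mem_filter.1 j).2), b1 p (List.mem_filter.1 j).1]
    have f := ((rot_filter (ro'.map Subtype.val) fun p => S.real p.1).map g)
    rw [e1] at f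
    simp only [List.filter_append, List.map_append, rv] at f
    refine Eq.subst (motive := fun l => l ~r _) ?_ f
    rw [List.filter_map, List.filter_map, List.map_map, List.filter_filter, List.filter_filter]
    refine congrArg _ (List.filter_congr fun x _ => ?_)
    by_cases r : S.real x.1.1
    · simp only [Function.comp_apply, r, gn _ r, m, decide_true, Bool.true_and, Bool.and_true,
        decide_eq_decide]
      by_cases e : x.1.2 = 0 <;> simp [e]
    · simp [r]

end Pool.Agent.Lib.MP_c1f5fe_lc
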