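import Pool.Agent.Lib.MP_c1f5fe_lc.Kit1a

/-! The kit `K1`: cycles of permutations and the Euler genus. -/

namespace Pool.Agent.Lib.MP_c1f5fe_lc

open Equiv Function Relation

namespace Kit1

set_option linter.unusedSectionVars false

section onat
variable {D D' : Type}

/-- the whole cycle lies in `P` -/
def Al (π : Perm D) (P : D → Prop) (d : D) : Prop := ∀ e, π.SameCycle d e → P e

lemma at_def (π : Perm D) (Q : D → Prop) :
    ncycAt π Q = (Quotient.mk (Perm.SameCycle.setoid π) '' {d | Q d}).ncard := by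
  rw [ncycAt, ← Nat.card_coe_set_eq]
  exact Nat.card_congr (Equiv.subtypeEquivRight fun c => exists_congr fun d => and_comm)

lemma on_set (π : Perm D) (Q : D → Prop) : ncycOn π Q =
    {c : Quotient (Perm.SameCycle.setoid π) | ∀ d, Quotient.mk _ d = c → Q d}.ncard := by
  rw [ncycOn, ← Nat.card_coe_set_eq]; rfl

lemma on_def (π : Perm D) (Q : D → Prop) :
    ncycOn π Q = (Quotient.mk (Perm.SameCycle.setoid π) '' {d | Al π Q d}).ncard := by
  rw [on_set]
  congr 1
  ext c
  induction c using Quotient.inductionOn with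
  | h z =>
    constructor
    · intro h
      exact ⟨z, fun e he => h e (Quotient.sound (Perm.SameCycle.symm he)), rfl⟩
    · rintro ⟨y, hy, e⟩ d e'
      exact hy d (Quotient.exact (e.trans e'.symm))

lemma mk_iff (π : Perm D) (x y : D) :
    Quotient.mk (Perm.SameCycle.setoid π) x = Quotient.mk _ y ↔ π.SameCycle x y :=
  ⟨Quotient.exact, fun e => Quotient.sound e⟩

lemma at_univ (π : Perm D) : ncycAt π (fun _ => True) = ncyc π := by
  rw [at_def, ncyc, card_quot]; rfl

variable [Finite D]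

lemma ncyc_on_at (π : Perm D) (Q : D → Prop) :
    ncyc π = ncycAt π Q + ncycOn π fun d => ¬Q d := by
  rw [at_def, on_set, ncyc, ← Set.ncard_add_ncard_compl (Quotient.mk _ '' {d | Q d})]
  congr 2
  ext c
  simp only [Set.mem_compl_iff, Set.mem_image, Set.mem_ofPred_eq, not_exists, not_and]
  exact forall_congr' fun d => ⟨fun h e q => h q e, fun h q e => h e q⟩

lemma on_eq_at (π : Perm D) (Q : D → Prop) (h : ∀ d, Q (π d) ↔ Q d) :
    ncycOn π Q = ncycAt π Q := by
  rw [on_def, at_def]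
  congr 2
  ext d
  exact ⟨fun a => a d (.refl _ _), fun q e he => sc_ind he q fun z => (h z).2⟩

lemma le_at {B : Type} (π : Perm D) (Q : D → Prop) (f : D → B) (h : ∀ d, f (π d) = f d) :
    (f '' {d | Q d}).ncard ≤ ncycAt π Q := by
  rw [at_def]
  exact image_le _ _ _ fun x _ y _ e => sc_ind (P := fun z => f x = f z) ((mk_iff π x y).1 e) rfl
    fun z hz => hz.trans (h z).symm

lemma at_le {J : Type} [Finite J] (π : Perm D) (Q : D → Prop) (g : J → D)
    (h : ∀ d, Q d → ∃ j, π.SameCycle (g j) d) : ncycAt π Q ≤ Nat.card J := by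
  rw [at_def, ← Set.ncard_univ]
  refine le_trans (Set.ncard_le_ncard ?_)
    (Set.ncard_image_le (f := fun j => Quotient.mk (Perm.SameCycle.setoid π) (g j)))
  rintro _ ⟨d, hd, rfl⟩
  obtain ⟨j, e⟩ := h d hd
  exact ⟨j, trivial, Quotient.sound e⟩

lemma at_eq {B : Type} (π : Perm D) (Q : D → Prop) (f : D → B)
    (h : ∀ d e, Q d → Q e → (f d = f e ↔ π.SameCycle d e)) :
    ncycAt π Q = (f '' {d | Q d}).ncard := by
  rw [at_def]
  exact image_eq _ _ _ fun x hx y hy => (mk_iff π x y).trans (h x y hx hy).symm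

lemma on_map [Finite D'] (π : Perm D) (π' : Perm D') (P : D → Prop) (P' : D' → Prop) (f : D → D')
    (hi : ∀ x y, P x → P y → f x = f y → x = y) (hr : ∀ y, P' y ↔ ∃ x, P x ∧ f x = y)
    (hs : ∀ x, P x → (P (π x) ↔ P' (π' (f x))) ∧ (P (π x) → f (π x) = π' (f x))) :
    ncycOn π P = ncycOn π' P' := by
  have A : ∀ x e, Al π P x → π.SameCycle x e → π'.SameCycle (f x) (f e) := by
    intro x e hx he
    refine (sc_ind (P := fun z => π.SameCycle x z ∧ π'.SameCycle (f x) (f z)) he
      ⟨.refl _ _, .refl _ _⟩ fun z hz => ⟨hz.1.trans (sc_step _ _), ?_⟩).2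
    rw [(hs z (hx z hz.1)).2 (hx _ (hz.1.trans (sc_step _ _)))]
    exact hz.2.trans (sc_step _ _)
  have B : ∀ x y, Al π P x → π'.SameCycle (f x) y → ∃ e, π.SameCycle x e ∧ f e = y := by
    intro x y hx hy
    refine sc_ind (P := fun y => ∃ e, π.SameCycle x e ∧ f e = y) hy ⟨x, .refl _ _, rfl⟩ ?_
    rintro _ ⟨e, he, rfl⟩
    exact ⟨π e, he.trans (sc_step _ _), (hs e (hx e he)).2 (hx _ (he.trans (sc_step _ _)))⟩
  have C : ∀ x, P x → Al π' P' (f x) → Al π P x := by
    intro x hx hy e he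
    refine (sc_ind (P := fun z => P z ∧ π'.SameCycle (f x) (f z)) he ⟨hx, .refl _ _⟩
      fun z hz => ?_).1
    have h1 := (hs z hz.1).1.2 (hy _ (hz.2.trans (sc_step _ _)))
    refine ⟨h1, ?_⟩
    rw [(hs z hz.1).2 h1]
    exact hz.2.trans (sc_step _ _)
  have E : {y | Al π' P' y} = f '' {x | Al π P x} := by
    ext y
    constructor
    · intro hy
      obtain ⟨x, hx, rfl⟩ := (hr y).1 (hy y (.refl _ _))
      exact ⟨x, C x hx hy, rfl⟩
    · rintro ⟨x, hx, rfl⟩ y hy
      obtain ⟨e, he, rfl⟩ := B x y hx hy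
      exact (hr _).2 ⟨e, hx e he, rfl⟩
  rw [on_def, on_def, E, Set.image_image]
  refine image_eq _ _ _ fun x hx y hy => ?_
  rw [mk_iff, mk_iff]
  refine ⟨A x y hx, fun h => ?_⟩
  obtain ⟨e, he, h'⟩ := B x _ hx h
  rwa [← hi e y (hx e he) (hy y (.refl _ _)) h']

lemma on_congr (π π' : Perm D) (Q : D → Prop) (h : ∀ d, Q d → π d = π' d) :
    ncycOn π Q = ncycOn π' Q :=
  on_map π π' Q Q id (fun _ _ _ _ e => e) (fun y => by simp)
    fun x hx => ⟨by rw [h x hx]; rfl, fun _ => h x hx⟩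

lemma on_or (π : Perm D) (P Q : D → Prop) (h1 : ∀ d, P d → ¬Q d) (h2 : ∀ d, P d → ¬Q (π d))
    (h3 : ∀ d, Q d → ¬P (π d)) :
    ncycOn π (fun d => P d ∨ Q d) = ncycOn π P + ncycOn π Q := by
  rw [on_set, on_set, on_set, ← Set.ncard_union_eq]
  · congr 1
    ext c
    induction c using Quotient.inductionOn with
    | h z =>
      simp only [Set.mem_ofPred_eq, Set.mem_union, mk_iff]
      constructor
      · intro h
        rcases h z (.refl _ _) with p | p
        · refine Or.inl fun d e => (sc_ind (P := fun d => P d ∧ π.SameCycle d z) e.symm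
            ⟨p, .refl _ _⟩ fun w hw => ?_).1
          have e' := (sc_step π w).symm.trans hw.2
          exact ⟨(h _ e').resolve_right (h2 w hw.1), e'⟩
        · refine Or.inr fun d e => (sc_ind (P := fun d => Q d ∧ π.SameCycle d z) e.symm
            ⟨p, .refl _ _⟩ fun w hw => ?_).1
          have e' := (sc_step π w).symm.trans hw.2
          exact ⟨(h _ e').resolve_left (h3 w hw.1), e'⟩
      · rintro (h | h) d e
        exacts [Or.inl (h d e), Or.inr (h d e)]
  · rw [Set.disjoint_left]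
    intro c
    induction c using Quotient.inductionOn with
    | h z => exact fun p q => h1 z (p z rfl) (q z rfl)

lemma card_filter [Fintype D] (Q : D → Prop) [DecidablePred Q] :
    Nat.card {x // Q x} = (Finset.univ.filter Q).card := by
  rw [Nat.card_eq_fintype_card, Fintype.card_subtype]

lemma ncard_filter {B : Type} [DecidableEq B] [Fintype D] (f : D → B) (Q : D → Prop)
    [DecidablePred Q] : (f '' {x | Q x}).ncard = ((Finset.univ.filter Q).image f).card := by
  rw [← Set.ncard_coe_finset]; simp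

lemma invol (a : Perm D) (Q : D → Prop) (ha : ∀ x, a (a x) = x) (hQ : ∀ x, Q x → Q (a x)) :
    2 * ncycOn a Q = Nat.card {x // Q x} + Nat.card {x // Q x ∧ a x = x} := by
  classical
  have := Fintype.ofFinite D
  have sc0 : ∀ x y, a.SameCycle x y ↔ y = x ∨ y = a x := fun x y =>
    ⟨fun e => sc_ind (P := fun y => y = x ∨ y = a x) e (Or.inl rfl) (by
      rintro _ (rfl | rfl)
      · exact Or.inr rfl
      · exact Or.inl (ha x)), by
      rintro (rfl | rfl)
      · exact .refl _ _
      · exact sc_step _ _⟩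
  have sc : ∀ x y, Quotient.mk (Perm.SameCycle.setoid a) y = Quotient.mk _ x ↔
      y = x ∨ y = a x := fun x y => by rw [mk_iff, Perm.sameCycle_comm, sc0]
  rw [on_eq_at a Q fun d => ⟨fun h => ha d ▸ hQ _ h, hQ d⟩, at_def, ncard_filter, card_filter,
    card_filter, Finset.card_eq_sum_card_image (Quotient.mk (Perm.SameCycle.setoid a))
      (Finset.univ.filter Q),
    Finset.card_eq_sum_card_fiberwise (f := Quotient.mk (Perm.SameCycle.setoid a))
      (s := Finset.univ.filter fun x => Q x ∧ a x = x)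
      (t := (Finset.univ.filter Q).image (Quotient.mk (Perm.SameCycle.setoid a)))
      (fun x hx => by
        simp only [Finset.coe_filter, Finset.mem_univ, true_and, Set.mem_ofPred_eq] at hx
        exact Finset.mem_coe.2 (Finset.mem_image_of_mem _ (by simp [hx.1]))),
    ← Finset.sum_add_distrib, Finset.card_eq_sum_ones, Finset.mul_sum]
  refine Finset.sum_congr rfl fun c hc => ?_
  obtain ⟨x, hx, rfl⟩ := Finset.mem_image.1 hc
  have hx : Q x := by simpa using hx
  have e1 : ((Finset.univ.filter Q).filter fun y =>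
      Quotient.mk (Perm.SameCycle.setoid a) y = Quotient.mk _ x) = {x, a x} := by
    ext y
    simp only [Finset.mem_filter, Finset.mem_univ, true_and, Finset.mem_insert,
      Finset.mem_singleton, sc]
    refine ⟨fun h => h.2, fun h => ⟨?_, h⟩⟩
    rcases h with rfl | rfl
    exacts [hx, hQ x hx]
  rw [e1]
  by_cases h : a x = x
  · have e2 : ((Finset.univ.filter fun x => Q x ∧ a x = x).filter fun y =>
        Quotient.mk (Perm.SameCycle.setoid a) y = Quotient.mk _ x) = {x} := by
      ext y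
      simp only [Finset.mem_filter, Finset.mem_univ, true_and, Finset.mem_singleton,
        sc, h, or_self]
      exact ⟨fun k => k.2, fun k => ⟨k ▸ ⟨hx, h⟩, k⟩⟩
    rw [e2, h]; simp
  · have e2 : ((Finset.univ.filter fun x => Q x ∧ a x = x).filter fun y =>
        Quotient.mk (Perm.SameCycle.setoid a) y = Quotient.mk _ x) = ∅ := by
      ext y
      simp only [Finset.mem_filter, Finset.mem_univ, true_and, Finset.notMem_empty,
        sc, iff_false]
      rintro ⟨⟨-, k⟩, rfl | rfl⟩
      · exact h k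
      · exact h ((ha x).symm.trans k).symm
    rw [e2, Finset.card_pair (Ne.symm h)]; simp

lemma long (a : Perm D) (Q : D → Prop) (n : ℕ)
    (h : ∀ x, Q x → ∀ j : ℕ, 0 < j → j < n → (a ^ j) x ≠ x) :
    n * ncycOn a Q ≤ Nat.card {x // Q x} := by
  classical
  have := Fintype.ofFinite D
  rw [on_def, ncard_filter, card_filter]
  refine le_trans (Finset.mul_card_image_le_card _ n fun c hc => ?_)
    (Finset.card_le_card fun x hx => ?_)
  · obtain ⟨x, hx, rfl⟩ := Finset.mem_image.1 hc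
    have hx : Al a Q x := by simpa using hx
    have sc : ∀ j : ℕ, a.SameCycle x ((a ^ j) x) := fun j => ⟨j, by simp⟩
    have key : ∀ i j : ℕ, i < j → j < n → (a ^ i) x ≠ (a ^ j) x := by
      intro i j l l' e
      refine h x (hx x (.refl _ _)) (j - i) (by omega) (by omega) ((a ^ i).injective ?_)
      rw [← Perm.mul_apply, ← pow_add, Nat.add_sub_cancel' l.le, e]
    conv_lhs => rw [← Finset.card_range n]
    refine Finset.card_le_card_of_injOn (fun j => (a ^ j) x) (fun j _ => ?_) fun i hi j hj e => ?_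
    · simp only [Finset.coe_filter, Finset.mem_filter, Finset.mem_univ, true_and,
        Set.mem_ofPred_eq, mk_iff]
      exact ⟨fun e he => hx e ((sc j).trans he), (sc j).symm⟩
    · simp only [Finset.coe_range, Set.mem_Iio] at hi hj
      rcases lt_trichotomy i j with l | l | l
      · exact absurd e (key i j l hj)
      · exact l
      · exact absurd e.symm (key j i l hi)
  · simp only [Finset.mem_filter, Finset.mem_univ, true_and] at hx ⊢
    exact hx x (.refl _ _)

end onat

section ret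
variable {D : Type} {π : Perm D} {Q : D → Prop}

lemma nxt_one {p : D} (h : Q (π p)) : Nxt π Q p (π p) :=
  ⟨1, one_pos, by simp, h, fun m _ _ => by omega⟩

lemma nxt_step {p q : D} (h : ¬Q (π p)) (e : Nxt π Q (π p) q) : Nxt π Q p q := by
  obtain ⟨n, n0, rfl, hq, hn⟩ := e
  refine ⟨n + 1, by omega, by rw [pow_succ, Perm.mul_apply], hq, fun m m0 l => ?_⟩
  obtain ⟨m, rfl⟩ : ∃ k, m = k + 1 := ⟨m - 1, by omega⟩
  rw [pow_succ, Perm.mul_apply]
  rcases Nat.eq_zero_or_pos m with rfl | m0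
  · simpa using h
  · exact hn m m0 (by omega)

lemma nxt_ind {q : D} {P : D → Prop} (h1 : ∀ p, π p = q → Q q → P p)
    (h2 : ∀ p, ¬Q (π p) → P (π p) → P p) {p : D} (e : Nxt π Q p q) : P p := by
  obtain ⟨n, n0, e, hq, hn⟩ := e
  induction n generalizing p with
  | zero => omega
  | succ n ih =>
    rcases Nat.eq_zero_or_pos n with rfl | m0
    · exact h1 p (by simpa using e) hq
    · refine h2 p (by simpa using hn 1 one_pos (by omega))
        (ih m0 (by rw [← e, pow_succ, Perm.mul_apply]) fun m m0 l => ?_)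
      rw [← Perm.mul_apply, ← pow_succ]
      exact hn (m + 1) (by omega) (by omega)

variable [Finite D]

lemma ret_eq {ρ : Perm D} (h1 : ∀ x, Q x → Nxt π Q x (ρ x)) (h2 : ∀ x, ¬Q x → ρ x = x) :
    ret π Q = ρ := by
  ext x
  by_cases q : Q x
  · exact (ret_nxt π q).unique (h1 x q)
  · rw [ret_not π q, h2 x q]

lemma sc_ret (π : Perm D) (Q : D → Prop) (x y : D) (hx : Q x) (hy : Q y) :
    (ret π Q).SameCycle x y ↔ π.SameCycle x y := by
  constructor
  · intro e
    refine sc_ind (P := fun z => π.SameCycle x z) e (.refl _ _) fun z hz => ?_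
    by_cases q : Q z
    · obtain ⟨n, -, e, -⟩ := ret_nxt π q
      rw [← e]; exact Perm.sameCycle_pow_right.2 hz
    · rwa [ret_not π q]
  · intro e
    obtain ⟨n, rfl⟩ := e.exists_nat_pow_eq
    clear e
    induction n using Nat.strong_induction_on generalizing x with
    | _ n ih =>
      rcases Nat.eq_zero_or_pos n with rfl | n0
      · exact .refl _ _
      obtain ⟨k, k0, e, q, hk⟩ := ret_nxt π hx
      have l : k ≤ n := not_lt.1 fun l => hk n n0 l hy
      have e' : (π ^ n) x = (π ^ (n - k)) (ret π Q x) := by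
        rw [← e, ← Perm.mul_apply, ← pow_add, Nat.sub_add_cancel l]
      rw [e'] at hy ⊢
      exact (sc_step _ x).trans (ih (n - k) (by omega) _ q hy)

lemma ncyc_ret (π : Perm D) (Q : D → Prop) :
    ncyc (ret π Q) = ncycAt π Q + Nat.card {d // ¬Q d} := by
  rw [ncyc_on_at (ret π Q) Q, on_congr (ret π Q) 1 _ fun d h => ret_not π h,
    on_eq_at 1 _ fun _ => Iff.rfl, at_eq 1 _ id fun d e _ _ => Perm.sameCycle_one.symm,
    at_eq (ret π Q) Q (Quotient.mk (Perm.SameCycle.setoid π)) fun d e p q =>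
      (mk_iff π d e).trans (sc_ret π Q d e p q).symm, ← at_def, Set.image_id,
    ← Nat.card_coe_set_eq]
  rfl

lemma ret_peel [DecidableEq D] (π : Perm D) (Q : D → Prop) {x : D} (hx : ¬Q x) :
    ret π Q = ret (π * swap x (π⁻¹ x)) Q := by
  refine ret_eq (fun p hp => ?_) fun p hp => ret_not _ hp
  have fx : (π * swap x (π⁻¹ x)) x = x := by simp
  refine nxt_ind (P := fun z => z ≠ x → Nxt π Q z (ret (π * swap x (π⁻¹ x)) Q p)) ?_ ?_
    (ret_nxt (π * swap x (π⁻¹ x)) hp) fun e => hx (e ▸ hp)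
  · intro z e q hz
    rw [← e] at q ⊢
    by_cases h : z = π⁻¹ x
    · subst h
      rw [sw_y] at q ⊢
      refine nxt_step (by simpa using hx) ?_
      simpa using nxt_one q
    · rw [sw_z π _ _ hz h] at q ⊢
      exact nxt_one q
  · intro z q ih hz
    have ih := ih fun e => hz ((π * swap x (π⁻¹ x)).injective (e.trans fx.symm))
    by_cases h : z = π⁻¹ x
    · subst h
      rw [sw_y] at q ih
      refine nxt_step (by simpa using hx) ?_
      simpa using nxt_step q ih
    · rw [sw_z π _ _ hz h] at q ih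
      exact nxt_step q ih

end ret

section eg
variable {D : Type}

lemma eg_comm (a b : Perm D) : eg a b = eg b a := by
  rw [eg, eg, chi, chi, ncyc_comm a b,
    ncomp_congr (conn_b a b) (conn_a a b) (conn_b b a) (conn_a b a)]
  ring

lemma eg_inv (a b : Perm D) : eg a⁻¹ b⁻¹ = eg a b := by
  rw [eg, eg, chi, chi, ← mul_inv_rev, ncyc_inv, ncyc_inv, ncyc_inv, ncyc_comm b a,
    ncomp_congr (a := a) (b := b) (conn_ai a b) (conn_bi a b) (conn_ai a⁻¹ b⁻¹)
      (conn_bi a⁻¹ b⁻¹)]

lemma eg_mul (a b : Perm D) : eg (a * b) b⁻¹ = eg a b := by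
  rw [eg, eg, chi, chi, mul_inv_cancel_right, ncyc_inv,
    ncomp_congr (a := a) (b := b) (a' := a * b) (b' := b⁻¹)
      (fun x => conn_trans (conn_b a b x) (conn_a a b _)) (conn_bi a b)
      (fun x => conn_trans (conn_b _ _ x) (by simpa using conn_a (a * b) b⁻¹ (b⁻¹ x)))
      (conn_bi (a * b) b⁻¹)]
  ring

lemma eg_conj {D' : Type} (e : D ≃ D') (a b : Perm D) (a' b' : Perm D')
    (ha : ∀ x, a' (e x) = e (a x)) (hb : ∀ x, b' (e x) = e (b x)) :
    chi a' b' = chi a b ∧ ncomp a' b' = ncomp a b := by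
  refine ⟨?_, (Nat.card_congr (Quotient.congr e fun x y =>
    (conn_iff e.injective ha hb x y).symm)).symm⟩
  rw [chi, chi, ncyc_conj e a a' ha, ncyc_conj e b b' hb, Nat.card_congr e,
    ncyc_conj e (a * b) (a' * b') fun x => by rw [Perm.mul_apply, hb, ha, Perm.mul_apply]]

variable [Finite D]

lemma eg_split [DecidableEq D] (a b : Perm D) (x y : D) (h : a.SameCycle x y) :
    eg (a * Equiv.swap x y) b ≤ eg a b := by
  rcases eq_or_ne x y with rfl | hne
  · rw [swap_self]; exact le_of_eq (by congr 1)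
  have e : a * swap x y * b = a * b * swap (b⁻¹ x) (b⁻¹ y) := by
    rw [mul_assoc, swap_mul_eq_mul_swap, mul_assoc]
  have hne' : b⁻¹ x ≠ b⁻¹ y := fun e => hne (b⁻¹.injective e)
  rw [eg, eg, chi, chi, swap_same a x y hne h, e]
  by_cases c : (a * b).SameCycle (b⁻¹ x) (b⁻¹ y)
  · rw [swap_same _ _ _ hne' c]
    have : ncomp (a * swap x y) b ≤ ncomp a b + 1 := by
      refine quot_le_succ _ _ y fun p q hp hq e => ?_
      set r := Conn (a * swap x y) b
      have := conn_le (r := fun p q => r p q ∨ ((r p x ∨ r p y) ∧ (r q x ∨ r q y)))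
        ⟨fun p => Or.inl (conn_rfl _ _ _), fun h => h.imp conn_symm And.symm, by
          rintro p q s (h | h) (h' | h')
          · exact Or.inl (conn_trans h h')
          · exact Or.inr ⟨h'.1.imp (conn_trans h) (conn_trans h), h'.2⟩
          · exact Or.inr ⟨h.1, h.2.imp (conn_trans (conn_symm h')) (conn_trans (conn_symm h'))⟩
          · exact Or.inr ⟨h.1, h'.2⟩⟩ (fun z => by
          by_cases h1 : z = x
          · rw [h1, ← sw_y a x y]
            exact Or.inr ⟨Or.inl (conn_rfl _ _ _), Or.inr (conn_symm (conn_a _ _ _))⟩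
          by_cases h2 : z = y
          · rw [h2, ← sw_x a x y]
            exact Or.inr ⟨Or.inr (conn_rfl _ _ _), Or.inl (conn_symm (conn_a _ _ _))⟩
          rw [← sw_z a x y h1 h2]
          exact Or.inl (conn_a _ _ _)) (fun z => Or.inl (conn_b _ _ _)) e
      rcases this with h | ⟨h | h, h' | h'⟩
      · exact h
      · exact conn_trans h (conn_symm h')
      · exact absurd h' hq
      · exact absurd h hp
      · exact absurd h hp
    push_cast
    omega
  · have h1 := swap_diff _ _ _ c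
    have h2 := sc_merge _ _ _ c
    rw [← e] at h2
    have h3 : Conn (a * swap x y) b x y :=
      conn_trans (conn_bi _ _ x) (conn_trans (conn_sc _ _ _ _ (Or.inr (Or.inr (Or.inl h2))))
        (conn_symm (conn_bi _ _ y)))
    have : ncomp (a * swap x y) b ≤ ncomp a b := by
      refine quot_anti _ _ (conn_congr _ _ _ _ (fun z => ?_) (conn_b _ _))
      by_cases h1 : z = x
      · rw [h1, ← sw_y a x y]; exact conn_trans h3 (conn_a _ _ _)
      by_cases h2 : z = y
      · rw [h2, ← sw_x a x y]; exact conn_trans (conn_symm h3) (conn_a _ _ _)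
      rw [← sw_z a x y h1 h2]
      exact conn_a _ _ _
    push_cast
    omega

lemma eg_ret (a b : Perm D) (Q : D → Prop) : eg (ret a Q) b ≤ eg a b := by
  classical
  induction hn : {z | ¬Q z ∧ a z ≠ z}.ncard using Nat.strong_induction_on generalizing a with
  | _ n ih =>
    by_cases h : ∃ x, ¬Q x ∧ a x ≠ x
    · obtain ⟨x, hx, hne⟩ := h
      rw [ret_peel a Q hx]
      refine le_trans (ih _ ?_ _ rfl) (eg_split a b _ _ ⟨-1, by simp⟩)
      rw [← hn]
      refine Set.ncard_lt_ncard ⟨fun z hz => ⟨hz.1, fun e => hz.2 ?_⟩, fun k => ?_⟩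
      · have h1 : z ≠ x := fun e' => hne (by rw [← e', e])
        have h2 : z ≠ a⁻¹ x := fun e' => h1 (by rw [← e, e']; simp)
        rw [sw_z a _ _ h1 h2, e]
      · exact (k ⟨hx, hne⟩).2 (by simp)
    · push Not at h
      rw [ret_eq (ρ := a) (fun x q => nxt_one (by_contra fun k => k ?_)) h]
      rwa [a.injective (h _ k)]

lemma eg_nonneg (a b : Perm D) : 0 ≤ eg a b := by
  refine le_trans (le_of_eq ?_) (eg_ret a b fun _ => False)
  rw [ret_eq (ρ := 1) (fun _ h => h.elim) fun _ _ => rfl, eg, chi, one_mul, ncyc_one]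
  have : ncomp 1 b = ncyc b := Nat.card_congr (Quotient.congr (Equiv.refl D) fun x y =>
    ⟨conn_le (Perm.SameCycle.equivalence b) (fun _ => .refl _ _) (sc_step b),
      conn_of_sc (conn_b 1 b)⟩)
  rw [this]; ring

lemma ncomp_one [Nonempty D] (a b : Perm D) : (∀ x y, Conn a b x y) ↔ ncomp a b = 1 := by
  rw [ncomp, Nat.card_eq_one_iff_unique]
  constructor
  · intro h
    exact ⟨⟨fun c c' => Quotient.inductionOn₂ c c' fun x y => Quotient.sound (h x y)⟩,
      ⟨Quotient.mk _ (Classical.arbitrary D)⟩⟩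
  · rintro ⟨h, -⟩ x y
    exact Quotient.exact (h.elim (Quotient.mk _ x) (Quotient.mk _ y))

lemma chi_le (a b : Perm D) (h : ∀ x y, Conn a b x y) : chi a b ≤ 2 := by
  have h1 := eg_nonneg a b
  have h2 : ncomp a b ≤ 1 := Finite.card_le_one_iff_subsingleton.2
    ⟨fun c c' => Quotient.inductionOn₂ c c' fun x y => Quotient.sound (h x y)⟩
  rw [eg] at h1
  omega

lemma eg_add {D₀ D₁ : Type} (a b : Perm D) (a₀ b₀ : Perm D₀) (a₁ b₁ : Perm D₁)
    (i₀ : D₀ → D) (i₁ : D₁ → D) (hb : Bijective (Sum.elim i₀ i₁))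
    (h1 : ∀ x, a (i₀ x) = i₀ (a₀ x)) (h2 : ∀ x, b (i₀ x) = i₀ (b₀ x))
    (h3 : ∀ x, a (i₁ x) = i₁ (a₁ x)) (h4 : ∀ x, b (i₁ x) = i₁ (b₁ x)) :
    chi a b = chi a₀ b₀ + chi a₁ b₁ ∧ ncomp a b = ncomp a₀ b₀ + ncomp a₁ b₁ := by
  have j₀ : Injective i₀ := hb.1.comp Sum.inl_injective
  have j₁ : Injective i₁ := hb.1.comp Sum.inr_injective
  have : Finite D₀ := Finite.of_injective _ j₀
  have : Finite D₁ := Finite.of_injective _ j₁
  refine ⟨?_, quot_sum _ _ _ i₀ i₁ hb (conn_iff j₀ h1 h2) (conn_iff j₁ h3 h4) fun x y e => ?_⟩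
  · rw [chi, chi, chi, ncyc_add hb h1 h3, ncyc_add hb h2 h4,
      ncyc_add (a := a * b) (a₀ := a₀ * b₀) (a₁ := a₁ * b₁) hb
        (fun x => by rw [Perm.mul_apply, h2, h1, Perm.mul_apply])
        (fun x => by rw [Perm.mul_apply, h4, h3, Perm.mul_apply]),
      ← Nat.card_eq_of_bijective _ hb, Nat.card_sum]
    push_cast
    ring
  · obtain ⟨z, hz⟩ := (conn_emb j₀ h1 h2 e).1.1 ⟨x, rfl⟩
    exact Sum.inl_ne_inr (hb.1 (a₁ := .inl z) (a₂ := .inr y) hz)

lemma eg_emb {D₀ : Type} (a b : Perm D) (a₀ b₀ : Perm D₀) (i₀ : D₀ → D) (hi : Injective i₀)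
    (h1 : ∀ x, a (i₀ x) = i₀ (a₀ x)) (h2 : ∀ x, b (i₀ x) = i₀ (b₀ x)) : eg a₀ b₀ ≤ eg a b := by
  have k1 : ∀ d, (¬∃ x, i₀ x = a d) ↔ ¬∃ x, i₀ x = d := fun d =>
    not_congr (conn_emb hi h1 h2 (conn_a a b d)).1.symm
  have k2 : ∀ d, (¬∃ x, i₀ x = b d) ↔ ¬∃ x, i₀ x = d := fun d =>
    not_congr (conn_emb hi h1 h2 (conn_b a b d)).1.symm
  obtain ⟨e1, e2⟩ := eg_add a b a₀ b₀ (a.subtypePerm (p := fun d => ¬∃ x, i₀ x = d) k1)
    (b.subtypePerm (p := fun d => ¬∃ x, i₀ x = d) k2) i₀ Subtype.val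
    ⟨by
      rintro (x | x) (y | y) e
      · exact congrArg _ (hi e)
      · exact absurd ⟨x, e⟩ y.2
      · exact absurd ⟨y, e.symm⟩ x.2
      · exact congrArg _ (Subtype.ext e), fun d => by
      by_cases h : ∃ x, i₀ x = d
      · obtain ⟨x, rfl⟩ := h; exact ⟨.inl x, rfl⟩
      · exact ⟨.inr ⟨d, h⟩, rfl⟩⟩ h1 h2 (fun _ => rfl) (fun _ => rfl)
  have := eg_nonneg (a.subtypePerm (p := fun d => ¬∃ x, i₀ x = d) k1)
    (b.subtypePerm (p := fun d => ¬∃ x, i₀ x = d) k2)
  rw [eg] at this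
  rw [eg, eg, e1, e2]
  push_cast
  omega

lemma ncyc_sum {D' : Type} [Finite D'] (a : Perm D) (a' : Perm D') :
    ncyc (Perm.sumCongr a a') = ncyc a + ncyc a' :=
  ncyc_add (i₀ := Sum.inl) (i₁ := Sum.inr) (by rw [Sum.elim_inl_inr]; exact bijective_id)
    (fun _ => rfl) fun _ => rfl

end eg

end Kit1

open Kit1 in
theorem k1 : K1 where
  swap_same := swap_same
  swap_diff := swap_diff
  sc_diff := sc_diff
  sc_same := sc_same
  eg_nonneg := eg_nonneg
  ncomp_one := ncomp_one
  chi_le := chi_le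
  ncyc_inv := ncyc_inv
  ncyc_comm := ncyc_comm
  ncyc_one := ncyc_one
  conn_congr := conn_congr
  conn_sc := conn_sc
  eg_comm := eg_comm
  eg_inv := eg_inv
  eg_mul := eg_mul
  eg_split := eg_split
  sc_ret := sc_ret
  eg_ret := eg_ret
  ncyc_ret := ncyc_ret
  ncyc_on_at := ncyc_on_at
  on_eq_at := on_eq_at
  on_congr := on_congr
  on_or := on_or
  on_map := on_map
  le_at := le_at
  at_le := at_le
  at_eq := at_eq
  at_univ := at_univ
  ncyc_conj := ncyc_conj
  eg_conj := eg_conj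
  invol := invol
  long := long
  ncyc_sum := ncyc_sum
  eg_add := eg_add
  eg_emb := eg_emb

end Pool.Agent.Lib.MP_c1f5fe_lc
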