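import Pool.Agent.Lib.MP_c1f5fe_lc.RegA

/-! Regions: invariants, discs, counting. -/

namespace Pool.Agent.Lib.MP_c1f5fe_lc

open Equiv Function Relation

namespace Reg

variable {D : Type} [Finite D] (k : K1) (M : HMap D) {Q X : D → Prop}
  (h : ∀ q, Q q → Q (M.α q))

omit [Finite D] in
theorem col_cα (c : M.Col Q X) (d : D) : X ((cut M h).α d) ↔ X d :=
  (reg_col M Q X c _ _ (reg_cut_α M h d)).symm

omit [Finite D] in
theorem col_cσ (c : M.Col Q X) (d : D) : X ((cut M h).σ d) ↔ X d :=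
  (reg_col M Q X c _ _ (reg_cut_σ M h d)).symm

/-- the cut map on a union of regions -/
noncomputable def sub (c : M.Col Q X) : HMap {d // X d} where
  φ := M.φ.subtypePerm c.1
  α := (cut M h).α.subtypePerm (col_cα M h c)
  αα d := Subtype.ext ((cut M h).αα d)

theorem sub_σ (c : M.Col Q X) : (sub M h c).σ = (cut M h).σ.subtypePerm (col_cσ M h c) :=
  Equiv.ext fun _ => Subtype.ext rfl

/-- number of boundary cycles -/
noncomputable def bd (X : D → Prop) : ℕ := ncycAt (cut M h).σ fun d => X d ∧ Q d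

include k in
theorem sub_chi (c : M.Col Q X) : (sub M h c).chi = M.inv Q X + bd M h X := by
  have e1 : ncyc (sub M h c).φ = ncycOn M.φ X := ncyc_sub k _ _ c.1
  have e2 : ncyc (sub M h c).α = ncycOn (cut M h).α X := ncyc_sub k _ _ (col_cα M h c)
  have e3 : ncyc ((sub M h c).φ * (sub M h c).α) = ncycOn (cut M h).σ X := by
    rw [← ncyc_sub k _ _ (col_cσ M h c), ← sub_σ]; rfl
  have e4 := on_split k (cut M h).α X Q (col_cα M h c)
  have e5 := on_split k (cut M h).σ X Q (col_cσ M h c)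
  have e6 := k.on_congr (cut M h).α M.α (fun d => X d ∧ ¬Q d) fun d a => cut_α_n M h a.2
  have e7 := k.on_congr (cut M h).σ M.σ (fun d => X d ∧ ¬Q d) fun d a => cut_σ_n M h a.2
  have e8 : ncycAt (cut M h).α (fun d => X d ∧ Q d) = Nat.card {d // X d ∧ Q d} := by
    rw [k.at_eq _ _ id fun d e a _ =>
      ⟨fun x => by cases x; exact .refl _ _, fun s => s.eq_of_left (cut_α_q M h a.2)⟩,
      Set.image_id, card_eq]
  have e9 := card_split X Q
  simp only [HMap.chi, chi, HMap.inv, bd]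
  rw [e1, e2, e3, e4, e5, e6, e7, e8, e9]
  push_cast
  ring

theorem sub_conn (c : M.Col Q X) {x y : D} (r : M.Reg Q x y) :
    ∀ (a : X x) (b : X y), Conn (sub M h c).φ (sub M h c).α ⟨x, a⟩ ⟨y, b⟩ := by
  induction r with
  | rel x y r =>
    intro a b
    rcases r with rfl | ⟨n, rfl⟩
    · exact .rel _ _ (Or.inl rfl)
    · exact .rel _ _ (Or.inr (Subtype.ext (cut_α_n M h n).symm))
  | refl => exact fun _ _ => .refl _
  | symm _ _ _ ih => exact fun a b => .symm _ _ (ih b a)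
  | trans x y z r _ i j =>
    intro a b
    have m := (reg_col M Q X c _ _ r).1 a
    exact .trans _ _ _ (i a m) (j m b)

/-- the class of the region -/
def cls (Q : D → Prop) (d : D) : Quotient (EqvGen.setoid (M.regR Q)) := Quotient.mk _ d

omit [Finite D] in
theorem cls_eq {d e : D} : cls M Q d = cls M Q e ↔ M.Reg Q d e := Quotient.eq

theorem ncomp_le (c : M.Col Q X) (hc : M.Con) (hq : ∃ q, Q q) :
    ncomp (sub M h c).φ (sub M h c).α ≤ (cls M Q '' {d | X d ∧ Q d}).ncard := by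
  rw [← Nat.card_coe_set_eq]
  have ex : ∀ z : cls M Q '' {d | X d ∧ Q d}, ∃ d : {d // X d}, cls M Q d.1 = z.1 := by
    rintro ⟨_, d, a, rfl⟩
    exact ⟨⟨d, a.1⟩, rfl⟩
  choose g hg using ex
  refine Nat.card_le_card_of_surjective (fun z => Quotient.mk _ (g z)) fun w => ?_
  obtain ⟨x, rfl⟩ := Quotient.exists_rep w
  obtain ⟨q, a, r⟩ := hit M Q hc hq x.1
  refine ⟨⟨cls M Q q, q, ⟨(reg_col M Q X c _ _ r).1 x.2, a⟩, rfl⟩, Quotient.eq.2 ?_⟩
  exact sub_conn M h c (.trans _ _ _ ((cls_eq M).1 (hg _)) (.symm _ _ r)) _ _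

include k in
theorem inv_bd (c : M.Col Q X) (hc : M.Con) (hq : ∃ q, Q q) :
    M.inv Q X ≤ (cls M Q '' {d | X d ∧ Q d}).ncard ∧ M.inv Q X ≤ bd M h X := by
  have e1 := sub_chi k M h c
  have e2 := k.eg_nonneg (sub M h c).φ (sub M h c).α
  have e3 := ncomp_le M h c hc hq
  have e4 : (cls M Q '' {d | X d ∧ Q d}).ncard ≤ bd M h X :=
    k.le_at _ _ _ fun d => ((cls_eq M).2 (reg_cut_σ M h d)).symm
  simp only [HMap.chi, eg] at e1 e2
  constructor <;> omega

include k h in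
theorem inv_le {J : Type} [Finite J] (g : J → D) (hc : M.Con) (c : M.Col Q X) (hq : ∃ q, Q q)
    (hg : ∀ q, Q q → X q → ∃ j, M.Reg Q (g j) q) : M.inv Q X ≤ Nat.card J := by
  refine (inv_bd k M h c hc hq).1.trans (Nat.cast_le.2 ?_)
  have : cls M Q '' {d | X d ∧ Q d} ⊆ (fun j => cls M Q (g j)) '' Set.univ := by
    rintro _ ⟨d, a, rfl⟩
    obtain ⟨j, r⟩ := hg d a.2 a.1
    exact ⟨j, trivial, (cls_eq M).2 r⟩
  refine (Set.ncard_le_ncard this).trans ?_
  rw [← Set.ncard_univ]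
  exact Set.ncard_image_le

include k in
theorem inv_add {Y : D → Prop} (_ : M.Col Q X) (c' : M.Col Q Y) :
    M.inv Q X = M.inv Q (fun d => X d ∧ Y d) + M.inv Q fun d => X d ∧ ¬Y d := by
  have s : ∀ d, ¬Q d → (Y (M.σ d) ↔ Y d) := fun d a =>
    (reg_col M Q Y c' _ _ (reg_σ1 M Q a)).symm
  have e1 := k.on_or M.φ (fun d => X d ∧ Y d) (fun d => X d ∧ ¬Y d) (fun d a b => b.2 a.2)
    (fun d a b => b.2 ((c'.1 d).2 a.2)) fun d a b => a.2 ((c'.1 d).1 b.2)
  have e2 := k.on_or M.σ (fun d => (X d ∧ Y d) ∧ ¬Q d) (fun d => (X d ∧ ¬Y d) ∧ ¬Q d)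
    (fun d a b => b.1.2 a.1.2) (fun d a b => b.1.2 ((s d a.2).2 a.1.2))
    fun d a b => a.1.2 ((s d a.2).1 b.1.2)
  have e3 := k.on_or M.α (fun d => (X d ∧ Y d) ∧ ¬Q d) (fun d => (X d ∧ ¬Y d) ∧ ¬Q d)
    (fun d a b => b.1.2 a.1.2) (fun d a b => b.1.2 ((c'.2 d a.2).2 a.1.2))
    fun d a b => a.1.2 ((c'.2 d a.2).1 b.1.2)
  have e4 := card_or (fun d => (X d ∧ Y d) ∧ ¬Q d) (fun d => (X d ∧ ¬Y d) ∧ ¬Q d)
    fun d a b => b.1.2 a.1.2
  have p : ∀ d, (X d ∧ ¬Q d) ↔ ((X d ∧ Y d) ∧ ¬Q d ∨ (X d ∧ ¬Y d) ∧ ¬Q d) := fun d => by tauto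
  simp only [HMap.inv]
  rw [on_pred M.φ (P' := fun d => X d ∧ Y d ∨ X d ∧ ¬Y d) fun d => by tauto, on_pred M.σ p,
    on_pred M.α p, card_congr p, e1, e2, e3, e4]
  push_cast
  ring

omit [Finite D] in
theorem inv_pred {Y : D → Prop} (e : ∀ d, X d ↔ Y d) : M.inv Q X = M.inv Q Y := by
  have : X = Y := funext fun d => propext (e d)
  rw [this]

omit [Finite D] in
theorem inv_zero (e : ∀ d, ¬X d) : M.inv Q X = 0 := by
  simp only [HMap.inv]
  rw [on_zero _ e, on_zero _ fun d a => e d a.1, on_zero _ fun d a => e d a.1,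
    card_zero fun d (a : X d ∧ ¬Q d) => e d a.1]
  simp

include k h in
theorem chi_univ : M.chi = M.inv Q (fun _ => True) + ncycOn M.α Q + ncycAt M.σ Q -
    Nat.card {q // Q q} := by
  have e1 := k.ncyc_on_at M.α Q
  have e2 := k.ncyc_on_at M.σ Q
  have e3 := k.on_eq_at M.α Q (q_iff M h)
  have e4 := card_split (fun _ : D => True) Q
  have e5 := on_univ k M.φ
  have e6 : ncyc (M.φ * M.α) = ncyc M.σ := rfl
  rw [card_univ] at e4
  simp only [HMap.chi, chi, HMap.inv, true_and] at e4 ⊢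
  omega

include k h in
theorem inv_sum (c : M.Col Q X) :
    M.chi = M.inv Q X + M.inv Q (fun d => ¬X d) + ncycOn M.α Q + ncycAt M.σ Q -
      Nat.card {q // Q q} := by
  rw [chi_univ k M h, inv_add k M (col_univ M Q) c]
  simp only [true_and]

include k in
theorem half (e : M.Edges Q) : 2 * ncycOn M.α Q = Nat.card {q // Q q} := by
  rw [k.invol M.α Q M.αα fun x a => (e x a).1,
    card_zero fun x (a : Q x ∧ M.α x = x) => (e x a.1).2 a.2, add_zero]

include k in
theorem reg_chi {q : D} (a : Q q) :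
    M.inv Q (M.Reg Q q) + bd M h (M.Reg Q q) ≤ 2 ∧ 1 ≤ bd M h (M.Reg Q q) := by
  refine ⟨?_, at_pos k _ _ (d := q) ⟨.refl _, a⟩⟩
  rw [← sub_chi k M h (col_reg M Q q)]
  exact k.chi_le _ _ fun x y => sub_conn M h _ (.trans _ _ _ (.symm _ _ x.2) y.2) _ _

include k h in
theorem disc_of (pl : PL2St) {q : D} (a : Q q) (hi : 1 ≤ M.inv Q (M.Reg Q q)) : M.Disc Q q := by
  classical
  obtain ⟨e1, e2⟩ := reg_chi k M h a
  have sc : ∀ e, Q e → M.Reg Q q e → (cut M h).σ.SameCycle q e := fun e b r =>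
    at_sc k _ (fun d => M.Reg Q q d ∧ Q d) (by unfold bd at e1; omega) ⟨.refl _, a⟩ ⟨r, b⟩
  refine ⟨fun e b r => ?_, fun n w θ hw hθ => ?_⟩
  · obtain ⟨m, rfl⟩ := ((k.sc_ret _ Q _ _ a b).2 (sc e b r)).exists_nat_pow_eq
    refine ⟨m, ?_⟩
    have : ∀ m : ℕ, (M.nx Q)^[m] q = (ret (cut M h).σ Q ^ m) q ∧ Q ((M.nx Q)^[m] q) := by
      intro m
      induction m with
      | zero => exact ⟨rfl, a⟩
      | succ m ih =>
        rw [iterate_succ_apply', pow_succ', Perm.mul_apply, ← ih.1, ret_cut M h ih.2]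
        exact ⟨rfl, (nx_q M h _ ih.2).1⟩
    exact (this m).1
  · have c := col_reg M Q q
    let S := sub M h c
    let T : HMap {d // M.Reg Q q d} := ⟨S.σ, S.α, S.αα⟩
    have tσ : ∀ d, T.σ d = S.φ d := fun d => by
      show S.φ (S.α (S.α d)) = _
      rw [S.αα]
    have tα : ∀ d : {d // M.Reg Q q d}, (T.α d).1 = (cut M h).α d.1 := fun _ => rfl
    have tφ : ∀ d : {d // M.Reg Q q d}, (T.φ d).1 = (cut M h).σ d.1 := fun _ => rfl
    have con : T.Con := fun x y => by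
      refine k.conn_congr _ _ S.φ S.α (fun z => ?_) (fun z => .rel _ _ (Or.inr rfl)) _ _
        (sub_conn M h c (.trans _ _ _ (.symm _ _ x.2) y.2) _ _)
      rw [← tσ]
      exact .trans _ _ _ (.rel _ _ (Or.inr rfl)) (.rel _ _ (Or.inl rfl))
    have ch : 2 ≤ T.chi := by
      have e3 := sub_chi k M h c
      have e4 : T.φ * T.α = S.φ := Equiv.ext tσ
      have e5 : T.chi = S.chi := by
        simp only [HMap.chi, chi]
        rw [e4]
        show (ncyc (S.φ * S.α) : ℤ) + ncyc S.α + _ - _ = _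
        ring
      rw [e5, e3]
      omega
    have hσ : ∀ d, M.Reg Q q d → ¬Q d → θ (M.σ d) = θ (M.α d) * (w d)⁻¹ := fun d r b => by
      rw [M.σ_apply, ← hθ _ ((c.2 d b).2 r), hw d r b]
    obtain ⟨cc, c1, c2⟩ := pl _ (FG n) T
      (fun d => if Q d.1 then 1 else θ d.1 * (θ (M.σ d.1))⁻¹) (fun d => (θ d.1)⁻¹)
      ⟨q, .refl _⟩ con ch
      (fun d => by
        by_cases b : Q d.1
        · simp [tα, cut_α_q M h b, b]
        · have b' := mt (q_iff M h d.1).1 b
          simp only [tα, cut_α_n M h b, b, b', if_false, σ_α]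
          rw [hσ _ d.2 b, ← hθ _ d.2]
          group)
      (fun d hd => by
        by_cases b : Q d.1
        · simp [b]
        · have e : M.α d.1 = d.1 := by rw [← cut_α_n M h b, ← tα, hd]
          have e' := hw _ d.2 b
          rw [e] at e'
          have : w d.1 = 1 := by
            have : w d.1 ^ 2 = 1 := by rw [pow_two]; nth_rewrite 1 [e']; simp
            exact (pow_eq_one_iff_left two_ne_zero).1 this
          simp only [b, if_false]
          rw [hσ _ d.2 b, e, this]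
          simp)
      (fun d hd => by
        have b : ¬Q d.1 := fun b => hd (by
          have := sc _ b d.2
          show S.σ.SameCycle _ _
          rw [sub_σ, Perm.sameCycle_subtypePerm]
          exact this)
        simp only [b, if_false, tφ, cut_σ_n M h b]
        group)
    refine ⟨fun d => if r : M.Reg Q q d then cc ⟨d, r⟩ * θ d else 1, fun d r => ?_,
      fun d r b => ?_⟩
    · have r' := (c.1 d).2 r
      have := c1 ⟨d, r⟩
      rw [tσ] at this
      simp only [r, r', dif_pos]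
      rw [mul_assoc, hθ d r, ← this]
      rfl
    · have r' := (c.1 d).2 r
      have r'' := (c.2 d b).2 r
      have t1 := c1 ⟨d, r⟩
      rw [tσ] at t1
      have t2 := c2 ⟨d, r⟩
      have t3 : T.α ⟨d, r⟩ = ⟨M.α d, r''⟩ := Subtype.ext (cut_α_n M h b)
      have t4 : S.φ ⟨d, r⟩ = ⟨M.φ d, r'⟩ := rfl
      simp only [b, if_false, t3] at t2
      simp only [r', r'', dif_pos]
      rw [← t2, ← t4, t1, hσ d r b, ← hθ d r]
      group

include k h in
theorem all (pl : PL2St) (hc : M.Con) (h2 : 2 ≤ M.chi) (qc : M.QCon Q) {q : D} (a : Q q) :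
    M.Disc Q q := by
  apply disc_of k M h pl a
  let s := (ret M.σ Q).subtypePerm (ret_iff M.σ Q)
  let t := M.α.subtypePerm (q_iff M h)
  have e0 : s * t = (ret (cut M h).σ Q).subtypePerm (ret_iff _ Q) :=
    Equiv.ext fun x => Subtype.ext (ret_cut M h x.2).symm
  have con : ∀ x y, EqvGen (fun x y => Q x ∧ Q y ∧ (y = M.α x ∨ M.σ.SameCycle x y)) x y →
      (Q x ↔ Q y) ∧ ∀ (a : Q x) (b : Q y), Conn s t ⟨x, a⟩ ⟨y, b⟩ := by
    intro x y r
    induction r with
    | rel x y r =>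
      refine ⟨iff_of_true r.1 r.2.1, fun a b => ?_⟩
      rcases r.2.2 with rfl | r
      · exact .rel _ _ (Or.inr rfl)
      · exact k.conn_sc _ _ _ _ (Or.inl (Perm.sameCycle_subtypePerm.2 ((k.sc_ret _ Q _ _ a b).2 r)))
    | refl => exact ⟨Iff.rfl, fun _ _ => .refl _⟩
    | symm _ _ _ ih => exact ⟨ih.1.symm, fun a b => .symm _ _ (ih.2 b a)⟩
    | trans _ _ _ _ _ i j => exact ⟨i.1.trans j.1, fun a b => .trans _ _ _ (i.2 a (i.1.1 a)) (j.2 _ b)⟩
  have e1 := k.chi_le s t fun x y => (con _ _ (qc _ _ x.2 y.2)).2 _ _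
  have e2 : ncyc s = ncycAt M.σ Q := by
    rw [ncyc_sub k, k.on_eq_at _ _ (ret_iff _ _), at_ret k _ _ _ fun _ a => a]
  have e3 : ncyc t = ncycOn M.α Q := ncyc_sub k _ _ _
  have e4 : ncyc (s * t) = ncycAt (cut M h).σ Q := by
    rw [e0, ncyc_sub k, k.on_eq_at _ _ (ret_iff _ _), at_ret k _ _ _ fun _ a => a]
  have c := col_reg M Q q
  have e5 := inv_sum k M h c
  have e6 := (inv_bd k M h (col_not M Q c) hc ⟨q, a⟩).2
  have e7 := (reg_chi k M h a).2
  have e8 := at_add k (cut M h).σ (fun d => M.Reg Q q d ∧ Q d) (fun d => ¬M.Reg Q q d ∧ Q d)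
    fun d e x y z => y.1 (.trans _ _ _ x.1 (reg_sc M h z))
  rw [at_pred _ (P' := Q) fun d => by tauto] at e8
  simp only [chi, bd] at e1 e6 e7
  omega

include k h in
theorem count_reg (pl : PL2St) {q : D} (a : Q q) :
    (Nat.card {d // M.Reg Q q d ∧ Q d ∧
        ¬(M.Disc Q d ∧ M.nx Q d ≠ d ∧ M.nx Q (M.nx Q d) = d)} : ℤ) ≤
      3 * Nat.card {d // M.Reg Q q d ∧ Q d} - 6 * M.inv Q (M.Reg Q q) +
        4 * Nat.card {d // M.Reg Q q d ∧ Q d ∧ M.Disc Q d ∧ M.nx Q d = d} := by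
  have e1 : Nat.card {d // M.Reg Q q d ∧ Q d ∧
      ¬(M.Disc Q d ∧ M.nx Q d ≠ d ∧ M.nx Q (M.nx Q d) = d)} ≤
      Nat.card {d // M.Reg Q q d ∧ Q d} := card_mono fun d x => ⟨x.1, x.2.1⟩
  obtain ⟨e2, e3⟩ := reg_chi k M h a
  by_cases hi : M.inv Q (M.Reg Q q) ≤ 0
  · omega
  have dd : ∀ d, M.Reg Q q d → Q d → M.Disc Q d := fun d r b => by
    apply disc_of k M h pl b
    rw [inv_pred M (X := M.Reg Q d) (Y := M.Reg Q q) fun e =>
      ⟨fun x => .trans _ _ _ r x, fun x => .trans _ _ _ (.symm _ _ r) x⟩]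
    omega
  have nq : ∀ d, M.Reg Q q d ∧ Q d → M.Reg Q q (M.nx Q d) ∧ Q (M.nx Q d) := fun d x =>
    ⟨.trans _ _ _ x.1 (nx_q M h d x.2).2.1, (nx_q M h d x.2).1⟩
  have e4 : 0 < Nat.card {d // M.Reg Q q d ∧ Q d} := by
    have : Nonempty {d // M.Reg Q q d ∧ Q d} := ⟨⟨q, .refl _, a⟩⟩
    exact Nat.card_pos
  by_cases n1 : Nat.card {d // M.Reg Q q d ∧ Q d} ≤ 1
  · have e5 : Nat.card {d // M.Reg Q q d ∧ Q d} ≤
        Nat.card {d // M.Reg Q q d ∧ Q d ∧ M.Disc Q d ∧ M.nx Q d = d} := by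
      refine card_mono fun d x => ⟨x.1, x.2, dd d x.1 x.2, ?_⟩
      rw [card_eq, Set.ncard_le_one_iff (Set.toFinite _)] at n1
      exact n1 (nq d x) x
    omega
  by_cases n2 : Nat.card {d // M.Reg Q q d ∧ Q d} = 2
  · have e5 : Nat.card {d // M.Reg Q q d ∧ Q d ∧
        ¬(M.Disc Q d ∧ M.nx Q d ≠ d ∧ M.nx Q (M.nx Q d) = d)} = 0 := by
      rw [card_eq, Set.ncard_eq_two] at n2
      obtain ⟨x, y, xy, hs⟩ := n2
      have mem : ∀ d, M.Reg Q q d ∧ Q d ↔ d = x ∨ d = y := fun d => by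
        have := Set.ext_iff.1 hs d
        simpa using this
      have nf : ∀ d, M.Reg Q q d ∧ Q d → M.nx Q d ≠ d := fun d z f => by
        have key : ∀ e, M.Reg Q q e ∧ Q e → e = d := fun e w => by
          obtain ⟨n, hn⟩ := (dd d z.1 z.2).1 e w.2 (.trans _ _ _ (.symm _ _ z.1) w.1)
          rw [← hn, iterate_fixed f]
        exact xy ((key x ((mem x).2 (Or.inl rfl))).trans (key y ((mem y).2 (Or.inr rfl))).symm)
      refine card_zero fun d z => z.2.2 ⟨dd d z.1 z.2.1, nf d ⟨z.1, z.2.1⟩, ?_⟩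
      have z1 := nq d ⟨z.1, z.2.1⟩
      have u0 := (mem _).1 ⟨z.1, z.2.1⟩
      have u1 := (mem _).1 z1
      have u2 := (mem _).1 (nq _ z1)
      have v0 := nf d ⟨z.1, z.2.1⟩
      have v1 := nf _ z1
      generalize M.nx Q (M.nx Q d) = d2 at *
      generalize M.nx Q d = d1 at *
      rcases u0 with rfl | rfl <;> rcases u1 with rfl | rfl <;> rcases u2 with rfl | rfl <;>
        first | rfl | exact absurd rfl v0 | exact absurd rfl v1
    omega
  omega

include k h in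
theorem count_col (pl : PL2St) (hc : M.Con) (hq : ∃ q, Q q) (n : ℕ) :
    ∀ X : D → Prop, M.Col Q X → Nat.card {d // X d} ≤ n →
    (Nat.card {d // X d ∧ Q d ∧
        ¬(M.Disc Q d ∧ M.nx Q d ≠ d ∧ M.nx Q (M.nx Q d) = d)} : ℤ) ≤
      3 * Nat.card {d // X d ∧ Q d} - 6 * M.inv Q X +
        4 * Nat.card {d // X d ∧ Q d ∧ M.Disc Q d ∧ M.nx Q d = d} := by
  have z : ∀ X : D → Prop, (∀ d, ¬X d) → (Nat.card {d // X d ∧ Q d ∧
        ¬(M.Disc Q d ∧ M.nx Q d ≠ d ∧ M.nx Q (M.nx Q d) = d)} : ℤ) ≤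
      3 * Nat.card {d // X d ∧ Q d} - 6 * M.inv Q X +
        4 * Nat.card {d // X d ∧ Q d ∧ M.Disc Q d ∧ M.nx Q d = d} := fun X e => by
    rw [inv_zero M e, card_zero fun d a => e d (And.left a)]
    omega
  induction n with
  | zero =>
    intro X _ l
    refine z X fun d a => ?_
    have : Nonempty {d // X d} := ⟨⟨d, a⟩⟩
    have : 0 < Nat.card {d // X d} := Nat.card_pos
    omega
  | succ n ih =>
    intro X c l
    by_cases ex : ∃ d, X d
    swap
    · exact z X fun d a => ex ⟨d, a⟩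
    obtain ⟨d, a⟩ := ex
    obtain ⟨q, b, r⟩ := hit M Q hc hq d
    have xq := (reg_col M Q X c _ _ r).1 a
    have sb : ∀ e, M.Reg Q q e → X e := fun e s => (reg_col M Q X c _ _ s).1 xq
    have sp : ∀ P : D → Prop, Nat.card {e // X e ∧ P e} =
        Nat.card {e // M.Reg Q q e ∧ P e} + Nat.card {e // (X e ∧ ¬M.Reg Q q e) ∧ P e} := by
      intro P
      rw [← card_or _ _ fun e x y => y.1.2 x.1]
      exact card_congr fun e => by have := sb e; tauto
    have s0 := card_split X (M.Reg Q q)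
    have p0 : 0 < Nat.card {e // X e ∧ M.Reg Q q e} := by
      have : Nonempty {e // X e ∧ M.Reg Q q e} := ⟨⟨q, xq, .refl _⟩⟩
      exact Nat.card_pos
    have i1 := ih _ (col_and M Q c (col_not M Q (col_reg M Q q))) (by omega)
    have i2 := count_reg k M h pl b
    have i3 := inv_add k M c (col_reg M Q q)
    rw [inv_pred M (X := fun d => X d ∧ M.Reg Q q d) (Y := M.Reg Q q)
      fun e => ⟨fun x => x.2, fun x => ⟨sb e x, x⟩⟩] at i3
    rw [sp, sp, sp, i3]
    push_cast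
    linarith

end Reg

open Reg in
theorem k3 (k : K1) (pl : PL2St) : K3 where
  hit M Q hc hq d := hit M Q hc hq d
  nx_q M _ e q a := nx_q M (fun q a => (e q a).1) q a
  nx_inj M _ _ q e _ _ a := nx_inj M q e a
  reg_col M Q X c d e r := reg_col M Q X c d e r
  col_reg M Q q := col_reg M Q q
  reg_σ M Q d e s n := reg_σ M Q d e s n
  lb M Q g hc e hq hg := by
    have h := fun q a => (e q a).1
    have e1 := inv_le k M h g hc (col_univ M Q) hq fun q a _ => hg q a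
    have e2 := chi_univ k M h
    have e3 := half k M e
    omega
  count M Q hc e hq := by
    have h := fun q a => (e q a).1
    have e1 := count_col k M h pl hc hq _ _ (col_univ M Q) le_rfl
    have e2 := chi_univ k M h
    have e3 := half k M e
    simp only [true_and] at e1 e2
    omega
  all M _ hc h2 e qc _ a := all k M (fun q a => (e q a).1) pl hc h2 qc a
  inv_sum M _ _ h c := inv_sum k M h c
  inv_le M _ _ g hc e c hq hg := inv_le k M (fun q a => (e q a).1) g hc c hq hg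
  disc_of M _ _ e a hi := disc_of k M (fun q a => (e q a).1) pl a hi

end Pool.Agent.Lib.MP_c1f5fe_lc
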