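import Pool.Agent.Lib.MP_c1f5fe_lc.SpecC
import Pool.Agent.Lib.MP_c1f5fe_lc.Kit1
import Pool.Agent.Lib.MP_c1f5fe_lc.Reg

/-! Replacing the inside of a cycle by a wheel. -/

namespace Pool.Agent.Lib.MP_c1f5fe_lc

open Equiv Function Relation

namespace CapIn

open Kit1 Reg

lemma zind {l : ℕ} (h : 3 ≤ l) {P : ZMod l → Prop} {a : ZMod l} (h0 : P a)
    (hs : ∀ i, P i → P (i + 1)) (i : ZMod l) : P i := by
  have : NeZero l := ⟨by omega⟩
  have : ∀ n : ℕ, P (a + n) := fun n => by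
    induction n with
    | zero => simpa
    | succ n ih => rw [Nat.cast_succ, ← add_assoc]; exact hs _ ih
  have := this (i - a).val
  rwa [ZMod.natCast_zmod_val, add_sub_cancel] at this

lemma two_ne {l : ℕ} (h : 3 ≤ l) (i : ZMod l) : i + 1 + 1 ≠ i := by
  intro e
  have : ((2 : ℕ) : ZMod l) = 0 := by push_cast; linear_combination e
  have := Nat.le_of_dvd (by norm_num) ((ZMod.natCast_eq_zero_iff _ _).1 this)
  omega

/-- a cycle of darts along `c` -/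
structure Rg {D V : Type} {l : ℕ} (M : HMap D) (vx : D → Option V) (c : ZMod l → V)
    (Q : D → Prop) (q : ZMod l → D) : Prop where
  three : 3 ≤ l
  inj : Injective c
  vσ : ∀ d, vx (M.σ d) = vx d
  cyc : ∀ d e v, vx d = some v → vx e = some v → M.σ.SameCycle d e
  mem : ∀ d, Q d ↔ ∃ i, d = q i ∨ d = M.α (q i)
  t : ∀ i, vx (q i) = some (c i)
  h : ∀ i, vx (M.α (q i)) = some (c (i + 1))

namespace Rg
variable {D V : Type} {l : ℕ} {M : HMap D} {vx : D → Option V} {c : ZMod l → V} {Q : D → Prop}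
  {q : ZMod l → D} (g : Rg M vx c Q q)
include g

lemma q1 (i : ZMod l) : Q (q i) := (g.mem _).2 ⟨i, .inl rfl⟩

lemma q2 (i : ZMod l) : Q (M.α (q i)) := (g.mem _).2 ⟨i, .inr rfl⟩

lemma qinj {i j : ZMod l} : q i = q j ↔ i = j :=
  ⟨fun e => g.inj (Option.some.inj ((g.t i).symm.trans (e ▸ g.t j))), fun e => e ▸ rfl⟩

lemma ne (i j : ZMod l) : q i ≠ M.α (q j) := fun e => by
  have a := g.inj (Option.some.inj ((g.t i).symm.trans (e ▸ g.h j)))
  have b := g.h i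
  rw [e, M.αα, g.t, a] at b
  exact two_ne g.three j (g.inj (Option.some.inj b)).symm

lemma edges : M.Edges Q := fun d a => by
  obtain ⟨i, rfl | rfl⟩ := (g.mem d).1 a
  · exact ⟨g.q2 i, (g.ne i i).symm⟩
  · rw [M.αα]; exact ⟨g.q1 i, g.ne i i⟩

lemma flip : Rg M vx (fun i => c (-i)) Q fun i => M.α (q (-i - 1)) where
  three := g.three
  inj := g.inj.comp neg_injective
  vσ := g.vσ
  cyc := g.cyc
  mem d := (g.mem d).trans ⟨fun ⟨i, e⟩ => ⟨-i - 1, by simpa [M.αα] using e.symm⟩,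
    fun ⟨i, e⟩ => ⟨-i - 1, by simpa [M.αα] using e.symm⟩⟩
  t i := by rw [g.h, sub_add_cancel]
  h i := by rw [M.αα, g.t, neg_add']

variable [Finite D]

lemma nx1 (i : ZMod l) : M.nx Q (q i) = q (i + 1) := by
  obtain ⟨a, -, s, -⟩ := nx_q M (fun d a => (g.edges d a).1) _ (g.q1 i)
  have v : vx (M.nx Q (q i)) = some (c (i + 1)) :=
    sc_ind (P := fun z => vx z = _) s (by rw [← σ_α, g.vσ, g.h]) fun z e => (g.vσ z).trans e
  obtain ⟨j, e | e⟩ := (g.mem _).1 a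
  · rw [e, g.t] at v
    rw [e, g.inj (Option.some.inj v)]
  · rw [e, g.h] at v
    rw [add_right_cancel (g.inj (Option.some.inj v))] at e
    exact absurd (((sc_ret _ Q _ _ (g.q2 i) (g.q1 _)).2
      (g.cyc _ _ _ (g.h i) (g.t _))).eq_of_left e).symm (g.ne _ _)

lemma nx2 (i : ZMod l) : M.nx Q (M.α (q i)) = M.α (q (i - 1)) := by
  have := g.flip.nx1 (-i - 1)
  simpa using this

lemma reg1 (i j : ZMod l) : M.Reg Q (q i) (q j) :=
  zind g.three (P := fun j => M.Reg Q (q i) (q j)) (.refl _)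
    (fun j r => .trans _ _ _ r (g.nx1 j ▸ (nx_q M (fun d a => (g.edges d a).1) _ (g.q1 j)).2.1)) j

lemma sep (k3 : K3) (hc : M.Con) (h2 : 2 ≤ M.chi) (i j : ZMod l) :
    ¬M.Reg Q (q i) (M.α (q j)) := fun r => by
  have s : ∀ i, EqvGen (fun x y => Q x ∧ Q y ∧ (y = M.α x ∨ M.σ.SameCycle x y)) (q i)
      (M.α (q i)) := fun i => .rel _ _ ⟨g.q1 i, g.q2 i, .inl rfl⟩
  have t := zind g.three (a := 0) (P := fun i => EqvGen
    (fun x y => Q x ∧ Q y ∧ (y = M.α x ∨ M.σ.SameCycle x y)) (q 0) (q i)) (.refl _) fun i r =>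
      .trans _ _ _ r (.trans _ _ _ (s i)
        (.rel _ _ ⟨g.q2 i, g.q1 _, .inr (g.cyc _ _ _ (g.h i) (g.t _))⟩))
  have u : ∀ e, Q e → EqvGen (fun x y => Q x ∧ Q y ∧ (y = M.α x ∨ M.σ.SameCycle x y)) (q 0) e :=
    fun e a => by
      obtain ⟨i, rfl | rfl⟩ := (g.mem e).1 a
      exacts [t i, .trans _ _ _ (t i) (s i)]
  obtain ⟨n, e⟩ := (k3.all M Q hc h2 g.edges
    (fun x y a b => .trans _ _ _ (.symm _ _ (u x a)) (u y b)) _ (g.q1 i)).1 _ (g.q2 j) r
  have : ∀ n : ℕ, (M.nx Q)^[n] (q i) = q (i + n) := fun n => by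
    induction n with
    | zero => simp
    | succ n ih => rw [iterate_succ_apply', ih, g.nx1, Nat.cast_succ, add_assoc]
  exact g.ne _ _ (this n ▸ e)

lemma ifc {D' V' : Type} [Finite D'] {M' : HMap D'} {vx' : D' → Option V'} {c' : ZMod l → V'}
    {Q' : D' → Prop} {q' : ZMod l → D'} (g' : Rg M' vx' c' Q' q') {X : D → Prop} {X' : D' → Prop}
    (hc : M.Con) (hc' : M'.Con) (cl : M.Col Q X) (cl' : M'.Col Q' X') (x1 : ∀ i, ¬X (q i))
    (x2 : ∀ i, X (M.α (q i))) (y1 : ∀ i, X' (q' i)) (y2 : ∀ i, ¬X' (M'.α (q' i))) :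
    Ifc M Q X M' Q' X'
      fun x y => ∃ i, (x = q i ∧ y = q' i) ∨ (x = M.α (q i) ∧ y = M'.α (q' i)) where
  con₁ := hc
  con₂ := hc'
  e₁ := g.edges
  e₂ := g'.edges
  c₁ := cl
  c₂ := cl'
  dom := by
    rintro _ _ ⟨i, ⟨rfl, rfl⟩ | ⟨rfl, rfl⟩⟩
    exacts [⟨g.q1 i, g'.q1 i⟩, ⟨g.q2 i, g'.q2 i⟩]
  tot₁ x a := by
    obtain ⟨i, rfl | rfl⟩ := (g.mem x).1 a
    exacts [⟨_, i, .inl ⟨rfl, rfl⟩⟩, ⟨_, i, .inr ⟨rfl, rfl⟩⟩]
  tot₂ x a := by
    obtain ⟨i, rfl | rfl⟩ := (g'.mem x).1 a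
    exacts [⟨_, i, .inl ⟨rfl, rfl⟩⟩, ⟨_, i, .inr ⟨rfl, rfl⟩⟩]
  bij := by
    rintro _ _ _ _ ⟨i, ⟨rfl, rfl⟩ | ⟨rfl, rfl⟩⟩ ⟨j, ⟨rfl, rfl⟩ | ⟨rfl, rfl⟩⟩
    · rw [g.qinj, g'.qinj]
    · exact iff_of_false (g.ne i j) (g'.ne i j)
    · exact iff_of_false (g.ne j i).symm (g'.ne j i).symm
    · rw [M.α.apply_eq_iff_eq, M'.α.apply_eq_iff_eq, g.qinj, g'.qinj]
  al := by
    rintro _ _ ⟨i, ⟨rfl, rfl⟩ | ⟨rfl, rfl⟩⟩
    exacts [⟨i, .inr ⟨rfl, rfl⟩⟩, ⟨i, .inl ⟨M.αα _, M'.αα _⟩⟩]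
  nx := by
    rintro _ _ ⟨i, ⟨rfl, rfl⟩ | ⟨rfl, rfl⟩⟩
    exacts [⟨_, .inl ⟨g.nx1 i, g'.nx1 i⟩⟩, ⟨_, .inr ⟨g.nx2 i, g'.nx2 i⟩⟩]
  col := by
    rintro _ _ ⟨i, ⟨rfl, rfl⟩ | ⟨rfl, rfl⟩⟩
    exacts [iff_of_false (x1 i) (not_not.2 (y1 i)), iff_of_true (x2 i) (y2 i)]
  reg := by
    rintro _ _ _ _ ⟨i, ⟨rfl, rfl⟩ | ⟨rfl, rfl⟩⟩ ⟨j, ⟨rfl, rfl⟩ | ⟨rfl, rfl⟩⟩ a r
    · exact g'.reg1 i j
    · exact absurd ((reg_col M Q X cl _ _ r).2 (x2 j)) a
    · exact absurd (x2 i) a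
    · exact absurd (x2 i) a
  flag := .inl ⟨_, g.q1 0⟩

end Rg

/-- darts of the wheel: rim inside, rim outside, spokes to the hub, spokes from the hub -/
abbrev W (l : ℕ) : Type := (ZMod l ⊕ ZMod l) ⊕ (ZMod l ⊕ ZMod l)

def wα {l : ℕ} : W l → W l
  | .inl (.inl i) => .inl (.inr i)
  | .inl (.inr i) => .inl (.inl i)
  | .inr (.inl i) => .inr (.inr (i + 1))
  | .inr (.inr i) => .inr (.inl (i - 1))

lemma wαα {l : ℕ} : Involutive (wα (l := l)) := by rintro ((i | i) | (i | i)) <;> simp [wα]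

def wheel (l : ℕ) : HMap (W l) where
  φ :=
    { toFun := fun
        | .inl (.inl i) => .inr (.inl i)
        | .inl (.inr i) => .inl (.inr (i - 1))
        | .inr (.inl i) => .inr (.inr i)
        | .inr (.inr i) => .inl (.inl i)
      invFun := fun
        | .inl (.inl i) => .inr (.inr i)
        | .inl (.inr i) => .inl (.inr (i + 1))
        | .inr (.inl i) => .inl (.inl i)
        | .inr (.inr i) => .inr (.inl i)
      left_inv := by rintro ((i | i) | (i | i)) <;> simp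
      right_inv := by rintro ((i | i) | (i | i)) <;> simp }
  α := wαα.toPerm
  αα := wαα

def wv {l : ℕ} {A : Type} (c : ZMod l → A) : W l → Option (Option A)
  | .inl (.inl i) => some (some (c i))
  | .inl (.inr i) => some (some (c (i + 1)))
  | .inr (.inl i) => some (some (c (i + 1)))
  | .inr (.inr _) => some none

def wQ {l : ℕ} : W l → Prop := Sum.elim (fun _ => True) fun _ => False

def wX {l : ℕ} : W l → Prop := Sum.elim (Sum.elim (fun _ => True) fun _ => False) fun _ => True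

lemma hub {l : ℕ} (h : 3 ≤ l) (i j : ZMod l) :
    (wheel l).σ.SameCycle (.inr (.inr i)) (.inr (.inr j)) :=
  zind h (P := fun j => (wheel l).σ.SameCycle (.inr (.inr i)) (.inr (.inr j))) .rfl
    (fun j r => r.trans (by
      have : (wheel l).σ (.inr (.inr (j + 1))) = .inr (.inr (j + 1 - 1)) := rfl
      rw [add_sub_cancel_right] at this
      exact (this ▸ sc_step _ _).symm)) j

lemma w_rg {l : ℕ} (h : 3 ≤ l) {A : Type} {c : ZMod l → A} (hc : Injective c) :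
    Rg (wheel l) (wv c) (fun i => some (c i)) wQ fun i => .inl (.inl i) where
  three := h
  inj := (Option.some_injective _).comp hc
  vσ := by
    rintro ((i | i) | (i | i))
    · exact congrArg (fun z => some (some (c z))) (sub_add_cancel i 1)
    all_goals rfl
  cyc := by
    have a : ∀ d v, wv c d = some v → (∃ i, v = some (c i) ∧
        (wheel l).σ.SameCycle d (.inl (.inl i))) ∨ (v = none ∧ ∃ i, d = .inr (.inr i)) := by
      rintro ((i | i) | (i | i)) v e <;> cases e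
      · exact .inl ⟨i, rfl, .rfl⟩
      · exact .inl ⟨_, rfl, (sc_step _ _).trans (sc_step _ _)⟩
      · exact .inl ⟨_, rfl, sc_step _ _⟩
      · exact .inr ⟨rfl, i, rfl⟩
    intro d e v x y
    rcases a d v x with ⟨i, rfl, s⟩ | ⟨rfl, i, rfl⟩ <;>
      rcases a e _ y with ⟨j, u, t⟩ | ⟨u, j, rfl⟩
    · exact s.trans (hc (Option.some.inj u) ▸ t.symm)
    · cases u
    · cases u
    · exact hub h i j
  mem := by
    rintro ((i | i) | i)
    · exact iff_of_true trivial ⟨i, .inl rfl⟩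
    · exact iff_of_true trivial ⟨i, .inr rfl⟩
    · exact iff_of_false id (by rintro ⟨j, e | e⟩ <;> cases e)
  t _ := rfl
  h _ := rfl

lemma w_col {l : ℕ} : (wheel l).Col wQ wX :=
  ⟨by rintro ((i | i) | (i | i)) <;> rfl, by
    rintro (i | (i | i)) a
    exacts [absurd trivial a, Iff.rfl, Iff.rfl]⟩

lemma w_con {l : ℕ} [NeZero l] (h : 3 ≤ l) : (wheel l).Con := by
  have a : ∀ i, Conn (wheel l).φ (wheel l).α (.inr (.inr 0)) (.inr (.inr i)) := fun i =>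
    conn_sc _ _ _ _ (.inr (.inr (.inl (hub h 0 i))))
  have b : ∀ d, Conn (wheel l).φ (wheel l).α (.inr (.inr 0)) d := by
    rintro ((i | i) | (i | i))
    · exact conn_trans (a i) (conn_a _ _ _)
    · exact conn_trans (conn_trans (a i) (conn_a _ _ _)) (conn_b _ _ _)
    · exact conn_trans (conn_trans (a i) (conn_a _ _ _)) (conn_a _ _ _)
    · exact a i
  exact fun d e => conn_trans (conn_symm (b d)) (b e)

lemma w_inv (k : K1) {l : ℕ} [NeZero l] : 1 ≤ (wheel l).inv wQ wX := by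
  have e1 := k.le_at (wheel l).φ wX (Sum.elim (Sum.elim id fun _ => 0) (Sum.elim id id))
    (by rintro ((i | i) | (i | i)) <;> rfl)
  rw [← k.on_eq_at _ _ w_col.1, Set.eq_univ_of_forall (s := _ '' {d : W l | wX d})
    fun i => ⟨.inl (.inl i), trivial, rfl⟩, Set.ncard_univ] at e1
  have e2 := k.invol (wheel l).α (fun d => wX d ∧ ¬wQ d) wαα (by
    rintro (i | (i | i)) a
    exacts [absurd trivial a.2, ⟨trivial, id⟩, ⟨trivial, id⟩])
  have e3 : Nat.card {d : W l // wX d ∧ ¬wQ d} ≤ Nat.card (ZMod l ⊕ ZMod l) :=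
    Nat.card_le_card_of_surjective (fun x => ⟨.inr x, trivial, id⟩) (by
      rintro ⟨i | i, a⟩
      exacts [absurd trivial a.2, ⟨i, rfl⟩])
  rw [Nat.card_sum] at e3
  have e4 : 1 ≤ ncycOn (wheel l).σ fun d => wX d ∧ ¬wQ d := by
    refine Nat.card_pos_iff.2 ⟨⟨⟨Quotient.mk _ (.inr (.inr 0)), fun d e => ?_⟩⟩, inferInstance⟩
    obtain ⟨i, rfl⟩ := sc_ind (P := fun z => ∃ i, z = .inr (.inr i))
      (Perm.SameCycle.symm (Quotient.exact e)) ⟨0, rfl⟩ (by rintro _ ⟨i, rfl⟩; exact ⟨_, rfl⟩)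
    exact ⟨trivial, id⟩
  simp only [HMap.inv]
  omega

lemma core (k1 : K1) (k3 : K3) (sw : SwapSt) {k l : ℕ} {V D : Type} [Finite D]
    {G : SimpleGraph V} {U K : Set V} (S : Sk k G U D) {w : D → FG k} {c c' : ZMod l → V}
    (ht : S.Top) (hv : S.Valid w) (F : Frame G U c K) (rc : Set.range c' = Set.range c)
    (fr : S.FreeOn w (Set.range c)) {Q In : D → Prop} {q : ZMod l → D}
    (g : Rg S.toHMap S.vx c' Q q)
    (hQ : ∀ d, Q d ↔ S.real d ∧ ∃ u ∈ Set.range c, ∃ v ∈ Set.range c, S.E d u v)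
    (col : S.toHMap.Col Q In) (i1 : ∀ i, In (q i)) (i2 : ∀ i, ¬In (S.α (q i)))
    (i3 : ∀ d, In d → ∃ v, v ∉ K ∧ S.vx d = some v) : Sol k (capG G K c) (capU U K c) := by
  classical
  have : NeZero l := ⟨by have := g.three; omega⟩
  have cr : ∀ i, c' i ∈ Set.range c := fun i => rc ▸ ⟨i, rfl⟩
  have cU : ∀ i, c' i ∉ U := fun i => (cr i).elim fun j e => e ▸ F.free j
  let c₂ : ZMod l → {v // v ∈ K ∨ v ∈ Set.range c} := fun i => ⟨c' i, .inr (cr i)⟩
  let vx : D → Option (Option {v // v ∈ K ∨ v ∈ Set.range c}) := fun d =>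
    (S.vx d).bind fun v => if h : v ∈ K ∨ v ∈ Set.range c then some (some ⟨v, h⟩) else none
  have v1 : ∀ {d} a, S.vx d = some a.1 → vx d = some (some a) := fun a e => by
    simp only [vx, e, Option.bind_some, dif_pos a.2]
  have v2 : ∀ {d z}, vx d = some z → ∃ a, z = some a ∧ S.vx d = some a.1 := fun {d z} e => by
    obtain ⟨v, a, b⟩ := Option.bind_eq_some_iff.1 e
    split_ifs at b with h
    exact ⟨⟨v, h⟩, (Option.some.inj b).symm, a⟩
  let real : D → Prop := fun d => S.real d ∧ ∃ a b, vx d = some a ∧ vx (S.α d) = some b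
  have ue : ∀ {d e}, real d → vx d = vx e → S.vx d = S.vx e := fun ⟨_, a, _, x, _⟩ y => by
    obtain ⟨a, rfl, u⟩ := v2 x
    obtain ⟨b, v, t⟩ := v2 (y ▸ x)
    rw [u, t, Option.some.inj v]
  have ra : ∀ {d}, real d → real (S.α d) := fun ⟨r, a, b, x, y⟩ =>
    ⟨S.real_α _ r, b, a, y, by rwa [S.αα]⟩
  have un : ∀ {d e}, S.real d → S.real e → S.vx d = S.vx e → S.vx (S.α d) = S.vx (S.α e) →
      d = e := fun r r' x y => by
    obtain ⟨u, v, a, b, j⟩ := S.real_adj _ r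
    exact (S.real_ex u v j).unique ⟨r, a, b⟩ ⟨r', x ▸ a, y ▸ b⟩
  have g' := w_rg g.three (c := c₂) fun i j e => g.inj (congrArg Subtype.val e)
  have qr : ∀ {d}, Q d → real d ∧ w d = 1 := fun a => by
    obtain ⟨r, u, hu, v, hv, e⟩ := (hQ _).1 a
    exact ⟨⟨r, _, _, v1 ⟨u, .inr hu⟩ e.1, v1 ⟨v, .inr hv⟩ e.2⟩, fr _ u v e hu hv⟩
  have l1 : ∀ x, x ∉ labs (1 : FG k) := by simp [labs]
  have aj : ∀ i, G.Adj (c' i) (c' (i + 1)) := fun i => by
    obtain ⟨u, v, a, b, j⟩ := S.real_adj _ (qr (g.q1 i)).1.1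
    rw [g.t] at a; rw [g.h] at b; cases a; cases b; exact j
  obtain ⟨S', -, a, -, -, -, -, b⟩ := sw k _ D (W l) (capG G K c) (capU U K c) S.ok S.toHMap Q
    (fun d => ¬In d) vx real w (wheel l) wQ wX (wv c₂) (fun _ => True) (fun _ => 1) _ S.term
    (g.ifc g' ht.1 (w_con g.three) (col_not _ _ col) w_col (fun i => not_not.2 (i1 i)) i2
      (fun _ => trivial) fun _ => id)
    { vx_σ := fun d => by simp only [vx, g.vσ]
      vx_cyc := fun d e z _ _ x y => by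
        obtain ⟨a, rfl, u⟩ := v2 x
        obtain ⟨b, v, t⟩ := v2 y
        exact S.vx_cyc d e _ u (Option.some.inj v ▸ t)
      real_α := fun _ _ => ra
      real_adj := fun d _ ⟨r, _, _, x, y⟩ => by
        obtain ⟨a, rfl, u⟩ := v2 x
        obtain ⟨b, rfl, t⟩ := v2 y
        obtain ⟨u', v', a', b', j⟩ := S.real_adj _ r
        rw [u] at a'; rw [t] at b'; cases a'; cases b'
        exact ⟨_, _, x, y, j⟩
      uniq := fun d e _ _ r r' x y => un r.1 r'.1 (ue r x) (ue (ra r) y)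
      inv := fun d _ => hv.inv d
      pot := hv.pot.imp fun _ h d _ => h d
      edge := fun d _ r => hv.edge d r.1
      vert := fun d e i _ _ r r' x => hv.vert d e i r.1 r'.1 (ue r x)
      cap := fun d z _ x hz => by
        obtain ⟨a, rfl, u⟩ := v2 x
        have aU := hz a rfl
        have aK : a.1 ∈ K := a.2.resolve_right fun ⟨i, e⟩ => F.free i (e ▸ aU)
        have kp : ∀ {e y}, S.vx e = some a.1 → S.vx (S.α e) = some y →
            y ∈ K ∨ y ∈ Set.range c := fun {e y} s t => by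
          obtain ⟨u', v', a', b', j⟩ := S.real_adj _ (S.cap e _ s aU).1
          rw [s] at a'; rw [t] at b'; cases a'; cases b'
          exact or_iff_not_imp_left.2 fun n => F.sep ⟨n, _, aK, j⟩
        obtain ⟨r, t, y, y', e, e', j⟩ := S.cap d _ u aU
        have k1 := kp u (S.vx_φ d ▸ e)
        have k2 := kp (e := S.α (S.φ (S.φ d))) (by rw [← S.vx_φ, t, u]) (by rwa [S.αα])
        exact ⟨⟨r, _, _, x, v1 ⟨y, k1⟩ (S.vx_φ d ▸ e)⟩, t, _, _, v1 ⟨y, k1⟩ e, v1 ⟨y', k2⟩ e', j⟩ }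
    { vx_σ := g'.vσ
      vx_cyc := fun d e z _ _ => g'.cyc d e z
      real_α := fun _ _ _ => trivial
      real_adj := by
        rintro ((i | i) | (i | i)) x -
        exacts [⟨_, _, rfl, rfl, aj i⟩, x.elim, ⟨_, _, rfl, rfl, cr _⟩, ⟨_, _, rfl, rfl, cr _⟩]
      uniq := by
        rintro ((i | i) | (i | i)) ((j | j) | (j | j)) x y - - s t <;>
          first | exact x.elim | exact y.elim | simp_all [wv, wheel, wα, c₂, g.inj.eq_iff]
      inv := fun _ _ => inv_one.symm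
      pot := ⟨fun _ => 1, fun _ _ _ => one_mul _⟩
      edge := fun _ _ _ => by simp [labs]
      vert := fun _ _ _ _ _ _ _ _ _ => l1 _
      cap := by
        rintro ((i | i) | (i | i)) z x s hz <;> cases s
        iterate 3 exact absurd (hz _ rfl) (cU _)
        exact ⟨trivial, rfl, _, _, rfl, rfl, aj i⟩ }
    (by
      rintro _ _ ⟨i, ⟨rfl, rfl⟩ | ⟨rfl, rfl⟩⟩
      · exact ⟨v1 (c₂ i) (g.t i), iff_of_true (qr (g.q1 i)).1 trivial, (qr (g.q1 i)).2⟩
      · exact ⟨v1 (c₂ _) (g.h i), iff_of_true (qr (g.q2 i)).1 trivial, (qr (g.q2 i)).2⟩)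
    (by
      have e : ∀ a : {v // v ∈ K ∨ v ∈ Set.range c}, a.1 ∈ Set.range c → ∃ i, a = c₂ (i + 1) :=
        fun a h => by
          obtain ⟨i, e⟩ : a.1 ∈ Set.range c' := rc.symm ▸ h
          exact ⟨i - 1, Subtype.ext (by simp [c₂, e])⟩
      rintro (_ | a) (_ | b) j
      · exact j.elim
      · obtain ⟨i, rfl⟩ := e b j
        refine .inr ⟨.inr (.inr (i + 1)), trivial, trivial, rfl, ?_⟩
        exact congrArg (fun z => some (some (c₂ z))) (sub_add_cancel _ 1)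
      · obtain ⟨i, rfl⟩ := e a j
        exact .inr ⟨.inr (.inl i), trivial, trivial, rfl, rfl⟩
      · obtain ⟨d, ⟨r, x, y⟩, -⟩ := S.real_ex a.1 b.1 j
        by_cases n : In d
        · have rg : ∀ {e} (z : {v // v ∈ K ∨ v ∈ Set.range c}), In e → S.vx e = some z.1 →
              z.1 ∈ Set.range c := fun z s t => by
            obtain ⟨v, hv, u⟩ := i3 _ s
            rw [t] at u; cases u
            exact z.2.resolve_left hv
          obtain ⟨i, rfl | rfl⟩ := (g.mem d).1 ((hQ d).2 ⟨r, _, rg a n x, _,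
            rg b ((col.1 d).2 n) (S.vx_φ d ▸ y), x, y⟩)
          · refine .inr ⟨.inl (.inl i), trivial, trivial, ?_, ?_⟩
            · exact (v1 (c₂ i) (g.t i)).symm.trans (v1 a x)
            · exact (v1 (c₂ _) (g.h i)).symm.trans (v1 b y)
          · exact absurd n (i2 i)
        · exact .inl ⟨d, n, ⟨r, _, _, v1 a x, v1 b y⟩, v1 a x, v1 b y⟩)
    (by
      rintro d ((i | i) | (i | i)) x y r - s t
      · obtain rfl := un r.1 (qr (g.q1 i)).1.1 (ue r (s.trans (v1 (c₂ i) (g.t i)).symm))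
          (ue (ra r) (t.trans (v1 (c₂ _) (g.h i)).symm))
        exact x (i1 i)
      · exact y
      · obtain ⟨a, e, -⟩ := v2 t; cases e
      · obtain ⟨a, e, -⟩ := v2 s; cases e)
    (by
      rintro d ((i | i) | (i | i)) z - - s t <;> cases t
      iterate 3 exact ⟨_, g.q1 _, v1 (c₂ _) (g.t _)⟩
      obtain ⟨a, e, -⟩ := v2 s; cases e)
    (fun _ _ _ _ _ _ _ _ _ _ => l1 _)
    (fun i => ⟨fun n => (i3 _ n).elim fun _ e => (nomatch (S.term_vx i _ .rfl).symm.trans e.2),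
      fun d s => by simp only [vx, S.term_vx i d s, Option.bind_none],
      S.term_four i, hv.t0 i, hv.t1 i, hv.t2 i, hv.t3 i⟩)
    S.ok_symm S.ok_idx S.ok_once
    (by
      have e1 := k3.inv_le S.toHMap Q (fun d => ¬¬In d) (fun _ : Unit => q 0) ht.1 g.edges
        (col_not _ _ (col_not _ _ col)) ⟨_, g.q1 0⟩ fun d a b => by
          obtain ⟨i, rfl | rfl⟩ := (g.mem d).1 a
          exacts [⟨(), g.reg1 0 i⟩, absurd (i2 i) b]
      have e2 := w_inv k1 (l := l)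
      have e3 := ht.2
      rw [Nat.card_unique] at e1
      omega)
  exact ⟨_, inferInstance, S', _, a, b⟩

lemma mid (k1 : K1) (k2 : K2) (k3 : K3) (sw : SwapSt) {k l : ℕ} {V D D₀ : Type} [Finite D]
    [Finite D₀] {G : SimpleGraph V} {U K Zn : Set V} (S : Sk k G U D) {w : D → FG k}
    {c c' : ZMod l → V} (ht : S.Top) (hv : S.Valid w) (F : Frame G U c K)
    (rc : Set.range c' = Set.range c) (fr : S.FreeOn w (Set.range c)) (fu : S.Full Zn)
    (hZ : ∀ v, v ∉ K → v ∈ Zn ∧ G.neighborSet v ⊆ Zn) {M₀ : HMap D₀} {ι : D₀ → D}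
    (sb : S.toHMap.Sub (S.AdjD Zn) M₀ ι) (hc : M₀.Con) (h2 : 2 ≤ M₀.chi) {Q : D → Prop}
    (hQ : ∀ d, Q d ↔ S.real d ∧ ∃ u ∈ Set.range c, ∃ v ∈ Set.range c, S.E d u v)
    {q : ZMod l → D₀} (g : Rg M₀ (fun x => S.vx (ι x)) c' (fun x => Q (ι x)) q)
    (hK : ∀ x v, S.vx (ι x) = some v → v ∈ K → ¬M₀.Reg (fun x => Q (ι x)) (q 0) x) :
    Sol k (capG G K c) (capU U K c) := by
  let In : D → Prop := fun d => ∃ x, ι x = d ∧ M₀.Reg (fun x => Q (ι x)) (q 0) x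
  have fw : ∀ d, In d → In (S.φ d) := by
    rintro _ ⟨x, rfl, r⟩
    have r' := EqvGen.trans _ _ _ r (reg_φ M₀ _ x)
    obtain ⟨u, v, e, -⟩ := (sb.range _).2 ⟨x, rfl⟩
    have n := hZ v fun a => hK _ v (by
      have := g.vσ (M₀.α x)
      rw [σ_α] at this
      rw [this, sb.al, e.2]) a r'
    have e' := (S.vx_φ _).trans e.2
    obtain ⟨v', a, b⟩ := fu _ v e' n.1
    exact ⟨_, k2.sub_φ _ _ _ _ x sb ⟨v, v', ⟨e', a⟩, b, n.1, n.2 b⟩, r'⟩
  have fα : ∀ d, ¬Q d → In d → In (S.α d) := by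
    rintro _ a ⟨x, rfl, r⟩
    exact ⟨_, sb.al x, .trans _ _ _ r (reg_α M₀ _ a)⟩
  have g₁ : Rg S.toHMap S.vx c' Q fun i => ι (q i) :=
    { three := g.three
      inj := g.inj
      vσ := S.vx_σ
      cyc := S.vx_cyc
      mem := fun d => ⟨fun a => by
        obtain ⟨r, _, ⟨i, rfl⟩, _, ⟨j, rfl⟩, e⟩ := (hQ d).1 a
        obtain ⟨u, v, s, t, y⟩ := S.real_adj d r
        rw [e.1] at s; rw [e.2] at t; cases s; cases t
        obtain ⟨x, rfl⟩ := (sb.range d).1 ⟨_, _, e, y, (hZ _ (F.off i)).1, (hZ _ (F.off j)).1⟩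
        obtain ⟨i, rfl | rfl⟩ := (g.mem x).1 a
        exacts [⟨i, .inl rfl⟩, ⟨i, .inr (sb.al _)⟩], by
        rintro ⟨i, rfl | rfl⟩
        exacts [g.q1 i, sb.al _ ▸ g.q2 i]⟩
      t := g.t
      h := fun i => sb.al _ ▸ g.h i }
  refine core k1 k3 sw S ht hv F rc fr (In := In) g₁ hQ
    ⟨fun d => ⟨fun a => sc_ind (sc_step _ d).symm a fw, fw d⟩, fun d a => ⟨fun b => ?_, fα d a⟩⟩
    (fun i => ⟨_, rfl, g.reg1 0 i⟩) (fun i ⟨x, e, r⟩ => ?_) ?_
  · exact S.αα d ▸ fα _ (mt (q_iff _ (fun d a => (g₁.edges d a).1) d).1 a) b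
  · exact g.sep k3 hc h2 0 i (sb.inj (e.trans (sb.al _).symm) ▸ r)
  · rintro _ ⟨x, rfl, r⟩
    obtain ⟨u, v, e, -⟩ := (sb.range _).2 ⟨x, rfl⟩
    exact ⟨u, fun a => hK x u e.1 a r, e.1⟩

end CapIn

open CapIn Kit1 Reg in
theorem capin (k1 : K1) (k2 : K2) (k3 : K3) (sw : SwapSt) : CapInSt := by
  intro k l V D _ _ G U S w c K Zn ht hv ⟨fu, D₀, _, M₀, ι, sb, h0⟩ cZ F cK hZ fr
  choose q hq using fun i => (S.real_ex _ _ (F.cyc.adj i)).exists
  have cz : ∀ i, c i ∈ Zn := fun i => (hZ _ (F.off i)).1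
  choose q₀ e using fun i => (sb.range (q i)).1 ⟨_, _, (hq i).2, F.cyc.adj i, cz _, cz _⟩
  let Q : D → Prop := fun d => S.real d ∧ ∃ u ∈ Set.range c, ∃ v ∈ Set.range c, S.E d u v
  have hc := k2.sub_con S Zn M₀ ι cZ sb
  have h2 : 2 ≤ M₀.chi := by
    have : Nonempty D₀ := ⟨q₀ 0⟩
    have := (k1.ncomp_one _ _).1 hc
    simp only [HMap.eg, eg, HMap.chi] at h0 ⊢
    omega
  have g : Rg M₀ (fun x => S.vx (ι x)) c (fun x => Q (ι x)) q₀ :=
    { three := F.cyc.three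
      inj := F.cyc.inj
      vσ := fun x => sc_ind (P := fun z => S.vx z = _)
        ((k2.sub_sc _ _ _ _ x _ sb).1 (sc_step _ _)) rfl fun z a => (S.vx_σ z).trans a
      cyc := fun x y v a b => (k2.sub_sc _ _ _ _ x y sb).2 (S.vx_cyc _ _ v a b)
      mem := fun x => ⟨by
        rintro ⟨r, _, ⟨i, rfl⟩, _, ⟨j, rfl⟩, a⟩
        obtain ⟨u, v, s, t, y⟩ := S.real_adj _ r
        rw [a.1] at s; rw [a.2] at t; cases s; cases t
        rcases F.ind i j y with rfl | rfl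
        · exact ⟨i, .inl (sb.inj (((S.real_ex _ _ y).unique ⟨r, a⟩ (hq i)).trans (e i).symm))⟩
        · refine ⟨j, .inr (sb.inj ?_)⟩
          rw [sb.al, e, ← (S.real_ex _ _ y.symm).unique
            ⟨S.real_α _ r, a.2, by rw [S.αα]; exact a.1⟩ (hq j), S.αα], by
        rintro ⟨i, rfl | rfl⟩
        · exact e i ▸ ⟨(hq i).1, _, ⟨_, rfl⟩, _, ⟨_, rfl⟩, (hq i).2⟩
        · rw [sb.al, e]
          exact ⟨S.real_α _ (hq i).1, _, ⟨_, rfl⟩, _, ⟨i, rfl⟩, (hq i).2.2,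
            by rw [S.αα]; exact (hq i).2.1⟩⟩
      t := fun i => e i ▸ (hq i).2.1
      h := fun i => by rw [sb.al, e]; exact (hq i).2.2 }
  have nq : ∀ x v, S.vx (ι x) = some v → v ∈ K → ¬Q (ι x) := by
    rintro x v a b ⟨-, _, ⟨i, rfl⟩, _, -, s, -⟩
    rw [a] at s; cases s
    exact F.off i b
  have r0 : ∀ x y v, S.vx (ι x) = some v → S.vx (ι y) = some v → v ∈ K →
      M₀.Reg (fun x => Q (ι x)) x y := fun x y v a b h =>
    reg_σ _ _ x y (g.cyc x y v a b) fun z s =>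
      nq z v (sc_ind (P := fun z => S.vx (ι z) = _) s a fun z t => (g.vσ z).trans t) h
  have r1 : ∀ x y u v, S.vx (ι x) = some u → S.vx (ι y) = some v → u ∈ K → v ∈ K →
      M₀.Reg (fun x => Q (ι x)) x y := by
    have z : ∀ x u, S.vx (ι x) = some u → u ∈ Zn := fun x u a => by
      obtain ⟨_, _, s, -, t, -⟩ := (sb.range _).2 ⟨x, rfl⟩
      exact Option.some.inj (s.1.symm.trans a) ▸ t
    intro x y u v a b hu hv
    have p := cK.2 u ⟨hu, z x u a⟩ v ⟨hv, z y v b⟩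
    clear hv
    induction p generalizing y with
    | refl => exact r0 x y u a b hu
    | tail _ s i =>
      obtain ⟨d, ⟨-, t⟩, -⟩ := S.real_ex _ _ s.1
      obtain ⟨d, rfl⟩ := (sb.range d).1 ⟨_, _, t, s.1, s.2.1.2, s.2.2.2⟩
      exact .trans _ _ _ (i d t.1) (.trans _ _ _ (reg_α _ _ (nq d _ t.1 s.2.1.1))
        (r0 _ y _ (sb.al d ▸ t.2) b s.2.2.1))
  by_cases h : ∀ x v, S.vx (ι x) = some v → v ∈ K → ¬M₀.Reg (fun x => Q (ι x)) (q₀ 0) x
  · exact mid k1 k2 k3 sw S ht hv F rfl fr fu hZ sb hc h2 (fun _ => Iff.rfl) g h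
  · push Not at h
    obtain ⟨x, u, a, b, r⟩ := h
    exact mid k1 k2 k3 sw S ht hv F (neg_surjective.range_comp c) fr fu hZ sb hc h2
      (fun _ => Iff.rfl) g.flip fun y v a' b' r' =>
        g.sep k3 hc h2 _ _ (.trans _ _ _ r (.trans _ _ _ (r1 x y u v a a' b b') (.symm _ _ r')))

end Pool.Agent.Lib.MP_c1f5fe_lc
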