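import Pool.Agent.Lib.MP_c1f5fe_lc.NearA

/-! From columns to cells. -/

namespace Pool.Agent.Lib.MP_c1f5fe_lc

open Function Relation NearA
open Pool.Agent.Lib.MP_50b5c6_lc.Np (Pl)

namespace Cell

variable {V : Type} {H : SimpleGraph V}

/-- a ring cut into cells, one for each column, with their cyclic order -/
structure RC (H : SimpleGraph V) {n m : ℕ} (c : ZMod n → V) (col B : Fin m → Set V)
    (ρ : ZMod m ≃ Fin m) : Prop where
  cn : ∀ j, Cn H (B j)
  sub : ∀ j, col j ⊆ B j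
  mem : ∀ j, ∀ v ∈ B j, v ∈ col j ∨ v ∈ Set.range c
  disj : ∀ j j' v, v ∈ B j → v ∈ B j' → j = j'
  cov : ∀ i, ∃ j, c i ∈ B j
  tch : ∀ t, Tch H (B (ρ t)) (B (ρ (t + 1)))

theorem ring {n m : ℕ} {c : ZMod n → V} (hc : Cyc H c) (col : Fin m → Set V) (hm : 0 < m)
    (cn : ∀ j, Cn H (col j)) (dj : ∀ j j' v, v ∈ col j → v ∈ col j' → j = j')
    (arc : ∀ j, ∃ (s : ZMod n) (l : ℕ), ∀ i, c i ∈ col j ↔ ∃ t : ℕ, t ≤ l ∧ i = s + t) :
    ∃ B ρ, RC H c col B ρ := by
  obtain ⟨m, rfl⟩ : ∃ k, m = k + 1 := ⟨m - 1, by omega⟩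
  have n3 := hc.three
  choose s l hs using arc
  have h0 : ∀ j, ∃ p : ℕ, p < n ∧ s j = s 0 + p := fun j => exists_off (by omega) _ _
  choose pos pn hp using h0
  have st : ∀ j, c (s j) ∈ col j := fun j => (hs j _).2 ⟨0, Nat.zero_le _, by simp⟩
  have p0 : pos 0 = 0 := by
    have := hp 0
    refine cast_inj (pn 0) (by omega) (add_left_cancel (a := s 0) ?_)
    rw [← this]; simp
  have pinj : Injective pos := fun j j' e =>
    dj j j' _ (st j) (by rw [hp j, e, ← hp j']; exact st j')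
  let fib : Fin (m + 1) → ℕ → Prop := fun j t =>
    t < n ∧ pos j ≤ t ∧ ∀ j', pos j' ≤ t → pos j' ≤ pos j
  let B : Fin (m + 1) → Set V := fun j => col j ∪ {v | ∃ t : ℕ, fib j t ∧ v = c (s 0 + t)}
  have adj : ∀ t : ℕ, H.Adj (c (s 0 + t)) (c (s 0 + (t + 1 : ℕ))) := fun t => by
    rw [Nat.cast_succ, ← add_assoc]; exact hc.adj _
  have mix : ∀ j j' t', fib j' t' → c (s 0 + t') ∈ col j → j = j' := by
    rintro j j' t' ⟨h1, h2, h3⟩ hv
    obtain ⟨t, ht, e⟩ := (hs j _).1 hv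
    rw [hp j, add_assoc, ← Nat.cast_add] at e
    have e' := add_left_cancel e
    rw [ZMod.natCast_eq_natCast_iff', Nat.mod_eq_of_lt h1] at e'
    have pj := pn j
    by_cases q : pos j + t < n
    · rw [Nat.mod_eq_of_lt q] at e'
      have := h3 j (by omega)
      refine dj j j' _ ((hs j _).2 ⟨pos j' - pos j, by omega, ?_⟩) (st j')
      rw [hp j, hp j', add_assoc, ← Nat.cast_add, Nat.add_sub_cancel' this]
    · have : t' + n ≤ pos j + t := by
        have a := Nat.mod_add_div (pos j + t) n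
        have b : 1 ≤ (pos j + t) / n := (Nat.le_div_iff_mul_le (by omega)).2 (by omega)
        have d : n * 1 ≤ n * ((pos j + t) / n) := Nat.mul_le_mul_left _ b
        omega
      refine dj j j' _ ((hs j _).2 ⟨n + pos j' - pos j, by omega, ?_⟩) (st j')
      rw [hp j, hp j', add_assoc, ← Nat.cast_add, Nat.add_sub_cancel' (by omega)]
      simp
  have sm : StrictMono (pos ∘ Tuple.sort pos) :=
    (Tuple.monotone_sort pos).strictMono_of_injective (pinj.comp (Tuple.sort pos).injective)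
  have fp : ∀ j, fib j (pos j) := fun j => ⟨pn j, le_rfl, fun _ h => h⟩
  refine ⟨B, Tuple.sort pos, ?_, fun j => Set.subset_union_left, ?_, ?_, ?_, ?_⟩
  · intro j
    refine cn_union' (cn j) (cn_of_root (a := c (s 0 + pos j)) ⟨_, fp j, rfl⟩ ?_)
      (u := c (s 0 + pos j)) (by rw [← hp j]; exact st j) ⟨_, fp j, rfl⟩
    rintro _ ⟨t, ⟨h1, h2, h3⟩, rfl⟩
    induction t, h2 using Nat.le_induction with
    | base => exact .refl
    | succ t h2 ih =>
      have f : fib j t := ⟨by omega, h2, fun j' h => h3 j' (by omega)⟩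
      exact (ih f.1 f.2.2).tail ⟨adj t, ⟨t, f, rfl⟩, t + 1, ⟨h1, by omega, h3⟩, rfl⟩
  · rintro j v (hv | ⟨t, -, rfl⟩)
    · exact .inl hv
    · exact .inr ⟨_, rfl⟩
  · rintro j j' v (hv | ⟨t, f, rfl⟩) (hv' | ⟨t', f', e⟩)
    · exact dj j j' v hv hv'
    · exact mix j j' t' f' (e ▸ hv)
    · exact (mix j' j t f hv').symm
    · have := cast_inj f.1 f'.1 (add_left_cancel (hc.inj e))
      subst this
      exact pinj (le_antisymm (f'.2.2 j f.2.1) (f.2.2 j' f'.2.1))
  · intro i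
    obtain ⟨t, ht, rfl⟩ := exists_off (m := n) (by omega) (s 0) i
    obtain ⟨j, hj, mx⟩ := Set.exists_max_image {j | pos j ≤ t} pos (Set.toFinite _)
      ⟨0, by simp [p0]⟩
    exact ⟨j, .inr ⟨t, ⟨ht, hj, mx⟩, rfl⟩⟩
  · suffices T : ∀ t : Fin (m + 1),
        Tch H (B (Tuple.sort pos t)) (B (Tuple.sort pos (t + 1))) from T
    intro t
    by_cases ht : t = Fin.last m
    · subst ht
      rw [Fin.last_add_one]
      have z : pos (Tuple.sort pos 0) = 0 := by
        have := sm.monotone (Fin.zero_le ((Tuple.sort pos).symm 0))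
        simpa [p0] using this
      refine ⟨c (s 0 + (n - 1 : ℕ)), .inr ⟨n - 1, ⟨by omega, ?_, fun j _ => ?_⟩, rfl⟩,
        c (s 0 + (0 : ℕ)), .inr ⟨0, by have := fp (Tuple.sort pos 0); rwa [z] at this, rfl⟩, ?_⟩
      · have := pn (Tuple.sort pos (Fin.last m)); omega
      · simpa using sm.monotone (Fin.le_last ((Tuple.sort pos).symm j))
      · have := adj (n - 1)
        rw [Nat.sub_add_cancel (by omega), ZMod.natCast_self] at this
        rwa [Nat.cast_zero]
    · have lt : t < t + 1 := Fin.lt_add_one_iff.2 (Fin.lt_last_iff_ne_last.2 ht)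
      have l1 : pos (Tuple.sort pos t) < pos (Tuple.sort pos (t + 1)) := sm lt
      have := pn (Tuple.sort pos (t + 1))
      refine ⟨c (s 0 + (pos (Tuple.sort pos (t + 1)) - 1 : ℕ)),
        .inr ⟨_, ⟨by omega, by omega, fun j hj => ?_⟩, rfl⟩, _, .inr ⟨_, fp _, rfl⟩, ?_⟩
      · have a : (Tuple.sort pos).symm j < t + 1 := sm.lt_iff_lt.1 (by simp; omega)
        have b : (Tuple.sort pos).symm j ≤ t := by
          rw [Fin.lt_def, Fin.val_add_one_of_lt (Fin.lt_last_iff_ne_last.2 ht)] at a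
          exact Fin.le_def.2 (by omega)
        simpa using sm.monotone b
      · have := adj (pos (Tuple.sort pos (t + 1)) - 1)
        rwa [Nat.sub_add_cancel (by omega)] at this

/-- three consecutive rings: neighbours on the first ring are neighbours on the second -/
theorem step (N : NonPl) (P : Pl H.Adj) {m : ℕ} (hm : 4 ≤ m) (B : Fin 3 → Fin m → Set V)
    (ρ : Fin 3 → ZMod m ≃ Fin m) (cn : ∀ r j, Cn H (B r j))
    (dj : ∀ r r' j j' v, v ∈ B r j → v ∈ B r' j' → r = r' ∧ j = j')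
    (hor : ∀ r t, Tch H (B r (ρ r t)) (B r (ρ r (t + 1))))
    (v0 : ∀ j, Tch H (B 0 j) (B 1 j)) (v1 : ∀ j, Tch H (B 1 j) (B 2 j)) (t : ZMod m) :
    Tch H (B 1 (ρ 0 t)) (B 1 (ρ 0 (t + 1))) := by
  obtain ⟨u, hu⟩ := (ρ 1).surjective (ρ 0 t)
  obtain ⟨w, hw⟩ := (ρ 1).surjective (ρ 0 (t + 1))
  obtain ⟨k, km, rfl⟩ := exists_off (m := m) (by omega) u w
  have hor' : ∀ r (x : ZMod m) (s : ℕ),
      Tch H (B r (ρ r (x + s))) (B r (ρ r (x + (s + 1 : ℕ)))) := fun r x s => by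
    rw [Nat.cast_succ, ← add_assoc]; exact hor r _
  have inj : ∀ r (x : ZMod m) (s s' : ℕ), s < m → s' < m → ρ r (x + s) = ρ r (x + s') → s = s' :=
    fun r x s s' a b e => cast_inj a b (add_left_cancel ((ρ r).injective e))
  have hu' : ρ 1 (u + (0 : ℕ)) = ρ 0 (t + (0 : ℕ)) := by simpa using hu
  have hw' : ρ 1 (u + k) = ρ 0 (t + (1 : ℕ)) := by simpa using hw
  have wrap : ∀ r (x : ZMod m), Tch H (B r (ρ r (x + (m - 1 : ℕ)))) (B r (ρ r (x + (0 : ℕ)))) := by
    intro r x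
    have := hor' r x (m - 1)
    rwa [Nat.sub_add_cancel (by omega), ZMod.natCast_self, ← Nat.cast_zero] at this
  have k0 : k ≠ 0 := by
    rintro rfl
    have := inj 0 t 0 1 (by omega) (by omega) (hu'.symm.trans hw')
    omega
  rw [← hu, ← hw]
  by_cases k1 : k = 1
  · subst k1
    simpa using hor 1 u
  by_cases k2 : k = m - 1
  · subst k2
    simpa using tch_symm (wrap 1 u)
  exfalso
  let γ : Fin 3 → ZMod m → ℕ → Set V := fun r x s => B r (ρ r (x + s))
  have cr : ∀ r x p q, p ≤ q → Cn H (run (γ r x) p q) := fun r x p q l =>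
    cn_run l (fun _ _ _ => cn _ _) fun s _ _ => hor' r x s
  have d1 : ∀ r x p q p' q', q < m → q' < m → (q < p' ∨ q' < p) →
      Disjoint (run (γ r x) p q) (run (γ r x) p' q') := by
    intro r x p q p' q' a b h
    rw [Set.disjoint_left]
    rintro v ⟨s, h1, h2, hv⟩ ⟨s', h3, h4, hv'⟩
    have := inj r x s s' (by omega) (by omega) (dj _ _ _ _ v hv hv').2
    omega
  have d2 : ∀ r r' x x' p q p' q', r ≠ r' → Disjoint (run (γ r x) p q) (run (γ r' x') p' q') := by
    intro r r' x x' p q p' q' h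
    rw [Set.disjoint_left]
    rintro v ⟨s, -, -, hv⟩ ⟨s', -, -, hv'⟩
    exact h (dj _ _ _ _ v hv hv').1
  have th : ∀ r x p q p' q' s, p ≤ s ∧ s ≤ q ∧ p' ≤ s + 1 ∧ s + 1 ≤ q' →
      Tch H (run (γ r x) p q) (run (γ r x) p' q') := fun r x p q p' q' s h =>
    tch_mono (hor' r x s) (sub_run (γ := γ r x) h.1 h.2.1) (sub_run (γ := γ r x) h.2.2.1 h.2.2.2)
  have up : ∀ p q s, p ≤ s → s ≤ q → Tch H (run (γ 1 u) p q) (run (γ 2 0) 0 (m - 1)) := by
    intro p q s a b
    obtain ⟨x, hx⟩ := (ρ 2).surjective (ρ 1 (u + s))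
    obtain ⟨y, ym, rfl⟩ := exists_off (m := m) (by omega) 0 x
    refine tch_mono (v1 _) (sub_run (γ := γ 1 u) a b) ?_
    rw [← hx]
    exact sub_run (γ := γ 2 0) (Nat.zero_le _) (by omega)
  have dn : ∀ p q s, p ≤ s → s ≤ q → q < m → s ≠ 0 → s ≠ k →
      Tch H (run (γ 0 t) 2 (m - 1)) (run (γ 1 u) p q) := by
    intro p q s a b c e0 ek
    obtain ⟨x, hx⟩ := (ρ 0).surjective (ρ 1 (u + s))
    obtain ⟨y, ym, rfl⟩ := exists_off (m := m) (by omega) t x
    have y0 : y ≠ 0 := by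
      rintro rfl
      exact e0 (inj 1 u s 0 (by omega) (by omega) (hx.symm.trans hu'.symm))
    have y1 : y ≠ 1 := by
      rintro rfl
      exact ek (inj 1 u s k (by omega) km (hx.symm.trans hw'.symm))
    refine tch_mono (v0 (ρ 1 (u + s))) ?_ (sub_run (γ := γ 1 u) a b)
    rw [← hx]
    exact sub_run (γ := γ 0 t) (by omega) (by omega)
  have dx : ∀ y s : ℕ, y ≤ 1 → ρ 1 (u + s) = ρ 0 (t + (y : ℕ)) →
      Tch H (run (γ 0 t) 0 1) (run (γ 1 u) s s) := by
    intro y s a e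
    refine tch_mono (v0 (ρ 1 (u + s))) ?_ (sub_run (γ := γ 1 u) le_rfl le_rfl)
    rw [e]
    exact sub_run (γ := γ 0 t) (Nat.zero_le _) a
  have tl : ∀ {A A' C : Set V}, Tch H A C → Tch H (A ∪ A') C := fun h =>
    tch_mono h Set.subset_union_left subset_rfl
  have tr : ∀ {A A' C : Set V}, Tch H A' C → Tch H (A ∪ A') C := fun h =>
    tch_mono h Set.subset_union_right subset_rfl
  refine k5 N P
    (cn_union (cr 1 u 0 0 le_rfl) (cr 0 t 0 1 (by omega)) (tch_symm (dx 0 0 (by omega) hu')))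
    (cr 1 u k k le_rfl)
    (cn_union (cr 1 u 1 (k - 1) (by omega)) (cr 0 t 2 (m - 1) (by omega))
      (tch_symm (dn _ _ 1 le_rfl (by omega) (by omega) (by omega) (by omega))))
    (cr 1 u (k + 1) (m - 1) (by omega)) (cr 2 0 0 (m - 1) (by omega)) ?_ ?_
  · simp only [Set.disjoint_union_left, Set.disjoint_union_right]
    refine ⟨⟨?_, ?_⟩, ⟨⟨?_, ?_⟩, ?_, ?_⟩, ⟨?_, ?_⟩, ⟨?_, ?_⟩, ⟨?_, ?_⟩, ?_, ?_, ⟨?_, ?_⟩, ⟨?_, ?_⟩,
      ?_⟩ <;>
      first
        | exact d2 _ _ _ _ _ _ _ _ (by decide)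
        | exact d1 _ _ _ _ _ _ (by omega) (by omega) (by omega)
  · refine ⟨tr (dx 1 k le_rfl hw'), tl (tch_symm (tl (tch_symm (th 1 u _ _ _ _ 0 (by omega))))),
      tl (tch_symm (tch_mono (wrap 1 u) (sub_run (γ := γ 1 u) (by omega) le_rfl)
        (sub_run (γ := γ 1 u) le_rfl le_rfl))),
      tl (up _ _ 0 le_rfl le_rfl), tch_symm (tl (th 1 u _ _ _ _ (k - 1) (by omega))),
      th 1 u _ _ _ _ k (by omega), up _ _ k le_rfl le_rfl,
      tr (dn _ _ (k + 1) le_rfl (by omega) (by omega) (by omega) (by omega)),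
      tl (up _ _ 1 le_rfl (by omega)), up _ _ (k + 1) le_rfl (by omega)⟩

end Cell

open Cell

theorem cell (N : NonPl) : CellSt := by
  intro a b m R V D _ _ G Z F col hm ab hR P C
  have cz : ∀ j r, a ≤ r → r ≤ b + 1 → col j r ⊆ Z := fun j r x y v hv =>
    zc_sub F r (C.lev j r v x y hv).1
  have h0 : ∀ r, a ≤ r → r ≤ b + 1 → ∃ B ρ, RC (rst G Z) (F.c r) (fun j => col j r) B ρ :=
    fun r x y => ring (F.rings.cyc r (by omega)) _ (by omega)
      (fun j => cn_rst (C.cn j r x y) (cz j r x y))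
      (fun j j' v => C.disj j j' r r v x y x y) fun j => C.arc j r x y
  have h1 : ∀ r, ∃ B ρ, a ≤ r → r ≤ b + 1 → RC (rst G Z) (F.c r) (fun j => col j r) B ρ := by
    intro r
    by_cases h : a ≤ r ∧ r ≤ b + 1
    · obtain ⟨B, ρ, hh⟩ := h0 r h.1 h.2
      exact ⟨B, ρ, fun _ _ => hh⟩
    · obtain ⟨B, ρ, -⟩ := h0 a le_rfl (by omega)
      exact ⟨B, ρ, fun x y => absurd ⟨x, y⟩ h⟩
  choose B ρ hB using h1
  have lev : ∀ r j v, a ≤ r → r ≤ b + 1 → v ∈ B r j →
      v ∈ F.Zc r ∧ (a < r → v ∉ F.Zc (r - 1)) := by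
    intro r j v x y hv
    rcases (hB r x y).mem j v hv with h | ⟨i, rfl⟩
    · exact ⟨(C.lev j r v x y h).1, (C.lev j r v x y h).2.1⟩
    · exact ⟨ring_mem F (by omega) i, fun l => ring_not F (by omega) (by omega) i⟩
  have dj : ∀ r r' j j' v, a ≤ r → r ≤ b + 1 → a ≤ r' → r' ≤ b + 1 → v ∈ B r j → v ∈ B r' j' →
      r = r' ∧ j = j' := by
    intro r r' j j' v x y x' y' hv hv'
    obtain ⟨l1, l2⟩ := lev r j v x y hv
    obtain ⟨l3, l4⟩ := lev r' j' v x' y' hv'
    rcases lt_trichotomy r r' with h | h | h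
    · exact absurd (zc_mono F (by omega) (by omega) l1) (l4 (by omega))
    · subst h
      exact ⟨rfl, (hB r x y).disj j j' v hv hv'⟩
    · exact absurd (zc_mono F (by omega) (by omega) l3) (l2 (by omega))
  have ver : ∀ r j, a ≤ r → r < b + 1 → Tch (rst G Z) (B r j) (B (r + 1) j) := fun r j x y =>
    tch_mono (tch_rst (C.ver j r x y) (cz j r x y.le) (cz j _ (by omega) y))
      ((hB r x y.le).sub j) ((hB _ (by omega) y).sub j)
  have hor : ∀ r, a ≤ r → r ≤ b → ∀ t, Tch (rst G Z) (B r (ρ a t)) (B r (ρ a (t + 1))) := by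
    intro r x
    induction r, x using Nat.le_induction with
    | base => exact fun _ => (hB a le_rfl (by omega)).tch
    | succ r x ih =>
      intro y
      refine step (H := rst G Z) N P hm (fun k => B (r + k)) ![ρ a, ρ (r + 1), ρ (r + 2)]
        (fun k j => (hB _ (by omega) (by omega)).cn j) (fun k k' j j' v hv hv' => ?_) ?_
        (fun j => ver r j x (by omega)) fun j => ver (r + 1) j (by omega) (by omega)
      · obtain ⟨e1, e2⟩ := dj _ _ j j' v (by omega) (by omega) (by omega) (by omega) hv hv'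
        exact ⟨Fin.ext (by omega), e2⟩
      · intro k
        fin_cases k
        · exact ih (by omega)
        · exact (hB (r + 1) (by omega) (by omega)).tch
        · exact (hB (r + 2) (by omega) (by omega)).tch
  refine ⟨fun r t => B r (ρ a t), ⟨fun i j x y => ⟨cn_of_rst ((hB i x (by omega)).cn _),
    fun v hv => zc_sub F i (lev i _ v x (by omega) hv).1⟩, fun i j i' j' v x y x' y' hv hv' => ?_,
    fun i j x y => tch_of_rst (hor i x y j), fun i j x y => tch_of_rst (ver i _ x (by omega))⟩,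
    fun r j v x y hv => lev r _ v x (by omega) hv, fun r i x y => ?_⟩
  · obtain ⟨e1, e2⟩ := dj _ _ _ _ v x (by omega) x' (by omega) hv hv'
    exact ⟨e1, (ρ a).injective e2⟩
  · obtain ⟨j, hj⟩ := (hB r x (by omega)).cov i
    exact ⟨(ρ a).symm j, by simpa using hj⟩

end Pool.Agent.Lib.MP_c1f5fe_lc
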