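import Pool.Agent.Lib.MP_c1f5fe_lc.SpecC

/-! Combing a bundle of curves across a band. -/

namespace Pool.Agent.Lib.MP_c1f5fe_lc

open Equiv Function Relation

namespace Comb

variable {k : ℕ}

theorem mem_btw {u : List (Let k)} {p q : ℕ} {l : Lab k} :
    l ∈ btw u p q ↔ ∃ j, min p q ≤ j ∧ j < max p q ∧ (u[j]?).map Prod.fst = some l := by
  unfold btw
  rw [List.mem_map]
  constructor
  · rintro ⟨x, hx, rfl⟩
    obtain ⟨i, hi⟩ := List.mem_iff_getElem?.1 hx
    rw [List.getElem?_drop, List.getElem?_take] at hi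
    split at hi
    · exact ⟨_, Nat.le_add_right _ _, ‹_›, by rw [hi]; rfl⟩
    · cases hi
  · rintro ⟨j, h1, h2, h3⟩
    obtain ⟨x, hx, rfl⟩ := Option.map_eq_some_iff.1 h3
    refine ⟨x, List.mem_iff_getElem?.2 ⟨j - min p q, ?_⟩, rfl⟩
    rw [List.getElem?_drop, Nat.add_sub_cancel' h1, List.getElem?_take, if_pos h2, hx]

theorem btw_sub (u : List (Let k)) {p q p' q' : ℕ} (h1 : min p q ≤ min p' q')
    (h2 : max p' q' ≤ max p q) : (btw u p' q').Sublist (btw u p q) := by
  unfold btw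
  refine List.Sublist.map _ ?_
  obtain ⟨c, e⟩ := Nat.exists_eq_add_of_le h1
  rw [e, ← List.drop_drop]
  refine (List.drop_sublist _ _).trans ?_
  obtain ⟨t, ht⟩ : u.take (max p' q') <+: u.take (max p q) := List.take_prefix_take_left h2
  rw [← ht, List.drop_append]
  exact List.sublist_append_left _ _

theorem btw_len (u : List (Let k)) (p q : ℕ) : (btw u p q).length ≤ max p q - min p q := by
  unfold btw
  rw [List.length_map, List.length_drop, List.length_take]
  omega

theorem btw_min (u : List (Let k)) (a a' b b' : ℕ) :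
    (btw u (min a a') (min b b')).Sublist (btw u a b) ∨
      (btw u (min a a') (min b b')).Sublist (btw u a' b') := by
  by_cases h : min a b ≤ min a' b'
  · exact Or.inl (btw_sub u (by omega) (by omega))
  · exact Or.inr (btw_sub u (by omega) (by omega))

theorem btw_max (u : List (Let k)) (a a' b b' : ℕ) :
    (btw u (max a a') (max b b')).Sublist (btw u a b) ∨
      (btw u (max a a') (max b b')).Sublist (btw u a' b') := by
  by_cases h : max a' b' ≤ max a b
  · exact Or.inl (btw_sub u (by omega) (by omega))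
  · exact Or.inr (btw_sub u (by omega) (by omega))

theorem labs_le {u : List (Let k)} (hu : (FreeGroup.mk u).toWord = u) {p q : ℕ} (h : p ≤ q) :
    labs ((FreeGroup.mk (u.take p))⁻¹ * FreeGroup.mk (u.take q)) = btw u p q := by
  have r : FreeGroup.IsReduced u := hu ▸ FreeGroup.isReduced_toWord
  have e : u.take q = u.take p ++ (u.take q).drop p := by
    conv_lhs => rw [← List.take_append_drop p (u.take q), List.take_take, min_eq_left h]
  unfold labs btw
  rw [min_eq_left h, max_eq_right h]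
  congr 1
  conv_lhs => rw [e, ← FreeGroup.mul_mk, inv_mul_cancel_left]
  rw [FreeGroup.toWord_mk]
  exact FreeGroup.IsReduced.reduce_eq (List.IsChain.drop (List.IsChain.take r q) p)

theorem labs_inv (g : FG k) : labs g⁻¹ = (labs g).reverse := by
  unfold labs
  rw [FreeGroup.toWord_inv, FreeGroup.invRev, List.map_reverse, List.map_map]
  rfl

theorem labs_eq {u : List (Let k)} (hu : (FreeGroup.mk u).toWord = u) (p q : ℕ) :
    labs ((FreeGroup.mk (u.take p))⁻¹ * FreeGroup.mk (u.take q)) = btw u p q ∨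
      labs ((FreeGroup.mk (u.take p))⁻¹ * FreeGroup.mk (u.take q)) = (btw u p q).reverse := by
  rcases le_total p q with h | h
  · exact Or.inl (labs_le hu h)
  · right
    have e : btw u p q = btw u q p := by unfold btw; rw [min_comm, max_comm]
    rw [e, ← labs_le hu h, ← labs_inv, mul_inv_rev, inv_inv]

theorem labs_mem {u : List (Let k)} (hu : (FreeGroup.mk u).toWord = u) (p q : ℕ) (l : Lab k) :
    l ∈ labs ((FreeGroup.mk (u.take p))⁻¹ * FreeGroup.mk (u.take q)) ↔ l ∈ btw u p q := by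
  rcases labs_eq hu p q with e | e <;> rw [e]
  exact List.mem_reverse

theorem labs_pw {u : List (Let k)} (hu : (FreeGroup.mk u).toWord = u) (p q : ℕ)
    {ok : Lab k → Lab k → Prop} (sy : ∀ x y, ok x y → ok y x) :
    (labs ((FreeGroup.mk (u.take p))⁻¹ * FreeGroup.mk (u.take q))).Pairwise ok ↔
      (btw u p q).Pairwise ok := by
  rcases labs_eq hu p q with e | e <;> rw [e]
  rw [List.pairwise_reverse]
  exact ⟨fun h => h.imp (sy _ _), fun h => h.imp (sy _ _)⟩

variable {V : Type} {G : SimpleGraph V} {B : Set V} {ok : Lab k → Lab k → Prop}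
  {u : List (Let k)} {f g : V → ℕ}

theorem pos_of_sub {h : V → ℕ} (hf : PosOK G B ok u f) (hg : PosOK G B ok u g)
    (s : ∀ x y, (btw u (h x) (h y)).Sublist (btw u (f x) (f y)) ∨
      (btw u (h x) (h y)).Sublist (btw u (g x) (g y))) : PosOK G B ok u h := by
  refine ⟨fun x hx y hy a => ?_, fun x hx y hy z hz a b i h1 h2 => ?_⟩
  · rcases s x y with e | e
    · exact (hf.edge x hx y hy a).sublist e
    · exact (hg.edge x hx y hy a).sublist e
  · rcases s y z with e | e
    · exact hf.vert x hx y hy z hz a b i (e.subset h1) (e.subset h2)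
    · exact hg.vert x hx y hy z hz a b i (e.subset h1) (e.subset h2)

theorem pos_slow (h1 : ∀ x y, G.Adj x y → g x ≤ g y + 1)
    (h2 : ∀ x y z, G.Adj x y → G.Adj x z → g y ≤ g z + 1) : PosOK G B ok u g := by
  refine ⟨fun x _ y _ a => ?_, fun x _ y _ z _ a b i m1 m2 => ?_⟩
  · have l := btw_len u (g x) (g y)
    have := h1 x y a
    have := h1 y x a.symm
    match e : btw u (g x) (g y) with
    | [] => exact List.Pairwise.nil
    | [_] => exact List.pairwise_singleton _ _
    | _ :: _ :: _ => rw [e] at l; simp only [List.length_cons] at l; omega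
  · obtain ⟨j, a1, a2, a3⟩ := mem_btw.1 m1
    obtain ⟨j', b1, b2, b3⟩ := mem_btw.1 m2
    have := h2 x y z a b
    have := h2 x z y b a
    have e : j = j' := by omega
    rw [e, b3] at a3
    cases a3

theorem star (sy : ∀ x y, ok x y → ok y x) (idx : ∀ i x y, ¬ok (i, x) (i, y))
    (hf : PosOK G B ok u f) {x y z : V} (hx : x ∈ B) (hy : y ∈ B) (hz : z ∈ B) (a : G.Adj x y)
    (b : G.Adj x z) (i : Fin k) (m1 : (i, false) ∈ btw u (f x) (f y)) :
    (i, true) ∉ btw u (f x) (f z) := by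
  intro m2
  have one : ∀ t ∈ B, G.Adj x t → (i, false) ∈ btw u (f x) (f t) → (i, true) ∉ btw u (f x) (f t) := by
    intro t ht c n1 n2
    have : Std.Symm ok := ⟨sy⟩
    exact idx i _ _ ((hf.edge x hx t ht c).forall n1 n2 (by simp))
  obtain ⟨j, a1, a2, a3⟩ := mem_btw.1 m1
  obtain ⟨j', b1, b2, b3⟩ := mem_btw.1 m2
  by_cases c1 : min (f x) (f y) ≤ j' ∧ j' < max (f x) (f y)
  · exact one y hy a m1 (mem_btw.2 ⟨j', c1.1, c1.2, b3⟩)
  by_cases c2 : min (f x) (f z) ≤ j ∧ j < max (f x) (f z)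
  · exact one z hz b (mem_btw.2 ⟨j, c2.1, c2.2, a3⟩) m2
  exact hf.vert x hx y hy z hz a b i (mem_btw.2 ⟨j, by omega, by omega, a3⟩)
    (mem_btw.2 ⟨j', by omega, by omega, b3⟩)

theorem posOf {D : Type} {U : Set V} (S : Sk k G U D) (w : D → FG k) {m : ℕ} (rad : V → ℕ)
    (ang : V → ZMod m) (r a : ℕ) (u : List (Let k)) (pos : V → ℕ) (hw : S.Valid w)
    (z : ZF S w rad ang r a u pos) :
    PosOK G {v | v ∈ band rad r a ∧ 1 ≤ ad (ang v)} S.ok u pos := by
  have key : ∀ x ∈ {v | v ∈ band rad r a ∧ 1 ≤ ad (ang v)},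
      ∀ y ∈ {v | v ∈ band rad r a ∧ 1 ≤ ad (ang v)}, G.Adj x y → ∃ d, S.real d ∧ S.vx d = some x ∧
        w d = (FreeGroup.mk (u.take (pos x)))⁻¹ * FreeGroup.mk (u.take (pos y)) := by
    intro x hx y hy h
    obtain ⟨d, ⟨h1, h2, h3⟩, -⟩ := S.real_ex x y h
    exact ⟨d, h1, h2, z.main d x y ⟨h2, h3⟩ hx hy⟩
  refine ⟨fun x hx y hy h => ?_, fun x hx y hy t ht a1 a2 i m1 m2 => ?_⟩
  · obtain ⟨d, h1, -, h3⟩ := key x hx y hy h
    rw [← labs_pw z.red _ _ S.ok_symm, ← h3]
    exact hw.edge d h1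
  · obtain ⟨d, d1, d2, d3⟩ := key x hx y hy a1
    obtain ⟨e, e1, e2, e3⟩ := key x hx t ht a2
    have cut : ∀ l, l ∈ btw u (pos y) (pos t) → l ∈ labs (w d) ∨ l ∈ labs (w e) := by
      intro l hl
      rw [d3, e3, labs_mem z.red, labs_mem z.red]
      obtain ⟨j, b1, b2, b3⟩ := mem_btw.1 hl
      by_cases c : min (pos x) (pos y) ≤ j ∧ j < max (pos x) (pos y)
      · exact Or.inl (mem_btw.2 ⟨j, c.1, c.2, b3⟩)
      · exact Or.inr (mem_btw.2 ⟨j, by omega, by omega, b3⟩)
    rcases cut _ m1 with n1 | n1 <;> rcases cut _ m2 with n2 | n2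
    · exact hw.vert d d i d1 d1 rfl n1 n2
    · exact hw.vert d e i d1 e1 (d2.trans e2.symm) n1 n2
    · exact hw.vert e d i e1 d1 (e2.trans d2.symm) n1 n2
    · exact hw.vert e e i e1 e1 rfl n1 n2

theorem ad_two (K : K6) {m : ℕ} (hm : 8 ≤ m) {x : ZMod m} (h : ad x ≤ 2) :
    ad x = 0 ∨ (x = 1 ∨ x = 2) ∨ (x = -1 ∨ x = -2) := by
  obtain ⟨t, ht, e⟩ := (K.ad_le m 2 x (by omega)).1 h
  interval_cases t
  · right; right; right; rw [e]; push_cast; ring
  · right; right; left; rw [e]; push_cast; ring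
  · left
    have : x = 0 := by rw [e]; push_cast; ring
    rw [this, ad, ZMod.valMinAbs_zero]
    rfl
  · right; left; left; rw [e]; push_cast; ring
  · right; left; right; rw [e]; push_cast; ring

theorem main (K : K6) {D : Type} {U : Set V} (S : Sk k G U D) (w : D → FG k) (n m : ℕ)
    (rad : V → ℕ) (ang : V → ZMod m) (r a a₀ : ℕ) (u : List (Let k)) (pos pos' : V → ℕ)
    (hw : S.Valid w) (cy : Cyl G n m rad ang) (hm : 8 ≤ m) (ar : a < r) (an : r + a ≤ n)
    (aa : a₀ + 2 * u.length + 6 ≤ a) (full : S.Full (band rad r a))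
    (z : ZF S w rad ang r a u pos)
    (ok' : PosOK G {v | v ∈ band rad r a ∧ 1 ≤ ad (ang v)} S.ok u pos')
    (rt : ∀ v ∈ band rad r a, ang v = -1 ∨ ang v = -2 → u.length ≤ pos' v) :
    ∃ w', S.Valid w' ∧ ZF S w' rad ang r a₀ u (fun v => min (pos v) (pos' v)) ∧
      ∀ d, S.Non d → w' d = w d := by
  classical
  obtain ⟨B, hB⟩ : ∃ B : Set V, B = {v | v ∈ band rad r a ∧ 1 ≤ ad (ang v)} := ⟨_, rfl⟩
  have mB : ∀ v, v ∈ B ↔ (r ≤ rad v + a ∧ rad v ≤ r + a) ∧ 1 ≤ ad (ang v) := by
    intro v; rw [hB]; rfl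
  obtain ⟨g, hg⟩ : ∃ g : V → ℕ, ∀ v,
      g v = min u.length ((rad v - r + (r - rad v) - a₀ - 1) / 2) := ⟨_, fun _ => rfl⟩
  obtain ⟨p, hp⟩ : ∃ p : V → ℕ, ∀ v, p v = min (pos v) (max (pos' v) (g v)) := ⟨_, fun _ => rfl⟩
  have okp : PosOK G B S.ok u p := by
    have o1 : PosOK G B S.ok u pos := hB ▸ posOf S w rad ang r a u pos hw z
    have o2 : PosOK G B S.ok u pos' := hB ▸ ok'
    have o3 : PosOK G B S.ok u g := by
      refine pos_slow (fun x y h => ?_) fun x y t h h' => ?_
      · have := cy.lip x y h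
        have := cy.lip y x h.symm
        rw [hg, hg]
        omega
      · have := cy.lip x y h
        have := cy.lip y x h.symm
        have := cy.lip x t h'
        have := cy.lip t x h'.symm
        rw [hg, hg]
        omega
    have o4 : PosOK G B S.ok u fun v => max (pos' v) (g v) :=
      pos_of_sub o2 o3 fun x y => btw_max u _ _ _ _
    exact pos_of_sub o1 o4 fun x y => by rw [hp, hp]; exact btw_min u _ _ _ _
  -- depth: `In j v` says that `v` is far inside the band and away from the column zero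
  obtain ⟨In, hIn⟩ : ∃ In : ℕ → V → Prop, ∀ j v, In j v ↔
      r + j ≤ rad v + a ∧ rad v + j ≤ r + a ∧ j ≤ ad (ang v) := ⟨_, fun _ _ => Iff.rfl⟩
  have step : ∀ j x y, In (j + 1) x → G.Adj x y → In j y := by
    intro j x y hx h
    rw [hIn] at hx ⊢
    have l1 := cy.lip x y h
    have l2 := cy.lip y x h.symm
    refine ⟨by omega, by omega, ?_⟩
    rcases cy.lipa x y h (by omega) (by omega) (by omega) (by omega) with e | e | e
    · rw [e]; omega
    · have := (K.ad_lip m (ang x) (by omega)).2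
      rw [e]; omega
    · have := (K.ad_lip m (ang y) (by omega)).1
      rw [← e] at this; omega
  have down : ∀ j x, In (j + 1) x → In j x := by
    intro j x hx
    rw [hIn] at hx ⊢
    omega
  have inB : ∀ x, In 1 x → x ∈ B := by
    intro x hx
    rw [hIn] at hx
    rw [mB]
    omega
  obtain ⟨cv, c0, c1, c2⟩ : ∃ cv : Option V → FG k, cv none = 1 ∧
      (∀ v ∈ B, cv (some v) = (FreeGroup.mk (u.take (pos v)))⁻¹ * FreeGroup.mk (u.take (p v))) ∧
      ∀ v, v ∉ B → cv (some v) = 1 :=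
    ⟨fun o => o.elim 1 fun v => if v ∈ B then
      (FreeGroup.mk (u.take (pos v)))⁻¹ * FreeGroup.mk (u.take (p v)) else 1, rfl,
      fun v hv => if_pos hv, fun v hv => if_neg hv⟩
  have act : ∀ v, ¬In 3 v → cv (some v) = 1 := by
    intro v hv
    by_cases b : v ∈ B
    · have e : p v = pos v := by
        have le := z.le v
        have b' := (mB v).1 b
        rw [hIn] at hv
        rw [hp, hg]
        by_cases c : ad (ang v) ≤ 2
        · rcases ad_two K hm c with e | e | e
          · omega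
          · have := z.left v b'.1 e
            omega
          · have := rt v b'.1 e
            omega
        · omega
      rw [c1 v b, e, inv_mul_cancel]
    · exact c2 v b
  obtain ⟨w', hw'⟩ : ∃ w' : D → FG k, w' = fun d => (cv (S.vx d))⁻¹ * w d * cv (S.vx (S.φ d)) :=
    ⟨_, rfl⟩
  have same : ∀ d x y, S.E d x y → ¬In 3 x → ¬In 3 y → w' d = w d := by
    intro d x y e hx hy
    rw [hw']
    beta_reduce
    rw [S.vx_φ, e.1, e.2, act x hx, act y hy, inv_one, one_mul, mul_one]
  have new : ∀ d x y, S.E d x y → x ∈ B → y ∈ B →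
      w' d = (FreeGroup.mk (u.take (p x)))⁻¹ * FreeGroup.mk (u.take (p y)) := by
    intro d x y e hx hy
    rw [hw']
    beta_reduce
    rw [S.vx_φ, e.1, e.2, c1 x hx, c1 y hy, z.main d x y e (hB ▸ hx) (hB ▸ hy)]
    group
  refine ⟨w', ⟨?_, fun d hd => ?_, fun d e i hd he hde m1 m2 => ?_⟩,
    ⟨z.red, fun v => (min_le_left _ _).trans (z.le v), fun d x y e hx hy => ?_,
      fun d x y e hx hy => ?_, fun v hv h => ?_, fun v hv h => ?_⟩, fun d hd => ?_⟩
  · rw [hw']
    exact hw.toPre.switch (fun d => cv (S.vx d)) (fun d => by rw [S.vx_σ])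
      fun d hd => by rw [hd.vx, c0]
  · obtain ⟨x, y, e1, e2, h⟩ := S.real_adj d hd
    by_cases c : In 3 x ∨ In 3 y
    · have hx : In 2 x := c.elim (down _ _) fun c => step _ _ _ c h.symm
      have hx1 := inB x (down _ _ hx)
      have hy1 := inB y (step _ _ _ hx h)
      rw [new d x y ⟨e1, e2⟩ hx1 hy1, labs_pw z.red _ _ S.ok_symm]
      exact okp.edge x hx1 y hy1 h
    · rw [not_or] at c
      rw [same d x y ⟨e1, e2⟩ c.1 c.2]
      exact hw.edge d hd
  · obtain ⟨x, y, e1, e2, h⟩ := S.real_adj d hd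
    obtain ⟨x', t, f1, f2, h'⟩ := S.real_adj e he
    obtain rfl : x = x' := Option.some.inj (e1.symm.trans (hde.trans f1))
    by_cases c : In 3 x ∨ In 3 y ∨ In 3 t
    · have hx : In 2 x := c.elim (down _ _) fun c =>
        c.elim (fun c => step _ _ _ c h.symm) fun c => step _ _ _ c h'.symm
      have hx1 := inB x (down _ _ hx)
      have hy1 := inB y (step _ _ _ hx h)
      have ht1 := inB t (step _ _ _ hx h')
      rw [new d x y ⟨e1, e2⟩ hx1 hy1, labs_mem z.red] at m1
      rw [new e x t ⟨f1, f2⟩ hx1 ht1, labs_mem z.red] at m2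
      exact star S.ok_symm S.ok_idx okp hx1 hy1 ht1 h h' i m1 m2
    · rw [not_or, not_or] at c
      rw [same d x y ⟨e1, e2⟩ c.1 c.2.1] at m1
      rw [same e x t ⟨f1, f2⟩ c.1 c.2.2] at m2
      exact hw.vert d e i hd he hde m1 m2
  · obtain ⟨⟨x1, x2⟩, x3⟩ := hx
    obtain ⟨⟨y1, y2⟩, y3⟩ := hy
    rw [same d x y e (by rw [hIn]; omega) (by rw [hIn]; omega)]
    exact z.free d x y e ⟨⟨by omega, by omega⟩, x3⟩ ⟨⟨by omega, by omega⟩, y3⟩
  · obtain ⟨⟨x1, x2⟩, x3⟩ := hx
    obtain ⟨⟨y1, y2⟩, y3⟩ := hy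
    have ex : p x = min (pos x) (pos' x) := by rw [hp, hg]; omega
    have ey : p y = min (pos y) (pos' y) := by rw [hp, hg]; omega
    rw [new d x y e ((mB x).2 ⟨⟨by omega, by omega⟩, x3⟩) ((mB y).2 ⟨⟨by omega, by omega⟩, y3⟩),
      ex, ey]
  · obtain ⟨x1, x2⟩ := hv
    have := z.left v ⟨by omega, by omega⟩ h
    omega
  · obtain ⟨x1, x2⟩ := hv
    have := z.right v ⟨by omega, by omega⟩ h
    have := rt v ⟨by omega, by omega⟩ h
    omega
  · have k : ∀ e, S.vx (S.α e) = none → cv (S.vx e) = 1 := by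
      intro e he
      cases hv : S.vx e with
      | none => exact c0
      | some v =>
        refine act v fun c => ?_
        rw [hIn] at c
        obtain ⟨y, hy, -⟩ := full e v hv ⟨by omega, by omega⟩
        rw [he] at hy
        cases hy
    rw [hw']
    beta_reduce
    rw [S.vx_φ]
    rcases hd with hd | hd
    · rw [k (S.α d) (by rw [S.αα, hd]), hd, c0, inv_one, one_mul, mul_one]
    · rw [k d hd, hd, c0, inv_one, one_mul, mul_one]

end Comb

theorem comb : K6 → CombSt := fun K =>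
  ⟨fun S w _ rad ang r a u pos => Comb.posOf S w rad ang r a u pos,
    fun S w n m rad ang r a a₀ u pos pos' => Comb.main K S w n m rad ang r a a₀ u pos pos'⟩

end Pool.Agent.Lib.MP_c1f5fe_lc
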