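import Pool.Agent.Lib.MP_c1f5fe_lc.SpecC
import Pool.Agent.Lib.MP_50b5c6_lc.NpQ

/-! Planar components do not matter. -/

namespace Pool.Agent.Lib.MP_c1f5fe_lc

open Equiv Function Relation
open Pool.Agent.Lib.MP_50b5c6_lc.Np

namespace Comp
variable {k : ℕ} {V : Type}

lemma lift (G : SimpleGraph V) (X : Set V) (h : HM k (G.induce X)) : HM k (rst G X) := by
  classical
  obtain ⟨lab, L, ok, nd, mem, n1, n2, ro⟩ := h
  set lab' : V → V → List (Lab k) := fun u v =>
    if h : u ∈ X ∧ v ∈ X then lab ⟨u, h.1⟩ ⟨v, h.2⟩ else [] with hl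
  have e : ∀ a b : X, lab' a b = lab a b := fun a b => by simp [hl]
  set g : Sg X → Sg V := fun x => (x.1, x.2.1, x.2.2) with hg
  have gi : Injective g := by
    rintro ⟨a, b, i⟩ ⟨c, d, j⟩ q
    simpa [hg, Subtype.val_inj] using q
  have gn : ∀ x, node lab' (g x) = Sum.map Subtype.val id (node lab x) := fun x => by
    simp only [node, hg, e]
    split_ifs <;> rfl
  have go : ∀ x, opp lab' (g x) = g (opp lab x) := fun x => by simp only [opp, hg, e]
  have gk : ∀ x, kap lab' (g x) = g (kap lab x) := fun x => by simp only [kap, hg, e]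
  have gl : ∀ x, lb lab' (g x) = lb lab x := fun x => by simp only [lb, hg, e]
  have si : Injective (Sum.map (Subtype.val : X → V) (id : Option (Fin k) → _)) :=
    Sum.map_injective.2 ⟨Subtype.val_injective, injective_id⟩
  refine ⟨lab', L.map g, ⟨?_, ?_, ?_, ?_⟩, nd.map gi, ?_, NC.map (n1.congr fun x _ y _ => ?_),
    NC.map (n2.congr fun x _ y _ => ?_), fun i => ?_⟩
  · rintro u v ⟨q, a, b⟩
    exact (e ⟨v, b⟩ ⟨u, a⟩).trans ((ok.rev ⟨u, a⟩ ⟨v, b⟩ q).trans
      (congrArg _ (e ⟨u, a⟩ ⟨v, b⟩).symm))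
  · rintro u v ⟨q, a, b⟩
    rw [e ⟨u, a⟩ ⟨v, b⟩]
    exact ok.idx _ _ q
  · rintro u v u' v' i j x y ⟨q, a, b⟩ ⟨q', a', b'⟩
    rw [e ⟨u, a⟩ ⟨v, b⟩, e ⟨u', a'⟩ ⟨v', b'⟩]
    exact ok.once _ _ _ _ i j x y q q'
  · rintro u v v' i ⟨q, a, b⟩ ⟨q', -, b'⟩
    rw [e ⟨u, a⟩ ⟨v, b⟩, e ⟨u, a⟩ ⟨v', b'⟩]
    exact ok.vert _ _ _ i q q'
  · rintro ⟨u, v, j⟩
    simp only [List.mem_map, mem, IsSg]
    constructor
    · rintro ⟨x, ⟨q, l⟩, q'⟩
      simp only [hg, Prod.mk.injEq] at q'
      obtain ⟨rfl, rfl, rfl⟩ := q'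
      exact ⟨⟨q, x.1.2, x.2.1.2⟩, by rwa [e]⟩
    · rintro ⟨⟨q, a, b⟩, l⟩
      exact ⟨(⟨u, a⟩, ⟨v, b⟩, j), ⟨q, by rwa [← e]⟩, rfl⟩
  · rw [gn, gn, si.eq_iff]
  · simp only [go, Sym2.eq_iff, gi.eq_iff]
  · obtain ⟨A, B, a, b, r⟩ := ro i
    refine ⟨A.map g, B.map g, ?_, ?_, ?_⟩
    · intro x j
      obtain ⟨p, j', rfl⟩ := List.mem_map.1 j
      rw [gl, a p j']
    · intro x j
      obtain ⟨p, j', rfl⟩ := List.mem_map.1 j
      rw [gl, b p j']
    have := r.map g
    simp only [List.map_append, List.map_map, ← List.map_reverse, Function.comp_def, gk] at this ⊢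
    refine Eq.subst (motive := fun l => l ~r _) ?_ this
    rw [List.filter_map]
    refine congrArg _ (List.filter_congr fun x _ => ?_)
    rw [Function.comp_apply, decide_eq_decide, gn, ← si.eq_iff]
    rfl

lemma join (G₁ G₂ G : SimpleGraph V) (h₁ : HM k G₁) (h₂ : HM 0 G₂)
    (d : ∀ u v v', G₁.Adj u v → ¬G₂.Adj u v') (hG : ∀ u v, G.Adj u v ↔ G₁.Adj u v ∨ G₂.Adj u v) :
    HM k G := by
  classical
  obtain ⟨lab, L, ok, nd, mem, n1, n2, ro⟩ := h₁
  obtain ⟨lab₂, L₂, -, nd₂, mem₂, m1, m2, -⟩ := h₂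
  have z : ∀ u v, lab₂ u v = [] := fun u v => by
    rcases lab₂ u v with _ | ⟨a, _⟩
    · rfl
    · exact a.1.elim0
  set lab' : V → V → List (Lab k) := fun u v => if G₁.Adj u v then lab u v else [] with hl
  have e1 : ∀ u v, G₁.Adj u v → lab' u v = lab u v := fun u v q => by simp [hl, q]
  have e2 : ∀ u v, G₂.Adj u v → lab' u v = [] := fun u v q => by
    simp only [hl]; rw [if_neg fun q' => d _ _ _ q' q]
  have a1 : ∀ x ∈ L, G₁.Adj x.1 x.2.1 := fun x j => ((mem x).1 j).1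
  have a2 : ∀ x ∈ L₂, G₂.Adj x.1 x.2.1 := fun x j => ((mem₂ x).1 j).1
  have b2 : ∀ x ∈ L₂, x.2.2 = 0 := fun x j => by simpa [z] using ((mem₂ x).1 j).2
  have c1 : ∀ x ∈ L, node lab' x = node lab x := fun x j => by simp only [node, e1 _ _ (a1 x j)]
  have c2 : ∀ x ∈ L₂, node lab' x = .inl x.1 := fun x j => by simp only [node, b2 x j, if_true]
  have c3 : ∀ x ∈ L₂, node lab₂ x = .inl x.1 := fun x j => by simp only [node, b2 x j, if_true]
  have o1 : ∀ x ∈ L, opp lab' x = opp lab x := fun x j => by simp only [opp, e1 _ _ (a1 x j)]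
  have o2 : ∀ x ∈ L₂, opp lab' x = opp lab₂ x := fun x j => by
    simp only [opp, e2 _ _ (a2 x j), z, List.length_nil]
  refine ⟨lab', L ++ L₂, ⟨?_, ?_, ?_, ?_⟩, ?_, ?_, NC.app (n1.congr fun x p y q => ?_)
    (m1.congr fun x p y q => ?_) fun x p y q => ?_, NC.app (n2.congr fun x p y q => ?_)
    (m2.congr fun x p y q => ?_) fun x p y q => ?_, fun i => ?_⟩
  · intro u v q
    rcases (hG u v).1 q with q | q
    · rw [e1 _ _ q, e1 _ _ q.symm, ok.rev u v q]
    · rw [e2 _ _ q, e2 _ _ q.symm]; rfl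
  · intro u v q
    rcases (hG u v).1 q with q | q
    · rw [e1 _ _ q]; exact ok.idx u v q
    · simp [e2 _ _ q]
  · intro u v u' v' i j x y q q'
    rcases (hG u v).1 q with q | q
    · rcases (hG u' v').1 q' with q' | q'
      · rw [e1 _ _ q, e1 _ _ q']; exact ok.once _ _ _ _ i j x y q q'
      · simp [e2 _ _ q']
    · simp [e2 _ _ q]
  · intro u v v' i q q'
    rcases (hG u v).1 q with q | q
    · rcases (hG u v').1 q' with q' | q'
      · rw [e1 _ _ q, e1 _ _ q']; exact ok.vert _ _ _ i q q'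
      · simp [e2 _ _ q']
    · simp [e2 _ _ q]
  · exact List.nodup_append.2 ⟨nd, nd₂, fun x p y q e => d _ _ _ (a1 x p) (e ▸ a2 y q)⟩
  · intro x
    simp only [List.mem_append, mem, mem₂, IsSg, hG, z]
    constructor
    · rintro (⟨q, l⟩ | ⟨q, l⟩)
      · exact ⟨.inl q, by rwa [e1 _ _ q]⟩
      · exact ⟨.inr q, by rw [e2 _ _ q]; exact l⟩
    · rintro ⟨q | q, l⟩
      · exact .inl ⟨q, by rwa [e1 _ _ q] at l⟩
      · exact .inr ⟨q, by rw [e2 _ _ q] at l; exact l⟩
  · rw [c1 x p, c1 y q]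
  · rw [c2 x p, c2 y q, c3 x p, c3 y q, Sum.inl.injEq, Sum.inl.injEq]
  · rw [c2 y q, node]
    split_ifs
    · exact fun e => d _ _ _ (a1 x p) ((Sum.inl.inj e).symm ▸ a2 y q)
    · simp
  · rw [o1 x p, o1 y q]
  · rw [o2 x p, o2 y q]
  · intro e
    rcases Sym2.eq_iff.1 e with e | e
    · exact d _ _ _ (a1 x p) (e.1 ▸ a2 y q)
    · have : x.1 = y.2.1 := congrArg Prod.fst e.1
      exact d _ _ _ (a1 x p) (this ▸ (a2 y q).symm)
  · obtain ⟨A, B, a, b, r⟩ := ro i
    have mA : ∀ x ∈ A, G₁.Adj x.1 x.2.1 := fun x j =>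
      a1 x (List.mem_filter.1 (r.mem_iff.2 (by simp [j]))).1
    have mB : ∀ x ∈ B, G₁.Adj x.1 x.2.1 := fun x j =>
      a1 x (List.mem_filter.1 (r.mem_iff.2 (by simp [j]))).1
    have kp : ∀ C : List (Sg V), (∀ x ∈ C, G₁.Adj x.1 x.2.1) →
        C.reverse.map (kap lab') = C.reverse.map (kap lab) := fun C h =>
      List.map_congr_left fun x j => by simp only [kap, e1 _ _ (h x (List.mem_reverse.1 j))]
    refine ⟨A, B, fun x j => ?_, fun x j => ?_, ?_⟩
    · rw [← a x j]; simp only [lb, e1 _ _ (mA x j)]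
    · rw [← b x j]; simp only [lb, e1 _ _ (mB x j)]
    rw [kp A mA, kp B mB]
    refine Eq.subst (motive := fun l => l ~r _) ?_ r
    rw [List.filter_append, List.filter_eq_nil_iff (l := L₂) |>.2 fun x j => by simp [c2 x j],
      List.append_nil]
    exact List.filter_congr fun x j => by rw [c1 x j]

lemma npl_reach {G : SimpleGraph V} {u v : V} (h : G.Reachable u v) (hu : u ∈ npl G) :
    v ∈ npl G := by
  have : {x | G.Reachable v x} = {x | G.Reachable u x} :=
    Set.ext fun _ => ⟨h.trans, h.symm.trans⟩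
  rw [npl, Set.mem_setOf_eq, this]
  exact hu

lemma reach_in {G : SimpleGraph V} {X : Set V} (hX : ∀ a b, G.Adj a b → a ∈ X → b ∈ X) {u v : V}
    (h : G.Reachable u v) (hu : u ∈ X) :
    ∃ hv : v ∈ X, (G.induce X).Reachable ⟨u, hu⟩ ⟨v, hv⟩ ∧
      ReflTransGen (fun x y => G.Adj x y ∧ x ∈ X ∧ y ∈ X) u v := by
  rw [SimpleGraph.reachable_iff_reflTransGen] at h
  induction h with
  | refl => exact ⟨hu, .refl _, .refl⟩
  | tail _ q ih =>
    obtain ⟨hv, a, b⟩ := ih
    exact ⟨hX _ _ q hv, a.trans (SimpleGraph.Adj.reachable q), b.tail ⟨q, hv, hX _ _ q hv⟩⟩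

end Comp

open Comp in
theorem comp (h2 : K2) (_ : NonPl) (_ : BasSt) (hd : DemoteSt) (cmh : CMHSt) (hmc : HMCSt) :
    CompSt := by
  classical
  intro k V _ G
  have cl : ∀ a b, G.Adj a b → a ∈ npl G → b ∈ npl G := fun a b q => npl_reach q.reachable
  have cr : ∀ v a b, G.Adj a b → a ∈ {u | G.Reachable v u} → b ∈ {u | G.Reachable v u} :=
    fun v a b q p => SimpleGraph.Reachable.trans p q.reachable
  constructor
  · rintro ⟨D, _, S, w, ht, hv⟩
    refine ⟨fun _ h => h.elim, ?_, ?_⟩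
    · let e := Finite.equivFin (G.induce (npl G)).ConnectedComponent
      refine (h2.count S _ (fun i => {u | G.Reachable (e.symm i).out.1 u}) (h2.top_eg S ht)
        (fun i j n => Set.disjoint_left.2 fun u p q => n ?_) fun i pl => ?_).trans (by omega)
      · obtain ⟨_, r, -⟩ := reach_in cl (SimpleGraph.Reachable.trans p (.symm q)) (e.symm i).out.2
        apply e.symm.injective
        rw [← (e.symm i).out_eq, ← (e.symm j).out_eq]
        exact SimpleGraph.ConnectedComponent.sound r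
      · refine (e.symm i).out.2 ⟨fun _ h => h.elim, ?_, ?_⟩
        · refine Finite.card_le_one_iff_subsingleton.2
            (SimpleGraph.Preconnected.subsingleton_connectedComponent ?_)
          rintro ⟨a, p⟩ ⟨b, q⟩
          exact (reach_in (cr _) (SimpleGraph.Reachable.trans (.symm p) q) p).2.1
        · have := h2.subsol S {u | G.Reachable (e.symm i).out.1 u}
            ⟨⟨_, SimpleGraph.Reachable.refl _⟩, fun a p b q =>
            (reach_in (cr _) (SimpleGraph.Reachable.trans (.symm p) q) p).2.2⟩ pl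
          simpa only [Set.mem_empty_iff_false, false_and, Set.setOf_false] using this
    · obtain ⟨S', a, -, -, -, -, b⟩ := hd k V (npl G) D G ∅ (G.induce (npl G)) ∅ S
        (fun v => if h : v ∈ npl G then some ⟨v, h⟩ else none) (by
          intro u v x p q
          split_ifs at p q
          exact congrArg Subtype.val ((Option.some.inj p).trans (Option.some.inj q).symm))
        (fun x y q => ⟨x, y, by simp, by simp, q⟩) fun _ _ _ h => h.elim
      exact ⟨D, inferInstance, S', w, by rwa [Sk.Top, a], b w hv⟩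
  · intro h
    have key : ∀ s : Finset V, HM k (rst G {u | u ∈ npl G ∨ ∃ v ∈ s, G.Reachable v u}) := by
      intro s
      induction s using Finset.induction_on with
      | empty => simpa using lift G _ (cmh k _ _ h.2.2)
      | insert v s _ ih =>
        have cY : ∀ a b, G.Reachable a b → (a ∈ npl G ∨ ∃ v ∈ s, G.Reachable v a) →
            b ∈ npl G ∨ ∃ v ∈ s, G.Reachable v b := fun a b q p =>
          p.imp (npl_reach q) fun ⟨x, m, r⟩ => ⟨x, m, r.trans q⟩
        by_cases m : v ∈ npl G ∨ ∃ x ∈ s, G.Reachable x v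
        · convert ih using 2
          ext u
          simp only [Finset.mem_insert, exists_eq_or_imp, Set.mem_setOf_eq]
          exact ⟨fun p => p.elim .inl fun p => p.elim (fun r => cY _ _ r m) .inr,
            fun p => p.imp_right .inr⟩
        refine join _ _ _ ih (lift G _ (cmh 0 _ _ (not_not.1 fun q => m (.inl q)).2.2))
          (fun a b c p q => m (cY _ _ (.symm q.2.1) p.2.1)) fun a b => ?_
        simp only [rst, Set.mem_setOf_eq, Finset.mem_insert, exists_eq_or_imp]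
        constructor
        · rintro ⟨q, p, -⟩
          rcases p with p | p | p
          · exact .inl ⟨q, .inl p, cY _ _ q.reachable (.inl p)⟩
          · exact .inr ⟨q, p, p.trans q.reachable⟩
          · exact .inl ⟨q, .inr p, cY _ _ q.reachable (.inr p)⟩
        · rintro (⟨q, p, p'⟩ | ⟨q, p, p'⟩)
          · exact ⟨q, p.imp_right .inr, p'.imp_right .inr⟩
          · exact ⟨q, .inr (.inl p), .inr (.inl p')⟩
    have := Fintype.ofFinite V
    refine hmc k V G ?_
    convert key Finset.univ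
    ext a b
    exact ⟨fun q => ⟨q, .inr ⟨a, Finset.mem_univ _, .refl _⟩, .inr ⟨b, Finset.mem_univ _, .refl _⟩⟩,
      fun q => q.1⟩

end Pool.Agent.Lib.MP_c1f5fe_lc
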