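import Pool.Agent.Lib.MP_c1f5fe_lc.Defs
import Pool.Agent.Lib.MP_50b5c6_lc.NpSpec

/-! Definitions used in the proof: towers, maps, solutions, pieces, cylinders. -/

namespace Pool.Agent.Lib.MP_c1f5fe_lc

open Equiv Function Relation
open Pool.Agent.Lib.MP_50b5c6_lc.Np (NC Pl)

/-! ### towers -/

def tw : ℕ → ℕ → ℕ
  | 0, x => x
  | h + 1, x => 2 ^ tw h x

def bg : ℕ → ℕ → ℕ
  | 0, x => x
  | h + 1, x => tw (bg h x + 1) (bg h x + 1)

/-! ### pairs of permutations -/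

section perm
variable {D : Type}

/-- number of cycles, fixed points included -/
noncomputable def ncyc (π : Perm D) : ℕ := Nat.card (Quotient (Perm.SameCycle.setoid π))

/-- number of cycles inside `P` -/
noncomputable def ncycOn (π : Perm D) (P : D → Prop) : ℕ :=
  Nat.card {c : Quotient (Perm.SameCycle.setoid π) // ∀ d, Quotient.mk _ d = c → P d}

/-- number of cycles that meet `P` -/
noncomputable def ncycAt (π : Perm D) (P : D → Prop) : ℕ :=
  Nat.card {c : Quotient (Perm.SameCycle.setoid π) // ∃ d, Quotient.mk _ d = c ∧ P d}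

def Conn (a b : Perm D) : D → D → Prop := EqvGen fun x y => y = a x ∨ y = b x

noncomputable def ncomp (a b : Perm D) : ℕ :=
  Nat.card (Quotient (EqvGen.setoid fun x y => y = a x ∨ y = b x))

noncomputable def chi (a b : Perm D) : ℤ :=
  (ncyc a : ℤ) + ncyc b + ncyc (a * b) - Nat.card D

/-- Euler genus -/
noncomputable def eg (a b : Perm D) : ℤ := 2 * (ncomp a b : ℤ) - chi a b

/-- `y` is the first point of `Q` after `x` on the orbit of `π` -/
def Nxt (π : Perm D) (Q : D → Prop) (x y : D) : Prop :=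
  ∃ n : ℕ, 0 < n ∧ (π ^ n) x = y ∧ Q y ∧ ∀ m : ℕ, 0 < m → m < n → ¬Q ((π ^ m) x)

theorem Nxt.unique {π : Perm D} {Q : D → Prop} {x y y' : D} (h : Nxt π Q x y)
    (h' : Nxt π Q x y') : y = y' := by
  obtain ⟨n, n0, rfl, q, hn⟩ := h
  obtain ⟨m, m0, rfl, q', hm⟩ := h'
  rcases lt_trichotomy n m with l | l | l
  · exact absurd q (hm n n0 l)
  · rw [l]
  · exact absurd q' (hn m m0 l)

theorem Nxt.unique_left {π : Perm D} {Q : D → Prop} {x x' y : D} (hx : Q x) (hx' : Q x')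
    (h : Nxt π Q x y) (h' : Nxt π Q x' y) : x = x' := by
  obtain ⟨n, n0, e, -, hn⟩ := h
  obtain ⟨m, m0, e', -, hm⟩ := h'
  have key : ∀ {a b : D} {p q : ℕ}, p < q → (π ^ p) a = (π ^ q) b → (π ^ (q - p)) b = a := by
    intro a b p q l e
    apply (π ^ p).injective
    rw [e, ← Perm.mul_apply, ← pow_add, Nat.add_sub_cancel' l.le]
  rcases lt_trichotomy n m with l | l | l
  · exact absurd (key l (e.trans e'.symm) ▸ hx) (hm (m - n) (by omega) (by omega))
  · subst l; exact (π ^ n).injective (e.trans e'.symm)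
  · exact absurd (key l (e'.trans e.symm) ▸ hx') (hn (n - m) (by omega) (by omega))

theorem exists_nxt [Finite D] {π : Perm D} {Q : D → Prop} {x y : D} (h : π.SameCycle x y)
    (hy : Q y) : ∃ z, Nxt π Q x z := by
  classical
  obtain ⟨n, n0, -, e⟩ := h.exists_pow_eq''
  have ex : ∃ n : ℕ, 0 < n ∧ Q ((π ^ n) x) := ⟨n, n0, e ▸ hy⟩
  exact ⟨_, Nat.find ex, (Nat.find_spec ex).1, rfl, (Nat.find_spec ex).2,
    fun m m0 l q => Nat.find_min ex l ⟨m0, q⟩⟩

theorem exists_ret [Finite D] (π : Perm D) (Q : D → Prop) :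
    ∃ ρ : Perm D, (∀ x, Q x → Nxt π Q x (ρ x)) ∧ ∀ x, ¬Q x → ρ x = x := by
  classical
  have h : ∀ x, ∃ y, (Q x → Nxt π Q x y) ∧ (¬Q x → y = x) := by
    intro x
    by_cases q : Q x
    · obtain ⟨z, hz⟩ := exists_nxt (Perm.SameCycle.refl π x) q
      exact ⟨z, fun _ => hz, fun n => absurd q n⟩
    · exact ⟨x, fun h => absurd h q, fun _ => rfl⟩
  choose f h1 h2 using h
  have q1 : ∀ x, Q x → Q (f x) := fun x q => by obtain ⟨_, _, _, h, _⟩ := h1 x q; exact h
  have inj : Injective f := by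
    intro x y e
    by_cases a : Q x <;> by_cases b : Q y
    · exact Nxt.unique_left a b (h1 x a) (e ▸ h1 y b)
    · exact absurd (h2 y b ▸ e ▸ q1 x a) b
    · exact absurd (h2 x a ▸ e.symm ▸ q1 y b) a
    · rw [← h2 x a, e, h2 y b]
  exact ⟨Equiv.ofBijective f (Finite.injective_iff_bijective.1 inj), h1, h2⟩

/-- first return to `Q`, the identity off `Q` -/
noncomputable def ret [Finite D] (π : Perm D) (Q : D → Prop) : Perm D := (exists_ret π Q).choose

theorem ret_nxt [Finite D] (π : Perm D) {Q : D → Prop} {x : D} (h : Q x) :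
    Nxt π Q x (ret π Q x) := (exists_ret π Q).choose_spec.1 x h

theorem ret_not [Finite D] (π : Perm D) {Q : D → Prop} {x : D} (h : ¬Q x) : ret π Q x = x :=
  (exists_ret π Q).choose_spec.2 x h

/-- every cycle of `π` has an even number of points in `Y` -/
def Ev (π : Perm D) (Y : D → Prop) : Prop := ∀ d, Even (Nat.card {e // π.SameCycle d e ∧ Y e})

end perm

/-! ### maps -/

/-- A map: `φ` is the successor in a face, `α` reverses a dart (fixed points are allowed). -/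
structure HMap (D : Type) where
  φ : Perm D
  α : Perm D
  αα : ∀ d, α (α d) = d

namespace HMap
variable {D D₀ : Type} (M : HMap D)

/-- rotation around the tail of a dart -/
def σ : Perm D := M.φ * M.α

theorem σ_apply (d : D) : M.σ d = M.φ (M.α d) := rfl

def Con : Prop := ∀ d e, Conn M.φ M.α d e

noncomputable def chi : ℤ := MP_c1f5fe_lc.chi M.φ M.α

noncomputable def eg : ℤ := MP_c1f5fe_lc.eg M.φ M.α

/-- regions: faces joined across the edges outside `Q` -/
def regR (Q : D → Prop) (x y : D) : Prop := y = M.φ x ∨ (¬Q x ∧ y = M.α x)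

def Reg (Q : D → Prop) : D → D → Prop := EqvGen (M.regR Q)

/-- joined inside the colour `X` -/
def RegX (X : D → Prop) : D → D → Prop :=
  EqvGen fun x y => X x ∧ (y = M.φ x ∨ (y = M.α x ∧ X y))

/-- successor of a dart of `Q` on the boundary of its region -/
noncomputable def nx [Finite D] (Q : D → Prop) (q : D) : D := ret M.σ Q (M.α q)

/-- `Q` is a set of edges -/
def Edges (Q : D → Prop) : Prop := ∀ q, Q q → Q (M.α q) ∧ M.α q ≠ q

/-- the two sides of the dart have different colours -/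
def Bi (X : D → Prop) (d : D) : Prop := ¬(X d ↔ X (M.α d))

noncomputable def inv (Q X : D → Prop) : ℤ :=
  (ncycOn M.φ X : ℤ) + ncycOn M.σ (fun d => X d ∧ ¬Q d) + ncycOn M.α (fun d => X d ∧ ¬Q d) -
    Nat.card {d // X d ∧ ¬Q d}

/-- `M₀` is the map left after deleting the darts outside `A` -/
structure Sub (A : D → Prop) (M₀ : HMap D₀) (ι : D₀ → D) : Prop where
  inj : Injective ι
  range : ∀ d, A d ↔ ∃ x, ι x = d
  al : ∀ x, ι (M₀.α x) = M.α (ι x)
  si : ∀ x, Nxt M.σ A (ι x) (ι (M₀.σ x))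

open Classical in
/-- a new edge `inr true` from the head of `p` to the head of `q`, `inr false` its reverse -/
noncomputable def chord (p q : D) : HMap (D ⊕ Bool) where
  φ := Perm.sumCongr M.φ (Equiv.swap true false) * Equiv.swap (Sum.inl p) (Sum.inr false) *
    Equiv.swap (Sum.inl q) (Sum.inr true)
  α := Perm.sumCongr M.α (Equiv.swap true false)
  αα := by
    rintro (d | b)
    · simp [M.αα]
    · cases b <;> simp

theorem chord_α_inl (p q d : D) : (M.chord p q).α (.inl d) = .inl (M.α d) := rfl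

theorem chord_α_inr (p q : D) (b : Bool) : (M.chord p q).α (.inr b) = .inr (!b) := by
  cases b <;> simp [chord]

theorem chord_φ_p {p q : D} (h : p ≠ q) : (M.chord p q).φ (.inl p) = .inr true := by
  simp [chord, swap_apply_def, h]

theorem chord_φ_q {p q : D} : (M.chord p q).φ (.inl q) = .inr false := by
  simp [chord, swap_apply_def]

theorem chord_φ_true {p q : D} (h : p ≠ q) : (M.chord p q).φ (.inr true) = .inl (M.φ q) := by
  simp [chord, swap_apply_def, h.symm]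

theorem chord_φ_false {p q : D} : (M.chord p q).φ (.inr false) = .inl (M.φ p) := by
  simp [chord, swap_apply_def]

theorem chord_φ_inl {p q d : D} (h : d ≠ p) (h' : d ≠ q) :
    (M.chord p q).φ (.inl d) = .inl (M.φ d) := by
  simp [chord, swap_apply_def, h, h']

/-- nodes of the radial graph: vertices and faces -/
abbrev Node : Type :=
  Quotient (Perm.SameCycle.setoid M.σ) ⊕ Quotient (Perm.SameCycle.setoid M.φ)

def rv (d : D) : M.Node := .inl (Quotient.mk _ d)

def rf (d : D) : M.Node := .inr (Quotient.mk _ d)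

def rg : SimpleGraph M.Node := SimpleGraph.fromRel fun a b => ∃ d, a = M.rv d ∧ b = M.rf d

end HMap

/-! ### words -/

abbrev Lab (k : ℕ) : Type := Fin k × Bool

abbrev FG (k : ℕ) : Type := FreeGroup (Lab k)

abbrev Let (k : ℕ) : Type := Lab k × Bool

def labs {k : ℕ} (g : FG k) : List (Lab k) := g.toWord.map Prod.fst

def linv {A : Type} (x : A × Bool) : A × Bool := (x.1, !x.2)

open Classical in
/-- the letters of `l` at the positions in `P` -/
noncomputable def sel {A : Type} (l : List A) (P : ℕ → Prop) : List A :=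
  (l.zipIdx.filter fun p => P p.2).map Prod.fst

/-- the region of `q` has one boundary cycle and carries potentials -/
def HMap.Disc {D : Type} [Finite D] (M : HMap D) (Q : D → Prop) (q : D) : Prop :=
  (∀ e, Q e → M.Reg Q q e → ∃ n : ℕ, (M.nx Q)^[n] q = e) ∧
    ∀ (k : ℕ) (w θ : D → FG k), (∀ d, M.Reg Q q d → ¬Q d → w (M.α d) = (w d)⁻¹) →
      (∀ d, M.Reg Q q d → θ d * w d = θ (M.φ d)) →
      ∃ η : D → FG k, (∀ d, M.Reg Q q d → η d * w d = η (M.φ d)) ∧
        ∀ d, M.Reg Q q d → ¬Q d → η (M.α d) = η (M.φ d)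

/-! ### graphs -/

section graph
variable {V : Type}

/-- nonempty and connected -/
def Cn (G : SimpleGraph V) (A : Set V) : Prop :=
  A.Nonempty ∧ ∀ a ∈ A, ∀ b ∈ A, ReflTransGen (fun x y => G.Adj x y ∧ x ∈ A ∧ y ∈ A) a b

def nb (G : SimpleGraph V) (X : Set V) : Set V := {v | v ∉ X ∧ ∃ x ∈ X, G.Adj x v}

/-- `Y` is a component of `G - T` -/
def Comp (G : SimpleGraph V) (T Y : Set V) : Prop := Cn G Y ∧ Disjoint Y T ∧ nb G Y ⊆ T

def Indep (G : SimpleGraph V) (U : Set V) : Prop := ∀ x ∈ U, ∀ y ∈ U, ¬G.Adj x y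

def PlOn (G : SimpleGraph V) (X : Set V) : Prop := Pl fun x y => G.Adj x y ∧ x ∈ X ∧ y ∈ X

def rst (G : SimpleGraph V) (X : Set V) : SimpleGraph V where
  Adj x y := G.Adj x y ∧ x ∈ X ∧ y ∈ X
  symm := ⟨fun _ _ h => ⟨h.1.symm, h.2.2, h.2.1⟩⟩
  loopless := ⟨fun x h => G.loopless.1 x h.1⟩

structure Cyc (G : SimpleGraph V) {n : ℕ} (c : ZMod n → V) : Prop where
  three : 3 ≤ n
  inj : Injective c
  adj : ∀ i, G.Adj (c i) (c (i + 1))

def Induced (G : SimpleGraph V) {n : ℕ} (c : ZMod n → V) : Prop :=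
  ∀ i j, G.Adj (c i) (c j) → j = i + 1 ∨ i = j + 1

/-- `c j` is the next point of `S` after `c i` -/
def NextS {n : ℕ} (c : ZMod n → V) (S : Set V) (i j : ZMod n) : Prop :=
  ∃ m : ℕ, 0 < m ∧ j = i + m ∧ c j ∈ S ∧ ∀ l : ℕ, 0 < l → l < m → c (i + l) ∉ S

def orient {n : ℕ} (o : Bool) (c : ZMod n → V) : ZMod n → V := fun i => c (if o then i else -i)

end graph

/-! ### solutions -/

/-- The skeleton of a solution: a map with vertex labels, real darts, terminal faces. -/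
structure Sk (k : ℕ) {V : Type} (G : SimpleGraph V) (U : Set V) (D : Type) extends HMap D where
  vx : D → Option V
  real : D → Prop
  term : Fin k → D
  ok : Lab k → Lab k → Prop
  vx_σ : ∀ d, vx (φ (α d)) = vx d
  vx_cyc : ∀ d e v, vx d = some v → vx e = some v → toHMap.σ.SameCycle d e
  real_α : ∀ d, real d → real (α d)
  real_adj : ∀ d, real d → ∃ u v, vx d = some u ∧ vx (α d) = some v ∧ G.Adj u v
  real_ex : ∀ u v, G.Adj u v → ∃! d, real d ∧ vx d = some u ∧ vx (α d) = some v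
  term_vx : ∀ i d, φ.SameCycle (term i) d → vx d = none
  term_four : ∀ i, φ (φ (φ (φ (term i)))) = term i
  ok_symm : ∀ x y, ok x y → ok y x
  ok_idx : ∀ i x y, ¬ok (i, x) (i, y)
  ok_once : ∀ i j x y, i ≠ j → ok (i, x) (j, y) → ¬ok (i, !x) (j, !y)
  cap : ∀ d z, vx d = some z → z ∈ U → real d ∧ φ (φ (φ d)) = d ∧
    ∃ y y', vx (φ d) = some y ∧ vx (φ (φ d)) = some y' ∧ G.Adj y y'

namespace Sk
variable {k : ℕ} {V D : Type} {G : SimpleGraph V} {U : Set V} (S : Sk k G U D)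

def Top : Prop := S.toHMap.Con ∧ 2 - 2 * (k : ℤ) ≤ S.toHMap.chi

def IsT (d : D) : Prop := ∃ i, S.φ.SameCycle (S.term i) d

/-- the dart `d` runs from `u` to `v` -/
def E (d : D) (u v : V) : Prop := S.vx d = some u ∧ S.vx (S.α d) = some v

structure Pre (w : D → FG k) : Prop where
  inv : ∀ d, w (S.α d) = (w d)⁻¹
  pot : ∃ θ : D → FG k, ∀ d, ¬S.IsT d → θ d * w d = θ (S.φ d)
  t0 : ∀ i, w (S.term i) = .of (i, false)
  t1 : ∀ i, w (S.φ (S.term i)) = .of (i, true)
  t2 : ∀ i, w (S.φ (S.φ (S.term i))) = (.of (i, false))⁻¹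
  t3 : ∀ i, w (S.φ (S.φ (S.φ (S.term i)))) = (.of (i, true))⁻¹

structure Valid (w : D → FG k) : Prop extends S.Pre w where
  edge : ∀ d, S.real d → (labs (w d)).Pairwise S.ok
  vert : ∀ d e i, S.real d → S.real e → S.vx d = S.vx e → (i, false) ∈ labs (w d) →
    (i, true) ∉ labs (w e)

/-- no letters can be dropped -/
def Min (w : D → FG k) : Prop :=
  ∀ w', S.Valid w' → (∀ d, (w' d).toWord.Sublist (w d).toWord) → w' = w

def AdjD (Z : Set V) (d : D) : Prop := ∃ u v, S.E d u v ∧ G.Adj u v ∧ u ∈ Z ∧ v ∈ Z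

def PlanarOn (Z : Set V) : Prop :=
  ∃ (D₀ : Type) (_ : Finite D₀) (M₀ : HMap D₀) (ι : D₀ → D),
    S.toHMap.Sub (S.AdjD Z) M₀ ι ∧ M₀.eg = 0

def Full (Z : Set V) : Prop :=
  ∀ d u, S.vx d = some u → u ∈ Z → ∃ v, S.vx (S.α d) = some v ∧ G.Adj u v

def Good (Z : Set V) : Prop := S.Full Z ∧ S.PlanarOn Z

def Non (d : D) : Prop := S.vx d = none ∨ S.vx (S.α d) = none

def P2 : Prop := ∀ d u v, S.E d u v → G.Adj u v

/-- the labelled corners of a face with an unlabelled corner form one run -/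
def P3 : Prop :=
  ∀ n d e, S.vx n = none → S.φ.SameCycle n d → S.φ.SameCycle n e → S.vx d ≠ none →
    S.vx e ≠ none → ∃ m : ℕ, ((S.φ ^ m) d = e ∧ ∀ j ≤ m, S.vx ((S.φ ^ j) d) ≠ none) ∨
      ((S.φ ^ m) e = d ∧ ∀ j ≤ m, S.vx ((S.φ ^ j) e) ≠ none)

structure Nf (b : ℕ) : Prop where
  non : Nat.card {d // S.Non d} ≤ b
  p2 : S.P2
  p3 : S.P3
  size : Nat.card D ≤ 3 * Nat.card G.Dart + b

theorem vx_φ (d : D) : S.vx (S.φ d) = S.vx (S.α d) := by
  rw [← S.vx_σ (S.α d), S.αα]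

theorem isT_φ (d : D) : S.IsT (S.φ d) ↔ S.IsT d := by
  simp only [IsT, Perm.sameCycle_apply_right]

theorem IsT.vx {S : Sk k G U D} {d : D} (h : S.IsT d) : S.vx d = none := by
  obtain ⟨i, h⟩ := h
  exact S.term_vx i d h

/-- switching -/
theorem Pre.switch {S : Sk k G U D} {w : D → FG k} (h : S.Pre w) (c : D → FG k)
    (hc : ∀ d, c (S.φ (S.α d)) = c d) (ht : ∀ d, S.IsT d → c d = 1) :
    S.Pre fun d => (c d)⁻¹ * w d * c (S.φ d) := by
  have e : ∀ d, c (S.α d) = c (S.φ d) := fun d => by rw [← hc (S.α d), S.αα]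
  have t : ∀ d, S.IsT d → (c d)⁻¹ * w d * c (S.φ d) = w d := fun d hd => by
    rw [ht d hd, ht _ ((S.isT_φ d).2 hd)]; simp
  have t0 : ∀ i, S.IsT (S.term i) := fun i => ⟨i, Perm.SameCycle.refl _ _⟩
  obtain ⟨θ, hθ⟩ := h.pot
  refine ⟨fun d => ?_, ⟨fun d => θ d * c d, fun d hd => ?_⟩, fun i => ?_, fun i => ?_,
    fun i => ?_, fun i => ?_⟩
  · rw [hc, e, h.inv]; group
  · beta_reduce
    rw [← hθ d hd]; group
  · rw [t _ (t0 i), h.t0]
  · rw [t _ ((S.isT_φ _).2 (t0 i)), h.t1]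
  · rw [t _ ((S.isT_φ _).2 ((S.isT_φ _).2 (t0 i))), h.t2]
  · rw [t _ ((S.isT_φ _).2 ((S.isT_φ _).2 ((S.isT_φ _).2 (t0 i)))), h.t3]

end Sk

def Sol (k : ℕ) {V : Type} (G : SimpleGraph V) (U : Set V) : Prop :=
  ∃ (D : Type) (_ : Finite D) (S : Sk k G U D) (w : D → FG k), S.Top ∧ S.Valid w

/-- the annotated problem -/
def PP (k : ℕ) {V : Type} (G : SimpleGraph V) (U : Set V) : Prop :=
  Indep G U ∧ Nat.card G.ConnectedComponent ≤ 2 * k + 1 ∧ Sol k G U

/-! ### pieces -/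

structure Piece (t : ℕ) (I : Type) where
  G : SimpleGraph I
  att : I → Fin t → Prop
  U : Set I

structure Ctx (t : ℕ) (K : Type) where
  G : SimpleGraph K
  U : Set K
  β : Fin t → K
  inj : Injective β

section glue
variable {t : ℕ} {I I' K V : Type}

def glue (P : Piece t I) (C : Ctx t K) : SimpleGraph (I ⊕ K) where
  Adj
    | .inl x, .inl y => P.G.Adj x y
    | .inr x, .inr y => C.G.Adj x y
    | .inl x, .inr y => ∃ s, P.att x s ∧ C.β s = y
    | .inr y, .inl x => ∃ s, P.att x s ∧ C.β s = y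
  symm := ⟨by rintro (x | x) (y | y) h <;> first | exact h.symm | exact h⟩
  loopless := ⟨by rintro (x | x) h <;> exact h.ne rfl⟩

def glueU (P : Piece t I) (C : Ctx t K) : Set (I ⊕ K) :=
  {x | Sum.elim (· ∈ P.U) (· ∈ C.U) x}

def Equi (k : ℕ) (P : Piece t I) (P' : Piece t I') : Prop :=
  ∀ (K : Type) [Finite K] (C : Ctx t K),
    PP k (glue P C) (glueU P C) ↔ PP k (glue P' C) (glueU P' C)

def EquiB (k B : ℕ) (P : Piece t I) (P' : Piece t I') : Prop :=
  ∀ n ≤ B, ∀ C : Ctx t (Fin n), PP k (glue P C) (glueU P C) ↔ PP k (glue P' C) (glueU P' C)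

def Red (k : ℕ) (P : Piece t I) : Prop :=
  ∃ (I' : Type) (_ : Finite I') (P' : Piece t I'), Nat.card I' < Nat.card I ∧ Equi k P P'

def pieceOf (G : SimpleGraph V) (U X : Set V) (b : Fin t → V) : Piece t X where
  G := G.induce X
  att x s := G.Adj x (b s)
  U := {x | x.1 ∈ U}

def ctxOf (G : SimpleGraph V) (U X : Set V) (b : Fin t → V) (hb : Injective b)
    (hX : ∀ s, b s ∉ X) : Ctx t (Xᶜ : Set V) where
  G := G.induce Xᶜ
  U := {x | x.1 ∈ U}
  β s := ⟨b s, hX s⟩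
  inj := fun _ _ h => hb (congrArg Subtype.val h)

def RedIn (k : ℕ) (G : SimpleGraph V) (U X : Set V) : Prop :=
  ∀ (t : ℕ) (b : Fin t → V), Injective b → Set.range b = nb G X → Red k (pieceOf G U X b)

/-- among `N + 1` sets of different sizes with small boundaries one is reducible -/
def ManyAt (k : ℕ) (G : SimpleGraph V) (U : Set V) (τ N : ℕ) : Prop :=
  ∀ Y : Fin (N + 1) → Set V, (∀ i, (nb G (Y i)).ncard ≤ τ) →
    Injective (fun i => (Y i).ncard) → ∃ i, RedIn k G U (Y i)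

def OutA (k : ℕ) (G : SimpleGraph V) (U Z : Set V) (s : ℕ) : Prop :=
  ∃ X, Cn G X ∧ Disjoint X Z ∧ X.ncard ≤ s ∧ (nb G X).ncard ≤ s ∧ RedIn k G U X

def OutB (k : ℕ) (G : SimpleGraph V) (U Z : Set V) (s : ℕ) : Prop :=
  ∃ (K : Set V) (q : ℕ), Cn G K ∧ K.ncard ≤ s ∧ (nb G K).ncard ≤ s ∧ q ≤ s ∧
    (∃ Y : Fin q → Set V, Injective Y ∧
      ∀ i, Comp G (nb G K) (Y i) ∧ (Y i).ncard ≤ s ∧ Disjoint (Y i) Z) ∧
    ∀ Y : Fin q → Set V, Injective Y → (∀ i, Comp G (nb G K) (Y i)) →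
      ∃ j ≤ q, RedIn k G U (⋃ i : Fin q, ⋃ _ : i.val < j, Y i)

/-- the graph in which everything outside `K` and the cycle is replaced by one vertex -/
def capG (G : SimpleGraph V) (K : Set V) {n : ℕ} (c : ZMod n → V) :
    SimpleGraph (Option {v // v ∈ K ∨ v ∈ Set.range c}) where
  Adj
    | some a, some b => G.Adj a b
    | none, some b => b.1 ∈ Set.range c
    | some a, none => a.1 ∈ Set.range c
    | none, none => False
  symm := ⟨by rintro (_ | x) (_ | y) h <;> first | exact h.symm | exact h⟩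
  loopless := ⟨by rintro (_ | x) h <;> first | exact h.ne rfl | exact h⟩

def capU (U K : Set V) {n : ℕ} (c : ZMod n → V) : Set (Option {v // v ∈ K ∨ v ∈ Set.range c}) :=
  {x | ∀ a, x = some a → a.1 ∈ U}

end glue

/-! ### cylinders -/

section cyl
variable {V : Type}

structure Cyl (G : SimpleGraph V) (n m : ℕ) (rad : V → ℕ) (ang : V → ZMod m) : Prop where
  lip : ∀ u v, G.Adj u v → rad u ≤ rad v + 1
  lipa : ∀ u v, G.Adj u v → 1 ≤ rad u → rad u ≤ n → 1 ≤ rad v → rad v ≤ n →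
    ang v = ang u ∨ ang v = ang u + 1 ∨ ang u = ang v + 1
  cell : ∀ i j, 1 ≤ i → i ≤ n → Cn G {v | rad v = i ∧ ang v = j}
  hor : ∀ i j, 1 ≤ i → i ≤ n →
    ∃ u v, G.Adj u v ∧ rad u = i ∧ ang u = j ∧ rad v = i ∧ ang v = j + 1
  ver : ∀ i j, 1 ≤ i → i < n →
    ∃ u v, G.Adj u v ∧ rad u = i ∧ ang u = j ∧ rad v = i + 1 ∧ ang v = j

/-- the rings at distance at most `a` from ring `r` -/
def band (rad : V → ℕ) (r a : ℕ) : Set V := {v | r ≤ rad v + a ∧ rad v ≤ r + a}

/-- distance to `0` -/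
def ad {m : ℕ} (x : ZMod m) : ℕ := x.valMinAbs.natAbs

structure Grid (G : SimpleGraph V) (X : Set V) (i₀ i₁ : ℕ) {m : ℕ} (β : ℕ → ZMod m → Set V) :
    Prop where
  cn : ∀ i j, i₀ ≤ i → i ≤ i₁ → Cn G (β i j) ∧ β i j ⊆ X
  disj : ∀ i j i' j' v, i₀ ≤ i → i ≤ i₁ → i₀ ≤ i' → i' ≤ i₁ → v ∈ β i j → v ∈ β i' j' →
    i = i' ∧ j = j'
  hor : ∀ i j, i₀ ≤ i → i ≤ i₁ → ∃ u ∈ β i j, ∃ v ∈ β i (j + 1), G.Adj u v
  ver : ∀ i j, i₀ ≤ i → i < i₁ → ∃ u ∈ β i j, ∃ v ∈ β (i + 1) j, G.Adj u v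

/-- an induced cycle without caps that cuts `K` off -/
structure Frame (G : SimpleGraph V) (U : Set V) {n : ℕ} (c : ZMod n → V) (K : Set V) :
    Prop where
  cyc : Cyc G c
  ind : Induced G c
  free : ∀ i, c i ∉ U
  off : ∀ i, c i ∉ K
  sep : nb G K ⊆ Set.range c
  two : ∃ i j, i ≠ j ∧ c i ∈ nb G K ∧ c j ∈ nb G K

end cyl

/-! ### planar orders -/

section hm
variable {k : ℕ} {V : Type}

abbrev Sg (V : Type) : Type := V × V × ℕ

def node (lab : V → V → List (Lab k)) (x : Sg V) : V ⊕ Option (Fin k) :=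
  if x.2.2 = 0 then .inl x.1 else .inr (((lab x.1 x.2.1)[x.2.2 - 1]?).map Prod.fst)

def lb (lab : V → V → List (Lab k)) (x : Sg V) : Option (Lab k) := (lab x.1 x.2.1)[x.2.2 - 1]?

def opp (lab : V → V → List (Lab k)) (x : Sg V) : Sg V :=
  (x.2.1, x.1, (lab x.1 x.2.1).length - x.2.2)

def kap (lab : V → V → List (Lab k)) (x : Sg V) : Sg V :=
  (x.2.1, x.1, (lab x.1 x.2.1).length - x.2.2 + 1)

def IsSg (G : SimpleGraph V) (lab : V → V → List (Lab k)) (x : Sg V) : Prop :=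
  G.Adj x.1 x.2.1 ∧ x.2.2 ≤ (lab x.1 x.2.1).length

structure LabOK (G : SimpleGraph V) (lab : V → V → List (Lab k)) : Prop where
  rev : ∀ u v, G.Adj u v → lab v u = (lab u v).reverse
  idx : ∀ u v, G.Adj u v → ((lab u v).map Prod.fst).Nodup
  once : ∀ u v u' v' i j x y, G.Adj u v → G.Adj u' v' → i ≠ j → (i, x) ∈ lab u v →
    (j, y) ∈ lab u v → (i, !x) ∈ lab u' v' → (j, !y) ∉ lab u' v'
  vert : ∀ u v v' i, G.Adj u v → G.Adj u v' → (i, false) ∈ lab u v → (i, true) ∉ lab u v'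

open Classical in
/-- the combinatorial form of a drawing with at most `k` bundled crossings -/
def HM (k : ℕ) (G : SimpleGraph V) : Prop :=
  ∃ (lab : V → V → List (Lab k)) (L : List (Sg V)), LabOK G lab ∧ L.Nodup ∧
    (∀ x, x ∈ L ↔ IsSg G lab x) ∧ NC (node lab) L ∧ NC (fun x => s(x, opp lab x)) L ∧
    ∀ i, ∃ A B : List (Sg V), (∀ x ∈ A, lb lab x = some (i, false)) ∧
      (∀ x ∈ B, lb lab x = some (i, true)) ∧
      (L.filter fun x => node lab x = .inr (some i)) ~r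
        A ++ B ++ A.reverse.map (kap lab) ++ B.reverse.map (kap lab)

end hm

end Pool.Agent.Lib.MP_c1f5fe_lc
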