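import Pool.Agent.Lib.MP_c1f5fe_lc.Cut2

/-! The map cut along the curves is a sphere. -/

namespace Pool.Agent.Lib.MP_c1f5fe_lc

open Equiv Function Relation Cut1 Cut2

namespace Cut3
variable {k : ℕ} {V D : Type} {G : SimpleGraph V} {U : Set V} {S : Sk k G U D} {w : D → FG k}
  {H : HMap (Seg w)} {fs μ : Perm (Seg w)}

lemma β_val (hp : PC S w H fs μ) (x : Seg w) (l : x.1.2 < (w x.1.1).norm) :
    ((H.α * fs) x).1 = (S.α x.1.1, (w x.1.1).norm - (x.1.2 + 1)) := by
  rw [Perm.mul_apply, hp.α_eq, hp.fs_lt x l]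

lemma β_lt (h : S.Pre w) (hp : PC S w H fs μ) (x : Seg w) (l : x.1.2 < (w x.1.1).norm) :
    ((H.α * fs) x).1.2 < (w ((H.α * fs) x).1.1).norm := by
  rw [β_val hp x l, n_α h]; simp only; omega

lemma hβ (h : S.Pre w) (hp : PC S w H fs μ) (x : Seg w) (hx : slet x ≠ none) :
    (H.α * fs) ((H.α * fs) x) = x ∧ slet ((H.α * fs) x) = (slet x).map linv := by
  have l := (slet_ne x).1 hx
  constructor
  · apply Subtype.ext
    rw [β_val hp _ (β_lt h hp x l), β_val hp x l, S.αα, n_α h]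
    exact Prod.ext rfl (by simp only; omega)
  · rw [slet, β_val hp x l, h.inv, FreeGroup.toWord_inv]
    exact invRev_get _ _ l

lemma hn (hp : PC S w H fs μ) (x : Seg w) (t : ¬S.IsT x.1.1) :
    ¬S.IsT (μ x).1.1 ∧ μ (μ x) = x ∧ slet (μ x) = (slet x).map linv :=
  ⟨fun q => t ((isT_sc (hp.μ_n x t).1).2 q), (hp.μ_n x t).2⟩

lemma σ_fs (hp : PC S w H fs μ) (x : Seg w) : H.σ (fs x) = fs ((μ * (H.α * fs)) x) := by
  rw [H.σ_apply, hp.φ_eq]; rfl

lemma slet_z (h : S.Pre w) (c : Let k) : slet (z0 w (tl S c)) = some c := by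
  simp [slet, z0, w_tl h]

lemma eq_z [Finite D] (h : S.Pre w) {y : Seg w} {c : Let k} (t : S.IsT y.1.1)
    (l : slet y = some c) : y = z0 w (tl S c) := by
  obtain ⟨⟨d, j⟩, p⟩ := y
  obtain ⟨c', rfl⟩ := ex_tl S t
  simp only [slet, w_tl h] at l
  rcases j with _ | j
  · obtain rfl : c' = c := by simpa using l
    rfl
  · simp at l

lemma μ_z (hp : PC S w H fs μ) (c : Let k) : μ (z0 w (tl S (rot c))) = z0 w (tl S c) := by
  obtain ⟨a, b⟩ := hp.μ_t (z0 w (tl S (rot c))) (isT_tl S _) rfl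
  exact Subtype.ext (Prod.ext (S.φ.injective (a.trans (φ_tl S c).symm)) b)

lemma node0 [Finite D] (h : S.Pre w) (hp : PC S w H fs μ) (i : Fin k) :
    ∃ (A B : List (Seg w)) (n : ℕ),
      List.iterate (μ * (H.α * fs)) (z0 w (S.term i)) n =
        A ++ B ++ A.reverse.map (H.α * fs) ++ B.reverse.map (H.α * fs) ∧
      (List.iterate (μ * (H.α * fs)) (z0 w (S.term i)) n).Nodup ∧
      ((μ * (H.α * fs)) ^ n) (z0 w (S.term i)) = z0 w (S.term i) ∧ 0 < n ∧
      (∀ p ∈ A, slet p = some ((i, false), true)) ∧ (∀ p ∈ B, slet p = some ((i, true), true)) ∧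
      ∀ c : Let k, c.1.1 = i → (μ * (H.α * fs)).SameCycle (z0 w (S.term i)) (z0 w (tl S c)) := by
  obtain ⟨m, y, a1, a2, a3, a4, a5, a6, a7⟩ := walk μ (H.α * fs) (fun x => S.IsT x.1.1) slet
    (hβ h hp) (hn hp) (z0 w (tl S ((i, false), true))) _
    (isT_tl S ((i, false), true)) (slet_z h _)
  obtain ⟨m', y', b1, b2, b3, b4, b5, -, b7⟩ := walk μ (H.α * fs) (fun x => S.IsT x.1.1) slet
    (hβ h hp) (hn hp) (z0 w (tl S ((i, true), true))) _
    (isT_tl S ((i, true), true)) (slet_z h _)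
  obtain rfl := eq_z h a1 a2
  obtain rfl := eq_z h b1 b2
  have u1 := μ_z hp ((i, true), true)
  have u2 := μ_z hp ((i, true), false)
  have u3 := μ_z hp ((i, false), false)
  have u4 := μ_z hp ((i, false), true)
  simp only [rot, linv, Bool.not_true, Bool.not_false, if_true, Bool.false_eq_true, if_false]
    at u1 u2 u3 u4 a3 a4 a7 b3 b4 b7
  rw [u1] at a3
  rw [u2] at a4
  rw [u3] at b3
  rw [u4] at b4
  change ∃ (A B : List (Seg w)) (n : ℕ), List.iterate _ (z0 w (tl S ((i, false), true))) n = _ ∧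
    (List.iterate _ (z0 w (tl S ((i, false), true))) n).Nodup ∧
    (_ ^ n : Perm _) (z0 w (tl S ((i, false), true))) = z0 w (tl S ((i, false), true)) ∧ _ ∧ _ ∧
    _ ∧ ∀ c : Let k, _ → Perm.SameCycle _ (z0 w (tl S ((i, false), true))) _
  have hb := hβ h hp
  generalize μ * (H.α * fs) = s at *
  generalize H.α * fs = β at *
  have e2 := List.iterate_add s (z0 w (tl S ((i, true), true))) (m' + 1) (m + 1 + (m' + 1))
  rw [it_pow, b3, List.iterate_add s _ (m + 1) (m' + 1), it_pow, a4, a7, b7] at e2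
  have e1 := List.iterate_add s (z0 w (tl S ((i, false), true))) (m + 1)
    (m' + 1 + (m + 1 + (m' + 1)))
  rw [it_pow, a3, e2] at e1
  refine ⟨_, _, _, e1.trans (by simp only [List.append_assoc]), nodup_it _ _ _ fun q q0 l e => ?_,
    ?_, by omega, a5, b5, fun c e => ?_⟩
  · by_cases g : q ≤ m
    · exact a6 q q0 g e
    obtain ⟨q, rfl⟩ : ∃ r, q = r + (m + 1) := ⟨q - (m + 1), by omega⟩
    rw [pow_add, Perm.mul_apply, a3, ← it_pow] at e
    have j := List.mem_iterate.2 ⟨q, (by omega : q < m' + 1 + (m + 1 + (m' + 1))), e.symm⟩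
    have z := slet_z h ((i, false), true)
    rw [e2] at j
    simp only [List.mem_append, List.mem_map, List.mem_reverse] at j
    rcases j with j | ⟨p, j, e⟩ | ⟨p, j, e⟩
    · simp [b5 _ j] at z
    · rw [← e, (hb p (by simp [a5 _ j])).2, a5 _ j] at z
      simp [linv] at z
    · rw [← e, (hb p (by simp [b5 _ j])).2, b5 _ j] at z
      simp [linv] at z
  · rw [show m + 1 + (m' + 1 + (m + 1 + (m' + 1))) = m' + 1 + (m + 1 + (m' + 1 + (m + 1))) by omega,
      pow_add, pow_add s (m + 1), pow_add s (m' + 1) (m + 1), Perm.mul_apply, Perm.mul_apply,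
      Perm.mul_apply, a3, b3, a4, b4]
  · have s1 : ∀ {x y : Seg w} {n : ℕ}, (s ^ n) x = y → s.SameCycle x y := fun e =>
      ⟨_, by rw [zpow_natCast]; exact e⟩
    rcases c with ⟨⟨j, _ | _⟩, _ | _⟩ <;> obtain rfl : j = i := e
    · exact (s1 a3).trans (s1 b3)
    · exact Perm.SameCycle.refl _ _
    · exact (s1 b4).symm
    · exact s1 a3

/-- every letter lies on a walk, and so does its other side -/
lemma all [Finite D] (hmin : MinSt) (hv : S.Valid w) (hm : S.Min w) (hp : PC S w H fs μ) :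
    (∀ (x : Seg w) (c : Let k), slet x = some c →
      (μ * (H.α * fs)).SameCycle (z0 w (S.term c.1.1)) x) := by
  have h := hv.toPre
  have hb := hβ h hp
  have nd : ∀ i x, (μ * (H.α * fs)).SameCycle (z0 w (S.term i)) x →
      (μ * (H.α * fs)).SameCycle (z0 w (S.term i)) ((H.α * fs) x) ∧
        ∃ c, slet x = some c ∧ c.1.1 = i := by
    intro i x e
    obtain ⟨A, B, n, e1, -, e2, n0, a, b, -⟩ := node0 h hp i
    rw [← mem_it _ _ _ n n0 e2, e1] at e ⊢
    simp only [List.mem_append, List.mem_map, List.mem_reverse] at e ⊢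
    rcases e with ((j | j) | ⟨p, j, rfl⟩) | ⟨p, j, rfl⟩
    · exact ⟨.inl (.inr ⟨x, j, rfl⟩), _, a x j, rfl⟩
    · exact ⟨.inr ⟨x, j, rfl⟩, _, b x j, rfl⟩
    · obtain ⟨u, v⟩ := hb p (by simp [a p j])
      exact ⟨.inl (.inl (.inl (u.symm ▸ j))), _, by rw [v, a p j]; rfl, rfl⟩
    · obtain ⟨u, v⟩ := hb p (by simp [b p j])
      exact ⟨.inl (.inl (.inr (u.symm ▸ j))), _, by rw [v, b p j]; rfl, rfl⟩
  set P : D → ℕ → Prop := fun d j => ∃ p : j ≤ (w d).norm, ∃ i,
    (μ * (H.α * fs)).SameCycle (z0 w (S.term i)) ⟨(d, j), p⟩ with hP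
  have mk : ∀ (x : Seg w) i, (μ * (H.α * fs)).SameCycle (z0 w (S.term i)) x → P x.1.1 x.1.2 :=
    fun x i e => ⟨x.2, i, e⟩
  have sy : ∀ d j, j < (w d).norm → P d j → P (S.α d) ((w d).norm - (j + 1)) := by
    rintro d j l ⟨p, i, e⟩
    have := mk _ i (nd i _ e).1
    rwa [β_val hp _ l] at this
  have tt : ∀ c, FreeGroup.mk (sel (w (tl S c)).toWord (P (tl S c))) = w (tl S c) := by
    intro c
    obtain ⟨-, -, -, -, -, -, -, -, -, e⟩ := node0 h hp c.1.1
    have : P (tl S c) 0 := mk _ _ (e c rfl)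
    conv_rhs => rw [← FreeGroup.mk_toWord (x := w (tl S c))]
    rw [w_tl h, sel_cons, if_pos this, sel_nil, List.append_nil]
  have pr : S.Pre fun d => FreeGroup.mk (sel (w d).toWord (P d)) := by
    refine ⟨fun d => ?_, hp.sel P ?_, fun i => (tt ((i, false), true)).trans (h.t0 i),
      fun i => (tt ((i, true), true)).trans (h.t1 i),
      fun i => (tt ((i, false), false)).trans (h.t2 i),
      fun i => (tt ((i, true), false)).trans (h.t3 i)⟩
    · rw [h.inv, FreeGroup.toWord_inv, FreeGroup.inv_mk, sel_invRev _ (P d)]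
      intro j l
      refine ⟨fun q => ?_, sy d j l⟩
      have l' : j < (w d).norm := l
      have := sy (S.α d) _ (by rw [n_α h]; exact Nat.sub_lt (by omega) (by omega)) q
      rwa [S.αα, n_α h, show (w d).norm - ((w d).toWord.length - (j + 1) + 1) = j by
        rw [FreeGroup.norm]; omega] at this
    · rintro x - l ⟨p, i, e⟩
      refine mk _ i ((nd i _ e).1.trans ⟨1, ?_⟩)
      rw [zpow_one, Perm.mul_apply, (hb x ((slet_ne x).2 l)).1]
  have sb : ∀ d, (FreeGroup.mk (sel (w d).toWord (P d))).toWord.Sublist (w d).toWord := fun d =>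
    (FreeGroup.reduce.red.sublist).trans (sel_sublist _ _)
  have e := hm _ ((hmin k V D G U S w hv).1 _ pr sb) sb
  intro x c l
  have l' := (slet_ne x).1 (by simp [l])
  obtain ⟨p, i, q⟩ := sel_all (w x.1.1).toWord (P x.1.1) (by
    have := FreeGroup.norm_mk_le (L₁ := sel (w x.1.1).toWord (P x.1.1))
    rwa [congrFun e x.1.1] at this) x.1.2 l'
  obtain ⟨c', u, v⟩ := (nd i _ q).2
  obtain rfl : c = c' := Option.some.inj (l.symm.trans u)
  rw [v]; exact q

lemma ex_pred (hp : PC S w H fs μ) (x : Seg w) (l : 1 ≤ x.1.2) :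
    ∃ y : Seg w, y.1.2 < (w y.1.1).norm ∧ fs y = x := by
  have := x.2
  refine ⟨⟨(x.1.1, x.1.2 - 1), by simp only; omega⟩, by simp only; omega, Subtype.ext ?_⟩
  rw [hp.fs_lt _ (by simp only; omega)]
  exact Prod.ext rfl (by simp only; omega)

lemma slab_fs (hp : PC S w H fs μ) (y : Seg w) (l : y.1.2 < (w y.1.1).norm) :
    1 ≤ (fs y).1.2 ∧ slab w (fs y).1 = (slet y).map Prod.fst := by
  rw [hp.fs_lt y l]; simp [slab, labs, slet]

lemma con [Finite D] (hk : K1) (h : S.Pre w) (hp : PC S w H fs μ) (hc : S.toHMap.Con)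
    (ha : ∀ (x : Seg w) (c : Let k), slet x = some c →
      (μ * (H.α * fs)).SameCycle (z0 w (S.term c.1.1)) x) : H.Con := by
  have st : ∀ x, Conn H.φ H.α x (fs x) := by
    intro x
    rcases x.2.eq_or_lt with e | l
    · exact EqvGen.rel _ _ (.inl (by rw [hp.φ_eq, Perm.mul_apply, hp.μ_eq x e]))
    obtain ⟨c, e⟩ := Option.ne_none_iff_exists'.1 ((slet_ne x).2 l)
    obtain ⟨u, v⟩ := hβ h hp x (by simp [e])
    obtain ⟨n, -, q⟩ := ((ha _ (linv c) (by rw [v, e]; rfl)).symm.trans (ha x c e)).exists_pow_eq'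
    have q' := (map_it _ H.σ fs (σ_fs hp) n ((H.α * fs) x)).2
    rw [q] at q'
    refine EqvGen.trans _ (fs ((H.α * fs) x)) _ (EqvGen.symm _ _ (EqvGen.rel _ _ (.inr u.symm)))
      (hk.conn_sc _ _ _ _ (.inr (.inr (.inl ⟨n, by rw [zpow_natCast]; exact q'⟩))))
  have z : ∀ d j (p : j ≤ (w d).norm), Conn H.φ H.α (z0 w d) ⟨(d, j), p⟩ := by
    intro d j
    induction j with
    | zero => intro _; exact EqvGen.refl _
    | succ j ih =>
      intro p
      have e : fs ⟨(d, j), Nat.le_of_succ_le p⟩ = ⟨(d, j + 1), p⟩ := Subtype.ext (hp.fs_lt _ p)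
      exact EqvGen.trans _ _ _ (ih _) (e ▸ st _)
  have zz : ∀ d e, Conn H.φ H.α (z0 w d) (z0 w e) := by
    intro d e
    induction hc d e with
    | rel x y q =>
      rcases q with rfl | rfl
      · have e : fs ⟨(x, (w x).norm), le_rfl⟩ = z0 w (S.φ x) := Subtype.ext (hp.fs_eq _ rfl)
        exact EqvGen.trans _ _ _ (z x _ le_rfl) (e ▸ st _)
      · refine EqvGen.trans _ _ _ (z x _ le_rfl) (EqvGen.rel _ _ (.inr (Subtype.ext ?_)))
        rw [hp.α_eq]; simp [z0]
    | refl => exact EqvGen.refl _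
    | symm _ _ _ ih => exact EqvGen.symm _ _ ih
    | trans _ _ _ _ _ a b => exact EqvGen.trans _ _ _ a b
  intro x y
  exact EqvGen.trans _ _ _ (EqvGen.symm _ _ (z _ _ x.2)) (EqvGen.trans _ _ _ (zz _ _) (z _ _ y.2))

lemma chi2 [Finite D] (hk : K1) (h : S.Pre w) (hp : PC S w H fs μ)
    (hc : 2 - 2 * (k : ℤ) ≤ S.toHMap.chi) : 2 ≤ H.chi := by
  classical
  have c0 := hp.cnt
  have c1 := hk.invol S.α (fun _ => True) S.αα fun _ _ => trivial
  have c2 := hk.invol H.α (fun _ => True) H.αα fun _ _ => trivial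
  rw [hk.on_eq_at _ _ (fun _ => Iff.rfl), hk.at_univ, Nat.card_congr (Equiv.subtypeUnivEquiv
    fun _ => trivial)] at c1 c2
  have c3 : Nat.card {d // True ∧ S.α d = d} ≤ Nat.card {x // True ∧ H.α x = x} := by
    refine Nat.card_le_card_of_injective (fun d => ⟨z0 w d.1, trivial, Subtype.ext ?_⟩)
      fun a b e => Subtype.ext (congrArg (·.1.1.1) e)
    have e := h.inv d.1
    rw [d.2.2] at e
    have : w d.1 = 1 := by
      rw [← pow_eq_one_iff_left two_ne_zero, sq]
      exact mul_eq_one_iff_eq_inv.2 e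
    rw [hp.α_eq]; simp [z0, this, d.2.2]
  have c4 : Nat.card (Quotient (Perm.SameCycle.setoid S.toHMap.σ) ⊕ Fin k) ≤
      ncycAt H.σ fun _ => True := by
    refine low hk _ _ (fun x : Seg w => if x.1.2 = 0 then
      (Sum.inl (Quotient.mk (Perm.SameCycle.setoid S.toHMap.σ) x.1.1) : _ ⊕ Option (Fin k))
      else .inr ((slab w x.1).map Prod.fst)) (Sum.map id some) (fun x => ?_)
      (Sum.map_injective.2 ⟨injective_id, Option.some_injective _⟩) ?_
    · by_cases e : x.1.2 = 0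
      · have e' : (H.α x).1.2 = (w (H.α x).1.1).norm := by rw [hp.α_eq, n_α h, e]; rfl
        have : (H.σ x).1 = (S.toHMap.σ x.1.1, 0) := by
          rw [H.σ_apply, hp.φ_eq, Perm.mul_apply, hp.μ_eq _ e', hp.fs_eq _ e', hp.α_eq]; rfl
        simp only [this, e, if_true]
        exact congrArg _ (Quotient.sound
          (show S.toHMap.σ.SameCycle _ _ by simp [Perm.SameCycle.refl]))
      obtain ⟨y, l, rfl⟩ := ex_pred hp x (by omega)
      obtain ⟨c, u⟩ := Option.ne_none_iff_exists'.1 ((slet_ne y).2 l)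
      have v := (hβ h hp y (by simp [u])).2
      obtain ⟨c', u', i⟩ : ∃ c', slet ((μ * (H.α * fs)) y) = some c' ∧ c'.1.1 = c.1.1 := by
        rw [Perm.mul_apply]
        by_cases t : S.IsT ((H.α * fs) y).1.1
        · have r : rot (rot (rot (rot (linv c)))) = linv c := by
            rcases c with ⟨⟨i, _ | _⟩, _ | _⟩ <;> rfl
          rw [eq_z h t (c := linv c) (by rw [v, u]; rfl), ← r, μ_z hp]
          exact ⟨_, slet_z h _, rfl⟩
        · rw [(hn hp _ t).2.2, v, u]
          exact ⟨_, rfl, rfl⟩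
      have a := slab_fs hp ((μ * (H.α * fs)) y) ((slet_ne _).1 (by rw [u']; simp))
      rw [σ_fs hp]
      simp only [e, Nat.one_le_iff_ne_zero.1 a.1, if_false, a.2, (slab_fs hp y l).2, u, u',
        Option.map_some, i]
    · rintro (j | i)
      · obtain ⟨d, rfl⟩ := j.exists_rep
        exact ⟨z0 w d, trivial, rfl⟩
      · have u := slet_z h ((i, false), true)
        have a := slab_fs hp _ ((slet_ne _).1 (by simp [u]) :
          _ < (w (z0 w (tl S ((i, false), true))).1.1).norm)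
        refine ⟨fs (z0 w (tl S ((i, false), true))), trivial, ?_⟩
        simp only [Nat.one_le_iff_ne_zero.1 a.1, if_false, a.2, u]
        rfl
  rw [hk.at_univ, Nat.card_sum, Nat.card_eq_fintype_card (α := Fin k), Fintype.card_fin] at c4
  change ncyc S.toHMap.σ + k ≤ _ at c4
  change _ ≤ (ncyc S.φ : ℤ) + ncyc S.α + ncyc S.toHMap.σ - _ at hc
  change _ ≤ (ncyc H.φ : ℤ) + ncyc H.α + ncyc H.σ - _
  omega

end Cut3

open Cut3 in
theorem cut (hk : K1) (hm : MatchSt) (hmin : MinSt) : CutSt := by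
  intro k V D _ G U S w ht hv hM
  have h := hv.toPre
  obtain ⟨H, fs, μ, hp⟩ := pre hk hm S w h
  have ha := all hmin hv hM hp
  refine ⟨H, fs, μ, hp.φ_eq, hp.α_eq, hp.fs_lt, hp.fs_eq, hp.μ_eq, hp.μ_t, hp.μ_n,
    con hk h hp ht.1 ha, chi2 hk h hp ht.2, fun i => ?_, hp.sel⟩
  obtain ⟨A, B, n, e1, nd, e2, n0, a, b, -⟩ := node0 h hp i
  obtain ⟨u, v⟩ := map_it _ H.σ fs (σ_fs hp) n (z0 w (S.term i))
  have la : ∀ p ∈ A, p.1.2 < (w p.1.1).norm := fun p j => (slet_ne p).1 (by simp [a p j])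
  have lb : ∀ p ∈ B, p.1.2 < (w p.1.1).norm := fun p j => (slet_ne p).1 (by simp [b p j])
  have rv : ∀ L : List (Seg w), (∀ p ∈ L, p.1.2 < (w p.1.1).norm) →
      ((L.reverse.map (H.α * fs)).map fs).map Subtype.val =
        ((L.map fs).map Subtype.val).reverse.map fun p => (S.α p.1, (w p.1).norm - p.2 + 1) := by
    intro L hL
    simp only [← List.map_reverse, List.map_map]
    refine List.map_congr_left fun p j => ?_
    have l := hL p (List.mem_reverse.1 j)
    simp only [Function.comp_apply]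
    rw [hp.fs_lt _ (β_lt h hp p l), β_val hp p l, hp.fs_lt p l]
  refine ⟨fs (z0 w (S.term i)), (A.map fs).map Subtype.val, (B.map fs).map Subtype.val, n,
    hp.fs_lt _ (by simp [z0, h.t0]), ?_, u ▸ nd.map fs.injective, by rw [v, e2], ?_, ?_, ?_⟩
  · rw [u, e1, ← rv A la, ← rv B lb]
    simp only [List.map_append]
  · intro p j
    simp only [List.mem_map, exists_exists_and_eq_and] at j
    obtain ⟨q, j, rfl⟩ := j
    have := slab_fs hp q (la q j)
    rwa [a q j] at this
  · intro p j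
    simp only [List.mem_map, exists_exists_and_eq_and] at j
    obtain ⟨q, j, rfl⟩ := j
    have := slab_fs hp q (lb q j)
    rwa [b q j] at this
  · intro x s l e
    obtain ⟨y, l', rfl⟩ := ex_pred hp x l
    rw [(slab_fs hp y l').2] at e
    obtain ⟨c, e', q⟩ := Option.map_eq_some_iff.1 e
    have := ha y c e'
    rw [q] at this
    rw [u]
    exact List.mem_map_of_mem ((mem_it _ _ _ n n0 e2).2 this)

end Pool.Agent.Lib.MP_c1f5fe_lc
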