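import Pool.Agent.Lib.MP_c1f5fe_lc.Match

/-! Selections of letters, walks along curves, terminal darts. -/

namespace Pool.Agent.Lib.MP_c1f5fe_lc

open Equiv Function

namespace Cut1

section sel
variable {A : Type}

lemma sel_nil (P : ℕ → Prop) : sel ([] : List A) P = [] := rfl

open Classical in
lemma sel_concat (l : List A) (a : A) (P : ℕ → Prop) :
    sel (l ++ [a]) P = sel l P ++ if P l.length then [a] else [] := by
  by_cases h : P l.length <;> simp [sel, List.zipIdx_append, List.filter_append, h]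

open Classical in
lemma sel_cons (l : List A) (a : A) (P : ℕ → Prop) :
    sel (a :: l) P = (if P 0 then [a] else []) ++ sel l fun j => P (j + 1) := by
  unfold sel
  rw [List.zipIdx_cons']
  by_cases h : P 0 <;> simp [List.filter_map, h, Function.comp_def, Prod.map]

lemma sel_sublist (l : List A) (P : ℕ → Prop) : (sel l P).Sublist l := by
  have := (List.filter_sublist (l := l.zipIdx)
    (p := fun p => @decide (P p.2) (Classical.propDecidable _))).map Prod.fst
  rwa [List.zipIdx_map_fst] at this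

lemma sel_all (l : List A) (P : ℕ → Prop) (h : l.length ≤ (sel l P).length) (j : ℕ)
    (hj : j < l.length) : P j := by
  have e : (l.zipIdx.filter
      fun p => @decide (P p.2) (Classical.propDecidable _)).length = l.zipIdx.length := by
    apply le_antisymm (List.length_filter_le _ _)
    simpa [sel] using h
  have := List.length_filter_eq_length_iff.1 e (l[j], j)
    (List.mk_mem_zipIdx_iff_getElem?.2 (by simp [hj]))
  simpa using this

lemma sel_invRev (l : List (A × Bool)) : ∀ P Q : ℕ → Prop,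
    (∀ j < l.length, Q (l.length - (j + 1)) ↔ P j) →
    sel (FreeGroup.invRev l) Q = FreeGroup.invRev (sel l P) := by
  induction l using List.reverseRecOn with
  | nil => intro _ _ _; rfl
  | append_singleton l a ih =>
    intro P Q h
    have e : FreeGroup.invRev (l ++ [a]) = linv a :: FreeGroup.invRev l := by
      simp [FreeGroup.invRev, linv]
    have h0 : Q 0 ↔ P l.length := by simpa using h l.length (by simp)
    rw [e, sel_cons, sel_concat, FreeGroup.invRev_append, ih P (fun j => Q (j + 1)) (by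
      intro j hj
      have := h j (by simp; omega)
      rwa [show (l ++ [a]).length - (j + 1) = l.length - (j + 1) + 1 by simp; omega] at this)]
    by_cases p : P l.length <;> simp [h0, p, FreeGroup.invRev, linv]

lemma invRev_get (l : List (A × Bool)) (j : ℕ) (h : j < l.length) :
    (FreeGroup.invRev l)[l.length - (j + 1)]? = l[j]?.map linv := by
  unfold FreeGroup.invRev
  rw [List.getElem?_reverse (by simp; omega), List.getElem?_map, List.length_map,
    show l.length - 1 - (l.length - (j + 1)) = j by omega]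
  rfl

end sel

section walk
variable {X A : Type}

lemma it_pow (s : Perm X) (x : X) (n : ℕ) : (⇑s)^[n] x = (s ^ n) x := by
  rw [Perm.coe_pow]

/-- the walk along a curve from a terminal letter, and back on the other side -/
lemma walk [Finite X] (μ β : Perm X) (T : X → Prop) (lt : X → Option (A × Bool))
    (hβ : ∀ x, lt x ≠ none → β (β x) = x ∧ lt (β x) = (lt x).map linv)
    (hn : ∀ x, ¬T x → ¬T (μ x) ∧ μ (μ x) = x ∧ lt (μ x) = (lt x).map linv)
    (x₀ : X) (c : A × Bool) (h₀ : T x₀) (l₀ : lt x₀ = some c) :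
    ∃ (m : ℕ) (y : X), T y ∧ lt y = some (linv c) ∧ ((μ * β) ^ (m + 1)) x₀ = μ y ∧
      ((μ * β) ^ (m + 1)) y = μ x₀ ∧ (∀ p ∈ List.iterate (μ * β) x₀ (m + 1), lt p = some c) ∧
      (∀ q, 0 < q → q ≤ m → ((μ * β) ^ q) x₀ ≠ x₀) ∧
      List.iterate (μ * β) y (m + 1) = (List.iterate (μ * β) x₀ (m + 1)).reverse.map β := by
  classical
  set s := μ * β with hs
  have st : ∀ (q : ℕ) (x : X), (s ^ (q + 1)) x = μ (β ((s ^ q) x)) := fun q x => by
    rw [pow_succ', Perm.mul_apply, hs, Perm.mul_apply]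
  have ex : ∃ m : ℕ, T (β ((s ^ m) x₀)) := by
    refine ⟨orderOf s - 1, by_contra fun h => (hn _ h).1 ?_⟩
    rw [← st, Nat.sub_add_cancel (orderOf_pos s), pow_orderOf_eq_one]
    exact h₀
  set m := Nat.find ex with hm
  have nt : ∀ q < m, ¬T (β ((s ^ q) x₀)) := fun q h => Nat.find_min ex h
  have le : ∀ q ≤ m, lt ((s ^ q) x₀) = some c := by
    intro q
    induction q with
    | zero => intro _; exact l₀
    | succ q ih =>
      intro h
      have i := ih (by omega)
      rw [st, (hn _ (nt q (by omega))).2.2, (hβ _ (by simp [i])).2, i]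
      simp [Match.linv_linv]
  have bk : ∀ q ≤ m, (s ^ q) (β ((s ^ m) x₀)) = β ((s ^ (m - q)) x₀) := by
    intro q
    induction q with
    | zero => intro _; rfl
    | succ q ih =>
      intro h
      rw [st, ih (by omega), (hβ _ (by simp [le (m - q) (by omega)])).1,
        show m - q = m - (q + 1) + 1 by omega, st, (hn _ (nt _ (by omega))).2.1]
  refine ⟨m, β ((s ^ m) x₀), Nat.find_spec ex, ?_, st _ _, ?_, ?_, ?_, ?_⟩
  · rw [(hβ _ (by simp [le m le_rfl])).2, le m le_rfl]; rfl
  · rw [st, bk m le_rfl, Nat.sub_self, pow_zero, Perm.one_apply, (hβ _ (by simp [l₀])).1]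
  · intro p hp
    obtain ⟨q, h, rfl⟩ := List.mem_iterate.1 hp
    rw [it_pow]; exact le q (by omega)
  · intro q q0 h e
    obtain ⟨q, rfl⟩ : ∃ r, q = r + 1 := ⟨q - 1, by omega⟩
    exact (hn _ (nt q (by omega))).1 (by rw [← st, e]; exact h₀)
  · apply List.ext_getElem (by simp)
    intro q h1 h2
    simp only [List.length_iterate] at h1
    simp only [List.getElem_iterate, List.getElem_map, List.getElem_reverse, List.length_iterate,
      it_pow, Nat.add_sub_cancel]
    exact bk q (by omega)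

lemma nodup_it (s : Perm X) (x : X) (n : ℕ) (h : ∀ q, 0 < q → q < n → (s ^ q) x ≠ x) :
    (List.iterate s x n).Nodup := by
  rw [List.nodup_iff_getElem?_ne_getElem?]
  intro i j l hj
  rw [List.length_iterate] at hj
  rw [List.getElem?_iterate _ _ _ _ hj, List.getElem?_iterate _ _ _ _ (l.trans hj), it_pow, it_pow]
  intro e
  apply h (j - i) (by omega) (by omega)
  apply (s ^ i).injective
  rw [Option.some.inj e, ← Perm.mul_apply, ← pow_add, Nat.add_sub_cancel' l.le]

lemma mem_it [Finite X] (s : Perm X) (x y : X) (n : ℕ) (n0 : 0 < n) (h : (s ^ n) x = x) :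
    y ∈ List.iterate s x n ↔ s.SameCycle x y := by
  rw [List.mem_iterate]
  constructor
  · rintro ⟨m, -, rfl⟩
    exact ⟨m, by rw [zpow_natCast, it_pow]⟩
  · intro e
    obtain ⟨m, -, rfl⟩ := e.exists_pow_eq'
    refine ⟨m % n, Nat.mod_lt _ n0, ?_⟩
    rw [it_pow]
    conv_lhs => rw [← Nat.mod_add_div m n, pow_add, Perm.mul_apply, pow_mul,
      Perm.pow_apply_eq_self_of_apply_eq_self h]

lemma map_it (s t f : Perm X) (h : ∀ x, t (f x) = f (s x)) (n : ℕ) : ∀ x,
    List.iterate t (f x) n = (List.iterate s x n).map f ∧ (t ^ n) (f x) = f ((s ^ n) x) := by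
  induction n with
  | zero => intro x; exact ⟨rfl, rfl⟩
  | succ n ih =>
    intro x
    simp only [List.iterate, List.map_cons, pow_succ, Perm.mul_apply, h]
    exact ⟨by rw [(ih _).1], (ih _).2⟩

lemma low (hk : K1) {B J : Type} [Finite X] (π : Perm X) (Q : X → Prop) (f : X → B) (g : J → B)
    (hf : ∀ x, f (π x) = f x) (hg : Injective g) (h : ∀ j, ∃ x, Q x ∧ f x = g j) :
    Nat.card J ≤ ncycAt π Q := by
  refine le_trans ?_ (hk.le_at π Q f hf)
  rw [← Set.ncard_range_of_injective hg]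
  refine Set.ncard_le_ncard ?_ ((Set.toFinite _).image f)
  rintro _ ⟨j, rfl⟩
  exact h j

end walk

section term
variable {k : ℕ} {V D : Type} {G : SimpleGraph V} {U : Set V} (S : Sk k G U D) {w : D → FG k}

/-- the terminal dart with a given letter -/
def tl : Let k → D
  | ((i, false), true) => S.term i
  | ((i, true), true) => S.φ (S.term i)
  | ((i, false), false) => S.φ (S.φ (S.term i))
  | ((i, true), false) => S.φ (S.φ (S.φ (S.term i)))

def rot (c : Let k) : Let k := ((c.1.1, !c.1.2), if c.1.2 then !c.2 else c.2)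

lemma φ_tl (c : Let k) : S.φ (tl S c) = tl S (rot c) := by
  rcases c with ⟨⟨i, _ | _⟩, _ | _⟩ <;> simp [tl, rot, S.term_four]

lemma sc_tl (c : Let k) : S.φ.SameCycle (S.term c.1.1) (tl S c) := by
  rcases c with ⟨⟨i, _ | _⟩, _ | _⟩ <;> simp [tl, Perm.SameCycle.refl]

lemma isT_tl (c : Let k) : S.IsT (tl S c) := ⟨_, sc_tl S c⟩

lemma ex_tl [Finite D] {t : D} (h : S.IsT t) : ∃ c, t = tl S c := by
  obtain ⟨i, h⟩ := h
  obtain ⟨n, -, rfl⟩ := h.exists_pow_eq'
  induction n with
  | zero => exact ⟨((i, false), true), rfl⟩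
  | succ n ih =>
    obtain ⟨c, e⟩ := ih ⟨n, by simp⟩
    exact ⟨rot c, by rw [pow_succ', Perm.mul_apply, e, φ_tl]⟩

variable {S}

lemma w_tl (h : S.Pre w) (c : Let k) : (w (tl S c)).toWord = [c] := by
  rcases c with ⟨⟨i, _ | _⟩, _ | _⟩ <;>
    simp [tl, h.t0, h.t1, h.t2, h.t3, FreeGroup.invRev]

lemma n_tl (h : S.Pre w) (c : Let k) : (w (tl S c)).norm = 1 := by
  rw [FreeGroup.norm, w_tl h]; rfl

lemma tl_inj (h : S.Pre w) : Injective (tl S) := fun a b e => by
  have := w_tl h a
  rw [e, w_tl h] at this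
  simpa using this.symm

lemma n_term [Finite D] (h : S.Pre w) {t : D} (ht : S.IsT t) : (w t).norm = 1 := by
  obtain ⟨c, rfl⟩ := ex_tl S ht
  exact n_tl h c

lemma n_α (h : S.Pre w) (d : D) : (w (S.α d)).norm = (w d).norm := by
  rw [h.inv, FreeGroup.norm_inv_eq]

instance segFin [Finite D] : Finite (Seg w) := by
  refine Finite.of_injective
    (fun x : Seg w => (⟨x.1.1, ⟨x.1.2, Nat.lt_succ_of_le x.2⟩⟩ : Σ d, Fin ((w d).norm + 1))) ?_
  rintro ⟨⟨a, i⟩, _⟩ ⟨⟨b, j⟩, _⟩ e
  obtain ⟨rfl, e⟩ := Sigma.mk.inj e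
  simpa using e

lemma slet_ne (x : Seg w) : slet x ≠ none ↔ x.1.2 < (w x.1.1).norm := by
  simp [slet, FreeGroup.norm]

lemma ex_fs [Finite D] (S : Sk k G U D) (w : D → FG k) : ∃ fs : Perm (Seg w),
    (∀ x, x.1.2 < (w x.1.1).norm → (fs x).1 = (x.1.1, x.1.2 + 1)) ∧
    ∀ x, x.1.2 = (w x.1.1).norm → (fs x).1 = (S.φ x.1.1, 0) := by
  let f : Seg w → Seg w := fun x =>
    if h : x.1.2 < (w x.1.1).norm then ⟨(x.1.1, x.1.2 + 1), h⟩ else ⟨(S.φ x.1.1, 0), Nat.zero_le _⟩
  have inj : Injective f := by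
    rintro ⟨⟨a, i⟩, p⟩ ⟨⟨b, j⟩, q⟩ e
    simp only [f] at e p q
    split_ifs at e with h h' h' <;> simp at e
    · simpa using e
    · subst e
      simp; omega
  refine ⟨Equiv.ofBijective f (Finite.injective_iff_bijective.1 inj), fun x h => ?_, fun x h => ?_⟩
  · simp [f, h]
  · simp [f, h]

lemma ex_α (h : S.Pre w) : ∃ a : Perm (Seg w), (∀ x, a (a x) = x) ∧
    ∀ x, (a x).1 = (S.α x.1.1, (w x.1.1).norm - x.1.2) := by
  let f : Seg w → Seg w := fun x =>
    ⟨(S.α x.1.1, (w x.1.1).norm - x.1.2), by simp [n_α h]⟩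
  have i : Involutive f := by
    rintro ⟨⟨a, i⟩, p⟩
    simp only [f, S.αα, n_α h] at p ⊢
    congr 2; omega
  exact ⟨i.toPerm f, i, fun _ => rfl⟩

lemma ex_τ [Finite D] (S : Sk k G U D) (w : D → FG k) : ∃ τ : Perm (Seg w),
    (∀ x, S.IsT x.1.1 → x.1.2 = 0 → S.φ (τ x).1.1 = x.1.1 ∧ (τ x).1.2 = 0) ∧
    ∀ x, ¬(S.IsT x.1.1 ∧ x.1.2 = 0) → τ x = x := by
  classical
  let f : Seg w → Seg w := fun x =>
    if S.IsT x.1.1 ∧ x.1.2 = 0 then ⟨(S.φ⁻¹ x.1.1, 0), Nat.zero_le _⟩ else x
  have t : ∀ a, S.IsT a → S.IsT (S.φ⁻¹ a) := fun a h => (S.isT_φ _).1 (by simpa using h)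
  have inj : Injective f := by
    rintro ⟨⟨a, i⟩, p⟩ ⟨⟨b, j⟩, q⟩ e
    simp only [f] at e p q
    split_ifs at e with h h' h' <;> simp at e
    · simp [e, h.2, h'.2]
    · exact absurd ⟨e.1 ▸ t a h.1, e.2.symm⟩ h'
    · exact absurd ⟨e.1 ▸ t b h'.1, e.2⟩ h
    · simpa using e
  refine ⟨Equiv.ofBijective f (Finite.injective_iff_bijective.1 inj), fun x h h' => ?_,
    fun x h => ?_⟩
  · simp [f, h, h']
  · simp only [Equiv.ofBijective_apply, f, if_neg h]

end term

end Cut1

end Pool.Agent.Lib.MP_c1f5fe_lc
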