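import Mathlib

namespace Pool.Agent.Lib.MP_c1f5fe_lc

open Set

/-- `A` is a Jordan arc from `p` to `q`. -/
def IsArc (A : Set ℂ) (p q : ℂ) : Prop :=
  ∃ γ : ℝ → ℂ, ContinuousOn γ (Icc 0 1) ∧ InjOn γ (Icc 0 1) ∧ γ 0 = p ∧ γ 1 = q ∧
    γ '' Icc 0 1 = A

/-- `A` and `B` cross properly at `p`: in a chart around `p` they are the two axes. -/
def ProperCross (A B : Set ℂ) (p : ℂ) : Prop :=
  ∃ Φ : OpenPartialHomeomorph ℂ ℂ, 0 ∈ Φ.source ∧ Φ 0 = p ∧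
    ∀ z ∈ Φ.source, (Φ z ∈ A ↔ z.im = 0) ∧ (Φ z ∈ B ↔ z.re = 0)

/-- A simple drawing of `G` in the plane. -/
structure SimpleDrawing {V : Type} (G : SimpleGraph V) where
  pos : V → ℂ
  curve : Sym2 V → Set ℂ
  pos_inj : Function.Injective pos
  arc : ∀ u v, G.Adj u v → IsArc (curve s(u, v)) (pos u) (pos v)
  avoid : ∀ e ∈ G.edgeSet, ∀ x, pos x ∈ curve e → x ∈ e
  once : ∀ e ∈ G.edgeSet, ∀ f ∈ G.edgeSet, e ≠ f → (curve e ∩ curve f).Subsingleton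
  proper : ∀ e ∈ G.edgeSet, ∀ f ∈ G.edgeSet, e ≠ f → ∀ p ∈ curve e ∩ curve f,
    p ∈ range pos ∨ ProperCross (curve e) (curve f) p
  three : ∀ e ∈ G.edgeSet, ∀ f ∈ G.edgeSet, ∀ g ∈ G.edgeSet, e ≠ f → e ≠ g → f ≠ g →
    ∀ p ∈ curve e ∩ curve f ∩ curve g, p ∈ range pos

namespace SimpleDrawing

variable {V : Type} {G : SimpleGraph V} (Γ : SimpleDrawing G)

/-- `p` is a crossing of the edges `e` and `f`. -/
def CrossAt (e f : Sym2 V) (p : ℂ) : Prop :=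
  e ∈ G.edgeSet ∧ f ∈ G.edgeSet ∧ e ≠ f ∧ p ∈ Γ.curve e ∧ p ∈ Γ.curve f ∧ p ∉ range Γ.pos

/-- The set of all crossings. -/
def crossings : Set ℂ := {p | ∃ e f, Γ.CrossAt e f p}

/-- `D` is a pseudodisk. -/
def Pseudodisk (D : Set ℂ) : Prop :=
  Nonempty (D ≃ₜ Metric.closedBall (0 : ℂ) 1) ∧
    Disjoint (frontier D) (range Γ.pos ∪ Γ.crossings) ∧
    ∀ e ∈ G.edgeSet, (Γ.curve e ∩ frontier D).encard ≤ 2 ∧
      ((Γ.curve e ∩ D).Nonempty → ∃ p q, IsArc (Γ.curve e ∩ D) p q)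

/-- `C` is a bundled crossing. -/
def Bundled (C : Set ℂ) : Prop :=
  ∃ E₁ E₂ : Set (Sym2 V), E₁ ⊆ G.edgeSet ∧ E₂ ⊆ G.edgeSet ∧ Disjoint E₁ E₂ ∧
    (∀ e ∈ E₁, ∀ f ∈ E₂, ∃ p, Γ.CrossAt e f p) ∧
    C = {p | ∃ e ∈ E₁, ∃ f ∈ E₂, Γ.CrossAt e f p} ∧
    ∃ D, Γ.Pseudodisk D ∧ Γ.crossings ∩ D = C ∧ Disjoint D (range Γ.pos) ∧
      ∀ e ∈ G.edgeSet, (Γ.curve e ∩ D).Nonempty → e ∈ E₁ ∪ E₂

/-- The crossings are partitioned into `m` bundled crossings. -/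
def Splits (m : ℕ) : Prop :=
  ∃ C : Fin m → Set ℂ, (∀ i, (C i).Nonempty ∧ Γ.Bundled (C i)) ∧
    Pairwise (Function.onFun Disjoint C) ∧ ⋃ i, C i = Γ.crossings

end SimpleDrawing

/-- The bundled crossing number. -/
noncomputable def bc {V : Type} (G : SimpleGraph V) : ℕ∞ :=
  sInf {x | ∃ (Γ : SimpleDrawing G) (m : ℕ), Γ.Splits m ∧ x = m}

open Classical in
/-- The input: `k` and `n` in unary, then the adjacency matrix row by row. -/
noncomputable def code (k n : ℕ) (G : SimpleGraph (Fin n)) : List Bool :=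
  List.replicate k true ++ false :: List.replicate n true ++ false ::
    (List.finRange n).flatMap fun u => (List.finRange n).map fun v => decide (G.Adj u v)

open Classical in
/-- One machine decides `bc G ≤ k` in time `f k * (n + 1) ^ c` with `f` computable. -/
def FPT : Prop :=
  ∃ (M : Turing.TM2ComputableAux Bool Bool) (f : ℕ → ℕ) (c : ℕ), Computable f ∧
    ∀ (k n : ℕ) (G : SimpleGraph (Fin n)),
      Nonempty (Turing.TM2OutputsInTime M.tm ((code k n G).map M.inputAlphabet.symm)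
        (some ([decide (bc G ≤ k)].map M.outputAlphabet.symm)) (f k * (n + 1) ^ c))

end Pool.Agent.Lib.MP_c1f5fe_lc
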