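import Pool.Agent.Lib.MP_c1f5fe_lc.SpecA
import Pool.Agent.Lib.MP_d32f96_gt.T1
import Pool.Agent.Lib.MP_d32f96_gt.T2
import Pool.Agent.Lib.MP_d32f96_gt.C1x
import Pool.Agent.Lib.MP_d32f96_gt.E

/-! A closed topological disc in the plane is the image of the unit disc under a homeomorphism
of the plane. -/

namespace Pool.Agent.Lib.MP_c1f5fe_lc

open Set Metric
open Pool.Agent.Lib.MP_d32f96_gt

namespace Disk

/-- an injective map of the disc that fixes the circle is onto the disc. -/
lemma image_eq {f : ℂ → ℂ} (hc : ContinuousOn f (closedBall 0 1)) (hi : InjOn f (closedBall 0 1))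
    (hs : ∀ z : ℂ, ‖z‖ = 1 → f z = z) : f '' closedBall 0 1 = closedBall 0 1 := by
  have h1 : closedBall (0 : ℂ) 1 ⊆ f '' closedBall 0 1 := by
    intro a ha
    by_contra hn
    rcases (mem_closedBall_zero_iff.1 ha).eq_or_lt with h | h
    · exact hn ⟨a, ha, hs a h⟩
    have h2 : (closedBall (0 : ℂ) 1)ᶜ = {z : ℂ | 1 < ‖z‖} := by ext z; simp
    have h3 := sHD_of sLogOut_of (closedBall 0 1) (fun z => f z - a) (isCompact_closedBall _ _)
      (h2 ▸ preconn_out' 1) (hc.sub continuousOn_const)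
      (fun z hz h0 => hn ⟨z, hz, sub_eq_zero.1 h0⟩)
    have h4 := (sLogOut_of (sphere 0 1) a (isCompact_sphere _ _)).1
      (T1.log_congr (T1.log_mono h3 sphere_subset_closedBall) fun z hz => by
        rw [hs z (mem_sphere_zero_iff_norm.1 hz)])
    refine h4 ((isBounded_ball (x := (0 : ℂ)) (r := 1)).subset ?_)
    refine isPreconnected_connectedComponentIn.subset_left_of_subset_union isOpen_ball
      (isOpen_lt continuous_const continuous_norm : IsOpen {z : ℂ | 1 < ‖z‖}) ?_ ?_ ?_
    · exact disjoint_left.2 fun z h5 h6 => lt_asymm (mem_ball_zero_iff.1 h5) h6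
    · intro z hz
      have := connectedComponentIn_subset _ _ hz
      simpa using lt_or_gt_of_ne (show ‖z‖ ≠ 1 by simpa using this)
    · exact ⟨a, mem_connectedComponentIn (by simpa using h.ne), mem_ball_zero_iff.2 h⟩
  refine Subset.antisymm ?_ h1
  have h2 : f '' ball 0 1 ⊆ ball 0 1 := by
    refine ((convex_ball (0 : ℂ) 1).isPreconnected.image f
      (hc.mono ball_subset_closedBall)).subset_left_of_subset_union isOpen_ball
      (isOpen_lt continuous_const continuous_norm : IsOpen {z : ℂ | 1 < ‖z‖}) ?_ ?_ ?_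
    · exact disjoint_left.2 fun z h5 h6 => lt_asymm (mem_ball_zero_iff.1 h5) h6
    · rintro _ ⟨z, hz, rfl⟩
      have : ‖f z‖ ≠ 1 := fun h => by
        have h3 := hi (mem_closedBall_zero_iff.2 h.le) (ball_subset_closedBall hz) (hs _ h)
        rw [h3] at h
        exact (mem_ball_zero_iff.1 hz).ne h
      simpa using lt_or_gt_of_ne this
    · obtain ⟨z, hz, h0⟩ := h1 (mem_closedBall_self zero_le_one)
      refine ⟨0, ⟨z, ?_, h0⟩, mem_ball_self one_pos⟩
      rcases (mem_closedBall_zero_iff.1 hz).eq_or_lt with h | h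
      · rw [hs z h] at h0
        simp [h0] at h
      · exact mem_ball_zero_iff.2 h
  rintro _ ⟨z, hz, rfl⟩
  rcases (mem_closedBall_zero_iff.1 hz).eq_or_lt with h | h
  · rwa [hs z h]
  · exact ball_subset_closedBall (h2 ⟨z, mem_ball_zero_iff.2 h, rfl⟩)

end Disk

theorem disk : DiskSt := by
  classical
  rintro D ⟨e⟩
  let γ : ℂ → ℂ := fun z => if hz : z ∈ closedBall (0 : ℂ) 1 then (e.symm ⟨z, hz⟩ : ℂ) else 0
  have hγ : ∀ z : closedBall (0 : ℂ) 1, γ z = e.symm z := fun z => dif_pos z.2
  have hc : ContinuousOn γ (closedBall 0 1) := by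
    rw [continuousOn_iff_continuous_domRestrict]
    exact (continuous_subtype_val.comp e.symm.continuous).congr fun z => (hγ z).symm
  have hi : InjOn γ (closedBall 0 1) := fun x hx y hy h => by
    rw [hγ ⟨x, hx⟩, hγ ⟨y, hy⟩] at h
    exact congrArg Subtype.val (e.symm.injective (Subtype.ext h))
  have hD : γ '' closedBall 0 1 = D := by
    ext w
    constructor
    · rintro ⟨z, hz, rfl⟩
      rw [hγ ⟨z, hz⟩]
      exact (e.symm _).2
    · intro hw
      exact ⟨e ⟨w, hw⟩, (e _).2, by rw [hγ, e.symm_apply_apply]⟩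
  have hHD := sHD_of sLogOut_of
  obtain ⟨h, hh⟩ := sSP_of (xRMT_of (sLogC_of hHD)) (sJCT_of sLogPair_of hHD) sJan_of sLogOut_of γ
    (hc.mono sphere_subset_closedBall) (hi.mono sphere_subset_closedBall)
  refine ⟨h, ?_⟩
  have := Disk.image_eq (f := h.symm ∘ γ) (h.symm.continuous.comp_continuousOn hc)
    (h.symm.injective.comp_injOn hi) fun z hz => by
      rw [Function.comp_apply, ← hh z hz, h.symm_apply_apply]
  rw [← this, ← image_comp, ← hD]
  congr 1
  funext z
  simp

end Pool.Agent.Lib.MP_c1f5fe_lc
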