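import Pool.Agent.Lib.MP_c1f5fe_lc.Sel

/-! Minimal solutions have short words. -/

namespace Pool.Agent.Lib.MP_c1f5fe_lc

open Equiv Function Relation Sel

theorem e1 (ms : MinSt) (tb : TB1St) : E1St := by
  obtain ⟨h, tb⟩ := tb
  refine ⟨h + 1, fun k V D _ G U S w top val min d => ?_⟩
  have one : 1 ≤ tw (h + 1) k := le_trans (by omega) (le_tw_left _ _)
  have pre := val.toPre
  by_cases f : S.α d = d
  · rw [fix_one pre f, FreeGroup.norm_one]; omega
  by_cases t : S.IsT d
  · rw [isT_norm pre t]; exact one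
  by_cases t' : S.IsT (S.α d)
  · rw [← norm_α pre, isT_norm pre t']; exact one
  have sp : SPath S (fun _ => d) 1 :=
    ⟨one_pos, fun _ _ => ⟨t, t'⟩, fun i hi j hj => ⟨fun _ => by omega, fun e => f e.symm⟩,
      fun i hi => by omega, fun i hi => by omega⟩
  have pwe : pw w (fun _ => d) 1 = (w d).toWord := by simp [pw]
  have off0 : off w (fun _ => d) 0 = 0 := by simp [off, pw]
  obtain ⟨Brk, At, Ab, P, Tp, sh⟩ := tb k V D G U S w (fun _ => d) 1 0 0 top val min sp
    (by rw [pwe, FreeGroup.mk_toWord])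
  have eA : sel (w d).toWord (P d) = sel (w d).toWord At :=
    sel_congr _ fun j hj => by simpa [off0] using sh.top 0 one_pos j hj
  have eB : sel (w d).toWord At = sel (w d).toWord Ab := by
    have := sh.pre _ sh.brk.2.1
    rw [pwe] at this
    rw [sel_congr _ (P' := fun j => At j ∧ j < (w d).toWord.length) fun j hj => by simp [hj], this]
    exact sel_congr _ fun j hj => by simp [hj]
  have eC : sel (w (S.α d)).toWord (P (S.α d)) = FreeGroup.invRev (sel (w d).toWord (P d)) := by
    rw [word_α pre, eA, eB]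
    exact sel_invRev _ fun j hj => by simpa [off0, FreeGroup.norm] using sh.bot 0 one_pos j hj
  have tt : ∀ e, S.IsT e → FreeGroup.mk (sel (w e).toWord (P e)) = w e := fun e he => by
    rw [sel_all, FreeGroup.mk_toWord]
    intro j hj
    have : (w e).toWord.length = 1 := isT_norm pre he
    obtain rfl : j = 0 := by omega
    exact sh.term e he
  have t0 : ∀ i, S.IsT (S.term i) := fun i => ⟨i, Perm.SameCycle.refl _ _⟩
  have pre' : S.Pre fun e => FreeGroup.mk (sel (w e).toWord (P e)) := by
    refine ⟨fun e => ?_, sh.pot, fun i => ?_, fun i => ?_, fun i => ?_, fun i => ?_⟩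
    · rw [FreeGroup.inv_mk]
      congr 1
      by_cases e1 : e = d
      · rw [e1, eC]
      by_cases e2 : e = S.α d
      · rw [e2, S.αα, eC, FreeGroup.invRev_invRev]
      rw [word_α pre]
      refine sel_invRev _ fun j hj => sh.symm e j ?_ hj
      rintro ⟨i, -, e | e⟩
      exacts [e1 e, e2 e]
    · rw [tt _ (t0 i), pre.t0]
    · rw [tt _ ((S.isT_φ _).2 (t0 i)), pre.t1]
    · rw [tt _ ((S.isT_φ _).2 ((S.isT_φ _).2 (t0 i))), pre.t2]
    · rw [tt _ ((S.isT_φ _).2 ((S.isT_φ _).2 ((S.isT_φ _).2 (t0 i)))), pre.t3]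
  have sub : ∀ e, (FreeGroup.mk (sel (w e).toWord (P e))).toWord.Sublist (w e).toWord :=
    fun e => (toWord_mk_sublist _).trans (sel_sublist _ _)
  have := congrFun (min _ ((ms k V D G U S w val).1 _ pre' sub) sub) d
  rw [← this]
  refine FreeGroup.norm_mk_le.trans ?_
  rw [eA, ← pwe]
  exact sh.len.trans (tw_mono_left (by omega) _)

end Pool.Agent.Lib.MP_c1f5fe_lc
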