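import Pool.Agent.Lib.MP_c1f5fe_lc.Norm

/-! Exchange of pieces with the same signature. -/

namespace Pool.Agent.Lib.MP_c1f5fe_lc

open Equiv Function Relation Norm

namespace FSwap

theorem con_const {D : Type} {M : HMap D} {X : D → Prop} (c : M.Con) (h1 : ∀ d, X (M.φ d) ↔ X d)
    (h2 : ∀ d, X (M.α d) ↔ X d) (d e : D) : X d ↔ X e := by
  have := c d e
  induction this with
  | rel x y h => rcases h with rfl | rfl <;> simp [h1, h2]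
  | refl => rfl
  | symm _ _ _ ih => exact ih.symm
  | trans _ _ _ _ _ i j => exact i.trans j

theorem bi_at {D : Type} [Finite D] {M : HMap D} {X : D → Prop} (h1 : ∀ d, X (M.φ d) ↔ X d)
    {d e : D} (s : M.σ.SameCycle d e) (hd : X d) (he : ¬X e) :
    ∃ q, M.σ.SameCycle d q ∧ M.Bi X q := by
  by_contra c
  refine he (closed_sc (R := fun x => M.σ.SameCycle d x ∧ X x) ?_ s
    ⟨Perm.SameCycle.refl _ _, hd⟩).2
  rintro x ⟨sx, hx⟩
  refine ⟨by simpa using sx, ?_⟩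
  rw [M.σ_apply, h1]
  exact (not_not.1 fun b => c ⟨x, sx, b⟩).1 hx

variable {t : ℕ} {I₁ K₁ I₂ K₂ : Type}

def l1 (I₂ : Type) : I₁ ⊕ K₁ → Option (I₂ ⊕ K₁) := Sum.elim (fun _ => none) fun y => some (.inr y)

open Classical in
noncomputable def l2 (C₁ : Ctx t K₁) (C₂ : Ctx t K₂) : I₂ ⊕ K₂ → Option (I₂ ⊕ K₁) :=
  Sum.elim (fun x => some (.inl x)) fun y =>
    if h : ∃ s, C₂.β s = y then some (.inr (C₁.β h.choose)) else none

theorem l2_β (C₁ : Ctx t K₁) (C₂ : Ctx t K₂) (s : Fin t) :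
    l2 (I₂ := I₂) C₁ C₂ (.inr (C₂.β s)) = some (.inr (C₁.β s)) := by
  have h : ∃ s', C₂.β s' = C₂.β s := ⟨s, rfl⟩
  simp only [l2, Sum.elim_inr, dif_pos h]
  rw [C₂.inj h.choose_spec]

theorem b1 {o : Option (I₁ ⊕ K₁)} {v : I₂ ⊕ K₁} (h : o.bind (l1 I₂) = some v) :
    ∃ y, o = some (.inr y) ∧ v = .inr y := by
  rcases o with _ | x | y <;> simp [l1] at h
  exact ⟨y, rfl, h.symm⟩

theorem b2 {C₁ : Ctx t K₁} {C₂ : Ctx t K₂} {o : Option (I₂ ⊕ K₂)} {v : I₂ ⊕ K₁}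
    (h : o.bind (l2 C₁ C₂) = some v) : (∃ x, o = some (.inl x) ∧ v = .inl x) ∨
      ∃ s, o = some (.inr (C₂.β s)) ∧ v = .inr (C₁.β s) := by
  rcases o with _ | x | y
  · simp at h
  · exact Or.inl ⟨x, rfl, by simpa [l2] using h.symm⟩
  · by_cases c : ∃ s, C₂.β s = y
    · obtain ⟨s, rfl⟩ := c
      rw [Option.bind_some, l2_β] at h
      exact Or.inr ⟨s, rfl, (Option.some.inj h).symm⟩
    · simp [l2, c] at h

theorem b2_inj {C₁ : Ctx t K₁} {C₂ : Ctx t K₂} {o o' : Option (I₂ ⊕ K₂)} {v : I₂ ⊕ K₁}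
    (h : o.bind (l2 C₁ C₂) = some v) (h' : o'.bind (l2 C₁ C₂) = some v) : o = o' := by
  rcases b2 h with ⟨x, rfl, rfl⟩ | ⟨s, rfl, rfl⟩ <;> rcases b2 h' with ⟨x', rfl, e⟩ | ⟨s', rfl, e⟩
  · rw [Sum.inl.inj e]
  · simp at e
  · simp at e
  · rw [C₁.inj (Sum.inr.inj e)]

end FSwap

open FSwap in
theorem fswap (sw : SwapSt) : FSwapSt := by
  intro k t I₁ K₁ D₁ I₂ K₂ D₂ _ _ P₁ C₁ P₂ C₂ S₁ w₁ X₁ S₂ w₂ X₂ R top₁ val₁ cx₁ top₂ val₂ cx₂ F
  -- labels on the kept sides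
  have s1 : ∀ d u, ¬X₁ d → S₁.vx d = some u → ∃ y, u = .inr y := by
    rintro d (x | y) h e
    exacts [absurd (cx₁.inl d x e) h, ⟨y, rfl⟩]
  have s1' : ∀ d u, ¬X₁ d → S₁.vx (S₁.α d) = some u → ∃ y, u = .inr y := fun d u h e =>
    s1 (S₁.φ d) u (by rwa [cx₁.phi]) (by rwa [S₁.vx_φ])
  have s2 : ∀ d u, X₂ d → S₂.vx d = some u → (∃ x, u = .inl x) ∨ ∃ s, u = .inr (C₂.β s) := by
    rintro d (x | y) h e
    · exact Or.inl ⟨x, rfl⟩
    · obtain ⟨s, rfl⟩ : y ∈ Set.range C₂.β := by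
        by_contra o; exact cx₂.inr d y e o h
      exact Or.inr ⟨s, rfl⟩
  have a2 : ∀ d e u v, X₂ d → X₂ e → S₂.vx d = some u → S₂.vx e = some v →
      (glue P₂ C₂).Adj u v → ∃ u' v', (S₂.vx d).bind (l2 C₁ C₂) = some u' ∧
        (S₂.vx e).bind (l2 C₁ C₂) = some v' ∧ (glue P₂ C₁).Adj u' v' := by
    intro d e u v hd he h1 h2 a
    rw [h1, h2]
    rcases s2 d u hd h1 with ⟨x, rfl⟩ | ⟨s, rfl⟩ <;> rcases s2 e v he h2 with ⟨x', rfl⟩ | ⟨s', rfl⟩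
    · exact ⟨_, _, rfl, rfl, a⟩
    · obtain ⟨s, a, e⟩ := a
      exact ⟨_, _, rfl, l2_β C₁ C₂ s', s', C₂.inj e ▸ a, rfl⟩
    · obtain ⟨s', a, e⟩ := a
      exact ⟨_, _, l2_β C₁ C₂ s, rfl, s, C₂.inj e ▸ a, rfl⟩
    · exact ⟨_, _, l2_β C₁ C₂ s, l2_β C₁ C₂ s', F.adj s s' a⟩
  have r1 : ∀ d, ¬X₁ d → S₁.real d → ∃ y y', S₁.vx d = some (.inr y) ∧
      S₁.vx (S₁.α d) = some (.inr y') ∧ C₁.G.Adj y y' := by
    intro d h r
    obtain ⟨u, v, h1, h2, a⟩ := S₁.real_adj d r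
    obtain ⟨y, rfl⟩ := s1 d u h h1
    obtain ⟨y', rfl⟩ := s1' d v h h2
    exact ⟨y, y', h1, h2, a⟩
  have r2 : ∀ d, X₂ d → S₂.real d → ∃ u v, (S₂.vx d).bind (l2 C₁ C₂) = some u ∧
      (S₂.vx (S₂.α d)).bind (l2 C₁ C₂) = some v ∧ (glue P₂ C₁).Adj u v := by
    intro d h r
    obtain ⟨u, v, h1, h2, a⟩ := S₂.real_adj d r
    rw [← S₂.vx_φ] at h2 ⊢
    exact a2 d _ u v h ((cx₂.phi d).2 h) h1 h2 a
  have e1 : ∀ d e y, S₁.vx d = some (.inr y) →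
      (S₁.vx d).bind (l1 I₂) = (S₁.vx e).bind (l1 I₂) → S₁.vx d = S₁.vx e := by
    intro d e y h E
    rw [h] at E
    obtain ⟨y', h', e'⟩ := b1 E.symm
    rw [h, h', Sum.inr.inj e']
  have rv : ∀ x y, R x y → (S₁.vx x).bind (l1 I₂) = (S₂.vx y).bind (l2 C₁ C₂) := by
    intro x y r
    obtain ⟨q1, q2⟩ := F.dom x y r
    have n1 := qs_neu cx₁ q1
    have n2 := qs_neu cx₂ q2
    rcases e : S₂.vx y with _ | u | u
    · rcases e' : S₁.vx x with _ | v | v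
      · rfl
      · rfl
      · obtain ⟨s, rfl⟩ : v ∈ Set.range C₁.β := by
          by_contra o; exact n1.2 ⟨v, e', o⟩
        rw [(F.lab x y s r).1 e'] at e
        simp at e
    · exact absurd ⟨u, e⟩ n2.1
    · obtain ⟨s, rfl⟩ : u ∈ Set.range C₂.β := by
        by_contra o; exact n2.2 ⟨u, e, o⟩
      rw [(F.lab x y s r).2 e, Option.bind_some, Option.bind_some, l2_β]
      rfl
  have cm : ∀ d e v, (S₁.vx d).bind (l1 I₂) = some v → (S₂.vx e).bind (l2 C₁ C₂) = some v →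
      ∃ s, S₁.vx d = some (.inr (C₁.β s)) ∧ S₂.vx e = some (.inr (C₂.β s)) := by
    intro d e v h h'
    obtain ⟨y, h1, rfl⟩ := b1 h
    rcases b2 h' with ⟨x, -, c⟩ | ⟨s, h2, c⟩
    · simp at c
    · exact ⟨s, by rw [h1, Sum.inr.inj c], h2⟩
  obtain ⟨θ₁, hθ₁⟩ := val₁.pot
  obtain ⟨θ₂, hθ₂⟩ := val₂.pot
  obtain ⟨S, -, top, -, -, -, -, val⟩ := sw k _ D₁ D₂ (glue P₂ C₁) (glueU P₂ C₁) S₁.ok
    S₁.toHMap (Qs S₁ X₁) (fun d => ¬X₁ d) (fun d => (S₁.vx d).bind (l1 I₂)) S₁.real w₁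
    S₂.toHMap (Qs S₂ X₂) X₂ (fun d => (S₂.vx d).bind (l2 C₁ C₂)) S₂.real w₂ R S₁.term
    ⟨top₁.1, top₂.1, qs_edges, qs_edges,
      ⟨fun d => not_congr (cx₁.phi d), fun d h => not_congr ((qs_col cx₁).2 d h)⟩, qs_col cx₂,
      F.dom, F.tot₁, F.tot₂, F.bij, F.al, F.nx, fun x y r => not_congr (F.col x y r),
      fun x y x' y' r r' _ => F.reg x y x' y' r r', by
        by_cases q : ∃ q, Qs S₁ X₁ q
        · exact Or.inl q
        by_cases c : ∃ d, X₁ d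
        · obtain ⟨d, hd⟩ := c
          exact Or.inr (Or.inl fun e => not_not.2 ((con_const top₁.1 cx₁.phi
            (fun x => (qs_col cx₁).2 x fun h => q ⟨x, h⟩) d e).1 hd))
        · exact Or.inr (Or.inr fun e he => c (F.flag ⟨e, he⟩))⟩
    ⟨fun d => by rw [HMap.σ_apply, S₁.vx_σ], fun d e v _ _ h h' => by
        obtain ⟨y, h1, rfl⟩ := b1 h
        obtain ⟨y', h2, c⟩ := b1 h'
        exact S₁.vx_cyc d e _ h1 (by rw [h2, Sum.inr.inj c]),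
      fun d _ => S₁.real_α d, fun d h r => by
        obtain ⟨y, y', h1, h2, a⟩ := r1 d h r
        exact ⟨.inr y, .inr y', by rw [h1]; rfl, by rw [h2]; rfl, a⟩,
      fun d e hd _ r r' E E' => by
        obtain ⟨y, y', h1, h2, a⟩ := r1 d hd r
        exact (S₁.real_ex (.inr y) (.inr y') a).unique ⟨r, h1, h2⟩
          ⟨r', by rw [← e1 d e y h1 E, h1], by rw [← e1 _ _ y' h2 E', h2]⟩,
      fun d _ => val₁.inv d, ⟨θ₁, fun d _ => hθ₁ d⟩, fun d _ => val₁.edge d,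
      fun d e i hd _ r r' E => by
        obtain ⟨y, y', h1, -⟩ := r1 d hd r
        exact val₁.vert d e i r r' (e1 d e y h1 E),
      fun d z hd h hz => by
        obtain ⟨y, h1, rfl⟩ := b1 h
        obtain ⟨a, b, u, v, h2, h3, c⟩ := S₁.cap d (.inr y) h1 hz
        obtain ⟨u, rfl⟩ := s1 _ u (by rwa [cx₁.phi]) h2
        obtain ⟨v, rfl⟩ := s1 _ v (by rwa [cx₁.phi, cx₁.phi]) h3
        exact ⟨a, b, .inr u, .inr v, by rw [h2]; rfl, by rw [h3]; rfl, c⟩⟩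
    ⟨fun d => by rw [HMap.σ_apply, S₂.vx_σ], fun d e v _ _ h h' => by
        have E := b2_inj h h'
        rcases b2 h with ⟨x, h1, -⟩ | ⟨s, h1, -⟩ <;> exact S₂.vx_cyc d e _ h1 (E ▸ h1),
      fun d _ => S₂.real_α d, r2,
      fun d e hd _ r r' E E' => by
        obtain ⟨u, v, h1, h2, -⟩ := r2 d hd r
        obtain ⟨u', v', h3, h4, a⟩ := S₂.real_adj d r
        exact (S₂.real_ex u' v' a).unique ⟨r, h3, h4⟩
          ⟨r', (b2_inj (E.symm.trans h1) h1).trans h3, (b2_inj (E'.symm.trans h2) h2).trans h4⟩,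
      fun d _ => val₂.inv d, ⟨θ₂, fun d h _ => hθ₂ d fun c => cx₂.term d c h⟩,
      fun d _ r => F.ok ▸ val₂.edge d r,
      fun d e i hd _ r r' E => by
        obtain ⟨u, v, h1, -⟩ := r2 d hd r
        exact val₂.vert d e i r r' (b2_inj h1 (E ▸ h1)),
      fun d z hd h hz => by
        obtain ⟨a, b, u, v, h2, h3, c⟩ : S₂.real d ∧ S₂.φ (S₂.φ (S₂.φ d)) = d ∧
            ∃ y y', S₂.vx (S₂.φ d) = some y ∧ S₂.vx (S₂.φ (S₂.φ d)) = some y' ∧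
              (glue P₂ C₂).Adj y y' := by
          rcases b2 h with ⟨x, h1, rfl⟩ | ⟨s, h1, rfl⟩
          exacts [S₂.cap d _ h1 hz, S₂.cap d _ h1 (F.cap s hz)]
        exact ⟨a, b, a2 _ _ u v ((cx₂.phi _).2 hd) ((cx₂.phi _).2 ((cx₂.phi _).2 hd)) h2 h3 c⟩⟩
    (fun x y r => ⟨rv x y r, F.real x y r, F.word x y r⟩)
    (by
      rintro (x | y) (x' | y') a
      · obtain ⟨d, ⟨r, h1, h2⟩, -⟩ := S₂.real_ex (.inl x) (.inl x') a
        exact Or.inr ⟨d, cx₂.inl d x h1, r, by rw [h1]; rfl, by rw [h2]; rfl⟩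
      · obtain ⟨s, a, rfl⟩ := a
        obtain ⟨d, ⟨r, h1, h2⟩, -⟩ := S₂.real_ex (.inl x) (.inr (C₂.β s)) ⟨s, a, rfl⟩
        exact Or.inr ⟨d, cx₂.inl d x h1, r, by rw [h1]; rfl, by rw [h2]; exact l2_β C₁ C₂ s⟩
      · obtain ⟨s, a, rfl⟩ := a
        obtain ⟨d, ⟨r, h1, h2⟩, -⟩ := S₂.real_ex (.inr (C₂.β s)) (.inl x') ⟨s, a, rfl⟩
        exact Or.inr ⟨d, (cx₂.phi d).1 (cx₂.inl _ x' (by rwa [S₂.vx_φ])), r,
          by rw [h1]; exact l2_β C₁ C₂ s, by rw [h2]; rfl⟩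
      · obtain ⟨d, ⟨r, h1, h2⟩, -⟩ := S₁.real_ex (.inr y) (.inr y') a
        by_cases c : X₁ d
        · obtain ⟨s, rfl⟩ : y ∈ Set.range C₁.β := by
            by_contra o; exact cx₁.inr d y h1 o c
          obtain ⟨s', rfl⟩ : y' ∈ Set.range C₁.β := by
            by_contra o; exact cx₁.inr (S₁.φ d) y' (by rwa [S₁.vx_φ]) o ((cx₁.phi d).2 c)
          obtain ⟨e, he⟩ := F.tot₁ d (Or.inr ⟨r, s, s', h1, h2⟩)
          exact Or.inr ⟨e, (F.col d e he).1 c, (F.real d e he).1 r, by rw [← rv d e he, h1]; rfl,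
            by rw [← rv _ _ (F.al d e he), h2]; rfl⟩
        · exact Or.inl ⟨d, c, r, by rw [h1]; rfl, by rw [h2]; rfl⟩)
    (fun d e hd he r r' E E' => by
      obtain ⟨u, v, h1, h2, -⟩ := r2 e he r'
      obtain ⟨s, a1, a2⟩ := cm d e u (E.trans h1) h1
      obtain ⟨s', a3, a4⟩ := cm _ _ v (E'.trans h2) h2
      obtain ⟨x, hx⟩ := F.tot₂ e (Or.inr ⟨r', s, s', a2, a4⟩)
      obtain ⟨u', v', h3, h4, a⟩ := S₁.real_adj d r
      obtain rfl := (S₁.real_ex u' v' a).unique ⟨r, h3, h4⟩ ⟨(F.real x e hx).2 r',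
        by rw [(F.lab x e s hx).2 a2, ← a1, h3], by rw [(F.lab _ _ s' (F.al x e hx)).2 a4, ← a3, h4]⟩
      exact hd ((F.col d e hx).2 he))
    (fun d e v hd he h h' => by
      obtain ⟨s, a1, a2⟩ := cm d e v h h'
      obtain ⟨d', c, a3⟩ := F.has s ⟨e, he, a2⟩
      obtain ⟨q, sq, bq⟩ := bi_at cx₁.phi (S₁.vx_cyc d' d _ a3 a1) c hd
      refine ⟨q, Or.inl bq, ?_⟩
      have : S₁.vx q = S₁.vx d' :=
        closed_sc (R := fun x => S₁.vx x = S₁.vx d') (fun x hx => (S₁.vx_σ x).trans hx) sq rfl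
      rw [this, a3, ← a1, h])
    (fun d e i b _ he r r' E h h' => by
      obtain ⟨u, v, h1, -⟩ := r2 e he r'
      obtain ⟨s, a1, a2⟩ := cm d e u (E.trans h1) h1
      obtain ⟨d', -, r'', a3, h''⟩ := F.lx s _ ⟨e, he, r', a2, h'⟩
      cases b
      · exact val₁.vert d d' i r r'' (a1.trans a3.symm) h h''
      · exact val₁.vert d' d i r'' r (a3.trans a1.symm) h'' h)
    (fun i => ⟨cx₁.term _ ⟨i, Perm.SameCycle.refl _ _⟩, fun d h => by rw [S₁.term_vx i d h]; rfl,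
      S₁.term_four i, val₁.t0 i, val₁.t1 i, val₁.t2 i, val₁.t3 i⟩)
    S₁.ok_symm S₁.ok_idx S₁.ok_once (by
      have h1 := top₁.2
      have h2 := F.inv
      simp only [not_not]
      change _ ≤ _ - S₁.toHMap.inv (Qs S₁ X₁) X₁ + _
      omega)
  exact ⟨_, inferInstance, S, _, top, val⟩

end Pool.Agent.Lib.MP_c1f5fe_lc
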