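import Pool.Agent.Lib.MP_c1f5fe_lc.FillA

/-! The capped solution, prepared for the exchange. -/

namespace Pool.Agent.Lib.MP_c1f5fe_lc

open Equiv Function Relation

namespace Fill

variable {V D : Type} {k l : ℕ} {G : SimpleGraph V} {U : Set V}

theorem hub [Finite D] (S : Sk k G U D) {h : V} (hU : h ∈ U) {r : ZMod l → V} (h3 : 3 ≤ l)
    (inj : Injective r) (adj : ∀ v, G.Adj h v ↔ v ∈ Set.range r) (ind : Induced G r) :
    ∃ (o : Bool) (p : ZMod l → D), ∀ i, S.real (p i) ∧ S.vx (p i) = some h ∧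
      S.vx (S.α (p i)) = some (orient o r i) ∧ S.φ (S.φ (S.φ (p i))) = p i ∧
      S.α (S.φ (S.φ (p i))) = p (i + 1) := by
  have : NeZero l := ⟨by omega⟩
  choose p hp up using fun i => S.real_ex h (r i) ((adj _).2 ⟨i, rfl⟩)
  have tri : ∀ i, S.φ (S.φ (S.φ (p i))) = p i := fun i => (S.cap _ h (hp i).2.1 hU).2.1
  have ex : ∀ i, ∃ j, S.α (S.φ (S.φ (p i))) = p j ∧ (j = i + 1 ∨ i = j + 1) := by
    intro i
    obtain ⟨-, -, y, y', a, b, c⟩ := S.cap _ h (hp i).2.1 hU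
    have e : S.vx (S.α (S.φ (S.φ (p i)))) = some h := by rw [← S.vx_φ, tri, (hp i).2.1]
    have re := (S.cap _ h e hU).1
    obtain ⟨u, v, s, t, q⟩ := S.real_adj _ re
    obtain rfl : h = u := Option.some.inj (e.symm.trans s)
    obtain ⟨j, rfl⟩ := (adj v).1 q
    refine ⟨j, up j _ ⟨re, e, t⟩, ind i j ?_⟩
    rw [S.vx_φ, (hp i).2.2] at a
    rw [S.αα, b] at t
    rwa [Option.some.inj a, ← Option.some.inj t]
  choose f f1 f2 using ex
  have sg : ∀ i, S.toHMap.σ (p (f i)) = p i := fun i => by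
    rw [HMap.σ_apply, ← f1, S.αα, tri]
  have two : ∀ i, f (f i) ≠ i := by
    intro i t
    have key : ∀ n : ℕ, (S.toHMap.σ ^ n) (p i) = p i ∨ (S.toHMap.σ ^ n) (p i) = p (f i) := by
      intro n
      induction n with
      | zero => exact .inl rfl
      | succ n ih =>
        rw [pow_succ', Perm.mul_apply]
        rcases ih with q | q <;> rw [q]
        · right
          rw [← sg (f i), t]
        · exact .inl (sg i)
    have pinj : ∀ a b, p a = p b → a = b := fun a b q =>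
      inj (Option.some.inj (by rw [← (hp a).2.2, q, (hp b).2.2]))
    have sub : (Finset.univ : Finset (ZMod l)) ⊆ {i, f i} := by
      intro j _
      obtain ⟨n, -, q⟩ := (S.vx_cyc _ _ h (hp i).2.1 (hp j).2.1).exists_pow_eq'
      rcases key n with s | s <;> simp [pinj _ _ (q.symm.trans s)]
    have := (Finset.card_le_card sub).trans Finset.card_le_two
    rw [Finset.card_univ, ZMod.card] at this
    omega
  by_cases c : ∃ i, f i = i + 1
  · obtain ⟨i₀, c⟩ := c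
    have key : ∀ t : ℕ, f (i₀ + t) = i₀ + t + 1 := by
      intro t
      induction t with
      | zero => simpa using c
      | succ t ih =>
        push_cast
        rw [← add_assoc]
        refine (f2 _).resolve_right fun q => two (i₀ + t) ?_
        rw [ih]
        exact (add_right_cancel q).symm
    refine ⟨true, p, fun i => ⟨(hp i).1, (hp i).2.1, (hp i).2.2, tri i, ?_⟩⟩
    have := key (i - i₀).val
    rw [ZMod.natCast_zmod_val, add_sub_cancel] at this
    rw [f1, this]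
  · refine ⟨false, fun i => p (-i), fun i => ⟨(hp _).1, (hp _).2.1, (hp _).2.2, tri _, ?_⟩⟩
    have := (f2 (-i)).resolve_left fun q => c ⟨_, q⟩
    rw [f1]
    congr 1
    linear_combination -this

theorem orient_inj {c : ZMod l → V} (h : Injective c) (o : Bool) : Injective (orient o c) := by
  intro i j t
  have := h t
  cases o <;> simpa using this

theorem orient_range {c : ZMod l → V} (o : Bool) {v : V} (h : v ∈ Set.range c) :
    v ∈ Set.range (orient o c) := by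
  obtain ⟨i, rfl⟩ := h
  cases o
  · exact ⟨-i, by simp [orient]⟩
  · exact ⟨i, by simp [orient]⟩

theorem side1 (mch : MChordSt) (abs : AbsorbSt) (dem : DemoteSt) [Finite D] {c : ZMod l → V}
    {K : Set V} (F : Frame G U c K) (S : Sk k (capG G K c) (capU U K c) D) {w : D → FG k}
    (top : S.Top) (val : S.Valid w) :
    ∃ (o : Bool) (D₁ : Type) (_ : Finite D₁) (S₁ : Sk k (rst G (K ∪ nb G K)) (U ∩ K) D₁)
      (w₁ : D₁ → FG k) (Hb : D₁ → Prop) (H : V → FG k), S₁.Top ∧ S₁.Valid w₁ ∧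
      Chords S₁.toHMap S₁.vx Hb (orient o c) (nb G K) ∧
      (∀ d v, S₁.vx d = some v → v ∈ K ∪ nb G K) ∧ (∀ d, S₁.real d → ¬Hb d) ∧
      (∀ i, ¬Hb (S₁.term i)) ∧
      (∀ d u v, Hb d → ¬Hb (S₁.α d) → S₁.E d u v → w₁ d = (H u)⁻¹ * H v) ∧
      (∀ v, v ∉ nb G K → H v = 1) ∧
      (∀ v, (labs (H v)).Pairwise S₁.ok ∧ (labs (H v)⁻¹).Pairwise S₁.ok) ∧
      (∀ u v i, (i, false) ∈ labs (H u) → (i, true) ∉ labs (H v)) ∧
      (∀ v i, (i, false) ∈ labs (H v)⁻¹ → (i, true) ∉ labs (H v)⁻¹) ∧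
      ∀ d v i b, S₁.real d → S₁.vx d = some v → (i, b) ∈ labs (w₁ d) →
        (i, !b) ∉ labs (H v)⁻¹ := by
  classical
  have h3 := F.cyc.three
  have : NeZero l := ⟨by omega⟩
  obtain ⟨o, p, hp⟩ := hub S (h := none) (fun _ t => by cases t)
    (r := fun i => some ⟨c i, .inr ⟨i, rfl⟩⟩) h3
    (fun i j t => F.cyc.inj (congrArg Subtype.val (Option.some.inj t)))
    (by
      rintro (_ | ⟨v, hv⟩)
      · simp
      · constructor
        · rintro ⟨i, rfl⟩
          exact ⟨i, rfl⟩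
        · rintro ⟨i, t⟩
          exact ⟨i, congrArg Subtype.val (Option.some.inj t)⟩)
    fun i j t => F.ind i j t
  obtain ⟨c', hc'⟩ : ∃ c', c' = orient o c := ⟨_, rfl⟩
  have cr : ∀ i, c' i ∈ Set.range c := fun i => by rw [hc']; exact ⟨_, rfl⟩
  have cinj : Injective c' := hc' ▸ orient_inj F.cyc.inj o
  have rc : ∀ v ∈ nb G K, ∃ i, c' i = v := fun v hv => hc' ▸ orient_range o (F.sep hv)
  have cK : ∀ i, c' i ∉ K := fun i => by obtain ⟨j, t⟩ := cr i; exact t ▸ F.off j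
  have cU : ∀ i, c' i ∉ U := fun i => by obtain ⟨j, t⟩ := cr i; exact t ▸ F.free j
  let r : ZMod l → Option {v // v ∈ K ∨ v ∈ Set.range c} := fun i => some ⟨c' i, .inr (cr i)⟩
  have rinj : ∀ i j, some (r i) = some (r j) → i = j := fun i j t =>
    cinj (congrArg Subtype.val (Option.some.inj (Option.some.inj t)))
  have p1 : ∀ i, S.real (p i) := fun i => (hp i).1
  have p2 : ∀ i, S.vx (p i) = some none := fun i => (hp i).2.1
  have p3 : ∀ i, S.vx (S.α (p i)) = some (r i) := fun i => by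
    subst hc'
    exact (hp i).2.2.1
  have p4 : ∀ i, S.φ (S.φ (S.φ (p i))) = p i := fun i => (hp i).2.2.2.1
  have p5 : ∀ i, S.α (S.φ (S.φ (p i))) = p (i + 1) := fun i => (hp i).2.2.2.2
  have p6 : ∀ i, S.vx (S.φ (p i)) = some (r i) := fun i => (S.vx_φ _).trans (p3 i)
  have p7 : ∀ i, S.φ (S.φ (p i)) = S.α (p (i + 1)) := fun i => by rw [← p5, S.αα]
  have p8 : ∀ i, S.vx (S.φ (S.φ (p i))) = some (r (i + 1)) := fun i => by rw [p7, p3]
  have nT : ∀ d x, S.vx d = some x → ¬S.IsT d := fun d x a t => by rw [t.vx] at a; cases a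
  have rU : ∀ i, r i ∉ capU U K c := fun i t => cU i (t _ rfl)
  obtain ⟨S₁, M⟩ := mch k _ D (ZMod l) _ _ S p (fun i => S.φ (p i))
    (fun j => ⟨fun t => (by have := p6 j; rw [← t, p2] at this; cases this),
      Perm.sameCycle_apply_right.2 (Perm.SameCycle.refl _ _), nT _ _ (p2 j)⟩)
    (fun j j' t => by
      obtain ⟨n, -, q⟩ := t.exists_pow_eq'
      have key : ∀ n : ℕ, (S.φ ^ n) (p j) = p j ∨ (S.φ ^ n) (p j) = S.φ (p j) ∨
          (S.φ ^ n) (p j) = S.φ (S.φ (p j)) := by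
        intro n
        induction n with
        | zero => exact .inl rfl
        | succ n ih =>
          rw [pow_succ', Perm.mul_apply]
          rcases ih with q | q | q <;> rw [q]
          · exact .inr (.inl rfl)
          · exact .inr (.inr rfl)
          · exact .inl (p4 j)
      rcases key n with s | s | s <;> rw [q] at s
      · exact rinj _ _ (by rw [← p3, ← s, p3])
      · have := p6 j; rw [← s, p2] at this; cases this
      · have := p8 j; rw [← s, p2] at this; cases this)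
    fun j => .inr ⟨rfl, ⟨none, fun _ t => (by cases t), p2 j⟩, by
      rintro y (t | t)
      · exact Option.some.inj ((p6 j).symm.trans t) ▸ rU _
      · exact Option.some.inj ((p8 j).symm.trans t) ▸ rU _⟩
  obtain ⟨θ, hθ⟩ := val.pot
  obtain ⟨w₁, val₁, w1, w2⟩ : ∃ w₁, S₁.Valid w₁ ∧ (∀ d, w₁ (.inl d) = w d) ∧
      ∀ i, w₁ (.inr (i, true)) = (w (p i))⁻¹ * w (p (i + 1)) := by
    refine ⟨_, M.valid w θ val hθ, fun _ => rfl, fun i => ?_⟩
    have a := hθ _ (nT _ _ (p2 i))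
    have b := hθ _ (nT _ _ (p8 i))
    rw [p4, p7, val.inv] at b
    simp only [Sum.elim_inr, if_true]
    rw [← a, ← b, p7]
    group
  let lb : Option {v // v ∈ K ∨ v ∈ Set.range c} → Option V := fun x =>
    x.bind fun a => if a.1 ∈ K ∪ nb G K then some a.1 else none
  have lb1 : ∀ x v, lb x = some v → v ∈ K ∪ nb G K ∧ ∃ h, x = some ⟨v, h⟩ := by
    rintro (_ | ⟨a, h⟩) v t
    · cases t
    · simp only [lb, Option.bind_some] at t
      split_ifs at t with q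
      cases t
      exact ⟨q, h, rfl⟩
  have lb2 : ∀ v h, v ∈ K ∪ nb G K → lb (some ⟨v, h⟩) = some v := fun v h t => if_pos t
  have nbr : ∀ z ∈ K, ∀ y, G.Adj z y → y ∈ K ∪ nb G K := fun z hz y t => by
    by_cases q : y ∈ K
    · exact .inl q
    · exact .inr ⟨q, z, hz, t⟩
  obtain ⟨S₂, m2, v2, r2, t2, o2, val₂⟩ := dem k _ V _ _ _ (rst G (K ∪ nb G K)) (U ∩ K) S₁ lb
    (fun u v x a b => by
      obtain ⟨-, _, rfl⟩ := lb1 _ _ a
      obtain ⟨-, _, rfl⟩ := lb1 _ _ b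
      rfl)
    (fun x y t => ⟨some ⟨x, t.2.1.imp_right fun q => F.sep q⟩,
      some ⟨y, t.2.2.imp_right fun q => F.sep q⟩, lb2 _ _ t.2.1, lb2 _ _ t.2.2, t.1⟩)
    (fun z z' a b => by
      obtain ⟨q, hz, rfl⟩ := lb1 _ _ a
      refine ⟨fun x t => by cases t; exact b.1, ?_, fun y₁ y₂ x₁ x₂ _ _ t a₁ a₂ => ?_⟩
      · rintro (_ | ⟨y, hy⟩) t
        · obtain ⟨i, s⟩ := t
          exact absurd b.2 (by rw [← show c i = z' from s]; exact F.off i)
        · exact ⟨y, lb2 _ _ (nbr _ b.2 _ t), t, q, nbr _ b.2 _ t⟩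
      · obtain ⟨q₁, _, rfl⟩ := lb1 _ _ a₁
        obtain ⟨q₂, _, rfl⟩ := lb1 _ _ a₂
        exact ⟨t, q₁, q₂⟩)
  have φ2 : S₂.φ = S₁.φ := congrArg HMap.φ m2
  have α2 : S₂.α = S₁.α := congrArg HMap.α m2
  have vt : ∀ i, S₁.vx (.inr (i, true)) = some (r i) := fun i => (M.vx_t i).trans (p6 i)
  have vf : ∀ i, S₁.vx (.inr (i, false)) = some (r (i + 1)) := fun i => (M.vx_f i).trans (p8 i)
  have vsc : ∀ d e, S₁.toHMap.σ.SameCycle d e → S₁.vx d = S₁.vx e := by
    intro d e s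
    obtain ⟨n, -, rfl⟩ := s.exists_pow_eq'
    clear s
    induction n with
    | zero => rfl
    | succ n ih => rw [pow_succ', Perm.mul_apply, HMap.σ_apply, S₁.vx_σ, ih]
  let Y : D ⊕ ZMod l × Bool → Prop := fun d => ∃ i, d = .inr (i, true) ∧ c' i ∉ nb G K
  let rk : D ⊕ ZMod l × Bool → ℕ := fun d =>
    sInf {m : ℕ | ∃ i, S₁.vx d = some (r i) ∧ c' (i + m) ∈ nb G K}
  obtain ⟨i₀, hi₀⟩ : ∃ i, c' i ∈ nb G K := by
    obtain ⟨i, -, -, t, -⟩ := F.two
    obtain ⟨j, s⟩ := rc _ t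
    exact ⟨j, s ▸ t⟩
  have exm : ∀ i, ∃ m : ℕ, c' (i + m) ∈ nb G K := fun i =>
    ⟨(i₀ - i).val, by rwa [ZMod.natCast_zmod_val, add_sub_cancel]⟩
  have rkl : ∀ d, Y d → rk (S₁.α d) < rk d := by
    rintro _ ⟨i, rfl, hi⟩
    obtain ⟨m, hm⟩ := exm i
    obtain ⟨j, a, b⟩ : rk (.inr (i, true)) ∈ {m : ℕ | ∃ j, S₁.vx (.inr (i, true)) = some (r j) ∧
        c' (j + m) ∈ nb G K} := Nat.sInf_mem ⟨m, i, vt i, hm⟩
    obtain rfl := rinj _ _ ((vt i).symm.trans a)
    generalize rk (.inr (i, true)) = n at b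
    rcases n with _ | n
    · exact absurd (by simpa using b) hi
    · refine Nat.lt_succ_of_le (Nat.sInf_le ⟨i + 1, ?_, ?_⟩)
      · rw [M.α_inr]; exact vf i
      · rw [add_assoc, add_comm 1]; exact_mod_cast b
  have rks : ∀ d, rk (S₁.toHMap.σ d) = rk d := fun d => by
    simp only [rk, HMap.σ_apply, S₁.vx_σ]
  have vY : ∀ d, Y d → S₂.vx d = none := by
    rintro _ ⟨i, rfl, hi⟩
    rw [v2, vt]
    exact if_neg fun t => t.elim (cK i) hi
  obtain ⟨S₃, φ3, a1, a2, r3, t3, o3, chi3, -, con3, sc3, sy, v3, val₃⟩ :=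
    abs k V _ _ _ S₂ Y rk (by rw [m2]; exact rks) fun d hd => by
      rw [m2]
      refine ⟨vY d hd, rkl d hd, fun e s t => ?_, fun e he s => ?_⟩
      · obtain ⟨i, rfl, -⟩ := hd
        have : S₁.IsT e := by simpa only [Sk.IsT, φ2, t2] using t
        have q := vsc _ _ s
        rw [this.vx, vt] at q
        cases q
      · obtain ⟨i, rfl, -⟩ := hd
        obtain ⟨j, rfl, -⟩ := he
        rw [rinj i j (by rw [← vt, vsc _ _ s, vt])]
  obtain ⟨cc, c1, c2, c3, val₃⟩ := val₃ w₁ (val₂ w₁ val₁)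
  rw [m2] at sc3 v3 c1 c2 chi3 φ3 val₃ con3 a1 a2 sy c3
  have vsc3 : ∀ d e, S₃.toHMap.σ.SameCycle d e → S₃.vx d = S₃.vx e := by
    intro d e s
    obtain ⟨n, -, rfl⟩ := s.exists_pow_eq'
    clear s
    induction n with
    | zero => rfl
    | succ n ih => rw [pow_succ', Perm.mul_apply, HMap.σ_apply, S₃.vx_σ, ih]
  have csc : ∀ d e, S₁.toHMap.σ.SameCycle d e → cc d = cc e := by
    intro d e s
    obtain ⟨n, -, rfl⟩ := s.exists_pow_eq'
    clear s
    induction n with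
    | zero => rfl
    | succ n ih => rw [pow_succ', Perm.mul_apply, c1, ih]
  have fr : ∀ d, (∀ i, S₁.vx d = some (r i) → c' i ∈ nb G K) →
      ∀ e, Y e → ¬S₁.toHMap.σ.SameCycle e d := by
    rintro d h _ ⟨i, rfl, hi⟩ s
    exact hi (h i (by rw [← vsc _ _ s, vt]))
  have fr2 : ∀ d v, S₂.vx d = some v → ∀ e, Y e → ¬S₁.toHMap.σ.SameCycle e d := by
    intro d v a e he s
    rw [v2, ← vsc _ _ s, ← v2, vY e he] at a
    cases a
  have run : ∀ (m : ℕ) i d, S₁.vx d = some (r i) → c' (i + m) ∈ nb G K →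
      (∀ t : ℕ, t < m → c' (i + t) ∉ nb G K) →
      S₃.vx d = some (c' (i + m)) ∧ cc d = (w (p i))⁻¹ * w (p (i + m)) := by
    intro m
    induction m with
    | zero =>
      intro i d a b _
      simp only [Nat.cast_zero, add_zero] at b ⊢
      have f := fr d fun j t => rinj _ _ (a.symm.trans t) ▸ b
      exact ⟨by rw [v3 d f, v2, a]; exact lb2 _ _ (.inr b), by rw [c2 d f, inv_mul_cancel]⟩
    | succ m ih =>
      intro i d a b u
      have y : Y (.inr (i, true)) := ⟨i, rfl, by simpa using u 0 m.succ_pos⟩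
      have s := S₁.vx_cyc _ _ _ a (vt i)
      have e : i + 1 + (m : ZMod l) = i + (m + 1 : ℕ) := by push_cast; ring
      obtain ⟨q1, q2⟩ := ih (i + 1) (S₁.α (.inr (i, true))) (by rw [M.α_inr]; exact vf i)
        (e ▸ b) fun t ht => by
          have := u (t + 1) (by omega)
          rwa [Nat.cast_succ, add_comm (t : ZMod l), ← add_assoc] at this
      rw [e] at q1 q2
      refine ⟨by rw [vsc3 _ _ (sc3 _ _ s), vsc3 _ _ (sy _ y), q1], ?_⟩
      rw [csc _ _ s, c3 _ y, w2, q2]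
      group
  have run' : ∀ i d, S₁.vx d = some (r (i + 1)) → ∃ j, NextS c' (nb G K) i j ∧
      S₃.vx d = some (c' j) ∧ cc d = (w (p (i + 1)))⁻¹ * w (p j) := by
    intro i d a
    obtain ⟨j, m, m0, rfl, b, u⟩ := nx_ex hi₀ i
    obtain ⟨m, rfl⟩ := Nat.exists_eq_succ_of_ne_zero m0.ne'
    have e : i + 1 + (m : ZMod l) = i + (m + 1 : ℕ) := by push_cast; ring
    have := run m (i + 1) d a (e ▸ b) fun t ht => by
      have := u (t + 1) t.succ_pos (by omega)
      rwa [Nat.cast_succ, add_comm (t : ZMod l), ← add_assoc] at this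
    rw [e] at this
    exact ⟨_, ⟨m + 1, m0, rfl, b, u⟩, this⟩
  let Hb : D ⊕ ZMod l × Bool → Prop := fun d =>
    ∃ i, d = .inl (p i) ∨ d = .inr (i, true) ∨ d = .inl (S.φ (S.φ (p i)))
  have f3 : ∀ i, S₁.φ (.inl (S.φ (S.φ (p i)))) = .inl (p i) := fun i => by
    rw [M.φ_inl _ fun j => ⟨fun t => ?_, fun t => ?_⟩, p4]
    · have := p8 i; rw [t, p2] at this; cases this
    · have := p6 i; rw [S.φ.injective t, p2] at this; cases this
  have al : ∀ d, S₃.α (.inl d) = .inl (S.α d) := fun d => by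
    rw [a2 _ (by rintro ⟨i, t, -⟩; cases t) (by rw [M.α_inl]; rintro ⟨i, t, -⟩; cases t),
      M.α_inl]
  have at' : ∀ i, c' i ∈ nb G K → S₃.α (.inr (i, true)) = .inr (i, false) := fun i hi => by
    rw [a2 _ (by rintro ⟨j, t, s⟩; cases t; exact s hi)
      (by rw [M.α_inr]; rintro ⟨j, t, -⟩; cases t), M.α_inr]
    rfl
  have bi : ∀ d, Hb d → ¬Hb (S₃.α d) → ∃ i, d = .inr (i, true) ∧ c' i ∈ nb G K := by
    rintro _ ⟨i, rfl | rfl | rfl⟩ n
    · exact absurd ⟨i - 1, .inr (.inr (by rw [al, p7, sub_add_cancel]))⟩ n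
    · by_contra t
      exact n ⟨i, .inr (.inl (a1 _ (.inl ⟨i, rfl, fun q => t ⟨i, rfl, q⟩⟩)))⟩
    · exact absurd ⟨i + 1, .inl (by rw [al, p5])⟩ n
  have v0 : ∀ i d, S₁.vx d = some (r i) → c' i ∈ nb G K → S₃.vx d = some (c' i) ∧ cc d = 1 :=
    fun i d a b => by simpa using run 0 i d a (by simpa using b) fun t ht => by omega
  obtain ⟨H, H1, H2⟩ : ∃ H : V → FG k, (∀ v, v ∉ nb G K → H v = 1) ∧
      ∀ i, c' i ∈ nb G K → H (c' i) = w (p i) :=
    ⟨fun v => if v ∈ nb G K then extend c' (fun i => w (p i)) (fun _ => 1) v else 1,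
      fun v t => if_neg t, fun i t => by simp only [if_pos t, cinj.extend_apply]⟩
  have Hc : ∀ v, H v = 1 ∨ ∃ i, c' i = v ∧ v ∈ nb G K ∧ H v = w (p i) := fun v => by
    by_cases t : v ∈ nb G K
    · obtain ⟨i, rfl⟩ := rc v t
      exact .inr ⟨i, rfl, t, H2 i t⟩
    · exact .inl (H1 v t)
  have l1 : labs (1 : FG k) = [] := by simp [labs]
  have ok3 : S₃.ok = S.ok := by rw [o3, o2, M.ok]
  have rl : ∀ d, S₃.real d → ∃ d₀ x y, d = .inl d₀ ∧ S.real d₀ ∧ S₂.vx d = some x ∧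
      S₂.vx (S₁.α d) = some y := by
    intro d t
    rw [r3, r2] at t
    obtain ⟨t, x, y, ⟨a, b⟩, -⟩ := t
    rcases d with d | d
    · exact ⟨d, x, y, rfl, (M.real_inl d).1 t, a, α2 ▸ b⟩
    · exact absurd t (M.real_inr d)
  refine ⟨o, _, inferInstance, S₃, _, Hb, H, ⟨fun d e => (con3 d e).2 (M.con top.1 d e),
    by rw [chi3, M.chi]; exact top.2⟩, val₃, hc' ▸ ⟨fun d => ?_, S₃.vx_σ, cinj,
    fun d a b => ?_, fun i hi => ?_⟩, ?_, fun d t => ?_, fun i => ?_, fun d u v a b e => ?_, H1,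
    fun v => ?_, fun u v i a b => ?_, fun v i a b => ?_, fun d v i b t q a f => ?_⟩
  · rw [φ3]
    constructor
    · rintro ⟨i, t | t | t⟩
      · exact ⟨i, .inr (.inr (S₁.φ.injective (t.trans (f3 i).symm)))⟩
      · exact ⟨i, .inl (S₁.φ.injective (t.trans (M.φ_p i).symm))⟩
      · exact ⟨i, .inr (.inl (S₁.φ.injective (t.trans (M.φ_t i).symm)))⟩
    · rintro ⟨i, rfl | rfl | rfl⟩
      · exact ⟨i, .inr (.inl (M.φ_p i))⟩
      · exact ⟨i, .inr (.inr (M.φ_t i))⟩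
      · exact ⟨i, .inl (f3 i)⟩
  · obtain ⟨i, rfl, hi⟩ := bi d a b
    obtain ⟨j, j1, j2, -⟩ := run' i _ (vf i)
    exact ⟨i, j, (v0 i _ (vt i) hi).1, by rw [at' i hi]; exact j2, hi, j1⟩
  · refine ⟨.inr (i, true), ⟨⟨i, .inr (.inl rfl)⟩, ?_, (v0 i _ (vt i) hi).1⟩, ?_⟩
    · rw [at' i hi]
      rintro ⟨j, t | t | t⟩ <;> cases t
    · rintro y ⟨a, b, q⟩
      obtain ⟨j, rfl, hj⟩ := bi y a b
      rw [cinj (Option.some.inj ((v0 j _ (vt j) hj).1.symm.trans q))]
  · intro d v a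
    by_cases t : ∃ i, S₁.vx d = some (r i)
    · obtain ⟨i, t⟩ := t
      obtain ⟨j, ⟨-, -, -, j1, -⟩, j2, -⟩ := run' (i - 1) d (by rwa [sub_add_cancel])
      exact .inr (Option.some.inj (j2.symm.trans a) ▸ j1)
    · rw [v3 d (fr d fun i q => absurd ⟨i, q⟩ t), v2] at a
      obtain ⟨x, -, q⟩ := Option.bind_eq_some_iff.1 a
      exact (lb1 _ _ q).1
  · obtain ⟨d₀, x, y, rfl, -, a, b⟩ := rl d t
    rintro ⟨i, q | q | q⟩ <;> cases q
    · rw [v2, M.vx_inl, p2] at a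
      cases a
    · rw [v2, M.α_inl, M.vx_inl, p5, p2] at b
      cases b
  · rw [t3, t2, M.term]
    have := S.term_vx i _ (Perm.SameCycle.refl _ _)
    rintro ⟨j, q | q | q⟩
    · rw [Sum.inl.inj q, p2] at this
      cases this
    · cases q
    · rw [Sum.inl.inj q, p8] at this
      cases this
  · obtain ⟨i, rfl, hi⟩ := bi d a b
    obtain ⟨j, ⟨-, -, -, j1, -⟩, j2, -⟩ := run' i _ (vf i)
    obtain ⟨j', -, j3, j4⟩ := run' i (S₁.φ (.inr (i, true))) (by rw [M.φ_t, M.vx_inl, p8])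
    have e2 := e.2
    rw [at' i hi] at e2
    obtain rfl : j = j' := cinj (Option.some.inj (by
      rw [← j2, ← j3, ← at' i hi, ← S₃.vx_φ, φ3]))
    rw [← Option.some.inj ((v0 i _ (vt i) hi).1.symm.trans e.1),
      ← Option.some.inj (j2.symm.trans e2), H2 i hi, H2 j j1]
    rw [(v0 i _ (vt i) hi).2, w2, j4]
    group
  · rw [ok3]
    rcases Hc v with t | ⟨i, -, -, t⟩ <;> rw [t]
    · simp [l1]
    · exact ⟨val.edge _ (p1 i), val.inv _ ▸ val.edge _ (S.real_α _ (p1 i))⟩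
  · rcases Hc u with t | ⟨x, -, -, t⟩ <;> rw [t] at a
    · simp [l1] at a
    rcases Hc v with s | ⟨y, -, -, s⟩ <;> rw [s] at b
    · simp [l1] at b
    exact val.vert _ _ i (p1 x) (p1 y) (by rw [p2, p2]) a b
  · rcases Hc v with t | ⟨x, -, -, t⟩ <;> rw [t] at a b
    · simp [l1] at a
    rw [← val.inv] at a b
    exact val.vert _ _ i (S.real_α _ (p1 x)) (S.real_α _ (p1 x)) rfl a b
  · obtain ⟨d₀, x, y, rfl, t₀, x1, y1⟩ := rl d t
    rcases Hc v with s | ⟨j, rfl, -, s⟩ <;> rw [s] at f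
    · simp [l1] at f
    rw [← val.inv] at f
    have y2 : S₂.vx (S₁.φ (.inl d₀)) = some y := by rw [← φ2, S₂.vx_φ, α2, y1]
    rw [c2 _ (fr2 _ _ x1), c2 _ (fr2 _ _ y2), w1, inv_one, one_mul, mul_one] at a
    have e : S.vx d₀ = S.vx (S.α (p j)) := by
      rw [v3 _ (fr2 _ _ x1), v2, M.vx_inl] at q
      obtain ⟨z, z1, z2⟩ := Option.bind_eq_some_iff.1 q
      obtain ⟨-, _, rfl⟩ := lb1 _ _ z2
      rw [z1, p3]
    cases b
    · exact val.vert _ _ i t₀ (S.real_α _ (p1 j)) e a f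
    · exact val.vert _ _ i (S.real_α _ (p1 j)) t₀ e.symm f a

end Fill

end Pool.Agent.Lib.MP_c1f5fe_lc
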