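import Pool.Agent.Lib.MP_c1f5fe_lc.FillB
import Pool.Agent.Lib.MP_c1f5fe_lc.FillC

/-! A solution for the capped graph is filled with the planar part. -/

namespace Pool.Agent.Lib.MP_c1f5fe_lc

open Equiv Function Relation

theorem fill : K1 → K2 → K3 → BasSt → MChordSt → AbsorbSt → DemoteSt → SwapSt → HugSt →
    FillSt := by
  intro k1 k2 k3 _ mch abs dem swap hug k l V V₀ _ _ G U G₀ U₀ e c K he hadj hout F F₀ hnb hK hc
    hU h₀ hcap ⟨D, _, S, w, top, val⟩
  have : NeZero l := ⟨by have := F.cyc.three; omega⟩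
  obtain ⟨o, D₁, _, S₁, w₁, Hb, H, top₁, val₁, ch₁, lab₁, rl₁, tm₁, wd₁, H1, H2, H3, H4, H5⟩ :=
    Fill.side1 mch abs dem F S top val
  obtain ⟨D₂, _, S₂, X, P⟩ := Fill.plug k1 k2 hug F₀ hK hc hU h₀ (!o)
  have hA : ∀ x, e x ∈ nb G K ↔ x ∈ nb G₀ (e ⁻¹' K) := fun x => by
    rw [hnb, he.mem_set_image]
  have ch₂ : Fill.Chords S₂.toHMap (fun d => (S₂.vx d).map e) (fun d => ¬X d)
      (orient o (e ∘ c)) (nb G K) := by
    convert (P.ch.map he hA).flip using 1
    ext i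
    cases o <;> simp [orient]
  obtain ⟨i₀, hi₀⟩ : ∃ i, orient o (e ∘ c) i ∈ nb G K := by
    obtain ⟨i, -, -, t, -⟩ := F.two
    obtain ⟨j, s⟩ := Fill.orient_range o (F.sep t)
    exact ⟨j, s ▸ t⟩
  have ch₁' : Fill.Chords S₁.toHMap S₁.vx (fun d => ¬¬Hb d) (orient o (e ∘ c)) (nb G K) := by
    simpa only [not_not] using ch₁
  have I := Fill.ifc k3 (X₁ := fun d => ¬Hb d) ch₁' ch₂ top₁.1 P.top.1 hi₀
  choose u hu using fun d => Option.ne_none_iff_exists'.1 (P.lab d)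
  have v2 : ∀ d, (S₂.vx d).map e = some (e (u d)) := fun d => by rw [hu]; rfl
  have uK : ∀ d, ¬X d → e (u d) ∉ K := fun d a t => a (P.ins d _ (hu d) t)
  have uφ : ∀ d, u (S₂.φ d) = u (S₂.α d) := fun d =>
    Option.some.inj (by rw [← hu, ← hu, S₂.vx_φ])
  let out : V → Prop := fun v => v ∉ K ∪ nb G K
  let real₂ : D₂ → Prop := fun d => S₂.real d ∧ (out (e (u d)) ∨ out (e (u (S₂.α d))))
  let w₂ : D₂ → FG k := fun d => (H (e (u d)))⁻¹ * H (e (u (S₂.α d)))
  have oH : ∀ v, out v → H v = 1 := fun v t => H1 v fun q => t (.inr q)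
  have wc : ∀ d, real₂ d → (out (e (u d)) ∧ w₂ d = H (e (u (S₂.α d)))) ∨
      (¬out (e (u d)) ∧ w₂ d = (H (e (u d)))⁻¹) := by
    intro d t
    by_cases q : out (e (u d))
    · exact .inl ⟨q, by simp only [w₂, oH _ q, inv_one, one_mul]⟩
    · exact .inr ⟨q, by simp only [w₂, oH _ (t.2.resolve_left q), mul_one]⟩
  have in1 : ∀ d, S₁.real d → ∃ a b, S₁.vx d = some a ∧ S₁.vx (S₁.α d) = some b ∧
      ¬out a ∧ ¬out b := fun d t => by
    obtain ⟨a, b, p, q, r⟩ := S₁.real_adj d t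
    exact ⟨a, b, p, q, fun s => s r.2.1, fun s => s r.2.2⟩
  have nr₁ : ∀ x, S₁.toHMap.Bi (fun d => ¬Hb d) x → ¬S₁.real x := fun x a t =>
    a (iff_of_true (rl₁ x t) (rl₁ _ (S₁.real_α x t)))
  have nr₂ : ∀ y, S₂.toHMap.Bi (fun d => ¬X d) y → ¬S₂.real y := fun y a t => by
    unfold HMap.Bi at a
    by_cases q : X y
    · exact P.nr y q (by tauto) t
    · exact P.nr (S₂.α y) (by tauto) (by rwa [S₂.αα]) (S₂.real_α y t)
  have wd : ∀ x a b, S₁.toHMap.Bi (fun d => ¬Hb d) x → S₁.E x a b → w₁ x = (H a)⁻¹ * H b := by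
    intro x a b t s
    unfold HMap.Bi at t
    by_cases q : Hb x
    · exact wd₁ x a b q (by tauto) s
    · have := wd₁ (S₁.α x) b a (by tauto) (by rwa [S₁.αα]) ⟨s.2, by rw [S₁.αα]; exact s.1⟩
      rw [val₁.inv, inv_eq_iff_eq_inv] at this
      rw [this]
      group
  obtain ⟨θ, hθ⟩ := val₁.pot
  obtain ⟨S', -, a, -, -, -, -, b⟩ := swap k V D₁ D₂ G U S₁.ok S₁.toHMap _ (fun d => ¬Hb d)
    S₁.vx S₁.real w₁ S₂.toHMap _ (fun d => ¬X d) (fun d => (S₂.vx d).map e) real₂ w₂ _ S₁.term I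
    ⟨S₁.vx_σ, fun d d' v _ _ => S₁.vx_cyc d d' v, fun d _ => S₁.real_α d,
      fun d _ t => by
        obtain ⟨a, b, p, q, r⟩ := S₁.real_adj d t
        exact ⟨a, b, p, q, r.1⟩,
      fun d d' _ _ t t' p q => by
        obtain ⟨a, b, p', q', r⟩ := S₁.real_adj d t
        exact (S₁.real_ex a b r).unique ⟨t, p', q'⟩ ⟨t', p ▸ p', q ▸ q'⟩,
      fun d _ => val₁.inv d, ⟨θ, fun d _ => hθ d⟩, fun d _ => val₁.edge d,
      fun d d' i _ _ => val₁.vert d d' i,
      fun d z _ p q => by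
        have zK : z ∈ K := (lab₁ d z p).resolve_right fun t => by
          obtain ⟨i, rfl⟩ := F.sep t
          exact F.free i q
        obtain ⟨a, b, y, y', s, t, r⟩ := S₁.cap d z p ⟨q, zK⟩
        exact ⟨a, b, y, y', s, t, r.1⟩⟩
    ⟨ch₂.vs,
      fun d d' v _ _ p q => S₂.vx_cyc d d' (u d) (hu d) (by
        rw [v2] at p q
        rw [hu, he (Option.some.inj (p.trans q.symm))]),
      fun d _ t => ⟨S₂.real_α d t.1, by rw [S₂.αα]; exact t.2.symm⟩,
      fun d _ t => by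
        obtain ⟨a, b, p, q, r⟩ := S₂.real_adj d t.1
        exact ⟨e a, e b, by rw [p]; rfl, by rw [q]; rfl, (hadj a b).1 r⟩,
      fun d d' _ _ t t' p q => by
        obtain ⟨a, b, p', q', r⟩ := S₂.real_adj d t.1
        exact (S₂.real_ex a b r).unique ⟨t.1, p', q'⟩
          ⟨t'.1, Option.map_injective he p ▸ p', Option.map_injective he q ▸ q'⟩,
      fun d _ => by simp only [w₂, S₂.αα]; group,
      ⟨fun d => H (e (u d)), fun d _ _ => by simp only [w₂, uφ]; group⟩,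
      fun d _ t => by
        rcases wc d t with ⟨-, q⟩ | ⟨-, q⟩ <;> rw [q]
        · exact (H2 _).1
        · exact (H2 _).2,
      fun d d' i _ _ t t' p => by
        rw [v2, v2] at p
        have p := Option.some.inj p
        rcases wc d t with ⟨s, q⟩ | ⟨s, q⟩ <;> rcases wc d' t' with ⟨s', q'⟩ | ⟨s', q'⟩ <;>
          rw [q, q']
        · exact H3 _ _ i
        · exact absurd (p ▸ s) s'
        · exact absurd (p ▸ s') s
        · rw [← p]; exact H4 _ i,
      fun d z x p q => by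
        rw [v2] at p
        obtain rfl := Option.some.inj p
        obtain ⟨a, b, y, y', s, t, r⟩ := S₂.cap d _ (hu d) (hcap _ (uK d x) q)
        refine ⟨⟨a, .inl fun t => t.elim (uK d x) fun t => ?_⟩, b, e y, e y', by rw [s]; rfl,
          by rw [t]; rfl, (hadj _ _).1 r⟩
        obtain ⟨i, s⟩ := F.sep t
        exact F.free i (s ▸ q)⟩
    (fun x y t => ⟨t.2.2.2, iff_of_false (nr₁ x t.1) fun q => nr₂ y t.2.1 q.1,
      wd x _ _ t.1 ⟨t.2.2.2.trans (v2 y), (I.al x y t).2.2.2.trans (v2 _)⟩⟩)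
    (fun a b t => by
      by_cases q : out a ∨ out b
      · have aK : a ∉ K := fun s => q.elim (fun r => r (.inl s)) fun r => by
          by_cases bK : b ∈ K
          · exact r (.inl bK)
          · exact r (.inr ⟨bK, a, s, t⟩)
        have bK : b ∉ K := fun s => q.elim (fun r => r (.inr ⟨aK, b, s, t.symm⟩))
          fun r => r (.inl s)
        obtain ⟨a, rfl⟩ := hout a aK
        obtain ⟨b, rfl⟩ := hout b bK
        obtain ⟨d, ⟨d1, d2, d3⟩, -⟩ := S₂.real_ex a b ((hadj a b).2 t)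
        refine .inr ⟨d, fun s => (P.real d a b s d1 ⟨d2, d3⟩).elim aK bK, ⟨d1, ?_⟩,
          by rw [d2]; rfl, by rw [d3]; rfl⟩
        rwa [Option.some.inj ((hu d).symm.trans d2), Option.some.inj ((hu _).symm.trans d3)]
      · obtain ⟨d, ⟨d1, d2, d3⟩, -⟩ := S₁.real_ex a b
          ⟨t, not_not.1 fun s => q (.inl s), not_not.1 fun s => q (.inr s)⟩
        exact .inl ⟨d, rl₁ d d1, d1, d2, d3⟩)
    (fun d d' _ _ t t' p q => by
      obtain ⟨a, b, p', q', r, s⟩ := in1 d t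
      rw [v2, p'] at p
      rw [v2, q'] at q
      exact t'.2.elim (Option.some.inj p ▸ r) (Option.some.inj q ▸ s))
    (fun d d' v _ x p q => by
      rw [v2] at q
      obtain rfl := Option.some.inj q
      have t := (lab₁ d _ p).resolve_left (uK d' x)
      obtain ⟨j, s⟩ := Fill.orient_range o (F.sep t)
      obtain ⟨y, y1, -, y2⟩ := ch₁'.exq (Q := S₁.toHMap.Bi fun d => ¬Hb d)
        (fun d => by rw [not_iff_not]; rfl) (i := j) (s ▸ t)
      exact ⟨y, y1, s ▸ y2⟩)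
    (fun d d' i b _ _ t t' p => by
      obtain ⟨a, -, p', -, r, -⟩ := in1 d t
      rw [v2] at p
      rcases wc d' t' with ⟨s, -⟩ | ⟨-, q⟩
      · exact absurd s (Option.some.inj (p'.symm.trans p) ▸ r)
      · rw [q]
        exact H5 d _ i b t p)
    (fun i => ⟨tm₁ i, S₁.term_vx i, S₁.term_four i, val₁.t0 i, val₁.t1 i, val₁.t2 i, val₁.t3 i⟩)
    S₁.ok_symm S₁.ok_idx S₁.ok_once (by
      have a := ch₁'.inv_le k3 (Q := S₁.toHMap.Bi fun d => ¬Hb d)
        (fun d => by rw [not_iff_not]; rfl) top₁.1 hi₀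
      have b := ch₂.inv_ge k1 k3 (Q := S₂.toHMap.Bi fun d => ¬X d) (fun _ => Iff.rfl) P.top.1
        (by simpa using P.top.2) hi₀ fun d d' v p q => S₂.vx_cyc d d' (u d) (hu d) (by
          rw [v2] at p q
          rw [hu, he (Option.some.inj (p.trans q.symm))])
      have := top₁.2
      omega)
  exact ⟨_, inferInstance, S', _, a, b⟩

end Pool.Agent.Lib.MP_c1f5fe_lc
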