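import Pool.Agent.Lib.MP_c1f5fe_lc.SpecC

/-! Colourings of a map whose two colours meet along chords of a cycle. -/

namespace Pool.Agent.Lib.MP_c1f5fe_lc

open Equiv Function Relation

namespace Fill

variable {V V' D D₁ D₂ : Type} {l : ℕ}

section next
variable {c : ZMod l → V} {A : Set V}

theorem nx_unique {i j j' : ZMod l} (h : NextS c A i j) (h' : NextS c A i j') : j = j' := by
  obtain ⟨m, m0, rfl, a, b⟩ := h
  obtain ⟨m', m0', rfl, a', b'⟩ := h'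
  rcases lt_trichotomy m m' with t | t | t
  · exact absurd a (b' m m0 t)
  · rw [t]
  · exact absurd a' (b m' m0' t)

theorem nx_flip {i j : ZMod l} (hi : c i ∈ A) (h : NextS c A i j) :
    NextS (fun x => c (-x)) A (-j) (-i) := by
  obtain ⟨m, m0, rfl, -, b⟩ := h
  refine ⟨m, m0, by ring, by simpa using hi, fun t t0 tm => ?_⟩
  have := b (m - t) (by omega) (by omega)
  rw [Nat.cast_sub tm.le] at this
  have e : -(-(i + (m : ZMod l)) + t) = i + (m - t) := by ring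
  exact fun q => this (e ▸ q)

theorem nx_left {i i' j : ZMod l} (hi : c i ∈ A) (hi' : c i' ∈ A) (h : NextS c A i j)
    (h' : NextS c A i' j) : i = i' :=
  neg_injective (nx_unique (nx_flip hi h) (nx_flip hi' h'))

theorem nx_ex [NeZero l] {k : ZMod l} (hk : c k ∈ A) (i : ZMod l) : ∃ j, NextS c A i j := by
  classical
  have ex : ∃ m : ℕ, 0 < m ∧ c (i + m) ∈ A :=
    ⟨(k - i).val + l, by have := NeZero.pos l; omega, by
      rw [Nat.cast_add, ZMod.natCast_zmod_val, ZMod.natCast_self]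
      simpa using hk⟩
  exact ⟨_, Nat.find ex, (Nat.find_spec ex).1, rfl, (Nat.find_spec ex).2,
    fun t t0 tm q => Nat.find_min ex tm ⟨t0, q⟩⟩

theorem nx_prev [NeZero l] {i : ZMod l} (hi : c i ∈ A) : ∃ j, c j ∈ A ∧ NextS c A j i := by
  have hi' : (fun x => c (-x)) (-i) ∈ A := by simpa using hi
  obtain ⟨j, h⟩ := nx_ex (c := fun x => c (-x)) hi' (-i)
  have := nx_flip (c := fun x => c (-x)) hi' h
  simp only [neg_neg] at this
  obtain ⟨-, -, -, h, -⟩ := h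
  exact ⟨-j, h, this⟩

end next

/-- the colour `X` ends at darts that join consecutive points of `A` on the cycle -/
structure Chords (M : HMap D) (vx : D → Option V) (X : D → Prop) (c : ZMod l → V) (A : Set V) :
    Prop where
  phi : ∀ d, X (M.φ d) ↔ X d
  vs : ∀ d, vx (M.σ d) = vx d
  inj : Injective c
  dir : ∀ d, X d → ¬X (M.α d) →
    ∃ i j, vx d = some (c i) ∧ vx (M.α d) = some (c j) ∧ c i ∈ A ∧ NextS c A i j
  ex : ∀ i, c i ∈ A → ∃! d, X d ∧ ¬X (M.α d) ∧ vx d = some (c i)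

namespace Chords
variable {M : HMap D} {vx : D → Option V} {X : D → Prop} {c : ZMod l → V} {A : Set V}

theorem flip0 [NeZero l] (h : Chords M vx X c A) :
    (∀ d, ¬X d → X (M.α d) → ∃ i j, vx d = some (c (-i)) ∧ vx (M.α d) = some (c (-j)) ∧
      c (-i) ∈ A ∧ NextS (fun x => c (-x)) A i j) ∧
    ∀ i, c (-i) ∈ A → ∃! d, ¬X d ∧ X (M.α d) ∧ vx d = some (c (-i)) := by
  constructor
  · intro d a b
    obtain ⟨i, j, p, q, r, s⟩ := h.dir (M.α d) b (by rwa [M.αα])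
    rw [M.αα] at q
    have := nx_flip r s
    obtain ⟨-, -, -, s, -⟩ := s
    exact ⟨-j, -i, by simpa using q, by simpa using p, by simpa using s, this⟩
  · intro i hi
    obtain ⟨j, j1, j2⟩ := nx_prev hi
    obtain ⟨d, ⟨d1, d2, d3⟩, u⟩ := h.ex j j1
    obtain ⟨i', j', p, q, -, s⟩ := h.dir d d1 d2
    obtain rfl : i' = j := h.inj (Option.some.inj (p.symm.trans d3))
    obtain rfl := nx_unique s j2
    refine ⟨M.α d, ⟨d2, by rwa [M.αα], q⟩, ?_⟩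
    rintro e ⟨e1, e2, e3⟩
    obtain ⟨i₂, j₂, p₂, q₂, r₂, s₂⟩ := h.dir (M.α e) e2 (by rwa [M.αα])
    rw [M.αα] at q₂
    obtain rfl : j₂ = -i := h.inj (Option.some.inj (q₂.symm.trans e3))
    obtain rfl := nx_left r₂ j1 s₂ j2
    rw [← u (M.α e) ⟨e2, by rwa [M.αα], p₂⟩, M.αα]

theorem flip [NeZero l] (h : Chords M vx X c A) :
    Chords M vx (fun d => ¬X d) (fun x => c (-x)) A :=
  ⟨fun d => not_congr (h.phi d), h.vs, h.inj.comp neg_injective,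
    fun d a b => h.flip0.1 d a (not_not.1 b), fun i hi => by simpa using h.flip0.2 i hi⟩

theorem map (h : Chords M vx X c A) {e : V → V'} (he : Injective e) {A' : Set V'}
    (hA : ∀ x, e x ∈ A' ↔ x ∈ A) : Chords M (fun d => (vx d).map e) X (e ∘ c) A' := by
  refine ⟨h.phi, fun d => by rw [h.vs], he.comp h.inj, fun d a b => ?_, fun i hi => ?_⟩
  · obtain ⟨i, j, p, q, r, m, m0, s, t, u⟩ := h.dir d a b
    exact ⟨i, j, by rw [p]; rfl, by rw [q]; rfl, (hA _).2 r, m, m0, s, (hA _).2 t,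
      fun x y z w => u x y z ((hA _).1 w)⟩
  · obtain ⟨d, ⟨d1, d2, d3⟩, u⟩ := h.ex i ((hA _).1 hi)
    refine ⟨d, ⟨d1, d2, by rw [d3]; rfl⟩, fun y ⟨y1, y2, y3⟩ => u y ⟨y1, y2, ?_⟩⟩
    exact Option.map_injective he y3

theorem vφ (h : Chords M vx X c A) (d : D) : vx (M.φ d) = vx (M.α d) := by
  rw [← h.vs (M.α d), HMap.σ_apply, M.αα]

theorem vsc [Finite D] (h : Chords M vx X c A) {d e : D} (s : M.σ.SameCycle d e) :
    vx d = vx e := by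
  obtain ⟨n, -, rfl⟩ := s.exists_pow_eq'
  induction n with
  | zero => rfl
  | succ n ih => rw [pow_succ', Perm.mul_apply, h.vs, ← ih ⟨(n : ℤ), by simp⟩]

variable {Q : D → Prop}

theorem edges (hQ : ∀ d, Q d ↔ ¬(X d ↔ X (M.α d))) : M.Edges Q := fun q hq =>
  ⟨(hQ _).2 (by rw [M.αα]; exact fun t => (hQ q).1 hq t.symm),
    fun t => (hQ q).1 hq (by rw [t])⟩

theorem col (h : Chords M vx X c A) (hQ : ∀ d, Q d ↔ ¬(X d ↔ X (M.α d))) : M.Col Q X :=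
  ⟨h.phi, fun d hd => (not_not.1 (mt (hQ d).2 hd)).symm⟩

theorem nx (k3 : K3) [Finite D] (h : Chords M vx X c A) (hQ : ∀ d, Q d ↔ ¬(X d ↔ X (M.α d)))
    {q : D} (hq : Q q) : Q (M.nx Q q) ∧ M.Reg Q q (M.nx Q q) ∧ (X q ↔ X (M.nx Q q)) ∧
      vx (M.nx Q q) = vx (M.α q) := by
  obtain ⟨a, b, s, -⟩ := k3.nx_q M Q (edges hQ) q hq
  exact ⟨a, b, k3.reg_col M Q X (h.col hQ) _ _ b, by rw [← h.vsc s, h.vφ]⟩

theorem reg (k3 : K3) [Finite D] [NeZero l] (h : Chords M vx X c A)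
    (hQ : ∀ d, Q d ↔ ¬(X d ↔ X (M.α d))) {x y : D} (x1 : Q x) (x2 : X x) (y1 : Q y) (y2 : X y) :
    M.Reg Q x y := by
  have na : ∀ d, Q d → X d → ¬X (M.α d) := fun d a b t => (hQ d).1 a (iff_of_true b t)
  obtain ⟨k, -, y3, -, y4, -⟩ := h.dir y y2 (na y y1 y2)
  have key : ∀ (m : ℕ) (i : ZMod l) (x : D), Q x → X x → vx x = some (c i) → k = i + m →
      M.Reg Q x y := by
    intro m
    induction m using Nat.strong_induction_on with
    | _ m ih =>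
      intro i x x1 x2 x3 e
      rcases m.eq_zero_or_pos with rfl | m0
      · obtain rfl : k = i := by simpa using e
        rw [(h.ex k y4).unique ⟨x2, na x x1 x2, x3⟩ ⟨y2, na y y1 y2, y3⟩]
        exact EqvGen.refl _
      · obtain ⟨i', j, p, q, -, m', m0', rfl, -, u⟩ := h.dir x x2 (na x x1 x2)
        obtain rfl : i' = i := h.inj (Option.some.inj (p.symm.trans x3))
        have le : m' ≤ m := by
          by_contra t
          exact u m m0 (by omega) (e ▸ y4)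
        obtain ⟨a, b, f, g⟩ := h.nx k3 hQ x1
        refine EqvGen.trans _ _ _ b (ih (m - m') (by omega) _ _ a (f.1 x2) (g.trans q) ?_)
        rw [e, Nat.cast_sub le]
        ring
  obtain ⟨i, -, x3, -⟩ := h.dir x x2 (na x x1 x2)
  exact key (k - i).val i x x1 x2 x3 (by rw [ZMod.natCast_zmod_val]; ring)

theorem exq (h : Chords M vx X c A) (hQ : ∀ d, Q d ↔ ¬(X d ↔ X (M.α d))) {i : ZMod l}
    (hi : c i ∈ A) : ∃ q, Q q ∧ X q ∧ vx q = some (c i) := by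
  obtain ⟨d, ⟨a, b, p⟩, -⟩ := h.ex i hi
  exact ⟨d, (hQ d).2 fun t => b (t.1 a), a, p⟩

theorem inv_le (k3 : K3) [Finite D] [NeZero l] (h : Chords M vx X c A)
    (hQ : ∀ d, Q d ↔ ¬(X d ↔ X (M.α d))) (hM : M.Con) {i : ZMod l} (hi : c i ∈ A) :
    M.inv Q X ≤ 1 := by
  obtain ⟨q, q1, q2, -⟩ := h.exq hQ hi
  simpa using k3.inv_le M Q X (fun _ : Unit => q) hM (edges hQ) (h.col hQ) ⟨q, q1⟩
    fun e e1 e2 => ⟨(), h.reg k3 hQ q1 q2 e1 e2⟩

theorem inv_ge (k1 : K1) (k3 : K3) [Finite D] [NeZero l] (h : Chords M vx X c A)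
    (hQ : ∀ d, Q d ↔ ¬(X d ↔ X (M.α d))) (hM : M.Con) (hc : 2 ≤ M.chi) {i : ZMod l}
    (hi : c i ∈ A) (hv : ∀ d e v, vx d = some v → vx e = some v → M.σ.SameCycle d e) :
    1 ≤ M.inv Q X := by
  have E := edges hQ
  have s := k3.inv_sum M Q X (fun q hq => (E q hq).1) (h.col hQ)
  have a := h.flip.inv_le k3 (Q := Q) (fun d => by rw [hQ, not_iff_not]; tauto) hM (i := -i)
    (by simpa using hi)
  have qa : ∀ d, Q (M.α d) ↔ Q d := fun d =>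
    ⟨fun t => by simpa [M.αα] using (E _ t).1, fun t => (E _ t).1⟩
  have b : ncycAt M.α Q ≤ Nat.card {q // Q q ∧ X q} :=
    k1.at_le M.α Q Subtype.val fun d hd => by
      by_cases t : X d
      · exact ⟨⟨d, hd, t⟩, Perm.SameCycle.refl _ _⟩
      · refine ⟨⟨M.α d, (qa d).2 hd, ?_⟩, ?_⟩
        · have := (hQ d).1 hd
          tauto
        · exact Perm.sameCycle_apply_left.2 (Perm.SameCycle.refl _ _)
  have b' : ncycAt M.σ Q ≤ Nat.card {q // Q q ∧ X q} :=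
    k1.at_le M.σ Q Subtype.val fun d hd => by
      by_cases t : X d
      · exact ⟨⟨d, hd, t⟩, Perm.SameCycle.refl _ _⟩
      · obtain ⟨j, -, p, -, r, -⟩ := h.flip0.1 d t (by have := (hQ d).1 hd; tauto)
        obtain ⟨q, q1, q2, q3⟩ := h.exq hQ r
        exact ⟨⟨q, q1, q2⟩, hv _ _ _ q3 p⟩
  have f : Nat.card ({q // Q q ∧ X q} ⊕ {q // Q q ∧ X q}) ≤ Nat.card {q // Q q} := by
    refine Nat.card_le_card_of_injective
      (Sum.elim (fun q => ⟨q.1, q.2.1⟩) fun q => ⟨M.α q.1, (qa _).2 q.2.1⟩) ?_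
    rintro (x | x) (y | y) t <;> have t := congrArg Subtype.val t <;>
      simp only [Sum.elim_inl, Sum.elim_inr] at t
    · rw [Subtype.ext t]
    · exact absurd (iff_of_true y.2.2 (t ▸ x.2.2)) ((hQ _).1 y.2.1)
    · exact absurd (iff_of_true x.2.2 (t ▸ y.2.2)) ((hQ _).1 x.2.1)
    · rw [Subtype.ext (M.α.injective t)]
  rw [Nat.card_sum] at f
  rw [k1.on_eq_at M.α Q qa] at s
  omega

end Chords

/-- darts of the two boundaries with the same tail and matching colours -/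
def Rl (M₁ : HMap D₁) (X₁ : D₁ → Prop) (vx₁ : D₁ → Option V) (M₂ : HMap D₂) (X₂ : D₂ → Prop)
    (vx₂ : D₂ → Option V) (x : D₁) (y : D₂) : Prop :=
  M₁.Bi X₁ x ∧ M₂.Bi X₂ y ∧ (X₁ x ↔ ¬X₂ y) ∧ vx₁ x = vx₂ y

theorem head_eq {M₁ : HMap D₁} {X₁ : D₁ → Prop} {vx₁ : D₁ → Option V} {M₂ : HMap D₂}
    {X₂ : D₂ → Prop} {vx₂ : D₂ → Option V} {c : ZMod l → V} {A : Set V}
    (h₁ : Chords M₁ vx₁ X₁ c A) (h₂ : Chords M₂ vx₂ X₂ c A) {x : D₁} {y : D₂} (x1 : X₁ x)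
    (x2 : ¬X₁ (M₁.α x)) (y1 : X₂ y) (y2 : ¬X₂ (M₂.α y)) (e : vx₁ x = vx₂ y) :
    vx₁ (M₁.α x) = vx₂ (M₂.α y) := by
  obtain ⟨i, j, p, q, -, s⟩ := h₁.dir x x1 x2
  obtain ⟨i', j', p', q', -, s'⟩ := h₂.dir y y1 y2
  obtain rfl : i = i' := h₁.inj (Option.some.inj (p.symm.trans (e.trans p')))
  rw [q, q', nx_unique s s']

theorem tot {M₁ : HMap D₁} {X₁ : D₁ → Prop} {vx₁ : D₁ → Option V} {M₂ : HMap D₂}
    {X₂ : D₂ → Prop} {vx₂ : D₂ → Option V} {c : ZMod l → V} {A : Set V}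
    (h₁ : Chords M₁ vx₁ X₁ c A) (h₂ : Chords M₂ vx₂ X₂ c A) {x : D₁} (x1 : X₁ x)
    (x2 : ¬X₁ (M₁.α x)) : ∃ y, X₂ y ∧ ¬X₂ (M₂.α y) ∧ vx₁ x = vx₂ y := by
  obtain ⟨i, -, p, -, r, -⟩ := h₁.dir x x1 x2
  obtain ⟨y, ⟨a, b, q⟩, -⟩ := h₂.ex i r
  exact ⟨y, a, b, p.trans q.symm⟩

theorem Chords.uniq {M : HMap D} {vx : D → Option V} {X : D → Prop} {c : ZMod l → V} {A : Set V}
    [NeZero l] (h : Chords M vx X c A) {x y : D} (x1 : ¬(X x ↔ X (M.α x)))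
    (y1 : ¬(X y ↔ X (M.α y))) (e : X x ↔ X y) (f : vx x = vx y) : x = y := by
  by_cases t : X x
  · have a : ¬X (M.α x) := by tauto
    obtain ⟨i, -, p, -, r, -⟩ := h.dir x t a
    exact (h.ex i r).unique ⟨t, a, p⟩ ⟨e.1 t, by tauto, f ▸ p⟩
  · have a : X (M.α x) := by tauto
    obtain ⟨i, -, p, -, r, -⟩ := h.flip0.1 x t a
    exact (h.flip0.2 i r).unique ⟨t, a, p⟩ ⟨mt e.2 t, by tauto, f ▸ p⟩

theorem ifc (k3 : K3) [Finite D₁] [Finite D₂] [NeZero l] {M₁ : HMap D₁} {X₁ : D₁ → Prop}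
    {vx₁ : D₁ → Option V} {M₂ : HMap D₂} {X₂ : D₂ → Prop} {vx₂ : D₂ → Option V} {c : ZMod l → V}
    {A : Set V} (h₁ : Chords M₁ vx₁ (fun d => ¬X₁ d) c A) (h₂ : Chords M₂ vx₂ X₂ c A)
    (c₁ : M₁.Con) (c₂ : M₂.Con) {i : ZMod l} (hi : c i ∈ A) :
    Ifc M₁ (M₁.Bi X₁) X₁ M₂ (M₂.Bi X₂) X₂ (Rl M₁ X₁ vx₁ M₂ X₂ vx₂) := by
  have q₁ : ∀ d, M₁.Bi X₁ d ↔ ¬(¬X₁ d ↔ ¬X₁ (M₁.α d)) := fun d => by
    rw [not_iff_not]; rfl
  have q₂ : ∀ d, M₂.Bi X₂ d ↔ ¬(X₂ d ↔ X₂ (M₂.α d)) := fun _ => Iff.rfl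
  have e₁ := Chords.edges q₁
  have e₂ := Chords.edges q₂
  have al : ∀ x y, Rl M₁ X₁ vx₁ M₂ X₂ vx₂ x y → Rl M₁ X₁ vx₁ M₂ X₂ vx₂ (M₁.α x) (M₂.α y) := by
    rintro x y ⟨a, b, p, q⟩
    refine ⟨(e₁ x a).1, (e₂ y b).1, by unfold HMap.Bi at a b; tauto, ?_⟩
    unfold HMap.Bi at a b
    by_cases t : X₁ x
    · exact head_eq h₁.flip h₂.flip (not_not.2 t) (by tauto) (by tauto) (by tauto) q
    · exact head_eq h₁ h₂ t (by tauto) (by tauto) (by tauto) q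
  refine ⟨c₁, c₂, e₁, e₂, ⟨fun d => not_iff_not.1 (h₁.phi d), fun d t => (not_not.1 t).symm⟩,
    h₂.col q₂, fun x y h => ⟨h.1, h.2.1⟩, fun x hx => ?_, fun y hy => ?_,
    fun x y x' y' h h' => ?_, al, fun x y h => ?_, fun x y h => h.2.2.1,
    fun x y x' y' h h' n r => ?_, .inl ?_⟩
  · have a := hx
    unfold HMap.Bi at a
    by_cases t : X₁ x
    · obtain ⟨y, y1, y2, y3⟩ := tot h₁.flip h₂.flip (x := x) (not_not.2 t) (by tauto)
      exact ⟨y, hx, by unfold HMap.Bi; tauto, by tauto, y3⟩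
    · obtain ⟨y, y1, y2, y3⟩ := tot h₁ h₂ (x := x) t (by tauto)
      exact ⟨y, hx, by unfold HMap.Bi; tauto, by tauto, y3⟩
  · have a := hy
    unfold HMap.Bi at a
    by_cases t : X₂ y
    · obtain ⟨x, x1, x2, x3⟩ := tot h₂ h₁ (x := y) t (by tauto)
      exact ⟨x, by unfold HMap.Bi; tauto, hy, by tauto, x3.symm⟩
    · obtain ⟨x, x1, x2, x3⟩ := tot h₂.flip h₁.flip (x := y) t (by tauto)
      exact ⟨x, by unfold HMap.Bi; tauto, hy, by tauto, x3.symm⟩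
  · obtain ⟨a, b, p, q⟩ := h
    obtain ⟨a', b', p', q'⟩ := h'
    constructor
    · rintro rfl
      exact h₂.uniq b b' (by tauto) (q.symm.trans q')
    · rintro rfl
      exact h₁.uniq ((q₁ _).1 a) ((q₁ _).1 a') (by tauto) (q.trans q'.symm)
  · obtain ⟨a1, -, a2, a3⟩ := h₁.nx k3 q₁ h.1
    obtain ⟨b1, -, b2, b3⟩ := h₂.nx k3 q₂ h.2.1
    refine ⟨a1, b1, ?_, by rw [a3, b3, (al x y h).2.2.2]⟩
    have := h.2.2.1
    tauto
  · have a := k3.reg_col M₁ _ _ (h₁.col q₁) _ _ r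
    have := h.2.2.1
    have := h'.2.2.1
    exact h₂.reg k3 q₂ h.2.1 (by tauto) h'.2.1 (by tauto)
  · obtain ⟨q, a, -⟩ := h₁.exq q₁ hi
    exact ⟨q, a⟩

end Fill

end Pool.Agent.Lib.MP_c1f5fe_lc
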