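import Pool.Agent.Lib.MP_c1f5fe_lc.FillA

/-! The planar part, in either orientation. -/

namespace Pool.Agent.Lib.MP_c1f5fe_lc

open Equiv Function Relation

namespace Fill

variable {V D : Type} {l : ℕ} {G : SimpleGraph V} {U : Set V}

theorem clean (k1 : K1) (k2 : K2) (hc : Cn G Set.univ) (he : ∃ u v, G.Adj u v)
    (h : Sol 0 G U) :
    ∃ (D : Type) (_ : Finite D) (S : Sk 0 G U D), S.Top ∧ ∀ x, S.AdjD Set.univ x := by
  obtain ⟨D, _, S, w, top, -⟩ := h
  obtain ⟨M₀, hM⟩ := k2.sub_ex S.toHMap (S.AdjD Set.univ) (by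
    rintro d ⟨u, v, ⟨a, b⟩, p, -⟩
    exact ⟨v, u, ⟨b, by rwa [S.αα]⟩, p.symm, trivial, trivial⟩)
  have e0 : M₀.eg = 0 := le_antisymm
    ((k2.sub_eg _ _ _ _ hM).trans (by simpa using k2.top_eg S top)) (k1.eg_nonneg _ _)
  obtain ⟨u, v, huv⟩ := he
  obtain ⟨S₀, -, a, -, -, b⟩ :=
    k2.clean S Set.univ M₀ _ hc ⟨u, trivial, v, trivial, huv⟩ hM e0
  have key : ∀ (D₀ : Type) (G' : SimpleGraph V) (U' : Set V), G' = G → U' = U →
      (∃ S₀ : Sk 0 G' U' D₀, S₀.Top ∧ ∀ x, S₀.AdjD Set.univ x) →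
      ∃ S₀ : Sk 0 G U D₀, S₀.Top ∧ ∀ x, S₀.AdjD Set.univ x := by
    rintro _ _ _ rfl rfl h
    exact h
  exact ⟨_, inferInstance, key _ _ _ (by ext; simp [rst]) (by ext; simp) ⟨S₀, a, b⟩⟩

/-- the mirror image -/
def mir (S : Sk 0 G U D) : Sk 0 G U D where
  φ := S.α * S.φ⁻¹ * S.α
  α := S.α
  αα := S.αα
  vx := S.vx
  real := S.real
  term := S.term
  ok := S.ok
  vx_σ d := by
    simp only [Perm.mul_apply, S.αα]
    rw [← S.vx_φ]
    simp
  vx_cyc d e v a b := by
    have := S.vx_cyc d e v a b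
    rw [← Perm.sameCycle_inv] at this
    convert this using 1
    ext x
    apply S.toHMap.σ.injective
    simp [HMap.σ, S.αα]
  real_α := S.real_α
  real_adj := S.real_adj
  real_ex := S.real_ex
  term_vx i := i.elim0
  term_four i := i.elim0
  ok_symm := S.ok_symm
  ok_idx := S.ok_idx
  ok_once := S.ok_once
  cap d z a b := by
    obtain ⟨-, p, y, y', q, r, s⟩ := S.cap (S.φ (S.α d)) z ((S.vx_σ d).trans a) b
    have p := S.φ.injective p
    refine ⟨(S.cap d z a b).1, ?_, y', y, ?_, ?_, s.symm⟩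
    · simp only [Perm.mul_apply, S.αα]
      rw [← p]
      simp [S.αα]
    · simp only [Perm.mul_apply]
      rw [← S.vx_φ, ← r, p]
      simp
    · simp only [Perm.mul_apply, S.αα]
      have t : S.φ⁻¹ (S.α d) = S.φ (S.φ (S.α d)) := by rw [Perm.inv_eq_iff_eq, p]
      rw [← S.vx_φ, ← q, ← t]
      simp

theorem mir_top (k1 : K1) [Finite D] {S : Sk 0 G U D} (h : S.Top) : (mir S).Top := by
  have aa : S.α * S.α = 1 := by ext x; simp [S.αα]
  constructor
  · intro d e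
    refine k1.conn_congr _ _ S.φ S.α (fun x => ?_) (fun x => EqvGen.rel _ _ (.inr rfl)) d e
      (h.1 d e)
    refine EqvGen.trans _ (S.α x) _ (EqvGen.rel _ _ (.inr rfl)) (EqvGen.trans _ (S.α (S.φ x)) _
      (EqvGen.symm _ _ (EqvGen.rel _ _ (.inl ?_))) (EqvGen.rel _ _ (.inr (S.αα _).symm)))
    simp [mir, S.αα]
  · have := h.2
    have a : ncyc (S.α * S.φ⁻¹ * S.α) = ncyc S.φ := by
      rw [k1.ncyc_comm, ← mul_assoc, aa, one_mul, k1.ncyc_inv]
    have b : ncyc (S.α * S.φ⁻¹ * S.α * S.α) = ncyc (S.φ * S.α) := by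
      rw [mul_assoc, aa, mul_one, ← k1.ncyc_inv, mul_inv_rev, inv_inv,
        inv_eq_of_mul_eq_one_right aa]
    simp only [HMap.chi, chi] at this ⊢
    simp only [mir, a, b]
    exact this

/-- what is used of the planar part -/
structure Plug (S : Sk 0 G U D) (X : D → Prop) (c : ZMod l → V) (K : Set V) : Prop where
  top : S.Top
  ch : Chords S.toHMap S.vx X c (nb G K)
  lab : ∀ d, S.vx d ≠ none
  ins : ∀ d v, S.vx d = some v → v ∈ K → X d
  real : ∀ d u v, X d → S.real d → S.E d u v → u ∈ K ∨ v ∈ K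
  nr : ∀ d, X d → ¬X (S.α d) → ¬S.real d

theorem Plug.mir (k1 : K1) [Finite D] [NeZero l] {S : Sk 0 G U D} {X : D → Prop}
    {c : ZMod l → V} {K : Set V} (h : Plug S X c K) :
    Plug (mir S) (fun d => X (S.α d)) (fun x => c (-x)) K := by
  refine ⟨mir_top k1 h.top, ⟨fun d => ?_, (Fill.mir S).vx_σ, h.ch.inj.comp neg_injective,
    fun d a b => ?_, fun i hi => ?_⟩, h.lab, fun d v a b => ?_, fun d u v a b p => ?_,
    fun d a b p => h.nr _ a b (S.real_α d p)⟩
  · rw [← h.ch.phi]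
    simp [Fill.mir, S.αα]
  · exact h.ch.flip0.1 d (fun t => b (by rw [← S.αα d] at t; exact t)) a
  · have := h.ch.flip0.2 i hi
    refine (existsUnique_congr fun d => ?_).1 this
    change _ ↔ X (S.α d) ∧ ¬X (S.α (S.α d)) ∧ _
    rw [S.αα, and_left_comm]
    rfl
  · exact (h.ch.phi _).1 (h.ins _ v ((S.vx_σ d).trans a) b)
  · exact (h.real _ v u a (S.real_α d b) ⟨p.2, by rw [S.αα]; exact p.1⟩).symm

theorem plug (k1 : K1) (k2 : K2) (hug : HugSt) [Finite V] {c : ZMod l → V} {K : Set V}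
    (F : Frame G U c K) (hK : Cn G K) (hc : Cn G Set.univ) (hU : Indep G U) (h : Sol 0 G U)
    (o : Bool) : ∃ (D : Type) (_ : Finite D) (S : Sk 0 G U D) (X : D → Prop),
      Plug S X (orient o c) K := by
  have : NeZero l := ⟨by have := F.cyc.three; omega⟩
  obtain ⟨D, _, S, top, ad⟩ := clean k1 k2 hc ⟨_, _, F.cyc.adj 0⟩ h
  have lab : ∀ d, ∃ v, S.vx d = some v := fun d => by
    obtain ⟨u, _, a, -⟩ := ad d
    exact ⟨u, a.1⟩
  obtain ⟨o', D', _, S', f, hg, lk, -⟩ := hug 0 l V D G U S c K Set.univ (fun _ => Set.univ) top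
    (fun d u v a => by
      obtain ⟨u', v', b, p, -⟩ := ad d
      rwa [← Option.some.inj (b.1.symm.trans a.1), ← Option.some.inj (b.2.symm.trans a.2)])
    (fun n _ _ a => by obtain ⟨v, b⟩ := lab n; rw [a] at b; cases b)
    ⟨D, inferInstance, S.toHMap, id, ⟨injective_id, fun d => iff_of_true (ad d) ⟨d, rfl⟩,
      fun _ => rfl, fun x => ⟨1, one_pos, by simp, ad _, fun m a b => by omega⟩⟩,
      le_antisymm (by simpa using k2.top_eg S top) (k1.eg_nonneg _ _)⟩
    hc F hU (by rwa [Set.inter_univ]) fun d e i _ _ => by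
      obtain ⟨v, a⟩ := lab e
      exact ⟨v, a, trivial, trivial⟩
  have lab' : ∀ d, S'.vx d ≠ none := by
    intro d t
    rcases lk.new d with ⟨x, rfl⟩ | ⟨-, u, -, v, -, a⟩
    · obtain ⟨v, b⟩ := lab x
      rw [lk.vx, b] at t
      cases t
    · rw [a.1] at t
      cases t
  have P : Plug S' (S'.XK K) (orient o' c) K := by
    refine ⟨hg.top, ⟨fun d => ?_, S'.vx_σ, ?_, fun d a b => ?_, hg.z_ex⟩, lab',
      fun d v a b => ⟨d, v, Perm.SameCycle.refl _ _, a, b⟩, hg.real, fun d a b => ?_⟩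
    · simp only [Sk.XK, Perm.sameCycle_apply_left]
    · intro i j t
      have := F.cyc.inj t
      cases o' <;> simpa using this
    · rcases hg.bi d a b with t | ⟨-, i, j, t, p⟩
      · exact absurd t.1 (lab' d)
      · exact ⟨i, j, t.1, t.2, p⟩
    · rcases hg.bi d a b with t | t
      · exact absurd t.1 (lab' d)
      · exact t.1
  by_cases q : o' = o
  · exact ⟨D', inferInstance, S', _, q ▸ P⟩
  · refine ⟨D', inferInstance, mir S', fun d => S'.XK K (S'.α d), ?_⟩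
    have := P.mir k1
    convert this using 1
    ext i
    cases o <;> cases o' <;> simp_all [orient]

end Fill

end Pool.Agent.Lib.MP_c1f5fe_lc
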