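import Pool.Agent.Lib.MP_c1f5fe_lc.SpecC
import Pool.Agent.Lib.MP_c1f5fe_lc.Tb

/-! Finite index: among many pieces two are equivalent. -/

namespace Pool.Agent.Lib.MP_c1f5fe_lc

open Equiv Function Relation

namespace FinL

section comp
variable {t : ℕ} {I K : Type}

/-- two attachments joined through the piece -/
def Jn (P : Piece t I) (s s' : Fin t) : Prop :=
  ∃ x y, P.att x s ∧ P.att y s' ∧ P.G.Reachable x y

/-- the component of `x` has an attachment -/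
def At (P : Piece t I) (x : I) : Prop := ∃ s y, P.G.Reachable x y ∧ P.att y s

abbrev Free (P : Piece t I) : Type :=
  {c : P.G.ConnectedComponent // ∀ x, P.G.connectedComponentMk x = c → ¬At P x}

def rj (J : Fin t → Fin t → Prop) (C : Ctx t K) (a b : K) : Prop :=
  C.G.Adj a b ∨ ∃ s s', J s s' ∧ C.β s = a ∧ C.β s' = b

lemma at_congr (P : Piece t I) {x y : I} (h : P.G.Reachable x y) : At P x ↔ At P y :=
  ⟨fun ⟨s, z, a, b⟩ => ⟨s, z, h.symm.trans a, b⟩, fun ⟨s, z, a, b⟩ => ⟨s, z, h.trans a, b⟩⟩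

open Classical in
noncomputable def cl (P : Piece t I) (C : Ctx t K) : I ⊕ K → Free P ⊕ Quot (rj (Jn P) C)
  | .inr y => .inr (Quot.mk _ y)
  | .inl x => if h : At P x then .inr (Quot.mk _ (C.β h.choose)) else
      .inl ⟨P.G.connectedComponentMk x, fun _ e =>
        fun h' => h ((at_congr P (SimpleGraph.ConnectedComponent.exact e)).1 h')⟩

lemma cl_at (P : Piece t I) (C : Ctx t K) {x y : I} {s : Fin t} (h : P.G.Reachable x y)
    (h' : P.att y s) : cl P C (.inl x) = .inr (Quot.mk _ (C.β s)) := by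
  have a : At P x := ⟨s, y, h, h'⟩
  obtain ⟨z, b, c⟩ := a.choose_spec
  simp only [cl, dif_pos a]
  congr 1
  exact Quot.sound (Or.inr ⟨_, _, ⟨z, y, c, h', b.symm.trans h⟩, rfl, rfl⟩)

lemma cl_adj (P : Piece t I) (C : Ctx t K) {u v : I ⊕ K} (h : (glue P C).Adj u v) :
    cl P C u = cl P C v := by
  rcases u with x | x <;> rcases v with y | y
  · have h : P.G.Adj x y := h
    by_cases a : At P y
    · obtain ⟨s, z, b, c⟩ := a
      rw [cl_at P C b c, cl_at P C (h.reachable.trans b) c]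
    · have a' : ¬At P x := fun e => a ((at_congr P h.reachable).1 e)
      simp only [cl, dif_neg a, dif_neg a']
      congr 2
      exact SimpleGraph.ConnectedComponent.sound h.reachable
  · obtain ⟨s, a, rfl⟩ := h
    exact cl_at P C (SimpleGraph.Reachable.refl x) a
  · obtain ⟨s, a, rfl⟩ := h
    exact (cl_at P C (SimpleGraph.Reachable.refl y) a).symm
  · exact congrArg Sum.inr (Quot.sound (Or.inl h))

lemma reach_inl (P : Piece t I) (C : Ctx t K) {x y : I} (h : P.G.Reachable x y) :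
    (glue P C).Reachable (.inl x) (.inl y) :=
  h.map (⟨Sum.inl, fun h => h⟩ : P.G →g glue P C)

lemma reach_att (P : Piece t I) (C : Ctx t K) {x : I} {s : Fin t} (h : P.att x s) :
    (glue P C).Reachable (.inl x) (.inr (C.β s)) :=
  SimpleGraph.Adj.reachable (show (glue P C).Adj (.inl x) (.inr (C.β s)) from ⟨s, h, rfl⟩)

lemma reach_inr (P : Piece t I) (C : Ctx t K) {a b : K}
    (h : Quot.mk (rj (Jn P) C) a = Quot.mk _ b) : (glue P C).Reachable (.inr a) (.inr b) := by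
  have := Quot.eqvGen_exact h
  clear h
  induction this with
  | rel a b h =>
    rcases h with h | ⟨s, s', ⟨x, y, h1, h2, h3⟩, rfl, rfl⟩
    · exact SimpleGraph.Adj.reachable (show (glue P C).Adj (.inr a) (.inr b) from h)
    · exact (reach_att P C h1).symm.trans ((reach_inl P C h3).trans (reach_att P C h2))
  | refl => exact SimpleGraph.Reachable.refl _
  | symm a b _ ih => exact ih.symm
  | trans a b c _ _ i1 i2 => exact i1.trans i2

lemma cl_inj (P : Piece t I) (C : Ctx t K) {u v : I ⊕ K} (h : cl P C u = cl P C v) :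
    (glue P C).Reachable u v := by
  have key : ∀ u, (∃ y, cl P C u = .inr (Quot.mk _ y) ∧ (glue P C).Reachable u (.inr y)) ∨
      ∃ x c, u = .inl x ∧ cl P C u = .inl c ∧ c.1 = P.G.connectedComponentMk x := by
    rintro (x | y)
    · by_cases a : At P x
      · obtain ⟨s, z, b, c⟩ := a
        exact Or.inl ⟨_, cl_at P C b c, (reach_inl P C b).trans (reach_att P C c)⟩
      · exact Or.inr ⟨x, _, rfl, by simp only [cl, dif_neg a]; rfl, rfl⟩
    · exact Or.inl ⟨y, rfl, SimpleGraph.Reachable.refl _⟩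
  rcases key u with ⟨y, a, b⟩ | ⟨x, c, rfl, a, b⟩ <;>
    rcases key v with ⟨y', a', b'⟩ | ⟨x', c', rfl, a', b'⟩ <;> rw [a, a'] at h
  · exact b.trans ((reach_inr P C (Sum.inr.inj h)).trans b'.symm)
  · cases h
  · cases h
  · refine reach_inl P C (SimpleGraph.ConnectedComponent.exact ?_)
    rw [← b, ← b', Sum.inl.inj h]

lemma card_cc [Finite I] [Finite K] (P : Piece t I) (C : Ctx t K) :
    Nat.card (glue P C).ConnectedComponent =
      Nat.card (Free P) + Nat.card (Quot (rj (Jn P) C)) := by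
  rw [← Nat.card_sum]
  let f : (glue P C).ConnectedComponent → Free P ⊕ Quot (rj (Jn P) C) :=
    Quot.lift (cl P C) fun u v h => by
      rw [SimpleGraph.reachable_iff_reflTransGen] at h
      induction h with
      | refl => rfl
      | tail _ h2 ih => exact ih.trans (cl_adj P C h2)
  refine Nat.card_congr (Equiv.ofBijective f ⟨fun a b => ?_, ?_⟩)
  · induction a using SimpleGraph.ConnectedComponent.ind
    induction b using SimpleGraph.ConnectedComponent.ind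
    exact fun h => SimpleGraph.ConnectedComponent.sound (cl_inj P C h)
  · rintro (⟨c, hc⟩ | q)
    · induction c using SimpleGraph.ConnectedComponent.ind with
      | h x =>
        refine ⟨(glue P C).connectedComponentMk (.inl x), ?_⟩
        change cl P C (.inl x) = _
        simp only [cl, dif_neg (hc x rfl)]
    · induction q using Quot.ind with
      | mk y => exact ⟨(glue P C).connectedComponentMk (.inr y), rfl⟩

lemma indep_iff (P : Piece t I) (C : Ctx t K) : Indep (glue P C) (glueU P C) ↔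
    Indep P.G P.U ∧ Indep C.G C.U ∧ ∀ s, (∃ x ∈ P.U, P.att x s) → C.β s ∉ C.U := by
  constructor
  · intro h
    exact ⟨fun x hx y hy => h (.inl x) hx (.inl y) hy, fun x hx y hy => h (.inr x) hx (.inr y) hy,
      fun s ⟨x, hx, a⟩ hs => h (.inl x) hx (.inr (C.β s)) hs ⟨s, a, rfl⟩⟩
  · rintro ⟨h1, h2, h3⟩ (x | x) hx (y | y) hy h
    · exact h1 x hx y hy h
    · obtain ⟨s, a, rfl⟩ := h
      exact h3 s ⟨x, hx, a⟩ hy
    · obtain ⟨s, a, rfl⟩ := h
      exact h3 s ⟨y, hy, a⟩ hx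
    · exact h2 x hx y hy h

end comp

section sig
variable {k t : ℕ} {I K D : Type} {P : Piece t I} {C : Ctx t K}

lemma edges (S : Sk k (glue P C) (glueU P C) D) (X : D → Prop) : S.toHMap.Edges (Qs S X) := by
  rintro q (h | ⟨h, s, s', h1, h2⟩)
  · refine ⟨Or.inl ?_, fun e => h (by rw [e])⟩
    unfold HMap.Bi at h ⊢
    rw [S.αα]
    exact fun e => h e.symm
  · refine ⟨Or.inr ⟨S.real_α q h, s', s, h2, by rw [S.αα]; exact h1⟩, fun e => ?_⟩
    obtain ⟨u, v, a, b, c⟩ := S.real_adj q h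
    rw [e, a] at b
    exact c.ne (Option.some.inj b)

lemma col {S : Sk k (glue P C) (glueU P C) D} {X : D → Prop} (h : ColX S X) :
    S.toHMap.Col (Qs S X) X :=
  ⟨h.phi, fun d hd => (not_not.1 fun e => hd (Or.inl e)).symm⟩

lemma on_empty (π : Perm D) (Q : D → Prop) (h : ∀ d, ¬Q d) : ncycOn π Q = 0 := by
  haveI : IsEmpty {c : Quotient (Perm.SameCycle.setoid π) // ∀ d, Quotient.mk _ d = c → Q d} :=
    ⟨fun c => h _ (c.2 _ (Quotient.out_eq c.1))⟩
  exact Nat.card_of_isEmpty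

lemma inv_empty (M : HMap D) (Q X : D → Prop) (h : ∀ d, ¬X d) : M.inv Q X = 0 := by
  haveI : IsEmpty {d // X d ∧ ¬Q d} := ⟨fun d => h _ d.2.1⟩
  rw [HMap.inv, on_empty _ _ h, on_empty _ _ fun d e => h d e.1, on_empty _ _ fun d e => h d e.1,
    Nat.card_of_isEmpty]
  simp

lemma inv_bd [Finite D] (k1 : K1) (k3 : K3) (M : HMap D) (Q X : D → Prop) (hc : M.Con)
    (he : M.Edges Q) (hX : M.Col Q X) {B : ℕ} (hB : Nat.card {d // Q d} ≤ B)
    (hk : 2 - 2 * (k : ℤ) ≤ M.chi) :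
    -((2 * k + 3 * B + 2 : ℕ) : ℤ) ≤ M.inv Q X ∧ M.inv Q X ≤ (2 * k + 3 * B + 2 : ℕ) := by
  have h1 := k3.inv_sum M Q X (fun q h => (he q h).1) hX
  have h2 := k1.long M.α Q 1 (fun _ _ j a b => by omega)
  have h3 := k1.at_le M.σ Q (Subtype.val : {d // Q d} → D)
    (fun d h => ⟨⟨d, h⟩, Perm.SameCycle.refl _ _⟩)
  have h4 : M.chi ≤ 2 := k1.chi_le M.φ M.α hc
  by_cases hq : ∃ q, Q q
  · have h5 := k3.inv_le M Q X (Subtype.val : {d // Q d} → D) hc he hX hq
      (fun q h _ => ⟨⟨q, h⟩, EqvGen.refl _⟩)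
    have h6 := k3.inv_le M Q (fun d => ¬X d) (Subtype.val : {d // Q d} → D) hc he
      ⟨fun d => not_congr (hX.1 d), fun d h => not_congr (hX.2 d h)⟩ hq
      (fun q h _ => ⟨⟨q, h⟩, EqvGen.refl _⟩)
    push_cast
    omega
  · push Not at hq
    by_cases hx : ∃ x, X x
    · obtain ⟨x, hx⟩ := hx
      have all : ∀ d, ¬¬X d := by
        intro d
        have key : ∀ a b, Conn M.φ M.α a b → (X a ↔ X b) := by
          intro a b h
          induction h with
          | rel a b h => rcases h with rfl | rfl; exacts [(hX.1 a).symm, (hX.2 a (hq a)).symm]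
          | refl => rfl
          | symm a b _ ih => exact ih.symm
          | trans a b c _ _ i1 i2 => exact i1.trans i2
        exact not_not.2 ((key x d (hc x d)).1 hx)
      rw [inv_empty M Q _ all] at h1
      push_cast
      omega
    · push Not at hx
      rw [inv_empty M Q X hx]
      push_cast
      omega

/-- an enumeration of the set `Q` -/
structure En {B : ℕ} (Q : D → Prop) (E : Fin B → D → Prop) : Prop where
  dom : ∀ i d, E i d → Q d
  tot : ∀ d, Q d → ∃ i, E i d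
  bij : ∀ i j d e, E i d → E j e → (i = j ↔ d = e)

lemma exists_en [Finite D] {B : ℕ} (Q : D → Prop) (h : Nat.card {d // Q d} ≤ B) :
    ∃ E : Fin B → D → Prop, En Q E := by
  haveI := Fintype.ofFinite {d // Q d}
  obtain ⟨f⟩ : Nonempty ({d // Q d} ↪ Fin B) :=
    Function.Embedding.nonempty_of_card_le (by rwa [Fintype.card_fin, ← Nat.card_eq_fintype_card])
  refine ⟨fun i d => ∃ h, f ⟨d, h⟩ = i, fun _ _ h => h.1, fun d h => ⟨_, h, rfl⟩, ?_⟩
  rintro i j d e ⟨a, rfl⟩ ⟨b, rfl⟩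
  rw [f.apply_eq_iff_eq, Subtype.mk.injEq]

/-- signatures -/
abbrev Sig (k t B : ℕ) : Type :=
  (Fin B → Prop) × (Fin B → Fin B → Prop) × (Fin B → Fin B → Prop) × (Fin B → Prop) ×
  (Fin B → Prop) × (Fin B → Fin t → Prop) × (Fin B → Fin B → Option (Let k) → Prop) ×
  (Fin B → Fin B → Prop) × (Fin (2 * (2 * k + 3 * B + 2) + 1) → Prop) ×
  (Lab k → Lab k → Prop) × (Fin t → Prop) × (Fin t → Lab k → Prop) × Prop × (Fin t → Prop) ×
  (Fin t → Fin t → Prop)

def sig [Finite D] {B : ℕ} (S : Sk k (glue P C) (glueU P C) D) (w : D → FG k) (X : D → Prop)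
    (E : Fin B → D → Prop) : Sig k t B :=
  (fun i => ∃ d, E i d, fun i j => ∃ d, E i d ∧ E j (S.α d),
    fun i j => ∃ d, E i d ∧ E j (S.toHMap.nx (Qs S X) d), fun i => ∃ d, E i d ∧ X d,
    fun i => ∃ d, E i d ∧ S.real d, fun i s => ∃ d, E i d ∧ S.vx d = some (.inr (C.β s)),
    fun i n o => ∃ d, E i d ∧ (w d).toWord[n.val]? = o,
    fun i j => ∃ d e, E i d ∧ E j e ∧ S.toHMap.Reg (Qs S X) d e,
    fun n => S.toHMap.inv (Qs S X) X + (2 * k + 3 * B + 2 : ℕ) ≤ (n.val : ℤ), S.ok,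
    fun s => ∃ d, X d ∧ S.vx d = some (.inr (C.β s)),
    fun s l => ∃ d, X d ∧ S.real d ∧ S.vx d = some (.inr (C.β s)) ∧ l ∈ labs (w d),
    ∃ d, X d, fun s => C.β s ∈ C.U, fun s s' => C.G.Adj (C.β s) (C.β s'))

lemma En.iff {B : ℕ} {Q : D → Prop} {E : Fin B → D → Prop} (h : En Q E) {i : Fin B} {x : D}
    (hx : E i x) (p : D → Prop) : (∃ d, E i d ∧ p d) ↔ p x :=
  ⟨fun ⟨d, a, b⟩ => (h.bij i i d x a hx).1 rfl ▸ b, fun b => ⟨x, hx, b⟩⟩

lemma fmatch (k1 : K1) (k3 : K3) {B : ℕ} {I₁ K₁ D₁ I₂ K₂ D₂ : Type} [Finite D₁] [Finite D₂]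
    {P₁ : Piece t I₁} {C₁ : Ctx t K₁} {P₂ : Piece t I₂} {C₂ : Ctx t K₂}
    (S₁ : Sk k (glue P₁ C₁) (glueU P₁ C₁) D₁) (w₁ : D₁ → FG k) (X₁ : D₁ → Prop)
    (S₂ : Sk k (glue P₂ C₂) (glueU P₂ C₂) D₂) (w₂ : D₂ → FG k) (X₂ : D₂ → Prop)
    (E₁ : Fin B → D₁ → Prop) (E₂ : Fin B → D₂ → Prop) (e₁ : En (Qs S₁ X₁) E₁)
    (e₂ : En (Qs S₂ X₂) E₂) (n₁ : ∀ d, (w₁ d).norm ≤ B) (n₂ : ∀ d, (w₂ d).norm ≤ B)
    (t₂ : S₂.Top) (c₂ : ColX S₂ X₂) (b₂ : Nat.card {d // Qs S₂ X₂ d} ≤ B)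
    (h : sig S₁ w₁ X₁ E₁ = sig S₂ w₂ X₂ E₂) :
    FMatch S₁ w₁ X₁ S₂ w₂ X₂ fun x y => ∃ i, E₁ i x ∧ E₂ i y := by
  simp only [sig, Prod.mk.injEq, funext_iff, eq_iff_iff] at h
  obtain ⟨h1, h2, h3, h4, h5, h6, h7, h8, h9, h10, h11, h12, h13, h14, h15⟩ := h
  refine ⟨fun x y ⟨i, a, b⟩ => ⟨e₁.dom i x a, e₂.dom i y b⟩, fun x hx => ?_, fun y hy => ?_,
    fun x y x' y' ⟨i, a, b⟩ ⟨j, a', b'⟩ => (e₁.bij i j x x' a a').symm.trans (e₂.bij i j y y' b b'),
    fun x y ⟨i, a, b⟩ => ?_, fun x y ⟨i, a, b⟩ => ?_, fun x y ⟨i, a, b⟩ => ?_,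
    fun x y ⟨i, a, b⟩ => ?_, fun x y s ⟨i, a, b⟩ => ?_, fun x y ⟨i, a, b⟩ => ?_,
    fun x y x' y' ⟨i, a, b⟩ ⟨j, a', b'⟩ r => ?_, ?_, funext fun x => funext fun y => propext (h10 x y),
    fun s => (h11 s).2, fun s l => (h12 s l).2, h13.2, fun s => (h14 s).1,
    fun s s' => (h15 s s').2⟩
  · obtain ⟨i, a⟩ := e₁.tot x hx
    obtain ⟨y, b⟩ := (h1 i).1 ⟨x, a⟩
    exact ⟨y, i, a, b⟩
  · obtain ⟨i, b⟩ := e₂.tot y hy
    obtain ⟨x, a⟩ := (h1 i).2 ⟨y, b⟩
    exact ⟨x, i, a, b⟩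
  · obtain ⟨j, c⟩ := e₁.tot _ (edges S₁ X₁ x (e₁.dom i x a)).1
    exact ⟨j, c, (e₂.iff b _).1 ((h2 i j).1 ⟨x, a, c⟩)⟩
  · obtain ⟨j, c⟩ := e₁.tot _ (k3.nx_q _ _ (edges S₁ X₁) x (e₁.dom i x a)).1
    exact ⟨j, c, (e₂.iff b _).1 ((h3 i j).1 ⟨x, a, c⟩)⟩
  · exact (e₁.iff a _).symm.trans ((h4 i).trans (e₂.iff b _))
  · exact (e₁.iff a _).symm.trans ((h5 i).trans (e₂.iff b _))
  · exact (e₁.iff a _).symm.trans ((h6 i s).trans (e₂.iff b _))
  · refine FreeGroup.toWord_injective (List.ext_getElem? fun n => ?_)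
    by_cases hn : n < B
    · exact ((e₂.iff b _).1 ((h7 i ⟨n, hn⟩ _).1 ⟨x, a, rfl⟩)).symm
    · have l1 : (w₁ x).toWord.length ≤ B := n₁ x
      have l2 : (w₂ y).toWord.length ≤ B := n₂ y
      rw [List.getElem?_eq_none (by omega), List.getElem?_eq_none (by omega)]
  · obtain ⟨d, e, c, c', r'⟩ := (h8 i j).1 ⟨x, x', a, a', r⟩
    rwa [(e₂.bij i i d y c b).1 rfl, (e₂.bij j j e y' c' b').1 rfl] at r'
  · obtain ⟨l, u⟩ := inv_bd k1 k3 S₂.toHMap _ X₂ t₂.1 (edges S₂ X₂) (col c₂) b₂ t₂.2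
    obtain ⟨n, hn⟩ := Int.eq_ofNat_of_zero_le
      (show 0 ≤ S₂.toHMap.inv (Qs S₂ X₂) X₂ + (2 * k + 3 * B + 2 : ℕ) by omega)
    have := (h9 ⟨n, by omega⟩).2 hn.le
    dsimp only at this
    omega

/-- types of pieces -/
abbrev Ty (k t B : ℕ) : Type :=
  (Sig k t B → Prop) × Prop × (Fin t → Prop) × (Fin t → Fin t → Prop) × (Fin (2 * k + 2) → Prop)

def ty (k B : ℕ) (P : Piece t I) : Ty k t B :=
  (fun σ => ∃ (K D : Type) (_ : Finite D) (C : Ctx t K) (S : Sk k (glue P C) (glueU P C) D)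
      (w : D → FG k) (X : D → Prop) (E : Fin B → D → Prop), S.Top ∧ S.Valid w ∧ ColX S X ∧
      Nat.card {d // Qs S X d} ≤ B ∧ (∀ d, (w d).norm ≤ B) ∧ En (Qs S X) E ∧ sig S w X E = σ,
    Indep P.G P.U, fun s => ∃ x ∈ P.U, P.att x s, Jn P, fun n => Nat.card (Free P) ≤ n.val)

instance finSig (k t B : ℕ) : Finite (Sig k t B) := by
  repeat (first | infer_instance | refine @Finite.instProd _ _ inferInstance ?_)

instance finTy (k t B : ℕ) : Finite (Ty k t B) := by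
  repeat (first | infer_instance | refine @Finite.instProd _ _ inferInstance ?_)

lemma card_pred (A : Type) [Finite A] : Nat.card (A → Prop) = 2 ^ Nat.card A := by
  rw [Nat.card_fun, Nat.card_eq_fintype_card (α := Prop), Fintype.card_prop]

lemma card_opt (A : Type) [Finite A] : Nat.card (Option A) = Nat.card A + 1 :=
  Finite.card_option

lemma card_ty (h : ℕ) : TB (fun p : ℕ × ℕ => p.1 + p.2)
    fun p => Nat.card (Ty p.1 p.2 (tw h (p.1 + p.2))) := by
  have e : ∀ k t B, Nat.card (Ty k t B) = 2 ^ Nat.card (Sig k t B) * Nat.card (Prop × (Fin t → Prop) ×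
      (Fin t → Fin t → Prop) × (Fin (2 * k + 2) → Prop)) := fun k t B => by
    rw [Nat.card_prod, card_pred]
  have p : Nat.card Prop = 2 := by rw [Nat.card_eq_fintype_card, Fintype.card_prop]
  have b : Nat.card Bool = 2 := by rw [Nat.card_eq_fintype_card, Fintype.card_bool]
  simp only [e, Nat.card_prod, Nat.card_fun, p, b, Nat.card_fin, card_opt]
  apply_rules (transparency := .reducible) (maxDepth := 999) [TB.add, TB.mul, TB.tw, TB.pow,
    TB.const, TB.fst, TB.snd]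

end sig

end FinL

open FinL in
theorem fin : K1 → K3 → NormSt → FSwapSt → FinSt := by
  rintro k1 k3 ⟨h, norm⟩ fs
  obtain ⟨h', hh⟩ := card_ty h
  refine ⟨h', fun k t N I _ P hN => ?_⟩
  have hh := hh (k, t)
  dsimp only at hh
  set B := tw h (k + t) with hB
  have one : ∀ i j, ty k B (P i) = ty k B (P j) → ∀ (K : Type) [Finite K] (C : Ctx t K),
      PP k (glue (P i) C) (glueU (P i) C) → PP k (glue (P j) C) (glueU (P j) C) := by
    intro i j e K _ C hP
    simp only [ty, Prod.mk.injEq] at e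
    obtain ⟨e1, e2, e3, e4, e5⟩ := e
    refine ⟨?_, ?_, ?_⟩
    · obtain ⟨a, b, c⟩ := (indep_iff _ _).1 hP.1
      exact (indep_iff _ _).2 ⟨e2 ▸ a, b, fun s hs => c s ((congrFun e3 s).mpr hs)⟩
    · have a := hP.2.1
      rw [card_cc] at a ⊢
      rw [← e4]
      have b : Nat.card (Free (P j)) ≤ Nat.card (Free (P i)) :=
        (congrFun e5 ⟨Nat.card (Free (P i)), by omega⟩).mp le_rfl
      omega
    · obtain ⟨D, _, S, w, X, a1, a2, a3, a4, a5⟩ := norm k t (I i) K (P i) C hP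
      obtain ⟨E, hE⟩ := exists_en (B := B) _ a4
      obtain ⟨K₂, D₂, _, C₂, S₂, w₂, X₂, E₂, b1, b2, b3, b4, b5, b6, b7⟩ :=
        (congrFun e1 (sig S w X E)).mp ⟨K, D, inferInstance, C, S, w, X, E, a1, a2, a3, a4, a5, hE, rfl⟩
      exact fs k t _ _ _ _ _ _ _ _ _ _ S w X S₂ w₂ X₂ _ a1 a2 a3 b1 b2 b3
        (fmatch k1 k3 S w X S₂ w₂ X₂ E E₂ hE b6 a5 b5 b1 b3 b4 b7.symm)
  haveI := Fintype.ofFinite (Ty k t B)
  obtain ⟨i, j, hij, e⟩ := Fintype.exists_ne_map_eq_of_card_lt (fun i : Fin N => ty k B (P i))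
    (by rw [Fintype.card_fin, ← Nat.card_eq_fintype_card]; omega)
  exact ⟨i, j, hij, fun K _ C => ⟨one i j e K C, one j i e.symm K C⟩⟩

end Pool.Agent.Lib.MP_c1f5fe_lc
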