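import Pool.Agent.Lib.MP_c1f5fe_lc.Kit2a

/-! Submaps of solutions. -/

namespace Pool.Agent.Lib.MP_c1f5fe_lc

open Equiv Function Relation

namespace Kit2

variable {k : ℕ} {V D D₀ : Type} {G : SimpleGraph V} {U : Set V}

theorem vx_pow (S : Sk k G U D) (n : ℕ) (d : D) : S.vx ((S.toHMap.σ ^ n) d) = S.vx d :=
  pow_inv (π := S.toHMap.σ) S.vx_σ n d

theorem vx_sub (S : Sk k G U D) {A : D → Prop} {M₀ : HMap D₀} {ι : D₀ → D}
    (s : S.toHMap.Sub A M₀ ι) (x : D₀) : S.vx (ι (M₀.σ x)) = S.vx (ι x) := by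
  obtain ⟨n, -, e, -⟩ := s.si x
  rw [← e, vx_pow]

theorem adjD_α (S : Sk k G U D) (Z : Set V) (d : D) (h : S.AdjD Z d) : S.AdjD Z (S.α d) := by
  obtain ⟨u, v, ⟨a, b⟩, c, e, f⟩ := h
  exact ⟨v, u, ⟨b, by rw [S.αα, a]⟩, c.symm, f, e⟩

theorem adjD_ex (S : Sk k G U D) {Z : Set V} {u v : V} (h : G.Adj u v) (hu : u ∈ Z) (hv : v ∈ Z) :
    ∃ d, S.AdjD Z d ∧ S.real d ∧ S.vx d = some u ∧ S.vx (S.α d) = some v := by
  obtain ⟨d, ⟨r, a, b⟩, -⟩ := S.real_ex u v h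
  exact ⟨d, ⟨u, v, ⟨a, b⟩, h, hu, hv⟩, r, a, b⟩

theorem sub_con (h : K1) [Finite D] (S : Sk k G U D) (Z : Set V) (M₀ : HMap D₀) (ι : D₀ → D)
    (hZ : Cn G Z) (s : S.toHMap.Sub (S.AdjD Z) M₀ ι) : M₀.Con := by
  have := Finite.of_injective ι s.inj
  have same : ∀ x y u, S.vx (ι x) = some u → S.vx (ι y) = some u → Conn M₀.φ M₀.α x y :=
    fun x y u a b => h.conn_sc _ _ _ _
      (Or.inr (Or.inr (Or.inl ((sub_sc h _ _ _ _ x y s).2 (S.vx_cyc _ _ u a b)))))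
  intro x y
  obtain ⟨u, -, ⟨hu, -⟩, -, hu', -⟩ := sub_mem s x
  obtain ⟨v, -, ⟨hv, -⟩, -, hv', -⟩ := sub_mem s y
  have p := hZ.2 u hu' v hv'
  clear hv'
  induction p generalizing y with
  | refl => exact same x y u hu hv
  | tail _ st ih =>
    obtain ⟨d, hd, -, a, b⟩ := adjD_ex S st.1 st.2.1 st.2.2
    obtain ⟨z, rfl⟩ := (s.range d).1 hd
    exact ((ih z a).trans _ _ _ (conn_α M₀ z)).trans _ _ _ (same _ y _ (by rw [s.al, b]) hv)

theorem top_eg (h : K1) [Finite D] (S : Sk k G U D) (t : S.Top) : S.toHMap.eg ≤ 2 * k := by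
  have h1 := t.2
  have h2 : ncomp S.φ S.α ≤ 1 := by
    rcases isEmpty_or_nonempty D with e | e
    · have : IsEmpty (Quotient (EqvGen.setoid fun x y => y = S.φ x ∨ y = S.α x)) :=
        ⟨fun c => Quotient.inductionOn c fun d => e.false d⟩
      rw [ncomp, Nat.card_of_isEmpty]
      omega
    · exact ((h.ncomp_one _ _).1 t.1).le
  change 2 * (ncomp S.φ S.α : ℤ) - S.toHMap.chi ≤ 2 * k
  omega

theorem count_aux (h : K1) [Finite D] (S : Sk k G U D) {n : ℕ} (Z : Fin n → Set V)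
    (hd : Pairwise (Disjoint on Z)) (hn : ∀ i, ¬S.PlanarOn (Z i)) (t : Finset (Fin n)) :
    ∀ (D₀ : Type) (M₀ : HMap D₀) (ι : D₀ → D),
      S.toHMap.Sub (fun d => ∃ i ∈ t, S.AdjD (Z i) d) M₀ ι → (t.card : ℤ) ≤ M₀.eg := by
  induction t using Finset.induction_on with
  | empty =>
    intro D₀ M₀ ι s
    have := Finite.of_injective ι s.inj
    exact h.eg_nonneg M₀.φ M₀.α
  | insert i t hi ih =>
    intro D₀ M₀ ι s
    have := Finite.of_injective ι s.inj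
    obtain ⟨M₁, s₁⟩ := sub_ex S.toHMap (S.AdjD (Z i)) (adjD_α S _)
    obtain ⟨M₂, s₂⟩ := sub_ex S.toHMap (fun d => ∃ i ∈ t, S.AdjD (Z i) d)
      fun d ⟨j, hj, a⟩ => ⟨j, hj, adjD_α S _ d a⟩
    obtain ⟨μ₁, -, r₁⟩ := sub_le _ _ _ _ _ _ _ s s₁ fun d a => ⟨i, by simp, a⟩
    obtain ⟨μ₂, -, r₂⟩ := sub_le _ _ _ _ _ _ _ s s₂ fun d ⟨j, hj, a⟩ => ⟨j, by simp [hj], a⟩
    have uniq : ∀ d e j l, S.vx d = S.vx e → S.AdjD (Z j) d → S.AdjD (Z l) e → j = l := by
      rintro d e j l hde ⟨u, -, ⟨a, -⟩, -, b, -⟩ ⟨v, -, ⟨a', -⟩, -, b', -⟩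
      obtain rfl : u = v := Option.some.inj (by rw [← a, ← a', hde])
      by_contra hne
      exact Set.disjoint_left.1 (hd hne) b b'
    have step : ∀ x j, S.AdjD (Z j) (ι x) → S.AdjD (Z j) (ι (M₀.σ x)) := by
      intro x j a
      obtain ⟨l, -, b⟩ := sub_mem s (M₀.σ x)
      rwa [← uniq _ _ _ _ (vx_sub S s x) b a]
    have e := sub_split h M₀ _ _ M₁ μ₁ M₂ μ₂ r₁ r₂
      (fun x => by
        obtain ⟨j, hj, a⟩ := sub_mem s x
        rcases Finset.mem_insert.1 hj with rfl | hj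
        · exact Or.inl a
        · exact Or.inr ⟨j, hj, a⟩)
      (fun x a ⟨j, hj, b⟩ => hi (uniq _ _ _ _ rfl a b ▸ hj))
      (fun x a => step x i a) fun x ⟨j, hj, a⟩ => ⟨j, hj, step x j a⟩
    have e1 : 0 ≤ M₁.eg := h.eg_nonneg _ _
    have e2 : M₁.eg ≠ 0 := fun z => hn i ⟨_, inferInstance, M₁, _, s₁, z⟩
    have e3 := ih _ M₂ _ s₂
    rw [Finset.card_insert_of_notMem hi]
    push_cast
    omega

theorem count (h : K1) [Finite D] (S : Sk k G U D) (n : ℕ) (Z : Fin n → Set V)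
    (he : S.toHMap.eg ≤ 2 * k) (hd : Pairwise (Disjoint on Z)) (hn : ∀ i, ¬S.PlanarOn (Z i)) :
    n ≤ 2 * k := by
  obtain ⟨M₀, s⟩ := sub_ex S.toHMap (fun d => ∃ i ∈ Finset.univ, S.AdjD (Z i) d)
    fun d ⟨j, hj, a⟩ => ⟨j, hj, adjD_α S _ d a⟩
  have e1 := count_aux h S Z hd hn Finset.univ _ M₀ _ s
  have e2 := sub_eg h _ _ _ _ s
  rw [Finset.card_univ, Fintype.card_fin] at e1
  omega

theorem mono (h : K1) [Finite D] (S : Sk k G U D) (Z Z' : Set V) (hZ : Z' ⊆ Z)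
    (p : S.PlanarOn Z) : S.PlanarOn Z' := by
  obtain ⟨D₀, _, M₀, ι, s, e⟩ := p
  obtain ⟨M₁, s₁⟩ := sub_ex S.toHMap (S.AdjD Z') (adjD_α S _)
  obtain ⟨μ, -, r⟩ := sub_le _ _ _ _ _ _ _ s s₁
    fun d ⟨u, v, a, b, c, c'⟩ => ⟨u, v, a, b, hZ c, hZ c'⟩
  exact ⟨_, inferInstance, M₁, _, s₁, le_antisymm (e ▸ sub_eg h _ _ _ _ r) (h.eg_nonneg _ _)⟩

theorem cap_nb (S : Sk k G U D) {d : D} {z : V} (hd : S.vx d = some z) (hz : z ∈ U) :
    ∃ y, S.vx (S.α d) = some y ∧ G.Adj z y := by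
  obtain ⟨u, v, a, b, c⟩ := S.real_adj d (S.cap d z hd hz).1
  obtain rfl : u = z := Option.some.inj (a.symm.trans hd)
  exact ⟨v, b, c⟩

theorem cap_tri (S : Sk k G U D) {d : D} {z : V} (hd : S.vx d = some z) (hz : z ∈ U) :
    ∃ y y', S.vx (S.φ d) = some y ∧ S.vx (S.φ (S.φ d)) = some y' ∧ G.Adj y y' ∧ G.Adj z y ∧
      G.Adj z y' := by
  obtain ⟨-, e, y, y', a, b, c⟩ := S.cap d z hd hz
  obtain ⟨v, a', c'⟩ := cap_nb S hd hz
  obtain ⟨v', b', c''⟩ := cap_nb S (d := S.α (S.φ (S.φ d))) (by rw [← S.vx_φ, e, hd]) hz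
  obtain rfl : v = y := Option.some.inj (by rw [← a', ← S.vx_φ, a])
  obtain rfl : v' = y' := Option.some.inj (by rw [← b', S.αα, b])
  exact ⟨v, v', a, b, c, c', c''⟩

theorem clean (h : K1) [Finite D] (S : Sk k G U D) (X : Set V) (M₀ : HMap D₀) (ι : D₀ → D)
    (hX : Cn G X) (he : ∃ u ∈ X, ∃ v ∈ X, G.Adj u v) (s : S.toHMap.Sub (S.AdjD X) M₀ ι)
    (e0 : M₀.eg = 0) :
    ∃ S₀ : Sk 0 (rst G X) {z | z ∈ U ∧ G.neighborSet z ⊆ X} D₀, S₀.toHMap = M₀ ∧ S₀.Top ∧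
      (∀ x, S₀.vx x = S.vx (ι x)) ∧ (∀ x, S₀.real x ↔ S.real (ι x)) ∧ ∀ x, S₀.AdjD X x := by
  have := Finite.of_injective ι s.inj
  have adj : ∀ x, ∃ u v, S.vx (ι x) = some u ∧ S.vx (ι (M₀.α x)) = some v ∧ (rst G X).Adj u v := by
    intro x
    obtain ⟨u, v, ⟨a, b⟩, c⟩ := sub_mem s x
    exact ⟨u, v, a, by rw [s.al, b], c⟩
  refine ⟨{ toHMap := M₀
            vx := fun x => S.vx (ι x)
            real := fun x => S.real (ι x)
            term := Fin.elim0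
            ok := fun _ _ => False
            vx_σ := vx_sub S s
            vx_cyc := fun d e v a b => (sub_sc h _ _ _ _ d e s).2 (S.vx_cyc _ _ v a b)
            real_α := fun d r => by rw [s.al]; exact S.real_α _ r
            real_adj := fun d _ => adj d
            real_ex := ?_
            term_vx := fun i => i.elim0
            term_four := fun i => i.elim0
            ok_symm := fun _ _ a => a
            ok_idx := fun _ _ _ a => a
            ok_once := fun i => i.elim0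
            cap := ?_ }, rfl, ⟨sub_con h S X M₀ ι hX s, ?_⟩, fun _ => rfl, fun _ => Iff.rfl,
    fun x => ?_⟩
  · intro u v c
    obtain ⟨d, hd, r, a, b⟩ := adjD_ex S c.1 c.2.1 c.2.2
    obtain ⟨x, rfl⟩ := (s.range d).1 hd
    refine ⟨x, ⟨r, a, by rw [s.al, b]⟩, fun y hy => s.inj ?_⟩
    exact (S.real_ex u v c.1).unique ⟨hy.1, hy.2.1, by rw [← s.al]; exact hy.2.2⟩ ⟨r, a, b⟩
  · rintro x z hx ⟨hz, hN⟩
    obtain ⟨r, e, -⟩ := S.cap _ z hx hz
    obtain ⟨y, y', a, b, c, c1, c2⟩ := cap_tri S hx hz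
    have hzX : z ∈ X := by
      obtain ⟨u, -, ⟨a', -⟩, -, b', -⟩ := sub_mem s x
      rwa [← Option.some.inj (a'.symm.trans hx)]
    have f1 : ι (M₀.φ x) = S.φ (ι x) :=
      sub_φ _ _ _ _ x s ⟨y, y', ⟨a, by rw [← S.vx_φ, b]⟩, c, hN c1, hN c2⟩
    have f2 : ι (M₀.φ (M₀.φ x)) = S.φ (S.φ (ι x)) := by
      rw [← f1]
      refine sub_φ _ _ _ _ _ s ?_
      rw [f1]
      exact ⟨y', z, ⟨b, by rw [← S.vx_φ, e, hx]⟩, c2.symm, hN c2, hzX⟩
    have f3 : ι (M₀.φ (M₀.φ (M₀.φ x))) = S.φ (S.φ (S.φ (ι x))) := by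
      rw [← f2]
      refine sub_φ _ _ _ _ _ s ?_
      rw [f2, e]
      exact sub_mem s x
    exact ⟨r, s.inj (f3.trans e), y, y', by rw [f1, a], by rw [f2, b], c, hN c1, hN c2⟩
  · obtain ⟨u, hu, v, hv, c⟩ := he
    obtain ⟨d, hd, -⟩ := adjD_ex S c hu hv
    obtain ⟨x, -⟩ := (s.range d).1 hd
    have : Nonempty D₀ := ⟨x⟩
    have e1 := (h.ncomp_one _ _).1 (sub_con h S X M₀ ι hX s)
    change 2 * (ncomp M₀.φ M₀.α : ℤ) - M₀.chi = 0 at e0
    change 2 - 2 * ((0 : ℕ) : ℤ) ≤ M₀.chi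
    omega
  · obtain ⟨u, v, a, b, c⟩ := adj x
    exact ⟨u, v, ⟨a, b⟩, c, c.2.1, c.2.2⟩

theorem valid_one {U : Set V} (S : Sk 0 G U D) : S.Valid fun _ => 1 where
  inv _ := by simp
  pot := ⟨fun _ => 1, fun _ _ => by simp⟩
  t0 i := i.elim0
  t1 i := i.elim0
  t2 i := i.elim0
  t3 i := i.elim0
  edge _ _ := by simp [labs]
  vert _ _ i := i.elim0

theorem subsol (h : K1) [Finite D] (S : Sk k G U D) (X : Set V) (hX : Cn G X)
    (p : S.PlanarOn X) : Sol 0 (G.induce X) {z | z.1 ∈ U ∧ G.neighborSet z.1 ⊆ X} := by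
  classical
  by_cases he : ∃ u ∈ X, ∃ v ∈ X, G.Adj u v
  · obtain ⟨D₀, _, M₀, ι, s, e0⟩ := p
    obtain ⟨S₀, -, t, -, -, ha⟩ := clean h S X M₀ ι hX he s e0
    choose u v ha using ha
    have hv : ∀ x (a : X), (⟨u x, (ha x).2.2.1⟩ : X) = a ↔ S₀.vx x = some a.1 := by
      intro x a
      rw [(ha x).1.1, Option.some.injEq, Subtype.ext_iff]
    let S₁ : Sk 0 (G.induce X) {z | z.1 ∈ U ∧ G.neighborSet z.1 ⊆ X} D₀ :=
      { toHMap := S₀.toHMap
        vx := fun x => some ⟨u x, (ha x).2.2.1⟩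
        real := S₀.real
        term := Fin.elim0
        ok := fun _ _ => False
        vx_σ := fun d => congrArg some ((hv _ _).2 (by rw [S₀.vx_σ, (ha d).1.1]))
        vx_cyc := fun d e a b c => S₀.vx_cyc d e a ((hv _ _).1 (Option.some.inj b))
          ((hv _ _).1 (Option.some.inj c))
        real_α := S₀.real_α
        real_adj := fun d _ => ⟨_, ⟨v d, (ha d).2.2.2⟩, rfl, congrArg some ((hv _ _).2 (ha d).1.2),
          (ha d).2.1.1⟩
        real_ex := fun a b c => by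
          simp only [Option.some.injEq, hv]
          exact S₀.real_ex a b ⟨c, a.2, b.2⟩
        term_vx := fun i => i.elim0
        term_four := fun i => i.elim0
        ok_symm := fun _ _ a => a
        ok_idx := fun _ _ _ a => a
        ok_once := fun i => i.elim0
        cap := fun d z a b => by
          obtain ⟨r, e, y, y', c1, c2, c3⟩ := S₀.cap d z ((hv _ _).1 (Option.some.inj a)) b
          exact ⟨r, e, ⟨y, c3.2.1⟩, ⟨y', c3.2.2⟩, congrArg some ((hv _ _).2 c1),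
            congrArg some ((hv _ _).2 c2), c3.1⟩ }
    exact ⟨D₀, inferInstance, S₁, _, t, valid_one S₁⟩
  · let S₁ : Sk 0 (G.induce X) {z | z.1 ∈ U ∧ G.neighborSet z.1 ⊆ X} Unit :=
      { φ := 1
        α := 1
        αα := fun _ => rfl
        vx := fun _ => none
        real := fun _ => False
        term := Fin.elim0
        ok := fun _ _ => False
        vx_σ := fun _ => rfl
        vx_cyc := fun _ _ _ a => by simp at a
        real_α := fun _ a => a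
        real_adj := fun _ a => a.elim
        real_ex := fun a b c => absurd ⟨a, a.2, b, b.2, c⟩ he
        term_vx := fun i => i.elim0
        term_four := fun i => i.elim0
        ok_symm := fun _ _ a => a
        ok_idx := fun _ _ _ a => a
        ok_once := fun i => i.elim0
        cap := fun _ _ a => by simp at a }
    refine ⟨Unit, inferInstance, S₁, _, ⟨fun _ _ => EqvGen.refl _, ?_⟩, valid_one S₁⟩
    change 2 - 2 * ((0 : ℕ) : ℤ) ≤ chi (1 : Perm Unit) 1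
    simp [chi, h.ncyc_one]

theorem capnb [Finite D] (S : Sk k G U D) (z : V) (hz : z ∈ U)
    (hne : (G.neighborSet z).Nonempty) : Cn G (G.neighborSet z) := by
  refine ⟨hne, fun a ha b hb => ?_⟩
  obtain ⟨d, ⟨-, d1, d2⟩, -⟩ := S.real_ex z a ha
  obtain ⟨e, ⟨-, e1, e2⟩, -⟩ := S.real_ex z b hb
  obtain ⟨n, rfl⟩ := (S.vx_cyc d e z d1 e1).exists_nat_pow_eq
  clear e1 hb
  induction n generalizing b with
  | zero =>
    obtain rfl : a = b := Option.some.inj (d2.symm.trans e2)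
    exact ReflTransGen.refl
  | succ n ih =>
    have t := (vx_pow S (n + 1) d).trans d1
    obtain ⟨y, y', c1, c2, c3, c4, c5⟩ := cap_tri S t hz
    have e := (S.cap _ z t hz).2.1
    obtain rfl : y = b := Option.some.inj (by rw [← c1, S.vx_φ, e2])
    rw [pow_succ', Perm.mul_apply, HMap.σ_apply] at e c2
    rw [S.φ.injective e] at c2
    exact (ih y' c2).tail ⟨c3.symm, c5, c4⟩

end Kit2

open Kit2 in
theorem k2 (h : K1) : K2 where
  sub_ex := sub_ex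
  sub_eg := sub_eg h
  sub_trans := sub_trans
  sub_le := sub_le
  sub_φ := sub_φ
  sub_sc := sub_sc h
  sub_con := sub_con h
  top_eg := top_eg h
  count := count h
  mono := mono h
  clean := clean h
  subsol := subsol h
  capnb := capnb
  chord_con M _ _ := chord_con M
  chord_same M _ _ := chord_same M h
  chord_diff M _ _ := chord_diff M h
  chord_σ M p q hpq := ⟨fun d e => (sub_sc h _ _ _ _ d e (ch_sub M hpq)).symm, ch_true M p q,
    ch_false M hpq⟩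
  chord_φ M _ _ := chord_φ M h

end Pool.Agent.Lib.MP_c1f5fe_lc
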