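import Pool.Agent.Lib.MP_c1f5fe_lc.Kit6
import Pool.Agent.Lib.MP_c1f5fe_lc.Kit2

/-! Faces and potentials in a flat band. -/

namespace Pool.Agent.Lib.MP_c1f5fe_lc

open Equiv Function Relation NearA Kit2
open Pool.Agent.Lib.MP_50b5c6_lc.Np (Pl)

namespace FlatP

variable {k : ℕ} {V D D₀ : Type} {G : SimpleGraph V} {U : Set V} {S : Sk k G U D}
  {n m : ℕ} {rad : V → ℕ} {ang : V → ZMod m} {M₀ : HMap D₀} {ι : D₀ → D} {Z : Set V}

theorem vx_φ₀ (s : S.toHMap.Sub (S.AdjD Z) M₀ ι) (x : D₀) :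
    S.vx (ι (M₀.φ x)) = S.vx (S.α (ι x)) := by
  have := vx_sub S s (M₀.α x)
  rwa [HMap.σ_apply, M₀.αα, s.al] at this

theorem lift (s : S.toHMap.Sub (S.AdjD Z) M₀ ι) {u v : V} (h : G.Adj u v) (hu : u ∈ Z)
    (hv : v ∈ Z) : ∃ x, S.vx (ι x) = some u ∧ S.vx (ι (M₀.α x)) = some v := by
  obtain ⟨d, hd, -, a, b⟩ := adjD_ex S h hu hv
  obtain ⟨x, rfl⟩ := (s.range d).1 hd
  exact ⟨x, a, by rw [s.al, b]⟩

theorem star_adj (s : S.toHMap.Sub (S.AdjD Z) M₀ ι) {u v : V} (h : G.Adj u v) (hu : u ∈ Z)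
    (hv : v ∈ Z) : (starG M₀ fun x => S.vx (ι x)).Adj (.inl u) (.inl v) := by
  obtain ⟨x, a, b⟩ := lift s h hu hv
  exact (SimpleGraph.fromRel_adj _ _ _).2
    ⟨fun e => h.ne (Sum.inl.inj e), .inl (.inl ⟨x, u, v, a, b, rfl, rfl⟩)⟩

theorem star_face {x : D₀} {u : V} (h : S.vx (ι x) = some u) :
    (starG M₀ fun x => S.vx (ι x)).Adj (.inr (Quotient.mk _ x)) (.inl u) :=
  (SimpleGraph.fromRel_adj _ _ _).2 ⟨Sum.inr_ne_inl, .inr (.inr ⟨x, u, h, rfl, rfl⟩)⟩

/-- a dart whose tail is well inside the band belongs to the model -/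
theorem adjD {r a : ℕ} (c : Cyl G n m rad ang) (f : S.Full (band rad r (a + 1))) {d : D} {u : V}
    (h : S.vx d = some u) (hu : u ∈ band rad r a) : S.AdjD (band rad r (a + 1)) d := by
  obtain ⟨a1, a2⟩ := hu
  obtain ⟨v, hv, e⟩ := f d u h ⟨by omega, by omega⟩
  have h1 := c.lip u v e
  have h2 := c.lip v u e.symm
  exact ⟨u, v, ⟨h, hv⟩, e, ⟨by omega, by omega⟩, ⟨by omega, by omega⟩⟩

theorem face [Finite D] (h2 : K2) (hs : StarSt) (hn : NearSt) (h6 : K6) {r a : ℕ}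
    (c : Cyl G n m rad ang) (hm : 4 ≤ m) (h3 : a + 2 < r) (h4 : r + a + 2 ≤ n)
    (s : S.toHMap.Sub (S.AdjD (band rad r (a + 2))) M₀ ι) (e0 : M₀.eg = 0) {x y : D₀} {u v : V}
    (hx : S.vx (ι x) = some u) (hu : u ∈ band rad r a) (hy : S.vx (ι y) = some v)
    (hxy : M₀.φ.SameCycle x y) : v ∈ Nr rad ang u := by
  have := Finite.of_injective ι s.inj
  have P := hs D₀ V M₀ (fun x => S.vx (ι x)) e0 (vx_sub S s) fun d e v a b =>
    (h2.sub_sc _ _ _ _ d e s).2 (S.vx_cyc _ _ v a b)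
  have g := h6.grid G n m rad ang (r - (a + 2)) (r + (a + 2)) c (by omega) (by omega)
  have sub : ∀ z, r - (a + 2) ≤ rad z ∧ rad z ≤ r + (a + 2) → z ∈ band rad r (a + 2) :=
    fun z hz => ⟨by omega, hz.2⟩
  have g' : Grid (starG M₀ fun x => S.vx (ι x)) Set.univ (r - (a + 2)) (r + (a + 2))
      fun i j => Sum.inl '' {v | rad v = i ∧ ang v = j} :=
    { cn := fun i j a1 a2 => ⟨Kit6.cn_map Sum.inl (fun x hx y hy e => star_adj s e
        (sub x ((g.cn i j a1 a2).2 hx)) (sub y ((g.cn i j a1 a2).2 hy))) (g.cn i j a1 a2).1,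
        Set.subset_univ _⟩
      disj := by
        rintro i j i' j' _ a1 a2 a3 a4 ⟨z, hz, rfl⟩ ⟨z', hz', e⟩
        obtain rfl := Sum.inl.inj e
        exact g.disj i j i' j' z' a1 a2 a3 a4 hz hz'
      hor := fun i j a1 a2 => by
        obtain ⟨p, hp, q, hq, e⟩ := g.hor i j a1 a2
        exact ⟨_, ⟨p, hp, rfl⟩, _, ⟨q, hq, rfl⟩, star_adj s e (sub p ((g.cn _ _ a1 a2).2 hp))
          (sub q ((g.cn _ _ a1 a2).2 hq))⟩
      ver := fun i j a1 a2 => by
        obtain ⟨p, hp, q, hq, e⟩ := g.ver i j a1 a2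
        exact ⟨_, ⟨p, hp, rfl⟩, _, ⟨q, hq, rfl⟩, star_adj s e
          (sub p ((g.cn _ _ a1 a2.le).2 hp)) (sub q ((g.cn _ _ (by omega) a2).2 hq))⟩ }
  obtain ⟨v', -, ⟨hv, -⟩, -, ⟨b1, b2⟩, -⟩ := sub_mem s y
  obtain rfl : v' = v := Option.some.inj (hv.symm.trans hy)
  obtain ⟨a1, a2⟩ := hu
  have eq : Quotient.mk (Perm.SameCycle.setoid M₀.φ) y = Quotient.mk _ x :=
    Quotient.sound hxy.symm
  have key := hn _ _ _ _ _ m _ (rad u) (rad v') (ang u) (ang v') hm P g' (by omega) (by omega)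
    (by omega) (by omega) (.inr ⟨{.inr (Quotient.mk _ x)}, cn_single _, fun i j _ _ => by simp,
      ⟨_, rfl, _, ⟨u, ⟨rfl, rfl⟩, rfl⟩, star_face hx⟩,
      ⟨_, congrArg Sum.inr eq, _, ⟨v', ⟨rfl, rfl⟩, rfl⟩, star_face hy⟩⟩)
  exact ⟨key.1, key.2.1, key.2.2 (by omega) (by omega)⟩

theorem walk [Finite D] (h2 : K2) (hs : StarSt) (hn : NearSt) (h6 : K6) {r a : ℕ}
    (c : Cyl G n m rad ang) (hm : 4 ≤ m) (h3 : a + 2 < r) (h4 : r + a + 2 ≤ n)
    (f : S.Full (band rad r (a + 2)))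
    (s : S.toHMap.Sub (S.AdjD (band rad r (a + 2))) M₀ ι) (e0 : M₀.eg = 0) {x y : D₀} {u : V}
    (hx : S.vx (ι x) = some u) (hu : u ∈ band rad r a) (hxy : M₀.φ.SameCycle x y) :
    ι (M₀.φ y) = S.φ (ι y) := by
  obtain ⟨-, v, ⟨-, hv⟩, -⟩ := sub_mem s y
  have h := face h2 hs hn h6 c hm h3 h4 s e0 hx hu ((vx_φ₀ s y).trans hv)
    (Perm.sameCycle_apply_right.2 hxy)
  obtain ⟨a1, a2⟩ := hu
  obtain ⟨b1, b2, -⟩ := h
  exact h2.sub_φ _ _ _ _ y s (adjD (a := a + 1) c f ((S.vx_φ _).trans hv) ⟨by omega, by omega⟩)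

theorem band_cn (h6 : K6) {r a : ℕ} (c : Cyl G n m rad ang) (hm : 0 < m) (h3 : a < r)
    (h4 : r + a ≤ n) : Cn G (band rad r a) := by
  convert h6.rows G n m rad ang (r - a) (r + a) hm c (by omega) (by omega) h4 using 1
  ext v
  simp only [band, Set.mem_ofPred_eq]
  omega

end FlatP

open FlatP

theorem flat (h1 : K1) (h2 : K2) (h3 : K3) (hs : StarSt) (hn : NearSt) (h6 : K6) : FlatSt where
  near := by
    intro k V D _ G U S n m rad ang r a c hm a1 a2 ⟨f, D₀, _, M₀, ι, s, e0⟩ d e u hd hu hde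
    obtain ⟨x, rfl⟩ := (s.range d).1
      (adjD (a := a + 1) c f hd ⟨by have := hu.1; omega, by have := hu.2; omega⟩)
    obtain ⟨t, rfl⟩ := hde.exists_nat_pow_eq
    have : (S.φ ^ t) (ι x) = ι ((M₀.φ ^ t) x) := by
      induction t with
      | zero => rfl
      | succ t ih =>
        rw [pow_succ', pow_succ', Perm.mul_apply, Perm.mul_apply, ih (sc_pow _ _ _),
          walk h2 hs hn h6 c hm a1 a2 f s e0 hd hu (sc_pow _ _ _)]
    rw [this]
    obtain ⟨v, -, ⟨hv, -⟩, -⟩ := sub_mem s ((M₀.φ ^ t) x)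
    exact ⟨v, hv, face h2 hs hn h6 c hm a1 a2 s e0 hd hu hv (sc_pow _ _ _)⟩
  pot := by
    intro k V D _ G U S n m rad ang r a j c hm a1 a2 ⟨f, D₀, _, M₀, ι, s, e0⟩ w hw
    classical
    set W : Set V := {v | v ∈ band rad r a ∧ 2 ≤ ad (ang v - j)} with hW
    let B : Set V := {v | v ∈ band rad r (a + 3) ∧ (v ∈ band rad r (a + 1) → ang v = j)}
    let Q : D₀ → Prop := fun x => ∃ u ∈ B, S.vx (ι x) = some u ∨ S.vx (ι (M₀.α x)) = some u
    have inZ : ∀ d u, S.vx d = some u → u ∈ W → ∃ x, ι x = d := fun d u hd hu =>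
      (s.range d).1 (adjD (a := a + 2) c f hd
        ⟨by have := hu.1.1; omega, by have := hu.1.2; omega⟩)
    by_cases ex : ∃ x₀, ∃ v₀ ∈ W, S.vx (ι x₀) = some v₀
    swap
    · refine ⟨fun _ => 1, fun d u v hd hu _ => ?_⟩
      obtain ⟨x, rfl⟩ := inZ d u hd.1 hu
      exact absurd ⟨x, u, hu, hd.1⟩ ex
    obtain ⟨x₀, v₀, hv₀, hx₀⟩ := ex
    have : Nonempty D₀ := ⟨x₀⟩
    have con : M₀.Con := h2.sub_con S _ M₀ ι (band_cn h6 c (by omega) a1 (by omega)) s
    have chi : 2 ≤ M₀.chi := by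
      have e1 := (h1.ncomp_one _ _).1 con
      have e2 : 2 * (ncomp M₀.φ M₀.α : ℤ) - M₀.chi = 0 := e0
      omega
    have same : ∀ x y u, S.vx (ι x) = some u → S.vx (ι y) = some u → M₀.σ.SameCycle x y :=
      fun x y u a b => (h2.sub_sc _ _ _ _ x y s).2 (S.vx_cyc _ _ u a b)
    have Qα : ∀ q, Q q → Q (M₀.α q) := by
      rintro q ⟨u, hu, h⟩
      exact ⟨u, hu, by rw [M₀.αα]; exact h.symm⟩
    have ed : M₀.Edges Q := by
      refine fun q hq => ⟨Qα q hq, fun e => ?_⟩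
      obtain ⟨u, v, ⟨b1, b2⟩, b3, -⟩ := sub_mem s q
      rw [← s.al, e, b1] at b2
      exact b3.ne (Option.some.inj b2)
    have cB : Cn G B := by
      have c1 := h6.rows G n m rad ang (r - (a + 3)) (r - (a + 2)) (by omega) c (by omega)
        (by omega) (by omega)
      have c2 := h6.rows G n m rad ang (r + (a + 2)) (r + (a + 3)) (by omega) c (by omega)
        (by omega) (by omega)
      have c3 := h6.rect G n m rad ang (r - (a + 3)) (r + (a + 3)) 0 j c (by omega) (by omega)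
        (by omega)
      obtain ⟨p, p1, p2⟩ := (c.cell (r - (a + 3)) j (by omega) (by omega)).1
      obtain ⟨q, q1, q2⟩ := (c.cell (r + (a + 3)) j (by omega) (by omega)).1
      have c4 := cn_union' c3 c1 (u := p) ⟨by omega, by omega, 0, le_rfl, by simp [p2]⟩
        ⟨by omega, by omega⟩
      have c5 := cn_union' c4 c2 (u := q) (.inl ⟨by omega, by omega, 0, le_rfl, by simp [q2]⟩)
        ⟨by omega, by omega⟩
      convert c5 using 1
      ext v
      simp only [B, band, Set.mem_ofPred_eq, Set.mem_union, Nat.le_zero, exists_eq_left,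
        Nat.cast_zero, add_zero]
      by_cases e : ang v = j
      · simp only [e, implies_true, and_true]
        omega
      · simp only [e, imp_false, and_false, false_or]
        omega
    have qc : M₀.QCon Q := by
      have tail : ∀ q, Q q → ∃ y, ∃ u ∈ B, S.vx (ι y) = some u ∧
          EqvGen (fun x y => Q x ∧ Q y ∧ (y = M₀.α x ∨ M₀.σ.SameCycle x y)) q y := by
        rintro q ⟨u, hu, h | h⟩
        · exact ⟨q, u, hu, h, .refl _⟩
        · exact ⟨M₀.α q, u, hu, h, .rel _ _ ⟨⟨u, hu, .inr h⟩, ⟨u, hu, .inl h⟩, .inl rfl⟩⟩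
      intro q e hq he
      obtain ⟨y, u, hu, hy, r1⟩ := tail q hq
      obtain ⟨z, v, hv, hz, r2⟩ := tail e he
      refine r1.trans _ _ _ (EqvGen.trans _ z _ ?_ (r2.symm _ _))
      clear r2
      have p := cB.2 u hu v hv
      induction p generalizing z with
      | refl => exact .rel _ _ ⟨⟨u, hu, .inl hy⟩, ⟨u, hu, .inl hz⟩, .inr (same _ _ u hy hz)⟩
      | tail _ st ih =>
        obtain ⟨x, b1, b2⟩ := lift s st.1 st.2.1.1 st.2.2.1
        exact ((ih x st.2.1 b1).trans _ _ _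
          (.rel _ _ ⟨⟨_, st.2.1, .inl b1⟩, ⟨_, hv, .inl b2⟩, .inl rfl⟩)).trans _ _ _
          (.rel _ _ ⟨⟨_, hv, .inl b2⟩, ⟨_, hv, .inl hz⟩, .inr (same _ _ _ b2 hz)⟩)
    have exQ : ∃ q, Q q := by
      obtain ⟨u, v, e, b1, -, b2, -⟩ := c.hor (r + (a + 3)) j (by omega) (by omega)
      obtain ⟨x, hx, -⟩ := lift s e ⟨by omega, by omega⟩ ⟨by omega, by omega⟩
      exact ⟨x, u, ⟨⟨by omega, by omega⟩, fun h => by have := h.2; omega⟩, .inl hx⟩
    have nQ : ∀ x u, S.vx (ι x) = some u → u ∈ W → ¬Q x := by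
      rintro x u hx ⟨⟨b1, b2⟩, b3⟩ ⟨v, hv, h | h⟩
      · obtain rfl : u = v := Option.some.inj (hx.symm.trans h)
        rw [hv.2 ⟨by omega, by omega⟩, sub_self] at b3
        simp [ad] at b3
      · obtain ⟨u', v', ⟨c1, c2⟩, e, -⟩ := sub_mem s x
        obtain rfl : u = u' := Option.some.inj (hx.symm.trans c1)
        rw [s.al] at h
        obtain rfl : v = v' := Option.some.inj (h.symm.trans c2)
        have l1 := c.lip u v e
        have l2 := c.lip v u e.symm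
        have e1 := hv.2 ⟨by omega, by omega⟩
        have l3 := h6.ad_lip m 0 (by omega)
        have l4 := h6.ad_lip m (-1) (by omega)
        have l5 : ad (0 : ZMod m) = 0 := by simp [ad]
        rw [neg_add_cancel] at l4
        rw [zero_add] at l3
        rcases c.lipa u v e (by omega) (by omega) (by omega) (by omega) with h | h | h
        · rw [← h, e1, sub_self] at b3
          omega
        · rw [show ang u - j = -1 by rw [← e1, h]; ring] at b3
          omega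
        · rw [show ang u - j = 1 by rw [← e1, h]; ring] at b3
          omega
    have cW : Cn G W := by
      have c3 := h6.rect G n m rad ang (r - a) (r + a) (m - 2 * 2) (j + 2) c (by omega) (by omega)
        (by omega)
      convert c3 using 1
      ext v
      simp only [hW, band, Set.mem_ofPred_eq, h6.ad_ge m 2 _ hm (by omega), Nat.cast_ofNat,
        sub_eq_iff_eq_add', add_assoc, and_assoc]
      refine and_congr_left' ?_
      omega
    have rσ : ∀ x y u, S.vx (ι x) = some u → S.vx (ι y) = some u → u ∈ W → M₀.Reg Q x y :=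
      fun x y u b1 b2 hu => h3.reg_σ M₀ Q x y (same _ _ u b1 b2) fun z hz => by
        obtain ⟨t, rfl⟩ := hz.exists_nat_pow_eq
        exact nQ _ u ((pow_inv (f := fun x => S.vx (ι x)) (vx_sub S s) t x).trans b1) hu
    have reg : ∀ y v, S.vx (ι y) = some v → v ∈ W → M₀.Reg Q x₀ y := by
      intro y v hy hv
      have p := cW.2 v₀ hv₀ v hv
      induction p generalizing y with
      | refl => exact rσ _ _ _ hx₀ hy hv
      | tail _ st ih =>
        have z1 : ∀ z ∈ W, z ∈ band rad r (a + 3) := fun z hz =>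
          ⟨by have := hz.1.1; omega, by have := hz.1.2; omega⟩
        obtain ⟨x, b1, b2⟩ := lift s st.1 (z1 _ st.2.1) (z1 _ st.2.2)
        exact ((ih x b1 st.2.1).trans _ _ _
          (.rel _ _ (.inr ⟨nQ _ _ b1 st.2.1, rfl⟩))).trans _ _ _ (rσ _ _ _ b2 hy hv)
    obtain ⟨q, hq, rq⟩ := h3.hit M₀ Q con exQ x₀
    let X : D₀ → Prop := fun y =>
      ∃ z, M₀.φ.SameCycle z y ∧ ∃ u ∈ band rad r (a + 1), S.vx (ι z) = some u
    have tailX : ∀ y, ¬Q y → X y := by
      intro y hy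
      obtain ⟨u, -, ⟨b1, -⟩, -, b2, -⟩ := sub_mem s y
      refine ⟨y, .refl _ _, u, ?_, b1⟩
      by_contra hc
      exact hy ⟨u, ⟨b2, fun h => absurd h hc⟩, .inl b1⟩
    have col : M₀.Col Q X := by
      refine ⟨fun d => ?_, fun d hd => iff_of_true (tailX _ fun h => hd ?_) (tailX d hd)⟩
      · simp only [X, Perm.sameCycle_apply_right]
      · have := Qα _ h
        rwa [M₀.αα] at this
    have hX : ∀ y, M₀.Reg Q q y → X y := fun y hy =>
      (h3.reg_col M₀ Q X col x₀ y (rq.trans _ _ _ hy)).1 (tailX x₀ (nQ _ _ hx₀ hv₀))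
    obtain ⟨θ, hθ⟩ := hw.pot
    obtain ⟨η, η1, η2⟩ := (h3.all M₀ Q con chi ed qc q hq).2 k (fun x => w (ι x))
      (fun x => θ (ι x)) (fun d _ _ => by rw [s.al, hw.inv]) fun d hd => by
        obtain ⟨z, z1, u, z2, z3⟩ := hX d hd
        rw [walk (a := a + 1) h2 hs hn h6 c hm a1 a2 f s e0 z3 z2 z1]
        refine hθ _ fun ht => ?_
        obtain ⟨u, -, ⟨b1, -⟩, -⟩ := sub_mem s d
        rw [ht.vx] at b1
        exact absurd b1 (by simp)
    have reg' : ∀ y v, S.vx (ι y) = some v → v ∈ W → M₀.Reg Q q y := fun y v hy hv =>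
      (rq.symm _ _).trans _ _ _ (reg y v hy hv)
    have cst : ∀ x y u, S.vx (ι x) = some u → S.vx (ι y) = some u → u ∈ W → η y = η x := by
      intro x y u b1 b2 hu
      obtain ⟨t, rfl⟩ := (same _ _ u b1 b2).exists_nat_pow_eq
      clear b2
      induction t with
      | zero => rfl
      | succ t ih =>
        have b3 := (pow_inv (f := fun x => S.vx (ι x)) (vx_sub S s) t x).trans b1
        have b4 := nQ _ u b3 hu
        have := η2 (M₀.α ((M₀.σ ^ t) x))
          ((reg' _ u b3 hu).trans _ _ _ (.rel _ _ (.inr ⟨b4, rfl⟩)))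
          fun h => b4 (by have := Qα _ h; rwa [M₀.αα] at this)
        rw [pow_succ', Perm.mul_apply, HMap.σ_apply, ← this, M₀.αα, ih]
    let hp : V → FG k := fun v => if h : ∃ x, S.vx (ι x) = some v then η h.choose else 1
    have hhp : ∀ x u, S.vx (ι x) = some u → u ∈ W → hp u = η x := by
      intro x u b1 hu
      have h : ∃ x, S.vx (ι x) = some u := ⟨x, b1⟩
      simp only [hp, dif_pos h]
      exact cst x _ u b1 h.choose_spec hu
    refine ⟨hp, fun d u v hd hu hv => ?_⟩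
    obtain ⟨x, rfl⟩ := inZ d u hd.1 hu
    rw [hhp x u hd.1 hu, hhp (M₀.α x) v (by rw [s.al]; exact hd.2) hv,
      η2 x (reg' _ u hd.1 hu) (nQ _ u hd.1 hu), ← η1 x (reg' _ u hd.1 hu)]
    simp

end Pool.Agent.Lib.MP_c1f5fe_lc
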