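import Pool.Agent.Lib.MP_c1f5fe_lc.SpecC
import Pool.Agent.Lib.MP_c1f5fe_lc.Tb

/-! Large flat pieces are reducible. -/

namespace Pool.Agent.Lib.MP_c1f5fe_lc

open Equiv Function Relation

namespace FlatRed

theorem cc_eq {V V' : Type} (G : SimpleGraph V) (G' : SimpleGraph V') (f : V → V') (g : V' → V)
    (hf : ∀ u v, G.Adj u v → G'.Reachable (f u) (f v))
    (hg : ∀ u v, G'.Adj u v → G.Reachable (g u) (g v)) (h1 : ∀ v, G.Reachable (g (f v)) v)
    (h2 : ∀ v, G'.Reachable (f (g v)) v) :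
    Nat.card G.ConnectedComponent = Nat.card G'.ConnectedComponent := by
  have key : ∀ {V V' : Type} (G : SimpleGraph V) (G' : SimpleGraph V') (f : V → V'),
      (∀ u v, G.Adj u v → G'.Reachable (f u) (f v)) →
      ∀ u v, G.Reachable u v → G'.Reachable (f u) (f v) := by
    intro V V' G G' f hf u v ⟨p⟩
    induction p with
    | nil => rfl
    | cons a _ ih => exact (hf _ _ a).trans ih
  refine Nat.card_congr ⟨Quot.map f (key G G' f hf), Quot.map g (key G' G g hg), ?_, ?_⟩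
  · rintro ⟨v⟩; exact Quot.sound (h1 v)
  · rintro ⟨v⟩; exact Quot.sound (h2 v)

theorem cn_reach {V V' : Type} {G : SimpleGraph V} {G' : SimpleGraph V'} {A : Set V} (h : Cn G A)
    (f : ∀ v ∈ A, V') (hf : ∀ u hu v hv, G.Adj u v → G'.Adj (f u hu) (f v hv)) :
    ∀ u hu v hv, G'.Reachable (f u hu) (f v hv) := by
  intro u hu v hv
  have := h.2 u hu v hv
  induction this with
  | refl => rfl
  | tail _ a ih => exact (ih a.2.1).trans (hf _ _ _ _ a.1).reachable

variable {t : ℕ} {I K' : Type} (P : Piece t I) (C : Ctx t K')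

theorem cn_inl {A : Set I} (h : Cn P.G A) : Cn (glue P C) (Sum.inl '' A) := by
  refine ⟨h.1.image _, ?_⟩
  rintro _ ⟨a, ha, rfl⟩ _ ⟨b, hb, rfl⟩
  have := h.2 a ha b hb
  clear hb
  induction this with
  | refl => exact .refl
  | tail _ a ih => exact ih.tail ⟨a.1, ⟨_, a.2.1, rfl⟩, ⟨_, a.2.2, rfl⟩⟩

def KK (K' : Type) (K : Set I) : Set (I ⊕ K') := {v | ∀ x, v = .inl x → x ∈ K}

@[simp] theorem kk_inl {K : Set I} {x : I} : Sum.inl x ∈ KK K' K ↔ x ∈ K := by simp [KK]

@[simp] theorem kk_inr {K : Set I} {y : K'} : Sum.inr y ∈ KK K' K := by simp [KK]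

variable {l : ℕ} (c : ZMod l → I) (K : Set I)

def capP : Piece t (Option {v // v ∈ K ∨ v ∈ Set.range c}) where
  G := capG P.G K c
  att x s := ∃ a, x = some a ∧ P.att a.1 s
  U := capU P.U K c

def eqv (K' : Type) : (Option {v // v ∈ K ∨ v ∈ Set.range c}) ⊕ K' ≃
    Option {v : I ⊕ K' // v ∈ KK K' K ∨ v ∈ Set.range (Sum.inl ∘ c)} where
  toFun
    | .inl none => none
    | .inl (some a) => some ⟨.inl a.1, a.2.imp kk_inl.2 fun ⟨i, h⟩ => ⟨i, congrArg Sum.inl h⟩⟩
    | .inr y => some ⟨.inr y, Or.inl kk_inr⟩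
  invFun
    | none => .inl none
    | some ⟨.inl x, h⟩ => .inl (some ⟨x, h.imp kk_inl.1 fun ⟨i, h⟩ => ⟨i, Sum.inl.inj h⟩⟩)
    | some ⟨.inr y, _⟩ => .inr y
  left_inv := by rintro ((_ | a) | y) <;> rfl
  right_inv := by rintro (_ | ⟨x | y, h⟩) <;> rfl

theorem eqv_adj (u v) : (glue (capP P c K) C).Adj u v ↔
    (capG (glue P C) (KK K' K) (Sum.inl ∘ c)).Adj (eqv c K K' u) (eqv c K K' v) := by
  rcases u with (_ | a) | y <;> rcases v with (_ | b) | y' <;>
    simp [glue, capP, capG, eqv, -Subtype.exists]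

theorem eqv_U (v) : v ∈ glueU (capP P c K) C ↔
    eqv c K K' v ∈ capU (glueU P C) (KK K' K) (Sum.inl ∘ c) := by
  rcases v with (_ | b) | y' <;> simp [glueU, capP, capU, eqv, -Subtype.forall]

variable {c K}

theorem nb_kk (ha : ∀ v s, P.att v s → v ∈ K) :
    nb (glue P C) (KK K' K) = Sum.inl '' nb P.G K := by
  ext (x | y)
  · simp only [nb, Set.mem_setOf_eq, kk_inl, Set.mem_image, Sum.inl.injEq, exists_eq_right]
    refine and_congr_right fun n => ⟨?_, fun ⟨u, hu, a⟩ => ⟨.inl u, kk_inl.2 hu, a⟩⟩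
    rintro ⟨u | u, hu, a⟩
    · exact ⟨u, kk_inl.1 hu, a⟩
    · obtain ⟨s, a, -⟩ := a
      exact absurd (ha x s a) n
  · simp [nb]

theorem frame (F : Frame P.G P.U c K) (ha : ∀ v s, P.att v s → v ∈ K) :
    Frame (glue P C) (glueU P C) (Sum.inl ∘ c) (KK K' K) := by
  refine ⟨⟨F.cyc.three, Sum.inl_injective.comp F.cyc.inj, F.cyc.adj⟩, F.ind, F.free,
    fun i h => F.off i (kk_inl.1 h), ?_, ?_⟩
  · rw [nb_kk P C ha]
    rintro _ ⟨x, h, rfl⟩
    obtain ⟨i, rfl⟩ := F.sep h
    exact ⟨i, rfl⟩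
  · obtain ⟨i, j, n, h1, h2⟩ := F.two
    rw [nb_kk P C ha]
    exact ⟨i, j, n, ⟨_, h1, rfl⟩, ⟨_, h2, rfl⟩⟩

theorem indep_iff (F : Frame P.G P.U c K) (ha : ∀ v s, P.att v s → v ∈ K) (hi : Indep P.G P.U) :
    Indep (glue P C) (glueU P C) ↔ Indep (capG (glue P C) (KK K' K) (Sum.inl ∘ c))
      (capU (glueU P C) (KK K' K) (Sum.inl ∘ c)) := by
  constructor
  · rintro h (_ | a) h1 (_ | b) h2 A
    · exact A
    · obtain ⟨i, e⟩ := A
      exact F.free i (by have := h2 b rfl; rwa [← e] at this)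
    · obtain ⟨i, e⟩ := A
      exact F.free i (by have := h1 a rfl; rwa [← e] at this)
    · exact h _ (h1 a rfl) _ (h2 b rfl) A
  · intro h u h1 v h2 A
    have key : u ∈ KK K' K → v ∈ KK K' K → False := fun a b =>
      h (some ⟨u, Or.inl a⟩) (by rintro _ ⟨⟩; exact h1) (some ⟨v, Or.inl b⟩)
        (by rintro _ ⟨⟩; exact h2) A
    rcases u with x | y <;> rcases v with x' | y'
    · exact hi x h1 x' h2 A
    · obtain ⟨s, a, -⟩ := A
      exact key (kk_inl.2 (ha _ _ a)) kk_inr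
    · obtain ⟨s, a, -⟩ := A
      exact key kk_inr (kk_inl.2 (ha _ _ a))
    · exact key kk_inr kk_inr

theorem comp_eq (F : Frame P.G P.U c K) (ha : ∀ v s, P.att v s → v ∈ K) (hK : Cn P.G K)
    (hc : Cn P.G Set.univ) : Nat.card (glue P C).ConnectedComponent =
      Nat.card (capG (glue P C) (KK K' K) (Sum.inl ∘ c)).ConnectedComponent := by
  classical
  have r1 : ∀ x y, (glue P C).Reachable (.inl x) (.inl y) := fun x y =>
    cn_reach hc (fun v _ => Sum.inl v) (fun _ _ _ _ a => a) x trivial y trivial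
  have r2 : ∀ x h, (capG (glue P C) (KK K' K) (Sum.inl ∘ c)).Reachable none (some ⟨.inl x, h⟩) := by
    rintro x (h | h)
    · obtain ⟨i, -, -, ⟨-, u, hu, a⟩, -⟩ := F.two
      have a1 : (capG (glue P C) (KK K' K) (Sum.inl ∘ c)).Adj none
        (some ⟨.inl (c i), Or.inr ⟨i, rfl⟩⟩) := ⟨i, rfl⟩
      have a2 : (capG (glue P C) (KK K' K) (Sum.inl ∘ c)).Adj (some ⟨.inl (c i), Or.inr ⟨i, rfl⟩⟩)
        (some ⟨.inl u, Or.inl (kk_inl.2 hu)⟩) := a.symm
      exact (a1.reachable.trans a2.reachable).trans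
        (cn_reach (G' := capG (glue P C) (KK K' K) (Sum.inl ∘ c)) hK
          (fun v hv => some ⟨.inl v, Or.inl (kk_inl.2 hv)⟩) (fun _ _ _ _ a => a) u hu x
          (kk_inl.1 h))
    · exact SimpleGraph.Adj.reachable h
  set f : I ⊕ K' → Option {v : I ⊕ K' // v ∈ KK K' K ∨ v ∈ Set.range (Sum.inl ∘ c)} :=
    Sum.elim (fun _ => none) fun y => some ⟨.inr y, Or.inl kk_inr⟩
  refine cc_eq _ _ f (fun o => o.elim (.inl (c 0)) fun a => a.1) ?_ ?_ ?_ ?_
  · rintro (x | y) (x' | y') A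
    · rfl
    · have : x ∈ K := by obtain ⟨s, a, -⟩ := A; exact ha _ _ a
      exact (r2 x (Or.inl (kk_inl.2 this))).trans (SimpleGraph.Adj.reachable A)
    · have : x' ∈ K := by obtain ⟨s, a, -⟩ := A; exact ha _ _ a
      have a : (capG (glue P C) (KK K' K) (Sum.inl ∘ c)).Adj (some ⟨.inr y, Or.inl kk_inr⟩)
        (some ⟨.inl x', Or.inl (kk_inl.2 this)⟩) := A
      exact a.reachable.trans (r2 x' _).symm
    · exact SimpleGraph.Adj.reachable A
  · rintro (_ | ⟨a, h⟩) (_ | ⟨b, h'⟩) A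
    · rfl
    · obtain ⟨i, rfl⟩ := A
      exact r1 _ _
    · obtain ⟨i, rfl⟩ := A
      exact r1 _ _
    · exact SimpleGraph.Adj.reachable A
  · rintro (x | y)
    · exact r1 _ _
    · rfl
  · rintro (_ | ⟨x | y, h⟩)
    · rfl
    · exact r2 x h
    · rfl

theorem band_inl {n : ℕ} (rad : I → ℕ) {r a : ℕ} (h : r + a ≤ n) :
    band (Sum.elim rad fun _ : K' => n + 1) r a = Sum.inl '' band rad r a := by
  ext (x | y)
  · simp [band]
  · simp [band]; omega

end FlatRed

open FlatRed in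
theorem flatred (k2 : K2) (k6 : K6) (np : NonPl) (bas : BasSt) (rep : RepSt) (frd : FrDSt)
    (strip : StripSt) (capin : CapInSt) (fill : FillSt) : FlatRedSt := by
  obtain ⟨hr, rep⟩ := rep
  obtain ⟨hs, strip⟩ := strip
  obtain ⟨h, hb⟩ := TB.both (κ := fun k : ℕ => k)
    (f := fun k => tw hr (k + (tw hs k + 14))) (g := fun k => tw hr k + 2 * tw hs k + 64)
    (((TB.self' _).add (((TB.self' _).tw hs).add (TB.const 14))).tw hr)
    ((((TB.self' _).tw hr).add ((TB.const 2).mul ((TB.self' _).tw hs))).add (TB.const 64))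
  refine ⟨h, fun k t n m I _ P rad ang hn hm cyl _ att cn ind sol => ?_⟩
  obtain ⟨b1, b2⟩ := hb k
  obtain ⟨r, r1, r2, rep⟩ := rep k (tw hs k + 14) t n m I P rad ang (b1.trans hn) (by omega) cyl att
    cn ind sol
  obtain ⟨l, c, K, F, hK, out, ⟨x, y, xy, x1, y1, x2, y2⟩, cb⟩ := frd I P.G P.U n m rad ang r (by
      obtain ⟨D, _, S, w, top, -⟩ := sol
      have : S.PlanarOn Set.univ := by
        by_contra c
        simpa using k2.count S 1 (fun _ => Set.univ) (k2.top_eg S top)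
          (fun i j n => absurd (Subsingleton.elim i j) n) fun _ => c
      simpa [PlOn] using np.plon S _ this) ind (by
      obtain ⟨D, _, S, w, top, -⟩ := sol
      exact fun z hz l => k2.capnb S z ⟨hz, l⟩) cn cyl (by omega) (by omega) (by omega)
  have ha : ∀ v s, P.att v s → v ∈ K := fun v s a => by
    by_contra c
    have := (out v c).1.2
    have := att v s a
    omega
  refine ⟨_, inferInstance, capP P c K, ?_, fun K' _ C => ?_⟩
  · have : Nat.card {v // v ∈ K ∨ v ∈ Set.range c} + 2 ≤ Nat.card I := by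
      have h1 := Set.ncard_add_ncard_compl {v | v ∈ K ∨ v ∈ Set.range c}
      have h2 := Set.ncard_le_ncard (s := {x, y}) (t := {v | v ∈ K ∨ v ∈ Set.range c}ᶜ) (by
        rintro _ (rfl | rfl)
        exacts [fun h => h.elim x1 x2, fun h => h.elim y1 y2])
      rw [Set.ncard_pair xy] at h2
      rw [← Nat.card_coe_set_eq] at h1
      exact le_of_le_of_eq (Nat.add_le_add_left h2 _) h1
    rw [Finite.card_option]
    omega
  rw [(bas.iso k _ _ _ _ (eqv c K K') (eqv_adj P C c K) (eqv_U P C c K)).2]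
  have fr := frame P C F ha
  have e : Sum.inl ⁻¹' KK K' K = K := by ext; simp
  constructor
  · intro pp
    refine ⟨(indep_iff P C F ha ind).1 pp.1, comp_eq P C F ha hK cn ▸ pp.2.1, ?_⟩
    obtain ⟨D, _, S, w, top, val, good⟩ := rep K' C pp
    have gm : ∀ a ≤ tw hs k + 14, S.Good (Sum.inl '' band rad r a) := fun a la => by
      have : Sum.inl '' band rad r a ⊆ (Sum.inl '' band rad r (tw hs k + 14) : Set (I ⊕ K')) :=
        Set.image_mono fun v hv => ⟨by have := hv.1; omega, by have := hv.2; omega⟩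
      exact ⟨fun d u h hu => good.1 d u h (this hu), k2.mono S _ _ this good.2⟩
    have cy := k6.glue P C n m rad ang cyl att
    obtain ⟨w', val', free⟩ := strip k _ D _ _ S w n m _ _ r 10 10 top val cy (by omega) (by omega)
      (by omega) (by rw [band_inl rad (by omega)]; exact gm _ (by omega))
    refine capin k l _ D _ _ S w' _ _ (Sum.inl '' band rad r 11) top val' (gm _ (by omega)) ?_ fr
      ?_ ?_ ?_
    · apply cn_inl
      have := k6.rows P.G n m rad ang (r - 11) (r + 11) (by omega) cyl (by omega) (by omega)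
        (by omega)
      convert this using 1
      ext v
      simp only [band, Set.mem_setOf_eq]
      omega
    · have := cn_inl P C (cb 11 le_rfl (by omega) (by omega))
      convert this using 1
      ext (v | v) <;> simp
    · rintro (v | v) hv
      · obtain ⟨⟨o1, o2⟩, -⟩ := out v (by simpa using hv)
        refine ⟨⟨v, ⟨by omega, by omega⟩, rfl⟩, ?_⟩
        rintro (u | u) a
        · have h1 := cyl.lip _ _ a
          have h2 := cyl.lip _ _ (SimpleGraph.Adj.symm a)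
          exact ⟨u, ⟨by omega, by omega⟩, rfl⟩
        · obtain ⟨s, a, -⟩ := a
          exact absurd (kk_inl.2 (ha _ _ a)) hv
      · exact absurd kk_inr hv
    · rintro d _ _ E ⟨i, rfl⟩ ⟨j, rfl⟩
      exact free d _ _ E (out _ (F.off i)) (out _ (F.off j))
  · intro pp
    refine ⟨(indep_iff P C F ha ind).2 pp.1, (comp_eq P C F ha hK cn).symm ▸ pp.2.1, ?_⟩
    refine fill k l _ I (glue P C) (glueU P C) P.G {z | z ∈ P.U ∧ rad z < n} Sum.inl c (KK K' K)
      Sum.inl_injective (fun _ _ => Iff.rfl) ?_ fr ?_ ?_ ?_ cn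
      (fun u hu v hv => ind u hu.1 v hv.1) sol ?_ pp.2.2
    · rintro (v | v) hv
      exacts [⟨v, rfl⟩, absurd kk_inr hv]
    · rw [e]
      exact ⟨F.cyc, F.ind, fun i h => F.free i h.1, F.off, F.sep, F.two⟩
    · rw [e, nb_kk P C ha]
    · rwa [e]
    · intro v hv hu
      have := (out v (by simpa using hv)).1.2
      exact ⟨hu, by omega⟩

end Pool.Agent.Lib.MP_c1f5fe_lc
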