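import Pool.Agent.Lib.MP_c1f5fe_lc.SpecC

/-! An induced cycle without caps in a ring of connected sets. -/

namespace Pool.Agent.Lib.MP_c1f5fe_lc

open Equiv Function Relation
open Pool.Agent.Lib.MP_50b5c6_lc.Np (NC Pl)

namespace Fr0

variable {V : Type} {G : SimpleGraph V}

theorem tch_symm {A B : Set V} (h : Tch G A B) : Tch G B A := by
  obtain ⟨u, a, v, b, e⟩ := h
  exact ⟨v, b, u, a, e.symm⟩

theorem tch_mono {A B A' B' : Set V} (h : Tch G A B) (a : A ⊆ A') (b : B ⊆ B') : Tch G A' B' := by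
  obtain ⟨u, x, v, y, e⟩ := h
  exact ⟨u, a x, v, b y, e⟩

theorem rt_mono {A B : Set V} (h : A ⊆ B) {x y : V}
    (r : ReflTransGen (fun x y => G.Adj x y ∧ x ∈ A ∧ y ∈ A) x y) :
    ReflTransGen (fun x y => G.Adj x y ∧ x ∈ B ∧ y ∈ B) x y := by
  induction r with
  | refl => exact .refl
  | tail _ e ih => exact ih.tail ⟨e.1, h e.2.1, h e.2.2⟩

theorem rt_symm {A : Set V} {x y : V}
    (r : ReflTransGen (fun x y => G.Adj x y ∧ x ∈ A ∧ y ∈ A) x y) :
    ReflTransGen (fun x y => G.Adj x y ∧ x ∈ A ∧ y ∈ A) y x := by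
  induction r with
  | refl => exact .refl
  | tail _ e ih => exact .head ⟨e.1.symm, e.2.2, e.2.1⟩ ih

theorem exit {Z K : Set V} (h : Cn G Z) {x y : V} (hx : x ∈ Z) (hy : y ∈ Z) (a : x ∈ K)
    (b : y ∉ K) : ∃ u ∈ K, ∃ v ∈ Z, v ∉ K ∧ G.Adj u v := by
  have r := h.2 x hx y hy
  clear hy
  induction r with
  | refl => exact absurd a b
  | @tail p q _ e ih =>
    by_cases c : p ∈ K
    · exact ⟨p, c, q, e.2.2, b, e.1⟩
    · exact ih c

theorem comp {X Z : Set V} (h : Cn G X) (s : X ⊆ Z) :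
    ∃ K, X ⊆ K ∧ K ⊆ Z ∧ Cn G K ∧ ∀ u ∈ K, ∀ v ∈ Z, G.Adj u v → v ∈ K := by
  obtain ⟨x, hx⟩ := h.1
  let K := {v | v ∈ Z ∧ ReflTransGen (fun x y => G.Adj x y ∧ x ∈ Z ∧ y ∈ Z) x v}
  have k : ∀ v ∈ K, ReflTransGen (fun x y => G.Adj x y ∧ x ∈ K ∧ y ∈ K) x v := by
    rintro v ⟨-, r⟩
    induction r with
    | refl => exact .refl
    | tail r e ih => exact ih.tail ⟨e.1, ⟨e.2.1, r⟩, e.2.2, r.tail e⟩
  exact ⟨K, fun v hv => ⟨s hv, rt_mono s (h.2 x hx v hv)⟩, fun v hv => hv.1,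
    ⟨⟨x, s hx, .refl⟩, fun a ha b hb => (rt_symm (k a ha)).trans (k b hb)⟩,
    fun u hu v hv e => ⟨hv, hu.2.tail ⟨e, hu.1, hv⟩⟩⟩

theorem sub_of {Y K Z : Set V} (cl : ∀ u ∈ K, ∀ v ∈ Z, G.Adj u v → v ∈ K) (h : Cn G Y)
    (s : Y ⊆ Z) {x : V} (a : x ∈ Y) (b : x ∈ K) : Y ⊆ K := fun y hy => by
  by_contra c
  obtain ⟨u, hu, v, hv, n, e⟩ := exit h a hy b c
  exact n (cl u hu v (s hv) e)

theorem ext {X Y Z : Set V} (hX : Cn G X) (hZ : Cn G Z) (sX : X ⊆ Z) (sY : Y ⊆ Z)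
    (ne : Y.Nonempty) (d : Disjoint X Y) : ∃ K, X ⊆ K ∧ K ⊆ Z \ Y ∧ Cn G K ∧ Tch G K Y := by
  obtain ⟨K, a, b, c, cl⟩ := comp (Z := Z \ Y) hX fun v hv => ⟨sX hv, Set.disjoint_left.1 d hv⟩
  obtain ⟨x, hx⟩ := hX.1
  obtain ⟨y, hy⟩ := ne
  obtain ⟨u, hu, v, hv, n, e⟩ := exit hZ (sX hx) (sY hy) (a hx) fun z => (b z).2 hy
  exact ⟨K, a, b, c, u, hu, v, by_contra fun z => n (cl u hu v ⟨hv, z⟩ e), e⟩

theorem k5 (np : NonPl) (pl : Pl G.Adj) {S0 S1 S2 S3 S4 : Set V} (c0 : Cn G S0) (c1 : Cn G S1)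
    (c2 : Cn G S2) (c3 : Cn G S3) (c4 : Cn G S4) (d01 : Disjoint S0 S1) (d02 : Disjoint S0 S2)
    (d03 : Disjoint S0 S3) (d04 : Disjoint S0 S4) (d12 : Disjoint S1 S2) (d13 : Disjoint S1 S3)
    (d14 : Disjoint S1 S4) (d23 : Disjoint S2 S3) (d24 : Disjoint S2 S4) (d34 : Disjoint S3 S4)
    (t01 : Tch G S0 S1) (t02 : Tch G S0 S2) (t03 : Tch G S0 S3) (t04 : Tch G S0 S4)
    (t12 : Tch G S1 S2) (t13 : Tch G S1 S3) (t14 : Tch G S1 S4) (t23 : Tch G S2 S3)
    (t24 : Tch G S2 S4) (t34 : Tch G S3 S4) : False := by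
  refine np.k5 G ![S0, S1, S2, S3, S4] (fun i => ?_) (fun i j n => ?_) (fun i j l => ?_) pl
  · fin_cases i <;> assumption
  · fin_cases i <;> fin_cases j <;> first | exact absurd rfl n | assumption | (apply Disjoint.symm; assumption)
  · fin_cases i <;> fin_cases j <;> first | exact absurd l (by decide) | assumption

/-- caps are replaced by their neighbourhoods -/
def hat (G : SimpleGraph V) (U T : Set V) : Set V :=
  {v | ∃ x ∈ T, (x ∉ U ∧ v = x) ∨ (x ∈ U ∧ G.Adj x v)}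

section hat
variable {U T T' : Set V}

theorem hat_free (ind : Indep G U) {v : V} (h : v ∈ hat G U T) : v ∉ U := by
  obtain ⟨x, -, ⟨a, rfl⟩ | ⟨a, b⟩⟩ := h
  · exact a
  · exact fun c => ind x a v c b

theorem hat_sub : hat G U T ⊆ T ∪ nb G T := by
  rintro v ⟨x, hx, ⟨-, rfl⟩ | ⟨-, b⟩⟩
  · exact Or.inl hx
  · by_cases c : v ∈ T
    · exact Or.inl c
    · exact Or.inr ⟨c, x, hx, b⟩

theorem hat_at (hc : ∀ z ∈ T, z ∈ U → Cn G (G.neighborSet z)) {x : V} (hx : x ∈ T) :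
    ∃ v, (x ∉ U ∧ v = x) ∨ (x ∈ U ∧ G.Adj x v) := by
  by_cases c : x ∈ U
  · obtain ⟨v, hv⟩ := (hc x hx c).1
    exact ⟨v, Or.inr ⟨c, hv⟩⟩
  · exact ⟨x, Or.inl ⟨c, rfl⟩⟩

theorem hat_cn (ind : Indep G U) (hc : ∀ z ∈ T, z ∈ U → Cn G (G.neighborSet z)) (h : Cn G T) :
    Cn G (hat G U T) := by
  have nbh : ∀ z ∈ T, z ∈ U → ∀ a b, G.Adj z a → G.Adj z b →
      ReflTransGen (fun x y => G.Adj x y ∧ x ∈ hat G U T ∧ y ∈ hat G U T) a b :=
    fun z hz c a b ha hb => rt_mono (A := G.neighborSet z) (B := hat G U T)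
      (fun v hv => ⟨z, hz, Or.inr ⟨c, hv⟩⟩) ((hc z hz c).2 a ha b hb)
  refine ⟨?_, ?_⟩
  · obtain ⟨x, hx⟩ := h.1
    obtain ⟨v, hv⟩ := hat_at hc hx
    exact ⟨v, x, hx, hv⟩
  rintro a ⟨x, hx, ha⟩ b ⟨y, hy, hb⟩
  have r := h.2 x hx y hy
  clear hy
  induction r generalizing b with
  | refl =>
    rcases ha with ⟨a1, rfl⟩ | ⟨a1, a2⟩ <;> rcases hb with ⟨b1, b2⟩ | ⟨b1, b2⟩
    · exact b2 ▸ .refl
    · exact absurd b1 a1
    · exact absurd a1 b1
    · exact nbh x hx a1 a b a2 b2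
  | @tail p q _ e ih =>
    rcases hb with ⟨b1, rfl⟩ | ⟨b1, b2⟩
    · by_cases c : p ∈ U
      · exact ih b (Or.inr ⟨c, e.1⟩)
      · exact (ih p (Or.inl ⟨c, rfl⟩)).tail
          ⟨e.1, ⟨p, e.2.1, Or.inl ⟨c, rfl⟩⟩, b, e.2.2, Or.inl ⟨b1, rfl⟩⟩
    · have c : p ∉ U := fun c => ind p c q b1 e.1
      exact (ih p (Or.inl ⟨c, rfl⟩)).trans (nbh q e.2.2 b1 p b e.1.symm b2)

theorem hat_tch (ind : Indep G U) (h : Tch G T T') :
    (hat G U T ∩ hat G U T').Nonempty ∨ Tch G (hat G U T) (hat G U T') := by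
  obtain ⟨u, hu, v, hv, e⟩ := h
  by_cases a : u ∈ U
  · exact Or.inl ⟨v, ⟨u, hu, Or.inr ⟨a, e⟩⟩, v, hv, Or.inl ⟨fun c => ind u a v c e, rfl⟩⟩
  by_cases b : v ∈ U
  · exact Or.inl ⟨u, ⟨u, hu, Or.inl ⟨a, rfl⟩⟩, v, hv, Or.inr ⟨b, e.symm⟩⟩
  exact Or.inr ⟨u, ⟨u, hu, Or.inl ⟨a, rfl⟩⟩, v, ⟨v, hv, Or.inl ⟨b, rfl⟩⟩, e⟩

end hat

/-- a walk whose labels go up by at most one -/
structure Op (G : SimpleGraph V) (T : ℕ → Set V) (l : ℕ) (c : ℕ → V) (lb : ℕ → ℕ) : Prop where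
  pos : 0 < l
  mem : ∀ n < l, c n ∈ T (lb n) ∧ lb n < 4
  zero : lb 0 = 0
  step : ∀ n, n + 1 < l → G.Adj (c n) (c (n + 1)) ∧ lb n ≤ lb (n + 1) ∧ lb (n + 1) ≤ lb n + 1

variable {T : ℕ → Set V} {l : ℕ} {c : ℕ → V} {lb : ℕ → ℕ}

theorem Op.mono (h : Op G T l c lb) {a b : ℕ} (ab : a ≤ b) (hb : b < l) : lb a ≤ lb b := by
  induction b, ab using Nat.le_induction with
  | base => exact le_rfl
  | succ b _ ih => exact (ih (by omega)).trans (h.step b hb).2.1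

theorem Op.jump (h : Op G T l c lb) {i b : ℕ} (hb : b < l) (hi : i < lb b) :
    ∃ n, n + 1 < l ∧ lb n = i ∧ lb (n + 1) = i + 1 := by
  induction b with
  | zero => have := h.zero; omega
  | succ b ih =>
    by_cases c : i < lb b
    · exact ih (by omega) c
    · have := h.step b hb
      exact ⟨b, hb, by omega, by omega⟩

theorem Op.snoc (h : Op G T l c lb) {v : V} {i : ℕ} (hv : v ∈ T i) (hi : i < 4)
    (e : G.Adj (c (l - 1)) v) (a : lb (l - 1) ≤ i) (b : i ≤ lb (l - 1) + 1) :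
    Op G T (l + 1) (update c l v) (update lb l i) := by
  have p := h.pos
  refine ⟨by omega, fun n hn => ?_, ?_, fun n hn => ?_⟩
  · by_cases x : n = l
    · subst x; simp [hv, hi]
    · rw [update_of_ne x, update_of_ne x]; exact h.mem n (by omega)
  · rw [update_of_ne (by omega)]; exact h.zero
  · rw [update_of_ne (show n ≠ l by omega), update_of_ne (show n ≠ l by omega)]
    by_cases x : n + 1 = l
    · have y : l - 1 = n := by omega
      rw [x, update_self, update_self, ← y]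
      exact ⟨e, a, b⟩
    · rw [update_of_ne x, update_of_ne x]; exact h.step n (by omega)

theorem Op.cut (h : Op G T l c lb) {a d : ℕ} (ha : a + d < l)
    (e : a + d + 1 < l → G.Adj (c a) (c (a + d + 1)) ∧ lb (a + d + 1) ≤ lb a + 1) :
    Op G T (l - d) (fun n => if n ≤ a then c n else c (n + d))
      fun n => if n ≤ a then lb n else lb (n + d) := by
  refine ⟨by omega, fun n hn => ?_, by simpa using h.zero, fun n hn => ?_⟩
  · split_ifs
    · exact h.mem n (by omega)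
    · exact h.mem _ (by omega)
  · split_ifs with x y y
    · exact h.step n (by omega)
    · obtain rfl : n = a := by omega
      rw [show n + 1 + d = n + d + 1 by omega]
      exact ⟨(e (by omega)).1, h.mono (by omega) (by omega), (e (by omega)).2⟩
    · omega
    · rw [show n + 1 + d = n + d + 1 by omega]
      exact h.step _ (by omega)

theorem Op.mid (h : Op G T l c lb) {a b : ℕ} (ab : a ≤ b) (hb : b < l) (z : lb a = 0) :
    Op G T (b - a + 1) (fun n => c (a + n)) fun n => lb (a + n) :=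
  ⟨by omega, fun n hn => h.mem _ (by omega), z, fun n hn => h.step (a + n) (by omega)⟩

def arc (l : ℕ) (c : ℕ → V) (lb : ℕ → ℕ) (i j : ℕ) : Set V :=
  {v | ∃ n < l, i ≤ lb n ∧ lb n ≤ j ∧ c n = v}

theorem Op.arc_cn (h : Op G T l c lb) {i j : ℕ} (ne : (arc l c lb i j).Nonempty) :
    Cn G (arc l c lb i j) := by
  have k : ∀ a b, a ≤ b → b < l → i ≤ lb a → lb b ≤ j → ReflTransGen
      (fun x y => G.Adj x y ∧ x ∈ arc l c lb i j ∧ y ∈ arc l c lb i j) (c a) (c b) := by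
    intro a b ab
    induction b, ab using Nat.le_induction with
    | base => exact fun _ _ _ => .refl
    | succ b ab ih =>
      intro hb x y
      have s := h.step b hb
      have m := h.mono ab (by omega)
      exact (ih (by omega) x (by omega)).tail
        ⟨s.1, ⟨b, by omega, by omega, by omega, rfl⟩, b + 1, hb, by omega, y, rfl⟩
  refine ⟨ne, ?_⟩
  rintro _ ⟨a, a1, a2, a3, rfl⟩ _ ⟨b, b1, b2, b3, rfl⟩
  rcases le_total a b with x | x
  · exact k a b x b1 a2 b3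
  · exact rt_symm (k b a x a1 b2 a3)

theorem cycle (cn : ∀ i < 4, Cn G (T i)) (dj : ∀ i < 4, ∀ j < 4, i ≠ j → Disjoint (T i) (T j))
    (tc : ∀ i < 4, Tch G (T i) (T ((i + 1) % 4)))
    (far : ∀ i < 2, ¬Tch G (T i) (T (i + 2))) : ∃ l c lb, Op G T l c lb ∧ lb (l - 1) = 3 ∧
      G.Adj (c (l - 1)) (c 0) ∧ (∀ a b, a < b → b < l → c a ≠ c b) ∧
      ∀ a b, a < b → b < l → G.Adj (c a) (c b) → b = a + 1 ∨ (a = 0 ∧ b + 1 = l) := by
  classical
  obtain ⟨y, hy, x, hx, e⟩ := tc 3 (by omega)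
  let Re : ℕ → V → Prop := fun i v => ∃ l c lb, Op G T l c lb ∧ c 0 = x ∧ c (l - 1) = v ∧ lb (l - 1) = i
  have st : ∀ i j u v, Re i u → v ∈ T j → j < 4 → G.Adj u v → i ≤ j → j ≤ i + 1 → Re j v := by
    rintro i j u v ⟨l, c, lb, h, rfl, rfl, rfl⟩ hv hj e a b
    exact ⟨_, _, _, h.snoc hv hj e a b, update_of_ne h.pos.ne .., by simp, by simp⟩
  have all : ∀ i < 4, ∀ u ∈ T i, Re i u → ∀ v ∈ T i, Re i v := by
    intro i hi u hu r v hv
    by_contra n
    obtain ⟨p, hp, q, hq, n', e⟩ := exit (K := {v | Re i v}) (cn i hi) hu hv r n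
    exact n' (st i i p q hp hq hi e le_rfl (by omega))
  have nx : ∀ i < 3, (∀ v ∈ T i, Re i v) → ∀ v ∈ T (i + 1), Re (i + 1) v := by
    intro i hi h
    obtain ⟨p, hp, q, hq, e⟩ := tc i (by omega)
    rw [Nat.mod_eq_of_lt (by omega)] at hq
    exact all _ (by omega) q hq (st i _ p q (h p hp) hq (by omega) e (by omega) le_rfl)
  have r0 : Re 0 x := ⟨1, fun _ => x, fun _ => 0,
    ⟨one_pos, fun _ _ => ⟨hx, by omega⟩, rfl, fun n hn => by omega⟩, rfl, rfl, rfl⟩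
  have ex : ∃ l, ∃ c lb, Op G T l c lb ∧ lb (l - 1) = 3 ∧ G.Adj (c (l - 1)) (c 0) := by
    obtain ⟨l, c, lb, h, a, b, d⟩ := nx 2 (by omega) (nx 1 (by omega) (nx 0 (by omega)
      (all 0 (by omega) x hx r0))) y hy
    exact ⟨l, c, lb, h, d, by rw [a, b]; exact e⟩
  obtain ⟨c, lb, h, h3, hc⟩ := Nat.find_spec ex
  have mn : ∀ l' c' lb', Op G T l' c' lb' → lb' (l' - 1) = 3 → G.Adj (c' (l' - 1)) (c' 0) →
      Nat.find ex ≤ l' := fun l' c' lb' a b d => Nat.find_min' ex ⟨c', lb', a, b, d⟩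
  generalize Nat.find ex = l at *
  refine ⟨l, c, lb, h, h3, hc, fun a b ab hb q => ?_, fun a b ab hb q => ?_⟩
  · have s : lb a = lb b := by_contra fun n => Set.disjoint_left.1
      (dj _ (h.mem a (by omega)).2 _ (h.mem b hb).2 n) (h.mem a (by omega)).1 (q ▸ (h.mem b hb).1)
    have z : a + (b - a) = b := by omega
    have := mn _ _ _ (h.cut (a := a) (d := b - a) (by omega) fun k => by
      rw [z] at k ⊢
      rw [q, s]
      exact ⟨(h.step b k).1, (h.step b k).2.2⟩) ?_ ?_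
    · omega
    · split_ifs with k
      · rw [show l - (b - a) - 1 = a by omega, s, show b = l - 1 by omega, h3]
      · rw [show l - (b - a) - 1 + (b - a) = l - 1 by omega, h3]
    · rw [if_pos (Nat.zero_le a)]
      split_ifs with k
      · rw [show l - (b - a) - 1 = a by omega, q, show b = l - 1 by omega]; exact hc
      · rw [show l - (b - a) - 1 + (b - a) = l - 1 by omega]; exact hc
  · by_contra n
    have m := h.mono ab.le hb
    have ma := h.mem a (by omega)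
    have mb := h.mem b hb
    by_cases s : lb b ≤ lb a + 1
    · have z : a + (b - a - 1) + 1 = b := by omega
      have := mn _ _ _ (h.cut (a := a) (d := b - a - 1) (by omega) fun _ => by
        rw [z]; exact ⟨q, s⟩) ?_ ?_
      · omega
      · rw [if_neg (by omega), show l - (b - a - 1) - 1 + (b - a - 1) = l - 1 by omega, h3]
      · rw [if_pos (Nat.zero_le a), if_neg (by omega),
          show l - (b - a - 1) - 1 + (b - a - 1) = l - 1 by omega]
        exact hc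
    by_cases s2 : lb b = lb a + 2
    · exact far (lb a) (by omega) ⟨_, ma.1, _, s2 ▸ mb.1, q⟩
    have := mn _ _ _ (h.mid ab.le hb (by omega)) ?_ ?_
    · omega
    · rw [show a + (b - a + 1 - 1) = b by omega]; omega
    · rw [show a + (b - a + 1 - 1) = b by omega]; exact q.symm

/-- four sets in a ring with four rungs from `A` to `B` -/
structure Ring (G : SimpleGraph V) (T R : ℕ → Set V) (A B : Set V) : Prop where
  cn : ∀ i < 4, Cn G (T i)
  dj : ∀ i < 4, ∀ j < 4, i ≠ j → Disjoint (T i) (T j) ∧ Disjoint (R i) (T j) ∧ Disjoint (R i) (R j)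
  tc : ∀ i < 4, Tch G (T i) (T ((i + 1) % 4))
  cA : Cn G A
  cB : Cn G B
  ab : Disjoint A B
  dA : ∀ i < 4, Disjoint A (T i) ∧ Disjoint A (R i)
  dB : ∀ i < 4, Disjoint B (T i) ∧ Disjoint B (R i)
  cR : ∀ i < 4, Cn G (R i) ∧ Cn G (T i ∪ R i)
  tA : ∀ i < 4, Tch G A (R i)
  tB : ∀ i < 4, Tch G B (R i)

variable {R : ℕ → Set V} {A B : Set V}

theorem Ring.symm (h : Ring G T R A B) : Ring G T R B A :=
  ⟨h.cn, h.dj, h.tc, h.cB, h.cA, h.ab.symm, h.dB, h.dA, h.cR, h.tB, h.tA⟩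

theorem Op.arc_sub (h : Op G T l c lb) (i : ℕ) : arc l c lb i i ⊆ T i := by
  rintro _ ⟨n, a, b, d, rfl⟩
  rw [← show lb n = i by omega]
  exact (h.mem n a).1

theorem Op.arc_tch (h : Op G T l c lb) (h3 : lb (l - 1) = 3) (hc : G.Adj (c (l - 1)) (c 0)) {i : ℕ}
    (hi : i < 4) : Tch G (arc l c lb i i) (arc l c lb ((i + 1) % 4) ((i + 1) % 4)) := by
  have p := h.pos
  by_cases x : i = 3
  · subst x
    exact ⟨_, ⟨l - 1, by omega, h3.ge, h3.le, rfl⟩, _, ⟨0, p, h.zero.ge, h.zero.le, rfl⟩, hc⟩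
  · obtain ⟨n, a, b, d⟩ := h.jump (i := i) (b := l - 1) (by omega) (by omega)
    exact ⟨_, ⟨n, by omega, b.ge, b.le, rfl⟩, _, ⟨n + 1, a, by omega, by omega, rfl⟩, (h.step n a).1⟩

theorem rung (np : NonPl) (k6 : K6) (pl : Pl G.Adj) (r : Ring G T R A B) (h : Op G T l c lb)
    (h3 : lb (l - 1) = 3) (hc : G.Adj (c (l - 1)) (c 0)) {i : ℕ} (hi : i < 4) :
    ∃ X, A ⊆ X ∧ X ⊆ A ∪ (R i \ arc l c lb 0 3) ∧ Cn G X ∧ ¬Tch G X B ∧
      (∀ u ∈ X, ∀ v ∈ R i \ arc l c lb 0 3, G.Adj u v → v ∈ X) ∧ Tch G X (arc l c lb i i) := by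
  obtain ⟨X, a, b, cx, cl⟩ := comp (Z := A ∪ (R i \ arc l c lb 0 3)) r.cA Set.subset_union_left
  have dX : ∀ j < 4, j ≠ i → Disjoint X (T j ∪ R j) := fun j hj n =>
    (Set.disjoint_union_left.2 ⟨Set.disjoint_union_right.2 (r.dA j hj),
      (Set.disjoint_union_right.2 (r.dj i hi j hj n.symm).2).mono_left Set.sdiff_subset⟩).mono_left b
  have dd : ∀ j < 4, ∀ j' < 4, j ≠ j' → Disjoint (T j ∪ R j) (T j' ∪ R j') := fun j hj j' hj' n =>
    Set.disjoint_union_left.2 ⟨Set.disjoint_union_right.2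
      ⟨(r.dj j hj j' hj' n).1, (r.dj j' hj' j hj n.symm).2.1.symm⟩,
      Set.disjoint_union_right.2 (r.dj j hj j' hj' n).2⟩
  have da : ∀ j < 4, j ≠ i → Disjoint (T j ∪ R j) (arc l c lb i i) := fun j hj n =>
    (Set.disjoint_union_left.2 ⟨(r.dj j hj i hi n).1, (r.dj j hj i hi n).2.1⟩).mono_right
      (h.arc_sub i)
  have t1 := h.arc_tch h3 hc hi
  have t2 := h.arc_tch h3 hc (i := (i + 3) % 4) (by omega)
  rw [show ((i + 3) % 4 + 1) % 4 = i by omega] at t2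
  have nt : ¬Tch G X B := fun t => by
    have u1 := r.tc ((i + 1) % 4) (by omega)
    have u2 := r.tc ((i + 2) % 4) (by omega)
    rw [show ((i + 1) % 4 + 1) % 4 = (i + 2) % 4 by omega] at u1
    rw [show ((i + 2) % 4 + 1) % 4 = (i + 3) % 4 by omega] at u2
    have l1 : (i + 1) % 4 < 4 := by omega
    have l2 : (i + 2) % 4 < 4 := by omega
    have l3 : (i + 3) % 4 < 4 := by omega
    have sl : ∀ {P Q : Set V}, P ⊆ P ∪ Q := fun {_ _} => Set.subset_union_left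
    have sr : ∀ {P Q : Set V}, Q ⊆ P ∪ Q := fun {_ _} => Set.subset_union_right
    refine k5 np pl cx r.cB (r.cR _ l1).2 (r.cR _ l2).2
      (k6.union G _ _ (r.cR _ l3).2 (h.arc_cn (i := i) (j := i) ?_)
        (Or.inr (tch_mono t2 ((h.arc_sub _).trans sl) le_rfl)))
      ?_ (dX _ l1 (by omega)) (dX _ l2 (by omega))
      (Set.disjoint_union_right.2 ⟨dX _ l3 (by omega), ?_⟩)
      (Set.disjoint_union_right.2 (r.dB _ l1)) (Set.disjoint_union_right.2 (r.dB _ l2))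
      (Set.disjoint_union_right.2 ⟨Set.disjoint_union_right.2 (r.dB _ l3),
        (r.dB i hi).1.mono_right (h.arc_sub i)⟩)
      (dd _ l1 _ l2 (by omega))
      (Set.disjoint_union_right.2 ⟨dd _ l1 _ l3 (by omega), da _ l1 (by omega)⟩)
      (Set.disjoint_union_right.2 ⟨dd _ l2 _ l3 (by omega), da _ l2 (by omega)⟩)
      t (tch_mono (r.tA _ l1) a sr) (tch_mono (r.tA _ l2) a sr)
      (tch_mono (r.tA _ l3) a (sr.trans sl)) (tch_mono (r.tB _ l1) le_rfl sr)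
      (tch_mono (r.tB _ l2) le_rfl sr) (tch_mono (r.tB _ l3) le_rfl (sr.trans sl))
      (tch_mono u1 sl sl) (tch_mono (tch_symm t1) ((h.arc_sub _).trans sl) sr)
      (tch_mono u2 sl (sl.trans sl))
    · obtain ⟨u, hu, -⟩ := t1
      exact ⟨u, hu⟩
    · exact (Set.disjoint_union_left.2
        ⟨r.ab, (r.dB i hi).2.symm.mono_left Set.sdiff_subset⟩).mono_left b
    · refine Set.disjoint_left.2 fun v hv hv' => (b hv).elim
        (fun z => Set.disjoint_left.1 (r.dA i hi).1 z (h.arc_sub i hv')) fun z => z.2 ?_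
      obtain ⟨n, x1, x2, x3, x4⟩ := hv'
      exact ⟨n, x1, by omega, by omega, x4⟩
  have hit : ∀ u ∈ X, ∀ v ∈ R i, G.Adj u v → v ∉ X → Tch G X (arc l c lb i i) := by
    intro u hu v hv e n
    obtain ⟨m, x1, -, -, rfl⟩ : v ∈ arc l c lb 0 3 :=
      by_contra fun z => n (cl u hu v (Or.inr ⟨hv, z⟩) e)
    have : lb m = i := by_contra fun z => Set.disjoint_left.1
      (r.dj i hi _ (h.mem m x1).2 (Ne.symm z)).2.1 hv (h.mem m x1).1
    exact ⟨u, hu, _, ⟨m, x1, this.ge, this.le, rfl⟩, e⟩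
  refine ⟨X, a, b, cx, nt, fun u hu v hv => cl u hu v (Or.inr hv), ?_⟩
  obtain ⟨p, hp, q, hq, e⟩ := r.tA i hi
  obtain ⟨p', hp', q', hq', e'⟩ := r.tB i hi
  by_cases x : q ∈ X
  · obtain ⟨u, hu, v, hv, n, e⟩ := exit (r.cR i hi).1 hq hq' x fun z => nt ⟨q', z, p', hp', e'.symm⟩
    exact hit u hu v hv e n
  · exact hit p (a hp) q hq e x

theorem core (np : NonPl) (k6 : K6) (pl : Pl G.Adj) (r : Ring G T R A B) (h : Op G T l c lb)
    (h3 : lb (l - 1) = 3) (hc : G.Adj (c (l - 1)) (c 0)) :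
    ∃ K, Cn G K ∧ A ⊆ K ∧ Disjoint K B ∧ Disjoint K (arc l c lb 0 3) ∧ nb G K ⊆ arc l c lb 0 3 ∧
      Tch G K (arc l c lb 1 1) ∧ Tch G K (arc l c lb 2 2) := by
  have hX := fun i (hi : i < 4) => rung np k6 pl r h h3 hc hi
  have hY := fun i (hi : i < 4) => rung np k6 pl r.symm h h3 hc hi
  choose! X x1 x2 x3 x4 x5 x6 using hX
  choose! Y y1 y2 y3 _ _ y6 using hY
  have off : ∀ {P : Set V}, (∀ i < 4, Disjoint P (T i) ∧ Disjoint P (R i)) →
      P ⊆ (arc l c lb 0 3)ᶜ := by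
    rintro P d _ hv ⟨n, a, -, -, rfl⟩
    exact Set.disjoint_left.1 (d _ (h.mem n a).2).1 hv (h.mem n a).1
  obtain ⟨K, k1, k2, k3, k4⟩ := comp r.cA (off r.dA)
  obtain ⟨a, ha⟩ := r.cA.1
  have xK : ∀ i < 4, X i ⊆ K := fun i hi => sub_of k4 (x3 i hi)
    (fun v hv => (x2 i hi hv).elim (fun z => off r.dA z) fun z => z.2) (x1 i hi ha) (k1 ha)
  refine ⟨K, k3, k1, Set.disjoint_left.2 fun b hb hb' => ?_, Set.disjoint_left.2 k2,
    fun v hv => by_contra fun z => ?_, tch_mono (x6 1 (by omega)) (xK 1 (by omega)) le_rfl,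
    tch_mono (x6 2 (by omega)) (xK 2 (by omega)) le_rfl⟩
  swap
  · obtain ⟨n, u, hu, e⟩ := hv
    exact n (k4 u hu v z e)
  have yK : ∀ i < 4, Y i ⊆ K := fun i hi => sub_of k4 (y3 i hi)
    (fun v hv => (y2 i hi hv).elim (fun z => off r.dB z) fun z => z.2) (y1 i hi hb') hb
  have xy : ∀ i < 4, ∀ j < 4, Disjoint (X i) (Y j) := by
    intro i hi j hj
    have nb : ∀ v ∈ X i, v ∉ B := fun v hv z => (x2 i hi hv).elim
      (fun w => Set.disjoint_left.1 r.ab w z) fun w => Set.disjoint_left.1 (r.dB i hi).2 z w.1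
    refine Set.disjoint_left.2 fun v hv hv' => ?_
    by_cases e : i = j
    · subst e
      obtain ⟨p, hp, q, hq, n, e⟩ := exit (y3 i hi) hv' (y1 i hi hb') hv fun z => nb b z hb'
      exact (y2 i hi hq).elim (fun z => x4 i hi ⟨p, hp, q, z, e⟩) fun z => n (x5 i hi p hp q z e)
    · rcases y2 j hj hv' with z | z
      · exact nb v hv z
      · exact (x2 i hi hv).elim (fun w => Set.disjoint_left.1 (r.dA j hj).2 w z.1)
          fun w => Set.disjoint_left.1 (r.dj i hi j hj e).2.2 w.1 z.1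
  have un : ∀ {Z : ℕ → Set V} {p : V}, (∀ i < 4, Cn G (Z i)) → (∀ i < 4, p ∈ Z i) →
      Cn G (Z 1 ∪ Z 2 ∪ Z 3) := fun cz m =>
    k6.union G _ _ (k6.union G _ _ (cz 1 (by omega)) (cz 2 (by omega))
      (Or.inl ⟨_, m 1 (by omega), m 2 (by omega)⟩)) (cz 3 (by omega))
      (Or.inl ⟨_, Or.inl (m 1 (by omega)), m 3 (by omega)⟩)
  have cY := un y3 fun i hi => y1 i hi hb'
  have sY : Y 1 ∪ Y 2 ∪ Y 3 ⊆ K := Set.union_subset
    (Set.union_subset (yK 1 (by omega)) (yK 2 (by omega))) (yK 3 (by omega))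
  obtain ⟨W, w1, w2, w3, w4⟩ := ext (un x3 fun i hi => x1 i hi ha) k3
    (Set.union_subset (Set.union_subset (xK 1 (by omega)) (xK 2 (by omega))) (xK 3 (by omega)))
    sY cY.1 (by simp only [Set.disjoint_union_left, Set.disjoint_union_right]; simp [xy])
  have am : ∀ {i j i' j'}, i' ≤ i → j ≤ j' → arc l c lb i j ⊆ arc l c lb i' j' := by
    rintro i j i' j' p q _ ⟨n, a, b, d, rfl⟩
    exact ⟨n, a, by omega, by omega, rfl⟩
  have dK : ∀ {P : Set V} {i j}, P ⊆ K → j ≤ 3 → Disjoint P (arc l c lb i j) := fun s q =>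
    Set.disjoint_left.2 fun v hv z => k2 (s hv) (am (Nat.zero_le _) q z)
  have wK : W ⊆ K := fun v hv => (w2 hv).1
  have ad : ∀ {i j i' j'}, j < i' → Disjoint (arc l c lb i j) (arc l c lb i' j') := by
    intro i j i' j' q
    refine Set.disjoint_left.2 ?_
    rintro _ ⟨n, a, b, d, rfl⟩ ⟨m, a', b', d', e⟩
    exact Set.disjoint_left.1 (r.dj _ (h.mem n a).2 _ (h.mem m a').2 (by omega)).1 (h.mem n a).1
      (e ▸ (h.mem m a').1)
  have t1 := h.arc_tch h3 hc (i := 1) (by omega)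
  have t2 := h.arc_tch h3 hc (i := 2) (by omega)
  have t3 := h.arc_tch h3 hc (i := 3) (by omega)
  have ne : ∀ {P Q : Set V}, Tch G P Q → P.Nonempty := fun ⟨u, hu, _⟩ => ⟨u, hu⟩
  exact k5 np pl w3 cY (h.arc_cn (i := 0) (j := 1) ((ne t1).mono (am (by omega) le_rfl)))
    (h.arc_cn (ne t2)) (h.arc_cn (ne t3)) (Set.disjoint_left.2 fun v hv => (w2 hv).2)
    (dK wK (by omega)) (dK wK (by omega)) (dK wK le_rfl) (dK sY (by omega)) (dK sY (by omega))
    (dK sY le_rfl) (ad (by omega)) (ad (by omega)) (ad (by omega)) w4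
    (tch_mono (x6 1 (by omega)) (fun v z => w1 (Or.inl (Or.inl z))) (am (by omega) le_rfl))
    (tch_mono (x6 2 (by omega)) (fun v z => w1 (Or.inl (Or.inr z))) le_rfl)
    (tch_mono (x6 3 (by omega)) (fun v z => w1 (Or.inr z)) le_rfl)
    (tch_mono (y6 1 (by omega)) (fun v z => Or.inl (Or.inl z)) (am (by omega) le_rfl))
    (tch_mono (y6 2 (by omega)) (fun v z => Or.inl (Or.inr z)) le_rfl)
    (tch_mono (y6 3 (by omega)) (fun v z => Or.inr z) le_rfl)
    (tch_mono t1 (am (by omega) le_rfl) le_rfl)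
    (tch_mono (tch_symm t3) (am le_rfl (by omega)) le_rfl) t2

def ev (i : ℕ) : ZMod 8 := ((2 * i : ℕ) : ZMod 8)

def Far (i j : ZMod 8) : Prop := j ≠ i ∧ j ≠ i + 1 ∧ i ≠ j + 1

theorem idx1 : ∀ i < 4, ev i ∈ ({0, 2, 4, 6} : Set (ZMod 8)) ∧ ev i + 1 + 1 = ev ((i + 1) % 4) := by
  simp only [Set.mem_insert_iff, Set.mem_singleton_iff]
  decide

theorem idx2 : ∀ i < 4, ∀ j < 4, i ≠ j → Far (ev i) (ev j) ∧ Far (ev i + 1) (ev j + 1) ∧
    (ev i = ev j + 1 + 1 ∨ Far (ev i) (ev j + 1)) ∧ ev j ≠ ev i ∧ ev j + 1 ≠ ev i := by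
  unfold Far
  intro i hi j hj
  interval_cases i <;> interval_cases j <;> decide

theorem idx3 : ∀ i < 2, Far (ev i) (ev (i + 2)) ∧ Far (ev i) (ev (i + 2) + 1) ∧
    Far (ev i + 1) (ev (i + 2)) ∧ Far (ev i + 1) (ev (i + 2) + 1) := by
  unfold Far
  decide

end Fr0

open Fr0 in
theorem fr0 (np : NonPl) (k6 : K6) : Fr0St := by
  intro V _ G U T A B R pl ind hc hT hf cA cB ab dT hR
  let H : ZMod 8 → Set V := fun i => hat G U (T i)
  have cH : ∀ i, Cn G (H i) := fun i => hat_cn ind (hc i) (hT i).1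
  have fH : ∀ i j, Far i j → Disjoint (H i) (H j) ∧ ¬Tch G (H i) (H j) := fun i j f =>
    ⟨(hf i j f.1 f.2.1 f.2.2).1.mono hat_sub hat_sub,
      fun t => (hf i j f.1 f.2.1 f.2.2).2 (tch_mono t hat_sub hat_sub)⟩
  have ex : ∀ i < 4, ∃ K, H (ev i) ⊆ K ∧ K ⊆ (H (ev i) ∪ H (ev i + 1) ∪ H (ev i + 1 + 1)) \
      H (ev i + 1 + 1) ∧ Cn G K ∧ Tch G K (H (ev i + 1 + 1)) := by
    intro i hi
    refine ext (cH _) (k6.union G _ _ (k6.union G _ _ (cH _) (cH _) (hat_tch ind (hT _).2)) (cH _)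
      ((hat_tch ind (hT (ev i + 1)).2).imp (fun z => z.mono
        (Set.inter_subset_inter_left _ Set.subset_union_right))
        fun z => tch_mono z Set.subset_union_right le_rfl))
      (Set.subset_union_left.trans Set.subset_union_left) Set.subset_union_right (cH _).1 ?_
    rw [(idx1 i hi).2]
    exact (fH _ _ (idx2 i hi _ (by omega) (by omega)).1).1
  choose! Q q1 q2 q3 q4 using ex
  have q5 : ∀ i < 4, ∀ v ∈ Q i, v ∈ H (ev i) ∨ v ∈ H (ev i + 1) := fun i hi v hv =>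
    (q2 i hi hv).1.resolve_right (q2 i hi hv).2
  have dQ : ∀ {P : Set V} {i}, i < 4 → Disjoint P (T (ev i) ∪ nb G (T (ev i))) →
      Disjoint P (T (ev i + 1) ∪ nb G (T (ev i + 1))) → Disjoint P (Q i) := fun hi a b =>
    Set.disjoint_left.2 fun v hv z => (q5 _ hi v z).elim
      (fun w => Set.disjoint_left.1 a hv (hat_sub w)) fun w => Set.disjoint_left.1 b hv (hat_sub w)
  have hR' := fun i (hi : i < 4) => hR (ev i) (idx1 i hi).1
  have ring : Ring G Q (fun i => R (ev i)) A B := by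
    refine ⟨q3, fun i hi j hj n => ⟨Set.disjoint_left.2 fun v a b => ?_, ?_, ?_⟩, fun i hi => ?_,
      cA, cB, ab, fun i hi => ⟨?_, ?_⟩, fun i hi => ⟨?_, ?_⟩, fun i hi => ⟨(hR' i hi).1, ?_⟩,
      fun i hi => (hR' i hi).2.2.1, fun i hi => (hR' i hi).2.2.2.1⟩
    · obtain ⟨f1, f2, f3, -⟩ := idx2 i hi j hj n
      obtain ⟨-, -, f4, -⟩ := idx2 j hj i hi n.symm
      rcases q5 i hi v a with x | x <;> rcases q5 j hj v b with y | y
      · exact Set.disjoint_left.1 (fH _ _ f1).1 x y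
      · exact f3.elim (fun e => (q2 j hj b).2 (e ▸ x)) fun f => Set.disjoint_left.1 (fH _ _ f).1 x y
      · exact f4.elim (fun e => (q2 i hi a).2 (e ▸ y)) fun f => Set.disjoint_left.1 (fH _ _ f).1 y x
      · exact Set.disjoint_left.1 (fH _ _ f2).1 x y
    · obtain ⟨-, -, -, f1, f2⟩ := idx2 i hi j hj n
      exact dQ hj ((hR' i hi).2.2.2.2.2.1 _ f1) ((hR' i hi).2.2.2.2.2.1 _ f2)
    · exact (hR' i hi).2.2.2.2.2.2 _ (idx1 j hj).1 (idx2 i hi j hj n).2.2.2.1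
    · have := q4 i hi
      rw [(idx1 i hi).2] at this
      exact tch_mono this le_rfl (q1 _ (by omega))
    · exact dQ hi ((dT _).mono_left Set.subset_union_left) ((dT _).mono_left Set.subset_union_left)
    · exact (hR' i hi).2.1.mono_left Set.subset_union_left
    · exact dQ hi ((dT _).mono_left Set.subset_union_right) ((dT _).mono_left Set.subset_union_right)
    · exact (hR' i hi).2.1.mono_left Set.subset_union_right
    · obtain ⟨x, x1, x2⟩ := (hR' i hi).2.2.2.2.1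
      obtain ⟨v, hv⟩ := hat_at (hc _) x2
      refine k6.union G _ _ (q3 i hi) (hR' i hi).1 ?_
      have m : v ∈ Q i := q1 i hi ⟨x, x2, hv⟩
      rcases hv with ⟨-, rfl⟩ | ⟨-, e⟩
      · exact Or.inl ⟨v, m, x1⟩
      · exact Or.inr ⟨v, m, x, x1, e.symm⟩
  obtain ⟨l, c, lb, h, h3, hcl, inj, chord⟩ := cycle q3 (fun i hi j hj n => (ring.dj i hi j hj n).1)
    ring.tc fun i hi => by
      rintro ⟨u, hu, v, hv, e⟩
      obtain ⟨f1, f2, f3, f4⟩ := idx3 i hi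
      rcases q5 i (by omega) u hu with x | x <;> rcases q5 _ (by omega) v hv with y | y
      exacts [(fH _ _ f1).2 ⟨u, x, v, y, e⟩, (fH _ _ f2).2 ⟨u, x, v, y, e⟩,
        (fH _ _ f3).2 ⟨u, x, v, y, e⟩, (fH _ _ f4).2 ⟨u, x, v, y, e⟩]
  obtain ⟨K, k1, k2, k3, k4, k5, ⟨u, hu, _, ⟨a, a1, a2, a3, rfl⟩, e⟩,
    u', hu', _, ⟨b, b1, b2, b3, rfl⟩, e'⟩ := core np k6 pl ring h h3 hcl
  have ab' : a ≠ b := by rintro rfl; omega
  have l3 : 3 ≤ l := by
    have z := h.zero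
    have : a ≠ 0 := by rintro rfl; omega
    have : b ≠ 0 := by rintro rfl; omega
    omega
  have : NeZero l := ⟨by omega⟩
  have : Fact (1 < l) := ⟨by omega⟩
  have vs : ∀ x : ZMod l, (x + 1).val = (x.val + 1) % l := fun x => by
    rw [ZMod.val_add, ZMod.val_one]
  have mem : ∀ x : ZMod l, c x.val ∈ arc l c lb 0 3 := fun x =>
    ⟨_, x.val_lt, Nat.zero_le _, by have := (h.mem _ x.val_lt).2; omega, rfl⟩
  have mH : ∀ x : ZMod l, ∃ i, c x.val ∈ H i := fun x =>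
    (q5 _ (h.mem _ x.val_lt).2 _ (h.mem _ x.val_lt).1).elim (fun z => ⟨_, z⟩) fun z => ⟨_, z⟩
  have ch : ∀ x y : ZMod l, x.val < y.val → G.Adj (c x.val) (c y.val) → y = x + 1 ∨ x = y + 1 := by
    intro x y q e
    have := y.val_lt
    rcases chord _ _ q this e with z | ⟨z, z'⟩
    · exact Or.inl (ZMod.val_injective l (by rw [vs, ← z, Nat.mod_eq_of_lt this]))
    · exact Or.inr (ZMod.val_injective l (by rw [vs, z', Nat.mod_self, z]))
  refine ⟨l, fun x => c x.val, K, ⟨⟨l3, fun x y q => ?_, fun x => ?_⟩, fun x y q => ?_,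
    fun x => ?_, fun x z => Set.disjoint_left.1 k4 z (mem x), fun v hv => ?_,
    (a : ZMod l), (b : ZMod l), fun q => ab' ?_, ?_, ?_⟩, k1, k2, k3, fun x => ?_⟩
  · rcases lt_trichotomy x.val y.val with z | z | z
    · exact absurd q (inj _ _ z y.val_lt)
    · exact ZMod.val_injective l z
    · exact absurd q.symm (inj _ _ z x.val_lt)
  · rw [vs]
    have := x.val_lt
    by_cases z : x.val + 1 < l
    · rw [Nat.mod_eq_of_lt z]; exact (h.step _ z).1
    · rw [show x.val + 1 = l by omega, Nat.mod_self, show x.val = l - 1 by omega]; exact hcl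
  · rcases lt_trichotomy x.val y.val with z | z | z
    · exact ch x y z q
    · exact absurd (by rw [z]) q.ne
    · exact (ch y x z q.symm).symm
  · obtain ⟨i, z⟩ := mH x
    exact hat_free ind z
  · obtain ⟨n, n1, -, -, rfl⟩ := k5 hv
    exact ⟨(n : ZMod l), by beta_reduce; rw [ZMod.val_cast_of_lt n1]⟩
  · rw [← ZMod.val_cast_of_lt a1, q, ZMod.val_cast_of_lt b1]
  · refine ⟨fun z => Set.disjoint_left.1 k4 z (mem _), u, hu, ?_⟩
    rw [ZMod.val_cast_of_lt a1]; exact e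
  · refine ⟨fun z => Set.disjoint_left.1 k4 z (mem _), u', hu', ?_⟩
    rw [ZMod.val_cast_of_lt b1]; exact e'
  · obtain ⟨i, z⟩ := mH x
    exact ⟨i, hat_sub z⟩

end Pool.Agent.Lib.MP_c1f5fe_lc
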