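import Pool.Agent.Lib.MP_c1f5fe_lc.SpecC

/-! Frames around a ring and around a square of a cylinder. -/

namespace Pool.Agent.Lib.MP_c1f5fe_lc

open Equiv Function Relation
open Pool.Agent.Lib.MP_50b5c6_lc.Np (NC Pl)

set_option linter.unusedSimpArgs false

namespace FrZ

/-- cyclic distance at most `k` in both coordinates -/
def Ds (m k y x y' x' : ℕ) : Prop :=
  y ≤ y' + k ∧ y' ≤ y + k ∧ ((x ≤ x' + k ∧ x' ≤ x + k) ∨ x + m ≤ x' + k ∨ x' + m ≤ x + k)

variable {V : Type} {G : SimpleGraph V} {n m : ℕ} {rad : V → ℕ} {ang : V → ZMod m}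

/-- the vertices whose coordinates satisfy `P` -/
def St (rad : V → ℕ) (ang : V → ZMod m) (P : ℕ → ℕ → Prop) : Set V :=
  {v | P (rad v) (ang v).val}

theorem val_succ [NeZero m] (hm : 2 ≤ m) (a : ZMod m) :
    (a + 1).val = a.val + 1 ∨ (a.val + 1 = m ∧ (a + 1).val = 0) := by
  have : Fact (1 < m) := ⟨hm⟩
  rw [ZMod.val_add, ZMod.val_one]
  have := a.val_lt
  by_cases h : a.val + 1 < m
  · exact Or.inl (Nat.mod_eq_of_lt h)
  · have h' : a.val + 1 = m := by omega
    exact Or.inr ⟨h', by rw [h', Nat.mod_self]⟩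

theorem adj_ds [NeZero m] (hm : 2 ≤ m) (h : Cyl G n m rad ang) {u v : V} (a : G.Adj u v)
    (h1 : 1 ≤ rad u) (h2 : rad u ≤ n) (h3 : 1 ≤ rad v) (h4 : rad v ≤ n) :
    Ds m 1 (rad u) (ang u).val (rad v) (ang v).val := by
  refine ⟨h.lip u v a, h.lip v u a.symm, ?_⟩
  rcases h.lipa u v a h1 h2 h3 h4 with e | e | e
  · rw [e]; omega
  · have := val_succ hm (ang u); rw [← e] at this; omega
  · have := val_succ hm (ang v); rw [← e] at this; omega

theorem cn_rc (k6 : K6) [NeZero m] (h : Cyl G n m rad ang) (i i' a b : ℕ) (h1 : 1 ≤ i)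
    (h2 : i ≤ i') (h3 : i' ≤ n) (h4 : a ≤ b) (h5 : b < m) {P : ℕ → ℕ → Prop}
    (hP : ∀ y x, x < m → (P y x ↔ i ≤ y ∧ y ≤ i' ∧ a ≤ x ∧ x ≤ b)) : Cn G (St rad ang P) := by
  have := k6.rect G n m rad ang i i' (b - a) (a : ZMod m) h h1 h2 h3
  convert this using 1
  ext v
  simp only [St, Set.mem_ofPred_eq, hP _ _ (ang v).val_lt]
  refine and_congr_right fun _ => and_congr_right fun _ => ⟨fun ⟨p, q⟩ => ?_, fun ⟨t, p, q⟩ => ?_⟩
  · refine ⟨(ang v).val - a, by omega, ?_⟩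
    rw [← Nat.cast_add, Nat.add_sub_cancel' p, ZMod.natCast_zmod_val]
  · rw [q, ← Nat.cast_add, ZMod.val_natCast_of_lt (by omega)]
    omega

theorem cn_un (k6 : K6) [NeZero m] (h : Cyl G n m rad ang) {P Q R : ℕ → ℕ → Prop}
    (hP : Cn G (St rad ang P)) (hQ : Cn G (St rad ang Q)) (y x : ℕ) (h1 : 1 ≤ y) (h2 : y ≤ n)
    (h3 : x < m) (p : P y x) (q : Q y x) (hR : ∀ y x, x < m → (R y x ↔ P y x ∨ Q y x)) :
    Cn G (St rad ang R) := by
  obtain ⟨v, e1, e2⟩ := (h.cell y x h1 h2).1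
  have e3 : (ang v).val = x := by rw [e2, ZMod.val_natCast_of_lt h3]
  have := k6.union G _ _ hP hQ (Or.inl ⟨v, by simpa [St, e1, e3] using p,
    by simpa [St, e1, e3] using q⟩)
  convert this using 1
  ext v
  simp only [St, Set.mem_ofPred_eq, Set.mem_union, hR _ _ (ang v).val_lt]

theorem ne_st [NeZero m] (h : Cyl G n m rad ang) {P Q : ℕ → ℕ → Prop} (y x : ℕ) (h1 : 1 ≤ y)
    (h2 : y ≤ n) (h3 : x < m) (p : P y x) (q : Q y x) :
    (St rad ang P ∩ St rad ang Q).Nonempty := by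
  obtain ⟨v, e1, e2⟩ := (h.cell y x h1 h2).1
  have e3 : (ang v).val = x := by rw [e2, ZMod.val_natCast_of_lt h3]
  exact ⟨v, by simpa [St, e1, e3] using p, by simpa [St, e1, e3] using q⟩

theorem tch_symm {A B : Set V} (h : Tch G A B) : Tch G B A := by
  obtain ⟨u, hu, v, hv, a⟩ := h
  exact ⟨v, hv, u, hu, a.symm⟩

theorem tch_hor [NeZero m] (h : Cyl G n m rad ang) {P Q : ℕ → ℕ → Prop} (y x x' : ℕ)
    (h1 : 1 ≤ y) (h2 : y ≤ n) (h3 : x < m) (h4 : x' = (x + 1) % m) (p : P y x) (q : Q y x') :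
    Tch G (St rad ang P) (St rad ang Q) := by
  obtain ⟨u, v, a, e1, e2, e3, e4⟩ := h.hor y x h1 h2
  have e5 : (ang u).val = x := by rw [e2, ZMod.val_natCast_of_lt h3]
  have e6 : (ang v).val = x' := by rw [e4, ← Nat.cast_succ, ZMod.val_natCast, h4]
  exact ⟨u, by simpa [St, e1, e5] using p, v, by simpa [St, e3, e6] using q, a⟩

theorem tch_ver [NeZero m] (h : Cyl G n m rad ang) {P Q : ℕ → ℕ → Prop} (y x : ℕ)
    (h1 : 1 ≤ y) (h2 : y < n) (h3 : x < m) (p : P y x) (q : Q (y + 1) x) :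
    Tch G (St rad ang P) (St rad ang Q) := by
  obtain ⟨u, v, a, e1, e2, e3, e4⟩ := h.ver y x h1 h2
  have e5 : (ang u).val = x := by rw [e2, ZMod.val_natCast_of_lt h3]
  have e6 : (ang v).val = x := by rw [e4, ZMod.val_natCast_of_lt h3]
  exact ⟨u, by simpa [St, e1, e5] using p, v, by simpa [St, e3, e6] using q, a⟩

theorem nb_ds [NeZero m] (hm : 2 ≤ m) (h : Cyl G n m rad ang) {P : ℕ → ℕ → Prop}
    (hP : ∀ y x, P y x → 2 ≤ y ∧ y + 1 ≤ n) {v : V}
    (hv : v ∈ St rad ang P ∪ nb G (St rad ang P)) :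
    ∃ y x, x < m ∧ P y x ∧ Ds m 1 y x (rad v) (ang v).val := by
  rcases hv with hv | ⟨-, u, hu, a⟩
  · exact ⟨_, _, (ang v).val_lt, hv, by unfold Ds; omega⟩
  · have := hP _ _ hu
    have h1 := h.lip u v a
    have h2 := h.lip v u a.symm
    exact ⟨_, _, (ang u).val_lt, hu, adj_ds hm h a (by omega) (by omega) (by omega) (by omega)⟩

theorem gen (hF : Fr0St) [Finite V] [NeZero m] (hm : 2 ≤ m) {U : Set V} (hpl : Pl G.Adj)
    (hU : Indep G U)
    (hcap : ∀ z ∈ U, rad z < n → (G.neighborSet z).Nonempty → Cn G (G.neighborSet z))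
    (hc : Cn G Set.univ) (h : Cyl G n m rad ang) (τ ρ : ℕ → ℕ → ℕ → Prop) (α β : ℕ → ℕ → Prop)
    (hτ : ∀ i y x, τ i y x → 2 ≤ y ∧ y + 1 ≤ n)
    (hT : ∀ i < 8, Cn G (St rad ang (τ i)) ∧
      Tch G (St rad ang (τ i)) (St rad ang (τ ((i + 1) % 8))))
    (hfar : ∀ i < 8, ∀ j < 8, j ≠ i → j ≠ (i + 1) % 8 → i ≠ (j + 1) % 8 → ∀ y x y' x', x < m →
      x' < m → τ i y x → τ j y' x' → ¬Ds m 3 y x y' x')
    (hA : Cn G (St rad ang α)) (hB : Cn G (St rad ang β)) (hAB : ∀ y x, α y x → ¬β y x)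
    (hAT : ∀ i < 8, ∀ y x y' x', x < m → x' < m → τ i y x → Ds m 1 y x y' x' →
      ¬α y' x' ∧ ¬β y' x')
    (hR : ∀ i < 8, i % 2 = 0 → Cn G (St rad ang (ρ i)) ∧
      Tch G (St rad ang α) (St rad ang (ρ i)) ∧ Tch G (St rad ang β) (St rad ang (ρ i)) ∧
      (St rad ang (ρ i) ∩ St rad ang (τ i)).Nonempty)
    (hRA : ∀ i < 8, ∀ y x, ρ i y x → ¬α y x ∧ ¬β y x)
    (hRT : ∀ i < 8, i % 2 = 0 → ∀ j < 8, j ≠ i → ∀ y x y' x', x < m → x' < m → τ j y x →
      Ds m 1 y x y' x' → ¬ρ i y' x')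
    (hRR : ∀ i < 8, ∀ j < 8, j ≠ i → ∀ y x, ρ i y x → ¬ρ j y x) :
    ∃ (l : ℕ) (c : ZMod l → V) (K : Set V), Frame G U c K ∧ Cn G K ∧ St rad ang α ⊆ K ∧
      Disjoint K (St rad ang β) ∧
      ∀ z, ∃ i < 8, ∃ y x, x < m ∧ τ i y x ∧ Ds m 1 y x (rad (c z)) (ang (c z)).val := by
  have vl : ∀ i : ZMod 8, i.val < 8 := fun i => i.val_lt
  have vs : ∀ i : ZMod 8, (i + 1).val = (i.val + 1) % 8 := by decide
  have vi : ∀ i j : ZMod 8, j ≠ i → j.val ≠ i.val := by decide
  have ve : ∀ i ∈ ({0, 2, 4, 6} : Set (ZMod 8)), i.val % 2 = 0 := by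
    rintro i (rfl | rfl | rfl | rfl) <;> rfl
  refine (hF V G U (fun i => St rad ang (τ i.val)) (St rad ang α) (St rad ang β)
    (fun i => St rad ang (ρ i.val)) hpl hU ?_ ?_ ?_ hA hB ?_ ?_ ?_).elim
    fun l ⟨c, K, f1, f2, f3, f4, f5⟩ => ⟨l, c, K, f1, f2, f3, f4, fun z =>
      (f5 z).elim fun i hi => ⟨i.val, vl i, nb_ds hm h (hτ _) hi⟩⟩
  · intro i z hz hzU
    have h1 := hτ _ _ _ hz
    refine hcap z hzU (by omega) ?_
    obtain ⟨u, v, a, -⟩ := h.hor 1 0 le_rfl (by omega)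
    have key : ∀ w, w ≠ z → (G.neighborSet z).Nonempty := by
      intro w hw
      rcases (hc.2 z trivial w trivial).cases_head with e | ⟨y, hy, -⟩
      · exact absurd e.symm hw
      · exact ⟨y, hy.1⟩
    by_cases e : u = z
    · exact key v fun e' => a.ne (e.trans e'.symm)
    · exact key u e
  · intro i
    rw [vs]
    exact hT _ (vl i)
  · intro i j h1 h2 h3
    have key : ∀ u ∈ St rad ang (τ i.val) ∪ nb G (St rad ang (τ i.val)),
        ∀ v ∈ St rad ang (τ j.val) ∪ nb G (St rad ang (τ j.val)), u = v ∨ G.Adj u v → False := by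
      intro u hu v hv e
      obtain ⟨y, x, a1, a2, a3⟩ := nb_ds hm h (hτ _) hu
      obtain ⟨y', x', b1, b2, b3⟩ := nb_ds hm h (hτ _) hv
      have c1 := hτ _ _ _ a2
      have c2 := hτ _ _ _ b2
      have c3 : Ds m 1 (rad u) (ang u).val (rad v) (ang v).val := by
        rcases e with rfl | e
        · unfold Ds; omega
        · unfold Ds at a3 b3
          exact adj_ds hm h e (by omega) (by omega) (by omega) (by omega)
      refine hfar _ (vl i) _ (vl j) (vi _ _ h1) (vs i ▸ vi _ _ h2) (vs j ▸ vi _ _ h3) y x y' x' a1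
        b1 a2 b2 ?_
      have := (ang u).val_lt
      have := (ang v).val_lt
      unfold Ds at *
      omega
    exact ⟨Set.disjoint_left.2 fun u hu hv => key u hu u hv (Or.inl rfl),
      fun ⟨u, hu, v, hv, a⟩ => key u hu v hv (Or.inr a)⟩
  · exact Set.disjoint_left.2 fun v hv => hAB _ _ hv
  · intro i
    refine Set.disjoint_left.2 fun v hv hw => ?_
    obtain ⟨y, x, a1, a2, a3⟩ := nb_ds hm h (hτ _) hw
    have := hAT _ (vl i) _ _ _ _ a1 (ang v).val_lt a2 a3
    exact hv.elim this.1 this.2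
  · intro i hi
    obtain ⟨r1, r2, r3, r4⟩ := hR _ (vl i) (ve i hi)
    refine ⟨r1, Set.disjoint_left.2 fun v hv hw => ?_, r2, r3, r4, fun j hj => ?_,
      fun j _ hj => Set.disjoint_left.2 fun v hv => hRR _ (vl i) _ (vl j) (vi _ _ hj) _ _ hv⟩
    · have := hRA _ (vl i) _ _ hw
      exact hv.elim this.1 this.2
    · refine Set.disjoint_left.2 fun v hv hw => ?_
      obtain ⟨y, x, a1, a2, a3⟩ := nb_ds hm h (hτ _) hw
      exact hRT _ (vl i) (ve i hi) _ (vl j) (vi _ _ hj) _ _ _ _ a1 (ang v).val_lt a2 a3 hv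

theorem lev_up {δ : V → ℕ} {L : ℕ} {K : Set V} (hδ : ∀ u v, G.Adj u v → δ u ≤ δ v + 1)
    (hc : Cn G Set.univ) {a : V} (ha : δ a = L) (h1 : ∀ v, δ v = L → v ∈ K)
    (h2 : ∀ v ∈ nb G K, δ v < L) (v : V) : L ≤ δ v → v ∈ K := by
  have := hc.2 v trivial a trivial
  induction this using ReflTransGen.head_induction_on with
  | refl => exact fun _ => h1 a ha
  | @head u w e _ ih =>
    intro hu
    by_contra hK
    have h3 := hδ u w e.1
    have h4 : δ u ≠ L := fun e => hK (h1 u e)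
    have := h2 u ⟨hK, w, ih (by omega), e.1.symm⟩
    omega

theorem lev_cn {δ : V → ℕ} {L : ℕ} {K Z W : Set V} (hδ : ∀ u v, G.Adj u v → δ u ≤ δ v + 1)
    (hK : Cn G K) {a : V} (ha : δ a = L) (haK : a ∈ K) (hZ : ∀ v ∈ K, δ v ≤ L → v ∈ Z)
    (hW : Cn G W) (h1 : ∀ v, v ∈ W ↔ v ∈ K ∧ v ∈ Z ∧ L ≤ δ v) : Cn G (K ∩ Z) := by
  have sy : ∀ u v, ReflTransGen (fun x y => G.Adj x y ∧ x ∈ K ∩ Z ∧ y ∈ K ∩ Z) u v →
      ReflTransGen (fun x y => G.Adj x y ∧ x ∈ K ∩ Z ∧ y ∈ K ∩ Z) v u := by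
    intro u v e
    induction e with
    | refl => exact .refl
    | tail _ e ih => exact .head ⟨e.1.symm, e.2.2, e.2.1⟩ ih
  have key : ∀ v ∈ K ∩ Z, ∃ w ∈ W,
      ReflTransGen (fun x y => G.Adj x y ∧ x ∈ K ∩ Z ∧ y ∈ K ∩ Z) v w := by
    intro v hv
    have := hK.2 v hv.1 a haK
    induction this using ReflTransGen.head_induction_on with
    | refl => exact ⟨a, (h1 a).2 ⟨hv.1, hv.2, ha.ge⟩, .refl⟩
    | @head u w e _ ih =>
      by_cases hu : L ≤ δ u
      · exact ⟨u, (h1 u).2 ⟨hv.1, hv.2, hu⟩, .refl⟩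
      · have h3 := hδ w u e.1.symm
        have hw : w ∈ K ∩ Z := ⟨e.2.2, hZ w e.2.2 (by omega)⟩
        obtain ⟨x, hx, p⟩ := ih hw
        exact ⟨x, hx, .head ⟨e.1, hv, hw⟩ p⟩
  refine ⟨⟨a, haK, hZ a haK ha.le⟩, fun u hu v hv => ?_⟩
  obtain ⟨x, hx, p⟩ := key u hu
  obtain ⟨y, hy, q⟩ := key v hv
  refine p.trans (ReflTransGen.trans (ReflTransGen.mono ?_ _ _ (hW.2 x hx y hy)) (sy _ _ q))
  intro s t e
  have h2 := (h1 s).1 e.2.1
  have h3 := (h1 t).1 e.2.2
  exact ⟨e.1, ⟨h2.1, h2.2.1⟩, h3.1, h3.2.1⟩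

theorem shift (h : Cyl G n m rad ang) (s : ZMod m) : Cyl G n m rad fun v => ang v + s where
  lip := h.lip
  lipa u v a h1 h2 h3 h4 := by
    rcases h.lipa u v a h1 h2 h3 h4 with e | e | e
    · exact Or.inl (by rw [e])
    · exact Or.inr (Or.inl (by rw [e]; ring))
    · exact Or.inr (Or.inr (by rw [e]; ring))
  cell i j h1 h2 := by simpa only [eq_sub_iff_add_eq] using h.cell i (j - s) h1 h2
  hor i j h1 h2 := by
    obtain ⟨u, v, a, e1, e2, e3, e4⟩ := h.hor i (j - s) h1 h2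
    exact ⟨u, v, a, e1, by rw [e2]; ring, e3, by rw [e4]; ring⟩
  ver i j h1 h2 := by
    obtain ⟨u, v, a, e1, e2, e3, e4⟩ := h.ver i (j - s) h1 h2
    exact ⟨u, v, a, e1, by rw [e2]; ring, e3, by rw [e4]; ring⟩

/-- sides and corners of the square at distance eight -/
def tD (r i y x : ℕ) : Prop :=
  (i = 0 ∧ y = r + 8 ∧ 17 ≤ x ∧ x ≤ 23) ∨
  (i = 1 ∧ ((y = r + 8 ∧ 24 ≤ x ∧ x ≤ 28) ∨ (x = 28 ∧ r + 4 ≤ y ∧ y ≤ r + 8))) ∨
  (i = 2 ∧ x = 28 ∧ r ≤ y + 3 ∧ y ≤ r + 3) ∨
  (i = 3 ∧ ((y + 8 = r ∧ 24 ≤ x ∧ x ≤ 28) ∨ (x = 28 ∧ r ≤ y + 8 ∧ y + 4 ≤ r))) ∨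
  (i = 4 ∧ y + 8 = r ∧ 17 ≤ x ∧ x ≤ 23) ∨
  (i = 5 ∧ ((y + 8 = r ∧ 12 ≤ x ∧ x ≤ 16) ∨ (x = 12 ∧ r ≤ y + 8 ∧ y + 4 ≤ r))) ∨
  (i = 6 ∧ x = 12 ∧ r ≤ y + 3 ∧ y ≤ r + 3) ∨
  (i = 7 ∧ ((y = r + 8 ∧ 12 ≤ x ∧ x ≤ 16) ∨ (x = 12 ∧ r + 4 ≤ y ∧ y ≤ r + 8)))

/-- the four spokes -/
def rD (r i y x : ℕ) : Prop :=
  (i = 0 ∧ x = 20 ∧ r + 6 ≤ y ∧ y ≤ r + 10) ∨ (i = 2 ∧ y = r ∧ 26 ≤ x ∧ x ≤ 30) ∨
  (i = 4 ∧ x = 20 ∧ r ≤ y + 10 ∧ y + 6 ≤ r) ∨ (i = 6 ∧ y = r ∧ 10 ≤ x ∧ x ≤ 14)

/-- truncated distance from the centre of the square -/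
def dD (r y x : ℕ) : ℕ := min 12 (max (max (r - y) (y - r)) (max (20 - x) (x - 20)))

theorem dD_le (r y x k : ℕ) (hk : k < 12) :
    dD r y x ≤ k ↔ r ≤ y + k ∧ y ≤ r + k ∧ 20 ≤ x + k ∧ x ≤ 20 + k := by
  simp only [dD, min_le_iff, max_le_iff]
  omega

theorem dD_ge (r y x : ℕ) : 11 ≤ dD r y x ↔ y + 11 ≤ r ∨ r + 11 ≤ y ∨ x ≤ 9 ∨ 31 ≤ x := by
  have := dD_le r y x 10 (by omega)
  omega

theorem dD_eq (r y x : ℕ) : dD r y x = 11 ↔ (r ≤ y + 11 ∧ y ≤ r + 11 ∧ 9 ≤ x ∧ x ≤ 31) ∧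
    (y + 11 ≤ r ∨ r + 11 ≤ y ∨ x ≤ 9 ∨ 31 ≤ x) := by
  rw [← dD_ge]
  have := dD_le r y x 11 (by omega)
  omega

theorem dD_five (r y x : ℕ) : dD r y x ≤ 5 ↔ r ≤ y + 5 ∧ y ≤ r + 5 ∧ 15 ≤ x ∧ x ≤ 25 := by
  rw [dD_le r y x 5 (by omega)]
  omega

theorem dD_lip {r y x y' x' : ℕ} (h1 : y ≤ y' + 1) (h2 : y' ≤ y + 1)
    (h3 : (x ≤ x' + 1 ∧ x' ≤ x + 1) ∨ y' + 11 ≤ r ∨ r + 11 ≤ y' ∨ x' ≤ 9 ∨ 31 ≤ x') :
    dD r y x ≤ dD r y' x' + 1 := by
  have h4 : dD r y x ≤ 12 := min_le_left _ _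
  have h5 := dD_ge r y' x'
  by_cases h : 11 ≤ dD r y' x'
  · omega
  · have h6 := (dD_le r y' x' _ (by omega)).1 le_rfl
    exact (dD_le r y x _ (by omega)).2 (by omega)

theorem cn_tD (k6 : K6) [NeZero m] (h : Cyl G n m rad ang) {r : ℕ} (hm : 64 ≤ m) (hr : 11 < r)
    (hn : r + 11 ≤ n) (i : ℕ) (hi : i < 8) : Cn G (St rad ang (tD r i)) ∧
      Tch G (St rad ang (tD r i)) (St rad ang (tD r ((i + 1) % 8))) := by
  have rc : ∀ (i i' a b : ℕ), r ≤ i + 11 → i ≤ i' → i' ≤ r + 11 → a ≤ b → b < 64 →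
      Cn G (St rad ang fun y x => i ≤ y ∧ y ≤ i' ∧ a ≤ x ∧ x ≤ b) := fun i i' a b _ _ _ _ _ =>
    cn_rc k6 h i i' a b (by omega) (by omega) (by omega) (by omega) (by omega) fun _ _ _ => Iff.rfl
  have md : ∀ x, x < 60 → x + 1 = (x + 1) % m := fun x _ => (Nat.mod_eq_of_lt (by omega)).symm
  interval_cases i
  · exact ⟨cn_rc k6 h (r + 8) (r + 8) 17 23 (by omega) (by omega) (by omega) (by omega) (by omega)
      (by simp [tD] <;> omega), tch_hor h (r + 8) 23 24 (by omega) (by omega) (by omega)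
      (md _ (by omega)) (by simp [tD] <;> omega) (by simp [tD] <;> omega)⟩
  · exact ⟨cn_un k6 h (rc (r + 8) (r + 8) 24 28 (by omega) (by omega) (by omega) (by omega)
      (by omega)) (rc (r + 4) (r + 8) 28 28 (by omega) (by omega) (by omega) (by omega) (by omega))
      (r + 8) 28 (by omega) (by omega) (by omega) (by omega) (by omega) (by simp [tD] <;> omega),
      tch_symm (tch_ver h (r + 3) 28 (by omega) (by omega) (by omega) (by simp [tD] <;> omega)
        (by simp [tD] <;> omega))⟩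
  · exact ⟨cn_rc k6 h (r - 3) (r + 3) 28 28 (by omega) (by omega) (by omega) (by omega) (by omega)
      (by simp [tD] <;> omega), tch_symm (tch_ver h (r - 4) 28 (by omega) (by omega) (by omega)
      (by simp [tD] <;> omega) (by simp [tD] <;> omega))⟩
  · exact ⟨cn_un k6 h (rc (r - 8) (r - 8) 24 28 (by omega) (by omega) (by omega) (by omega)
      (by omega)) (rc (r - 8) (r - 4) 28 28 (by omega) (by omega) (by omega) (by omega) (by omega))
      (r - 8) 28 (by omega) (by omega) (by omega) (by omega) (by omega) (by simp [tD] <;> omega),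
      tch_symm (tch_hor h (r - 8) 23 24 (by omega) (by omega) (by omega) (md _ (by omega))
        (by simp [tD] <;> omega) (by simp [tD] <;> omega))⟩
  · exact ⟨cn_rc k6 h (r - 8) (r - 8) 17 23 (by omega) (by omega) (by omega) (by omega) (by omega)
      (by simp [tD] <;> omega), tch_symm (tch_hor h (r - 8) 16 17 (by omega) (by omega) (by omega)
      (md _ (by omega)) (by simp [tD] <;> omega) (by simp [tD] <;> omega))⟩
  · exact ⟨cn_un k6 h (rc (r - 8) (r - 8) 12 16 (by omega) (by omega) (by omega) (by omega)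
      (by omega)) (rc (r - 8) (r - 4) 12 12 (by omega) (by omega) (by omega) (by omega) (by omega))
      (r - 8) 12 (by omega) (by omega) (by omega) (by omega) (by omega) (by simp [tD] <;> omega),
      tch_ver h (r - 4) 12 (by omega) (by omega) (by omega) (by simp [tD] <;> omega)
        (by simp [tD] <;> omega)⟩
  · exact ⟨cn_rc k6 h (r - 3) (r + 3) 12 12 (by omega) (by omega) (by omega) (by omega) (by omega)
      (by simp [tD] <;> omega), tch_ver h (r + 3) 12 (by omega) (by omega) (by omega)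
      (by simp [tD] <;> omega) (by simp [tD] <;> omega)⟩
  · exact ⟨cn_un k6 h (rc (r + 8) (r + 8) 12 16 (by omega) (by omega) (by omega) (by omega)
      (by omega)) (rc (r + 4) (r + 8) 12 12 (by omega) (by omega) (by omega) (by omega) (by omega))
      (r + 8) 12 (by omega) (by omega) (by omega) (by omega) (by omega) (by simp [tD] <;> omega),
      tch_hor h (r + 8) 16 17 (by omega) (by omega) (by omega) (md _ (by omega))
        (by simp [tD] <;> omega) (by simp [tD] <;> omega)⟩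

/-- the outside of the open square inside a box -/
theorem cn_out (k6 : K6) [NeZero m] (h : Cyl G n m rad ang) {r : ℕ} (b a a' : ℕ) (hb : 11 ≤ b)
    (hr : b < r) (hn : r + b ≤ n) (ha : a ≤ 9) (ha' : 31 ≤ a') (hm : a' < m) {P : ℕ → ℕ → Prop}
    (hP : ∀ y x, x < m → (P y x ↔ (r ≤ y + b ∧ y ≤ r + b ∧ a ≤ x ∧ x ≤ a') ∧ 11 ≤ dD r y x)) :
    Cn G (St rad ang P) := by
  have rc : ∀ (i i' a b : ℕ), 1 ≤ i → i ≤ i' → i' ≤ n → a ≤ b → b < m →
      Cn G (St rad ang fun y x => i ≤ y ∧ y ≤ i' ∧ a ≤ x ∧ x ≤ b) := fun i i' a b _ _ _ _ _ =>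
    cn_rc k6 h i i' a b (by omega) (by omega) (by omega) (by omega) (by omega) fun _ _ _ => Iff.rfl
  have h1 := cn_un k6 h (rc (r + 11) (r + b) a a' (by omega) (by omega) (by omega) (by omega)
    (by omega)) (rc (r - b) (r + b) a 9 (by omega) (by omega) (by omega) (by omega) (by omega))
    (r + 11) 9 (by omega) (by omega) (by omega) (by omega) (by omega) fun _ _ _ => Iff.rfl
  have h2 := cn_un k6 h (rc (r - b) (r - 11) a a' (by omega) (by omega) (by omega) (by omega)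
    (by omega)) (rc (r - b) (r + b) 31 a' (by omega) (by omega) (by omega) (by omega) (by omega))
    (r - 11) 31 (by omega) (by omega) (by omega) (by omega) (by omega) fun _ _ _ => Iff.rfl
  refine cn_un k6 h h1 h2 (r + 11) 31 (by omega) (by omega) (by omega) (by omega) (by omega) ?_
  intro y x hx
  rw [hP y x hx, dD_ge]
  omega

end FrZ

open FrZ

theorem frz (k6 : K6) (hF : Fr0St) : FrZSt := by
  intro V _ G U n m rad ang r hpl hU hcap hc h hm hr hn
  have : NeZero m := ⟨by omega⟩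
  obtain ⟨l, c, K, f1, f2, f3, f4, f5⟩ := gen hF (by omega) hpl hU hcap hc h
    (fun i y x => y = r ∧ 8 * i ≤ x ∧ (x ≤ 8 * i + 7 ∨ i = 7))
    (fun i y x => r ≤ y + 2 ∧ y ≤ r + 2 ∧ x = 8 * i + 4) (fun y _ => y + 3 = r)
    (fun y _ => y = r + 3) (by intro i y x; omega)
    (by
      intro i hi
      by_cases e : i = 7
      · exact ⟨cn_rc k6 h r r 56 (m - 1) (by omega) le_rfl (by omega) (by omega) (by omega)
          (by intro y x hx; omega), tch_hor h r (m - 1) 0 (by omega) (by omega) (by omega)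
          (by rw [Nat.sub_add_cancel (by omega), Nat.mod_self]) (by omega) (by omega)⟩
      · exact ⟨cn_rc k6 h r r (8 * i) (8 * i + 7) (by omega) le_rfl (by omega) (by omega)
          (by omega) (by intro y x hx; omega), tch_hor h r (8 * i + 7) (8 * i + 8) (by omega)
          (by omega) (by omega) (Nat.mod_eq_of_lt (by omega)).symm (by omega) (by omega)⟩)
    (by intro i hi j hj h1 h2 h3 y x y' x' hx hx'; unfold Ds; omega)
    (cn_rc k6 h (r - 3) (r - 3) 0 (m - 1) (by omega) le_rfl (by omega) (by omega) (by omega)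
      (by intro y x hx; omega))
    (cn_rc k6 h (r + 3) (r + 3) 0 (m - 1) (by omega) le_rfl (by omega) (by omega) (by omega)
      (by intro y x hx; omega))
    (by intro y x; omega)
    (by intro i hi y x y' x' hx hx'; unfold Ds; omega)
    (by
      intro i hi he
      exact ⟨cn_rc k6 h (r - 2) (r + 2) (8 * i + 4) (8 * i + 4) (by omega) (by omega) (by omega)
        le_rfl (by omega) (by intro y x hx; omega),
        tch_ver h (r - 3) (8 * i + 4) (by omega) (by omega) (by omega) (by omega) (by omega),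
        tch_symm (tch_ver h (r + 2) (8 * i + 4) (by omega) (by omega) (by omega) (by omega)
          (by omega)),
        ne_st h r (8 * i + 4) (by omega) (by omega) (by omega) (by omega) (by omega)⟩)
    (by intro i hi y x; omega)
    (by intro i hi he j hj h1 y x y' x' hx hx'; unfold Ds; omega)
    (by intro i hi j hj h1 y x; omega)
  have hcb : ∀ z, c z ∈ band rad r 1 := by
    intro z
    obtain ⟨i, -, y, x, -, a1, a2⟩ := f5 z
    unfold Ds at a2
    exact ⟨by omega, by omega⟩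
  have hδ : ∀ u v, G.Adj u v → r - rad u ≤ r - rad v + 1 := fun u v a => by
    have := h.lip v u a.symm; omega
  obtain ⟨a, ha, -⟩ := (h.cell (r - 3) 0 (by omega) (by omega)).1
  have haK : a ∈ K := f3 (show rad a + 3 = r by omega)
  have up : ∀ v, rad v + 3 ≤ r → v ∈ K := fun v hv =>
    lev_up (δ := fun v => r - rad v) (L := 3) hδ hc (a := a) (by omega)
      (fun v e => f3 (show rad v + 3 = r by omega))
      (fun v hv => by
        obtain ⟨z, rfl⟩ := f1.sep hv
        have := (hcb z).1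
        omega) v (by omega)
  have lo : ∀ v ∈ K, rad v ≤ r + 2 := by
    intro v hv
    have := f2.2 a haK v hv
    clear hv
    induction this with
    | refl => omega
    | @tail u w _ e ih =>
      have h1 := h.lip w u e.1.symm
      have h2 : rad w ≠ r + 3 := fun e' => Set.disjoint_left.1 f4 e.2.2 e'
      omega
  refine ⟨l, c, K, f1, hcb, up, lo, fun b hb hbr => ?_⟩
  refine lev_cn (δ := fun v => r - rad v) (L := 3) hδ f2 (a := a) (by omega) haK
    (fun v hv e => ⟨by omega, by have := lo v hv; omega⟩)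
    (k6.rows G n m rad ang (r - b) (r - 3) (by omega) h (by omega) (by omega) (by omega))
    fun v => ⟨fun ⟨p, q⟩ => ⟨up v (by omega), ⟨by omega, by omega⟩, by omega⟩,
      fun ⟨_, ⟨p, _⟩, q⟩ => ⟨by omega, by omega⟩⟩

theorem frd (k6 : K6) (hF : Fr0St) : FrDSt := by
  intro V _ G U n m rad ang r hpl hU hcap hc h₀ hm hr hn
  have : NeZero m := ⟨by omega⟩
  have h := shift h₀ ((20 : ℕ) : ZMod m)
  set an : V → ZMod m := fun v => ang v + ((20 : ℕ) : ZMod m) with han
  have md : ∀ x, x < 60 → x + 1 = (x + 1) % m := fun x _ => (Nat.mod_eq_of_lt (by omega)).symm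
  obtain ⟨l, c, K, f1, f2, f3, f4, f5⟩ := gen hF (by omega) hpl hU hcap hc h (tD r) (rD r)
    (fun y x => dD r y x = 11) (fun y x => dD r y x ≤ 5) (by intro i y x; unfold tD; omega)
    (cn_tD k6 h hm hr hn)
    (by intro i hi j hj h1 h2 h3 y x y' x' hx hx'; unfold Ds tD; omega)
    (cn_out k6 h (r := r) 11 9 31 le_rfl hr hn le_rfl le_rfl (by omega)
      (by intro y x hx; rw [dD_eq, dD_ge]))
    (cn_rc k6 h (r - 5) (r + 5) 15 25 (by omega) (by omega) (by omega) (by omega) (by omega)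
      (by intro y x hx; rw [dD_five]; omega))
    (by intro y x; omega)
    (by intro i hi y x y' x' hx hx'; rw [dD_eq, dD_five]; unfold Ds tD; omega)
    (by
      intro i hi he
      obtain rfl | rfl | rfl | rfl : i = 0 ∨ i = 2 ∨ i = 4 ∨ i = 6 := by omega
      · exact ⟨cn_rc k6 h (r + 6) (r + 10) 20 20 (by omega) (by omega) (by omega) (by omega)
          (by omega) (by unfold rD; omega),
          tch_symm (tch_ver h (r + 10) 20 (by omega) (by omega) (by omega) (by unfold rD; omega)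
            (by simp only [dD_eq, dD_five]; omega)),
          tch_ver h (r + 5) 20 (by omega) (by omega) (by omega) (by simp only [dD_eq, dD_five]; omega)
            (by unfold rD; omega),
          ne_st h (r + 8) 20 (by omega) (by omega) (by omega) (by unfold rD; omega)
            (by unfold tD; omega)⟩
      · exact ⟨cn_rc k6 h r r 26 30 (by omega) (by omega) (by omega) (by omega)
          (by omega) (by unfold rD; omega),
          tch_symm (tch_hor h r 30 31 (by omega) (by omega) (by omega) (md _ (by omega))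
            (by unfold rD; omega) (by simp only [dD_eq, dD_five]; omega)),
          tch_hor h r 25 26 (by omega) (by omega) (by omega) (md _ (by omega))
            (by simp only [dD_eq, dD_five]; omega) (by unfold rD; omega),
          ne_st h r 28 (by omega) (by omega) (by omega) (by unfold rD; omega)
            (by unfold tD; omega)⟩
      · exact ⟨cn_rc k6 h (r - 10) (r - 6) 20 20 (by omega) (by omega) (by omega) (by omega)
          (by omega) (by unfold rD; omega),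
          tch_ver h (r - 11) 20 (by omega) (by omega) (by omega) (by simp only [dD_eq, dD_five]; omega)
            (by unfold rD; omega),
          tch_symm (tch_ver h (r - 6) 20 (by omega) (by omega) (by omega) (by unfold rD; omega)
            (by simp only [dD_eq, dD_five]; omega)),
          ne_st h (r - 8) 20 (by omega) (by omega) (by omega) (by unfold rD; omega)
            (by unfold tD; omega)⟩
      · exact ⟨cn_rc k6 h r r 10 14 (by omega) (by omega) (by omega) (by omega)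
          (by omega) (by unfold rD; omega),
          tch_hor h r 9 10 (by omega) (by omega) (by omega) (md _ (by omega))
            (by simp only [dD_eq, dD_five]; omega) (by unfold rD; omega),
          tch_symm (tch_hor h r 14 15 (by omega) (by omega) (by omega) (md _ (by omega))
            (by unfold rD; omega) (by simp only [dD_eq, dD_five]; omega)),
          ne_st h r 12 (by omega) (by omega) (by omega) (by unfold rD; omega)
            (by unfold tD; omega)⟩)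
    (by intro i hi y x; rw [dD_eq, dD_five]; unfold rD; omega)
    (by intro i hi he j hj h1 y x y' x' hx hx'; unfold Ds tD rD; omega)
    (by intro i hi j hj h1 y x; unfold rD; omega)
  have hcb : ∀ z, ¬dD r (rad (c z)) (an (c z)).val ≤ 5 ∧ ¬11 ≤ dD r (rad (c z)) (an (c z)).val := by
    intro z
    obtain ⟨i, -, y, x, -, a1, a2⟩ := f5 z
    have := (an (c z)).val_lt
    unfold Ds at a2
    unfold tD at a1
    rw [dD_five, dD_ge]
    omega
  have hδ : ∀ u v, G.Adj u v → dD r (rad u) (an u).val ≤ dD r (rad v) (an v).val + 1 := by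
    intro u v a
    have h1 := h.lip v u a.symm
    have h2 := h.lip u v a
    by_cases e : 1 ≤ rad u ∧ rad u ≤ n ∧ 1 ≤ rad v ∧ rad v ≤ n
    · have := adj_ds (by omega) h a e.1 e.2.1 e.2.2.1 e.2.2.2
      have := (an u).val_lt
      have := (an v).val_lt
      unfold Ds at *
      exact dD_lip h2 h1 (by omega)
    · exact dD_lip h2 h1 (by omega)
  obtain ⟨a, ha, -⟩ := ne_st h (P := fun y x => dD r y x = 11) (Q := fun _ _ => True) r 9
    (by omega) (by omega) (by omega) (by simp only [dD_eq, dD_five]; omega) trivial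
  have up : ∀ v, 11 ≤ dD r (rad v) (an v).val → v ∈ K :=
    lev_up (δ := fun v => dD r (rad v) (an v).val) hδ hc ha (fun v e => f3 e) fun v hv => by
      obtain ⟨z, rfl⟩ := f1.sep hv
      have := (hcb z).2
      omega
  refine ⟨l, c, K, f1, f2, fun v hv => ?_, ?_, fun b hb hbr hbn => ?_⟩
  · have h1 : ¬11 ≤ dD r (rad v) (an v).val := fun e => hv (up v e)
    rw [dD_ge] at h1
    refine ⟨⟨by omega, by omega⟩, (k6.ad_le m 10 _ (by omega)).2 ⟨(an v).val - 10, by omega, ?_⟩⟩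
    rw [Nat.cast_sub (by omega), ZMod.natCast_zmod_val, han]
    push_cast
    ring
  · obtain ⟨u, hu, v, hv, e⟩ := tch_hor h (P := fun y x => dD r y x ≤ 5)
      (Q := fun y x => dD r y x ≤ 5) r 20 21 (by omega) (by omega) (by omega) (md _ (by omega))
      (by simp only [dD_eq, dD_five]; omega) (by simp only [dD_eq, dD_five]; omega)
    have key : ∀ w, dD r (rad w) (an w).val ≤ 5 → w ∉ Set.range c := by
      rintro _ hw ⟨z, rfl⟩
      have := (hcb z).1
      omega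
    exact ⟨u, v, e.ne, Set.disjoint_right.1 f4 hu, Set.disjoint_right.1 f4 hv, key u hu, key v hv⟩
  · refine lev_cn (δ := fun v => dD r (rad v) (an v).val) hδ f2 ha (f3 ha)
      (fun v _ e => by rw [dD_le _ _ _ _ (by omega)] at e; exact ⟨by omega, by omega⟩)
      (cn_out k6 h b 0 (m - 1) hb hbr hbn (by omega) (by omega) (by omega) fun _ _ _ => Iff.rfl)
      fun v => ⟨fun ⟨p, q⟩ => ⟨up v q, ⟨p.1, p.2.1⟩, q⟩, fun ⟨_, p, q⟩ => ⟨⟨p.1, p.2, by omega, ?_⟩, q⟩⟩
    have := (an v).val_lt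
    omega

end Pool.Agent.Lib.MP_c1f5fe_lc
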