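import Pool.Agent.Lib.MP_c1f5fe_lc.SpecC
import Pool.Agent.Lib.MP_c1f5fe_lc.Kit1
import Pool.Agent.Lib.MP_c1f5fe_lc.Reg

/-! Gluing the kept colours of two maps along a common boundary graph. -/

namespace Pool.Agent.Lib.MP_c1f5fe_lc

open Equiv Function Relation

namespace Glue

open Kit1 Reg

lemma pow_emb {D D' : Type} {a : Perm D} {a' : Perm D'} {f : D → D'}
    (h : ∀ x, a' (f x) = f (a x)) (n : ℕ) (x : D) : (a' ^ n) (f x) = f ((a ^ n) x) := by
  induction n with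
  | zero => rfl
  | succ n i => rw [pow_succ', pow_succ', Perm.mul_apply, Perm.mul_apply, i, h]

lemma ret_emb {D D' : Type} [Finite D] [Finite D'] {a : Perm D} {a' : Perm D'} {f : D → D'}
    {Q : D → Prop} {Q' : D' → Prop} (h : ∀ x, a' (f x) = f (a x)) (hq : ∀ x, Q' (f x) ↔ Q x)
    {x : D} (hx : Q x) : ret a' Q' (f x) = f (ret a Q x) := by
  obtain ⟨n, n0, e, q, hn⟩ := ret_nxt a hx
  exact (ret_nxt a' ((hq x).2 hx)).unique ⟨n, n0, by rw [pow_emb h, e], (hq _).2 q,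
    fun m m0 l k => hn m m0 l ((hq _).1 (pow_emb h m x ▸ k))⟩

lemma inv_emb (k : K1) {D D' : Type} [Finite D] [Finite D'] (M : HMap D) (N : HMap D')
    (Q Y : D → Prop) (Q' Y' : D' → Prop) (f : D → D') (hf : Injective f)
    (hy : ∀ y, Y' y ↔ ∃ x, Y x ∧ f x = y) (hq : ∀ x, Q' (f x) ↔ Q x)
    (h1 : ∀ x, N.φ (f x) = f (M.φ x)) (h2 : ∀ x, ¬Q x → N.α (f x) = f (M.α x)) :
    M.inv Q Y = N.inv Q' Y' := by
  have yf : ∀ x, Y' (f x) ↔ Y x := fun x =>
    (hy _).trans ⟨fun ⟨_, a, e⟩ => hf e ▸ a, fun a => ⟨x, a, rfl⟩⟩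
  have r : ∀ y, Y' y ∧ ¬Q' y ↔ ∃ x, (Y x ∧ ¬Q x) ∧ f x = y := fun y =>
    ⟨fun ⟨a, b⟩ => by
      obtain ⟨x, c, rfl⟩ := (hy y).1 a
      exact ⟨x, ⟨c, mt (hq x).2 b⟩, rfl⟩,
    fun ⟨x, a, e⟩ => e ▸ ⟨(yf x).2 a.1, mt (hq x).1 a.2⟩⟩
  have s : ∀ x, ¬Q x → N.σ (f x) = f (M.σ x) := fun x a => by
    rw [N.σ_apply, h2 x a, h1, M.σ_apply]
  have e1 := k.on_map M.φ N.φ Y Y' f (fun _ _ _ _ e => hf e) hy fun x _ => by
    rw [h1, yf]; exact ⟨Iff.rfl, fun _ => rfl⟩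
  have e2 := k.on_map M.σ N.σ _ _ f (fun _ _ _ _ e => hf e) r fun x a => by
    rw [s x a.2, yf, hq]; exact ⟨Iff.rfl, fun _ => rfl⟩
  have e3 := k.on_map M.α N.α _ _ f (fun _ _ _ _ e => hf e) r fun x a => by
    rw [h2 x a.2, yf, hq]; exact ⟨Iff.rfl, fun _ => rfl⟩
  have e4 : Nat.card {d // Y d ∧ ¬Q d} = Nat.card {d // Y' d ∧ ¬Q' d} := by
    rw [card_eq, card_eq, ← Set.ncard_image_of_injective _ hf]
    exact congrArg _ (Set.ext fun y => (r y).symm)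
  simp only [HMap.inv, e1, e2, e3, e4]

/-- an exchange of the two copies of the boundary graph -/
structure Ex {D : Type} [Finite D] (N : HMap D) (Q X L : D → Prop) (ρ : D → D) : Prop where
  e : N.Edges Q
  c : N.Col Q X
  q : ∀ x, Q x → Q (ρ x)
  rr : ∀ x, Q x → ρ (ρ x) = x
  al : ∀ x, Q x → ρ (N.α x) = N.α (ρ x)
  rt : ∀ x, Q x → ρ (ret N.σ Q x) = ret N.σ Q (ρ x)
  x : ∀ x, Q x → (X (ρ x) ↔ ¬X x)
  l : ∀ x, Q x → (L (ρ x) ↔ ¬L x)
  lφ : ∀ x, L (N.φ x) ↔ L x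
  lα : ∀ x, L (N.α x) ↔ L x

open Classical in
/-- the copy in `X` -/
noncomputable def pick {D : Type} (X : D → Prop) (ρ : D → D) (d : D) : D := if X d then d else ρ d

section pick
variable {D : Type} {Q X : D → Prop} {ρ : D → D}

lemma pick_pos {d : D} (h : X d) : pick X ρ d = d := if_pos h

lemma pick_neg {d : D} (h : ¬X d) : pick X ρ d = ρ d := if_neg h

lemma pick_or (d : D) : pick X ρ d = d ∨ pick X ρ d = ρ d := by
  by_cases h : X d
  · exact .inl (pick_pos h)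
  · exact .inr (pick_neg h)

lemma pick_x {d : D} (h : X (ρ d) ↔ ¬X d) : X (pick X ρ d) := by
  by_cases a : X d
  · rwa [pick_pos a]
  · rw [pick_neg a]; exact h.2 a

lemma pick_ρ {d : D} (h : X (ρ d) ↔ ¬X d) (r : ρ (ρ d) = d) : pick X ρ (ρ d) = pick X ρ d := by
  by_cases a : X d
  · rw [pick_pos a, pick_neg (fun b => h.1 b a), r]
  · rw [pick_neg a, pick_pos (h.2 a)]

lemma pick_pick {Y : D → Prop} {d : D} (h : X (ρ d) ↔ ¬X d) (r : ρ (ρ d) = d) :
    pick X ρ (pick Y ρ d) = pick X ρ d := by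
  rcases pick_or (X := Y) (ρ := ρ) d with e | e <;> rw [e]
  exact pick_ρ h r

end pick

variable {D : Type} [Finite D] {N : HMap D} {Q X L : D → Prop} {ρ : D → D} (h : Ex N Q X L ρ)

include h

lemma qα (d : D) : Q (N.α d) ↔ Q d := q_iff N (fun q a => (h.e q a).1) d

lemma pq {Y : D → Prop} {d : D} (a : Q d) : Q (pick Y ρ d) := by
  rcases pick_or (X := Y) (ρ := ρ) d with e | e <;> rw [e]
  exacts [a, h.q d a]

lemma pα {Y : D → Prop} {d : D} (a : Q d) :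
    pick X ρ (N.α (pick Y ρ d)) = pick X ρ (N.α d) := by
  have b := (qα h d).2 a
  rcases pick_or (X := Y) (ρ := ρ) d with e | e <;> rw [e]
  rw [← h.al d a, pick_ρ (h.x _ b) (h.rr _ b)]

lemma xα {d : D} (a : X d) : X (pick X ρ (N.α d)) := by
  by_cases b : Q d
  · exact pick_x (h.x _ ((qα h d).2 b))
  · have := (h.c.2 d b).2 a
    rwa [pick_pos this]

open Classical in
lemma invol : Involutive fun d => if X d then pick X ρ (N.α d) else d := by
  intro d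
  by_cases a : X d
  · simp only [a, xα h a, if_true]
    by_cases b : Q d
    · rw [pα h ((qα h d).2 b), N.αα, pick_pos a]
    · rw [pick_pos ((h.c.2 d b).2 a), N.αα, pick_pos a]
  · simp only [a, if_false]

/-- the new map, trivial outside `X` -/
noncomputable def nw : HMap D := ⟨N.φ, (invol h).toPerm, invol h⟩

lemma nw_α {d : D} (a : X d) : (nw h).α d = pick X ρ (N.α d) := if_pos a

lemma nw_n {d : D} (a : X d) (b : ¬Q d) : (nw h).α d = N.α d := by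
  rw [nw_α h a, pick_pos ((h.c.2 d b).2 a)]

lemma run {d e : D} {n : ℕ} (a : X (N.σ d)) (b : (nw h).σ e = N.σ d)
    (hn : ∀ m, 0 < m → m < n → ¬Q ((N.σ ^ m) d)) (m : ℕ) (m0 : 0 < m) (l : m ≤ n) :
    ((nw h).σ ^ m) e = (N.σ ^ m) d ∧ X ((N.σ ^ m) d) := by
  induction m with
  | zero => omega
  | succ m i =>
    rcases Nat.eq_zero_or_pos m with rfl | p
    · simpa using ⟨b, a⟩
    · obtain ⟨i1, i2⟩ := i p (by omega)
      have q := hn m p (by omega)
      rw [pow_succ', pow_succ', Perm.mul_apply, Perm.mul_apply, i1, HMap.σ_apply, nw_n h i2 q]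
      exact ⟨rfl, (h.c.1 _).2 ((h.c.2 _ q).2 i2)⟩

lemma nw_ret {x : D} (a : Q x) :
    ret (nw h).σ Q (pick X ρ x) = pick X ρ (ret N.σ Q x) := by
  have xx := pick_x (h.x x a)
  have b := (qα h x).2 a
  have c := (qα h _).2 (pq h (Y := X) b)
  obtain ⟨n, n0, e, q, hn⟩ := ret_nxt N.σ c
  have r := run h (e := pick X ρ x) (by rw [σ_α]; exact (h.c.1 _).2 (pick_x (h.x _ b)))
    (by rw [σ_α, HMap.σ_apply, nw_α h xx, pα h a]; rfl) hn
  have t : pick X ρ (ret N.σ Q x) = ret N.σ Q (N.α (pick X ρ (N.α x))) := by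
    have xe : X (ret N.σ Q (N.α (pick X ρ (N.α x)))) := e ▸ (r n n0 le_rfl).2
    refine Eq.trans ?_ (pick_pos (ρ := ρ) xe)
    have u := (ret_iff N.σ Q x).2 a
    rcases pick_or (X := X) (ρ := ρ) (N.α x) with s | s <;> rw [s]
    · rw [N.αα]
    · rw [h.al x a, N.αα, ← h.rt x a, pick_ρ (h.x _ u) (h.rr _ u)]
  rw [t]
  exact (ret_nxt _ (pq h a)).unique ⟨n, n0, (r n n0 le_rfl).1.trans e, q,
    fun m m0 l => (r m m0 l.le).1 ▸ hn m m0 l⟩

lemma sc_q {x y : D} (a : Q x) (b : Q y) (s : N.σ.SameCycle x y) :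
    (nw h).σ.SameCycle (pick X ρ x) (pick X ρ y) := by
  refine (sc_ind (P := fun z => Q z ∧ (nw h).σ.SameCycle (pick X ρ x) (pick X ρ z))
    ((sc_ret _ Q _ _ a b).2 s) ⟨a, .rfl⟩ fun z hz => ?_).2
  have u := (ret_iff N.σ Q z).2 hz.1
  refine ⟨u, hz.2.trans ((sc_ret _ Q _ _ (pq h hz.1) (pq h u)).1 ?_)⟩
  rw [← nw_ret h hz.1]
  exact sc_step _ _

lemma sc_to {d y : D} (a : X d ∨ Q d) (b : Q y) (s : N.σ.SameCycle d y) :
    (nw h).σ.SameCycle (pick X ρ d) (pick X ρ y) := by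
  by_cases c : Q d
  · exact sc_q h c b s
  have a := a.resolve_right c
  obtain ⟨z, n, n0, e, q, hn⟩ := exists_nxt s b
  have r := run h (e := d) ((h.c.1 _).2 ((h.c.2 _ c).2 a))
    (by rw [HMap.σ_apply, nw_n h a c]; rfl) hn n n0 le_rfl
  have t : N.σ.SameCycle d z := ⟨n, by rw [← e]; simp⟩
  refine .trans ?_ (sc_q h q b (t.symm.trans s))
  rw [pick_pos a, pick_pos (e ▸ r.2)]
  exact ⟨n, by rw [← e, ← r.1]; simp⟩

lemma sc {d e : D} (a : X d) (b : X e) (s : N.σ.SameCycle d e) : (nw h).σ.SameCycle d e := by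
  by_cases c : ∃ y, Q y ∧ N.σ.SameCycle d y
  · obtain ⟨y, q, t⟩ := c
    have := (sc_to h (.inl a) q t).trans (sc_to h (.inl b) q (s.symm.trans t)).symm
    rwa [pick_pos a, pick_pos b] at this
  · obtain ⟨n, n0, -, rfl⟩ := s.exists_pow_eq''
    have c0 : ¬Q d := fun q => c ⟨d, q, .rfl⟩
    have r := run h (e := d) ((h.c.1 _).2 ((h.c.2 _ c0).2 a))
      (by rw [HMap.σ_apply, nw_n h a c0]; rfl) (fun m _ _ q => c ⟨_, q, m, by simp⟩) n n0 le_rfl
    exact ⟨n, by rw [← r.1]; simp⟩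

lemma conn_reg {d e : D} (r : N.Reg Q d e) : X d → Conn (nw h).φ (nw h).α d e := by
  induction r with
  | rel x y r =>
    intro a
    rcases r with rfl | ⟨b, rfl⟩
    · exact conn_a _ _ _
    · rw [← nw_n h a b]; exact conn_b _ _ _
  | refl => exact fun _ => conn_rfl _ _ _
  | symm x y r i => exact fun a => conn_symm (i ((reg_col N Q X h.c _ _ r).2 a))
  | trans x y z r _ i j =>
    exact fun a => conn_trans (i a) (j ((reg_col N Q X h.c _ _ r).1 a))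

lemma conn_α {x : D} (a : Q x) : Conn (nw h).φ (nw h).α (pick X ρ x) (pick X ρ (N.α x)) := by
  rw [← pα h (Y := X) a, ← nw_α h (pick_x (h.x x a))]
  exact conn_b _ _ _

lemma restrict (k : K1) {T : Type} (ι : T → D) (hi : Injective ι) (hr : ∀ d, X d ↔ ∃ t, ι t = d) :
    ∃ M : HMap T, (∀ t, (nw h).φ (ι t) = ι (M.φ t)) ∧ (∀ t, (nw h).α (ι t) = ι (M.α t)) ∧
      M.chi = N.inv Q X + ncycOn N.α (fun d => Q d ∧ L d) +
        ncycOn (ret N.σ Q) (fun d => Q d ∧ L d) - 2 * ncycOn N.α (fun d => Q d ∧ L d) := by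
  have : Finite T := Finite.of_injective ι hi
  have xi : ∀ t, X (ι t) := fun t => (hr _).2 ⟨t, rfl⟩
  choose f hf using fun t => (hr _).1 ((h.c.1 _).2 (xi t))
  choose g hg using fun t => (hr _).1 (xα h (xi t))
  have hg : ∀ t, (nw h).α (ι t) = ι (g t) := fun t => by rw [hg, nw_α h (xi t)]
  have gg : Involutive g := fun t => hi (by rw [← hg, ← hg, (nw h).αα])
  have fi : Injective f := fun a b e => hi (N.φ.injective (by rw [← hf, ← hf, e]))
  let M : HMap T := ⟨Equiv.ofBijective f (Finite.injective_iff_bijective.1 fi), gg.toPerm, gg⟩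
  have mφ : ∀ t, (nw h).φ (ι t) = ι (M.φ t) := fun t => (hf t).symm
  have mα : ∀ t, (nw h).α (ι t) = ι (M.α t) := hg
  have mσ : ∀ t, (nw h).σ (ι t) = ι (M.σ t) := fun t => by
    rw [HMap.σ_apply, mα, mφ, HMap.σ_apply]
  refine ⟨M, mφ, mα, ?_⟩
  have ed : M.Edges fun t => Q (ι t) := fun t a => by
    have b := (qα h _).2 a
    refine ⟨by beta_reduce; rw [← mα, nw_α h (xi t)]; exact pq h b, fun e => ?_⟩
    have := mα t
    rw [e, nw_α h (xi t)] at this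
    rcases pick_or (X := X) (ρ := ρ) (N.α (ι t)) with s | s <;> rw [s] at this
    · exact (h.e _ a).2 this
    · have u := h.l _ b
      rw [this, h.lα] at u
      exact iff_not_self u
  have e1 := chi_univ k M fun q a => (ed q a).1
  have e2 := half k M ed
  have e3 := inv_emb k M N (fun t => Q (ι t)) (fun _ => True) Q X ι hi (by simpa using hr)
    (fun _ => Iff.rfl) mφ fun t a => by rw [← mα, nw_n h (xi t) a]
  have key : ∀ (π : Perm T) (π' : Perm D), (∀ x, Q x → Q (π' x)) →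
      (∀ x, Q x → ρ (π' x) = π' (ρ x)) → (∀ x, Q x → (L (π' x) ↔ L x)) →
      (∀ t, Q (ι t) → ι (π t) = pick X ρ (π' (ι t))) →
      ncycOn π (fun t => Q (ι t)) = ncycOn π' fun d => Q d ∧ L d := by
    intro π π' p1 p2 p3 p4
    refine k.on_map π π' _ _ (fun t => pick L ρ (ι t)) (fun s t a b e => hi ?_) (fun y => ?_)
      fun t a => ?_
    · rw [← pick_pos (ρ := ρ) (xi s), ← pick_pos (ρ := ρ) (xi t),
        ← pick_pick (Y := L) (h.x _ a) (h.rr _ a), ← pick_pick (Y := L) (h.x _ b) (h.rr _ b), e]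
    · refine ⟨fun ⟨a, b⟩ => ?_, fun ⟨t, a, e⟩ => e ▸ ⟨pq h a, pick_x (h.l _ a)⟩⟩
      obtain ⟨t, e⟩ := (hr _).1 (pick_x (h.x y a))
      exact ⟨t, e ▸ pq h a, by rw [e, pick_pick (h.l _ a) (h.rr _ a), pick_pos b]⟩
    · have b := p1 _ a
      have : pick L ρ (ι (π t)) = π' (pick L ρ (ι t)) := by
        rw [p4 t a, pick_pick (h.l _ b) (h.rr _ b)]
        by_cases c : L (ι t)
        · rw [pick_pos c, pick_pos ((p3 _ a).2 c)]
        · rw [pick_neg c, pick_neg (mt (p3 _ a).1 c), p2 _ a]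
      refine ⟨iff_of_true (p4 t a ▸ pq h b) ⟨p1 _ (pq h a), ?_⟩, fun _ => this⟩
      exact (p3 _ (pq h a)).2 (pick_x (h.l _ a))
  have e4 := key M.α N.α (fun x => (qα h x).2) h.al (fun x _ => h.lα x) fun t _ => by
    rw [← mα, nw_α h (xi t)]
  have e5 := key (ret M.σ fun t => Q (ι t)) (ret N.σ Q) (fun x => (ret_iff _ _ x).2) h.rt
    (fun x a => by
      obtain ⟨n, -, e, -⟩ := ret_nxt N.σ a
      have s : N.σ.SameCycle x (ret N.σ Q x) := ⟨n, by rw [← e]; simp⟩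
      have u : ∀ z, L z → L (N.σ z) := fun z c => (h.lφ _).2 ((h.lα _).2 c)
      exact ⟨fun c => sc_ind s.symm c u, fun c => sc_ind s c u⟩)
    fun t a => by
      rw [← ret_emb (Q' := Q) mσ (fun _ => Iff.rfl) a, ← nw_ret h a, pick_pos (xi t)]
  rw [k.on_eq_at _ _ (ret_iff _ _), at_ret k _ _ _ fun _ a => a] at e5
  omega

end Glue

open Glue Kit1 Reg in
theorem glue_st (k : K1) (_ : K3) : GlueSt := by
  intro D₁ D₂ _ _ M₁ Q₁ X₁ M₂ Q₂ X₂ R I
  classical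
  let N : HMap (D₁ ⊕ D₂) := ⟨Perm.sumCongr M₁.φ M₂.φ, Perm.sumCongr M₁.α M₂.α, by
    rintro (d | d) <;> simp [HMap.αα]⟩
  let Q : D₁ ⊕ D₂ → Prop := Sum.elim Q₁ Q₂
  let X : D₁ ⊕ D₂ → Prop := Sum.elim X₁ X₂
  let L : D₁ ⊕ D₂ → Prop := Sum.elim (fun _ => True) fun _ => False
  let ρ : D₁ ⊕ D₂ → D₁ ⊕ D₂ := Sum.elim
    (fun x => if h : Q₁ x then .inr (I.tot₁ x h).choose else .inl x)
    fun y => if h : Q₂ y then .inl (I.tot₂ y h).choose else .inr y
  have r1 : ∀ {x y}, R x y → ρ (.inl x) = .inr y := fun {x y} r => by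
    simp only [ρ, Sum.elim_inl, dif_pos (I.dom x y r).1]
    rw [(I.bij _ _ _ _ (I.tot₁ x (I.dom x y r).1).choose_spec r).1 rfl]
  have r2 : ∀ {x y}, R x y → ρ (.inr y) = .inl x := fun {x y} r => by
    simp only [ρ, Sum.elim_inr, dif_pos (I.dom x y r).2]
    rw [(I.bij _ _ _ _ (I.tot₂ y (I.dom x y r).2).choose_spec r).2 rfl]
  have cs : ∀ {P : D₁ ⊕ D₂ → Prop}, (∀ x y, R x y → P (.inl x) ∧ P (.inr y)) → ∀ d, Q d → P d := by
    rintro P hP (x | y) a
    · obtain ⟨y, r⟩ := I.tot₁ x a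
      exact (hP x y r).1
    · obtain ⟨x, r⟩ := I.tot₂ y a
      exact (hP x y r).2
  have t1 : ∀ {x}, Q₁ x → ret N.σ Q (.inl x) = .inl (ret M₁.σ Q₁ x) := fun a =>
    ret_emb (f := Sum.inl) (a' := N.σ) (Q' := Q) (fun _ => rfl) (fun _ => Iff.rfl) a
  have t2 : ∀ {x}, Q₂ x → ret N.σ Q (.inr x) = .inr (ret M₂.σ Q₂ x) := fun a =>
    ret_emb (f := Sum.inr) (a' := N.σ) (Q' := Q) (fun _ => rfl) (fun _ => Iff.rfl) a
  have h : Ex N Q X L ρ :=
    { e := by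
        rintro (d | d) a
        · exact ⟨(I.e₁ d a).1, fun e => (I.e₁ d a).2 (Sum.inl.inj e)⟩
        · exact ⟨(I.e₂ d a).1, fun e => (I.e₂ d a).2 (Sum.inr.inj e)⟩
      c := ⟨by rintro (d | d); exacts [I.c₁.1 d, I.c₂.1 d], by
        rintro (d | d); exacts [I.c₁.2 d, I.c₂.2 d]⟩
      q := cs fun x y r => by rw [r1 r, r2 r]; exact (I.dom x y r).symm
      rr := cs fun x y r => by rw [r1 r, r2 r, r1 r]; exact ⟨rfl, rfl⟩
      al := cs fun x y r => by rw [r1 r, r2 r]; exact ⟨r1 (I.al x y r), r2 (I.al x y r)⟩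
      rt := cs fun x y r => by
        have := I.nx _ _ (I.al x y r)
        rw [HMap.nx, HMap.nx, M₁.αα, M₂.αα] at this
        rw [r1 r, r2 r, t1 (I.dom x y r).1, t2 (I.dom x y r).2]
        exact ⟨r1 this, r2 this⟩
      x := cs fun x y r => by
        have := I.col x y r
        rw [r1 r, r2 r]
        exact ⟨show X₂ y ↔ ¬X₁ x by tauto, this⟩
      l := cs fun x y r => by rw [r1 r, r2 r]; simp [L]
      lφ := by rintro (d | d) <;> rfl
      lα := by rintro (d | d) <;> rfl }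
  let ι : {d // X₁ d} ⊕ {d // X₂ d} → D₁ ⊕ D₂ := Sum.map Subtype.val Subtype.val
  have hi : Injective ι := Sum.map_injective.2 ⟨Subtype.val_injective, Subtype.val_injective⟩
  have xi : ∀ t, X (ι t) := by rintro (t | t) <;> exact t.2
  obtain ⟨M, mφ, mα, mc⟩ := restrict h k ι hi fun d => ⟨by
    rcases d with d | d
    · exact fun a => ⟨.inl ⟨d, a⟩, rfl⟩
    · exact fun a => ⟨.inr ⟨d, a⟩, rfl⟩, fun ⟨t, e⟩ => e ▸ xi t⟩
  have mσ : ∀ t, (nw h).σ (ι t) = ι (M.σ t) := fun t => by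
    rw [HMap.σ_apply, mα, mφ, HMap.σ_apply]
  have aa : ∀ s t, pick X ρ (N.α (ι s)) = ι t → M.α s = t := fun s t e =>
    hi (by rw [← mα, nw_α h (xi s), e])
  have s1 : ∀ {a b}, M₁.σ.SameCycle a b → N.σ.SameCycle (.inl a) (.inl b) :=
    (sc_emb (a' := N.σ) Sum.inl_injective (fun _ => rfl) _ _).2
  have s2 : ∀ {a b}, M₂.σ.SameCycle a b → N.σ.SameCycle (.inr a) (.inr b) :=
    (sc_emb (a' := N.σ) Sum.inr_injective (fun _ => rfl) _ _).2
  have g1 : ∀ {a b}, M₁.Reg Q₁ a b → N.Reg Q (.inl a) (.inl b) := fun r => by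
    induction r with
    | rel x y r => rcases r with rfl | ⟨b, rfl⟩; exacts [reg_φ N Q _, reg_α N Q b]
    | refl => exact .refl _
    | symm _ _ _ i => exact .symm _ _ i
    | trans _ _ _ _ _ i j => exact .trans _ _ _ i j
  have g2 : ∀ {a b}, M₂.Reg Q₂ a b → N.Reg Q (.inr a) (.inr b) := fun r => by
    induction r with
    | rel x y r => rcases r with rfl | ⟨b, rfl⟩; exacts [reg_φ N Q _, reg_α N Q b]
    | refl => exact .refl _
    | symm _ _ _ i => exact .symm _ _ i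
    | trans _ _ _ _ _ i j => exact .trans _ _ _ i j
  refine ⟨M, fun d e a => hi ?_, fun d e a => hi ?_, fun d e a => aa _ _ ?_,
    fun d e a => aa _ _ ?_, fun d e a => aa _ _ ?_, fun d e a => aa _ _ ?_,
    fun d e a => (sc_emb hi mσ _ _).1 (sc h (xi _) (xi _) (s1 a)),
    fun d e a => (sc_emb hi mσ _ _).1 (sc h (xi _) (xi _) (s2 a)),
    fun d e x y r a b => (sc_emb hi mσ _ _).1 ?_, fun s t => (conn_iff hi mφ mα s t).1 ?_, ?_⟩
  · rw [← mφ]; exact congrArg Sum.inl a.symm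
  · rw [← mφ]; exact congrArg Sum.inr a.symm
  · exact (congrArg (fun z => pick X ρ (.inl z)) a.symm).trans (pick_pos e.2)
  · exact (congrArg (fun z => pick X ρ (.inr z)) a.symm).trans (pick_pos e.2)
  · exact (pick_neg (X := X) (d := .inl _) fun b => (I.col _ _ a).1 b e.2).trans (r1 a)
  · exact (pick_neg (X := X) (d := .inr _) ((I.col _ _ a).1 d.2)).trans (r2 a)
  · have qx : Q (.inl x) := (I.dom x y r).1
    have u1 := sc_to h (.inl (xi (.inl d))) qx (s1 a.symm)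
    have u2 := sc_to h (.inl (xi (.inr e))) (y := .inr y) (I.dom x y r).2 (s2 b.symm)
    rw [← r1 r, pick_ρ (h.x _ qx) (h.rr _ qx)] at u2
    have := u1.trans u2.symm
    rwa [pick_pos (xi _), pick_pos (xi _)] at this
  · by_cases hq : ∃ q, Q₁ q
    · have c2 : ∀ x x', Q₁ x → Q₁ x' → M₁.Reg Q₁ x x' →
          Conn (nw h).φ (nw h).α (pick X ρ (.inl x)) (pick X ρ (.inl x')) := by
        intro x x' a b r
        have c := reg_col M₁ Q₁ X₁ I.c₁ _ _ r
        by_cases u : X₁ x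
        · rw [pick_pos (X := X) (d := .inl x) u, pick_pos (X := X) (d := .inl x') (c.1 u)]
          exact conn_reg h (g1 r) u
        · obtain ⟨y, ry⟩ := I.tot₁ x a
          obtain ⟨y', ry'⟩ := I.tot₁ x' b
          rw [pick_neg (X := X) (d := .inl x) u, pick_neg (X := X) (d := .inl x') (mt c.2 u), r1 ry, r1 ry']
          exact conn_reg h (g2 (I.reg _ _ _ _ ry ry' u r))
            (by_contra fun v => u ((I.col _ _ ry).2 v))
      have c3 : ∀ a b, Conn M₁.φ M₁.α a b → ∀ x x', Q₁ x → Q₁ x' → M₁.Reg Q₁ a x →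
          M₁.Reg Q₁ b x' → Conn (nw h).φ (nw h).α (pick X ρ (.inl x)) (pick X ρ (.inl x')) := by
        intro a b c
        induction c with
        | rel a b r =>
          intro x x' p p' u u'
          by_cases v : M₁.Reg Q₁ a b
          · exact c2 x x' p p' (.trans _ _ _ (.symm _ _ u) (.trans _ _ _ v u'))
          rcases r with rfl | rfl
          · exact absurd (reg_φ M₁ Q₁ a) v
          have qa : Q₁ a := by_contra fun w => v (reg_α M₁ Q₁ w)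
          exact conn_trans (c2 x a p qa (.symm _ _ u)) (conn_trans (conn_α h (x := .inl a) qa)
            (c2 _ x' (I.e₁ a qa).1 p' u'))
        | refl a => exact fun x x' p p' u u' => c2 x x' p p' (.trans _ _ _ (.symm _ _ u) u')
        | symm _ _ _ i => exact fun x x' p p' u u' => conn_symm (i x' x p' p u' u)
        | trans a b c _ _ i j =>
          intro x x' p p' u u'
          obtain ⟨z, pz, uz⟩ := hit M₁ Q₁ I.con₁ hq b
          exact conn_trans (i x z p pz u uz) (j z x' pz p' uz u')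
      have c4 : ∀ t, ∃ x, Q₁ x ∧ Conn (nw h).φ (nw h).α (ι t) (pick X ρ (.inl x)) := by
        rintro (d | d)
        · obtain ⟨z, pz, uz⟩ := hit M₁ Q₁ I.con₁ hq d.1
          refine ⟨z, pz, ?_⟩
          rw [pick_pos (X := X) (d := .inl z) ((reg_col M₁ Q₁ X₁ I.c₁ _ _ uz).1 d.2)]
          exact conn_reg h (g1 uz) d.2
        · obtain ⟨q, a⟩ := hq
          obtain ⟨y, ry⟩ := I.tot₁ q a
          obtain ⟨z, pz, uz⟩ := hit M₂ Q₂ I.con₂ ⟨y, (I.dom _ _ ry).2⟩ d.1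
          obtain ⟨x, rx⟩ := I.tot₂ z pz
          refine ⟨x, (I.dom _ _ rx).1, ?_⟩
          rw [pick_neg (X := X) (d := .inl x) fun v =>
            (I.col _ _ rx).1 v ((reg_col M₂ Q₂ X₂ I.c₂ _ _ uz).1 d.2), r1 rx]
          exact conn_reg h (g2 uz) d.2
      obtain ⟨x, a, c⟩ := c4 s
      obtain ⟨x', a', c'⟩ := c4 t
      exact conn_trans c (conn_trans (c3 x x' (I.con₁ x x') x x' a a' (.refl _) (.refl _))
        (conn_symm c'))
    · have z : ∀ {D : Type} (M : HMap D) (Q : D → Prop), (∀ d, ¬Q d) → M.Con →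
          ∀ a b, M.Reg Q a b := fun M Q n c a b =>
        conn_le (EqvGen.is_equivalence _) (reg_φ M Q) (fun x => reg_α M Q (n x)) (c a b)
      have n1 : ∀ d, ¬Q₁ d := fun d a => hq ⟨d, a⟩
      have n2 : ∀ d, ¬Q₂ d := fun d a => (I.tot₂ d a).elim fun x r => n1 x (I.dom _ _ r).1
      rcases s with s | s <;> rcases t with t | t
      · exact conn_reg h (g1 (z M₁ Q₁ n1 I.con₁ _ _)) s.2
      · exact ((I.flag.resolve_left hq).elim (fun a => a _ s.2) fun a => a _ t.2).elim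
      · exact ((I.flag.resolve_left hq).elim (fun a => a _ t.2) fun a => a _ s.2).elim
      · exact conn_reg h (g2 (z M₂ Q₂ n2 I.con₂ _ _)) s.2
  · have e1 := inv_sum k M₁ (fun q a => (I.e₁ q a).1) I.c₁
    have e2 := half k M₁ I.e₁
    have e3 := inv_add k N h.c (Y := L) ⟨h.lφ, fun d _ => h.lα d⟩
    have e4 := inv_emb k M₁ N Q₁ X₁ Q (fun d => X d ∧ L d) .inl Sum.inl_injective
      (by rintro (d | d) <;> simp [X, L]) (fun _ => Iff.rfl) (fun _ => rfl) fun _ _ => rfl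
    have e5 := inv_emb k M₂ N Q₂ X₂ Q (fun d => X d ∧ ¬L d) .inr Sum.inr_injective
      (by rintro (d | d) <;> simp [X, L]) (fun _ => Iff.rfl) (fun _ => rfl) fun _ _ => rfl
    have rg : ∀ y, Q y ∧ L y ↔ ∃ x, Q₁ x ∧ Sum.inl x = y := by rintro (d | d) <;> simp [Q, L]
    have e6 := k.on_map M₁.α N.α Q₁ _ .inl (fun _ _ _ _ => Sum.inl.inj) rg fun x _ =>
      ⟨⟨fun a => ⟨a, trivial⟩, fun a => a.1⟩, fun _ => rfl⟩
    have e7 := k.on_map (ret M₁.σ Q₁) (ret N.σ Q) Q₁ _ .inl (fun _ _ _ _ => Sum.inl.inj) rg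
      fun x a => by
        rw [t1 a]
        exact ⟨⟨fun a => ⟨a, trivial⟩, fun a => a.1⟩, fun _ => rfl⟩
    rw [k.on_eq_at _ _ (ret_iff _ _), at_ret k _ _ _ fun _ a => a] at e7
    omega

lemma Glue.val {D₁ D₂ A : Type} [Finite D₁] [Finite D₂] {M₁ : HMap D₁} {Q₁ X₁ : D₁ → Prop}
    {M₂ : HMap D₂} {Q₂ X₂ : D₂ → Prop} {R : D₁ → D₂ → Prop} (I : Ifc M₁ Q₁ X₁ M₂ Q₂ X₂ R) {M}
    (g : Glued M₁ Q₁ X₁ M₂ Q₂ X₂ R M) (f₁ : D₁ → A) (f₂ : D₂ → A)
    (h : ∀ x y, R x y → f₁ x = f₂ y) :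
    (∀ d, Sum.elim (fun d => f₁ d.1) (fun d => f₂ d.1) (M.α (.inl d)) = f₁ (M₁.α d.1)) ∧
      ∀ d, Sum.elim (fun d => f₁ d.1) (fun d => f₂ d.1) (M.α (.inr d)) = f₂ (M₂.α d.1) := by
  refine ⟨fun d => ?_, fun d => ?_⟩
  · by_cases a : X₁ (M₁.α d.1)
    · rw [g.α₁₁ d ⟨_, a⟩ rfl]; rfl
    · obtain ⟨y, r⟩ := I.tot₁ _ (I.e₁ _ (by_contra fun b => a ((I.c₁.2 _ b).2 d.2))).1
      rw [g.α₁₂ d ⟨y, by_contra fun b => a ((I.col _ _ r).2 b)⟩ r]
      exact (h _ _ r).symm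
  · by_cases a : X₂ (M₂.α d.1)
    · rw [g.α₂₂ d ⟨_, a⟩ rfl]; rfl
    · obtain ⟨y, r⟩ := I.tot₂ _ (I.e₂ _ (by_contra fun b => a ((I.c₂.2 _ b).2 d.2))).1
      rw [g.α₂₁ ⟨y, (I.col _ _ r).2 a⟩ d r]
      exact h _ _ r

open Glue Kit1 Reg in
theorem swap_st (gl : GlueSt) : SwapSt := by
  intro k V D₁ D₂ _ _ G U ok M₁ Q₁ X₁ vx₁ real₁ w₁ M₂ Q₂ X₂ vx₂ real₂ w₂ R tm I S₁ S₂ hR hE hU hV
    hC hT o1 o2 o3 hχ
  obtain ⟨M, g⟩ := gl _ _ _ _ _ _ _ _ _ I
  obtain ⟨v1, v2⟩ := val I g vx₁ vx₂ fun x y r => (hR x y r).1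
  obtain ⟨r1, r2⟩ := val I g real₁ real₂ fun x y r => propext (hR x y r).2.1
  obtain ⟨w1, w2⟩ := val I g w₁ w₂ fun x y r => (hR x y r).2.2
  have p1 : ∀ d, M.φ (.inl d) = .inl ⟨M₁.φ d.1, (I.c₁.1 _).2 d.2⟩ := fun d => g.φ₁ d _ rfl
  have p2 : ∀ d, M.φ (.inr d) = .inr ⟨M₂.φ d.1, (I.c₂.1 _).2 d.2⟩ := fun d => g.φ₂ d _ rfl
  let S : Sk k G U ({d // X₁ d} ⊕ {d // X₂ d}) :=
    { toHMap := M
      vx := Sum.elim (fun d => vx₁ d.1) fun d => vx₂ d.1
      real := Sum.elim (fun d => real₁ d.1) fun d => real₂ d.1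
      term := fun i => .inl ⟨tm i, (hT i).1⟩
      ok := ok
      vx_σ := fun t => by
        conv_rhs => rw [← M.αα t]
        rcases M.α t with d | d
        · rw [v1, p1, ← S₁.vx_σ (M₁.α _), σ_α]; rfl
        · rw [v2, p2, ← S₂.vx_σ (M₂.α _), σ_α]; rfl
      vx_cyc := by
        have c : ∀ (d : {d // X₁ d}) (e : {d // X₂ d}) v, vx₁ d.1 = some v → vx₂ e.1 = some v →
            M.σ.SameCycle (.inl d) (.inr e) := fun d e v a b => by
          obtain ⟨q, hq, u⟩ := hV _ _ v d.2 e.2 a b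
          obtain ⟨y, r⟩ := I.tot₁ q hq
          exact g.sc₁₂ d e q y r (S₁.vx_cyc _ _ v (.inr hq) (.inl d.2) u a)
            (S₂.vx_cyc _ _ v (.inr (I.dom _ _ r).2) (.inl e.2) ((hR _ _ r).1 ▸ u) b)
        rintro (d | d) (e | e) v a b
        · exact g.sc₁ d e (S₁.vx_cyc _ _ v (.inl d.2) (.inl e.2) a b)
        · exact c d e v a b
        · exact (c e d v b a).symm
        · exact g.sc₂ d e (S₂.vx_cyc _ _ v (.inl d.2) (.inl e.2) a b)
      real_α := by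
        rintro (d | d) a
        · rw [r1]; exact S₁.real_α _ d.2 a
        · rw [r2]; exact S₂.real_α _ d.2 a
      real_adj := by
        rintro (d | d) a
        · rw [v1]; exact S₁.real_adj _ d.2 a
        · rw [v2]; exact S₂.real_adj _ d.2 a
      real_ex := fun u v a => by
        refine existsUnique_of_exists_of_unique ?_ ?_
        · rcases hE u v a with ⟨d, x, h⟩ | ⟨d, x, h⟩
          · exact ⟨.inl ⟨d, x⟩, by rw [v1]; exact h⟩
          · exact ⟨.inr ⟨d, x⟩, by rw [v2]; exact h⟩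
        · rintro (d | d) (e | e) ⟨a1, a2, a3⟩ ⟨b1, b2, b3⟩ <;> simp only [v1, v2] at a3 b3
          · exact congrArg _ (Subtype.ext
              (S₁.uniq _ _ d.2 e.2 a1 b1 (a2.trans b2.symm) (a3.trans b3.symm)))
          · exact absurd (a3.trans b3.symm) (hU _ _ d.2 e.2 a1 b1 (a2.trans b2.symm))
          · exact absurd (b3.trans a3.symm) (hU _ _ e.2 d.2 b1 a1 (b2.trans a2.symm))
          · exact congrArg _ (Subtype.ext
              (S₂.uniq _ _ d.2 e.2 a1 b1 (a2.trans b2.symm) (a3.trans b3.symm)))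
      term_vx := fun i t s => by
        obtain ⟨y, rfl, h⟩ := sc_ind (P := fun t => ∃ y, .inl y = t ∧ M₁.φ.SameCycle (tm i) y.1)
          s ⟨_, rfl, .rfl⟩ (by
            rintro _ ⟨y, rfl, h⟩
            exact ⟨_, (p1 y).symm, h.trans (sc_step _ _)⟩)
        exact (hT i).2.1 _ h
      term_four := fun i => by
        rw [p1, p1, p1, p1]; exact congrArg _ (Subtype.ext (hT i).2.2.1)
      ok_symm := o1
      ok_idx := o2
      ok_once := o3
      cap := by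
        rintro (d | d) z a b
        · obtain ⟨c1, c2, c3⟩ := S₁.cap _ z d.2 a b
          rw [p1, p1, p1]
          exact ⟨c1, congrArg _ (Subtype.ext c2), c3⟩
        · obtain ⟨c1, c2, c3⟩ := S₂.cap _ z d.2 a b
          rw [p2, p2, p2]
          exact ⟨c1, congrArg _ (Subtype.ext c2), c3⟩ }
  refine ⟨S, g, ⟨g.con, g.chi ▸ hχ⟩, fun _ => rfl, fun _ => rfl, fun _ => .rfl, fun _ => .rfl,
    ⟨?_, ?_, fun i => (hT i).2.2.2.1, fun i => ?_, fun i => ?_, fun i => ?_⟩, ?_, ?_⟩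
  · rintro (d | d)
    · exact (w1 d).trans (S₁.inv _ d.2)
    · exact (w2 d).trans (S₂.inv _ d.2)
  · obtain ⟨θ₁, h₁⟩ := S₁.pot
    obtain ⟨θ₂, h₂⟩ := S₂.pot
    refine ⟨Sum.elim (fun d => θ₁ d.1) fun d => θ₂ d.1, ?_⟩
    rintro (d | d) a
    · refine (h₁ _ d.2 fun ⟨i, s⟩ => a ⟨i, ?_⟩).trans (by rw [show S.φ _ = _ from p1 d]; rfl)
      exact (sc_ind (P := fun z => ∃ h : X₁ z, M.φ.SameCycle (S.term i) (.inl ⟨z, h⟩)) s
        ⟨_, .rfl⟩ fun z ⟨h, c⟩ => ⟨_, c.trans (p1 ⟨z, h⟩ ▸ sc_step _ _)⟩).2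
    · exact (h₂ _ d.2 id).trans (by rw [show S.φ _ = _ from p2 d]; rfl)
  · exact (congrArg _ (p1 _)).trans (hT i).2.2.2.2.1
  · show Sum.elim _ _ (M.φ (M.φ (.inl _))) = _
    rw [p1, p1]; exact (hT i).2.2.2.2.2.1
  · show Sum.elim _ _ (M.φ (M.φ (M.φ (.inl _)))) = _
    rw [p1, p1, p1]; exact (hT i).2.2.2.2.2.2
  · rintro (d | d) a
    · exact S₁.edge _ d.2 a
    · exact S₂.edge _ d.2 a
  · rintro (d | d) (e | e) i a b c h
    · exact S₁.vert _ _ i d.2 e.2 a b c h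
    · exact hC _ _ i false d.2 e.2 a b c h
    · exact fun h' => hC _ _ i true e.2 d.2 b a c.symm h' h
    · exact S₂.vert _ _ i d.2 e.2 a b c h

end Pool.Agent.Lib.MP_c1f5fe_lc
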