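import Pool.Agent.Lib.MP_c1f5fe_lc.HMCb

/-! Four markers are inserted in the rotation at each node. -/

namespace Pool.Agent.Lib.MP_c1f5fe_lc

open Equiv Function Relation

namespace HMC

theorem nodup_sum {X Y : Type} : ∀ l : List (X ⊕ Y), (l.filterMap Sum.getLeft?).Nodup →
    (l.filterMap Sum.getRight?).Nodup → l.Nodup := by
  intro l
  induction l with
  | nil => simp
  | cons a l ih =>
    rcases a with x | y <;> simp only [List.filterMap_cons, Sum.getLeft?_inl, Sum.getRight?_inl,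
      Sum.getLeft?_inr, Sum.getRight?_inr, List.nodup_cons, List.mem_filterMap]
    · exact fun h h' => ⟨fun m => h.1 ⟨_, m, rfl⟩, ih h.2 h'⟩
    · exact fun h h' => ⟨fun m => h'.1 ⟨_, m, rfl⟩, ih h h'.2⟩

structure Raw (k : ℕ) (X V : Type) [DecidableEq X] where
  a : Perm X
  b : Perm X
  κ : Perm X
  nd : X → V ⊕ Option (Fin k)
  F : V ⊕ Option (Fin k) → List X
  W : Tm k → List X
  nodup : ∀ c, (F c).Nodup
  mem : ∀ x c, x ∈ F c ↔ nd x = c
  a_eq : ∀ x, a x = (F (nd x)).formPerm x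
  rot : ∀ i, F (.inr (some i)) ~r W (i, 0) ++ W (i, 1) ++ W (i, 2) ++ W (i, 3)
  W_sh : ∀ p, W (sh p) = (W p).reverse.map κ
  ne : ∀ x, nd x ≠ .inr none
  bb : ∀ x, b (b x) = x
  κκ : ∀ x, κ (κ x) = x
  κ_v : ∀ x v, nd x = .inl v → κ x = x
  eg0 : eg a b = 0

namespace Raw
variable {k : ℕ} {X V : Type} [DecidableEq X] (R : Raw k X V)

def ix : X ⊕ Tm k → Option (Fin k) :=
  Sum.elim (fun x => (R.nd x).elim (fun _ => none) id) fun p => some p.1

def side (p : Tm k) : List (X ⊕ Tm k) := .inr p :: (R.W p).map .inl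

def C (i : Fin k) : List (X ⊕ Tm k) :=
  R.side (i, 0) ++ R.side (i, 1) ++ R.side (i, 2) ++ R.side (i, 3)

theorem ix_inl {x : X} {i : Fin k} : R.ix (.inl x) = some i ↔ R.nd x = .inr (some i) := by
  simp only [ix, Sum.elim_inl]
  rcases R.nd x with v | o <;> simp

theorem ix_none {z : X ⊕ Tm k} (h : R.ix z = none) : ∃ x v, z = .inl x ∧ R.nd x = .inl v := by
  rcases z with x | p
  · have := R.ne x
    simp only [ix, Sum.elim_inl] at h
    rcases e : R.nd x with v | o
    · exact ⟨x, v, rfl, e⟩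
    · rw [e] at h this
      exact absurd (congrArg Sum.inr h) this
  · cases h

theorem ix_v {x : X} {v : V} (h : R.nd x = .inl v) : R.ix (.inl x) = none := by simp [ix, h]

theorem mem_C {z : X ⊕ Tm k} {i : Fin k} : z ∈ R.C i ↔ R.ix z = some i := by
  rcases z with x | ⟨j, s⟩
  · rw [ix_inl, ← R.mem, (R.rot i).mem_iff]
    simp [C, side]
  · fin_cases s <;> simp [C, side, ix]

theorem nodup_C (i : Fin k) : (R.C i).Nodup := by
  have h := (R.rot i).nodup_iff.1 (R.nodup _)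
  refine nodup_sum _ ?_ ?_
  · simpa [C, side, List.filterMap_map, Function.comp_def] using h
  · simp [C, side, List.filterMap_map, Function.comp_def]

theorem side_C {z : X ⊕ Tm k} {i : Fin k} : z ∈ R.C i ↔ ∃ s, z ∈ R.side (i, s) := by
  simp only [C, List.mem_append, Fin.exists_fin_succ]
  simp [or_assoc]

theorem side_ix {z : X ⊕ Tm k} {p : Tm k} (h : z ∈ R.side p) : R.ix z = some p.1 :=
  R.mem_C.1 (R.side_C.2 ⟨p.2, h⟩)

theorem side_uniq {z : X ⊕ Tm k} {p q : Tm k} (h : z ∈ R.side p) (h' : z ∈ R.side q) :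
    p = q := by
  obtain ⟨i, s⟩ := p
  obtain ⟨j, t⟩ := q
  obtain rfl : i = j := Option.some.inj ((R.side_ix h).symm.trans (R.side_ix h'))
  have c := R.nodup_C i
  simp only [C, List.nodup_append, List.mem_append] at c
  fin_cases s <;> fin_cases t <;> first
    | rfl
    | (simp only [Fin.zero_eta, Fin.mk_one, Fin.reduceFinMk] at h h'; grind)

theorem nd_a (x : X) : R.nd (R.a x) = R.nd x := by
  rw [← R.mem, R.a_eq]
  exact List.formPerm_apply_mem_of_mem ((R.mem _ _).2 rfl)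

def a0 (z : X ⊕ Tm k) : X ⊕ Tm k :=
  match R.ix z with
  | some i => (R.C i).formPerm z
  | none => Sum.map R.a id z

theorem a0_some {z : X ⊕ Tm k} {i : Fin k} (h : R.ix z = some i) :
    R.a0 z = (R.C i).formPerm z := by simp only [a0, h]

theorem a0_v {x : X} {v : V} (h : R.nd x = .inl v) : R.a0 (.inl x) = .inl (R.a x) := by
  simp only [a0, R.ix_v h]; rfl

theorem ix_a0 (z : X ⊕ Tm k) : R.ix (R.a0 z) = R.ix z := by
  rcases e : R.ix z with _ | i
  · obtain ⟨x, v, rfl, h⟩ := R.ix_none e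
    rw [R.a0_v h]
    exact R.ix_v ((R.nd_a x).trans h)
  · rw [R.a0_some e, ← mem_C]
    exact List.formPerm_apply_mem_of_mem (R.mem_C.2 e)

theorem a0_inj : Injective R.a0 := by
  intro z z' h
  have e' : R.ix z' = R.ix z := by rw [← R.ix_a0, ← h, R.ix_a0]
  rcases e : R.ix z with _ | i
  · obtain ⟨x, v, rfl, k1⟩ := R.ix_none e
    obtain ⟨x', v', rfl, k2⟩ := R.ix_none (e'.trans e)
    rw [R.a0_v k1, R.a0_v k2] at h
    rw [R.a.injective (Sum.inl.inj h)]
  · rw [R.a0_some e, R.a0_some (e'.trans e)] at h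
    exact (R.C i).formPerm.injective h

def κ' : Perm (X ⊕ Tm k) := Perm.sumCongr R.κ (Equiv.prodCongr (.refl _) (Equiv.subRight 1))

theorem κ'_inl (x : X) : R.κ' (.inl x) = .inl (R.κ x) := rfl

theorem κ'_inr (p : Tm k) : R.κ' (.inr p) = .inr (p.1, p.2 - 1) := rfl

theorem κ'_inv (x : X) : R.κ'⁻¹ (.inl x) = .inl (R.κ x) := by
  rw [Perm.inv_eq_iff_eq, κ'_inl, R.κκ]

theorem κ_side {x : X} {p : Tm k} (h : .inl x ∈ R.side p) : .inl (R.κ x) ∈ R.side (sh p) := by
  simp only [side, List.mem_cons, reduceCtorEq, List.mem_map, Sum.inl.injEq, false_or,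
    exists_eq_right, R.W_sh, List.mem_reverse] at h ⊢
  exact ⟨x, h, rfl⟩

theorem ix_κ (z : X ⊕ Tm k) : R.ix (R.κ' z) = R.ix z := by
  rcases z with x | p
  · rcases e : R.ix (.inl x) with _ | i
    · obtain ⟨_, v, ⟨⟩, h⟩ := R.ix_none e
      rw [κ'_inl, R.κ_v x v h, e]
    · obtain ⟨s, h⟩ := R.side_C.1 (R.mem_C.2 e)
      exact R.side_ix (R.κ_side h)
  · rfl

variable [Finite X]

noncomputable def a' : Perm (X ⊕ Tm k) :=
  Equiv.ofBijective R.a0 (Finite.injective_iff_bijective.1 R.a0_inj)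

theorem a'_eq (z : X ⊕ Tm k) : R.a' z = R.a0 z := rfl

theorem agree (i : Fin k) : ∀ p ∈ R.C i, R.a' p = (R.C i).formPerm p :=
  fun _ h => R.a0_some (R.mem_C.1 h)

theorem chain (p : Tm k) :
    (R.side p ++ [Sum.inr (p.1, p.2 + 1)]).IsChain fun u v => R.a' u = v := by
  obtain ⟨i, s⟩ := p
  have c : (R.C i ++ [Sum.inr (i, 0)]).IsChain fun u v => R.a' u = v := by
    refine (chain_form (Sum.inr (i, 0)) _ (R.nodup_C i)).imp_of_mem_imp fun u v hu _ e => ?_
    refine (R.agree i u ?_).trans e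
    rcases List.mem_append.1 hu with hu | hu
    · exact hu
    · rw [List.mem_singleton.1 hu]; exact R.mem_C.2 rfl
  have e : R.C i ++ [Sum.inr (i, 0)] = R.side (i, 0) ++ Sum.inr (i, 1) ::
      ((R.W (i, 1)).map Sum.inl ++
        Sum.inr (i, 2) :: ((R.W (i, 2)).map Sum.inl ++ Sum.inr (i, 3) ::
        ((R.W (i, 3)).map Sum.inl ++
        [Sum.inr (i, 0)]))) := by simp [C, side]
  rw [e, List.isChain_split] at c
  obtain ⟨c0, c⟩ := c
  rw [← List.cons_append, List.isChain_split] at c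
  obtain ⟨c1, c⟩ := c
  rw [← List.cons_append, List.isChain_split] at c
  fin_cases s
  · exact c0
  · exact c1
  · exact c.1
  · exact c.2

theorem step {z : X ⊕ Tm k} {p : Tm k} (h : z ∈ R.side p) :
    R.a' (R.κ'⁻¹ (R.a' z)) = R.κ' z ∧ R.κ'⁻¹ (R.a' z) ∈ R.side (sh p) := by
  have c1 := R.chain p
  have c2 := R.chain (sh p)
  have k1 : R.κ'⁻¹ (.inr (p.1, p.2 + 1 + 0)) = .inr (sh p) := by
    rw [Perm.inv_eq_iff_eq, κ'_inr]
    simp only [sh, Sum.inr.injEq, Prod.mk.injEq, true_and]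
    generalize p.2 = s
    revert s; decide
  have c3 := mirror (R := fun u v => R.a' u = v) (κ := R.κ') (κp := R.κ') (κm := ⇑R.κ'⁻¹) k1
    ((R.W p).map .inl) (.inr p) (.inr ((sh p).1, (sh p).2 + 1)) (by
      simp only [κ'_inr, sh, Sum.inr.injEq, Prod.mk.injEq, true_and]
      generalize p.2 = s
      revert s; decide) (by
      intro x hx
      obtain ⟨x, -, rfl⟩ := List.mem_map.1 hx
      exact ⟨rfl, R.κ'_inv x⟩) (by
      rw [← List.isChain_reverse]
      convert c2 using 1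
      simp [side, R.W_sh, κ'_inl, Function.comp_def])
  rw [add_zero] at c3 k1
  have c4 : (Sum.inr p :: (R.W p).map Sum.inl ++ [Sum.inr (p.1, p.2 + 1)]).IsChain fun u v =>
      R.a' u = v ∧ R.a' (R.κ'⁻¹ v) = R.κ' u := by
    rw [List.isChain_iff_getElem] at c1 c3 ⊢
    exact fun i hi => ⟨c1 i hi, c3 i hi⟩
  obtain ⟨_, ⟨rfl, e⟩, m⟩ := chain_mem _ _ c4 z h
  refine ⟨e, ?_⟩
  rcases m with m | m
  · obtain ⟨x, hx, e⟩ := List.mem_map.1 m
    rw [← e, κ'_inv]
    exact R.κ_side (.tail _ (e ▸ m))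
  · rw [m, k1]; exact .head _

theorem eg' (h1 : K1) (h5 : K5) : eg R.a' (Perm.sumCongr R.b 1) = 0 := by
  rw [← h5.eg_fix _ _ (fun z => z.isLeft = true) (by rintro (x | p) h <;> simp at h ⊢)]
  have : ret R.a' (fun z => z.isLeft = true) = Perm.sumCongr R.a 1 := by
    ext1 z
    rcases z with x | p
    · refine (ret_nxt R.a' (Q := fun z => z.isLeft = true) rfl).unique ?_
      rcases e : R.ix (.inl x) with _ | i
      · obtain ⟨_, v, ⟨⟩, h⟩ := R.ix_none e
        exact ⟨1, one_pos, R.a0_v h, rfl, fun m a b => by omega⟩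
      · have := cyc_nxt R.a' _ (R.nodup_C i) (R.agree i) (fun z => z.isLeft = true) Sum.isLeft
          (fun _ _ => Iff.rfl) (R.mem_C.2 e) rfl
        have e1 : (R.C i).filter Sum.isLeft = (R.W (i, 0) ++ R.W (i, 1) ++ R.W (i, 2) ++
            R.W (i, 3)).map Sum.inl := by
          simp [C, side, List.filter_map, Function.comp_def]
        have e2 := R.ix_inl.1 e
        rwa [e1, formPerm_map Sum.inl_injective ((R.rot i).nodup_iff.1 (R.nodup _))
          ((R.rot i).mem_iff.1 ((R.mem _ _).2 e2)),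
          ← List.formPerm_eq_of_isRotated (R.nodup _) (R.rot i), ← e2, ← R.a_eq] at this
    · exact ret_not _ (by simp)
  rw [this]
  refine le_antisymm ?_ (h1.eg_nonneg _ _)
  obtain ⟨e1, e2⟩ := h1.eg_add (Perm.sumCongr R.a 1) (Perm.sumCongr R.b 1) R.a R.b
    (1 : Perm (Tm k)) 1 Sum.inl Sum.inr (by simpa using bijective_id) (fun _ => rfl)
    (fun _ => rfl) (fun _ => rfl) fun _ => rfl
  have e3 : ncomp (1 : Perm (Tm k)) 1 ≤ Nat.card (Tm k) :=
    Nat.card_le_card_of_surjective _ Quotient.mk_surjective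
  have e4 := R.eg0
  have e5 : chi (1 : Perm (Tm k)) 1 = 2 * Nat.card (Tm k) := by
    rw [chi, mul_one, h1.ncyc_one]; ring
  simp only [eg] at e4 ⊢
  omega

noncomputable def base (h1 : K1) (h5 : K5) : Base k (X ⊕ Tm k) where
  a := R.a'
  b := Perm.sumCongr R.b 1
  κ := R.κ'
  N z := R.ix z ≠ none
  mr p := .inr (sh p)
  bb := by rintro (x | p) <;> simp [R.bb]
  Na z := by rw [a'_eq, R.ix_a0]
  Nκ z := by rw [R.ix_κ]
  mkN p := by simp [ix]
  mk_inj p q h := by simpa [sh, Prod.ext_iff] using h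
  κmk i j := by
    simp only [κ'_inr, sh, Sum.inr.injEq, Prod.mk.injEq, true_and]
    revert j; decide
  κκ := by
    rintro (x | p) - h
    · rw [κ'_inl, κ'_inl, R.κκ]
    · exact absurd (by simp [sh]) (h (p.1, p.2 - 2))
  mir z h := by
    obtain ⟨i, e⟩ := Option.ne_none_iff_exists'.1 h
    obtain ⟨s, h⟩ := R.side_C.1 (R.mem_C.2 e)
    exact (R.step h).1
  cyc z h := by
    obtain ⟨i, e⟩ := Option.ne_none_iff_exists'.1 h
    exact ⟨i, sc_of_agree _ _ (R.nodup_C i) (R.agree i) (R.mem_C.2 rfl) (R.mem_C.2 e)⟩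
  eg0 := R.eg' h1 h5

omit [Finite X] in
theorem ex_side (z : {z // R.ix z ≠ none}) : ∃ p, z.1 ∈ R.side p := by
  obtain ⟨i, e⟩ := Option.ne_none_iff_exists'.1 z.2
  obtain ⟨s, h⟩ := R.side_C.1 (R.mem_C.2 e)
  exact ⟨_, h⟩

noncomputable def baseL (h1 : K1) (h5 : K5) : BaseL k (X ⊕ Tm k) V where
  toBase := R.base h1 h5
  tp z := (R.ex_side z).choose
  vz := Sum.elim (fun x => (R.nd x).getLeft?) fun _ => none
  tp_μ z := by
    obtain ⟨e, m⟩ := R.step (R.ex_side z).choose_spec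
    refine R.side_uniq (R.ex_side _).choose_spec ?_
    change R.a'⁻¹ (R.κ' z) ∈ _
    rwa [← e, Perm.coe_inv R.a', symm_apply_apply]
  tp_κ := by
    rintro ⟨x | p, h⟩ n
    · exact R.side_uniq (R.ex_side _).choose_spec (R.κ_side (R.ex_side ⟨_, h⟩).choose_spec)
    · exact absurd (by simp [base, sh]) (n (p.1, p.2 - 2))
  tp_mr p := R.side_uniq (R.ex_side _).choose_spec (.head _)
  vz_N := by
    rintro (x | p) h
    · rcases e : R.nd x with v | o
      · exact absurd (R.ix_v e) h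
      · simp [e]
    · rfl
  vz_a z := by
    change Sum.elim _ _ (R.a0 z) = _
    have key : ∀ z, R.ix z ≠ none →
        Sum.elim (fun x => (R.nd x).getLeft?) (fun _ => none) z = none := by
      rintro (x | p) h
      · rcases e : R.nd x with v | o
        · exact absurd (R.ix_v e) h
        · simp [e]
      · rfl
    by_cases h : R.ix z = none
    · obtain ⟨x, v, rfl, h'⟩ := R.ix_none h
      rw [R.a0_v h', Sum.elim_inl, Sum.elim_inl, R.nd_a]
    · rw [key z h, key _ (by rwa [R.ix_a0])]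
  vz_cyc := by
    rintro (x | p) (y | q) v h h' <;> simp only [Sum.elim_inl, Sum.elim_inr, reduceCtorEq,
      Sum.getLeft?_eq_some_iff] at h h'
    refine sc_of_agree R.a' ((R.F (.inl v)).map Sum.inl) ((R.nodup _).map Sum.inl_injective)
      (fun z hz => ?_) (List.mem_map_of_mem ((R.mem _ _).2 h))
      (List.mem_map_of_mem ((R.mem _ _).2 h'))
    obtain ⟨z, hz', rfl⟩ := List.mem_map.1 hz
    have := (R.mem _ _).1 hz'
    rw [formPerm_map Sum.inl_injective (R.nodup _) hz', a'_eq, R.a0_v this, R.a_eq, this]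

end Raw

end HMC

end Pool.Agent.Lib.MP_c1f5fe_lc
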