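import Pool.Agent.Lib.MP_c1f5fe_lc.HMCc
import Pool.Agent.Lib.MP_c1f5fe_lc.HMCd

/-! From a planar order to a solution. -/

namespace Pool.Agent.Lib.MP_c1f5fe_lc

open Equiv Function Relation
open Pool.Agent.Lib.MP_50b5c6_lc.Np (NC)

namespace HMC

variable {k : ℕ} {V : Type} {G : SimpleGraph V} {lab : V → V → List (Lab k)}

def ob (ok : LabOK G lab) (x : XS G lab) : XS G lab :=
  ⟨opp lab x.1, x.2.1.symm, by
    simp only [opp, ok.rev _ _ x.2.1, List.length_reverse]; omega⟩

theorem ob_ob (ok : LabOK G lab) : Involutive (ob ok) := by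
  rintro ⟨⟨u, v, j⟩, a, hj⟩
  simp only [ob, opp, ok.rev _ _ a, List.length_reverse, Subtype.mk.injEq, Prod.mk.injEq,
    true_and] at hj ⊢
  omega

def kb (ok : LabOK G lab) (x : XS G lab) : XS G lab :=
  if h : x.1.2.2 = 0 then x else ⟨kap lab x.1, x.2.1.symm, by
    have := x.2.2
    simp only [kap, ok.rev _ _ x.2.1, List.length_reverse]; omega⟩

theorem kb_val (ok : LabOK G lab) {x : XS G lab} (h : x.1.2.2 ≠ 0) : (kb ok x).1 = kap lab x.1 := by
  simp only [kb, dif_neg h]

theorem kb_kb (ok : LabOK G lab) : Involutive (kb ok) := by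
  intro x
  by_cases h : x.1.2.2 = 0
  · simp only [kb, dif_pos h]
  · apply Subtype.ext
    rw [kb_val ok (by rw [kb_val ok h]; simp [kap]), kb_val ok h]
    obtain ⟨⟨u, v, j⟩, a, hj⟩ := x
    simp only [kap, ok.rev _ _ a, List.length_reverse, Prod.mk.injEq, true_and] at h hj ⊢
    omega

theorem lb_kap (ok : LabOK G lab) {x : XS G lab} (h : x.1.2.2 ≠ 0) :
    lb lab (kap lab x.1) = lb lab x.1 := by
  obtain ⟨⟨u, v, j⟩, a, hj⟩ := x
  simp only [lb, kap, ok.rev _ _ a] at h hj ⊢
  exact List.getElem?_reverse' (by omega)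

theorem idx_ne {x : Sg V} {o} (h : node lab x = .inr o) : x.2.2 ≠ 0 := by
  intro e
  simp [node, e] at h

open Classical in
theorem ex_W (ok : LabOK G lab) (L : List (XS G lab)) (i : Fin k) (A B : List (Sg V))
    (hA : ∀ x ∈ A, lb lab x = some (i, false)) (hB : ∀ x ∈ B, lb lab x = some (i, true))
    (h : ((L.map Subtype.val).filter fun x => node lab x = .inr (some i)) ~r
      A ++ B ++ A.reverse.map (kap lab) ++ B.reverse.map (kap lab)) :
    ∃ W : Fin 4 → List (XS G lab), (L.filter fun x => node lab x.1 = .inr (some i)) ~r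
      W 0 ++ W 1 ++ W 2 ++ W 3 ∧ (∀ s, W (s + 2) = (W s).reverse.map (kb ok)) ∧
      ∀ s, ∀ x ∈ W s, lb lab x.1 = some (lt (i, s)).1 := by
  have key : ∀ x ∈ A ++ B, IsSg G lab x ∧ x.2.2 ≠ 0 := by
    intro x hx
    have := h.mem_iff.2 (List.mem_append_left _ (List.mem_append_left _ hx))
    rw [List.mem_filter, List.mem_map, decide_eq_true_eq] at this
    obtain ⟨⟨y, -, rfl⟩, e⟩ := this
    exact ⟨y.2, idx_ne e⟩
  lift A to List (XS G lab) using fun x hx => (key x (List.mem_append_left _ hx)).1
  lift B to List (XS G lab) using fun x hx => (key x (List.mem_append_right _ hx)).1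
  have k1 : ∀ x ∈ A, x.1.2.2 ≠ 0 := fun x hx =>
    (key _ (List.mem_append_left _ (List.mem_map_of_mem hx))).2
  have k2 : ∀ x ∈ B, x.1.2.2 ≠ 0 := fun x hx =>
    (key _ (List.mem_append_right _ (List.mem_map_of_mem hx))).2
  have m : ∀ A : List (XS G lab), (∀ x ∈ A, x.1.2.2 ≠ 0) →
      (A.map Subtype.val).reverse.map (kap lab) = (A.reverse.map (kb ok)).map Subtype.val := by
    intro A h
    rw [← List.map_reverse, List.map_map, List.map_map]
    exact List.map_congr_left fun x hx => (kb_val ok (h x (List.mem_reverse.1 hx))).symm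
  have r : ∀ A : List (XS G lab), A = (A.reverse.map (kb ok)).reverse.map (kb ok) := by
    intro A
    simp [(kb_kb ok).comp_self]
  have l : ∀ (A : List (XS G lab)) c, (∀ x ∈ A, x.1.2.2 ≠ 0) →
      (∀ x ∈ A.map Subtype.val, lb lab x = c) → ∀ x ∈ A.reverse.map (kb ok), lb lab x.1 = c := by
    intro A c h h' x hx
    obtain ⟨y, hy, rfl⟩ := List.mem_map.1 hx
    rw [List.mem_reverse] at hy
    rw [kb_val ok (h y hy), lb_kap ok (h y hy), h' _ (List.mem_map_of_mem hy)]
  refine ⟨![A, B, A.reverse.map (kb ok), B.reverse.map (kb ok)], ?_, fun s => ?_, fun s => ?_⟩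
  · rw [m A k1, m B k2, List.filter_map, ← List.map_append, ← List.map_append,
      ← List.map_append] at h
    obtain ⟨n, h⟩ := h
    rw [← List.map_rotate] at h
    exact ⟨n, List.map_injective_iff.2 Subtype.val_injective h⟩
  · fin_cases s
    · rfl
    · rfl
    · exact r A
    · exact r B
  · fin_cases s
    · exact fun x hx => hA _ (List.mem_map_of_mem hx)
    · exact fun x hx => hB _ (List.mem_map_of_mem hx)
    · exact l A _ k1 hA
    · exact l B _ k2 hB

end HMC

open HMC in
theorem hmc (h1 : K1) (h5 : K5) (hu : UnordSt) (ab : AbsorbSt) (cn : ConnectSt) : HMCSt := by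
  classical
  rintro k V _ G ⟨lab, L, ok, nd, mem, n1, n2, hW⟩
  have : Finite (XS G lab) :=
    (L.finite_toSet.subset fun x (hx : IsSg G lab x) => (mem x).2 hx).to_subtype
  lift L to List (XS G lab) using fun x hx => (mem x).1 hx
  have all : ∀ x, x ∈ L := fun x => by
    obtain ⟨y, hy, e⟩ := List.mem_map.1 ((mem x.1).2 x.2)
    exact Subtype.ext e ▸ hy
  have nd' : L.Nodup := nd.of_map
  letI : DecidableEq (XS G lab) := fun a b => Classical.propDecidable (a = b)
  obtain ⟨⟨a, ha⟩, -, h⟩ := hu (XS G lab) _ _ L (fun x => node lab x.1)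
    (fun x => s(x.1, opp lab x.1)) nd' all (fun a b c d s => n1 _ _ _ _ (s.map Subtype.val))
    fun a b c d s => n2 _ _ _ _ (s.map Subtype.val)
  have h0 := h a (ob_ob ok).toPerm ha fun d => by
    have e : s((ob ok d).1, opp lab (ob ok d).1) = s(d.1, opp lab d.1) := by
      rw [Sym2.eq_swap]
      exact congrArg (fun x : XS G lab => s(x.1, opp lab d.1)) (ob_ob ok d)
    refine ⟨?_, e⟩
    let F := L.filter fun e => s(e.1, opp lab e.1) = s(d.1, opp lab d.1)
    have m1 : ob ok d ∈ F := List.mem_filter.2 ⟨all _, decide_eq_true e⟩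
    have m2 : d ∈ F := List.mem_filter.2 ⟨all _, decide_eq_true rfl⟩
    have := cyc_nxt L.formPerm L nd' (fun _ _ => rfl)
      (fun e => s(e.1, opp lab e.1) = s(d.1, opp lab d.1)) _ (fun _ _ => decide_eq_true_iff)
      (all (ob ok d)) e
    have c : F.formPerm (ob ok d) = d := by
      have := (List.mem_filter.1 (List.formPerm_apply_mem_of_mem m1)).2
      rcases Sym2.eq_iff.1 (of_decide_eq_true this) with ⟨k1, -⟩ | ⟨k1, -⟩
      · exact Subtype.ext k1
      · have k2 : F.formPerm (ob ok d) = ob ok d := Subtype.ext k1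
        exact k2.trans (((nd'.filter _).isCycleOn_formPerm.2 m1 m2).eq_of_left k2)
    change Nxt _ _ _ (F.formPerm _) at this
    rwa [c] at this
  choose A B hA hB hr using hW
  choose W w1 w2 w3 using fun i => ex_W ok L i (A i) (B i) (hA i) (hB i) (hr i)
  let R : Raw k (XS G lab) V :=
    { a := a
      b := (ob_ob ok).toPerm
      κ := (kb_kb ok).toPerm
      nd := fun x => node lab x.1
      F := fun c => L.filter fun x => node lab x.1 = c
      W := fun p => W p.1 p.2
      nodup := fun _ => nd'.filter _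
      mem := fun x c => by simp [all]
      a_eq := fun x => (ha x).unique (cyc_nxt L.formPerm L nd' (fun _ _ => rfl) _ _
        (fun _ _ => decide_eq_true_iff) (all x) rfl)
      rot := fun i => by convert w1 i
      W_sh := fun p => w2 p.1 p.2
      ne := fun x e => by
        have := idx_ne e
        have := x.2.2
        simp only [node, if_neg ‹_›, Sum.inr.injEq, Option.map_eq_none_iff,
          List.getElem?_eq_none_iff] at e
        omega
      bb := ob_ob ok
      κκ := kb_kb ok
      κ_v := fun x v e => dif_pos (by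
        by_contra c
        simp [node, c] at e)
      eg0 := h0 }
  obtain ⟨_, -⟩ := exists_wellOrder V
  refine Dat.sol (lab := lab)
    { toBaseL := R.baseL h1 h5
      N_inl := fun x => ?_
      b_inl := fun x y e => congrArg Sum.inl (Subtype.ext e.symm)
      κ_inl := fun x y h e => congrArg Sum.inl (Subtype.ext ((kb_val ok h).trans e.symm))
      mr_ne := fun _ _ e => by cases e
      vz_inl := fun x h => ?_
      lb_tp := fun x h => ?_ } h1 ab cn ok
  · refine ⟨fun h e => h (R.ix_v (v := x.1.1) (if_pos e)), fun h e => ?_⟩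
    obtain ⟨_, v, ⟨⟩, e⟩ := R.ix_none e
    simp [R, node, h] at e
  · change (node lab x.1).getLeft? = _
    rw [node, if_pos h]; rfl
  · have := (R.ex_side ⟨_, h⟩).choose_spec
    rcases List.mem_cons.1 this with e | e
    · cases e
    · obtain ⟨_, m, ⟨⟩⟩ := List.mem_map.1 e
      exact w3 _ _ x m

end Pool.Agent.Lib.MP_c1f5fe_lc
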