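import Pool.Agent.Lib.MP_c1f5fe_lc.SpecC

/-! Lists and cyclic orders; the map obtained by adding one handle for each node. -/

namespace Pool.Agent.Lib.MP_c1f5fe_lc

open Equiv Function Relation

namespace HMC

section lists
variable {Z : Type}

theorem chain_form [DecidableEq Z] (x : Z) (t : List Z) (nd : (x :: t).Nodup) :
    (x :: t ++ [x]).IsChain fun p q => (x :: t).formPerm p = q := by
  rw [List.isChain_iff_getElem]
  intro i hi
  have hi' : i < (x :: t).length := by simpa using hi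
  rw [List.getElem_append_left hi', List.formPerm_apply_getElem _ nd i hi']
  rcases Nat.lt_or_ge (i + 1) (x :: t).length with h | h
  · rw [List.getElem_append_left h]
    simp only [Nat.mod_eq_of_lt h]
  · rw [List.getElem_append_right h]
    have : i + 1 = (x :: t).length := by omega
    simp [this]

theorem chain_nxt {π : Perm Z} {Q : Z → Prop} {y : Z} (hy : Q y) : ∀ (l : List Z) (x : Z),
    (x :: l ++ [y]).IsChain (fun p q => π p = q) → (∀ z ∈ l, ¬Q z) → Nxt π Q x y := by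
  intro l
  induction l with
  | nil =>
    intro x h _
    exact ⟨1, one_pos, by simpa using h, hy, fun m a b => by omega⟩
  | cons z l ih =>
    intro x h hl
    rw [List.cons_append, List.cons_append, List.isChain_cons_cons] at h
    obtain ⟨n, n0, e, -, hn⟩ := ih z h.2 fun w hw => hl w (.tail _ hw)
    refine ⟨n + 1, by omega, by rw [pow_succ, Perm.mul_apply, h.1, e], hy, fun m m0 ml => ?_⟩
    obtain ⟨m, rfl⟩ : ∃ r, m = r + 1 := ⟨m - 1, by omega⟩
    rw [pow_succ, Perm.mul_apply, h.1]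
    rcases Nat.eq_zero_or_pos m with rfl | h0
    · exact hl z (.head _)
    · exact hn m h0 (by omega)

theorem chain_mem {R : Z → Z → Prop} {y : Z} : ∀ (l : List Z) (a : Z),
    (a :: l ++ [y]).IsChain R → ∀ x ∈ a :: l, ∃ z, R x z ∧ (z ∈ l ∨ z = y) := by
  intro l
  induction l with
  | nil =>
    intro a h x hx
    rw [List.mem_singleton.1 hx]
    exact ⟨y, by simpa using h, .inr rfl⟩
  | cons b l ih =>
    intro a h x hx
    rw [List.cons_append, List.cons_append, List.isChain_cons_cons] at h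
    rcases List.mem_cons.1 hx with rfl | hx
    · exact ⟨b, h.1, .inl (by simp)⟩
    · obtain ⟨z, h1, h2⟩ := ih b h.2 x hx
      exact ⟨z, h1, h2.imp_left (.tail _)⟩

theorem sc_of_agree [DecidableEq Z] [Finite Z] (π : Perm Z) (C : List Z) (nd : C.Nodup)
    (h : ∀ p ∈ C, π p = C.formPerm p) {p q : Z} (hp : p ∈ C) (hq : q ∈ C) : π.SameCycle p q := by
  obtain ⟨n, -, rfl⟩ := (nd.isCycleOn_formPerm.2 hp hq).exists_pow_eq'
  clear hq
  have : ∀ n : ℕ, (C.formPerm ^ n) p ∈ C ∧ π.SameCycle p ((C.formPerm ^ n) p) := by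
    intro n
    induction n with
    | zero => exact ⟨hp, .refl _ _⟩
    | succ n ih =>
      rw [pow_succ', Perm.mul_apply]
      exact ⟨List.formPerm_apply_mem_of_mem ih.1, h _ ih.1 ▸ ih.2.apply_right⟩
  exact (this n).2

theorem cyc_nxt [DecidableEq Z] (π : Perm Z) (C : List Z) (nd : C.Nodup)
    (h : ∀ p ∈ C, π p = C.formPerm p) (Q : Z → Prop) (q : Z → Bool)
    (hq : ∀ z ∈ C, q z = true ↔ Q z) {x : Z} (hx : x ∈ C) (hQ : Q x) :
    Nxt π Q x ((C.filter q).formPerm x) := by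
  obtain ⟨s, t, rfl⟩ := List.append_of_mem hx
  have r1 : s ++ x :: t ~r x :: (t ++ s) := List.isRotated_append
  have nd' := r1.nodup_iff.1 nd
  have qx : q x = true := (hq x hx).2 hQ
  have r2 : (s ++ x :: t).filter q ~r x :: (t ++ s).filter q := by
    rw [List.filter_append, List.filter_cons_of_pos qx, List.filter_append]
    exact List.isRotated_append
  rw [List.formPerm_eq_of_isRotated (nd.filter _) r2]
  have c : (x :: (t ++ s) ++ [x]).IsChain fun p r => p ∈ s ++ x :: t → π p = r :=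
    (chain_form x _ nd').imp fun p r e hp => by
      rw [h p hp, List.formPerm_eq_of_isRotated nd r1, e]
  have mem : ∀ z ∈ t ++ s, z ∈ s ++ x :: t := fun z hz => r1.mem_iff.2 (.tail _ hz)
  have c' : (x :: (t ++ s) ++ [x]).IsChain fun p r => π p = r := by
    refine c.imp_of_mem_imp fun p r hp _ e => e ?_
    rcases List.mem_append.1 hp with hp | hp
    · exact r1.mem_iff.2 hp
    · rw [List.mem_singleton.1 hp]; exact hx
  cases e : (t ++ s).filter q with
  | nil =>
    rw [List.formPerm_singleton]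
    refine chain_nxt hQ _ _ c' fun z hz hz' => ?_
    exact List.filter_eq_nil_iff.1 e z hz ((hq z (mem z hz)).2 hz')
  | cons y r =>
    have nd2 : (x :: y :: r).Nodup := by rw [← e]; exact r2.nodup_iff.1 (nd.filter _)
    rw [List.formPerm_apply_head _ _ _ nd2]
    obtain ⟨l₁, l₂, e1, e2, e3, -⟩ := List.filter_eq_cons_iff.1 e
    rw [e1] at c' mem
    refine chain_nxt ((hq y (mem y (by simp))).1 e3) l₁ x ?_ fun z hz hz' =>
      e2 z hz ((hq z (mem z (by simp [hz]))).2 hz')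
    have : x :: (l₁ ++ y :: l₂) ++ [x] = (x :: l₁) ++ y :: (l₂ ++ [x]) := by simp
    rw [this, List.isChain_split] at c'
    exact c'.1

theorem formPerm_map {Z' : Type} [DecidableEq Z] [DecidableEq Z'] {f : Z → Z'} (hf : Injective f)
    {l : List Z} (nd : l.Nodup) {x : Z} (hx : x ∈ l) :
    (l.map f).formPerm (f x) = f (l.formPerm x) := by
  obtain ⟨i, hi, rfl⟩ := List.getElem_of_mem hx
  have hi' : i < (l.map f).length := by simpa using hi
  have := List.formPerm_apply_getElem _ (nd.map hf) i hi'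
  rw [List.getElem_map, List.getElem_map] at this
  rw [this, List.formPerm_apply_getElem _ nd i hi]
  simp

theorem mirror {R : Z → Z → Prop} {κ κp κm : Z → Z} {e' f : Z} (hf : κm e' = f) :
    ∀ (A : List Z) (e g : Z), κp e = g → (∀ x ∈ A, κp x = κ x ∧ κm x = κ x) →
      (g :: A.map κ ++ [f]).IsChain (fun x y => R y x) →
      (e :: A ++ [e']).IsChain fun p q => R (κm q) (κp p) := by
  intro A
  induction A with
  | nil =>
    intro e g h _ c
    simpa [h, hf] using c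
  | cons x A ih =>
    intro e g h hA c
    rw [List.map_cons, List.cons_append, List.cons_append, List.isChain_cons_cons] at c
    rw [List.cons_append, List.cons_append, List.isChain_cons_cons]
    refine ⟨by rw [h, (hA x (.head _)).2]; exact c.1, ?_⟩
    exact ih x (κ x) (hA x (.head _)).1 (fun y hy => hA y (.tail _ hy)) c.2

theorem card_le_ncyc {B : Type} [Finite Z] (π : Perm Z) (f : Z → B) (hf : ∀ d, f (π d) = f d)
    (hs : Surjective f) : Nat.card B ≤ ncyc π := by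
  have inv : ∀ a b, π.SameCycle a b → f a = f b := by
    intro a b h
    obtain ⟨n, -, rfl⟩ := h.exists_pow_eq'
    clear h
    induction n with
    | zero => rfl
    | succ n ih => rw [pow_succ', Perm.mul_apply, hf, ih]
  refine Nat.card_le_card_of_surjective (Quotient.lift f inv) fun b => ?_
  obtain ⟨d, rfl⟩ := hs b
  exact ⟨Quotient.mk _ d, rfl⟩

theorem sc_inv {B : Type} [Finite Z] {π : Perm Z} {f : Z → B} (hf : ∀ d, f (π d) = f d) {a b : Z}
    (h : π.SameCycle a b) : f a = f b := by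
  obtain ⟨n, -, rfl⟩ := h.exists_pow_eq'
  clear h
  induction n with
  | zero => rfl
  | succ n ih => rw [pow_succ', Perm.mul_apply, hf, ih]

end lists

abbrev Tm (k : ℕ) : Type := Fin k × Fin 4

/-- a plane map with nodes, four markers at each node and the pairing across the node -/
structure Base (k : ℕ) (Z : Type) where
  a : Perm Z
  b : Perm Z
  κ : Perm Z
  N : Z → Prop
  mr : Tm k → Z
  bb : ∀ x, b (b x) = x
  Na : ∀ x, N (a x) ↔ N x
  Nκ : ∀ x, N (κ x) ↔ N x
  mkN : ∀ p, N (mr p)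
  mk_inj : Injective mr
  κmk : ∀ i j, κ (mr (i, j + 1)) = mr (i, j)
  κκ : ∀ x, N x → (∀ p, mr p ≠ x) → κ (κ x) = x
  mir : ∀ z, N z → a (κ⁻¹ (a z)) = κ z
  cyc : ∀ z, N z → ∃ i, a.SameCycle (mr (i, 0)) z
  eg0 : eg a b = 0

namespace Base
variable {k : ℕ} {Z : Type} (B : Base k Z)

abbrev Nd : Type := {x // B.N x}

/-- old darts, rungs, reversed rungs, darts through a node, terminal darts -/
abbrev D : Type := Z ⊕ B.Nd ⊕ B.Nd ⊕ B.Nd ⊕ Tm k

abbrev o (z : Z) : B.D := .inl z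
abbrev r (x : B.Nd) : B.D := .inr (.inl x)
abbrev r' (x : B.Nd) : B.D := .inr (.inr (.inl x))
abbrev y (x : B.Nd) : B.D := .inr (.inr (.inr (.inl x)))
abbrev t (p : Tm k) : B.D := .inr (.inr (.inr (.inr p)))

def μ0 (x : B.Nd) : B.Nd := ⟨B.a⁻¹ (B.κ x), by
  rw [← B.Na]; simpa [B.Nκ] using x.2⟩

theorem μμ (x : B.Nd) : B.μ0 (B.μ0 x) = x := by
  have := B.mir _ (B.μ0 x).2
  simp only [μ0, Perm.coe_inv, apply_symm_apply, symm_apply_apply] at this
  apply Subtype.ext
  simp [μ0, ← this]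

def μ : Perm B.Nd := Involutive.toPerm B.μ0 B.μμ

theorem μ_val (x : B.Nd) : (B.μ x : Z) = B.a⁻¹ (B.κ x) := rfl

def κN (x : B.Nd) : B.Nd := ⟨B.κ x, (B.Nκ _).2 x.2⟩

def mkN' (p : Tm k) : B.Nd := ⟨B.mr p, B.mkN p⟩

open Classical in
noncomputable def φ0 : B.D → B.D
  | .inl z => if h : B.N (B.b z) then B.r ⟨B.b z, h⟩ else B.o (B.a (B.b z))
  | .inr (.inl x) => B.o (B.a x)
  | .inr (.inr (.inl x)) => B.y x
  | .inr (.inr (.inr (.inl x))) => B.r' (B.μ x)
  | .inr (.inr (.inr (.inr p))) => B.t (p.1, p.2 + 1)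

open Classical in
noncomputable def α0 : B.D → B.D
  | .inl z => B.o (B.b z)
  | .inr (.inl x) => B.r' x
  | .inr (.inr (.inl x)) => B.r x
  | .inr (.inr (.inr (.inl x))) => if h : ∃ p, B.mr p = x then B.t h.choose else B.y (B.κN x)
  | .inr (.inr (.inr (.inr p))) => B.y (B.mkN' p)

theorem α0_mk (p : Tm k) : B.α0 (B.y (B.mkN' p)) = B.t p := by
  have h : ∃ q, B.mr q = (B.mkN' p : Z) := ⟨p, rfl⟩
  simp only [α0, dif_pos h]
  rw [B.mk_inj h.choose_spec]

theorem α0_not {x : B.Nd} (h : ∀ p, B.mr p ≠ x) : B.α0 (B.y x) = B.y (B.κN x) := by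
  simp only [α0, dif_neg (not_exists.2 h)]

theorem κ_not {x : Z} (h : ∀ p, B.mr p ≠ x) (p : Tm k) : B.mr p ≠ B.κ x := by
  intro e
  rw [← B.κmk p.1 p.2] at e
  exact h _ (B.κ.injective e)

theorem mk_or (x : B.Nd) : (∃ p, x = B.mkN' p) ∨ ∀ p, B.mr p ≠ x := by
  by_cases h : ∃ p, B.mr p = x
  · obtain ⟨p, h⟩ := h
    exact .inl ⟨p, Subtype.ext h.symm⟩
  · exact .inr (not_exists.1 h)

theorem αα0 (d : B.D) : B.α0 (B.α0 d) = d := by
  rcases d with z | x | x | x | p
  · simp [α0, B.bb]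
  · rfl
  · rfl
  · rcases B.mk_or x with ⟨p, rfl⟩ | h
    · rw [B.α0_mk]; rfl
    · rw [B.α0_not h, B.α0_not (B.κ_not h)]
      congr 1
      exact Subtype.ext (B.κκ _ x.2 h)
  · exact B.α0_mk p

theorem φ0_inj : Injective B.φ0 := by
  rintro (z | x | x | x | p) (z' | x' | x' | x' | p') e <;> simp only [φ0] at e
  all_goals (try split_ifs at e)
  all_goals simp only [Sum.inl.injEq, Sum.inr.injEq, reduceCtorEq, Subtype.mk.injEq,
    EmbeddingLike.apply_eq_iff_eq, Prod.mk.injEq, add_left_inj] at e ⊢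
  all_goals first
    | exact e
    | exact Subtype.ext e
    | exact Prod.ext e.1 e.2
    | exact absurd (e ▸ Subtype.property _) ‹¬B.N _›

variable [Finite Z]

noncomputable def M : HMap B.D where
  φ := Equiv.ofBijective B.φ0 (Finite.injective_iff_bijective.1 B.φ0_inj)
  α := Involutive.toPerm B.α0 B.αα0
  αα := B.αα0

theorem φ_eq (d : B.D) : B.M.φ d = B.φ0 d := rfl

theorem α_eq (d : B.D) : B.M.α d = B.α0 d := rfl

theorem φ_oN {z : Z} (h : B.N (B.b z)) : B.M.φ (B.o z) = B.r ⟨B.b z, h⟩ := by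
  simp only [φ_eq, φ0, dif_pos h]

theorem φ_o {z : Z} (h : ¬B.N (B.b z)) : B.M.φ (B.o z) = B.o (B.a (B.b z)) := by
  simp only [φ_eq, φ0, dif_neg h]

theorem σ_oN (x : B.Nd) : B.M.σ (B.o x) = B.r x := by
  have h : B.N (B.b (B.b x)) := by rw [B.bb]; exact x.2
  rw [HMap.σ_apply, α_eq]
  exact (B.φ_oN h).trans (by congr 1; exact Subtype.ext (B.bb _))

theorem σ_o {z : Z} (h : ¬B.N z) : B.M.σ (B.o z) = B.o (B.a z) := by
  rw [HMap.σ_apply, α_eq]
  exact (B.φ_o (by rwa [B.bb])).trans (by rw [B.bb])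

theorem σ_r (x : B.Nd) : B.M.σ (B.r x) = B.y x := rfl

theorem σ_r' (x : B.Nd) : B.M.σ (B.r' x) = B.o (B.a x) := rfl

theorem σ_t (p : Tm k) : B.M.σ (B.t p) = B.r' (B.μ (B.mkN' p)) := rfl

theorem σ_mk (p : Tm k) : B.M.σ (B.y (B.mkN' p)) = B.t (p.1, p.2 + 1) := by
  rw [HMap.σ_apply, α_eq, α0_mk]; rfl

theorem σ_y {x : B.Nd} (h : ∀ p, B.mr p ≠ x) : B.M.σ (B.y x) = B.r' (B.μ (B.κN x)) := by
  rw [HMap.σ_apply, α_eq, B.α0_not h]; rfl

/-- the old dart at the tail -/
def ν : B.D → Z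
  | .inl z => z
  | .inr (.inl x) => x
  | .inr (.inr (.inl x)) => B.a x
  | .inr (.inr (.inr (.inl x))) => x
  | .inr (.inr (.inr (.inr p))) => B.κ (B.mr p)

theorem ν_σ (d : B.D) : B.N (B.ν d) ∧ B.ν (B.M.σ d) = B.ν d ∨
    ¬B.N (B.ν d) ∧ d = B.o (B.ν d) ∧ B.M.σ d = B.o (B.a (B.ν d)) := by
  rcases d with z | x | x | x | p
  · by_cases h : B.N z
    · exact .inl ⟨h, by rw [B.σ_oN ⟨z, h⟩]; rfl⟩
    · exact .inr ⟨h, rfl, B.σ_o h⟩
  · exact .inl ⟨x.2, rfl⟩
  · exact .inl ⟨(B.Na _).2 x.2, rfl⟩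
  · refine .inl ⟨x.2, ?_⟩
    rcases B.mk_or x with ⟨p, rfl⟩ | h
    · rw [B.σ_mk]; exact B.κmk _ _
    · rw [B.σ_y h]
      simp only [ν, μ_val, κN, Perm.coe_inv, apply_symm_apply]
      exact B.κκ _ x.2 h
  · refine .inl ⟨(B.Nκ _).2 (B.mkN p), ?_⟩
    rw [B.σ_t]
    simp [ν, μ_val, mkN']

theorem ν_sc {d e : B.D} (h : B.M.σ.SameCycle d e) (hN : B.N (B.ν d)) : B.ν e = B.ν d := by
  classical
  have := sc_inv (f := fun d => if B.N (B.ν d) then some (B.ν d) else none) (fun d => by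
    rcases B.ν_σ d with ⟨h1, h2⟩ | ⟨h1, -, h2⟩
    · simp only [h2]
    · simp only [h2]
      rw [if_neg h1, if_neg]
      exact fun c => h1 ((B.Na _).1 c)) h
  simp only [if_pos hN] at this
  split_ifs at this
  exact (Option.some.inj this).symm

theorem sc_o {z z' : Z} (h : ¬B.N z) (hs : B.a.SameCycle z z') :
    B.M.σ.SameCycle (B.o z) (B.o z') := by
  obtain ⟨n, -, rfl⟩ := hs.exists_pow_eq'
  clear hs
  have : ∀ n : ℕ, ¬B.N ((B.a ^ n) z) ∧ B.M.σ.SameCycle (B.o z) (B.o ((B.a ^ n) z)) := by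
    intro n
    induction n with
    | zero => exact ⟨h, .refl _ _⟩
    | succ n ih =>
      rw [pow_succ', Perm.mul_apply, B.Na, ← B.σ_o ih.1]
      exact ⟨ih.1, ih.2.apply_right⟩
  exact (this n).2

theorem sc_y (x : B.Nd) : B.M.σ.SameCycle (B.o x) (B.y x) := by
  rw [← B.σ_r, ← B.σ_oN]
  exact (Perm.SameCycle.refl _ _).apply_right.apply_right

theorem n_φ : ncyc (B.a * B.b) + ncyc B.μ + k ≤ ncyc B.M.φ := by
  let f : B.D → Quotient (Perm.SameCycle.setoid (B.a * B.b)) ⊕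
      Quotient (Perm.SameCycle.setoid B.μ) ⊕ Fin k
    | .inl z => .inl (Quotient.mk _ z)
    | .inr (.inl x) => .inl (Quotient.mk _ (B.a x))
    | .inr (.inr (.inl x)) => .inr (.inl (Quotient.mk _ x))
    | .inr (.inr (.inr (.inl x))) => .inr (.inl (Quotient.mk _ x))
    | .inr (.inr (.inr (.inr p))) => .inr (.inr p.1)
  have q : ∀ z, Quotient.mk (Perm.SameCycle.setoid (B.a * B.b)) (B.a (B.b z)) = Quotient.mk _ z :=
    fun z => Quotient.sound (Perm.SameCycle.refl (B.a * B.b) z).apply_left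
  have := card_le_ncyc B.M.φ f ?_ ?_
  · simpa only [Nat.card_sum, Nat.card_eq_fintype_card, Fintype.card_fin, ncyc, add_assoc]
      using this
  · rintro (z | x | x | x | p)
    · by_cases h : B.N (B.b z)
      · rw [B.φ_oN h]; exact congrArg Sum.inl (q z)
      · rw [B.φ_o h]; exact congrArg Sum.inl (q z)
    · rfl
    · rfl
    · exact congrArg (Sum.inr ∘ Sum.inl)
        (Quotient.sound (Perm.SameCycle.refl B.μ x).apply_left)
    · rfl
  · rintro (c | c | i)
    · obtain ⟨z, rfl⟩ := Quotient.exists_rep c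
      exact ⟨B.o z, rfl⟩
    · obtain ⟨z, rfl⟩ := Quotient.exists_rep c
      exact ⟨B.y z, rfl⟩
    · exact ⟨B.t (i, 0), rfl⟩

theorem n_σ : ncyc B.a + Nat.card B.Nd ≤ ncyc B.M.σ + k := by
  classical
  let C : Type := {c : Quotient (Perm.SameCycle.setoid B.a) // ∃ z, ¬B.N z ∧ Quotient.mk _ z = c}
  let f : B.D → C ⊕ B.Nd := fun d =>
    if h : B.N (B.ν d) then .inr ⟨_, h⟩ else .inl ⟨Quotient.mk _ (B.ν d), _, h, rfl⟩
  have h1 := card_le_ncyc B.M.σ f ?_ ?_
  · have h2 : ncyc B.a ≤ Nat.card (C ⊕ Fin k) := by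
      refine Nat.card_le_card_of_surjective
        (Sum.elim Subtype.val fun i => Quotient.mk _ (B.mr (i, 0))) fun c => ?_
      obtain ⟨z, rfl⟩ := Quotient.exists_rep c
      by_cases h : B.N z
      · obtain ⟨i, hi⟩ := B.cyc z h
        exact ⟨.inr i, Quotient.sound hi⟩
      · exact ⟨.inl ⟨_, z, h, rfl⟩, rfl⟩
    simp only [Nat.card_sum, Nat.card_eq_fintype_card, Fintype.card_fin] at h1 h2
    omega
  · intro d
    rcases B.ν_σ d with ⟨h1, h2⟩ | ⟨h1, -, h2⟩
    · simp only [f, h2]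
    · have h3 : B.ν (B.M.σ d) = B.a (B.ν d) := by rw [h2]; rfl
      have h4 : ¬B.N (B.ν (B.M.σ d)) := by rw [h3, B.Na]; exact h1
      simp only [f, dif_neg h1, dif_neg h4]
      congr 2
      rw [h3]
      exact Quotient.sound (Perm.SameCycle.refl B.a _).apply_left
  · rintro (⟨_, z, h, rfl⟩ | x)
    · exact ⟨B.o z, dif_neg h⟩
    · exact ⟨B.o x, dif_pos x.2⟩

theorem two_ncyc (h1 : K1) {E : Type} [Finite E] (π : Perm E) (h : ∀ x, π (π x) = x) :
    2 * ncyc π = Nat.card E + Nat.card {x // π x = x} := by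
  have := h1.invol π (fun _ => True) h fun _ _ => trivial
  rw [h1.on_eq_at π _ (by simp), h1.at_univ] at this
  simpa using this

theorem eg_le (h1 : K1) : B.M.eg ≤ 2 * k := by
  have a1 := B.n_φ
  have a2 := B.n_σ
  have a3 := two_ncyc h1 B.M.α B.M.αα
  have a4 := two_ncyc h1 B.b B.bb
  have a5 := two_ncyc h1 B.μ B.μμ
  have a6 : Nat.card {x // B.b x = x} ≤ Nat.card {x // B.M.α x = x} :=
    Nat.card_le_card_of_injective (fun x => ⟨B.o x, congrArg Sum.inl x.2⟩)
      fun x x' e => Subtype.ext (Sum.inl.inj (Subtype.ext_iff.1 e))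
  have a7 : Nat.card B.D = Nat.card Z + 3 * Nat.card B.Nd + 4 * k := by
    have : Nat.card (Tm k) = k * 4 := by simp
    simp only [D, Nat.card_sum, this]
    ring
  have a8 : ncomp B.M.φ B.M.α ≤ ncomp B.a B.b := by
    have cφ : ∀ d, Conn B.M.φ B.M.α d (B.M.φ d) := fun d => .rel _ _ (.inl rfl)
    have cα : ∀ d, Conn B.M.φ B.M.α d (B.M.α d) := fun d => .rel _ _ (.inr rfl)
    have cσ : ∀ d, Conn B.M.φ B.M.α d (B.M.σ d) := fun d => .trans _ _ _ (cα d) (cφ _)
    have cy : ∀ x : B.Nd, Conn B.M.φ B.M.α (B.o x) (B.y x) := fun x =>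
      h1.conn_sc _ _ _ _ (.inr (.inr (.inl (B.sc_y x))))
    refine Nat.card_le_card_of_surjective (Quotient.map B.o ?_) fun c => ?_
    · intro x z h
      induction h with
      | rel x z h =>
        rcases h with rfl | rfl
        · by_cases c : B.N x
          · refine .trans _ _ _ (cσ _) ?_
            rw [B.σ_oN ⟨x, c⟩]
            exact cφ _
          · rw [← B.σ_o c]; exact cσ _
        · exact cα _
      | refl => exact .refl _
      | symm _ _ _ ih => exact .symm _ _ ih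
      | trans _ _ _ _ _ i1 i2 => exact .trans _ _ _ i1 i2
    · obtain ⟨d, rfl⟩ := Quotient.exists_rep c
      rcases d with z | x | x | x | p
      · exact ⟨Quotient.mk _ z, rfl⟩
      · exact ⟨Quotient.mk _ (B.a x), Quotient.sound (.symm _ _ (cφ (B.r x)))⟩
      · exact ⟨Quotient.mk _ (B.a x), Quotient.sound (.symm _ _ (cσ (B.r' x)))⟩
      · exact ⟨Quotient.mk _ x, Quotient.sound (cy x)⟩
      · exact ⟨Quotient.mk _ (B.mr p), Quotient.sound
          (.trans _ _ _ (cy (B.mkN' p)) (.symm _ _ (cα (B.t p))))⟩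
  have a9 := B.eg0
  simp only [HMap.eg, eg, chi] at a9 ⊢
  change _ ≤ ncyc (B.M.φ * B.M.α) + k at a2
  omega

end Base

end HMC

end Pool.Agent.Lib.MP_c1f5fe_lc
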