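import Pool.Agent.Lib.MP_c1f5fe_lc.HMCa

/-! The labelled map with handles is a solution without real darts. -/

namespace Pool.Agent.Lib.MP_c1f5fe_lc

open Equiv Function Relation

namespace HMC

section letters
variable {k : ℕ}

def sh (p : Tm k) : Tm k := (p.1, p.2 + 2)

def lt (p : Tm k) : Let k :=
  ((p.1, ![false, true, false, true] p.2), ![true, true, false, false] p.2)

def lw (p : Tm k) : FG k := FreeGroup.mk [lt p]

theorem lw_sh (p : Tm k) : lw (sh p) = (lw p)⁻¹ := by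
  obtain ⟨i, j⟩ := p
  fin_cases j <;> rfl

def th (p : Tm k) : FG k := ![1, 1, (lw p)⁻¹, (lw p)⁻¹] p.2

theorem th_lw (p : Tm k) : th p * lw p = th (sh p) := by
  have := lw_sh p
  obtain ⟨i, j⟩ := p
  fin_cases j
  · exact (one_mul _).trans (by rw [← inv_inv (lw _), ← this]; rfl)
  · exact (one_mul _).trans (by rw [← inv_inv (lw _), ← this]; rfl)
  · exact inv_mul_cancel _
  · exact inv_mul_cancel _

theorem labs_mk (l : List (Let k)) (h : (l.map fun x => x.1.1).Nodup) :
    labs (FreeGroup.mk l) = l.map Prod.fst := by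
  rw [labs, FreeGroup.toWord_mk, FreeGroup.IsReduced.reduce_eq]
  have : l.Pairwise fun a b => a.1.1 ≠ b.1.1 := List.pairwise_map.1 h
  exact this.isChain.imp fun a b n e => absurd (congrArg Prod.fst e) n

theorem labs_inv (g : FG k) : labs g⁻¹ = (labs g).reverse := by
  simp [labs, FreeGroup.toWord_inv, FreeGroup.invRev, Function.comp_def]

end letters

structure BaseL (k : ℕ) (Z V : Type) extends Base k Z where
  tp : toBase.Nd → Tm k
  vz : Z → Option V
  tp_μ : ∀ x, tp (toBase.μ x) = sh (tp x)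
  tp_κ : ∀ x : toBase.Nd, (∀ p, mr p ≠ x) → tp (toBase.κN x) = sh (tp x)
  tp_mr : ∀ p, tp (toBase.mkN' p) = sh p
  vz_N : ∀ z, N z → vz z = none
  vz_a : ∀ z, vz (a z) = vz z
  vz_cyc : ∀ z z' v, vz z = some v → vz z' = some v → a.SameCycle z z'

namespace BaseL
variable {k : ℕ} {Z V : Type} (B : BaseL k Z V) [Finite Z]

theorem isT {i : Fin k} {d : B.D} (h : B.M.φ.SameCycle (B.t (i, 0)) d) : ∃ p, d = B.t p := by
  have := sc_inv (f := fun d => ∃ p, d = B.t p) (fun d => by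
    rcases d with z | x | x | x | p
    · by_cases h : B.N (B.b z)
      · rw [B.φ_oN h]; simp
      · rw [B.φ_o h]; simp
    all_goals simp [Base.φ_eq, Base.φ0]) h
  exact this ▸ ⟨_, rfl⟩

theorem isT' (p : Tm k) : B.M.φ.SameCycle (B.t (p.1, 0)) (B.t p) := by
  obtain ⟨i, j⟩ := p
  have r := Perm.SameCycle.refl B.M.φ (B.t (i, 0))
  fin_cases j
  · exact r
  · exact r.apply_right
  · exact r.apply_right.apply_right
  · exact r.apply_right.apply_right.apply_right

noncomputable def sk (ok : Lab k → Lab k → Prop) (h1 : ∀ x y, ok x y → ok y x)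
    (h2 : ∀ i x y, ¬ok (i, x) (i, y))
    (h3 : ∀ i j x y, i ≠ j → ok (i, x) (j, y) → ¬ok (i, !x) (j, !y)) :
    Sk k (⊥ : SimpleGraph V) ∅ B.D where
  toHMap := B.M
  vx d := B.vz (B.ν d)
  real _ := False
  term i := B.t (i, 0)
  ok := ok
  vx_σ d := by
    rw [← HMap.σ_apply]
    rcases B.ν_σ d with ⟨-, h⟩ | ⟨-, -, h⟩
    · rw [h]
    · rw [h]; exact B.vz_a _
  vx_cyc d e v hd he := by
    have key : ∀ d, B.vz (B.ν d) = some v → ¬B.N (B.ν d) ∧ d = B.o (B.ν d) := by
      intro d hd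
      rcases B.ν_σ d with ⟨h, -⟩ | ⟨h, h', -⟩
      · rw [B.vz_N _ h] at hd; cases hd
      · exact ⟨h, h'⟩
    rw [(key d hd).2, (key e he).2]
    exact B.sc_o (key d hd).1 (B.vz_cyc _ _ v hd he)
  real_α _ h := h
  real_adj _ h := h.elim
  real_ex _ _ h := h.elim
  term_vx i d h := by
    obtain ⟨p, rfl⟩ := B.isT h
    exact B.vz_N _ ((B.Nκ _).2 (B.mkN p))
  term_four _ := rfl
  ok_symm := h1
  ok_idx := h2
  ok_once := h3
  cap _ _ _ h := h.elim

def w : B.D → FG k
  | .inl _ => 1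
  | .inr (.inl _) => 1
  | .inr (.inr (.inl _)) => 1
  | .inr (.inr (.inr (.inl x))) => lw (B.tp x)
  | .inr (.inr (.inr (.inr p))) => lw p

def θ : B.D → FG k
  | .inl _ => 1
  | .inr (.inl _) => 1
  | .inr (.inr (.inl x)) => th (B.tp x)
  | .inr (.inr (.inr (.inl x))) => th (B.tp x)
  | .inr (.inr (.inr (.inr _))) => 1

theorem valid {ok : Lab k → Lab k → Prop} (h1 h2 h3) : (B.sk ok h1 h2 h3).Valid B.w where
  inv d := by
    change B.w (B.α0 d) = _
    rcases d with z | x | x | x | p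
    · exact inv_one.symm
    · exact inv_one.symm
    · exact inv_one.symm
    · rcases B.mk_or x with ⟨p, rfl⟩ | h
      · rw [B.α0_mk]
        change lw p = (lw (B.tp (B.mkN' p)))⁻¹
        rw [B.tp_mr, lw_sh, inv_inv]
      · rw [B.α0_not h]
        change lw (B.tp (B.κN x)) = (lw (B.tp x))⁻¹
        rw [B.tp_κ _ h, lw_sh]
    · change lw (B.tp (B.mkN' p)) = (lw p)⁻¹
      rw [B.tp_mr, lw_sh]
  pot := ⟨B.θ, fun d hd => by
    change _ = B.θ (B.M.φ d)
    rcases d with z | x | x | x | p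
    · by_cases h : B.N (B.b z)
      · rw [B.φ_oN h]; exact mul_one _
      · rw [B.φ_o h]; exact mul_one _
    · exact mul_one _
    · exact mul_one _
    · change th _ * lw _ = th (B.tp (B.μ x))
      rw [B.tp_μ, th_lw]
    · exact absurd ⟨p.1, B.isT' p⟩ hd⟩
  t0 _ := rfl
  t1 _ := rfl
  t2 _ := rfl
  t3 _ := rfl
  edge _ h := h.elim
  vert _ _ _ h := h.elim

end BaseL

end HMC

end Pool.Agent.Lib.MP_c1f5fe_lc
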