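import Pool.Agent.Lib.MP_c1f5fe_lc.HMCb

/-! Contracting the subdivided edges gives a solution. -/

namespace Pool.Agent.Lib.MP_c1f5fe_lc

open Equiv Function Relation

namespace HMC

variable {k : ℕ} {V : Type}

abbrev XS (G : SimpleGraph V) (lab : V → V → List (Lab k)) : Type := {x : Sg V // IsSg G lab x}

structure Dat (G : SimpleGraph V) (lab : V → V → List (Lab k)) extends
    BaseL k (XS G lab ⊕ Tm k) V where
  N_inl : ∀ x, N (.inl x) ↔ x.1.2.2 ≠ 0
  b_inl : ∀ x y, y.1 = opp lab x.1 → b (.inl x) = .inl y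
  κ_inl : ∀ x y, x.1.2.2 ≠ 0 → y.1 = kap lab x.1 → κ (.inl x) = .inl y
  mr_ne : ∀ p x, mr p ≠ .inl x
  vz_inl : ∀ x, x.1.2.2 = 0 → vz (.inl x) = some x.1.1
  lb_tp : ∀ x h, lb lab x.1 = some (lt (tp ⟨.inl x, h⟩)).1

namespace Dat
variable {G : SimpleGraph V} {lab : V → V → List (Lab k)} (B : Dat G lab) [LinearOrder V]

def Y (d : B.D) : Prop :=
  ∃ x : XS G lab, x.1.2.2 ≠ 0 ∧ (x.1.1 < x.1.2.1 ∧ d = B.o (.inl x) ∨
    x.1.2.1 < x.1.1 ∧ ∃ h, d = B.y ⟨.inl x, h⟩)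

def rz : XS G lab ⊕ Tm k → ℕ
  | .inl x => if x.1.2.2 = 0 then 0 else if x.1.1 < x.1.2.1 then
      2 * ((lab x.1.1 x.1.2.1).length - x.1.2.2) + 1 else 2 * x.1.2.2
  | .inr _ => 0

theorem rz_not {z} (h : ¬B.N z) : rz z = 0 := by
  rcases z with x | p
  · rw [B.N_inl, not_not] at h
    simp [rz, h]
  · rfl

theorem Y_ν {d : B.D} (h : B.Y d) : ∃ x : XS G lab, x.1.2.2 ≠ 0 ∧ B.ν d = .inl x := by
  obtain ⟨x, h0, ⟨-, rfl⟩ | ⟨-, _, rfl⟩⟩ := h <;> exact ⟨x, h0, rfl⟩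

theorem len (ok : LabOK G lab) {u v : V} (h : G.Adj u v) :
    (lab v u).length = (lab u v).length := by rw [ok.rev u v h, List.length_reverse]

omit [LinearOrder V] in
theorem α_y (x x' : XS G lab) (h0 : x.1.2.2 ≠ 0) (e : x'.1 = kap lab x.1) (h h') :
    B.α0 (B.y ⟨.inl x, h⟩) = B.y ⟨.inl x', h'⟩ := by
  rw [B.α0_not fun p => B.mr_ne p x]
  congr 1
  exact Subtype.ext (B.κ_inl x x' h0 e)

variable [Finite (XS G lab)]

theorem free (x : XS G lab) (h : x.1.2.2 = 0) (e : B.D) (he : B.Y e) :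
    ¬B.M.σ.SameCycle e (B.o (.inl x)) := by
  intro s
  obtain ⟨x', h0, e'⟩ := B.Y_ν he
  have := B.ν_sc s (by rw [e', B.N_inl]; exact h0)
  rw [e'] at this
  exact h0 (Sum.inl.inj this ▸ h)

theorem forest (ok : LabOK G lab) (d : B.D) (hd : B.Y d) : B.vz (B.ν d) = none ∧
    rz (B.ν (B.α0 d)) < rz (B.ν d) ∧ (∀ e, B.M.σ.SameCycle d e → ∀ p, e ≠ B.t p) ∧
      ∀ e, B.Y e → B.M.σ.SameCycle d e → d = e := by
  obtain ⟨x, h0, e0⟩ := B.Y_ν hd
  have hN : B.N (B.ν d) := by rw [e0, B.N_inl]; exact h0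
  refine ⟨B.vz_N _ hN, ?_, ?_, ?_⟩
  · obtain ⟨⟨⟨u, v, j⟩, a, hj⟩, h0, ⟨l, rfl⟩ | ⟨l, h, rfl⟩⟩ := hd
    · have := len ok a
      change rz (B.b _) < rz (.inl _)
      rw [B.b_inl _ ⟨opp lab (u, v, j), a.symm, by simp only [opp] at *; omega⟩ rfl]
      simp only [rz, opp] at *
      rw [if_neg h0, if_pos l, if_neg l.not_gt]
      split_ifs <;> omega
    · have := len ok a
      rw [B.α_y _ ⟨kap lab (u, v, j), a.symm, by
        simp only [kap] at h0 this hj ⊢; omega⟩ h0 rfl _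
        ((B.N_inl _).2 (by simp [kap]))]
      change rz (.inl _) < rz (.inl _)
      simp only [rz, kap] at h0 hj this l ⊢
      rw [if_neg h0, if_pos l, if_neg l.not_gt, if_neg (by omega)]
      omega
  · rintro e s ⟨i, j⟩ rfl
    have := B.ν_sc s hN
    rw [e0] at this
    change B.κ (B.mr (i, j)) = _ at this
    rw [← sub_add_cancel j 1, B.κmk] at this
    exact B.mr_ne _ _ this
  · intro e he s
    have := B.ν_sc s hN
    obtain ⟨x, -, ⟨l, rfl⟩ | ⟨l, h, rfl⟩⟩ := hd <;>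
      obtain ⟨x', -, ⟨l', rfl⟩ | ⟨l', h', rfl⟩⟩ := he <;>
      obtain rfl : x' = x := Sum.inl.inj this
    · rfl
    · exact absurd l l'.not_gt
    · exact absurd l l'.not_gt
    · rfl

include B in
theorem sol (h1 : K1) (ab : AbsorbSt) (cn : ConnectSt) (ok : LabOK G lab) : Sol k G ∅ := by
  let okk : Lab k → Lab k → Prop := fun x y =>
    x.1 ≠ y.1 ∧ ∃ u v, G.Adj u v ∧ x ∈ lab u v ∧ y ∈ lab u v
  let S := B.sk okk (fun x y ⟨n, u, v, a, p, q⟩ => ⟨n.symm, u, v, a, q, p⟩)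
    (fun i x y h => h.1 rfl) fun i j x y n ⟨_, u, v, a, p, q⟩ ⟨_, u', v', a', p', q'⟩ =>
      ok.once u v u' v' i j x y a a' n p q p' q'
  obtain ⟨S', eφ, -, eα, -, eterm, eok, -, eeg, econn, s1, s2, evx, hw⟩ :=
    ab k V B.D ⊥ ∅ S B.Y (fun d => rz (B.ν d)) (fun d => by
      change rz (B.ν (B.M.σ d)) = _
      rcases B.ν_σ d with ⟨-, h⟩ | ⟨h, -, h'⟩
      · rw [h]
      · rw [h', B.rz_not h]
        exact B.rz_not fun c => h ((B.Na _).1 c)) fun d hd => by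
      obtain ⟨a, b, c, e⟩ := B.forest ok d hd
      refine ⟨a, b, fun e s ⟨i, t⟩ => ?_, e⟩
      obtain ⟨p, hp⟩ := B.isT t
      exact c e s p hp
  obtain ⟨c, cσ, c1, cY, val⟩ := hw B.w (B.valid _ _ _)
  have chain : ∀ u v, u < v → ∀ (a : G.Adj v u) j (hj : j ≤ (lab v u).length),
      S'.toHMap.σ.SameCycle (B.o (.inl ⟨(v, u, j), a, hj⟩))
        (B.o (.inl ⟨(v, u, 0), a, Nat.zero_le _⟩)) ∧
      ∃ l : List (Let k), c (B.o (.inl ⟨(v, u, j), a, hj⟩)) = FreeGroup.mk l ∧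
        l.map Prod.fst = ((lab v u).take j).reverse := by
    intro u v l a j
    induction j with
    | zero => exact fun hj => ⟨.refl _ _, [], c1 _ (B.free _ rfl), rfl⟩
    | succ j ih =>
      intro hj
      obtain ⟨i1, L, i2, i3⟩ := ih (by omega)
      have := len ok a
      let x : XS G lab := ⟨(v, u, j + 1), a, hj⟩
      let x' : XS G lab := ⟨kap lab x.1, a.symm, by simp only [kap, x]; omega⟩
      have hx : B.N (.inl x) := (B.N_inl _).2 (by simp [x])
      have hx' : B.N (.inl x') := (B.N_inl _).2 (by simp [x', kap])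
      have y1 : B.Y (B.y ⟨.inl x, hx⟩) := ⟨x, by simp [x], .inr ⟨l, hx, rfl⟩⟩
      have y2 : B.Y (B.o (.inl x')) := ⟨x', by simp [x', kap], .inl ⟨l, rfl⟩⟩
      have a1 : S.α (B.y ⟨.inl x, hx⟩) = B.y ⟨.inl x', hx'⟩ :=
        B.α_y x x' (by simp [x]) rfl _ _
      have a2 : S.α (B.o (.inl x')) = B.o (.inl ⟨(v, u, j), a, Nat.le_of_succ_le hj⟩) :=
        congrArg Sum.inl (B.b_inl _ _ (by
          simp only [x', x, kap, opp, Prod.mk.injEq, true_and]; omega))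
      have t1 := B.sc_y ⟨_, hx⟩
      have t2 := B.sc_y ⟨_, hx'⟩
      refine ⟨((s1 _ _ t1).trans (a1 ▸ s2 _ y1)).trans
        (((s1 _ _ t2).symm.trans (a2 ▸ s2 _ y2)).trans i1), lt (B.tp ⟨.inl x, hx⟩) :: L, ?_, ?_⟩
      · rw [sc_inv cσ t1, cY _ y1, a1, ← sc_inv cσ t2, cY _ y2, a2, i2]
        change lw _ * (1 * _) = _
        rw [one_mul, lw, FreeGroup.mul_mk]; rfl
      · have := B.lb_tp x hx
        simp only [lb, x, Nat.add_sub_cancel] at this
        rw [List.take_add_one, this, List.map_cons, i3]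
        simp [x]
  let rd : ∀ p q, G.Adj p q → B.D := fun p q a =>
    B.o (.inl ⟨(p, q, if p < q then 0 else (lab p q).length), a, by
      simp only; split_ifs <;> omega⟩)
  have nY : ∀ p q a, ¬B.Y (rd p q a) := by
    rintro p q a ⟨x, h0, ⟨l, e⟩ | ⟨-, _, e⟩⟩
    · obtain rfl := Sum.inl.inj (Sum.inl.inj e)
      exact h0 (if_pos l)
    · cases e
  have rα0 : ∀ p q a, S.α (rd p q a) = rd q p a.symm := by
    intro p q a
    refine congrArg Sum.inl (B.b_inl _ _ ?_)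
    have := len ok a
    simp only [opp, Prod.mk.injEq, true_and]
    rcases lt_or_gt_of_ne a.ne with l | l <;> simp [l, l.not_gt, this]
  have rα : ∀ p q a, S'.α (rd p q a) = rd q p a.symm := fun p q a => by
    rw [eα _ (nY p q a) (by rw [rα0 p q a]; exact nY q p a.symm), rα0 p q a]
  have v0 : ∀ x : XS G lab, x.1.2.2 = 0 → S'.vx (B.o (.inl x)) = some x.1.1 := fun x h =>
    (evx _ (B.free x h)).trans (B.vz_inl x h)
  have rv : ∀ p q a, S'.vx (rd p q a) = some p := by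
    intro p q a
    rcases lt_or_gt_of_ne a.ne with l | l
    · exact v0 _ (if_pos l)
    · simp only [rd, if_neg l.not_gt]
      rw [sc_inv (π := S'.toHMap.σ) S'.vx_σ (chain q p l a _ le_rfl).1]
      exact v0 _ rfl
  have rw0 : ∀ p q a, p < q →
      labs ((c (rd p q a))⁻¹ * B.w (rd p q a) * c (S.φ (rd p q a))) = lab p q := by
    intro p q a l
    have e1 : c (rd p q a) = 1 := c1 _ (B.free _ (if_pos l))
    have e2 : c (S.φ (rd p q a)) = c (rd q p a.symm) := by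
      rw [← cσ (rd q p a.symm), HMap.σ_apply, rα0 q p a.symm]
    obtain ⟨-, L, i2, i3⟩ := chain p q l a.symm _ le_rfl
    rw [List.take_length, ok.rev p q a, List.reverse_reverse] at i3
    rw [e1, e2]
    simp only [rd, if_neg l.not_gt]
    rw [i2]
    change labs (1⁻¹ * 1 * _) = _
    rw [inv_one, one_mul, one_mul, labs_mk, i3]
    have := ok.idx p q a
    rwa [← i3, List.map_map] at this
  have rw1 : ∀ p q a,
      labs ((c (rd p q a))⁻¹ * B.w (rd p q a) * c (S.φ (rd p q a))) = lab p q := by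
    intro p q a
    rcases lt_or_gt_of_ne a.ne with l | l
    · exact rw0 p q a l
    · have := val.inv (rd q p a.symm)
      rw [rα q p a.symm] at this
      rw [this, labs_inv, rw0 q p a.symm l, ok.rev q p a.symm]
  let T : Sk k G ∅ B.D :=
    { S' with
      real := fun d => ∃ p q a, d = rd p q a
      real_α := by rintro _ ⟨p, q, a, rfl⟩; exact ⟨q, p, a.symm, rα p q a⟩
      real_adj := by
        rintro _ ⟨p, q, a, rfl⟩
        exact ⟨p, q, rv p q a, by rw [rα p q a, rv q p a.symm], a⟩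
      real_ex := by
        intro u v a
        refine ⟨rd u v a, ⟨⟨u, v, a, rfl⟩, rv u v a, by rw [rα u v a, rv v u a.symm]⟩, ?_⟩
        rintro _ ⟨⟨p, q, a', rfl⟩, e1, e2⟩
        rw [rα p q a', rv q p a'.symm] at e2
        rw [rv p q a'] at e1
        cases e1; cases e2; rfl
      cap := fun _ _ _ h => h.elim }
  refine cn k V B.D G T _ ⟨⟨val.inv, val.pot, val.t0, val.t1, val.t2, val.t3⟩, ?_, ?_⟩
    (eeg.trans_le (B.eg_le h1)) fun d => ?_
  · rintro _ ⟨p, q, a, rfl⟩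
    rw [rw1 p q a]
    change List.Pairwise S'.ok _
    rw [eok]
    exact (List.pairwise_map.1 (ok.idx p q a)).imp_of_mem fun hx hy n => ⟨n, p, q, a, hx, hy⟩
  · rintro _ _ i ⟨p, q, a, rfl⟩ ⟨p', q', a', rfl⟩ e
    change S'.vx _ = S'.vx _ at e
    rw [rv p q a, rv p' q' a'] at e
    cases e
    rw [rw1 p q a, rw1 p q' a']
    exact ok.vert p q q' i a a'
  · have key : ∀ d, T.IsT d → ∃ p, d = B.t p := by
      rintro d ⟨i, h⟩
      change S'.φ.SameCycle (S'.term i) d at h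
      rw [eφ, eterm] at h
      exact B.isT h
    by_cases h : T.IsT d
    · obtain ⟨p, rfl⟩ := key d h
      refine ⟨S.α (B.t p), (econn _ _).2 (.rel _ _ (.inr rfl)), fun c => ?_⟩
      obtain ⟨q, e⟩ := key _ c
      cases e
    · exact ⟨d, .refl _, h⟩

end Dat

end HMC

end Pool.Agent.Lib.MP_c1f5fe_lc
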