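import Pool.Agent.Lib.MP_c1f5fe_lc.SpecA

/-! Homology over the field with two elements. -/

namespace Pool.Agent.Lib.MP_c1f5fe_lc

open Equiv Function Relation Module

namespace Hom

abbrev F : Type := ZMod 2

section lin
variable {D Q : Type} [Fintype D] [DecidableEq D] [DecidableEq Q]

/-- sums over the fibres -/
def Sq (q : D → Q) : (D → F) →ₗ[F] (Q → F) where
  toFun y c := ∑ d with q d = c, y d
  map_add' y z := by funext c; simp [Finset.sum_add_distrib]
  map_smul' t y := by funext c; simp [Finset.mul_sum]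

omit [DecidableEq D] in
lemma Sq_apply (q : D → Q) (y : D → F) (c : Q) : Sq q y c = ∑ d with q d = c, y d := rfl

lemma Sq_single (q : D → Q) (x : D) (t : F) : Sq q (Pi.single x t) = Pi.single (q x) t := by
  funext c
  rw [Sq_apply, Finset.sum_filter, Finset.sum_eq_single x]
  · simp [Pi.single_apply, eq_comm]
  · intro b _ hb; simp [hb]
  · simp

lemma rank_ker [Fintype Q] (q : D → Q) (hq : Surjective q) :
    finrank F (LinearMap.ker (Sq q)) + Fintype.card Q = Fintype.card D := by
  have h : LinearMap.range (Sq q) = ⊤ := by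
    rw [eq_top_iff]
    intro f _
    rw [← Finset.univ_sum_single f]
    refine Submodule.sum_mem _ fun c _ => ?_
    obtain ⟨x, rfl⟩ := hq c
    exact ⟨_, Sq_single q x _⟩
  have := LinearMap.finrank_range_add_finrank_ker (Sq q)
  rw [h] at this
  simp only [finrank_top, finrank_fintype_fun_eq_card] at this
  omega

lemma ker_le [Fintype Q] (q : D → Q) (hq : Surjective q) (W : Submodule F (D → F))
    (hW : ∀ x y, q x = q y → Pi.single x (1 : F) - Pi.single y 1 ∈ W) :
    LinearMap.ker (Sq q) ≤ W := by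
  intro y hy
  choose r hr using hq
  have h0 : ∑ x, y x • (Pi.single (r (q x)) 1 : D → F) = 0 := by
    rw [← Finset.sum_fiberwise Finset.univ q]
    refine Finset.sum_eq_zero fun c _ => ?_
    rw [Finset.sum_congr rfl fun x hx => by rw [(Finset.mem_filter.1 hx).2], ← Finset.sum_smul,
      ← Sq_apply, LinearMap.mem_ker.1 hy]
    simp
  have h1 : y = ∑ x, y x • ((Pi.single x 1 : D → F) - Pi.single (r (q x)) 1) := by
    simp only [smul_sub, Finset.sum_sub_distrib, h0, sub_zero]
    funext d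
    simp [Finset.sum_apply, Pi.single_apply]
  rw [h1]
  exact Submodule.sum_mem _ fun x _ => W.smul_mem _ (hW _ _ (hr _).symm)

omit [DecidableEq D] in
lemma Sq_comp (q : D → Q) (a : Perm D) (h : ∀ d, q (a d) = q d) (y : D → F) :
    Sq q (y ∘ a) = Sq q y := by
  funext c
  simp only [Sq_apply, Finset.sum_filter, comp_apply]
  rw [← Equiv.sum_comp a fun d => if q d = c then y d else 0]
  simp [h]

end lin

/-- the class of a point -/
abbrev cy {D : Type} (a : Perm D) : D → Quotient (Perm.SameCycle.setoid a) := Quotient.mk _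

lemma cy_eq {D : Type} (a : Perm D) (x y : D) : cy a x = cy a y ↔ a.SameCycle x y :=
  Quotient.eq

lemma cy_apply {D : Type} (a : Perm D) (x : D) : cy a (a x) = cy a x :=
  (cy_eq a _ _).2 (Perm.sameCycle_apply_left.2 (Perm.SameCycle.refl _ _))

open Classical in
/-- the indicator function -/
noncomputable def ind {D : Type} (Y : D → Prop) : D → F := fun d => if Y d then 1 else 0

open Classical in
lemma ind_mem {D : Type} [Fintype D] (a : Perm D) (Y : D → Prop) (h : Ev a Y) :
    ind Y ∈ LinearMap.ker (Sq (cy a)) := by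
  rw [LinearMap.mem_ker]
  funext c
  obtain ⟨d, rfl⟩ := Quotient.mk_surjective c
  have := h d
  rw [Nat.card_eq_fintype_card, Fintype.card_subtype] at this
  rw [Sq_apply]
  simp only [ind, Finset.sum_boole, Finset.filter_filter, Pi.zero_apply]
  rw [ZMod.natCast_eq_zero_iff_even]
  convert this using 3
  rw [cy_eq, Perm.sameCycle_comm]

lemma gen (h1 : K1) {D : Type} [Finite D] (a b : Perm D) (N : ℕ) (Y : Fin N → D → Prop)
    (hY : ∀ i, Ev a (Y i) ∧ Ev b (Y i)) (hN : 2 ^ (eg a b).toNat < N) :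
    ∃ i j, i ≠ j ∧ ∃ π : D → Prop, (∀ d, π (b (a d)) ↔ π d) ∧
      ∀ d, ¬(Y i d ↔ Y j d) ↔ ¬(π d ↔ π (b d)) := by
  classical
  have : Fintype D := Fintype.ofFinite D
  let qc : D → Quotient (EqvGen.setoid fun x y => y = a x ∨ y = b x) := Quotient.mk _
  set Za := LinearMap.ker (Sq (cy a)) with hZa
  set Zb := LinearMap.ker (Sq (cy b)) with hZb
  have ra := rank_ker (cy a) Quotient.mk_surjective
  have rb := rank_ker (cy b) Quotient.mk_surjective
  have rc := rank_ker qc Quotient.mk_surjective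
  have hle : LinearMap.ker (Sq qc) ≤ Za ⊔ Zb := by
    refine ker_le qc Quotient.mk_surjective _ fun x y h => ?_
    have h' : EqvGen (fun x y => y = a x ∨ y = b x) x y := Quotient.exact h
    clear h
    induction h' with
    | rel x y h =>
      rcases h with rfl | rfl
      · refine Submodule.mem_sup_left ?_
        rw [hZa, LinearMap.mem_ker, map_sub, Sq_single, Sq_single, cy_apply, sub_self]
      · refine Submodule.mem_sup_right ?_
        rw [hZb, LinearMap.mem_ker, map_sub, Sq_single, Sq_single, cy_apply, sub_self]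
    | refl x => simp
    | symm x y _ ih => simpa using Submodule.neg_mem _ ih
    | trans x y z _ _ ih ih' => simpa using Submodule.add_mem _ ih ih'
  have r1 := Submodule.finrank_mono hle
  have r2 := Submodule.finrank_sup_add_finrank_inf_eq Za Zb
  let ι := LinearMap.funLeft F F (cy (b * a))
  have hι : Injective ι := LinearMap.funLeft_injective_of_surjective _ _ _ Quotient.mk_surjective
  have hιi : ∀ f d, ι f (b (a d)) = ι f d := fun f d => congrArg f (cy_apply (b * a) d)
  let β := (LinearMap.id - LinearMap.funLeft F F b).comp ι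
  have hβ : ∀ f, β f = ι f - ι f ∘ b := fun _ => rfl
  have r3 := LinearMap.finrank_range_add_finrank_ker β
  have r4 : finrank F (LinearMap.ker β) ≤
      Fintype.card (Quotient (EqvGen.setoid fun x y => y = a x ∨ y = b x)) := by
    have e1 : (LinearMap.ker β).map ι ≤ LinearMap.range (LinearMap.funLeft F F qc) := by
      rintro _ ⟨f, hf, rfl⟩
      have hb : ∀ d, ι f (b d) = ι f d := fun d => by
        have := congrFun ((hβ f).symm.trans hf) d
        exact (sub_eq_zero.1 this).symm
      have ha : ∀ d, ι f (a d) = ι f d := fun d => by rw [← hb, hιi]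
      refine ⟨Quotient.lift (ι f) fun x y h => ?_, rfl⟩
      have h' : EqvGen (fun x y => y = a x ∨ y = b x) x y := h
      clear h
      induction h' with
      | rel x y h => rcases h with rfl | rfl <;> simp [ha, hb]
      | refl x => rfl
      | symm x y _ ih => exact ih.symm
      | trans x y z _ _ ih ih' => exact ih.trans ih'
    rw [(Submodule.equivMapOfInjective ι hι _).finrank_eq]
    refine (Submodule.finrank_mono e1).trans ((LinearMap.finrank_range_le _).trans ?_)
    simp
  have hB : LinearMap.range β ≤ Za ⊓ Zb := by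
    rintro _ ⟨f, rfl⟩
    refine ⟨?_, ?_⟩
    · change Sq (cy a) (β f) = 0
      rw [hβ, map_sub, ← Sq_comp (cy a) a (cy_apply a) (ι f ∘ b),
        show (ι f ∘ b) ∘ a = ι f from funext (hιi f), sub_self]
    · change Sq (cy b) (β f) = 0
      rw [hβ, map_sub, Sq_comp (cy b) b (cy_apply b), sub_self]
  have r5 := Submodule.finrank_quotient_add_finrank ((LinearMap.range β).submoduleOf (Za ⊓ Zb))
  rw [(Submodule.submoduleOfEquivOfLe hB).finrank_eq] at r5
  rw [finrank_fintype_fun_eq_card] at r3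
  have r6 : finrank F ((Za ⊓ Zb : Submodule F (D → F)) ⧸
      (LinearMap.range β).submoduleOf (Za ⊓ Zb)) ≤ (eg a b).toNat := by
    have e := h1.ncyc_comm a b
    simp only [eg, chi, ncomp, ncyc, Nat.card_eq_fintype_card] at e ⊢
    rw [← hZa] at ra
    rw [← hZb] at rb
    omega
  have hfin : Finite ((Za ⊓ Zb : Submodule F (D → F)) ⧸
      (LinearMap.range β).submoduleOf (Za ⊓ Zb)) := Quotient.finite _
  let G : Fin N → ((Za ⊓ Zb : Submodule F (D → F)) ⧸
      (LinearMap.range β).submoduleOf (Za ⊓ Zb)) := fun i =>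
    Submodule.Quotient.mk ⟨ind (Y i), ind_mem a _ (hY i).1, ind_mem b _ (hY i).2⟩
  have hG : ¬Injective G := fun h => by
    have := Nat.card_le_card_of_injective G h
    rw [Nat.card_fin, Module.natCard_eq_pow_finrank (K := F), Nat.card_zmod] at this
    exact absurd (this.trans (Nat.pow_le_pow_right (by norm_num) r6)) (not_le.2 hN)
  obtain ⟨i, j, hij, hne⟩ := not_injective_iff.1 hG
  obtain ⟨f, hf⟩ := (Submodule.Quotient.eq _).1 hij
  refine ⟨i, j, hne, fun d => ι f d = 1, fun d => by beta_reduce; rw [hιi], fun d => ?_⟩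
  have e : ι f d - ι f (b d) = ind (Y i) d - ind (Y j) d := congrFun hf d
  simp only [ind] at e
  beta_reduce
  generalize ι f d = u at e ⊢
  generalize ι f (b d) = v at e ⊢
  revert u v
  by_cases p : Y i d <;> by_cases q : Y j d <;> simp only [p, q, if_true, if_false] <;> decide

lemma ev_conj {D : Type} (a a' e : Perm D) (Y : D → Prop)
    (h : ∀ x y, a'.SameCycle x y ↔ a.SameCycle (e x) (e y)) (hY : Ev a Y) : Ev a' (Y ∘ e) := by
  intro d
  rw [Nat.card_congr (e.subtypeEquiv (q := fun y => a.SameCycle (e d) y ∧ Y y) fun x => by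
    rw [h]; rfl)]
  exact hY _

lemma ev_false {D : Type} (a : Perm D) : Ev a fun _ => False := fun d => by simp

lemma al_inv {D : Type} (M : HMap D) : M.α⁻¹ = M.α :=
  inv_eq_of_mul_eq_one_right (Equiv.ext M.αα)

lemma rad (h1 : K1) {D : Type} [Finite D] (M : HMap D) (N : ℕ) (Y : Fin N → D → Prop)
    (hY : ∀ i, Ev M.σ (Y i) ∧ Ev M.φ (Y i)) (hN : 2 ^ M.eg.toNat < N) :
    ∃ i j, i ≠ j ∧ ∃ π : D → Prop, (∀ d, π (M.α d) ↔ π d) ∧
      ∀ d, ¬(Y i (M.φ d) ↔ Y j (M.φ d)) ↔ ¬(π d ↔ π (M.φ d)) := by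
  have e : eg (M.φ⁻¹ * M.α) M.φ = M.eg := by
    rw [← h1.eg_inv, mul_inv_rev, inv_inv, h1.eg_mul, al_inv, h1.eg_comm]
    rfl
  obtain ⟨i, j, hij, π, p1, p2⟩ := gen h1 (M.φ⁻¹ * M.α) M.φ N (fun i => Y i ∘ M.φ) (fun i => by
    refine ⟨ev_conj M.σ _ _ _ (fun x y => ?_) (hY i).1, ev_conj M.φ _ _ _ (fun x y => ?_) (hY i).2⟩
    · have : M.φ⁻¹ * M.α = M.φ⁻¹ * M.σ⁻¹ * M.φ⁻¹⁻¹ := by
        rw [HMap.σ, mul_inv_rev, al_inv]; group
      rw [this, Perm.sameCycle_conj, inv_inv, Perm.sameCycle_inv]
    · simp) (by rwa [e])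
  exact ⟨i, j, hij, π, fun d => by simpa using p1 d, p2⟩

lemma two {D : Type} (Y : D → Prop) (i j : Fin 2) (h : i ≠ j) (d : D) :
    ¬((![Y, fun _ => False] : Fin 2 → D → Prop) i d ↔
      (![Y, fun _ => False] : Fin 2 → D → Prop) j d) ↔ Y d := by
  fin_cases i <;> fin_cases j <;> simp at h ⊢

end Hom

theorem k4 (h1 : K1) : K4 where
  gen := Hom.gen h1
  rad := Hom.rad h1
  rad0 M Y h hs hf := by
    obtain ⟨i, j, hij, π, p1, p2⟩ := Hom.rad h1 M 2 ![Y, fun _ => False] (fun i => by
      fin_cases i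
      · exact ⟨hs, hf⟩
      · exact ⟨Hom.ev_false _, Hom.ev_false _⟩) (by simp [h])
    exact ⟨π, p1, fun d => (Hom.two Y i j hij _).symm.trans (p2 d)⟩
  cob M Y h hE hs := by
    have e : eg M.σ⁻¹ M.α = M.eg := by
      rw [← h1.eg_inv, inv_inv, HMap.σ, h1.eg_mul]
      rfl
    have ha : Ev M.α Y := fun d => by
      have := h1.invol M.α (fun e => M.α.SameCycle d e ∧ Y e) M.αα
        fun x hx => ⟨Perm.sameCycle_apply_right.2 hx.1, (hE x hx.2).1⟩
      have h0 : IsEmpty {x // (M.α.SameCycle d x ∧ Y x) ∧ M.α x = x} :=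
        ⟨fun x => (hE _ x.2.1.2).2 x.2.2⟩
      rw [Nat.card_of_isEmpty (α := {x // (M.α.SameCycle d x ∧ Y x) ∧ M.α x = x}), add_zero] at this
      exact ⟨_, this.symm.trans (two_mul _)⟩
    obtain ⟨i, j, hij, π, p1, p2⟩ := Hom.gen h1 M.σ⁻¹ M.α 2 ![Y, fun _ => False] (fun i => by
      fin_cases i
      · exact ⟨fun d => by simpa using hs d, ha⟩
      · exact ⟨Hom.ev_false _, Hom.ev_false _⟩) (by simp [e, h])
    refine ⟨π, fun d => ?_, fun d => (Hom.two Y i j hij _).symm.trans (p2 d)⟩
    have := p1 (M.φ d)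
    rw [HMap.σ, mul_inv_rev, Hom.al_inv, Perm.mul_apply, M.αα] at this
    simpa using this.symm

end Pool.Agent.Lib.MP_c1f5fe_lc
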