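import Pool.Agent.Lib.MP_c1f5fe_lc.HugD

/-! Hugging a frame. -/

namespace Pool.Agent.Lib.MP_c1f5fe_lc

open Equiv Function Relation Sum

set_option linter.unusedSectionVars false

namespace Hug.Stage
variable {k l : ℕ} {V D : Type} [Finite D] {G : SimpleGraph V} {U : Set V}
  {S : Sk k G U D} {c : ZMod l → V} {K : Set V} {Nb : V → Set V} {n : D → ℕ}
  {Mn : D → Prop} {S₁ S' : Sk k G U (D ⊕ JJ S K Mn × Bool)}
  (B : Base S c K Nb n Mn) (St : Stage S c K Nb n Mn S₁ S' Set.univ)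
include B St

theorem xk_iff (d : D ⊕ JJ S K Mn × Bool) : S'.XK K d ↔ Cl S K Mn Set.univ d := by
  have kh : ∀ d, KH S K d → S'.XK K (inl d) := by
    rintro d ⟨u, hu, t⟩
    exact ⟨S'.φ (inl d), u, Perm.sameCycle_apply_right.2 (.refl _ _), by
      rw [S'.vx_φ, St.αl B, St.vl B]; exact t, hu⟩
  constructor
  · rintro ⟨e, v, hs, t, hv⟩
    exact St.cl_sc B hs.symm (St.cl_of B t hv)
  · rcases d with d | ⟨j, b⟩
    · rintro (⟨u, hu, t⟩ | h | ⟨⟨e, v, hs, t, hv⟩, h⟩)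
      · exact ⟨_, u, .refl _ _, by rw [St.vl B]; exact t, hu⟩
      · exact kh d h
      · obtain ⟨m, -, rfl⟩ := hs.exists_pow_eq'
        exact ⟨inl ((S.φ ^ m) d), v, by rw [← St.il_pow B h]; exact sc_pow _ _ _, by
          rw [St.vl B]; exact t, hv⟩
    · rintro (rfl : b = true)
      refine xk_sc (kh _ (B.R.fin _ j.2.1)) ?_
      rw [← St.tr]
      exact Perm.sameCycle_apply_left.2 (.refl _ _)

theorem un_lab {d : D} {v : V} (h : Un S K Mn Set.univ d) (t : S.vx d = some v) : v ∈ K :=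
  B.far h.1 (fun a ha => h.2 a ha (.inr trivial)) t

theorem bi {d : D ⊕ JJ S K Mn × Bool} (h : S'.XK K d) (h' : ¬S'.XK K (S'.α d)) :
    (S'.vx d = none ∧ S'.vx (S'.α d) = none) ∨ ∃ j, d = inr (j, true) := by
  rw [St.xk_iff B] at h h'
  rcases d with d | ⟨j, b⟩
  · rw [St.αl B] at h' ⊢
    have n1 : ¬KT S K d := fun q => h' (.inr (.inl (by rw [KH, S.αα]; exact q)))
    have n2 : ¬KH S K d := fun q => h' (.inl q)
    have un : Un S K Mn Set.univ d := (h.resolve_left n1).resolve_left n2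
    rw [St.vl B, St.vl B]
    refine .inl ⟨?_, ?_⟩
    · by_contra q
      obtain ⟨v, hv⟩ := Option.ne_none_iff_exists'.1 q
      exact n1 ⟨v, St.un_lab B un hv, hv⟩
    · by_contra q
      obtain ⟨v, hv⟩ := Option.ne_none_iff_exists'.1 q
      refine n2 ⟨v, B.far (xk_sc un.1 (Perm.sameCycle_apply_right.2 (.refl _ _)))
        (fun a ha q => un.2 a ha (.inr trivial) (Perm.sameCycle_apply_right.1 q))
        (by rw [S.vx_φ]; exact hv), hv⟩
  · obtain rfl : b = true := h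
    exact .inr ⟨j, rfl⟩

theorem nreal (x : JJ S K Mn × Bool) : ¬S'.real (inr x) := by
  rw [St.same.real]; exact St.mch.real_inr x

theorem rl (d : D) : S'.real (inl d) ↔ S.real d := by
  rw [St.same.real]; exact St.mch.real_inl d

theorem hg (top : S.Top) : Hg S' c K where
  top := ⟨St.same.con (St.mch.con top.1), by rw [St.same.chi, St.mch.chi]; exact top.2⟩
  bi d h h' := by
    rcases St.bi B h h' with q | ⟨j, rfl⟩
    · exact .inl q
    · obtain ⟨i, hi, ti⟩ := j.2.1.head B.p2 B.F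
      obtain ⟨i', hi', nx, -⟩ := B.R.nxt _ i j.2.1 j.2.2 ti
      refine .inr ⟨St.nreal B _, i, i', ⟨by rw [St.vt B, ti], ?_⟩, hi, nx⟩
      rw [St.αr B, Bool.not_true, St.vf B, ← S.vx_φ, ← pow_succ_app, hi']
  z_ex i hi := by
    obtain ⟨p, ⟨hp, mp, tp⟩, up⟩ := B.R.ex i hi
    refine ⟨inr (⟨p, hp, mp⟩, true), ⟨(St.xk_iff B _).2 rfl, ?_, by rw [St.vt B, tp]⟩, ?_⟩
    · rw [St.αr B, St.xk_iff B]
      exact Bool.false_ne_true
    · rintro d ⟨h, h', t⟩
      rcases St.bi B h h' with q | ⟨j, rfl⟩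
      · rw [q.1] at t; cases t
      · rw [St.vt B] at t
        obtain rfl : j = ⟨p, hp, mp⟩ := Subtype.ext (up _ ⟨j.2.1, j.2.2, t⟩)
        rfl
  lab d v h t := by
    rw [St.xk_iff B] at h
    rcases d with d | ⟨j, b⟩
    · rw [St.vl B] at t
      by_cases hv : v ∈ K
      · exact .inl hv
      rcases h with ⟨u, hu, t'⟩ | h | h
      · rw [t] at t'; cases t'; exact .inl hu
      · exact .inr (B.ring_of h t hv)
      · exact .inl (St.un_lab B h t)
    · obtain rfl : b = true := h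
      obtain ⟨i, hi, ti⟩ := j.2.1.head B.p2 B.F
      rw [St.vt B, ti] at t
      cases t
      exact .inr hi
  real d u v h r e := by
    rw [St.xk_iff B] at h
    rcases d with d | x
    · obtain ⟨e1, e2⟩ := e
      rw [St.vl B] at e1
      rw [St.αl B, St.vl B] at e2
      rcases h with ⟨u', hu, t'⟩ | ⟨u', hu, t'⟩ | h
      · rw [e1] at t'; cases t'; exact .inl hu
      · rw [e2] at t'; cases t'; exact .inr hu
      · exact .inl (St.un_lab B h e1)
    · exact absurd r (St.nreal B x)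

theorem lnk : Lnk S S' (Set.range c) inl where
  inj := inl_injective
  al := St.αl B
  vx := St.vl B
  real := St.rl B
  ok := St.same.ok.trans St.mch.ok
  si d hd := by
    rw [S'.toHMap.σ_apply, S.toHMap.σ_apply, St.αl B]
    refine St.il _ fun a ha _ => ⟨fun e => ?_, fun e => ?_⟩
    · obtain ⟨i, -, ti⟩ := ha.head B.p2 B.F
      rw [← e, S.αα] at ti
      exact hd _ ⟨i, rfl⟩ ti
    · obtain ⟨i, ti⟩ := B.last_ring ha
      rw [← e, S.αα] at ti
      exact hd _ ⟨i, rfl⟩ ti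
  new d := by
    rcases d with d | ⟨j, b⟩
    · exact .inl ⟨d, rfl⟩
    · obtain ⟨i, hi⟩ := St.vr B (j, b)
      obtain ⟨i', hi'⟩ := St.vr B (j, !b)
      exact .inr ⟨St.nreal B _, _, ⟨i, rfl⟩, _, ⟨i', rfl⟩, hi, by rw [St.αr B]; exact hi'⟩

theorem words (w : D → FG k) (hw : S.Valid w) (hH : ∀ i, ∃ H, S.PotOn w (Nb (c i)) H) :
    ∃ w', S'.Valid w' ∧ (∀ d, w' (inl d) = w d) ∧
      ∀ z s s' H, S'.XK K z → ¬S'.XK K (S'.α z) → S'.E z s s' → S.PotOn w (Nb s) H →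
        w' z = (H s)⁻¹ * H s' := by
  obtain ⟨θ, hθ⟩ := hw.pot
  refine ⟨_, St.val _ (St.mch.valid w θ hw hθ) hH, fun _ => rfl, ?_⟩
  rintro z s s' H h h' ⟨e1, e2⟩ hp
  rcases St.bi B h h' with q | ⟨j, rfl⟩
  · rw [q.1] at e1; cases e1
  obtain ⟨i, -, ti⟩ := j.2.1.head B.p2 B.F
  rw [St.vt B, ti] at e1
  cases e1
  rw [St.αr B, Bool.not_true, St.vf B, ← S.vx_φ, ← pow_succ_app] at e2
  have := B.pot_run j.2.1 ti hp (fun m => θ ((S.φ ^ m) j.1)) (n j.1) (fun m _ _ => by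
    rw [pow_succ_app, ← hθ]
    intro t
    obtain ⟨v, hv⟩ := B.lab' j.2.1 (sc_pow S.φ j.1 m)
    rw [t.vx] at hv
    cases hv) e2
  rw [← this, pow_succ_app S.φ _ (n j.1)]
  rfl

end Hug.Stage

open Hug in
theorem hug (k1 : K1) (k2 : K2) (k3 : K3) (k5 : K5) (mch : MChordSt) (mv : MoveSt) : HugSt := by
  intro k l V D _ _ G U S c K Zn Nb top p2 p3 pl cZ F _ cK loc
  obtain ⟨o, n, Mn, R⟩ := exists_run' k1 k2 k3 k5 p2 pl cZ F cK fun d e i t hs => by
    obtain ⟨v, h, -, h'⟩ := loc d e i t hs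
    exact ⟨v, h, h'⟩
  have B : Base S (orient o c) K Nb n Mn := ⟨p2, p3, by
    cases o
    · exact frame_neg F
    · exact F, fun d e i t hs => by
    obtain ⟨v, h, h', -⟩ := loc d e _ t hs
    exact ⟨v, h, h'⟩, R⟩
  obtain ⟨S₁, S', St⟩ := exists_stage B k1 mch mv
  exact ⟨o, _, inferInstance, S', inl, St.hg B top, range_orient (c := c) o ▸ St.lnk B,
    fun w hw hH => St.words B w hw fun i => hH _⟩

end Pool.Agent.Lib.MP_c1f5fe_lc
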