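import Pool.Agent.Lib.MP_c1f5fe_lc.SpecC

/-! The runs of corners outside `K` in the faces at `K`. -/

namespace Pool.Agent.Lib.MP_c1f5fe_lc.Hug

open Equiv Function Relation

set_option linter.unusedSectionVars false

section defs
variable {k : ℕ} {V D : Type} {G : SimpleGraph V} {U : Set V} (S : Sk k G U D) (K : Set V)

def KT (d : D) : Prop := ∃ u ∈ K, S.vx d = some u

def KH (d : D) : Prop := ∃ u ∈ K, S.vx (S.α d) = some u

def KR (d : D) : Prop := KT S K d ∧ ∃ s, s ∉ K ∧ S.vx (S.α d) = some s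

structure Run {l : ℕ} (c : ZMod l → V) (n : D → ℕ) (Mn : D → Prop) : Prop where
  mid : ∀ a, KR S K a → ∀ j, 1 ≤ j → j ≤ n a → ¬KH S K ((S.φ ^ j) a)
  fin : ∀ a, KR S K a → KH S K ((S.φ ^ (n a + 1)) a)
  one : ∀ a a', KR S K a → KR S K a' → S.φ.SameCycle a a' → a = a'
  ex : ∀ i, c i ∈ nb G K → ∃! a, KR S K a ∧ Mn a ∧ S.vx (S.α a) = some (c i)
  nxt : ∀ a i, KR S K a → Mn a → S.vx (S.α a) = some (c i) →
    ∃ j, S.vx ((S.φ ^ (n a + 1)) a) = some (c j) ∧ NextS c (nb G K) i j ∧ j ≠ i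
  loop : ∀ a, KR S K a → ¬Mn a → Nxt S.toHMap.σ (KH S K) (S.α a) ((S.φ ^ (n a + 1)) a)

end defs

theorem vx_sc {D B : Type} [Finite D] {π : Perm D} {f : D → B} (h : ∀ d, f (π d) = f d)
    {d e : D} (hs : π.SameCycle d e) : f d = f e := by
  obtain ⟨n, -, rfl⟩ := hs.exists_pow_eq'
  clear hs
  induction n with
  | zero => rfl
  | succ n ih => rw [pow_succ', Perm.mul_apply, h]; exact ih

theorem ret_ne (k1 : K1) {D : Type} [Finite D] {π : Perm D} {Q : D → Prop} {x y : D} (hx : Q x)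
    (hy : Q y) (hs : π.SameCycle x y) (ne : y ≠ x) : ret π Q x ≠ x := fun e =>
  ne ((Perm.SameCycle.eq_of_left ((k1.sc_ret π Q x y hx hy).2 hs) e)).symm

/-- at most one dart of a face goes from `A` to `B` -/
theorem one_run (k5 : K5) {D V : Type} [Finite D] (M : HMap D) (vx : D → Option V)
    (A B : Set V) (eg : M.eg = 0) (h1 : ∀ d, vx (M.σ d) = vx d)
    (h2 : ∀ d e v, vx d = some v → vx e = some v → M.σ.SameCycle d e) (hd : Disjoint A B)
    (hA : DCn M vx A) (hB : DCn M vx B) {a a' : D} (t : ∃ u ∈ A, vx a = some u)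
    (h : ∃ u ∈ B, vx (M.α a) = some u) (t' : ∃ u ∈ A, vx a' = some u)
    (h' : ∃ u ∈ B, vx (M.α a') = some u) (hs : M.φ.SameCycle a a') : a = a' := by
  classical
  have hφ : ∀ d, vx (M.φ d) = vx (M.α d) := fun d => by
    rw [← h1 (M.α d), M.σ_apply, M.αα]
  by_contra ne
  have ex : ∃ j : ℕ, (M.φ ^ j) a = a' := by
    obtain ⟨n, -, e⟩ := hs.exists_pow_eq'
    exact ⟨n, e⟩
  have hj := Nat.find_spec ex
  set j := Nat.find ex with hjd
  have AB : ∀ d, (∃ u ∈ A, vx d = some u) → (∃ u ∈ B, vx d = some u) → False := by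
    rintro d ⟨u, hu, e⟩ ⟨v, hv, e'⟩
    rw [e] at e'
    cases e'
    exact Set.disjoint_left.1 hd hu hv
  have j0 : j ≠ 0 := fun e => ne (by rw [e] at hj; exact hj)
  have j1 : j ≠ 1 := fun e => by
    rw [e, pow_one] at hj
    exact AB a' t' (by rw [← hj, hφ]; exact h)
  refine k5.face M vx A B eg h1 h2 hd hA hB a 1 j (j + 1) one_pos (by omega) (by omega)
    (fun s s0 sl e => ?_) t (by rw [pow_one, hφ]; exact h) (by rw [hj]; exact t')
    (by rw [pow_succ', Perm.mul_apply, hj, hφ]; exact h')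
  rcases Nat.lt_or_ge j s with l | l
  · have : s = j + 1 := by omega
    rw [this, pow_succ', Perm.mul_apply, hj] at e
    exact AB a t (by rw [← e, hφ]; exact h')
  · refine Nat.find_min ex (m := j - s) (by omega) ?_
    rw [← hj]
    conv_rhs => rw [show j = j - s + s by omega, pow_add, Perm.mul_apply, e]

theorem rtg_mono {A : Type} {r p : A → A → Prop} {a b : A} (h : ReflTransGen r a b)
    (hp : ∀ x y, r x y → p x y) : ReflTransGen p a b := by
  induction h with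
  | refl => exact .refl
  | tail _ s ih => exact ih.tail (hp _ _ s)

theorem reg_mono {D : Type} (M : HMap D) {Q Q' : D → Prop} (h : ∀ d, Q' d → Q d) {d e : D}
    (r : M.Reg Q d e) : M.Reg Q' d e :=
  EqvGen.mono (r := M.regR Q) (p := M.regR Q')
    (fun _ _ h' => Or.imp_right (fun h'' => ⟨fun q => h''.1 (h _ q), h''.2⟩) h') _ _ r

theorem reg_φ {D : Type} (M : HMap D) (Q : D → Prop) (d : D) : M.Reg Q d (M.φ d) :=
  EqvGen.rel _ _ (.inl rfl)

theorem reg_α {D : Type} (M : HMap D) {Q : D → Prop} {d : D} (h : ¬Q d) : M.Reg Q d (M.α d) :=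
  EqvGen.rel _ _ (.inr ⟨h, rfl⟩)

theorem reg_pow {D : Type} (M : HMap D) (Q : D → Prop) (d : D) (n : ℕ) :
    M.Reg Q d ((M.φ ^ n) d) := by
  induction n with
  | zero => exact EqvGen.refl _
  | succ n ih => rw [pow_succ', Perm.mul_apply]; exact ih.trans _ _ _ (reg_φ M Q _)

/-- a planar map with labels, a cycle and a connected set beside it -/
structure Env {D V : Type} (M : HMap D) (vx : D → Option V) (rl : D → Prop) {l : ℕ}
    (c : ZMod l → V) (A : Set V) (r : ZMod l → D) : Prop where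
  con : M.Con
  chi : 2 ≤ M.chi
  eg : M.eg = 0
  vσ : ∀ d, vx (M.σ d) = vx d
  cyc : ∀ d e v, vx d = some v → vx e = some v → M.σ.SameCycle d e
  ne : ∀ d, vx d ≠ vx (M.α d)
  three : 3 ≤ l
  inj : Injective c
  off : ∀ i, c i ∉ A
  r_t : ∀ i, vx (r i) = some (c i)
  r_h : ∀ i, vx (M.α (r i)) = some (c (i + 1))
  rl_iff : ∀ d, rl d ↔ ∃ i, d = r i ∨ d = M.α (r i)
  dA : DCn M vx A
  tch : ∃ d u i, u ∈ A ∧ vx d = some u ∧ vx (M.α d) = some (c i)

namespace Env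
variable {D V : Type} [Finite D] {M : HMap D} {vx : D → Option V} {rl : D → Prop} {l : ℕ}
  {c : ZMod l → V} {A : Set V} {r : ZMod l → D} (E : Env M vx rl c A r)
include E

theorem vφ (d : D) : vx (M.φ d) = vx (M.α d) := by rw [← E.vσ (M.α d), M.σ_apply, M.αα]

theorem α_ne (d : D) : M.α d ≠ d := fun e => E.ne d (by rw [e])

theorem rl_α {d : D} (h : rl d) : rl (M.α d) := by
  obtain ⟨i, rfl | rfl⟩ := (E.rl_iff d).1 h
  · exact (E.rl_iff _).2 ⟨i, .inr rfl⟩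
  · exact (E.rl_iff _).2 ⟨i, .inl (M.αα _)⟩

theorem rl_r (i : ZMod l) : rl (r i) := (E.rl_iff _).2 ⟨i, .inl rfl⟩

theorem rl_at {d : D} {i : ZMod l} (h : rl d) (t : vx d = some (c i)) :
    d = r i ∨ d = M.α (r (i - 1)) := by
  obtain ⟨j, rfl | rfl⟩ := (E.rl_iff d).1 h
  · rw [E.r_t] at t
    rw [E.inj (Option.some.inj t)]; exact .inl rfl
  · rw [E.r_h] at t
    rw [← E.inj (Option.some.inj t), add_sub_cancel_right]; exact .inr rfl

theorem two_ne : (2 : ZMod l) ≠ 0 := by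
  have := E.three
  intro h
  have h2 : ((2 : ℕ) : ZMod l) = 0 := by exact_mod_cast h
  have := Nat.le_of_dvd two_pos ((ZMod.natCast_eq_zero_iff 2 l).1 h2)
  omega

theorem r_ne (i j : ZMod l) : r i ≠ M.α (r j) := fun e => by
  have h1 := E.r_t i
  have h2 := E.r_h i
  rw [e] at h1 h2
  rw [E.r_h] at h1
  rw [M.αα, E.r_t] at h2
  have a := E.inj (Option.some.inj h1)
  have b := E.inj (Option.some.inj h2)
  apply E.two_ne
  linear_combination a - b

theorem rl_lab {d : D} (h : rl d) : ∃ i, vx d = some (c i) := by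
  obtain ⟨j, rfl | rfl⟩ := (E.rl_iff d).1 h
  · exact ⟨_, E.r_t j⟩
  · exact ⟨_, E.r_h j⟩

theorem edges0 : M.Edges rl := fun q h => ⟨E.rl_α h, E.α_ne q⟩

theorem dB : DCn M vx (Set.range c) := by
  have l0 : l ≠ 0 := by have := E.three; omega
  have : NeZero l := ⟨l0⟩
  have key : ∀ (i : ZMod l) (m : ℕ), ReflTransGen (fun x y => x ∈ Set.range c ∧ y ∈ Set.range c ∧
      ∃ d, vx d = some x ∧ vx (M.α d) = some y) (c i) (c (i + m)) := by
    intro i m
    induction m with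
    | zero => simpa using ReflTransGen.refl
    | succ m ih =>
      refine ih.tail ⟨⟨_, rfl⟩, ⟨_, rfl⟩, r (i + m), E.r_t _, ?_⟩
      rw [E.r_h]; push_cast; rw [add_assoc]
  rintro _ ⟨i, rfl⟩ _ ⟨j, rfl⟩
  have := key i (j - i).val
  rwa [ZMod.natCast_zmod_val, add_sub_cancel] at this

theorem nx_lab (k3 : K3) {Q : D → Prop} (hQ : M.Edges Q) {q : D} (h : Q q) :
    vx (M.nx Q q) = vx (M.α q) := by
  rw [← E.vφ]; exact (vx_sc E.vσ (k3.nx_q M Q hQ q h).2.2.1).symm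

theorem nx0 (k1 : K1) (k3 : K3) (i : ZMod l) : M.nx rl (r i) = r (i + 1) := by
  have h := (k3.nx_q M rl E.edges0 _ (E.rl_r i)).1
  rcases E.rl_at h ((E.nx_lab k3 E.edges0 (E.rl_r i)).trans (E.r_h i)) with e | e
  · exact e
  · rw [add_sub_cancel_right] at e
    exact absurd e (ret_ne k1 (E.rl_α (E.rl_r i)) (E.rl_r (i + 1))
      (E.cyc _ _ _ (E.r_h i) (E.r_t _)) (E.r_ne _ _))

theorem qcon_of {Q : D → Prop} (hQ : ∀ d, Q d → Q (M.α d)) {B : Set V}
    (hB : ∀ a ∈ B, ∀ b ∈ B, ReflTransGen (fun x y => ∃ d, Q d ∧ vx d = some x ∧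
      vx (M.α d) = some y) a b)
    (he : ∀ q, Q q → ∃ u ∈ B, vx q = some u ∨ vx (M.α q) = some u) : M.QCon Q := by
  have key : ∀ a b, ReflTransGen (fun x y => ∃ d, Q d ∧ vx d = some x ∧ vx (M.α d) = some y) a b →
      ∀ q e, Q q → Q e → vx q = some a → vx e = some b →
      EqvGen (fun x y => Q x ∧ Q y ∧ (y = M.α x ∨ M.σ.SameCycle x y)) q e := by
    intro a b h
    induction h with
    | refl => exact fun q e hq he' h1 h2 => .rel _ _ ⟨hq, he', .inr (E.cyc _ _ _ h1 h2)⟩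
    | tail _ s ih =>
      obtain ⟨d, hd, h1, h2⟩ := s
      exact fun q e hq he' h3 h4 => (ih q d hq hd h3 h1).trans _ _ _
        ((EqvGen.rel _ _ ⟨hd, hQ d hd, .inl rfl⟩).trans _ _ _
          (.rel _ _ ⟨hQ d hd, he', .inr (E.cyc _ _ _ h2 h4)⟩))
  have k2 : ∀ q, Q q → ∃ q' u, u ∈ B ∧ Q q' ∧ vx q' = some u ∧
      EqvGen (fun x y => Q x ∧ Q y ∧ (y = M.α x ∨ M.σ.SameCycle x y)) q q' := by
    intro q hq
    obtain ⟨u, hu, h | h⟩ := he q hq
    · exact ⟨q, u, hu, hq, h, .refl _⟩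
    · exact ⟨_, u, hu, hQ q hq, h, .rel _ _ ⟨hq, hQ q hq, .inl rfl⟩⟩
  intro q e hq he'
  obtain ⟨q', u, hu, h1, h2, h3⟩ := k2 q hq
  obtain ⟨e', v, hv, h4, h5, h6⟩ := k2 e he'
  exact h3.trans _ _ _ ((key u v (hB u hu v hv) q' e' h1 h4 h2 h5).trans _ _ _ (h6.symm _ _))

theorem ring_path {Q : D → Prop} (hQ : ∀ i, Q (r i)) (i j : ZMod l) :
    ReflTransGen (fun x y => ∃ d, Q d ∧ vx d = some x ∧ vx (M.α d) = some y) (c i) (c j) := by
  have l0 : l ≠ 0 := by have := E.three; omega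
  have : NeZero l := ⟨l0⟩
  have key : ∀ m : ℕ, ReflTransGen (fun x y => ∃ d, Q d ∧ vx d = some x ∧ vx (M.α d) = some y)
      (c i) (c (i + m)) := by
    intro m
    induction m with
    | zero => simpa using ReflTransGen.refl
    | succ m ih =>
      refine ih.tail ⟨r (i + m), hQ _, E.r_t _, ?_⟩
      rw [E.r_h]; push_cast; rw [add_assoc]
  have := key (j - i).val
  rwa [ZMod.natCast_zmod_val, add_sub_cancel] at this

/-- the two sides of the cycle are different regions -/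
theorem jordan (k1 : K1) (k3 : K3) (i j : ZMod l) : ¬M.Reg rl (r i) (M.α (r j)) := fun h => by
  have qc : M.QCon rl := E.qcon_of (fun _ => E.rl_α) (B := Set.range c)
    (by rintro _ ⟨i, rfl⟩ _ ⟨j, rfl⟩; exact E.ring_path E.rl_r i j)
    (fun q hq => by obtain ⟨i, h⟩ := E.rl_lab hq; exact ⟨_, ⟨i, rfl⟩, .inl h⟩)
  obtain ⟨n, e⟩ := (k3.all M rl E.con E.chi E.edges0 qc _ (E.rl_r i)).1 _ (E.rl_α (E.rl_r j)) h
  have : ∀ n : ℕ, (M.nx rl)^[n] (r i) = r (i + n) := by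
    intro n
    induction n with
    | zero => simp
    | succ n ih => rw [iterate_succ_apply', ih, E.nx0 k1 k3]; push_cast; rw [add_assoc]
  exact E.r_ne _ _ ((this n).symm.trans e)

theorem not_rl {d : D} {u : V} (hu : u ∈ A) (h : vx d = some u) : ¬rl d := fun q => by
  obtain ⟨i, e⟩ := E.rl_lab q
  rw [h] at e
  exact E.off i (Option.some.inj e ▸ hu)

/-- all darts at `A` lie in one region -/
theorem regA (k3 : K3) {d e : D} {u v : V} (hu : u ∈ A) (hv : v ∈ A) (h : vx d = some u)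
    (h' : vx e = some v) : M.Reg rl d e := by
  have same : ∀ {d e : D} {u : V}, u ∈ A → vx d = some u → vx e = some u → M.Reg rl d e :=
    fun {d e u} hu h h' => k3.reg_σ M rl d e (E.cyc _ _ _ h h') fun x hx =>
      E.not_rl hu ((vx_sc E.vσ hx).symm.trans h)
  have p := E.dA u hu v hv
  induction p generalizing e with
  | refl => exact same hu h h'
  | tail _ s ih =>
    obtain ⟨h1, h2, x, h3, h4⟩ := s
    exact (ih h1 h3).trans _ _ _ ((reg_α M (E.not_rl h1 h3)).trans _ _ _ (same h2 h4 h'))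

/-- the darts of the cycle and those with an end in `A` -/
def QQ (M : HMap D) (vx : D → Option V) (rl : D → Prop) (A : Set V) (d : D) : Prop :=
  rl d ∨ (∃ u ∈ A, vx d = some u) ∨ ∃ u ∈ A, vx (M.α d) = some u

theorem edgesQ : M.Edges (QQ M vx rl A) := by
  refine fun q h => ⟨?_, E.α_ne q⟩
  rcases h with h | h | h
  · exact .inl (E.rl_α h)
  · exact .inr (.inr (by rwa [M.αα]))
  · exact .inr (.inl h)

theorem qconQ : M.QCon (QQ M vx rl A) := by
  obtain ⟨d₀, u₀, i₀, hu₀, t₀, h₀⟩ := E.tch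
  have sy : ∀ {a b}, ReflTransGen (fun x y => ∃ d, QQ M vx rl A d ∧ vx d = some x ∧
      vx (M.α d) = some y) a b → ReflTransGen (fun x y => ∃ d, QQ M vx rl A d ∧ vx d = some x ∧
      vx (M.α d) = some y) b a := by
    intro a b h
    induction h with
    | refl => exact .refl
    | tail _ s ih =>
      obtain ⟨d, h1, h2, h3⟩ := s
      exact .head ⟨M.α d, (E.edgesQ d h1).1, h3, by rw [M.αα]; exact h2⟩ ih
  have tw' : ∀ a ∈ A ∪ Set.range c, ReflTransGen (fun x y => ∃ d, QQ M vx rl A d ∧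
      vx d = some x ∧ vx (M.α d) = some y) a (c i₀) := by
    rintro a (ha | ⟨i, rfl⟩)
    · refine ReflTransGen.tail ?_ ⟨d₀, .inr (.inl ⟨u₀, hu₀, t₀⟩), t₀, h₀⟩
      exact rtg_mono (E.dA a ha u₀ hu₀) fun x y ⟨hx, _, d, h1, h2⟩ =>
        ⟨d, .inr (.inl ⟨x, hx, h1⟩), h1, h2⟩
    · exact E.ring_path (fun i => .inl (E.rl_r i)) i i₀
  refine E.qcon_of (fun d h => (E.edgesQ d h).1) (B := A ∪ Set.range c)
    (fun a ha b hb => (tw' a ha).trans (sy (tw' b hb))) fun q hq => ?_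
  rcases hq with h | ⟨u, hu, h⟩ | ⟨u, hu, h⟩
  · obtain ⟨i, h⟩ := E.rl_lab h
    exact ⟨_, .inr ⟨i, rfl⟩, .inl h⟩
  · exact ⟨u, .inl hu, .inl h⟩
  · exact ⟨u, .inl hu, .inr h⟩

/-- on a boundary cycle at most one dart goes from the cycle to `A` -/
theorem one_nx (k2 : K2) (k3 : K3) (k5 : K5) (k1 : K1) {y y' : D} {i j : ZMod l}
    (t : vx y = some (c i)) (h : ∃ u ∈ A, vx (M.α y) = some u) (t' : vx y' = some (c j))
    (h' : ∃ u ∈ A, vx (M.α y') = some u) (hr : M.Reg (QQ M vx rl A) y y') : y = y' := by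
  obtain ⟨M₁, hs⟩ := k2.sub_ex M (QQ M vx rl A) fun d h => (E.edgesQ d h).1
  have q : QQ M vx rl A y := .inr (.inr h)
  have q' : QQ M vx rl A y' := .inr (.inr h')
  obtain ⟨n, e⟩ := (k3.all M _ E.con E.chi E.edgesQ E.qconQ y q).1 y' q' hr
  have hφ : ∀ x, (M₁.φ x).1 = M.nx (QQ M vx rl A) x.1 := fun x => by
    have h1 := hs.si (M₁.α x)
    rw [M₁.σ_apply, M₁.αα, hs.al] at h1
    exact h1.unique (ret_nxt _ (E.edgesQ _ x.2).1)
  have hn : ∀ n : ℕ, ((M₁.φ ^ n) ⟨y, q⟩).1 = (M.nx (QQ M vx rl A))^[n] y := by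
    intro n
    induction n with
    | zero => rfl
    | succ n ih => rw [pow_succ', Perm.mul_apply, hφ, ih, iterate_succ_apply']
  have eg1 : M₁.eg = 0 :=
    le_antisymm (E.eg ▸ k2.sub_eg M _ M₁ _ hs) (k1.eg_nonneg _ _)
  have := one_run k5 M₁ (fun x => vx x.1) (Set.range c) A eg1
    (fun x => by
      obtain ⟨m, -, e, -⟩ := hs.si x
      exact (vx_sc E.vσ ⟨m, by rw [zpow_natCast]; exact e⟩).symm)
    (fun d e v h1 h2 => (k2.sub_sc M _ M₁ _ d e hs).2 (E.cyc _ _ _ h1 h2))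
    (Set.disjoint_left.2 (by rintro _ ⟨i, rfl⟩; exact E.off i))
    (by
      rintro _ ⟨i, rfl⟩ _ ⟨j, rfl⟩
      refine rtg_mono (E.ring_path (Q := rl) E.rl_r i j) ?_
      rintro x y ⟨d, h1, h2, h3⟩
      obtain ⟨a, ha⟩ := E.rl_lab h1
      obtain ⟨b, hb⟩ := E.rl_lab (E.rl_α h1)
      exact ⟨⟨a, Option.some.inj (ha.symm.trans h2)⟩, ⟨b, Option.some.inj (hb.symm.trans h3)⟩,
        ⟨d, .inl h1⟩, h2, (congrArg vx (hs.al _)).trans h3⟩)
    (fun a ha b hb => rtg_mono (E.dA a ha b hb) fun x y ⟨hx, hy, d, h1, h2⟩ =>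
      ⟨hx, hy, ⟨d, .inr (.inl ⟨x, hx, h1⟩)⟩, h1, (congrArg vx (hs.al _)).trans h2⟩)
    (a := ⟨y, q⟩) (a' := ⟨y', q'⟩) ⟨_, ⟨i, rfl⟩, t⟩ (by rw [hs.al]; exact h) ⟨_, ⟨j, rfl⟩, t'⟩
    (by rw [hs.al]; exact h')
    ⟨n, by rw [zpow_natCast]; exact Subtype.ext ((hn n).trans e)⟩
  exact congrArg Subtype.val this

theorem q_at {d : D} {i : ZMod l} (h : QQ M vx rl A d) (t : vx d = some (c i)) :
    d = r i ∨ d = M.α (r (i - 1)) ∨ ∃ u ∈ A, vx (M.α d) = some u := by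
  rcases h with h | ⟨u, hu, h⟩ | h
  · exact (E.rl_at h t).imp_right .inl
  · rw [t] at h
    exact absurd (Option.some.inj h ▸ hu) (E.off i)
  · exact .inr (.inr h)

section side
variable (k1 : K1) (k2 : K2) (k3 : K3) (k5 : K5)
  (hb : ∀ d u i, u ∈ A → vx d = some u → ¬M.Reg rl d (M.α (r i)))
include k3 hb

theorem not_back {x : D} {u : V} (hu : u ∈ A) (t : vx x = some u) {i : ZMod l}
    (h : M.Reg (QQ M vx rl A) x (M.α (r i))) : False :=
  hb x u i hu t (reg_mono M (fun _ => .inl) h)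

theorem m1 {x : D} {u : V} {i : ZMod l} (hu : u ∈ A) (t : vx x = some u)
    (h : vx (M.α x) = some (c i)) (hr : rl (M.nx (QQ M vx rl A) x)) :
    M.nx (QQ M vx rl A) x = r i := by
  have q : QQ M vx rl A x := .inr (.inl ⟨u, hu, t⟩)
  refine (E.rl_at hr ((E.nx_lab k3 E.edgesQ q).trans h)).resolve_right fun e => ?_
  exact E.not_back k3 hb hu t (e ▸ (k3.nx_q M _ E.edgesQ x q).2.1)

include k1 k2 k5 in
theorem m2 {x y : D} {u : V} {i j : ZMod l} (hu : u ∈ A) (t : vx x = some u)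
    (h : vx (M.α x) = some (c i)) (t' : vx y = some (c j)) (h' : ∃ u ∈ A, vx (M.α y) = some u)
    (hs : M.φ.SameCycle x y) (hr : ¬rl (M.nx (QQ M vx rl A) x)) :
    M.nx (QQ M vx rl A) x = y := by
  have q : QQ M vx rl A x := .inr (.inl ⟨u, hu, t⟩)
  have lab := (E.nx_lab k3 E.edgesQ q).trans h
  obtain ⟨q1, q2, -⟩ := k3.nx_q M _ E.edgesQ x q
  obtain ⟨n, -, rfl⟩ := hs.exists_pow_eq'
  refine E.one_nx k2 k3 k5 k1 lab ?_ t' h' ((q2.symm _ _).trans _ _ _ (reg_pow M _ x n))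
  rcases E.q_at q1 lab with e | e | e
  · exact absurd (e ▸ E.rl_r i) hr
  · exact absurd (e ▸ E.rl_α (E.rl_r _)) hr
  · exact e

include k1 in
theorem m3 {i : ZMod l} {e : D} (t : vx e = some (c i)) (h : ∃ u ∈ A, vx (M.α e) = some u) :
    ∃ x u, u ∈ A ∧ vx x = some u ∧ vx (M.α x) = some (c i) ∧ M.nx (QQ M vx rl A) x = r i := by
  have qr : ∀ j, QQ M vx rl A (r j) := fun j => .inl (E.rl_r j)
  have qe : QQ M vx rl A e := .inr (.inr h)
  have e1 : e ≠ r i := fun h' => by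
    obtain ⟨u, hu, h⟩ := h
    exact E.not_rl hu h (h' ▸ E.rl_α (E.rl_r i))
  have e2 : e ≠ M.α (r (i - 1)) := fun h' => by
    obtain ⟨u, hu, h⟩ := h
    exact E.not_rl hu h (h' ▸ E.rl_α (E.rl_α (E.rl_r _)))
  set ρ := ret M.σ (QQ M vx rl A) with hρ
  have qz : QQ M vx rl A (ρ⁻¹ (r i)) := by
    by_contra hn
    have := ret_not M.σ hn
    rw [← hρ, ← Perm.mul_apply, mul_inv_cancel, Perm.one_apply] at this
    exact hn (this ▸ qr i)
  have sc : M.σ.SameCycle (ρ⁻¹ (r i)) (r i) :=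
    (k1.sc_ret M.σ _ _ _ qz (qr i)).1 ⟨1, by simp [hρ]⟩
  have lab : vx (ρ⁻¹ (r i)) = some (c i) := (vx_sc E.vσ sc).trans (E.r_t i)
  have ne : ρ (r i) ≠ r i := ret_ne k1 (qr i) qe (E.cyc _ _ _ (E.r_t i) t) e1
  rcases E.q_at qz lab with z | z | ⟨u, hu, z⟩
  · exact absurd (by conv_lhs => rw [← z]
                     simp) ne
  · exfalso
    have hx : ρ (r i) = M.nx (QQ M vx rl A) (M.α (r i)) := by simp [HMap.nx, hρ, M.αα]
    have qa := (E.edgesQ _ (qr i)).1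
    obtain ⟨q1, q2, -⟩ := k3.nx_q M _ E.edgesQ _ qa
    have lab' : vx (ρ (r i)) = some (c i) := by
      rw [hx, E.nx_lab k3 E.edgesQ qa, M.αα, E.r_t]
    rcases E.q_at (hx ▸ q1) lab' with y | y | ⟨u, hu, y⟩
    · exact ne y
    · have two : ρ (ρ (r i)) = r i := by rw [y, ← z]; simp
      obtain ⟨n, -, en⟩ := ((k1.sc_ret M.σ _ _ _ (qr i) qe).2
        (E.cyc _ _ _ (E.r_t i) t)).exists_pow_eq'
      have : ∀ n : ℕ, (ρ ^ n) (r i) = r i ∨ (ρ ^ n) (r i) = ρ (r i) := by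
        intro n
        induction n with
        | zero => exact .inl rfl
        | succ n ih =>
          rw [pow_succ', Perm.mul_apply]
          rcases ih with ih | ih <;> rw [ih]
          · exact .inr rfl
          · exact .inl two
      rcases this n with h1 | h1
      · exact e1 (en.symm.trans h1)
      · exact e2 (en.symm.trans (h1.trans y))
    · refine hb (M.α (ρ (r i))) u i hu y ?_
      have h1 := reg_α M (E.not_rl hu y)
      rw [M.αα] at h1
      exact h1.trans _ _ _ ((reg_mono M (fun _ => .inl) (hx ▸ q2)).symm _ _)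
  · exact ⟨M.α (ρ⁻¹ (r i)), u, hu, z, by rw [M.αα]; exact lab, by simp [HMap.nx, hρ, M.αα]⟩

include k1 k2 k5 in
theorem m4 {x y : D} {u : V} {i j : ZMod l} (hu : u ∈ A) (t : vx x = some u)
    (t' : vx y = some (c j)) (h' : ∃ u ∈ A, vx (M.α y) = some u)
    (hs : M.φ.SameCycle x y) (hr : M.nx (QQ M vx rl A) x = r i) {T : Set V}
    (hT : ∀ i, c i ∈ T ↔ ∃ e, vx e = some (c i) ∧ ∃ u ∈ A, vx (M.α e) = some u) :
    NextS c T i j := by
  classical
  have l0 : l ≠ 0 := by have := E.three; omega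
  have : NeZero l := ⟨l0⟩
  have q : QQ M vx rl A x := .inr (.inl ⟨u, hu, t⟩)
  have qr : ∀ j, QQ M vx rl A (r j) := fun j => .inl (E.rl_r j)
  have ex : ∃ m : ℕ, 0 < m ∧ c (i + m) ∈ T := by
    refine ⟨(j - i).val + l, by omega, ?_⟩
    push_cast
    rw [ZMod.natCast_zmod_val, ZMod.natCast_self, add_zero, add_sub_cancel]
    exact (hT j).2 ⟨y, t', h'⟩
  obtain ⟨m0, hm⟩ := Nat.find_spec ex
  set m := Nat.find ex with hmd
  have mn : ∀ s : ℕ, 0 < s → s < m → c (i + s) ∉ T := fun s s0 sm h =>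
    Nat.find_min ex sm ⟨s0, h⟩
  have step : ∀ s : ℕ, M.Reg (QQ M vx rl A) x (r (i + s)) →
      M.Reg (QQ M vx rl A) x (M.nx (QQ M vx rl A) (r (i + s))) ∧
      vx (M.nx (QQ M vx rl A) (r (i + s))) = some (c (i + (s + 1 : ℕ))) ∧
      (M.nx (QQ M vx rl A) (r (i + s)) = r (i + (s + 1 : ℕ)) ∨
        ∃ u ∈ A, vx (M.α (M.nx (QQ M vx rl A) (r (i + s)))) = some u) := by
    intro s h
    obtain ⟨q1, q2, -⟩ := k3.nx_q M _ E.edgesQ _ (qr (i + s))
    have lab : vx (M.nx (QQ M vx rl A) (r (i + s))) = some (c (i + (s + 1 : ℕ))) := by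
      rw [E.nx_lab k3 E.edgesQ (qr _), E.r_h]; push_cast; rw [add_assoc]
    refine ⟨h.trans _ _ _ q2, lab, ?_⟩
    rcases E.q_at q1 lab with e | e | e
    · exact .inl e
    · exact (E.not_back k3 hb hu t (e ▸ h.trans _ _ _ q2)).elim
    · exact .inr e
  have all : ∀ s : ℕ, s < m → M.Reg (QQ M vx rl A) x (r (i + s)) := by
    intro s
    induction s with
    | zero => exact fun _ => by simpa [hr] using (k3.nx_q M _ E.edgesQ x q).2.1
    | succ s ih =>
      intro sm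
      obtain ⟨h1, h2, h3 | h3⟩ := step s (ih (by omega))
      · exact h3 ▸ h1
      · exact absurd ((hT _).2 ⟨_, h2, h3⟩) (mn _ (by omega) sm)
  obtain ⟨s, hs'⟩ : ∃ s, m = s + 1 := ⟨m - 1, by omega⟩
  obtain ⟨h1, h2, h3⟩ := step s (all s (by omega))
  rw [← hs'] at h2 h3
  rcases h3 with h3 | h3
  · obtain ⟨e, te, he⟩ := (hT _).1 hm
    obtain ⟨x', u', hu', t1, -, h4⟩ := E.m3 k1 k3 hb te he
    have := k3.nx_inj M _ E.edgesQ _ _ (qr _) (.inr (.inl ⟨u', hu', t1⟩)) (h3.trans h4.symm)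
    exact absurd (this ▸ E.rl_r _) (E.not_rl hu' t1)
  · obtain ⟨n, -, rfl⟩ := hs.exists_pow_eq'
    have := E.one_nx k2 k3 k5 k1 h2 h3 t' h' ((h1.symm _ _).trans _ _ _ (reg_pow M _ x n))
    rw [this, t'] at h2
    have e := E.inj (Option.some.inj h2)
    exact ⟨m, m0, e, e ▸ hm, mn⟩

end side

end Env

end Pool.Agent.Lib.MP_c1f5fe_lc.Hug
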