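import Pool.Agent.Lib.MP_c1f5fe_lc.HugA

/-! The runs in a solution. -/

namespace Pool.Agent.Lib.MP_c1f5fe_lc.Hug

open Equiv Function Relation

set_option linter.unusedSectionVars false

variable {k l : ℕ} {V D : Type} [Finite D] {G : SimpleGraph V} {U : Set V} {S : Sk k G U D}
  {c : ZMod l → V} {K Zn : Set V}

theorem nxt_map {A B : Type} {π : Perm A} {π' : Perm B} {Q : A → Prop} {Q' : B → Prop}
    {f : A → B} {x y : A} (h : Nxt π Q x y) (hf : ∀ m : ℕ, f ((π ^ m) x) = (π' ^ m) (f x))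
    (hy : Q' (f y)) (hq : ∀ z, Q' (f z) → Q z) : Nxt π' Q' (f x) (f y) := by
  obtain ⟨n, n0, e, -, hn⟩ := h
  exact ⟨n, n0, by rw [← hf, e], hy, fun m m0 mn q => hn m m0 mn (hq _ (by rw [hf]; exact q))⟩

theorem frame_neg (F : Frame G U c K) : Frame G U (orient false c) K where
  cyc := ⟨F.cyc.three, fun i j h => neg_injective (F.cyc.inj h), fun i => by
    have := (F.cyc.adj (-(i + 1))).symm
    rw [show -(i + 1) + 1 = -i by ring] at this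
    exact this⟩
  ind i j h := by
    rcases F.ind _ _ h with e | e
    · exact .inr (by simp only [Bool.false_eq_true, if_false] at e; linear_combination e)
    · exact .inl (by simp only [Bool.false_eq_true, if_false] at e; linear_combination e)
  free i := F.free _
  off i := F.off _
  sep v hv := by
    obtain ⟨i, rfl⟩ := F.sep hv
    exact ⟨-i, by simp [orient]⟩
  two := by
    obtain ⟨i, j, ne, h1, h2⟩ := F.two
    exact ⟨-i, -j, fun e => ne (neg_injective e), by simpa [orient] using h1,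
      by simpa [orient] using h2⟩

theorem range_orient (o : Bool) : Set.range (orient o c) = Set.range c := by
  ext v
  cases o
  · exact ⟨fun ⟨i, h⟩ => ⟨_, h⟩, fun ⟨i, h⟩ => ⟨-i, by simpa [orient] using h⟩⟩
  · rfl

theorem KR.head (p2 : S.P2) (F : Frame G U c K) {a : D} (h : KR S K a) :
    ∃ i, c i ∈ nb G K ∧ S.vx (S.α a) = some (c i) := by
  obtain ⟨⟨u, hu, t⟩, s, hs, e⟩ := h
  have : s ∈ nb G K := ⟨hs, u, hu, p2 a u s ⟨t, e⟩⟩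
  obtain ⟨i, rfl⟩ := F.sep this
  exact ⟨i, this, e⟩

theorem exists_run (a : D) (h : KT S K a) : ∃ n : ℕ, KH S K ((S.φ ^ (n + 1)) a) ∧
    ∀ j, 1 ≤ j → j ≤ n → ¬KH S K ((S.φ ^ j) a) := by
  obtain ⟨z, n, n0, e, q, hn⟩ := exists_nxt (π := S.φ) (Q := KH S K) (x := a) (y := S.φ⁻¹ a)
    ⟨-1, by simp⟩ (by
      obtain ⟨u, hu, t⟩ := h
      exact ⟨u, hu, by rw [← S.vx_φ]; simpa using t⟩)
  obtain ⟨n, rfl⟩ : ∃ m, n = m + 1 := ⟨n - 1, by omega⟩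
  exact ⟨n, e ▸ q, fun j j1 jn => hn j j1 (by omega)⟩

section model
variable {D₀ : Type} [Finite D₀] {M₀ : HMap D₀} {ι : D₀ → D}

theorem env_of (k1 : K1) (k2 : K2) (hs : S.toHMap.Sub (S.AdjD Zn) M₀ ι) (eg : M₀.eg = 0)
    (cZ : Cn G Zn) (F : Frame G U c K) (cK : Cn G (K ∩ Zn))
    (loc : ∀ d e i, S.vx d = some (c i) → S.φ.SameCycle d e → ∃ v, S.vx e = some v ∧ v ∈ Zn) :
    ∃ r, Env M₀ (fun x => S.vx (ι x))
      (fun x => S.real (ι x) ∧ ∃ i j, S.E (ι x) (c i) (c j)) c (K ∩ Zn) r := by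
  have lift : ∀ u v, G.Adj u v → u ∈ Zn → v ∈ Zn → ∃ x, S.real (ι x) ∧ S.vx (ι x) = some u ∧
      S.vx (ι (M₀.α x)) = some v := by
    intro u v h hu hv
    obtain ⟨d, ⟨h1, h2, h3⟩, -⟩ := S.real_ex u v h
    obtain ⟨x, rfl⟩ := (hs.range d).1 ⟨u, v, ⟨h2, h3⟩, h, hu, hv⟩
    exact ⟨x, h1, h2, by rw [hs.al]; exact h3⟩
  have cz : ∀ i, c i ∈ Zn := fun i => by
    obtain ⟨d, ⟨-, h2, -⟩, -⟩ := S.real_ex _ _ (F.cyc.adj i)
    obtain ⟨v, h, hv⟩ := loc d d i h2 (.refl _ _)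
    rw [h2] at h
    exact Option.some.inj h ▸ hv
  choose r r1 r2 r3 using fun i => lift _ _ (F.cyc.adj i) (cz _) (cz _)
  have con := k2.sub_con S Zn M₀ ι cZ hs
  have : Nonempty D₀ := ⟨r 0⟩
  have uq : ∀ x y u v, S.real (ι x) → S.real (ι y) → S.E (ι x) u v → S.E (ι y) u v → x = y := by
    intro x y u v h1 h2 h3 h4
    obtain ⟨u', v', a, b, ad⟩ := S.real_adj _ h1
    rw [h3.1] at a
    rw [h3.2] at b
    cases a
    cases b
    exact hs.inj ((S.real_ex u v ad).unique ⟨h1, h3⟩ ⟨h2, h4⟩)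
  refine ⟨r, con, ?_, eg, fun x => ?_, fun d e v h1 h2 => ?_, fun x => ?_, F.cyc.three,
    F.cyc.inj, fun i h => F.off i h.1, r2, r3, fun x => ⟨?_, ?_⟩, fun a ha b hb => ?_, ?_⟩
  · have h1 := (k1.ncomp_one M₀.φ M₀.α).1 con
    have h2 : 2 * (ncomp M₀.φ M₀.α : ℤ) - M₀.chi = 0 := eg
    rw [h1] at h2
    omega
  · obtain ⟨m, -, e, -⟩ := hs.si x
    exact (vx_sc S.vx_σ ⟨m, by rw [zpow_natCast]; exact e⟩).symm
  · exact (k2.sub_sc _ _ M₀ ι d e hs).2 (S.vx_cyc _ _ _ h1 h2)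
  · obtain ⟨u, v, ⟨h1, h2⟩, ad, -⟩ := (hs.range (ι x)).2 ⟨x, rfl⟩
    simp only [hs.al, h1]
    rw [h2]
    exact fun e => ad.ne (Option.some.inj e)
  · rintro ⟨h, i, j, e⟩
    obtain ⟨u, v, a, b, ad⟩ := S.real_adj _ h
    rw [e.1] at a
    rw [e.2] at b
    cases a
    cases b
    rcases F.ind i j ad with rfl | rfl
    · exact ⟨i, .inl (uq _ _ _ _ h (r1 i) e ⟨r2 i, by rw [← hs.al]; exact r3 i⟩)⟩
    · refine ⟨j, .inr (uq _ _ _ _ h (by rw [hs.al]; exact S.real_α _ (r1 j)) e ⟨r3 j, ?_⟩)⟩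
      rw [hs.al, S.αα]; exact r2 j
  · rintro ⟨i, rfl | rfl⟩
    · exact ⟨r1 i, i, i + 1, r2 i, by rw [← hs.al]; exact r3 i⟩
    · exact ⟨by rw [hs.al]; exact S.real_α _ (r1 i), i + 1, i, r3 i, by
        rw [hs.al, S.αα]; exact r2 i⟩
  · refine rtg_mono (cK.2 a ha b hb) fun x y ⟨h, hx, hy⟩ => ⟨hx, hy, ?_⟩
    obtain ⟨d, -, h⟩ := lift x y h hx.2 hy.2
    exact ⟨d, h⟩
  · obtain ⟨i, -, -, ⟨-, u, hu, ad⟩, -⟩ := F.two
    obtain ⟨d, ⟨-, h2, h3⟩, -⟩ := S.real_ex _ _ ad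
    obtain ⟨v, h, hv⟩ := loc (S.φ d) d i (by rw [S.vx_φ]; exact h3) ⟨-1, by simp⟩
    rw [h2] at h
    cases h
    obtain ⟨x, -, h⟩ := lift _ _ ad hv (cz i)
    exact ⟨x, u, i, ⟨hu, hv⟩, h⟩

theorem run_of (k1 : K1) (k2 : K2) (k3 : K3) (k5 : K5) (p2 : S.P2)
    (hs : S.toHMap.Sub (S.AdjD Zn) M₀ ι) (F : Frame G U c K)
    (loc : ∀ d e i, S.vx d = some (c i) → S.φ.SameCycle d e → ∃ v, S.vx e = some v ∧ v ∈ Zn)
    {rl : D₀ → Prop} {r : ZMod l → D₀} (E : Env M₀ (fun x => S.vx (ι x)) rl c (K ∩ Zn) r)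
    (hb : ∀ d u i, u ∈ K ∩ Zn → S.vx (ι d) = some u → ¬M₀.Reg rl d (M₀.α (r i))) :
    ∃ n Mn, Run S K c n Mn := by
  classical
  have adj : ∀ d e i, S.vx d = some (c i) → S.φ.SameCycle d e → S.AdjD Zn e := by
    intro d e i h hc
    obtain ⟨u, h1, hu⟩ := loc d e i h hc
    obtain ⟨v, h2, hv⟩ := loc d (S.φ e) i h hc.apply_right
    rw [S.vx_φ] at h2
    exact ⟨u, v, ⟨h1, h2⟩, p2 e u v ⟨h1, h2⟩, hu, hv⟩
  have adjR : ∀ a e, KR S K a → S.φ.SameCycle a e → S.AdjD Zn e := by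
    intro a e h hc
    obtain ⟨i, -, hi⟩ := h.head p2 F
    exact adj (S.φ a) e i (by rw [S.vx_φ]; exact hi) hc.apply_left
  have liftR : ∀ a, KR S K a → ∃ x, ι x = a ∧ ∀ j : ℕ, ι ((M₀.φ ^ j) x) = (S.φ ^ j) a := by
    intro a h
    obtain ⟨x, rfl⟩ := (hs.range a).1 (adjR a a h (.refl _ _))
    refine ⟨x, rfl, fun j => ?_⟩
    induction j with
    | zero => rfl
    | succ j ih =>
      rw [pow_succ', pow_succ', Perm.mul_apply, Perm.mul_apply, ← ih]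
      refine k2.sub_φ _ _ M₀ ι _ hs (adjR _ _ h ?_)
      rw [ih]
      exact Perm.SameCycle.apply_right ⟨j, by rw [zpow_natCast]⟩
  have tZ : ∀ x u, S.vx (ι x) = some u → u ∈ Zn := fun x u h => by
    obtain ⟨u', v, ⟨h1, -⟩, -, hu, -⟩ := (hs.range (ι x)).2 ⟨x, rfl⟩
    rw [h] at h1
    exact Option.some.inj h1 ▸ hu
  have tA : ∀ x, KT S K (ι x) → ∃ u ∈ K ∩ Zn, S.vx (ι x) = some u :=
    fun x ⟨u, hu, h⟩ => ⟨u, ⟨hu, tZ x u h⟩, h⟩
  have hA : ∀ x, KH S K (ι x) → ∃ u ∈ K ∩ Zn, S.vx (ι (M₀.α x)) = some u :=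
    fun x h => tA _ (by rw [hs.al]; exact h)
  have hn : ∀ a, ∃ n : ℕ, KT S K a → KH S K ((S.φ ^ (n + 1)) a) ∧
      ∀ j, 1 ≤ j → j ≤ n → ¬KH S K ((S.φ ^ j) a) := fun a => by
    by_cases h : KT S K a
    · exact (exists_run a h).imp fun n hn _ => hn
    · exact ⟨0, fun h' => absurd h' h⟩
  choose n hn using hn
  have tb : ∀ a, KR S K a → ∃ j, S.vx ((S.φ ^ (n a + 1)) a) = some (c j) := by
    intro a h
    obtain ⟨u, v, ⟨h1, h2⟩, ad, -⟩ := adjR a ((S.φ ^ (n a + 1)) a) h ⟨(n a + 1 : ℕ), by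
      rw [zpow_natCast]⟩
    obtain ⟨v', hv, h3⟩ := (hn a h.1).1
    rw [h2] at h3
    cases h3
    have hu : u ∉ K := fun hu => by
      rw [pow_succ', Perm.mul_apply, S.vx_φ] at h1
      rcases Nat.eq_zero_or_pos (n a) with z | z
      · rw [z, pow_zero, Perm.one_apply] at h1
        obtain ⟨s, hs', e⟩ := h.2
        rw [h1] at e
        exact hs' (Option.some.inj e ▸ hu)
      · exact (hn a h.1).2 _ z le_rfl ⟨u, hu, h1⟩
    obtain ⟨j, rfl⟩ := F.sep ⟨hu, v, hv, ad.symm⟩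
    exact ⟨j, h1⟩
  have hT : ∀ i, c i ∈ nb G K ↔ ∃ e, S.vx (ι e) = some (c i) ∧
      ∃ u ∈ K ∩ Zn, S.vx (ι (M₀.α e)) = some u := by
    intro i
    constructor
    · rintro ⟨-, u, hu, ad⟩
      obtain ⟨d, ⟨-, h2, h3⟩, -⟩ := S.real_ex _ _ ad.symm
      obtain ⟨x, rfl⟩ := (hs.range d).1 (adj d d i h2 (.refl _ _))
      exact ⟨x, h2, hA x ⟨u, hu, h3⟩⟩
    · rintro ⟨e, h1, u, hu, h2⟩
      rw [hs.al] at h2
      exact ⟨F.off i, u, hu.1, (p2 _ _ _ ⟨h1, h2⟩).symm⟩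
  set Q := Env.QQ M₀ (fun x => S.vx (ι x)) rl (K ∩ Zn) with hQ
  refine ⟨n, fun a => ∃ x, ι x = a ∧ rl (M₀.nx Q x), fun a h => (hn a h.1).2,
    fun a h => (hn a h.1).1, fun a a' h h' hc => ?_, fun i hi => ?_, fun a i h hm hi => ?_,
    fun a h hm => ?_⟩
  · obtain ⟨x, rfl, hx⟩ := liftR a h
    obtain ⟨j, -, rfl⟩ := hc.exists_pow_eq'
    obtain ⟨i, -, hi⟩ := h.head p2 F
    obtain ⟨i', -, hi'⟩ := h'.head p2 F
    rw [← hx] at h' hi' ⊢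
    exact congrArg ι (one_run k5 M₀ _ (K ∩ Zn) (Set.range c) E.eg E.vσ E.cyc
      (Set.disjoint_right.2 (by rintro _ ⟨i, rfl⟩; exact E.off i)) E.dA E.dB (tA x h.1)
      ⟨_, ⟨i, rfl⟩, (congrArg S.vx (hs.al _)).trans hi⟩ (tA _ h'.1)
      ⟨_, ⟨i', rfl⟩, (congrArg S.vx (hs.al _)).trans hi'⟩ ⟨j, by rw [zpow_natCast]⟩)
  · obtain ⟨e, te, he⟩ := (hT i).1 hi
    obtain ⟨x, u, hu, t, h, e⟩ := E.m3 k1 k3 hb te he
    have h' : S.vx (S.α (ι x)) = some (c i) := (congrArg S.vx (hs.al _)).symm.trans h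
    refine ⟨ι x, ⟨⟨⟨u, hu.1, t⟩, _, F.off i, h'⟩, ⟨x, rfl, e ▸ E.rl_r i⟩, h'⟩, ?_⟩
    rintro _ ⟨h1, ⟨y, rfl, h2⟩, h3⟩
    obtain ⟨v, hv, t'⟩ := tA y h1.1
    have := E.m1 k3 hb hv t' ((congrArg S.vx (hs.al _)).trans h3) h2
    exact congrArg ι (k3.nx_inj M₀ _ E.edgesQ _ _ (.inr (.inl ⟨v, hv, t'⟩))
      (.inr (.inl ⟨u, hu, t⟩)) (this.trans e.symm))
  · obtain ⟨x, rfl, hx⟩ := liftR a h
    obtain ⟨x', e, hm⟩ := hm
    cases hs.inj e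
    obtain ⟨u, hu, t⟩ := tA x h.1
    obtain ⟨j, hj⟩ := tb _ h
    have N := E.m4 k1 k2 k3 k5 hb hu t (y := (M₀.φ ^ (n (ι x) + 1)) x) (j := j)
      ((congrArg S.vx (hx _)).trans hj) (hA _ (by rw [hx]; exact (hn _ h.1).1))
      ⟨(n (ι x) + 1 : ℕ), by rw [zpow_natCast]⟩
      (E.m1 k3 hb hu t ((congrArg S.vx (hs.al _)).trans hi) hm) hT
    refine ⟨j, hj, N, fun e => ?_⟩
    subst e
    obtain ⟨m, m0, e, -, hm⟩ := N
    have l0 : l ≠ 0 := by have := E.three; omega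
    have : NeZero l := ⟨l0⟩
    have lm : l ≤ m := Nat.le_of_dvd m0 ((ZMod.natCast_eq_zero_iff m l).1 (by
      linear_combination -e))
    have : ∀ i, c i ∈ nb G K → i = j := fun i hi => by
      by_contra ne
      refine hm (i - j).val (by
        rw [Nat.pos_iff_ne_zero, Ne, ZMod.val_eq_zero]; exact sub_ne_zero.2 ne)
        ((ZMod.val_lt _).trans_le lm) ?_
      rwa [ZMod.natCast_zmod_val, add_sub_cancel]
    obtain ⟨i, i', ne, h1, h2⟩ := F.two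
    exact ne ((this i h1).trans (this i' h2).symm)
  · obtain ⟨x, rfl, hx⟩ := liftR a h
    obtain ⟨u, hu, t⟩ := tA x h.1
    obtain ⟨j, hj⟩ := tb _ h
    obtain ⟨i, -, hi⟩ := h.head p2 F
    have e := E.m2 k1 k2 k3 k5 hb hu t ((congrArg S.vx (hs.al _)).trans hi)
      (y := (M₀.φ ^ (n (ι x) + 1)) x) (j := j)
      ((congrArg S.vx (hx _)).trans hj) (hA _ (by rw [hx]; exact (hn _ h.1).1))
      ⟨(n (ι x) + 1 : ℕ), by rw [zpow_natCast]⟩ fun q => hm ⟨x, rfl, q⟩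
    have N : Nxt M₀.σ Q (M₀.α x) (M₀.nx Q x) :=
      ret_nxt _ (E.edgesQ x (.inr (.inl ⟨u, hu, t⟩))).1
    rw [e] at N
    rw [← hx, ← hs.al]
    refine nxt_map N (fun m => ?_) (by rw [hx]; exact (hn _ h.1).1)
      fun z q => .inr (.inr (hA z q))
    induction m with
    | zero => rfl
    | succ m ih =>
      rw [pow_succ', pow_succ', Perm.mul_apply, Perm.mul_apply, ← ih]
      have lab : S.vx (S.toHMap.σ (ι ((M₀.σ ^ m) (M₀.α x)))) = some (c i) := by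
        have := vx_sc (π := S.toHMap.σ) (f := S.vx) S.vx_σ (d := ι (M₀.α x))
          (e := (S.toHMap.σ ^ m) (ι (M₀.α x))) ⟨m, by rw [zpow_natCast]⟩
        rw [S.toHMap.σ_apply, S.vx_σ, ih, ← this, hs.al]
        exact hi
      exact (hs.si _).unique ⟨1, one_pos, by rw [pow_one], adj _ _ i lab (.refl _ _),
        fun m m0 m1 => by omega⟩

end model

theorem exists_run' (k1 : K1) (k2 : K2) (k3 : K3) (k5 : K5) (p2 : S.P2) (pl : S.PlanarOn Zn)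
    (cZ : Cn G Zn) (F : Frame G U c K) (cK : Cn G (K ∩ Zn))
    (loc : ∀ d e i, S.vx d = some (c i) → S.φ.SameCycle d e → ∃ v, S.vx e = some v ∧ v ∈ Zn) :
    ∃ o n Mn, Run S K (orient o c) n Mn := by
  obtain ⟨D₀, _, M₀, ι, hs, eg⟩ := pl
  obtain ⟨r, E⟩ := env_of k1 k2 hs eg cZ F cK loc
  by_cases hb : ∀ d u i, u ∈ K ∩ Zn → S.vx (ι d) = some u →
      ¬M₀.Reg (fun x => S.real (ι x) ∧ ∃ i j, S.E (ι x) (c i) (c j)) d (M₀.α (r i))
  · exact ⟨true, run_of k1 k2 k3 k5 p2 hs F loc E hb⟩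
  push Not at hb
  obtain ⟨d₀, u₀, i₀, hu₀, t₀, h₀⟩ := hb
  have E' : Env M₀ (fun x => S.vx (ι x)) (fun x => S.real (ι x) ∧ ∃ i j, S.E (ι x) (c i) (c j))
      (orient false c) (K ∩ Zn) fun i => M₀.α (r (-i - 1)) :=
    { E with
      inj := (frame_neg F).cyc.inj
      off := fun i => E.off _
      r_t := fun i => (E.r_h _).trans (by simp [orient])
      r_h := fun i => by
        rw [M₀.αα]
        exact (E.r_t _).trans (by simp [orient, add_comm, sub_eq_add_neg])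
      rl_iff := fun d => (E.rl_iff d).trans ⟨fun ⟨i, h⟩ => ⟨-i - 1, by
        simpa [M₀.αα, or_comm] using h⟩, fun ⟨i, h⟩ => ⟨-i - 1, by
        simpa [M₀.αα, or_comm] using h⟩⟩
      tch := by
        obtain ⟨d, u, i, h⟩ := E.tch
        exact ⟨d, u, -i, by simpa [orient] using h⟩ }
  refine ⟨false, run_of k1 k2 k3 k5 p2 hs (frame_neg F) (fun d e i => loc d e _) E'
    fun d u i hu t h => ?_⟩
  rw [M₀.αα] at h
  exact E.jordan k1 k3 _ i₀ ((h.symm _ _).trans _ _ _ ((E.regA k3 hu hu₀ t t₀).trans _ _ _ h₀))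

end Pool.Agent.Lib.MP_c1f5fe_lc.Hug
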