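import Pool.Agent.Lib.MP_c1f5fe_lc.HugB

/-! Facts about the runs, and the stages of the moves. -/

namespace Pool.Agent.Lib.MP_c1f5fe_lc.Hug

open Equiv Function Relation

set_option linter.unusedSectionVars false

theorem tri {D : Type} [Finite D] {π : Perm D} {d e : D} (h : π (π (π d)) = d)
    (hs : π.SameCycle d e) : e = d ∨ e = π d ∨ e = π (π d) := by
  obtain ⟨n, -, rfl⟩ := hs.exists_pow_eq'
  clear hs
  induction n with
  | zero => exact .inl rfl
  | succ n ih =>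
    rw [pow_succ', Perm.mul_apply]
    rcases ih with e | e | e <;> rw [e]
    · exact .inr (.inl rfl)
    · exact .inr (.inr rfl)
    · exact .inl h

theorem closed_sc {D : Type} [Finite D] {π : Perm D} {X : D → Prop} (h : ∀ d, X d → X (π d))
    {d e : D} (hs : π.SameCycle d e) (hd : X d) : X e := by
  obtain ⟨n, -, rfl⟩ := hs.exists_pow_eq'
  clear hs
  induction n with
  | zero => exact hd
  | succ n ih => rw [pow_succ', Perm.mul_apply]; exact h _ ih

theorem sc_pow {D : Type} (π : Perm D) (d : D) (n : ℕ) : π.SameCycle d ((π ^ n) d) :=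
  ⟨n, by rw [zpow_natCast]⟩

theorem pow_succ_app {D : Type} (π : Perm D) (d : D) (n : ℕ) :
    (π ^ (n + 1)) d = π ((π ^ n) d) := by rw [pow_succ', Perm.mul_apply]

variable {k l : ℕ} {V D : Type} [Finite D] {G : SimpleGraph V} {U : Set V}

structure Base (S : Sk k G U D) (c : ZMod l → V) (K : Set V) (Nb : V → Set V) (n : D → ℕ)
    (Mn : D → Prop) : Prop where
  p2 : S.P2
  p3 : S.P3
  F : Frame G U c K
  loc : ∀ d e i, S.vx d = some (c i) → S.φ.SameCycle d e → ∃ v, S.vx e = some v ∧ v ∈ Nb (c i)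
  R : Run S K c n Mn

theorem KR.nh {S : Sk k G U D} {K : Set V} {a : D} (h : KR S K a) : ¬KH S K a := by
  rintro ⟨u, hu, e⟩
  obtain ⟨-, s, hs, e'⟩ := h
  rw [e] at e'
  cases e'
  exact hs hu

theorem kt_φ {S : Sk k G U D} {K : Set V} {a : D} : KT S K (S.φ a) ↔ KH S K a := by
  simp only [KT, KH, S.vx_φ]

theorem KT.nT {S : Sk k G U D} {K : Set V} {a : D} (h : KT S K a) : ¬S.IsT a := fun t => by
  obtain ⟨u, -, e⟩ := h
  rw [t.vx] at e
  cases e

namespace Base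
variable {S : Sk k G U D} {c : ZMod l → V} {K : Set V} {Nb : V → Set V} {n : D → ℕ}
  {Mn : D → Prop} (B : Base S c K Nb n Mn)
include B

theorem tail_run {a : D} (h : KR S K a) {j : ℕ} (j1 : 1 ≤ j) (jn : j ≤ n a + 1) :
    ¬KT S K ((S.φ ^ j) a) := by
  obtain ⟨j, rfl⟩ : ∃ m, j = m + 1 := ⟨j - 1, by omega⟩
  rw [pow_succ_app, kt_φ]
  rcases Nat.eq_zero_or_pos j with rfl | j0
  · exact h.nh
  · exact B.R.mid a h j j0 (by omega)

theorem lab {a e : D} (_h : KR S K a) (hs : S.φ.SameCycle a e) {i : ZMod l}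
    (hi : S.vx (S.α a) = some (c i)) : ∃ v, S.vx e = some v ∧ v ∈ Nb (c i) :=
  B.loc (S.φ a) e i (by rw [S.vx_φ]; exact hi) (Perm.sameCycle_apply_left.2 hs)

theorem lab' {a e : D} (h : KR S K a) (hs : S.φ.SameCycle a e) : ∃ v, S.vx e = some v := by
  obtain ⟨i, -, hi⟩ := h.head B.p2 B.F
  obtain ⟨v, hv, -⟩ := B.lab h hs hi
  exact ⟨v, hv⟩

theorem ring_of {d : D} {v : V} (h : KH S K d) (t : S.vx d = some v) (hv : v ∉ K) :
    v ∈ nb G K := by
  obtain ⟨u, hu, e⟩ := h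
  exact ⟨hv, u, hu, (B.p2 d v u ⟨t, e⟩).symm⟩

theorem last_ring {a : D} (h : KR S K a) :
    ∃ i, S.vx (S.α ((S.φ ^ n a) a)) = some (c i) := by
  rw [← S.vx_φ, ← pow_succ_app]
  obtain ⟨v, hv⟩ := B.lab' h (sc_pow S.φ a (n a + 1))
  obtain ⟨i, rfl⟩ := B.F.sep (B.ring_of (B.R.fin a h) hv fun q =>
    B.tail_run h (by omega) le_rfl ⟨v, q, hv⟩)
  exact ⟨i, hv⟩

theorem cap_in {x e : D} {z : V} (h : S.XK K x) (hs : S.φ.SameCycle x e) (t : S.vx e = some z)
    (hz : z ∈ U) : z ∈ K := by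
  by_contra hK
  obtain ⟨a, u, ha, tu, hu⟩ := h
  obtain ⟨-, h3, -⟩ := S.cap e z t hz
  have nbz : z ∉ nb G K := fun q => by
    obtain ⟨i, rfl⟩ := B.F.sep q
    exact B.F.free i hz
  rcases tri h3 (hs.symm.trans ha) with rfl | rfl | rfl
  · rw [t] at tu; cases tu; exact hK hu
  · exact nbz (B.ring_of (kt_φ.1 ⟨u, hu, tu⟩) t hK)
  · exact nbz ⟨hK, u, hu, B.p2 _ u z ⟨tu, by rw [← S.vx_φ, h3]; exact t⟩⟩

theorem capK {a e : D} {z : V} (h : KR S K a) (n0 : 0 < n a) (hs : S.φ.SameCycle a e)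
    (t : S.vx e = some z) (hz : z ∈ U) : e = a ∧ n a = 1 := by
  obtain ⟨u, hu, tu⟩ := h.1
  have zK := B.cap_in ⟨a, u, .refl _ _, tu, hu⟩ hs t hz
  obtain ⟨-, h3, -⟩ := S.cap e z t hz
  have a3 : S.φ (S.φ (S.φ a)) = a := by
    rcases tri h3 hs.symm with rfl | rfl | rfl
    · exact h3
    · rw [h3]
    · rw [h3]
  constructor
  · rcases tri a3 hs with rfl | rfl | rfl
    · rfl
    · exact absurd ⟨z, zK, t⟩ (B.tail_run h (j := 1) le_rfl (by omega))
    · exact absurd ⟨z, zK, t⟩ (B.tail_run h (j := 2) (by omega) (by omega))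
  · by_contra ne
    refine B.tail_run h (j := 3) (by omega) (by omega) ?_
    have : (S.φ ^ 3) a = a := a3
    rw [this]
    exact h.1

theorem loop_lab {a : D} (h : KR S K a) (hm : ¬Mn a) :
    S.vx ((S.φ ^ (n a + 1)) a) = S.vx (S.α a) := by
  obtain ⟨m, -, e, -⟩ := B.R.loop a h hm
  rw [← e]
  exact (vx_sc (π := S.toHMap.σ) (f := S.vx) S.vx_σ (sc_pow _ _ _)).symm

theorem noCap_loop {a : D} (h : KR S K a) (hm : ¬Mn a) (n0 : 0 < n a) : S.NoCap a := by
  intro e z hs t hz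
  obtain ⟨-, n1⟩ := B.capK h n0 hs t hz
  have := B.loop_lab h hm
  rw [n1] at this
  obtain ⟨-, s, -, e'⟩ := h
  exact (B.p2 (S.φ a) s s ⟨by rw [S.vx_φ]; exact e', by
    rw [← S.vx_φ]; exact this.trans e'⟩).ne rfl

theorem main_pos {a : D} (h : KR S K a) (hm : Mn a) : 0 < n a := by
  obtain ⟨i, -, hi⟩ := h.head B.p2 B.F
  obtain ⟨j, hj, -, ne⟩ := B.R.nxt a i h hm hi
  by_contra n0
  rw [show n a = 0 by omega, zero_add, pow_one, S.vx_φ, hi] at hj
  exact ne (B.F.cyc.inj (Option.some.inj hj)).symm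

theorem ne_last {a : D} (h : KR S K a) (n0 : 0 < n a) : a ≠ (S.φ ^ n a) a := fun e =>
  B.tail_run h n0 (by omega) (e ▸ h.1)

theorem face_KR {a x : D} (h : KR S K a) (hs : S.φ.SameCycle a x) (t : KT S K x)
    (nh : ¬KH S K x) : x = a := by
  obtain ⟨v, hv⟩ := B.lab' h (Perm.sameCycle_apply_right.2 hs)
  rw [S.vx_φ] at hv
  exact (B.R.one a x h ⟨t, v, fun q => nh ⟨v, q, hv⟩, hv⟩ hs).symm

theorem pot_run {a : D} (h : KR S K a) {i : ZMod l} (hi : S.vx (S.α a) = some (c i))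
    {w : D → FG k} {H : V → FG k} (hH : S.PotOn w (Nb (c i)) H) (θ : ℕ → FG k) (m : ℕ)
    (hθ : ∀ j, 1 ≤ j → j ≤ m → θ j * w ((S.φ ^ j) a) = θ (j + 1)) {s : V}
    (hs : S.vx ((S.φ ^ (m + 1)) a) = some s) : (θ 1)⁻¹ * θ (m + 1) = (H (c i))⁻¹ * H s := by
  induction m generalizing s with
  | zero =>
    rw [zero_add, pow_one, S.vx_φ, hi] at hs
    cases hs
    simp
  | succ m ih =>
    obtain ⟨v, hv, nv⟩ := B.lab h (sc_pow S.φ a (m + 1)) hi
    obtain ⟨v', hv', nv'⟩ := B.lab h (sc_pow S.φ a (m + 1 + 1)) hi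
    rw [hs] at hv'
    cases hv'
    have e := hH _ v s ⟨hv, by rw [← S.vx_φ, ← pow_succ_app]; exact hs⟩ nv nv'
    rw [← hθ (m + 1) (by omega) le_rfl, ← mul_assoc, ih (fun j j1 jm => hθ j j1 (by omega)) hv, e]
    group

/-- the labelled corners of a face at `K` without a run lie in `K` -/
theorem far {d : D} {v : V} (h : S.XK K d) (hn : ∀ a, KR S K a → ¬S.φ.SameCycle a d)
    (t : S.vx d = some v) : v ∈ K := by
  obtain ⟨e, u, he, tu, hu⟩ := h
  have fw : ∀ m : ℕ, (∀ j ≤ m, S.vx ((S.φ ^ j) e) ≠ none) → KT S K ((S.φ ^ m) e) := by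
    intro m hm
    induction m with
    | zero => exact ⟨u, hu, tu⟩
    | succ m ih =>
      obtain ⟨x, hx⟩ := Option.ne_none_iff_exists'.1 (hm (m + 1) le_rfl)
      by_contra q
      refine hn ((S.φ ^ m) e) ⟨ih fun j jm => hm j (by omega), x, fun hK => q ⟨x, hK, hx⟩, ?_⟩
        ((he.trans (sc_pow _ _ _)).symm)
      rw [← S.vx_φ, ← pow_succ_app]
      exact hx
  have fin : ∀ x, KT S K x → x = d → v ∈ K := by
    rintro x ⟨y, hy, ty⟩ rfl
    rw [t] at ty
    cases ty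
    exact hy
  by_cases un : ∃ x, S.φ.SameCycle d x ∧ S.vx x = none
  · obtain ⟨x, hx, nx⟩ := un
    obtain ⟨m, ⟨em, hm⟩ | ⟨em, hm⟩⟩ := B.p3 x e d nx (hx.symm.trans he) hx.symm
      (by rw [tu]; simp) (by rw [t]; simp)
    · exact fin _ (fw m hm) em
    · by_contra hv
      have : ∀ j ≤ m, ¬KT S K ((S.φ ^ j) d) := by
        intro j jm
        induction j with
        | zero => exact fun q => hv (fin _ q rfl)
        | succ j ih =>
          rw [pow_succ_app, kt_φ]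
          intro q
          obtain ⟨y, hy⟩ := Option.ne_none_iff_exists'.1 (hm j (by omega))
          obtain ⟨i, rfl⟩ := B.F.sep (B.ring_of q hy fun hK => ih (by omega) ⟨y, hK, hy⟩)
          obtain ⟨z, hz, -⟩ := B.loc _ x i hy ((sc_pow _ _ _).symm.trans hx)
          rw [nx] at hz
          cases hz
      exact this m le_rfl (em ▸ ⟨u, hu, tu⟩)
  · obtain ⟨m, -, em⟩ := he.symm.exists_pow_eq'
    exact fin _ (fw m fun j _ q => un ⟨_, he.trans (sc_pow _ _ _), q⟩) em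

theorem exists_mch (mch : MChordSt) :
    ∃ S₁, MCh S (fun j : {a // KR S K a ∧ Mn a} => j.1) (fun j => (S.φ ^ n j.1) j.1) S₁ := by
  refine mch k V D _ G U S _ _ (fun j => ⟨B.ne_last j.2.1 (B.main_pos j.2.1 j.2.2), sc_pow _ _ _,
    j.2.1.1.nT⟩) (fun j j' h => Subtype.ext (B.R.one _ _ j.2.1 j'.2.1 h)) fun j => ?_
  by_cases h : S.NoCap j.1
  · exact .inl h
  · simp only [Sk.NoCap, not_forall, not_not] at h
    obtain ⟨e, z, hs, t, hz⟩ := h
    obtain ⟨rfl, n1⟩ := B.capK j.2.1 (B.main_pos j.2.1 j.2.2) hs t hz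
    refine .inr ⟨by simp only [n1, pow_one], ⟨z, hz, t⟩, fun y hy => ?_⟩
    obtain ⟨i, -, hi⟩ := j.2.1.head B.p2 B.F
    obtain ⟨i', hi'⟩ := B.last_ring j.2.1
    rcases hy with hy | hy
    · simp only [n1, pow_one, S.vx_φ, hi] at hy
      cases hy
      exact B.F.free i
    · simp only [S.vx_φ, hi'] at hy
      cases hy
      exact B.F.free i'

end Base

theorem same_refl (S : Sk k G U D) : Same S S :=
  ⟨rfl, rfl, rfl, rfl, rfl, id, fun _ _ => Iff.rfl, fun _ => Iff.rfl⟩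

theorem same_trans {S S' S'' : Sk k G U D} (h : Same S S') (h' : Same S' S'') : Same S S'' :=
  ⟨h'.vx.trans h.vx, h'.real.trans h.real, h'.term.trans h.term, h'.ok.trans h.ok,
    h'.chi.trans h.chi, fun c => h'.con (h.con c), fun d e => (h'.sc d e).trans (h.sc d e),
    fun d => (h'.isT d).trans (h.isT d)⟩

end Pool.Agent.Lib.MP_c1f5fe_lc.Hug
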