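import Pool.Agent.Lib.MP_c1f5fe_lc.HugC

/-! The stages of the moves. -/

namespace Pool.Agent.Lib.MP_c1f5fe_lc.Hug

open Equiv Function Relation Sum

set_option linter.unusedSectionVars false

variable {k l : ℕ} {V D : Type} [Finite D] {G : SimpleGraph V} {U : Set V}

abbrev JJ (S : Sk k G U D) (K : Set V) (Mn : D → Prop) : Type := {a // KR S K a ∧ Mn a}

structure Stage (S : Sk k G U D) (c : ZMod l → V) (K : Set V) (Nb : V → Set V) (n : D → ℕ)
    (Mn : D → Prop) (S₁ S' : Sk k G U (D ⊕ JJ S K Mn × Bool)) (T : Set D) : Prop where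
  mch : MCh S (fun j : JJ S K Mn => j.1) (fun j => (S.φ ^ n j.1) j.1) S₁
  same : Same S₁ S'
  al : S'.α = S₁.α
  il : ∀ x, (∀ a, KR S K a → Mn a ∨ a ∈ T → x ≠ a ∧ x ≠ (S.φ ^ n a) a) →
    S'.φ (inl x) = inl (S.φ x)
  main : ∀ j : JJ S K Mn, S'.φ (inl j.1) = inr (j, true)
  tr : ∀ j : JJ S K Mn, S'.φ (inr (j, true)) = inl ((S.φ ^ (n j.1 + 1)) j.1)
  lp : ∀ a, KR S K a → ¬Mn a → a ∈ T → S'.φ (inl a) = inl ((S.φ ^ (n a + 1)) a)
  val : ∀ w, S₁.Valid w → (∀ i, ∃ H, S.PotOn (w ∘ inl) (Nb (c i)) H) → S'.Valid w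

def Un (S : Sk k G U D) (K : Set V) (Mn : D → Prop) (T : Set D) (d : D) : Prop :=
  S.XK K d ∧ ∀ a, KR S K a → Mn a ∨ a ∈ T → ¬S.φ.SameCycle a d

def Cl (S : Sk k G U D) (K : Set V) (Mn : D → Prop) (T : Set D) :
    D ⊕ JJ S K Mn × Bool → Prop :=
  Sum.elim (fun d => KT S K d ∨ KH S K d ∨ Un S K Mn T d) fun x => x.2 = true

theorem xk_sc {S : Sk k G U D} {K : Set V} {d e : D} (h : S.XK K d) (hs : S.φ.SameCycle d e) :
    S.XK K e := by
  obtain ⟨x, v, hx, t⟩ := h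
  exact ⟨x, v, hs.symm.trans hx, t⟩

theorem KT.xk {S : Sk k G U D} {K : Set V} {d : D} (h : KT S K d) : S.XK K d := by
  obtain ⟨u, hu, t⟩ := h
  exact ⟨d, u, .refl _ _, t, hu⟩

theorem stage_zero {S : Sk k G U D} {c : ZMod l → V} {K : Set V} {Nb : V → Set V} {n : D → ℕ}
    {Mn : D → Prop} {S₁ : Sk k G U (D ⊕ JJ S K Mn × Bool)}
    (h : MCh S (fun j : JJ S K Mn => j.1) (fun j => (S.φ ^ n j.1) j.1) S₁) :
    Stage S c K Nb n Mn S₁ S₁ ∅ where
  mch := h
  same := same_refl _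
  al := rfl
  il x hx := h.φ_inl x fun j => hx j.1 j.2.1 (.inl j.2.2)
  main := h.φ_p
  tr j := by rw [h.φ_t, pow_succ_app]
  lp _ _ _ q := q.elim
  val _ q _ := q

namespace Stage
variable {S : Sk k G U D} {c : ZMod l → V} {K : Set V} {Nb : V → Set V} {n : D → ℕ}
  {Mn : D → Prop} {S₁ S' : Sk k G U (D ⊕ JJ S K Mn × Bool)} {T : Set D}
  (B : Base S c K Nb n Mn) (St : Stage S c K Nb n Mn S₁ S' T)
include B St

theorem vl (d : D) : S'.vx (inl d) = S.vx d := by rw [St.same.vx, St.mch.vx_inl]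

theorem αl (d : D) : S'.α (inl d) = inl (S.α d) := by rw [St.al, St.mch.α_inl]

theorem αr (j : JJ S K Mn) (b : Bool) : S'.α (inr (j, b)) = inr (j, !b) := by
  rw [St.al, St.mch.α_inr]

theorem vt (j : JJ S K Mn) : S'.vx (inr (j, true)) = S.vx (S.α j.1) := by
  rw [St.same.vx, St.mch.vx_t, S.vx_φ]

theorem vf (j : JJ S K Mn) : S'.vx (inr (j, false)) = S.vx (S.α ((S.φ ^ n j.1) j.1)) := by
  rw [St.same.vx, St.mch.vx_f, S.vx_φ]

theorem vr (x : JJ S K Mn × Bool) : ∃ i, S'.vx (inr x) = some (c i) := by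
  obtain ⟨j, _ | _⟩ := x
  · rw [St.vf B]; exact B.last_ring j.2.1
  · rw [St.vt B]
    obtain ⟨i, -, hi⟩ := j.2.1.head B.p2 B.F
    exact ⟨i, hi⟩

theorem cl_of {d : D ⊕ JJ S K Mn × Bool} {v : V} (t : S'.vx d = some v) (hv : v ∈ K) :
    Cl S K Mn T d := by
  rcases d with d | x
  · exact .inl ⟨v, hv, by rw [← St.vl B]; exact t⟩
  · obtain ⟨i, hi⟩ := St.vr B x
    rw [hi] at t
    cases t
    exact absurd hv (B.F.off i)

theorem il' {x : D} (h : ∀ a, KR S K a → Mn a ∨ a ∈ T → ¬S.φ.SameCycle a x) :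
    S'.φ (inl x) = inl (S.φ x) :=
  St.il x fun a ha hm => ⟨fun e => h a ha hm (e ▸ .refl _ _), fun e =>
    h a ha hm (e ▸ sc_pow _ _ _)⟩

theorem il_pow {x : D} (h : ∀ a, KR S K a → Mn a ∨ a ∈ T → ¬S.φ.SameCycle a x) (m : ℕ) :
    (S'.φ ^ m) (inl x) = inl ((S.φ ^ m) x) := by
  induction m with
  | zero => rfl
  | succ m ih =>
    rw [pow_succ_app, pow_succ_app, ih]
    exact St.il' B fun a ha hm q => h a ha hm (q.trans (sc_pow _ _ _).symm)

theorem il_sc {x : D} (h : ∀ a, KR S K a → Mn a ∨ a ∈ T → ¬S.φ.SameCycle a x)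
    {e : D ⊕ JJ S K Mn × Bool} (hs : S'.φ.SameCycle (inl x) e) :
    ∃ y, e = inl y ∧ S.φ.SameCycle x y := by
  obtain ⟨m, -, rfl⟩ := hs.exists_pow_eq'
  exact ⟨_, St.il_pow B h m, sc_pow _ _ _⟩

theorem cl_φ (d : D ⊕ JJ S K Mn × Bool) (h : Cl S K Mn T d) : Cl S K Mn T (S'.φ d) := by
  rcases d with d | ⟨j, b⟩
  · by_cases kh : KH S K d
    · obtain ⟨u, hu, e⟩ := kh
      exact St.cl_of B (by rw [S'.vx_φ, St.αl B, St.vl B]; exact e) hu
    by_cases un : Un S K Mn T d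
    · rw [St.il' B un.2]
      exact .inr (.inr ⟨xk_sc un.1 (Perm.sameCycle_apply_right.2 (.refl _ _)),
        fun a ha hm q => un.2 a ha hm (Perm.sameCycle_apply_right.1 q)⟩)
    have kt : KT S K d := (h.resolve_right fun q => q.elim kh un)
    simp only [Un, kt.xk, true_and, not_forall, not_not] at un
    obtain ⟨a, ha, hm, hs⟩ := un
    obtain rfl := B.face_KR ha hs kt kh
    by_cases m : Mn d
    · rw [St.main ⟨d, ha, m⟩]
      rfl
    · rw [St.lp d ha m (hm.resolve_left m)]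
      exact .inr (.inl (B.R.fin d ha))
  · obtain rfl : b = true := h
    rw [St.tr]
    exact .inr (.inl (B.R.fin _ j.2.1))

theorem cl_sc {d e : D ⊕ JJ S K Mn × Bool} (hs : S'.φ.SameCycle d e) (h : Cl S K Mn T d) :
    Cl S K Mn T e := closed_sc (St.cl_φ B) hs h

theorem noCap_f (j : JJ S K Mn) : S'.NoCap (inr (j, false)) := by
  intro e z hs t hz
  have ncl : ¬Cl S K Mn T e := fun q => Bool.false_ne_true (St.cl_sc B hs.symm q)
  rcases e with e | x
  · rw [St.vl B] at t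
    have : ¬S.XK K e := fun q => ncl (.inl ⟨z, B.cap_in q (.refl _ _) t hz, t⟩)
    obtain ⟨y, hy, -⟩ := St.il_sc B (x := e) (fun a ha _ q => this (xk_sc ha.1.xk q)) hs.symm
    cases hy
  · obtain ⟨i, hi⟩ := St.vr B x
    rw [hi] at t
    cases t
    exact B.F.free i hz

theorem step (k1 : K1) (mv : MoveSt) (a : D) :
    ∃ S'', Stage S c K Nb n Mn S₁ S'' (insert a T) := by
  let _ : DecidableEq (D ⊕ JJ S K Mn × Bool) := fun a b => Classical.propDecidable (a = b)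
  by_cases h : KR S K a ∧ ¬Mn a ∧ a ∉ T
  swap
  · refine ⟨S', St.mch, St.same, St.al, fun x hx => St.il x fun b hb hm =>
      hx b hb (hm.imp_right (Set.mem_insert_of_mem _)), St.main, St.tr, fun b hb hm hT => ?_,
      St.val⟩
    rcases hT with rfl | hT
    · exact St.lp b hb hm (by by_contra q; exact h ⟨hb, hm, q⟩)
    · exact St.lp b hb hm hT
  obtain ⟨ha, hm, hT⟩ := h
  have fresh : ∀ b, KR S K b → Mn b ∨ b ∈ T → ¬S.φ.SameCycle b a := fun b hb hb' q => by
    obtain rfl := B.R.one _ _ hb ha q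
    exact hb'.elim hm hT
  have pw := St.il_pow B fresh
  rcases Nat.eq_zero_or_pos (n a) with n0 | n0
  · refine ⟨S', St.mch, St.same, St.al, fun x hx => St.il x fun b hb hm =>
      hx b hb (hm.imp_right (Set.mem_insert_of_mem _)), St.main, St.tr, fun b hb hm hT => ?_,
      St.val⟩
    rcases hT with rfl | hT
    · rw [n0]; exact pw 1
    · exact St.lp b hb hm hT
  obtain ⟨i, hi, ti⟩ := ha.head B.p2 B.F
  obtain ⟨p, ⟨hp, mp, tp⟩, -⟩ := B.R.ex i hi
  set q := (S.φ ^ n a) a with hq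
  have aq : a ≠ q := B.ne_last ha n0
  have φq : S.φ q = (S.φ ^ (n a + 1)) a := (pow_succ_app _ _ _).symm
  have tq : S.vx (S.α q) = some (c i) := by rw [← S.vx_φ, φq, B.loop_lab ha hm, ti]
  have φ'q : S'.φ (inl q) = inl (S.φ q) := by rw [φq, ← pw, ← pw, pow_succ_app]
  have s1 : S'.toHMap.σ.SameCycle (S'.α (inl a)) (S'.α (inl q)) :=
    S'.vx_cyc _ _ (c i) (by rw [St.αl B, St.vl B, ti]) (by rw [St.αl B, St.vl B, tq])
  have hsw : ¬(S'.toHMap.σ * Equiv.swap (S'.α (inl a)) (S'.α (inl q))).SameCycle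
      (S'.α (inl q)) (S'.α (inr (⟨p, hp, mp⟩, false))) := by
    rw [(k1.sc_same _ _ _ (fun e => aq (inl_injective (S'.α.injective e))) s1).2.2.2.2]
    rintro ⟨j, j0, ej, hj⟩
    obtain ⟨N, N0, eN, -, hN⟩ := B.R.loop a ha hm
    obtain ⟨N, rfl⟩ : ∃ m, N = m + 1 := ⟨N - 1, by omega⟩
    have eN' : (S.toHMap.σ ^ N) (S.α a) = S.α q := by
      apply S.toHMap.σ.injective
      rw [← pow_succ_app, eN, S.toHMap.σ_apply, S.αα, φq]
    have ag : ∀ m ≤ N, (S'.toHMap.σ ^ m) (S'.α (inl a)) = inl ((S.toHMap.σ ^ m) (S.α a)) := by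
      intro m mN
      induction m with
      | zero => exact St.αl B a
      | succ m ih =>
        rw [pow_succ_app, pow_succ_app, ih (by omega), S'.toHMap.σ_apply, S.toHMap.σ_apply,
          St.αl B]
        refine St.il _ fun b hb hb' => ⟨fun e => ?_, fun e => ?_⟩
        · rcases Nat.eq_zero_or_pos m with rfl | m0
          · rw [pow_zero, Perm.one_apply, S.αα] at e
            exact fresh b hb hb' (e ▸ .refl _ _)
          · refine hN m m0 (by omega) ?_
            rw [KH, e]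
            exact hb.1
        · refine hN (m + 1) (by omega) (by omega) ?_
          rw [pow_succ_app, S.toHMap.σ_apply, e, ← pow_succ_app]
          exact B.R.fin b hb
    rcases Nat.lt_or_ge N j with lt | le
    · refine hj N (Nat.pos_of_ne_zero fun e => ?_) lt (by rw [ag N le_rfl, eN', St.αl B])
      rw [e, pow_zero, Perm.one_apply] at eN'
      exact aq (S.α.injective eN')
    · rw [ag j le, St.αr B] at ej
      cases ej
  obtain ⟨S'', sm, eφ, eα, hv⟩ := mv.mv S' (inl a) (inl q) (inr (⟨p, hp, mp⟩, false))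
    (fun e => aq (inl_injective e)) (by rw [hq, ← pw]; exact sc_pow _ _ _)
    (fun e => Bool.false_ne_true (St.cl_sc B e (.inl ha.1)))
    (by rw [St.same.isT, St.mch.isT_inl]; exact ha.1.nT)
    (by rw [St.same.isT]; exact St.mch.isT_inr _)
    (fun e z hs t hz => by
      obtain ⟨y, rfl, hy⟩ := St.il_sc B fresh hs
      exact B.noCap_loop ha hm n0 y z hy (by rw [← St.vl B]; exact t) hz)
    (St.noCap_f B _) s1
    (S'.vx_cyc _ _ (c i) (by rw [St.αl B, St.vl B, ti]) (by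
      rw [St.αr B, Bool.not_false, St.vt B, tp])) hsw
  have oth : ∀ x, x ≠ inl a → x ≠ inl q → x ≠ inr (⟨p, hp, mp⟩, false) → S''.φ x = S'.φ x := by
    intro x h1 h2 h3
    rw [eφ, Perm.mul_apply, Perm.mul_apply, swap_apply_of_ne_of_ne h2 h3,
      swap_apply_of_ne_of_ne h1 h2]
  have oth' : ∀ b, KR S K b → Mn b ∨ b ∈ T → S''.φ (inl b) = S'.φ (inl b) := fun b hb hb' =>
    oth _ (fun e => fresh b hb hb' (inl_injective e ▸ .refl _ _))
      (fun e => fresh b hb hb' (inl_injective e ▸ (sc_pow _ _ _).symm)) inl_ne_inr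
  refine ⟨S'', St.mch, same_trans St.same sm, eα.trans St.al, fun x hx => ?_, fun j => ?_,
    fun j => ?_, fun b hb hb' hT' => ?_, fun w hw hH => ?_⟩
  · have := hx a ha (.inr (Set.mem_insert _ _))
    rw [oth _ (fun e => this.1 (inl_injective e)) (fun e => this.2 (inl_injective e)) inl_ne_inr]
    exact St.il x fun b hb hm => hx b hb (hm.imp_right (Set.mem_insert_of_mem _))
  · rw [oth' _ j.2.1 (.inl j.2.2), St.main]
  · rw [oth _ inr_ne_inl inr_ne_inl (by simp), St.tr]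
  · rcases hT' with rfl | hT'
    · rw [eφ, Perm.mul_apply, Perm.mul_apply, swap_apply_of_ne_of_ne
        (fun e => aq (inl_injective e)) inl_ne_inr, swap_apply_left, φ'q, φq]
    · rw [oth' b hb (.inr hT'), St.lp b hb hb' hT']
  · have V' := St.val w hw hH
    obtain ⟨θ, hθ⟩ := V'.pot
    obtain ⟨H, hH⟩ := hH i
    refine hv w θ V' hθ ?_
    have := B.pot_run ha ti hH (fun j => θ (inl ((S.φ ^ j) a))) (n a) (fun j _ _ => by
      rw [← pw (j + 1), pow_succ_app, pw, ← hθ]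
      · rfl
      · rw [St.same.isT, St.mch.isT_inl]
        intro t
        obtain ⟨v, hv⟩ := B.lab' ha (sc_pow S.φ a j)
        rw [t.vx] at hv
        cases hv) (s := c i) (by rw [B.loop_lab ha hm, ti])
    rw [φ'q, φq, show S'.φ (inl a) = inl ((S.φ ^ 1) a) from pw 1]
    rw [inv_mul_cancel] at this
    exact inv_mul_eq_one.1 this

end Stage

theorem exists_stage {S : Sk k G U D} {c : ZMod l → V} {K : Set V} {Nb : V → Set V} {n : D → ℕ}
    {Mn : D → Prop} (B : Base S c K Nb n Mn) (k1 : K1) (mch : MChordSt) (mv : MoveSt) :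
    ∃ S₁ S', Stage S c K Nb n Mn S₁ S' Set.univ := by
  obtain ⟨S₁, h⟩ := B.exists_mch mch
  refine ⟨S₁, ?_⟩
  have : ∀ T : Set D, T.Finite → ∃ S', Stage S c K Nb n Mn S₁ S' T := by
    intro T hT
    induction T, hT using Set.Finite.induction_on with
    | empty => exact ⟨S₁, stage_zero h⟩
    | insert _ _ ih =>
      obtain ⟨S', St⟩ := ih
      exact St.step B k1 mv _
  exact this _ (Set.toFinite _)

end Pool.Agent.Lib.MP_c1f5fe_lc.Hug
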