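import Pool.Agent.Lib.MP_c1f5fe_lc.SpecA

/-! Counting classes and cycles, swaps, connectedness. -/

namespace Pool.Agent.Lib.MP_c1f5fe_lc

open Equiv Function Relation

namespace Kit1

section count
variable {D A B : Type}

lemma image_le [Finite D] (f : D → A) (g : D → B) (S : Set D)
    (h : ∀ x ∈ S, ∀ y ∈ S, f x = f y → g x = g y) : (g '' S).ncard ≤ (f '' S).ncard := by
  classical
  rcases S.eq_empty_or_nonempty with rfl | ⟨x0, -⟩
  · simp
  let k : A → B := fun a => if e : ∃ x ∈ S, f x = a then g e.choose else g x0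
  have : g '' S = k '' (f '' S) := by
    rw [Set.image_image]
    refine Set.image_congr fun x hx => ?_
    have e : ∃ y ∈ S, f y = f x := ⟨x, hx, rfl⟩
    simp only [k, dif_pos e]
    exact (h _ e.choose_spec.1 _ hx e.choose_spec.2).symm
  rw [this]
  exact Set.ncard_image_le

lemma image_eq [Finite D] (f : D → A) (g : D → B) (S : Set D)
    (h : ∀ x ∈ S, ∀ y ∈ S, f x = f y ↔ g x = g y) : (f '' S).ncard = (g '' S).ncard :=
  le_antisymm (image_le g f S fun x hx y hy => (h x hx y hy).2)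
    (image_le f g S fun x hx y hy => (h x hx y hy).1)

lemma card_quot (r : Setoid D) :
    Nat.card (Quotient r) = (Quotient.mk r '' Set.univ).ncard := by
  rw [Set.image_univ, Set.range_eq_univ.2 Quotient.mk_surjective, Set.ncard_univ]

lemma quot_anti [Finite D] (r r' : Setoid D) (h : ∀ a b, r a b → r' a b) :
    Nat.card (Quotient r') ≤ Nat.card (Quotient r) := by
  rw [card_quot, card_quot]
  exact image_le _ _ _ fun x _ y _ e => Quotient.sound (h x y (Quotient.exact e))

lemma quot_split [Finite D] (r : Setoid D) (y : D) :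
    Nat.card (Quotient r) = (Quotient.mk r '' {z | ¬r z y}).ncard + 1 := by
  rw [card_quot, ← Set.ncard_insert_of_notMem (a := Quotient.mk r y)]
  · congr 1
    ext c
    induction c using Quotient.inductionOn with
    | h z =>
      simp only [Set.image_univ, Set.mem_range, exists_apply_eq_apply, Set.mem_insert_iff,
        true_iff]
      by_cases e : r z y
      · exact Or.inl (Quotient.sound e)
      · exact Or.inr ⟨z, e, rfl⟩
  · rintro ⟨z, hz, e⟩
    exact hz (Quotient.exact e)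

lemma quot_le_succ [Finite D] (r r' : Setoid D) (y : D)
    (h : ∀ a b, ¬r a y → ¬r b y → r' a b → r a b) :
    Nat.card (Quotient r) ≤ Nat.card (Quotient r') + 1 := by
  rw [quot_split r y, card_quot r']
  refine Nat.succ_le_succ (le_trans (image_le (Quotient.mk r') _ _ fun a ha b hb e =>
    Quotient.sound (h a b ha hb (Quotient.exact e))) ?_)
  exact Set.ncard_le_ncard (Set.image_mono (Set.subset_univ _))

lemma quot_succ_le [Finite D] (r r' : Setoid D) (x y : D) (hn : ¬r x y) (e : r' x y)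
    (h : ∀ a b, r a b → r' a b) : Nat.card (Quotient r') + 1 ≤ Nat.card (Quotient r) := by
  rw [quot_split r y, card_quot r']
  refine Nat.succ_le_succ (le_trans ?_ (image_le _ (Quotient.mk r') _ fun a _ b _ e =>
    Quotient.sound (h a b (Quotient.exact e))))
  refine Set.ncard_le_ncard ?_
  rintro _ ⟨z, -, rfl⟩
  by_cases hz : r z y
  · exact ⟨x, hn, Quotient.sound (r'.trans e (r'.symm (h _ _ hz)))⟩
  · exact ⟨z, hz, rfl⟩

lemma quot_sum {D₀ D₁ : Type} [Finite D] (r : Setoid D) (r₀ : Setoid D₀) (r₁ : Setoid D₁)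
    (i₀ : D₀ → D) (i₁ : D₁ → D) (hb : Bijective (Sum.elim i₀ i₁))
    (h₀ : ∀ x y, r (i₀ x) (i₀ y) ↔ r₀ x y) (h₁ : ∀ x y, r (i₁ x) (i₁ y) ↔ r₁ x y)
    (h : ∀ x y, ¬r (i₀ x) (i₁ y)) :
    Nat.card (Quotient r) = Nat.card (Quotient r₀) + Nat.card (Quotient r₁) := by
  have : Finite (D₀ ⊕ D₁) := Finite.of_injective _ hb.1
  have : Finite D₀ := Finite.sum_left D₁
  have : Finite D₁ := Finite.sum_right D₀
  rw [← Nat.card_sum]
  symm
  refine Nat.card_eq_of_bijective (Sum.elim
    (Quotient.map (sa := r₀) (sb := r) i₀ fun x y e => (h₀ x y).2 e)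
    (Quotient.map (sa := r₁) (sb := r) i₁ fun x y e => (h₁ x y).2 e)) ⟨?_, ?_⟩
  · rintro (c | c) (c' | c') <;> induction c using Quotient.inductionOn <;>
      induction c' using Quotient.inductionOn <;> intro e
    · exact congrArg _ (Quotient.sound ((h₀ _ _).1 (Quotient.exact e)))
    · exact absurd (Quotient.exact e) (h _ _)
    · exact absurd (r.symm (Quotient.exact e)) (h _ _)
    · exact congrArg _ (Quotient.sound ((h₁ _ _).1 (Quotient.exact e)))
  · intro c
    induction c using Quotient.inductionOn with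
    | h z =>
      obtain ⟨x | x, rfl⟩ := hb.2 z
      · exact ⟨.inl (Quotient.mk _ x), rfl⟩
      · exact ⟨.inr (Quotient.mk _ x), rfl⟩

end count

section cyc
variable {D D' : Type}

lemma sc_ind [Finite D] {π : Perm D} {P : D → Prop} {x y : D} (e : π.SameCycle x y) (hx : P x)
    (hs : ∀ z, P z → P (π z)) : P y := by
  obtain ⟨i, rfl⟩ := e.exists_nat_pow_eq
  clear e
  induction i with
  | zero => simpa using hx
  | succ i ih => rw [pow_succ', Perm.mul_apply]; exact hs _ ih

lemma sc_step (π : Perm D) (x : D) : π.SameCycle x (π x) := ⟨1, by simp⟩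

lemma semi_inv {a : Perm D} {a' : Perm D'} {f : D → D'} (h : ∀ x, a' (f x) = f (a x)) (x : D) :
    a'⁻¹ (f x) = f (a⁻¹ x) := by
  rw [Perm.inv_eq_iff_eq, h]; simp

lemma semi_zpow {a : Perm D} {a' : Perm D'} {f : D → D'} (h : ∀ x, a' (f x) = f (a x)) (i : ℤ)
    (x : D) : (a' ^ i) (f x) = f ((a ^ i) x) := by
  induction i using Int.induction_on generalizing x with
  | zero => simp
  | succ i ih => rw [zpow_add_one, zpow_add_one, Perm.mul_apply, Perm.mul_apply, h, ih]
  | pred i ih => rw [zpow_sub_one, zpow_sub_one, Perm.mul_apply, Perm.mul_apply, semi_inv h, ih]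

lemma sc_emb {a : Perm D} {a' : Perm D'} {f : D → D'} (hf : Injective f)
    (h : ∀ x, a' (f x) = f (a x)) (x y : D) : a'.SameCycle (f x) (f y) ↔ a.SameCycle x y :=
  exists_congr fun i => by rw [semi_zpow h, hf.eq_iff]

lemma sc_range {a : Perm D} {a' : Perm D'} {f : D → D'} (h : ∀ x, a' (f x) = f (a x)) {x : D}
    {z : D'} (e : a'.SameCycle (f x) z) : ∃ y, f y = z := by
  obtain ⟨i, rfl⟩ := e
  exact ⟨_, (semi_zpow h i x).symm⟩

lemma ncyc_conj (e : D ≃ D') (a : Perm D) (a' : Perm D') (h : ∀ x, a' (e x) = e (a x)) :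
    ncyc a' = ncyc a :=
  (Nat.card_congr (Quotient.congr e fun x y => (sc_emb e.injective h x y).symm)).symm

lemma ncyc_congr {a a' : Perm D} (h : ∀ x y, a.SameCycle x y ↔ a'.SameCycle x y) :
    ncyc a = ncyc a' :=
  Nat.card_congr (Quotient.congr (Equiv.refl D) h)

lemma ncyc_inv (a : Perm D) : ncyc a⁻¹ = ncyc a := ncyc_congr fun _ _ => Perm.sameCycle_inv

lemma ncyc_comm (a b : Perm D) : ncyc (a * b) = ncyc (b * a) :=
  ncyc_conj a (b * a) (a * b) fun _ => rfl

lemma ncyc_one : ncyc (1 : Perm D) = Nat.card D :=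
  (Nat.card_eq_of_bijective (Quotient.mk (Perm.SameCycle.setoid (1 : Perm D)))
    ⟨fun _ _ e => Perm.sameCycle_one.1 (Quotient.exact e), Quotient.mk_surjective⟩).symm

lemma ncyc_add {D₀ D₁ : Type} [Finite D] {a : Perm D} {a₀ : Perm D₀} {a₁ : Perm D₁}
    {i₀ : D₀ → D} {i₁ : D₁ → D} (hb : Bijective (Sum.elim i₀ i₁))
    (h₀ : ∀ x, a (i₀ x) = i₀ (a₀ x)) (h₁ : ∀ x, a (i₁ x) = i₁ (a₁ x)) :
    ncyc a = ncyc a₀ + ncyc a₁ := by
  refine quot_sum _ _ _ i₀ i₁ hb (sc_emb (hb.1.comp Sum.inl_injective) h₀)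
    (sc_emb (hb.1.comp Sum.inr_injective) h₁) fun x y e => ?_
  obtain ⟨z, hz⟩ := sc_range h₀ e
  exact Sum.inl_ne_inr (hb.1 (a₁ := .inl z) (a₂ := .inr y) hz)

end cyc

section swap
variable {D : Type} [Finite D] [DecidableEq D] (π : Perm D) (x y : D)

omit [Finite D] in
lemma sw_x : (π * swap x y) x = π y := by simp
omit [Finite D] in
lemma sw_y : (π * swap x y) y = π x := by simp
omit [Finite D] in
lemma sw_z {z : D} (h : z ≠ x) (h' : z ≠ y) : (π * swap x y) z = π z := by
  simp [swap_apply_of_ne_of_ne h h']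

lemma sc_same (hne : x ≠ y) (h : π.SameCycle x y) :
    ¬(π * Equiv.swap x y).SameCycle x y ∧
      (∀ a b, (π * Equiv.swap x y).SameCycle a b → π.SameCycle a b) ∧
      (∀ a b, ¬π.SameCycle a x → π.SameCycle a b → (π * Equiv.swap x y).SameCycle a b) ∧
      (∀ a, π.SameCycle a x →
        (π * Equiv.swap x y).SameCycle x a ∨ (π * Equiv.swap x y).SameCycle y a) ∧
      ∀ a, (π * Equiv.swap x y).SameCycle y a ↔
        ∃ j : ℕ, 0 < j ∧ (π ^ j) x = a ∧ ∀ m : ℕ, 0 < m → m < j → (π ^ m) x ≠ y := by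
  obtain ⟨_, k, k0, rfl, hk, hm⟩ := exists_nxt (Q := fun z => z = y) h rfl
  have hx : ∀ m, 0 < m → m ≤ k → (π ^ m) x ≠ x := by
    intro m m0 l e
    rcases l.eq_or_lt with rfl | l
    · exact hne (e.symm.trans hk)
    · refine hm (k - m) (by omega) (by omega) ?_
      have : (π ^ (k - m)) ((π ^ m) x) = y := by
        rw [← Perm.mul_apply, ← pow_add, Nat.sub_add_cancel l.le, hk]
      rwa [e] at this
  have last : ∀ a, (π * Equiv.swap x y).SameCycle y a ↔
      ∃ j : ℕ, 0 < j ∧ (π ^ j) x = a ∧ ∀ m : ℕ, 0 < m → m < j → (π ^ m) x ≠ y := by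
    intro a
    constructor
    · intro e
      refine sc_ind (P := fun a => ∃ j : ℕ, 0 < j ∧ (π ^ j) x = a ∧
        ∀ m : ℕ, 0 < m → m < j → (π ^ m) x ≠ y) e ⟨k, k0, hk, hm⟩ ?_
      rintro _ ⟨j, j0, rfl, hj⟩
      have l : j ≤ k := not_lt.1 fun l => hj k k0 l hk
      rcases l.eq_or_lt with rfl | l
      · exact ⟨1, one_pos, by rw [hk, sw_y, pow_one], fun m _ _ => by omega⟩
      · refine ⟨j + 1, by omega, ?_, fun m m0 l' => hm m m0 (by omega)⟩
        rw [sw_z π x y (hx j j0 l.le) (hm j j0 l), pow_succ', Perm.mul_apply]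
    · rintro ⟨j, j0, rfl, hj⟩
      have l : j ≤ k := not_lt.1 fun l => hj k k0 l hk
      clear hj
      induction j with
      | zero => omega
      | succ j ih =>
        rcases Nat.eq_zero_or_pos j with rfl | j0
        · rw [zero_add, pow_one, ← sw_y π x y]; exact sc_step _ _
        · rw [pow_succ', Perm.mul_apply, ← sw_z π x y (hx j j0 (by omega)) (hm j j0 (by omega))]
          exact (ih j0 (by omega)).trans (sc_step _ _)
  refine ⟨fun e => ?_, fun a b e => ?_, fun a b ha e => ?_, fun a e => ?_, last⟩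
  · obtain ⟨j, j0, e, hj⟩ := (last x).1 e.symm
    exact hx j j0 (not_lt.1 fun l => hj k k0 l hk) e
  · refine sc_ind (P := fun z => π.SameCycle a z) e (.refl _ _) fun z hz => ?_
    by_cases h1 : z = x
    · rw [h1, sw_x]; exact (h1 ▸ hz).trans (h.trans (sc_step _ _))
    by_cases h2 : z = y
    · rw [h2, sw_y]; exact (h2 ▸ hz).trans (h.symm.trans (sc_step _ _))
    rw [sw_z π x y h1 h2]; exact hz.trans (sc_step _ _)
  · refine (sc_ind (P := fun z => π.SameCycle a z ∧ (π * swap x y).SameCycle a z) e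
      ⟨.refl _ _, .refl _ _⟩ fun z hz => ⟨hz.1.trans (sc_step _ _), ?_⟩).2
    rw [← sw_z π x y (fun e => ha (e ▸ hz.1)) (fun e => ha ((e ▸ hz.1).trans h.symm))]
    exact hz.2.trans (sc_step _ _)
  · refine sc_ind (P := fun z => (π * swap x y).SameCycle x z ∨ (π * swap x y).SameCycle y z)
      e.symm (Or.inl (.refl _ _)) fun z hz => ?_
    by_cases h1 : z = x
    · rw [h1, ← sw_y π x y]; exact Or.inr (sc_step _ _)
    by_cases h2 : z = y
    · rw [h2, ← sw_x π x y]; exact Or.inl (sc_step _ _)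
    rw [← sw_z π x y h1 h2]
    exact hz.imp (·.trans (sc_step _ _)) (·.trans (sc_step _ _))

lemma sc_merge (h : ¬π.SameCycle x y) : (π * Equiv.swap x y).SameCycle x y := by
  refine (sc_ind (P := fun z => (π * swap x y).SameCycle y z ∧ π.SameCycle x z)
    (sc_step π x).symm ⟨by rw [← sw_y π x y]; exact sc_step _ _, sc_step _ _⟩
    fun z hz => ⟨?_, hz.2.trans (sc_step _ _)⟩).1.symm
  by_cases h1 : z = x
  · rw [h1, ← sw_y π x y]; exact sc_step _ _
  rw [← sw_z π x y h1 fun e => h (e ▸ hz.2)]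
  exact hz.1.trans (sc_step _ _)

lemma sc_diff (a b : D) (h : ¬π.SameCycle x y) :
    (π * Equiv.swap x y).SameCycle a b ↔ π.SameCycle a b ∨
      ((π.SameCycle a x ∨ π.SameCycle a y) ∧ (π.SameCycle b x ∨ π.SameCycle b y)) := by
  have hne : x ≠ y := fun e => h (e.sameCycle π)
  have hm := sc_merge π x y h
  obtain ⟨-, h2, h3, h4, -⟩ := sc_same (π * swap x y) x y hne hm
  rw [mul_swap_mul_self] at h2 h3 h4
  constructor
  · intro e
    by_cases ha : (π * swap x y).SameCycle a x
    · exact Or.inr ⟨(h4 a ha).imp .symm .symm, (h4 b (e.symm.trans ha)).imp .symm .symm⟩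
    · exact Or.inl (h3 a b ha e)
  · have k : ∀ z, π.SameCycle z x ∨ π.SameCycle z y → (π * swap x y).SameCycle z x := by
      rintro z (e | e)
      · exact h2 _ _ e
      · exact (h2 _ _ e).trans hm.symm
    rintro (e | ⟨e, e'⟩)
    · exact h2 _ _ e
    · exact (k a e).trans (k b e').symm

lemma swap_diff (h : ¬π.SameCycle x y) : ncyc (π * Equiv.swap x y) + 1 = ncyc π := by
  refine le_antisymm (quot_succ_le _ _ x y h (sc_merge π x y h) fun a b e =>
    (sc_diff π x y a b h).2 (Or.inl e)) (quot_le_succ _ _ y fun a b ha hb e => ?_)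
  rcases (sc_diff π x y a b h).1 e with e | ⟨e | e, e' | e'⟩
  · exact e
  · exact e.trans e'.symm
  · exact absurd e' hb
  · exact absurd e ha
  · exact absurd e ha

lemma swap_same (hne : x ≠ y) (h : π.SameCycle x y) :
    ncyc (π * Equiv.swap x y) = ncyc π + 1 := by
  rw [← swap_diff (π * swap x y) x y (sc_same π x y hne h).1, mul_swap_mul_self]

end swap

section conn
variable {D D' : Type} {a b : Perm D}

lemma conn_a (a b : Perm D) (x : D) : Conn a b x (a x) := EqvGen.rel _ _ (Or.inl rfl)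
lemma conn_b (a b : Perm D) (x : D) : Conn a b x (b x) := EqvGen.rel _ _ (Or.inr rfl)
lemma conn_rfl (a b : Perm D) (x : D) : Conn a b x x := EqvGen.refl _
lemma conn_symm {x y : D} (h : Conn a b x y) : Conn a b y x := EqvGen.symm _ _ h
lemma conn_trans {x y z : D} (h : Conn a b x y) (h' : Conn a b y z) : Conn a b x z :=
  EqvGen.trans _ _ _ h h'
lemma conn_ai (a b : Perm D) (x : D) : Conn a b x (a⁻¹ x) :=
  conn_symm (by simpa using conn_a a b (a⁻¹ x))
lemma conn_bi (a b : Perm D) (x : D) : Conn a b x (b⁻¹ x) :=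
  conn_symm (by simpa using conn_b a b (b⁻¹ x))

lemma conn_le {r : D → D → Prop} (hr : Equivalence r) (ha : ∀ z, r z (a z)) (hb : ∀ z, r z (b z))
    {x y : D} (e : Conn a b x y) : r x y := by
  induction e with
  | rel x y h => rcases h with rfl | rfl; exacts [ha x, hb x]
  | refl x => exact hr.refl _
  | symm x y _ ih => exact hr.symm ih
  | trans x y z _ _ i1 i2 => exact hr.trans i1 i2

lemma conn_congr (a b a' b' : Perm D) (ha : ∀ x, Conn a b x (a' x)) (hb : ∀ x, Conn a b x (b' x))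
    (x y : D) (e : Conn a' b' x y) : Conn a b x y :=
  conn_le (EqvGen.is_equivalence _) ha hb e

lemma conn_of_sc [Finite D] {c : Perm D} (h : ∀ z, Conn a b z (c z)) {x y : D}
    (e : c.SameCycle x y) : Conn a b x y :=
  sc_ind (P := fun z => Conn a b x z) e (conn_rfl _ _ _) fun z hz => conn_trans hz (h z)

lemma conn_sc [Finite D] (a b : Perm D) (x y : D)
    (h : a.SameCycle x y ∨ b.SameCycle x y ∨ (a * b).SameCycle x y ∨ (b * a).SameCycle x y) :
    Conn a b x y := by
  rcases h with h | h | h | h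
  · exact conn_of_sc (conn_a a b) h
  · exact conn_of_sc (conn_b a b) h
  · exact conn_of_sc (fun z => conn_trans (conn_b a b z) (conn_a a b _)) h
  · exact conn_of_sc (fun z => conn_trans (conn_a a b z) (conn_b a b _)) h

lemma ncomp_congr {a' b' : Perm D} (h1 : ∀ x, Conn a b x (a' x)) (h2 : ∀ x, Conn a b x (b' x))
    (h3 : ∀ x, Conn a' b' x (a x)) (h4 : ∀ x, Conn a' b' x (b x)) : ncomp a b = ncomp a' b' :=
  Nat.card_congr (Quotient.congr (Equiv.refl D) fun x y =>
    ⟨conn_congr a' b' a b h3 h4 x y, conn_congr a b a' b' h1 h2 x y⟩)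

lemma conn_map {a' b' : Perm D'} {f : D → D'} (ha : ∀ x, a' (f x) = f (a x))
    (hb : ∀ x, b' (f x) = f (b x)) {x y : D} (e : Conn a b x y) : Conn a' b' (f x) (f y) :=
  conn_le (r := fun x y => Conn a' b' (f x) (f y))
    ⟨fun _ => conn_rfl _ _ _, conn_symm, conn_trans⟩
    (fun z => ha z ▸ conn_a a' b' _) (fun z => hb z ▸ conn_b a' b' _) e

lemma conn_emb {a' b' : Perm D'} {f : D → D'} (hf : Injective f) (ha : ∀ x, a' (f x) = f (a x))
    (hb : ∀ x, b' (f x) = f (b x)) {u v : D'} (e : Conn a' b' u v) :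
    ((∃ x, f x = u) ↔ ∃ y, f y = v) ∧ ∀ x y, f x = u → f y = v → Conn a b x y := by
  have st : ∀ {c : Perm D} {c' : Perm D'}, (∀ x, c' (f x) = f (c x)) → ∀ u,
      (∃ x, f x = u) ↔ ∃ y, f y = c' u := by
    intro c c' h u
    constructor
    · rintro ⟨x, rfl⟩; exact ⟨_, (h x).symm⟩
    · rintro ⟨y, e⟩; exact ⟨c⁻¹ y, by rw [← semi_inv h, e]; simp⟩
  induction e with
  | rel u v h =>
    rcases h with rfl | rfl
    · refine ⟨st ha u, ?_⟩
      rintro x y rfl e
      rw [hf (e.trans (ha x))]; exact conn_a a b x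
    · refine ⟨st hb u, ?_⟩
      rintro x y rfl e
      rw [hf (e.trans (hb x))]; exact conn_b a b x
  | refl u => exact ⟨Iff.rfl, fun x y e e' => hf (e.trans e'.symm) ▸ conn_rfl _ _ _⟩
  | symm u v _ ih => exact ⟨ih.1.symm, fun x y e e' => conn_symm (ih.2 y x e' e)⟩
  | trans u v w _ _ i1 i2 =>
    refine ⟨i1.1.trans i2.1, fun x y e e' => ?_⟩
    obtain ⟨m, hm⟩ := i1.1.1 ⟨x, e⟩
    exact conn_trans (i1.2 x m e hm) (i2.2 m y hm e')

lemma conn_iff {a' b' : Perm D'} {f : D → D'} (hf : Injective f) (ha : ∀ x, a' (f x) = f (a x))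
    (hb : ∀ x, b' (f x) = f (b x)) (x y : D) : Conn a' b' (f x) (f y) ↔ Conn a b x y :=
  ⟨fun e => (conn_emb hf ha hb e).2 x y rfl rfl, conn_map ha hb⟩

end conn

end Kit1

end Pool.Agent.Lib.MP_c1f5fe_lc
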