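import Pool.Agent.Lib.MP_c1f5fe_lc.SpecA

/-! Submaps and chords. -/

namespace Pool.Agent.Lib.MP_c1f5fe_lc

open Equiv Function Relation

namespace Kit2

section nxt
variable {D D₀ : Type}

theorem nxt_q {π : Perm D} {Q : D → Prop} {x y : D} (h : Nxt π Q x y) : Q y := by
  obtain ⟨_, _, _, q, _⟩ := h
  exact q

theorem nxt_one {π : Perm D} {Q : D → Prop} {x : D} (h : Q (π x)) : Nxt π Q x (π x) :=
  ⟨1, one_pos, by simp, h, fun m a b => by omega⟩

theorem nxt_mono {π : Perm D} {A B : D → Prop} {x y : D} (h : Nxt π A x y) (hy : B y)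
    (hBA : ∀ d, B d → A d) : Nxt π B x y := by
  obtain ⟨n, n0, e, -, hn⟩ := h
  exact ⟨n, n0, e, hy, fun m a b q => hn m a b (hBA _ q)⟩

theorem nxt_trans {π : Perm D} {A B : D → Prop} {x y z : D} (h : Nxt π A x y) (hy : ¬B y)
    (hBA : ∀ d, B d → A d) (h' : Nxt π B y z) : Nxt π B x z := by
  obtain ⟨n, n0, rfl, -, hn⟩ := h
  obtain ⟨n', n0', rfl, q, hn'⟩ := h'
  refine ⟨n' + n, by omega, by rw [pow_add, Perm.mul_apply], q, fun m a b c => ?_⟩
  rcases lt_trichotomy m n with l | l | l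
  · exact hn m a l (hBA _ c)
  · exact hy (l ▸ c)
  · refine hn' (m - n) (by omega) (by omega) ?_
    rwa [← Perm.mul_apply, ← pow_add, Nat.sub_add_cancel l.le]

theorem nxt_comp {π : Perm D} {π₀ : Perm D₀} {A B : D → Prop} {ι : D₀ → D}
    (h : ∀ x, Nxt π A (ι x) (ι (π₀ x))) (hBA : ∀ d, B d → A d) {x y : D₀}
    (h' : Nxt π₀ (fun z => B (ι z)) x y) : Nxt π B (ι x) (ι y) := by
  obtain ⟨n, n0, rfl, q, hn⟩ := h'
  induction n generalizing x with
  | zero => omega
  | succ n ih =>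
    rcases Nat.eq_zero_or_pos n with rfl | l
    · simp only [zero_add, pow_one] at q ⊢
      exact nxt_mono (h x) q hBA
    · rw [pow_succ, Perm.mul_apply] at q ⊢
      refine nxt_trans (h x) (by simpa using hn 1 one_pos (by omega)) hBA (ih l q ?_)
      intro m a b
      have := hn (m + 1) (by omega) (by omega)
      rwa [pow_succ, Perm.mul_apply] at this

theorem pow_inv {B : Type} {π : Perm D} {f : D → B} (h : ∀ d, f (π d) = f d) (n : ℕ) (d : D) :
    f ((π ^ n) d) = f d := by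
  induction n with
  | zero => rfl
  | succ n ih => rw [pow_succ', Perm.mul_apply, h, ih]

theorem pow_semi {a : Perm D} {a₀ : Perm D₀} {i : D₀ → D} (h : ∀ x, a (i x) = i (a₀ x)) (n : ℕ)
    (x : D₀) : (a ^ n) (i x) = i ((a₀ ^ n) x) := by
  induction n with
  | zero => rfl
  | succ n ih => rw [pow_succ', pow_succ', Perm.mul_apply, Perm.mul_apply, ih, h]

theorem sc_pow (π : Perm D) (n : ℕ) (x : D) : π.SameCycle x ((π ^ n) x) := ⟨n, by simp⟩

theorem sc_semi [Finite D] {a : Perm D} {a₀ : Perm D₀} {i : D₀ → D} (hi : Injective i)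
    (h : ∀ x, a (i x) = i (a₀ x)) (x y : D₀) : a₀.SameCycle x y ↔ a.SameCycle (i x) (i y) := by
  have := Finite.of_injective i hi
  constructor
  · intro s
    obtain ⟨n, rfl⟩ := s.exists_nat_pow_eq
    rw [← pow_semi h]
    exact sc_pow _ _ _
  · intro s
    obtain ⟨n, hn⟩ := s.exists_nat_pow_eq
    rw [pow_semi h] at hn
    rw [← hi hn]
    exact sc_pow _ _ _

end nxt

section sub
variable {D D₀ D₁ : Type}

theorem al_inv (M : HMap D) : M.α⁻¹ = M.α := by
  rw [inv_eq_iff_mul_eq_one]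
  exact Equiv.ext M.αα

theorem eg_σ (h : K1) [Finite D] (M : HMap D) : eg M.σ M.α = M.eg := by
  have := h.eg_mul M.φ M.α
  rwa [al_inv] at this

theorem sub_ex [Finite D] (M : HMap D) (A : D → Prop) (hA : ∀ d, A d → A (M.α d)) :
    ∃ M₀ : HMap {d // A d}, M.Sub A M₀ Subtype.val := by
  have h1 : ∀ x, A (ret M.σ A x) ↔ A x := fun x => by
    by_cases hx : A x
    · exact iff_of_true (nxt_q (ret_nxt _ hx)) hx
    · rw [ret_not _ hx]
  have h2 : ∀ x, A (M.α x) ↔ A x := fun x => ⟨fun h => by simpa [M.αα] using hA _ h, hA x⟩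
  refine ⟨⟨(ret M.σ A).subtypePerm h1 * M.α.subtypePerm h2, M.α.subtypePerm h2,
    fun d => Subtype.ext (M.αα d)⟩, Subtype.val_injective, by simp, fun _ => rfl, fun x => ?_⟩
  have := ret_nxt M.σ x.2
  convert this using 1
  change ret M.σ A (M.α (M.α x)) = _
  rw [M.αα]

theorem sub_mem {M : HMap D} {A : D → Prop} {M₀ : HMap D₀} {ι : D₀ → D} (s : M.Sub A M₀ ι)
    (x : D₀) : A (ι x) := (s.range _).2 ⟨x, rfl⟩

theorem sub_ret [Finite D] {M : HMap D} {A : D → Prop} {M₀ : HMap D₀} {ι : D₀ → D}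
    (s : M.Sub A M₀ ι) (x : D₀) : ret M.σ A (ι x) = ι (M₀.σ x) :=
  (ret_nxt _ (sub_mem s x)).unique (s.si x)

theorem sub_eg (h : K1) [Finite D] (M : HMap D) (A : D → Prop) (M₀ : HMap D₀) (ι : D₀ → D)
    (s : M.Sub A M₀ ι) : M₀.eg ≤ M.eg := by
  have := Finite.of_injective ι s.inj
  rw [← eg_σ h, ← eg_σ h]
  exact (h.eg_emb _ _ _ _ ι s.inj (sub_ret s) fun x => (s.al x).symm).trans (h.eg_ret _ _ A)

theorem sub_trans (M : HMap D) (A : D → Prop) (M₀ : HMap D₀) (ι : D₀ → D) (B : D₀ → Prop)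
    (M₁ : HMap D₁) (κ : D₁ → D₀) (s : M.Sub A M₀ ι) (t : M₀.Sub B M₁ κ) :
    M.Sub (fun d => ∃ x, B x ∧ ι x = d) M₁ (ι ∘ κ) := by
  refine ⟨s.inj.comp t.inj, fun d => ⟨?_, ?_⟩, fun x => ?_, fun x => ?_⟩
  · rintro ⟨x, hx, rfl⟩
    obtain ⟨y, rfl⟩ := (t.range x).1 hx
    exact ⟨y, rfl⟩
  · rintro ⟨y, rfl⟩
    exact ⟨κ y, sub_mem t y, rfl⟩
  · simp only [comp, t.al, s.al]
  · refine nxt_comp s.si (by rintro _ ⟨x, -, rfl⟩; exact sub_mem s x) ?_
    convert t.si x using 2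
    refine ⟨?_, fun h => ⟨_, h, rfl⟩⟩
    rintro ⟨y, hy, e⟩
    exact s.inj e ▸ hy

theorem sub_le [Finite D] (M : HMap D) (A B : D → Prop) (M₀ : HMap D₀) (ι : D₀ → D)
    (M₁ : HMap D₁) (κ : D₁ → D) (s : M.Sub A M₀ ι) (t : M.Sub B M₁ κ) (hBA : ∀ d, B d → A d) :
    ∃ μ : D₁ → D₀, (∀ x, ι (μ x) = κ x) ∧ M₀.Sub (fun x => B (ι x)) M₁ μ := by
  have := Finite.of_injective ι s.inj
  choose μ hμ using fun x => (s.range (κ x)).1 (hBA _ (sub_mem t x))
  refine ⟨μ, hμ, fun a b e => t.inj (by rw [← hμ, ← hμ, e]), fun y => ?_, fun x => s.inj ?_,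
    fun x => ?_⟩
  · rw [t.range]
    exact exists_congr fun x => by rw [← hμ, s.inj.eq_iff]
  · rw [hμ, t.al, s.al, hμ]
  · obtain ⟨z, hz⟩ := exists_nxt (Q := fun x => B (ι x)) (Perm.SameCycle.refl M₀.σ (μ x))
      (by rw [hμ]; exact sub_mem t x)
    have h1 := nxt_comp s.si hBA hz
    rw [hμ] at h1
    have h2 := h1.unique (t.si x)
    rw [← hμ] at h2
    rwa [← s.inj h2]

theorem sub_σ {M : HMap D} {A : D → Prop} {M₀ : HMap D₀} {ι : D₀ → D} (s : M.Sub A M₀ ι) (x : D₀)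
    (hx : A (M.σ (ι x))) : ι (M₀.σ x) = M.σ (ι x) := (s.si x).unique (nxt_one hx)

theorem sub_φ (M : HMap D) (A : D → Prop) (M₀ : HMap D₀) (ι : D₀ → D) (x : D₀)
    (s : M.Sub A M₀ ι) (hx : A (M.φ (ι x))) : ι (M₀.φ x) = M.φ (ι x) := by
  have := sub_σ s (M₀.α x) (by rwa [HMap.σ_apply, s.al, M.αα])
  rwa [HMap.σ_apply, HMap.σ_apply, s.al, M.αα, M₀.αα] at this

theorem sub_sc (h : K1) [Finite D] (M : HMap D) (A : D → Prop) (M₀ : HMap D₀) (ι : D₀ → D)
    (x y : D₀) (s : M.Sub A M₀ ι) : M₀.σ.SameCycle x y ↔ M.σ.SameCycle (ι x) (ι y) := by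
  rw [sc_semi s.inj (sub_ret s), h.sc_ret _ _ _ _ (sub_mem s x) (sub_mem s y)]

theorem sub_split (h : K1) [Finite D] (M : HMap D) (A B : D → Prop) (M₀ : HMap D₀) (ι : D₀ → D)
    (M₁ : HMap D₁) (κ : D₁ → D) (s : M.Sub A M₀ ι) (t : M.Sub B M₁ κ) (h1 : ∀ d, A d ∨ B d)
    (h2 : ∀ d, A d → ¬B d) (hA : ∀ d, A d → A (M.σ d)) (hB : ∀ d, B d → B (M.σ d)) :
    M.eg = M₀.eg + M₁.eg := by
  have := Finite.of_injective ι s.inj
  have := Finite.of_injective κ t.inj
  have hb : Bijective (Sum.elim ι κ) := by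
    refine ⟨s.inj.sumElim t.inj fun a b e => h2 _ (sub_mem s a) (e ▸ sub_mem t b), fun d => ?_⟩
    rcases h1 d with a | a
    · obtain ⟨x, rfl⟩ := (s.range d).1 a
      exact ⟨.inl x, rfl⟩
    · obtain ⟨x, rfl⟩ := (t.range d).1 a
      exact ⟨.inr x, rfl⟩
  obtain ⟨e1, e2⟩ := h.eg_add M.σ M.α M₀.σ M₀.α M₁.σ M₁.α ι κ hb
    (fun x => (sub_σ s x (hA _ (sub_mem s x))).symm) (fun x => (s.al x).symm)
    (fun x => (sub_σ t x (hB _ (sub_mem t x))).symm) fun x => (t.al x).symm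
  rw [← eg_σ h, ← eg_σ h, ← eg_σ h, eg, eg, eg, e1, e2]
  push_cast
  ring

end sub

section chord
variable {D : Type} (M : HMap D) {p q : D}

theorem ch_true (p q : D) : (M.chord p q).σ (.inr true) = .inl (M.φ p) := by
  rw [HMap.σ_apply, M.chord_α_inr, Bool.not_true, M.chord_φ_false]

theorem ch_false (hpq : p ≠ q) : (M.chord p q).σ (.inr false) = .inl (M.φ q) := by
  rw [HMap.σ_apply, M.chord_α_inr, Bool.not_false, M.chord_φ_true hpq]

theorem ch_sub (hpq : p ≠ q) : (M.chord p q).Sub (fun d => ∃ x, Sum.inl x = d) M Sum.inl := by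
  refine ⟨Sum.inl_injective, fun _ => Iff.rfl, fun _ => rfl, fun x => ?_⟩
  have two : ∀ b, (M.chord p q).σ (.inl x) = .inr b → (M.chord p q).σ (.inr b) = .inl (M.σ x) →
      Nxt (M.chord p q).σ (fun d => ∃ x, Sum.inl x = d) (.inl x) (.inl (M.σ x)) := by
    intro b e1 e2
    refine ⟨2, two_pos, by rw [sq, Perm.mul_apply, e1, e2], ⟨_, rfl⟩, fun m a c => ?_⟩
    obtain rfl : m = 1 := by omega
    simp [e1]
  by_cases h1 : M.α x = p
  · refine two true ?_ ?_
    · rw [HMap.σ_apply, M.chord_α_inl, h1, M.chord_φ_p hpq]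
    · rw [ch_true, HMap.σ_apply, h1]
  by_cases h2 : M.α x = q
  · refine two false ?_ ?_
    · rw [HMap.σ_apply, M.chord_α_inl, h2, M.chord_φ_q]
    · rw [ch_false M hpq, HMap.σ_apply, h2]
  have e : (M.chord p q).σ (.inl x) = .inl (M.σ x) := by
    rw [HMap.σ_apply, M.chord_α_inl, M.chord_φ_inl h1 h2, HMap.σ_apply]
  rw [← e]
  exact nxt_one ⟨_, e.symm⟩

theorem conn_φ (d : D) : Conn M.φ M.α d (M.φ d) := EqvGen.rel _ _ (Or.inl rfl)

theorem conn_α (d : D) : Conn M.φ M.α d (M.α d) := EqvGen.rel _ _ (Or.inr rfl)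

theorem ch_p (hpq : p ≠ q) : Conn (M.chord p q).φ (M.chord p q).α (.inl p) (.inr true) :=
  M.chord_φ_p hpq ▸ conn_φ (M.chord p q) (.inl p)

theorem ch_q (p q : D) : Conn (M.chord p q).φ (M.chord p q).α (.inl q) (.inr false) :=
  M.chord_φ_q ▸ conn_φ (M.chord p q) (.inl q)

theorem ch_tf (p q : D) : Conn (M.chord p q).φ (M.chord p q).α (.inr true) (.inr false) :=
  EqvGen.rel _ _ (Or.inr (by rw [M.chord_α_inr]; rfl))

theorem ch_pq (hpq : p ≠ q) : Conn (M.chord p q).φ (M.chord p q).α (.inl p) (.inl q) :=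
  ((ch_p M hpq).trans _ _ _ (ch_tf M p q)).trans _ _ _ ((ch_q M p q).symm _ _)

theorem ch_conn (hpq : p ≠ q) {d e : D} (h : Conn M.φ M.α d e) :
    Conn (M.chord p q).φ (M.chord p q).α (.inl d) (.inl e) := by
  induction h with
  | rel x y h =>
    rcases h with rfl | rfl
    · by_cases h1 : x = p
      · subst h1
        exact ((ch_p M hpq).trans _ _ _ (ch_tf M x q)).trans _ _ _
          (M.chord_φ_false ▸ conn_φ (M.chord x q) (.inr false))
      by_cases h2 : x = q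
      · subst h2
        exact ((ch_q M p x).trans _ _ _ ((ch_tf M p x).symm _ _)).trans _ _ _
          (M.chord_φ_true hpq ▸ conn_φ (M.chord p x) (.inr true))
      exact M.chord_φ_inl h1 h2 ▸ conn_φ (M.chord p q) (.inl x)
    · exact conn_α (M.chord p q) (.inl x)
  | refl x => exact EqvGen.refl _
  | symm x y _ ih => exact ih.symm _ _
  | trans x y z _ _ i1 i2 => exact i1.trans _ _ _ i2

theorem ch_inl (hpq : p ≠ q) (x : D ⊕ Bool) :
    ∃ d, Conn (M.chord p q).φ (M.chord p q).α (.inl d) x := by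
  rcases x with d | _ | _
  · exact ⟨d, EqvGen.refl _⟩
  · exact ⟨q, ch_q M p q⟩
  · exact ⟨p, ch_p M hpq⟩

theorem chord_con (hpq : p ≠ q) (h : ∀ d e, Conn M.φ M.α d e ∨
    Conn M.φ M.α d p ∧ Conn M.φ M.α e q ∨ Conn M.φ M.α d q ∧ Conn M.φ M.α e p) :
    (M.chord p q).Con := by
  intro x y
  obtain ⟨d, hd⟩ := ch_inl M hpq x
  obtain ⟨e, he⟩ := ch_inl M hpq y
  refine ((hd.symm _ _).trans _ _ _ ?_).trans _ _ _ he
  rcases h d e with a | ⟨a, b⟩ | ⟨a, b⟩
  · exact ch_conn M hpq a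
  · exact ((ch_conn M hpq a).trans _ _ _ (ch_pq M hpq)).trans _ _ _ ((ch_conn M hpq b).symm _ _)
  · exact ((ch_conn M hpq a).trans _ _ _ ((ch_pq M hpq).symm _ _)).trans _ _ _
      ((ch_conn M hpq b).symm _ _)

theorem ch_comp [Finite D] (hpq : p ≠ q) :
    ncomp (M.chord p q).φ (M.chord p q).α ≤ ncomp M.φ M.α ∧
      (¬Conn M.φ M.α p q → ncomp (M.chord p q).φ (M.chord p q).α < ncomp M.φ M.α) := by
  let f : Quotient (EqvGen.setoid fun x y => y = M.φ x ∨ y = M.α x) →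
      Quotient (EqvGen.setoid fun x y => y = (M.chord p q).φ x ∨ y = (M.chord p q).α x) :=
    Quotient.map Sum.inl fun _ _ h => ch_conn M hpq h
  have hf : Surjective f := by
    intro c
    induction c using Quotient.inductionOn with
    | h x =>
      obtain ⟨d, hd⟩ := ch_inl M hpq x
      exact ⟨Quotient.mk _ d, Quotient.sound hd⟩
  refine ⟨Nat.card_le_card_of_surjective f hf, fun hn => ?_⟩
  refine lt_of_le_of_ne (Nat.card_le_card_of_surjective f hf) fun e => hn ?_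
  have := ((Nat.bijective_iff_surjective_and_card f).2 ⟨hf, e.symm⟩).1
    (a₁ := Quotient.mk _ p) (a₂ := Quotient.mk _ q) (Quotient.sound (ch_pq M hpq))
  exact Quotient.exact this

theorem ch_nσ (h : K1) [Finite D] (hpq : p ≠ q) : ncyc (M.chord p q).σ = ncyc M.σ := by
  have k := fun x y => sub_sc h _ _ _ _ x y (ch_sub M hpq)
  let f : Quotient (Perm.SameCycle.setoid M.σ) →
      Quotient (Perm.SameCycle.setoid (M.chord p q).σ) :=
    Quotient.map Sum.inl fun a b s => (k a b).1 s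
  refine (Nat.card_eq_of_bijective f ⟨?_, ?_⟩).symm
  · intro a b
    induction a using Quotient.inductionOn
    induction b using Quotient.inductionOn
    exact fun e => Quotient.sound ((k _ _).2 (Quotient.exact e))
  · intro c
    induction c using Quotient.inductionOn with
    | h x =>
      rcases x with d | _ | _
      · exact ⟨Quotient.mk _ d, rfl⟩
      · refine ⟨Quotient.mk _ (M.φ q), Quotient.sound ?_⟩
        change (M.chord p q).σ.SameCycle (.inl (M.φ q)) (.inr false)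
        rw [← ch_false M hpq, Perm.sameCycle_apply_left]
      · refine ⟨Quotient.mk _ (M.φ p), Quotient.sound ?_⟩
        change (M.chord p q).σ.SameCycle (.inl (M.φ p)) (.inr true)
        rw [← ch_true M p q, Perm.sameCycle_apply_left]

theorem sw_sc (a b : Bool) : (Equiv.swap true false).SameCycle a b := by
  rcases a <;> rcases b
  · rfl
  · exact ⟨1, by simp⟩
  · exact ⟨1, by simp⟩
  · rfl

theorem ncyc_sw : ncyc (Equiv.swap true false) = 1 := by
  rw [ncyc, Nat.card_eq_one_iff_unique]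
  refine ⟨⟨fun a b => ?_⟩, ⟨Quotient.mk _ true⟩⟩
  induction a using Quotient.inductionOn
  induction b using Quotient.inductionOn
  exact Quotient.sound (sw_sc _ _)

theorem sum_not [Finite D] (π : Perm D) (τ : Perm Bool) (d : D) (b : Bool) :
    ¬(Perm.sumCongr π τ).SameCycle (.inl d) (.inr b) := by
  intro s
  obtain ⟨n, hn⟩ := s.exists_nat_pow_eq
  rw [pow_semi (a₀ := π) (i := Sum.inl) fun _ => rfl] at hn
  exact Sum.inl_ne_inr hn

open Classical in
theorem ch_first (h : K1) [Finite D] (p q : D) :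
    ncyc (Perm.sumCongr M.φ (Equiv.swap true false) * Equiv.swap (Sum.inl p) (Sum.inr false)) =
      ncyc M.φ ∧
    ((Perm.sumCongr M.φ (Equiv.swap true false) *
      Equiv.swap (Sum.inl p) (Sum.inr false)).SameCycle (.inl q) (.inr true) ↔
      M.φ.SameCycle p q) := by
  have h1 := sum_not M.φ (Equiv.swap true false) p false
  constructor
  · have := h.swap_diff _ _ _ h1
    rw [h.ncyc_sum, ncyc_sw] at this
    omega
  · rw [h.sc_diff _ _ _ _ _ h1]
    have a1 := sum_not M.φ (Equiv.swap true false) q true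
    have a2 := sum_not M.φ (Equiv.swap true false) q false
    have a3 : (Perm.sumCongr M.φ (Equiv.swap true false)).SameCycle (.inr true) (.inr false) :=
      ⟨1, by simp⟩
    have a4 := sc_semi (a := Perm.sumCongr M.φ (Equiv.swap true false)) (a₀ := M.φ)
      Sum.inl_injective (fun _ => rfl) q p
    rw [← a4, Perm.sameCycle_comm (x := q)]
    tauto

theorem ch_chi (h : K1) [Finite D] (hpq : p ≠ q) :
    (M.chord p q).chi = M.chi + ncyc (M.chord p q).φ - ncyc M.φ - 1 := by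
  have a1 : ncyc (M.chord p q).α = ncyc M.α + 1 := by
    rw [← ncyc_sw, ← h.ncyc_sum]
    rfl
  have a2 : ncyc ((M.chord p q).φ * (M.chord p q).α) = ncyc (M.φ * M.α) := ch_nσ M h hpq
  simp only [HMap.chi, chi, a1, a2, Nat.card_sum, Nat.card_eq_fintype_card, Fintype.card_bool]
  push_cast
  ring

theorem chord_same (h : K1) [Finite D] (hpq : p ≠ q) (s : M.φ.SameCycle p q) :
    (M.chord p q).chi = M.chi ∧ (M.chord p q).eg = M.eg := by
  classical
  obtain ⟨a1, a2⟩ := ch_first M h p q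
  have a3 : ncyc (M.chord p q).φ = ncyc M.φ + 1 := by
    rw [← a1]
    exact h.swap_same _ _ _ Sum.inl_ne_inr (a2.2 s)
  have a4 : (M.chord p q).chi = M.chi := by
    rw [ch_chi M h hpq, a3]
    push_cast
    ring
  refine ⟨a4, le_antisymm ?_ (sub_eg h _ _ _ _ (ch_sub M hpq))⟩
  have a5 := (ch_comp M hpq).1
  change 2 * (ncomp (M.chord p q).φ (M.chord p q).α : ℤ) - (M.chord p q).chi ≤
    2 * (ncomp M.φ M.α : ℤ) - M.chi
  omega

theorem chord_diff (h : K1) [Finite D] (s : ¬M.φ.SameCycle p q) :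
    (M.chord p q).chi = M.chi - 2 ∧ (¬Conn M.φ M.α p q → (M.chord p q).eg = M.eg) := by
  classical
  have hpq : p ≠ q := fun e => s (e ▸ Perm.SameCycle.refl _ _)
  obtain ⟨a1, a2⟩ := ch_first M h p q
  have a3 : ncyc (M.chord p q).φ + 1 = ncyc M.φ := by
    rw [← a1]
    exact h.swap_diff _ _ _ fun c => s (a2.1 c)
  have a4 : (M.chord p q).chi = M.chi - 2 := by
    rw [ch_chi M h hpq, ← a3]
    push_cast
    ring
  refine ⟨a4, fun hn => le_antisymm ?_ (sub_eg h _ _ _ _ (ch_sub M hpq))⟩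
  have a5 := (ch_comp M hpq).2 hn
  change 2 * (ncomp (M.chord p q).φ (M.chord p q).α : ℤ) - (M.chord p q).chi ≤
    2 * (ncomp M.φ M.α : ℤ) - M.chi
  omega

theorem chord_φ (h : K1) [Finite D] (hpq : p ≠ q) :
    (∀ d e, ¬M.φ.SameCycle d p → ¬M.φ.SameCycle d q →
      ((M.chord p q).φ.SameCycle (.inl d) e ↔ ∃ e', e = .inl e' ∧ M.φ.SameCycle d e')) ∧
    (M.φ.SameCycle p q → ∀ d e, (M.chord p q).φ.SameCycle (.inl d) (.inl e) →
      M.φ.SameCycle d e) ∧
    (M.φ.SameCycle p q → ¬(M.chord p q).φ.SameCycle (.inl p) (.inl q)) := by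
  classical
  refine ⟨fun d e h1 h2 => ?_, fun s d e c => ?_, fun s c => ?_⟩
  · have k : ∀ n : ℕ, ((M.chord p q).φ ^ n) (.inl d) = .inl ((M.φ ^ n) d) := by
      intro n
      induction n with
      | zero => rfl
      | succ n ih =>
        rw [pow_succ', pow_succ', Perm.mul_apply, Perm.mul_apply, ih, M.chord_φ_inl]
        · exact fun e => h1 (e ▸ sc_pow _ _ _)
        · exact fun e => h2 (e ▸ sc_pow _ _ _)
    constructor
    · intro c
      obtain ⟨n, rfl⟩ := c.exists_nat_pow_eq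
      exact ⟨_, k n, sc_pow _ _ _⟩
    · rintro ⟨e', rfl, c⟩
      obtain ⟨n, rfl⟩ := c.exists_nat_pow_eq
      rw [← k]
      exact sc_pow _ _ _
  · let f : D ⊕ Bool → Quotient (Perm.SameCycle.setoid M.φ) :=
      Sum.elim (Quotient.mk _) fun _ => Quotient.mk _ p
    have hf : ∀ x, f ((M.chord p q).φ x) = f x := by
      rintro (x | _ | _)
      · by_cases h1 : x = p
        · rw [h1, M.chord_φ_p hpq]; rfl
        by_cases h2 : x = q
        · rw [h2, M.chord_φ_q]
          exact Quotient.sound s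
        rw [M.chord_φ_inl h1 h2]
        exact Quotient.sound (Perm.sameCycle_apply_left.2 (Perm.SameCycle.refl _ _))
      · rw [M.chord_φ_false]
        exact Quotient.sound (Perm.sameCycle_apply_left.2 (Perm.SameCycle.refl _ _))
      · rw [M.chord_φ_true hpq]
        exact Quotient.sound (Perm.sameCycle_apply_left.2 s.symm)
    obtain ⟨n, hn⟩ := c.exists_nat_pow_eq
    have := pow_inv hf n (.inl d)
    rw [hn] at this
    exact (Quotient.exact this).symm
  · refine (h.sc_same _ _ _ Sum.inl_ne_inr ((ch_first M h p q).2.2 s)).1 ?_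
    refine Perm.SameCycle.trans (f := (M.chord p q).φ) c.symm ?_
    rw [← M.chord_φ_p hpq, Perm.sameCycle_apply_right]

end chord

end Kit2

end Pool.Agent.Lib.MP_c1f5fe_lc
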