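import Pool.Agent.Lib.MP_c1f5fe_lc.Ball
import Pool.Agent.Lib.MP_c1f5fe_lc.Kit1
import Pool.Agent.Lib.MP_c1f5fe_lc.Reg

/-! No alternation around faces and vertices, and a finer count of regions. -/

namespace Pool.Agent.Lib.MP_c1f5fe_lc

open Equiv Function Relation

namespace Kit5

open Ball Kit1

lemma eg_fix {D : Type} [Finite D] (a b : Perm D) (Q : D → Prop) (hb : ∀ x, ¬Q x → b x = x) :
    eg (ret a Q) b = eg a b := by
  classical
  induction hn : {z | ¬Q z ∧ a z ≠ z}.ncard using Nat.strong_induction_on generalizing a with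
  | _ n ih =>
    by_cases h : ∃ x, ¬Q x ∧ a x ≠ x
    · obtain ⟨x, hx, hne⟩ := h
      rw [ret_peel a Q hx, ih _ ?_ _ rfl]
      · refine le_antisymm (eg_split a b _ _ ⟨-1, by simp⟩) ?_
        have bx := hb x hx
        have bi : b⁻¹ x = x := by rw [Perm.inv_eq_iff_eq, bx]
        have n1 : x ≠ a⁻¹ x := fun e => hne (Perm.eq_inv_iff_eq.1 e)
        have e : a * swap x (a⁻¹ x) * b = a * b * swap x (b⁻¹ (a⁻¹ x)) := by
          rw [mul_assoc, swap_mul_eq_mul_swap, mul_assoc, bi]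
        have n2 : x ≠ b⁻¹ (a⁻¹ x) := fun e => n1 (bx.symm.trans (Perm.eq_inv_iff_eq.1 e))
        have fx : ∀ c : Perm D, c x = x → ∀ z, z = x ↔ c z = x := fun c h z =>
          ⟨fun e => e ▸ h, fun e => c.injective (e.trans h.symm)⟩
        have c : ncomp a b + 1 ≤ ncomp (a * swap x (a⁻¹ x)) b := by
          refine quot_succ_le _ _ x (a x) (fun k => hne ?_) (conn_a a b x)
            (conn_congr _ _ _ _ (fun z => ?_) (conn_b _ _))
          · refine (conn_le (r := fun p q => p = x ↔ q = x) ⟨fun _ => Iff.rfl, Iff.symm, Iff.trans⟩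
              (fun z => ?_) (fun z => ?_) k).1 rfl
            · exact fx _ (by simp) z
            · exact fx _ bx z
          · by_cases h1 : z = x
            · rw [h1, sw_x]; simpa using conn_rfl a b x
            by_cases h2 : z = a⁻¹ x
            · rw [h2, sw_y]
              exact conn_trans (conn_symm (conn_ai a b x)) (conn_a a b x)
            rw [sw_z a _ _ h1 h2]
            exact conn_a _ _ _
        rw [eg, eg, chi, chi, swap_same a _ _ n1 ⟨-1, by simp⟩, e,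
          swap_same _ _ _ n2 ⟨-1, by simp⟩]
        push_cast
        omega
      rw [← hn]
      refine Set.ncard_lt_ncard ⟨fun z hz => ⟨hz.1, fun e => hz.2 ?_⟩, fun k => ?_⟩
      · have h1 : z ≠ x := fun e' => hne (by rw [← e', e])
        have h2 : z ≠ a⁻¹ x := fun e' => h1 (by rw [← e, e']; simp)
        rw [sw_z a _ _ h1 h2, e]
      · exact (k ⟨hx, hne⟩).2 (by simp)
    · push Not at h
      rw [ret_eq (ρ := a) (fun x q => nxt_one (by_contra fun k => k ?_)) h]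
      rwa [a.injective (h _ k)]

section alt

variable {D V : Type} [Fintype D] (M : HMap D) (vx : D → Option V)

open Classical in
noncomputable def W (μ : D → F) (u : M.Node) : F :=
  ∑ e, μ e * ((if M.rv e = u then 1 else 0) + if M.rv (M.α e) = u then 1 else 0)

lemma W_add (y z : D → F) (u : M.Node) : W M (y + z) u = W M y u + W M z u := by
  simp [W, add_mul, Finset.sum_add_distrib]

open Classical in
lemma W_single (d : D) (u : M.Node) : W M (Pi.single d 1) u =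
    (if M.rv d = u then 1 else 0) + if M.rv (M.α d) = u then 1 else 0 := by
  rw [W, Finset.sum_eq_single d] <;> simp +contextual

open Classical in
lemma walk (h2 : ∀ d e v, vx d = some v → vx e = some v → M.σ.SameCycle d e) {A : Set V}
    (hA : DCn M vx A) {a a' : V} (ha : a ∈ A) (ha' : a' ∈ A) {e e' : D} (he : vx e = some a)
    (he' : vx e' = some a') : ∃ μ : D → F,
      (∀ p, μ p ≠ 0 → (∃ x ∈ A, vx p = some x) ∧ ∃ x ∈ A, vx (M.α p) = some x) ∧
      ∀ u, W M μ u = (if M.rv e = u then 1 else 0) + if M.rv e' = u then 1 else 0 := by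
  have r := hA a ha a' ha'
  clear ha'
  induction r generalizing e' with
  | refl =>
    refine ⟨0, by simp, fun u => ?_⟩
    rw [(rv_eq M).2 (h2 e e' a he he'), f2]; simp [W]
  | tail _ s i =>
    obtain ⟨xa, ya, p, p1, p2⟩ := s
    obtain ⟨μ, m1, m2⟩ := i p1
    refine ⟨μ + Pi.single p 1, fun t ht => ?_, fun u => ?_⟩
    · by_cases k : t = p
      · exact k ▸ ⟨⟨_, xa, p1⟩, _, ya, p2⟩
      · exact m1 t (by simpa [k] using ht)
    · rw [W_add, W_single, m2, (rv_eq M).2 (h2 _ e' _ p2 he')]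
      linear_combination f2 (if M.rv p = u then 1 else 0)

lemma cst (h1 : ∀ d, vx (M.σ d) = vx d)
    (h2 : ∀ d e v, vx d = some v → vx e = some v → M.σ.SameCycle d e) {B : Set V}
    (hB : DCn M vx B) (f : D → F) (fσ : ∀ e b, b ∈ B → vx e = some b → f (M.σ e) = f e)
    (fα : ∀ e b, b ∈ B → vx e = some b → f (M.α e) = f e) {b b' : V} (hb : b ∈ B) (hb' : b' ∈ B)
    {e e' : D} (he : vx e = some b) (he' : vx e' = some b') : f e = f e' := by
  have k : ∀ b ∈ B, ∀ e e', vx e = some b → vx e' = some b → f e = f e' := by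
    intro b hb e e' he he'
    obtain ⟨n, rfl⟩ := (h2 e e' b he he').exists_nat_pow_eq
    have : ∀ n : ℕ, vx ((M.σ ^ n) e) = some b ∧ f e = f ((M.σ ^ n) e) := by
      intro n
      induction n with
      | zero => exact ⟨he, rfl⟩
      | succ n i =>
        rw [pow_succ', Perm.mul_apply, h1, fσ _ b hb i.1]
        exact i
    exact (this n).2
  have r := hB b hb b' hb'
  clear hb'
  induction r generalizing e' with
  | refl => exact k b hb e e' he he'
  | tail _ s i =>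
    obtain ⟨xa, ya, p, p1, p2⟩ := s
    rw [i p1, ← fα p _ xa p1, k _ ya _ _ p2 he']

omit [Fintype D] in
lemma pow_inj {a : Perm D} {d : D} {l : ℕ} (h : ∀ t, 0 < t → t ≤ l → (a ^ t) d ≠ d) {s t : ℕ}
    (hs : s ≤ l) (ht : t ≤ l) (e : (a ^ s) d = (a ^ t) d) : s = t := by
  have k : ∀ s t, s < t → t ≤ l → (a ^ s) d ≠ (a ^ t) d := fun s t lt ht e =>
    h (t - s) (by omega) (by omega) ((a ^ s).injective (by
      rw [← Perm.mul_apply, ← pow_add, Nat.add_sub_cancel' lt.le, e]))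
  rcases lt_trichotomy s t with c | c | c
  · exact absurd e (k s t c ht)
  · exact c
  · exact absurd e.symm (k t s c hs)

/-- a sequence that changes exactly at one step -/
lemma seq (g : ℕ → F) {i j l : ℕ} (ij : i ≤ j) (jl : j < l)
    (h : ∀ t, i ≤ t → t < l → g (t + 1) = g t + if t = j then 1 else 0) : g i ≠ g l := by
  have k : ∀ t, i + t ≤ l → g (i + t) = g i + if j < i + t then 1 else 0 := by
    intro t
    induction t with
    | zero => intro _; simp [not_lt.2 ij]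
    | succ t ih =>
      intro ht
      rw [← add_assoc, h _ (by omega) (by omega), ih (by omega), add_assoc]
      congr 1
      by_cases a : i + t = j
      · rw [if_neg (by omega), if_pos a, if_pos (by omega), zero_add]
      · rw [if_neg a, add_zero]
        exact if_congr (by omega) rfl rfl
  have := k (l - i) (by omega)
  rw [Nat.add_sub_cancel' (by omega), if_pos jl] at this
  rw [this]
  simp

omit [Fintype D] in
lemma of_prop {Y : D → F} {π : D → Prop} [DecidablePred π] {a b c : D}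
    (h : Y c = 1 ↔ ¬(π a ↔ π b)) :
    Y c = (if π a then 1 else 0) + if π b then 1 else 0 := by
  revert h
  generalize Y c = t
  by_cases x : π a <;> by_cases y : π b <;> simp only [x, y, if_true, if_false] <;>
    revert t <;> decide

variable {A B : Set V}

lemma face (h4 : K4) (g0 : M.eg = 0) (h1 : ∀ d, vx (M.σ d) = vx d)
    (h2 : ∀ d e v, vx d = some v → vx e = some v → M.σ.SameCycle d e) (AB : Disjoint A B)
    (hA : DCn M vx A) (hB : DCn M vx B) (d : D) (i j l : ℕ) (i0 : 0 < i) (ij : i < j) (jl : j < l)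
    (hn : ∀ t, 0 < t → t ≤ l → (M.φ ^ t) d ≠ d) (a0 : ∃ a ∈ A, vx d = some a)
    (b0 : ∃ b ∈ B, vx ((M.φ ^ i) d) = some b) (a1 : ∃ a ∈ A, vx ((M.φ ^ j) d) = some a)
    (b1 : ∃ b ∈ B, vx ((M.φ ^ l) d) = some b) : False := by
  classical
  obtain ⟨a, ha, ea⟩ := a0
  obtain ⟨a', ha', ea'⟩ := a1
  obtain ⟨b, hb, eb⟩ := b0
  obtain ⟨b', hb', eb'⟩ := b1
  obtain ⟨μ, m1, m2⟩ := walk M vx h2 hA ha ha' ea ea'
  have ia : ∀ e, M.φ⁻¹ (M.φ e) = e := fun e => by simp
  let y : D → F := (μ + fun e => μ (M.φ⁻¹ e)) + (Pi.single d 1 + Pi.single ((M.φ ^ j) d) 1)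
  have e0 : ∀ u, bd M (μ + fun e => μ (M.φ⁻¹ e)) u = W M μ u := fun u => by
    rw [bd_add, bd, bd, ← Equiv.sum_comp M.φ (fun d => μ (M.φ⁻¹ d) * _), W,
      ← Finset.sum_add_distrib]
    refine Finset.sum_congr rfl fun e _ => ?_
    rw [rv_φ, rf_φ, ia]
    linear_combination μ e * f2 (if M.rf e = u then 1 else 0)
  have y0 : ∀ u, bd M y u = 0 := fun u => by
    have s1 := bd_single M d u
    have s2 := bd_single M ((M.φ ^ j) d) u
    rw [(rf_eq M).2 (Perm.sameCycle_pow_left.2 .rfl : M.φ.SameCycle ((M.φ ^ j) d) d)] at s2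
    rw [bd_add, bd_add M (Pi.single _ _), e0, m2]
    linear_combination s1 + s2 + f2 (if M.rv d = u then 1 else 0) +
      f2 (if M.rv ((M.φ ^ j) d) = u then 1 else 0) + f2 (if M.rf d = u then 1 else 0)
  obtain ⟨p, p1, p2⟩ := h4.rad0 M _ g0 ((bd_iff M y).1 y0).1 ((bd_iff M y).1 y0).2
  let π : D → F := fun e => if p e then 1 else 0
  have c2 : ∀ e, y (M.φ e) = π e + π (M.φ e) := fun e => of_prop (p2 e)
  have c1 : ∀ e, π (M.α e) = π e := fun e => by simp only [π, p1]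
  have nA : ∀ e b, b ∈ B → vx e = some b → ¬∃ x ∈ A, vx e = some x := by
    rintro e b hb he ⟨x, hx, ex⟩
    exact Set.disjoint_left.1 AB hx (Option.some.inj (ex.symm.trans he) ▸ hb)
  have μ0 : ∀ e b, b ∈ B → vx e = some b → μ e = 0 := fun e b hb he =>
    by_contra fun k => nA e b hb he (m1 e k).1
  have k := cst M vx h1 h2 hB π (fun e b hb he => ?_) (fun e _ _ _ => c1 e) hb hb' eb eb'
  · refine seq (fun t => π ((M.φ ^ t) d) + μ ((M.φ ^ t) d)) (i := i) (j := j - 1) (l := l)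
      (by omega) (by omega) (fun t it tl => ?_) (by simp only [k, μ0 _ _ hb eb, μ0 _ _ hb' eb'])
    have := c2 ((M.φ ^ t) d)
    simp only [y, Pi.add_apply, ia] at this
    rw [← Perm.mul_apply, ← pow_succ', Pi.single_eq_of_ne (hn _ (by omega) (by omega)),
      Pi.single_apply, if_congr (Q := t = j - 1) ⟨fun e => by
        have := pow_inj hn (by omega) (by omega) e; omega, fun e => by
        rw [e, Nat.sub_add_cancel (by omega)]⟩ rfl rfl] at this
    show π _ + μ _ = π _ + μ _ + _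
    linear_combination -this + f2 (μ ((M.φ ^ (t + 1)) d)) - f2 (π ((M.φ ^ t) d)) +
      f2 (π ((M.φ ^ t) d)) - f2 (π ((M.φ ^ t) d))
  · have s := h1 e
    have := c2 (M.α e)
    rw [← M.σ_apply, c1] at this
    refine (f_eq (this.symm.trans ?_)).symm
    have z : μ (M.φ⁻¹ (M.σ e)) = 0 := by
      rw [M.σ_apply, ia]
      exact by_contra fun k => nA e b hb he (by simpa only [M.αα] using (m1 _ k).2)
    simp only [y, Pi.add_apply, z, μ0 _ b hb (s.trans he)]
    rw [Pi.single_eq_of_ne, Pi.single_eq_of_ne, add_zero]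
    · simp
    · exact fun k => nA _ b hb (s.trans he) ⟨a', ha', k ▸ ea'⟩
    · exact fun k => nA _ b hb (s.trans he) ⟨a, ha, k ▸ ea⟩

lemma vert (h4 : K4) (g0 : M.eg = 0) (h1 : ∀ d, vx (M.σ d) = vx d)
    (h2 : ∀ d e v, vx d = some v → vx e = some v → M.σ.SameCycle d e) (AB : Disjoint A B)
    (hA : DCn M vx A) (hB : DCn M vx B) (d : D) (i j l : ℕ) (i0 : 0 < i) (ij : i < j) (jl : j < l)
    (hn : ∀ t, 0 < t → t ≤ l → (M.σ ^ t) d ≠ d) (hz : ∀ z, vx d = some z → z ∉ A ∧ z ∉ B)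
    (a0 : ∃ a ∈ A, vx (M.α d) = some a) (b0 : ∃ b ∈ B, vx (M.α ((M.σ ^ i) d)) = some b)
    (a1 : ∃ a ∈ A, vx (M.α ((M.σ ^ j) d)) = some a)
    (b1 : ∃ b ∈ B, vx (M.α ((M.σ ^ l) d)) = some b) : False := by
  classical
  obtain ⟨a, ha, ea⟩ := a0
  obtain ⟨a', ha', ea'⟩ := a1
  obtain ⟨b, hb, eb⟩ := b0
  obtain ⟨b', hb', eb'⟩ := b1
  obtain ⟨μ, m1, m2⟩ := walk M vx h2 hA ha ha' ea ea'
  let ν : D → F := μ + (Pi.single d 1 + Pi.single ((M.σ ^ j) d) 1)
  let y : D → F := fun e => ν e + ν (M.α e)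
  have ev : Ev M.σ fun e => y e = 1 := by
    refine (ev_iff _ _).2 fun x => ?_
    have s1 := W_single M d (M.rv x)
    have s2 := W_single M ((M.σ ^ j) d) (M.rv x)
    rw [(rv_eq M).2 (Perm.sameCycle_pow_left.2 .rfl : M.σ.SameCycle ((M.σ ^ j) d) d)] at s2
    have : W M ν (M.rv x) = 0 := by
      rw [W_add, W_add, m2]
      linear_combination s1 + s2 + f2 (if M.rv d = M.rv x then 1 else 0) +
        f2 (if M.rv (M.α d) = M.rv x then 1 else 0) +
        f2 (if M.rv (M.α ((M.σ ^ j) d)) = M.rv x then 1 else 0)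
    refine Eq.trans ?_ this
    rw [W]
    simp only [y, add_mul, mul_add, Finset.sum_add_distrib, rv_eq]
    rw [← Equiv.sum_comp M.α (fun e => ν (M.α e) * _)]
    simp only [M.αα]
  obtain ⟨p, p1, p2⟩ := h4.cob M _ g0 (fun q hq => ⟨by simpa only [y, M.αα, add_comm] using hq,
    fun e => by simp only [y, e, f2] at hq; exact zero_ne_one hq⟩) ev
  let π : D → F := fun e => if p e then 1 else 0
  have c2 : ∀ e, y e = π e + π (M.α e) := fun e => of_prop (p2 e)
  have c1 : ∀ e, π (M.σ e) = π (M.α e) := fun e => by simp only [π, M.σ_apply, p1]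
  have vt : ∀ t : ℕ, vx ((M.σ ^ t) d) = vx d := fun t => by
    induction t with
    | zero => rfl
    | succ t i => rw [pow_succ', Perm.mul_apply, h1, i]
  have yy : ∀ e, (¬∃ x ∈ A, vx e = some x) → y e =
      (if e = d then 1 else 0) + if e = (M.σ ^ j) d then 1 else 0 := fun e n => by
    have z1 : μ e = 0 := by_contra fun k => n (m1 e k).1
    have z2 : μ (M.α e) = 0 := by_contra fun k => n (by simpa only [M.αα] using (m1 _ k).2)
    have n1 : M.α e ≠ d := fun k => n ⟨a, ha, by rw [← ea, ← k, M.αα]⟩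
    have n2 : M.α e ≠ (M.σ ^ j) d := fun k => n ⟨a', ha', by rw [← ea', ← k, M.αα]⟩
    simp [y, ν, z1, z2, n1, n2, Pi.single_apply]
  have yB : ∀ e b, b ∈ B → vx e = some b → π (M.α e) = π e := fun e b hb he => by
    refine (f_eq ((c2 e).symm.trans ?_)).symm
    rw [yy e, if_neg, if_neg, add_zero]
    · exact fun k => (hz b (by rw [← vt j, ← k, he])).2 hb
    · exact fun k => (hz b (k ▸ he)).2 hb
    · rintro ⟨x, hx, ex⟩
      exact Set.disjoint_left.1 AB hx (Option.some.inj (ex.symm.trans he) ▸ hb)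
  have k := cst M vx h1 h2 hB π (fun e b hb he => (c1 e).trans (yB e b hb he)) yB hb hb' eb eb'
  have u1 := yB _ _ hb eb
  have u2 := yB _ _ hb' eb'
  rw [M.αα] at u1 u2
  refine seq (fun t => π ((M.σ ^ t) d)) (i := i) (j := j) (l := l) ij.le jl (fun t it tl => ?_)
    (by simp only [u1, u2, k])
  have := c2 ((M.σ ^ t) d)
  rw [yy _ fun ⟨x, hx, ex⟩ => (hz x ((vt t).symm.trans ex)).1 hx,
    if_neg (hn _ (by omega) (by omega)), if_congr (Q := t = j)
      ⟨fun e => pow_inj hn (by omega) (by omega) e, fun e => by rw [e]⟩ rfl rfl, ← c1,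
    ← Perm.mul_apply, ← pow_succ'] at this
  show π _ = π _ + _
  linear_combination -this - f2 (π ((M.σ ^ t) d))

end alt

section count

open Reg

variable {D : Type} [Finite D] (k : K1) (M : HMap D) {Q : D → Prop}

include k in
lemma col_ind (P₁ P₂ P₃ : D → Prop) (hc : M.Con) (hq : ∃ q, Q q)
    (hr : ∀ q, Q q → (Nat.card {d // M.Reg Q q d ∧ P₁ d} : ℤ) ≤
      3 * Nat.card {d // M.Reg Q q d ∧ P₂ d} - 6 * M.inv Q (M.Reg Q q) +
        4 * Nat.card {d // M.Reg Q q d ∧ P₃ d}) (n : ℕ) :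
    ∀ X : D → Prop, M.Col Q X → Nat.card {d // X d} ≤ n →
      (Nat.card {d // X d ∧ P₁ d} : ℤ) ≤ 3 * Nat.card {d // X d ∧ P₂ d} - 6 * M.inv Q X +
        4 * Nat.card {d // X d ∧ P₃ d} := by
  have z : ∀ X : D → Prop, (∀ d, ¬X d) → (Nat.card {d // X d ∧ P₁ d} : ℤ) ≤
      3 * Nat.card {d // X d ∧ P₂ d} - 6 * M.inv Q X + 4 * Nat.card {d // X d ∧ P₃ d} :=
    fun X e => by
      rw [inv_zero M e, card_zero fun d a => e d (And.left a)]
      omega
  induction n with
  | zero =>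
    intro X _ l
    refine z X fun d a => ?_
    have : Nonempty {d // X d} := ⟨⟨d, a⟩⟩
    have : 0 < Nat.card {d // X d} := Nat.card_pos
    omega
  | succ n ih =>
    intro X c l
    by_cases ex : ∃ d, X d
    swap
    · exact z X fun d a => ex ⟨d, a⟩
    obtain ⟨d, a⟩ := ex
    obtain ⟨q, b, r⟩ := hit M Q hc hq d
    have xq := (reg_col M Q X c _ _ r).1 a
    have sb : ∀ e, M.Reg Q q e → X e := fun e s => (reg_col M Q X c _ _ s).1 xq
    have sp : ∀ P : D → Prop, Nat.card {e // X e ∧ P e} =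
        Nat.card {e // M.Reg Q q e ∧ P e} + Nat.card {e // (X e ∧ ¬M.Reg Q q e) ∧ P e} := by
      intro P
      rw [← card_or _ _ fun e x y => y.1.2 x.1]
      exact card_congr fun e => by have := sb e; tauto
    have s0 := card_split X (M.Reg Q q)
    have p0 : 0 < Nat.card {e // X e ∧ M.Reg Q q e} := by
      have : Nonempty {e // X e ∧ M.Reg Q q e} := ⟨⟨q, xq, .refl _⟩⟩
      exact Nat.card_pos
    have i1 := ih _ (col_and M Q c (col_not M Q (col_reg M Q q))) (by omega)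
    have i2 := hr q b
    have i3 := inv_add k M c (col_reg M Q q)
    rw [inv_pred M (X := fun d => X d ∧ M.Reg Q q d) (Y := M.Reg Q q)
      fun e => ⟨fun x => x.2, fun x => ⟨sb e x, x⟩⟩] at i3
    rw [sp, sp, sp, i3]
    push_cast
    linarith

include k in
lemma countB (h3 : K3) (B : D → Prop) (hc : M.Con) (e : M.Edges Q) (hq : ∃ q, Q q)
    (hB : ∀ d, B (M.σ d) ↔ B d) (h2 : ∀ q, Q q → ¬B q → ∃ e, Q e ∧ e ≠ q ∧ M.σ.SameCycle q e)
    (hn : ∀ q, Q q → ∃ n : ℕ, B ((M.nx Q)^[n] q)) :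
    (Nat.card {q // Q q ∧ B q ∧ ¬(M.Disc Q q ∧ ∃ e, e ≠ q ∧ Q e ∧ B e ∧ M.Reg Q q e ∧
        ∀ e', Q e' → B e' → M.Reg Q q e' → e' = q ∨ e' = e)} : ℤ) ≤
      6 * (ncycAt M.σ (fun d => Q d ∧ B d) - M.chi) +
        4 * Nat.card {q // Q q ∧ B q ∧ M.Disc Q q ∧ ∀ e, Q e → B e → M.Reg Q q e → e = q} := by
  have h := fun q a => (e q a).1
  have e1 := col_ind k M (fun q => Q q ∧ B q ∧ ¬(M.Disc Q q ∧ ∃ e, e ≠ q ∧ Q e ∧ B e ∧
      M.Reg Q q e ∧ ∀ e', Q e' → B e' → M.Reg Q q e' → e' = q ∨ e' = e)) (fun q => Q q ∧ B q)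
    (fun q => Q q ∧ B q ∧ M.Disc Q q ∧ ∀ e, Q e → B e → M.Reg Q q e → e = q) hc hq
    (fun q a => ?_) _ _ (col_univ M Q) le_rfl
  · have e2 := chi_univ k M h
    have e3 := half k M e
    have bs : ∀ d e, M.σ.SameCycle d e → (B d ↔ B e) := fun d e s =>
      ⟨fun x => sc_ind s x fun z => (hB z).2, fun x => sc_ind s.symm x fun z => (hB z).2⟩
    have e4 := at_add k M.σ (fun d => Q d ∧ B d) (fun d => Q d ∧ ¬B d)
      fun d e x y z => y.2 ((bs d e z).1 x.2)
    rw [at_pred _ (P' := Q) fun d => by tauto] at e4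
    have e5 := card_split Q B
    have e6 := k.long (ret M.σ Q) (fun d => Q d ∧ ¬B d) 2 fun x hx j j0 j2 f => by
      obtain rfl : j = 1 := by omega
      obtain ⟨t, qt, ne, s⟩ := h2 x hx.1 hx.2
      exact ne (((k.sc_ret _ Q _ _ hx.1 qt).2 s).eq_of_left f).symm
    rw [k.on_eq_at _ _ fun d => ?_, at_ret k _ _ _ fun _ a => a.1] at e6
    · simp only [true_and] at e1 e2
      omega
    · by_cases a : Q d
      · obtain ⟨n, -, s, -⟩ := ret_nxt M.σ a
        rw [ret_iff M.σ Q, bs d (ret M.σ Q d) ⟨n, by rw [← s]; simp⟩]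
      · rw [ret_not _ a]
  have e1 : Nat.card {d // M.Reg Q q d ∧ Q d ∧ B d ∧ ¬(M.Disc Q d ∧ ∃ e, e ≠ d ∧ Q e ∧ B e ∧
      M.Reg Q d e ∧ ∀ e', Q e' → B e' → M.Reg Q d e' → e' = d ∨ e' = e)} ≤
      Nat.card {d // M.Reg Q q d ∧ Q d ∧ B d} := card_mono fun d x => ⟨x.1, x.2.1, x.2.2.1⟩
  obtain ⟨e2, e3⟩ := reg_chi k M h a
  by_cases hi : M.inv Q (M.Reg Q q) ≤ 0
  · omega
  have tr : ∀ {d t}, M.Reg Q q d → M.Reg Q d t → M.Reg Q q t := fun x y => .trans _ _ _ x y
  have tr' : ∀ {d t}, M.Reg Q q d → M.Reg Q q t → M.Reg Q d t := fun x y =>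
    .trans _ _ _ (.symm _ _ x) y
  have dd : ∀ d, M.Reg Q q d → Q d → M.Disc Q d := fun d r b => by
    apply h3.disc_of M Q d e b
    rw [inv_pred M (X := M.Reg Q d) (Y := M.Reg Q q) fun e => ⟨tr r, tr' r⟩]
    omega
  have e4 : 0 < Nat.card {d // M.Reg Q q d ∧ Q d ∧ B d} := by
    obtain ⟨n, hn⟩ := hn q a
    have : ∀ n : ℕ, M.Reg Q q ((M.nx Q)^[n] q) ∧ Q ((M.nx Q)^[n] q) := by
      intro n
      induction n with
      | zero => exact ⟨.refl _, a⟩
      | succ n i =>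
        rw [iterate_succ_apply']
        exact ⟨tr i.1 (nx_q M h _ i.2).2.1, (nx_q M h _ i.2).1⟩
    have : Nonempty {d // M.Reg Q q d ∧ Q d ∧ B d} := ⟨⟨_, (this n).1, (this n).2, hn⟩⟩
    exact Nat.card_pos
  by_cases n1 : Nat.card {d // M.Reg Q q d ∧ Q d ∧ B d} ≤ 1
  · have e5 : Nat.card {d // M.Reg Q q d ∧ Q d ∧ B d} ≤ Nat.card {d // M.Reg Q q d ∧ Q d ∧ B d ∧
        M.Disc Q d ∧ ∀ e, Q e → B e → M.Reg Q d e → e = d} := by
      refine card_mono fun d x => ⟨x.1, x.2.1, x.2.2, dd d x.1 x.2.1, fun t a b c => ?_⟩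
      rw [card_eq, Set.ncard_le_one_iff (Set.toFinite _)] at n1
      exact n1 ⟨tr x.1 c, a, b⟩ x
    omega
  by_cases n2 : Nat.card {d // M.Reg Q q d ∧ Q d ∧ B d} = 2
  · rw [card_zero (P := fun d => M.Reg Q q d ∧ Q d ∧ B d ∧ ¬(M.Disc Q d ∧ ∃ e, e ≠ d ∧ Q e ∧
      B e ∧ M.Reg Q d e ∧ ∀ e', Q e' → B e' → M.Reg Q d e' → e' = d ∨ e' = e))]
    · omega
    rw [card_eq, Set.ncard_eq_two] at n2
    obtain ⟨x, y, xy, hs⟩ := n2
    have mem : ∀ d, M.Reg Q q d ∧ Q d ∧ B d ↔ d = x ∨ d = y := fun d => by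
      simpa using Set.ext_iff.1 hs d
    have mx := (mem x).2 (.inl rfl)
    have my := (mem y).2 (.inr rfl)
    refine fun d z => z.2.2.2 ⟨dd d z.1 z.2.1, ?_⟩
    rcases (mem d).1 ⟨z.1, z.2.1, z.2.2.1⟩ with rfl | rfl
    · exact ⟨y, xy.symm, my.2.1, my.2.2, tr' z.1 my.1, fun t a b c => (mem t).1 ⟨tr z.1 c, a, b⟩⟩
    · exact ⟨x, xy, mx.2.1, mx.2.2, tr' z.1 mx.1,
        fun t a b c => ((mem t).1 ⟨tr z.1 c, a, b⟩).symm⟩
  omega

end count

end Kit5

theorem k5 (h1 : K1) (h3 : K3) (h4 : K4) : K5 where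
  eg_fix := Kit5.eg_fix
  face M vx _ _ := @Kit5.face _ _ (Fintype.ofFinite _) M vx _ _ h4
  vert M vx _ _ := @Kit5.vert _ _ (Fintype.ofFinite _) M vx _ _ h4
  countB M _ B := Kit5.countB h1 M h3 B

end Pool.Agent.Lib.MP_c1f5fe_lc
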