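import Pool.Agent.Lib.MP_c1f5fe_lc.SpecB

/-! Connected sets and the levels of a flat disc. -/

namespace Pool.Agent.Lib.MP_c1f5fe_lc.NearA

open Function Relation
open Pool.Agent.Lib.MP_50b5c6_lc.Np (Pl)

theorem rtg_mono {V : Type} {r p : V → V → Prop} {a b : V} (h : ReflTransGen r a b)
    (l : ∀ x y, r x y → p x y) : ReflTransGen p a b := by
  induction h with
  | refl => exact .refl
  | tail _ e ih => exact ih.tail (l _ _ e)

section cn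
variable {V : Type} {G H : SimpleGraph V} {A B : Set V}

theorem tch_symm (h : Tch G A B) : Tch G B A := by
  obtain ⟨u, hu, v, hv, e⟩ := h
  exact ⟨v, hv, u, hu, e.symm⟩

theorem tch_mono {A' B' : Set V} (h : Tch G A B) (ha : A ⊆ A') (hb : B ⊆ B') : Tch G A' B' := by
  obtain ⟨u, hu, v, hv, e⟩ := h
  exact ⟨u, ha hu, v, hb hv, e⟩

theorem rtg_symm {a b : V} (h : ReflTransGen (fun x y => G.Adj x y ∧ x ∈ A ∧ y ∈ A) a b) :
    ReflTransGen (fun x y => G.Adj x y ∧ x ∈ A ∧ y ∈ A) b a := by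
  induction h with
  | refl => exact .refl
  | tail _ e ih => exact .head ⟨e.1.symm, e.2.2, e.2.1⟩ ih

theorem rtg_sub {a b : V} (s : A ⊆ B)
    (h : ReflTransGen (fun x y => G.Adj x y ∧ x ∈ A ∧ y ∈ A) a b) :
    ReflTransGen (fun x y => G.Adj x y ∧ x ∈ B ∧ y ∈ B) a b :=
  rtg_mono h fun _ _ e => ⟨e.1, s e.2.1, s e.2.2⟩

theorem cn_of_root {a : V} (ha : a ∈ A)
    (h : ∀ b ∈ A, ReflTransGen (fun x y => G.Adj x y ∧ x ∈ A ∧ y ∈ A) a b) : Cn G A :=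
  ⟨⟨a, ha⟩, fun x hx y hy => (rtg_symm (h x hx)).trans (h y hy)⟩

theorem cn_single (a : V) : Cn G {a} :=
  cn_of_root (a := a) rfl fun b hb => by rw [hb]

theorem cn_union (hA : Cn G A) (hB : Cn G B) (h : Tch G A B) : Cn G (A ∪ B) := by
  obtain ⟨u, hu, v, hv, e⟩ := h
  refine cn_of_root (a := u) (.inl hu) ?_
  rintro b (hb | hb)
  · exact rtg_sub Set.subset_union_left (hA.2 u hu b hb)
  · exact .head ⟨e, .inl hu, .inr hv⟩ (rtg_sub Set.subset_union_right (hB.2 v hv b hb))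

theorem cn_union' (hA : Cn G A) (hB : Cn G B) {u : V} (hu : u ∈ A) (hv : u ∈ B) :
    Cn G (A ∪ B) := by
  refine cn_of_root (a := u) (.inl hu) ?_
  rintro b (hb | hb)
  · exact rtg_sub Set.subset_union_left (hA.2 u hu b hb)
  · exact rtg_sub Set.subset_union_right (hB.2 u hv b hb)

theorem cn_le (h : Cn G A) (l : ∀ x ∈ A, ∀ y ∈ A, G.Adj x y → H.Adj x y) : Cn H A :=
  ⟨h.1, fun a ha b hb => rtg_mono (h.2 a ha b hb) fun x y e => ⟨l x e.2.1 y e.2.2 e.1, e.2⟩⟩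

theorem cn_rst {Z : Set V} (h : Cn G A) (s : A ⊆ Z) : Cn (rst G Z) A :=
  cn_le h fun _ hx _ hy e => ⟨e, s hx, s hy⟩

theorem cn_of_rst {Z : Set V} (h : Cn (rst G Z) A) : Cn G A :=
  cn_le h fun _ _ _ _ e => e.1

theorem tch_rst {Z : Set V} (h : Tch G A B) (s : A ⊆ Z) (t : B ⊆ Z) : Tch (rst G Z) A B := by
  obtain ⟨u, hu, v, hv, e⟩ := h
  exact ⟨u, hu, v, hv, e, s hu, t hv⟩

theorem tch_of_rst {Z : Set V} (h : Tch (rst G Z) A B) : Tch G A B := by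
  obtain ⟨u, hu, v, hv, e⟩ := h
  exact ⟨u, hu, v, hv, e.1⟩

/-- the union of a run of sets -/
def run (γ : ℕ → Set V) (p q : ℕ) : Set V := {v | ∃ s, p ≤ s ∧ s ≤ q ∧ v ∈ γ s}

theorem sub_run {γ : ℕ → Set V} {p q s : ℕ} (h1 : p ≤ s) (h2 : s ≤ q) : γ s ⊆ run γ p q :=
  fun _ hv => ⟨s, h1, h2, hv⟩

theorem cn_run {γ : ℕ → Set V} {p q : ℕ} (l : p ≤ q) (c : ∀ s, p ≤ s → s ≤ q → Cn G (γ s))
    (t : ∀ s, p ≤ s → s < q → Tch G (γ s) (γ (s + 1))) : Cn G (run γ p q) := by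
  induction q, l using Nat.le_induction with
  | base =>
    have : run γ p p = γ p := by
      ext v
      exact ⟨fun ⟨s, h1, h2, hv⟩ => by rwa [le_antisymm h2 h1] at hv, fun hv => ⟨p, le_rfl, le_rfl, hv⟩⟩
    rw [this]; exact c p le_rfl le_rfl
  | succ q l ih =>
    have : run γ p (q + 1) = run γ p q ∪ γ (q + 1) := by
      ext v
      constructor
      · rintro ⟨s, h1, h2, hv⟩
        rcases Nat.lt_or_ge s (q + 1) with h | h
        · exact .inl ⟨s, h1, by omega, hv⟩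
        · exact .inr (by rwa [le_antisymm h2 h] at hv)
      · rintro (⟨s, h1, h2, hv⟩ | hv)
        · exact ⟨s, h1, by omega, hv⟩
        · exact ⟨q + 1, by omega, le_rfl, hv⟩
    rw [this]
    exact cn_union (ih (fun s a b => c s a (by omega)) fun s a b => t s a (by omega))
      (c _ (by omega) le_rfl) (tch_mono (t q l (by omega)) (sub_run l le_rfl) subset_rfl)

theorem k5 (N : NonPl) (P : Pl G.Adj) {A₀ A₁ A₂ A₃ A₄ : Set V} (c₀ : Cn G A₀) (c₁ : Cn G A₁)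
    (c₂ : Cn G A₂) (c₃ : Cn G A₃) (c₄ : Cn G A₄)
    (d : Disjoint A₀ A₁ ∧ Disjoint A₀ A₂ ∧ Disjoint A₀ A₃ ∧ Disjoint A₀ A₄ ∧ Disjoint A₁ A₂ ∧
      Disjoint A₁ A₃ ∧ Disjoint A₁ A₄ ∧ Disjoint A₂ A₃ ∧ Disjoint A₂ A₄ ∧ Disjoint A₃ A₄)
    (t : Tch G A₀ A₁ ∧ Tch G A₀ A₂ ∧ Tch G A₀ A₃ ∧ Tch G A₀ A₄ ∧ Tch G A₁ A₂ ∧
      Tch G A₁ A₃ ∧ Tch G A₁ A₄ ∧ Tch G A₂ A₃ ∧ Tch G A₂ A₄ ∧ Tch G A₃ A₄) : False := by
  obtain ⟨d1, d2, d3, d4, d5, d6, d7, d8, d9, d10⟩ := d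
  obtain ⟨t1, t2, t3, t4, t5, t6, t7, t8, t9, t10⟩ := t
  refine N.k5 G ![A₀, A₁, A₂, A₃, A₄] ?_ ?_ ?_ P
  · intro i
    fin_cases i <;> assumption
  · intro i j h
    fin_cases i <;> fin_cases j <;>
      first | exact absurd rfl h | assumption | (apply Disjoint.symm; assumption)
  · intro i j h
    fin_cases i <;> fin_cases j <;> first | exact absurd h (by decide) | assumption

theorem cast_inj {m s t : ℕ} (hs : s < m) (ht : t < m) (e : (s : ZMod m) = t) : s = t := by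
  rw [ZMod.natCast_eq_natCast_iff'] at e
  rwa [Nat.mod_eq_of_lt hs, Nat.mod_eq_of_lt ht] at e

theorem exists_off {m : ℕ} (hm : 0 < m) (u x : ZMod m) : ∃ s : ℕ, s < m ∧ x = u + s := by
  have : NeZero m := ⟨hm.ne'⟩
  exact ⟨(x - u).val, ZMod.val_lt _, by simp⟩

end cn

section flat
variable {V D : Type} {G : SimpleGraph V} {Z : Set V} {R : ℕ} (F : Flat G Z R D)

theorem vx_phi (d : D) : F.L.vx (F.L.φ d) = F.L.vx (F.L.α d) := by
  have := F.L.vx_σ (F.L.α d)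
  rwa [F.L.αα] at this

theorem zc_sub (r : ℕ) : F.Zc r ⊆ Z := by
  rintro v ⟨d, -, rfl⟩
  exact (F.L.adj d).2.1

theorem o_mono {r r' : ℕ} (l : r ≤ r') (h : r' ≤ R) {d : D} (o : F.O r d) : F.O r' d := by
  induction r', l using Nat.le_induction with
  | base => exact o
  | succ q l ih => exact F.rings.nest q (by omega) d ⟨d, ih (by omega), rfl⟩

theorem zc_mono {r r' : ℕ} (l : r ≤ r') (h : r' ≤ R) : F.Zc r ⊆ F.Zc r' := by
  rintro v ⟨d, o, rfl⟩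
  exact ⟨d, o_mono F l h o, rfl⟩

theorem ring_mem {r : ℕ} (h : r ≤ R) (i : ZMod (F.len r)) : F.c r i ∈ F.Zc r := by
  obtain ⟨d, ⟨h1, h2⟩, -⟩ := F.L.ex _ _ ((F.rings.cyc r h).adj i)
  exact ⟨d, ((F.rings.bd r h d).2 ⟨i, h1, h2⟩).1, h1⟩

theorem ring_not {r r' : ℕ} (l : r < r') (h : r' ≤ R) (i : ZMod (F.len r')) :
    F.c r' i ∉ F.Zc r := by
  intro hv
  obtain ⟨d, ⟨h1, h2⟩, -⟩ := F.L.ex _ _ ((F.rings.cyc r' h).adj (i - 1))
  refine ((F.rings.bd r' h d).2 ⟨i - 1, h1, h2⟩).2 ?_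
  rw [sub_add_cancel] at h2
  exact o_mono F (show r + 1 ≤ r' by omega) h (F.rings.nest r (by omega) _ (by rw [h2]; exact hv))

theorem nb_mem {r : ℕ} (h : r < R) {u w : V} (hu : u ∈ F.Zc r) (e : G.Adj u w) : w ∈ Z := by
  refine F.closed u (zc_sub F r hu) ?_ e
  rintro ⟨i, rfl⟩
  exact ring_not F h le_rfl i hu

theorem inner [Finite D] {r : ℕ} (h : r ≤ R) {u w : V} (hu : u ∈ F.Zc r)
    (hr : u ∉ Set.range (F.c r)) (e : G.Adj u w) (hw : w ∈ Z) : w ∈ F.Zc r := by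
  obtain ⟨d₀, o, rfl⟩ := hu
  obtain ⟨d, ⟨h1, h2⟩, -⟩ := F.L.ex _ w ⟨e, (F.L.adj d₀).2.1, hw⟩
  obtain ⟨n, hn⟩ := (F.L.vx_cyc d₀ d h1.symm).exists_nat_pow_eq
  have key : ∀ n : ℕ, F.O r ((F.L.toHMap.σ ^ n) d₀) ∧
      F.L.vx ((F.L.toHMap.σ ^ n) d₀) = F.L.vx d₀ := by
    intro n
    induction n with
    | zero => exact ⟨o, rfl⟩
    | succ n ih =>
      rw [pow_succ', Equiv.Perm.mul_apply, HMap.σ_apply]
      refine ⟨(F.rings.phi r h _).2 ?_, by rw [F.L.vx_σ, ih.2]⟩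
      by_contra no
      obtain ⟨i, hi, -⟩ := (F.rings.bd r h _).1 ⟨ih.1, no⟩
      exact hr ⟨i, by rw [← hi, ih.2]⟩
  have o' := (key n).1
  rw [hn] at o'
  exact ⟨F.L.φ d, (F.rings.phi r h d).2 o', by rw [vx_phi, h2]⟩

theorem cyc_cn {H : SimpleGraph V} {n : ℕ} {c : ZMod n → V} (h : Cyc H c) :
    Cn H (Set.range c) := by
  refine cn_of_root (a := c 0) ⟨0, rfl⟩ ?_
  rintro _ ⟨i, rfl⟩
  obtain ⟨s, -, rfl⟩ := exists_off (m := n) (by have := h.three; omega) 0 i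
  induction s with
  | zero => simpa using ReflTransGen.refl
  | succ s ih =>
    refine ih.tail ⟨?_, ⟨_, rfl⟩, ⟨_, rfl⟩⟩
    have := h.adj (0 + s)
    rwa [add_assoc, ← Nat.cast_succ] at this

theorem zc_cn [Finite D] {r : ℕ} (h : r ≤ R) : Cn G (F.Zc r) := by
  have cr : Cn G (Set.range (F.c r)) := cn_of_rst (cyc_cn (F.rings.cyc r h))
  have sr : Set.range (F.c r) ⊆ F.Zc r := by rintro _ ⟨i, rfl⟩; exact ring_mem F h i
  refine cn_of_root (ring_mem F h 0) fun b hb => rtg_symm ?_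
  have p := F.cn.2 b (zc_sub F r hb) _ (zc_sub F r (ring_mem F h 0))
  induction p using ReflTransGen.head_induction_on with
  | refl => exact .refl
  | @head x y e _ ih =>
    by_cases hx : x ∈ Set.range (F.c r)
    · exact rtg_sub sr (cr.2 x hx _ ⟨0, rfl⟩)
    · have hy := inner F h hb hx e.1 e.2.2
      exact .head ⟨e.1, hb, hy⟩ (ih hy)

end flat

end Pool.Agent.Lib.MP_c1f5fe_lc.NearA
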