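import Pool.Agent.Lib.MP_c1f5fe_lc.SpecC
import Pool.Agent.Lib.MP_c1f5fe_lc.NearA

/-! Rectangles in a cylinder and the distance to zero. -/

namespace Pool.Agent.Lib.MP_c1f5fe_lc

open Function Relation NearA

namespace Kit6

theorem rect {V : Type} (G : SimpleGraph V) (n m : ℕ) (rad : V → ℕ) (ang : V → ZMod m)
    (i i' l : ℕ) (j : ZMod m) (h : Cyl G n m rad ang) (h1 : 1 ≤ i) (h2 : i ≤ i') (h3 : i' ≤ n) :
    Cn G {v | i ≤ rad v ∧ rad v ≤ i' ∧ ∃ t : ℕ, t ≤ l ∧ ang v = j + t} := by
  have e : {v | i ≤ rad v ∧ rad v ≤ i' ∧ ∃ t : ℕ, t ≤ l ∧ ang v = j + t} =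
      run (fun t => run (fun r => {v | rad v = r ∧ ang v = j + (t : ℕ)}) i i') 0 l := by
    ext v
    constructor
    · rintro ⟨a, b, t, c, d⟩
      exact ⟨t, Nat.zero_le _, c, rad v, a, b, rfl, d⟩
    · rintro ⟨t, -, c, r, a, b, rfl, d⟩
      exact ⟨a, b, t, c, d⟩
  rw [e]
  refine cn_run (Nat.zero_le _) (fun t _ _ => cn_run h2
    (fun r a b => h.cell r _ (by omega) (by omega)) fun r a b => ?_) fun t _ _ => ?_
  · obtain ⟨u, v, e, a1, a2, a3, a4⟩ := h.ver r (j + (t : ℕ)) (by omega) (by omega)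
    exact ⟨u, ⟨a1, a2⟩, v, ⟨a3, a4⟩, e⟩
  · obtain ⟨u, v, e, a1, a2, a3, a4⟩ := h.hor i (j + (t : ℕ)) h1 (by omega)
    exact ⟨u, ⟨i, le_rfl, h2, a1, a2⟩, v, ⟨i, le_rfl, h2, a3, by rw [a4]; push_cast; ring⟩, e⟩

theorem cn_map {V W : Type} {G : SimpleGraph V} {H : SimpleGraph W} {A : Set V} (f : V → W)
    (hf : ∀ x ∈ A, ∀ y ∈ A, G.Adj x y → H.Adj (f x) (f y)) (h : Cn G A) : Cn H (f '' A) := by
  refine ⟨h.1.image f, ?_⟩
  rintro _ ⟨a, ha, rfl⟩ _ ⟨b, hb, rfl⟩
  have := h.2 a ha b hb
  clear hb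
  induction this with
  | refl => exact .refl
  | tail _ e ih => exact ih.tail ⟨hf _ e.2.1 _ e.2.2 e.1, ⟨_, e.2.1, rfl⟩, ⟨_, e.2.2, rfl⟩⟩

theorem ad_min {m : ℕ} (hm : 0 < m) {x : ZMod m} {z : ℤ} (h : (z : ZMod m) = x) :
    ad x ≤ z.natAbs := by
  have : NeZero m := ⟨hm.ne'⟩
  exact ZMod.natAbs_min_of_le_div_two m _ _ (by rw [ZMod.coe_valMinAbs, h])
    (ZMod.natAbs_valMinAbs_le x)

theorem ad_ex {m : ℕ} (hm : 0 < m) (x : ZMod m) :
    ∃ z : ℤ, (z : ZMod m) = x ∧ z.natAbs = ad x ∧ z.natAbs ≤ m / 2 := by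
  have : NeZero m := ⟨hm.ne'⟩
  exact ⟨x.valMinAbs, ZMod.coe_valMinAbs x, rfl, ZMod.natAbs_valMinAbs_le x⟩

theorem cast_toNat {m : ℕ} {z : ℤ} (h : 0 ≤ z) : ((z.toNat : ℕ) : ZMod m) = (z : ZMod m) := by
  rw [← Int.cast_natCast, Int.toNat_of_nonneg h]

end Kit6

open Kit6

theorem k6 : K6 where
  union G A B hA hB h := by
    rcases h with ⟨u, hu, hv⟩ | h
    · exact cn_union' hA hB hu hv
    · exact cn_union hA hB h
  rect := Kit6.rect
  rows G n m rad ang i i' hm h h1 h2 h3 := by
    have := Kit6.rect G n m rad ang i i' m 0 h h1 h2 h3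
    convert this using 3 with v
    refine and_congr_right fun _ => (and_iff_left ?_).symm
    obtain ⟨s, hs, e⟩ := exists_off hm 0 (ang v)
    exact ⟨s, hs.le, e⟩
  grid G n m rad ang i i' h h1 h2 :=
    { cn := fun r j a b => ⟨h.cell r j (by omega) (by omega), fun v hv => by
        obtain ⟨rfl, -⟩ := hv
        exact ⟨a, b⟩⟩
      disj := fun r j r' j' v _ _ _ _ a b => ⟨a.1.symm.trans b.1, a.2.symm.trans b.2⟩
      hor := fun r j a b => by
        obtain ⟨u, v, e, a1, a2, a3, a4⟩ := h.hor r j (by omega) (by omega)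
        exact ⟨u, ⟨a1, a2⟩, v, ⟨a3, a4⟩, e⟩
      ver := fun r j a b => by
        obtain ⟨u, v, e, a1, a2, a3, a4⟩ := h.ver r j (by omega) (by omega)
        exact ⟨u, ⟨a1, a2⟩, v, ⟨a3, a4⟩, e⟩ }
  glue P C n m rad ang h hatt :=
    { lip := by
        rintro (u | u) (v | v) e
        · exact h.lip u v e
        · obtain ⟨s, a, -⟩ := e
          have := hatt u s a
          simp only [Sum.elim_inl, Sum.elim_inr]
          omega
        · obtain ⟨s, a, -⟩ := e
          have := hatt v s a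
          simp only [Sum.elim_inl, Sum.elim_inr]
          omega
        · simp
      lipa := by
        rintro (u | u) (v | v) e a b c d
        · exact h.lipa u v e a b c d
        · simp at d
        · simp at b
        · simp at b
      cell := fun i j a b => by
        have := cn_map (H := glue P C) Sum.inl (fun x _ y _ e => e) (h.cell i j a b)
        convert this using 1
        ext (v | v)
        · simp
        · simp only [Set.mem_ofPred_eq, Sum.elim_inr, Set.mem_image, reduceCtorEq, and_false,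
            exists_false, iff_false, not_and]
          intro h
          omega
      hor := fun i j a b => by
        obtain ⟨u, v, e, h⟩ := h.hor i j a b
        exact ⟨.inl u, .inl v, e, h⟩
      ver := fun i j a b => by
        obtain ⟨u, v, e, h⟩ := h.ver i j a b
        exact ⟨.inl u, .inl v, e, h⟩ }
  ad_lip m x hm := by
    obtain ⟨z, a, b, -⟩ := ad_ex hm x
    obtain ⟨z', a', b', -⟩ := ad_ex hm (x + 1)
    have h1 := ad_min hm (x := x + 1) (z := z + 1) (by push_cast; rw [a])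
    have h2 := ad_min hm (x := x) (z := z' - 1) (by push_cast; rw [a']; ring)
    omega
  ad_le m b x hb := by
    have hm : 0 < m := by omega
    constructor
    · intro h
      obtain ⟨z, a, c, -⟩ := ad_ex hm x
      refine ⟨(z + b).toNat, by omega, ?_⟩
      rw [cast_toNat (by omega)]
      push_cast
      rw [a]
      ring
    · rintro ⟨t, ht, e⟩
      have := ad_min hm (x := x) (z := t - b) (by push_cast; rw [e]; ring)
      omega
  ad_ge m b x hb b0 := by
    have hm : 0 < m := by omega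
    obtain ⟨z, a, c, d⟩ := ad_ex hm x
    constructor
    · intro h
      rcases le_or_gt 0 z with z0 | z0
      · refine ⟨(z - b).toNat, by omega, ?_⟩
        rw [cast_toNat (by omega)]
        push_cast
        rw [a]
        ring
      · refine ⟨(z + m - b).toNat, by omega, ?_⟩
        rw [cast_toNat (by omega)]
        push_cast
        rw [a, ZMod.natCast_self]
        ring
    · rintro ⟨t, ht, e⟩
      by_contra hc
      have h1 : (m : ℤ) ∣ (b + t : ℤ) - z := by
        rw [← ZMod.intCast_zmod_eq_zero_iff_dvd]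
        push_cast
        rw [a, e]
        ring
      have h2 := Int.le_of_dvd (by omega) h1
      omega

end Pool.Agent.Lib.MP_c1f5fe_lc
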