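import Pool.Agent.Lib.MP_c1f5fe_lc.SpecB

/-! Cancellation of trivial cyclic words; minimal solutions. -/

namespace Pool.Agent.Lib.MP_c1f5fe_lc

open Equiv Function

namespace Match

lemma linv_linv {A : Type} (a : A × Bool) : linv (linv a) = a := by
  simp [linv]

lemma linv_ne {A : Type} (a : A × Bool) : linv a ≠ a := by
  rcases a with ⟨a, _ | _⟩ <;> simp [linv]

lemma mk_linv {A : Type} (a : A × Bool) : FreeGroup.mk [linv a] = (FreeGroup.mk [a])⁻¹ := by
  rw [FreeGroup.inv_mk]; simp [FreeGroup.invRev, linv]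

lemma olet_linv {k : ℕ} (a : Let k) : olet (some (linv a)) = (olet (some a))⁻¹ := mk_linv a

/-- two inverse letters at the same value of the potential -/
lemma pair {X : Type} [Finite X] {k : ℕ} (fs : Perm X) (lt : X → Option (Let k))
    (θ : X → FG k) (h : ∀ x, θ x * olet (lt x) = θ (fs x)) (x₀ : X) (h₀ : lt x₀ ≠ none) :
    ∃ x y a, lt x = some a ∧ lt y = some (linv a) ∧ fs.SameCycle x y ∧ θ y = θ (fs x) := by
  by_contra hn
  obtain ⟨a₀, ha₀⟩ := Option.ne_none_iff_exists'.1 h₀
  have key : ∀ m : ℕ, ∃ (l : List (Let k)) (a : Let k) (x : X),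
      FreeGroup.IsReduced (l ++ [a]) ∧
      θ x₀ * FreeGroup.mk (l ++ [a]) = θ ((fs ^ (m + 1)) x₀) ∧ lt x = some a ∧
      fs.SameCycle x x₀ ∧ θ (fs x) = θ ((fs ^ (m + 1)) x₀) := by
    intro m
    induction m with
    | zero =>
      refine ⟨[], a₀, x₀, FreeGroup.IsReduced.singleton, ?_, ha₀, Perm.SameCycle.refl _ _, by simp⟩
      have := h x₀
      rw [ha₀] at this
      simpa [olet] using this
    | succ m ih =>
      obtain ⟨l, a, x, r, e, la, sc, e'⟩ := ih
      have hz := h ((fs ^ (m + 1)) x₀)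
      have pw : (fs ^ (m + 1 + 1)) x₀ = fs ((fs ^ (m + 1)) x₀) := by
        rw [pow_succ' fs (m + 1), Perm.mul_apply]
      have sz : fs.SameCycle x₀ ((fs ^ (m + 1)) x₀) := ⟨((m + 1 : ℕ) : ℤ), by rw [zpow_natCast]⟩
      rw [pw]
      rcases hb : lt ((fs ^ (m + 1)) x₀) with _ | b
      · rw [hb] at hz
        simp only [olet, Option.elim, mul_one] at hz
        exact ⟨l, a, x, r, e.trans hz, la, sc, e'.trans hz⟩
      · rw [hb] at hz
        have nb : b ≠ linv a := fun q => hn ⟨x, _, a, la, q ▸ hb, sc.trans sz, e'.symm⟩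
        refine ⟨l ++ [a], b, _, ?_, ?_, hb, sz.symm, rfl⟩
        · refine FreeGroup.IsReduced.append_overlap r ?_ (by simp)
          refine FreeGroup.isReduced_cons_cons.2 ⟨fun q => ?_, FreeGroup.IsReduced.singleton⟩
          by_contra q'
          apply nb
          rcases a with ⟨a, s⟩
          rcases b with ⟨b, t⟩
          cases s <;> cases t <;> simp_all [linv]
        · rw [← hz, ← e, ← FreeGroup.mul_mk, mul_assoc]; rfl
  obtain ⟨l, a, x, r, e, -⟩ := key (orderOf fs - 1)
  rw [Nat.sub_add_cancel (orderOf_pos fs), pow_orderOf_eq_one, Perm.one_apply,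
    mul_eq_left] at e
  have := congrArg FreeGroup.toWord e
  rw [FreeGroup.toWord_mk, r.reduce_eq] at this
  simp at this

open Classical in
lemma aux (hk : K1) (X : Type) [Finite X] (k : ℕ) (θ : X → FG k) (n : ℕ) :
    ∀ (fs : Perm X) (lt : X → Option (Let k)), {x | lt x ≠ none}.ncard = n →
    (∀ x, θ x * olet (lt x) = θ (fs x)) →
    ∃ μ : Perm X, (∀ x, μ (μ x) = x) ∧ (∀ x, lt (μ x) = (lt x).map linv) ∧
      (∀ x, lt x = none → μ x = x) ∧ (∀ x, fs.SameCycle x (μ x)) ∧
      2 * ncyc (fs * μ) = 2 * ncyc fs + n ∧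
      ∀ P : X → Prop, (∀ x, P x → P (μ x)) →
        ∃ θ' : X → FG k, ∀ x, θ' x * (if P x then olet (lt x) else 1) = θ' (fs x) := by
  induction n using Nat.strong_induction_on with
  | _ n ih =>
  intro fs lt hn h
  by_cases h0 : ∀ x, lt x = none
  · have : n = 0 := by rw [← hn]; simp [h0]
    refine ⟨1, fun _ => rfl, fun x => by simp [h0], fun _ _ => rfl,
      fun x => Perm.SameCycle.refl _ _, by simp [this], fun P _ => ⟨fun _ => 1, fun x => ?_⟩⟩
    simp [h0, olet]
  obtain ⟨x₀, h₀⟩ := not_forall.1 h0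
  obtain ⟨x, y, a, lx, ly, sc, e⟩ := pair fs lt θ h x₀ h₀
  have ne : x ≠ y := fun q => linv_ne a (by rw [q, ly] at lx; exact Option.some.inj lx)
  obtain ⟨s1, s2, -⟩ := hk.sc_same fs x y ne sc
  set lt' : X → Option (Let k) := fun z => if z = x ∨ z = y then none else lt z with hlt
  have lx' : lt' x = none := by simp [hlt]
  have ly' : lt' y = none := by simp [hlt]
  have lz : ∀ z, z ≠ x → z ≠ y → lt' z = lt z := fun z p q => by simp [hlt, p, q]
  have cd : {z | lt' z ≠ none}.ncard + 2 = n := by
    have : {z | lt z ≠ none} = insert x (insert y {z | lt' z ≠ none}) := by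
      ext z
      by_cases p : z = x
      · simp [p, lx]
      by_cases q : z = y
      · simp [q, ly]
      simp [p, q, lz z p q]
    rw [← hn, this, Set.ncard_insert_of_notMem (by simp [ne, lx']),
      Set.ncard_insert_of_notMem (by simp [ly'])]
  have fx : (fs * swap x y) x = fs y := by simp
  have fy : (fs * swap x y) y = fs x := by simp
  have fz : ∀ z, z ≠ x → z ≠ y → (fs * swap x y) z = fs z := fun z p q => by
    simp [swap_apply_of_ne_of_ne p q]
  obtain ⟨μ, m1, m2, m3, m4, m5, m6⟩ := ih _ (by omega) (fs * swap x y) lt' rfl (by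
    intro z
    by_cases p : z = x
    · rw [p, lx', fx, ← h y, ly, e, ← h x, lx, olet_linv, mul_inv_cancel_right]
      exact mul_one _
    by_cases q : z = y
    · rw [q, ly', fy, e]; simp [olet]
    rw [lz z p q, fz z p q, h])
  have mx := m3 x lx'
  have my := m3 y ly'
  have nx : ∀ z, z ≠ x → μ z ≠ x := fun z p q => p (μ.injective (q.trans mx.symm))
  have ny : ∀ z, z ≠ y → μ z ≠ y := fun z p q => p (μ.injective (q.trans my.symm))
  have ux : (swap x y * μ) x = y := by simp [mx]
  have uy : (swap x y * μ) y = x := by simp [my]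
  have uz : ∀ z, z ≠ x → z ≠ y → (swap x y * μ) z = μ z := fun z p q => by
    simp [swap_apply_of_ne_of_ne (nx z p) (ny z q)]
  refine ⟨swap x y * μ, fun z => ?_, fun z => ?_, fun z hz => ?_, fun z => ?_, ?_,
    fun P hP => ?_⟩
  · by_cases p : z = x
    · rw [p, ux, uy]
    by_cases q : z = y
    · rw [q, uy, ux]
    rw [uz z p q, uz _ (nx z p) (ny z q), m1]
  · by_cases p : z = x
    · rw [p, ux, lx, ly]; rfl
    by_cases q : z = y
    · rw [q, uy, lx, ly, Option.map_some, linv_linv]
    rw [uz z p q, ← lz z p q, ← m2, lz _ (nx z p) (ny z q)]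
  · have p : z ≠ x := fun p => by simp [p, lx] at hz
    have q : z ≠ y := fun p => by simp [p, ly] at hz
    rw [uz z p q, m3 z (by rw [lz z p q, hz])]
  · by_cases p : z = x
    · rw [p, ux]; exact sc
    by_cases q : z = y
    · rw [q, uy]; exact sc.symm
    rw [uz z p q]; exact s2 _ _ (m4 z)
  · rw [← mul_assoc, m5, hk.swap_same fs x y ne sc]; omega
  · have pxy : P x ↔ P y := ⟨fun p => ux ▸ hP x p, fun p => uy ▸ hP y p⟩
    obtain ⟨η, hη⟩ := m6 P (by
      intro z hz
      by_cases p : z = x
      · rw [p, mx]; exact p ▸ hz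
      by_cases q : z = y
      · rw [q, my]; exact q ▸ hz
      rw [← uz z p q]; exact hP z hz)
    have ex : η x = η (fs y) := by simpa [lx', olet] using hη x
    have ey : η y = η (fs x) := by simpa [ly', olet] using hη y
    have s1' : ¬(fs * swap x y).SameCycle y x := fun q => s1 q.symm
    refine ⟨fun z => if (fs * swap x y).SameCycle y z then
      η x * (if P x then olet (lt x) else 1) * (η y)⁻¹ * η z else η z, fun z => ?_⟩
    by_cases p : z = x
    · have : (fs * swap x y).SameCycle y (fs x) := by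
        rw [← fy, Perm.sameCycle_apply_right]
      simp only [p, if_neg s1', if_pos this, ← ey]; group
    by_cases q : z = y
    · have : ¬(fs * swap x y).SameCycle y (fs y) := by
        rw [← fx, Perm.sameCycle_apply_right]; exact s1'
      simp only [q, if_neg this, if_pos (Perm.SameCycle.refl _ y), ← ex, ← pxy, lx, ly, olet_linv]
      split_ifs <;> group
    have := hη z
    rw [lz z p q, fz z p q] at this
    have i : (fs * swap x y).SameCycle y (fs z) ↔ (fs * swap x y).SameCycle y z := by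
      rw [← fz z p q, Perm.sameCycle_apply_right]
    simp only [i, ← this]
    split_ifs <;> group

end Match

theorem mat (hk : K1) : MatchSt := by
  intro X _ k fs lt θ h
  exact Match.aux hk X k θ _ fs lt rfl h

theorem minst : MinSt := by
  intro k V D _ G U S w hw
  classical
  have a : ∀ w w' : D → FG k, S.Valid w → S.Pre w' →
      (∀ d, (w' d).toWord.Sublist (w d).toWord) → S.Valid w' := by
    intro w w' hw p s
    have s' : ∀ d, (labs (w' d)).Sublist (labs (w d)) := fun d => (s d).map _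
    exact ⟨p, fun d r => (hw.edge d r).sublist (s' d), fun d e i r r' q m m' =>
      hw.vert d e i r r' q ((s' d).subset m) ((s' e).subset m')⟩
  refine ⟨fun w' => a w w' hw, ?_⟩
  have := Fintype.ofFinite D
  obtain ⟨w', ⟨v, s⟩, m⟩ := (measure fun u : D → FG k => ∑ d, (u d).norm).wf.has_min
    {u | S.Valid u ∧ ∀ d, (u d).toWord.Sublist (w d).toWord} ⟨w, hw, fun _ => List.Sublist.refl _⟩
  refine ⟨w', v, fun u vu su => ?_, s⟩
  have le : ∀ d, (u d).norm ≤ (w' d).norm := fun d => (su d).length_le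
  have m' : ¬∑ d, (u d).norm < ∑ d, (w' d).norm := m u ⟨vu, fun d => (su d).trans (s d)⟩
  funext d
  apply FreeGroup.toWord_injective
  refine (su d).eq_of_length_le (not_lt.1 fun l => m' ?_)
  exact Finset.sum_lt_sum (fun d _ => le d) ⟨d, Finset.mem_univ _, l⟩

end Pool.Agent.Lib.MP_c1f5fe_lc
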