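import Pool.Agent.Lib.MP_c1f5fe_lc.MonoA

/-! Disjoint paths between two rings can be replaced by monotone columns. -/

namespace Pool.Agent.Lib.MP_c1f5fe_lc

open Equiv Function Relation

namespace Mono

variable {V D : Type}

section walks
variable {N : V → V → Prop}

theorem rmono {N' : V → V → Prop} {x y : V} (h : ReflTransGen N x y)
    (f : ∀ u v, N u v → N' u v) : ReflTransGen N' x y := by
  induction h with
  | refl => exact .refl
  | tail _ s ih => exact ih.tail (f _ _ s)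

theorem rsymm {x y : V} (h : ReflTransGen N x y) (f : ∀ u v, N u v → N v u) :
    ReflTransGen N y x := by
  induction h with
  | refl => exact .refl
  | tail _ s ih => exact ih.head (f _ _ s)

theorem last_exit {A : Set V} {x y : V} (h : ReflTransGen N x y) (hx : x ∈ A) :
    ∃ z ∈ A, ReflTransGen N x z ∧ (z = y ∨ (y ∉ A ∧ ∃ w, N z w ∧ w ∉ A ∧
      ReflTransGen (fun u v => N u v ∧ u ∉ A ∧ v ∉ A) w y)) := by
  induction h with
  | refl => exact ⟨x, hx, .refl, .inl rfl⟩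
  | @tail y y' h s ih =>
    by_cases q : y' ∈ A
    · exact ⟨y', q, h.tail s, .inl rfl⟩
    · obtain ⟨z, z1, z2, rfl | ⟨a, w, b, c, d⟩⟩ := ih
      · exact ⟨z, z1, z2, .inr ⟨q, y', s, q, .refl⟩⟩
      · exact ⟨z, z1, z2, .inr ⟨q, w, b, c, d.tail ⟨s, a, q⟩⟩⟩

theorem first_hit {B : Set V} {x y : V} (h : ReflTransGen N x y) (hy : y ∈ B) :
    ∃ z ∈ B, ReflTransGen (fun u v => N u v ∧ u ∉ B) x z ∧ ReflTransGen N z y := by
  induction h using ReflTransGen.head_induction_on with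
  | refl => exact ⟨y, hy, .refl, .refl⟩
  | @head u v s h ih =>
    by_cases q : u ∈ B
    · exact ⟨u, q, .refl, h.head s⟩
    · obtain ⟨z, a, b, c⟩ := ih
      exact ⟨z, a, b.head ⟨s, q⟩, c⟩

end walks

section cn
variable {G : SimpleGraph V}

theorem cn_root {A : Set V} {r : V} (hr : r ∈ A)
    (h : ∀ v ∈ A, ReflTransGen (fun x y => G.Adj x y ∧ x ∈ A ∧ y ∈ A) v r) : Cn G A :=
  ⟨⟨r, hr⟩, fun a ha b hb => (h a ha).trans
    (rsymm (h b hb) fun _ _ t => ⟨t.1.symm, t.2.2, t.2.1⟩)⟩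

theorem cn_union {A B : Set V} (hA : Cn G A) (hB : Cn G B) {r : V} (h1 : r ∈ A) (h2 : r ∈ B) :
    Cn G (A ∪ B) :=
  cn_root (.inl h1) fun v hv => hv.elim
    (fun t => rmono (hA.2 v t r h1) fun _ _ s => ⟨s.1, .inl s.2.1, .inl s.2.2⟩)
    fun t => rmono (hB.2 v t r h2) fun _ _ s => ⟨s.1, .inr s.2.1, .inr s.2.2⟩

theorem cn_insert (U : Set V) (x : V) :
    Cn G (insert x {v | v ∈ U ∧ ReflTransGen (fun u v => G.Adj u v ∧ u ∈ U) v x}) := by
  have mem : ∀ v, ReflTransGen (fun u v => G.Adj u v ∧ u ∈ U) v x →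
      v ∈ insert x {v | v ∈ U ∧ ReflTransGen (fun u v => G.Adj u v ∧ u ∈ U) v x} := by
    intro v h
    rcases h.cases_head with rfl | ⟨_, a, _⟩
    · exact .inl rfl
    · exact .inr ⟨a.2, h⟩
  refine cn_root (.inl rfl) ?_
  rintro v (rfl | ⟨-, h⟩)
  · exact .refl
  · induction h using ReflTransGen.head_induction_on with
    | refl => exact .refl
    | head s h ih => exact ih.head ⟨s.1, mem _ (h.head s), mem _ h⟩

theorem cn_arc {n : ℕ} {c : ZMod n → V} (h : ∀ i, G.Adj (c i) (c (i + 1))) (s : ZMod n) (l : ℕ) :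
    Cn G {v | ∃ t : ℕ, t ≤ l ∧ v = c (s + t)} := by
  refine cn_root (r := c s) ⟨0, l.zero_le, by simp⟩ ?_
  rintro _ ⟨t, ht, rfl⟩
  induction t with
  | zero => simpa using .refl
  | succ t ih =>
    refine (ih (by omega)).head ⟨?_, ⟨_, ht, rfl⟩, t, by omega, rfl⟩
    push_cast
    rw [← add_assoc]
    exact (h _).symm

end cn

variable [Finite D] {G : SimpleGraph V} {Z : Set V} {R : ℕ} (F : Flat G Z R D)

omit [Finite D] in
theorem bd {r : ℕ} (hr : r ≤ R) : Bd F.L (F.O r) (F.c r) :=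
  ⟨F.rings.phi r hr, F.rings.cyc r hr, F.rings.bd r hr⟩

omit [Finite D] in
theorem nest {a b : ℕ} (hab : a < b) (hb : b ≤ R) {d : D} (h : F.L.vx d ∈ F.Zc a) : F.O b d := by
  induction b, hab using Nat.le_induction with
  | base => exact F.rings.nest a hb d h
  | succ b _ ih => exact F.rings.nest b hb d ⟨d, ih (by omega), rfl⟩

omit [Finite D] in
theorem zmono {a b : ℕ} (hab : a ≤ b) (hb : b ≤ R) {v : V} (h : v ∈ F.Zc a) : v ∈ F.Zc b := by
  rcases hab.eq_or_lt with rfl | l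
  · exact h
  · obtain ⟨d, d1, rfl⟩ := h
    exact ⟨d, nest F l hb ⟨d, d1, rfl⟩, rfl⟩

omit [Finite D] in
theorem off {a b : ℕ} (hab : a < b) (hb : b ≤ R) {v : V} (h : v ∈ Set.range (F.c b)) :
    v ∉ F.Zc a := by
  obtain ⟨i, rfl⟩ := h
  obtain ⟨e, e1, e2⟩ := (bd F hb).out i
  exact fun t => e2 (nest F hab hb (e1 ▸ t))

omit [Finite D] in
theorem rz {a : ℕ} (ha : a ≤ R) {v : V} (h : v ∈ Set.range (F.c a)) : v ∈ F.Zc a := by
  obtain ⟨i, rfl⟩ := h
  exact (bd F ha).mem i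

theorem bump (k4 : K4) {r : ℕ} (hr : r < R) {i k : ZMod (F.len (r + 1))}
    (W : ReflTransGen (St F.L fun d => F.O (r + 1) d ∧ F.O (r + 1) (F.L.α d) ∧
      F.L.vx d ∉ F.Zc r ∧ F.L.vx (F.L.α d) ∉ F.Zc r) (F.c (r + 1) i) (F.c (r + 1) k)) :
    i = k := by
  by_contra ne
  have B := bd F (r := r + 1) hr
  have B0 := bd F hr.le
  obtain ⟨π, h1, h2, h3⟩ := jordan k4 F.eg B W
  have inv : ∀ d, F.L.vx d ∈ F.Zc r → (π d ↔ π (F.L.α d)) := by
    intro d hd
    refine h2 d (iff_of_true (F.rings.nest r hr d hd) ?_) (fun t => t.2.2.1 hd)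
      fun t => t.2.2.2 (by rwa [F.L.αα])
    exact (B.phi _).1 (F.rings.nest r hr _ (by rwa [F.L.vx_σ]))
  have loc : ∀ e e', F.L.vx e = F.L.vx e' → F.L.vx e ∈ F.Zc r → π e → π e' := by
    intro e e' h hz hp
    by_contra hq
    obtain ⟨x, a, b, c⟩ := vchange F.L h1 h hp hq
    exact c ((inv x (a ▸ hz)).1 b)
  obtain ⟨o, -, -, ho, -⟩ := B0.ex 0
  have inn : ∀ d, F.O (r + 1) d → ¬F.O (r + 1) (F.L.α d) → (π d ↔ π o) := by
    intro d a b
    obtain ⟨-, e, q, e1, e2⟩ := F.rings.tight r hr d a b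
    obtain ⟨x, x1, x2⟩ := B0.mem q
    have hz : F.L.vx e ∈ F.Zc r := e2 ▸ B0.mem q
    rw [inv_sc h1 e1, ← B0.const F.cn h1 (fun d a _ => inv d ⟨d, a, rfl⟩) x1 ho]
    exact ⟨loc e x (e2.trans x2.symm) hz, loc x e (x2.trans e2.symm) ⟨x, x1, rfl⟩⟩
  obtain ⟨d, d1, d2, d3, d4⟩ := B.ex i
  obtain ⟨e, e1, e2, e3, e4⟩ := B.ex k
  have a := h3 d i d1 d2 (fun t => d4 t.2.1) fun t => d4 t.1
  have b := h3 e k e1 e2 (fun t => e4 t.2.1) fun t => e4 t.1
  have c := B.flip.const F.cn h1 (fun d a b => h2 d (iff_of_false a b) (fun t => a t.1)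
    fun t => b t.1) d4 e4
  have f : 0 < (k - i).val := Nat.pos_of_ne_zero fun t =>
    ne (sub_eq_zero.1 ((ZMod.val_eq_zero _).1 t)).symm
  rw [sub_self, ZMod.val_zero] at a
  have := inn d d3 d4
  have := inn e e3 e4
  have := lt_irrefl (k - i).val
  tauto

/-- steps inside `S` between the two rings -/
def P (a b : ℕ) (S : Set V) (d : D) : Prop :=
  F.L.vx d ∈ S ∧ F.L.vx (F.L.α d) ∈ S ∧ ¬(F.O a d ∧ F.O a (F.L.α d)) ∧
    (F.O b d ∨ F.O b (F.L.α d))

theorem peak (k4 : K4) {a b : ℕ} (hab : a < b) (hb : b ≤ R) {S : Set V} {i k : ZMod (F.len a)}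
    (hi : F.c a i ∈ S) (hk : F.c a k ∈ S)
    (W : ReflTransGen (St F.L (P F a b S)) (F.c a i) (F.c a k)) :
    ∃ (s : ZMod (F.len a)) (l : ℕ), ((s = i ∧ s + l = k) ∨ (s = k ∧ s + l = i)) ∧
      ∀ S' : Set V, (∀ v, v ∈ S → v ∉ S') → ∀ t : ℕ, t ≤ l → F.c a (s + t) ∈ S' →
        ∀ y ∈ Set.range (F.c b), ¬ReflTransGen (St F.L (P F a b S')) (F.c a (s + t)) y := by
  have A := bd F (hab.le.trans hb)
  have B := bd F hb
  have : NeZero (F.len a) := ⟨by have := A.cyc.three; omega⟩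
  obtain ⟨π, h1, h2, h3⟩ := jordan k4 F.eg A W
  have ab : ∀ d, ¬F.O b d → ¬F.O a d := fun d h t => h (nest F hab hb ⟨d, t, rfl⟩)
  obtain ⟨o, -, -, ho, -⟩ := A.ex 0
  obtain ⟨o', -, ho'⟩ := B.out 0
  have cin : ∀ d, F.O a d → (π d ↔ π o) := fun d hd =>
    A.const F.cn h1 (fun d x y => h2 d (iff_of_true x y) (fun t => t.2.2.1 ⟨x, y⟩)
      fun t => t.2.2.1 ⟨y, by rwa [F.L.αα]⟩) hd ho
  have cout : ∀ d, ¬F.O b d → (π d ↔ π o') := fun d hd =>
    B.flip.const F.cn h1 (fun d x y => h2 d (iff_of_false (ab _ x) (ab _ y))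
      (fun t => t.2.2.2.elim x y) fun t => t.2.2.2.elim y (by rwa [F.L.αα])) hd ho'
  have loc : ∀ e e', F.L.vx e = F.L.vx e' → F.L.vx e ∉ S → ¬F.O a e → ¬F.O a e' → π e → π e' :=
    fun e e' h hs x y => A.flip.loc h1 h (fun d q u v => h2 d (iff_of_false u v)
      (fun t => hs (q ▸ t.1)) fun t => hs (by rw [← q, ← F.L.αα d]; exact t.2.1)) x y
  have good : ∀ S' : Set V, (∀ v, v ∈ S → v ∉ S') → ∀ y ∈ Set.range (F.c b), ∀ w,
      ReflTransGen (St F.L (P F a b S')) w y → w ∈ S' →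
      ∀ e, F.L.vx e = w → ¬F.O a e → (π e ↔ π o') := by
    rintro S' hS _ ⟨q, rfl⟩ w h
    have ext : ∀ w ∈ S', (∃ e, F.L.vx e = w ∧ ¬F.O a e ∧ (π e ↔ π o')) →
        ∀ e, F.L.vx e = w → ¬F.O a e → (π e ↔ π o') := by
      rintro _ hw ⟨x, rfl, x1, x2⟩ e e1 e2
      rw [← x2]
      exact ⟨loc e x e1 (fun t => hS _ t (e1 ▸ hw)) e2 x1,
        loc x e e1.symm (fun t => hS _ t hw) x1 e2⟩
    induction h using ReflTransGen.head_induction_on with
    | refl =>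
      intro hw
      obtain ⟨e, e1, e2⟩ := B.out q
      exact ext _ hw ⟨e, e1, ab e e2, cout e e2⟩
    | head s _ ih =>
      intro hw
      obtain ⟨d, d1, rfl, rfl⟩ := s
      refine ext _ hw ?_
      by_cases u : F.O a d
      · have v : ¬F.O a (F.L.α d) := fun t => d1.2.2.1 ⟨u, t⟩
        exact ⟨F.L.φ (F.L.α d), F.L.vx_σ d, fun t => v ((A.phi _).1 t),
          (h1 _).trans (ih d1.2.1 _ rfl v)⟩
      · exact ⟨d, rfl, u, (h1 d).symm.trans
          (ih d1.2.1 _ (vx_φ F.L d) fun t => u ((A.phi _).1 t))⟩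
  have fin : ∀ S' : Set V, (∀ v, v ∈ S → v ∉ S') → ∀ j, F.c a j ∈ S' →
      ∀ y ∈ Set.range (F.c b), ReflTransGen (St F.L (P F a b S')) (F.c a j) y →
      ((π o ↔ π o') ↔ ¬(j - i).val < (k - i).val) := by
    intro S' hS j hj y hy h
    obtain ⟨d, d1, d2, d3, d4⟩ := A.ex j
    have ns : F.L.vx d ∉ S := fun t => hS _ t (d1 ▸ hj)
    rw [← h3 d j d1 d2 (fun t => ns t.1) fun t => ns (by rw [← F.L.αα d]; exact t.2.1),
      ← cin d d3, ← good S' hS y hy _ h hj _ ((F.L.vx_σ d).trans d1)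
        fun t => d4 ((A.phi _).1 t), h1]
  have e1 : i + ((k - i).val : ZMod (F.len a)) = k := by rw [ZMod.natCast_zmod_val]; ring
  have e2 : k + ((i - k).val : ZMod (F.len a)) = i := by rw [ZMod.natCast_zmod_val]; ring
  by_cases c : π o ↔ π o'
  · refine ⟨i, (k - i).val, .inl ⟨rfl, e1⟩, fun S' hS t ht hm y hy h => ?_⟩
    have lt : t < (k - i).val := ht.lt_of_ne fun q => hS _ hk (by rw [← e1, ← q]; exact hm)
    refine (fin S' hS _ hm y hy h).1 c ?_
    rwa [add_sub_cancel_left, ZMod.val_cast_of_lt (lt.trans (ZMod.val_lt _))]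
  · refine ⟨k, (i - k).val, .inr ⟨rfl, e2⟩, fun S' hS t ht hm y hy h => ?_⟩
    have lt : t < (i - k).val := ht.lt_of_ne fun q => hS _ hi (by rw [← e2, ← q]; exact hm)
    refine c ((fin S' hS _ hm y hy h).2 ?_)
    have l2 := ZMod.val_lt (i - k)
    have v1 : (t : ZMod (F.len a)).val = t := ZMod.val_cast_of_lt (by omega)
    have v2 : (k - i).val = F.len a - (i - k).val := by
      rw [← neg_sub, ZMod.neg_val, if_neg fun q => by rw [q, ZMod.val_zero] at lt; omega]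
    rw [show k + t - i = k - i + t by ring, ZMod.val_add_of_lt (by omega)]
    omega

theorem step (k4 : K4) {a b : ℕ} (hab : a < b) (hb : b ≤ R) {S : Set V} {x y : V}
    (hx : x ∈ Set.range (F.c a)) (hy : y ∈ Set.range (F.c b))
    (W : ReflTransGen (St F.L (P F a b S)) x y) :
    ∃ z ∈ Set.range (F.c a), z ∈ S ∧ ReflTransGen (St F.L (P F a b S)) x z ∧
      ReflTransGen (St F.L (P F a b S)) z y ∧ ∃ x' ∈ Set.range (F.c (a + 1)), x' ∈ S ∧
      ReflTransGen (St F.L (P F (a + 1) b S)) x' y ∧ ∃ T : Set V, Cn G (insert x' T) ∧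
      (∃ w ∈ insert x' T, G.Adj z w) ∧
      ∀ v ∈ T, v ∈ S ∧ v ∈ F.Zc (a + 1) ∧ v ∉ Set.range (F.c (a + 1)) ∧ v ∉ F.Zc a := by
  have aR : a ≤ R := hab.le.trans hb
  have A := bd F aR
  have A' := bd F (r := a + 1) (by omega)
  obtain ⟨z, z1, z2, rfl | ⟨-, w, ⟨d, d1, rfl, rfl⟩, w2, w3⟩⟩ := last_exit W hx
  · exact absurd (rz F aR z1) (off F hab hb hy)
  have yB : y ∈ {v | v ∈ F.Zc (a + 1) → v ∈ Set.range (F.c (a + 1))} := by
    intro t
    rcases (show a + 1 ≤ b from hab).eq_or_lt with rfl | l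
    · exact hy
    · exact absurd t (off F l hb hy)
  obtain ⟨x', x1, x2, x3⟩ := first_hit w3 yB
  have nz : ∀ d, P F a b S d → F.L.vx d ∉ Set.range (F.c a) → F.L.vx d ∉ F.Zc a :=
    fun d p q t => q (A.ring' p.2.2.1 t)
  have nz' : ∀ d, P F a b S d → F.L.vx (F.L.α d) ∉ Set.range (F.c a) →
      F.L.vx (F.L.α d) ∉ F.Zc a :=
    fun d p q t => q (A.ring' (by rw [F.L.αα, and_comm]; exact p.2.2.1) t)
  have x4 : x' ∈ S ∧ x' ∈ F.Zc (a + 1) := by
    rcases x2.cases_tail with rfl | ⟨u, -, ⟨⟨e, e1, rfl, rfl⟩, -⟩, e2⟩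
    · exact ⟨d1.2.1, A'.head (F.rings.nest a (by omega) d (rz F aR z1))⟩
    · refine ⟨e1.2.1, A'.head ?_⟩
      by_contra t
      exact e2 (A'.ring t)
  refine ⟨_, z1, d1.1, z2, (rmono w3 fun _ _ t => t.1).head ⟨d, d1, rfl, rfl⟩, x', x1 x4.2, x4.1,
    ?_, {v | v ∈ {v | v ∈ S ∧ v ∈ F.Zc (a + 1) ∧ v ∉ Set.range (F.c (a + 1)) ∧ v ∉ F.Zc a} ∧ _},
    cn_insert _ x', ⟨_, ?_, (F.L.adj d).1⟩, fun v hv => hv.1⟩
  · let Q : D → Prop := fun d => F.O (a + 1) d ∧ F.O (a + 1) (F.L.α d) ∧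
      F.L.vx d ∉ F.Zc a ∧ F.L.vx (F.L.α d) ∉ F.Zc a
    have eq : ∀ u v, (u ∈ F.Zc (a + 1) → u ∈ Set.range (F.c (a + 1))) →
        (v ∈ F.Zc (a + 1) → v ∈ Set.range (F.c (a + 1))) → ReflTransGen (St F.L Q) u v →
        u = v := by
      intro u v hu hv h
      rcases h.cases_head with rfl | ⟨_, ⟨e, e1, rfl, -⟩, -⟩
      · rfl
      rcases h.cases_tail with q | ⟨_, -, ⟨f, f1, -, rfl⟩⟩
      · exact q.symm
      obtain ⟨i, hi⟩ := hu ⟨e, e1.1, rfl⟩
      obtain ⟨k, hk⟩ := hv ⟨_, f1.2.1, rfl⟩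
      rw [← hi, ← hk] at h ⊢
      rw [bump F k4 (by omega) h]
    have key : ∀ v, ReflTransGen (fun u v => St F.L (P F a b S) u v ∧ u ∉ Set.range (F.c a) ∧
        v ∉ Set.range (F.c a)) x' v → ∃ u, (u ∈ F.Zc (a + 1) → u ∈ Set.range (F.c (a + 1))) ∧
        ReflTransGen (St F.L (P F (a + 1) b S)) x' u ∧ ReflTransGen (St F.L Q) u v := by
      intro v h
      induction h with
      | refl => exact ⟨x', x1, .refl, .refl⟩
      | tail _ s ih =>
        obtain ⟨⟨e, e1, rfl, rfl⟩, e2, e3⟩ := s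
        obtain ⟨u, u1, u2, u3⟩ := ih
        by_cases q : F.O (a + 1) e ∧ F.O (a + 1) (F.L.α e)
        · exact ⟨u, u1, u2, u3.tail ⟨e, ⟨q.1, q.2, nz e e1 e2, nz' e e1 e3⟩, rfl, rfl⟩⟩
        · obtain rfl := eq _ _ u1 (A'.ring' q) u3
          exact ⟨_, A'.ring' (by rw [F.L.αα, and_comm]; exact q),
            u2.tail ⟨e, ⟨e1.1, e1.2.1, q, e1.2.2.2⟩, rfl, rfl⟩, .refl⟩
    obtain ⟨u, u1, u2, u3⟩ := key y x3
    rwa [eq _ _ u1 yB u3] at u2
  · have h := rmono x2 (N' := fun u v => G.Adj u v ∧ u ∈ {v | v ∈ S ∧ v ∈ F.Zc (a + 1) ∧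
        v ∉ Set.range (F.c (a + 1)) ∧ v ∉ F.Zc a}) (by
      rintro _ _ ⟨⟨⟨e, e1, rfl, rfl⟩, e2, -⟩, e3⟩
      have e4 := Classical.not_imp.1 e3
      exact ⟨(F.L.adj e).1, e1.1, e4.1, e4.2, nz e e1 e2⟩)
    rcases h.cases_head with q | ⟨_, s, -⟩
    · exact .inl q
    · exact .inr ⟨s.2, h⟩

theorem main (k4 : K4) {m b : ℕ} (hb : b ≤ R) (S : Fin m → Set V)
    (hS : ∀ j j' v, v ∈ S j → v ∈ S j' → j = j') (n : ℕ) : ∀ a, a + n = b → ∀ x : Fin m → V,
      (∀ j, x j ∈ Set.range (F.c a) ∧ x j ∈ S j ∧ ∃ y ∈ Set.range (F.c b),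
        ReflTransGen (St F.L (P F a b (S j))) (x j) y) →
      ∃ col, Cols F a b m col ∧ ∀ j, x j ∈ col j a := by
  induction n with
  | zero =>
    rintro a rfl x hx
    refine ⟨fun j _ => {x j}, ⟨fun j r _ _ => cn_root (r := x j) rfl ?_, ?_, ?_, ?_, ?_⟩,
      fun j => rfl⟩
    · rintro _ rfl
      exact .refl
    · rintro j j' r r' _ - - - - rfl h
      exact hS j j' _ (hx j).2.1 (h ▸ (hx j').2.1)
    · rintro j r _ h1 h2 rfl
      obtain rfl : r = a := by omega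
      exact ⟨rz F hb (hx j).1, fun t => absurd t (lt_irrefl _), fun _ => (hx j).1⟩
    · intro j r h1 h2
      obtain rfl : r = a := by omega
      obtain ⟨s, hs⟩ := (hx j).1
      refine ⟨s, 0, fun i => ⟨fun h => ⟨0, le_rfl, ?_⟩, ?_⟩⟩
      · simpa using (F.rings.cyc r hb).inj (h.trans hs.symm)
      · rintro ⟨t, ht, rfl⟩
        obtain rfl : t = 0 := by omega
        simpa using hs
    · intro j r h1 h2
      omega
  | succ n ih =>
    intro a hab x hx
    have lt : a < b := by omega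
    have aR : a ≤ R := by omega
    choose h1 h2 y hy W using hx
    choose z z1 z2 z3 z4 x' x1 x2 x3 T t1 t2 t3 using fun j =>
      step F k4 lt hb (h1 j) (hy j) (W j)
    obtain ⟨col, C, hc⟩ := ih (a + 1) (by omega) x' fun j => ⟨x1 j, x2 j, y j, hy j, x3 j⟩
    choose i hi using h1
    choose k hk using z1
    choose s l e1 e2 using fun j => peak F k4 lt hb (S := S j) (i := i j) (k := k j)
      (hi j ▸ h2 j) (hk j ▸ z2 j) (by rw [hi, hk]; exact z3 j)
    have e3 : ∀ j j' (t : ℕ), t ≤ l j → s j + t = s j' → j = j' := by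
      intro j j' t ht h
      by_contra ne
      refine e2 j (S j') (fun v p q => ne (hS _ _ v p q)) t ht ?_ (y j') (hy j') ?_
      · rw [h]
        rcases e1 j' with ⟨q, -⟩ | ⟨q, -⟩
        · rw [q, hi]; exact h2 j'
        · rw [q, hk]; exact z2 j'
      · rw [h]
        rcases e1 j' with ⟨q, -⟩ | ⟨q, -⟩
        · rw [q, hi]; exact W j'
        · rw [q, hk]; exact z4 j'
    have e4 : ∀ j, x j ∈ {v | ∃ t : ℕ, t ≤ l j ∧ v = F.c a (s j + t)} ∧
        z j ∈ {v | ∃ t : ℕ, t ≤ l j ∧ v = F.c a (s j + t)} := by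
      intro j
      rcases e1 j with ⟨p, q⟩ | ⟨p, q⟩
      · exact ⟨⟨0, Nat.zero_le _, by simp [p, hi]⟩, l j, le_rfl, by rw [q, hk]⟩
      · exact ⟨⟨l j, le_rfl, by rw [q, hi]⟩, 0, Nat.zero_le _, by simp [p, hk]⟩
    let cl : Fin m → ℕ → Set V := fun j r =>
      if r = a then {v | ∃ t : ℕ, t ≤ l j ∧ v = F.c a (s j + t)}
      else col j r ∪ {v | r = a + 1 ∧ v ∈ T j}
    have c0 : ∀ j, cl j a = {v | ∃ t : ℕ, t ≤ l j ∧ v = F.c a (s j + t)} := fun j => if_pos rfl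
    have c1 : ∀ j r, a < r → cl j r = col j r ∪ {v | r = a + 1 ∧ v ∈ T j} :=
      fun j r h => if_neg h.ne'
    have c2 : ∀ j, cl j (a + 1) = col j (a + 1) ∪ insert (x' j) (T j) := by
      intro j
      rw [c1 j _ a.lt_succ_self]
      ext v
      constructor
      · rintro (h | h)
        · exact .inl h
        · exact .inr (.inr h.2)
      · rintro (h | rfl | h)
        · exact .inl h
        · exact .inl (hc j)
        · exact .inr ⟨rfl, h⟩
    have up : ∀ j r v, a < r → r ≤ b → v ∈ cl j r → v ∈ F.Zc r ∧ v ∉ F.Zc (r - 1) := by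
      intro j r v p q h
      rw [c1 j r p] at h
      rcases h with h | ⟨rfl, h⟩
      · obtain ⟨u1, u2, u3⟩ := C.lev j r v p q h
        refine ⟨u1, ?_⟩
        rcases (show a + 1 ≤ r from p).eq_or_lt with rfl | p'
        · exact off F a.lt_succ_self (by omega) (u3 rfl)
        · exact u2 p'
      · exact ⟨(t3 j v h).2.1, (t3 j v h).2.2.2⟩
    have lo : ∀ j v, v ∈ cl j a → v ∈ Set.range (F.c a) := by
      intro j v h
      rw [c0] at h
      obtain ⟨t, -, rfl⟩ := h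
      exact ⟨_, rfl⟩
    have mix : ∀ j j' r v, a < r → r ≤ b → v ∈ col j r → v ∉ T j' := by
      intro j j' r v p q h h'
      obtain ⟨-, u2, u3⟩ := C.lev j r v p q h
      rcases (show a + 1 ≤ r from p).eq_or_lt with rfl | p'
      · exact (t3 j' v h').2.2.1 (u3 rfl)
      · exact u2 p' (zmono F (by omega) (by omega) (t3 j' v h').2.1)
    refine ⟨cl, ⟨fun j r p q => ?_, fun j j' r r' v p q p' q' h h' => ?_,
      fun j r v p q h => ?_, fun j r p q => ?_, fun j r p q => ?_⟩, fun j => c0 j ▸ (e4 j).1⟩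
    · rcases p.eq_or_lt with rfl | p
      · rw [c0]
        exact cn_arc (fun i => ((F.rings.cyc a aR).adj i).1) _ _
      rcases (show a + 1 ≤ r from p).eq_or_lt with rfl | p'
      · rw [c2]
        exact cn_union (C.cn j _ le_rfl q) (t1 j) (hc j) (.inl rfl)
      · have : cl j r = col j r := by
          rw [c1 j r p]
          exact Set.union_eq_left.2 fun v h => absurd h.1 (by omega)
        rw [this]
        exact C.cn j r p q
    · rcases p.eq_or_lt with rfl | p <;> rcases p'.eq_or_lt with rfl | p'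
      · rw [c0] at h h'
        obtain ⟨t, ht, rfl⟩ := h
        obtain ⟨t', ht', h⟩ := h'
        have h := (F.rings.cyc a aR).inj h
        rcases le_total t t' with u | u
        · obtain ⟨w, rfl⟩ := Nat.exists_eq_add_of_le u
          refine (e3 j' j w (by omega) ?_).symm
          push_cast at h
          linear_combination -h
        · obtain ⟨w, rfl⟩ := Nat.exists_eq_add_of_le u
          refine e3 j j' w (by omega) ?_
          push_cast at h
          linear_combination h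
      · exact absurd (zmono F (by omega) (by omega) (rz F aR (lo j v h))) (up j' r' v p' q' h').2
      · exact absurd (zmono F (by omega) (by omega) (rz F aR (lo j' v h'))) (up j r v p q h).2
      · rw [c1 _ _ p] at h
        rw [c1 _ _ p'] at h'
        rcases h with h | h <;> rcases h' with h' | h'
        · exact C.disj j j' r r' v p q p' q' h h'
        · exact absurd h'.2 (mix j j' r v p q h)
        · exact absurd h.2 (mix j' j r' v p' q' h')
        · exact hS j j' v (t3 j v h.2).1 (t3 j' v h'.2).1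
    · rcases p.eq_or_lt with rfl | p
      · exact ⟨rz F aR (lo j v h), fun t => absurd t (lt_irrefl _), fun _ => lo j v h⟩
      · exact ⟨(up j r v p q h).1, fun _ => (up j r v p q h).2, fun t => absurd t p.ne'⟩
    · rcases p.eq_or_lt with rfl | p
      · refine ⟨s j, l j, fun i => ?_⟩
        rw [c0]
        exact exists_congr fun t => and_congr_right fun _ => (F.rings.cyc a aR).inj.eq_iff
      · obtain ⟨s', l', h⟩ := C.arc j r p q
        refine ⟨s', l', fun i => ?_⟩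
        rw [c1 j r p, ← h]
        refine or_iff_left ?_
        rintro ⟨rfl, u⟩
        exact (t3 j _ u).2.2.1 ⟨i, rfl⟩
    · rcases p.eq_or_lt with rfl | p
      · obtain ⟨w, w1, w2⟩ := t2 j
        exact ⟨z j, c0 j ▸ (e4 j).2, w, c2 j ▸ .inr w1, w2⟩
      · obtain ⟨u, u1, v, v1, h⟩ := C.ver j r p q
        exact ⟨u, c1 j r p ▸ .inl u1, v, c1 j (r + 1) (by omega) ▸ .inl v1, h⟩

theorem start {a b : ℕ} (hb : b ≤ R) {l : List V} (h1 : l.IsChain G.Adj)
    (h2 : ∃ i, l.head? = some (F.c a i)) (h3 : ∃ i, l.getLast? = some (F.c b i))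
    (h4 : ∀ v ∈ l, v ∈ F.Zc b ∧ (v ∈ F.Zc a → v ∈ Set.range (F.c a))) :
    ∃ x, x ∈ Set.range (F.c a) ∧ x ∈ {v | v ∈ l} ∧ ∃ y ∈ Set.range (F.c b),
      ReflTransGen (St F.L (P F a b {v | v ∈ l})) x y := by
  obtain ⟨i, hi⟩ := h2
  obtain ⟨k, hk⟩ := h3
  have ne : l ≠ [] := by rintro rfl; simp at hi
  have W : ReflTransGen (fun u v => G.Adj u v ∧ u ∈ l ∧ v ∈ l) (F.c a i) (F.c b k) := by
    have := List.relationReflTransGen_of_exists_isChain l (List.IsChain.iff_mem.1 h1) ne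
    rw [List.head?_eq_some_head ne, Option.some_inj] at hi
    rw [List.getLast?_eq_some_getLast ne, Option.some_inj] at hk
    rw [hi, hk] at this
    exact rmono this fun _ _ t => ⟨t.2.2, t.1, t.2.1⟩
  have zz : ∀ v ∈ l, v ∈ Z := fun v hv => F.cover ▸ zmono F hb le_rfl (h4 v hv).1
  obtain ⟨y, y1, y2, -⟩ := first_hit (B := Set.range (F.c b)) W ⟨k, rfl⟩
  have stp : ∀ u v, (G.Adj u v ∧ u ∈ l ∧ v ∈ l) ∧ u ∉ Set.range (F.c b) →
      v ∉ Set.range (F.c a) → St F.L (P F a b {v | v ∈ l}) u v := by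
    rintro u v ⟨⟨p, q, r⟩, s⟩ t
    obtain ⟨d, ⟨rfl, rfl⟩, -⟩ := F.L.ex u v ⟨p, zz u q, zz v r⟩
    refine ⟨d, ⟨q, r, fun w => t ((h4 _ r).2 ⟨_, w.2, rfl⟩), .inl ?_⟩, rfl, rfl⟩
    by_contra w
    exact s ((bd F hb).ring w (h4 _ q).1)
  obtain ⟨z, z1, z2, rfl | ⟨-, w, w1, w2, w3⟩⟩ := last_exit (A := Set.range (F.c a)) y2 ⟨i, rfl⟩
  · refine ⟨z, z1, ?_, z, y1, .refl⟩
    rcases z2.cases_tail with rfl | ⟨_, -, t⟩
    · exact List.mem_of_mem_head? hi
    · exact t.1.2.2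
  · exact ⟨z, z1, w1.1.2.1, y, y1, (rmono w3 fun u v t => stp u v t.1 t.2.2).head (stp _ _ w1 w2)⟩

end Mono

theorem mono : K1 → K2 → K4 → MonoSt := by
  intro _ _ k4 a b m R V D _ _ G Z F P hab hb h
  choose x hx using fun j =>
    Mono.start F hb (h.chain j) (h.head j) (h.last j) (h.mem j)
  obtain ⟨col, C, -⟩ := Mono.main F k4 hb (fun j => {v | v ∈ P j}) h.disj (b - a) a (by omega) x hx
  exact ⟨col, C⟩

end Pool.Agent.Lib.MP_c1f5fe_lc
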