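import Pool.Agent.Lib.MP_c1f5fe_lc.SpecB
import Pool.Agent.Lib.MP_c1f5fe_lc.Tb

/-! Short reconnection of a matched word, from short subsolutions of quadratic systems. -/

namespace Pool.Agent.Lib.MP_c1f5fe_lc

namespace N1

open FreeGroup (invRev)
open Classical

variable {A : Type}

/-- the letters at the positions of `K` in `[a, a + L)` -/
noncomputable def sg (W : ℕ → A × Bool) (K : ℕ → Prop) (a L : ℕ) : List (A × Bool) :=
  ((List.range' a L).filter fun i => decide (K i)).map W

variable {W : ℕ → A × Bool} {K K' : ℕ → Prop}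

theorem sg_add (a L L' : ℕ) : sg W K a (L + L') = sg W K a L ++ sg W K (a + L) L' := by
  unfold sg
  rw [← List.range'_append_1, List.filter_append, List.map_append]

theorem sg_one (a : ℕ) : sg W K a 1 = if K a then [W a] else [] := by
  unfold sg
  by_cases h : K a <;> simp [List.range', h]

theorem sg_congr {a L : ℕ} (h : ∀ i, a ≤ i → i < a + L → (K i ↔ K' i)) :
    sg W K a L = sg W K' a L := by
  unfold sg
  congr 1
  apply List.filter_congr
  intro i hi
  rw [List.mem_range'_1] at hi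
  simp [h i hi.1 hi.2]

theorem sg_nil {a L : ℕ} (h : ∀ i, a ≤ i → i < a + L → ¬K i) : sg W K a L = [] := by
  unfold sg
  rw [List.map_eq_nil_iff, List.filter_eq_nil_iff]
  intro i hi
  rw [List.mem_range'_1] at hi
  simp [h i hi.1 hi.2]

theorem linv_linv (x : A × Bool) : linv (linv x) = x := by simp [linv]

theorem sg_rev (a L : ℕ) : ∀ a' : ℕ, (∀ i j, a' ≤ i → a ≤ j → i + j + 1 = a' + a + L →
    W i = linv (W j) ∧ (K i ↔ K' j)) → sg W K a' L = invRev (sg W K' a L) := by
  induction L with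
  | zero => intro a' _; rfl
  | succ L ih =>
    intro a' h
    have h0 := h a' (a + L) le_rfl (by omega) (by omega)
    rw [sg_add a L 1, FreeGroup.invRev_append, ← ih (a' + 1) fun i j p q r =>
      h i j (by omega) q (by omega), Nat.add_comm L 1, sg_add, sg_one, sg_one, h0.1]
    by_cases k : K a'
    · rw [if_pos k, if_pos (h0.2.1 k)]; rfl
    · rw [if_neg k, if_neg fun c => k (h0.2.2 c)]; rfl

theorem sg_sub (L : ℕ) : ∀ (a : ℕ) (u : List (A × Bool)), u.Sublist (sg W (fun _ => True) a L) →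
    ∃ P, sg W P a L = u := by
  induction L with
  | zero =>
    intro a u h
    exact ⟨fun _ => True, (List.sublist_nil.1 h).symm⟩
  | succ L ih =>
    intro a u h
    rw [Nat.add_comm L 1, sg_add, sg_one, if_pos trivial] at h
    rw [Nat.add_comm L 1]
    rw [List.singleton_append] at h
    rcases List.sublist_cons_iff.1 h with h' | ⟨r, rfl, h'⟩
    · obtain ⟨P, hP⟩ := ih _ _ h'
      refine ⟨fun i => i ≠ a ∧ P i, ?_⟩
      rw [sg_add, sg_one, if_neg (by simp), ← hP, List.nil_append]
      exact sg_congr fun i p _ => ⟨fun c => c.2, fun c => ⟨by omega, c⟩⟩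
    · obtain ⟨P, hP⟩ := ih _ _ h'
      refine ⟨fun i => i = a ∨ P i, ?_⟩
      rw [sg_add, sg_one, if_pos (Or.inl rfl), ← hP, List.singleton_append]
      congr 1
      exact sg_congr fun i p _ => ⟨fun c => c.resolve_left (by omega), Or.inr⟩

theorem sel_eq (U : List (A × Bool)) (P : ℕ → Prop) (h : ∀ i (hi : i < U.length), W i = U[i]) :
    sel U P = sg W P 0 U.length := by
  have e : U.zipIdx = (List.range' 0 U.length).map fun i => (W i, i) := by
    apply List.ext_getElem
    · simp
    · intro i h1 h2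
      simp only [List.length_zipIdx] at h1
      simp [h i h1]
  unfold sel sg
  rw [e, List.filter_map, List.map_map]
  rfl

theorem evw_append {X : Type} (v : X → List (A × Bool)) (l r : List (X × Bool)) :
    evw v (l ++ r) = evw v l ++ evw v r := List.flatMap_append

theorem evw_inv {X : Type} (v : X → List (A × Bool)) (l : List (X × Bool)) :
    evw v (invRev l) = invRev (evw v l) := by
  induction l with
  | nil => rfl
  | cons p l ih =>
    rw [FreeGroup.invRev_cons, evw_append, ih, show p :: l = [p] ++ l from rfl, evw_append,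
      FreeGroup.invRev_append]
    congr 1
    obtain ⟨x, b⟩ := p
    cases b <;> simp [evw, invRev, Function.comp_def]

theorem evw_len {X : Type} (v : X → List (A × Bool)) (T : ℕ) (h : ∀ x, (v x).length ≤ T)
    (l : List (X × Bool)) : (evw v l).length ≤ l.length * T := by
  induction l with
  | nil => simp [evw]
  | cons p l ih =>
    rw [← List.singleton_append, evw_append, List.length_append, List.length_append,
      Nat.add_mul]
    refine Nat.add_le_add ?_ ih
    have := h p.1
    obtain ⟨x, b⟩ := p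
    cases b <;> simpa [evw] using this

/-- a matched word on the line `[0, N)` with breaks `B` -/
structure Ln (W : ℕ → A × Bool) (N : ℕ) (ν : ℕ → ℕ) (Cs B : ℕ → Prop) : Prop where
  b0 : B 0
  bN : B N
  hν : ∀ i < N, ¬Cs i → ν i < N ∧ ¬Cs (ν i) ∧ ν (ν i) = i ∧ ν i ≠ i ∧ W (ν i) = linv (W i)
  hg : ∀ g, g + 1 < N → ¬B (g + 1) → ¬Cs g ∧ ¬Cs (g + 1) ∧ ν (g + 1) + 1 = ν g

def C (ν : ℕ → ℕ) (B : ℕ → Prop) (g : ℕ) : Prop := B g ∨ B (ν (g - 1)) ∨ ν (g - 1) = g

def Op (ν : ℕ → ℕ) (Cs : ℕ → Prop) (i : ℕ) : Prop := Cs i ∨ i < ν i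

noncomputable def st (ν : ℕ → ℕ) (B : ℕ → Prop) (i : ℕ) : ℕ := Nat.findGreatest (C ν B) i

noncomputable def letter (ν : ℕ → ℕ) (Cs B : ℕ → Prop) (e : ℕ) : ℕ × Bool :=
  if Op ν Cs (e - 1) then (e, true) else (ν (st ν B (e - 1)) + 1, false)

noncomputable def bl (W : ℕ → A × Bool) (ν : ℕ → ℕ) (B K : ℕ → Prop) (e : ℕ) :
    List (A × Bool) := sg W K (st ν B (e - 1)) (e - st ν B (e - 1))

noncomputable def cuts (ν : ℕ → ℕ) (B : ℕ → Prop) (a L : ℕ) : List ℕ :=
  (List.range' (a + 1) L).filter fun g => decide (C ν B g)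

variable {N : ℕ} {ν : ℕ → ℕ} {Cs B : ℕ → Prop}

theorem st_le (i : ℕ) : st ν B i ≤ i := Nat.findGreatest_le i

theorem le_st {g i : ℕ} (h : g ≤ i) (c : C ν B g) : g ≤ st ν B i := Nat.le_findGreatest h c

theorem st_gap {g i : ℕ} (h : st ν B i < g) (h' : g ≤ i) : ¬C ν B g :=
  Nat.findGreatest_is_greatest h h'

theorem Ln.st_cut (h : Ln W N ν Cs B) (i : ℕ) : C ν B (st ν B i) :=
  Nat.findGreatest_spec (Nat.zero_le i) (Or.inl h.b0)

theorem mem_cuts {a L e : ℕ} : e ∈ cuts ν B a L ↔ a < e ∧ e ≤ a + L ∧ C ν B e := by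
  simp only [cuts, List.mem_filter, List.mem_range'_1, decide_eq_true_eq]
  constructor
  · rintro ⟨⟨p, q⟩, r⟩; exact ⟨by omega, by omega, r⟩
  · rintro ⟨p, q, r⟩; exact ⟨⟨by omega, by omega⟩, r⟩

theorem nodup_cuts (a L : ℕ) : (cuts ν B a L).Nodup := (List.nodup_range' 1).filter _

theorem Ln.par (h : Ln W N ν Cs B) {g : ℕ} (l : g + 1 < N) (c : ¬C ν B (g + 1)) :
    ¬C ν B (ν g) := by
  have nb : ¬B (g + 1) := fun b => c (Or.inl b)
  obtain ⟨-, p, q⟩ := h.hg g l nb
  have e : ν (ν g - 1) = g + 1 := by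
    rw [← q, Nat.add_sub_cancel]; exact (h.hν _ l p).2.2.1
  rintro (b | b | b)
  · exact c (Or.inr (Or.inl b))
  · exact nb (e ▸ b)
  · exact c (Or.inr (Or.inr (by rw [Nat.add_sub_cancel, ← b, e])))

theorem Ln.run (h : Ln W N ν Cs B) (s d : ℕ) (l : s + d < N)
    (nb : ∀ g, s < g → g ≤ s + d → ¬B g) : ν (s + d) + d = ν s := by
  induction d with
  | zero => rfl
  | succ d ih =>
    have := ih (by omega) fun g p q => nb g p (by omega)
    have := (h.hg (s + d) (by omega) (nb _ (by omega) (by omega))).2.2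
    rw [← Nat.add_assoc s d 1]
    omega

theorem Ln.runO (h : Ln W N ν Cs B) (s d : ℕ) (l : s + d < N)
    (nc : ∀ g, s < g → g ≤ s + d → ¬C ν B g) : Op ν Cs (s + d) ↔ Op ν Cs s := by
  induction d with
  | zero => rfl
  | succ d ih =>
    rw [← ih (by omega) fun g p q => nc g p (by omega), ← Nat.add_assoc s d 1]
    have c := nc (s + d + 1) (by omega) (by omega)
    obtain ⟨p, q, r⟩ := h.hg (s + d) (by omega) fun b => c (Or.inl b)
    have n1 : ν (s + d) ≠ s + d + 1 := fun e => c (Or.inr (Or.inr e))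
    have n2 := (h.hν (s + d + 1) (by omega) q).2.2.2.1
    unfold Op
    simp only [p, q, false_or]
    omega

theorem Ln.blk (h : Ln W N ν Cs B) {e i : ℕ} (eN : e ≤ N) (p : st ν B (e - 1) ≤ i) (q : i < e) :
    (Op ν Cs i ↔ Op ν Cs (e - 1)) ∧ ν i + (i - st ν B (e - 1)) = ν (st ν B (e - 1)) := by
  have a : ∀ j, st ν B (e - 1) ≤ j → j < e → (Op ν Cs j ↔ Op ν Cs (st ν B (e - 1))) := by
    intro j p q
    have := h.runO (st ν B (e - 1)) (j - st ν B (e - 1)) (by omega)
      fun g u v => st_gap u (by omega)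
    rwa [Nat.add_sub_cancel' p] at this
  refine ⟨(a i p q).trans (a (e - 1) (st_le _) (by omega)).symm, ?_⟩
  have := h.run (st ν B (e - 1)) (i - st ν B (e - 1)) (by omega)
    fun g u v b => st_gap u (by omega) (Or.inl b)
  rwa [Nat.add_sub_cancel' p] at this

theorem Ln.key (h : Ln W N ν Cs B) (hK : ∀ i < N, ¬Cs i → (K (ν i) ↔ K i))
    (v : ℕ → List (A × Bool))
    (hv : ∀ e, 0 < e → e ≤ N → C ν B e → Op ν Cs (e - 1) → v e = bl W ν B K e)
    {e : ℕ} (e0 : 0 < e) (eN : e ≤ N) (c : C ν B e) :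
    evw v [letter ν Cs B e] = bl W ν B K e := by
  unfold letter
  by_cases o : Op ν Cs (e - 1)
  · rw [if_pos o, ← hv e e0 eN c o]; simp [evw]
  rw [if_neg o]
  have sl : st ν B (e - 1) ≤ e - 1 := st_le _
  have sc := h.st_cut (e - 1)
  have hb : ∀ i, st ν B (e - 1) ≤ i → i < e → ¬Cs i ∧
      ν i + (i - st ν B (e - 1)) = ν (st ν B (e - 1)) := fun i p q =>
    ⟨fun k => o ((h.blk eN p q).1.1 (Or.inl k)), (h.blk eN p q).2⟩
  have sg' : ∀ g, st ν B (e - 1) < g → g ≤ e - 1 → ¬C ν B g := fun g => st_gap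
  have so : ¬Op ν Cs (st ν B (e - 1)) := fun k => o ((h.blk eN le_rfl (by omega)).1.1 k)
  unfold bl
  generalize st ν B (e - 1) = s at *
  obtain ⟨s1, s2, s3, s4, -⟩ := h.hν s (by omega) (hb s le_rfl (by omega)).1
  obtain ⟨k1, k2⟩ := hb (e - 1) sl (by omega)
  obtain ⟨t1, t2, t3, t4, -⟩ := h.hν (e - 1) (by omega) k1
  have c' : C ν B (ν s + 1) := by
    by_contra nc
    rcases Nat.lt_or_ge (ν s + 1) N with l | l
    · exact h.par l nc (s3.symm ▸ sc)
    · exact nc (Or.inl ((show ν s + 1 = N by omega) ▸ h.bN))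
  have es : st ν B (ν s) = ν (e - 1) := by
    unfold st
    rw [Nat.findGreatest_eq_iff]
    refine ⟨by omega, fun n0 => ?_, fun x p q => ?_⟩
    · by_contra nc
      obtain ⟨g, hg⟩ := Nat.exists_eq_succ_of_ne_zero n0
      rw [hg] at nc
      have l : g + 1 < N := by omega
      have := (h.hg g l fun b => nc (Or.inl b)).2.2
      have e1 : ν (g + 1) = e - 1 := by rw [← t3, hg]
      exact h.par l nc ((show ν g = e by omega) ▸ c)
    · have := (hb (s + (ν s - x)) (by omega) (by omega)).2
      have e1 : ν (s + (ν s - x)) = x := by omega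
      rw [← e1]
      exact h.par (by omega) (sg' _ (by omega) (by omega))
  have o' : Op ν Cs (ν s + 1 - 1) := by
    rw [Nat.add_sub_cancel]
    refine Or.inr ?_
    have : ¬s < ν s := fun l => so (Or.inr l)
    omega
  have := hv (ν s + 1) (by omega) (by omega) c' o'
  unfold bl at this
  rw [Nat.add_sub_cancel, es, show ν s + 1 - ν (e - 1) = e - s by omega] at this
  rw [sg_rev (K' := K) (ν (e - 1)) (e - s) s, ← this]
  · simp [evw]
  · intro i j p q r
    obtain ⟨u1, u2⟩ := hb i p (by omega)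
    have e1 : ν i = j := by omega
    rw [← e1, (h.hν i (by omega) u1).2.2.2.2, linv_linv]
    exact ⟨rfl, (hK i (by omega) u1).symm⟩

theorem lw (v : ℕ → List (A × Bool))
    (hv : ∀ e, 0 < e → e ≤ N → C ν B e → evw v [letter ν Cs B e] = bl W ν B K e)
    {a : ℕ} (c : C ν B a) (L : ℕ) (l : a + L ≤ N) :
    evw v ((cuts ν B a L).map (letter ν Cs B)) = sg W K a (st ν B (a + L) - a) := by
  induction L with
  | zero =>
    have := st_le (ν := ν) (B := B) (a + 0)
    rw [show st ν B (a + 0) - a = 0 by omega]; rfl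
  | succ L ih =>
    have ih := ih (by omega)
    unfold cuts at ih ⊢
    rw [List.range'_1_concat, List.filter_append, List.map_append, evw_append, ih,
      show a + 1 + L = a + L + 1 by omega, ← Nat.add_assoc a L 1]
    have p1 : a ≤ st ν B (a + L) := le_st (by omega) c
    have p2 : st ν B (a + L) ≤ a + L := st_le _
    by_cases k : C ν B (a + L + 1)
    · have e1 : st ν B (a + L + 1) = a + L + 1 := Nat.findGreatest_eq k
      rw [List.filter_cons_of_pos (by simpa using k), List.filter_nil, List.map_singleton,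
        hv _ (by omega) (by omega) k, e1]
      unfold bl
      rw [Nat.add_sub_cancel, show a + L + 1 - a = (st ν B (a + L) - a) +
        (a + L + 1 - st ν B (a + L)) by omega, sg_add, Nat.add_sub_cancel' p1]
    · have e1 : st ν B (a + L + 1) = st ν B (a + L) := Nat.findGreatest_of_not k
      rw [List.filter_cons_of_neg (by simpa using k), e1]
      simp [evw]

theorem lw' (v : ℕ → List (A × Bool))
    (hv : ∀ e, 0 < e → e ≤ N → C ν B e → evw v [letter ν Cs B e] = bl W ν B K e)
    {a L : ℕ} (c : C ν B a) (c' : C ν B (a + L)) (l : a + L ≤ N) :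
    evw v ((cuts ν B a L).map (letter ν Cs B)) = sg W K a L := by
  have e1 : st ν B (a + L) = a + L := Nat.findGreatest_eq c'
  rw [lw v hv c L l, e1, Nat.add_sub_cancel_left]

theorem blk_unique {e e' j : ℕ} (c : C ν B e) (c' : C ν B e') (p : st ν B (e - 1) ≤ j)
    (q : j < e) (p' : st ν B (e' - 1) ≤ j) (q' : j < e') : e = e' := by
  rcases lt_trichotomy e e' with l | l | l
  · have := le_st (i := e' - 1) (by omega) c
    omega
  · exact l
  · have := le_st (i := e - 1) (by omega) c'
    omega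

theorem Ln.count (h : Ln W N ν Cs B) (l : List ℕ) (nd : l.Nodup)
    (hl : ∀ e ∈ l, 0 < e ∧ e ≤ N ∧ C ν B e) (x : ℕ) :
    (l.map fun e => (letter ν Cs B e).1).count x ≤ 2 := by
  rw [List.count_eq_countP, List.countP_map, List.countP_eq_length_filter]
  have n2 : ((l.filter ((fun y => y == x) ∘ fun e => (letter ν Cs B e).1)).map
      fun e => decide (Op ν Cs (e - 1))).Nodup := by
    refine List.Nodup.map_on (fun e he e' he' q => ?_) (nd.filter _)
    simp only [List.mem_filter, Function.comp, beq_iff_eq] at he he'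
    obtain ⟨a0, aN, ac⟩ := hl e he.1
    obtain ⟨b0, bN, bc⟩ := hl e' he'.1
    have r := he.2.trans he'.2.symm
    rw [decide_eq_decide] at q
    unfold letter at r
    by_cases o : Op ν Cs (e - 1)
    · rwa [if_pos o, if_pos (q.1 o)] at r
    · have o' : ¬Op ν Cs (e' - 1) := fun k => o (q.2 k)
      rw [if_neg o, if_neg o'] at r
      have l1 : st ν B (e - 1) ≤ e - 1 := st_le _
      have l2 : st ν B (e' - 1) ≤ e' - 1 := st_le _
      have u1 := (h.hν _ (by omega)
        fun k => o ((h.blk aN le_rfl (by omega)).1.1 (Or.inl k))).2.2.1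
      have u2 := (h.hν _ (by omega)
        fun k => o' ((h.blk bN le_rfl (by omega)).1.1 (Or.inl k))).2.2.1
      have r' : ν (st ν B (e - 1)) = ν (st ν B (e' - 1)) := by simpa using r
      have e1 : st ν B (e - 1) = st ν B (e' - 1) := by rw [← u1, r', u2]
      exact blk_unique ac bc le_rfl (by omega) e1.ge (by omega)
  have := n2.length_le_card
  rwa [List.length_map, Fintype.card_bool] at this

theorem Ln.card (h : Ln W N ν Cs B) (S : Finset ℕ) (hS : ∀ g ≤ N, B g → g ∈ S) (l : List ℕ)
    (nd : l.Nodup) (hl : ∀ e ∈ l, 0 < e ∧ e ≤ N ∧ C ν B e) : l.length ≤ 3 * S.card := by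
  have sub : l.toFinset ⊆ S ∪ S.image (fun g => ν g + 1) ∪
      S.image fun g => (g + ν g + 1) / 2 := by
    intro e he
    obtain ⟨e0, eN, c⟩ := hl e (List.mem_toFinset.1 he)
    simp only [Finset.mem_union, Finset.mem_image]
    by_cases b : B e
    · exact Or.inl (Or.inl (hS e eN b))
    obtain ⟨g, rfl⟩ := Nat.exists_eq_succ_of_ne_zero e0.ne'
    have l : g + 1 < N := lt_of_le_of_ne eN fun k => b (by rw [show g.succ = N from k]; exact h.bN)
    obtain ⟨p, q, r⟩ := h.hg g l b
    obtain ⟨t1, -, t3, -⟩ := h.hν g (by omega) p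
    rcases c with c | c | c
    · exact absurd c b
    · exact Or.inl (Or.inr ⟨ν g, hS _ t1.le c, by rw [t3]⟩)
    · have l1 : Nat.findGreatest B g ≤ g := Nat.findGreatest_le g
      have := h.run (Nat.findGreatest B g) (g - Nat.findGreatest B g) (by omega)
        fun x u v => Nat.findGreatest_is_greatest u (by omega)
      rw [Nat.add_sub_cancel' l1] at this
      refine Or.inr ⟨Nat.findGreatest B g, hS _ (by omega)
        (Nat.findGreatest_spec (Nat.zero_le g) h.b0), ?_⟩
      have c : ν g = g + 1 := c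
      show _ = g + 1
      omega
  have := Finset.card_le_card sub
  rw [List.toFinset_card_of_nodup nd] at this
  have a1 := Finset.card_union_le (S ∪ S.image fun g => ν g + 1)
    (S.image fun g => (g + ν g + 1) / 2)
  have a2 := Finset.card_union_le S (S.image fun g => ν g + 1)
  have a3 := Finset.card_image_le (s := S) (f := fun g => ν g + 1)
  have a4 := Finset.card_image_le (s := S) (f := fun g => (g + ν g + 1) / 2)
  omega

/-- the breaks on the doubled line -/
def Bk (Brk : ℕ → Prop) (n g : ℕ) : Prop := (g ≤ n ∧ Brk g) ∨ (n ≤ g ∧ Brk (2 * n - g))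

noncomputable def pb (Brk : ℕ → Prop) (s : ℕ) : ℕ := Nat.findGreatest Brk (s - 1)

theorem line {T : ℕ → ℕ} (Tm : Monotone T)
    (hT : ∀ (E : List (List (ℕ × Bool) × List (ℕ × Bool))) (Fz : ℕ → Prop)
      (val : ℕ → List (A × Bool)),
      (∀ x, ((E.flatMap fun e => e.1 ++ e.2).map Prod.fst).count x ≤ 2) →
      (∀ x, Fz x → (val x).length = 1) → (∀ e ∈ E, evw val e.1 = evw val e.2) →
      ∃ val' : ℕ → List (A × Bool), (∀ x, (val' x).Sublist (val x)) ∧
        (∀ x, Fz x → val' x = val x) ∧ (∀ e ∈ E, evw val' e.1 = evw val' e.2) ∧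
        ∀ x, (val' x).length ≤ T ((E.flatMap fun e => e.1 ++ e.2).length + E.length))
    {n : ℕ} {Brk : ℕ → Prop} (h : Ln W (2 * n) ν Cs (Bk Brk n)) (S : Finset ℕ)
    (hS : ∀ s, Brk s → s ∈ S) (b0 : Brk 0) (bn : Brk n)
    (sym : ∀ i j, i + j + 1 = 2 * n → W i = linv (W j)) :
    ∃ K : ℕ → Prop, (∀ i < 2 * n, Cs i → K i) ∧ (∀ i < 2 * n, ¬Cs i → (K (ν i) ↔ K i)) ∧
      (∀ s ≤ n, Brk s → sg W K 0 s = invRev (sg W K (2 * n - s) s)) ∧
      (sg W K 0 n).length ≤ 6 * S.card * T (7 * S.card) := by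
  set B := Bk Brk n with hB
  have pl : ∀ s, pb Brk s ≤ s - 1 := fun s => Nat.findGreatest_le _
  have pk : ∀ s, Brk (pb Brk s) := fun s => Nat.findGreatest_spec (Nat.zero_le _) b0
  have ct : ∀ s ≤ n, Brk s → C ν B s := fun s l b => Or.inl (Or.inl ⟨l, b⟩)
  have cb : ∀ s ≤ n, Brk s → C ν B (2 * n - s) := fun s l b =>
    Or.inl (Or.inr ⟨by omega, by rwa [show 2 * n - (2 * n - s) = s by omega]⟩)
  set BL := (List.range' 1 n).filter fun s => decide (Brk s) with hBL
  have mB : ∀ s, s ∈ BL ↔ 0 < s ∧ s ≤ n ∧ Brk s := by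
    intro s
    simp only [hBL, List.mem_filter, List.mem_range'_1, decide_eq_true_eq]
    constructor
    · rintro ⟨⟨p, q⟩, r⟩; exact ⟨by omega, by omega, r⟩
    · rintro ⟨p, q, r⟩; exact ⟨⟨by omega, by omega⟩, r⟩
  have nB : BL.Nodup := (List.nodup_range' 1).filter _
  set E := BL.map fun s => ((cuts ν B (pb Brk s) (s - pb Brk s)).map (letter ν Cs B),
    invRev ((cuts ν B (2 * n - s) (s - pb Brk s)).map (letter ν Cs B))) with hE
  set CL := BL.flatMap fun s => cuts ν B (pb Brk s) (s - pb Brk s) ++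
    (cuts ν B (2 * n - s) (s - pb Brk s)).reverse with hCL
  have eL : (E.flatMap fun e => e.1 ++ e.2).map Prod.fst =
      CL.map fun e => (letter ν Cs B e).1 := by
    rw [hE, hCL, List.flatMap_map, List.map_flatMap, List.map_flatMap]
    congr 1
    funext s
    simp [invRev, Function.comp_def]
  have mC : ∀ e ∈ CL, 0 < e ∧ e ≤ 2 * n ∧ C ν B e := by
    intro e he
    obtain ⟨s, hs, he⟩ := List.mem_flatMap.1 he
    obtain ⟨s0, sn, -⟩ := (mB s).1 hs
    have := pl s
    rw [List.mem_append, List.mem_reverse, mem_cuts, mem_cuts] at he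
    rcases he with he | he
    · exact ⟨by omega, by omega, he.2.2⟩
    · exact ⟨by omega, by omega, he.2.2⟩
  have nC : CL.Nodup := by
    rw [hCL, List.nodup_flatMap]
    refine ⟨fun s hs => ?_, nB.pairwise_of_forall_ne fun s hs s' hs' ne => ?_⟩
    · obtain ⟨s0, sn, -⟩ := (mB s).1 hs
      have := pl s
      refine List.Nodup.append (nodup_cuts _ _) (List.nodup_reverse.2 (nodup_cuts _ _)) ?_
      intro e p q
      rw [List.mem_reverse] at q
      rw [mem_cuts] at p q
      omega
    · obtain ⟨s0, sn, sb⟩ := (mB s).1 hs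
      obtain ⟨s0', sn', sb'⟩ := (mB s').1 hs'
      have := pl s
      have := pl s'
      have a1 : s < s' → s ≤ pb Brk s' := fun l => Nat.le_findGreatest (by omega) sb
      have a2 : s' < s → s' ≤ pb Brk s := fun l => Nat.le_findGreatest (by omega) sb'
      intro e p q
      rw [List.mem_append, List.mem_reverse, mem_cuts, mem_cuts] at p q
      omega
  have S2 : ∀ g ≤ 2 * n, B g → g ∈ S ∪ S.image fun t => 2 * n - t := by
    intro g l b
    rw [Finset.mem_union, Finset.mem_image]
    rcases b with b | b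
    · exact Or.inl (hS _ b.2)
    · exact Or.inr ⟨_, hS _ b.2, by omega⟩
  have c2 : (S ∪ S.image fun t => 2 * n - t).card ≤ 2 * S.card := by
    have a2 := Finset.card_union_le S (S.image fun t => 2 * n - t)
    have a3 := Finset.card_image_le (s := S) (f := fun t => 2 * n - t)
    omega
  have l1 : CL.length ≤ 6 * S.card := by
    have := h.card _ S2 CL nC mC
    omega
  have l2 : E.length ≤ S.card := by
    rw [hE, List.length_map, ← List.toFinset_card_of_nodup nB]
    exact Finset.card_le_card fun s hs => hS s ((mB s).1 (List.mem_toFinset.1 hs)).2.2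
  have l3 : (E.flatMap fun e => e.1 ++ e.2).length = CL.length := by
    simpa only [List.length_map] using congrArg List.length eL
  have eq : ∀ (K : ℕ → Prop) (v : ℕ → List (A × Bool)),
      (∀ e, 0 < e → e ≤ 2 * n → C ν B e → evw v [letter ν Cs B e] = bl W ν B K e) →
      ((∀ e ∈ E, evw v e.1 = evw v e.2) ↔ ∀ s ∈ BL, sg W K (pb Brk s) (s - pb Brk s) =
        invRev (sg W K (2 * n - s) (s - pb Brk s))) := by
    intro K v hv
    rw [hE, List.forall_mem_map]
    refine forall₂_congr fun s hs => ?_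
    obtain ⟨s0, sn, sb⟩ := (mB s).1 hs
    have := pl s
    rw [evw_inv, lw' v hv (ct _ (by omega) (pk s))
      (by rw [show pb Brk s + (s - pb Brk s) = s by omega]; exact ct _ sn sb) (by omega),
      lw' v hv (cb _ sn sb) (by
        rw [show 2 * n - s + (s - pb Brk s) = 2 * n - pb Brk s by omega]
        exact cb _ (by omega) (pk s)) (by omega)]
  have fz : ∀ e, 0 < e → e ≤ 2 * n → Cs (e - 1) → C ν B e ∧ st ν B (e - 1) = e - 1 := by
    intro e e0 eN c
    obtain ⟨g, rfl⟩ := Nat.exists_eq_succ_of_ne_zero e0.ne'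
    have c : Cs g := c
    refine ⟨Or.inl ?_, Nat.findGreatest_eq (Or.inl ?_)⟩
    · by_contra nb
      have l : g + 1 < 2 * n :=
        lt_of_le_of_ne eN fun k => nb (by rw [show g.succ = 2 * n from k]; exact h.bN)
      exact (h.hg g l nb).1 c
    · show B g
      by_contra nb
      cases g with
      | zero => exact nb h.b0
      | succ g => exact (h.hg g (by omega) nb).2.1 c
  obtain ⟨v, v1, v2, v3, v4⟩ := hT E (fun e => 0 < e ∧ e ≤ 2 * n ∧ Cs (e - 1))
    (bl W ν B fun _ => True) (fun x => eL ▸ h.count CL nC mC x)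
    (fun e ⟨e0, eN, c⟩ => by
      unfold bl
      rw [(fz e e0 eN c).2, show e - (e - 1) = 1 by omega, sg_one, if_pos trivial]
      rfl)
    ((eq (fun _ => True) _ fun e => h.key (fun _ _ _ => Iff.rfl) _ fun _ _ _ _ _ => rfl).2
      fun s hs => by
        obtain ⟨s0, sn, -⟩ := (mB s).1 hs
        have := pl s
        exact sg_rev _ _ _ fun i j p q r => ⟨sym i j (by omega), Iff.rfl⟩)
  have hP : ∀ e, ∃ P : ℕ → Prop, bl W ν B P e = v e ∧
      (0 < e ∧ e ≤ 2 * n ∧ Cs (e - 1) → ∀ i, P i) := by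
    intro e
    by_cases f : 0 < e ∧ e ≤ 2 * n ∧ Cs (e - 1)
    · exact ⟨fun _ => True, (v2 e f).symm, fun _ _ => trivial⟩
    · obtain ⟨P, hP⟩ := sg_sub _ _ _ (v1 e)
      exact ⟨P, hP, fun k => absurd k f⟩
  choose P P1 P2 using hP
  let K0 : ℕ → Prop := fun j => ∃ e, C ν B e ∧ st ν B (e - 1) ≤ j ∧ j < e ∧ P e j
  let K : ℕ → Prop := fun i => K0 (if Op ν Cs i then i else ν i)
  have hK : ∀ i < 2 * n, ¬Cs i → (K (ν i) ↔ K i) := by
    intro i l c
    obtain ⟨t1, t2, t3, t4, -⟩ := h.hν i l c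
    have : (if Op ν Cs (ν i) then ν i else ν (ν i)) = if Op ν Cs i then i else ν i := by
      unfold Op
      simp only [c, t2, false_or, t3]
      split_ifs <;> omega
    simp only [K, this]
  have hv : ∀ e, 0 < e → e ≤ 2 * n → C ν B e → evw v [letter ν Cs B e] = bl W ν B K e :=
    fun e => h.key hK v fun e e0 eN c o => by
      rw [← P1 e]
      have := st_le (ν := ν) (B := B) (e - 1)
      refine sg_congr fun i p q => ?_
      have q : i < e := by omega
      simp only [K, if_pos ((h.blk eN p q).1.2 o)]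
      constructor
      · exact fun k => ⟨e, c, p, q, k⟩
      · rintro ⟨e', c', p', q', k⟩
        rwa [blk_unique c c' p q p' q']
  have v3 := (eq K v hv).1 v3
  refine ⟨K, fun i l c => ?_, hK, fun s => ?_, ?_⟩
  · obtain ⟨a1, a2⟩ := fz (i + 1) (by omega) (by omega) c
    simp only [K, if_pos (show Op ν Cs i from Or.inl c)]
    exact ⟨i + 1, a1, a2.le, by omega, P2 (i + 1) ⟨by omega, by omega, c⟩ _⟩
  · induction s using Nat.strong_induction_on with
    | _ s ih =>
      intro sn sb
      rcases Nat.eq_zero_or_pos s with rfl | s0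
      · rfl
      have := pl s
      have a1 := ih (pb Brk s) (by omega) (by omega) (pk s)
      have a2 := v3 s ((mB s).2 ⟨s0, sn, sb⟩)
      have e1 : sg W K 0 s = sg W K 0 (pb Brk s) ++ sg W K (pb Brk s) (s - pb Brk s) := by
        conv_lhs => rw [show s = pb Brk s + (s - pb Brk s) by omega, sg_add, Nat.zero_add]
      have e2 : sg W K (2 * n - s) s = sg W K (2 * n - s) (s - pb Brk s) ++
          sg W K (2 * n - pb Brk s) (pb Brk s) := by
        rw [show 2 * n - pb Brk s = 2 * n - s + (s - pb Brk s) by omega, ← sg_add,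
          show s - pb Brk s + pb Brk s = s by omega]
      rw [e1, e2, FreeGroup.invRev_append, a1, a2]
  · rw [← lw' v hv (ct 0 (by omega) b0) (by rw [Nat.zero_add]; exact ct n le_rfl bn) (by omega)]
    refine (evw_len v _ v4 _).trans (Nat.mul_le_mul ?_ (Tm (by omega)))
    rw [List.length_map]
    have := h.card _ S2 (cuts ν B 0 n) (nodup_cuts _ _) fun e he => by
      rw [mem_cuts] at he
      exact ⟨by omega, by omega, he.2.2⟩
    omega

def pt (n i : ℕ) : Bool × ℕ := if i < n then (true, i) else (false, 2 * n - 1 - i)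

def ps (n : ℕ) (p : Bool × ℕ) : ℕ := if p.1 then p.2 else 2 * n - 1 - p.2

theorem pt_ps {n : ℕ} {p : Bool × ℕ} (h : p.2 < n) : pt n (ps n p) = p := by
  obtain ⟨b, j⟩ := p
  have h : j < n := h
  cases b
  · simp only [ps, pt, Bool.false_eq_true, if_false]
    rw [if_neg (by omega), show 2 * n - 1 - (2 * n - 1 - j) = j by omega]
  · simp only [ps, pt, if_true]
    rw [if_pos h]

theorem ps_pt {n i : ℕ} (h : i < 2 * n) : ps n (pt n i) = i := by
  unfold pt
  split_ifs
  · rfl
  · simp only [ps, Bool.false_eq_true, if_false]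
    omega

theorem ps_lt {n : ℕ} {p : Bool × ℕ} (h : p.2 < n) : ps n p < 2 * n := by
  unfold ps
  split_ifs <;> omega

theorem pt_lt {n i : ℕ} (h : i < 2 * n) : (pt n i).2 < n := by
  unfold pt
  split_ifs <;> simp only <;> omega

theorem fol_ps {n : ℕ} {p q : Bool × ℕ} (hp : p.2 < n) (h : Fol p q) :
    ps n p + 1 = ps n q := by
  obtain ⟨a, i⟩ := p
  obtain ⟨b, j⟩ := q
  obtain ⟨rfl, h⟩ : b = a ∧ _ := h
  have hp : i < n := hp
  cases b
  · have h : i = j + 1 := by simpa using h
    simp only [ps, Bool.false_eq_true, if_false]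
    omega
  · have h : j = i + 1 := by simpa using h
    simp only [ps, if_true]
    omega

end N1

open N1 Classical in
theorem n1 : NSt → N1St := by
  rintro ⟨h, hN⟩
  obtain ⟨h', hb⟩ : TB (fun b : ℕ => b) fun b => 6 * b * tw h (7 * b) :=
    ((TB.const 6).mul (TB.self' _)).mul (TB.tw h ((TB.const 7).mul (TB.self' _)))
  refine ⟨h', fun A U ν Cst Brk b fin card b0 bn hν hg => ?_⟩
  rcases U.eq_nil_or_concat with rfl | ⟨-, d, -⟩
  · exact ⟨fun _ => True, fun _ _ _ => trivial, fun _ _ _ _ => trivial, fun _ _ => rfl,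
      by simp [sel]⟩
  set n := U.length with hn
  let W : ℕ → A × Bool := fun i => (ptl U (pt n i)).getD d
  have Wt : ∀ i (hi : i < U.length), W i = U[i] := by
    intro i hi
    simp only [W, pt, ptl, if_pos (show i < n from hi), if_true, List.getElem?_eq_getElem hi,
      Option.getD_some]
  have Wb : ∀ i j (hj : j < U.length), i + j + 1 = 2 * n → W i = linv U[j] := by
    intro i j hj e
    simp only [W, pt, ptl, if_neg (show ¬i < n by omega), Bool.false_eq_true, if_false,
      show 2 * n - 1 - i = j by omega, List.getElem?_eq_getElem hj, Option.map_some,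
      Option.getD_some]
  have sym : ∀ i j, i + j + 1 = 2 * n → W i = linv (W j) := by
    intro i j e
    rcases Nat.lt_or_ge j n with l | l
    · rw [Wb i j l e, Wt j l]
    · rw [Wb j i (by omega) (by omega), linv_linv, Wt i (by omega)]
  have some : ∀ p : Bool × ℕ, p.2 < n → ∃ x, ptl U p = some x := by
    intro p l
    unfold ptl
    rw [List.getElem?_eq_getElem l]
    split_ifs
    · exact ⟨_, rfl⟩
    · exact ⟨_, rfl⟩
  have L : Ln W (2 * n) (fun i => ps n (ν (pt n i))) (fun i => Cst (pt n i)) (Bk Brk n) := by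
    refine ⟨Or.inl ⟨Nat.zero_le _, b0⟩, Or.inr ⟨by omega, by rwa [Nat.sub_self]⟩,
      fun i l c => ?_, fun g l nb => ?_⟩
    · obtain ⟨t1, t2, t3, t4, t5⟩ := hν _ (pt_lt l) c
      refine ⟨ps_lt t1, by rwa [pt_ps t1], by rw [pt_ps t1, t3, ps_pt l], fun e => t4 ?_, ?_⟩
      · rw [← pt_ps t1, e]
      · obtain ⟨x, hx⟩ := some _ (pt_lt l)
        simp only [W, pt_ps t1, t5, hx, Option.map_some, Option.getD_some]
    · have n1 : g + 1 ≠ n := fun e => nb (Or.inl ⟨e.le, e ▸ bn⟩)
      have f : Fol (pt n g) (pt n (g + 1)) ∧ ¬Brk (max (pt n g).2 (pt n (g + 1)).2) := by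
        unfold pt
        rcases Nat.lt_or_ge (g + 1) n with k | k
        · rw [if_pos k, if_pos (by omega)]
          refine ⟨⟨rfl, by simp⟩, fun c => nb (Or.inl ⟨k.le, ?_⟩)⟩
          rwa [show max (true, g).2 (true, g + 1).2 = g + 1 by simp] at c
        · rw [if_neg (by omega), if_neg (by omega)]
          refine ⟨⟨rfl, ?_⟩, fun c => nb (Or.inr ⟨k, ?_⟩)⟩
          · simp only [Bool.false_eq_true, if_false]
            omega
          · rwa [show max (false, 2 * n - 1 - g).2 (false, 2 * n - 1 - (g + 1)).2 =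
              2 * n - (g + 1) by simp only; omega] at c
      obtain ⟨a1, a2, a3⟩ := hg _ _ (pt_lt (by omega)) (pt_lt l) f.1 f.2
      exact ⟨a1, a2, fol_ps (hν _ (pt_lt l) a2).1 a3⟩
  obtain ⟨K, k1, k2, k3, k4⟩ := line (T := tw h) (fun _ _ => tw_mono_right h) (hN ℕ A) L
    fin.toFinset (fun s c => fin.mem_toFinset.2 c) b0 bn sym
  have pre : ∀ (P : ℕ → Prop) s, sel U (fun j => P j ∧ j < s) = sg W P 0 (min s n) := by
    intro P s
    rw [sel_eq (W := W) U _ Wt, ← hn, show n = min s n + (n - min s n) by omega, sg_add,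
      sg_nil (a := 0 + min s n) fun i p q c => by omega, List.append_nil,
      show min s n + (n - min s n) = n by omega]
    exact sg_congr fun i p q => ⟨fun c => c.1, fun c => ⟨c, by omega⟩⟩
  refine ⟨fun p => K (ps n p), fun p l c => k1 _ (ps_lt l) (by rwa [pt_ps l]),
    fun p l c k => ?_, fun s sb => ?_, ?_⟩
  · have := (k2 _ (ps_lt l) (by rwa [pt_ps l])).2 k
    rwa [pt_ps l] at this
  · rw [pre, pre]
    have mb : Brk (min s n) := by
      rcases Nat.le_total s n with l | l
      · rwa [Nat.min_eq_left l]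
      · rwa [Nat.min_eq_right l]
    have ml : min s n ≤ n := Nat.min_le_right _ _
    generalize min s n = t at *
    refine (k3 t ml mb).trans (sg_rev _ _ _ fun i j p q r => ⟨sym i j (by omega), ?_⟩).symm
    simp only [ps, Bool.false_eq_true, if_false]
    rw [show 2 * n - 1 - i = j by omega]
  · rw [sel_eq (W := W) U _ Wt]
    have c : fin.toFinset.card ≤ b := by rwa [← Set.ncard_eq_toFinset_card _ fin]
    refine k4.trans (le_trans ?_ (hb b))
    exact Nat.mul_le_mul (by omega) (tw_mono_right h (by omega))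

end Pool.Agent.Lib.MP_c1f5fe_lc
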