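import Pool.Agent.Lib.MP_c1f5fe_lc.NDc

/-! A drawing with at most `k` bundled crossings has a normal form. -/

namespace Pool.Agent.Lib.MP_c1f5fe_lc

open Set Function Metric

namespace NDd

open NDa NDb NDc

variable {V : Type} {G : SimpleGraph V} (Γ : SimpleDrawing G)

theorem exists_P : ∃ P : V → V → ℝ → ℂ, ∀ u v, G.Adj u v → ContinuousOn (P u v) (Icc 0 1) ∧
    InjOn (P u v) (Icc 0 1) ∧ P u v 0 = Γ.pos u ∧ P u v '' Icc 0 1 = Γ.curve s(u, v) ∧
    ∀ t, P v u t = P u v (1 - t) := by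
  classical
  choose! A h1 h2 h3 h4 h5 using Γ.arc
  letI : LinearOrder V := linearOrderOfSTO WellOrderingRel
  refine ⟨fun u v => if u < v then A u v else fun t => A v u (1 - t), fun u v h => ?_⟩
  rcases lt_or_gt_of_ne h.ne with c | c
  · simp only [if_pos c, if_neg c.not_gt]
    exact ⟨h1 u v h, h2 u v h, h3 u v h, h5 u v h, fun _ => trivial⟩
  · simp only [if_pos c, if_neg c.not_gt]
    refine ⟨(h1 v u h.symm).comp (Continuous.continuousOn (by fun_prop)) fun t ht => NDc.flip ht,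
      fun s hs t ht e => ?_, by simpa using h4 v u h.symm, ?_, fun t => by simp⟩
    · have := h2 v u h.symm (NDc.flip hs) (NDc.flip ht) e
      linarith
    · rw [Sym2.eq_swap, ← h5 v u h.symm]
      ext z
      constructor
      · rintro ⟨t, ht, rfl⟩
        exact ⟨_, NDc.flip ht, rfl⟩
      · rintro ⟨t, ht, rfl⟩
        exact ⟨_, NDc.flip ht, by simp⟩

theorem mem_pair {e f x : Sym2 V} {p : ℂ} (h : Γ.CrossAt e f p) (hx : x ∈ G.edgeSet)
    (hp : p ∈ Γ.curve x) : x = e ∨ x = f := by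
  by_contra c
  rw [not_or] at c
  obtain ⟨a1, a2, a3, a4, a5, a6⟩ := h
  exact a6 (Γ.three x hx e a1 f a2 c.1 c.2 a3 p ⟨⟨hp, a4⟩, a5⟩)

theorem pre [Finite V] (hD : DiskSt) {m : ℕ} (hs : Γ.Splits m) : Nonempty (Pre m G) := by
  obtain ⟨C, hC, hdis, hun⟩ := hs
  choose E₁ E₂ s1 s2 dE hcr hCe D hps hDC hDv hme using fun i => (hC i).2
  choose g hg using fun i => hD (D i) (hps i).1
  obtain ⟨P, hP⟩ := exists_P Γ
  have mD : ∀ i z, z ∈ D i ↔ ‖(g i).symm z‖ ≤ 1 := fun i z => by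
    rw [← hg i, ← le_eq]; rfl
  have mF : ∀ i z, z ∈ frontier (D i) ↔ ‖(g i).symm z‖ = 1 := fun i z => by
    rw [← hg i, ← (g i).image_frontier, frontier_closedBall _ one_ne_zero]
    constructor
    · rintro ⟨w, hw, rfl⟩
      simpa using hw
    · intro hz
      exact ⟨(g i).symm z, by simpa using hz, by simp⟩
  have cC : ∀ i, ∀ z ∈ C i, z ∈ Γ.crossings ∧ z ∈ D i := fun i z hz => by
    rw [← hDC i] at hz; exact hz
  have eqD : ∀ i, {z | ‖(g i).symm z‖ ≤ 1} = D i := fun i => by ext z; exact (mD i z).symm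
  have eqF : ∀ i, {z | ‖(g i).symm z‖ = 1} = frontier (D i) := fun i => by
    ext z; exact (mF i z).symm
  let E : Fin m → Bool → Set (Sym2 V) := fun i b => cond b (E₂ i) (E₁ i)
  have crs : ∀ i b e f, e ∈ E i b → f ∈ E i (!b) → ∃ p ∈ C i, Γ.CrossAt e f p := by
    intro i b e f he hf
    cases b
    · obtain ⟨p, hp⟩ := hcr i e he f hf
      exact ⟨p, by rw [hCe i]; exact ⟨e, he, f, hf, hp⟩, hp⟩
    · obtain ⟨p, hp⟩ := hcr i f hf e he
      exact ⟨p, by rw [hCe i]; exact ⟨f, hf, e, he, hp⟩, hp.2.1, hp.1, hp.2.2.1.symm,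
        hp.2.2.2.2.1, hp.2.2.2.1, hp.2.2.2.2.2⟩
  have nov : ∀ i v, 1 < ‖(g i).symm (Γ.pos v)‖ := fun i v => by
    by_contra c
    exact disjoint_left.1 (hDv i) ((mD i _).2 (not_lt.1 c)) ⟨v, rfl⟩
  have mem : ∀ {u v t}, G.Adj u v → t ∈ Icc (0 : ℝ) 1 → P u v t ∈ Γ.curve s(u, v) :=
    fun h ht => (hP _ _ h).2.2.2.1 ▸ mem_image_of_mem _ ht
  refine ⟨{
    pos := Γ.pos, pos_inj := Γ.pos_inj, P := P, g := g, C := C
    In := fun u v i b => G.Adj u v ∧ s(u, v) ∈ E i b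
    cont := fun u v h => (hP u v h).1
    inj := fun u v h => (hP u v h).2.1
    rev := fun u v t h => (hP u v h).2.2.2.2 t
    start := fun u v h => (hP u v h).2.2.1
    vtx := ?_
    adj := fun u v i b h => h.1
    sym := fun u v i b h => ⟨h.1.symm, by rw [Sym2.eq_swap]; exact h.2⟩
    fn := ?_, cls := ?_, Cin := ?_, Cout := ?_, nov := nov, meet := ?_, crs := ?_, pair := ?_
    one := ?_, same := ?_, conn := ?_, two := ?_, both := ?_ }⟩
  · intro u v t w h ht e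
    have ht' : t ∈ Icc (0 : ℝ) 1 := Ioo_subset_Icc_self ht
    obtain ⟨-, a2, a3, -, a5⟩ := hP u v h
    rcases Sym2.mem_iff.1 (Γ.avoid s(u, v) h w (e ▸ mem h ht')) with rfl | rfl
    · exact ht.1.ne' (a2 ht' (by simp) (e.trans a3.symm))
    · refine ht.2.ne (a2 ht' (by simp) (e.trans ?_))
      rw [← (hP _ _ h.symm).2.2.1, a5, sub_zero]
  · rintro u v i b b' ⟨-, h⟩ ⟨-, h'⟩
    cases b <;> cases b'
    · rfl
    · exact absurd h' (disjoint_left.1 (dE i) h)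
    · exact absurd h (disjoint_left.1 (dE i) h')
    · rfl
  · intro i
    refine Set.Finite.isClosed (Set.Finite.subset (finite_iUnion fun e : Sym2 V =>
      finite_iUnion fun f : Sym2 V => (?_ : {p | Γ.CrossAt e f p}.Finite)) ?_)
    · refine Set.Subsingleton.finite fun p hp q hq => ?_
      exact Γ.once e hp.1 f hp.2.1 hp.2.2.1 ⟨hp.2.2.2.1, hp.2.2.2.2.1⟩ ⟨hq.2.2.2.1, hq.2.2.2.2.1⟩
    · intro p hp
      obtain ⟨e, f, h⟩ := (cC i p hp).1
      exact mem_iUnion.2 ⟨e, mem_iUnion.2 ⟨f, h⟩⟩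
  · intro i z hz
    refine lt_of_le_of_ne ((mD i z).1 (cC i z hz).2) fun e => ?_
    exact disjoint_left.1 (hps i).2.1 ((mF i z).2 e) (.inr (cC i z hz).1)
  · intro i j z hz hn
    by_contra c
    refine disjoint_left.1 (hdis c) hz ?_
    rw [← hDC i]
    exact ⟨(cC j z hz).1, (mD i z).2 hn⟩
  · intro u v t i h ht hn
    rcases hme i s(u, v) h ⟨_, mem h ht, (mD i _).2 hn⟩ with c | c
    · exact ⟨false, h, c⟩
    · exact ⟨true, h, c⟩
  · intro u v u' v' s t h h' hne hs ht e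
    by_cases c : P u v s ∈ range Γ.pos
    · exact .inl c
    · refine .inr (mem_iUnion.1 ?_)
      rw [hun]
      exact ⟨s(u, v), s(u', v'), h, h', hne, mem h hs, e ▸ mem h' ht, c⟩
  · rintro u v u' v' i b ⟨h, he⟩ ⟨h', he'⟩
    obtain ⟨p, hp, a1, a2, a3, a4, a5, a6⟩ := crs i b _ _ he he'
    rw [(hP _ _ h).2.2.2.1, (hP _ _ h').2.2.2.1]
    exact ⟨p, hp, a4, a5, (Γ.proper _ a1 _ a2 a3 p ⟨a4, a5⟩).resolve_left a6⟩
  · intro u v u' v' h h' hne
    rw [(hP _ _ h).2.2.2.1, (hP _ _ h').2.2.2.1]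
    exact Γ.once _ h _ h' hne
  · rintro u v u' v' i b z ⟨h, he⟩ ⟨h', he'⟩ hne hz hz'
    rw [(hP _ _ h).2.2.2.1] at hz
    rw [(hP _ _ h').2.2.2.1] at hz'
    by_contra c
    rw [not_lt] at c
    have hv : z ∉ range Γ.pos := by
      rintro ⟨w, rfl⟩
      exact absurd (nov i w) (not_lt.2 c)
    have hzC : z ∈ C i := by
      rw [← hDC i]
      exact ⟨⟨_, _, h, h', hne, hz, hz', hv⟩, (mD i z).2 c⟩
    rw [hCe i] at hzC
    obtain ⟨e, e1, f, f1, hx⟩ := hzC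
    have dd := disjoint_left.1 (dE i)
    rcases mem_pair Γ hx h hz with c1 | c1 <;> rcases mem_pair Γ hx h' hz' with c2 | c2
    · exact hne (c1.trans c2.symm)
    · cases b
      · exact dd he' (c2 ▸ f1)
      · exact dd (c1 ▸ e1) he
    · cases b
      · exact dd he (c1 ▸ f1)
      · exact dd (c2 ▸ e1) he'
    · exact hne (c1.trans c2.symm)
  · rintro u v i b ⟨h, he⟩
    obtain ⟨p, hp⟩ := (hC i).1
    rw [hCe i] at hp
    obtain ⟨e, e1, f, f1, -⟩ := hp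
    obtain ⟨x, hx⟩ : ∃ x, x ∈ E i (!b) := by
      cases b
      · exact ⟨f, f1⟩
      · exact ⟨e, e1⟩
    obtain ⟨q, hq, hc⟩ := crs i b _ _ he hx
    rw [(hP _ _ h).2.2.2.1, eqD]
    obtain ⟨a, a', ha⟩ := ((hps i).2.2 _ h).2 ⟨q, hc.2.2.2.1, (cC i q hq).2⟩
    exact (arc_facts ha).2.1
  · intro u v i h
    rw [(hP _ _ h).2.2.2.1, eqF]
    exact ((hps i).2.2 _ h).1
  · intro i b
    obtain ⟨p, hp⟩ := (hC i).1
    rw [hCe i] at hp
    obtain ⟨e, e1, f, f1, -⟩ := hp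
    cases b
    · induction e using Sym2.ind with
      | _ u v => exact ⟨u, v, s1 i e1, e1⟩
    · induction f using Sym2.ind with
      | _ u v => exact ⟨u, v, s2 i f1, f1⟩

end NDd

theorem nd (hD : DiskSt) (hA : AltSt) : NDSt := by
  intro k V _ G hk
  have hne : {x : ℕ∞ | ∃ (Γ : SimpleDrawing G) (m : ℕ), Γ.Splits m ∧ x = m}.Nonempty := by
    by_contra c
    rw [bc, Set.not_nonempty_iff_eq_empty.1 c, sInf_empty] at hk
    exact absurd hk (by simp)
  obtain ⟨Γ, m, hs, hm⟩ := csInf_mem hne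
  have hmk : m ≤ k := by
    rw [bc, hm] at hk
    exact_mod_cast hk
  obtain ⟨Q⟩ := NDd.pre Γ hD hs
  obtain ⟨M⟩ := Q.mid hA
  obtain ⟨M'⟩ := M.mono hmk
  exact M'.nd

end Pool.Agent.Lib.MP_c1f5fe_lc
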