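import Pool.Agent.Lib.MP_c1f5fe_lc.NDH3

/-! A drawing in normal form gives a planar order. -/

namespace Pool.Agent.Lib.MP_c1f5fe_lc

namespace NDH

open Function Set Complex
open Pool.Agent.Lib.MP_50b5c6_lc.Np (NC Pl)

section lab
variable {k : ℕ} {V : Type} {G : SimpleGraph V} {lab : V → V → List (Lab k)}

theorem len_rev (ok : LabOK G lab) {u v : V} (h : G.Adj u v) :
    (lab v u).length = (lab u v).length := by rw [ok.rev u v h, List.length_reverse]

theorem opp_sg (ok : LabOK G lab) {x : Sg V} (h : IsSg G lab x) : IsSg G lab (opp lab x) :=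
  ⟨h.1.symm, by simp only [opp, len_rev ok h.1]; omega⟩

theorem opp_opp (ok : LabOK G lab) {x : Sg V} (h : IsSg G lab x) : opp lab (opp lab x) = x := by
  obtain ⟨u, v, j⟩ := x
  have := h.2
  simp only [opp, len_rev ok h.1, Prod.mk.injEq, true_and] at this ⊢
  omega

theorem node_inl {x : Sg V} (h : x.2.2 = 0) : node lab x = .inl x.1 := if_pos h

theorem node_inr {x : Sg V} (h : x.2.2 ≠ 0) : node lab x = .inr ((lb lab x).map Prod.fst) :=
  if_neg h

theorem ne_zero_of {x : Sg V} {i : Option (Fin k)} (h : node lab x = .inr i) : x.2.2 ≠ 0 :=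
  fun e => by simp [node_inl e] at h

theorem node_opp (ok : LabOK G lab) {x : Sg V} (h : IsSg G lab x) :
    node lab (opp lab x) ≠ node lab x := by
  obtain ⟨u, v, j⟩ := x
  have h2 : j ≤ (lab u v).length := h.2
  have h1 : G.Adj u v := h.1
  intro e
  simp only [node, opp] at e
  split_ifs at e with a b b
  · exact h1.ne (Sum.inl.inj e).symm
  · have e' := Sum.inr.inj e
    rw [ok.rev u v h1, List.getElem?_reverse (by omega), ← List.getElem?_map,
      ← List.getElem?_map] at e'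
    have := (List.getElem?_inj (by simp; omega) (ok.idx u v h1)).1 e'
    omega

theorem hub_ex {x : Sg V} (h : IsSg G lab x) (n : x.2.2 ≠ 0) :
    ∃ i, node lab x = .inr (some i) ∧ Used G lab i ∧ ∃ b, lb lab x = some (i, b) := by
  have l : x.2.2 - 1 < (lab x.1 x.2.1).length := by have := h.2; omega
  have e : lb lab x = some (lab x.1 x.2.1)[x.2.2 - 1] := List.getElem?_eq_getElem l
  exact ⟨(lab x.1 x.2.1)[x.2.2 - 1].1, by rw [node_inr n, e]; rfl,
    ⟨x.1, x.2.1, (lab x.1 x.2.1)[x.2.2 - 1].2, h.1, List.getElem_mem l⟩, _, e⟩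

theorem kap_all (ok : LabOK G lab) {x : Sg V} (h : IsSg G lab x) (n : x.2.2 ≠ 0) :
    IsSg G lab (kap lab x) ∧ (kap lab x).2.2 ≠ 0 ∧ kap lab x ≠ x ∧ kap lab (kap lab x) = x ∧
      lb lab (kap lab x) = lb lab x ∧ node lab (kap lab x) = node lab x := by
  obtain ⟨u, v, j⟩ := x
  have h2 : j ≤ (lab u v).length := h.2
  have h1 : G.Adj u v := h.1
  have n' : j ≠ 0 := n
  have e : lb lab (kap lab (u, v, j)) = lb lab (u, v, j) := by
    simp only [lb, kap]
    rw [ok.rev u v h1, List.getElem?_reverse (by omega)]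
    congr 1
    omega
  refine ⟨⟨h1.symm, ?_⟩, Nat.succ_ne_zero _, fun q => h1.ne (congrArg Prod.fst q).symm, ?_, e, ?_⟩
  · simp only [kap, len_rev ok h1]; omega
  · simp only [kap, len_rev ok h1, Prod.mk.injEq, true_and]; omega
  · rw [node_inr n, node_inr (Nat.succ_ne_zero _), e]

theorem fin_sg [Finite V] : Finite {x : Sg V // IsSg G lab x} := by
  refine Finite.of_injective (β := Σ p : V × V, Fin ((lab p.1 p.2).length + 1))
    (fun x => ⟨(x.1.1, x.1.2.1), ⟨x.1.2.2, Nat.lt_succ_of_le x.2.2⟩⟩) ?_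
  rintro ⟨⟨u, v, j⟩, h⟩ ⟨⟨u', v', j'⟩, h'⟩ e
  obtain ⟨rfl, rfl⟩ : u = u' ∧ v = v' := by simpa using congrArg Sigma.fst e
  obtain rfl : j = j' := by simpa using e
  rfl

end lab

theorem circ {R I : Type} {hub : R → I} {θ θ' : R → ℝ}
    (θi : ∀ x y, hub x = hub y → θ x = θ y → x = y)
    (h2 : ∀ r z, hub z = hub r → θ r < θ z → θ' r ≤ θ z)
    (h3 : ∀ r z, hub z = hub r → θ' r ≤ θ z + 2 * Real.pi) {r s : R} (e : hub r = hub s)
    {α β : ℝ} (a1 : θ r < α) (a2 : α < θ' r) (b1 : θ s ≤ β) (b2 : β < θ' s)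
    (h : exp (α * Complex.I) = exp (β * Complex.I)) : r = s ∧ α = β := by
  obtain ⟨n, hn⟩ := exp_eq_exp_iff_exists_int.1 h
  have hn' : α = β + n * (2 * Real.pi) := by simpa using congrArg Complex.im hn
  have p := Real.pi_pos
  have c1 := h3 r s e.symm
  have c2 := h3 s r e
  have n1 : (n : ℝ) < 1 := by nlinarith
  have n2 : (-1 : ℝ) < n := by nlinarith
  have n0 : n = 0 := by
    have : n < 1 := by exact_mod_cast n1
    have : -1 < n := by exact_mod_cast n2
    omega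
  have ab : α = β := by simpa [n0] using hn'
  refine ⟨θi r s e ?_, ab⟩
  rcases lt_trichotomy (θ r) (θ s) with l | l | l
  · linarith [h2 r s e.symm l]
  · exact l
  · linarith [h2 s r e l]

theorem ex_pos {D : Type} (L : List D) (nd : L.Nodup) (all : ∀ d, d ∈ L) :
    ∃ p : D → ℕ, Injective p ∧ (∀ {B : Type} {F : D → B}, NC F L → ∀ {u v d e : D}, F u = F v →
      F d = F e → F u ≠ F d → NA p u v d e) ∧
      ∀ {X W : Type} [DecidableEq X] (l : List X) (M : List W) (u : W → X) (v : W → D), l.Nodup →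
        Injective u → l.Sublist (M.map u) → (M.map v).Sublist L → ∀ x y, u x ∈ l → u y ∈ l →
        (l.idxOf (u x) < l.idxOf (u y) ↔ p (v x) < p (v y)) := by
  classical
  exact ⟨fun x => L.idxOf x, fun x y e => (List.idxOf_inj (all _)).1 e,
    fun h _ _ _ _ => chord nd all h, fun l M u v nl => idx_tr l L M u v nl nd⟩

theorem order (k1 : K1) (ord : OrdSt) (unord : UnordSt) {k : ℕ} {V : Type} [Finite V]
    {G : SimpleGraph V} (N : ND k G) [DecidableEq (Sg V)] :
    ∃ L : List (Sg V), L.Nodup ∧ (∀ x, x ∈ L ↔ IsSg G N.lab x) ∧ NC (node N.lab) L ∧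
      NC (fun x => s(x, opp N.lab x)) L ∧ ∀ (i : Fin k) (l : List (Sg V)), l.Sublist L →
      (∀ x ∈ l, node N.lab x = .inr (some i)) → ∀ a ∈ l, ∀ a' ∈ l, ∀ b ∈ l, ∀ b' ∈ l,
      a ≠ a' → a ≠ b → a' ≠ b → a ≠ b' → a' ≠ b' → b ≠ b' →
      (altO (l.idxOf a) (l.idxOf a') (l.idxOf b) (l.idxOf b') ↔
        Alt ((N.h i).symm (N.γ a 0)) ((N.h i).symm (N.γ a' 0)) ((N.h i).symm (N.γ b 0))
          ((N.h i).symm (N.γ b' 0))) := by
  classical
  let Y := {x : Sg V // IsSg G N.lab x}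
  have : Finite Y := fin_sg
  let o : Y → Y := fun y => ⟨opp N.lab y.1, opp_sg N.ok y.2⟩
  have oo : ∀ y, o (o y) = y := fun y => Subtype.ext (opp_opp N.ok y.2)
  let R := {y : Y // y.1.2.2 ≠ 0}
  choose hub hub1 hub2 hub3 using fun r : R => hub_ex r.1.2 r.2
  have hubq : ∀ (r : R) i, node N.lab r.1.1 = .inr (some i) → hub r = i := fun r i e => by
    simpa [hub1 r] using e
  let pt : R → ℂ := fun r => (N.h (hub r)).symm (N.γ r.1.1 0)
  have pt1 : ∀ r, ‖pt r‖ = 1 := fun r => N.start1 _ _ r.1.2 (hub1 r)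
  have pt2 : ∀ r, N.h (hub r) (pt r) = N.γ r.1.1 0 := fun r => (N.h _).apply_symm_apply _
  let θ : R → ℝ := fun r => (pt r).arg
  have pt3 : ∀ r, exp (θ r * I) = pt r := fun r => by
    have := norm_mul_exp_arg_mul_I (pt r)
    rwa [pt1, ofReal_one, one_mul] at this
  have I0 : (0 : ℝ) ∈ Icc (0 : ℝ) 1 := ⟨le_rfl, zero_le_one⟩
  have nop : ∀ (r : R) v, N.γ r.1.1 0 ≠ N.pos v := fun r v e => by
    have h := N.nov (hub r) v (hub2 r)
    rw [← e] at h
    exact absurd (pt1 r) h.ne'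
  have pti : ∀ x y, hub x = hub y → pt x = pt y → x = y := by
    intro x y e q
    have q' : N.γ x.1.1 0 = N.γ y.1.1 0 := by rw [← pt2, ← pt2, e, q]
    rcases N.inj _ _ 0 0 x.1.2 y.1.2 I0 I0 q' with ⟨a, -⟩ | ⟨-, a⟩ | ⟨v, a⟩
    · exact Subtype.ext (Subtype.ext a.symm)
    · norm_num at a
    · exact absurd a.symm (nop x v)
  have θi : ∀ x y, hub x = hub y → θ x = θ y → x = y := fun x y e q =>
    pti x y e (by rw [← pt3, ← pt3, q])
  obtain ⟨nx, θ', hn⟩ := ex_nx hub θ (2 * Real.pi) fun x y => by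
    linarith [arg_le_pi (pt x), neg_pi_lt_arg (pt y)]
  have pt4 : ∀ r, exp (θ' r * I) = pt (nx r) := fun r => by
    rcases (hn r).2.2.2.2 with e | ⟨e, -⟩
    · rw [e, pt3]
    · rw [e, ← pt3]
      exact exp_eq_exp_iff_exists_int.2 ⟨1, by push_cast; ring⟩
  have nxne : ∀ r, nx r ≠ r := by
    intro r e
    obtain ⟨-, q1, -, q3, q4 | ⟨q4, q5⟩⟩ := hn r
    · rw [e] at q4; linarith
    · obtain ⟨a1, a2, a3, -, -, a6⟩ := kap_all N.ok r.1.2 r.2
      let z : R := ⟨⟨_, a1⟩, a2⟩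
      have hz : hub z = hub r := hubq z _ (a6.trans (hub1 r))
      rw [e] at q4
      have := θi z r hz (le_antisymm (q5 z hz) (by linarith [q3 z hz]))
      exact a3 (congrArg (fun t : R => t.1.1) this)
  let base : Y ⊕ R × Bool → Y := Sum.elim id fun d => if d.2 then (nx d.1).1 else d.1.1
  let f : Y ⊕ R × Bool → (V ⊕ Option (Fin k)) ⊕ R :=
    Sum.elim (fun y => .inl (node N.lab y.1)) fun d => .inr d.1
  let g : Y ⊕ R × Bool → Sym2 Y := fun d => s(base d, o (base d))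
  have gs : ∀ y z : Y, s(y, o y) = s(z, o z) ↔ z = y ∨ z = o y := fun y z => by
    rw [Sym2.eq_iff]
    constructor
    · rintro (⟨a, -⟩ | ⟨-, a⟩)
      · exact .inl a.symm
      · exact .inr a.symm
    · rintro (rfl | rfl)
      · exact .inl ⟨rfl, rfl⟩
      · exact .inr ⟨(oo y).symm, rfl⟩
  have gn : ∀ y z : Y, node N.lab y.1 = node N.lab z.1 → s(y, o y) = s(z, o z) → y = z := by
    intro y z e q
    rcases (gs y z).1 q with rfl | rfl
    · rfl
    · exact absurd e.symm (node_opp N.ok y.2)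
  have gr : ∀ r s : R, hub r = hub s → s(r.1, o r.1) = s(s.1, o s.1) → r = s := fun r s e q =>
    Subtype.ext (gn _ _ (by rw [hub1, hub1, e]) q)
  let ang : R × Bool → ℝ → ℝ := fun d t =>
    (θ d.1 + θ' d.1) / 2 + (if d.2 then 1 else -1) * t * ((θ' d.1 - θ d.1) / 2)
  have ang1 : ∀ d t, 0 ≤ t → t < 1 → θ d.1 < ang d t ∧ ang d t < θ' d.1 := by
    rintro ⟨r, b⟩ t t0 t1
    have := (hn r).2.1
    cases b <;> simp only [ang, if_true, Bool.false_eq_true, if_false] <;>
      constructor <;> nlinarith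
  let c : Y ⊕ R × Bool → ℝ → ℂ := Sum.elim
    (fun y t => if h : y.1.2.2 = 0 then N.γ y.1 (t / 4) else N.h (hub ⟨y, h⟩) (t * pt ⟨y, h⟩))
    fun d t => N.h (hub d.1) (exp (ang d t * I))
  let lo : Y → ℝ := fun y => if y.1.2.2 = 0 then 1 / 4 else 0
  have lo1 : ∀ y, (y.1.2.2 = 0 ∧ lo y = 1 / 4) ∨ (y.1.2.2 ≠ 0 ∧ lo y = 0) := fun y => by
    by_cases h : y.1.2.2 = 0
    · exact .inl ⟨h, if_pos h⟩
    · exact .inr ⟨h, if_neg h⟩
  have lo2 : ∀ y, 0 ≤ lo y ∧ lo y ≤ 1 / 2 := fun y => by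
    rcases lo1 y with ⟨-, h⟩ | ⟨-, h⟩ <;> rw [h] <;> norm_num
  let σ : Y → Set ℂ := fun y => N.γ y.1 '' Icc (lo y) (1 / 2)
  have kind : ∀ d, (∃ y : Y, d = .inl y ∧ y.1.2.2 = 0 ∧ c d = fun t => N.γ y.1 (t / 4)) ∨
      (∃ r : R, d = .inl r.1 ∧ c d = fun t : ℝ => N.h (hub r) (t * pt r)) ∨
      ∃ e : R × Bool, d = .inr e ∧ c d = fun t => N.h (hub e.1) (exp (ang e t * I)) := by
    rintro (y | e)
    · by_cases h : y.1.2.2 = 0
      · exact .inl ⟨y, rfl, h, funext fun t => dif_pos h⟩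
      · exact .inr (.inl ⟨⟨y, h⟩, rfl, funext fun t => dif_neg h⟩)
    · exact .inr (.inr ⟨e, rfl, rfl⟩)
  have ind : ∀ (y : Y) (u : ℝ) (r : R) (z : ℂ), 0 ≤ u → u < 1 → ‖z‖ ≤ 1 →
      N.γ y.1 u = N.h (hub r) z → ∃ s : R, s.1 = y ∧ hub s = hub r ∧ pt s = z := by
    intro y u r z u0 u1 hz e
    rcases N.off y.1 u (hub r) y.2 ⟨u0, u1.le⟩ (hub2 r) (by simpa [e] using hz) with
      ⟨rfl, a⟩ | ⟨a, -⟩
    · have := hubq ⟨y, ne_zero_of a⟩ _ a
      exact ⟨⟨y, ne_zero_of a⟩, rfl, this, by simp only [pt, this, e, Homeomorph.symm_apply_apply]⟩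
    · exact absurd a u1.ne
  have two : ∀ (r s : R) (z w : ℂ), ‖z‖ ≤ 1 → ‖w‖ ≤ 1 → N.h (hub r) z = N.h (hub s) w →
      hub r = hub s ∧ z = w := by
    intro r s z w hz hw e
    have := N.disj (hub r) (hub s) (N.h (hub r) z) (hub2 r) (hub2 s) (by simpa using hz)
      (by simpa [e] using hw)
    exact ⟨this, (N.h (hub s)).injective (this ▸ e)⟩
  have nr : ∀ (r : R) (t : ℝ), 0 ≤ t → ‖t * pt r‖ = t := fun r t t0 => by
    rw [norm_mul, pt1, mul_one, norm_real, Real.norm_of_nonneg t0]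
  have ne : ∀ α : ℝ, ‖exp (α * I)‖ = 1 := norm_exp_ofReal_mul_I
  have vz : ∀ (y : Y) (u : ℝ), 0 ≤ u → u < 1 → N.γ y.1 u ∈ range N.pos → u = 0 ∧ y.1.2.2 = 0 := by
    rintro y u u0 u1 ⟨v, e⟩
    have : u = 0 := by
      by_contra n
      exact N.vtx _ u v y.2 ⟨lt_of_le_of_ne u0 (Ne.symm n), u1⟩ e.symm
    subst this
    exact ⟨rfl, by_contra fun n => nop ⟨y, n⟩ v e.symm⟩
  obtain ⟨L₁, nd, all, nf, ng⟩ := hyp k1 ord unord f g c (fun d => σ (base d)) (by
      rintro (y | ⟨r, b⟩) (z | ⟨s, b'⟩) e q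
      · exact congrArg _ (gn y z (Sum.inl.inj e) q)
      · simp [f] at e
      · simp [f] at e
      · obtain rfl : r = s := Sum.inr.inj e
        cases b <;> cases b'
        · rfl
        · exact absurd (gr r (nx r) (hn r).1.symm q).symm (nxne r)
        · exact absurd (gr (nx r) r (hn r).1 q) (nxne r)
        · rfl)
    (by
      intro d
      rcases kind d with ⟨y, -, -, e⟩ | ⟨r, -, e⟩ | ⟨r, -, e⟩ <;> rw [e]
      · exact (N.cont _ y.2).comp (f := fun t : ℝ => t / 4) (by fun_prop) fun t ht =>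
          ⟨by linarith [ht.1], by linarith [ht.2]⟩
      · fun_prop
      · simp only [ang]
        fun_prop)
    (by
      intro d d' q
      rcases kind d with ⟨y, rfl, h, e⟩ | ⟨r, rfl, e⟩ | ⟨r, rfl, e⟩ <;>
        rcases kind d' with ⟨z, rfl, h', e'⟩ | ⟨s, rfl, e'⟩ | ⟨s, rfl, e'⟩ <;> rw [e, e'] <;>
        simp only [f, Sum.elim_inl, Sum.elim_inr, Sum.inl.injEq, Sum.inr.injEq,
          reduceCtorEq] at q
      · rw [node_inl h, node_inl h'] at q
        simp only [zero_div, N.start0 _ y.2 h, N.start0 _ z.2 h', Sum.inl.inj q]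
      · simp [node_inl h, hub1] at q
      · simp [node_inl h', hub1] at q
      · simp [hubq r _ (q.trans (hub1 s))]
      · simp [ang, q])
    (by
      intro d d' s t s0 s1 t0 t1 q
      rcases kind d with ⟨y, rfl, h, e⟩ | ⟨r, rfl, e⟩ | ⟨r, rfl, e⟩ <;>
        rcases kind d' with ⟨z, rfl, h', e'⟩ | ⟨r', rfl, e'⟩ | ⟨r', rfl, e'⟩ <;>
        rw [e, e'] at q <;> beta_reduce at q
      · rcases N.inj _ _ _ _ y.2 z.2 ⟨by linarith, by linarith⟩ ⟨by linarith, by linarith⟩ q with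
          ⟨a, b⟩ | ⟨-, b⟩ | a
        · exact .inl ⟨congrArg _ (Subtype.ext a.symm), by linarith⟩
        · linarith
        · have a1 := (vz y _ (by linarith) (by linarith) a).1
          have a2 := (vz z _ (by linarith) (by linarith) (q ▸ a)).1
          rw [a1, a2, N.start0 _ y.2 h, N.start0 _ z.2 h'] at q
          refine .inr ⟨by linarith, by linarith, ?_⟩
          simp only [f, Sum.elim_inl, node_inl h, node_inl h', N.pos_inj q]
      · obtain ⟨u, rfl, -⟩ := ind y _ r' _ (by linarith) (by linarith)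
          (by rw [nr _ _ t0]; linarith) q
        exact absurd h u.2
      · obtain ⟨u, rfl, -⟩ := ind y _ r'.1 _ (by linarith) (by linarith) (ne _).le q
        exact absurd h u.2
      · obtain ⟨u, rfl, -⟩ := ind z _ r _ (by linarith) (by linarith)
          (by rw [nr _ _ s0]; linarith) q.symm
        exact absurd h' u.2
      · obtain ⟨a, b⟩ := two _ _ _ _ (by rw [nr _ _ s0]; linarith) (by rw [nr _ _ t0]; linarith) q
        have st : s = t := by rw [← nr r s s0, b, nr _ _ t0]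
        subst st
        by_cases z : s = 0
        · exact .inr ⟨z, z, by simp only [f, Sum.elim_inl, hub1, a]⟩
        · exact .inl ⟨by rw [pti r r' a (mul_left_cancel₀ (by exact_mod_cast z) b)], rfl⟩
      · obtain ⟨-, b⟩ := two _ _ _ _ (by rw [nr _ _ s0]; linarith) (ne _).le q
        have := nr r s s0
        rw [b, ne] at this
        linarith
      · obtain ⟨u, rfl, -⟩ := ind z _ r.1 _ (by linarith) (by linarith) (ne _).le q.symm
        exact absurd h' u.2
      · obtain ⟨-, b⟩ := two _ _ _ _ (ne _).le (by rw [nr _ _ t0]; linarith) q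
        have := nr r' t t0
        rw [← b, ne] at this
        linarith
      · obtain ⟨a, b⟩ := two _ _ _ _ (ne _).le (ne _).le q
        obtain ⟨a1, a2⟩ := circ θi (fun r => (hn r).2.2.1) (fun r => (hn r).2.2.2.1) a
          (ang1 r s s0 s1).1 (ang1 r s s0 s1).2 (ang1 r' t t0 t1).1.le (ang1 r' t t0 t1).2 b
        obtain ⟨r, β⟩ := r
        obtain ⟨r', β'⟩ := r'
        obtain rfl : r = r' := a1
        have := (hn r).2.1
        cases β <;> cases β' <;>
          simp only [ang, if_true, Bool.false_eq_true, if_false] at a2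
        · exact .inl ⟨rfl, by nlinarith⟩
        · exact .inr ⟨by nlinarith, by nlinarith, rfl⟩
        · exact .inr ⟨by nlinarith, by nlinarith, rfl⟩
        · exact .inl ⟨rfl, by nlinarith⟩)
    (by
      intro d
      have sb : Icc (lo (base d)) (1 / 2) ⊆ Icc 0 1 :=
        Icc_subset_Icc (lo2 _).1 (by norm_num)
      refine ⟨isCompact_Icc.image_of_continuousOn ((N.cont _ (base d).2).mono sb),
        isPreconnected_Icc.image _ ((N.cont _ (base d).2).mono sb), ?_⟩
      have hr : ∀ r : R, N.h (hub r) (pt r) ∈ σ r.1 := fun r =>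
        ⟨0, ⟨(if_neg r.2).le, by norm_num⟩, (pt2 r).symm⟩
      rcases kind d with ⟨y, rfl, h, e⟩ | ⟨r, rfl, e⟩ | ⟨⟨r, _ | _⟩, rfl, e⟩ <;> rw [e]
      · exact ⟨1 / 4, ⟨(if_pos h).le, by norm_num⟩, rfl⟩
      · simpa [base] using hr r
      · have : ang (r, false) 1 = θ r := by simp [ang]; ring
        simp only [this, pt3]
        exact hr r
      · have : ang (r, true) 1 = θ' r := by simp [ang]; ring
        simp only [this, pt4, ← (hn r).1]
        exact hr (nx r))
    (by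
      rintro d d' t t0 t1 ⟨u, ⟨u0, u1⟩, q⟩
      generalize base d' = z at u0 q
      have u2 := (lo2 z).1.trans u0
      rcases kind d with ⟨y, rfl, h, e⟩ | ⟨r, rfl, e⟩ | ⟨r, rfl, e⟩ <;> rw [e] at q <;>
        beta_reduce at q
      · rcases N.inj _ _ _ _ z.2 y.2 ⟨u2, by linarith⟩ ⟨by linarith, by linarith⟩ q with
          ⟨a, b⟩ | ⟨-, b⟩ | a
        · rcases lo1 z with ⟨-, l⟩ | ⟨l, -⟩
          · linarith
          · exact l (a ▸ h)
        · linarith
        · obtain ⟨a1, a2⟩ := vz z _ u2 (by linarith) a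
          rcases lo1 z with ⟨-, l⟩ | ⟨l, -⟩
          · linarith
          · exact l a2
      · obtain ⟨s, -, -, a⟩ := ind z _ r _ u2 (by linarith) (by rw [nr _ _ t0]; linarith) q
        have := nr r t t0
        rw [← a, pt1] at this
        linarith
      · obtain ⟨s, -, a, b⟩ := ind z _ r.1 _ u2 (by linarith) (ne _).le q
        obtain ⟨a1, a2⟩ := circ θi (fun r => (hn r).2.2.1) (fun r => (hn r).2.2.2.1) a.symm
          (ang1 r t t0 t1).1 (ang1 r t t0 t1).2 le_rfl (hn s).2.1 (by rw [pt3, b])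
        have := (ang1 r t t0 t1).1
        rw [a2, a1] at this
        exact lt_irrefl _ this)
    (by
      intro d d'
      simp only [g]
      generalize base d = y
      generalize base d' = z
      rw [gs]
      constructor
      · rintro ⟨_, ⟨u, ⟨u0, u1⟩, rfl⟩, t, ⟨t0, t1⟩, q⟩
        have u2 := (lo2 y).1.trans u0
        rcases N.inj _ _ _ _ y.2 z.2 ⟨u2, by linarith⟩ ⟨(lo2 z).1.trans t0, by linarith⟩ q.symm
          with ⟨a, -⟩ | ⟨a, -⟩ | a
        · exact .inl (Subtype.ext a)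
        · exact .inr (Subtype.ext a)
        · obtain ⟨a1, a2⟩ := vz y _ u2 (by linarith) a
          rcases lo1 y with ⟨-, l⟩ | ⟨l, -⟩
          · linarith
          · exact absurd a2 l
      · rintro (rfl | rfl)
        · exact ⟨_, ⟨1 / 2, ⟨(lo2 _).2, le_rfl⟩, rfl⟩, 1 / 2, ⟨(lo2 _).2, le_rfl⟩, rfl⟩
        · refine ⟨_, ⟨1 / 2, ⟨(lo2 _).2, le_rfl⟩, rfl⟩, 1 / 2, ⟨(lo2 _).2, le_rfl⟩, ?_⟩
          rw [N.rev _ _ y.2]
          norm_num)
  obtain ⟨M, ndM, allM, sM⟩ := pull Sum.inl Sum.inl_injective L₁ nd fun y => all _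
  obtain ⟨ix, ixi, ch, ixt⟩ := ex_pos L₁ nd all
  let p : R → ℕ := fun r => ix (.inl r.1)
  have pi : Injective p := fun x y e => Subtype.ext (Sum.inl.inj (ixi e))
  have loc : ∀ r s, hub r = hub s → r ≠ s → r ≠ nx s → nx r ≠ s → nx r ≠ nx s →
      NA p r (nx r) s (nx s) := by
    intro r s e n1 n2 n3 n4
    have hr := (hn r).1
    have hs := (hn s).1
    have c1 := ch ng (u := .inl r.1) (v := .inr (r, false)) (d := .inl s.1)
      (e := .inr (s, false)) rfl rfl fun q => n1 (gr _ _ e q)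
    have c2 := ch ng (u := .inr (r, true)) (v := .inl (nx r).1) (d := .inl s.1)
      (e := .inr (s, false)) rfl rfl fun q => n3 (gr _ _ (hr.trans e) q)
    have c3 := ch ng (u := .inl r.1) (v := .inr (r, false)) (d := .inr (s, true))
      (e := .inl (nx s).1) rfl rfl fun q => n2 (gr _ _ (e.trans hs.symm) q)
    have c4 := ch ng (u := .inr (r, true)) (v := .inl (nx r).1) (d := .inr (s, true))
      (e := .inl (nx s).1) rfl rfl fun q => n4 (gr _ _ (hr.trans (e.trans hs.symm)) q)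
    have c5 := ch nf (u := .inr (r, false)) (v := .inr (r, true)) (d := .inr (s, false))
      (e := .inr (s, true)) rfl rfl fun q => n1 (Sum.inr.inj q)
    have c6 := ch nf (u := .inl r.1) (v := .inl (nx r).1) (d := .inr (s, false))
      (e := .inr (s, true)) (by simp only [f, Sum.elim_inl, hub1, hr]) rfl Sum.inl_ne_inr
    have c7 := ch nf (u := .inr (r, false)) (v := .inr (r, true)) (d := .inl s.1)
      (e := .inl (nx s).1) rfl (by simp only [f, Sum.elim_inl, hub1, hs]) Sum.inr_ne_inl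
    change NA ix (.inl r.1) (.inl (nx r).1) (.inl s.1) (.inl (nx s).1)
    unfold NA at *
    omega
  refine ⟨M.map Subtype.val, ndM.map Subtype.val_injective, fun x => ⟨fun h => ?_, fun h => ?_⟩,
    NC.map ((nc_pull sM nf).congr fun x _ y _ => by simp [f]),
    NC.map ((nc_pull sM ng).congr fun x _ y _ => ?_), ?_⟩
  · obtain ⟨y, -, rfl⟩ := List.mem_map.1 h
    exact y.2
  · exact List.mem_map.2 ⟨⟨x, h⟩, allM _, rfl⟩
  · simp only [g, base, Sum.elim_inl, id, Sym2.eq_iff, ← Subtype.val_injective.eq_iff (a := x),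
      ← Subtype.val_injective.eq_iff (a := o x)]
    rfl
  · intro i l sl hl a ha a' ha' b hb b' hb' n0 n1 n2 n3 n4 n5
    have ex : ∀ x ∈ l, ∃ r : R, r.1.1 = x ∧ hub r = i := fun x hx => by
      obtain ⟨y, -, rfl⟩ := List.mem_map.1 (sl.subset hx)
      exact ⟨⟨y, ne_zero_of (hl _ hx)⟩, rfl, hubq _ _ (hl _ hx)⟩
    obtain ⟨a, rfl, rfl⟩ := ex a ha
    obtain ⟨a', rfl, e1⟩ := ex a' ha'
    obtain ⟨b, rfl, e2⟩ := ex b hb
    obtain ⟨b', rfl, e3⟩ := ex b' hb'
    have m : ∀ {x y : R}, x.1.1 ≠ y.1.1 → x ≠ y := fun n e => n (e ▸ rfl)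
    have w := wheel hub θ _ nx θ' p pi θi hn loc a a' b b' e1 e2 e3 (m n0) (m n1) (m n2) (m n3)
      (m n4) (m n5)
    have ndl := (ndM.map Subtype.val_injective).sublist sl
    have tr := fun x y : R => ixt l M Subtype.val Sum.inl ndl Subtype.val_injective sl
      sM x.1 y.1
    rw [altO_iff (pw_ne (pw_idx ndl) ha hb n1) (pw_ne (pw_idx ndl) ha' hb n2)
      (pw_ne (pw_idx ndl) ha hb' n3) (pw_ne (pw_idx ndl) ha' hb' n4), tr a b ha hb,
      tr a' b ha' hb, tr a b' ha hb', tr a' b' ha' hb']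
    rw [altO_iff (pi.ne (m n1)) (pi.ne (m n2)) (pi.ne (m n3)) (pi.ne (m n4))] at w
    simpa only [Alt, θ, pt, e1, e2, e3] using w

end NDH

open NDH in
theorem ndh (k1 : K1) (_ : K2) (_ : K4) (ord : OrdSt) (unord : UnordSt) (cd : CDSt) : NDHSt := by
  classical
  rintro k V _ G ⟨N⟩
  obtain ⟨L, nd, mem, n1, n2, alt⟩ := order k1 ord unord N
  refine ⟨N.lab, L, N.ok, nd, mem, n1, n2, fun i => ?_⟩
  set l := L.filter fun x => node N.lab x = .inr (some i) with hl
  have ml : ∀ x, x ∈ l ↔ IsSg G N.lab x ∧ node N.lab x = .inr (some i) := fun x => by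
    simp [hl, mem]
  have hb : ∀ x ∈ l, Used G N.lab i ∧ ∃ b, lb N.lab x = some (i, b) := fun x hx => by
    obtain ⟨a1, a2⟩ := (ml x).1 hx
    obtain ⟨j, b1, b2, b3⟩ := hub_ex a1 (ne_zero_of a2)
    obtain rfl : j = i := by simpa [b1] using a2
    exact ⟨b2, b3⟩
  by_cases U : Used G N.lab i
  · let c : Sg V → Bool := fun x => ((lb N.lab x).map Prod.snd).getD false
    have hc : ∀ x ∈ l, lb N.lab x = some (i, c x) := fun x hx => by
      obtain ⟨-, b, e⟩ := hb x hx
      simp [c, e]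
    have hk : ∀ x ∈ l, kap N.lab x ∈ l ∧ kap N.lab x ≠ x ∧ kap N.lab (kap N.lab x) = x ∧
        c (kap N.lab x) = c x := fun x hx => by
      obtain ⟨a1, a2⟩ := (ml x).1 hx
      obtain ⟨b1, -, b3, b4, b5, b6⟩ := kap_all N.ok a1 (ne_zero_of a2)
      exact ⟨(ml _).2 ⟨b1, b6.trans a2⟩, b3, b4, by simp only [c, b5]⟩
    obtain ⟨A, B, hA, hB, e⟩ := cd (Sg V) l (kap N.lab) c (nd.filter _) hk (fun b => by
        obtain ⟨u, v, h, m⟩ := N.both i b U
        obtain ⟨j, hj, e⟩ := List.getElem_of_mem m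
        have e' : lb N.lab (u, v, j + 1) = some (i, b) := by
          simp [lb, List.getElem?_eq_getElem hj, e]
        exact ⟨(u, v, j + 1), (ml _).2 ⟨⟨h, hj⟩, by rw [node_inr (Nat.succ_ne_zero j), e']; rfl⟩,
          by simp [c, e']⟩)
      fun x hx y hy q1 q2 => by
        obtain ⟨x1, x2, x3, -⟩ := hk x hx
        obtain ⟨y1, y2, y3, -⟩ := hk y hy
        rw [alt i l List.filter_sublist (fun z hz => ((ml z).1 hz).2) x hx _ x1 y hy _ y1 x2.symm
          q1.symm q2.symm (fun q => q2 (by rw [q, y3])) (fun q => q1 (by rw [← y3, ← q, x3]))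
          y2.symm, N.alt x y i ((ml x).1 hx).1 ((ml y).1 hy).1 ((ml x).1 hx).2 ((ml y).1 hy).2
          q1 q2, hc x hx, hc y hy]
        simp
    exact ⟨A, B, fun x hx => by rw [hc x (e.perm.symm.subset (by simp [hx])), hA x hx],
      fun x hx => by rw [hc x (e.perm.symm.subset (by simp [hx])), hB x hx], e⟩
  · have : l = [] := List.eq_nil_iff_forall_not_mem.2 fun x hx => U (hb x hx).1
    exact ⟨[], [], by simp, by simp, by rw [this]; simp⟩

end Pool.Agent.Lib.MP_c1f5fe_lc
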