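import Pool.Agent.Lib.MP_c1f5fe_lc.NearA

/-! Cells of a planar grid that are joined outside the grid are close; coordinates on a disc. -/

namespace Pool.Agent.Lib.MP_c1f5fe_lc

open Function Relation NearA
open Pool.Agent.Lib.MP_50b5c6_lc.Np (Pl)

namespace Near

section rect
variable {V : Type} {H : SimpleGraph V} {X : Set V} {i₀ i₁ m : ℕ} {β : ℕ → ZMod m → Set V}

/-- a rectangle of cells -/
def rect (β : ℕ → ZMod m → Set V) (s : ZMod m) (r₀ r₁ t₀ t₁ : ℕ) : Set V :=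
  run (fun r => run (fun t : ℕ => β r (s + t)) t₀ t₁) r₀ r₁

theorem sub_rect {s : ZMod m} {r₀ r₁ t₀ t₁ r t : ℕ} (a : r₀ ≤ r) (b : r ≤ r₁) (c : t₀ ≤ t)
    (d : t ≤ t₁) : β r (s + t) ⊆ rect β s r₀ r₁ t₀ t₁ :=
  fun _ hv => ⟨r, a, b, t, c, d, hv⟩

theorem hor (g : Grid H X i₀ i₁ β) (s : ZMod m) {r : ℕ} (t : ℕ) (a : i₀ ≤ r) (b : r ≤ i₁) :
    Tch H (β r (s + t)) (β r (s + (t + 1 : ℕ))) := by
  rw [Nat.cast_succ, ← add_assoc]; exact g.hor r _ a b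

theorem cn_rect (g : Grid H X i₀ i₁ β) (s : ZMod m) {r₀ r₁ t₀ t₁ : ℕ} (a : i₀ ≤ r₀) (b : r₀ ≤ r₁)
    (c : r₁ ≤ i₁) (d : t₀ ≤ t₁) : Cn H (rect β s r₀ r₁ t₀ t₁) :=
  cn_run b (fun r h1 h2 => cn_run d (fun _ _ _ => (g.cn r _ (by omega) (by omega)).1)
      fun t _ _ => hor g s t (by omega) (by omega))
    fun r h1 h2 => tch_mono (g.ver r (s + t₀) (by omega) (by omega))
      (sub_run (γ := fun t : ℕ => β r (s + t)) le_rfl d)
      (sub_run (γ := fun t : ℕ => β (r + 1) (s + t)) le_rfl d)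

theorem disj_rect (g : Grid H X i₀ i₁ β) (s : ZMod m) {r₀ r₁ t₀ t₁ r₀' r₁' t₀' t₁' : ℕ}
    (h : i₀ ≤ r₀ ∧ r₁ ≤ i₁ ∧ i₀ ≤ r₀' ∧ r₁' ≤ i₁ ∧ t₁ < m ∧ t₁' < m ∧
      (r₁ < r₀' ∨ r₁' < r₀ ∨ t₁ < t₀' ∨ t₁' < t₀)) :
    Disjoint (rect β s r₀ r₁ t₀ t₁) (rect β s r₀' r₁' t₀' t₁') := by
  rw [Set.disjoint_left]
  rintro v ⟨r, a, b, t, c, d, hv⟩ ⟨r', a', b', t', c', d', hv'⟩
  obtain ⟨e1, e2⟩ := g.disj _ _ _ _ v (by omega) (by omega) (by omega) (by omega) hv hv'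
  have := cast_inj (m := m) (s := t) (t := t') (by omega) (by omega) (add_left_cancel e2)
  omega

theorem disj_ext {E : Set V} (hE : ∀ r l, i₀ ≤ r → r ≤ i₁ → Disjoint E (β r l)) (s : ZMod m)
    {r₀ r₁ t₀ t₁ : ℕ} (h : i₀ ≤ r₀ ∧ r₁ ≤ i₁) : Disjoint E (rect β s r₀ r₁ t₀ t₁) := by
  rw [Set.disjoint_left]
  rintro v hv ⟨r, a, b, t, -, -, hv'⟩
  exact Set.disjoint_left.1 (hE r _ (by omega) (by omega)) hv hv'

theorem tch_hor (g : Grid H X i₀ i₁ β) (s : ZMod m) {r₀ r₁ t₀ t₁ r₀' r₁' t₀' t₁' : ℕ} (r t : ℕ)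
    (h : i₀ ≤ r ∧ r ≤ i₁ ∧ r₀ ≤ r ∧ r ≤ r₁ ∧ r₀' ≤ r ∧ r ≤ r₁' ∧ t₀ ≤ t ∧ t ≤ t₁ ∧ t₀' ≤ t + 1 ∧
      t + 1 ≤ t₁') : Tch H (rect β s r₀ r₁ t₀ t₁) (rect β s r₀' r₁' t₀' t₁') :=
  tch_mono (hor g s (r := r) t (by omega) (by omega))
    (sub_rect (by omega) (by omega) (by omega) (by omega))
    (sub_rect (by omega) (by omega) (by omega) (by omega))

theorem tch_wrap (g : Grid H X i₀ i₁ β) (s : ZMod m) {r₀ r₁ t₀ t₁ r₀' r₁' t₁' : ℕ} (r : ℕ)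
    (h : i₀ ≤ r ∧ r ≤ i₁ ∧ r₀ ≤ r ∧ r ≤ r₁ ∧ r₀' ≤ r ∧ r ≤ r₁' ∧ t₀ ≤ t₁ ∧ t₁ + 1 = m) :
    Tch H (rect β s r₀' r₁' 0 t₁') (rect β s r₀ r₁ t₀ t₁) := by
  have e := hor g s (r := r) t₁ (by omega) (by omega)
  rw [h.2.2.2.2.2.2.2, ZMod.natCast_self, ← Nat.cast_zero] at e
  exact tch_symm (tch_mono e (sub_rect (by omega) (by omega) (by omega) (by omega))
    (sub_rect (by omega) (by omega) (by omega) (by omega)))

theorem tch_ver (g : Grid H X i₀ i₁ β) (s : ZMod m) {r₀ r₁ t₀ t₁ r₀' r₁' t₀' t₁' : ℕ} (r t : ℕ)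
    (h : i₀ ≤ r ∧ r < i₁ ∧ r₀ ≤ r ∧ r ≤ r₁ ∧ r₀' ≤ r + 1 ∧ r + 1 ≤ r₁' ∧ t₀ ≤ t ∧ t ≤ t₁ ∧
      t₀' ≤ t ∧ t ≤ t₁') : Tch H (rect β s r₀ r₁ t₀ t₁) (rect β s r₀' r₁' t₀' t₁') :=
  tch_mono (g.ver r (s + t) (by omega) (by omega))
    (sub_rect (by omega) (by omega) (by omega) (by omega))
    (sub_rect (by omega) (by omega) (by omega) (by omega))

theorem tch_l {A B C : Set V} (h : Tch H A C) : Tch H (A ∪ B) C :=
  tch_mono h Set.subset_union_left subset_rfl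

theorem tch_r {A B C : Set V} (h : Tch H B C) : Tch H (A ∪ B) C :=
  tch_mono h Set.subset_union_right subset_rfl

/-- the cell `i j`, enlarged by `E`, touches the cell `i' j'` -/
structure Lk (H : SimpleGraph V) (i₀ i₁ : ℕ) (β : ℕ → ZMod m → Set V) (i : ℕ) (j : ZMod m)
    (i' : ℕ) (j' : ZMod m) (E : Set V) : Prop where
  dj : ∀ r l, i₀ ≤ r → r ≤ i₁ → Disjoint E (β r l)
  cn : Cn H (β i j ∪ E)
  tch : Tch H (β i j ∪ E) (β i' j')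

theorem far (N : NonPl) (hm : 4 ≤ m) (P : Pl H.Adj) (g : Grid H X i₀ i₁ β) {i i' : ℕ}
    {j j' : ZMod m} {E : Set V} (a : i₀ ≤ i) (b : i' ≤ i₁) (L : Lk H i₀ i₁ β i j i' j' E) :
    i' ≤ i + 1 := by
  by_contra hh
  obtain ⟨t, ht, rfl⟩ := exists_off (m := m) (by omega) j j'
  have sb : β i j ⊆ rect β j i i 0 (m - 1) := by
    simpa using sub_rect (β := β) (s := j) (r := i) (t := 0) le_rfl le_rfl le_rfl (Nat.zero_le (m - 1))
  obtain ⟨u, hu⟩ := (g.cn i j a (by omega)).1.1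
  have c0 : Cn H (rect β j i i 0 (m - 1) ∪ E) := by
    have := cn_union' (cn_rect g j (t₀ := 0) (t₁ := m - 1) a le_rfl (by omega) (by omega)) L.cn
      (sb hu) (.inl hu)
    rwa [← Set.union_assoc, Set.union_eq_self_of_subset_right sb] at this
  refine k5 N P c0 (cn_rect g j (r₀ := i + 2) (r₁ := i₁) (t₀ := 0) (t₁ := m - 1) ?_ ?_ ?_ ?_)
    (cn_rect g j (r₀ := i + 1) (r₁ := i + 1) (t₀ := 0) (t₁ := 0) ?_ ?_ ?_ ?_)
    (cn_rect g j (r₀ := i + 1) (r₁ := i + 1) (t₀ := 1) (t₁ := 1) ?_ ?_ ?_ ?_)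
    (cn_rect g j (r₀ := i + 1) (r₁ := i + 1) (t₀ := 2) (t₁ := m - 1) ?_ ?_ ?_ ?_) ?_ ?_
  any_goals omega
  · simp only [Set.disjoint_union_left]
    refine ⟨⟨?_, ?_⟩, ⟨?_, ?_⟩, ⟨?_, ?_⟩, ⟨?_, ?_⟩, ?_, ?_, ?_, ?_, ?_, ?_⟩ <;>
      first | exact disj_rect g j (by omega) | exact disj_ext L.dj j (by omega)
  · refine ⟨tch_mono L.tch (Set.union_subset_union_left _ sb)
        (sub_rect (by omega) b (by omega) (by omega)),
      tch_l (tch_ver g j i 0 (by omega)), tch_l (tch_ver g j i 1 (by omega)),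
      tch_l (tch_ver g j i 2 (by omega)), tch_symm (tch_ver g j (i + 1) 0 (by omega)),
      tch_symm (tch_ver g j (i + 1) 1 (by omega)), tch_symm (tch_ver g j (i + 1) 2 (by omega)),
      tch_hor g j (i + 1) 0 (by omega), tch_wrap g j (i + 1) (by omega),
      tch_hor g j (i + 1) 1 (by omega)⟩

theorem close (N : NonPl) (hm : 4 ≤ m) (P : Pl H.Adj) (g : Grid H X i₀ i₁ β) {i i' : ℕ}
    {j j' : ZMod m} {E : Set V} (a : i₀ < i) (b : i < i₁) (c : i ≤ i' + 1) (d : i' ≤ i + 1)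
    (L : Lk H i₀ i₁ β i j i' j' E) : j' = j ∨ j' = j + 1 ∨ j = j' + 1 := by
  obtain ⟨s, rfl⟩ : ∃ s : ZMod m, j = s + (1 : ℕ) := ⟨j - 1, by simp⟩
  obtain ⟨t, ht, rfl⟩ := exists_off (m := m) (by omega) s j'
  obtain ⟨i, rfl⟩ : ∃ k, i = k + 1 := ⟨i - 1, by omega⟩
  by_contra hh
  have h3 : 3 ≤ t := by
    by_contra h
    have : t = 0 ∨ t = 1 ∨ t = 2 := by omega
    rcases this with rfl | rfl | rfl
    · exact hh (.inr (.inr (by simp)))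
    · exact hh (.inl rfl)
    · exact hh (.inr (.inl (by push_cast; ring)))
  have eq : rect β s (i + 1) (i + 1) 1 1 = β (i + 1) (s + (1 : ℕ)) := by
    refine Set.Subset.antisymm ?_ (sub_rect le_rfl le_rfl le_rfl le_rfl)
    rintro v ⟨r, h1, h2, t, h3, h4, hv⟩
    rwa [le_antisymm h2 h1, le_antisymm h4 h3] at hv
  have c0 : Cn H (rect β s (i + 1) (i + 1) 1 1 ∪ E) := by rw [eq]; exact L.cn
  have c1 : Cn H (rect β s (i + 1) (i + 2) 0 0 ∪ rect β s (i + 2) (i + 2) 1 1) :=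
    cn_union (cn_rect g s (by omega) (by omega) (by omega) le_rfl)
      (cn_rect g s (by omega) (by omega) (by omega) le_rfl) (tch_hor g s (i + 2) 0 (by omega))
  refine k5 N P c0 c1
    (cn_rect g s (r₀ := i + 1) (r₁ := i + 2) (t₀ := 2) (t₁ := 2) ?_ ?_ ?_ ?_)
    (cn_rect g s (r₀ := i) (r₁ := i) (t₀ := 0) (t₁ := 2) ?_ ?_ ?_ ?_)
    (cn_rect g s (r₀ := i) (r₁ := i + 2) (t₀ := 3) (t₁ := m - 1) ?_ ?_ ?_ ?_) ?_ ?_
  any_goals omega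
  · simp only [Set.disjoint_union_left, Set.disjoint_union_right]
    refine ⟨⟨⟨?_, ?_⟩, ?_, ?_⟩, ⟨?_, ?_⟩, ⟨?_, ?_⟩, ⟨?_, ?_⟩, ⟨?_, ?_⟩, ⟨?_, ?_⟩, ⟨?_, ?_⟩, ?_, ?_,
      ?_⟩ <;> first | exact disj_rect g s (by omega) | exact disj_ext L.dj s (by omega)
  · refine ⟨tch_l (tch_symm (tch_l (tch_hor g s (i + 1) 0 (by omega)))),
      tch_l (tch_hor g s (i + 1) 1 (by omega)), tch_l (tch_symm (tch_ver g s i 1 (by omega))), ?_,
      tch_r (tch_hor g s (i + 2) 1 (by omega)), tch_l (tch_symm (tch_ver g s i 0 (by omega))),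
      tch_l (tch_wrap g s (i + 1) (by omega)), tch_symm (tch_ver g s i 2 (by omega)),
      tch_hor g s (i + 1) 2 (by omega), tch_hor g s i 2 (by omega)⟩
    rw [eq]
    exact tch_mono L.tch subset_rfl (sub_rect (by omega) (by omega) h3 (by omega))

theorem lk (g : Grid H X i₀ i₁ β) {i i' : ℕ} {j j' : ZMod m} (a : i₀ ≤ i) (b : i ≤ i₁)
    (h : Tch H (β i j) (β i' j') ∨ ∃ W, Cn H W ∧
      (∀ r l, i₀ ≤ r → r ≤ i₁ → Disjoint W (β r l)) ∧ Tch H W (β i j) ∧ Tch H W (β i' j')) :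
    ∃ E, Lk H i₀ i₁ β i j i' j' E := by
  rcases h with h | ⟨W, c, d, t, t'⟩
  · exact ⟨∅, fun _ _ _ _ => Set.empty_disjoint _, by simpa using (g.cn i j a b).1, tch_l h⟩
  · exact ⟨W, d, cn_union (g.cn i j a b).1 c (tch_symm t), tch_r t'⟩

end rect

end Near

open Near

theorem near (N : NonPl) : NearSt := by
  intro V H X i₀ i₁ m β i i' j j' hm P g a b a' b' h
  obtain ⟨E, L⟩ := lk g a b h
  obtain ⟨E', L'⟩ := lk g (i' := i) (j := j') (j' := j) a' b'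
    (h.imp tch_symm fun ⟨W, c, d, t, t'⟩ => ⟨W, c, d, t', t⟩)
  have h1 := far N hm P g a b' L
  have h2 := far N hm P g a' b L'
  exact ⟨h2, h1, fun x y => close N hm P g x y h2 h1 L⟩

theorem cover (N : NearSt) : CoverSt := by
  classical
  intro a n m R V D _ _ G Z F β hm hR P C
  have g := C.grid
  have cT : Cn G (F.Zc (a + n)) := zc_cn F (by omega)
  refine ⟨cT, zc_sub F _, ?_⟩
  have gH : Grid (rst G Z) Z a (a + n + 1) β :=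
    ⟨fun i j x y => ⟨cn_rst (g.cn i j x y).1 (g.cn i j x y).2, (g.cn i j x y).2⟩, g.disj,
      fun i j x y => tch_rst (g.hor i j x y) (g.cn _ _ x y).2 (g.cn _ _ x y).2,
      fun i j x y => tch_rst (g.ver i j x y) (g.cn _ _ x y.le).2 (g.cn _ _ (by omega) y).2⟩
  set T := F.Zc (a + n) with hT
  have sT : T ⊆ Z := zc_sub F _
  let Ce : Set V := {v | ∃ r j, a ≤ r ∧ r ≤ a + n + 1 ∧ v ∈ β r j}
  let rel : V → V → Prop := fun x y => G.Adj x y ∧ x ∈ T \ Ce ∧ y ∈ T \ Ce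
  let K : V → Set V := fun v => {y | ReflTransGen rel v y}
  have row : ∀ r j v, a ≤ r → r ≤ a + n + 1 → v ∈ β r j → v ∈ T → r ≤ a + n := by
    intro r j v x y hv ht
    by_contra h
    have e : r = a + n + 1 := by omega
    subst e
    exact (C.lev _ j v x y hv).2 (by omega) ht
  have cellT : ∀ r j, a ≤ r → r ≤ a + n → β r j ⊆ T := fun r j x y v hv =>
    zc_mono F y (by omega) (C.lev r j v x (by omega) hv).1
  have Ksub : ∀ v ∈ T \ Ce, K v ⊆ T \ Ce := by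
    intro v hv y hy
    induction hy with
    | refl => exact hv
    | tail _ e _ => exact e.2.2
  have Kcn : ∀ v ∈ T \ Ce, Cn G (K v) := by
    intro v hv
    refine cn_of_root (a := v) .refl fun y hy => ?_
    induction hy with
    | refl => exact .refl
    | tail p e ih => exact ih.tail ⟨e.1, p, p.tail e⟩
  have Keq : ∀ u v, v ∈ K u → K v = K u := fun u v h =>
    Set.Subset.antisymm (fun y hy => ReflTransGen.trans h hy)
      fun y hy => ReflTransGen.trans (rtg_symm (G := G) h) hy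
  have Ktch : ∀ v ∈ T \ Ce, ∃ p : ℕ × ZMod m, a ≤ p.1 ∧ p.1 ≤ a + n ∧ Tch G (K v) (β p.1 p.2) := by
    intro v hv
    obtain ⟨j, hj⟩ := C.ring (a + n) 0 (by omega) (by omega)
    have p := cT.2 v hv.1 _ (ring_mem F (r := a + n) (by omega) 0)
    induction p using ReflTransGen.head_induction_on with
    | refl => exact absurd ⟨_, j, by omega, by omega, hj⟩ hv.2
    | @head x y e _ ih =>
      by_cases hy : y ∈ Ce
      · obtain ⟨r, l, h1, h2, h3⟩ := hy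
        exact ⟨(r, l), h1, row r l y h1 h2 h3 e.2.2, x, .refl, y, h3, e.1⟩
      · have := ih ⟨e.2.2, hy⟩
        rwa [Keq x y (.single ⟨e.1, hv, e.2.2, hy⟩)] at this
  have h1 : ∀ S : Set V, ∃ p : ℕ × ZMod m,
      (∃ p : ℕ × ZMod m, a ≤ p.1 ∧ p.1 ≤ a + n ∧ Tch G S (β p.1 p.2)) →
        a ≤ p.1 ∧ p.1 ≤ a + n ∧ Tch G S (β p.1 p.2) := by
    intro S
    by_cases h : ∃ p : ℕ × ZMod m, a ≤ p.1 ∧ p.1 ≤ a + n ∧ Tch G S (β p.1 p.2)
    · obtain ⟨p, hp⟩ := h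
      exact ⟨p, fun _ => hp⟩
    · exact ⟨(0, 0), fun h' => absurd h' h⟩
  choose f hf using h1
  have h2 : ∀ v : V, ∃ p : ℕ × ZMod m, (v ∈ Ce → a ≤ p.1 ∧ p.1 ≤ a + n + 1 ∧ v ∈ β p.1 p.2) ∧
      (v ∉ Ce → p = f (K v)) := by
    intro v
    by_cases h : v ∈ Ce
    · obtain ⟨r, j, hp⟩ := id h
      exact ⟨(r, j), fun _ => hp, fun h' => absurd h h'⟩
    · exact ⟨_, fun h' => absurd h' h, fun _ => rfl⟩
  choose asg hc hk using h2
  have spec : ∀ v ∈ T, a ≤ (asg v).1 ∧ (asg v).1 ≤ a + n ∧ (v ∈ β (asg v).1 (asg v).2 ∨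
      (v ∉ Ce ∧ Tch G (K v) (β (asg v).1 (asg v).2))) := by
    intro v hv
    by_cases h : v ∈ Ce
    · obtain ⟨x, y, z⟩ := hc v h
      exact ⟨x, row _ _ v x y z hv, .inl z⟩
    · obtain ⟨x, y, z⟩ := hf _ (Ktch v ⟨hv, h⟩)
      rw [hk v h]
      exact ⟨x, y, .inr ⟨h, z⟩⟩
  have asg_cell : ∀ r j v, a ≤ r → r ≤ a + n + 1 → v ∈ β r j → asg v = (r, j) := by
    intro r j v x y hv
    obtain ⟨x', y', z⟩ := hc v ⟨r, j, x, y, hv⟩
    obtain ⟨e1, e2⟩ := g.disj _ _ _ _ v x' y' x y z hv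
    exact Prod.ext e1 e2
  have asg_K : ∀ v ∈ T \ Ce, ∀ y ∈ K v, asg y = asg v := fun v hv y hy => by
    rw [hk v hv.2, hk y (Ksub v hv hy).2, Keq v y hy]
  have viaK : ∀ v ∈ T \ Ce, ∀ (i i' : ℕ) (j j' : ZMod m), a ≤ i → i ≤ a + n → a ≤ i' →
      i' ≤ a + n → Tch G (K v) (β i j) → Tch G (K v) (β i' j') →
      ∃ W, Cn (rst G Z) W ∧ (∀ r l, a ≤ r → r ≤ a + n + 1 → Disjoint W (β r l)) ∧
        Tch (rst G Z) W (β i j) ∧ Tch (rst G Z) W (β i' j') := by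
    intro v hv i i' j j' x y x' y' t t'
    have s : K v ⊆ Z := fun z hz => sT (Ksub v hv hz).1
    exact ⟨K v, cn_rst (Kcn v hv) s, fun r l p q => Set.disjoint_left.2 fun z hz hb =>
      (Ksub v hv hz).2 ⟨r, l, p, q, hb⟩, tch_rst t s (g.cn _ _ x (by omega)).2,
      tch_rst t' s (g.cn _ _ x' (by omega)).2⟩
  have key : ∀ u ∈ T, ∀ v ∈ T, G.Adj u v → (asg u).1 ≤ (asg v).1 + 1 ∧
      (asg v).1 ≤ (asg u).1 + 1 ∧ (a < (asg u).1 → (asg u).1 < a + n + 1 →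
        (asg v).2 = (asg u).2 ∨ (asg v).2 = (asg u).2 + 1 ∨ (asg u).2 = (asg v).2 + 1) := by
    intro u hu v hv e
    obtain ⟨x, y, z⟩ := spec u hu
    obtain ⟨x', y', z'⟩ := spec v hv
    refine N V (rst G Z) Z a (a + n + 1) m β _ _ _ _ hm P gH x (by omega) x' (by omega) ?_
    rcases z with z | ⟨z, t⟩ <;> rcases z' with z' | ⟨z', t'⟩
    · exact .inl ⟨u, z, v, z', e, sT hu, sT hv⟩
    · exact .inr (viaK v ⟨hv, z'⟩ _ _ _ _ x y x' y' ⟨v, .refl, u, z, e.symm⟩ t')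
    · exact .inr (viaK u ⟨hu, z⟩ _ _ _ _ x y x' y' t ⟨u, .refl, v, z', e⟩)
    · rw [Keq u v (.single ⟨e, ⟨hu, z⟩, hv, z'⟩)] at t'
      exact .inr (viaK u ⟨hu, z⟩ _ _ _ _ x y x' y' t t')
  have lift : ∀ (A : Set V) (S : Set T), (∀ x ∈ A, ∃ h : x ∈ T, (⟨x, h⟩ : T) ∈ S) →
      ∀ (x y : T), x.1 ∈ A → ReflTransGen (fun p q => G.Adj p q ∧ p ∈ A ∧ q ∈ A) x.1 y.1 →
      ReflTransGen (fun p q => (G.induce T).Adj p q ∧ p ∈ S ∧ q ∈ S) x y := by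
    rintro A S hS x ⟨y, hy⟩ hx p
    dsimp only at p
    induction p with
    | refl => exact .refl
    | tail _ e ih =>
      obtain ⟨h1, s1⟩ := hS _ e.2.1
      obtain ⟨h2, s2⟩ := hS _ e.2.2
      exact (ih h1).tail ⟨e.1, s1, s2⟩
  refine ⟨fun v => (asg v.1).1 - a, fun v => (asg v.1).2, ⟨?_, ?_, ?_, ?_, ?_⟩, ?_, ?_⟩
  · intro u v e
    have := (key u.1 u.2 v.1 v.2 e).1
    omega
  · intro u v e h1 h2 _ _
    exact (key u.1 u.2 v.1 v.2 e).2.2 (by omega) (by omega)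
  · intro i j h1 h2
    have cb := (g.cn (a + i) j (by omega) (by omega)).1
    obtain ⟨u, hu⟩ := cb.1
    have inS : ∀ x ∈ β (a + i) j, ∃ h : x ∈ T,
        (⟨x, h⟩ : T) ∈ {v : T | (asg v.1).1 - a = i ∧ (asg v.1).2 = j} := fun x hx =>
      ⟨cellT _ j (by omega) (by omega) hx, by
        simp [asg_cell _ j x (by omega) (by omega) hx]⟩
    obtain ⟨uT, uS⟩ := inS u hu
    refine cn_of_root uS ?_
    rintro v ⟨e1, e2⟩
    obtain ⟨x, y, z⟩ := spec v.1 v.2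
    rw [e2, show (asg v.1).1 = a + i by omega] at z
    rcases z with z | ⟨z, p, hp, q, hq, e⟩
    · exact lift _ _ inS ⟨u, uT⟩ v hu (cb.2 u hu _ z)
    · obtain ⟨qT, qS⟩ := inS q hq
      have inK : ∀ x ∈ K v.1, ∃ h : x ∈ T,
          (⟨x, h⟩ : T) ∈ {v : T | (asg v.1).1 - a = i ∧ (asg v.1).2 = j} := fun x hx =>
        ⟨(Ksub _ ⟨v.2, z⟩ hx).1, by
          simp only [Set.mem_ofPred_eq, asg_K _ ⟨v.2, z⟩ x hx]; exact ⟨e1, e2⟩⟩
      obtain ⟨pT, pS⟩ := inK p hp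
      have e' : (G.induce T).Adj ⟨q, qT⟩ ⟨p, pT⟩ := e.symm
      exact ((lift _ _ inS ⟨u, uT⟩ ⟨q, qT⟩ hu (cb.2 u hu _ hq)).tail ⟨e', qS, pS⟩).trans
        (lift _ _ inK ⟨p, pT⟩ v hp ((Kcn _ ⟨v.2, z⟩).2 p hp _ .refl))
  · intro i j h1 h2
    obtain ⟨u, hu, v, hv, e⟩ := g.hor (a + i) j (by omega) (by omega)
    refine ⟨⟨u, cellT _ _ (by omega) (by omega) hu⟩, ⟨v, cellT _ _ (by omega) (by omega) hv⟩, e, ?_⟩
    simp [asg_cell _ _ u (by omega) (by omega) hu, asg_cell _ _ v (by omega) (by omega) hv]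
  · intro i j h1 h2
    obtain ⟨u, hu, v, hv, e⟩ := g.ver (a + i) j (by omega) (by omega)
    refine ⟨⟨u, cellT _ _ (by omega) (by omega) hu⟩, ⟨v, cellT _ _ (by omega) (by omega) hv⟩, e, ?_⟩
    simp only [asg_cell _ _ u (by omega) (by omega) hu, asg_cell _ _ v (by omega) (by omega) hv]
    refine ⟨by omega, trivial, by omega, trivial⟩
  · intro v
    have := (spec v.1 v.2).2.1
    show (asg v.1).1 - a ≤ n
    omega
  · rintro v ⟨u, hu, e⟩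
    have hr : v.1 ∈ Set.range (F.c (a + n)) := by
      by_contra h
      exact hu (inner F (by omega) v.2 h e (nb_mem F (by omega) v.2 e))
    obtain ⟨i, hi⟩ := hr
    obtain ⟨j, hj⟩ := C.ring (a + n) i (by omega) (by omega)
    rw [hi] at hj
    simp [asg_cell _ _ _ (by omega) (by omega) hj]

end Pool.Agent.Lib.MP_c1f5fe_lc
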