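import Pool.Agent.Lib.MP_c1f5fe_lc.NetB
import Pool.Agent.Lib.MP_c1f5fe_lc.Tb

/-! A large map with a tangle has many far apart vertices with small balls. -/

namespace Pool.Agent.Lib.MP_c1f5fe_lc

open Equiv Function Relation

namespace Net

variable {D : Type} (M : HMap D)

def sN (d : D) : M.Node := M.rv (M.φ d)

def tN (d : D) : M.Node := M.rf (M.φ d)

def ed (d : D) : Quotient (Perm.SameCycle.setoid M.α) := Quotient.mk _ d

theorem rv_eq {d e : D} (h : M.σ.SameCycle d e) : M.rv d = M.rv e :=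
  congrArg Sum.inl (Quotient.sound h)

theorem rf_eq {d e : D} (h : M.φ.SameCycle d e) : M.rf d = M.rf e :=
  congrArg Sum.inr (Quotient.sound h)

theorem ed_α (d : D) : ed M (M.α d) = ed M d :=
  Quotient.sound (Perm.SameCycle.refl _ _).apply_left

theorem ed_eq [Finite D] {d e : D} (h : ed M d = ed M e) : e = d ∨ e = M.α d := by
  have := sc_inv (π := M.α) (f := fun x => x = d ∨ x = M.α d) (fun x => by
    apply propext
    constructor
    · rintro (k | k)
      · right; rw [← k, M.αα]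
      · left; exact M.α.injective k
    · rintro (k | k)
      · right; rw [k]
      · left; rw [k, M.αα]) (Quotient.exact h : M.α.SameCycle d e)
  exact this ▸ Or.inl rfl

theorem adj_vf (d : D) : M.rg.Adj (M.rv d) (M.rf d) :=
  (SimpleGraph.fromRel_adj _ _ _).2 ⟨by simp [HMap.rv, HMap.rf], Or.inl ⟨d, rfl, rfl⟩⟩

theorem adj_ex (a b : M.Node) (h : M.rg.Adj a b) :
    ∃ d, (sN M d = a ∧ tN M d = b) ∨ (sN M d = b ∧ tN M d = a) := by
  rcases ((SimpleGraph.fromRel_adj _ _ _).1 h).2 with ⟨d, e, f⟩ | ⟨d, e, f⟩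
  · exact ⟨M.φ⁻¹ d, Or.inl ⟨by simp [sN, e], by simp [tN, f]⟩⟩
  · exact ⟨M.φ⁻¹ d, Or.inr ⟨by simp [sN, e], by simp [tN, f]⟩⟩

theorem node_ex (n : M.Node) : ∃ d, n = M.rv d ∨ n = M.rf d := by
  rcases n with q | q
  · induction q using Quotient.inductionOn with
    | h d => exact ⟨d, Or.inl rfl⟩
  · induction q using Quotient.inductionOn with
    | h d => exact ⟨d, Or.inr rfl⟩

theorem con_inv {B : Type} (hc : M.Con) {g : D → B} (h1 : ∀ d, g (M.φ d) = g d)
    (h2 : ∀ d, g (M.α d) = g d) (d e : D) : g d = g e := by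
  induction hc d e with
  | rel x y k => rcases k with rfl | rfl <;> simp [h1, h2]
  | refl => rfl
  | symm _ _ _ ih => exact ih.symm
  | trans _ _ _ _ _ a b => exact a.trans b

theorem rg_con [Nonempty D] (hc : M.Con) : M.rg.Connected := by
  have a : ∀ d, M.rg.connectedComponentMk (M.rv d) = M.rg.connectedComponentMk (M.rf d) :=
    fun d => SimpleGraph.ConnectedComponent.connectedComponentMk_eq_of_adj (adj_vf M d)
  have b := con_inv M hc (g := fun d => M.rg.connectedComponentMk (M.rf d))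
    (fun d => by rw [rf_eq M (Perm.SameCycle.refl M.φ d).apply_left]) (fun d => by
      have e : M.rv (M.φ (M.α d)) = M.rv d :=
        rv_eq M (Perm.SameCycle.refl M.σ d).apply_left
      rw [← a d, ← e, a, rf_eq M (Perm.SameCycle.refl M.φ (M.α d)).apply_left])
  have : Nonempty M.Node := ⟨M.rv (Classical.arbitrary D)⟩
  refine ⟨fun x y => SimpleGraph.ConnectedComponent.exact ?_⟩
  obtain ⟨d, rfl | rfl⟩ := node_ex M x <;> obtain ⟨e, rfl | rfl⟩ := node_ex M y
  · rw [a, a]; exact b d e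
  · rw [a]; exact b d e
  · rw [a]; exact b d e
  · exact b d e

theorem pairN [Finite D] {π : D → Prop} (hα : ∀ d, π (M.α d) ↔ π d) (d : D) (n : M.Node)
    (h : ¬(π d ↔ π (M.φ d))) (k : sN M d = n ∨ tN M d = n) :
    ∃ d', d' ≠ d ∧ ¬(π d' ↔ π (M.φ d')) ∧ (sN M d' = n ∨ tN M d' = n) := by
  rcases k with k | k
  · have e : M.σ (M.α d) = M.φ d := by rw [M.σ_apply, M.αα]
    obtain ⟨x, x1, x2, x3⟩ := pair M.σ π (M.α d) (by rw [e, hα]; exact h)
    refine ⟨M.α x, fun f => x1 (by rw [← f, M.αα]), by rw [hα]; exact x3, Or.inl ?_⟩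
    rw [← k, sN, sN, ← e, ← M.σ_apply]
    exact rv_eq M x2.symm.apply_left.apply_right
  · obtain ⟨x, x1, x2, x3⟩ := pair M.φ π d h
    refine ⟨x, x1, x3, Or.inr ?_⟩
    rw [← k]
    exact rf_eq M x2.symm.apply_left.apply_right

def med (K : D → Prop) : SimpleGraph (Quotient (Perm.SameCycle.setoid M.α)) :=
  SimpleGraph.fromRel fun a b => ∃ d, K d ∧ a = ed M d ∧ b = ed M (M.φ d)

theorem med_deg [Finite D] (K : D → Prop) (v : Quotient (Perm.SameCycle.setoid M.α)) :
    ((med M K).neighborSet v).ncard ≤ 4 := by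
  induction v using Quotient.inductionOn with
  | h d =>
    have : (med M K).neighborSet (ed M d) ⊆
        {ed M (M.φ d), ed M (M.φ (M.α d)), ed M (M.φ⁻¹ d), ed M (M.φ⁻¹ (M.α d))} := by
      intro u hu
      have hu' : (med M K).Adj (ed M d) u := hu
      rcases ((SimpleGraph.fromRel_adj _ _ _).1 hu').2 with ⟨x, -, e, f⟩ | ⟨x, -, e, f⟩
      · rcases ed_eq M e with rfl | rfl <;> simp [f]
      · rcases ed_eq M f with g | g
        · rw [e, ← g]; simp
        · rw [e, ← g]; simp
    refine (Set.ncard_le_ncard this).trans ?_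
    refine (Set.ncard_insert_le _ _).trans (Nat.succ_le_succ ?_)
    refine (Set.ncard_insert_le _ _).trans (Nat.succ_le_succ ?_)
    refine (Set.ncard_insert_le _ _).trans (Nat.succ_le_succ ?_)
    simp

theorem ed_le [Finite D] (P : Set (Quotient (Perm.SameCycle.setoid M.α))) (π : D → Prop)
    (h : ∀ d, ed M d ∈ P → π d) : P.ncard ≤ Nat.card {d // π d} := by
  rw [show Nat.card {d // π d} = {d | π d}.ncard from rfl]
  refine le_trans (Set.ncard_le_ncard fun v hv => ?_) (Set.ncard_image_le (f := ed M))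
  induction v using Quotient.inductionOn with
  | h d => exact ⟨d, h d hv, rfl⟩

theorem core (h1 : K1) (hp : PartSt) [Finite D] {g θ c L : ℕ} (hc : M.Con) (hg : M.eg ≤ g)
    (ht : M.Tg θ c) (hθ : 6 * L + 3 ≤ θ) (C : Set M.Node)
    (hC : ∀ n, n ∈ rn (sN M) (tN M) (fun _ => True) C L) :
    Nat.card D ≤ 12 * (c + 1) * (C.ncard + g + 1) := by
  classical
  have hDW : Nat.card D ≤ 2 * Nat.card (Quotient (Perm.SameCycle.setoid M.α)) := by
    have := cover (fun v : Quotient (Perm.SameCycle.setoid M.α) => {d | ed M d = v}) 2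
      (Set.toFinite Set.univ) Set.univ (fun x _ => ⟨_, trivial, rfl⟩) fun v _ => by
        induction v using Quotient.inductionOn with
        | h d =>
          refine le_trans (Set.ncard_le_ncard (t := {d, M.α d}) fun x hx => ed_eq M hx.symm) ?_
          exact (Set.ncard_insert_le _ _).trans (by simp)
    rw [Set.ncard_univ, Set.ncard_univ] at this
    omega
  by_cases hN : Nat.card (Quotient (Perm.SameCycle.setoid M.α)) < c + 1
  · nlinarith [Nat.zero_le (C.ncard + g)]
  have hne : Nonempty D := by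
    have : Nonempty (Quotient (Perm.SameCycle.setoid M.α)) :=
      (Nat.card_pos_iff.1 (by omega)).1
    obtain ⟨v⟩ := this
    induction v using Quotient.inductionOn with
    | h d => exact ⟨d⟩
  obtain ⟨lev, f, par, F⟩ := forest_ex (sN M) (tN M) (fun _ => True) C fun n => ⟨L, hC n⟩
  have hL : ∀ n, lev n ≤ L := fun n => F.le n L (hC n)
  set Fs := f '' {w | lev w ≠ 0} with hFs
  have cnt : ∀ π : D → Prop, (∀ d, π (M.α d) ↔ π d) →
      {d | ¬(π d ↔ π (M.φ d))}.ncard ≤ {d | ¬(π d ↔ π (M.φ d)) ∧ d ∉ Fs}.ncard * (2 * L + 1) :=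
    fun π hα => F.count hL (pairN M hα)
  let Γ := med M fun d => d ∉ Fs
  have hΓ : Γ.Connected := by
    have : Nonempty (Quotient (Perm.SameCycle.setoid M.α)) := ⟨ed M (Classical.arbitrary D)⟩
    refine ⟨fun x y => ?_⟩
    have a := cnt (fun d => Γ.Reachable x (ed M d)) fun d => by rw [ed_α]
    have b : {d | ¬(Γ.Reachable x (ed M d) ↔ Γ.Reachable x (ed M (M.φ d))) ∧ d ∉ Fs} = ∅ := by
      refine Set.eq_empty_of_forall_notMem fun d hd => hd.1 ?_
      by_cases e : ed M d = ed M (M.φ d)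
      · rw [← e]
      · have j : Γ.Adj (ed M d) (ed M (M.φ d)) :=
          (SimpleGraph.fromRel_adj _ _ _).2 ⟨e, Or.inl ⟨d, hd.2, rfl, rfl⟩⟩
        exact ⟨fun r => r.trans j.reachable, fun r => r.trans j.symm.reachable⟩
    rw [b, Set.ncard_empty, zero_mul, Nat.le_zero, Set.ncard_eq_zero] at a
    have k := con_inv M hc (g := fun d => Γ.Reachable x (ed M d)) (fun d => by
      apply propext
      by_contra l
      have : d ∈ ({d | ¬(Γ.Reachable x (ed M d) ↔ Γ.Reachable x (ed M (M.φ d)))} : Set D) :=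
        fun m => l m.symm
      rw [a] at this
      exact this) fun d => by rw [ed_α]
    induction x using Quotient.inductionOn with
    | h d =>
      induction y using Quotient.inductionOn with
      | h e => exact (k d e).mp (SimpleGraph.Reachable.refl _)
  obtain ⟨p, hP⟩ := hp _ Γ (c + 1) hΓ (med_deg M _) (by omega) (by omega)
  have hW : Nat.card (Quotient (Perm.SameCycle.setoid M.α)) ≤
      (Set.range p).ncard * (6 * (c + 1)) := by
    rw [← Set.ncard_univ]
    refine cover (fun q => {u | p u = q}) _ (Set.toFinite _) _ (fun x _ => ⟨_, ⟨x, rfl⟩, rfl⟩) ?_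
    rintro _ ⟨v, rfl⟩
    exact (hP v).2.2
  suffices (Set.range p).ncard ≤ C.ncard + g + 1 by nlinarith
  by_cases one : (Set.range p).ncard ≤ 1
  · omega
  let In : Set D := {d | d ∉ Fs ∧ p (ed M d) = p (ed M (M.φ d))}
  let Out : Set D := {d | d ∉ Fs ∧ p (ed M d) ≠ p (ed M (M.φ d))}
  have e1 : In.ncard + Out.ncard + Fs.ncard ≤ Nat.card D := by
    rw [← Set.ncard_union_eq (Set.disjoint_left.2 fun d a b => b.2 a.2),
      ← Set.ncard_union_eq (Set.disjoint_left.2 fun d a b => a.elim (·.1 b) (·.1 b)),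
      ← Set.ncard_univ]
    exact Set.ncard_le_ncard (Set.subset_univ _)
  have e2 := F.card
  rw [← hFs] at e2
  have e3 : Nat.card (Quotient (Perm.SameCycle.setoid M.α)) ≤ In.ncard + (Set.range p).ncard := by
    have : Nonempty (Quotient (Perm.SameCycle.setoid M.α)) := ⟨ed M (Classical.arbitrary D)⟩
    obtain ⟨l', f', par', F'⟩ := forest_ex (ed M) (fun d => ed M (M.φ d)) (fun d => d ∈ In)
      (invFun p '' Set.range p) (fun w => by
        have a : p (invFun p (p w)) = p w := invFun_eq ⟨w, rfl⟩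
        have r := (hP w).1.2 _ a w rfl
        have key : ∀ u, ReflTransGen (fun x y => Γ.Adj x y ∧ x ∈ {u | p u = p w} ∧
            y ∈ {u | p u = p w}) (invFun p (p w)) u → ∃ n, u ∈ rn (ed M) (fun d => ed M (M.φ d))
              (fun d => d ∈ In) (invFun p '' Set.range p) n := by
          intro u r
          induction r with
          | refl => exact ⟨0, p w, ⟨w, rfl⟩, rfl⟩
          | @tail x y _ k ih =>
            obtain ⟨n, hn⟩ := ih
            have pe : p x = p y := k.2.1.trans k.2.2.symm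
            rcases ((SimpleGraph.fromRel_adj _ _ _).1 k.1).2 with ⟨d, a, b, c⟩ | ⟨d, a, b, c⟩
            · exact ⟨n + 1, Or.inr ⟨d, ⟨a, by rw [← b, ← c, pe]⟩, Or.inr ⟨c.symm, b ▸ hn⟩⟩⟩
            · exact ⟨n + 1, Or.inr ⟨d, ⟨a, by rw [← b, ← c, pe]⟩, Or.inl ⟨b.symm, by
                rw [c] at hn; exact hn⟩⟩⟩
        exact key w r)
    exact F'.card'.trans (Nat.add_le_add_left Set.ncard_image_le _)
  have e4 := dbl (fun d => p (ed M d)) (fun d => p (ed M (M.φ d))) Out (Set.range p) 4 (by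
    rintro _ ⟨v, rfl⟩
    by_contra l
    have a := cnt (fun d => p (ed M d) = p v) fun d => by rw [ed_α]
    have b : {d | ¬(p (ed M d) = p v ↔ p (ed M (M.φ d)) = p v) ∧ d ∉ Fs}.ncard ≤ 3 := by
      refine le_trans (Set.ncard_le_ncard ?_) (Nat.le_of_lt_succ (not_le.1 l))
      rintro d ⟨d1, d2⟩
      refine ⟨⟨d2, fun e => d1 (by rw [e])⟩, ?_⟩
      by_contra t
      exact d1 ⟨fun s => absurd (Or.inl s) t, fun s => absurd (Or.inr s) t⟩
    have b' := Nat.mul_le_mul_right (2 * L + 1) b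
    obtain ⟨_, ⟨v', rfl⟩, ne⟩ := Set.exists_ne_of_one_lt_ncard (s := Set.range p) (by omega) (p v)
    have s1 := ed_le M {u | p u = p v} (fun d => p (ed M d) = p v) fun d hd => hd
    have s2 := ed_le M {u | p u = p v'} (fun d => ¬p (ed M d) = p v) fun d hd e =>
      ne (hd.symm.trans e)
    have s3 := (hP v).2.1
    have s4 := (hP v').2.1
    rcases ht (fun d => p (ed M d) = p v) (fun d => by rw [ed_α]) (le_trans a (by omega)) with
      k | k <;> omega)
  have e5 : Nat.card M.Node = ncyc M.σ + ncyc M.φ := Nat.card_sum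
  have e6 : ncomp M.φ M.α = 1 := (h1.ncomp_one _ _).1 hc
  have e7 : ncyc M.α = Nat.card (Quotient (Perm.SameCycle.setoid M.α)) := rfl
  have e8 : ncyc (M.φ * M.α) = ncyc M.σ := rfl
  simp only [HMap.eg, eg, chi, e6, e7, e8] at hg
  omega

end Net

open Net in
theorem net (h1 : K1) (hp : PartSt) : NetSt := by
  have t0 : TB (fun n : ℕ => n) fun n => n + 1 := (TB.self' _).succ
  have t1 : TB (fun n : ℕ => n) fun n => 48 * (n + 1) + 1 := ((TB.const 48).mul t0).succ
  obtain ⟨h, hh⟩ := TB.both (((TB.const 24).mul t0).mul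
    ((((TB.self' _).mul (t1.pow ((TB.const 2).mul (TB.self' _)))).add (TB.self' _)).succ))
    (t1.pow t0)
  refine ⟨h, fun D _ M g θ c ρ p hc _ hg ht hθ hD => ?_⟩
  have hne : Nonempty D := (Nat.card_pos_iff.1 (by omega)).1
  have con := rg_con M hc
  let low : M.Node → Prop := fun n =>
    {d | d ∈ Set.univ ∧ (sN M d = n ∨ tN M d = n)}.ncard ≤ 48 * (c + 1)
  have hlow : ∀ z, low z → (M.rg.neighborSet z).ncard ≤ 48 * (c + 1) := by
    classical
    intro z hz
    refine le_trans (le_trans (Set.ncard_le_ncard fun y hy => ?_)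
      (Set.ncard_image_le (f := fun d => if sN M d = z then tN M d else sN M d))) hz
    replace hy : M.rg.Adj z y := hy
    obtain ⟨d, k | k⟩ := adj_ex M _ _ hy
    · exact ⟨d, ⟨trivial, Or.inl k.1⟩, by simp only [if_pos k.1, k.2]⟩
    · have : ¬sN M d = z := fun e => hy.ne (e.symm.trans k.1)
      exact ⟨d, ⟨trivial, Or.inr k.2⟩, (if_neg this).trans k.1⟩
  let Gd : Set M.Node := {x | (∃ d, x = M.rv d) ∧ ∀ z, M.rg.dist x z ≤ ρ → low z}
  have hH := dbl (sN M) (tN M) Set.univ {n | ¬low n} (48 * (c + 1)) fun n hn =>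
    (not_le.1 hn).le
  rw [Set.ncard_univ] at hH
  have hcore := core M h1 hp (L := ρ + 1) hc hg ht (by omega) ({n | ¬low n} ∪ Gd) (by
    have a : ∀ d, ∃ x ∈ {n | ¬low n} ∪ Gd, M.rg.dist x (M.rv d) ≤ ρ := by
      intro d
      by_cases k : M.rv d ∈ Gd
      · exact ⟨_, Or.inr k, by simp⟩
      · by_contra l
        refine k ⟨⟨d, rfl⟩, fun z hz => ?_⟩
        by_contra m
        exact l ⟨z, Or.inl m, by rwa [SimpleGraph.dist_comm]⟩
    intro n
    obtain ⟨d, rfl | rfl⟩ := node_ex M n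
    · obtain ⟨x, x1, x2⟩ := a d
      exact rn_dist x con (adj_ex M) x1 _ _ (by omega)
    · obtain ⟨x, x1, x2⟩ := a d
      have b := con.dist_triangle (u := x) (v := M.rv d) (w := M.rf d)
      rw [SimpleGraph.dist_eq_one_iff_adj.2 (adj_vf M d)] at b
      exact rn_dist x con (adj_ex M) x1 _ _ (by omega))
  have hU := Set.ncard_union_le {n | ¬low n} Gd
  have big : p * (48 * (c + 1) + 1) ^ (2 * ρ) < Gd.ncard := by
    by_contra l
    have a := (hh (c + g + ρ + p)).1
    have b : 24 * (c + 1) * (p * (48 * (c + 1) + 1) ^ (2 * ρ) + g + 1) ≤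
        24 * (c + g + ρ + p + 1) * ((c + g + ρ + p) * (48 * (c + g + ρ + p + 1) + 1) ^
          (2 * (c + g + ρ + p)) + (c + g + ρ + p) + 1) := by
      gcongr <;> omega
    have c1 : Nat.card D ≤ 12 * (c + 1) * ({n | ¬low n}.ncard + Gd.ncard + g + 1) :=
      hcore.trans (by gcongr)
    have c2 : 24 * (c + 1) * (Gd.ncard + g + 1) ≤
        24 * (c + 1) * (p * (48 * (c + 1) + 1) ^ (2 * ρ) + g + 1) := by
      gcongr; omega
    nlinarith
  obtain ⟨x, x1, x2⟩ := greedy (fun a b => M.rg.dist a b ≤ 2 * ρ)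
    (fun a b k => by rwa [SimpleGraph.dist_comm]) _ p Gd (fun a ha => by
      refine le_trans (Set.ncard_le_ncard fun y hy => ?_) (lr_card a hlow (2 * ρ))
      refine lr_mem a con _ y hy.2 fun z hz => ?_
      by_cases k : M.rg.dist a z ≤ ρ
      · exact ha.2 z k
      · exact hy.1.2 z (by rw [SimpleGraph.dist_comm]; omega)) big
  choose y hy using fun i => (x1 i).1
  refine ⟨y, fun i j ne => by rw [← hy, ← hy]; exact not_le.1 (x2 i j ne), fun i => ?_⟩
  rw [← hy]
  have a := cover (fun z => {d | low z ∧ M.rv d = z}) (48 * (c + 1))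
    (Set.toFinite (lr M.rg low (x i) ρ)) {d | M.ball (x i) ρ d}
    (fun d hd => ⟨_, lr_mem _ con _ _ hd.1 fun z hz => (x1 i).2 z (by omega),
      (x1 i).2 _ hd.1, rfl⟩) fun z _ => by
      by_cases k : low z
      · refine le_trans (le_trans (Set.ncard_le_ncard fun d hd => ?_)
          (Set.ncard_image_le (f := M.φ))) k
        exact ⟨M.φ⁻¹ d, ⟨trivial, Or.inl (by simpa [sN] using hd.2)⟩, by simp⟩
      · simp [k]
  have b := lr_card (x i) hlow ρ
  refine le_trans a (le_trans ?_ (hh (c + g + ρ)).2)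
  calc _ ≤ (48 * (c + 1) + 1) ^ ρ * (48 * (c + 1) + 1) := Nat.mul_le_mul b (by omega)
    _ = (48 * (c + 1) + 1) ^ (ρ + 1) := by rw [pow_succ]
    _ ≤ _ := by gcongr <;> omega

end Pool.Agent.Lib.MP_c1f5fe_lc
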