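import Pool.Agent.Lib.MP_c1f5fe_lc.SpecB
import Pool.Agent.Lib.MP_c1f5fe_lc.Tb

/-! Quadratic systems of word equations have short subsolutions (Nielsen moves). -/

namespace Pool.Agent.Lib.MP_c1f5fe_lc

open FreeGroup (invRev)

namespace Nielsen

variable {X A : Type}

abbrev Sys (X : Type) : Type := List (List (X × Bool) × List (X × Bool))

abbrev Val (X A : Type) : Type := X → List (A × Bool)

def flat (E : Sys X) : List (X × Bool) := E.flatMap fun e => e.1 ++ e.2

def sv (val : Val X A) (p : X × Bool) : List (A × Bool) :=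
  if p.2 then val p.1 else invRev (val p.1)

def Sol (val : Val X A) (E : Sys X) : Prop := ∀ e ∈ E, evw val e.1 = evw val e.2

def Le (Fz : X → Prop) (v' v : Val X A) : Prop :=
  (∀ x, (v' x).Sublist (v x)) ∧ ∀ x, Fz x → v' x = v x

def Good (Fz : X → Prop) (B : ℕ) (p : Sys X × Val X A) : Prop :=
  ∃ v', Le Fz v' p.2 ∧ Sol v' p.1 ∧ ∀ x, (v' x).length ≤ B

def mu (s : Finset X) (p : Sys X × Val X A) : ℕ :=
  ∑ x ∈ s, (p.2 x).length + (flat p.1).length + p.1.length

theorem Le.refl (Fz : X → Prop) (v : Val X A) : Le Fz v v :=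
  ⟨fun _ => List.Sublist.refl _, fun _ _ => rfl⟩

theorem Le.trans {Fz : X → Prop} {a b c : Val X A} (h : Le Fz a b) (k : Le Fz b c) : Le Fz a c :=
  ⟨fun x => (h.1 x).trans (k.1 x), fun x hx => (h.2 x hx).trans (k.2 x hx)⟩

@[simp] theorem flat_nil : flat ([] : Sys X) = [] := rfl

@[simp] theorem flat_cons (u v : List (X × Bool)) (E : Sys X) :
    flat ((u, v) :: E) = u ++ v ++ flat E := by simp [flat]

@[simp] theorem evw_nil (val : Val X A) : evw val [] = [] := rfl

@[simp] theorem evw_cons (val : Val X A) (p : X × Bool) (l : List (X × Bool)) :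
    evw val (p :: l) = sv val p ++ evw val l := by simp [evw, sv]

theorem evw_append (val : Val X A) (l l' : List (X × Bool)) :
    evw val (l ++ l') = evw val l ++ evw val l' := by simp [evw]

theorem sol_cons (val : Val X A) (u v : List (X × Bool)) (E : Sys X) :
    Sol val ((u, v) :: E) ↔ evw val u = evw val v ∧ Sol val E := by simp [Sol]

theorem sv_len (val : Val X A) (p : X × Bool) : (sv val p).length = (val p.1).length := by
  unfold sv; split <;> simp

theorem sv_congr {v v' : Val X A} {p : X × Bool} (h : v p.1 = v' p.1) : sv v p = sv v' p := by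
  simp [sv, h]

theorem evw_congr {v v' : Val X A} {l : List (X × Bool)} (h : ∀ p ∈ l, v p.1 = v' p.1) :
    evw v l = evw v' l := by
  induction l with
  | nil => rfl
  | cons p l ih =>
    rw [evw_cons, evw_cons, sv_congr (h p (by simp)), ih fun q hq => h q (by simp [hq])]

theorem sol_congr {v v' : Val X A} {E : Sys X} (h : ∀ p ∈ flat E, v p.1 = v' p.1)
    (hs : Sol v E) : Sol v' E := by
  intro e he
  have h1 : ∀ p ∈ e.1, v p.1 = v' p.1 := fun p hp =>
    h p (List.mem_flatMap.2 ⟨e, he, List.mem_append_left _ hp⟩)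
  have h2 : ∀ p ∈ e.2, v p.1 = v' p.1 := fun p hp =>
    h p (List.mem_flatMap.2 ⟨e, he, List.mem_append_right _ hp⟩)
  rw [← evw_congr h1, ← evw_congr h2]
  exact hs e he

theorem invRev_sub {l l' : List (A × Bool)} (h : l.Sublist l') :
    (invRev l).Sublist (invRev l') := by
  unfold FreeGroup.invRev
  exact (h.map _).reverse

theorem sv_sub {v v' : Val X A} (h : ∀ x, (v x).Sublist (v' x)) (p : X × Bool) :
    (sv v p).Sublist (sv v' p) := by
  unfold sv; split
  · exact h _
  · exact invRev_sub (h _)

theorem sv_not (v : Val X A) (p : X × Bool) : sv v (p.1, !p.2) = invRev (sv v p) := by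
  obtain ⟨x, b⟩ := p
  cases b <;> simp [sv]

theorem evw_invRev (v : Val X A) (l : List (X × Bool)) :
    evw v (invRev l) = invRev (evw v l) := by
  induction l with
  | nil => simp
  | cons p l ih =>
    have : invRev (p :: l) = invRev l ++ [(p.1, !p.2)] := by simp [FreeGroup.invRev]
    rw [this, evw_append, ih, evw_cons, evw_cons, sv_not, FreeGroup.invRev_append]
    simp

variable [DecidableEq X]

def cnt (x : X) (l : List (X × Bool)) : ℕ := (l.map Prod.fst).count x

@[simp] theorem cnt_nil (x : X) : cnt x [] = 0 := rfl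

theorem cnt_cons (x : X) (p : X × Bool) (l : List (X × Bool)) :
    cnt x (p :: l) = cnt x l + if p.1 = x then 1 else 0 := by
  simp [cnt, List.count_cons]

theorem cnt_append (x : X) (l l' : List (X × Bool)) :
    cnt x (l ++ l') = cnt x l + cnt x l' := by simp [cnt]

theorem cnt_invRev (x : X) (l : List (X × Bool)) : cnt x (invRev l) = cnt x l := by
  simp [cnt, FreeGroup.invRev, List.map_reverse, List.count_reverse, Function.comp_def]

theorem cnt_zero {x : X} {l : List (X × Bool)} (h : cnt x l = 0) : ∀ p ∈ l, p.1 ≠ x := by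
  intro p hp e
  have := List.count_eq_zero.1 h
  exact this (List.mem_map.2 ⟨p, hp, e⟩)

theorem cnt_sub (x : X) {l l' : List (X × Bool)} (h : l.Sublist l') : cnt x l ≤ cnt x l' :=
  (h.map _).count_le _

def sub (y : X) (w l : List (X × Bool)) : List (X × Bool) :=
  l.flatMap fun p => if p.1 = y then (if p.2 then w else invRev w) else [p]

@[simp] theorem sub_nil (y : X) (w : List (X × Bool)) : sub y w [] = [] := rfl

theorem sub_cons (y : X) (w : List (X × Bool)) (p : X × Bool) (l : List (X × Bool)) :
    sub y w (p :: l) = (if p.1 = y then (if p.2 then w else invRev w) else [p]) ++ sub y w l := by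
  simp [sub]

theorem sub_append (y : X) (w l l' : List (X × Bool)) :
    sub y w (l ++ l') = sub y w l ++ sub y w l' := by simp [sub]

theorem evw_sub (v : Val X A) (y : X) (w l : List (X × Bool)) :
    evw v (sub y w l) = evw (Function.update v y (evw v w)) l := by
  induction l with
  | nil => rfl
  | cons p l ih =>
    rw [sub_cons, evw_append, ih, evw_cons]
    congr 1
    by_cases h : p.1 = y
    · rw [if_pos h]
      unfold sv
      rw [h, Function.update_self]
      split
      · rfl
      · exact evw_invRev _ _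
    · rw [if_neg h, evw_cons, evw_nil, List.append_nil]
      exact sv_congr (Function.update_of_ne h _ _).symm

theorem cnt_subst (x y : X) (w l : List (X × Bool)) :
    cnt x (sub y w l) = (if y = x then 0 else cnt x l) + cnt y l * cnt x w := by
  induction l with
  | nil => simp
  | cons p l ih =>
    rw [sub_cons, cnt_append, ih, cnt_cons, cnt_cons]
    by_cases h : p.1 = y
    · have e : cnt x (if p.2 then w else invRev w) = cnt x w := by
        split
        · rfl
        · exact cnt_invRev _ _
      rw [if_pos h, e, if_pos h, h]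
      by_cases k : y = x
      · simp only [if_pos k]; ring
      · simp only [if_neg k]; ring
    · rw [if_neg h, if_neg h, cnt_cons, cnt_nil]
      by_cases k : y = x
      · subst k; simp [h]
      · simp only [if_neg k]; ring

theorem len_subst (y : X) (w l : List (X × Bool)) (hw : w.length = 2) :
    (sub y w l).length = l.length + cnt y l := by
  induction l with
  | nil => simp
  | cons p l ih =>
    rw [sub_cons, List.length_append, ih, cnt_cons, List.length_cons]
    by_cases h : p.1 = y
    · have e : (if p.2 then w else invRev w).length = 2 := by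
        split
        · exact hw
        · rw [FreeGroup.invRev_length]; exact hw
      rw [if_pos h, e, if_pos h]; ring
    · rw [if_neg h, if_neg h]; simp; ring

theorem mem_subst {y : X} {w l : List (X × Bool)} {P : X → Prop} (hw : ∀ p ∈ w, P p.1)
    (hl : ∀ p ∈ l, P p.1) : ∀ p ∈ sub y w l, P p.1 := by
  intro p hp
  obtain ⟨q, hq, h⟩ := List.mem_flatMap.1 hp
  split at h
  · split at h
    · exact hw p h
    · simp only [FreeGroup.invRev, List.mem_reverse, List.mem_map] at h
      obtain ⟨r, hr, rfl⟩ := h
      exact hw r hr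
  · rw [List.mem_singleton.1 h]; exact hl q hq

def subS (y : X) (w : List (X × Bool)) (E : Sys X) : Sys X :=
  E.map fun e => (sub y w e.1, sub y w e.2)

theorem flat_subS (y : X) (w : List (X × Bool)) (E : Sys X) :
    flat (subS y w E) = sub y w (flat E) := by
  induction E with
  | nil => rfl
  | cons e E ih =>
    obtain ⟨u, v⟩ := e
    have : subS y w ((u, v) :: E) = (sub y w u, sub y w v) :: subS y w E := rfl
    rw [this, flat_cons, flat_cons, ih, sub_append, sub_append]

theorem sol_subS (v : Val X A) (y : X) (w : List (X × Bool)) (E : Sys X) :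
    Sol v (subS y w E) ↔ Sol (Function.update v y (evw v w)) E := by
  unfold Sol subS
  rw [List.forall_mem_map]
  simp only [evw_sub]

structure Inv (Fz : X → Prop) (s : Finset X) (m e : ℕ) (p : Sys X × Val X A) : Prop where
  quad : ∀ x, cnt x (flat p.1) ≤ 2
  fz : ∀ x, Fz x → (p.2 x).length = 1
  sol : Sol p.2 p.1
  len : (flat p.1).length ≤ m
  num : p.1.length ≤ e
  mem : ∀ q ∈ flat p.1, q.1 ∈ s

def Step (Fz : X → Prop) (s : Finset X) (m e : ℕ) (p q : Sys X × Val X A) : Prop :=
  Inv Fz s m e q ∧ mu s q < mu s p ∧ Le Fz q.2 p.2 ∧ ∀ B, Good Fz B q → Good Fz (2 * B) p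

variable {Fz : X → Prop} {s : Finset X} {m e : ℕ}

theorem easy {E E₁ : Sys X} {val : Val X A} (h : Inv Fz s m e (E, val))
    (h1 : (flat E₁).Sublist (flat E)) (h2 : E₁.length ≤ E.length)
    (h3 : (flat E₁).length + E₁.length < (flat E).length + E.length) (h4 : Sol val E₁)
    (h5 : ∀ v', Le Fz v' val → Sol v' E₁ → ∃ v'', Le Fz v'' v' ∧ Sol v'' E) :
    ∃ q, Step Fz s m e (E, val) q := by
  refine ⟨(E₁, val), ⟨fun x => (cnt_sub x h1).trans (h.quad x), h.fz, h4,
    h1.length_le.trans h.len, h2.trans h.num, fun q hq => h.mem q (h1.subset hq)⟩, ?_,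
    Le.refl _ _, ?_⟩
  · simp only [mu]; omega
  · rintro B ⟨v', a, b, c⟩
    obtain ⟨v'', d, f⟩ := h5 v' a b
    exact ⟨v'', d.trans a, f, fun x => ((d.1 x).length_le.trans (c x)).trans (by omega)⟩

theorem inv_swap {u v : List (X × Bool)} {E : Sys X} {val : Val X A}
    (h : Inv Fz s m e ((u, v) :: E, val)) : Inv Fz s m e ((v, u) :: E, val) := by
  refine ⟨fun x => ?_, h.fz, ?_, ?_, h.num, fun q hq => h.mem q ?_⟩
  · have := h.quad x
    simp only [flat_cons, cnt_append] at this ⊢
    omega
  · have := (sol_cons _ _ _ _).1 h.sol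
    exact (sol_cons _ _ _ _).2 ⟨this.1.symm, this.2⟩
  · have := h.len
    simp only [flat_cons, List.length_append] at this ⊢
    omega
  · simp only [flat_cons, List.mem_append] at hq ⊢
    tauto

theorem step_swap {u v : List (X × Bool)} {E : Sys X} {val : Val X A}
    (h : ∃ q, Step Fz s m e ((v, u) :: E, val) q) : ∃ q, Step Fz s m e ((u, v) :: E, val) q := by
  obtain ⟨q, a, b, c, d⟩ := h
  refine ⟨q, a, ?_, c, fun B hB => ?_⟩
  · simp only [mu, flat_cons, List.length_append, List.length_cons] at b ⊢
    omega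
  · obtain ⟨v', f, g, k⟩ := d B hB
    have := (sol_cons _ _ _ _).1 g
    exact ⟨v', f, (sol_cons _ _ _ _).2 ⟨this.1.symm, this.2⟩, k⟩

theorem move1 {E : Sys X} {val : Val X A} (h : Inv Fz s m e (([], []) :: E, val)) :
    ∃ q, Step Fz s m e (([], []) :: E, val) q := by
  refine easy (E₁ := E) h (by simp) (by simp) (by simp) ((sol_cons _ _ _ _).1 h.sol).2 ?_
  intro v' _ b
  exact ⟨v', Le.refl _ _, (sol_cons _ _ _ _).2 ⟨rfl, b⟩⟩

theorem move2 {p : X × Bool} {u v : List (X × Bool)} {E : Sys X} {val : Val X A}
    (h : Inv Fz s m e ((p :: u, v) :: E, val)) (hp : val p.1 = []) :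
    ∃ q, Step Fz s m e ((p :: u, v) :: E, val) q := by
  have key : ∀ v' : Val X A, v' p.1 = [] → sv v' p = [] := fun v' k => by
    apply List.length_eq_zero_iff.1; rw [sv_len, k]; rfl
  have hs := (sol_cons _ _ _ _).1 h.sol
  refine easy (E₁ := (u, v) :: E) h (by simp) (by simp) (by simp) ?_ ?_
  · refine (sol_cons _ _ _ _).2 ⟨?_, hs.2⟩
    have := hs.1
    rwa [evw_cons, key _ hp, List.nil_append] at this
  · intro v' a b
    have b' := (sol_cons _ _ _ _).1 b
    have : v' p.1 = [] := by
      have := a.1 p.1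
      rw [hp] at this
      exact List.sublist_nil.1 this
    refine ⟨v', Le.refl _ _, (sol_cons _ _ _ _).2 ⟨?_, b'.2⟩⟩
    rw [evw_cons, key _ this, List.nil_append]
    exact b'.1

theorem move3 {p q : X × Bool} {u v : List (X × Bool)} {E : Sys X} {val : Val X A}
    (h : Inv Fz s m e ((p :: u, q :: v) :: E, val))
    (hl : (val p.1).length = (val q.1).length)
    (hb : ∀ v', Le Fz v' val → Sol v' ((u, v) :: E) → sv val p = sv val q →
      ∃ v'', Le Fz v'' v' ∧ Sol v'' ((u, v) :: E) ∧ sv v'' p = sv v'' q) :
    ∃ r, Step Fz s m e ((p :: u, q :: v) :: E, val) r := by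
  have hs := (sol_cons _ _ _ _).1 h.sol
  have h1 := hs.1
  rw [evw_cons, evw_cons] at h1
  have h2 := List.append_inj h1 (by rw [sv_len, sv_len]; exact hl)
  refine easy (E₁ := (u, v) :: E) h ?_ (by simp) (by simp)
    ((sol_cons _ _ _ _).2 ⟨h2.2, hs.2⟩) ?_
  · simp only [flat_cons]
    exact ((List.sublist_cons_self p u).append (List.sublist_cons_self q v)).append
      (List.Sublist.refl _)
  · intro v' a b
    obtain ⟨v'', c, d, f⟩ := hb v' a b h2.1
    have d' := (sol_cons _ _ _ _).1 d
    refine ⟨v'', c, (sol_cons _ _ _ _).2 ⟨?_, d'.2⟩⟩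
    rw [evw_cons, evw_cons, f, d'.1]

theorem move4 {p q : X × Bool} {u v : List (X × Bool)} {E : Sys X} {val : Val X A}
    (h : Inv Fz s m e ((p :: u, q :: v) :: E, val)) (hpq : p.1 = q.1) (hz : ¬Fz p.1) :
    ∃ r, Step Fz s m e ((p :: u, q :: v) :: E, val) r := by
  refine move3 h (by rw [hpq]) ?_
  intro v' _ b _
  have hq := h.quad p.1
  simp only [flat_cons, cnt_append, cnt_cons, ← hpq, if_true] at hq
  have h0 : cnt p.1 (flat ((u, v) :: E)) = 0 := by
    simp only [flat_cons, cnt_append]; omega
  refine ⟨Function.update v' p.1 [], ⟨fun x => ?_, fun x hx => ?_⟩, ?_, ?_⟩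
  · by_cases k : x = p.1
    · rw [k, Function.update_self]; exact List.nil_sublist _
    · rw [Function.update_of_ne k]
  · exact Function.update_of_ne (fun k : x = p.1 => hz (k ▸ hx)) _ _
  · exact sol_congr (fun r hr => (Function.update_of_ne (cnt_zero h0 r hr) _ _).symm) b
  · have a1 : sv (Function.update v' p.1 []) p = [] := by
      apply List.length_eq_zero_iff.1; rw [sv_len, Function.update_self]; rfl
    have a2 : sv (Function.update v' p.1 []) q = [] := by
      apply List.length_eq_zero_iff.1; rw [sv_len, ← hpq, Function.update_self]; rfl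
    rw [a1, a2]

theorem move5 {p q : X × Bool} {u v : List (X × Bool)} {E : Sys X} {val : Val X A}
    (h : Inv Fz s m e ((p :: u, q :: v) :: E, val)) (hpq : p.1 ≠ q.1) (hz : ¬Fz q.1)
    (hp : val p.1 ≠ []) (hl : (val p.1).length ≤ (val q.1).length) :
    ∃ r, Step Fz s m e ((p :: u, q :: v) :: E, val) r := by
  have hs := (sol_cons _ _ _ _).1 h.sol
  have h1 := hs.1
  rw [evw_cons, evw_cons] at h1
  obtain ⟨c, hc⟩ : sv val p <+: sv val q :=
    List.prefix_of_prefix_length_le ⟨_, h1⟩ (List.prefix_append _ _)
      (by rw [sv_len, sv_len]; exact hl)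
  obtain ⟨y, b⟩ := q
  simp only at hpq hz hl
  obtain ⟨w, c', hw2, hw, hcw, hmem, hc', hval⟩ : ∃ (w : List (X × Bool)) (c' : List (A × Bool)),
      w.length = 2 ∧ (if b then w else invRev w) = [p, (y, b)] ∧
      (∀ x, cnt x w = (if p.1 = x then 1 else 0) + if y = x then 1 else 0) ∧
      (∀ r ∈ w, r.1 = p.1 ∨ r.1 = y) ∧
      (c'.Sublist (val y) ∧ c'.length + (val p.1).length = (val y).length) ∧
      evw (Function.update val y c') w = val y := by
    have hsv : ∀ z, sv (Function.update val y z) p = sv val p := fun z =>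
      sv_congr (Function.update_of_ne hpq _ _)
    cases b with
    | true =>
      have e1 : sv val (y, true) = val y := by simp [sv]
      rw [e1] at hc
      refine ⟨[p, (y, true)], c, rfl, rfl, fun x => ?_, by simp, ⟨?_, ?_⟩, ?_⟩
      · simp only [cnt_cons, cnt_nil]; omega
      · rw [← hc]; exact List.sublist_append_right _ _
      · rw [← hc, List.length_append, sv_len]; omega
      · rw [evw_cons, evw_cons, evw_nil, hsv, ← hc]; simp [sv]
    | false =>
      have e1 : sv val (y, false) = invRev (val y) := by simp [sv]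
      rw [e1] at hc
      have hc2 : val y = invRev c ++ invRev (sv val p) := by
        rw [← FreeGroup.invRev_append, hc, FreeGroup.invRev_invRev]
      refine ⟨[(y, true), (p.1, !p.2)], invRev c, rfl, ?_, fun x => ?_, by simp, ⟨?_, ?_⟩, ?_⟩
      · simp [FreeGroup.invRev]
      · simp only [cnt_cons, cnt_nil]; omega
      · rw [hc2]; exact List.sublist_append_left _ _
      · rw [hc2, List.length_append, FreeGroup.invRev_length, FreeGroup.invRev_length, sv_len]
      · rw [evw_cons, evw_cons, evw_nil, sv_not, hsv, hc2]; simp [sv]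
  have eS : subS y w ((p :: u, (y, b) :: v) :: E) =
      (p :: sub y w u, p :: (y, b) :: sub y w v) :: subS y w E := by
    have : subS y w ((p :: u, (y, b) :: v) :: E) =
      (sub y w (p :: u), sub y w ((y, b) :: v)) :: subS y w E := rfl
    rw [this, sub_cons, sub_cons, if_neg hpq, if_pos rfl, hw]
    rfl
  have hsol : ∀ z : Val X A, Sol z ((sub y w u, (y, b) :: sub y w v) :: subS y w E) ↔
      Sol (Function.update z y (evw z w)) ((p :: u, (y, b) :: v) :: E) := by
    intro z
    rw [← sol_subS, eS, sol_cons, sol_cons, evw_cons z p, evw_cons z p, List.append_cancel_left_eq]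
  have hy : y ∈ s := h.mem (y, b) (by simp)
  have hps : p.1 ∈ s := h.mem p (by simp)
  have hqy := h.quad y
  simp only [flat_cons, cnt_append, cnt_cons, if_neg hpq, if_true] at hqy
  have hle : Le Fz (Function.update val y c') val := by
    refine ⟨fun x => ?_, fun x hx => Function.update_of_ne (fun k : x = y => hz (k ▸ hx)) _ _⟩
    by_cases k : x = y
    · rw [k, Function.update_self]; exact hc'.1
    · rw [Function.update_of_ne k]
  have hlen : (flat ((sub y w u, (y, b) :: sub y w v) :: subS y w E)).length ≤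
      (flat ((p :: u, (y, b) :: v) :: E)).length := by
    simp only [flat_cons, flat_subS, List.length_append, List.length_cons, len_subst _ _ _ hw2]
    omega
  refine ⟨((sub y w u, (y, b) :: sub y w v) :: subS y w E, Function.update val y c'),
    ⟨fun x => ?_, fun x hx => ?_, ?_, hlen.trans h.len, ?_, ?_⟩, ?_, hle, ?_⟩
  · have hx := h.quad x
    simp only [flat_cons, flat_subS, cnt_append, cnt_cons, cnt_subst, hcw] at hx ⊢
    by_cases k1 : y = x
    · have k2 : ¬p.1 = x := fun k => hpq (k.trans k1.symm)
      subst k1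
      simp only [if_neg k2, if_true] at hx ⊢
      omega
    · by_cases k2 : p.1 = x
      · simp only [if_neg k1, if_pos k2] at hx ⊢
        omega
      · simp only [if_neg k1, if_neg k2] at hx ⊢
        omega
  · show (Function.update val y c' x).length = 1
    rw [hle.2 x hx]; exact h.fz x hx
  · show Sol (Function.update val y c') _
    rw [hsol, hval, Function.update_idem, Function.update_eq_self]
    exact h.sol
  · have := h.num
    simpa [subS] using this
  · have hw' : ∀ r ∈ w, r.1 ∈ s := fun r hr => by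
      rcases hmem r hr with k | k <;> rw [k] <;> assumption
    intro r hr
    simp only [flat_cons, flat_subS, List.mem_append, List.mem_cons] at hr
    rcases hr with (k | k | k) | k
    · exact mem_subst hw' (fun t ht => h.mem t (by simp [ht])) r k
    · rw [k]; exact hy
    · exact mem_subst hw' (fun t ht => h.mem t (by simp [ht])) r k
    · exact mem_subst hw' (fun t ht => h.mem t (by simp [ht])) r k
  · have hpos : 0 < (val p.1).length := List.length_pos_iff.2 hp
    have hlt : ∑ x ∈ s, (Function.update val y c' x).length < ∑ x ∈ s, (val x).length := by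
      refine Finset.sum_lt_sum (fun x _ => (hle.1 x).length_le) ⟨y, hy, ?_⟩
      rw [Function.update_self]; omega
    have e2 : ((sub y w u, (y, b) :: sub y w v) :: subS y w E).length =
        ((p :: u, (y, b) :: v) :: E).length := by simp [subS]
    simp only [mu]
    omega
  · rintro B ⟨z, a1, a2, a3⟩
    obtain ⟨r1, r2, rfl⟩ := List.length_eq_two.1 hw2
    refine ⟨Function.update z y (evw z [r1, r2]), ⟨fun x => ?_, fun x hx => ?_⟩,
      (hsol z).1 a2, fun x => ?_⟩
    · by_cases k : x = y
      · rw [k, Function.update_self]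
        show (evw z [r1, r2]).Sublist (val y)
        rw [← hval]
        simp only [evw_cons, evw_nil, List.append_nil]
        exact (sv_sub a1.1 r1).append (sv_sub a1.1 r2)
      · rw [Function.update_of_ne k]
        exact (a1.trans hle).1 x
    · rw [Function.update_of_ne (fun k : x = y => hz (k ▸ hx))]
      exact (a1.trans hle).2 x hx
    · by_cases k : x = y
      · rw [k, Function.update_self]
        simp only [evw_cons, evw_nil, List.append_nil, List.length_append, sv_len]
        have := a3 r1.1
        have := a3 r2.1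
        omega
      · rw [Function.update_of_ne k]
        have := a3 x
        omega

theorem step_ex (p : Sys X × Val X A) (h : Inv Fz s m e p) :
    Good Fz 1 p ∨ ∃ q, Step Fz s m e p q := by
  classical
  obtain ⟨E, val⟩ := p
  rcases E with _ | ⟨⟨u, v⟩, E⟩
  · left
    refine ⟨fun x => if Fz x then val x else [], ⟨fun x => ?_, fun x hx => if_pos hx⟩,
      fun e he => absurd he (by simp), fun x => ?_⟩
    · dsimp only; split
      · exact List.Sublist.refl _
      · exact List.nil_sublist _
    · dsimp only; split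
      · next k => exact (h.fz x k).le
      · simp
  right
  have one : ∀ (p : X × Bool) (u : List (X × Bool)), Inv Fz s m e ((p :: u, []) :: E, val) →
      ∃ q, Step Fz s m e ((p :: u, []) :: E, val) q := by
    intro p u h
    refine move2 h ?_
    have := ((sol_cons _ _ _ _).1 h.sol).1
    rw [evw_cons, evw_nil, List.append_eq_nil_iff] at this
    apply List.length_eq_zero_iff.1
    rw [← sv_len, this.1]; rfl
  rcases u with _ | ⟨p, u⟩
  · rcases v with _ | ⟨q, v⟩
    · exact move1 h
    · exact step_swap (one q v (inv_swap h))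
  rcases v with _ | ⟨q, v⟩
  · exact one p u h
  by_cases hp : val p.1 = []
  · exact move2 h hp
  by_cases hq : val q.1 = []
  · exact step_swap (move2 (inv_swap h) hq)
  by_cases hz : Fz p.1 ∧ Fz q.1
  · refine move3 h ((h.fz _ hz.1).trans (h.fz _ hz.2).symm) ?_
    intro v' a b c
    exact ⟨v', Le.refl _ _, b, by rw [sv_congr (a.2 _ hz.1), sv_congr (a.2 _ hz.2), c]⟩
  by_cases hpq : p.1 = q.1
  · exact move4 h hpq fun k => hz ⟨k, hpq ▸ k⟩
  have p1 : 0 < (val p.1).length := List.length_pos_iff.2 hp
  have q1 : 0 < (val q.1).length := List.length_pos_iff.2 hq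
  by_cases k : ¬Fz q.1 ∧ (val p.1).length ≤ (val q.1).length
  · exact move5 h hpq k.1 hp k.2
  · refine step_swap (move5 (inv_swap h) (Ne.symm hpq) (fun f => ?_) hq ?_)
    · have := h.fz _ f
      exact k ⟨fun g => hz ⟨f, g⟩, by simp only at this; omega⟩
    · by_cases g : Fz q.1
      · have := h.fz _ g
        simp only at this; omega
      · by_contra l
        exact k ⟨g, by omega⟩

theorem reach_le {p q : Sys X × Val X A} (h : Relation.ReflTransGen (Step Fz s m e) p q)
    (hp : Inv Fz s m e p) : Inv Fz s m e q ∧ mu s q ≤ mu s p ∧ Le Fz q.2 p.2 := by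
  induction h with
  | refl => exact ⟨hp, le_rfl, Le.refl _ _⟩
  | tail _ k ih => exact ⟨k.1, k.2.1.le.trans ih.2.1, k.2.2.1.trans ih.2.2⟩

theorem main (n : ℕ) : ∀ (T : Finset (Sys X)) (p : Sys X × Val X A), T.card ≤ n →
    Inv Fz s m e p → (∀ q, Relation.ReflTransGen (Step Fz s m e) p q → q.1 ∈ T) →
    Good Fz (2 ^ n) p := by
  classical
  induction n with
  | zero =>
    intro T p hT _ h
    have := Finset.card_pos.2 ⟨_, h p .refl⟩
    omega
  | succ n ih =>
    intro T p hT hp h
    have ex : ∃ k, ∃ q, Relation.ReflTransGen (Step Fz s m e) p q ∧ q.1 = p.1 ∧ mu s q = k :=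
      ⟨_, p, .refl, rfl, rfl⟩
    obtain ⟨q, r1, r2, r3⟩ := Nat.find_spec ex
    obtain ⟨i1, -, i3⟩ := reach_le r1 hp
    have back : Good Fz (2 ^ (n + 1)) q → Good Fz (2 ^ (n + 1)) p := by
      rintro ⟨z, a, b, c⟩
      exact ⟨z, a.trans i3, r2 ▸ b, c⟩
    apply back
    rcases step_ex q i1 with ⟨z, a, b, c⟩ | ⟨q', k⟩
    · exact ⟨z, a, b, fun x => (c x).trans Nat.one_le_two_pow⟩
    · rw [pow_succ']
      apply k.2.2.2
      refine ih (T.erase p.1) q' ?_ k.1 fun t ht => ?_
      · rw [Finset.card_erase_of_mem (h p .refl)]; omega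
      · have r4 : Relation.ReflTransGen (Step Fz s m e) p t := (r1.tail k).trans ht
        refine Finset.mem_erase.2 ⟨fun f => ?_, h t r4⟩
        have a := Nat.find_min' ex ⟨t, r4, f, rfl⟩
        have b := (reach_le ht k.1).2.1
        have c := k.2.1
        omega

def allL {Y : Type} [DecidableEq Y] (t : Finset Y) : ℕ → Finset (List Y)
  | 0 => {[]}
  | n + 1 => insert [] ((t ×ˢ allL t n).image fun p => p.1 :: p.2)

theorem allL_card {Y : Type} [DecidableEq Y] (t : Finset Y) (n : ℕ) :
    (allL t n).card ≤ (t.card + 1) ^ n := by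
  induction n with
  | zero => simp [allL]
  | succ n ih =>
    have a := Finset.card_insert_le ([] : List Y) ((t ×ˢ allL t n).image fun p => p.1 :: p.2)
    have b := Finset.card_image_le (s := t ×ˢ allL t n) (f := fun p => p.1 :: p.2)
    rw [Finset.card_product] at b
    have c := Nat.mul_le_mul_left t.card ih
    have d : 1 ≤ (t.card + 1) ^ n := Nat.one_le_pow _ _ (by omega)
    rw [allL, pow_succ]
    nlinarith

theorem mem_allL {Y : Type} [DecidableEq Y] (t : Finset Y) (n : ℕ) :
    ∀ l : List Y, l.length ≤ n → (∀ x ∈ l, x ∈ t) → l ∈ allL t n := by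
  induction n with
  | zero => intro l h _; simp [allL, List.length_eq_zero_iff.1 (Nat.le_zero.1 h)]
  | succ n ih =>
    intro l h k
    rcases l with _ | ⟨x, l⟩
    · simp [allL]
    · refine Finset.mem_insert_of_mem (Finset.mem_image.2 ⟨(x, l), Finset.mem_product.2
        ⟨k x (by simp), ih l (by simpa using h) fun y hy => k y (by simp [hy])⟩, rfl⟩)

theorem bound {p : Sys X × Val X A} (hp : Inv Fz s m e p) :
    Good Fz (2 ^ ((s.card * 2 + 1) ^ m * (s.card * 2 + 1) ^ m + 1) ^ e) p := by
  let W := allL (s ×ˢ (Finset.univ : Finset Bool)) m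
  have hW : W.card ≤ (s.card * 2 + 1) ^ m := by
    have := allL_card (s ×ˢ (Finset.univ : Finset Bool)) m
    rwa [Finset.card_product, Finset.card_univ, Fintype.card_bool] at this
  refine main _ (allL (W ×ˢ W) e) p ((allL_card _ _).trans ?_) hp fun q hq => ?_
  · rw [Finset.card_product]
    exact Nat.pow_le_pow_left (Nat.succ_le_succ (Nat.mul_le_mul hW hW)) _
  · have hi := (reach_le hq hp).1
    refine mem_allL _ _ _ hi.num fun x hx => ?_
    have hsub : (x.1 ++ x.2).Sublist (flat q.1) := by
      unfold flat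
      rw [List.flatMap_def]
      exact List.sublist_flatten_of_mem (List.mem_map.2 ⟨x, hx, rfl⟩)
    have key : ∀ l : List (X × Bool), l.Sublist (flat q.1) → l ∈ W := fun l hl =>
      mem_allL _ _ _ (hl.length_le.trans hi.len) fun y hy =>
        Finset.mem_product.2 ⟨hi.mem y (hl.subset hy), Finset.mem_univ _⟩
    exact Finset.mem_product.2 ⟨key _ ((List.sublist_append_left _ _).trans hsub),
      key _ ((List.sublist_append_right _ _).trans hsub)⟩

end Nielsen

open Nielsen in
theorem nst : NSt := by
  have t1 : TB (fun n : ℕ => n) fun n => (n * 2 + 1) ^ n :=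
    (((TB.self' _).mul (TB.const 2)).succ).pow (TB.self' _)
  obtain ⟨h, hh⟩ : TB (fun n : ℕ => n) fun n => 2 ^ ((n * 2 + 1) ^ n * (n * 2 + 1) ^ n + 1) ^ n :=
    (((t1.mul t1).succ).pow (TB.self' _)).two_pow
  refine ⟨h, fun X A _ E Fz val h1 h2 h3 => ?_⟩
  set n := (E.flatMap fun e => e.1 ++ e.2).length + E.length with hn
  have hi : Inv Fz ((flat E).map Prod.fst).toFinset n n (E, val) :=
    ⟨h1, h2, h3, Nat.le_add_right _ _, Nat.le_add_left _ _, fun q hq =>
      List.mem_toFinset.2 (List.mem_map.2 ⟨q, hq, rfl⟩)⟩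
  obtain ⟨z, a, b, c⟩ := bound hi
  refine ⟨z, a.1, a.2, b, fun x => (c x).trans (le_trans ?_ (hh n))⟩
  have hs : ((flat E).map Prod.fst).toFinset.card ≤ n := by
    refine (List.toFinset_card_le _).trans ?_
    rw [List.length_map]
    exact Nat.le_add_right _ _
  have a1 := Nat.pow_le_pow_left (Nat.succ_le_succ (Nat.mul_le_mul_right 2 hs)) n
  exact Nat.pow_le_pow_right (by norm_num)
    (Nat.pow_le_pow_left (Nat.succ_le_succ (Nat.mul_le_mul a1 a1)) n)

end Pool.Agent.Lib.MP_c1f5fe_lc
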