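import Pool.Agent.Lib.MP_c1f5fe_lc.Norm2

/-! Normal form: few bichromatic darts. -/

namespace Pool.Agent.Lib.MP_c1f5fe_lc

open Equiv Function Relation Sel TB1

namespace Norm

theorem nxt_two {X : Type} [Finite X] {π : Perm X} {B : X → Prop} {a b z : X} (h1 : Nxt π B a b)
    (h2 : Nxt π B b a) (s : π.SameCycle a z) (hz : B z) : z = a ∨ z = b := by
  refine (closed_sc (R := fun u => (Nxt π B u a ∨ Nxt π B u b) ∧ (B u → u = a ∨ u = b)) ?_ s
    ⟨Or.inr h1, fun _ => Or.inl rfl⟩).2 hz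
  rintro u ⟨h, -⟩
  by_cases c : B (π u)
  · rcases h with h | h
    · rw [(nxt_one c).unique h]; exact ⟨Or.inr h1, fun _ => Or.inl rfl⟩
    · rw [(nxt_one c).unique h]; exact ⟨Or.inl h2, fun _ => Or.inr rfl⟩
  · exact ⟨h.imp (nxt_step c).1 (nxt_step c).1, fun d => absurd d c⟩

theorem nxt_sub {X : Type} {π : Perm X} {B Q : X → Prop} {a b : X} (h : Nxt π Q a b)
    (s : ∀ x, B x → Q x) (hb : B b) : Nxt π B a b := by
  obtain ⟨n, n0, e, -, hn⟩ := h
  exact ⟨n, n0, e, hb, fun m p q c => hn m p q (s _ c)⟩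

theorem orbit_two {D : Type} [Finite D] {M : HMap D} {Q : D → Prop} {q e : D} (h : M.Disc Q q)
    (h2 : M.nx Q (M.nx Q q) = q) (he : Q e) (r : M.Reg Q q e) : e = q ∨ e = M.nx Q q := by
  obtain ⟨n, rfl⟩ := h.1 e he r
  clear he r
  induction n with
  | zero => exact Or.inl rfl
  | succ n ih =>
    rw [iterate_succ_apply']
    rcases ih with e | e <;> rw [e]
    exacts [Or.inr rfl, Or.inl h2]

theorem reg_sc {D : Type} [Finite D] {M : HMap D} {Q : D → Prop} {d e : D}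
    (h : M.φ.SameCycle d e) : M.Reg Q d e :=
  closed_sc (R := M.Reg Q d) (fun _ r => EqvGen.trans _ _ _ r (EqvGen.rel _ _ (Or.inl rfl))) h
    (EqvGen.refl _)

theorem t_card {k : ℕ} {V D : Type} [Finite D] {G : SimpleGraph V} {U : Set V} (S : Sk k G U D) :
    {d | S.IsT d}.ncard ≤ 4 * k := by
  have := (ncard_le_rel (s := {d | S.IsT d}) (t := (Set.univ : Set (Fin k × Fin 4)))
    (fun d b => d = (S.φ ^ b.2.1) (S.term b.1)) ?_
    (fun a _ a' _ b e e' => e.trans e'.symm) Set.finite_univ).2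
  · rw [Set.ncard_univ] at this
    simp at this
    omega
  · intro d h
    obtain ⟨i, e | e | e | e⟩ := isT_cases h
    exacts [⟨(i, 0), trivial, e⟩, ⟨(i, 1), trivial, e⟩, ⟨(i, 2), trivial, e⟩, ⟨(i, 3), trivial, e⟩]

theorem z_card {k : ℕ} {D : Type} [Finite D] (M : HMap D) (Q : D → Prop) (tm : Fin k → D) :
    {q | Q q ∧ M.Disc Q q ∧ M.nx Q (M.nx Q q) = q ∧ ∃ i, M.Reg Q q (tm i)}.ncard ≤ 2 * k := by
  choose g hg using fun (i : Fin k)
    (h : ∃ q, M.Disc Q q ∧ M.nx Q (M.nx Q q) = q ∧ M.Reg Q q (tm i)) => h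
  have := (ncard_le_rel
    (s := {q | Q q ∧ M.Disc Q q ∧ M.nx Q (M.nx Q q) = q ∧ ∃ i, M.Reg Q q (tm i)})
    (t := (Set.univ : Set (Fin k × Bool)))
    (fun d b => ∃ h, d = if b.2 then g b.1 h else M.nx Q (g b.1 h)) ?_
    (fun a _ a' _ b ⟨_, e⟩ ⟨_, e'⟩ => e.trans e'.symm) Set.finite_univ).2
  · rw [Set.ncard_univ] at this
    simp at this
    omega
  · rintro q ⟨h1, h2, h3, i, h4⟩
    obtain ⟨a, b, c⟩ := hg i ⟨q, h2, h3, h4⟩
    rcases orbit_two a b h1 (EqvGen.trans _ _ _ c h4.symm) with e | e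
    exacts [⟨(i, true), trivial, _, e⟩, ⟨(i, false), trivial, _, e⟩]

variable {k t : ℕ} {I K : Type} {P : Piece t I} {C : Ctx t K} {D : Type} [Finite D]
  {S : Sk k (glue P C) (glueU P C) D} {w : D → FG k} {X : D → Prop} {n : ℕ}

omit [Finite D] in
theorem qs_α (d : D) (h : Qs S X d) : Qs S X (S.α d) := by
  rcases h with h | ⟨r, s, s', h1, h2⟩
  · exact Or.inl (bi_α h)
  · exact Or.inr ⟨S.real_α d r, s', s, h2, by rwa [S.αα]⟩

omit [Finite D] in
theorem qs_bi (d : D) (h : Qs S X d) (r : ¬S.real d) : S.toHMap.Bi X d :=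
  h.resolve_right fun c => r c.1

omit [Finite D] in
theorem qs_edges : S.toHMap.Edges (Qs S X) := by
  refine fun q h => ⟨qs_α q h, fun e => ?_⟩
  rcases h with h | ⟨r, -⟩
  · exact h (by rw [e])
  · obtain ⟨u, v, h1, h2, a⟩ := S.real_adj q r
    rw [e, h1] at h2
    exact a.ne (Option.some.inj h2)

omit [Finite D] in
theorem qs_col (cx : ColX S X) : S.toHMap.Col (Qs S X) X :=
  ⟨cx.phi, fun _ h => (not_not.1 fun c => h (Or.inl c)).symm⟩

omit [Finite D] in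
theorem qs_neu (cx : ColX S X) {d : D} (h : Qs S X d) : ¬Inl S d ∧ ¬Out S d := by
  rcases h with h | ⟨-, s, s', h, -⟩
  · have v := S.vx_σ d
    have c := cx.phi (S.α d)
    unfold HMap.Bi at h
    constructor
    · rintro ⟨x, e⟩
      have := cx.inl d x e
      have := cx.inl _ x (v.trans e)
      tauto
    · rintro ⟨x, e, o⟩
      have := cx.inr d x e o
      have := cx.inr _ x (v.trans e) o
      tauto
  · constructor
    · rintro ⟨x, e⟩
      rw [h] at e; simp at e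
    · rintro ⟨x, e, o⟩
      rw [h] at e
      exact o ⟨s, by simpa using e⟩

omit [Finite D] in
theorem rq_card (cx : ColX S X) : {d | Qs S X d ∧ S.real d}.ncard ≤ t * t := by
  have key : ∀ d v, Qs S X d → S.vx d = some v → ∃ s, v = .inr (C.β s) := by
    rintro d (x | y) h e
    · exact absurd ⟨x, e⟩ (qs_neu cx h).1
    · obtain ⟨s, rfl⟩ : y ∈ Set.range C.β := by
        by_contra o; exact (qs_neu cx h).2 ⟨y, e, o⟩
      exact ⟨s, rfl⟩
  have := (ncard_le_rel (s := {d | Qs S X d ∧ S.real d}) (t := (Set.univ : Set (Fin t × Fin t)))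
    (fun d b => S.E d (.inr (C.β b.1)) (.inr (C.β b.2))) ?_ ?_ Set.finite_univ).2
  · rw [Set.ncard_univ] at this
    simpa using this
  · rintro d ⟨q, r⟩
    obtain ⟨u, v, h1, h2, -⟩ := S.real_adj d r
    obtain ⟨s, rfl⟩ := key d u q h1
    obtain ⟨s', rfl⟩ := key _ v (qs_α d q) h2
    exact ⟨(s, s'), trivial, h1, h2⟩
  · rintro d ⟨-, r⟩ e ⟨-, r'⟩ b h h'
    obtain ⟨u, v, h1, h2, a⟩ := S.real_adj d r
    exact (S.real_ex u v a).unique ⟨r, h1, h2⟩
      ⟨r', by rw [h'.1, ← h.1, h1], by rw [h'.2, ← h.2, h2]⟩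

theorem e_card (cx : ColX S X) (ni : NI S n) : {x | S.toHMap.Bi X x ∧
    Nxt S.toHMap.σ (S.toHMap.Bi X) x (S.α x) ∧ Nxt S.toHMap.σ (S.toHMap.Bi X) (S.α x) x}.ncard ≤
    2 * n := by
  obtain ⟨T, hT, h⟩ := ni
  have := (ncard_le_rel (s := {x | S.toHMap.Bi X x ∧
    Nxt S.toHMap.σ (S.toHMap.Bi X) x (S.α x) ∧ Nxt S.toHMap.σ (S.toHMap.Bi X) (S.α x) x})
    (t := T ×ˢ (Set.univ : Set Bool))
    (fun d b => S.toHMap.σ.SameCycle b.1 d ∧ (X d ↔ b.2 = true)) ?_ ?_ (Set.toFinite _)).2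
  · rw [Set.ncard_prod, Set.ncard_univ] at this
    simp at this
    omega
  · rintro d ⟨b, -⟩
    obtain ⟨e, he, s⟩ := h d (qs_neu cx (Or.inl b)).1 (qs_neu cx (Or.inl b)).2
    by_cases c : X d
    exacts [⟨(e, true), ⟨he, trivial⟩, s, by simp [c]⟩, ⟨(e, false), ⟨he, trivial⟩, s, by simp [c]⟩]
  · rintro d ⟨b, h1, h2⟩ e ⟨b', -⟩ u ⟨s, c⟩ ⟨s', c'⟩
    rcases nxt_two h1 h2 (s.symm.trans s') b' with rfl | rfl
    · rfl
    · exact absurd (c.trans c'.symm) b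

section
variable (k1 : K1) (k3 : K3) (mc : MChordSt) (mv : MoveSt) (ind : Indep (glue P C) (glueU P C))
  (top : S.Top) (val : S.Valid w) (cx : ColX S X) (ni : NI S n)
  (mn : ¬∃ m < {d | S.toHMap.Bi X d}.ncard, St k P C n m)
include k1 mc mv ind top val cx ni mn

theorem mono_card : {q | Qs S X q ∧ S.toHMap.Disc (Qs S X) q ∧ S.toHMap.nx (Qs S X) q = q}.ncard ≤
    2 * (t * t) + 6 * k + 2 * n := by
  have h1 := rq_card cx
  have h2 := z_card S.toHMap (Qs S X) S.term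
  have h3 := e_card cx ni
  have h4 := t_card S
  have h5 := (ncard_le_rel (s := {x | S.toHMap.Bi X x ∧ ∃ y, Nxt S.toHMap.σ (S.toHMap.Bi X) x y ∧
      S.α y ∈ {d | S.IsT d} ∪ {d | Qs S X d ∧ S.real d}})
    (t := {d | S.IsT d} ∪ {d | Qs S X d ∧ S.real d})
    (fun x p => Nxt S.toHMap.σ (S.toHMap.Bi X) x (S.α p))
    (fun x ⟨_, y, N, h⟩ => ⟨_, h, by rwa [S.αα]⟩)
    (fun x h x' h' _ N N' => Nxt.unique_left h.1 h'.1 N N') (Set.toFinite _)).2
  have h6 := Set.ncard_union_le {d | S.IsT d} {d | Qs S X d ∧ S.real d}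
  refine le_trans (le_trans (Set.ncard_le_ncard ?_) ((Set.ncard_union_le _ _).trans
    (add_le_add ((Set.ncard_union_le _ _).trans (add_le_add h1 h2))
      ((Set.ncard_union_le _ _).trans (add_le_add h3 (h5.trans h6)))))) (by omega)
  rintro x ⟨q, dc, e⟩
  by_cases rx : S.real x
  · exact Or.inl (Or.inl ⟨q, rx⟩)
  by_cases tx : ∃ i, S.toHMap.Reg (Qs S X) x (S.term i)
  · exact Or.inl (Or.inr ⟨q, dc, by rw [e, e], tx⟩)
  right
  have bx := qs_bi x q rx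
  have nt : ∀ d, S.toHMap.Reg (Qs S X) x d → ¬S.IsT d := fun d r ⟨i, h⟩ =>
    tx ⟨i, EqvGen.trans _ _ _ r (reg_sc h.symm)⟩
  have N := ret_nxt S.toHMap.σ (qs_α x q)
  change Nxt _ _ _ (S.toHMap.nx (Qs S X) x) at N
  rw [e] at N
  obtain ⟨y, hy⟩ := exists_nxt (Perm.SameCycle.refl S.toHMap.σ x) bx
  by_cases ne : y = S.α x
  · exact Or.inl ⟨bx, ne ▸ hy, nxt_sub N (fun _ => Or.inl) bx⟩
  refine Or.inr ⟨bx, y, hy, ?_⟩
  have qy : Qs S X (S.α y) := Or.inl (bi_α (nxt_q hy))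
  by_contra c
  obtain ⟨η, hη⟩ := disc_pot val.toPre qs_α dc nt
  have wx := hη x q (EqvGen.refl _)
  rw [e, mul_eq_left] at wx
  refine mn (move2' k1 mc mv ind top val cx ni bx rx (nt x (EqvGen.refl _)) wx (nxt_sc N).symm hy ne
    (fun s => ne ?_) (fun h => c (Or.inl h)) fun h => c (Or.inr ⟨qy, h⟩))
  have := orbit_two dc (by rw [e, e]) qy (reg_sc s)
  rw [e, or_self] at this
  rw [← this, S.αα]

omit k1 mc ind in
include k3 in
theorem pair {q : D} (g : ∀ r, r = q ∨ r = S.α q → Qs S X r ∧ S.toHMap.Disc (Qs S X) r ∧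
    S.toHMap.nx (Qs S X) r ≠ r ∧ S.toHMap.nx (Qs S X) (S.toHMap.nx (Qs S X) r) = r ∧
    (¬∃ i, S.toHMap.Reg (Qs S X) r (S.term i)) ∧ ¬S.real r ∧ ¬S.real (S.toHMap.nx (Qs S X) r)) :
    {d | Qs S X d}.ncard ≤ 4 := by
  obtain ⟨a1, a2, a3, a4, a5, a6, a7⟩ := g q (Or.inl rfl)
  obtain ⟨b1, b2, b3, b4, b5, b6, b7⟩ := g _ (Or.inr rfl)
  have N : ∀ r, Qs S X r → Nxt S.toHMap.σ (Qs S X) (S.α r) (S.toHMap.nx (Qs S X) r) :=
    fun r h => ret_nxt S.toHMap.σ (qs_α r h)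
  have n1 := N q a1
  have n2 := N _ (nxt_q n1)
  have n3 := N _ b1
  have n4 := N _ (nxt_q n3)
  have r1 := nxt_reg _ n1
  have r3 := nxt_reg _ n3
  rw [a4] at n2
  rw [b4] at n4
  set l := S.toHMap.nx (Qs S X) q
  set r := S.toHMap.nx (Qs S X) (S.α q)
  by_cases e : S.α l = r
  · have all : ∀ d, S.toHMap.Reg (Qs S X) q d ∨ S.toHMap.Reg (Qs S X) (S.α q) d := by
      have st : ∀ d, (S.toHMap.Reg (Qs S X) q d ∨ S.toHMap.Reg (Qs S X) (S.α q) d) →
          S.toHMap.Reg (Qs S X) q (S.α d) ∨ S.toHMap.Reg (Qs S X) (S.α q) (S.α d) := by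
        intro d h
        by_cases c : Qs S X d
        · rcases h with h | h
          · rcases orbit_two a2 a4 c h with rfl | rfl
            exacts [Or.inr (EqvGen.refl _), Or.inr (e ▸ r3)]
          · rcases orbit_two b2 b4 c h with rfl | h
            · rw [S.αα]; exact Or.inl (EqvGen.refl _)
            · rw [h]; change _ ∨ _ at *
              rw [show S.α r = l by rw [← e, S.αα]]
              exact Or.inl r1
        · exact h.imp (fun h => EqvGen.trans _ _ _ h (EqvGen.rel _ _ (Or.inr ⟨c, rfl⟩)))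
            fun h => EqvGen.trans _ _ _ h (EqvGen.rel _ _ (Or.inr ⟨c, rfl⟩))
      have key : ∀ d e, Conn S.φ S.α d e →
          ((S.toHMap.Reg (Qs S X) q d ∨ S.toHMap.Reg (Qs S X) (S.α q) d) ↔
            S.toHMap.Reg (Qs S X) q e ∨ S.toHMap.Reg (Qs S X) (S.α q) e) := by
        intro d e h
        induction h with
        | rel x y h =>
          rcases h with rfl | rfl
          · rw [(k3.col_reg _ _ q).1, (k3.col_reg _ _ (S.α q)).1]
          · exact ⟨st x, fun h => by have := st _ h; rwa [S.αα] at this⟩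
        | refl => rfl
        | symm _ _ _ ih => exact ih.symm
        | trans _ _ _ _ _ i j => exact i.trans j
      exact fun d => (key q d (top.1 q d)).1 (Or.inl (EqvGen.refl _))
    refine le_trans (Set.ncard_le_ncard (t := {q, l, S.α q, r}) fun d c => ?_)
      ((Set.ncard_insert_le _ _).trans (Nat.succ_le_succ ((Set.ncard_insert_le _ _).trans
        (Nat.succ_le_succ ((Set.ncard_insert_le _ _).trans (by simp))))))
    rcases all d with h | h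
    · rcases orbit_two a2 a4 c h with h | h <;> simp [h, l]
    · rcases orbit_two b2 b4 c h with h | h <;> simp [h, r]
  · exfalso
    have nt : ∀ x, (¬∃ i, S.toHMap.Reg (Qs S X) x (S.term i)) →
        ∀ d, S.toHMap.Reg (Qs S X) x d → ¬S.IsT d := fun x tx d r ⟨i, h⟩ =>
      tx ⟨i, EqvGen.trans _ _ _ r (reg_sc h.symm)⟩
    obtain ⟨η, hη⟩ := disc_pot val.toPre qs_α a2 (nt _ a5)
    obtain ⟨ζ, hζ⟩ := disc_pot val.toPre qs_α b2 (nt _ b5)
    have w1 := hη q a1 (EqvGen.refl _)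
    have w2 := hη l (nxt_q n1) r1
    have w3 := hζ _ b1 (EqvGen.refl _)
    have w4 := hζ r (nxt_q n3) r3
    rw [a4, ← w1, mul_assoc, mul_eq_left, mul_eq_one_iff_eq_inv] at w2
    rw [b4, ← w3, mul_assoc, mul_eq_left, val.inv, inv_mul_eq_one] at w4
    rw [S.αα] at n3
    refine mn (move3 mv top val cx ni qs_α qs_bi (r₁ := S.α l) (r₂ := q) (r₃ := r)
      (qs_α _ (nxt_q n1)) a1 (nxt_q n3) (fun c => a7 (by have := S.real_α _ c; rwa [S.αα] at this))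
      a6 b7 ?_ ?_ (by rwa [S.αα]) b3 e n2 n3 n4 (by rwa [S.αα]) (by rw [val.inv, w2]) w4)
    · rw [S.αα]; exact (k3.reg_col _ _ _ (qs_col cx) _ _ r1).symm
    · exact (k3.reg_col _ _ _ (qs_col cx) _ _ r3).symm

include k3 in
theorem q_card : {d | Qs S X d}.ncard ≤ 20 * (t * t) + 76 * k + 28 * n + 4 := by
  rcases Set.eq_empty_or_nonempty {d | Qs S X d} with e | ne
  · rw [e]; simp
  by_cases g : ∃ q, ∀ r, r = q ∨ r = S.α q → Qs S X r ∧ S.toHMap.Disc (Qs S X) r ∧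
    S.toHMap.nx (Qs S X) r ≠ r ∧ S.toHMap.nx (Qs S X) (S.toHMap.nx (Qs S X) r) = r ∧
    (¬∃ i, S.toHMap.Reg (Qs S X) r (S.term i)) ∧ ¬S.real r ∧ ¬S.real (S.toHMap.nx (Qs S X) r)
  · obtain ⟨q, g⟩ := g
    have := pair k3 mv top val cx ni mn g
    omega
  have h0 := k3.count S.toHMap (Qs S X) top.1 qs_edges ne
  have h1 := mono_card k1 mc mv ind top val cx ni mn
  have h2 : ncycAt S.toHMap.σ (Qs S X) ≤ n := by
    obtain ⟨T, hT, h⟩ := ni
    refine (k1.at_le _ _ (fun x : T => x.1) fun d q => ?_).trans hT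
    obtain ⟨e, he, s⟩ := h d (qs_neu cx q).1 (qs_neu cx q).2
    exact ⟨⟨e, he⟩, s⟩
  have h3 := top.2
  have h4 := rq_card cx
  have h5 := z_card S.toHMap (Qs S X) S.term
  have h6 := (ncard_le_rel (s := {q | Qs S X q ∧ S.real (S.toHMap.nx (Qs S X) q)})
    (t := {d | Qs S X d ∧ S.real d}) (fun q e => e = S.toHMap.nx (Qs S X) q)
    (fun q h => ⟨_, ⟨(k3.nx_q _ _ qs_edges q h.1).1, h.2⟩, rfl⟩)
    (fun q h q' h' _ e e' => k3.nx_inj _ _ qs_edges q q' h.1 h'.1 (e.symm.trans e'))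
    (Set.toFinite _)).2
  change (({q | Qs S X q ∧ ¬(S.toHMap.Disc (Qs S X) q ∧ S.toHMap.nx (Qs S X) q ≠ q ∧
      S.toHMap.nx (Qs S X) (S.toHMap.nx (Qs S X) q) = q)}.ncard : ℕ) : ℤ) ≤ _ + 4 *
    (({q | Qs S X q ∧ S.toHMap.Disc (Qs S X) q ∧ S.toHMap.nx (Qs S X) q = q}.ncard : ℕ) : ℤ) at h0
  set A := {q | Qs S X q ∧ ¬(S.toHMap.Disc (Qs S X) q ∧ S.toHMap.nx (Qs S X) q ≠ q ∧
      S.toHMap.nx (Qs S X) (S.toHMap.nx (Qs S X) q) = q)}
  set Z := {q | Qs S X q ∧ S.toHMap.Disc (Qs S X) q ∧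
    S.toHMap.nx (Qs S X) (S.toHMap.nx (Qs S X) q) = q ∧ ∃ i, S.toHMap.Reg (Qs S X) q (S.term i)}
  set R := {d | Qs S X d ∧ S.real d}
  set R' := {q | Qs S X q ∧ S.real (S.toHMap.nx (Qs S X) q)}
  have h7 : ((A ∪ Z) ∪ (R ∪ R')).ncard ≤ A.ncard + Z.ncard + (R.ncard + R'.ncard) :=
    (Set.ncard_union_le _ _).trans (add_le_add (Set.ncard_union_le _ _) (Set.ncard_union_le _ _))
  have h8 : {d | Qs S X d}.ncard ≤ ((A ∪ Z) ∪ (R ∪ R')).ncard + ((A ∪ Z) ∪ (R ∪ R')).ncard := by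
    refine le_trans (Set.ncard_le_ncard (t := ((A ∪ Z) ∪ (R ∪ R')) ∪ S.α '' ((A ∪ Z) ∪ (R ∪ R')))
      fun q hq => ?_) ((Set.ncard_union_le _ _).trans
        (add_le_add le_rfl (Set.ncard_image_le (Set.toFinite _))))
    by_contra c
    refine g ⟨q, fun r hr => ?_⟩
    have q1 : Qs S X r := by
      rcases hr with rfl | rfl
      exacts [hq, qs_α _ hq]
    have nm : r ∉ (A ∪ Z) ∪ (R ∪ R') := by
      rcases hr with rfl | rfl
      exacts [fun h => c (Or.inl h), fun h => c (Or.inr ⟨_, h, S.αα _⟩)]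
    obtain ⟨a, b, d⟩ := not_not.1 fun h => nm (Or.inl (Or.inl ⟨q1, h⟩))
    exact ⟨q1, a, b, d, fun h => nm (Or.inl (Or.inr ⟨q1, a, d, h⟩)),
      fun h => nm (Or.inr (Or.inl ⟨q1, h⟩)), fun h => nm (Or.inr (Or.inr ⟨q1, h⟩))⟩
  omega

end

end Norm

open Norm in
theorem norm (k1 : K1) (k3 : K3) (mc : MChordSt) (mv : MoveSt) (ms : MinSt) (e1 : E1St)
    (pr : PrepSt) : NormSt := by
  classical
  obtain ⟨h₁, e1⟩ := e1
  obtain ⟨h₂, pr⟩ := pr
  obtain ⟨h, hb⟩ := TB.both (κ := fun p : ℕ × ℕ => p.1 + p.2)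
    (f := fun p => 20 * (p.2 * p.2) + 76 * p.1 + 28 * (tw h₂ p.1 + p.2) + 4)
    (g := fun p => tw h₁ p.1)
    (((((TB.const 20).mul (TB.snd.mul TB.snd)).add ((TB.const 76).mul TB.fst)).add
      ((TB.const 28).mul ((TB.fst.tw h₂).add TB.snd))).add (TB.const 4)) (TB.fst.tw h₁)
  refine ⟨h, fun k t I K _ _ P C ⟨ind, cc, sol⟩ => ?_⟩
  obtain ⟨D, _, S, w, top, val, nf⟩ := pr k _ _ _ sol cc
  obtain ⟨D, _, S, w, X, a⟩ := colour mc _ D S w top val (pa_nf nf) (ni_nf nf) rfl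
  have ex : ∃ m, St k P C (tw h₂ k + t) m :=
    ⟨_, D, inferInstance, S, w, X, a.1, a.2.1, a.2.2.1, a.2.2.2, rfl⟩
  obtain ⟨D, _, S, w, X, top, val, cx, ni, e⟩ := Nat.find_spec ex
  have := q_card k1 k3 mc mv ind top val cx ni fun ⟨m, l, s⟩ => Nat.find_min ex (e ▸ l) s
  obtain ⟨w', val', min, -⟩ := (ms k _ D _ _ S w val).2
  exact ⟨D, inferInstance, S, w', X, top, val', cx, this.trans (hb (k, t)).1,
    fun d => (e1 k _ D _ _ S w' top val' min d).trans (hb (k, t)).2⟩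

end Pool.Agent.Lib.MP_c1f5fe_lc
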