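import Pool.Agent.Lib.MP_c1f5fe_lc.SpecC
import Pool.Agent.Lib.MP_c1f5fe_lc.Kit1a

/-! Local moves on a solution. -/

namespace Pool.Agent.Lib.MP_c1f5fe_lc

open Equiv Function Relation

namespace Ops2
open Kit1

section perm
variable {D : Type} [Finite D] [DecidableEq D]

theorem split_merge (π : Perm D) {x y z : D} (hne : x ≠ y) (h : π.SameCycle x y)
    (hz : π.SameCycle x z) (hn : ¬(π * swap x y).SameCycle y z) (d e : D) :
    (π * swap x y * swap y z).SameCycle d e ↔ π.SameCycle d e := by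
  obtain ⟨-, h2, h3, h4, -⟩ := sc_same π x y hne h
  have hxz : (π * swap x y).SameCycle x z := (h4 z hz.symm).resolve_right hn
  rw [sc_diff _ _ _ _ _ hn]
  constructor
  · have k : ∀ a, (π * swap x y).SameCycle a y ∨ (π * swap x y).SameCycle a z →
        π.SameCycle a x := by
      rintro a (e | e)
      · exact (h2 _ _ e).trans h.symm
      · exact (h2 _ _ e).trans hz.symm
    rintro (e | ⟨e, e'⟩)
    · exact h2 _ _ e
    · exact (k _ e).trans (k _ e').symm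
  · intro hde
    by_cases hd : π.SameCycle d x
    · have k : ∀ a, π.SameCycle a x →
          (π * swap x y).SameCycle a y ∨ (π * swap x y).SameCycle a z := fun a ha =>
        (h4 a ha).elim (fun e => Or.inr (e.symm.trans hxz)) fun e => Or.inl e.symm
      exact Or.inr ⟨k d hd, k e (hde.symm.trans hd)⟩
    · exact Or.inl (h3 d e hd hde)

omit [Finite D] [DecidableEq D] in
theorem nxt_sc {π : Perm D} {Q : D → Prop} {x y : D} (h : Nxt π Q x y) : π.SameCycle x y := by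
  obtain ⟨n, -, e, -⟩ := h
  exact ⟨n, by simpa using e⟩

theorem three (π : Perm D) {Q : D → Prop} {x y z : D} (hne : x ≠ y) (hzy : z ≠ y)
    (h : Nxt π Q x y) (hq : Q z) (hz : π.SameCycle x z) (d e : D) :
    (π * swap x y * swap y z).SameCycle d e ↔ π.SameCycle d e := by
  refine split_merge π hne (nxt_sc h) hz (fun hs => ?_) d e
  obtain ⟨j, j0, ej, hj⟩ := ((sc_same π x y hne (nxt_sc h)).2.2.2.2 z).1 hs
  obtain ⟨n, n0, en, -, hn⟩ := h
  rcases lt_trichotomy j n with l | l | l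
  · exact hn j j0 l (ej ▸ hq)
  · exact hzy (by rw [← ej, l, en])
  · exact hj n n0 l en

omit [Finite D] [DecidableEq D] in
theorem nxt_congr {π π' : Perm D} {Q : D → Prop} {x y : D} (h : Nxt π Q x y) (hx : π' x = π x)
    (hq : ∀ d, ¬Q d → π' d = π d) : Nxt π' Q x y := by
  obtain ⟨n, n0, en, qy, hn⟩ := h
  have key : ∀ m, m ≤ n → (π' ^ m) x = (π ^ m) x := by
    intro m
    induction m with
    | zero => simp
    | succ m ih =>
      intro l
      rw [pow_succ', pow_succ', Perm.mul_apply, Perm.mul_apply, ih (by omega)]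
      rcases Nat.eq_zero_or_pos m with rfl | m0
      · simpa using hx
      · exact hq _ (hn m m0 (by omega))
  exact ⟨n, n0, (key n le_rfl).trans en, qy, fun m m0 l => key m l.le ▸ hn m m0 l⟩

omit [Finite D] in
theorem pot_swap {H : Type} [Group H] {π : Perm D} {T : D → Prop} {w θ : D → H} {x y : D}
    (h : ∀ d, ¬T d → θ d * w d = θ (π d)) (e : θ (π x) = θ (π y)) (d : D) (hd : ¬T d) :
    θ d * w d = θ ((π * swap x y) d) := by
  rw [h d hd]
  by_cases h1 : d = x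
  · rw [h1, sw_x, e]
  by_cases h2 : d = y
  · rw [h2, sw_y, e]
  rw [sw_z π x y h1 h2]

omit [Finite D] in
theorem pot_merge {H : Type} [Group H] {π : Perm D} {T : D → Prop} {w θ : D → H} {x y : D}
    (h : ∀ d, ¬T d → θ d * w d = θ (π d)) (hn : ¬π.SameCycle x y) :
    ∃ η : D → H, ∀ d, ¬T d → η d * w d = η ((π * swap x y) d) := by
  classical
  refine ⟨fun d => if π.SameCycle x d then θ (π y) * (θ (π x))⁻¹ * θ d else θ d,
    pot_swap (fun d hd => ?_) ?_⟩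
  · simp only [Perm.sameCycle_apply_right]
    split_ifs
    · rw [mul_assoc, h d hd]
    · exact h d hd
  · simp [hn, Perm.SameCycle.refl]

omit [Finite D] in
theorem swap_al (M : HMap D) (x y : D) : swap x y * M.α = M.α * swap (M.α x) (M.α y) := by
  rw [mul_swap_eq_swap_mul, M.αα, M.αα]

omit [Finite D] [DecidableEq D] in
theorem al_sq (M : HMap D) : M.α * M.α = 1 := Perm.ext M.αα

omit [DecidableEq D] in
theorem tri_cases {π : Perm D} {e x : D} (h3 : π (π (π e)) = e) (h : π.SameCycle e x) :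
    x = e ∨ x = π e ∨ x = π (π e) := by
  refine sc_ind (P := fun x => x = e ∨ x = π e ∨ x = π (π e)) h (Or.inl rfl) ?_
  rintro z (rfl | rfl | rfl)
  · exact Or.inr (Or.inl rfl)
  · exact Or.inr (Or.inr rfl)
  · exact Or.inl h3

end perm

variable {k : ℕ} {V D : Type} [Finite D] {G : SimpleGraph V} {U : Set V}

theorem vx_sc (S : Sk k G U D) {d e : D} (h : S.toHMap.σ.SameCycle d e) : S.vx e = S.vx d :=
  sc_ind (P := fun z => S.vx z = S.vx d) h rfl fun z hz => (S.vx_σ z).trans hz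

omit [Finite D] in
theorem isT_sc (S : Sk k G U D) {d e : D} (h : S.φ.SameCycle d e) : S.IsT d ↔ S.IsT e :=
  exists_congr fun _ => ⟨fun a => a.trans h, fun a => a.trans h.symm⟩

omit [Finite D] in
theorem noCap_sc (S : Sk k G U D) {d e : D} (h : S.φ.SameCycle d e) (hd : S.NoCap d) :
    S.NoCap e := fun x z hx => hd x z (h.trans hx)

theorem sc_agree {π π' : Perm D} {A : D → Prop} (hA : ∀ d, A d → A (π d) ∧ π' d = π d) {d : D}
    (hd : A d) (e : D) : π'.SameCycle d e ↔ π.SameCycle d e := by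
  constructor
  · intro h
    refine (sc_ind (P := fun z => A z ∧ π.SameCycle d z) h ⟨hd, .refl _ _⟩ fun z hz => ?_).2
    rw [(hA z hz.1).2]
    exact ⟨(hA z hz.1).1, hz.2.trans (sc_step _ _)⟩
  · intro h
    refine (sc_ind (P := fun z => A z ∧ π'.SameCycle d z) h ⟨hd, .refl _ _⟩ fun z hz => ?_).2
    exact ⟨(hA z hz.1).1, (hA z hz.1).2 ▸ hz.2.trans (sc_step _ _)⟩

/-- a new map on the same darts with the same vertices -/
theorem resk (S : Sk k G U D) (M : HMap D)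
    (h1 : ∀ d e, M.σ.SameCycle d e ↔ S.toHMap.σ.SameCycle d e)
    (h2 : ∀ d, S.real d → M.α d = S.α d) (h3 : ∀ d, S.IsT d → M.φ d = S.φ d)
    (h4 : ∀ d, ¬S.NoCap d → M.φ d = S.φ d) (h5 : ∀ d, Conn M.φ M.α d (S.α d))
    (h6 : ncyc M.φ + ncyc M.α = ncyc S.φ + ncyc S.α) :
    ∃ S' : Sk k G U D, Same S S' ∧ S'.toHMap = M ∧ ∀ w, S.Valid w →
      (∀ d, w (M.α d) = (w d)⁻¹) → (∃ θ : D → FG k, ∀ d, ¬S.IsT d → θ d * w d = θ (M.φ d)) →
      S'.Valid w := by
  have t0 : ∀ i, S.IsT (S.term i) := fun i => ⟨i, .refl _ _⟩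
  have t1 : ∀ i, S.IsT (S.φ (S.term i)) := fun i => (S.isT_φ _).2 (t0 i)
  have t2 : ∀ i, S.IsT (S.φ (S.φ (S.term i))) := fun i => (S.isT_φ _).2 (t1 i)
  have t3 : ∀ i, S.IsT (S.φ (S.φ (S.φ (S.term i)))) := fun i => (S.isT_φ _).2 (t2 i)
  have ts : ∀ i d, M.φ.SameCycle (S.term i) d ↔ S.φ.SameCycle (S.term i) d := fun i =>
    sc_agree (A := S.IsT) (fun d hd => ⟨(S.isT_φ d).2 hd, h3 d hd⟩) (t0 i)
  let S' : Sk k G U D :=
    { toHMap := M
      vx := S.vx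
      real := S.real
      term := S.term
      ok := S.ok
      vx_σ := fun d => vx_sc S ((h1 _ _).1 (sc_step M.σ d))
      vx_cyc := fun d e v a b => (h1 _ _).2 (S.vx_cyc d e v a b)
      real_α := fun d h => by rw [h2 d h]; exact S.real_α d h
      real_adj := fun d h => by rw [h2 d h]; exact S.real_adj d h
      real_ex := fun u v h => by
        obtain ⟨d, hd, hu⟩ := S.real_ex u v h
        exact ⟨d, ⟨hd.1, hd.2.1, by rw [h2 d hd.1]; exact hd.2.2⟩,
          fun e he => hu e ⟨he.1, he.2.1, by rw [← h2 e he.1]; exact he.2.2⟩⟩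
      term_vx := fun i d h => S.term_vx i d ((ts i d).1 h)
      term_four := fun i => by
        rw [h3 _ (t0 i), h3 _ (t1 i), h3 _ (t2 i), h3 _ (t3 i), S.term_four]
      ok_symm := S.ok_symm
      ok_idx := S.ok_idx
      ok_once := S.ok_once
      cap := fun d z a b => by
        have c0 : ¬S.NoCap d := fun h => h d z (.refl _ _) a b
        have c1 : ¬S.NoCap (S.φ d) := fun h => c0 (noCap_sc S (sc_step _ _).symm h)
        have c2 : ¬S.NoCap (S.φ (S.φ d)) := fun h => c1 (noCap_sc S (sc_step _ _).symm h)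
        rw [h4 _ c0, h4 _ c1, h4 _ c2]
        exact S.cap d z a b }
  have hT : ∀ d, S'.IsT d ↔ S.IsT d := fun d => exists_congr fun i => ts i d
  refine ⟨S', ⟨rfl, rfl, rfl, rfl, ?_, fun hc d e => ?_, h1, hT⟩, rfl, fun w hw hi hp => ?_⟩
  · have : ncyc (M.φ * M.α) = ncyc (S.φ * S.α) := ncyc_congr h1
    have h7 : (ncyc M.φ : ℤ) + ncyc M.α = ncyc S.φ + ncyc S.α := by exact_mod_cast h6
    change chi M.φ M.α = chi S.φ S.α
    rw [chi, chi, this, h7]
  · refine conn_congr _ _ _ _ (fun x => conn_trans (h5 x) (conn_sc _ _ _ _ (Or.inr (Or.inr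
      (Or.inl ((h1 _ _).2 ?_)))))) h5 d e (hc d e)
    have := sc_step S.toHMap.σ (S.α x)
    rwa [HMap.σ_apply, S.αα] at this
  · obtain ⟨θ, hθ⟩ := hp
    refine ⟨⟨hi, ⟨θ, fun d hd => hθ d fun a => hd ((hT d).2 a)⟩, hw.t0, fun i => ?_, fun i => ?_,
      fun i => ?_⟩, hw.edge, hw.vert⟩
    · change w (M.φ (S.term i)) = _
      rw [h3 _ (t0 i), hw.t1]
    · change w (M.φ (M.φ (S.term i))) = _
      rw [h3 _ (t0 i), h3 _ (t1 i), hw.t2]
    · change w (M.φ (M.φ (M.φ (S.term i)))) = _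
      rw [h3 _ (t0 i), h3 _ (t1 i), h3 _ (t2 i), hw.t3]

variable [DecidableEq D]

theorem mv (S : Sk k G U D) (a q p : D) (haq : a ≠ q) (s : S.φ.SameCycle a q)
    (n : ¬S.φ.SameCycle a p) (ta : ¬S.IsT a) (tp : ¬S.IsT p) (ca : S.NoCap a) (cp : S.NoCap p)
    (s1 : S.toHMap.σ.SameCycle (S.α a) (S.α q)) (s2 : S.toHMap.σ.SameCycle (S.α a) (S.α p))
    (n2 : ¬(S.toHMap.σ * Equiv.swap (S.α a) (S.α q)).SameCycle (S.α q) (S.α p)) :
    ∃ S' : Sk k G U D, Same S S' ∧ S'.φ = S.φ * Equiv.swap a q * Equiv.swap q p ∧ S'.α = S.α ∧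
      ∀ w θ : D → FG k, S.Valid w → (∀ d, ¬S.IsT d → θ d * w d = θ (S.φ d)) →
        θ (S.φ a) = θ (S.φ q) → S'.Valid w := by
  let M : HMap D := ⟨S.φ * swap a q * swap q p, S.α, S.αα⟩
  have eσ : M.σ = S.toHMap.σ * swap (S.α a) (S.α q) * swap (S.α q) (S.α p) := by
    change S.φ * swap a q * swap q p * S.α = S.φ * S.α * _ * _
    rw [mul_assoc _ _ S.α, swap_al S.toHMap, ← mul_assoc, mul_assoc _ _ S.α, swap_al S.toHMap,
      ← mul_assoc]
  have off : ∀ d, d ≠ a → d ≠ q → d ≠ p → M.φ d = S.φ d := fun d h1 h2 h3 =>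
    (sw_z _ q p h2 h3).trans (sw_z _ a q h1 h2)
  have n1 : ¬(S.φ * swap a q).SameCycle q p := fun h =>
    n (s.trans ((sc_same S.φ a q haq s).2.1 _ _ h))
  obtain ⟨S', h1, h2, h3⟩ := resk S M
    (fun d e => by rw [eσ]; exact split_merge _ (S.α.injective.ne haq) s1 s2 n2 d e)
    (fun _ _ => rfl)
    (fun d hd => off d (fun e => ta (e ▸ hd)) (fun e => ta ((isT_sc S s).2 (e ▸ hd)))
      fun e => tp (e ▸ hd))
    (fun d hd => off d (fun e => hd (e ▸ ca)) (fun e => hd (e ▸ noCap_sc S s ca))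
      fun e => hd (e ▸ cp))
    (fun d => conn_b _ _ d)
    (by
      have e1 := swap_same S.φ a q haq s
      have e2 := swap_diff _ q p n1
      change ncyc (S.φ * swap a q * swap q p) + ncyc S.α = _
      omega)
  exact ⟨S', h1, by rw [h2], by rw [h2], fun w θ hw hθ e =>
    h3 w hw hw.inv (pot_merge (pot_swap hθ e) n1)⟩

theorem m2 (S : Sk k G U D) (x p : D) (hx : S.α x ≠ x) (hp : p ≠ S.α x) (rx : ¬S.real x)
    (tx : ¬S.IsT x) (tp : ¬S.IsT p) (n : ¬S.φ.SameCycle x p) (cp : S.NoCap p)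
    (s1 : S.toHMap.σ.SameCycle x (S.α x)) (s2 : S.toHMap.σ.SameCycle x (S.α p))
    (n2 : ¬(S.toHMap.σ * Equiv.swap x (S.α x)).SameCycle x (S.α p)) :
    ∃ S' : Sk k G U D, Same S S' ∧ S'.φ = S.φ * Equiv.swap x p ∧
      S'.α = S.α * Equiv.swap x (S.α x) ∧ ∀ w, S.Valid w → w x = 1 → S'.Valid w := by
  have rx' : ¬S.real (S.α x) := fun h => rx (S.αα x ▸ S.real_α _ h)
  have a1 : (S.α * swap x (S.α x)) x = x := by rw [sw_x, S.αα]
  have a2 : (S.α * swap x (S.α x)) (S.α x) = S.α x := sw_y _ _ _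
  have a3 : ∀ d, d ≠ x → d ≠ S.α x → (S.α * swap x (S.α x)) d = S.α d := fun d => sw_z _ _ _
  let M : HMap D := ⟨S.φ * swap x p, S.α * swap x (S.α x), fun d => by
    by_cases h1 : d = x
    · rw [h1, a1, a1]
    by_cases h2 : d = S.α x
    · rw [h2, a2, a2]
    rw [a3 d h1 h2, a3 _ (fun e => h2 (by rw [← e, S.αα])) (S.α.injective.ne h1), S.αα]⟩
  have hpx : p ≠ x := fun e => n (e.symm.sameCycle _)
  have eσ : M.σ = S.toHMap.σ * swap (S.α x) x * swap x (S.α p) := by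
    change S.φ * swap x p * (S.α * swap x (S.α x)) = S.φ * S.α * _ * _
    rw [← mul_assoc, mul_assoc _ _ S.α, swap_al S.toHMap, ← mul_assoc, mul_assoc (S.φ * S.α),
      mul_assoc (S.φ * S.α), mul_swap_eq_swap_mul (swap (S.α x) x), swap_apply_right,
      swap_apply_of_ne_of_ne (S.α.injective.ne hpx) (fun e => hp (by rw [← e, S.αα])),
      swap_comm x]
  have cx : S.NoCap x := by
    intro e z s hz hU
    obtain ⟨r, h3, y, y', v1, v2, adj⟩ := S.cap e z hz hU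
    have ev : S.vx (S.φ x) = S.vx x := (S.vx_φ x).trans (vx_sc S s1)
    rcases tri_cases h3 s.symm with rfl | rfl | rfl
    · exact rx r
    · rw [v1, v2] at ev
      exact adj.ne (Option.some.inj ev).symm
    · exact rx' (S.cap _ z (by rw [← S.vx_φ, h3, hz]) hU).1
  have h1 : ∀ d e, M.σ.SameCycle d e ↔ S.toHMap.σ.SameCycle d e := fun d e => by
    rw [eσ]
    exact split_merge _ hx s1.symm (s1.symm.trans s2) (by rwa [swap_comm]) d e
  have c1 : Conn M.φ M.α x (S.α x) := conn_sc _ _ _ _ (Or.inr (Or.inr (Or.inl ((h1 _ _).2 s1))))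
  obtain ⟨S', h1, h2, h3⟩ := resk S M h1
    (fun d hd => a3 d (fun e => rx (e ▸ hd)) fun e => rx' (e ▸ hd))
    (fun d hd => sw_z _ _ _ (fun e => tx (e ▸ hd)) fun e => tp (e ▸ hd))
    (fun d hd => sw_z _ _ _ (fun e => hd (e ▸ cx)) fun e => hd (e ▸ cp))
    (fun d => by
      by_cases h1 : d = x
      · exact h1 ▸ c1
      by_cases h2 : d = S.α x
      · rw [h2, S.αα]; exact conn_symm c1
      rw [← a3 d h1 h2]
      exact conn_b _ _ d)
    (by
      have e1 := swap_same S.α x (S.α x) hx.symm (sc_step _ _)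
      have e2 := swap_diff _ x p n
      change ncyc (S.φ * swap x p) + ncyc (S.α * swap x (S.α x)) = _
      omega)
  refine ⟨S', h1, by rw [h2], by rw [h2], fun w hw e => h3 w hw (fun d => ?_)
    (hw.pot.elim fun θ hθ => pot_merge hθ n)⟩
  change w ((S.α * swap x (S.α x)) d) = _
  by_cases h1 : d = x
  · rw [h1, a1, e, inv_one]
  by_cases h2 : d = S.α x
  · rw [h2, a2, hw.inv, e, inv_one, inv_one]
  rw [a3 d h1 h2, hw.inv]

theorem m3 (S : Sk k G U D) (r₁ r₂ r₃ : D) (Q : D → Prop)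
    (nd : [r₁, r₂, r₃, S.α r₁, S.α r₂, S.α r₃].Nodup)
    (hQ : ∀ d ∈ [r₁, r₂, r₃, S.α r₁, S.α r₂, S.α r₃], Q d ∧ ¬S.real d)
    (n1 : Nxt S.toHMap.σ Q r₁ r₂) (n2 : Nxt S.toHMap.σ Q r₂ r₃)
    (n3 : Nxt S.toHMap.σ Q (S.α r₃) (S.α r₂)) (n4 : Nxt S.toHMap.σ Q (S.α r₂) (S.α r₁)) :
    ∃ S' : Sk k G U D, Same S S' ∧ S'.φ = S.φ ∧ S'.α r₁ = S.α r₂ ∧ S'.α r₃ = S.α r₁ ∧
      S'.α r₂ = S.α r₃ ∧ (∀ d, d ∉ [r₁, r₂, r₃, S.α r₁, S.α r₂, S.α r₃] → S'.α d = S.α d) ∧
      ∀ w, S.Valid w → w r₁ = w r₂ → w r₂ = w r₃ → S'.Valid w := by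
  simp only [List.nodup_cons, List.mem_cons, List.not_mem_nil, or_false, not_or,
    List.nodup_nil, and_true, not_false_eq_true] at nd
  obtain ⟨⟨d12, d13, e11, e12, e13⟩, ⟨d23, e21, e22, e23⟩, ⟨e31, e32, e33⟩, -⟩ := nd
  set ρ : Perm D := swap r₁ r₂ * swap r₂ r₃ with hρ
  have ρ1 : ρ r₁ = r₂ := by simp [hρ, swap_apply_of_ne_of_ne d12 d13]
  have ρ2 : ρ r₂ = r₃ := by simp [hρ, swap_apply_of_ne_of_ne (Ne.symm d13) (Ne.symm d23)]
  have ρ3 : ρ r₃ = r₁ := by simp [hρ]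
  have ρ0 : ∀ d, d ≠ r₁ → d ≠ r₂ → d ≠ r₃ → ρ d = d := fun d a b c => by
    simp [hρ, swap_apply_of_ne_of_ne b c, swap_apply_of_ne_of_ne a b]
  have ρi : ∀ d, d ≠ r₁ → d ≠ r₂ → d ≠ r₃ → ρ⁻¹ d = d := fun d a b c => by
    rw [Perm.inv_eq_iff_eq, ρ0 d a b c]
  let M : HMap D := ⟨S.φ, ρ⁻¹ * S.α * ρ, fun d => by simp [S.αα]⟩
  have ea : ∀ d, M.α d = ρ⁻¹ (S.α (ρ d)) := fun _ => rfl
  have a1 : M.α r₁ = S.α r₂ := by rw [ea, ρ1, ρi _ (Ne.symm e12) (Ne.symm e22) (Ne.symm e32)]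
  have a2 : M.α r₂ = S.α r₃ := by rw [ea, ρ2, ρi _ (Ne.symm e13) (Ne.symm e23) (Ne.symm e33)]
  have a3 : M.α r₃ = S.α r₁ := by rw [ea, ρ3, ρi _ (Ne.symm e11) (Ne.symm e21) (Ne.symm e31)]
  have a0 : ∀ d, d ∉ [r₁, r₂, r₃, S.α r₁, S.α r₂, S.α r₃] → M.α d = S.α d := by
    intro d hd
    simp only [List.mem_cons, List.not_mem_nil, or_false, not_or] at hd
    obtain ⟨b1, b2, b3, b4, b5, b6⟩ := hd
    rw [ea, ρ0 d b1 b2 b3, ρi _ (fun e => b4 (by rw [← e, S.αα])) (fun e => b5 (by rw [← e, S.αα]))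
      fun e => b6 (by rw [← e, S.αα])]
  have eσ : M.σ = S.toHMap.σ * swap (S.α r₃) (S.α r₂) * swap (S.α r₂) (S.α r₁) * swap r₁ r₂ *
      swap r₂ r₃ := by
    change S.φ * (ρ⁻¹ * S.α * ρ) = S.φ * S.α * _ * _ * _ * _
    rw [hρ, mul_inv_rev, swap_inv, swap_inv, mul_assoc _ _ S.α, swap_al S.toHMap, ← mul_assoc _ S.α,
      swap_al S.toHMap, swap_comm (S.α r₃), swap_comm (S.α r₂) (S.α r₁)]
    simp only [mul_assoc]
  have q := fun d hd => (hQ d hd).1
  have k1 := three S.toHMap.σ (S.α.injective.ne (Ne.symm d23)) (S.α.injective.ne d12) n3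
    (q _ (by simp)) ((nxt_sc n3).trans (nxt_sc n4))
  have off : ∀ d, d ≠ S.α r₁ → d ≠ S.α r₂ → d ≠ S.α r₃ →
      (S.toHMap.σ * swap (S.α r₃) (S.α r₂) * swap (S.α r₂) (S.α r₁)) d = S.toHMap.σ d :=
    fun d b1 b2 b3 => (sw_z _ _ _ b2 b1).trans (sw_z _ _ _ b3 b2)
  have n1' := nxt_congr n1 (off _ e11 e12 e13) fun d hd => off d
    (fun e => hd (e ▸ q _ (by simp))) (fun e => hd (e ▸ q _ (by simp)))
    fun e => hd (e ▸ q _ (by simp))
  have h1 : ∀ d e, M.σ.SameCycle d e ↔ S.toHMap.σ.SameCycle d e := fun d e => by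
    rw [eσ, three _ d12 (Ne.symm d23) n1' (q _ (by simp))
      ((k1 _ _).2 ((nxt_sc n1).trans (nxt_sc n2))), k1]
  have cs : ∀ {d e}, S.toHMap.σ.SameCycle d e → Conn M.φ M.α d e := fun h =>
    conn_sc _ _ _ _ (Or.inr (Or.inr (Or.inl ((h1 _ _).2 h))))
  have c12 := cs (nxt_sc n1)
  have c23 := cs (nxt_sc n2)
  have c32 := cs (nxt_sc n3)
  have c21 := cs (nxt_sc n4)
  have c0 : Conn M.φ M.α r₁ (S.α r₂) := a1 ▸ conn_b _ _ r₁
  have c1 := conn_trans c0 c21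
  have c2 := conn_trans (conn_symm c12) c0
  have c3 := conn_trans (conn_trans (conn_symm c23) c2) (conn_symm c32)
  obtain ⟨S', h1, h2, h3⟩ := resk S M h1 (fun d hd => a0 d fun h => (hQ d h).2 hd)
    (fun _ _ => rfl) (fun _ _ => rfl)
    (fun d => by
      by_cases hd : d ∈ [r₁, r₂, r₃, S.α r₁, S.α r₂, S.α r₃]
      · simp only [List.mem_cons, List.not_mem_nil, or_false] at hd
        rcases hd with rfl | rfl | rfl | rfl | rfl | rfl
        exacts [c1, c2, c3, by rw [S.αα]; exact conn_symm c1, by rw [S.αα]; exact conn_symm c2,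
          by rw [S.αα]; exact conn_symm c3]
      · rw [← a0 d hd]
        exact conn_b _ _ d)
    (by
      change ncyc S.φ + ncyc (ρ⁻¹ * S.α * ρ) = _
      rw [ncyc_comm, ← mul_assoc, mul_inv_cancel, one_mul])
  refine ⟨S', h1, by rw [h2], by rw [h2, a1], by rw [h2, a3], by rw [h2, a2],
    fun d hd => by rw [h2, a0 d hd], fun w hw w1 w2 => h3 w hw (fun d => ?_) hw.pot⟩
  have wρ : ∀ d, w (ρ d) = w d := by
    intro d
    by_cases b1 : d = r₁
    · rw [b1, ρ1, w1]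
    by_cases b2 : d = r₂
    · rw [b2, ρ2, w2]
    by_cases b3 : d = r₃
    · rw [b3, ρ3, w1, w2]
    rw [ρ0 d b1 b2 b3]
  rw [ea, ← wρ, ← Perm.mul_apply, mul_inv_cancel, Perm.one_apply, hw.inv, wρ]

end Ops2

theorem move (_ : K1) : MoveSt := by
  classical
  exact ⟨fun S => Ops2.mv S, fun S => Ops2.m2 S, fun S => Ops2.m3 S⟩

end Pool.Agent.Lib.MP_c1f5fe_lc
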