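import Pool.Agent.Lib.MP_c1f5fe_lc.SpecA

/-! On the sphere a cocycle that is trivial on all faces but one is a coboundary. -/

namespace Pool.Agent.Lib.MP_c1f5fe_lc

open Equiv Function Relation

namespace PL2

variable {D : Type}

theorem fix_of_le [Finite D] (a : Perm D) (h : Nat.card D ≤ ncyc a) (d : D) : a d = d := by
  have s : Surjective (Quotient.mk (Perm.SameCycle.setoid a)) := Quotient.mk_surjective
  have b := s.bijective_of_nat_card_le h
  apply b.1
  exact Quotient.sound (Perm.sameCycle_apply_left.2 (Perm.SameCycle.refl a d))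

theorem ncyc_le_one [Finite D] (a : Perm D) (h : ∀ x y, a.SameCycle x y) : ncyc a ≤ 1 := by
  unfold ncyc
  rw [Finite.card_le_one_iff_subsingleton]
  constructor
  intro x y
  induction x using Quotient.inductionOn
  induction y using Quotient.inductionOn
  exact Quotient.sound (h _ _)

theorem sc_of_conn (a b π : Perm D) (ha : ∀ x, π.SameCycle x (a x)) (hb : ∀ x, π.SameCycle x (b x))
    {x y : D} (h : Conn a b x y) : π.SameCycle x y := by
  induction h with
  | rel x y h => rcases h with rfl | rfl; exacts [ha x, hb x]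
  | refl x => exact Perm.SameCycle.refl π x
  | symm x y _ ih => exact ih.symm
  | trans x y z _ _ i j => exact i.trans j

theorem const_sc [Finite D] {B : Type} (π : Perm D) (c : D → B) (h : ∀ d, c (π d) = c d) {x y : D}
    (s : π.SameCycle x y) : c y = c x := by
  obtain ⟨n, rfl⟩ := s.exists_nat_pow_eq
  induction n with
  | zero => rfl
  | succ n ih =>
    rw [pow_succ', Perm.mul_apply, h]
    exact ih ⟨n, by simp⟩

theorem round [Finite D] {B : Type} (π : Perm D) (u : D → B) (e : D)
    (h : ∀ d, π.SameCycle e d → d ≠ e → u (π d) = u d) : u (π e) = u e := by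
  obtain ⟨z, n, n0, hz, rfl, hm⟩ := exists_nxt (Q := fun x => x = e) (Perm.SameCycle.refl π e) rfl
  have key : ∀ j, 0 < j → j ≤ n → u ((π ^ j) z) = u (π z) := by
    intro j j0 jn
    induction j with
    | zero => omega
    | succ j ih =>
      rcases Nat.eq_zero_or_pos j with rfl | p
      · simp
      · rw [pow_succ', Perm.mul_apply, h _ ⟨j, by simp⟩ (hm j p (by omega)), ih p (by omega)]
  rw [← key n n0 le_rfl, hz]

section tog
variable [DecidableEq D] (M : HMap D) (e : D)

theorem sw_comm : M.α * Equiv.swap e (M.α e) = Equiv.swap e (M.α e) * M.α := by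
  ext x
  have := M.αα
  simp only [Perm.mul_apply, swap_apply_def]
  have inj := M.α.injective
  split_ifs <;> grind

theorem tog_e : (M.α * Equiv.swap e (M.α e)) e = e := by simp [M.αα]

theorem tog_α : (M.α * Equiv.swap e (M.α e)) (M.α e) = M.α e := by simp

theorem tog_o {d : D} (h : d ≠ e) (h' : d ≠ M.α e) : (M.α * Equiv.swap e (M.α e)) d = M.α d := by
  simp [swap_apply_of_ne_of_ne h h']

theorem tog_inv (d : D) :
    (M.α * Equiv.swap e (M.α e)) ((M.α * Equiv.swap e (M.α e)) d) = d := by
  by_cases h : d = e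
  · rw [h, tog_e, tog_e]
  by_cases h' : d = M.α e
  · rw [h', tog_α, tog_α]
  have a : M.α d ≠ e := fun q => h' (by rw [← q, M.αα])
  have b : M.α d ≠ M.α e := fun q => h (M.α.injective q)
  rw [tog_o M e h h', tog_o M e a b, M.αα]

/-- delete the edge of `e` -/
def del : HMap D where
  φ := M.φ * Equiv.swap e (M.α e)
  α := M.α * Equiv.swap e (M.α e)
  αα := tog_inv M e

/-- contract the edge of `e` -/
def con : HMap D where
  φ := M.φ
  α := M.α * Equiv.swap e (M.α e)
  αα := tog_inv M e

theorem del_σ : (del M e).σ = M.σ := by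
  show M.φ * Equiv.swap e (M.α e) * (M.α * Equiv.swap e (M.α e)) = M.φ * M.α
  rw [sw_comm, mul_assoc, ← mul_assoc (Equiv.swap e (M.α e)), swap_mul_self, one_mul]

theorem con_σ : (con M e).σ = M.σ * Equiv.swap e (M.α e) := by
  show M.φ * (M.α * Equiv.swap e (M.α e)) = M.φ * M.α * _
  rw [mul_assoc]

end tog

def Goal (n : ℕ) : Prop :=
  ∀ (D H : Type) [Finite D] [Group H] (M : HMap D) (w θ : D → H) (d₀ : D),
    Nat.card D ≤ ncyc M.α + n → M.Con → 2 ≤ M.chi →
    (∀ d, w (M.α d) = (w d)⁻¹) → (∀ d, M.α d = d → w d = 1) →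
    (∀ d, ¬M.φ.SameCycle d₀ d → θ d * w d = θ (M.φ d)) →
    ∃ c : D → H, (∀ d, c (M.σ d) = c d) ∧ ∀ d, c d * w d = c (M.α d)

theorem triv {H : Type} [Finite D] [Group H] (M : HMap D) (w : D → H) (h : Nat.card D ≤ ncyc M.α)
    (h1 : ∀ d, M.α d = d → w d = 1) :
    ∃ c : D → H, (∀ d, c (M.σ d) = c d) ∧ ∀ d, c d * w d = c (M.α d) :=
  ⟨fun _ => 1, fun _ => rfl, fun d => by rw [h1 d (fix_of_le _ h d), one_mul]⟩

theorem step_del (K : K1) {n : ℕ} (ih : Goal n) {H : Type} [Finite D] [Group H] (M : HMap D)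
    (w θ : D → H) (d₀ e : D) (hn : Nat.card D ≤ ncyc M.α + (n + 1)) (hc : M.Con) (h2 : 2 ≤ M.chi)
    (hw : ∀ d, w (M.α d) = (w d)⁻¹) (h1 : ∀ d, M.α d = d → w d = 1)
    (hθ : ∀ d, ¬M.φ.SameCycle d₀ d → θ d * w d = θ (M.φ d))
    (he : ¬M.φ.SameCycle e (M.α e)) (h0 : ¬M.φ.SameCycle d₀ e) :
    ∃ c : D → H, (∀ d, c (M.σ d) = c d) ∧ ∀ d, c d * w d = c (M.α d) := by
  classical
  have ne : e ≠ M.α e := fun q => he (q ▸ Perm.SameCycle.refl _ _)
  have na : ncyc (del M e).α = ncyc M.α + 1 :=
    K.swap_same M.α e (M.α e) ne (Perm.sameCycle_apply_right.2 (Perm.SameCycle.refl _ _))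
  have nf : ncyc (del M e).φ + 1 = ncyc M.φ := K.swap_diff M.φ e (M.α e) he
  have sc : ∀ a b, (del M e).φ.SameCycle a b ↔ M.φ.SameCycle a b ∨
      ((M.φ.SameCycle a e ∨ M.φ.SameCycle a (M.α e)) ∧
        (M.φ.SameCycle b e ∨ M.φ.SameCycle b (M.α e))) :=
    fun a b => K.sc_diff M.φ e (M.α e) a b he
  have rf : ∀ a, M.φ.SameCycle a a := Perm.SameCycle.refl _
  have hc' : (del M e).Con := by
    intro x y
    refine K.conn_congr _ _ M.φ M.α (fun x => ?_) (fun x => ?_) x y (hc x y)
    · exact K.conn_sc _ _ _ _ (.inl ((sc _ _).2 (.inl (Perm.sameCycle_apply_right.2 (rf x)))))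
    · by_cases h : x = e
      · subst h
        exact K.conn_sc _ _ _ _ (.inl ((sc _ _).2 (.inr ⟨.inl (rf _), .inr (rf _)⟩)))
      by_cases h' : x = M.α e
      · subst h'
        rw [M.αα]
        exact K.conn_sc _ _ _ _ (.inl ((sc _ _).2 (.inr ⟨.inr (rf _), .inl (rf _)⟩)))
      · rw [← tog_o M e h h']
        exact EqvGen.rel _ _ (.inr rfl)
  have h2' : 2 ≤ (del M e).chi := by
    have s : (del M e).φ * (del M e).α = M.φ * M.α := del_σ M e
    unfold HMap.chi chi at h2 ⊢
    rw [s]
    omega
  let g : H := θ (M.α e) * (w e)⁻¹ * (θ e)⁻¹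
  obtain ⟨c, c1, c2⟩ := ih D H (del M e) (fun d => if d = e ∨ d = M.α e then 1 else w d)
    (fun d => if M.φ.SameCycle e d then g * θ d else θ d) d₀ (by omega) hc' h2'
    (fun d => by
      by_cases h : d = e
      · subst h
        have t : (del M d).α d = d := tog_e M d
        simp [t]
      by_cases h' : d = M.α e
      · subst h'
        have t : (del M e).α (M.α e) = M.α e := tog_α M e
        simp [t]
      have a : M.α d ≠ e := fun q => h' (by rw [← q, M.αα])
      have b : M.α d ≠ M.α e := fun q => h (M.α.injective q)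
      have t : (del M e).α d = M.α d := tog_o M e h h'
      simp only [t, a, b, h, h', or_self, if_false, hw])
    (fun d hd => by
      by_cases h : d = e
      · simp [h]
      by_cases h' : d = M.α e
      · simp [h']
      have t : (del M e).α d = M.α d := tog_o M e h h'
      simp only [h, h', or_self, if_false]
      exact h1 d (t ▸ hd))
    (fun d hd => by
      rw [sc] at hd
      have hd1 : ¬M.φ.SameCycle d₀ d := fun q => hd (.inl q)
      by_cases h : d = e
      · subst h
        have t : (del M d).φ d = M.φ (M.α d) := by simp [del]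
        have q : ¬M.φ.SameCycle d₀ (M.α d) := fun q => hd (.inr ⟨.inr q, .inl (rf _)⟩)
        simp only [t, Perm.sameCycle_apply_right, rf, he, true_or, if_true, if_false]
        rw [← hθ _ q, hw]
        simp only [g]; group
      by_cases h' : d = M.α e
      · subst h'
        have t : (del M e).φ (M.α e) = M.φ e := by simp [del]
        simp only [t, Perm.sameCycle_apply_right, rf, he, or_true, if_true, if_false]
        rw [← hθ _ h0]
        simp only [g]; group
      have t : (del M e).φ d = M.φ d := by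
        simp [del, swap_apply_of_ne_of_ne h h']
      simp only [t, Perm.sameCycle_apply_right, h, h', or_self, if_false]
      split_ifs
      · rw [mul_assoc, hθ d hd1]
      · exact hθ d hd1)
  rw [del_σ] at c1
  have c3 : ∀ d, d ≠ e → d ≠ M.α e → c d * w d = c (M.α d) := by
    intro d h h'
    have t : (del M e).α d = M.α d := tog_o M e h h'
    have := c2 d
    simp only [t, h, h', or_self, if_false] at this
    exact this
  have c4 : ∀ d, c (M.φ d) = c (M.α d) := fun d => by
    rw [← c1 (M.α d), M.σ_apply, M.αα]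
  have r := round M.φ (fun d => c d * (θ d)⁻¹) e (fun d s h => by
    have h' : d ≠ M.α e := fun q => he (q ▸ s)
    have q : ¬M.φ.SameCycle d₀ d := fun q => h0 (q.trans s.symm)
    show c (M.φ d) * (θ (M.φ d))⁻¹ = c d * (θ d)⁻¹
    rw [c4, ← c3 d h h', ← hθ d q]; group)
  have c5 : c e * w e = c (M.α e) := by
    have r' : c (M.φ e) * (θ (M.φ e))⁻¹ = c e * (θ e)⁻¹ := r
    rw [c4, ← hθ e h0] at r'
    calc c e * w e = c e * (θ e)⁻¹ * (θ e * w e) := by group
      _ = c (M.α e) * (θ e * w e)⁻¹ * (θ e * w e) := by rw [r']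
      _ = c (M.α e) := by group
  refine ⟨c, c1, fun d => ?_⟩
  by_cases h : d = e
  · rw [h, c5]
  by_cases h' : d = M.α e
  · rw [h', hw, M.αα, ← c5]; group
  exact c3 d h h'

theorem step_con (K : K1) {n : ℕ} (ih : Goal n) {H : Type} [Finite D] [Group H] (M : HMap D)
    (w : D → H) (e : D) (hn : Nat.card D ≤ ncyc M.α + (n + 1)) (h2 : 2 ≤ M.chi)
    (hw : ∀ d, w (M.α d) = (w d)⁻¹) (h1 : ∀ d, M.α d = d → w d = 1)
    (one : ∀ x y, M.φ.SameCycle x y) (he : ¬M.σ.SameCycle e (M.α e)) :
    ∃ c : D → H, (∀ d, c (M.σ d) = c d) ∧ ∀ d, c d * w d = c (M.α d) := by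
  classical
  have ne : e ≠ M.α e := fun q => he (q ▸ Perm.SameCycle.refl _ _)
  have na : ncyc (con M e).α = ncyc M.α + 1 :=
    K.swap_same M.α e (M.α e) ne (Perm.sameCycle_apply_right.2 (Perm.SameCycle.refl _ _))
  have nf : ncyc (con M e).σ + 1 = ncyc M.σ := by
    rw [con_σ]; exact K.swap_diff M.σ e (M.α e) he
  have sc : ∀ a b, (con M e).σ.SameCycle a b ↔ M.σ.SameCycle a b ∨
      ((M.σ.SameCycle a e ∨ M.σ.SameCycle a (M.α e)) ∧
        (M.σ.SameCycle b e ∨ M.σ.SameCycle b (M.α e))) :=
    fun a b => by rw [con_σ]; exact K.sc_diff M.σ e (M.α e) a b he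
  have rf : ∀ a, M.σ.SameCycle a a := Perm.SameCycle.refl _
  have hc' : (con M e).Con := fun x y => K.conn_sc _ _ _ _ (.inl (one x y))
  have h2' : 2 ≤ (con M e).chi := by
    have s : (con M e).φ = M.φ := rfl
    unfold HMap.σ at nf
    unfold HMap.chi chi at h2 ⊢
    rw [s] at nf ⊢
    omega
  let k : D → H := fun d => if M.σ.SameCycle e d then w e else 1
  have k1 : k e = w e := by simp [k, rf]
  have k2 : k (M.α e) = 1 := by simp [k, he]
  have k3 : ∀ d, k (M.σ d) = k d := fun d => by simp only [k, Perm.sameCycle_apply_right]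
  obtain ⟨c, c1, c2⟩ := ih D H (con M e) (fun d => (k d)⁻¹ * w d * k (M.α d)) (fun _ => 1) e
    (by omega) hc' h2'
    (fun d => by
      by_cases h : d = e
      · subst h
        have t : (con M d).α d = d := tog_e M d
        simp only [t, k1, k2]; group
      by_cases h' : d = M.α e
      · subst h'
        have t : (con M e).α (M.α e) = M.α e := tog_α M e
        simp only [t, M.αα, k1, k2, hw]; group
      have t : (con M e).α d = M.α d := tog_o M e h h'
      simp only [t, M.αα, hw]; group)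
    (fun d hd => by
      by_cases h : d = e
      · subst h
        simp only [k1, k2]; group
      by_cases h' : d = M.α e
      · subst h'
        simp only [M.αα, k1, k2, hw]; group
      have t : (con M e).α d = M.α d := tog_o M e h h'
      rw [t] at hd
      simp only [hd, h1 d hd]; group)
    (fun d hd => absurd (one e d) hd)
  have c3 : ∀ x y, (con M e).σ.SameCycle x y → c y = c x := fun x y s => const_sc _ c c1 s
  have c4 : c (M.α e) = c e := c3 _ _ ((sc _ _).2 (.inr ⟨.inl (rf _), .inr (rf _)⟩))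
  have c5 : ∀ d, c ((con M e).α d) = c (M.α d) := by
    intro d
    by_cases h : d = e
    · subst h
      have t : (con M d).α d = d := tog_e M d
      rw [t, c4]
    by_cases h' : d = M.α e
    · subst h'
      have t : (con M e).α (M.α e) = M.α e := tog_α M e
      rw [t, M.αα, c4]
    have t : (con M e).α d = M.α d := tog_o M e h h'
    rw [t]
  refine ⟨fun d => c d * (k d)⁻¹, fun d => ?_, fun d => ?_⟩
  · show c (M.σ d) * (k (M.σ d))⁻¹ = c d * (k d)⁻¹
    rw [k3, c3 d (M.σ d) ((sc _ _).2 (.inl (Perm.sameCycle_apply_right.2 (rf d))))]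
  · show c d * (k d)⁻¹ * w d = c (M.α d) * (k (M.α d))⁻¹
    rw [← c5, ← c2 d]; group

theorem goal (K : K1) (n : ℕ) : Goal n := by
  induction n with
  | zero =>
    intro D H _ _ M w θ d₀ hn _ _ _ h1 _
    exact triv M w hn h1
  | succ n ih =>
    intro D H _ _ M w θ d₀ hn hc h2 hw h1 hθ
    by_cases a : ∃ e, ¬M.φ.SameCycle e (M.α e)
    · obtain ⟨e, he⟩ := a
      by_cases h0 : M.φ.SameCycle d₀ e
      · refine step_del K ih M w θ d₀ (M.α e) hn hc h2 hw h1 hθ ?_ ?_
        · rw [M.αα]; exact fun q => he q.symm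
        · exact fun q => he (h0.symm.trans q)
      · exact step_del K ih M w θ d₀ e hn hc h2 hw h1 hθ he h0
    have a' : ∀ e, M.φ.SameCycle e (M.α e) := fun e => by
      by_contra q; exact a ⟨e, q⟩
    have one : ∀ x y, M.φ.SameCycle x y := fun x y =>
      sc_of_conn _ _ _ (fun x => Perm.sameCycle_apply_right.2 (Perm.SameCycle.refl _ _)) a'
        (hc x y)
    by_cases b : ∃ e, ¬M.σ.SameCycle e (M.α e)
    · obtain ⟨e, he⟩ := b
      exact step_con K ih M w e hn h2 hw h1 one he
    have b' : ∀ e, M.σ.SameCycle e (M.α e) := fun e => by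
      by_contra q; exact b ⟨e, q⟩
    have two : ∀ x y, M.σ.SameCycle x y := fun x y =>
      sc_of_conn _ _ _ (fun x => by
        have : M.φ x = M.σ (M.α x) := by rw [M.σ_apply, M.αα]
        rw [this]
        exact Perm.sameCycle_apply_right.2 (b' x)) b' (hc x y)
    have p := ncyc_le_one _ one
    have q := ncyc_le_one _ two
    refine triv M w ?_ h1
    unfold HMap.σ at q
    unfold HMap.chi chi at h2
    omega

end PL2

theorem pl2 (K : K1) : PL2St := fun D H _ _ M w θ d₀ =>
  PL2.goal K (Nat.card D) D H M w θ d₀ (Nat.le_add_left _ _)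

end Pool.Agent.Lib.MP_c1f5fe_lc
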