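import Pool.Agent.Lib.MP_c1f5fe_lc.SpecC
import Pool.Agent.Lib.MP_c1f5fe_lc.Kit1a
import Pool.Agent.Lib.MP_c1f5fe_lc.Kit2
import Pool.Agent.Lib.MP_c1f5fe_lc.PL2

/-! Contracting, renaming, connecting and transporting solutions. -/

namespace Pool.Agent.Lib.MP_c1f5fe_lc

open Equiv Function Relation

theorem demote : DemoteSt := by
  intro k V V' D G U G' U' S l li la lc
  have b : ∀ {d x}, (S.vx d).bind l = some x → ∃ u, S.vx d = some u ∧ l u = some x :=
    fun h => Option.bind_eq_some_iff.1 h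
  have b' : ∀ {d u x}, S.vx d = some u → l u = some x → (S.vx d).bind l = some x :=
    fun h h' => Option.bind_eq_some_iff.2 ⟨_, h, h'⟩
  have eq : ∀ {d e x}, (S.vx d).bind l = some x → (S.vx e).bind l = some x → S.vx d = S.vx e := by
    intro d e x h h'
    obtain ⟨u, a, c⟩ := b h
    obtain ⟨v, a', c'⟩ := b h'
    rw [a, a', li u v x c c']
  let S' : Sk k G' U' D :=
    { toHMap := S.toHMap
      vx := fun d => (S.vx d).bind l
      real := fun d => S.real d ∧ ∃ x y, ((S.vx d).bind l = some x ∧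
        (S.vx (S.α d)).bind l = some y) ∧ G'.Adj x y
      term := S.term
      ok := S.ok
      vx_σ := fun d => by rw [S.vx_σ]
      vx_cyc := fun d e v h h' => by
        obtain ⟨u, a, -⟩ := b h
        exact S.vx_cyc d e u a (eq h h' ▸ a)
      real_α := fun d ⟨r, x, y, h, a⟩ => ⟨S.real_α d r, y, x, ⟨h.2, by rw [S.αα]; exact h.1⟩, a.symm⟩
      real_adj := fun d ⟨_, x, y, h, a⟩ => ⟨x, y, h.1, h.2, a⟩
      real_ex := fun x y a => by
        obtain ⟨u, v, hu, hv, c⟩ := la x y a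
        obtain ⟨d, ⟨r, p, q⟩, un⟩ := S.real_ex u v c
        exact ⟨d, ⟨⟨r, x, y, ⟨b' p hu, b' q hv⟩, a⟩, b' p hu, b' q hv⟩, fun e he =>
          un e ⟨he.1.1, (eq he.2.1 (b' p hu)).trans p, (eq he.2.2 (b' q hv)).trans q⟩⟩
      term_vx := fun i d h => by rw [S.term_vx i d h]; rfl
      term_four := S.term_four
      ok_symm := S.ok_symm
      ok_idx := S.ok_idx
      ok_once := S.ok_once
      cap := fun d z' h hz => by
        obtain ⟨z, a, c⟩ := b h
        obtain ⟨zU, l1, l2⟩ := lc z z' c hz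
        obtain ⟨y, y', p, q, r, s, t⟩ := Kit2.cap_tri S a zU
        obtain ⟨x, x1, x2⟩ := l1 y s
        obtain ⟨x', x1', -⟩ := l1 y' t
        exact ⟨⟨(S.cap d z a zU).1, z', x, ⟨h, b' (S.vx_φ d ▸ p) x1⟩, x2⟩, (S.cap d z a zU).2.1,
          x, x', b' p x1, b' q x1', l2 y y' x x' s t r x1 x1'⟩ }
  refine ⟨S', rfl, fun _ => rfl, fun _ => Iff.rfl, rfl, rfl, fun w h =>
    ⟨⟨h.inv, h.pot, h.t0, h.t1, h.t2, h.t3⟩, fun d r => h.edge d r.1, fun d e i r r' v => ?_⟩⟩
  obtain ⟨x, -, ⟨a, -⟩, -⟩ := r.2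
  exact h.vert d e i r.1 r'.1 (eq a (v.symm.trans a))

theorem goodtr : GoodTrSt := by
  intro k k' I V V' D D' _ _ G U G' U' S S' e e' Z f ie ie' h1 h2 fi v1 v2 fσ fα sur ⟨fu, pl⟩
  have cg : ∀ {d d' h h'}, d = d' → f d h = f d' h' := by rintro d _ h h' rfl; rfl
  have key : ∀ d h u, u ∈ Z → S'.vx (f d h) = some (e' u) →
      ∃ x, S.E d (e u) (e x) ∧ G.Adj (e u) (e x) := by
    intro d h u hu a
    obtain ⟨u₀, h0, b⟩ := id h
    obtain rfl : u₀ = u := ie' (Option.some.inj ((v1 d h _ b).symm.trans a))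
    obtain ⟨v, c, c'⟩ := fu d _ b ⟨_, h0, rfl⟩
    obtain ⟨x, rfl⟩ := h1 _ h0 v c'
    exact ⟨x, ⟨b, c⟩, c'⟩
  have dom : ∀ d, S.AdjD (e '' Z) d → ∃ u ∈ Z, S.vx d = some (e u) := by
    rintro d ⟨_, _, a, -, ⟨u, hu, rfl⟩, -⟩
    exact ⟨u, hu, a.1⟩
  have iff : ∀ d h, S'.AdjD (e' '' Z) (f d h) ↔ S.AdjD (e '' Z) d := by
    intro d h
    constructor
    · rintro ⟨_, _, a, -, ⟨u, hu, rfl⟩, v, hv, rfl⟩
      obtain ⟨x, b, c⟩ := key d h u hu a.1
      obtain rfl : x = v := ie' (Option.some.inj ((v2 d h _ b.2).symm.trans a.2))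
      exact ⟨_, _, b, c, ⟨_, hu, rfl⟩, _, hv, rfl⟩
    · rintro ⟨_, _, a, c, ⟨u, hu, rfl⟩, v, hv, rfl⟩
      exact ⟨_, _, ⟨v1 d h _ a.1, v2 d h _ a.2⟩, (h2 u hu v).1 c, ⟨_, hu, rfl⟩, _, hv, rfl⟩
  have pw : ∀ d h (n : ℕ), ∃ h', (S'.toHMap.σ ^ n) (f d h) = f ((S.toHMap.σ ^ n) d) h' := by
    intro d h n
    induction n with
    | zero => exact ⟨h, rfl⟩
    | succ n ih =>
      obtain ⟨h', ih⟩ := ih
      refine ⟨by rw [Kit2.vx_pow]; exact h, ?_⟩
      rw [pow_succ', Perm.mul_apply, ih, fσ _ h' (by rw [S.toHMap.σ_apply, S.vx_σ]; exact h')]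
      exact cg (by rw [pow_succ', Perm.mul_apply])
  refine ⟨?_, ?_⟩
  · rintro d' _ a ⟨u, hu, rfl⟩
    obtain ⟨d, h, rfl⟩ := sur d' u hu a
    obtain ⟨x, b, c⟩ := key d h u hu a
    exact ⟨_, v2 d h _ b.2, (h2 u hu x).1 c⟩
  · obtain ⟨D₀, _, M₀, ι, s, e0⟩ := pl
    have m : ∀ x, S.AdjD (e '' Z) (ι x) := fun x => (s.range _).2 ⟨x, rfl⟩
    refine ⟨D₀, inferInstance, M₀, fun x => f (ι x) (dom _ (m x)),
      ⟨fun x y a => s.inj (fi _ _ _ _ a), fun d' => ⟨fun a => ?_, ?_⟩, fun x => ?_, fun x => ?_⟩, e0⟩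
    · obtain ⟨_, _, b, -, ⟨u, hu, rfl⟩, -⟩ := id a
      obtain ⟨d, h, rfl⟩ := sur d' u hu b.1
      obtain ⟨x, rfl⟩ := (s.range d).1 ((iff d h).1 a)
      exact ⟨x, rfl⟩
    · rintro ⟨x, rfl⟩
      exact (iff _ _).2 (m x)
    · rw [fα _ _ (s.al x ▸ dom _ (m _))]
      exact cg (s.al x)
    · obtain ⟨n, n0, a, -, c⟩ := s.si x
      refine ⟨n, n0, ?_, (iff _ _).2 (m _), fun j j0 jn => ?_⟩
      · obtain ⟨h', b⟩ := pw (ι x) (dom _ (m x)) n
        exact b.trans (cg a)
      · obtain ⟨h', b⟩ := pw (ι x) (dom _ (m x)) j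
        rw [b, iff]
        exact c j j0 jn

namespace Ops3

variable {k : ℕ} {V D : Type} {G : SimpleGraph V} {U : Set V}

theorem join (h2 : K2) [Finite D] (S : Sk k G ∅ D) {w : D → FG k} (hw : S.Valid w) {p q : D}
    (n : ¬S.φ.SameCycle p q) (tp : ¬S.IsT p) (tq : ¬S.IsT q) :
    ∃ (S' : Sk k G ∅ (D ⊕ Bool)) (w' : D ⊕ Bool → FG k), S'.toHMap = S.toHMap.chord p q ∧
      S'.Valid w' ∧ ∀ x, S'.IsT x → ∃ d, x = .inl d ∧ S.IsT d := by
  classical
  have ne : p ≠ q := fun e => n (e ▸ .rfl)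
  obtain ⟨s1, s2, s3⟩ := h2.chord_σ S.toHMap p q ne
  have f1 : ∀ i x, (S.toHMap.chord p q).φ.SameCycle (.inl (S.term i)) x ↔
      ∃ e, x = .inl e ∧ S.φ.SameCycle (S.term i) e := fun i x =>
    (h2.chord_φ S.toHMap p q ne).1 _ x (fun a => tp ⟨i, a⟩) fun a => tq ⟨i, a⟩
  have f2 : ∀ d, S.IsT d → (S.toHMap.chord p q).φ (.inl d) = .inl (S.φ d) := fun d t =>
    S.toHMap.chord_φ_inl (fun e => tp (e ▸ t)) fun e => tq (e ▸ t)
  have t0 : ∀ i, S.IsT (S.term i) := fun i => ⟨i, .rfl⟩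
  have t1 := fun i => (S.isT_φ _).2 (t0 i)
  have t2 := fun i => (S.isT_φ _).2 (t1 i)
  have t3 := fun i => (S.isT_φ _).2 (t2 i)
  let r : D ⊕ Bool → D := Sum.elim id fun b => if b then S.φ p else S.φ q
  have rs : ∀ x, (S.toHMap.chord p q).σ.SameCycle x (.inl (r x)) := by
    rintro (d | _ | _)
    · exact .rfl
    · exact ⟨1, by rw [zpow_one, s3]; rfl⟩
    · exact ⟨1, by rw [zpow_one, s2]; rfl⟩
  let S' : Sk k G ∅ (D ⊕ Bool) :=
    { toHMap := S.toHMap.chord p q
      vx := fun x => S.vx (r x)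
      real := Sum.elim S.real fun _ => False
      term := fun i => .inl (S.term i)
      ok := S.ok
      vx_σ := fun x => (PL2.const_sc S.toHMap.σ S.vx S.vx_σ ((s1 _ _).1
        (((rs _).symm.trans (Perm.SameCycle.refl (S.toHMap.chord p q).σ x).apply_left).trans
          (rs x)))).symm
      vx_cyc := fun d e v a b =>
        ((rs d).trans ((s1 _ _).2 (S.vx_cyc _ _ v a b))).trans (rs e).symm
      real_α := by
        rintro (d | b) h
        · exact S.real_α d h
        · exact h.elim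
      real_adj := by
        rintro (d | b) h
        · exact S.real_adj d h
        · exact h.elim
      real_ex := fun u v a => by
        obtain ⟨d, h, un⟩ := S.real_ex u v a
        refine ⟨.inl d, h, ?_⟩
        rintro (e | b) he
        · rw [un e he]
        · exact he.1.elim
      term_vx := fun i x h => by
        obtain ⟨e, rfl, s⟩ := (f1 i x).1 h
        exact S.term_vx i e s
      term_four := fun i => by rw [f2 _ (t0 i), f2 _ (t1 i), f2 _ (t2 i), f2 _ (t3 i), S.term_four]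
      ok_symm := S.ok_symm
      ok_idx := S.ok_idx
      ok_once := S.ok_once
      cap := fun _ _ _ h => h.elim }
  obtain ⟨θ, hθ⟩ := hw.pot
  refine ⟨S', Sum.elim w fun _ => 1, rfl, ⟨⟨?_, ⟨Sum.elim (fun d => if S.φ.SameCycle q d then
    θ (S.φ p) * (θ (S.φ q))⁻¹ * θ d else θ d) fun _ => θ (S.φ p), ?_⟩, hw.t0, fun i => ?_,
    fun i => ?_, fun i => ?_⟩, ?_, ?_⟩, ?_⟩
  · rintro (d | _ | _)
    · exact hw.inv d
    · exact inv_one.symm
    · exact inv_one.symm
  · have np : ¬S.φ.SameCycle q p := fun a => n a.symm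
    rintro (d | _ | _) t
    · have t' := hθ d fun ⟨i, a⟩ => t ⟨i, (f1 i _).2 ⟨d, rfl, a⟩⟩
      change _ = Sum.elim _ _ ((S.toHMap.chord p q).φ _)
      by_cases a : d = p
      · subst a
        rw [S.toHMap.chord_φ_p ne]
        simp [np, t']
      by_cases b : d = q
      · subst b
        rw [S.toHMap.chord_φ_q]
        simp [mul_assoc, t', Perm.SameCycle.refl]
      rw [S.toHMap.chord_φ_inl a b]
      simp only [Sum.elim_inl, Perm.sameCycle_apply_right]
      split_ifs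
      · rw [mul_assoc, t']
      · exact t'
    · change _ = Sum.elim _ _ ((S.toHMap.chord p q).φ _)
      rw [S.toHMap.chord_φ_false]
      simp [np]
    · change _ = Sum.elim _ _ ((S.toHMap.chord p q).φ _)
      rw [S.toHMap.chord_φ_true ne]
      simp [Perm.SameCycle.refl]
  · change Sum.elim w _ ((S.toHMap.chord p q).φ (.inl _)) = _
    rw [f2 _ (t0 i)]; exact hw.t1 i
  · change Sum.elim w _ ((S.toHMap.chord p q).φ ((S.toHMap.chord p q).φ (.inl _))) = _
    rw [f2 _ (t0 i), f2 _ (t1 i)]; exact hw.t2 i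
  · change Sum.elim w _ ((S.toHMap.chord p q).φ ((S.toHMap.chord p q).φ
      ((S.toHMap.chord p q).φ (.inl _)))) = _
    rw [f2 _ (t0 i), f2 _ (t1 i), f2 _ (t2 i)]; exact hw.t3 i
  · rintro (d | b) h
    · exact hw.edge d h
    · exact h.elim
  · rintro (d | b) (e | b') i h h'
    · exact hw.vert d e i h h'
    · exact h'.elim
    · exact h.elim
    · exact h.elim
  · rintro x ⟨i, h⟩
    obtain ⟨e, rfl, s⟩ := (f1 i x).1 h
    exact ⟨e, rfl, i, s⟩

open Classical in
/-- contract one edge that starts at an unlabelled vertex -/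
theorem one (h1 : K1) [Finite D] (S : Sk k G U D) {y : D} (hy : S.vx y = none)
    (n : ¬S.toHMap.σ.SameCycle y (S.α y)) (ht : ∀ e, S.toHMap.σ.SameCycle y e → ¬S.IsT e) :
    ∃ S' : Sk k G U D, S'.toHMap = PL2.con S.toHMap y ∧ S'.real = S.real ∧ S'.term = S.term ∧
      S'.ok = S.ok ∧ S'.toHMap.chi = S.toHMap.chi ∧ S'.toHMap.eg = S.toHMap.eg ∧
      (∀ d e, Conn S'.φ S'.α d e ↔ Conn S.φ S.α d e) ∧
      (∀ d, ¬S.toHMap.σ.SameCycle y d → S'.vx d = S.vx d) ∧
      ∀ w, S.Valid w → S'.Valid fun d => (if S.toHMap.σ.SameCycle y d then w y else 1)⁻¹ * w d *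
        if S.toHMap.σ.SameCycle y (S.φ d) then w y else 1 := by
  have ne : y ≠ S.α y := fun e => n (e ▸ .rfl)
  have sc := fun a b => h1.sc_diff S.toHMap.σ y (S.α y) a b n
  rw [← PL2.con_σ] at sc
  have off : ∀ {d u}, S.vx d = some u → ¬S.toHMap.σ.SameCycle y d := fun a s => by
    rw [PL2.const_sc S.toHMap.σ S.vx S.vx_σ s, hy] at a
    cases a
  have re : ∀ d, S.real d → (PL2.con S.toHMap y).α d = S.α d ∧ ¬S.toHMap.σ.SameCycle y d ∧
      ¬S.toHMap.σ.SameCycle y (S.α d) := fun d r => by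
    obtain ⟨u, v, a, b, -⟩ := S.real_adj d r
    exact ⟨PL2.tog_o _ _ (fun e => off a (e ▸ .rfl))
      fun e => off b (by rw [e, S.αα]), off a, off b⟩
  let r : D → D := fun d => if S.toHMap.σ.SameCycle y d then S.α y else d
  have rs : ∀ d, (PL2.con S.toHMap y).σ.SameCycle d (r d) := fun d => by
    simp only [r]
    split_ifs with a
    · exact (sc _ _).2 (.inr ⟨.inl a.symm, .inr .rfl⟩)
    · exact .rfl
  have rn : ∀ d, ¬S.toHMap.σ.SameCycle y (r d) := fun d => by
    simp only [r]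
    split_ifs with a
    exacts [n, a]
  have ro : ∀ d, ¬S.toHMap.σ.SameCycle y d → r d = d := fun d a => if_neg a
  let S' : Sk k G U D :=
    { toHMap := PL2.con S.toHMap y
      vx := fun d => S.vx (r d)
      real := S.real
      term := S.term
      ok := S.ok
      vx_σ := fun d => by
        refine (PL2.const_sc S.toHMap.σ S.vx S.vx_σ ?_).symm
        rcases (sc _ _).1 (((rs _).symm.trans
          (Perm.SameCycle.refl (PL2.con S.toHMap y).σ d).apply_left).trans (rs d)) with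
          a | ⟨a | a, b | b⟩
        · exact a
        · exact absurd a.symm (rn _)
        · exact absurd a.symm (rn _)
        · exact absurd b.symm (rn _)
        · exact a.trans b.symm
      vx_cyc := fun d e v a b =>
        ((rs d).trans ((sc _ _).2 (.inl (S.vx_cyc _ _ v a b)))).trans (rs e).symm
      real_α := fun d h => by rw [(re d h).1]; exact S.real_α d h
      real_adj := fun d h => by
        rw [(re d h).1, ro _ (re d h).2.1, ro _ (re d h).2.2]; exact S.real_adj d h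
      real_ex := fun u v a => by
        refine (existsUnique_congr fun d => and_congr_right fun h => ?_).2 (S.real_ex u v a)
        rw [(re d h).1, ro _ (re d h).2.1, ro _ (re d h).2.2]
      term_vx := fun i d h => by
        rw [ro d fun s => ht d s ⟨i, h⟩]; exact S.term_vx i d h
      term_four := S.term_four
      ok_symm := S.ok_symm
      ok_idx := S.ok_idx
      ok_once := S.ok_once
      cap := fun d z a hz => by
        by_cases s : S.toHMap.σ.SameCycle y d
        · rw [show r d = S.α y from if_pos s] at a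
          exact absurd (by rw [S.αα]) (re _ (S.cap _ z a hz).1).2.2
        · rw [ro d s] at a
          obtain ⟨b, c, u, v, p, q, e⟩ := S.cap d z a hz
          exact ⟨b, c, u, v, (congrArg S.vx (ro _ (off p))).trans p,
            (congrArg S.vx (ro _ (off q))).trans q, e⟩ }
  have c1 : ∀ x, Conn S.φ S.α x (S'.α x) := fun x => by
    by_cases a : x = y
    · rw [a, show S'.α y = y from PL2.tog_e _ _]; exact Kit1.conn_rfl _ _ _
    by_cases b : x = S.α y
    · rw [b, show S'.α (S.α y) = S.α y from PL2.tog_α _ _]; exact Kit1.conn_rfl _ _ _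
    rw [show S'.α x = S.α x from PL2.tog_o _ _ a b]; exact Kit1.conn_b _ _ _
  have c2 : ∀ x, Conn S'.φ S'.α x (S.α x) := fun x => by
    have : Conn S'.φ S'.α y (S.α y) :=
      Kit1.conn_sc _ _ _ _ (.inr (.inr (.inl ((sc _ _).2 (.inr ⟨.inl .rfl, .inr .rfl⟩)))))
    by_cases a : x = y
    · exact a ▸ this
    by_cases b : x = S.α y
    · rw [b, S.αα]; exact Kit1.conn_symm this
    rw [← show S'.α x = S.α x from PL2.tog_o _ _ a b]; exact Kit1.conn_b _ _ _
  have ch : S'.toHMap.chi = S.toHMap.chi := by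
    have a := h1.swap_same S.α y (S.α y) ne ⟨1, by simp⟩
    have b := h1.swap_diff S.toHMap.σ y (S.α y) n
    rw [← PL2.con_σ] at b
    change (ncyc S.φ : ℤ) + ncyc (S.α * Equiv.swap y (S.α y)) + ncyc (PL2.con S.toHMap y).σ - _ =
      (ncyc S.φ : ℤ) + ncyc S.α + ncyc S.toHMap.σ - _
    rw [a, ← b]
    push_cast
    ring
  refine ⟨S', rfl, rfl, rfl, rfl, ch, ?_, fun d e =>
    ⟨Kit1.conn_congr _ _ _ _ (Kit1.conn_a _ _) c1 d e,
      Kit1.conn_congr _ _ _ _ (Kit1.conn_a _ _) c2 d e⟩, fun d a => congrArg S.vx (ro d a),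
    fun w hw => ?_⟩
  · change 2 * (ncomp S'.φ S'.α : ℤ) - S'.toHMap.chi = 2 * (ncomp S.φ S.α : ℤ) - S.toHMap.chi
    have : ncomp S'.φ S'.α = ncomp S.φ S.α :=
      Kit1.ncomp_congr (Kit1.conn_a _ _) c2 (Kit1.conn_a _ _) c1
    rw [ch, this]
  have φα : ∀ d, S.toHMap.σ.SameCycle y (S.φ d) ↔ S.toHMap.σ.SameCycle y (S.α d) := fun d => by
    rw [← Perm.sameCycle_apply_right (y := S.α d), S.toHMap.σ_apply, S.αα]
  have P := hw.toPre.switch (fun d => if S.toHMap.σ.SameCycle y d then w y else 1)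
    (fun d => by rw [← S.toHMap.σ_apply, Perm.sameCycle_apply_right])
    fun d t => if_neg fun s => ht d s t
  have w1 : ∀ d, S.real d → (if S.toHMap.σ.SameCycle y d then w y else 1)⁻¹ * w d *
      (if S.toHMap.σ.SameCycle y (S.φ d) then w y else 1) = w d := fun d h => by
    rw [if_neg (re d h).2.1, φα, if_neg (re d h).2.2]; simp
  have wy : (if S.toHMap.σ.SameCycle y y then w y else 1)⁻¹ * w y *
      (if S.toHMap.σ.SameCycle y (S.φ y) then w y else 1) = 1 := by
    rw [if_pos .rfl, φα, if_neg n]; simp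
  refine ⟨⟨fun d => ?_, P.pot, P.t0, P.t1, P.t2, P.t3⟩, fun d h => ?_, fun d e i h h' v => ?_⟩
  · by_cases a : d = y
    · rw [a, show S'.α y = y from PL2.tog_e _ _, wy, inv_one]
    by_cases b : d = S.α y
    · have := P.inv y
      simp only [wy, inv_one] at this
      rw [b, show S'.α (S.α y) = S.α y from PL2.tog_α _ _, this, inv_one]
    rw [show S'.α d = S.α d from PL2.tog_o _ _ a b]
    exact P.inv d
  · simp only [w1 d h]; exact hw.edge d h
  · simp only [w1 d h, w1 e h']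
    exact hw.vert d e i h h' (by
      rw [← ro d (re d h).2.1, ← ro e (re e h').2.1]; exact v)

end Ops3

theorem connect (h1 : K1) (h2 : K2) : ConnectSt := by
  intro k V D _ G S w hw he ht
  induction hn : ncomp S.φ S.α using Nat.strong_induction_on generalizing D with
  | _ n ih =>
  rcases isEmpty_or_nonempty D with em | ne
  · obtain rfl : k = 0 := by
      rcases k with _ | k
      · rfl
      · exact em.elim (S.term 0)
    let S₁ : Sk 0 G ∅ Unit :=
      { φ := 1
        α := 1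
        αα := fun _ => rfl
        vx := fun _ => none
        real := fun _ => False
        term := Fin.elim0
        ok := fun _ _ => False
        vx_σ := fun _ => rfl
        vx_cyc := fun _ _ _ a => by cases a
        real_α := fun _ a => a
        real_adj := fun _ a => a.elim
        real_ex := fun u v a => em.elim (S.real_ex u v a).choose
        term_vx := fun i => i.elim0
        term_four := fun i => i.elim0
        ok_symm := fun _ _ a => a
        ok_idx := fun _ _ _ a => a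
        ok_once := fun _ _ _ _ _ a => a.elim
        cap := fun _ _ a => by cases a }
    refine ⟨Unit, inferInstance, S₁, _, ⟨fun _ _ => EqvGen.refl _, ?_⟩, Kit2.valid_one S₁⟩
    change _ ≤ (ncyc (1 : Perm Unit) : ℤ) + ncyc (1 : Perm Unit) + ncyc (1 * 1 : Perm Unit) - _
    simp [h1.ncyc_one]
  by_cases hc : S.toHMap.Con
  · refine ⟨D, inferInstance, S, w, ⟨hc, ?_⟩, hw⟩
    have := (h1.ncomp_one _ _).1 hc
    change 2 * (ncomp S.φ S.α : ℤ) - S.toHMap.chi ≤ _ at he
    rw [this] at he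
    push_cast at he
    omega
  obtain ⟨d, e, nc⟩ : ∃ d e, ¬Conn S.φ S.α d e := by simpa [HMap.Con] using hc
  obtain ⟨p, p1, p2⟩ := ht d
  obtain ⟨q, q1, q2⟩ := ht e
  have n1 : ¬Conn S.φ S.α p q := fun a =>
    nc (Kit1.conn_trans (Kit1.conn_trans p1 a) (Kit1.conn_symm q1))
  have n2 : ¬S.φ.SameCycle p q := fun a => n1 (h1.conn_sc _ _ _ _ (.inl a))
  obtain ⟨S', w', a, b, c⟩ := Ops3.join h2 S hw n2 p2 q2
  obtain ⟨x1, x2⟩ := h2.chord_diff S.toHMap p q n2
  replace x2 := x2 n1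
  rw [← a] at x1 x2
  refine ih (ncomp S'.φ S'.α) ?_ _ S' w' b (x2 ▸ he) ?_ rfl
  · change 2 * (ncomp S'.φ S'.α : ℤ) - S'.toHMap.chi = 2 * (ncomp S.φ S.α : ℤ) - S.toHMap.chi at x2
    omega
  · rintro (x | x)
    · obtain ⟨y, y1, y2⟩ := ht x
      refine ⟨.inl y, ?_, fun t => ?_⟩
      · have := Kit2.ch_conn S.toHMap (p := p) (q := q) (fun e => n2 (by rw [e])) y1
        rwa [← a] at this
      · obtain ⟨z, z1, z2⟩ := c _ t
        exact y2 (Sum.inl_injective z1 ▸ z2)
    · refine ⟨.inr x, EqvGen.refl _, fun t => ?_⟩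
      obtain ⟨z, z1, -⟩ := c _ t
      cases z1

theorem absorb (h1 : K1) : AbsorbSt := by
  classical
  intro k V D _ G U S Y rk hr hY
  obtain ⟨s, hs⟩ : ∃ s : Finset D, Y = fun d => d ∈ s :=
    ⟨(Set.toFinite {d | Y d}).toFinset, by ext d; simp⟩
  subst hs
  induction s using Finset.induction_on generalizing S rk with
  | empty =>
    refine ⟨S, rfl, by simp, fun _ _ _ => rfl, rfl, rfl, rfl, rfl, rfl, fun _ _ => Iff.rfl,
      fun _ _ a => a, by simp, fun _ _ => rfl, fun w hw => ⟨fun _ => 1, fun _ => rfl,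
        fun _ _ => rfl, by simp, by simpa using hw⟩⟩
  | insert y s ys ih =>
  have rc : ∀ {a b}, S.toHMap.σ.SameCycle a b → rk a = rk b :=
    fun a => (PL2.const_sc _ _ hr a).symm
  have my := Finset.mem_insert_self y s
  have ms : ∀ {d}, d ∈ s → d ∈ insert y s := Finset.mem_insert_of_mem
  obtain ⟨y1, y2, y3, y4⟩ := hY y my
  have n : ¬S.toHMap.σ.SameCycle y (S.α y) := fun a => by have := rc a; omega
  have ay : S.α y ∉ insert y s := fun a => by
    have := (hY _ a).2.1
    rw [S.αα] at this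
    omega
  have oy : ∀ d ∈ s, ¬S.toHMap.σ.SameCycle y d := fun d hd a => ys (y4 d (ms hd) a ▸ hd)
  obtain ⟨T, e0, e1, e2, e3, e4, e5, e6, e7, e8⟩ := Ops3.one h1 S y1 n y3
  have tφ : T.φ = S.φ := by rw [e0]; rfl
  have sc := fun a b => h1.sc_diff S.toHMap.σ y (S.α y) a b n
  rw [← PL2.con_σ, ← e0] at sc
  have a0 : T.α y = y := by rw [e0]; exact PL2.tog_e _ _
  have a1 : T.α (S.α y) = S.α y := by rw [e0]; exact PL2.tog_α _ _
  have a2 : ∀ d, d ≠ y → d ≠ S.α y → T.α d = S.α d := fun d a b => by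
    rw [e0]; exact PL2.tog_o _ _ a b
  have a3 : ∀ d ∈ s, T.α d = S.α d := fun d hd =>
    a2 d (fun e => ys (e ▸ hd)) fun e => ay (e ▸ ms hd)
  have s1 : ∀ d ∈ s, ∀ e, T.toHMap.σ.SameCycle d e →
      S.toHMap.σ.SameCycle d e ∨ S.toHMap.σ.SameCycle y e := by
    intro d hd e a
    rcases (sc d e).1 a with a | ⟨a | a, b | b⟩
    · exact .inl a
    · exact .inr b.symm
    · exact absurd a.symm (oy d hd)
    · exact .inr b.symm
    · exact .inl (a.trans b.symm)
  have s2 : ∀ d, (∀ e ∈ insert y s, ¬S.toHMap.σ.SameCycle e d) →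
      ∀ e ∈ s, ¬T.toHMap.σ.SameCycle e d := fun d h e he a =>
    (s1 e he d a).elim (h e (ms he)) (h y my)
  have sy : T.toHMap.σ.SameCycle y (S.α y) := (sc _ _).2 (.inr ⟨.inl .rfl, .inr .rfl⟩)
  obtain ⟨S', f0, f1, f2, f3, f4, f5, f6, f7, f8, f9, g0, g1, g2⟩ :=
    ih T (fun d => if S.toHMap.σ.SameCycle y d then rk (S.α y) else rk d) (fun d => by
      have : T.toHMap.σ.SameCycle (T.toHMap.σ d) d := (Perm.SameCycle.refl _ d).apply_left
      rcases (sc _ _).1 this with a | ⟨a, b⟩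
      · rw [rc a, if_congr ⟨fun c => c.trans a, fun c => c.trans a.symm⟩ rfl rfl]
      · have : ∀ x, S.toHMap.σ.SameCycle x y ∨ S.toHMap.σ.SameCycle x (S.α y) →
            (if S.toHMap.σ.SameCycle y x then rk (S.α y) else rk x) = rk (S.α y) := by
          intro x c
          split_ifs with c'
          · rfl
          · exact rc (c.resolve_left fun c => c' c.symm)
        rw [this _ a, this _ b]) fun d hd => by
      obtain ⟨b1, b2, b3, b4⟩ := hY d (ms hd)
      refine ⟨(e7 d (oy d hd)).trans b1, ?_, fun e a t => ?_, fun e he a => ?_⟩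
      · rw [a3 d hd, if_neg (oy d hd)]
        split_ifs with c
        · have := rc c
          omega
        · exact b2
      · have t' : S.IsT e := by
          obtain ⟨i, t⟩ := t
          exact ⟨i, by rwa [tφ, e2] at t⟩
        exact (s1 d hd e a).elim (fun c => b3 e c t') fun c => y3 e c t'
      · exact (s1 d hd e a).elim (b4 e (ms he)) fun c => absurd c (oy e he)
  refine ⟨S', f0.trans tφ, fun d h => ?_, fun d h h' => ?_, f3.trans e1, f4.trans e2, f5.trans e3,
    f6.trans e4, f7.trans e5, fun d e => (f8 d e).trans (e6 d e),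
    fun d e a => f9 d e ((sc d e).2 (.inl a)), fun d h => ?_,
    fun d h => (g1 d (s2 d h)).trans (e7 d (h y my)), fun w hw => ?_⟩
  · by_cases a : d = y
    · rw [a, f2 y ys (a0.symm ▸ ys), a0]
    by_cases b : d = S.α y
    · rw [b, f2 _ (fun c => ay (ms c)) (a1.symm ▸ fun c => ay (ms c)), a1]
    refine f1 d (h.imp (fun c => (Finset.mem_insert.1 c).resolve_left a) fun c => ?_)
    rw [a2 d a b]
    exact (Finset.mem_insert.1 c).resolve_left fun e => b (by rw [← e, S.αα])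
  · have a : T.α d = S.α d := a2 d (fun e => h (e ▸ my)) fun e => h' (by rw [e, S.αα]; exact my)
    rw [f2 d (fun c => h (ms c)) (a.symm ▸ fun c => h' (ms c)), a]
  · rcases Finset.mem_insert.1 h with rfl | h
    · exact f9 _ _ sy
    · exact a3 d h ▸ g0 d h
  obtain ⟨c, c1, c2, c3, c4⟩ := g2 _ (e8 w hw)
  have cc : ∀ {a b}, T.toHMap.σ.SameCycle a b → c a = c b :=
    fun a => (PL2.const_sc _ _ c1 a).symm
  refine ⟨fun d => (if S.toHMap.σ.SameCycle y d then w y else 1) * c d, fun d => ?_,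
    fun d h => ?_, fun d h => ?_, ?_⟩
  · simp only [Perm.sameCycle_apply_right,
      cc ((sc _ d).2 (.inl (Perm.SameCycle.refl _ d).apply_left))]
  · beta_reduce
    rw [if_neg (h y my), c2 d (s2 d h), one_mul]
  · beta_reduce
    rcases Finset.mem_insert.1 h with rfl | h
    · rw [if_pos .rfl, if_neg n, one_mul, cc sy]
    · have : S.toHMap.σ.SameCycle y (S.φ d) ↔ S.toHMap.σ.SameCycle y (S.α d) := by
        rw [← Perm.sameCycle_apply_right (y := S.α d), S.toHMap.σ_apply, S.αα]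
      rw [c3 d h, a3 d h, if_neg (oy d h), this]
      simp [mul_assoc]
  · convert c4 using 2
    rw [tφ]
    group

end Pool.Agent.Lib.MP_c1f5fe_lc
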