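import Pool.Agent.Lib.MP_c1f5fe_lc.Ord1
import Pool.Agent.Lib.MP_50b5c6_lc.NpQ

/-! Planar orders, part two. -/

namespace Pool.Agent.Lib.MP_c1f5fe_lc

open Equiv Function Relation
open Pool.Agent.Lib.MP_50b5c6_lc.Np (NC Pl)

namespace Ord

variable {D B : Type}

def p4 : Perm (Fin 4) := finRotate 4
def q4 : Perm (Fin 4) := Equiv.swap 0 2 * Equiv.swap 1 3

lemma eg4 (k : K1) : 2 ≤ eg p4 q4 := by
  have h1 : ncyc p4 ≤ 1 := by
    have := k.at_le p4 (fun _ => True) (fun _ : Unit => 0) (fun d _ => ⟨(), by revert d; decide⟩)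
    rwa [k.at_univ, Nat.card_unique] at this
  have h2 : ncyc (p4 * q4) ≤ 1 := by
    have := k.at_le (p4 * q4) (fun _ => True) (fun _ : Unit => 0)
      (fun d _ => ⟨(), by revert d; decide⟩)
    rwa [k.at_univ, Nat.card_unique] at this
  have h3 : ncyc q4 ≤ 2 := by
    have := k.at_le q4 (fun _ => True) (fun j : Fin 2 => (![0, 1] : Fin 2 → Fin 4) j)
      (fun d _ => by revert d; decide)
    rwa [k.at_univ, Nat.card_fin] at this
  have h4 : 0 < ncomp p4 q4 := by
    unfold ncomp
    have : Nonempty (Quotient (EqvGen.setoid fun x y : Fin 4 => y = p4 x ∨ y = q4 x)) :=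
      ⟨Quotient.mk _ 0⟩
    exact Nat.card_pos
  unfold eg chi
  rw [Nat.card_fin]
  omega

lemma ret_pair [Finite D] (k : K1) (b : Perm D) (Q : D → Prop) {x x' : D} (hx : Q x) (hx' : Q x')
    (s : b.SameCycle x x') (ne : x ≠ x') (h : ∀ e, Q e → b.SameCycle x e → e = x ∨ e = x') :
    ret b Q x = x' := by
  have hn := ret_nxt b hx
  rcases h _ (nxt_q hn) (nxt_sc hn) with e | e
  · exact absurd (((k.sc_ret b Q x x' hx hx').2 s).eq_of_left e) ne
  · exact e

lemma torus [Finite D] (k : K1) {π b : Perm D} (h : eg π b ≤ 0) :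
    NCf π (Quotient.mk (Perm.SameCycle.setoid b)) := by
  intro x x' y y' e1 e2 s b1 b2
  by_contra hne
  have e1' : b.SameCycle x x' := Quotient.exact e1
  have e2' : b.SameCycle y y' := Quotient.exact e2
  have hn : ¬b.SameCycle x y := fun q => hne (Quotient.sound q)
  have n1 : x ≠ y := fun e => hn (e ▸ Perm.SameCycle.refl _ _)
  have n2 : x ≠ y' := fun e => hn (e ▸ e2'.symm)
  have n3 : x' ≠ y := fun e => hn (e ▸ e1')
  have n4 : x' ≠ y' := fun e => hn (e1'.trans (e ▸ e2'.symm))
  have n5 : y ≠ y' := by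
    rintro rfl
    exact n3 (b2.unique (nxt_mono b1 (Or.inr rfl) fun _ _ q => q.symm))
  let Q : D → Prop := fun e => e = x ∨ e = y ∨ e = x' ∨ e = y'
  have qx : Q x := Or.inl rfl
  have qy : Q y := Or.inr (Or.inl rfl)
  have qx' : Q x' := Or.inr (Or.inr (Or.inl rfl))
  have qy' : Q y' := Or.inr (Or.inr (Or.inr rfl))
  set p := ret π Q with hp
  have hP : ∀ d, Q d → Nxt π Q d (p d) := fun d hd => ret_nxt π hd
  have sy : p.SameCycle x y := (k.sc_ret π Q x y qx qy).2 (nxt_sc b1)
  have sx' : p.SameCycle x x' := (k.sc_ret π Q x x' qx qx').2 (nxt_sc b2)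
  have sy' : p.SameCycle x y' := (k.sc_ret π Q x y' qx qy').2 s
  have c1 : Bt p x y x' := nxt_down hP (by rintro e (rfl | rfl) <;> assumption) qx sy b1
  have c2 : Bt p x x' y' := nxt_down hP (by rintro e (rfl | rfl) <;> assumption) qx sx' b2
  obtain ⟨m1, m10, f1, -, g1⟩ := c1
  obtain ⟨m2, m20, f2, -, g2⟩ := c2
  have px : p x = y := by
    by_cases l1 : m1 = 1
    · subst l1; simpa using f1
    · have a1 := g1 1 one_pos (by omega)
      simp only [pow_one, not_or] at a1
      by_cases l2 : m2 = 1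
      · subst l2; exact absurd (by simpa using f2) a1.2
      · have a2 := g2 1 one_pos (by omega)
        simp only [pow_one, not_or] at a2
        rcases nxt_q (hP x qx) with e | e | e | e
        · exact absurd (sy.eq_of_left e) n1
        · exact e
        · exact absurd e a1.2
        · exact absurd e a2.2
  have l1 : m2 ≠ 1 := by
    rintro rfl
    exact n3 (by rw [← f2, pow_one, px])
  have hcl : p y = x → ∀ n : ℕ, (p ^ n) x = x ∨ (p ^ n) x = y := by
    intro e n
    induction n with
    | zero => simp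
    | succ n ih =>
      rw [pow_succ', Perm.mul_apply]
      rcases ih with i | i <;> rw [i]
      · exact Or.inr px
      · exact Or.inl e
  have pyx : p y ≠ x := by
    intro e
    obtain ⟨n, -, en⟩ := sy'.exists_pow_eq'
    rcases hcl e n with i | i
    · exact n2 (i.symm.trans en)
    · exact n5 (i.symm.trans en)
  have p2 : (p ^ 2) x = p y := by rw [pow_two, Perm.mul_apply, px]
  have py : p y = x' := by
    by_cases l2 : m2 = 2
    · subst l2; rw [← p2, f2]
    · have a2 := g2 2 (by omega) (by omega)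
      rw [p2] at a2
      simp only [not_or] at a2
      rcases nxt_q (hP y qy) with e | e | e | e
      · exact absurd e pyx
      · exact absurd (p.injective (px.trans e.symm)) n1
      · exact e
      · exact absurd e a2.2
  have n6 : x ≠ x' := fun e => pyx (py.trans e.symm)
  have py' : p y' = x := by
    rcases nxt_q (hP y' qy') with e | e | e | e
    · exact e
    · exact absurd (p.injective (px.trans e.symm)) n2
    · exact absurd (p.injective (py.trans e.symm)) n5
    · exact absurd (sy'.symm.eq_of_left e).symm n2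
  have px' : p x' = y' := by
    rcases nxt_q (hP x' qx') with e | e | e | e
    · exact absurd (p.injective (e.trans py'.symm)) n4
    · exact absurd (p.injective (px.trans e.symm)) n6
    · exact absurd (p.injective (e.trans py.symm)) n3
    · exact e
  have r1 : ret b Q x = x' := ret_pair k b Q qx qx' e1' n6 (by
    rintro e (rfl | rfl | rfl | rfl) t
    · exact Or.inl rfl
    · exact absurd t hn
    · exact Or.inr rfl
    · exact absurd (t.trans e2'.symm) hn)
  have r2 : ret b Q x' = x := ret_pair k b Q qx' qx e1'.symm n6.symm (by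
    rintro e (rfl | rfl | rfl | rfl) t
    · exact Or.inr rfl
    · exact absurd (e1'.trans t) hn
    · exact Or.inl rfl
    · exact absurd ((e1'.trans t).trans e2'.symm) hn)
  have r3 : ret b Q y = y' := ret_pair k b Q qy qy' e2' n5 (by
    rintro e (rfl | rfl | rfl | rfl) t
    · exact absurd t.symm hn
    · exact Or.inl rfl
    · exact absurd (e1'.trans t.symm) hn
    · exact Or.inr rfl)
  have r4 : ret b Q y' = y := ret_pair k b Q qy' qy e2'.symm n5.symm (by
    rintro e (rfl | rfl | rfl | rfl) t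
    · exact absurd (e2'.trans t).symm hn
    · exact Or.inr rfl
    · exact absurd (e1'.trans (e2'.trans t).symm) hn
    · exact Or.inl rfl)
  have inj : Injective (![x, y, x', y'] : Fin 4 → D) := by
    have nd : [x, y, x', y'].Nodup := by simp [n1, n2, n3.symm, n4, n5, n6]
    exact List.nodup_ofFn.1 (by simpa using nd)
  have emb := k.eg_emb p (ret b Q) p4 q4 ![x, y, x', y'] inj
    (by
      intro i
      fin_cases i
      · exact px
      · exact py
      · exact px'
      · exact py')
    (by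
      intro i
      fin_cases i
      · exact r1
      · exact r3
      · exact r2
      · exact r4)
  have t1 := k.eg_ret π (ret b Q) Q
  have t2 := k.eg_ret b π Q
  have t3 := k.eg_comm π (ret b Q)
  have t4 := k.eg_comm π b
  have t5 := eg4 k
  rw [← hp] at t1
  omega

/-- `L` lists the points in the order of the cycle `c` -/
def Lst (c : Perm D) (L : List D) : Prop :=
  L.Nodup ∧ (∀ d, d ∈ L) ∧ ∀ (m i : ℕ) (h : i < L.length),
    (c ^ m) L[i] = L[(i + m) % L.length]'(Nat.mod_lt _ (i.zero_le.trans_lt h))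

lemma Lst.rot {c : Perm D} {L : List D} (h : Lst c L) (i : ℕ) (hi : i < L.length) :
    L.drop i ++ L.take i = List.iterate c L[i] L.length := by
  rw [← List.rotate_eq_drop_append_take hi.le]
  apply List.ext_getElem (by simp)
  intro m h1 h2
  rw [List.getElem_rotate, List.getElem_iterate, Perm.iterate_eq_pow, h.2.2]
  simp only [add_comm]

lemma Lst.ncf {c : Perm D} {L : List D} {f : D → B} (h : Lst c L) (hn : NC f L) : NCf c f := by
  intro x x' y y' e1 e2 _ ⟨m1, m10, f1, _, g1⟩ ⟨m2, m20, f2, _, g2⟩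
  obtain ⟨i, hi, rfl⟩ := List.getElem_of_mem (h.2.1 x)
  have hn' : NC f (List.iterate c L[i] L.length) := by
    rw [← h.rot i hi]
    exact Pool.Agent.Lib.MP_50b5c6_lc.Np.NC.rot (by rwa [List.take_append_drop])
  have hy' : y' ∈ List.iterate c L[i] L.length := by
    rw [← h.rot i hi, List.mem_append, or_comm, ← List.mem_append, List.take_append_drop]
    exact h.2.1 _
  obtain ⟨m3, l3, f3⟩ := List.mem_iterate.1 hy'
  rw [Perm.iterate_eq_pow] at f3
  rcases Nat.eq_zero_or_pos m3 with rfl | m30
  · rw [e2, f3]; simp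
  rcases lt_trichotomy m2 m3 with l23 | rfl | l23
  rotate_left
  · rw [e1, e2, f3, f2]
  · exact absurd (Or.inr f3.symm) (g2 m3 m30 l23)
  rcases lt_trichotomy m1 m2 with l12 | rfl | l12
  rotate_left
  · rw [e1, ← f1, f2]
  · exact absurd (Or.inr f2) (g1 m2 m20 l12)
  refine hn' _ y x' y' ?_ e1 e2
  have len : (List.iterate c L[i] L.length).length = L.length := List.length_iterate _ _ _
  have := List.map_getElem_sublist (l := List.iterate c L[i] L.length)
    (is := [⟨0, by omega⟩, ⟨m1, by omega⟩, ⟨m2, by omega⟩, ⟨m3, by omega⟩])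
    (by simp; omega)
  simpa [List.getElem_iterate, Perm.iterate_eq_pow, f1, f2, ← f3] using this

lemma Lst.nc {c : Perm D} {L : List D} {f : D → B} (h : Lst c L) (hn : NCf c f) : NC f L := by
  intro x y x' y' s e1 e2
  obtain ⟨is, e, hp⟩ := List.sublist_eq_map_getElem s
  rcases is with _ | ⟨i1, _ | ⟨i2, _ | ⟨i3, _ | ⟨i4, _ | ⟨_, _⟩⟩⟩⟩⟩ <;> simp at e
  obtain ⟨rfl, rfl, rfl, rfl⟩ := e
  simp only [List.pairwise_cons, List.mem_cons, List.not_mem_nil, or_false, forall_eq_or_imp,
    forall_eq, Fin.lt_def] at hp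
  have pw : ∀ (i j : Fin L.length), i.1 ≤ j.1 → (c ^ (j.1 - i.1)) L[i.1] = L[j.1] := by
    intro i j l
    rw [h.2.2]
    congr 1
    rw [Nat.add_sub_cancel' l, Nat.mod_eq_of_lt j.2]
  have bt : ∀ (i j l : Fin L.length), i.1 < j.1 → j.1 < l.1 → Bt c L[i.1] L[j.1] L[l.1] := by
    intro i j l h1 h2
    refine ⟨j.1 - i.1, by omega, pw i j h1.le, Or.inl rfl, fun m m0 lm q => ?_⟩
    have := pw i ⟨i.1 + m, by omega⟩ (by simp)
    simp only [Nat.add_sub_cancel_left] at this
    rw [this, h.1.getElem_inj_iff, h.1.getElem_inj_iff] at q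
    omega
  refine hn _ _ _ _ e1 e2 ⟨((i4.1 - i1.1 : ℕ) : ℤ), ?_⟩ (bt i1 i2 i3 (by omega) (by omega))
    (bt i1 i3 i4 (by omega) (by omega))
  rw [zpow_natCast]
  exact pw i1 i4 (by omega)

lemma exists_lst [Finite D] (c : Perm D) (hc : ∀ x y, c.SameCycle x y) : ∃ L, Lst c L := by
  rcases isEmpty_or_nonempty D with hD | ⟨⟨x0⟩⟩
  · exact ⟨[], List.nodup_nil, fun d => hD.elim d, fun m i h => absurd h (by simp)⟩
  have pos : 0 < minimalPeriod c x0 :=
    minimalPeriod_pos_of_mem_periodicPts (c.injective.mem_periodicPts x0)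
  refine ⟨List.iterate c x0 (minimalPeriod c x0), ?_, ?_, ?_⟩
  · rw [List.nodup_iff_injective_getElem]
    intro i j e
    simp only [List.getElem_iterate] at e
    exact Fin.ext (iterate_injOn_Iio_minimalPeriod (by simpa using i.2) (by simpa using j.2) e)
  · intro d
    obtain ⟨n, -, e⟩ := (hc x0 d).exists_pow_eq'
    refine List.mem_iterate.2 ⟨n % minimalPeriod c x0, Nat.mod_lt _ pos, ?_⟩
    rw [iterate_mod_minimalPeriod_eq, Perm.iterate_eq_pow, e]
  · intro m i h
    simp only [List.getElem_iterate, List.length_iterate]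
    rw [iterate_mod_minimalPeriod_eq, Perm.iterate_eq_pow, Perm.iterate_eq_pow, pow_pow, add_comm]

lemma filter_iter {c a : Perm D} (Q : D → Prop) [DecidablePred Q]
    (h : ∀ d, Q d → Nxt c Q d (a d)) :
    ∀ (N : ℕ) (d : D), Q d → ∃ n, (List.iterate c d N).filter Q = List.iterate a d n := by
  intro N
  induction N using Nat.strong_induction_on with
  | _ N ih =>
    intro d hd
    obtain ⟨t, t0, e, q, ht⟩ := h d hd
    have one : ∀ s, s + 1 ≤ t → (List.iterate c d (s + 1)).filter Q = [d] := by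
      intro s ls
      rw [List.iterate, List.filter_cons_of_pos (by simpa using hd)]
      congr 1
      rw [List.filter_eq_nil_iff]
      intro z hz
      obtain ⟨m, lm, rfl⟩ := List.mem_iterate.1 hz
      have := ht (m + 1) (by omega) (by omega)
      rw [pow_succ, Perm.mul_apply] at this
      simpa [Perm.iterate_eq_pow] using this
    rcases N with _ | N
    · exact ⟨0, rfl⟩
    by_cases l : N + 1 ≤ t
    · exact ⟨1, one N l⟩
    · obtain ⟨n, hn⟩ := ih (N + 1 - t) (by omega) (a d) q
      refine ⟨n + 1, ?_⟩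
      obtain ⟨s, rfl⟩ : ∃ s, t = s + 1 := ⟨t - 1, by omega⟩
      have : N + 1 = (s + 1) + (N + 1 - (s + 1)) := by omega
      rw [this, List.iterate_add, List.filter_append, one s le_rfl, Perm.iterate_eq_pow, e, hn]
      rfl

lemma exists_rf [Finite D] (c : Perm D) (f : D → B) : ∃ a : Perm D, Rf c f a := by
  have h : ∀ d, ∃ z, Nxt c (fun e => f e = f d) d z := fun d =>
    exists_nxt (Perm.SameCycle.refl c d) rfl
  choose g hg using h
  have inj : Injective g := by
    intro x y e
    have e1 : f (g x) = f x := nxt_q (Q := fun e => f e = f x) (hg x)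
    have e2 : f (g y) = f y := nxt_q (Q := fun e => f e = f y) (hg y)
    have e3 : f y = f x := by rw [← e1, ← e2, e]
    have h2 := hg y
    rw [e3, ← e] at h2
    exact Nxt.unique_left (Q := fun e => f e = f x) rfl e3 (hg x) h2
  exact ⟨Equiv.ofBijective g (Finite.injective_iff_bijective.1 inj), hg⟩

end Ord

open _root_.Pool.Agent.Lib.MP_c1f5fe_lc.Ord in
theorem ord (k : K1) : OrdSt := by
  classical
  intro D _ a b h
  obtain ⟨c, c1, c2, c3, c4⟩ := merge k b _ a rfl
  obtain ⟨L, hL⟩ := exists_lst c c1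
  refine ⟨L, hL.1, hL.2.1, ?_, hL.nc (torus k (c3.trans h.le)), fun d => ?_⟩
  · have h1 : eg c a⁻¹ ≤ 0 := by
      have t1 := c4 c⁻¹
      have t2 := eg_self k c
      have t3 := k.eg_inv c⁻¹ a
      have t4 := k.eg_comm c⁻¹ a
      rw [inv_inv] at t3
      omega
    refine Pool.Agent.Lib.MP_50b5c6_lc.Np.NC.congr (hL.nc (torus k h1)) fun x _ y _ => ?_
    rw [Quotient.eq, Quotient.eq]
    exact Perm.sameCycle_inv
  · obtain ⟨i, hi, rfl⟩ := List.getElem_of_mem (hL.2.1 d)
    obtain ⟨n, hn⟩ := filter_iter (a.SameCycle L[i]) (c2.at L[i]) L.length L[i]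
      (Perm.SameCycle.refl _ _)
    refine ⟨n, ?_⟩
    rw [← hn, ← hL.rot i hi, List.filter_append]
    refine List.IsRotated.trans ?_ List.isRotated_append
    rw [← List.filter_append, List.take_append_drop]

open _root_.Pool.Agent.Lib.MP_c1f5fe_lc.Ord in
theorem unord (k : K1) : UnordSt := by
  classical
  intro D B C _ L f g nd all hf hg
  have hL : Lst L.formPerm L := ⟨nd, all, fun m i h => List.formPerm_pow_apply_getElem L nd m i h⟩
  refine ⟨exists_rf _ f, ?_, fun a b ha hb => ?_⟩
  · obtain ⟨a, ha⟩ := exists_rf L.formPerm g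
    refine ⟨a⁻¹, fun d => ?_⟩
    have h1 := ha (a⁻¹ d)
    rw [show a (a⁻¹ d) = d by simp] at h1
    have h2 : g d = g (a⁻¹ d) := nxt_q (Q := fun e => g e = g (a⁻¹ d)) h1
    rw [← h2] at h1
    exact ⟨h1, h2.symm⟩
  · have hb' : Rf L.formPerm g b⁻¹ := by
      intro d
      obtain ⟨h1, h2⟩ := hb (b⁻¹ d)
      rw [show b (b⁻¹ d) = d by simp] at h1 h2
      rw [← h2] at h1
      exact h1
    have t1 := split k b _ _ rfl ha (hL.ncf hf)
    have t2 := split k L.formPerm⁻¹ _ _ rfl hb' (hL.ncf hg)
    have t3 := eg_self k L.formPerm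
    have t4 := k.eg_inv b L.formPerm
    have t5 := k.eg_comm b L.formPerm
    have t6 := k.eg_nonneg a b
    omega

end Pool.Agent.Lib.MP_c1f5fe_lc
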