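import Pool.Agent.Lib.MP_c1f5fe_lc.SpecB

/-! Partitions of graphs of degree four, and the tangle of an unbreakable set. -/

namespace Pool.Agent.Lib.MP_c1f5fe_lc

open Equiv Function Relation

namespace Net

theorem cover {α β : Type} [Finite β] (C : α → Set β) (b : ℕ) {T : Set α} (hT : T.Finite) :
    ∀ X : Set β, (∀ x ∈ X, ∃ u ∈ T, x ∈ C u) → (∀ u ∈ T, (C u).ncard ≤ b) →
      X.ncard ≤ T.ncard * b := by
  induction T, hT using Set.Finite.induction_on with
  | empty =>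
    intro X h _
    have : X = ∅ := Set.eq_empty_of_forall_notMem fun x hx => by simpa using h x hx
    simp [this]
  | @insert a T ha hT ih =>
    intro X h hb
    have h1 := ih (X \ C a) (fun x hx => by
      obtain ⟨u, hu, k⟩ := h x hx.1
      rcases hu with rfl | hu
      · exact absurd k hx.2
      · exact ⟨u, hu, k⟩) fun u hu => hb u (Or.inr hu)
    have h2 : X.ncard ≤ (X \ C a).ncard + (C a).ncard :=
      (Set.ncard_le_ncard (fun x hx => by by_cases k : x ∈ C a <;> simp [hx, k])).trans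
        (Set.ncard_union_le _ _)
    have h3 := hb a (Or.inl rfl)
    rw [Set.ncard_insert_of_notMem ha hT, add_mul]
    omega

theorem pair {D : Type} [Finite D] (τ : Perm D) (π : D → Prop) (e : D)
    (h : ¬(π e ↔ π (τ e))) : ∃ e', e' ≠ e ∧ τ.SameCycle e e' ∧ ¬(π e' ↔ π (τ e')) := by
  classical
  by_contra k
  have k' : ∀ e', e' ≠ e → τ.SameCycle e e' → (π e' ↔ π (τ e')) := fun e' a b => by
    by_contra c; exact k ⟨e', a, b, c⟩
  have ex : ∃ n : ℕ, 0 < n ∧ (τ ^ n) e = e :=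
    ⟨orderOf τ, orderOf_pos τ, by rw [pow_orderOf_eq_one]; rfl⟩
  obtain ⟨n0, hn⟩ := Nat.find_spec ex
  have key : ∀ j, j < Nat.find ex → (π ((τ ^ (j + 1)) e) ↔ π (τ e)) := by
    intro j
    induction j with
    | zero => intro _; simp
    | succ j ih =>
      intro hj
      have a : (τ ^ (j + 1)) e ≠ e := fun f => Nat.find_min ex hj ⟨by omega, f⟩
      have b := k' _ a ⟨(j + 1 : ℕ), by rw [zpow_natCast]⟩
      rw [pow_succ' τ (j + 1), Perm.mul_apply, ← b]
      exact ih (by omega)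
  have := key (Nat.find ex - 1) (by omega)
  rw [Nat.sub_add_cancel n0, hn] at this
  exact h this

section graph
variable {V : Type} {Γ : SimpleGraph V}

def Rch (Γ : SimpleGraph V) (A : Set V) : V → V → Prop :=
  ReflTransGen fun x y => Γ.Adj x y ∧ x ∈ A ∧ y ∈ A

theorem Rch.mono {A B : Set V} (h : A ⊆ B) {a b : V} (r : Rch Γ A a b) : Rch Γ B a b := by
  induction r with
  | refl => exact .refl
  | tail _ k ih => exact ReflTransGen.tail ih ⟨k.1, h k.2.1, h k.2.2⟩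

theorem Rch.symm {A : Set V} {a b : V} (r : Rch Γ A a b) : Rch Γ A b a := by
  induction r with
  | refl => exact .refl
  | tail _ k ih => exact ReflTransGen.head ⟨k.1.symm, k.2.2, k.2.1⟩ ih

theorem Rch.mem {A : Set V} {a b : V} (r : Rch Γ A a b) (ha : a ∈ A) : b ∈ A := by
  induction r with
  | refl => exact ha
  | tail _ k _ => exact k.2.2

theorem Rch.self {A : Set V} {a b : V} (r : Rch Γ A a b) : Rch Γ {x | Rch Γ A a x} a b := by
  induction r with
  | refl => exact .refl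
  | tail r k ih => exact ReflTransGen.tail ih ⟨k.1, r, ReflTransGen.tail r k⟩

theorem cn_root {A : Set V} {v : V} (hv : v ∈ A) (h : ∀ x ∈ A, Rch Γ A v x) : Cn Γ A :=
  ⟨⟨v, hv⟩, fun a ha b hb => ReflTransGen.trans (h a ha).symm (h b hb)⟩

theorem cross {S P : Set V} {a b : V} (r : Rch Γ S a b) (ha : a ∈ P) (hb : b ∉ P) :
    ∃ v ∈ P, ∃ y ∈ S \ P, Γ.Adj v y := by
  induction r with
  | refl => exact absurd ha hb
  | @tail x y _ k ih =>
    by_cases hx : x ∈ P
    · exact ⟨x, hx, y, ⟨k.2.2, hb⟩, k.1⟩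
    · exact ih hx

theorem peel [Finite V] (hd : ∀ v, (Γ.neighborSet v).ncard ≤ 4) {N : ℕ} (hN : 0 < N) {S : Set V}
    (hS : Cn Γ S) (hc : N ≤ S.ncard) :
    ∃ P ⊆ S, Cn Γ P ∧ N ≤ P.ncard ∧ P.ncard ≤ 4 * N ∧ (S \ P = ∅ ∨ Cn Γ (S \ P)) := by
  classical
  have ex : ∃ n, ∃ P ⊆ S, Cn Γ P ∧ N ≤ P.ncard ∧ (S \ P = ∅ ∨ Cn Γ (S \ P)) ∧ P.ncard = n :=
    ⟨_, S, subset_rfl, hS, hc, Or.inl (by simp), rfl⟩
  obtain ⟨P, h1, h2, h3, h4, h5⟩ := Nat.find_spec ex
  refine ⟨P, h1, h2, h3, ?_, h4⟩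
  obtain ⟨v, hv, hv'⟩ : ∃ v ∈ P, ∀ x ∈ S \ P, ∃ y ∈ S \ P, Γ.Adj v y ∧ Rch Γ (S \ P) y x := by
    obtain ⟨a, ha⟩ := h2.1
    rcases h4 with k | k
    · exact ⟨a, ha, fun x hx => by rw [k] at hx; exact hx.elim⟩
    · obtain ⟨b, hb⟩ := k.1
      obtain ⟨v, hv, y, hy, e⟩ := cross (hS.2 a (h1 ha) b hb.1) ha hb.2
      exact ⟨v, hv, fun x hx => ⟨y, hy, e, k.2 y hy x hx⟩⟩
  let C : V → Set V := fun u => {x | u ∈ P \ {v} ∧ Rch Γ (P \ {v}) u x}
  have c1 : ∀ x, Rch Γ P v x → x = v ∨ ∃ u ∈ Γ.neighborSet v, x ∈ C u := by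
    intro x r
    induction r with
    | refl => exact Or.inl rfl
    | @tail x y _ k ih =>
      by_cases e : y = v
      · exact Or.inl e
      right
      rcases ih with rfl | ⟨u, hu, f⟩
      · exact ⟨y, k.1, ⟨k.2.2, e⟩, .refl⟩
      · exact ⟨u, hu, f.1, ReflTransGen.tail f.2 ⟨k.1, f.2.mem f.1, k.2.2, e⟩⟩
  have c2 : ∀ u, C u ⊆ P \ {v} := fun u x hx => hx.2.mem hx.1
  have c3 : ∀ u ∈ Γ.neighborSet v, (C u).ncard ≤ N - 1 := by
    intro u _
    by_contra l
    have l' : N ≤ (C u).ncard := by omega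
    obtain ⟨z, hz⟩ : (C u).Nonempty := Set.nonempty_of_ncard_ne_zero (by omega)
    have hu : u ∈ P \ {v} := hz.1
    have vC : v ∈ S \ C u := ⟨h1 hv, fun f => (c2 u f).2 rfl⟩
    have m := Nat.find_min' ex ⟨C u, fun x hx => h1 (c2 u hx).1,
      cn_root (v := u) ⟨hu, .refl⟩ fun x hx =>
        hx.2.self.mono fun y hy => (⟨hu, hy⟩ : y ∈ C u), l',
      Or.inr (cn_root vC fun x hx => ?_), rfl⟩
    · have : (C u).ncard < P.ncard :=
        Set.ncard_lt_ncard ⟨fun x hx => (c2 u hx).1, fun f => (c2 u (f hv)).2 rfl⟩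
      omega
    · by_cases hp : x ∈ P
      · rcases c1 x (h2.2 v hv x hp) with rfl | ⟨u', hu', f⟩
        · exact .refl
        · have sub : {y | Rch Γ (P \ {v}) u' y} ⊆ S \ C u := fun y hy =>
            ⟨h1 (Rch.mem hy f.1).1, fun g => hx.2 ⟨hu, ReflTransGen.trans g.2
              (ReflTransGen.trans (Rch.symm hy) f.2)⟩⟩
          exact ReflTransGen.head ⟨hu', vC, sub .refl⟩ (f.2.self.mono sub)
      · obtain ⟨y, hy, e, r⟩ := hv' x ⟨hx.1, hp⟩
        have sub : S \ P ⊆ S \ C u := fun t ht => ⟨ht.1, fun g => ht.2 (c2 u g).1⟩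
        exact ReflTransGen.head ⟨e, vC, sub hy⟩ (r.mono sub)
  have c4 := cover C (N - 1) (Set.toFinite (Γ.neighborSet v)) (P \ {v}) (fun x hx =>
    (c1 x (h2.2 v hv x hx.1)).resolve_left hx.2) c3
  have c5 := Set.ncard_sdiff_singleton_add_one hv
  have c6 := Nat.mul_le_mul_right (N - 1) (hd v)
  omega

theorem part_aux [Finite V] (hd : ∀ v, (Γ.neighborSet v).ncard ≤ 4) {N : ℕ} (hN : 0 < N) (n : ℕ) :
    ∀ S : Set V, S.ncard ≤ n → Cn Γ S → N ≤ S.ncard → ∃ p : V → V, ∀ v ∈ S, p v ∈ S ∧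
      Cn Γ {u | u ∈ S ∧ p u = p v} ∧ N ≤ {u | u ∈ S ∧ p u = p v}.ncard ∧
      {u | u ∈ S ∧ p u = p v}.ncard ≤ 6 * N := by
  classical
  induction n with
  | zero => intro S a _ b; omega
  | succ n ih =>
    intro S a hS b
    by_cases l : S.ncard ≤ 6 * N
    · obtain ⟨s, hs⟩ := hS.1
      refine ⟨fun _ => s, fun v _ => ?_⟩
      have : {u | u ∈ S ∧ s = s} = S := by simp
      rw [this]
      exact ⟨hs, hS, b, l⟩
    obtain ⟨P, h1, h2, h3, h4, h5⟩ := peel hd hN hS b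
    have e := Set.ncard_sdiff_add_ncard_of_subset h1
    have h6 : Cn Γ (S \ P) := h5.resolve_left fun f => by
      rw [f, Set.ncard_empty] at e; omega
    obtain ⟨p, hp⟩ := ih (S \ P) (by omega) h6 (by omega)
    obtain ⟨s, hs⟩ := h2.1
    refine ⟨fun u => if u ∈ P then s else p u, fun v hv => ?_⟩
    by_cases k : v ∈ P
    · have : {u | u ∈ S ∧ (if u ∈ P then s else p u) = if v ∈ P then s else p v} = P := by
        ext u
        simp only [Set.mem_ofPred_eq, if_pos k]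
        constructor
        · rintro ⟨f, g⟩
          by_contra t
          rw [if_neg t] at g
          exact (hp u ⟨f, t⟩).1.2 (g ▸ hs)
        · intro t; exact ⟨h1 t, if_pos t⟩
      rw [this]
      exact ⟨by simp only [if_pos k]; exact h1 hs, h2, h3, by omega⟩
    · have : {u | u ∈ S ∧ (if u ∈ P then s else p u) = if v ∈ P then s else p v} =
          {u | u ∈ S \ P ∧ p u = p v} := by
        ext u
        simp only [Set.mem_ofPred_eq, if_neg k]
        constructor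
        · rintro ⟨f, g⟩
          by_cases t : u ∈ P
          · rw [if_pos t] at g
            exact absurd (g ▸ hs) (hp v ⟨hv, k⟩).1.2
          · rw [if_neg t] at g; exact ⟨⟨f, t⟩, g⟩
        · rintro ⟨f, g⟩; exact ⟨f.1, by rw [if_neg f.2, g]⟩
      rw [this]
      exact ⟨by simp only [if_neg k]; exact (hp v ⟨hv, k⟩).1.1, (hp v ⟨hv, k⟩).2⟩

end graph

theorem sc_inv {D B : Type} [Finite D] {π : Perm D} {f : D → B} (h : ∀ d, f (π d) = f d)
    {d e : D} (s : π.SameCycle d e) : f d = f e := by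
  classical
  obtain ⟨n, -, rfl⟩ := s.exists_pow_eq'
  clear s
  induction n with
  | zero => rfl
  | succ n ih => rw [pow_succ', Perm.mul_apply, h, ih]

theorem conn_σ {D : Type} [Finite D] (M : HMap D) {d e : D} (s : M.σ.SameCycle d e) :
    Conn M.φ M.α d e :=
  Quotient.exact (sc_inv (f := Quotient.mk (EqvGen.setoid fun x y => y = M.φ x ∨ y = M.α x))
    (fun _ => Quotient.sound (EqvGen.symm _ _ (EqvGen.trans _ _ _
      (EqvGen.rel _ _ (Or.inr rfl)) (EqvGen.rel _ _ (Or.inl rfl))))) s)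

theorem lm_tg {V D : Type} [Finite V] [Finite D] {G : SimpleGraph V} {A : Set V} {τ c : ℕ}
    (hA : Unb G A τ c) (L : LM (meet G A) D) : L.toHMap.Tg (τ / 2) ((c + τ) ^ 2) := by
  intro π hα hθ
  let W : Set V := {v | (∃ d, L.vx d = v ∧ π d) ∧ ∃ d, L.vx d = v ∧ ¬π d}
  have hW : W.ncard ≤ τ / 2 := by
    refine le_trans ?_ hθ
    rw [show Nat.card {d // ¬(π d ↔ π (L.φ d))} = {d | ¬(π d ↔ π (L.φ d))}.ncard from rfl]
    refine le_trans (Set.ncard_le_ncard ?_) (Set.ncard_image_le (f := fun d => L.vx (L.φ d)))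
    rintro v ⟨⟨d, h1, h2⟩, e, h3, h4⟩
    by_contra k
    have inv : ∀ x, L.vx x = v → (π (L.toHMap.σ x) ↔ π x) := by
      intro x hx
      by_contra t
      refine k ⟨L.α x, fun f => t ?_, ?_⟩
      · rw [hα] at f; exact f.symm
      · exact (L.vx_σ x).trans hx
    have := sc_inv (π := L.toHMap.σ) (f := fun x => L.vx x = v ∧ π x) (fun x => by
      have a : L.vx (L.toHMap.σ x) = L.vx x := L.vx_σ x
      apply propext
      rw [a]
      exact and_congr_right fun hx => inv x hx) (L.vx_cyc d e (h1.trans h3.symm))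
    exact h4 (this ▸ (⟨h1, h2⟩ : L.vx d = v ∧ π d)).2
  have key : ∀ π' : D → Prop, (∀ d, π' (L.α d) ↔ π' d) →
      (∀ v, (∃ d, L.vx d = v ∧ π' d) → (∃ d, L.vx d = v ∧ ¬π' d) → v ∈ W) →
      {v | v ∈ nb G A ∧ ∀ d, L.vx d = v → π' d}.ncard ≤ τ / 2 →
      Nat.card {d // π' d} ≤ (c + τ) ^ 2 ∨ Nat.card {d // ¬π' d} ≤ (c + τ) ^ 2 := by
    intro π' hα' hw hB
    set B := {v | v ∈ nb G A ∧ ∀ d, L.vx d = v → π' d} with hBd
    let X : Set V := {v | v ∈ A ∧ ∀ d, L.vx d = v → π' d}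
    have loc : ∀ d, π' d → L.vx d ∈ X ∨ L.vx d ∈ W ∪ B := by
      intro d hd
      by_cases m : ∀ e, L.vx e = L.vx d → π' e
      · by_cases a : L.vx d ∈ A
        · exact Or.inl ⟨a, m⟩
        · have := L.adj d
          exact Or.inr (Or.inr ⟨⟨a, _, this.2.resolve_left a, this.1.symm⟩, m⟩)
      · refine Or.inr (Or.inl (hw _ ⟨d, rfl, hd⟩ ?_))
        by_contra t
        exact m fun e he => by by_contra s; exact t ⟨e, he, s⟩
    have hWB : (W ∪ B).ncard ≤ τ := (Set.ncard_union_le _ _).trans (by omega)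
    by_cases hX : X = A
    · right
      have : IsEmpty {d // ¬π' d} := ⟨fun ⟨d, hd⟩ => by
        rcases (L.adj d).2 with a | a
        · exact hd ((hX.ge a).2 d rfl)
        · exact hd ((hα' d).1 ((hX.ge a).2 _ rfl))⟩
      simp
    left
    have hc : X.ncard ≤ c := by
      refine hA.small X ⟨fun v hv => hv.1, fun f => hX (Set.Subset.antisymm (fun v hv => hv.1) f)⟩
        (le_trans (Set.ncard_le_ncard ?_) hWB)
      rintro v ⟨h1, x, hx, e⟩
      obtain ⟨d, ⟨d1, d2⟩, -⟩ := L.ex x v ⟨e, Or.inl hx.1⟩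
      have := loc (L.α d) ((hα' d).2 (hx.2 d d1))
      rw [d2] at this
      exact this.resolve_left h1
    have hT : (X ∪ (W ∪ B)).ncard ≤ c + τ := (Set.ncard_union_le _ _).trans (by omega)
    rw [show Nat.card {d // π' d} = {d | π' d}.ncard from rfl]
    refine le_trans (Set.ncard_le_ncard_of_injOn (t := (X ∪ (W ∪ B)) ×ˢ (X ∪ (W ∪ B)))
      (fun d => (L.vx d, L.vx (L.α d))) (fun d hd => ⟨loc d hd, loc _ ((hα' d).2 hd)⟩)
      fun d _ e _ f => ?_) ?_
    · exact (L.ex _ _ (L.adj d)).unique ⟨rfl, rfl⟩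
        ⟨(congrArg Prod.fst f).symm, (congrArg Prod.snd f).symm⟩
    · rw [Set.ncard_prod, sq]
      exact Nat.mul_le_mul hT hT
  have hsum : {v | v ∈ nb G A ∧ ∀ d, L.vx d = v → π d}.ncard +
      {v | v ∈ nb G A ∧ ∀ d, L.vx d = v → ¬π d}.ncard ≤ τ := by
    rw [← Set.ncard_union_eq]
    · exact le_trans (Set.ncard_le_ncard fun v hv => hv.elim (·.1) (·.1)) hA.le
    · refine Set.disjoint_left.2 ?_
      rintro v ⟨⟨h1, x, hx, e⟩, h2⟩ ⟨-, h3⟩
      obtain ⟨d, ⟨d1, -⟩, -⟩ := L.ex v x ⟨e.symm, Or.inr hx⟩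
      exact h3 d d1 (h2 d d1)
  by_cases l : {v | v ∈ nb G A ∧ ∀ d, L.vx d = v → π d}.ncard ≤ τ / 2
  · exact key π hα (fun v a b => ⟨a, b⟩) l
  · have := key (fun d => ¬π d) (fun d => not_congr (hα d))
      (fun v a b => ⟨by simpa using b, a⟩) (by omega)
    simp only [not_not] at this
    exact this.symm

end Net

open Net in
theorem part : PartSt := by
  intro V _ Γ N hc hd hN hV
  have hu : Cn Γ Set.univ := by
    obtain ⟨v⟩ := hc.nonempty
    refine cn_root (Set.mem_univ v) fun x _ => ?_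
    have := (SimpleGraph.reachable_iff_reflTransGen _ _).1 (hc.preconnected v x)
    clear * - this
    induction this with
    | refl => exact .refl
    | tail _ k ih => exact ReflTransGen.tail ih ⟨k, trivial, trivial⟩
  obtain ⟨p, hp⟩ := part_aux hd hN _ Set.univ le_rfl hu (by rwa [Set.ncard_univ])
  refine ⟨p, fun v => ?_⟩
  simpa using (hp v trivial).2

open Net in
theorem tangle (h2 : K2) : TangleSt := by
  intro k V D _ _ G U S A τ c hA hc
  obtain ⟨M₀, hs⟩ := h2.sub_ex S.toHMap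
    (fun d => S.real d ∧ ∃ u v, S.E d u v ∧ (u ∈ A ∨ v ∈ A)) (by
      rintro d ⟨a, u, v, e, f⟩
      exact ⟨S.real_α d a, v, u, ⟨e.2, by rw [S.αα]; exact e.1⟩, f.symm⟩)
  have ex : ∀ x : {d // S.real d ∧ ∃ u v, S.E d u v ∧ (u ∈ A ∨ v ∈ A)},
      ∃ u, S.vx x.1 = some u := fun x => by
    obtain ⟨u, _, e, _⟩ := x.2.2
    exact ⟨u, e.1⟩
  choose vx hvx using ex
  have hal : ∀ x, S.vx (S.α x.1) = some (vx (M₀.α x)) := fun x => by
    rw [← hvx, hs.al]
  let L : LM (meet G A) _ :=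
    { M₀ with
      vx := vx
      vx_σ := fun x => by
        have : S.toHMap.σ.SameCycle x.1 (M₀.σ x).1 :=
          (h2.sub_sc _ _ _ _ _ _ hs).1 (Perm.SameCycle.refl _ _).apply_right
        have e := sc_inv (π := S.toHMap.σ) (f := S.vx) S.vx_σ this
        rw [hvx, hvx] at e
        exact (Option.some.inj e).symm
      vx_cyc := fun d e h =>
        (h2.sub_sc _ _ _ _ _ _ hs).2 (S.vx_cyc _ _ _ (hvx d) (h ▸ hvx e))
      adj := fun x => by
        obtain ⟨a, u, v, e, f⟩ := x.2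
        obtain ⟨u', v', b1, b2, b3⟩ := S.real_adj _ a
        have e1 : vx x = u := Option.some.inj ((hvx x).symm.trans e.1)
        have e2 : vx (M₀.α x) = v := Option.some.inj ((hal x).symm.trans e.2)
        have e3 : u' = u := Option.some.inj (b1.symm.trans e.1)
        have e4 : v' = v := Option.some.inj (b2.symm.trans e.2)
        rw [e1, e2]
        exact ⟨e3 ▸ e4 ▸ b3, f⟩
      ex := fun u v h => by
        obtain ⟨d, ⟨a, b1, b2⟩, un⟩ := S.real_ex u v h.1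
        refine ⟨⟨d, a, u, v, ⟨b1, b2⟩, h.2⟩, ⟨Option.some.inj ((hvx _).symm.trans b1),
          Option.some.inj ((hal _).symm.trans b2)⟩, fun y hy => Subtype.ext (un y.1 ⟨y.2.1, ?_, ?_⟩)⟩
        · rw [hvx, hy.1]
        · rw [hal, hy.2] }
  have cA : ∀ a b, Rch G A a b → ∀ x y, L.vx x = a → L.vx y = b → Conn L.φ L.α x y := by
    intro a b r
    induction r with
    | refl => intro x y e f; exact conn_σ L.toHMap (L.vx_cyc _ _ (e.trans f.symm))
    | @tail b b' _ k ih =>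
      intro x y e f
      obtain ⟨d, ⟨d1, d2⟩, -⟩ := L.ex b b' ⟨k.1, Or.inl k.2.1⟩
      exact EqvGen.trans _ _ _ (ih x d e d1) (EqvGen.trans _ _ _ (EqvGen.rel _ _ (Or.inr rfl))
        (conn_σ L.toHMap (L.vx_cyc _ _ (d2.trans f.symm))))
  have cB : ∀ x, ∃ y, L.vx y ∈ A ∧ Conn L.φ L.α x y := fun x => by
    rcases (L.adj x).2 with a | a
    · exact ⟨x, a, EqvGen.refl _⟩
    · exact ⟨_, a, EqvGen.rel _ _ (Or.inr rfl)⟩
  refine ⟨_, inferInstance, L, Subtype.val, hs, hvx, fun x y => ?_, lm_tg hA L, ?_⟩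
  · obtain ⟨x', a, b⟩ := cB x
    obtain ⟨y', a', b'⟩ := cB y
    exact EqvGen.trans _ _ _ b (EqvGen.trans _ _ _ (cA _ _ (hA.cn.2 _ a _ a') _ _ rfl rfl)
      (EqvGen.symm _ _ b'))
  · rw [← Set.ncard_univ]
    refine le_trans (Set.ncard_le_ncard ?_) (Set.ncard_image_le (f := L.vx))
    intro a ha
    obtain ⟨b, hb, ne⟩ := Set.exists_ne_of_one_lt_ncard (s := A) (by omega) a
    rcases (hA.cn.2 a ha b hb).cases_head with e | ⟨t, e, -⟩
    · exact absurd e.symm ne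
    · obtain ⟨d, ⟨d1, -⟩, -⟩ := L.ex a t ⟨e.1, Or.inl ha⟩
      exact ⟨d, trivial, d1⟩

end Pool.Agent.Lib.MP_c1f5fe_lc
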