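import Pool.Agent.Lib.MP_c1f5fe_lc.Ball
import Pool.Agent.Lib.MP_c1f5fe_lc.NetA
import Pool.Agent.Lib.MP_c1f5fe_lc.Tb

/-! A flat disc with rings inside a large unbreakable set. -/

namespace Pool.Agent.Lib.MP_c1f5fe_lc

open Equiv Function Relation

namespace Pick

theorem indep {I : Type} (r : I → I → Prop) (t N : ℕ) : ∀ s : Finset I,
    N * (2 * t + 1) ≤ s.card → (∀ j, {i | r j i}.Finite ∧ {i | r j i}.ncard ≤ t) →
    ∃ x : Fin N → I, ∀ i j, i ≠ j → x i ∈ s ∧ x i ≠ x j ∧ ¬r (x i) (x j) := by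
  classical
  suffices h : ∀ s : Finset I, N * (2 * t + 1) ≤ s.card →
      (∀ j, {i | r j i}.Finite ∧ {i | r j i}.ncard ≤ t) →
      ∃ x : Fin N → I, (∀ i, x i ∈ s) ∧ ∀ i j, i ≠ j → x i ≠ x j ∧ ¬r (x i) (x j) by
    intro s a b
    obtain ⟨x, x1, x2⟩ := h s a b
    exact ⟨x, fun i j n => ⟨x1 i, x2 i j n⟩⟩
  induction N with
  | zero => exact fun _ _ _ => ⟨Fin.elim0, fun i => i.elim0, fun i => i.elim0⟩
  | succ N ih =>
    intro s l h
    have o : ∀ j, (s.filter (r j)).card ≤ t := fun j => by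
      rw [← Set.ncard_coe_finset]
      exact (Set.ncard_le_ncard (fun i hi => (Finset.mem_filter.1 hi).2) (h j).1).trans (h j).2
    have ne : s.Nonempty := Finset.card_pos.1 (by rw [add_mul] at l; omega)
    obtain ⟨a, ha, hb⟩ : ∃ a ∈ s, (s.filter fun j => r j a).card ≤ t := by
      apply Finset.exists_le_of_sum_le ne
      have := Finset.sum_card_bipartiteAbove_eq_sum_card_bipartiteBelow (s := s) (t := s) r
      simp only [Finset.bipartiteAbove, Finset.bipartiteBelow] at this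
      rw [← this]
      exact Finset.sum_le_sum fun j _ => o j
    obtain ⟨x, x1, x2⟩ := ih (s.filter fun y => y ≠ a ∧ ¬r a y ∧ ¬r y a) (by
      have c : s ⊆ (s.filter fun y => y ≠ a ∧ ¬r a y ∧ ¬r y a) ∪
          (({a} ∪ s.filter (r a)) ∪ s.filter fun j => r j a) := by
        intro y hy
        simp only [Finset.mem_union, Finset.mem_filter, Finset.mem_singleton, hy, true_and]
        tauto
      have c1 := (Finset.card_le_card c).trans (Finset.card_union_le _ _)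
      have c2 := Finset.card_union_le ({a} ∪ s.filter (r a)) (s.filter fun j => r j a)
      have c3 := Finset.card_union_le {a} (s.filter (r a))
      have := o a
      rw [Finset.card_singleton] at c3
      rw [add_mul] at l
      omega) h
    have m := fun i => Finset.mem_filter.1 (x1 i)
    refine ⟨Fin.cons a x, fun i => Fin.cases ha (fun i => (m i).1) i, fun i j n => ?_⟩
    induction i using Fin.cases with
    | zero =>
      induction j using Fin.cases with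
      | zero => exact absurd rfl n
      | succ j => exact ⟨(m j).2.1.symm, (m j).2.2.1⟩
    | succ i =>
      induction j using Fin.cases with
      | zero => exact ⟨(m i).2.1, (m i).2.2.2⟩
      | succ j => exact x2 i j fun e => n (by rw [e])

theorem fwd {D : Type} {π : Perm D} {P : D → Prop} (h : ∀ d, P d → P (π d)) (n : ℕ) {d : D}
    (p : P d) : P ((π ^ n) d) := by
  induction n with
  | zero => exact p
  | succ n ih => rw [pow_succ', Perm.mul_apply]; exact h _ ih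

theorem sc {D : Type} [Finite D] {π : Perm D} {P : D → Prop} (h : ∀ d, P d → P (π d)) {d e : D}
    (s : π.SameCycle d e) (p : P d) : P e := by
  classical
  obtain ⟨n, -, rfl⟩ := s.exists_pow_eq'
  exact fwd h n p

theorem con {D : Type} [Finite D] {M : HMap D} (hc : M.Con) {P : D → Prop}
    (h1 : ∀ d, P d → P (M.φ d)) (h2 : ∀ d, P d → P (M.α d)) (d e : D) : P d ↔ P e := by
  induction hc d e with
  | rel x y k =>
    rcases k with rfl | rfl
    · exact ⟨h1 x, sc h1 (Perm.SameCycle.refl M.φ x).apply_left⟩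
    · exact ⟨h2 x, fun p => M.αα x ▸ h2 _ p⟩
  | refl => rfl
  | symm _ _ _ ih => exact ih.symm
  | trans _ _ _ _ _ a b => exact a.trans b

variable {V D : Type} [Finite D] {H : SimpleGraph V} {L : LM H D} {R : ℕ} {O : ℕ → D → Prop}
  {len : ℕ → ℕ} {c : ∀ r, ZMod (len r) → V}

omit [Finite D] in
theorem vx_φ (L : LM H D) (d : D) : L.vx (L.φ d) = L.vx (L.α d) := by
  rw [← L.vx_σ (L.α d), L.αα]

omit [Finite D] in
theorem up (h : Rings L R O len c) {r : ℕ} (l : r ≤ R) {d : D} (p : O r d) : O R d := by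
  induction l using Nat.decreasingInduction generalizing d with
  | self => exact p
  | of_succ k l ih => exact ih (h.nest k l d ⟨d, p, rfl⟩)

omit [Finite D] in
theorem ends (h : Rings L R O len c) {d : D} (p : O R d) :
    L.vx d ∈ L.Zc (O R) ∧ L.vx (L.α d) ∈ L.Zc (O R) :=
  ⟨⟨d, p, rfl⟩, L.φ d, (h.phi R le_rfl d).2 p, vx_φ L d⟩

omit [Finite D] in
theorem rim (h : Rings L R O len c) {r : ℕ} (l : r ≤ R) (i : ZMod (len r)) :
    ∃ d, L.vx d = c r i ∧ L.vx (L.α d) = c r (i + 1) ∧ O r d ∧ ¬O r (L.α d) := by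
  obtain ⟨d, ⟨a, b⟩, -⟩ := L.ex _ _ ((h.cyc r l).adj i)
  exact ⟨d, a, b, (h.bd r l d).2 ⟨i, a, b⟩⟩

/-- around a vertex off the ring the colour is constant -/
theorem around (h : Rings L R O len c) {d e : D} (v : L.vx d ∉ Set.range (c R))
    (s : L.vx d = L.vx e) (p : O R d) : O R e :=
  (sc (π := L.toHMap.σ) (P := fun x => L.vx x = L.vx d ∧ O R x) (fun x k =>
    ⟨(L.vx_σ x).trans k.1, (h.phi R le_rfl _).2 (by
      by_contra n
      obtain ⟨i, a, -⟩ := (h.bd R le_rfl x).1 ⟨k.2, n⟩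
      exact v ⟨i, a.symm.trans k.1⟩)⟩) (L.vx_cyc d e s) ⟨rfl, p⟩).2

theorem cn (hc : L.toHMap.Con) (h : Rings L R O len c) : Cn H (L.Zc (O R)) := by
  have t := (h.cyc R le_rfl).three
  have : NeZero (len R) := ⟨by omega⟩
  have a : ∀ n : ℕ, Net.Rch H (L.Zc (O R)) (c R 0) (c R n) := by
    intro n
    induction n with
    | zero => rw [Nat.cast_zero]; exact .refl
    | succ n ih =>
      obtain ⟨d, a, b, p, -⟩ := rim h le_rfl n
      rw [Nat.cast_succ]
      exact ReflTransGen.tail ih ⟨(h.cyc R le_rfl).adj n, a ▸ (ends h p).1, b ▸ (ends h p).2⟩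
  have a' : ∀ i, Net.Rch H (L.Zc (O R)) (c R 0) (c R i) := fun i => by
    simpa using a i.val
  obtain ⟨o, o1, -, o2, -⟩ := rim h le_rfl 0
  refine Net.cn_root (o1 ▸ (ends h o2).1) ?_
  rintro v ⟨d, p, rfl⟩
  by_contra n
  have st : ∀ x, O R x → ¬Net.Rch H (L.Zc (O R)) (c R 0) (L.vx x) →
      ¬Net.Rch H (L.Zc (O R)) (c R 0) (L.vx (L.α x)) := fun x p n k =>
    n (ReflTransGen.tail k ⟨(L.adj x).symm, (ends h p).2, (ends h p).1⟩)
  have := (con hc (P := fun x => O R x ∧ ¬Net.Rch H (L.Zc (O R)) (c R 0) (L.vx x))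
    (fun x k => ⟨(h.phi R le_rfl x).2 k.1, vx_φ L x ▸ st x k.1 k.2⟩)
    (fun x k => ⟨by
      by_contra n
      obtain ⟨i, a, -⟩ := (h.bd R le_rfl x).1 ⟨k.1, n⟩
      exact k.2 (a ▸ a' i), st x k.1 k.2⟩) d o).1 ⟨p, n⟩
  exact this.2 (o1 ▸ .refl)

/-- a disc whose ring is far from `x` does not see the ball around `x` unless it contains `x` -/
theorem far (hc : L.toHMap.Con) (h : Rings L R O len c) {x y : D} {ρ : ℕ}
    (hb : ∀ d, O R d → ¬O R (L.α d) → L.toHMap.ball (L.toHMap.rv y) ρ d)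
    (hd : 2 * ρ < L.toHMap.rg.dist (L.toHMap.rv x) (L.toHMap.rv y)) (hx : ¬O R x) {d : D}
    (l : L.toHMap.rg.dist (L.toHMap.rv x) (L.toHMap.rv d) ≤ ρ) : ¬O R d := by
  have node : ∀ u, L.toHMap.rg.dist (L.toHMap.rv x) u ≤ ρ → ∀ a b, Ball.Inc L.toHMap u a →
      Ball.Inc L.toHMap u b → O R a → O R b := by
    rintro u hu a b (rfl | rfl) (k | k) p
    · refine around h ?_ (Net.sc_inv L.vx_σ ((Ball.rv_eq _).1 k)).symm p
      rintro ⟨i, hi⟩
      obtain ⟨e, e1, -, e2, e3⟩ := rim h le_rfl i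
      have t := (hb e e2 e3).1
      rw [(Ball.rv_eq _).2 (L.vx_cyc e a (e1.trans hi)), SimpleGraph.dist_comm] at t
      have := (Ball.reach _ hc (L.toHMap.rv x) (L.toHMap.rv a)).dist_triangle_left
        (L.toHMap.rv y)
      omega
    · exact absurd k.symm (Ball.rv_ne _ _ _)
    · exact absurd k (Ball.rv_ne _ _ _)
    · exact sc (fun z q => (h.phi R le_rfl z).2 q) ((Ball.rf_eq _).1 k).symm p
  have w : ∀ (n x' : L.toHMap.Node) (p : L.toHMap.rg.Walk n x'), x' = L.toHMap.rv x →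
      p.length ≤ ρ → ∀ d, Ball.Inc L.toHMap n d → ¬O R d := by
    intro n x' p
    induction p with
    | nil => rintro rfl - d hd q; exact hx (node _ (by simp) d x hd (.inl rfl) q)
    | @cons a b e r q i =>
      rintro rfl l d hd k
      have da : L.toHMap.rg.dist (L.toHMap.rv x) a ≤ ρ := by
        rw [SimpleGraph.dist_comm]; exact (SimpleGraph.dist_le (.cons r q)).trans l
      obtain ⟨t, ht⟩ := Ball.adj_ex _ r
      exact i rfl (by simp at l; omega) t (ht.symm.imp And.left And.right)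
        (node a da d t hd (ht.imp And.left And.right) k)
  obtain ⟨p, hp⟩ := (Ball.reach _ hc (L.toHMap.rv d) (L.toHMap.rv x)).exists_walk_length_eq_dist
  exact w _ _ p rfl (by rw [hp, SimpleGraph.dist_comm]; exact l) d (.inl rfl)

theorem disj (hc : L.toHMap.Con) (h : Rings L R O len c) {O' : ℕ → D → Prop} {len' : ℕ → ℕ}
    {c' : ∀ r, ZMod (len' r) → V} (h' : Rings L R O' len' c') {x y : D} {ρ : ℕ}
    (hb : ∀ d, O R d → ¬O R (L.α d) → L.toHMap.ball (L.toHMap.rv x) ρ d)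
    (hb' : ∀ d, O' R d → ¬O' R (L.α d) → L.toHMap.ball (L.toHMap.rv y) ρ d)
    (hd : 2 * ρ < L.toHMap.rg.dist (L.toHMap.rv x) (L.toHMap.rv y)) (hx : ¬O' R x)
    (hy : ¬O R y) : Disjoint (L.Zc (O R)) (L.Zc (O' R)) := by
  have f := fun d (l : L.toHMap.ball (L.toHMap.rv x) ρ d) => far hc h' hb' hd hx l.1
  have f' := fun d (l : L.toHMap.ball (L.toHMap.rv y) ρ d) =>
    far hc h hb (SimpleGraph.dist_comm ▸ hd) hy l.1
  have e : ∀ d, ¬(O R d ∧ O' R d) := fun d k => hx ((con hc (P := fun z => O R z ∧ O' R z)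
    (fun z k => ⟨(h.phi R le_rfl z).2 k.1, (h'.phi R le_rfl z).2 k.2⟩)
    (fun z k => ⟨by_contra fun n => f z (hb z k.1 n) k.2,
      by_contra fun n => f' z (hb' z k.2 n) k.1⟩) d x).1 k).2
  rw [Set.disjoint_left]
  rintro v ⟨a, a1, rfl⟩ ⟨b, b1, b2⟩
  refine e b ⟨around h ?_ b2.symm a1, b1⟩
  rintro ⟨i, hi⟩
  obtain ⟨z, z1, -, z2, z3⟩ := rim h le_rfl i
  refine far hc h' hb' hd hx (d := b) ?_ b1
  rw [← (Ball.rv_eq _).2 (L.vx_cyc z b (z1.trans (hi.trans b2.symm)))]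
  exact (hb z z2 z3).1

theorem flat (h2 : K2) {G : SimpleGraph V} {A : Set V} {L : LM (meet G A) D}
    (hc : L.toHMap.Con) (h : Rings L R O len c) (hA : L.Zc (O R) ⊆ A)
    (M : HMap {d // L.vx d ∈ L.Zc (O R) ∧ L.vx (L.α d) ∈ L.Zc (O R)})
    (hM : L.toHMap.Sub (fun d => L.vx d ∈ L.Zc (O R) ∧ L.vx (L.α d) ∈ L.Zc (O R)) M Subtype.val)
    (he : M.eg = 0) :
    Nonempty (Flat G (L.Zc (O R)) R {d // L.vx d ∈ L.Zc (O R) ∧ L.vx (L.α d) ∈ L.Zc (O R)}) := by
  have ph : ∀ x, O R x.1 → (M.φ x).1 = L.φ x.1 := fun x p =>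
    h2.sub_φ _ _ M _ x hM (ends h ((h.phi R le_rfl _).2 p))
  have pw : ∀ x, O R x.1 → ∀ n : ℕ, ((M.φ ^ n) x).1 = (L.φ ^ n) x.1 := by
    intro x p n
    induction n with
    | zero => rfl
    | succ n ih =>
      rw [pow_succ', pow_succ', Perm.mul_apply, Perm.mul_apply, ph, ih]
      rw [ih]
      exact fwd (fun z q => (h.phi R le_rfl z).2 q) n p
  let L₁ : LM (rst G (L.Zc (O R))) _ :=
    { toHMap := M
      vx := fun x => L.vx x.1
      vx_σ := fun x => by
        obtain ⟨n, -, e, -⟩ := hM.si x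
        have : L.toHMap.σ.SameCycle x.1 (M.σ x).1 := ⟨n, by rw [zpow_natCast, e]⟩
        exact (Net.sc_inv L.vx_σ this).symm
      vx_cyc := fun d e k => (h2.sub_sc _ _ M _ d e hM).2 (L.vx_cyc _ _ k)
      adj := fun d => by
        rw [hM.al d]
        exact ⟨(L.adj d.1).1, d.2⟩
      ex := fun u v k => by
        obtain ⟨d, ⟨a, b⟩, q⟩ := L.ex u v ⟨k.1, .inl (hA k.2.1)⟩
        refine ⟨⟨d, a ▸ k.2.1, b ▸ k.2.2⟩, ⟨a, by rw [hM.al]; exact b⟩, fun y hy => ?_⟩
        exact Subtype.ext (q y.1 ⟨hy.1, by rw [← hM.al]; exact hy.2⟩) }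
  have f : ∀ r ≤ R, ∀ x, O r x.1 → O r (M.φ x).1 := fun r l x p => by
    rw [ph x (up h l p)]; exact (h.phi r l _).2 p
  refine ⟨⟨L₁, fun r x => O r x.1, len, c, he, ⟨fun r l x => ⟨fun p => ?_, f r l x⟩,
    fun r l => ⟨(h.cyc r l).three, (h.cyc r l).inj, fun i => ?_⟩, fun r l x => ?_,
    fun r l x k => ?_, fun r l x p n => ?_⟩, ?_, fun v hv n u hu => ?_, ?_⟩⟩
  · exact sc (P := fun x => O r x.1) (f r l) (Perm.SameCycle.refl M.φ x).apply_left p
  · obtain ⟨d, a, b, p, -⟩ := rim h l i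
    exact ⟨((h.cyc r l).adj i).1, a ▸ (ends h (up h l p)).1, b ▸ (ends h (up h l p)).2⟩
  · have := h.bd r l x.1
    rwa [← hM.al] at this
  · obtain ⟨y, a, b⟩ := k
    exact h.nest r l _ ⟨y.1, a, b⟩
  · classical
    obtain ⟨a, e, i, s, b⟩ := h.tight r l x.1 p (by rw [← hM.al]; exact n)
    obtain ⟨m, -, rfl⟩ := s.exists_pow_eq'
    refine ⟨a, (M.φ ^ m) x, i, ⟨m, by rw [zpow_natCast]⟩, ?_⟩
    exact (congrArg L.vx (pw x (up h l p) m)).trans b
  · ext v
    exact ⟨fun ⟨x, a, b⟩ => ⟨x.1, a, b⟩, fun ⟨d, a, b⟩ => ⟨⟨d, ends h a⟩, a, b⟩⟩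
  · obtain ⟨e, ⟨a, b⟩, -⟩ := L.ex v u ⟨hu, .inl (hA hv)⟩
    obtain ⟨d, p, rfl⟩ := hv
    exact b ▸ (ends h (around h n a.symm p)).2
  · obtain ⟨n, k⟩ := cn hc h
    exact ⟨n, fun a ha b hb => ReflTransGen.mono (fun x y q => ⟨q.1.1, q.2⟩) _ _ (k a ha b hb)⟩

end Pick

open Pick in
theorem pick (h1 : K1) (h2 : K2) (hT : TangleSt) (hN : NetSt) (hB : BallSt) (hR : RingSt) :
    PickSt := by
  classical
  obtain ⟨q, hN⟩ := hN
  let b : ℕ → ℕ := fun n => tw q (n ^ 2 + 2 * n + n)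
  let t : ℕ → ℕ := fun n => n ^ 2 * b n + b n
  let p : ℕ → ℕ := fun n => 2 ^ (2 * n) * (4 * n ^ 2 + 8) + (2 * n + 1) * (2 * t n + 1)
  have s0 := TB.self' fun n : ℕ => n
  have s1 : TB (fun n : ℕ => n) fun n => n ^ 2 := s0.pow (TB.const 2)
  have s2 : TB (fun n : ℕ => n) fun n => 2 * n := (TB.const 2).mul s0
  have s3 : TB (fun n : ℕ => n) fun n => n ^ 2 + 2 * n + n := (s1.add s2).add s0
  have s4 : TB (fun n : ℕ => n) b := s3.tw q
  have s5 : TB (fun n : ℕ => n) t := (s1.mul s4).add s4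
  have s6 : TB (fun n : ℕ => n) p := (s2.two_pow.mul (((TB.const 4).mul s1).add (TB.const 8))).add
    (s2.succ.mul ((TB.const 2).mul s5).succ)
  obtain ⟨h, hh⟩ := (((s3.add s6).tw q).add ((TB.const 4).mul s5)).add
    (((TB.const 3).mul s1).succ)
  refine ⟨h, fun k τ c R V D _ _ G U S A top hA hτ hl => ?_⟩
  replace hh := hh (c + k + τ)
  set n := c + k + τ with hn
  simp only at hh
  obtain ⟨D₀, _, L, ι, hs, hv, hc, hg, hD⟩ := hT k V D G U S A τ c hA (by omega)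
  have tg : L.toHMap.Tg (τ / 2) (n ^ 2) := fun π a e =>
    have l : (c + τ) ^ 2 ≤ n ^ 2 := Nat.pow_le_pow_left (by omega) 2
    (hg π a e).imp (·.trans l) (·.trans l)
  have eS := h2.top_eg S top
  have eL : L.toHMap.eg ≤ (2 * n : ℕ) :=
    (h2.sub_eg _ _ _ _ hs).trans (eS.trans (by push_cast; omega))
  have m1 : tw q (n ^ 2 + 2 * n + (2 * R + 4) + p n) ≤ tw q (n ^ 2 + 2 * n + n + p n) :=
    tw_mono_right q (by omega)
  obtain ⟨x, xd, xb⟩ := hN D₀ L.toHMap (2 * n) (τ / 2) (n ^ 2) (2 * R + 4) (p n) hc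
    (fun d e => (L.adj d).ne (by rw [e])) eL tg (by omega) (by omega)
  replace xb : ∀ i, Nat.card {d // L.toHMap.ball (L.toHMap.rv (x i)) (2 * R + 4) d} ≤ b n :=
    fun i => (xb i).trans (tw_mono_right q (by omega))
  let gd : Fin (p n) → Prop := fun i =>
    L.toHMap.GB (L.toHMap.rv (x i)) (2 * R + 4) (n ^ 2 * b n)
  have bad : (Finset.univ.filter fun i => ¬gd i).card ≤ 2 ^ (2 * n) * (4 * n ^ 2 + 8) := by
    let e := (Finset.univ.filter fun i => ¬gd i).orderEmbOfFin rfl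
    exact hB D₀ L.toHMap (2 * n) (τ / 2) (n ^ 2) (2 * R + 4) (b n) _
      (fun i => L.toHMap.rv (x (e i))) hc eL tg (by omega) (by omega)
      (fun i j k => xd _ _ (e.injective.ne k)) (fun i => xb _)
      fun i => (Finset.mem_filter.1 (Finset.orderEmbOfFin_mem _ rfl i)).2
  have ex := fun i : {i // gd i} => hR V D₀ _ L (x i) _ _ _ R hc i.2 (xb i) le_rfl (by
    change 4 * t n < _
    omega)
  choose O len cc r1 r2 r3 r4 using ex
  obtain ⟨y, hy⟩ := indep (fun j i : {i // gd i} => O j R (x i)) (t n) (2 * n + 1) Finset.univ (by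
    have := Finset.card_filter_add_card_filter_not (s := Finset.univ) fun i => gd i
    rw [Finset.card_univ, Fintype.card_fin] at this
    rw [Finset.card_univ, Fintype.card_subtype]
    have : p n = 2 ^ (2 * n) * (4 * n ^ 2 + 8) + (2 * n + 1) * (2 * t n + 1) := rfl
    omega) fun j => ⟨Set.toFinite _, le_trans (Set.ncard_le_ncard_of_injOn (t := {d | O j R d})
      (fun i => x i) (fun i hi => hi) fun a _ a' _ e => by
        by_contra ne
        have := xd a a' fun k => ne (Subtype.ext k)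
        simp only at e
        rw [e] at this
        simp at this) (r2 j)⟩
  let Z : Fin (2 * n + 1) → Set V := fun i => L.Zc (O (y i) R)
  have dj : Pairwise (Disjoint on Z) := fun i j ne =>
    disj hc (r1 _) (r1 _) (r4 _) (r4 _) (xd _ _ fun k => (hy i j ne).2.1 (Subtype.ext k))
      (hy j i ne.symm).2.2 (hy i j ne).2.2
  obtain ⟨i, i1, i2⟩ : ∃ i, Disjoint (Z i) (nb G A) ∧ S.PlanarOn (Z i) := by
    by_contra no
    let P := Finset.univ.filter fun i => Disjoint (Z i) (nb G A)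
    have a : P.card ≤ 2 * k := by
      let e := P.orderEmbOfFin rfl
      exact h2.count S _ (fun i => Z (e i)) eS (fun i j ne => dj (e.injective.ne ne))
        fun i pl => no ⟨_, (Finset.mem_filter.1 (Finset.orderEmbOfFin_mem _ rfl i)).2, pl⟩
    have w : ∀ i : {i // ¬Disjoint (Z i) (nb G A)}, ∃ v : nb G A, v.1 ∈ Z i := fun i => by
      obtain ⟨v, a, b⟩ := Set.not_disjoint_iff.1 i.2
      exact ⟨⟨v, b⟩, a⟩
    choose f hf using w
    have inj : Injective f := fun i j e => by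
      by_contra ne
      exact Set.disjoint_left.1 (dj fun k => ne (Subtype.ext k)) (hf i) (e ▸ hf j)
    have a' := Nat.card_le_card_of_injective f inj
    rw [Nat.card_eq_fintype_card, Fintype.card_subtype, Nat.card_coe_set_eq] at a'
    have := Finset.card_filter_add_card_filter_not (s := Finset.univ)
      fun i => Disjoint (Z i) (nb G A)
    rw [Finset.card_univ, Fintype.card_fin] at this
    have := hA.le
    simp only [P] at a
    omega
  have zA : Z i ⊆ A := by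
    rintro v ⟨d, a, rfl⟩
    by_contra no
    exact Set.disjoint_left.1 i1 ⟨d, a, rfl⟩
      ⟨no, _, (L.adj d).2.resolve_left no, (L.adj d).1.symm⟩
  refine ⟨Z i, zA, ?_, i2, {d // L.vx d ∈ Z i ∧ L.vx (L.α d) ∈ Z i}, inferInstance, ?_⟩
  · have : (Z i).ncard ≤ t n :=
      (Set.ncard_image_le (f := L.vx) (s := {d | O (y i) R d})).trans (r2 _)
    omega
  obtain ⟨M, hM⟩ := h2.sub_ex L.toHMap (fun d => L.vx d ∈ Z i ∧ L.vx (L.α d) ∈ Z i)
    fun d k => ⟨k.2, by rw [L.αα]; exact k.1⟩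
  refine flat h2 hc (r1 _) zA M hM (le_antisymm ?_ (h1.eg_nonneg _ _))
  obtain ⟨D', _, M', κ, s', e'⟩ := i2
  obtain ⟨μ, -, k⟩ := h2.sub_le _ _ _ _ _ _ _ s' (h2.sub_trans _ _ _ _ _ _ _ hs hM) (by
    rintro _ ⟨d, a, rfl⟩
    exact ⟨_, _, ⟨hv d, by rw [← hs.al]; exact hv _⟩, (L.adj d).1, a⟩)
  exact e' ▸ h2.sub_eg _ _ _ _ k

end Pool.Agent.Lib.MP_c1f5fe_lc
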