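import Pool.Agent.Lib.MP_c1f5fe_lc.Prep1a

/-! A smallest solution has few darts outside the graph. -/

namespace Pool.Agent.Lib.MP_c1f5fe_lc

open Equiv Function Relation

namespace Prep1

variable {k : ℕ} {V D : Type} {G : SimpleGraph V} {U : Set V}

theorem ncyc_le {D₀ : Type} [Finite D] [Finite D₀] (π : Perm D) (π₀ : Perm D₀) (ι : D₀ → D)
    (h : ∀ x, π.SameCycle (ι x) (ι (π₀ x))) (hit : ∀ d, ∃ x, π.SameCycle d (ι x)) :
    ncyc π ≤ ncyc π₀ := by
  refine Nat.card_le_card_of_surjective (Quotient.lift (s := Perm.SameCycle.setoid π₀)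
    (fun x => Quotient.mk (Perm.SameCycle.setoid π) (ι x)) fun x y c => Quotient.sound
      (sc_ind (P := fun y => π.SameCycle (ι x) (ι y)) (fun z hz => hz.trans (h z)) c
        (Perm.SameCycle.refl _ _))) ?_
  rintro ⟨d⟩
  obtain ⟨x, c⟩ := hit d
  exact ⟨Quotient.mk _ x, Quotient.sound c.symm⟩

theorem ncyc_free (k1 : K1) [Finite D] (a : Perm D) (h : ∀ x, a (a x) = x) (h' : ∀ x, a x ≠ x) :
    2 * ncyc a = Nat.card D := by
  have := k1.invol a (fun _ => True) h (fun _ _ => trivial)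
  rw [k1.on_eq_at _ _ (fun _ => Iff.rfl), k1.at_univ] at this
  have e : IsEmpty {x // True ∧ a x = x} := ⟨fun x => h' x.1 x.2.2⟩
  rw [this, Nat.card_of_isEmpty (α := {x // True ∧ a x = x}), add_zero]
  exact Nat.card_congr (Equiv.subtypeUnivEquiv fun _ => trivial)

theorem card_T [Finite D] (S : Sk k G U D) : {d | S.IsT d}.ncard ≤ 4 * k := by
  have : {d | S.IsT d} ⊆ (fun p : Fin 4 × Fin k => S.φ^[p.1] (S.term p.2)) '' Set.univ := by
    intro d h
    obtain ⟨i, rfl | rfl | rfl | rfl⟩ := isT_cases S h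
    exacts [⟨(0, i), trivial, rfl⟩, ⟨(1, i), trivial, rfl⟩, ⟨(2, i), trivial, rfl⟩,
      ⟨(3, i), trivial, rfl⟩]
  refine (Set.ncard_le_ncard this).trans ((Set.ncard_image_le).trans ?_)
  simp

theorem card_real [Finite V] [Finite D] (S : Sk k G U D) :
    {d | S.real d}.ncard ≤ Nat.card G.Dart := by
  have : Finite G.Dart := Finite.of_injective _ SimpleGraph.Dart.toProd_injective
  have : {d | S.real d} ⊆
      (fun p : G.Dart => (S.real_ex _ _ p.adj).exists.choose) '' Set.univ := by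
    intro d h
    obtain ⟨u, v, h1, h2, a⟩ := S.real_adj d h
    exact ⟨⟨(u, v), a⟩, trivial,
      (S.real_ex u v a).unique (S.real_ex u v a).exists.choose_spec ⟨h, h1, h2⟩⟩
  refine (Set.ncard_le_ncard this).trans ((Set.ncard_image_le).trans ?_)
  simp

/-- the darts that cannot be removed, up to reversal -/
def Bs (S : Sk k G U D) (d : D) : Prop :=
  S.real d ∨ S.IsT d ∨ ∃ c z, S.vx c = some z ∧ z ∈ U ∧ d = S.φ c

theorem count (k1 : K1) (k2 : K2) [Finite V] [Finite D] (S : Sk k G U D) (t : S.Top)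
    (hG : Nat.card G.ConnectedComponent ≤ 2 * k + 1) (core : ∃ d, S.real d ∨ S.IsT d)
    (free : ∀ d, S.α d ≠ d)
    (vert : ∀ d, ∃ e, S.toHMap.σ.SameCycle d e ∧ (S.real e ∨ S.IsT e))
    (same : ∀ d, ¬Bs S d → ¬Bs S (S.α d) → S.φ.SameCycle d (S.α d)) :
    {d | ¬(Bs S d ∨ Bs S (S.α d))}.ncard ≤ 16 * k := by
  classical
  set A : D → Prop := fun d => Bs S d ∨ Bs S (S.α d) with hA
  have hα : ∀ d, A d → A (S.α d) := fun d h => by
    simp only [hA, S.αα]; exact h.symm
  have hb : ∀ d, S.real d ∨ S.IsT d → A d := fun d h => .inl (h.elim .inl fun h => .inr (.inl h))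
  obtain ⟨M₀, s⟩ := k2.sub_ex S.toHMap A hα
  have ha : ∀ x : {d // A d}, (M₀.α x).1 = S.α x.1 := s.al
  obtain ⟨d₀, hd₀⟩ := core
  have e1 : ncyc S.toHMap.σ ≤ ncyc M₀.σ :=
    ncyc_le _ _ Subtype.val (fun x => nxt_sc (s.si x)) fun d => by
      obtain ⟨e, c, h⟩ := vert d
      exact ⟨⟨e, hb e h⟩, c⟩
  have e2 : ncyc S.φ ≤ ncyc M₀.φ := by
    refine ncyc_le _ _ Subtype.val (fun x => ?_) fun d => ?_
    · have := nxt_val (f := Quotient.mk (Perm.SameCycle.setoid S.φ)) (fun r hr =>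
        Quotient.sound ((same r (fun h => hr (.inl h)) fun h => hr (.inr h)).trans
          (sc_step _ _)).symm) (sub_nxt s x)
      rw [HMap.σ_apply, S.αα] at this
      exact (sc_step _ _).trans (Quotient.exact this).symm
    · by_contra hc
      have hn : ∀ e, S.φ.SameCycle d e → ¬A e := fun e c h => hc ⟨⟨e, h⟩, c⟩
      exact hn d₀ (closed t.1 (P := S.φ.SameCycle d) (fun e c => c.trans (sc_step _ _))
        (fun e c => c.trans (same e (fun h => hn e c (.inl h)) fun h => hn e c (.inr h)))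
        (Perm.SameCycle.refl _ _) d₀) (hb _ hd₀)
  have e3 := ncyc_free k1 S.α S.αα free
  have e4 := ncyc_free k1 M₀.α M₀.αα fun x h => free x.1 (by rw [← ha, h])
  have c1 : ∀ x y : {d // A d}, S.toHMap.σ.SameCycle x.1 y.1 → Conn M₀.φ M₀.α x y :=
    fun x y c => k1.conn_sc _ _ x y (.inr (.inr (.inl ((k2.sub_sc _ _ _ _ x y s).2 c))))
  have cφ : ∀ x y : {d // A d}, y.1 = S.φ x.1 → Conn M₀.φ M₀.α x y := fun x y h =>
    .rel _ _ (.inl (Subtype.ext (h.trans (k2.sub_φ _ _ _ _ x s (h ▸ y.2)).symm)))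
  have cα : ∀ x : {d // A d}, Conn M₀.φ M₀.α x (M₀.α x) := fun x => .rel _ _ (.inr rfl)
  have cR : ∀ u v, G.Reachable u v → ∀ x y : {d // A d}, S.vx x.1 = some u → S.vx y.1 = some v →
      Conn M₀.φ M₀.α x y := by
    rintro u v ⟨p⟩
    induction p with
    | nil => exact fun x y h h' => c1 x y (S.vx_cyc _ _ _ h h')
    | cons a _ ih =>
      intro x y h h'
      obtain ⟨r, hr, h1, h2⟩ := (S.real_ex _ _ a).exists
      exact .trans _ _ _ (c1 x ⟨r, hb r (.inl hr)⟩ (S.vx_cyc _ _ _ h h1))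
        (.trans _ _ _ (cα _) (ih _ y (by rw [ha]; exact h2) h'))
  have t0 : ∀ i, S.IsT (S.term i) := fun i => ⟨i, Perm.SameCycle.refl _ _⟩
  have e5 : ncomp M₀.φ M₀.α ≤ 3 * k + 1 := by
    let g : Fin k ⊕ G.ConnectedComponent → {d // A d} := Sum.elim
      (fun i => ⟨S.term i, hb _ (.inr (t0 i))⟩) fun c =>
        if h : ∃ x : {d // A d}, ∃ u, S.vx x.1 = some u ∧ G.connectedComponentMk u = c
        then h.choose else ⟨d₀, hb _ hd₀⟩
    have lab : ∀ (x : {d // A d}) u, S.vx x.1 = some u → ∃ j, Conn M₀.φ M₀.α (g j) x := by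
      intro x u hu
      have h : ∃ x : {d // A d}, ∃ v, S.vx x.1 = some v ∧
          G.connectedComponentMk v = G.connectedComponentMk u := ⟨x, u, hu, rfl⟩
      obtain ⟨v, hv, e⟩ := h.choose_spec
      refine ⟨.inr (G.connectedComponentMk u), ?_⟩
      simp only [g, Sum.elim_inr, dif_pos h]
      exact cR v u (SimpleGraph.ConnectedComponent.exact e) _ _ hv hu
    have bs : ∀ x : {d // A d}, Bs S x.1 → ∃ j, Conn M₀.φ M₀.α (g j) x := by
      rintro x (h | ⟨i, c⟩ | ⟨c, z, h, hz, e⟩)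
      · obtain ⟨u, -, h1, -⟩ := S.real_adj _ h
        exact lab x u h1
      · obtain ⟨hT, h⟩ := sc_ind (P := fun d => ∃ h : S.IsT d,
          Conn M₀.φ M₀.α (g (.inl i)) ⟨d, hb d (.inr h)⟩) (fun d ⟨hT, h⟩ =>
            ⟨(S.isT_φ d).2 hT, .trans _ _ _ h (cφ _ _ rfl)⟩) c ⟨t0 i, .refl _⟩
        exact ⟨_, h⟩
      · obtain ⟨u, -, ⟨h1, -⟩, -⟩ := third_adjD S h hz
        exact lab x u (e ▸ h1)
    refine (Nat.card_le_card_of_surjective (fun j => Quotient.mk _ (g j)) ?_).trans ?_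
    · rintro ⟨x⟩
      rcases x.2 with h | h
      · obtain ⟨j, c⟩ := bs x h
        exact ⟨j, Quotient.sound c⟩
      · obtain ⟨j, c⟩ := bs (M₀.α x) (by rw [ha]; exact h)
        exact ⟨j, Quotient.sound (.trans _ _ _ c (.symm _ _ (cα x)))⟩
    · rw [Nat.card_sum, Nat.card_eq_fintype_card, Fintype.card_fin]; omega
  have e6 := k1.eg_nonneg M₀.φ M₀.α
  have e7 := t.2
  have e8 : Nat.card {d // A d} + {d | ¬(Bs S d ∨ Bs S (S.α d))}.ncard = Nat.card D := by
    have := Set.ncard_add_ncard_compl {d | A d}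
    rwa [← Nat.card_coe_set_eq] at this
  simp only [eg, chi, HMap.chi, HMap.σ] at e1 e6 e7
  omega

theorem unit (k1 : K1) (h : ∀ u v, ¬G.Adj u v) :
    ∃ (S : Sk 0 G U Unit) (w : Unit → FG 0), S.Top ∧ S.Valid w ∧ ∀ d, S.vx d = none := by
  refine ⟨{ φ := 1
            α := 1
            αα := fun _ => rfl
            vx := fun _ => none
            real := fun _ => False
            term := fun i => i.elim0
            ok := fun _ _ => False
            vx_σ := fun _ => rfl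
            vx_cyc := fun _ _ _ h => by simp at h
            real_α := fun _ h => h
            real_adj := fun _ h => h.elim
            real_ex := fun u v a => (h u v a).elim
            term_vx := fun _ _ _ => rfl
            term_four := fun _ => rfl
            ok_symm := fun _ _ h => h
            ok_idx := fun _ _ _ h => h
            ok_once := fun _ _ _ _ _ h => h.elim
            cap := fun _ _ h => by simp at h }, fun _ => 1, ⟨fun _ _ => .refl _, ?_⟩,
    ⟨⟨fun _ => by simp, ⟨fun _ => 1, fun _ _ => by simp⟩, fun i => i.elim0, fun i => i.elim0,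
      fun i => i.elim0, fun i => i.elim0⟩, fun _ h => h.elim, fun _ _ _ h => h.elim⟩,
    fun _ => rfl⟩
  simp [HMap.chi, chi, k1.ncyc_one]

end Prep1

open Prep1 in
theorem prep1 : K1 → K2 → K3 → AbsorbSt → DemoteSt → Prep1St := by
  classical
  intro k1 k2 _ ab dm k V _ G U ⟨D, _, S, w, t, v⟩ hG
  by_cases h0 : k = 0 ∧ ∀ u v, ¬G.Adj u v
  · obtain ⟨rfl, h⟩ := h0
    obtain ⟨S, w, t, v, hv⟩ := unit (U := U) k1 h
    exact ⟨Unit, inferInstance, S, w, t, v, (Finite.card_subtype_le _).trans (by simp),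
      by simp, fun d _ => hv d⟩
  have core : ∀ {D : Type} (S : Sk k G U D), ∃ d, S.real d ∨ S.IsT d := fun S => by
    by_cases hk : k = 0
    · obtain ⟨u, v, a⟩ : ∃ u v, G.Adj u v := by simpa [hk] using h0
      obtain ⟨d, h, -⟩ := (S.real_ex u v a).exists
      exact ⟨d, .inl h⟩
    · exact ⟨_, .inr ⟨⟨0, by omega⟩, Perm.SameCycle.refl _ _⟩⟩
  induction hn : Nat.card D using Nat.strong_induction_on generalizing D with
  | _ n ih =>
  subst hn
  by_cases sm : Sm k G U (Nat.card D)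
  · obtain ⟨D', _, S', w', l, t', v'⟩ := sm
    exact ih _ l D' inferInstance S' w' t' v' rfl
  clear ih
  obtain ⟨S', e1, e2, -, -, -, e3⟩ := dm k V V D G U G U S
    (fun u => if ∃ x, G.Adj u x then some u else none)
    (fun u v x h h' => by
      split_ifs at h h'
      exact (Option.some.inj h).trans (Option.some.inj h').symm)
    (fun x y a => ⟨x, y, if_pos ⟨y, a⟩, if_pos ⟨x, a.symm⟩, a⟩)
    (fun z z' h hz => by
      split_ifs at h
      obtain rfl := Option.some.inj h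
      refine ⟨hz, fun y a => ⟨y, if_pos ⟨z, a.symm⟩, a⟩, fun y₁ y₂ x₁ x₂ _ _ a h1 h2 => ?_⟩
      split_ifs at h1 h2
      exact Option.some.inj h1 ▸ Option.some.inj h2 ▸ a)
  have t' : S'.Top := by unfold Sk.Top; rw [e1]; exact t
  have v' := e3 w v
  have lab : ∀ d u, S'.vx d = some u → ∃ x, G.Adj u x := fun d u h => by
    rw [e2, Option.bind_eq_some_iff] at h
    obtain ⟨a, -, h⟩ := h
    split_ifs at h with c
    exact Option.some.inj h ▸ c
  clear e1 e2 e3 t v S
  rename' S' => S, t' => t, v' => v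
  obtain ⟨d₀, hd₀⟩ := core S
  have free : ∀ d, S.α d ≠ d := fun d h => by
    by_cases hφ : S.φ d = d
    · obtain rfl := closed t.1 (P := (· = d)) (by rintro _ rfl; exact hφ)
        (by rintro _ rfl; exact h) rfl d₀
      exact hd₀.elim (fun r => adj_ne S (real_adjD S r) h) fun r =>
        isT_ne v.toPre r (fix_one v.toPre h)
    · exact sm (drop k1 k2 S t v h hφ)
  have vert : ∀ d, ∃ e, S.toHMap.σ.SameCycle d e ∧ (S.real e ∨ S.IsT e) := fun d => by
    by_contra hc
    have hn : ∀ e, S.toHMap.σ.SameCycle d e → ¬(S.real e ∨ S.IsT e) := fun e c h => hc ⟨e, c, h⟩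
    have hv : S.vx d = none := by
      by_contra h
      obtain ⟨u, hu⟩ := Option.ne_none_iff_exists'.1 h
      obtain ⟨x, a⟩ := lab d u hu
      obtain ⟨r, hr, h1, -⟩ := (S.real_ex _ _ a).exists
      exact hn r (S.vx_cyc _ _ _ hu h1) (.inl hr)
    have lp : ∀ e, S.toHMap.σ.SameCycle d e → S.toHMap.σ.SameCycle d (S.α e) := fun e c => by
      by_contra h
      exact sm (absorb k1 k2 ab S t v ((vx_sc S c).trans hv)
        (fun x c' hx => hn x (c.trans c') (.inr hx)) fun c' => h (c.trans c'))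
    refine hn d₀ (closed t.1 (P := S.toHMap.σ.SameCycle d) (fun e c => ?_) lp
      (Perm.SameCycle.refl _ _) d₀) hd₀
    have := (lp e c).trans (sc_step _ _)
    rwa [HMap.σ_apply, S.αα] at this
  have same : ∀ d, ¬Bs S d → ¬Bs S (S.α d) → S.φ.SameCycle d (S.α d) := fun d h h' => by
    by_contra df
    exact sm (delete k1 k2 S t v ⟨d₀, hd₀⟩ (fun r => h (.inl r)) (fun r => h (.inr (.inl r)))
      (fun r => h' (.inr (.inl r))) (fun c z hc hz => ⟨fun e => h (.inr (.inr ⟨c, z, hc, hz, e.symm⟩)),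
        fun e => h' (.inr (.inr ⟨c, z, hc, hz, e.symm⟩))⟩) df)
  have n1 := count k1 k2 S t hG ⟨d₀, hd₀⟩ free vert same
  have n2 := card_T S
  have n3 := card_real S
  set N := {d | ¬(Bs S d ∨ Bs S (S.α d))}
  set T := {d | S.IsT d}
  set R := {d | S.real d}
  have n4 : (S.α '' T).ncard ≤ T.ncard := Set.ncard_image_le
  have n5 : (S.φ '' R).ncard ≤ R.ncard := Set.ncard_image_le
  have n6 : (S.α '' (S.φ '' R)).ncard ≤ (S.φ '' R).ncard := Set.ncard_image_le
  refine ⟨D, inferInstance, S, w, t, v, ?_, ?_, fun d h => absurd h (free d)⟩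
  · have : {d | ¬S.AdjD Set.univ d} ⊆ N ∪ T ∪ S.α '' T := by
      intro d h
      have sy : S.AdjD Set.univ (S.α d) → S.AdjD Set.univ d := fun ⟨u, u', e, a, _⟩ =>
        ⟨u', u, ⟨by rw [← e.2, S.αα], e.1⟩, a.symm, trivial, trivial⟩
      by_cases hN : d ∈ N
      · exact .inl (.inl hN)
      rcases not_not.1 hN with (r | r | ⟨c, z, hc, hz, e⟩) | r | r | ⟨c, z, hc, hz, e⟩
      · exact absurd (real_adjD S r) h
      · exact .inl (.inr r)
      · exact absurd (e ▸ third_adjD S hc hz) h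
      · exact absurd (sy (real_adjD S r)) h
      · exact .inr ⟨_, r, S.αα d⟩
      · exact absurd (sy (e ▸ third_adjD S hc hz)) h
    have l1 := Set.ncard_le_ncard this
    have l2 := Set.ncard_union_le (N ∪ T) (S.α '' T)
    have l3 := Set.ncard_union_le N T
    rw [← Nat.card_coe_set_eq] at l1
    exact l1.trans (by omega)
  · have : Set.univ ⊆ N ∪ T ∪ S.α '' T ∪ R ∪ S.φ '' R ∪ S.α '' (S.φ '' R) := by
      intro d _
      simp only [Set.mem_union]
      by_cases hN : d ∈ N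
      · tauto
      rcases not_not.1 hN with (r | r | ⟨c, z, hc, hz, e⟩) | r | r | ⟨c, z, hc, hz, e⟩
      · have : d ∈ R := r
        tauto
      · have : d ∈ T := r
        tauto
      · have : d ∈ S.φ '' R := ⟨c, (S.cap c z hc hz).1, e.symm⟩
        tauto
      · have : d ∈ R := S.αα d ▸ S.real_α _ r
        tauto
      · have : d ∈ S.α '' T := ⟨_, r, S.αα d⟩
        tauto
      · exact .inr ⟨_, ⟨c, (S.cap c z hc hz).1, e.symm⟩, S.αα d⟩
    have l1 := Set.ncard_le_ncard this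
    have l2 := Set.ncard_union_le (N ∪ T) (S.α '' T)
    have l3 := Set.ncard_union_le N T
    have l4 := Set.ncard_union_le (N ∪ T ∪ S.α '' T) R
    have l5 := Set.ncard_union_le (N ∪ T ∪ S.α '' T ∪ R) (S.φ '' R)
    have l6 := Set.ncard_union_le (N ∪ T ∪ S.α '' T ∪ R ∪ S.φ '' R) (S.α '' (S.φ '' R))
    rw [Set.ncard_univ] at l1
    omega

end Pool.Agent.Lib.MP_c1f5fe_lc
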