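import Pool.Agent.Lib.MP_c1f5fe_lc.SpecC
import Pool.Agent.Lib.MP_c1f5fe_lc.Tb

/-! Normal form of a solution: subdivide the bad edges, then cut labelled runs off. -/

namespace Pool.Agent.Lib.MP_c1f5fe_lc

open Equiv Function Relation

namespace Prep2

theorem closed {D : Type} [Finite D] {π : Perm D} (A : D → Prop) (h : ∀ x, A x → A (π x))
    {x y : D} (hx : A x) (c : π.SameCycle x y) : A y := by
  obtain ⟨n, -, -, rfl⟩ := c.exists_pow_eq''
  clear c
  induction n with
  | zero => exact hx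
  | succ n ih => rw [pow_succ', Perm.mul_apply]; exact h _ ih

theorem sc_pow {D : Type} (π : Perm D) (n : ℕ) (x : D) : π.SameCycle x ((π ^ n) x) :=
  ⟨n, by rw [zpow_natCast]⟩

theorem sc_map {D D' : Type} [Finite D] {π : Perm D} {π' : Perm D'} (f : D → D')
    (h : ∀ x, π'.SameCycle (f x) (f (π x))) {x y : D} (c : π.SameCycle x y) :
    π'.SameCycle (f x) (f y) :=
  closed (fun y => π'.SameCycle (f x) (f y)) (fun z hz => hz.trans (h z)) (.refl _ _) c

theorem ncyc_invol (k1 : K1) {D : Type} [Finite D] (a : Perm D) (h : ∀ x, a (a x) = x) :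
    2 * ncyc a = Nat.card D + Nat.card {x // a x = x} := by
  have := k1.invol a (fun _ => True) h fun _ _ => trivial
  rw [k1.on_eq_at a _ fun _ => Iff.rfl, k1.at_univ] at this
  simpa using this

variable {k : ℕ} {V D : Type} {G : SimpleGraph V} {U : Set V}

/-- both ends are labelled and not adjacent -/
def Bad (S : Sk k G U D) (d : D) : Prop := ∃ u v, S.E d u v ∧ ¬G.Adj u v

theorem Bad.al {S : Sk k G U D} {d : D} (h : Bad S d) : Bad S (S.α d) := by
  obtain ⟨u, v, ⟨a, b⟩, c⟩ := h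
  exact ⟨v, u, ⟨b, by rw [S.αα]; exact a⟩, fun x => c x.symm⟩

theorem bad_al {S : Sk k G U D} {d : D} : Bad S (S.α d) ↔ Bad S d :=
  ⟨fun h => S.αα d ▸ h.al, Bad.al⟩

theorem not_bad_none {S : Sk k G U D} {d : D} (h : S.vx d = none) : ¬Bad S d := by
  rintro ⟨u, v, ⟨a, -⟩, -⟩
  rw [h] at a
  cases a

theorem not_bad_adj {S : Sk k G U D} {d : D} {u v : V} (a : S.vx d = some u)
    (b : S.vx (S.α d) = some v) (c : G.Adj u v) : ¬Bad S d := by
  rintro ⟨u', v', ⟨a', b'⟩, c'⟩
  rw [a] at a'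
  rw [b] at b'
  cases a'
  cases b'
  exact c' c

theorem not_bad_real {S : Sk k G U D} {d : D} (h : S.real d) : ¬Bad S d :=
  let ⟨_, _, a, b, c⟩ := S.real_adj d h; not_bad_adj a b c

open Classical in
noncomputable def tau (S : Sk k G U D) : Perm (D ⊕ {d // Bad S d}) :=
  Function.Involutive.toPerm
    (Sum.elim (fun d => if h : Bad S d then .inr ⟨d, h⟩ else .inl d) fun e => .inl e.1) (by
      rintro (d | e)
      · by_cases h : Bad S d <;> simp [h]
      · simp [e.2])

theorem tau_bad (S : Sk k G U D) {d : D} (h : Bad S d) : tau S (.inl d) = .inr ⟨d, h⟩ :=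
  dif_pos h

theorem tau_not (S : Sk k G U D) {d : D} (h : ¬Bad S d) : tau S (.inl d) = .inl d :=
  dif_neg h

theorem tau_inr (S : Sk k G U D) (e : {d // Bad S d}) : tau S (.inr e) = .inl e.1 := rfl

theorem tau_tau (S : Sk k G U D) : tau S * tau S = 1 := by
  ext1 x
  rcases x with d | e
  · by_cases h : Bad S d
    · rw [Perm.mul_apply, tau_bad S h, tau_inr]; rfl
    · rw [Perm.mul_apply, tau_not S h, tau_not S h]; rfl
  · rw [Perm.mul_apply, tau_inr, tau_bad S e.2]; rfl

def aN (S : Sk k G U D) : Perm {d // Bad S d} := S.α.subtypePerm fun _ => bad_al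

noncomputable def sφ (S : Sk k G U D) : Perm (D ⊕ {d // Bad S d}) :=
  Perm.sumCongr S.φ 1 * tau S

noncomputable def sα (S : Sk k G U D) : Perm (D ⊕ {d // Bad S d}) :=
  tau S * Perm.sumCongr S.α (aN S)

section
variable (S : Sk k G U D)

theorem sφ_bad {d : D} (h : Bad S d) : sφ S (.inl d) = .inr ⟨d, h⟩ := by
  rw [sφ, Perm.mul_apply, tau_bad S h]; rfl

theorem sφ_not {d : D} (h : ¬Bad S d) : sφ S (.inl d) = .inl (S.φ d) := by
  rw [sφ, Perm.mul_apply, tau_not S h]; rfl

theorem sφ_inr (e : {d // Bad S d}) : sφ S (.inr e) = .inl (S.φ e.1) := rfl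

theorem sα_bad {d : D} (h : Bad S d) : sα S (.inl d) = .inr ⟨S.α d, h.al⟩ := tau_bad S h.al

theorem sα_not {d : D} (h : ¬Bad S d) : sα S (.inl d) = .inl (S.α d) :=
  tau_not S fun c => h (bad_al.1 c)

theorem sα_inr (e : {d // Bad S d}) : sα S (.inr e) = .inl (S.α e.1) := rfl

theorem sσ : sφ S * sα S = Perm.sumCongr S.toHMap.σ (aN S) := by
  rw [sφ, sα, mul_assoc, ← mul_assoc (tau S), tau_tau, one_mul, Perm.sumCongr_mul, one_mul]
  rfl

theorem sαα (x) : sα S (sα S x) = x := by
  rcases x with d | e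
  · by_cases h : Bad S d
    · rw [sα_bad S h, sα_inr, S.αα]
    · rw [sα_not S h, sα_not S fun c => h (bad_al.1 c), S.αα]
  · rw [sα_inr, sα_bad S e.2.al]
    simp [S.αα]

theorem sφ_step (d : D) : (sφ S).SameCycle (.inl d) (.inl (S.φ d)) := by
  by_cases h : Bad S d
  · rw [← sφ_inr S ⟨d, h⟩, ← sφ_bad S h]
    exact (Perm.SameCycle.refl _ _).apply_right.apply_right
  · rw [← sφ_not S h]
    exact (Perm.SameCycle.refl _ _).apply_right

theorem sφ_back (x : D ⊕ {d // Bad S d}) :
    S.φ.SameCycle (Sum.elim id Subtype.val x) (Sum.elim id Subtype.val (sφ S x)) := by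
  rcases x with d | e
  · by_cases h : Bad S d
    · rw [sφ_bad S h]
      exact .refl _ _
    · rw [sφ_not S h]
      exact (Perm.SameCycle.refl _ _).apply_right
  · exact (Perm.SameCycle.refl _ _).apply_right

/-- the subdivided skeleton -/
noncomputable def sub [Finite D] : Sk k G U (D ⊕ {d // Bad S d}) where
  φ := sφ S
  α := sα S
  αα := sαα S
  vx := Sum.elim S.vx fun _ => none
  real := Sum.elim S.real fun _ => False
  term i := .inl (S.term i)
  ok := S.ok
  vx_σ x := by
    rw [← Perm.mul_apply, sσ]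
    rcases x with d | e
    · exact S.vx_σ d
    · rfl
  vx_cyc := by
    rintro (d | d) (e | e) v a b
    · refine sc_map Sum.inl (fun x => ?_) (S.vx_cyc d e v a b)
      have : Sum.inl (S.toHMap.σ x) = (sφ S * sα S) (.inl x) := by rw [sσ]; rfl
      rw [this]
      exact (Perm.SameCycle.refl _ _).apply_right
    all_goals first | cases b | cases a
  real_α := by
    rintro (d | d) h
    · rw [sα_not S (not_bad_real h)]
      exact S.real_α d h
    · exact h.elim
  real_adj := by
    rintro (d | d) h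
    · rw [sα_not S (not_bad_real h)]
      exact S.real_adj d h
    · exact h.elim
  real_ex u v a := by
    obtain ⟨d, h, un⟩ := S.real_ex u v a
    refine ⟨.inl d, ?_, ?_⟩
    · beta_reduce
      rw [sα_not S (not_bad_real h.1)]
      exact h
    · rintro (e | e) he
      · rw [sα_not S (not_bad_real he.1)] at he
        rw [un e he]
      · exact he.1.elim
  term_vx i x c := by
    have := S.term_vx i _ (sc_map (Sum.elim id Subtype.val) (sφ_back S) c)
    rcases x with d | e
    · exact this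
    · rfl
  term_four i := by
    have r := Perm.SameCycle.refl S.φ (S.term i)
    rw [sφ_not S (not_bad_none (S.term_vx i _ r)),
      sφ_not S (not_bad_none (S.term_vx i _ r.apply_right)),
      sφ_not S (not_bad_none (S.term_vx i _ r.apply_right.apply_right)),
      sφ_not S (not_bad_none (S.term_vx i _ r.apply_right.apply_right.apply_right)), S.term_four]
  ok_symm := S.ok_symm
  ok_idx := S.ok_idx
  ok_once := S.ok_once
  cap := by
    rintro (d | d) z a hz
    · obtain ⟨r, t, y, y', b, c, j⟩ := S.cap d z a hz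
      have n1 := not_bad_real r
      have n2 : ¬Bad S (S.φ d) := not_bad_adj b (by rw [← S.vx_φ]; exact c) j
      have n3 : ¬Bad S (S.φ (S.φ d)) := fun x =>
        not_bad_real (S.cap (S.α (S.φ (S.φ d))) z (by rw [← S.vx_φ, t]; exact a) hz).1 x.al
      rw [sφ_not S n1, sφ_not S n2, sφ_not S n3, t]
      exact ⟨r, rfl, y, y', b, c, j⟩
    · cases a

theorem sub_top [Finite D] (k1 : K1) (hf : ∀ d, S.α d = d → S.vx d = none) (h : S.Top) :
    (sub S).Top := by
  constructor
  · have c1 : ∀ d e, Conn S.φ S.α d e → Conn (sφ S) (sα S) (.inl d) (.inl e) := by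
      intro d e c
      induction c with
      | rel x y r =>
        rcases r with rfl | rfl
        · exact k1.conn_sc _ _ _ _ (.inl (sφ_step S x))
        · by_cases b : Bad S x
          · exact .trans _ _ _ (.rel _ _ (.inl (sφ_bad S b).symm)) (.rel _ _ (.inr rfl))
          · exact .rel _ _ (.inr (sα_not S b).symm)
      | refl => exact .refl _
      | symm _ _ _ ih => exact .symm _ _ ih
      | trans _ _ _ _ _ i1 i2 => exact .trans _ _ _ i1 i2
    have c2 : ∀ x, Conn (sφ S) (sα S) (.inl (Sum.elim id Subtype.val x)) x := by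
      rintro (d | e)
      · exact .refl _
      · exact .rel _ _ (.inl (sφ_bad S e.2).symm)
    intro x y
    exact .trans _ _ _ (.symm _ _ (c2 x)) (.trans _ _ _ (c1 _ _ (h.1 _ _)) (c2 y))
  · refine h.2.trans ?_
    change chi S.φ S.α ≤ chi (sφ S) (sα S)
    have e1 := k1.ncyc_sum S.toHMap.σ (aN S)
    have e2 := ncyc_invol k1 (aN S) fun x => Subtype.ext (S.αα x.1)
    have e3 := ncyc_invol k1 S.α S.αα
    have e4 := ncyc_invol k1 (sα S) (sαα S)
    have e5 : Nat.card {x // S.α x = x} ≤ Nat.card {x // sα S x = x} :=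
      Nat.card_le_card_of_injective (fun x => ⟨.inl x.1, by
        rw [sα_not S (not_bad_none (hf _ x.2)), x.2]⟩) fun x y e =>
          Subtype.ext (Sum.inl.inj (congrArg Subtype.val e))
    have e6 : ncyc S.φ ≤ ncyc (sφ S) := by
      have := k1.le_at (sφ S) (fun _ => True)
        (fun x => Quotient.mk (Perm.SameCycle.setoid S.φ) (Sum.elim id Subtype.val x))
        fun x => Quotient.sound (sφ_back S x).symm
      rw [k1.at_univ] at this
      refine le_trans (le_of_eq ?_) this
      rw [ncyc, ← Set.ncard_univ]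
      congr 1
      refine (Set.eq_univ_of_forall fun c => ?_).symm
      obtain ⟨d, rfl⟩ := c.exists_rep
      exact ⟨.inl d, trivial, rfl⟩
    have e7 : Nat.card (D ⊕ {d // Bad S d}) = Nat.card D + Nat.card {d // Bad S d} := Nat.card_sum
    unfold chi
    rw [sσ, e1]
    change (ncyc S.φ : ℤ) + ncyc S.α + ncyc S.toHMap.σ - _ ≤ _
    omega

theorem sub_valid [Finite D] (hf : ∀ d, S.α d = d → S.vx d = none) {w : D → FG k}
    (h : S.Valid w) : ∃ w', (sub S).Valid w' := by
  classical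
  obtain ⟨r, hr⟩ := exists_injective_nat D
  obtain ⟨θ, hθ⟩ := h.pot
  let a : D → FG k := fun d => if Bad S d ∧ r d < r (S.α d) then 1 else w d
  have an : ∀ d, ¬Bad S d → a d = w d := fun d n => if_neg fun c => n c.1
  have ab : ∀ d, Bad S d → (a (S.α d))⁻¹ * w (S.α d) = (a d)⁻¹ := by
    intro d b
    have ne : r d ≠ r (S.α d) := fun c => not_bad_none (hf d (hr c).symm) b
    simp only [a, S.αα, b, b.al, true_and, h.inv]
    split_ifs with p q q
    · omega
    · simp
    · simp
    · omega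
  have nt : ∀ i d, S.φ.SameCycle (S.term i) d → ¬Bad S d := fun i d c =>
    not_bad_none (S.term_vx i d c)
  refine ⟨Sum.elim a fun e => (a e.1)⁻¹ * w e.1, ⟨?_, ⟨Sum.elim θ fun e => θ e.1 * a e.1, ?_⟩,
    fun i => ?_, fun i => ?_, fun i => ?_, fun i => ?_⟩, ?_, ?_⟩
  · rintro (d | e)
    · change Sum.elim _ _ (sα S _) = _
      by_cases b : Bad S d
      · rw [sα_bad S b]
        exact ab d b
      · rw [sα_not S b]
        change a _ = (a _)⁻¹
        rw [an d b, an _ fun c => b (bad_al.1 c), h.inv]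
    · change a (S.α e.1) = ((a e.1)⁻¹ * w e.1)⁻¹
      have := ab _ e.2.al
      rw [S.αα] at this
      rw [this, inv_inv]
  · rintro (d | e) n
    · change _ = Sum.elim _ _ (sφ S _)
      by_cases b : Bad S d
      · rw [sφ_bad S b]
        rfl
      · rw [sφ_not S b]
        change θ d * a d = θ _
        rw [an d b]
        exact hθ d fun ⟨i, c⟩ => n ⟨i, sc_map Sum.inl (sφ_step S) c⟩
    · change θ e.1 * a e.1 * ((a e.1)⁻¹ * w e.1) = θ (S.φ e.1)
      rw [← hθ e.1 fun c => not_bad_none c.vx e.2]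
      group
  · exact (an _ (nt i _ (.refl _ _))).trans (h.t0 i)
  · have r := Perm.SameCycle.refl S.φ (S.term i)
    change Sum.elim _ _ (sφ S (.inl _)) = _
    rw [sφ_not S (nt i _ r)]
    exact (an _ (nt i _ r.apply_right)).trans (h.t1 i)
  · have r := Perm.SameCycle.refl S.φ (S.term i)
    change Sum.elim _ _ (sφ S (sφ S (.inl _))) = _
    rw [sφ_not S (nt i _ r), sφ_not S (nt i _ r.apply_right)]
    exact (an _ (nt i _ r.apply_right.apply_right)).trans (h.t2 i)
  · have r := Perm.SameCycle.refl S.φ (S.term i)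
    change Sum.elim _ _ (sφ S (sφ S (sφ S (.inl _)))) = _
    rw [sφ_not S (nt i _ r), sφ_not S (nt i _ r.apply_right),
      sφ_not S (nt i _ r.apply_right.apply_right)]
    exact (an _ (nt i _ r.apply_right.apply_right.apply_right)).trans (h.t3 i)
  · rintro (d | e) r
    · change (labs (a d)).Pairwise S.ok
      rw [an d (not_bad_real r)]
      exact h.edge d r
    · exact r.elim
  · rintro (d | d) (e | e) i r r'
    · change _ → _ ∈ labs (a d) → _ ∉ labs (a e)
      rw [an d (not_bad_real r), an e (not_bad_real r')]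
      exact h.vert d e i r r'
    all_goals first | exact r'.elim | exact r.elim

theorem sub_p2 [Finite D] : (sub S).P2 := by
  rintro (d | e) u v ⟨a, b⟩
  · change Sum.elim _ _ (sα S _) = _ at b
    by_cases c : Bad S d
    · rw [sα_bad S c] at b
      cases b
    · rw [sα_not S c] at b
      by_contra n
      exact c ⟨u, v, ⟨a, b⟩, n⟩
  · cases a

theorem bad_le [Finite D] : Nat.card {d // Bad S d} ≤ Nat.card {d // ¬S.AdjD Set.univ d} :=
  Nat.card_le_card_of_injective
    (Subtype.map id fun _ b ⟨_, _, e, j, _⟩ => not_bad_adj e.1 e.2 j b)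
    (Subtype.map_injective _ injective_id)

theorem sub_non [Finite D] : Nat.card {x // (sub S).Non x} ≤
    Nat.card {d // ¬S.AdjD Set.univ d} + Nat.card {d // Bad S d} := by
  rw [← Nat.card_sum]
  have key : ∀ d, (sub S).Non (.inl d) → ¬S.AdjD Set.univ d := by
    rintro d n ⟨u, v, e, j, -⟩
    rcases n with n | n
    · exact absurd (n.symm.trans e.1) (by simp)
    · change Sum.elim _ _ (sα S _) = _ at n
      rw [sα_not S (not_bad_adj e.1 e.2 j)] at n
      exact absurd (n.symm.trans e.2) (by simp)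
  refine Nat.card_le_card_of_injective (fun x => match x with
    | ⟨.inl d, h⟩ => .inl ⟨d, key d h⟩
    | ⟨.inr e, _⟩ => .inr e) ?_
  rintro ⟨d | d, h⟩ ⟨e | e, h'⟩ q <;> simp_all

end

/-! ### cutting runs off -/

def St (S : Sk k G U D) (a : D) : Prop := S.vx a = none ∧ S.vx (S.α a) ≠ none

def Two (S : Sk k G U D) (a : D) : Prop :=
  St S a ∧ ∃ a', a' ≠ a ∧ St S a' ∧ S.φ.SameCycle a a'

theorem back (S : Sk k G U D) {n : D} (hn : S.vx n = none) (m : ℕ)
    (hd : S.vx ((S.φ ^ m) n) ≠ none) : ∃ a, ∃ i : ℕ, St S a ∧ S.φ.SameCycle n a ∧ 0 < i ∧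
      (S.φ ^ i) a = (S.φ ^ m) n ∧ ∀ j, 0 < j → j ≤ i → S.vx ((S.φ ^ j) a) ≠ none := by
  induction m with
  | zero => exact absurd hn hd
  | succ m ih =>
    rw [pow_succ', Perm.mul_apply] at hd ⊢
    by_cases c : S.vx ((S.φ ^ m) n) = none
    · refine ⟨_, 1, ⟨c, by rw [← S.vx_φ]; exact hd⟩, sc_pow _ _ _, one_pos, by rw [pow_one],
        fun j a b => ?_⟩
      obtain rfl : j = 1 := by omega
      rw [pow_one]
      exact hd
    · obtain ⟨a, i, s, t, i0, e, h⟩ := ih c
      have e' : (S.φ ^ (i + 1)) a = S.φ ((S.φ ^ m) n) := by rw [pow_succ', Perm.mul_apply, e]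
      refine ⟨a, i + 1, s, t, by omega, e', fun j p q => ?_⟩
      rcases Nat.lt_or_ge i j with l | l
      · obtain rfl : j = i + 1 := by omega
        rw [e']
        exact hd
      · exact h j p l

theorem p3_of [Finite D] (S : Sk k G U D) (h : ∀ a, ¬Two S a) : S.P3 := by
  intro n d e hn c c' hd he
  obtain ⟨m, -, -, rfl⟩ := c.exists_pow_eq''
  obtain ⟨m', -, -, rfl⟩ := c'.exists_pow_eq''
  obtain ⟨a, i, s, t, i0, p, q⟩ := back S hn m hd
  obtain ⟨a', i', s', t', i0', p', q'⟩ := back S hn m' he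
  obtain rfl : a' = a := by_contra fun x => h a ⟨s, a', x, s', t.symm.trans t'⟩
  rw [← p, ← p']
  have ad : ∀ x y : ℕ, (S.φ ^ x) ((S.φ ^ y) a') = (S.φ ^ (x + y)) a' := fun x y => by
    rw [pow_add, Perm.mul_apply]
  rcases le_total i i' with l | l
  · refine ⟨i' - i, .inl ⟨by rw [ad, Nat.sub_add_cancel l], fun j hj => ?_⟩⟩
    rw [ad]
    exact q' _ (by omega) (by omega)
  · refine ⟨i - i', .inr ⟨by rw [ad, Nat.sub_add_cancel l], fun j hj => ?_⟩⟩
    rw [ad]
    exact q _ (by omega) (by omega)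

theorem cut [Finite D] (mc : MChordSt) (S : Sk k G U D) {w : D → FG k} (ht : S.Top)
    (hv : S.Valid w) (h2 : S.P2) {a : D} (ha : Two S a) :
    ∃ (S' : Sk k G U (D ⊕ Unit × Bool)) (w' : D ⊕ Unit × Bool → FG k), S'.Top ∧ S'.Valid w' ∧
      S'.P2 ∧ Nat.card {x // S'.Non x} ≤ Nat.card {x // S.Non x} + 2 ∧
      {x | Two S' x}.ncard < {x | Two S x}.ncard := by
  classical
  have ex : ∃ r : ℕ, S.vx ((S.φ ^ (r + 1)) a) = none := by
    obtain ⟨n, n0, -, e⟩ := (Perm.SameCycle.refl S.φ a).exists_pow_eq''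
    exact ⟨n - 1, by rw [Nat.sub_add_cancel n0, e]; exact ha.1.1⟩
  obtain ⟨r, hr, lo⟩ : ∃ r : ℕ, S.vx (S.φ ((S.φ ^ r) a)) = none ∧
      ∀ j < r, S.vx (S.φ ((S.φ ^ j) a)) ≠ none := by
    refine ⟨Nat.find ex, ?_, fun j l => ?_⟩
    · rw [← Perm.mul_apply, ← pow_succ']
      exact Nat.find_spec ex
    · rw [← Perm.mul_apply, ← pow_succ']
      exact Nat.find_min ex l
  have only : ∀ j ≤ r, S.vx ((S.φ ^ j) a) = none → (S.φ ^ j) a = a := by
    intro j l n
    rcases j with _ | j
    · rfl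
    · rw [pow_succ', Perm.mul_apply] at n
      exact absurd n (lo j (by omega))
  obtain ⟨p, hp⟩ := S.φ.surjective a
  have pa : S.φ.SameCycle p a := hp ▸ (Perm.SameCycle.refl _ _).apply_right
  have pq : p ≠ (S.φ ^ r) a := by
    rintro rfl
    obtain ⟨a', ne, s, c⟩ := ha.2
    obtain ⟨j, l, rfl⟩ := closed (fun x => ∃ j ≤ r, (S.φ ^ j) a = x) (by
      rintro _ ⟨j, l, rfl⟩
      rcases l.lt_or_eq with l | rfl
      · exact ⟨j + 1, l, by rw [pow_succ', Perm.mul_apply]⟩
      · exact ⟨0, Nat.zero_le _, hp.symm⟩) ⟨0, Nat.zero_le _, rfl⟩ c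
    exact ne (only j l s.1)
  have nT : ¬S.IsT p := fun t => ha.1.2 (by
    rw [← S.vx_φ, ← hp]; exact ((S.isT_φ _).2 ((S.isT_φ _).2 t)).vx)
  have nC : S.NoCap p := by
    intro e z c v hz
    obtain ⟨-, t, y, y', b, b', -⟩ := S.cap e z v hz
    have := closed (π := S.φ) (fun x => x = e ∨ x = S.φ e ∨ x = S.φ (S.φ e)) (by
      rintro x (rfl | rfl | rfl)
      · exact .inr (.inl rfl)
      · exact .inr (.inr rfl)
      · exact .inl t) (.inl rfl) (c.symm.trans pa)
    have n := ha.1.1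
    rcases this with rfl | rfl | rfl <;> simp_all
  obtain ⟨S', M⟩ := mc k V D Unit G U S (fun _ => p) (fun _ => (S.φ ^ r) a)
    (fun _ => ⟨pq, pa.trans (sc_pow _ _ _), nT⟩) (fun _ _ _ => rfl) fun _ => .inl nC
  have vr : ∀ x, S'.vx (.inr x) = none := by
    rintro ⟨j, _ | _⟩
    · rw [M.vx_f]; exact hr
    · rw [M.vx_t, hp]; exact ha.1.1
  have st : ∀ x, St S' x → ∃ d, x = .inl d ∧ St S d := by
    rintro (d | ⟨j, b⟩) s
    · refine ⟨d, rfl, ?_⟩
      rwa [St, M.α_inl, M.vx_inl, M.vx_inl] at s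
    · exact absurd (by rw [M.α_inr]; exact vr _) s.2
  obtain ⟨θ, hθ⟩ := hv.pot
  refine ⟨S', _, ⟨M.con ht.1, M.chi ▸ ht.2⟩, M.valid w θ hv hθ, ?_, ?_, ?_⟩
  · rintro (d | x) u v ⟨p, q⟩
    · rw [M.α_inl, M.vx_inl] at q
      rw [M.vx_inl] at p
      exact h2 d u v ⟨p, q⟩
    · rw [vr] at p
      cases p
  · have : Nat.card ({x // S.Non x} ⊕ Unit × Bool) = Nat.card {x // S.Non x} + 2 := by simp
    rw [← this]
    have key : ∀ d, S'.Non (.inl d) → S.Non d := by
      intro d n
      rwa [Sk.Non, M.α_inl, M.vx_inl, M.vx_inl] at n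
    refine Nat.card_le_card_of_injective (fun x => match x with
      | ⟨.inl d, h⟩ => .inl ⟨d, key d h⟩
      | ⟨.inr e, _⟩ => .inr e) ?_
    rintro ⟨d | d, h⟩ ⟨e | e, h'⟩ q <;> simp_all
  · have sub : {x | Two S' x} ⊆ Sum.inl '' ({x | Two S x} \ {a}) := by
      rintro x ⟨s, x', ne, s', c⟩
      obtain ⟨d, rfl, t⟩ := st x s
      obtain ⟨d', rfl, t'⟩ := st x' s'
      refine ⟨d, ⟨⟨t, d', fun e => ne (by rw [e]), t', M.face _ _ c⟩, ?_⟩, rfl⟩
      rintro rfl
      have := closed (π := S'.φ)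
        (fun x => x = .inr ((), false) ∨ ∃ j ≤ r, x = .inl ((S.φ ^ j) d)) (by
          rintro _ (rfl | ⟨j, l, rfl⟩)
          · exact .inr ⟨0, Nat.zero_le _, by rw [M.φ_f, hp]; rfl⟩
          · rcases l.lt_or_eq with l | rfl
            · refine .inr ⟨j + 1, l, ?_⟩
              rw [M.φ_inl, pow_succ', Perm.mul_apply]
              intro _
              constructor
              · intro e
                exact lo j l (by rw [e, hp]; exact t.1)
              · intro e
                exact lo j l (by rw [e]; exact hr)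
            · exact .inl (M.φ_q ())) (.inr ⟨0, Nat.zero_le _, rfl⟩) c
      rcases this with e | ⟨j, l, e⟩
      · cases e
      · cases e
        exact ne (by rw [only j l t'.1])
    calc {x | Two S' x}.ncard ≤ (Sum.inl '' ({x | Two S x} \ {a})).ncard :=
          Set.ncard_le_ncard sub (Set.toFinite _)
      _ ≤ ({x | Two S x} \ {a}).ncard := Set.ncard_image_le (Set.toFinite _)
      _ < _ := Set.ncard_sdiff_singleton_lt_of_mem ha (Set.toFinite _)

theorem loop (mc : MChordSt) (m : ℕ) : ∀ (D : Type) [Finite D] (S : Sk k G U D) (w : D → FG k),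
    S.Top → S.Valid w → S.P2 → {x | Two S x}.ncard ≤ m →
    ∃ (D' : Type) (_ : Finite D') (S' : Sk k G U D') (w' : D' → FG k), S'.Top ∧ S'.Valid w' ∧
      S'.P2 ∧ S'.P3 ∧ Nat.card {x // S'.Non x} ≤ Nat.card {x // S.Non x} + 2 * m ∧
      Nat.card D' ≤ Nat.card D + 2 * m := by
  induction m with
  | zero =>
    intro D _ S w t v p l
    refine ⟨D, inferInstance, S, w, t, v, p, p3_of S fun a ha => ?_, le_rfl, le_rfl⟩
    have := (Set.ncard_pos (Set.toFinite {x | Two S x})).2 ⟨a, ha⟩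
    omega
  | succ m ih =>
    intro D _ S w t v p l
    by_cases h : ∃ a, Two S a
    · obtain ⟨a, ha⟩ := h
      obtain ⟨S₁, w₁, t₁, v₁, p₁, n₁, l₁⟩ := cut mc S t v p ha
      obtain ⟨D', f, S', w', t', v', p', q', n', c'⟩ := ih _ S₁ w₁ t₁ v₁ p₁ (by omega)
      have : Nat.card (D ⊕ Unit × Bool) = Nat.card D + 2 := by simp
      exact ⟨D', f, S', w', t', v', p', q', by omega, by omega⟩
    · exact ⟨D, inferInstance, S, w, t, v, p, p3_of S fun a ha => h ⟨a, ha⟩, by omega, by omega⟩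

end Prep2

open Prep2 in
theorem prep (k1 : K1) (mc : MChordSt) (p1 : Prep1St) : PrepSt := by
  obtain ⟨h, hh⟩ : TB (fun k : ℕ => k) fun k => 6 * (24 * k + 1) :=
    (TB.const 6).mul ((TB.const 24).mul (TB.self' _)).succ
  refine ⟨h, fun k V _ G U hs hc => ?_⟩
  obtain ⟨D, _, S, w, t, v, n1, n2, hf⟩ := p1 k V G U hs hc
  obtain ⟨w₁, v₁⟩ := sub_valid S hf v
  have b1 := bad_le S
  have b2 := sub_non S
  have b3 : {x | Two (sub S) x}.ncard ≤ Nat.card {x // (sub S).Non x} :=
    Set.ncard_le_ncard (t := {x | (sub S).Non x}) (fun _ hx => .inl hx.1.1) (Set.toFinite _)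
  obtain ⟨D', f, S', w', t', v', p', q', n', c'⟩ :=
    loop mc _ _ (sub S) w₁ (sub_top S k1 hf t) v₁ (sub_p2 S) le_rfl
  have e7 : Nat.card (D ⊕ {d // Bad S d}) = Nat.card D + Nat.card {d // Bad S d} := Nat.card_sum
  have := hh k
  beta_reduce at this
  exact ⟨D', f, S', w', t', v', by omega, p', q', by omega⟩

end Pool.Agent.Lib.MP_c1f5fe_lc
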