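import Pool.Agent.Lib.MP_c1f5fe_lc.RepB
import Pool.Agent.Lib.MP_c1f5fe_lc.Tb

/-! One block of rings is good in some solution for every context. -/

namespace Pool.Agent.Lib.MP_c1f5fe_lc

open Equiv Function Relation
open Pool.Agent.Lib.MP_50b5c6_lc.Np (NC Pl)

namespace RepC
open RepA RepB

abbrev Sig (k b L E : ℕ) : Type :=
  Fin (b + 2 * k + 1) × Bool × (Lab k → Lab k → Prop) × (Fin L → Let k → Prop) ×
    (Fin 6 ⊕ Fin E × Let k → Fin b → Fin b → Prop)

def nsig (k b L E : ℕ) : ℕ :=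
  (b + 2 * k + 1) * (2 * ((2 ^ (k * 2)) ^ (k * 2) * ((2 ^ (k * 2 * 2)) ^ L *
    ((2 ^ b) ^ b) ^ (6 + E * (k * 2 * 2)))))

theorem card_sig (k b L E : ℕ) : Nat.card (Sig k b L E) = nsig k b L E := by
  classical
  simp [nsig, Nat.card_eq_fintype_card]

theorem avoid {σ : Type} [Finite σ] {N q : ℕ} (B : σ → Set (Fin N)) (h : ∀ s, (B s).ncard ≤ q)
    (hN : Nat.card σ * q < N) : ∃ i, ∀ s, i ∉ B s := by
  classical
  have := Fintype.ofFinite σ
  by_contra hn
  push Not at hn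
  have e : (Finset.univ : Finset (Fin N)) ⊆ Finset.univ.biUnion fun s => (B s).toFinset := by
    intro i _
    obtain ⟨s, hs⟩ := hn i
    simp only [Finset.mem_biUnion, Finset.mem_univ, true_and, Set.mem_toFinset]
    exact ⟨s, hs⟩
  have l := (Finset.card_le_card e).trans
    (Finset.card_biUnion_le_card_mul _ _ q fun s _ => by
      rw [← Set.ncard_eq_toFinset_card']; exact h s)
  rw [Finset.card_univ, Fintype.card_fin, Finset.card_univ, ← Nat.card_eq_fintype_card] at l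
  omega

theorem disj {V : Type} (rad : V → ℕ) (s a N : ℕ) :
    Pairwise (Disjoint on fun i : Fin N => band rad (s + (a + 1) + i.1 * (2 * a + 1)) a) := by
  intro i j ne
  rw [Function.onFun, Set.disjoint_left]
  rintro v ⟨p, q⟩ ⟨p', q'⟩
  have : i.1 ≠ j.1 := fun e => ne (Fin.ext e)
  rcases Nat.lt_or_gt_of_ne this with l | l
  · have := Nat.mul_le_mul_right (2 * a + 1) (Nat.succ_le_of_lt l)
    rw [Nat.succ_mul] at this
    omega
  · have := Nat.mul_le_mul_right (2 * a + 1) (Nat.succ_le_of_lt l)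
    rw [Nat.succ_mul] at this
    omega

theorem top_le (s a N : ℕ) (i : Fin N) :
    s + (a + 1) + i.1 * (2 * a + 1) + a ≤ s + N * (2 * a + 1) := by
  have := Nat.mul_le_mul_right (2 * a + 1) (Nat.succ_le_of_lt i.2)
  rw [Nat.succ_mul] at this
  omega

/-- the number of rings that is needed -/
def need (k a b L E : ℕ) : ℕ :=
  (nsig k b L E * (b + 2 * k) + 1) * (2 * a + 1) + (b + 2 * k + 1) * (2 * (2 * L + 9 + L) + 1)

theorem need_tb (p z e : ℕ) :
    ∃ h, (∀ k a, need k a (tw p k) (tw z k) (tw e k) ≤ tw h (k + a)) ∧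
      ∀ k, 64 ≤ tw h k ∧ tw z k ≤ tw h k := by
  have f := TB.fst
  have s := TB.snd
  have c := fun c => TB.const (κ := fun p : ℕ × ℕ => p.1 + p.2) c
  have b := f.tw p
  have l := f.tw z
  have e' := f.tw e
  have k2 := f.mul (c 2)
  have k4 := k2.mul (c 2)
  have q := b.add ((c 2).mul f)
  have ns : TB (fun p : ℕ × ℕ => p.1 + p.2) fun x => nsig x.1 (tw p x.1) (tw z x.1) (tw e x.1) :=
    q.succ.mul ((c 2).mul ((k2.two_pow.pow k2).mul ((k4.two_pow.pow l).mul
      ((b.two_pow.pow b).pow ((c 6).add (e'.mul k4))))))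
  obtain ⟨h, hh⟩ : TB (fun p : ℕ × ℕ => p.1 + p.2)
      fun x => need x.1 x.2 (tw p x.1) (tw z x.1) (tw e x.1) :=
    ((ns.mul q).succ.mul ((c 2).mul s).succ).add
      (q.succ.mul ((c 2).mul ((((c 2).mul l).add (c 9)).add l)).succ)
  refine ⟨h + z + 64, fun k a => (hh (k, a)).trans (tw_mono_left (by omega) _), fun k =>
    ⟨le_trans (by omega) (le_tw_left _ _), tw_mono_left (by omega) _⟩⟩

end RepC

open RepA RepB RepC in
theorem rep (k2 : K2) (k3 : K3) (k6 : K6) (np : NonPl) (prep : PrepSt) (e1 : E1St) (fl : FlatSt)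
    (frz : FrZSt) (hug : HugSt) (zone : ZoneSt) (cb : CombSt) (zs : ZSwapSt) (gt : GoodTrSt) :
    RepSt := by
  classical
  obtain ⟨hp, prep⟩ := prep
  obtain ⟨hz, zone⟩ := zone
  obtain ⟨he, e1⟩ := e1
  obtain ⟨h, hn, hm⟩ := need_tb hp hz he
  refine ⟨h, fun k a t n m I _ P rad ang n1 m1 cy att cn ind sol => ?_⟩
  have nd := (hn k a).trans n1
  have m64 := (hm k).1.trans m1
  have mL := (hm k).2.trans m1
  set b := tw hp k
  set L := tw hz k
  set E := tw he k
  set N := nsig k b L E * (b + 2 * k) + 1 with hN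
  set T := N * (2 * a + 1) with hT
  have nd' : T + (b + 2 * k + 1) * (2 * (2 * L + 9 + L) + 1) ≤ n := nd
  let rz : Fin (b + 2 * k + 1) → ℕ := fun j =>
    T + (2 * L + 9 + L + 1) + j.1 * (2 * (2 * L + 9 + L) + 1)
  let rb : Fin N → ℕ := fun i => 0 + (a + 1) + i.1 * (2 * a + 1)
  have z1 : ∀ j, rz j + (2 * L + 9 + L) ≤ n := fun j => (top_le T _ _ j).trans nd'
  have z2 : ∀ j, T + (2 * L + 9 + L + 1) ≤ rz j := fun j => Nat.le_add_right _ _
  have b1 : ∀ i, rb i + a ≤ T := fun i => (top_le 0 a N i).trans (by omega)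
  have b2 : ∀ i, a < rb i := fun i => by
    show a < 0 + (a + 1) + _
    omega
  obtain ⟨D₀, _, S₀, w₀, t₀, -⟩ := sol
  have pl : Pl P.G.Adj := by
    have : S₀.PlanarOn Set.univ := by
      by_contra hh
      have := k2.count S₀ 1 (fun _ => Set.univ) (k2.top_eg S₀ t₀)
        (fun i j ne => absurd (Subsingleton.elim i j) ne) fun _ => hh
      omega
    simpa [PlOn] using np.plon S₀ _ this
  have fz := fun j => frz I P.G P.U n m rad ang (rz j) pl ind
    (fun z hz l ne => k2.capnb S₀ z ⟨hz, l⟩ ne) cn cy m64 (by have := z2 j; omega)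
    (by have := z1 j; omega)
  choose l c X fr hc hin hX hcn using fz
  have na : ∀ j, ∀ x ∈ X j, ∀ s, ¬P.att x s := fun j x hx s h => by
    have := hX j x hx
    have := att x s h
    have := z1 j
    omega
  let W : Type 1 := Σ (K : Type) (C : Ctx t K), Dat k b P C
  let ok : W → Sig k b L E → Prop := fun x s =>
    OK x.2.2 n rad ang (rz s.1) (2 * L + 9) L E (orient s.2.1 (c s.1)) (X s.1) ∧
      s.2.2.1 = x.2.2.S.ok ∧ (s.2.2.2.1 = fun i y => x.2.2.u[i.1]? = some y) ∧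
      s.2.2.2.2 = tab x.2.2.ρ (pp x.2.2 (X s.1) E)
  have key : ∀ s : Sig k b L E, ∃ B : Set (Fin N), B.ncard ≤ b + 2 * k ∧ ∀ y, ok y s →
      ∃ x, ok x s ∧ iv y.2.2 (X s.1) ≤ iv x.2.2 (X s.1) ∧
        ∀ i, i ∉ B → x.2.2.S.Good (Sum.inl '' band rad (rb i) a) := by
    intro s
    by_cases ex : ∃ y, ok y s
    · obtain ⟨z, ⟨x, hx, rfl⟩, mx⟩ := Int.exists_greatest_of_bdd
        (P := fun z => ∃ x, ok x s ∧ iv x.2.2 (X s.1) = z)
        ⟨(b + l s.1 : ℕ), by
          rintro _ ⟨x, hx, rfl⟩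
          exact hx.1.iv_le k3 (frame_orient (fr _) _) (na _)⟩
        (by obtain ⟨y, hy⟩ := ex; exact ⟨_, y, hy, rfl⟩)
      refine ⟨{i | ¬x.2.2.S.Good (Sum.inl '' band rad (rb i) a)},
        bad_count k2 x.2.2.S hx.1.top hx.1.nf _ fun i j ne => ?_,
        fun y hy => ⟨x, hx, mx _ ⟨y, hy, rfl⟩, fun i hi => not_not.1 hi⟩⟩
      exact Set.disjoint_image_of_injective Sum.inl_injective (disj rad 0 a N ne)
    · exact ⟨∅, by simp, fun y hy => absurd ⟨y, hy⟩ ex⟩
  choose B hB hB' using key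
  obtain ⟨i, hi⟩ := avoid B hB (by rw [card_sig]; omega)
  refine ⟨rb i, b2 i, by have := b1 i; have := z1 0; have := z2 0; omega, fun K _ C pp' => ?_⟩
  obtain ⟨D, _, S, w, tp, vl, nf⟩ := prep k _ _ _ pp'.2.2 pp'.2.1
  obtain ⟨j, hj⟩ : ∃ j, S.Good (band (radG K n rad) (rz j) (2 * L + 9 + L)) := by
    by_contra hh
    push Not at hh
    have := bad_count k2 S tp nf _ (disj (radG K n rad) T (2 * L + 9 + L) (b + 2 * k + 1))
    rw [show {i : Fin (b + 2 * k + 1) | ¬S.Good (band (radG K n rad) (T + (2 * L + 9 + L + 1) +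
      i.1 * (2 * (2 * L + 9 + L) + 1)) (2 * L + 9 + L))} = Set.univ from
        Set.eq_univ_of_forall hh, Set.ncard_univ, Nat.card_fin] at this
    omega
  have y1 := z1 j
  have y2 := z2 j
  obtain ⟨o, y, hy⟩ := exist (L := L) (E := E) (A := 2 * L + 9) k2 k6 fl hug S tp nf pp'.1 cy att
    (fr j) (hc j) (hX j) (by rw [Set.inter_def]; exact hcn j 3 le_rfl (by omega)) (by omega)
    (by omega) (by omega) (by omega) (good_mono k2 S (band_mono _ (by omega)) hj)
    (zone k _ D _ _ S w n m _ _ (rz j) (2 * L + 9) tp vl (k6.glue P C n m rad ang cy att) mL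
      (by omega) (by omega) hj)
    (fun w v mn => e1 k _ D _ _ S w tp v mn)
  obtain ⟨x, ⟨hx, e₁, e₂, e₃⟩, le, gd⟩ := hB' (j, o, y.S.ok, fun i z => y.u[i.1]? = some z,
    tab y.ρ (pp y (X j) E)) ⟨K, C, y⟩ ⟨hy, rfl, rfl, rfl⟩
  obtain ⟨D', fD', S', w', tp', vl', gd'⟩ := swap k3 k6 cb zs gt hy hx cy att
    (frame_orient (fr j) o) (fun i => hc j _) (hX j) (by omega) (by omega) (by omega) le_rfl
    (list_eq hy.len hx.len fun i z => iff_of_eq (congrFun (congrFun e₂ i) z)) e₁ e₃ le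
  refine ⟨D', fD', S', w', tp', vl', gd' _ (fun v hv => hin j v ?_) (gd i (hi _))⟩
  have := hv.2
  have := b1 i
  omega

end Pool.Agent.Lib.MP_c1f5fe_lc
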