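import Pool.Agent.Lib.MP_c1f5fe_lc.SpecB

/-! Nested discs around a vertex of a map whose ball is homologically trivial. -/

namespace Pool.Agent.Lib.MP_c1f5fe_lc

open Equiv Function Relation

namespace Ring

section radial
variable {D : Type} (M : HMap D)

lemma iap (π : Perm D) (d : D) : π⁻¹ (π d) = d := by simp

lemma rv_σ (d : D) : M.rv (M.φ (M.α d)) = M.rv d := by
  unfold HMap.rv
  congr 1
  exact Quotient.sound (Perm.sameCycle_apply_left.2 (Perm.SameCycle.refl M.σ d))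

lemma rf_φ (d : D) : M.rf (M.φ d) = M.rf d := by
  unfold HMap.rf
  congr 1
  exact Quotient.sound (Perm.sameCycle_apply_left.2 (Perm.SameCycle.refl M.φ d))

lemma rv_φ (d : D) : M.rv (M.φ d) = M.rv (M.α d) := by
  rw [← rv_σ M (M.α d), M.αα]

lemma rv_eq {d e : D} : M.rv d = M.rv e ↔ M.σ.SameCycle d e := by
  unfold HMap.rv
  rw [Sum.inl.injEq]
  exact Quotient.eq

lemma rf_eq {d e : D} : M.rf d = M.rf e ↔ M.φ.SameCycle d e := by
  unfold HMap.rf
  rw [Sum.inr.injEq]
  exact Quotient.eq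

lemma rv_ne (d e : D) : M.rv d ≠ M.rf e := by
  unfold HMap.rv HMap.rf
  exact Sum.inl_ne_inr

lemma adj_rg (d : D) : M.rg.Adj (M.rv d) (M.rf d) := by
  unfold HMap.rg
  rw [SimpleGraph.fromRel_adj]
  exact ⟨rv_ne M d d, Or.inl ⟨d, rfl, rfl⟩⟩

lemma of_adj {a b : M.Node} (h : M.rg.Adj a b) :
    ∃ e, (M.rv e = a ∧ M.rf e = b) ∨ (M.rf e = a ∧ M.rv e = b) := by
  unfold HMap.rg at h
  rw [SimpleGraph.fromRel_adj] at h
  rcases h.2 with ⟨e, h1, h2⟩ | ⟨e, h1, h2⟩
  · exact ⟨e, Or.inl ⟨h1.symm, h2.symm⟩⟩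
  · exact ⟨e, Or.inr ⟨h2.symm, h1.symm⟩⟩

variable {M}

lemma const (hc : M.Con) {T : Type} (g : D → T) (h1 : ∀ d, g (M.φ d) = g d)
    (h2 : ∀ d, g (M.α d) = g d) (d e : D) : g d = g e := by
  have h := hc d e
  induction h with
  | rel a b h => rcases h with rfl | rfl; exacts [(h1 a).symm, (h2 a).symm]
  | refl => rfl
  | symm a b _ ih => exact ih.symm
  | trans a b c _ _ i1 i2 => exact i1.trans i2

lemma connected (hc : M.Con) (x : D) : M.rg.Connected := by
  have h1 : ∀ d, M.rg.Reachable (M.rv (M.φ d)) (M.rv d) := fun d =>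
    (adj_rg M (M.φ d)).reachable.trans (by rw [rf_φ]; exact (adj_rg M d).reachable.symm)
  have h2 : ∀ d, M.rg.Reachable (M.rv x) (M.rv d) := by
    intro d
    have := const hc (fun d => M.rg.Reachable (M.rv x) (M.rv d))
      (fun d => propext ⟨fun h => h.trans (h1 d), fun h => h.trans (h1 d).symm⟩)
      (fun d => by
        rw [← rv_φ]
        exact propext ⟨fun h => h.trans (h1 d), fun h => h.trans (h1 d).symm⟩) x d
    rw [← this]
  have h3 : ∀ n, M.rg.Reachable (M.rv x) n := by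
    rintro (n | n)
    · obtain ⟨d, rfl⟩ := Quotient.exists_rep n
      exact h2 d
    · obtain ⟨d, rfl⟩ := Quotient.exists_rep n
      exact (h2 d).trans (adj_rg M d).reachable
  haveI : Nonempty M.Node := ⟨M.rv x⟩
  exact ⟨fun a b => (h3 a).symm.trans (h3 b)⟩

lemma dist_adj (hc : M.rg.Connected) (z : M.Node) {a b : M.Node} (h : M.rg.Adj a b) :
    M.rg.dist z b ≤ M.rg.dist z a + 1 := by
  have := hc.dist_triangle (u := z) (v := a) (w := b)
  rwa [SimpleGraph.dist_eq_one_iff_adj.2 h] at this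

lemma parent (hc : M.rg.Connected) (z : M.Node) {n : M.Node} {k : ℕ}
    (h : M.rg.dist z n = k + 1) : ∃ e, (M.rv e = n ∧ M.rg.dist z (M.rf e) = k) ∨
      (M.rf e = n ∧ M.rg.dist z (M.rv e) = k) := by
  obtain ⟨p, hp⟩ := hc.exists_walk_length_eq_dist n z
  rw [SimpleGraph.dist_comm, h] at hp
  cases p with
  | nil => simp at hp
  | @cons _ n' _ ha p' =>
    have h1 : M.rg.dist z n' = k := by
      have h2 := SimpleGraph.dist_le p'
      have h3 := dist_adj hc z ha.symm
      rw [SimpleGraph.dist_comm] at h2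
      simp only [SimpleGraph.Walk.length_cons] at hp
      omega
    obtain ⟨e, h4 | h4⟩ := of_adj M ha
    · exact ⟨e, Or.inl ⟨h4.1, by rw [h4.2, h1]⟩⟩
    · exact ⟨e, Or.inr ⟨h4.1, by rw [h4.2, h1]⟩⟩

lemma parity (hc : M.rg.Connected) (x : D) (k : ℕ) : ∀ d,
    (M.rg.dist (M.rv x) (M.rv d) = k → Even k) ∧ (M.rg.dist (M.rv x) (M.rf d) = k → Odd k) := by
  induction k with
  | zero =>
    intro d
    refine ⟨fun _ => Even.zero, fun h => ?_⟩
    exact absurd (hc.dist_eq_zero_iff.1 h) (rv_ne M x d)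
  | succ k ih =>
    intro d
    constructor
    · intro h
      obtain ⟨e, h1 | h1⟩ := parent hc _ h
      · exact ((ih e).2 h1.2).add_one
      · exact absurd h1.1.symm (rv_ne M d e)
    · intro h
      obtain ⟨e, h1 | h1⟩ := parent hc _ h
      · exact absurd h1.1 (rv_ne M e d)
      · exact ((ih e).1 h1.2).add_one

end radial

section count
variable {D : Type} [Finite D]

lemma cd_mono {p q : D → Prop} (h : ∀ d, p d → q d) :
    Nat.card {d // p d} ≤ Nat.card {d // q d} :=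
  Set.ncard_le_ncard (s := {d | p d}) (t := {d | q d}) h

lemma cd_lt {p q : D → Prop} (h : ∀ d, p d → q d) (e : D) (h1 : q e) (h2 : ¬p e) :
    Nat.card {d // p d} < Nat.card {d // q d} :=
  Set.ncard_lt_ncard (s := {d | p d}) (t := {d | q d}) ⟨h, fun h' => h2 (h' h1)⟩

lemma cd_or {p q r : D → Prop} (h : ∀ d, r d → p d ∨ q d) :
    Nat.card {d // r d} ≤ Nat.card {d // p d} + Nat.card {d // q d} :=
  (cd_mono h).trans (Set.ncard_union_le {d | p d} {d | q d})

lemma cd_all {p q : D → Prop} (h : ∀ d, p d ∨ q d) :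
    Nat.card D ≤ Nat.card {d // p d} + Nat.card {d // q d} := by
  have := cd_or (r := fun _ : D => True) (fun d _ => h d)
  rwa [Nat.card_congr (Equiv.subtypeUnivEquiv fun _ => trivial)] at this

end count

section chains
variable {D : Type} [Fintype D] {M : HMap D}

open Classical in
/-- the boundary of a chain of corners in the radial graph -/
noncomputable def bdy (M : HMap D) (f : D → ZMod 2) (n : M.Node) : ZMod 2 :=
  ∑ e, f e * ((if M.rv e = n then 1 else 0) + if M.rf e = n then 1 else 0)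

lemma bdy_add (f g : D → ZMod 2) (n : M.Node) : bdy M (f + g) n = bdy M f n + bdy M g n := by
  simp only [bdy, Pi.add_apply, add_mul, Finset.sum_add_distrib]

open Classical in
lemma bdy_single (e : D) (n : M.Node) : bdy M (Pi.single e 1) n =
    (if M.rv e = n then 1 else 0) + if M.rf e = n then 1 else 0 := by
  rw [bdy, Finset.sum_eq_single e]
  · simp
  · intro b _ hb
    simp [hb]
  · simp

open Classical in
lemma bdy_split (f : D → ZMod 2) (n : M.Node) : bdy M f n =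
    (∑ e, f e * if M.rv e = n then 1 else 0) + ∑ e, f e * if M.rf e = n then 1 else 0 := by
  simp only [bdy, mul_add, Finset.sum_add_distrib]

lemma two (a : ZMod 2) : a + a = 0 := by revert a; decide

lemma z2 (a : ZMod 2) : a = 0 ∨ a = 1 := by revert a; decide

lemma ev_of (π : Perm D) (f : D → ZMod 2)
    (h : ∀ d, open Classical in (∑ e, f e * if π.SameCycle d e then 1 else 0) = 0) :
    Ev π fun e => f e = 1 := by
  classical
  intro d
  rw [← ZMod.natCast_eq_zero_iff_even, ← h d, Nat.card_eq_fintype_card, Fintype.card_subtype,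
    Finset.card_filter]
  push_cast
  refine Finset.sum_congr rfl fun e _ => ?_
  rcases z2 (f e) with h1 | h1 <;> by_cases h2 : π.SameCycle d e <;> simp [h1, h2]

lemma gb {z : M.Node} {ρ s : ℕ} (hG : M.GB z ρ s) (f : D → ZMod 2)
    (hs : ∀ e, f e ≠ 0 → M.ball z ρ e) (h0 : ∀ n, bdy M f n = 0) :
    ∃ π : D → ZMod 2, (∀ d, π (M.α d) = π d) ∧ (∀ d, f (M.φ d) = π d + π (M.φ d)) ∧
      Nat.card {d // π d = 1} ≤ s := by
  classical
  obtain ⟨π, h1, h2, h3⟩ := hG (fun e => f e = 1) (fun e he => hs e (by rw [he]; decide))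
    (ev_of _ _ fun d => by
      refine Eq.trans ?_ (h0 (M.rv d))
      rw [bdy]
      refine Finset.sum_congr rfl fun e _ => ?_
      rw [if_neg (rv_ne M d e).symm, add_zero]
      congr 1
      exact if_congr (by rw [rv_eq, Perm.sameCycle_comm]) rfl rfl)
    (ev_of _ _ fun d => by
      refine Eq.trans ?_ (h0 (M.rf d))
      rw [bdy]
      refine Finset.sum_congr rfl fun e _ => ?_
      rw [if_neg (rv_ne M e d), zero_add]
      congr 1
      exact if_congr (by rw [rf_eq, Perm.sameCycle_comm]) rfl rfl)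
  refine ⟨fun d => if π d then 1 else 0, fun d => by simp only [h1], fun d => ?_, ?_⟩
  · have := h2 d
    rcases z2 (f (M.φ d)) with h | h <;> by_cases a : π d <;> by_cases b : π (M.φ d) <;>
      simp_all
    decide
  · refine le_trans (cd_mono fun d hd => ?_) h3
    by_contra h
    simp [h] at hd

lemma bdy_change (π : D → ZMod 2) (h : ∀ d, π (M.α d) = π d) (n : M.Node) :
    bdy M (fun e => π (M.φ⁻¹ e) + π e) n = 0 := by
  classical
  rw [bdy_split]
  simp only [add_mul, Finset.sum_add_distrib]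
  have h1 : (∑ e, π (M.φ⁻¹ e) * if M.rv e = n then 1 else 0) =
      ∑ e, π e * if M.rv e = n then 1 else 0 := by
    rw [← Equiv.sum_comp M.σ]
    refine Finset.sum_congr rfl fun e _ => ?_
    rw [M.σ_apply, rv_σ, iap, h]
  have h2 : (∑ e, π (M.φ⁻¹ e) * if M.rf e = n then 1 else 0) =
      ∑ e, π e * if M.rf e = n then 1 else 0 := by
    rw [← Equiv.sum_comp M.φ]
    refine Finset.sum_congr rfl fun e _ => ?_
    rw [rf_φ, iap]
  rw [h1, h2, two, two, add_zero]

/-- small or cosmall -/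
lemma sc (hc : M.Con) {z : M.Node} {ρ s : ℕ} (hG : M.GB z ρ s) (P : D → Prop)
    (h : ∀ d, P (M.α d) ↔ P d) (hb : ∀ d, ¬(P d ↔ P (M.φ d)) → M.ball z ρ (M.φ d)) :
    Nat.card {d // P d} ≤ s ∨ Nat.card {d // ¬P d} ≤ s := by
  classical
  let π : D → ZMod 2 := fun d => if P d then 1 else 0
  have hπ : ∀ d, π (M.α d) = π d := fun d => by simp only [π, h]
  obtain ⟨π', h1, h2, h3⟩ := gb hG (fun e => π (M.φ⁻¹ e) + π e) (fun e he => by
    obtain ⟨d, rfl⟩ := M.φ.surjective e
    refine hb d fun hh => he ?_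
    simp only [iap, π, hh, two]) (bdy_change π hπ)
  have h4 : ∀ d e, π d + π' d = π e + π' e := by
    refine const hc (fun d => π d + π' d) (fun d => ?_) (fun d => by simp only [hπ, h1])
    have := h2 d
    simp only [iap] at this
    have t1 := two (π d)
    have t2 := two (π' (M.φ d))
    linear_combination this - t1 + t2
  by_cases h5 : ∀ d, π d + π' d = 0
  · left
    refine le_trans (cd_mono fun d hd => ?_) h3
    have := h5 d
    simp only [π, hd, if_true] at this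
    rcases z2 (π' d) with h6 | h6
    · rw [h6] at this; exact absurd this (by decide)
    · exact h6
  · right
    push Not at h5
    obtain ⟨e, he⟩ := h5
    refine le_trans (cd_mono fun d hd => ?_) h3
    have := h4 d e
    rw [(z2 _).resolve_left he] at this
    simpa only [π, hd, if_false, zero_add] using this

open Classical in
lemma path (hc : M.rg.Connected) (z : M.Node) (k : ℕ) : ∀ n, M.rg.dist z n = k →
    ∃ f : D → ZMod 2, (∀ m, bdy M f m = (if n = m then 1 else 0) + if z = m then 1 else 0) ∧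
      ∀ e, f e ≠ 0 → M.rg.dist z (M.rv e) ≤ k ∧ M.rg.dist z (M.rf e) ≤ k := by
  induction k with
  | zero =>
    intro n h
    obtain rfl := hc.dist_eq_zero_iff.1 h
    exact ⟨0, fun m => by simp [bdy, two], fun e he => absurd rfl he⟩
  | succ k ih =>
    intro n h
    obtain ⟨e, h1 | h1⟩ := parent hc _ h
    · obtain ⟨f, f1, f2⟩ := ih _ h1.2
      refine ⟨f + Pi.single e 1, fun m => ?_, fun d hd => ?_⟩
      · rw [bdy_add, f1, bdy_single, h1.1]
        linear_combination two (if M.rf e = m then 1 else 0)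
      · by_cases hde : d = e
        · subst hde
          rw [h1.1, h1.2, h]
          omega
        · have := f2 d (by simpa [hde] using hd)
          omega
    · obtain ⟨f, f1, f2⟩ := ih _ h1.2
      refine ⟨f + Pi.single e 1, fun m => ?_, fun d hd => ?_⟩
      · rw [bdy_add, f1, bdy_single, h1.1]
        linear_combination two (if M.rv e = m then 1 else 0)
      · by_cases hde : d = e
        · subst hde
          rw [h1.1, h1.2, h]
          omega
        · have := f2 d (by simpa [hde] using hd)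
          omega

end chains

section big
variable {D : Type} [Fintype D] {M : HMap D} {x : D} {ρ s b : ℕ}

/-- a union of classes of the darts whose face is far from the centre -/
structure Cl (M : HMap D) (x : D) (r : ℕ) (Y : D → Prop) : Prop where
  nb : ∀ d, Y d → 2 * r + 1 < M.rg.dist (M.rv x) (M.rf d)
  phi : ∀ d, Y (M.φ d) ↔ Y d
  al : ∀ d, Y d → 2 * r + 1 < M.rg.dist (M.rv x) (M.rf (M.α d)) → Y (M.α d)

/-- the large class -/
structure Big (M : HMap D) (x : D) (r s : ℕ) (Y : D → Prop) : Prop extends Cl M x r Y where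
  conn : ∀ P : D → Prop, (∀ d, Y d → (P (M.φ d) ↔ P d)) →
    (∀ d, Y d → Y (M.α d) → (P (M.α d) ↔ P d)) → ∀ d e, Y d → Y e → (P d ↔ P e)
  cos : Nat.card {d // ¬(Y d ∨ Y (M.α d))} ≤ s

lemma vf (hc : M.rg.Connected) (z : M.Node) (d : D) :
    M.rg.dist z (M.rf d) ≤ M.rg.dist z (M.rv d) + 1 ∧
      M.rg.dist z (M.rv d) ≤ M.rg.dist z (M.rf d) + 1 :=
  ⟨dist_adj hc z (adj_rg M d), dist_adj hc z (adj_rg M d).symm⟩

lemma in_ball (hc : M.rg.Connected) {r : ℕ} (hr : 2 * r + 2 ≤ ρ) {d : D}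
    (h : M.rg.dist (M.rv x) (M.rf d) ≤ 2 * r + 1) : M.ball (M.rv x) ρ d := by
  have := vf hc (M.rv x) d
  exact ⟨by omega, by omega⟩

lemma Cl.sc (hc : M.Con) (hG : M.GB (M.rv x) ρ s) {r : ℕ} (hr : 2 * r + 2 ≤ ρ) {Y : D → Prop}
    (h : Cl M x r Y) : Nat.card {d // Y d ∨ Y (M.α d)} ≤ s ∨
      Nat.card {d // ¬(Y d ∨ Y (M.α d))} ≤ s := by
  refine Ring.sc hc hG (fun d => Y d ∨ Y (M.α d)) (fun d => by rw [M.αα, or_comm]) fun d hd => ?_
  refine in_ball (connected hc x) hr ?_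
  by_contra hn
  push Not at hn
  have k : ∀ e, 2 * r + 1 < M.rg.dist (M.rv x) (M.rf e) → ((Y e ∨ Y (M.α e)) ↔ Y e) :=
    fun e he => ⟨fun h1 => h1.elim id fun h2 => by
      have := h.al _ h2 (by rwa [M.αα])
      rwa [M.αα] at this, Or.inl⟩
  apply hd
  rw [k _ hn, k d (by rwa [rf_φ] at hn), h.phi]

lemma exists_big (hc : M.Con) (hG : M.GB (M.rv x) ρ s)
    (hb : Nat.card {d // M.ball (M.rv x) ρ d} ≤ b) (hD : 4 * (s + b) < Nat.card D) {r : ℕ}
    (hr : 2 * r + 2 ≤ ρ) : ∃ Y, Big M x r s Y := by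
  classical
  have ex : ∃ n, ∃ Y, Cl M x r Y ∧ ¬Nat.card {d // Y d ∨ Y (M.α d)} ≤ s ∧
      Nat.card {d // Y d} = n := by
    refine ⟨_, fun d => 2 * r + 1 < M.rg.dist (M.rv x) (M.rf d),
      ⟨fun _ h => h, fun d => by rw [rf_φ], fun _ _ h => h⟩, fun h => ?_, rfl⟩
    have := cd_all (p := fun d => 2 * r + 1 < M.rg.dist (M.rv x) (M.rf d) ∨
      2 * r + 1 < M.rg.dist (M.rv x) (M.rf (M.α d))) (q := fun d => M.ball (M.rv x) ρ d)
      (fun d => by
        by_cases h1 : 2 * r + 1 < M.rg.dist (M.rv x) (M.rf d)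
        · exact Or.inl (Or.inl h1)
        · exact Or.inr (in_ball (connected hc x) hr (by omega)))
    beta_reduce at h
    omega
  obtain ⟨Y, h1, h2, h3⟩ := Nat.find_spec ex
  have h4 := (h1.sc hc hG hr).resolve_left h2
  have small : ∀ Y', Cl M x r Y' → (∀ d, Y' d → Y d) → ∀ e, Y e → ¬Y' e →
      Nat.card {d // Y' d ∨ Y' (M.α d)} ≤ s := by
    intro Y' c1 c2 e c3 c4
    by_contra c5
    exact Nat.find_min ex (h3 ▸ cd_lt c2 e c3 c4) ⟨Y', c1, c5, rfl⟩
  have key : ∀ P : D → Prop, (∀ d, Y d → (P (M.φ d) ↔ P d)) →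
      (∀ d, Y d → Y (M.α d) → (P (M.α d) ↔ P d)) → Cl M x r fun d => Y d ∧ P d := by
    intro P p1 p2
    refine ⟨fun d hd => h1.nb d hd.1, fun d => ?_, fun d hd h => ?_⟩
    · rw [h1.phi]
      exact and_congr_right fun hd => p1 d hd
    · have := h1.al d hd.1 h
      exact ⟨this, (p2 d hd.1 this).2 hd.2⟩
  have one : ∀ P : D → Prop, (∀ d, Y d → (P (M.φ d) ↔ P d)) →
      (∀ d, Y d → Y (M.α d) → (P (M.α d) ↔ P d)) → ∀ d e, Y d → Y e → P d → P e := by
    intro P p1 p2 d e hd he pd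
    by_contra pe
    have a1 := small _ (key P p1 p2) (fun _ h => h.1) e he (fun h => pe h.2)
    have a2 := small _ (key (fun d => ¬P d) (fun d h => not_congr (p1 d h))
      (fun d h h' => not_congr (p2 d h h'))) (fun _ h => h.1) d hd (fun h => h.2 pd)
    have a3 := cd_or (r := fun d => Y d ∨ Y (M.α d))
      (p := fun d => (Y d ∧ P d) ∨ (Y (M.α d) ∧ P (M.α d)))
      (q := fun d => (Y d ∧ ¬P d) ∨ (Y (M.α d) ∧ ¬P (M.α d))) (fun d h => by tauto)
    have a4 := cd_all (p := fun d => Y d ∨ Y (M.α d)) (q := fun d => ¬(Y d ∨ Y (M.α d)))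
      (fun d => em _)
    omega
  exact ⟨Y, h1, fun P p1 p2 d e hd he => ⟨one P p1 p2 d e hd he, one P p1 p2 e d he hd⟩, h4⟩

variable {r : ℕ} {Y : D → Prop}

lemma Big.card (h : Big M x r s Y) (hc : M.Con) (hb : Nat.card {d // M.ball (M.rv x) ρ d} ≤ b)
    (hr : 2 * r + 2 ≤ ρ) : Nat.card {d // ¬Y d} ≤ s + b := by
  refine le_trans (cd_or (p := fun d => ¬(Y d ∨ Y (M.α d)))
    (q := fun d => M.ball (M.rv x) ρ d) fun d hd => ?_) (add_le_add h.cos hb)
  by_cases h1 : Y (M.α d)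
  · right
    refine in_ball (connected hc x) hr ?_
    by_contra h2
    have := h.al _ h1 (by rw [M.αα]; omega)
    rw [M.αα] at this
    exact hd this
  · left
    tauto

lemma Big.sub {Y' : D → Prop} (h : Big M x r s Y) (h' : Big M x (r + 1) s Y')
    (hD : 2 * s < Nat.card D) : ∀ d, Y' d → Y d := by
  have k : ∀ d, Y' d → (Y d ∨ Y (M.α d)) → Y d := fun d h1 h2 => h2.elim id fun h3 => by
    have := h.al _ h3 (by rw [M.αα]; have := h'.nb d h1; omega)
    rwa [M.αα] at this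
  obtain ⟨e, e1, e2⟩ : ∃ e, Y' e ∧ Y e := by
    by_contra hn
    push Not at hn
    have := cd_all (p := fun d => ¬(Y d ∨ Y (M.α d))) (q := fun d => ¬(Y' d ∨ Y' (M.α d)))
      (fun d => by
        by_contra hh
        push Not at hh
        rcases hh.2 with h1 | h1
        · exact hn d h1 (k d h1 hh.1)
        · exact hn _ h1 (k _ h1 (by rw [M.αα]; exact hh.1.symm)))
    have a1 := h.cos
    have a2 := h'.cos
    omega
  intro d hd
  refine (h'.conn Y (fun d _ => h.phi d) (fun d h1 h2 => ⟨fun h3 => k d h1 (Or.inr h3),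
    fun h3 => k _ h2 (Or.inr (by rwa [M.αα]))⟩) d e hd e1).2 e2

/-- the distances at a boundary dart -/
lemma Cl.bd (h : Cl M x r Y) (hc : M.rg.Connected) {d : D} (h1 : ¬Y d) (h2 : Y (M.α d)) :
    M.rg.dist (M.rv x) (M.rf d) = 2 * r + 1 ∧ M.rg.dist (M.rv x) (M.rv d) = 2 * r + 2 ∧
      M.rg.dist (M.rv x) (M.rv (M.α d)) = 2 * r + 2 := by
  have a1 : M.rg.dist (M.rv x) (M.rf d) ≤ 2 * r + 1 := by
    by_contra h3
    have := h.al _ h2 (by rw [M.αα]; omega)
    rw [M.αα] at this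
    exact h1 this
  have a2 := h.nb _ h2
  obtain ⟨t, a3⟩ := (parity hc x _ (M.α d)).2 rfl
  have a4 := vf hc (M.rv x) d
  have a5 := vf hc (M.rv x) (M.α d)
  have a6 := vf hc (M.rv x) (M.φ d)
  have a7 := vf hc (M.rv x) (M.φ (M.α d))
  rw [rv_φ, rf_φ] at a6
  rw [rv_σ, rf_φ] at a7
  omega

lemma sc_ind (π : Perm D) (P : D → Prop) (h : ∀ d, P d → P (π d)) {d e : D}
    (hs : π.SameCycle d e) (hd : P d) : P e := by
  obtain ⟨k, -, rfl⟩ := hs.exists_pow_eq'
  induction k with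
  | zero => exact hd
  | succ k ih =>
    rw [pow_succ', Perm.mul_apply]
    exact h _ (ih ⟨k, by simp⟩)

/-- a vertex that sees both colours is the tail of a boundary dart and the head of one -/
lemma Cl.both (h : Cl M x r Y) {d e : D} (hs : M.σ.SameCycle d e) (h1 : ¬Y d) (h2 : Y e) :
    (∃ a, M.σ.SameCycle d a ∧ ¬Y a ∧ Y (M.α a)) ∧
      ∃ a, M.σ.SameCycle d (M.α a) ∧ ¬Y a ∧ Y (M.α a) := by
  constructor
  · by_contra hn
    push Not at hn
    refine (sc_ind M.σ (fun a => M.σ.SameCycle d a ∧ ¬Y a) (fun a ha => ⟨?_, ?_⟩) hs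
      ⟨Perm.SameCycle.refl _ _, h1⟩).2 h2
    · exact Perm.sameCycle_apply_right.2 ha.1
    · rw [M.σ_apply, h.phi]
      exact hn a ha.1 ha.2
  · by_contra hn
    push Not at hn
    refine h1 (sc_ind M.σ (fun a => M.σ.SameCycle d a ∧ Y a) (fun a ha => ⟨?_, ?_⟩) hs.symm
      ⟨hs, h2⟩).2
    · exact Perm.sameCycle_apply_right.2 ha.1
    · rw [M.σ_apply, h.phi]
      by_contra h3
      exact hn (M.α a) (by rw [M.αα]; exact ha.1) h3 (by rw [M.αα]; exact ha.2)

lemma Big.const (h : Big M x r s Y) (f π : D → ZMod 2)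
    (hf : ∀ e, f e ≠ 0 → M.rg.dist (M.rv x) (M.rf e) ≤ 2 * r + 1) (h1 : ∀ d, π (M.α d) = π d)
    (h2 : ∀ d, f (M.φ d) = π d + π (M.φ d)) {d e : D} (hd : Y (M.α d)) (he : Y (M.α e)) :
    π d = π e := by
  have := h.conn (fun a => π a = π e) (fun a ha => ?_) (fun a _ _ => by rw [h1]) _ _ hd he
  · simpa only [h1, iff_true] using this
  · have a1 : f (M.φ a) = 0 := by
      by_contra a2
      have := hf _ a2
      have := h.nb a ha
      rw [rf_φ] at *
      omega
    have a2 : π (M.φ a) = π a := by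
      have := h2 a
      rw [a1] at this
      linear_combination -this - two (π a)
    rw [a2]

/-- no pinch points -/
lemma Big.pinch (h : Big M x r s Y) (hc : M.Con) (hG : M.GB (M.rv x) ρ s) (hr : 2 * r + 2 ≤ ρ)
    {a c : D} (hs : M.σ.SameCycle a c) (a1 : ¬Y a) (a2 : Y (M.α a)) (c1 : ¬Y c)
    (c2 : Y (M.α c)) : a = c := by
  classical
  by_contra hne
  have hk := connected hc x
  have da := h.toCl.bd hk a1 a2
  have dc := h.toCl.bd hk c1 c2
  obtain ⟨f, f1, f2⟩ := path hk (M.rv x) _ _ da.1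
  obtain ⟨g, g1, g2⟩ := path hk (M.rv x) _ _ dc.1
  let F : D → ZMod 2 := f + g + Pi.single a 1 + Pi.single c 1
  have hF : ∀ e, F e ≠ 0 → M.rg.dist (M.rv x) (M.rf e) ≤ 2 * r + 1 := by
    intro e he
    by_contra hn
    apply he
    have e1 : f e = 0 := by by_contra h0; exact hn (f2 e h0).2
    have e2 : g e = 0 := by by_contra h0; exact hn (g2 e h0).2
    have e3 : e ≠ a := by rintro rfl; omega
    have e4 : e ≠ c := by rintro rfl; omega
    simp [F, e1, e2, e3, e4]
  obtain ⟨π, p1, p2, -⟩ := gb hG F (fun e he => in_ball hk hr (hF e he)) (fun n => by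
    simp only [F, bdy_add, f1, g1, bdy_single, (rv_eq M).2 hs]
    linear_combination two (if M.rf a = n then 1 else 0) + two (if M.rf c = n then 1 else 0)
      + two (if M.rv x = n then 1 else 0) + two (if M.rv c = n then 1 else 0))
  have hac : π a = π c := h.const F π hF p1 p2 a2 c2
  have hv : ∀ e, M.σ.SameCycle a e → f e = 0 ∧ g e = 0 := by
    intro e he
    have := (rv_eq M).2 he
    constructor
    · by_contra h0
      have := (f2 e h0).1
      simp_all
    · by_contra h0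
      have := (g2 e h0).1
      simp_all
  have hstep : ∀ e, F (M.σ e) = π e + π (M.σ e) := fun e => by
    rw [M.σ_apply, p2, p1]
  have ex : ∃ k : ℕ, (M.σ ^ k) a = c := by
    obtain ⟨k, -, hk⟩ := hs.exists_pow_eq'
    exact ⟨k, hk⟩
  have hsc : ∀ j : ℕ, M.σ.SameCycle a ((M.σ ^ j) a) := fun j => ⟨j, by simp⟩
  have hlt : ∀ j, j < Nat.find ex → π ((M.σ ^ j) a) = π a := by
    intro j
    induction j with
    | zero => intro _; rfl
    | succ j ih =>
      intro hj
      have e1 := hstep ((M.σ ^ j) a)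
      rw [← Perm.mul_apply, ← pow_succ', ih (by omega)] at e1
      have e2 : (M.σ ^ (j + 1)) a ≠ c := Nat.find_min ex hj
      have e3 : (M.σ ^ (j + 1)) a ≠ a := by
        intro e4
        refine Nat.find_min ex (m := Nat.find ex - (j + 1)) (by omega) ?_
        refine (congrArg (M.σ ^ (Nat.find ex - (j + 1))) e4.symm).trans ?_
        rw [← Perm.mul_apply, ← pow_add, Nat.sub_add_cancel hj.le]
        exact Nat.find_spec ex
      have e5 := hv _ (hsc (j + 1))
      simp only [F, Pi.add_apply, e5.1, e5.2, Pi.single_eq_of_ne e2, Pi.single_eq_of_ne e3,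
        add_zero] at e1
      linear_combination -e1 - two (π a)
  have hpos : Nat.find ex ≠ 0 := by
    intro h0
    have := Nat.find_spec ex
    rw [h0] at this
    exact hne this
  obtain ⟨j, hj⟩ := Nat.exists_eq_succ_of_ne_zero hpos
  have e1 := hstep ((M.σ ^ j) a)
  have e2 := Nat.find_spec ex
  rw [hj] at e2
  rw [← Perm.mul_apply, ← pow_succ', hlt j (by omega), e2, hac, two] at e1
  have e5 := hv _ hs
  simp [F, e5.1, e5.2, Pi.single_eq_of_ne (Ne.symm hne)] at e1

/-- the boundary is one cycle -/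
lemma Big.one (h : Big M x r s Y) (hc : M.Con) (hG : M.GB (M.rv x) ρ s) (hr : 2 * r + 2 ≤ ρ)
    (ν : Perm {d // ¬Y d ∧ Y (M.α d)}) (hν : ∀ d, M.rv (ν d).1 = M.rv (M.α d.1))
    (a c : {d // ¬Y d ∧ Y (M.α d)}) : ν.SameCycle a c := by
  classical
  have hk := connected hc x
  let γ : D → ZMod 2 := fun d =>
    if h : ¬Y d ∧ Y (M.α d) then (if ν.SameCycle a ⟨d, h⟩ then 1 else 0) else 0
  have γ0 : ∀ d, γ d ≠ 0 → ¬Y d ∧ Y (M.α d) := fun d hd => by
    by_contra hn
    exact hd (dif_neg hn)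
  have γ1 : ∀ d : {d // ¬Y d ∧ Y (M.α d)}, γ d.1 = if ν.SameCycle a d then 1 else 0 :=
    fun d => dif_pos d.2
  let F : D → ZMod 2 := fun e => γ (M.φ⁻¹ e) + γ e
  have hF : ∀ e, F e ≠ 0 → M.rg.dist (M.rv x) (M.rf e) = 2 * r + 1 ∧
      M.rg.dist (M.rv x) (M.rv e) = 2 * r + 2 := by
    intro e he
    obtain ⟨d, rfl⟩ := M.φ.surjective e
    by_cases h1 : γ d = 0
    · have h2 : γ (M.φ d) ≠ 0 := by simpa only [F, iap, h1, zero_add] using he
      have := h.toCl.bd hk (γ0 _ h2).1 (γ0 _ h2).2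
      exact ⟨this.1, this.2.1⟩
    · have := h.toCl.bd hk (γ0 _ h1).1 (γ0 _ h1).2
      rw [rf_φ, rv_φ]
      exact ⟨this.1, this.2.2⟩
  have sub : ∀ g : D → ZMod 2, ∑ e, γ e * g e =
      ∑ d : {d // ¬Y d ∧ Y (M.α d)}, γ d.1 * g d.1 := by
    intro g
    rw [← Finset.sum_subtype (Finset.univ.filter fun d => ¬Y d ∧ Y (M.α d)) (by simp)
      (fun e => γ e * g e), Finset.sum_filter]
    refine Finset.sum_congr rfl fun e _ => ?_
    split_ifs with h1
    · rfl
    · rw [show γ e = 0 from dif_neg h1, zero_mul]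
  obtain ⟨π, p1, p2, -⟩ := gb hG F (fun e he => in_ball hk hr (hF e he).1.le) (fun n => by
    rw [bdy_split]
    simp only [F, add_mul, Finset.sum_add_distrib]
    have h1 : (∑ e, γ (M.φ⁻¹ e) * if M.rv e = n then 1 else 0) =
        ∑ e, γ e * if M.rv e = n then 1 else 0 := by
      rw [← Equiv.sum_comp M.φ]
      simp only [iap, rv_φ]
      rw [sub, sub, ← Equiv.sum_comp ν (fun d => γ d.1 * if M.rv d.1 = n then 1 else 0)]
      refine Finset.sum_congr rfl fun d _ => ?_
      rw [hν, γ1, γ1]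
      simp only [Perm.sameCycle_apply_right]
    have h2 : (∑ e, γ (M.φ⁻¹ e) * if M.rf e = n then 1 else 0) =
        ∑ e, γ e * if M.rf e = n then 1 else 0 := by
      rw [← Equiv.sum_comp M.φ]
      refine Finset.sum_congr rfl fun e _ => ?_
      rw [rf_φ, iap]
    rw [h1, h2, two, two, add_zero])
  have hφ : ∀ d, π (M.φ d) + γ (M.φ d) = π d + γ d := fun d => by
    have := p2 d
    simp only [F, iap] at this
    linear_combination this - two (γ d) + two (π (M.φ d))
  have hφ' : ∀ d e, M.φ.SameCycle d e → π e + γ e = π d + γ d := fun d e hs =>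
    sc_ind M.φ (fun e => π e + γ e = π d + γ d) (fun e he => by rw [hφ, he]) hs rfl
  have F0 : ∀ e, M.rg.dist (M.rv x) (M.rv e) ≤ 2 * r ∨ M.rg.dist (M.rv x) (M.rf e) ≤ 2 * r →
      F e = 0 := fun e he => by
    by_contra h0
    have := hF e h0
    omega
  have cv : ∀ d e, M.rv d = M.rv e → M.rg.dist (M.rv x) (M.rv d) ≤ 2 * r → π e = π d := by
    intro d e h1 h2
    refine (sc_ind M.σ (fun e => M.rv e = M.rv d ∧ π e = π d) (fun e he => ⟨?_, ?_⟩)
      ((rv_eq M).1 h1) ⟨rfl, rfl⟩).2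
    · rw [M.σ_apply, rv_σ, he.1]
    · have := p2 (M.α e)
      rw [F0 _ (Or.inl (by rw [rv_σ, he.1]; exact h2)), p1, he.2] at this
      rw [M.σ_apply]
      linear_combination -this - two (π d)
  have cf : ∀ d e, M.rf d = M.rf e → M.rg.dist (M.rv x) (M.rf d) ≤ 2 * r → π e = π d := by
    intro d e h1 h2
    refine (sc_ind M.φ (fun e => M.rf e = M.rf d ∧ π e = π d) (fun e he => ⟨?_, ?_⟩)
      ((rf_eq M).1 h1) ⟨rfl, rfl⟩).2
    · rw [rf_φ, he.1]
    · have := p2 e
      rw [F0 _ (Or.inr (by rw [rf_φ, he.1]; exact h2)), he.2] at this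
      linear_combination -this - two (π d)
  have inner : ∀ k, k ≤ 2 * r → ∀ d, (M.rg.dist (M.rv x) (M.rv d) = k → π d = π x) ∧
      (M.rg.dist (M.rv x) (M.rf d) = k → π d = π x) := by
    intro k
    induction k with
    | zero =>
      intro _ d
      refine ⟨fun h0 => cv x d (hk.dist_eq_zero_iff.1 h0) (by simp), fun h0 => ?_⟩
      exact absurd (hk.dist_eq_zero_iff.1 h0) (rv_ne M x d)
    | succ k ih =>
      intro hk' d
      constructor
      · intro h0
        obtain ⟨e, h1 | h1⟩ := parent hk _ h0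
        · rw [← (ih (by omega) e).2 h1.2]
          exact (cv d e h1.1.symm (by omega)).symm
        · exact absurd h1.1.symm (rv_ne M d e)
      · intro h0
        obtain ⟨e, h1 | h1⟩ := parent hk _ h0
        · exact absurd h1.1 (rv_ne M e d)
        · rw [← (ih (by omega) e).1 h1.2]
          exact (cf d e h1.1.symm (by omega)).symm
  have fin : ∀ d : {d // ¬Y d ∧ Y (M.α d)}, π d.1 + γ d.1 = π x := by
    intro d
    obtain ⟨e, h1 | h1⟩ := parent hk _ (h.toCl.bd hk d.2.1 d.2.2).1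
    · exact absurd h1.1 (rv_ne M e d.1)
    · have e0 : γ e = 0 := by
        by_contra h0
        have := (h.toCl.bd hk (γ0 e h0).1 (γ0 e h0).2).2.1
        omega
      rw [hφ' e d.1 ((rf_eq M).1 h1.1), e0, add_zero]
      exact (inner _ le_rfl e).1 h1.2
  have hac : π a.1 = π c.1 := h.const F π (fun e he => (hF e he).1.le) p1 p2 a.2.2 c.2.2
  have e1 := fin a
  have e2 := fin c
  rw [γ1, if_pos (Perm.SameCycle.refl _ _)] at e1
  rw [γ1] at e2
  by_contra hn
  rw [if_neg hn, ← e1, hac] at e2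
  simp at e2

end big

section graph
variable {V D : Type} [Fintype D] {H : SimpleGraph V} (L : LM H D)

lemma vx_iff (d e : D) : L.vx d = L.vx e ↔ L.toHMap.σ.SameCycle d e :=
  ⟨L.vx_cyc d e, fun h => (sc_ind L.toHMap.σ (fun e => L.vx e = L.vx d)
    (fun a ha => by rw [HMap.σ_apply, L.vx_σ, ha]) h rfl).symm⟩

lemma cycle {x : D} {ρ s r : ℕ} {Y : D → Prop} (h : Big L.toHMap x r s Y) (hc : L.toHMap.Con)
    (hG : L.toHMap.GB (L.toHMap.rv x) ρ s) (hr : 2 * r + 2 ≤ ρ) (hD : s < Nat.card D) :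
    ∃ (n : ℕ) (c : ZMod n → V), Cyc H c ∧
      ∀ d, (¬Y d ∧ Y (L.α d)) ↔ ∃ i, L.vx d = c i ∧ L.vx (L.α d) = c (i + 1) := by
  classical
  have hk := connected hc x
  have uniq : ∀ a c : {d // ¬Y d ∧ Y (L.α d)}, L.vx a.1 = L.vx c.1 → a = c := fun a c e =>
    Subtype.ext (h.pinch hc hG hr ((vx_iff L _ _).1 e) a.2.1 a.2.2 c.2.1 c.2.2)
  have nx : ∀ a : {d // ¬Y d ∧ Y (L.α d)}, ∃ c : {d // ¬Y d ∧ Y (L.α d)},
      L.vx c.1 = L.vx (L.α a.1) := by
    intro a
    have h1 : L.toHMap.σ.SameCycle (L.φ a.1) (L.α a.1) := (rv_eq _).1 (rv_φ _ _)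
    obtain ⟨c, c1, c2⟩ := (h.toCl.both h1 (by rw [h.phi]; exact a.2.1) a.2.2).1
    exact ⟨⟨c, c2⟩, ((vx_iff L _ _).2 (h1.symm.trans c1)).symm⟩
  choose ν₀ hν₀ using nx
  have surj : Surjective ν₀ := by
    intro c
    have h1 : L.toHMap.σ.SameCycle c.1 (L.φ (L.α c.1)) := (rv_eq _).1 (rv_σ _ _).symm
    obtain ⟨a, a1, a2⟩ := (h.toCl.both h1 c.2.1 (by rw [h.phi]; exact c.2.2)).2
    exact ⟨⟨a, a2⟩, uniq _ _ ((hν₀ _).trans ((vx_iff L _ _).2 a1).symm)⟩
  let ν : Perm {d // ¬Y d ∧ Y (L.α d)} :=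
    Equiv.ofBijective ν₀ (Finite.surjective_iff_bijective.1 surj)
  have hν : ∀ a, L.vx (ν a).1 = L.vx (L.α a.1) := hν₀
  obtain ⟨a⟩ : Nonempty {d // ¬Y d ∧ Y (L.α d)} := by
    by_contra hn
    have h1 : ∀ d, Y (L.α d) → Y d := fun d hd => by
      by_contra h2
      exact hn ⟨⟨d, h2, hd⟩⟩
    have h2 : ∀ d, Y d = Y x := fun d => const hc Y (fun d => propext (h.phi d))
      (fun d => propext ⟨h1 d, fun h3 => h1 _ (by rwa [L.αα])⟩) d x
    have h3 : ¬Y x := fun h4 => by
      have a1 := h.nb x h4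
      have a2 := (vf hk (L.toHMap.rv x) x).1
      rw [SimpleGraph.dist_self] at a2
      omega
    have h4 := cd_all (p := fun d => ¬(Y d ∨ Y (L.α d))) (q := fun _ => False)
      (fun d => Or.inl (by rw [h2, h2 (L.α d)]; tauto))
    have h5 := h.cos
    simp only [Nat.card_eq_fintype_card, Fintype.card_eq_zero, add_zero] at h4 h5 hD
    omega
  have one := h.one hc hG hr ν (fun d => (rv_eq _).2 ((vx_iff L _ _).1 (hν d))) a
  have hpos : 0 < minimalPeriod ν a :=
    minimalPeriod_pos_of_mem_periodicPts (ν.injective.mem_periodicPts a)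
  obtain ⟨n, hn⟩ : ∃ n, minimalPeriod ν a = n + 1 := ⟨_, (Nat.sub_add_cancel hpos).symm⟩
  have hmod : ∀ k, ν^[k % (n + 1)] a = ν^[k] a := fun k => by
    rw [← hn, iterate_mod_minimalPeriod_eq]
  let c : ZMod (n + 1) → V := fun i => L.vx (ν^[i.val] a).1
  have hsucc : ∀ i : ZMod (n + 1), c (i + 1) = L.vx (L.α (ν^[i.val] a).1) := by
    intro i
    simp only [c]
    rw [ZMod.val_add, ZMod.val_one_eq_one_mod, Nat.add_mod_mod, hmod, iterate_succ_apply', hν]
  have hper : ν^[n + 1] a = a := by rw [← hn]; exact iterate_minimalPeriod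
  refine ⟨n + 1, c, ⟨?_, fun i j e => ?_, fun i => ?_⟩, fun d => ⟨fun hd => ?_, ?_⟩⟩
  · by_contra h3
    have h4 : n = 0 ∨ n = 1 := by omega
    rcases h4 with rfl | rfl
    · have h5 := hν a
      have h6 : ν a = a := hper
      rw [h6] at h5
      exact (L.adj a.1).ne h5
    · have h6 : ν (ν a) = a := hper
      have h5 := hν (ν a)
      rw [h6] at h5
      obtain ⟨e, -, he⟩ := L.ex _ _ (L.adj (L.α a.1))
      have h7 := he (L.α a.1) ⟨rfl, rfl⟩
      have h8 := he (ν a).1 ⟨hν a, by rw [L.αα, h5]⟩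
      exact (ν a).2.1 (by rw [h8, ← h7]; exact a.2.2)
  · have h1 := uniq _ _ e
    have h2 := (iterate_eq_iterate_iff_of_lt_minimalPeriod (by rw [hn]; exact ZMod.val_lt i)
      (by rw [hn]; exact ZMod.val_lt j)).1 h1
    exact ZMod.val_injective _ h2
  · rw [hsucc]
    exact L.adj _
  · obtain ⟨k, -, hk'⟩ := (one ⟨d, hd⟩).exists_pow_eq'
    have h1 : ν^[((k : ZMod (n + 1))).val] a = ⟨d, hd⟩ := by
      rw [ZMod.val_natCast, hmod, Perm.iterate_eq_pow, hk']
    refine ⟨k, ?_, ?_⟩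
    · simp only [c, h1]
    · rw [hsucc, h1]
  · rintro ⟨i, h1, h2⟩
    rw [hsucc] at h2
    obtain ⟨e, -, he⟩ := L.ex _ _ (L.adj d)
    have h3 := he d ⟨rfl, rfl⟩
    have h4 := he (ν^[i.val] a).1 ⟨h1.symm, h2.symm⟩
    rw [h3, ← h4]
    exact (ν^[i.val] a).2

end graph

end Ring

open _root_.Pool.Agent.Lib.MP_c1f5fe_lc.Ring in
theorem ring' : RingSt := by
  intro V D _ H L x ρ s b R hc hG hb hR hD
  haveI := Fintype.ofFinite D
  have hk := connected hc x
  have ex : ∀ r, ∃ (Y : D → Prop) (n : ℕ) (c : ZMod n → V), r ≤ R → Big L.toHMap x r s Y ∧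
      Cyc H c ∧ ∀ d, (¬Y d ∧ Y (L.α d)) ↔ ∃ i, L.vx d = c i ∧ L.vx (L.α d) = c (i + 1) := by
    intro r
    by_cases hr : r ≤ R
    · obtain ⟨Y, hY⟩ := exists_big hc hG hb hD (r := r) (by omega)
      obtain ⟨n, c, h1, h2⟩ := cycle L hY hc hG (by omega) (by omega)
      exact ⟨Y, n, c, fun _ => ⟨hY, h1, h2⟩⟩
    · exact ⟨fun _ => False, 0, fun _ => L.vx x, fun h => absurd h hr⟩
  choose Y len c h using ex
  have sub : ∀ r < R, ∀ d, Y (r + 1) d → Y r d := fun r hr =>
    (h r hr.le).1.sub (h (r + 1) hr).1 (by omega)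
  refine ⟨fun r d => ¬Y r d, len, c, ⟨fun r hr d => not_congr ((h r hr).1.phi d),
    fun r hr => (h r hr).2.1, fun r hr d => ?_, fun r hr d hd hy => ?_, fun r hr d h1 h2 => ?_⟩,
    (h R le_rfl).1.card hc hb (by omega), fun d hd hy => ?_, fun d h1 h2 => ?_⟩
  · rw [not_not]
    exact (h r hr).2.2 d
  · obtain ⟨e, e1, e2⟩ := hd
    have a1 := (h (r + 1) hr).1.nb d hy
    have a2 := vf hk (L.toHMap.rv x) d
    have hY := (h r hr.le).1
    refine e1 (sc_ind L.toHMap.σ (fun e => L.toHMap.rv e = L.toHMap.rv d ∧ Y r e)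
      (fun a ha => ⟨?_, ?_⟩) ((vx_iff L _ _).1 e2.symm) ⟨rfl, sub r hr d hy⟩).2
    · rw [HMap.σ_apply, rv_σ, ha.1]
    · rw [HMap.σ_apply, hY.phi]
      refine hY.al a ha.2 ?_
      have a3 := vf hk (L.toHMap.rv x) (L.φ (L.α a))
      rw [rv_σ, rf_φ, ha.1] at a3
      omega
  · rw [not_not] at h2
    have hY := (h r hr.le).1
    have a1 := ((h (r + 1) hr).1.toCl.bd hk h1 h2).1
    have a2 : Y r d := by
      have := hY.al _ (sub r hr _ h2) (by rw [L.αα]; omega)
      rwa [L.αα] at this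
    refine ⟨not_not.2 a2, ?_⟩
    obtain ⟨e, e1 | e1⟩ := parent hk _ (k := 2 * r + 2) a1
    · exact absurd e1.1 (rv_ne _ e d)
    · obtain ⟨e', e2 | e2⟩ := parent hk _ (k := 2 * r + 1) e1.2
      · have s1 : L.φ.SameCycle d e := (rf_eq _).1 e1.1.symm
        have s2 : L.toHMap.σ.SameCycle e' e := (rv_eq _).1 e2.1
        have y1 : Y r e := sc_ind L.φ (Y r) (fun a ha => (hY.phi a).2 ha) s1 a2
        have y2 : ¬Y r e' := fun y => by have := hY.nb _ y; omega
        obtain ⟨a, b1, b2⟩ := (hY.toCl.both s2 y2 y1).1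
        obtain ⟨i, b3, -⟩ := ((h r hr.le).2.2 a).1 b2
        exact ⟨e, i, s1, ((vx_iff L _ _).2 (s2.symm.trans b1)).trans b3⟩
      · exact absurd e2.1.symm (rv_ne _ e e')
  · have a1 := (h R le_rfl).1.nb d hy
    have a2 := (vf hk (L.toHMap.rv x) d).1
    rw [(rv_eq _).2 ((vx_iff L _ _).1 hd), SimpleGraph.dist_self] at a2
    omega
  · rw [not_not] at h2
    exact in_ball hk (r := R) (by omega) ((h R le_rfl).1.toCl.bd hk h1 h2).1.le

theorem ring : K1 → K4 → RingSt := fun _ _ => ring'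

end Pool.Agent.Lib.MP_c1f5fe_lc
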