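import Pool.Agent.Lib.MP_c1f5fe_lc.SpecB
import Pool.Agent.Lib.MP_c7ba3e_co.Menger

/-! Shells: many disjoint paths across some annulus, or a small reducible set. -/

namespace Pool.Agent.Lib.MP_c1f5fe_lc

open Equiv Function Relation
open Pool.Agent.Lib.MP_c7ba3e_co (SepLB Links Reach menger exists_path)

namespace Shell

variable {V D : Type} {G : SimpleGraph V} {Z : Set V} {R : ℕ} (F : Flat G Z R D)

theorem vx_mem (d : D) : F.L.vx d ∈ Z := (F.L.adj d).2.1

theorem vx_φ (d : D) : F.L.vx (F.L.φ d) = F.L.vx (F.L.α d) := by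
  rw [← F.L.vx_σ (F.L.α d), F.L.αα]

theorem zc_sub (r : ℕ) : F.Zc r ⊆ Z := by
  rintro v ⟨d, -, rfl⟩
  exact vx_mem F d

theorem ring_dart {r : ℕ} (hr : r ≤ R) (i : ZMod (F.len r)) :
    ∃ d, F.O r d ∧ ¬F.O r (F.L.α d) ∧ F.L.vx d = F.c r i ∧ F.L.vx (F.L.α d) = F.c r (i + 1) := by
  obtain ⟨d, ⟨h1, h2⟩, -⟩ := F.L.ex _ _ ((F.rings.cyc r hr).adj i)
  obtain ⟨a, b⟩ := (F.rings.bd r hr d).2 ⟨i, h1, h2⟩
  exact ⟨d, a, b, h1, h2⟩

theorem ring_mem {r : ℕ} (hr : r ≤ R) (i : ZMod (F.len r)) : F.c r i ∈ F.Zc r := by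
  obtain ⟨d, a, -, h, -⟩ := ring_dart F hr i
  exact ⟨d, a, h⟩

theorem zc_succ {r : ℕ} (hr : r < R) : F.Zc r ⊆ F.Zc (r + 1) := by
  rintro v ⟨d, hd, rfl⟩
  exact ⟨d, F.rings.nest r hr d ⟨d, hd, rfl⟩, rfl⟩

theorem zc_mono {r s : ℕ} (h : r ≤ s) (hs : s ≤ R) : F.Zc r ⊆ F.Zc s := by
  induction s, h using Nat.le_induction with
  | base => exact subset_rfl
  | succ s _ ih => exact (ih (by omega)).trans (zc_succ F (by omega))

theorem not_ring {r s : ℕ} (h : r < s) (hs : s ≤ R) {v : V} (hv : v ∈ F.Zc r) :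
    v ∉ Set.range (F.c s) := by
  rintro ⟨i, rfl⟩
  obtain ⟨s, rfl⟩ : ∃ t, s = t + 1 := ⟨s - 1, by omega⟩
  obtain ⟨d, -, b, -, h2⟩ := ring_dart F hs (i - 1)
  rw [sub_add_cancel] at h2
  exact b (F.rings.nest s (by omega) _ (h2 ▸ zc_mono F (by omega) (by omega) hv))

/-- neighbours of an inner vertex of a disc lie in the disc -/
theorem inner [Finite D] {r : ℕ} (hr : r < R) {v u : V} (hv : v ∈ F.Zc r)
    (hn : v ∉ Set.range (F.c r)) (a : G.Adj v u) : u ∈ F.Zc r := by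
  have vZ : v ∈ Z := zc_sub F r hv
  have uZ : u ∈ Z := F.closed v vZ (not_ring F hr le_rfl hv) a
  have key : ∀ d, F.L.vx d = v → F.O r d → F.O r (F.L.α d) := by
    intro d e o
    by_contra c
    obtain ⟨i, h1, -⟩ := (F.rings.bd r hr.le d).1 ⟨o, c⟩
    exact hn ⟨i, h1.symm.trans e⟩
  obtain ⟨d, hd, e⟩ := hv
  have it : ∀ n : ℕ, F.L.vx ((F.L.toHMap.σ ^ n) d) = v ∧ F.O r ((F.L.toHMap.σ ^ n) d) := by
    intro n
    induction n with
    | zero => exact ⟨e, hd⟩
    | succ n ih =>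
      rw [pow_succ', Perm.mul_apply, HMap.σ_apply]
      exact ⟨(F.L.vx_σ _).trans ih.1, (F.rings.phi r hr.le _).2 (key _ ih.1 ih.2)⟩
  obtain ⟨d', ⟨h1, h2⟩, -⟩ := F.L.ex v u ⟨a, vZ, uZ⟩
  obtain ⟨n, -, -, hn'⟩ := (F.L.vx_cyc d d' (e.trans h1.symm)).exists_pow_eq''
  have o : F.O r d' := hn' ▸ (it n).2
  exact ⟨_, key d' h1 o, h2⟩

/-- the annulus between two rings -/
def Ann (a b : ℕ) : Set V := {v | v ∈ F.Zc b ∧ (v ∈ F.Zc a → v ∈ Set.range (F.c a))}

theorem ann_out {a b r : ℕ} (h : r < a) (ha : a ≤ R) {v : V} (hv : v ∈ Ann F a b) :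
    v ∉ F.Zc r := fun c => not_ring F h ha c (hv.2 (zc_mono F h.le ha c))

/-- the component of `x` after deleting `T` -/
def cmp (G : SimpleGraph V) (T : Set V) (x : V) : Set V :=
  {v | ReflTransGen (fun p q => G.Adj p q ∧ q ∉ T) x v}

theorem nb_cmp (T : Set V) (x : V) : nb G (cmp G T x) ⊆ T := by
  rintro v ⟨hv, y, hy, a⟩
  by_contra c
  exact hv (ReflTransGen.tail hy ⟨a, c⟩)

theorem cn_cmp (T : Set V) (x : V) : Cn G (cmp G T x) := by
  have h : ∀ v ∈ cmp G T x,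
      ReflTransGen (fun p q => G.Adj p q ∧ p ∈ cmp G T x ∧ q ∈ cmp G T x) x v ∧
      ReflTransGen (fun p q => G.Adj p q ∧ p ∈ cmp G T x ∧ q ∈ cmp G T x) v x := by
    intro v hv
    induction hv with
    | refl => exact ⟨.refl, .refl⟩
    | tail h1 h2 ih =>
      exact ⟨ih.1.tail ⟨h2.1, h1, h1.tail h2⟩, .head ⟨h2.1.symm, h1.tail h2, h1⟩ ih.2⟩
  exact ⟨⟨x, .refl⟩, fun a ha b hb => (h a ha).2.trans (h b hb).1⟩

/-- one annulus: many paths or a small cut -/
theorem one [Finite V] [Finite D] {a b : ℕ} (m : ℕ) (h0 : 0 < a) (hab : a < b) (hb : b < R) :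
    (∃ P, Rails F a b m P) ∨
      ∃ T ⊆ Ann F a b, T.ncard ≤ m ∧ cmp G T (F.c 0 0) ⊆ F.Zc b := by
  classical
  have : Fintype V := Fintype.ofFinite V
  set E : Finset (V × V) :=
    Finset.univ.filter fun p => G.Adj p.1 p.2 ∧ p.1 ∈ Ann F a b ∧ p.2 ∈ Ann F a b with hE
  set A : Finset V := Finset.univ.filter fun v => v ∈ Set.range (F.c a) with hA
  set B : Finset V := Finset.univ.filter fun v => v ∈ Set.range (F.c b) with hB
  have ringA : ∀ v, v ∈ Set.range (F.c a) → v ∈ Ann F a b := by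
    rintro _ ⟨i, rfl⟩
    exact ⟨zc_mono F hab.le hb.le (ring_mem F (by omega) i), fun _ => ⟨i, rfl⟩⟩
  by_cases hs : SepLB E A B m
  · left
    obtain ⟨C, s, t, h1, h2⟩ := menger m E A B hs
    have h3 : ∀ j, ∃ l : List V, (s j :: l).IsChain
        (fun u v => (u, v) ∈ E ∧ u ∈ C j ∧ v ∈ C j) ∧ (s j :: l).getLast (by simp) = t j := by
      intro j
      obtain ⟨l, -, c, e⟩ := exists_path (h1 j).2.2.2.2
      exact ⟨l, c, e⟩
    choose l c e using h3
    have mem : ∀ j, ∀ v ∈ s j :: l j, v ∈ C j ∧ v ∈ Ann F a b := by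
      intro j
      have hs0 : s j ∈ C j ∧ s j ∈ Ann F a b :=
        ⟨(h1 j).2.2.1, ringA _ (by simpa [hA] using (h1 j).1)⟩
      refine List.IsChain.induction (fun v => v ∈ C j ∧ v ∈ Ann F a b) _ (c j) ?_ ?_
      · intro x y hxy _
        exact ⟨hxy.2.2, (Finset.mem_filter.1 hxy.1).2.2.2⟩
      · intro _
        exact hs0
    refine ⟨fun j => s j :: l j, fun j => ?_, fun j => ?_, fun j => ?_, fun j j' v p q => ?_,
      fun j v p => (mem j v p).2⟩
    · exact (c j).imp fun _ _ h => (Finset.mem_filter.1 h.1).2.1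
    · obtain ⟨i, hi⟩ : s j ∈ Set.range (F.c a) := by simpa [hA] using (h1 j).1
      exact ⟨i, by simp [hi]⟩
    · obtain ⟨i, hi⟩ : t j ∈ Set.range (F.c b) := by simpa [hB] using (h1 j).2.1
      refine ⟨i, ?_⟩
      rw [List.getLast?_eq_some_getLast (by simp), e j, hi]
    · by_contra n
      exact h2 j j' n v (mem j v p).1 (mem j' v q).1
  · right
    unfold SepLB at hs
    push Not at hs
    obtain ⟨X, T, h1, h2, h3, h4⟩ := hs
    refine ⟨(T : Set V) ∩ Ann F a b, Set.inter_subset_right, ?_, ?_⟩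
    · calc ((T : Set V) ∩ Ann F a b).ncard ≤ (T : Set V).ncard :=
            Set.ncard_le_ncard Set.inter_subset_left (Set.toFinite _)
        _ ≤ m := by rw [Set.ncard_coe_finset]; exact h4.le
    · have key : ∀ v ∈ cmp G ((T : Set V) ∩ Ann F a b) (F.c 0 0),
          (v ∈ F.Zc a ∧ v ∉ Set.range (F.c a)) ∨ (v ∈ X ∧ v ∈ Ann F a b) := by
        intro v hv
        induction hv with
        | refl =>
          have := ring_mem F (Nat.zero_le R) 0
          exact .inl ⟨zc_mono F h0.le (by omega) this, not_ring F h0 (by omega) this⟩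
        | @tail x y _ hxy ih =>
          have fin : y ∈ Ann F a b → y ∈ X ∪ T → y ∈ X ∧ y ∈ Ann F a b := by
            intro p q
            rcases Finset.mem_union.1 q with q | q
            · exact ⟨q, p⟩
            · exact absurd ⟨q, p⟩ hxy.2
          rcases ih with ⟨p, q⟩ | ⟨p, q⟩
          · have hy := inner F (by omega) p q hxy.1
            by_cases r : y ∈ Set.range (F.c a)
            · exact .inr (fin (ringA y r) (h1 (by simpa [hA] using r)))
            · exact .inl ⟨hy, r⟩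
          · have hy := inner F hb q.1 (by simpa [hB] using h2 x p) hxy.1
            by_cases r : y ∈ Ann F a b
            · exact .inr (fin r (h3 x p y (by simp [hE, hxy.1, q, r])))
            · left
              by_contra c
              exact r ⟨hy, fun z => by_contra fun w => c ⟨z, w⟩⟩
      intro v hv
      rcases key v hv with h | h
      · exact zc_mono F hab.le hb.le h.1
      · exact h.2.1

/-- the cut components grow strictly -/
theorem grow {a b a' b' : ℕ} {T T' : Set V} (hb : b < a') (ha : a' ≤ R) (hT : T ⊆ Ann F a b)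
    (hT' : T' ⊆ Ann F a' b') (hY : cmp G T (F.c 0 0) ⊆ F.Zc b) :
    cmp G T (F.c 0 0) ⊂ cmp G T' (F.c 0 0) := by
  have off : ∀ v ∈ F.Zc b, v ∉ T' := fun v hv c => ann_out F hb ha (hT' c) hv
  have sub : cmp G T (F.c 0 0) ⊆ cmp G T' (F.c 0 0) := by
    intro v hv
    induction hv with
    | refl => exact .refl
    | tail h1 h2 ih => exact ReflTransGen.tail ih ⟨h2.1, off _ (hY (h1.tail h2))⟩
  refine ⟨sub, fun sup => ?_⟩
  have all : ∀ v, ReflTransGen (fun x y => G.Adj x y ∧ x ∈ Z ∧ y ∈ Z) (F.c 0 0) v →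
      v ∈ cmp G T (F.c 0 0) := by
    intro v hv
    induction hv with
    | refl => exact .refl
    | @tail x y _ h2 ih =>
      by_contra c
      have : y ∈ T := nb_cmp T _ ⟨c, x, ih, h2.1⟩
      exact c (sup (ReflTransGen.tail (sub ih) ⟨h2.1, off _ (hT this).1⟩))
  have := all (F.c R 0) (F.cn.2 _ (zc_sub F 0 (ring_mem F (Nat.zero_le R) 0)) _
    (zc_sub F R (ring_mem F le_rfl 0)))
  exact not_ring F (show b < R by omega) le_rfl (hY this) ⟨0, rfl⟩

end Shell

open Shell in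
theorem shell : ShellSt := by
  intro k n m N R V D _ _ G U Z F hM hR hn
  have bd : ∀ t : Fin (N + 1), 1 + t.val * (n + 1) + n < R := by
    intro t
    have : t.val * (n + 1) ≤ N * (n + 1) := Nat.mul_le_mul_right _ (by omega)
    have e : (N + 1) * (n + 1) = N * (n + 1) + (n + 1) := by ring
    omega
  by_cases h : ∃ a P, a + n ≤ R ∧ Rails F a (a + n) m P
  · exact .inr h
  left
  have h1 : ∀ t : Fin (N + 1), ∃ T ⊆ Ann F (1 + t.val * (n + 1)) (1 + t.val * (n + 1) + n),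
      T.ncard ≤ m ∧ cmp G T (F.c 0 0) ⊆ F.Zc (1 + t.val * (n + 1) + n) := by
    intro t
    rcases one F m (a := 1 + t.val * (n + 1)) (b := 1 + t.val * (n + 1) + n) (by omega)
      (by omega) (bd t) with ⟨P, hP⟩ | hT
    · exact absurd ⟨_, P, (bd t).le, hP⟩ h
    · exact hT
  choose T hT hc hY using h1
  have le : ∀ t, (nb G (cmp G (T t) (F.c 0 0))).ncard ≤ m := fun t =>
    (Set.ncard_le_ncard (nb_cmp _ _) (Set.toFinite _)).trans (hc t)
  have mono : StrictMono fun t => (cmp G (T t) (F.c 0 0)).ncard := by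
    intro t t' l
    refine Set.ncard_lt_ncard (grow F ?_ ?_ (hT t) (hT t') (hY t)) (Set.toFinite _)
    · have : (t.val + 1) * (n + 1) ≤ t'.val * (n + 1) := Nat.mul_le_mul_right _ l
      have e : (t.val + 1) * (n + 1) = t.val * (n + 1) + (n + 1) := by ring
      omega
    · have := bd t'
      omega
  obtain ⟨i, hi⟩ := hM (fun t => cmp G (T t) (F.c 0 0)) le mono.injective
  exact ⟨_, (hY i).trans (zc_sub F _), cn_cmp _ _, le i, hi⟩

end Pool.Agent.Lib.MP_c1f5fe_lc
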