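import Pool.Agent.Lib.MP_c1f5fe_lc.SpecA
import Pool.Agent.Lib.MP_50b5c6_lc.NpQ

/-! Maps of Euler genus zero and planar graphs. -/

namespace Pool.Agent.Lib.MP_c1f5fe_lc

open Equiv Function Relation
open Pool.Agent.Lib.MP_50b5c6_lc.Np (NC Pl)

namespace Star

lemma inv_sc {D B : Type} [Finite D] {π : Perm D} {f : D → B} (h : ∀ d, f (π d) = f d) {d e : D}
    (s : π.SameCycle d e) : f d = f e := by
  obtain ⟨n, -, rfl⟩ := s.exists_pow_eq'
  clear s
  induction n with
  | zero => rfl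
  | succ n ih => rw [pow_succ', Perm.mul_apply, h, ih]

lemma sc_map {D E : Type} [Finite D] {π : Perm D} {ρ : Perm E} (g : D → E)
    (h : ∀ d, ρ.SameCycle (g d) (g (π d))) {d e : D} (s : π.SameCycle d e) :
    ρ.SameCycle (g d) (g e) :=
  Quotient.exact (inv_sc (f := fun d => Quotient.mk (Perm.SameCycle.setoid ρ) (g d))
    (fun d => Quotient.sound (h d).symm) s)

lemma le_ncyc {D B : Type} [Finite D] (π : Perm D) (f : D → B) (hs : Surjective f)
    (h : ∀ d, f (π d) = f d) : Nat.card B ≤ ncyc π :=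
  Nat.card_le_card_of_surjective
    (Quotient.lift (s := Perm.SameCycle.setoid π) f fun _ _ s => inv_sc h s) fun b => by
      obtain ⟨d, rfl⟩ := hs b
      exact ⟨Quotient.mk _ d, rfl⟩

lemma ncyc_le {D B : Type} [Finite D] [Finite B] (π : Perm D) (f : D → B)
    (h : ∀ d, f (π d) = f d) (h' : ∀ d e, f d = f e → π.SameCycle d e) : ncyc π ≤ Nat.card B :=
  Nat.card_le_card_of_injective
    (Quotient.lift (s := Perm.SameCycle.setoid π) f fun _ _ s => inv_sc h s) (by
      rintro ⟨d⟩ ⟨e⟩ k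
      exact Quotient.sound (h' d e k))

lemma sc_invol {D : Type} [Finite D] {b : Perm D} (hb : ∀ x, b (b x) = x) {x y : D}
    (s : b.SameCycle x y) : y = x ∨ y = b x := by
  have h := inv_sc (f := fun x => s(x, b x)) (fun d => by simp only [hb]; exact Sym2.eq_swap) s
  rcases Sym2.eq_iff.1 h with h | h
  · exact .inl h.1.symm
  · exact .inr h.2.symm

lemma base0 (ho : OrdSt) {E : Type} [Finite E] (a b : Perm E) (hb : ∀ x, b (b x) = x)
    (h : eg a b = 0) : Pl fun u v : Quotient (Perm.SameCycle.setoid a) =>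
      u ≠ v ∧ ∃ x, Quotient.mk _ x = u ∧ Quotient.mk _ (b x) = v := by
  classical
  obtain ⟨L, nd, all, n1, n2, -⟩ := ho E a b h
  set p : E → Quotient (Perm.SameCycle.setoid a) := Quotient.mk _ with hp
  let e : E → Sym2 (Quotient (Perm.SameCycle.setoid a)) := fun x => s(p x, p (b x))
  have eb : ∀ x, e (b x) = e x := fun x => by simp only [e, hb]; exact Sym2.eq_swap
  have hc : ∀ s, ∃ c : Option E, (∀ x, c = some x → e x = s) ∧ ∀ x, e x = s → ∃ y, c = some y := by
    intro s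
    by_cases k : ∃ x, e x = s
    · obtain ⟨x, hx⟩ := k
      exact ⟨some x, fun y hy => by cases hy; exact hx, fun _ _ => ⟨x, rfl⟩⟩
    · exact ⟨none, fun _ hy => (nomatch hy), fun x hx => absurd ⟨x, hx⟩ k⟩
  choose c c1 c2 using hc
  let S : E → Prop := fun x => p x ≠ p (b x) ∧ (c (e x) = some x ∨ c (e x) = some (b x))
  have key : ∀ x y, S x → S y → e x = e y → y = x ∨ y = b x := by
    rintro x y ⟨-, h1⟩ ⟨-, h2⟩ k
    rw [← k] at h2
    rcases h1 with h1 | h1 <;> rcases h2 with h2 | h2 <;> rw [h1, Option.some.injEq] at h2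
    · exact .inl h2.symm
    · exact .inr (by rw [h2, hb])
    · exact .inr h2.symm
    · exact .inl (b.injective h2).symm
  have mem : ∀ x, x ∈ L.filter (fun x => S x) ↔ S x := fun x => by simp [all]
  refine ⟨(L.filter fun x => S x).map fun x => (p x, p (b x)), ?_, ?_, ?_, ?_⟩
  · refine (nd.filter _).map_on fun x hx y hy k => ?_
    rw [mem] at hx hy
    rw [Prod.mk.injEq] at k
    rcases key x y hx hy (by simp only [e, k.1, k.2]) with k' | k'
    · exact k'.symm
    · exact absurd (k' ▸ k.1) hx.1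
  · rintro u v ⟨ne, x, rfl, rfl⟩
    obtain ⟨y, hy⟩ := c2 _ x rfl
    have k := c1 _ y hy
    have k1 : p y ≠ p (b y) := by
      rcases Sym2.eq_iff.1 k with k | k <;> rw [k.1, k.2]
      exacts [ne, ne.symm]
    have s1 : S y := ⟨k1, .inl (k ▸ hy)⟩
    have s2 : S (b y) := ⟨by rw [hb]; exact k1.symm, .inr (by rw [eb, hb, k, hy])⟩
    have m1 := List.mem_map_of_mem (f := fun x => (p x, p (b x))) ((mem _).2 s1)
    have m2 := List.mem_map_of_mem (f := fun x => (p x, p (b x))) ((mem _).2 s2)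
    simp only [hb] at m1 m2
    rcases Sym2.eq_iff.1 k with k | k <;> rw [k.1, k.2] at m1 m2
    exacts [⟨m1, m2⟩, ⟨m2, m1⟩]
  · exact NC.map (n1.sub List.filter_sublist)
  · refine NC.map ((n2.sub List.filter_sublist).congr fun x hx y hy => ⟨fun k => ?_, fun k => ?_⟩)
    · exact inv_sc eb (Quotient.exact k)
    · rcases key x y ((mem _).1 hx) ((mem _).1 hy) k with rfl | rfl
      · rfl
      · exact Quotient.sound ⟨1, by simp⟩

lemma base (ho : OrdSt) {E Y : Type} [Finite E] (a b : Perm E) (hb : ∀ x, b (b x) = x)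
    (h : eg a b = 0) (l : E → Option Y) (h1 : ∀ x, l (a x) = l x)
    (h2 : ∀ x y v, l x = some v → l y = some v → a.SameCycle x y) (R : Y → Y → Prop)
    (hR : ∀ y z, R y z → y ≠ z ∧ ∃ x, l x = some y ∧ l (b x) = some z) : Pl R := by
  refine MP_50b5c6_lc.Np.minor _ Y _ R
    (Quotient.lift (s := Perm.SameCycle.setoid a) l fun _ _ s => inv_sc h1 s) ?_ ?_
    (base0 ho a b hb h)
  · rintro ⟨x⟩ ⟨y⟩ v k k'
    have e : Quot.mk (Perm.SameCycle.setoid a) x = Quot.mk (Perm.SameCycle.setoid a) y :=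
      Quot.sound (h2 x y v k k')
    exact e ▸ ReflTransGen.refl
  · intro y z k
    obtain ⟨ne, x, k1, k2⟩ := hR y z k
    refine ⟨ne, Quotient.mk _ x, Quotient.mk _ (b x), .inl ⟨fun e => ne ?_, x, rfl, rfl⟩, k1, k2⟩
    exact Option.some.inj (k1.symm.trans ((inv_sc h1 (Quotient.exact e)).trans k2))

variable {D : Type} (M : HMap D)

/-- rotation of the map with a centre in every face -/
def sa : Perm (D ⊕ D ⊕ D) where
  toFun := Sum.elim (fun d => .inr (.inl (M.σ d)))
    (Sum.elim (fun d => .inl d) fun d => .inr (.inr (M.φ⁻¹ d)))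
  invFun := Sum.elim (fun d => .inr (.inl d))
    (Sum.elim (fun d => .inl (M.σ⁻¹ d)) fun d => .inr (.inr (M.φ d)))
  left_inv := by rintro (d | d | d) <;> simp
  right_inv := by rintro (d | d | d) <;> simp

/-- reversal of the darts -/
def sb : Perm (D ⊕ D ⊕ D) := Perm.sumCongr M.α (Equiv.sumComm D D)

lemma sa0 (d : D) : sa M (.inl d) = .inr (.inl (M.σ d)) := rfl
lemma sa1 (d : D) : sa M (.inr (.inl d)) = .inl d := rfl
lemma sa2 (d : D) : sa M (.inr (.inr d)) = .inr (.inr (M.φ⁻¹ d)) := rfl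
lemma sb0 (d : D) : sb M (.inl d) = .inl (M.α d) := rfl
lemma sb1 (d : D) : sb M (.inr (.inl d)) = .inr (.inr d) := rfl
lemma sb2 (d : D) : sb M (.inr (.inr d)) = .inr (.inl d) := rfl

lemma sbb (x : D ⊕ D ⊕ D) : sb M (sb M x) = x := by
  rcases x with d | d | d
  · rw [sb0, sb0, M.αα]
  · rfl
  · rfl

lemma s_eg (h1 : K1) [Finite D] (h : M.eg = 0) : eg (sa M) (sb M) = 0 := by
  refine le_antisymm ?_ (h1.eg_nonneg _ _)
  have e1 := le_ncyc (sa M) (Sum.map (Quotient.mk (Perm.SameCycle.setoid M.σ)) id ∘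
      Sum.elim .inl (Sum.elim .inl fun d => .inr (Quotient.mk (Perm.SameCycle.setoid M.φ) d)))
    (by
      rintro (⟨⟨d⟩⟩ | ⟨⟨d⟩⟩)
      exacts [⟨.inl d, rfl⟩, ⟨.inr (.inr d), rfl⟩])
    (by
      rintro (d | d | d)
      · exact congrArg Sum.inl (Quotient.sound ⟨-1, by simp⟩)
      · rfl
      · exact congrArg Sum.inr (Quotient.sound ⟨1, by simp⟩))
  have e2 := le_ncyc (sb M)
    (Sum.map (Quotient.mk (Perm.SameCycle.setoid M.α)) (Sum.elim id id))
    (by
      rintro (⟨⟨d⟩⟩ | d)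
      exacts [⟨.inl d, rfl⟩, ⟨.inr (.inr d), rfl⟩])
    (by
      rintro (d | d | d)
      · exact congrArg Sum.inl (Quotient.sound ⟨-1, by simp⟩)
      · rfl
      · rfl)
  have e3 := le_ncyc (sa M * sb M) (Sum.elim id (Sum.elim (fun d => M.φ⁻¹ d) id))
    (fun d => ⟨.inl d, rfl⟩)
    (by
      rintro (d | d | d)
      · simp [sa0, sb0, M.σ_apply, M.αα]
      · rfl
      · rfl)
  have e4 : ncomp (sa M) (sb M) ≤ ncomp M.φ M.α := by
    have ra : ∀ x, Conn (sa M) (sb M) x (sa M x) := fun x => .rel _ _ (.inl rfl)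
    have rb : ∀ x, Conn (sa M) (sb M) x (sb M x) := fun x => .rel _ _ (.inr rfl)
    refine Nat.card_le_card_of_surjective (Quotient.map' (fun d => Sum.inl d) ?_) ?_
    · intro d e k
      induction k with
      | rel d e k =>
        rcases k with rfl | rfl
        · have k := ((rb (.inl d)).trans _ _ _ (ra _)).trans _ _ _ (ra _)
          rwa [sb0, sa0, sa1, M.σ_apply, M.αα] at k
        · exact rb (.inl d)
      | refl d => exact .refl _
      | symm d e _ k => exact k.symm _ _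
      | trans d e f _ _ k k' => exact k.trans _ _ _ k'
    · rintro ⟨d | d | d⟩
      · exact ⟨Quotient.mk'' d, rfl⟩
      · exact ⟨Quotient.mk'' d, Quot.sound ((ra (.inr (.inl d))).symm _ _)⟩
      · exact ⟨Quotient.mk'' d, Quot.sound (((rb (.inr (.inr d))).trans _ _ _ (ra _)).symm _ _)⟩
  simp only [Nat.card_sum] at e1 e2
  change ncyc M.σ + ncyc M.φ ≤ _ at e1
  change ncyc M.α + _ ≤ _ at e2
  simp only [HMap.eg, eg, chi, Nat.card_sum, HMap.σ] at h e1 ⊢
  push_cast
  omega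

end Star

theorem star (h1 : K1) (ho : OrdSt) : StarSt := by
  intro D V _ M vx h hσ hc
  have s0 : ∀ d e, M.σ.SameCycle d e → (Star.sa M).SameCycle (.inl d) (.inl e) := fun d e s =>
    Star.sc_map (ρ := Star.sa M) Sum.inl (fun d => ⟨(2 : ℕ), by rw [zpow_natCast, sq]; rfl⟩) s
  have s1 : ∀ d, (Star.sa M).SameCycle (.inr (.inl d)) (.inl d) := fun d => ⟨1, rfl⟩
  have s2 : ∀ d e, M.φ.SameCycle d e → (Star.sa M).SameCycle (.inr (.inr d)) (.inr (.inr e)) :=
    fun d e s => Star.sc_map (ρ := Star.sa M) (fun d => .inr (.inr d))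
      (fun d => Perm.SameCycle.symm ⟨1, by simp [Star.sa2]⟩) s
  refine Star.base ho (Star.sa M) (Star.sb M) (Star.sbb M) (Star.s_eg M h1 h)
    (Sum.elim (fun d => (vx d).map .inl) (Sum.elim (fun d => (vx d).map .inl)
      fun d => some (.inr (Quotient.mk _ d)))) ?_ ?_ _ ?_
  · rintro (d | d | d)
    · simp [Star.sa0, hσ]
    · rfl
    · exact congrArg (fun q => some (Sum.inr q)) (Quotient.sound ⟨1, by simp⟩)
  · rintro (d | d | d) (e | e | e) (v | v) k k' <;> simp at k k'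
    · exact s0 _ _ (hc d e v k k')
    · exact (s0 _ _ (hc d e v k k')).trans (s1 e).symm
    · exact (s1 d).trans (s0 _ _ (hc d e v k k'))
    · exact ((s1 d).trans (s0 _ _ (hc d e v k k'))).trans (s1 e).symm
    · exact s2 _ _ (Quotient.exact (k.trans k'.symm))
  · intro y z k
    refine ⟨k.ne, ?_⟩
    rcases k.2 with (⟨d, u, v, k1, k2, rfl, rfl⟩ | ⟨d, u, k1, rfl, rfl⟩) |
      ⟨d, u, v, k1, k2, rfl, rfl⟩ | ⟨d, u, k1, rfl, rfl⟩
    · exact ⟨.inl d, by simp [k1], by simp [Star.sb0, k2]⟩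
    · exact ⟨.inr (.inl d), by simp [k1], rfl⟩
    · exact ⟨.inl (M.α d), by simp [k2], by simp [Star.sb0, M.αα, k1]⟩
    · exact ⟨.inr (.inr d), rfl, by simp [Star.sb2, k1]⟩

namespace Star

lemma unord' (h1 : K1) (hu : UnordSt) {D B C : Type} [Finite D] (L : List D) (f : D → B)
    (g : D → C) (nd : L.Nodup) (all : ∀ d, d ∈ L) (n1 : NC f L) (n2 : NC g L) :
    ∃ a b : Perm D, (∀ d, f (a d) = f d) ∧ (∀ d e, f d = f e → a.SameCycle d e) ∧
      (∀ d, g (b d) = g d) ∧ (∀ d e, b d = d → g e = g d → e = d) ∧ eg a b = 0 := by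
  classical
  obtain ⟨⟨a, ha⟩, ⟨b, hb⟩, h⟩ := hu D B C L f g nd all n1 n2
  have sc : ∀ d e, L.formPerm.SameCycle d e := fun d e =>
    nd.isCycleOn_formPerm.2 (all d) (all e)
  have fa : ∀ d, f (a d) = f d := fun d => by
    obtain ⟨_, _, _, k, _⟩ := ha d
    exact k
  refine ⟨a, b, fa, fun d e k => ?_, fun d => (hb d).2, fun d e k k' => ?_, h a b ha hb⟩
  · obtain ⟨n, -, rfl⟩ :=
      ((h1.sc_ret L.formPerm (fun x => f x = f d) d e rfl k.symm).2 (sc d e)).exists_pow_eq'
    clear k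
    have : ∀ n : ℕ, (ret L.formPerm (fun x => f x = f d) ^ n) d = (a ^ n) d ∧
        f ((a ^ n) d) = f d := by
      intro n
      induction n with
      | zero => exact ⟨rfl, rfl⟩
      | succ n ih =>
        rw [pow_succ', pow_succ', Perm.mul_apply, Perm.mul_apply, ih.1, fa]
        refine ⟨(ret_nxt L.formPerm (Q := fun x => f x = f d) ih.2).unique ?_, ih.2⟩
        have := ha ((a ^ n) d)
        rwa [ih.2] at this
    exact ⟨n, by rw [zpow_natCast, (this n).1]⟩
  · obtain ⟨n, n0, e1, -, e2⟩ := (hb d).1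
    rw [k] at e1 e2
    obtain ⟨m, -, rfl⟩ := (sc d e).exists_pow_eq'
    have e3 : (L.formPerm ^ m) d = (L.formPerm ^ (m % n)) d := by
      conv_lhs => rw [← Nat.mod_add_div m n, pow_add, pow_mul, Perm.mul_apply,
        Perm.pow_apply_eq_self_of_apply_eq_self e1]
    rw [e3] at k' ⊢
    rcases Nat.eq_zero_or_pos (m % n) with h0 | h0
    · rw [h0]; rfl
    · exact absurd k' (e2 _ h0 (Nat.mod_lt _ n0))

/-- reversal of the darts of a graph -/
def rev {V : Type} (G : SimpleGraph V) : Perm G.Dart :=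
  Function.Involutive.toPerm SimpleGraph.Dart.symm SimpleGraph.Dart.symm_involutive

lemma rev_apply {V : Type} (G : SimpleGraph V) (d : G.Dart) : rev G d = d.symm := rfl

lemma of_pl (h1 : K1) (hu : UnordSt) {V : Type} [Finite V] (G : SimpleGraph V) (h : Pl G.Adj) :
    ∃ a : Perm G.Dart, (∀ d, (a d).fst = d.fst) ∧ (∀ d e, d.fst = e.fst → a.SameCycle d e) ∧
      eg a (rev G) = 0 := by
  classical
  obtain ⟨L, nd, all, n1, n2⟩ := h
  have ex : ∀ L : List (V × V), ∃ L' : List G.Dart, (L'.map fun d => d.toProd).Sublist L ∧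
      ∀ d : G.Dart, d.toProd ∈ L → d ∈ L' := by
    intro L
    induction L with
    | nil => exact ⟨[], .slnil, fun _ h => by cases h⟩
    | cons p L ih =>
      obtain ⟨L', s, m⟩ := ih
      by_cases k : G.Adj p.1 p.2
      · refine ⟨⟨p, k⟩ :: L', s.cons_cons p, fun d hd => ?_⟩
        rcases List.mem_cons.1 hd with e | e
        · exact List.mem_cons.2 (.inl (SimpleGraph.Dart.ext _ _ e))
        · exact List.mem_cons_of_mem _ (m d e)
      · refine ⟨L', s.cons p, fun d hd => ?_⟩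
        rcases List.mem_cons.1 hd with e | e
        · exact absurd (e ▸ d.adj) k
        · exact m d e
  obtain ⟨L', s, m⟩ := ex L
  have : Finite G.Dart := Finite.of_injective _ SimpleGraph.Dart.toProd_injective
  obtain ⟨a, b, a1, a2, b1, b2, h⟩ := unord' h1 hu L' (fun d => d.fst) (fun d => s(d.fst, d.snd))
    (nd.sublist s).of_map (fun d => m d (all _ _ d.adj).1)
    (fun a b c d k => n1 _ _ _ _ ((k.map fun d : G.Dart => d.toProd).trans s))
    (fun a b c d k => n2 _ _ _ _ ((k.map fun d : G.Dart => d.toProd).trans s))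
  refine ⟨a, a1, a2, ?_⟩
  rwa [show rev G = b from Equiv.ext fun d => ?_]
  rcases Sym2.eq_iff.1 (b1 d) with k | k
  · exact absurd (b2 d d.symm (SimpleGraph.Dart.ext _ _ (Prod.ext k.1 k.2)) Sym2.eq_swap) d.symm_ne
  · exact SimpleGraph.Dart.ext _ _ (Prod.ext k.1.symm k.2.symm)

lemma long' (h1 : K1) {D : Type} [Finite D] (a : Perm D) (n : ℕ)
    (h : ∀ x, ∀ j : ℕ, 0 < j → j < n → (a ^ j) x ≠ x) : n * ncyc a ≤ Nat.card D := by
  have k := h1.long a (fun _ => True) n fun x _ => h x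
  rwa [h1.on_eq_at _ _ fun _ => Iff.rfl, h1.at_univ, Nat.card_congr (Equiv.subtypeUnivEquiv
    fun _ => trivial)] at k

lemma two_le {D : Type} [Finite D] [Nonempty D] {a b : Perm D} (h : eg a b = 0) : 2 ≤ chi a b := by
  have : 0 < ncomp a b := Nat.card_pos_iff.2 ⟨⟨Quotient.mk _ (Classical.arbitrary D)⟩, inferInstance⟩
  unfold eg at h
  omega

lemma euler (h1 : K1) (hu : UnordSt) {V : Type} [Finite V] (G : SimpleGraph V) (h : Pl G.Adj)
    [Nonempty G.Dart] (deg : ∀ v w, ∃ u, G.Adj v u ∧ u ≠ w) (n : ℕ) (hn : n ≤ 4)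
    (tri : n = 4 → ∀ u v w, G.Adj u v → G.Adj v w → ¬G.Adj w u) :
    ∃ e f : ℕ, 2 * e ≤ Nat.card G.Dart ∧ n * f ≤ Nat.card G.Dart ∧
      2 + Nat.card G.Dart ≤ Nat.card V + e + f := by
  obtain ⟨a, a1, a2, h⟩ := of_pl h1 hu G h
  have : Finite G.Dart := Finite.of_injective _ SimpleGraph.Dart.toProd_injective
  have fs : ∀ d, ((a * rev G) d).fst = d.snd := fun d => a1 _
  refine ⟨ncyc (rev G), ncyc (a * rev G), long' h1 _ 2 fun x j j0 j2 => ?_,
    long' h1 _ n fun x j j0 jn k => ?_, ?_⟩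
  · obtain rfl : j = 1 := by omega
    exact x.symm_ne
  · obtain rfl | rfl | rfl : j = 1 ∨ j = 2 ∨ j = 3 := by omega
    · exact x.adj.ne ((congrArg (·.fst) k).symm.trans (fs x))
    · have k1 : (a * rev G) x = x.symm := SimpleGraph.Dart.ext _ _
        (Prod.ext (fs x) ((fs _).symm.trans (congrArg (·.fst) k)))
      obtain ⟨u, hu, ne⟩ := deg x.snd x.fst
      have k2 := (a2 x.symm ⟨(x.snd, u), hu⟩ rfl).eq_of_left k1
      exact ne (congrArg (·.snd) k2).symm
    · have e1 := ((a * rev G) x).adj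
      have e2 := ((a * rev G) ((a * rev G) x)).adj
      have e3 : ((a * rev G) ((a * rev G) x)).snd = x.fst :=
        (fs _).symm.trans (congrArg (·.fst) k)
      rw [fs] at e1 e2
      rw [e3] at e2
      exact tri (by omega) _ _ _ x.adj e1 e2
  · have k1 := two_le h
    have k2 := ncyc_le a (fun d => d.fst) a1 a2
    unfold chi at k1
    omega

lemma minor' {V I : Type} (G : SimpleGraph V) (β : I → Set V) (hc : ∀ i, Cn G (β i))
    (hd : Pairwise (Disjoint on β)) (H : SimpleGraph I)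
    (ht : ∀ i j, H.Adj i j → Tch G (β i) (β j) ∨ Tch G (β j) (β i)) (h : Pl G.Adj) :
    Pl H.Adj := by
  classical
  have ex : ∀ v, ∃ o : Option I, ∀ i, o = some i ↔ v ∈ β i := by
    intro v
    by_cases k : ∃ i, v ∈ β i
    · obtain ⟨i, hi⟩ := k
      refine ⟨some i, fun j => ⟨fun e => by cases e; exact hi, fun hj => ?_⟩⟩
      by_contra ne
      exact Set.disjoint_left.1 (hd fun e => ne (congrArg some e)) hi hj
    · exact ⟨none, fun j => ⟨fun e => (nomatch e), fun hj => absurd ⟨j, hj⟩ k⟩⟩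
  choose φ hφ using ex
  refine MP_50b5c6_lc.Np.minor V I G.Adj H.Adj φ (fun a b y ha hb => ?_) (fun y z k => ⟨k.ne, ?_⟩) h
  · exact ReflTransGen.mono (fun p q k => ⟨.inl k.1, (hφ _ _).2 k.2.1, (hφ _ _).2 k.2.2⟩) _ _
      ((hc y).2 a ((hφ _ _).1 ha) b ((hφ _ _).1 hb))
  · rcases ht y z k with ⟨u, hu, v, hv, e⟩ | ⟨u, hu, v, hv, e⟩
    · exact ⟨u, v, .inl e, (hφ _ _).2 hu, (hφ _ _).2 hv⟩
    · exact ⟨v, u, .inr e, (hφ _ _).2 hv, (hφ _ _).2 hu⟩

lemma card_dart {V : Type} [Fintype V] (G : SimpleGraph V) [DecidableRel G.Adj] :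
    Nat.card G.Dart = (Finset.univ.filter fun p : V × V => G.Adj p.1 p.2).card := by
  rw [← Fintype.card_subtype, ← Nat.card_eq_fintype_card]
  exact Nat.card_congr ⟨fun d => ⟨d.toProd, d.adj⟩, fun p => ⟨p.1, p.2⟩, fun _ => rfl, fun _ => rfl⟩

lemma k5 (h1 : K1) (hu : UnordSt) : ¬Pl (⊤ : SimpleGraph (Fin 5)).Adj := by
  intro h
  have : Nonempty (⊤ : SimpleGraph (Fin 5)).Dart := ⟨⟨(0, 1), by decide⟩⟩
  obtain ⟨e, f, k1, k2, k3⟩ := euler h1 hu _ h (by decide) 3 (by omega) (by omega)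
  have c : Nat.card (⊤ : SimpleGraph (Fin 5)).Dart = 20 := by rw [card_dart]; decide
  rw [Nat.card_fin] at k3
  omega

/-- the complete bipartite graph -/
def kb : SimpleGraph (Fin 3 ⊕ Fin 3) where
  Adj x y := x.isLeft ≠ y.isLeft
  symm := ⟨fun _ _ h => h.symm⟩
  loopless := ⟨fun _ h => h rfl⟩

instance : DecidableRel kb.Adj := fun x y => inferInstanceAs (Decidable (x.isLeft ≠ y.isLeft))

lemma k33 (h1 : K1) (hu : UnordSt) : ¬Pl kb.Adj := by
  intro h
  have : Nonempty kb.Dart := ⟨⟨(.inl 0, .inr 0), by decide⟩⟩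
  obtain ⟨e, f, k1, k2, k3⟩ := euler h1 hu _ h (by decide) 4 le_rfl (fun _ => by decide)
  have c : Nat.card kb.Dart = 18 := by rw [card_dart]; decide
  rw [Nat.card_sum, Nat.card_fin] at k3
  omega

lemma valid0 {V D : Type} {G : SimpleGraph V} {U : Set V} (S : Sk 0 G U D) :
    S.Valid fun _ => 1 :=
  ⟨⟨fun _ => inv_one.symm, ⟨fun _ => 1, fun _ _ => one_mul _⟩, fun i => i.elim0, fun i => i.elim0,
    fun i => i.elim0, fun i => i.elim0⟩, fun _ _ => by simp [labs], fun _ _ i => i.elim0⟩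

lemma sol (h1 : K1) (hu : UnordSt) {V : Type} [Finite V] (G : SimpleGraph V) (h : Pl G.Adj)
    (hc : G.Preconnected) : Sol 0 G ∅ := by
  rcases isEmpty_or_nonempty G.Dart with k | k
  · refine ⟨Unit, inferInstance,
      { φ := 1, α := 1, αα := fun _ => rfl, vx := fun _ => none, real := fun _ => False,
        term := fun i => i.elim0, ok := fun _ _ => False, vx_σ := fun _ => rfl,
        vx_cyc := fun _ _ _ h => by cases h
        real_α := fun _ h => h, real_adj := fun _ h => h.elim,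
        real_ex := fun u v h => k.elim ⟨(u, v), h⟩, term_vx := fun i => i.elim0,
        term_four := fun i => i.elim0, ok_symm := fun _ _ h => h, ok_idx := fun _ _ _ h => h,
        ok_once := fun _ _ _ _ _ h => h.elim, cap := fun _ _ _ h => h.elim }, _,
      ⟨fun _ _ => .refl _, ?_⟩, valid0 _⟩
    simp [HMap.chi, chi, h1.ncyc_one]
  obtain ⟨a, a1, a2, h⟩ := of_pl h1 hu G h
  have : Finite G.Dart := Finite.of_injective _ SimpleGraph.Dart.toProd_injective
  have rr : a * rev G * rev G = a := Equiv.ext fun d => by simp [rev_apply]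
  have h' : eg (a * rev G) (rev G) = 0 := (h1.eg_mul a (rev G)).trans h
  refine ⟨G.Dart, inferInstance,
    { φ := a * rev G, α := rev G, αα := fun d => d.symm_symm, vx := fun d => some d.fst,
      real := fun _ => True, term := fun i => i.elim0, ok := fun _ _ => False,
      vx_σ := fun d => congrArg some (a1 _),
      vx_cyc := fun d e v k k' => by
        change (a * rev G * rev G).SameCycle d e
        rw [rr]
        exact a2 d e (Option.some.inj (k.trans k'.symm))
      real_α := fun _ h => h, real_adj := fun d _ => ⟨_, _, rfl, rfl, d.adj⟩,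
      real_ex := fun u v h => ⟨⟨(u, v), h⟩, ⟨trivial, rfl, rfl⟩, fun d hd =>
        SimpleGraph.Dart.ext _ _ (Prod.ext (Option.some.inj hd.2.1) (Option.some.inj hd.2.2))⟩,
      term_vx := fun i => i.elim0,
      term_four := fun i => i.elim0, ok_symm := fun _ _ h => h, ok_idx := fun _ _ _ h => h,
      ok_once := fun _ _ _ _ _ h => h.elim, cap := fun _ _ _ h => h.elim }, _,
    ⟨fun d e => ?_, by simpa [HMap.chi] using two_le h'⟩, valid0 _⟩
  change Conn (a * rev G) (rev G) d e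
  have same : ∀ d e : G.Dart, d.fst = e.fst → Conn (a * rev G) (rev G) d e := fun d e k =>
    h1.conn_sc _ _ _ _ (.inr (.inr (.inl (by rw [rr]; exact a2 d e k))))
  obtain ⟨p⟩ := hc d.fst e.fst
  generalize hu' : d.fst = u at p
  generalize hv' : e.fst = v at p
  induction p generalizing d with
  | nil => exact same d e (hu'.trans hv'.symm)
  | @cons u w v adj p ih =>
    exact ((same d ⟨(u, w), adj⟩ hu').trans _ _ _ (.rel _ _ (.inr rfl))).trans _ _ _
      (ih _ rfl hv')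

end Star

theorem nonpl (h1 : K1) (h2 : K2) (hu : UnordSt) (hs : StarSt) : NonPl where
  k5 G β hc hd ht h := Star.k5 h1 hu (Star.minor' G β hc hd ⊤ (fun i j k =>
    (lt_or_gt_of_ne k.ne).imp (ht i j) (ht j i)) h)
  k33 G β hc hd ht h := Star.k33 h1 hu (Star.minor' G β hc hd Star.kb (by
    rintro (i | i) (j | j) k
    exacts [absurd rfl k, .inl (ht i j), .inr (ht j i), absurd rfl k]) h)
  sol G h hc := Star.sol h1 hu G h hc
  plon := by
    rintro k V D _ G U S Z ⟨D₀, _, M₀, ι, sub, h⟩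
    refine MP_50b5c6_lc.Np.minor _ V _ _ (Sum.elim some fun _ => none) ?_ ?_
      (hs D₀ V M₀ (fun x => S.vx (ι x)) h (fun x => ?_) fun x y v a b => ?_)
    · rintro (a | a) (b | b) y ha hb <;> cases ha <;> cases hb
      exact .refl
    · rintro y z ⟨adj, hy, hz⟩
      obtain ⟨d, ⟨-, k1, k2⟩, -⟩ := S.real_ex y z adj
      obtain ⟨x, rfl⟩ := (sub.range d).1 ⟨y, z, ⟨k1, k2⟩, adj, hy, hz⟩
      exact ⟨adj.ne, .inl y, .inl z, .inl ⟨fun e => adj.ne (Sum.inl.inj e),
        .inl (.inl ⟨x, y, z, k1, (congrArg S.vx (sub.al x)).trans k2, rfl, rfl⟩)⟩, rfl, rfl⟩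
    · obtain ⟨n, -, e, -⟩ := sub.si x
      exact (Star.inv_sc (π := S.toHMap.σ) S.vx_σ ⟨n, e⟩).symm
    · exact (h2.sub_sc _ _ _ _ x y sub).2 (S.vx_cyc _ _ v a b)

end Pool.Agent.Lib.MP_c1f5fe_lc
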