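import Pool.Agent.Lib.MP_c1f5fe_lc.TB1c
import Pool.Agent.Lib.MP_c1f5fe_lc.E1

/-! Short reconnection of the curves across a path. -/

namespace Pool.Agent.Lib.MP_c1f5fe_lc

open Equiv Function Relation Sel

namespace TB1

variable {k : ℕ} {V D : Type} {G : SimpleGraph V} {U : Set V} [Finite D]

section defs
variable (S : Sk k G U D) (w : D → FG k) (dd : ℕ → D) (r : ℕ) (H : HMap (Seg w))
  (fs : Perm (Seg w))

def Bk (g₁ g₂ s : ℕ) : Prop :=
  s = 0 ∨ s = (pw w dd r).length ∨ s = g₁ ∨ s = g₂ ∨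
    ∃ p, (∃ x, Pt S w dd r p x ∧ (Cst S w dd r H fs p ∨ ¬Good S w dd r H (fs x))) ∧
      (s = p.2 ∨ s = p.2 + 1)

open Classical in
noncomputable def nu (p : Bool × ℕ) : Bool × ℕ :=
  if h : ∃ q x y, Pt S w dd r p x ∧ Ar H fs (QD S dd r) x y ∧ Pt S w dd r q y then h.choose else p

def val (Kp : Bool × ℕ → Prop) (y : Seg w) : Prop := ∀ p, Pt S w dd r p y → Kp p

def PP (Kp : Bool × ℕ → Prop) (x : Seg w) : Prop :=
  (QD S dd r x.1.1 → val S w dd r Kp x) ∧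
    (¬QD S dd r x.1.1 → ∀ y, Ar H fs (QD S dd r) x y → val S w dd r Kp y)

def PD (Kp : Bool × ℕ → Prop) (d : D) (j : ℕ) : Prop :=
  ∀ x : Seg w, x.1 = (d, j) → PP S w dd r H fs Kp x

def Rg (s : ℕ) (z : Seg w) : Prop :=
  ∃ x, Gp S w dd r true s x ∧ H.Reg (fun z => QD S dd r z.1.1) x z

end defs

variable {S : Sk k G U D} {w : D → FG k} {dd : ℕ → D} {r : ℕ} {H : HMap (Seg w)}
  {fs μ : Perm (Seg w)} {g₁ g₂ : ℕ} {Kp : Bool × ℕ → Prop}

omit [Finite D] in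
theorem nu_eq (sp : SPath S dd r) {p q : Bool × ℕ} {x y : Seg w} (h : Pt S w dd r p x)
    (a : Ar H fs (QD S dd r) x y) (h' : Pt S w dd r q y) : nu S w dd r H fs p = q := by
  have ex : ∃ q x y, Pt S w dd r p x ∧ Ar H fs (QD S dd r) x y ∧ Pt S w dd r q y :=
    ⟨q, x, y, h, a, h'⟩
  unfold nu
  rw [dif_pos ex]
  obtain ⟨x', y', h1, a', h2⟩ := ex.choose_spec
  obtain rfl := h.uniq h1
  obtain rfl := a.unique a'
  exact h2.uniq' sp h'

omit [Finite D] in
theorem pd_iff (x : Seg w) : PD S w dd r H fs Kp x.1.1 x.1.2 ↔ PP S w dd r H fs Kp x :=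
  ⟨fun h => h x rfl, fun h y e => (Subtype.ext e : y = x) ▸ h⟩

omit [Finite D] in
theorem val_pt (sp : SPath S dd r) {p : Bool × ℕ} {x : Seg w} (h : Pt S w dd r p x) :
    val S w dd r Kp x ↔ Kp p :=
  ⟨fun v => v p h, fun v q hq => h.uniq' sp hq ▸ v⟩

omit [Finite D] in
theorem pp_q {x : Seg w} (q : QD S dd r x.1.1) : PP S w dd r H fs Kp x ↔ val S w dd r Kp x :=
  ⟨fun h => h.1 q, fun h => ⟨fun _ => h, fun n => absurd q n⟩⟩

omit [Finite D] in
theorem pp_n {x y : Seg w} (q : ¬QD S dd r x.1.1) (a : Ar H fs (QD S dd r) x y) :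
    PP S w dd r H fs Kp x ↔ val S w dd r Kp y :=
  ⟨fun h => h.2 q y a, fun h => ⟨fun n => absurd n q, fun _ _ a' => a.unique a' ▸ h⟩⟩

omit [Finite D] in
theorem Rg.trans {s : ℕ} {x y : Seg w} (h : Rg S w dd r H s x)
    (R : H.Reg (fun z => QD S dd r z.1.1) x y) : Rg S w dd r H s y :=
  h.imp fun _ h => ⟨h.1, EqvGen.trans _ _ _ h.2 R⟩

section
variable (C : Cut S w H fs μ) (hw : S.Pre w) (sp : SPath S dd r)
  (red : (FreeGroup.mk (pw w dd r)).toWord = pw w dd r)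
include C hw sp

omit hw sp [Finite D] in
theorem reg_φ (d : D) : H.Reg (fun z => QD S dd r z.1.1) (sgn w d) (sg0 w (S.φ d)) :=
  EqvGen.rel _ _ (Or.inl (φ_sgn C d).symm)

include red in
theorem bk_card (k1 : K1) (k5 : K5) : {s | Bk S w dd r H fs g₁ g₂ s}.Finite ∧
    {s | Bk S w dd r H fs g₁ g₂ s}.ncard ≤ 352 * k + 36 := by
  obtain ⟨f, c⟩ := bp_card C hw sp red k1 k5
  set BP := {p | ∃ x, Pt S w dd r p x ∧ (Cst S w dd r H fs p ∨ ¬Good S w dd r H (fs x))}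
  have e : {s | Bk S w dd r H fs g₁ g₂ s} = insert 0 (insert (pw w dd r).length (insert g₁
      (insert g₂ ((fun p => p.2) '' BP ∪ (fun p => p.2 + 1) '' BP)))) := by
    ext s
    simp only [Bk, Set.mem_setOf_eq, Set.mem_insert_iff, Set.mem_union, Set.mem_image,
      and_or_left, exists_or, BP, eq_comm (a := s)]
  rw [e]
  refine ⟨(((((f.image _).union (f.image _)).insert _).insert _).insert _).insert _, ?_⟩
  refine (Set.ncard_insert_le _ _).trans (Nat.succ_le_succ ((Set.ncard_insert_le _ _).trans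
    (Nat.succ_le_succ ((Set.ncard_insert_le _ _).trans (Nat.succ_le_succ
      ((Set.ncard_insert_le _ _).trans (Nat.succ_le_succ
        ((Set.ncard_union_le _ _).trans ?_))))))))
  have h1 := Set.ncard_image_le (f := fun p : Bool × ℕ => p.2) f
  have h2 := Set.ncard_image_le (f := fun p : Bool × ℕ => p.2 + 1) f
  omega

theorem nu_inv (p : Bool × ℕ) (c : ¬Cst S w dd r H fs p) :
    (nu S w dd r H fs p).2 < (pw w dd r).length ∧ ¬Cst S w dd r H fs (nu S w dd r H fs p) ∧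
      nu S w dd r H fs (nu S w dd r H fs p) = p ∧ nu S w dd r H fs p ≠ p ∧
      ptl (pw w dd r) (nu S w dd r H fs p) = (ptl (pw w dd r) p).map linv := by
  obtain ⟨q, x, y, hx, a, hy⟩ := not_not.1 c
  rw [nu_eq sp hx a hy]
  obtain ⟨-, l, a'⟩ := hx.back C hw sp a
  rw [hy.slet hw] at l
  refine ⟨hy.lt, not_not.2 ⟨p, y, x, hy, a', hx⟩, nu_eq sp hy a' hx, ?_, l⟩
  rintro rfl
  have := slet_lt.1 (hx.isLt hw)
  rw [hx.slet hw] at this
  obtain ⟨u, e⟩ := Option.ne_none_iff_exists'.1 this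
  rw [e] at l
  exact linv_ne u (Option.some.inj l).symm

include red in
theorem nu_fol (p q : Bool × ℕ) (hp : p.2 < (pw w dd r).length) (hq : q.2 < (pw w dd r).length)
    (f : Fol p q) (b : ¬Bk S w dd r H fs g₁ g₂ (max p.2 q.2)) :
    ¬Cst S w dd r H fs p ∧ ¬Cst S w dd r H fs q ∧
      Fol (nu S w dd r H fs q) (nu S w dd r H fs p) := by
  obtain ⟨x, hx⟩ := pt_ex (S := S) hw hp
  obtain ⟨x', hx'⟩ := pt_ex (S := S) hw hq
  have m : (max p.2 q.2 = p.2 ∨ max p.2 q.2 = p.2 + 1) ∧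
      (max p.2 q.2 = q.2 ∨ max p.2 q.2 = q.2 + 1) := by
    have := f.2
    split_ifs at this <;> omega
  have g : Good S w dd r H (fs x) := by
    by_contra n
    exact b (Or.inr (Or.inr (Or.inr (Or.inr ⟨p, ⟨x, hx, Or.inr n⟩, m.1⟩))))
  have c : ¬Cst S w dd r H fs q := fun n =>
    b (Or.inr (Or.inr (Or.inr (Or.inr ⟨q, ⟨x', hx', Or.inl n⟩, m.2⟩))))
  obtain ⟨q', x'', y', h1, a, h2⟩ := not_not.1 c
  obtain rfl := hx'.uniq h1
  obtain ⟨p', y, hy, f', a'⟩ := good_fol C hw sp red hx hx' f a g h2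
  refine ⟨not_not.2 ⟨p', x, y, hx, a', hy⟩, c, ?_⟩
  rw [nu_eq sp hx' a h2, nu_eq sp hx a' hy]
  exact f'

include red in
theorem gap {s : ℕ} (b : ¬Bk S w dd r H fs g₁ g₂ s) (l : s ≤ (pw w dd r).length) :
    0 < s ∧ s < (pw w dd r).length ∧ ∃ x x' y', Pt S w dd r (true, s - 1) x ∧
      Pt S w dd r (true, s) x' ∧ Ar H fs (QD S dd r) x' y' ∧ OnP S.toHMap dd r y'.1.1 ∧
      ∀ e, QD S dd r e.1.1 → BD S w dd r e → Rg S w dd r H s e → e = fs x ∨ e = fs y' := by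
  have s0 : 0 < s := Nat.pos_of_ne_zero fun e => b (Or.inl e)
  have sn : s < (pw w dd r).length := lt_of_le_of_ne l fun e => b (Or.inr (Or.inl e))
  obtain ⟨x, hx⟩ := pt_ex (S := S) (dd := dd) (r := r) hw (p := (true, s - 1)) (by simp; omega)
  obtain ⟨x', hx'⟩ := pt_ex (S := S) (dd := dd) (r := r) hw (p := (true, s)) sn
  have f : Fol (true, s - 1) (true, s) := ⟨rfl, by simp; omega⟩
  have g : Good S w dd r H (fs x) := by
    by_contra n
    exact b (Or.inr (Or.inr (Or.inr (Or.inr ⟨_, ⟨x, hx, Or.inr n⟩, Or.inr (by simp; omega)⟩))))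
  have c : ¬Cst S w dd r H fs (true, s) := fun n =>
    b (Or.inr (Or.inr (Or.inr (Or.inr ⟨_, ⟨x', hx', Or.inl n⟩, Or.inl rfl⟩))))
  obtain ⟨q', x'', y', h1, a, h2⟩ := not_not.1 c
  obtain rfl := hx'.uniq h1
  refine ⟨s0, sn, x, x', y', hx, hx', a, h2.onp, fun e q be ⟨z, hz, R⟩ => ?_⟩
  refine good_two C hw sp red hx hx' f a g e q be (EqvGen.trans _ _ _ (gp_reg C hw sp ?_ hz) R)
  have := hx.gp' C hw
  simp only [if_true] at this
  rwa [show s - 1 + 1 = s by omega] at this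

include red in
theorem not_ts {s : ℕ} (b : ¬Bk S w dd r H fs g₁ g₂ s) (l : s ≤ (pw w dd r).length) {z : Seg w}
    (R : Rg S w dd r H s z) : ¬(S.IsT z.1.1 ∨ S.IsT (S.α z.1.1)) := by
  intro t
  obtain ⟨-, -, x, x', y', hx, hx', a, o, two⟩ := gap C hw sp red b l
  have : OnP S.toHMap dd r z.1.1 := by
    rcases two z (Or.inr t) (Or.inr (not_inn_t sp t)) R with rfl | rfl
    · rw [C.fs_lt _ (hx.isLt hw)]; exact hx.onp
    · rw [(a.lt C (hx'.isLt hw)).2.2]; exact o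
  exact t.elim (onp_nt sp this).1 (onp_nt sp this).2

include red in
theorem not_bot {s : ℕ} (b : ¬Bk S w dd r H fs g₁ g₂ s) (l : s ≤ (pw w dd r).length) {z : Seg w}
    (R : Rg S w dd r H s z) : ¬Gp S w dd r false s z := by
  intro g
  obtain ⟨-, -, x, x', y', hx, hx', a, o, two⟩ := gap C hw sp red b l
  have hb := hx'.io C hw
  have e := fs_io C hw (hx'.isLt hw)
  have g' := hb.gp' C hw
  have v := C.fs_lt _ (hb.isLt hw)
  have o' : OnP S.toHMap dd r (fs (H.α (fs x'))).1.1 := by rw [v]; exact hb.onp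
  have p : 1 ≤ (fs (H.α (fs x'))).1.2 := by rw [v]; simp
  rcases two _ (Or.inl o') (Or.inl p) (R.trans (gp_reg C hw sp g g')) with E | E
  · obtain rfl := fs.injective E
    simpa using hb.uniq' sp hx
  · unfold Ar at a
    rw [← E, ← e] at a
    obtain ⟨i, x₀, e0, sc⟩ := node_sc C p
    have t : S.IsT x₀.1.1 := by rw [e0]; exact ⟨i, Perm.SameCycle.refl _ _⟩
    rw [nxt_self a sc.symm (qd_t _ t)] at t
    exact (onp_nt sp o').1 t

variable (k0 : ∀ p, p.2 < (pw w dd r).length → Cst S w dd r H fs p → Kp p)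
  (kn : ∀ p, p.2 < (pw w dd r).length → ¬Cst S w dd r H fs p → Kp p → Kp (nu S w dd r H fs p))
include k0 kn

theorem val_ar {x y : Seg w} (q : QD S dd r x.1.1) (t : ¬S.IsT x.1.1) (l : Lt x)
    (a : Ar H fs (QD S dd r) x y) (v : val S w dd r Kp x) : val S w dd r Kp y := by
  intro p hp
  by_cases c : Cst S w dd r H fs p
  · exact k0 p hp.lt c
  obtain ⟨p', y', x', h1, a', h2⟩ := not_not.1 c
  obtain rfl := hp.uniq h1
  obtain rfl := ((a.back C hw qd_α qd_t t l).2.2.1 q).unique a'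
  rw [← nu_eq sp h2 a hp]
  exact kn p' h2.lt (not_not.2 ⟨p, _, _, h2, a, hp⟩) (v p' h2)

theorem val_ar_iff {x y : Seg w} (q : QD S dd r x.1.1) (t : ¬S.IsT x.1.1) (l : Lt x)
    (a : Ar H fs (QD S dd r) x y) : val S w dd r Kp x ↔ val S w dd r Kp y := by
  obtain ⟨h1, -, h2, -⟩ := a.back C hw qd_α qd_t t l
  obtain ⟨l', q', -⟩ := a.lt C l
  exact ⟨val_ar C hw sp k0 kn q t l a, val_ar C hw sp k0 kn q' h1 l' (h2 q)⟩

theorem pp_io {x : Seg w} (n : ¬QD S dd r x.1.1) (l : Lt x) :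
    PP S w dd r H fs Kp (H.α (fs x)) ↔ PP S w dd r H fs Kp x := by
  obtain ⟨y, a⟩ := ar_ex C qd_t l (QD := QD S dd r)
  obtain ⟨v, a'⟩ := ar_ex C qd_t (io_lt C hw l) (QD := QD S dd r)
  have n' : ¬QD S dd r (H.α (fs x)).1.1 := by
    rw [io_val C hw l]
    intro q
    have := qd_α _ q
    rw [S.αα] at this
    exact n this
  obtain ⟨h1, -, -, h2⟩ := a.back C hw qd_α qd_t (fun t => n (qd_t _ t)) l
  obtain ⟨l', q', -⟩ := a.lt C l
  rw [pp_n n a, pp_n n' a', val_ar_iff C hw sp k0 kn q' h1 l' (h2 v n a')]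

theorem pp_mu {x : Seg w} (t : ¬S.IsT x.1.1) (l : Lt x) (h : PP S w dd r H fs Kp x) :
    PP S w dd r H fs Kp (μ x) := by
  have mm := (C.μ_n x t).2.1
  by_cases q : QD S dd r (μ x).1.1
  · have a := ar_one C t l q
    rw [pp_q q]
    by_cases q' : QD S dd r x.1.1
    · exact val_ar C hw sp k0 kn q' t l a (h.1 q')
    · exact h.2 q' _ a
  · refine ⟨fun n => absurd n q, fun _ y a => ?_⟩
    by_cases q' : QD S dd r x.1.1
    · have := ar_one (QD := QD S dd r) C (mu_nt C t) (mu_lt C t l) (by rwa [mm])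
      rw [a.unique this, mm]
      exact h.1 q'
    · rw [ar_step C (mu_nt C t) (mu_lt C t l) (by rwa [mm]), mm] at a
      refine ((pp_io C hw sp k0 kn q' l).2 h).2 ?_ y a
      rw [io_val C hw l]
      intro q
      have := qd_α _ q
      rw [S.αα] at this
      exact q' this

include red in
theorem step {s : ℕ} (b : ¬Bk S w dd r H fs g₁ g₂ s) (l : s ≤ (pw w dd r).length) {d : D} {j : ℕ}
    (hj : j < (w d).norm) (R : Rg S w dd r H s ⟨(d, j), hj.le⟩) (n : ¬QD S dd r d) :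
    ((w d).toWord[j]? = (pw w dd r)[s]? ∧ (PD S w dd r H fs Kp d j ↔ Kp (true, s)) ∧
      Rg S w dd r H (s + 1) ⟨(d, j + 1), hj⟩) ∨
    ((w d).toWord[j]? = ((pw w dd r)[s - 1]?).map linv ∧
      (PD S w dd r H fs Kp d j ↔ Kp (true, s - 1)) ∧ Rg S w dd r H (s - 1) ⟨(d, j + 1), hj⟩) := by
  obtain ⟨-, -, x, x', y', hx, hx', a', o, two⟩ := gap C hw sp red b l
  set z : Seg w := ⟨(d, j), hj.le⟩
  have lz : Lt z := hj
  have e : fs z = ⟨(d, j + 1), hj⟩ := Subtype.ext (C.fs_lt z lz)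
  rw [← e, show (w d).toWord[j]? = slet z from rfl, pd_iff z]
  obtain ⟨y, a⟩ := ar_ex C qd_t lz (QD := QD S dd r)
  obtain ⟨v, av⟩ := ar_ex C qd_t (io_lt C hw lz) (QD := QD S dd r)
  obtain ⟨h1, h2, -, h3⟩ := a.back C hw qd_α qd_t (fun t => n (qd_t _ t)) lz
  have h4 := h3 v n av
  have R1 : H.Reg (fun z => QD S dd r z.1.1) (fs v) (fs z) := by
    refine EqvGen.trans _ _ _ av.reg.symm (EqvGen.symm _ _ (EqvGen.rel _ _ (Or.inr ⟨?_, rfl⟩)))
    rw [e]; exact n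
  obtain ⟨q1, b1, -⟩ := ar_qb C lz a
  have h5 : slet z = (slet y).map linv := by rw [h2, map_linv_linv]
  rw [pp_n n a, h5]
  rcases two _ q1 b1 (R.trans a.reg) with E | E <;> obtain rfl := fs.injective E
  · exact Or.inr ⟨by rw [hx.slet hw]; rfl, val_pt sp hx,
      _, hx.gp, EqvGen.trans _ _ _ h4.reg R1⟩
  · obtain ⟨-, h6, h7⟩ := hx'.back C hw sp a'
    obtain rfl := h4.unique h7
    refine Or.inl ⟨by rw [h6, map_linv_linv]; rfl, ?_, _, hx'.gp' C hw, R1⟩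
    rw [← val_ar_iff C hw sp k0 kn (Or.inl hx'.onp) (onp_nt sp hx'.onp).1 (hx'.isLt hw) a']
    exact val_pt sp hx'

include red in
theorem run_f {s : ℕ} {d : D} (n : ¬QD S dd r d) (t j : ℕ) (hj : j + t = (w d).norm)
    (l : s + j ≤ (pw w dd r).length) (R : Rg S w dd r H (s + j) ⟨(d, j), by simp only; omega⟩)
    (h : ∀ i < j, (w d).toWord[i]? = (pw w dd r)[s + i]? ∧
      (PD S w dd r H fs Kp d i ↔ Kp (true, s + i))) (j0 : 0 < j ∨ t = 0) :
    ∃ m ≤ (w d).norm, (∀ i < m, (w d).toWord[i]? = (pw w dd r)[s + i]? ∧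
      (PD S w dd r H fs Kp d i ↔ Kp (true, s + i))) ∧
      (Bk S w dd r H fs g₁ g₂ (s + m) ∨ (m = (w d).norm ∧ ¬Bk S w dd r H fs g₁ g₂ (s + m) ∧
        s + m ≤ (pw w dd r).length ∧ Rg S w dd r H (s + m) (sg0 w (S.φ d)))) := by
  induction t generalizing j with
  | zero =>
    obtain rfl : j = (w d).norm := hj
    refine ⟨_, le_rfl, h, ?_⟩
    by_cases b : Bk S w dd r H fs g₁ g₂ (s + (w d).norm)
    · exact Or.inl b
    · exact Or.inr ⟨rfl, b, l, R.trans (reg_φ C d)⟩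
  | succ t ih =>
    by_cases b : Bk S w dd r H fs g₁ g₂ (s + j)
    · exact ⟨j, by omega, h, Or.inl b⟩
    have sn := (gap C hw sp red b l).2.1
    rcases step C hw sp red k0 kn b l (by omega) R n with ⟨h1, h2, h3⟩ | ⟨h1, -, -⟩
    · refine ih (j + 1) (by omega) (by omega) h3 (fun i hi => ?_) (Or.inl (by omega))
      rcases Nat.lt_succ_iff_lt_or_eq.1 hi with hi | rfl
      exacts [h i hi, ⟨h1, h2⟩]
    · obtain ⟨i, rfl⟩ : ∃ i, j = i + 1 := ⟨j - 1, by omega⟩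
      refine absurd ?_ (red_adj (l := (w d).toWord) (by rw [FreeGroup.mk_toWord]) (j := i)
        (by unfold FreeGroup.norm at hj; omega))
      rw [h1, (h i (by omega)).1]
      rfl

include red in
theorem run_b {s : ℕ} {d : D} (n : ¬QD S dd r d) (t j : ℕ) (hj : j + t = (w d).norm) (js : j ≤ s)
    (l : s ≤ (pw w dd r).length) (R : Rg S w dd r H (s - j) ⟨(d, j), by simp only; omega⟩)
    (h : ∀ i < j, (w d).toWord[i]? = ((pw w dd r)[s - 1 - i]?).map linv ∧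
      (PD S w dd r H fs Kp d i ↔ Kp (true, s - 1 - i))) (j0 : 0 < j) :
    ∃ m ≤ (w d).norm, m ≤ s ∧ (∀ i < m, (w d).toWord[i]? = ((pw w dd r)[s - 1 - i]?).map linv ∧
      (PD S w dd r H fs Kp d i ↔ Kp (true, s - 1 - i))) ∧
      (Bk S w dd r H fs g₁ g₂ (s - m) ∨ (m = (w d).norm ∧ ¬Bk S w dd r H fs g₁ g₂ (s - m) ∧
        s - m ≤ (pw w dd r).length ∧ Rg S w dd r H (s - m) (sg0 w (S.φ d)))) := by
  induction t generalizing j with
  | zero =>
    obtain rfl : j = (w d).norm := hj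
    refine ⟨_, le_rfl, js, h, ?_⟩
    by_cases b : Bk S w dd r H fs g₁ g₂ (s - (w d).norm)
    · exact Or.inl b
    · exact Or.inr ⟨rfl, b, by omega, R.trans (reg_φ C d)⟩
  | succ t ih =>
    by_cases b : Bk S w dd r H fs g₁ g₂ (s - j)
    · exact ⟨j, by omega, js, h, Or.inl b⟩
    have s0 := (gap C hw sp red b (by omega)).1
    rcases step C hw sp red k0 kn b (by omega) (by omega) R n with ⟨h1, -, -⟩ | ⟨h1, h2, h3⟩
    · obtain ⟨i, rfl⟩ : ∃ i, j = i + 1 := ⟨j - 1, by omega⟩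
      refine absurd ?_ (red_adj (l := (w d).toWord) (by rw [FreeGroup.mk_toWord]) (j := i)
        (by unfold FreeGroup.norm at hj; omega))
      rw [h1, (h i (by omega)).1, map_linv_linv, show s - 1 - i = s - (i + 1) by omega]
    · refine ih (j + 1) (by omega) (by omega) h3 (fun i hi => ?_) (by omega)
      rcases Nat.lt_succ_iff_lt_or_eq.1 hi with hi | rfl
      · exact h i hi
      · rw [show s - 1 - i = s - i - 1 by omega]
        exact ⟨h1, h2⟩

end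

end TB1

open TB1 in
theorem tb1 (k1 : K1) (k5 : K5) (n1 : N1St) (cut : CutSt) : TB1St := by
  obtain ⟨h, n1⟩ := n1
  obtain ⟨h', hb⟩ : TB (fun k => k) fun k => tw h (352 * k + 36) :=
    (((TB.const 352).mul (TB.self' _)).add (TB.const 36)).tw h
  refine ⟨h', fun k V D _ G U S w dd r g₁ g₂ top val min sp red => ?_⟩
  obtain ⟨H, fs, μ, C⟩ := cut k V D G U S w top val min
  have hw := val.toPre
  obtain ⟨f, c⟩ := bk_card (g₁ := g₁) (g₂ := g₂) C hw sp red k1 k5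
  obtain ⟨Kp, k0, kn, kp, kl⟩ := n1 _ (pw w dd r) (nu S w dd r H fs) (Cst S w dd r H fs)
    (Bk S w dd r H fs g₁ g₂) _ f c (Or.inl rfl) (Or.inr (Or.inl rfl))
    (fun p _ => nu_inv C hw sp p) (nu_fol C hw sp red)
  refine ⟨Bk S w dd r H fs g₁ g₂, fun j => Kp (true, j), fun j => Kp (false, j),
    PD S w dd r H fs Kp, fun d s => ¬Bk S w dd r H fs g₁ g₂ s ∧ s ≤ (pw w dd r).length ∧
      Rg S w dd r H s (sg0 w d),
    ⟨Or.inl rfl, Or.inr (Or.inl rfl), Or.inr (Or.inr (Or.inl rfl)),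
      Or.inr (Or.inr (Or.inr (Or.inl rfl)))⟩, kp, kl.trans (hb k), C.sel _ fun x t l h => ?_,
    fun d t => ?_, fun d j o l => ?_, fun i hi j hj => ?_, fun i hi j hj => ?_,
    fun d s h => ⟨h.1, h.2.1⟩, fun d s ⟨b, l, R⟩ o => ?_, fun d s o => ?_, fun i hi => ?_,
    fun i hi => ?_⟩
  · rw [pd_iff] at h ⊢
    exact pp_mu C hw sp k0 kn t l h
  · rw [show PD S w dd r H fs Kp d 0 ↔ _ from pd_iff (sg0 w d), pp_q (qd_t _ t)]
    exact fun p hp => absurd t (onp_nt sp hp.onp).1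
  · set z : Seg w := ⟨(d, j), l.le⟩
    have lz : Lt z := l
    have e := io_val C hw lz
    have e' := pd_iff (S := S) (dd := dd) (r := r) (H := H) (fs := fs) (Kp := Kp) (H.α (fs z))
    rw [e] at e'
    rw [show PD S w dd r H fs Kp d j ↔ _ from pd_iff z]
    refine e'.trans ?_
    by_cases q : QD S dd r d
    · rw [pp_q (x := z) q, pp_q (by rw [e]; exact qd_α _ q)]
      refine iff_of_true (fun p hp => absurd ?_ o) fun p hp => absurd hp.onp o
      have := onp_α hp.onp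
      rwa [e, S.αα] at this
    · exact pp_io C hw sp k0 kn q lz
  · have : Pt S w dd r (true, off w dd i + j) ⟨(dd i, j), hj.le⟩ := ⟨i, hi, j, hj, rfl, rfl⟩
    exact (pd_iff ⟨(dd i, j), hj.le⟩).trans ((pp_q (Or.inl this.onp)).trans (val_pt sp this))
  · have : Pt S w dd r (false, off w dd i + j)
        ⟨(S.α (dd i), (w (dd i)).norm - 1 - j), by simp only [norm_α hw]; omega⟩ :=
      ⟨i, hi, j, hj, rfl, rfl⟩
    exact (pd_iff ⟨(S.α (dd i), (w (dd i)).norm - 1 - j), _⟩).trans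
      ((pp_q (Or.inl this.onp)).trans (val_pt sp this))
  · have n : ¬QD S dd r d := fun q => not_ts C hw sp red b l R (q.resolve_left o)
    rcases Nat.eq_zero_or_pos (w d).norm with e | p
    · exact Or.inl (run_f C hw sp red k0 kn n 0 0 e.symm l R (by simp) (Or.inr rfl))
    have s0 := gap C hw sp red b l
    rcases step C hw sp red k0 kn b l p R n with ⟨h1, h2, h3⟩ | ⟨h1, h2, h3⟩
    · refine Or.inl (run_f C hw sp red k0 kn n ((w d).norm - 1) 1 (by omega) s0.2.1 h3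
        (fun i hi => ?_) (Or.inl one_pos))
      obtain rfl : i = 0 := by omega
      exact ⟨h1, h2⟩
    · refine Or.inr (run_b C hw sp red k0 kn n ((w d).norm - 1) 1 (by omega) s0.1 l h3
        (fun i hi => ?_) one_pos)
      obtain rfl : i = 0 := by omega
      exact ⟨h1, h2⟩
  · have R1 : H.Reg (fun z => QD S dd r z.1.1) (sgn w (S.α d)) (sg0 w (S.toHMap.σ d)) :=
      reg_φ C (S.α d)
    by_cases q : QD S dd r d
    · have t := q.resolve_left o
      refine iff_of_false (fun ⟨b, l, R⟩ => not_ts C hw sp red b l (R.trans R1.symm) ?_)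
        fun ⟨b, l, R⟩ => not_ts C hw sp red b l R t
      simp only [sgn, S.αα]
      exact t.symm
    · have R2 : H.Reg (fun z => QD S dd r z.1.1) (sg0 w d) (sg0 w (S.toHMap.σ d)) :=
        EqvGen.trans _ _ _ (EqvGen.rel _ _ (Or.inr ⟨q, (α_sg0 C d).symm⟩)) R1
      exact ⟨fun ⟨b, l, R⟩ => ⟨b, l, R.trans R2.symm⟩, fun ⟨b, l, R⟩ => ⟨b, l, R.trans R2⟩⟩
  · refine ⟨fun b => ⟨b, off_mono w dd hi.le, _, ⟨i, hi, 0, Nat.zero_le _, rfl, rfl⟩,
      EqvGen.refl _⟩, fun b => ⟨b, off_mono w dd hi, sgn w (dd i),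
        ⟨i, hi, _, le_rfl, off_succ w dd i, rfl⟩, reg_φ C _⟩⟩
  · refine ⟨fun ⟨b, l, R⟩ => not_bot C hw sp red b l R
      ⟨i, hi, _, le_rfl, off_succ w dd i, by simp [sg0]⟩,
      fun ⟨b, l, R⟩ => not_bot C hw sp red b l (R.trans (reg_φ C _).symm)
        ⟨i, hi, 0, Nat.zero_le _, rfl, by simp [sgn, norm_α hw]⟩⟩

end Pool.Agent.Lib.MP_c1f5fe_lc
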