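import Pool.Agent.Lib.MP_c1f5fe_lc.TB2

/-! A long reduced path can be shortened at the cost of letters at higher levels. -/

namespace Pool.Agent.Lib.MP_c1f5fe_lc

open Equiv Function Relation Sel

namespace TB3

variable {k : ℕ} {V D : Type} {G : SimpleGraph V} {U : Set V}

theorem pw_succ (w : D → FG k) (dd : ℕ → D) (i : ℕ) :
    pw w dd (i + 1) = pw w dd i ++ (w (dd i)).toWord := by
  simp [pw, List.range_succ]

theorem off_succ (w : D → FG k) (dd : ℕ → D) (i : ℕ) :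
    off w dd (i + 1) = off w dd i + (w (dd i)).norm := by
  simp [off, pw_succ, FreeGroup.norm]

theorem pw_pre (w : D → FG k) (dd : ℕ → D) {i r : ℕ} (h : i ≤ r) : pw w dd i <+: pw w dd r := by
  induction r, h using Nat.le_induction with
  | base => exact List.prefix_rfl
  | succ r _ ih => rw [pw_succ]; exact ih.trans (List.prefix_append _ _)

theorem run_path (w : D → FG k) (dd : ℕ → D) {i r : ℕ} (h : i < r) :
    Run (pw w dd r) (w (dd i)).toWord (off w dd i) (w (dd i)).norm (off w dd (i + 1))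
      fun j => off w dd i + j := by
  refine Or.inl ⟨off_succ w dd i, fun j hj => ⟨rfl, ?_⟩⟩
  obtain ⟨t, e⟩ := pw_pre w dd (show i + 1 ≤ r from h)
  beta_reduce
  rw [← e, pw_succ, List.append_assoc, off, List.getElem?_append_right (by omega),
    Nat.add_sub_cancel_left, List.getElem?_append_left hj]

theorem F_all (g : FG k) : F g.toWord (fun _ => True) g.norm = g := by
  rw [F_top, FreeGroup.norm, List.take_length, FreeGroup.mk_toWord]

theorem take_inj {L : List (Let k)} (red : (FreeGroup.mk L).toWord = L) {s t : ℕ}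
    (hs : s ≤ L.length) (ht : t ≤ L.length)
    (e : F L (fun _ => True) s = F L (fun _ => True) t) : s = t := by
  have r : FreeGroup.IsReduced L := red ▸ FreeGroup.isReduced_toWord
  have n : ∀ s ≤ L.length, (F L (fun _ => True) s).norm = s := fun s hs => by
    have : FreeGroup.IsReduced (L.take s) := List.IsChain.take r _
    rw [F_top, FreeGroup.norm, FreeGroup.toWord_mk, this.reduce_eq]
    simpa using hs
  rw [← n s hs, e, n t ht]

theorem sc_ind [Finite D] {π : Perm D} {R : D → Prop} (h : ∀ d, R d → R (π d)) {d e : D}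
    (c : π.SameCycle d e) (hd : R d) : R e := by
  obtain ⟨n, -, rfl⟩ := c.exists_pow_eq'
  clear c
  induction n with
  | zero => exact hd
  | succ n ih => rw [pow_succ', Perm.mul_apply]; exact h _ ih

structure Dt (k : ℕ) (V D : Type) where
  w : D → FG k
  lev : V → ℕ
  Λ : ℕ
  l₀ : ℕ
  Fr : Set V
  hp : V → FG k
  dd : ℕ → D
  pv : ℕ → V
  r : ℕ
  N : ℕ
  Brk : ℕ → Prop
  At : ℕ → Prop
  Ab : ℕ → Prop
  P : D → ℕ → Prop
  Tp : D → ℕ → Prop
  B : ℕ → ℕ → Prop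
  lo : ℕ → ℕ
  hi : ℕ → ℕ

namespace Dt
variable (X : Dt k V D) (S : Sk k G U D)

def L : List (Let k) := pw X.w X.dd X.r

noncomputable def g (s : ℕ) : FG k := X.hp (X.pv 0) * F X.L (fun _ => True) s

noncomputable def f (μ s : ℕ) : FG k := F X.L (X.B μ) s

def st (v : V) : ℕ := min X.N ((X.lev v - X.l₀) / 2)

def Cor (e : D) (v : V) (s : ℕ) : Prop :=
  S.vx e = some v ∧ X.lev v ≤ X.Λ ∧ X.Tp e s ∧ X.hp v = X.g s

open Classical in
noncomputable def c (e : D) : FG k :=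
  if h : ∃ p : V × ℕ, X.Cor S e p.1 p.2 then
    (F X.L X.At h.choose.2)⁻¹ * X.f (X.st h.choose.1) h.choose.2 else 1

noncomputable def w1 (d : D) : FG k := FreeGroup.mk (sel (X.w d).toWord (X.P d))

noncomputable def w' (d : D) : FG k := (X.c S d)⁻¹ * X.w1 d * X.c S (S.φ d)

def Off (d : D) : Prop := ¬OnP S.toHMap X.dd X.r d

def Sb (d : D) : Prop := ∃ Q, X.w' S d = FreeGroup.mk (sel (X.w d).toWord Q)

def Nr (u : V) (μ : ℕ) : Prop := X.lev u = X.l₀ + 2 * μ + 1 ∨ X.lev u = X.l₀ + 2 * μ + 2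

def In (μ s : ℕ) : Prop := X.lo μ < s ∧ s ≤ X.hi μ

def One (d : D) (μ : ℕ) : Prop :=
  X.w' S d = olet X.L[X.lo μ]? ∨ X.w' S d = (olet X.L[X.lo μ]?)⁻¹

def Exc (d : D) : Prop := ∃ u v s t μ, X.Cor S d u s ∧ X.Cor S (S.α d) v t ∧ μ < X.N ∧
  X.In μ s ∧ X.In μ t ∧ X.Nr u μ ∧ X.Nr v μ ∧ X.One S d μ

structure Ok (g₁ g₂ : ℕ) : Prop where
  val : S.Valid X.w
  lip : S.Lip X.lev X.Λ X.Fr
  pot : S.PotOn X.w {v | X.lev v ≤ X.Λ} X.hp
  pe : ∀ i < X.r, S.E (X.dd i) (X.pv i) (X.pv (i + 1))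
  pl : ∀ i ≤ X.r, X.lev (X.pv i) ≤ X.l₀
  red : (FreeGroup.mk X.L).toWord = X.L
  big : X.l₀ + 2 * X.N ≤ X.Λ
  sh : Short S X.w X.dd X.r g₁ g₂ X.N X.Brk X.At X.Ab X.P X.Tp
  fr : ∀ a ∈ X.Fr, X.lev a ≤ X.Λ → ∀ s ≤ X.L.length, X.hp a = X.g s → X.Brk s
  b0 : X.f 0 = F X.L X.Ab
  bN : X.f X.N = F X.L X.At
  mv : ∀ μ < X.N, Mv X.L X.Brk (X.f μ) (X.f (μ + 1)) (X.lo μ) (X.hi μ)

namespace Ok
variable {X S} {g₁ g₂ : ℕ} (h : X.Ok S g₁ g₂) {d e : D} {u v : V} {s t m : ℕ} {pos : ℕ → ℕ}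
include h

theorem g_inj (hs : s ≤ X.L.length) (ht : t ≤ X.L.length) (e : X.g s = X.g t) : s = t :=
  take_inj h.red hs ht (mul_left_cancel e)

theorem brk {μ : ℕ} (hμ : μ ≤ X.N) (b : X.Brk s) : X.f μ s = F X.L X.At s := by
  induction μ with
  | zero => rw [h.b0]; exact congrArg FreeGroup.mk (h.sh.pre s b).symm
  | succ μ ih =>
    rw [← ih (by omega)]
    exact ((h.mv μ hμ).out s fun a => (h.mv μ hμ).nob s a.1 a.2 b).symm

theorem c_cor (a : X.Cor S e v s) : X.c S e = (F X.L X.At s)⁻¹ * X.f (X.st v) s := by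
  have x : ∃ p : V × ℕ, X.Cor S e p.1 p.2 := ⟨(v, s), a⟩
  have y := x.choose_spec
  have e1 : x.choose.1 = v := Option.some.inj (y.1.symm.trans a.1)
  have e2 : x.choose.2 = s := h.g_inj (h.sh.nb _ _ y.2.2.1).2 (h.sh.nb _ _ a.2.2.1).2
    (by rw [← y.2.2.2, e1, a.2.2.2])
  rw [c, dif_pos x, e1, e2]

omit h in
theorem c_non (a : ∀ v s, ¬X.Cor S e v s) : X.c S e = 1 := dif_neg fun ⟨_, x⟩ => a _ _ x

theorem nfr (a : X.Cor S e v s) : v ∉ X.Fr := fun b =>
  (h.sh.nb _ _ a.2.2.1).1 (h.fr v b a.2.1 s (h.sh.nb _ _ a.2.2.1).2 a.2.2.2)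

omit h in
theorem g_run {W : List (Let k)} (r : Run X.L W s m t pos) :
    X.g t = X.g s * F W (fun _ => True) m := by
  rw [r.eq (A := fun _ => True) fun _ _ => Iff.rfl, g, g]; group

theorem hp_pv {i : ℕ} (hi : i ≤ X.r) : X.hp (X.pv i) = X.g (off X.w X.dd i) := by
  induction i with
  | zero => simp [g, off, pw, F_zero]
  | succ i ih =>
    have l := h.big
    have := h.pot _ _ _ (h.pe i hi) ((h.pl i (by omega)).trans (by omega))
      ((h.pl _ hi).trans (by omega))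
    rw [g_run (run_path X.w X.dd hi), F_all, ← ih (by omega), this]; group

omit h in
theorem off_le {i : ℕ} (hi : i ≤ X.r) : off X.w X.dd i ≤ X.L.length :=
  (pw_pre X.w X.dd hi).length_le

omit h in
theorem off_α (o : X.Off S d) : X.Off S (S.α d) := by
  rintro ⟨i, hi, e | e⟩
  · exact o ⟨i, hi, Or.inr (by rw [← e, S.αα])⟩
  · exact o ⟨i, hi, Or.inl (S.α.injective e)⟩

theorem cor_σ (o : X.Off S d) : X.Cor S (S.φ (S.α d)) v s ↔ X.Cor S d v s := by
  unfold Cor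
  rw [S.vx_σ]
  exact and_congr_right fun _ => and_congr_right fun _ => and_congr_left fun _ => h.sh.rot d s o

theorem cor_φ (o : X.Off S d) : X.Cor S (S.φ d) v s ↔ X.Cor S (S.α d) v s := by
  rw [← h.cor_σ (off_α o), S.αα]

theorem c_σ (o : X.Off S d) : X.c S (S.φ (S.α d)) = X.c S d := by
  by_cases a : ∃ v s, X.Cor S d v s
  · obtain ⟨v, s, a⟩ := a
    rw [h.c_cor a, h.c_cor ((h.cor_σ o).2 a)]
  · push Not at a
    rw [c_non a, c_non fun v s x => a v s ((h.cor_σ o).1 x)]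

theorem c_φ (o : X.Off S d) : X.c S (S.φ d) = X.c S (S.α d) := by
  rw [← h.c_σ (off_α o), S.αα]

theorem w1_α (o : X.Off S d) : X.w1 (S.α d) = (X.w1 d)⁻¹ := by
  rw [w1, w1, FreeGroup.inv_mk, word_α h.val.toPre]
  exact congrArg _ (sel_invRev _ fun j hj => h.sh.symm d j o hj)

theorem c_path {i : ℕ} (hi : i ≤ X.r) (a : S.vx e = some (X.pv i)) :
    (¬X.Tp e (off X.w X.dd i) → X.c S e = 1) ∧
    ((¬X.Brk (off X.w X.dd i) → X.Tp e (off X.w X.dd i)) →
      X.c S e = (F X.L X.At (off X.w X.dd i))⁻¹ * F X.L X.Ab (off X.w X.dd i)) := by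
  have l := h.big
  have n : ¬X.Tp e (off X.w X.dd i) → X.c S e = 1 := fun n => c_non fun v s x => by
    have e1 : v = X.pv i := Option.some.inj (x.1.symm.trans a)
    have e2 : s = off X.w X.dd i := h.g_inj (h.sh.nb _ _ x.2.2.1).2 (off_le hi)
      (by rw [← x.2.2.2, e1, h.hp_pv hi])
    exact n (e2 ▸ x.2.2.1)
  refine ⟨n, fun u => ?_⟩
  by_cases b : X.Brk (off X.w X.dd i)
  · rw [n fun x => (h.sh.nb _ _ x).1 b, ← h.b0, h.brk (Nat.zero_le _) b, inv_mul_cancel]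
  · have z : X.st (X.pv i) = 0 := by
      have := h.pl i hi
      simp [st, Nat.sub_eq_zero_of_le this]
    rw [h.c_cor ⟨a, (h.pl i hi).trans (by omega), u b, h.hp_pv hi⟩, z, h.b0]

theorem w_path {i : ℕ} (hi : i < X.r) :
    X.w' S (X.dd i) = FreeGroup.mk (sel (X.w (X.dd i)).toWord fun j => X.Ab (off X.w X.dd i + j)) ∧
    X.w' S (S.α (X.dd i)) = (X.w' S (X.dd i))⁻¹ := by
  have r := run_path X.w X.dd hi
  obtain ⟨a, b⟩ := h.pe i hi
  have e1 : X.w' S (X.dd i) =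
      FreeGroup.mk (sel (X.w (X.dd i)).toWord fun j => X.Ab (off X.w X.dd i + j)) := by
    rw [w', (h.c_path hi.le a).2 (h.sh.up i hi).1,
      (h.c_path hi ((S.vx_φ _).trans b)).2 (h.sh.up i hi).2, w1, ← F_len _ le_rfl, ← F_len _ le_rfl]
    erw [r.eq (h.sh.top i hi), r.eq (A := X.Ab) fun _ _ => Iff.rfl]
    unfold L
    group
  refine ⟨e1, ?_⟩
  rw [e1, w', (h.c_path hi b).1 (h.sh.down i hi).1,
    (h.c_path hi.le ((S.vx_σ _).trans a)).1 (h.sh.down i hi).2, inv_one, one_mul, mul_one, w1,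
    FreeGroup.inv_mk, word_α h.val.toPre]
  exact congrArg _ (sel_invRev _ fun j hj => h.sh.bot i hi j hj)

theorem w_inv (d : D) : X.w' S (S.α d) = (X.w' S d)⁻¹ := by
  by_cases o : X.Off S d
  · rw [w', w', h.c_σ o, h.c_φ o, h.w1_α o]; group
  · obtain ⟨i, hi, rfl | rfl⟩ := not_not.1 o
    · exact (h.w_path hi).2
    · rw [S.αα, (h.w_path hi).2, inv_inv]

theorem sb_α (a : X.Sb S (S.α d)) : X.Sb S d := by
  obtain ⟨Q, e⟩ := a
  refine ⟨fun j => Q ((X.w d).toWord.length - 1 - j), ?_⟩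
  rw [h.w_inv, word_α h.val.toPre, sel_invRev _ fun j _ => Iff.rfl, ← FreeGroup.inv_mk] at e
  exact inv_injective e

theorem exc_α (a : X.Exc S (S.α d)) : X.Exc S d := by
  obtain ⟨u, v, s, t, μ, a1, a2, a3, a4, a5, a6, a7, a8⟩ := a
  rw [S.αα] at a2
  refine ⟨v, u, t, s, μ, a2, a1, a3, a5, a4, a7, a6, ?_⟩
  unfold One at a8 ⊢
  rw [h.w_inv] at a8
  exact a8.elim (fun x => Or.inr (inv_eq_iff_eq_inv.1 x)) fun x => Or.inl (inv_injective x)

theorem run (o : X.Off S d) (a : X.Tp d s) : ∃ m t pos, m ≤ (X.w d).norm ∧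
    Run X.L (X.w d).toWord s m t pos ∧ (∀ j < m, (X.P d j ↔ X.At (pos j))) ∧
    (X.Brk t ∨ (m = (X.w d).norm ∧ X.Tp (S.φ d) t)) := by
  rcases h.sh.run d s a o with ⟨m, l, x, y⟩ | ⟨m, l, l', x, y⟩
  · exact ⟨m, s + m, fun j => s + j, l, Or.inl ⟨rfl, fun j hj => ⟨rfl, (x j hj).1⟩⟩,
      fun j hj => (x j hj).2, y⟩
  · exact ⟨m, s - m, fun j => s - 1 - j, l, Or.inr ⟨by omega, fun j hj => ⟨rfl, (x j hj).1⟩⟩,
      fun j hj => (x j hj).2, y⟩

theorem near (a : X.Cor S d u s) (b : S.vx (S.α d) = some v) (l : X.lev v ≤ X.Λ) :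
    X.lev v ≤ X.lev u + 1 := by
  by_cases c : X.lev u < X.Λ
  · obtain ⟨v', x, y⟩ := h.lip d u a.1 (h.nfr a) c
    rwa [← Option.some.inj (x.symm.trans b)]
  · omega

/-- the whole word of a dart is read along the path -/
theorem full (o : X.Off S d) (a : X.Cor S d u s) (r : Run X.L (X.w d).toWord s (X.w d).norm t pos)
    (p : ∀ j < (X.w d).norm, (X.P d j ↔ X.At (pos j))) (q : X.Tp (S.φ d) t) :
    X.w' S d = (X.f (X.st u) s)⁻¹ * X.f (X.st u) t ∨ ∃ v μ, X.Cor S (S.α d) v t ∧ μ < X.N ∧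
      X.Nr u μ ∧ X.Nr v μ ∧ (X.w' S d = (X.f μ s)⁻¹ * X.f (μ + 1) t ∨
        X.w' S d = (X.f (μ + 1) s)⁻¹ * X.f μ t) := by
  have l := h.big
  have e1 : X.w1 d = (F X.L X.At s)⁻¹ * F X.L X.At t := by
    rw [w1, ← F_len _ le_rfl]; exact r.eq p
  by_cases b : ∃ v, S.vx (S.α d) = some v ∧ X.lev v ≤ X.Λ
  · obtain ⟨v, b1, b2⟩ := b
    have b : X.Cor S (S.φ d) v t := ⟨(S.vx_φ d).trans b1, b2, q, by
      rw [g_run r, F_all, h.pot d u v ⟨a.1, b1⟩ a.2.1 b2, ← a.2.2.2]; group⟩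
    have e2 : X.w' S d = (X.f (X.st u) s)⁻¹ * X.f (X.st v) t := by
      rw [w', h.c_cor a, h.c_cor b, e1]; group
    have b' := (h.cor_φ o).1 b
    have n1 := h.near a b1 b2
    have n2 := h.near b' (by rw [S.αα]; exact a.1) a.2.1
    rcases lt_trichotomy (X.st u) (X.st v) with x | x | x
    · have y : X.st v = X.st u + 1 := by unfold st at *; omega
      exact Or.inr ⟨v, X.st u, b', by unfold st at *; omega, by unfold Nr st at *; omega,
        by unfold Nr st at *; omega, Or.inl (y ▸ e2)⟩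
    · exact Or.inl (x ▸ e2)
    · have y : X.st u = X.st v + 1 := by unfold st at *; omega
      exact Or.inr ⟨v, X.st v, b', by unfold st at *; omega, by unfold Nr st at *; omega,
        by unfold Nr st at *; omega, Or.inr (y ▸ e2)⟩
  · left
    have z : X.st u = X.N := by
      have : ¬X.lev u < X.Λ := fun c => by
        obtain ⟨v, x, y⟩ := h.lip d u a.1 (h.nfr a) c
        exact b ⟨v, x, by omega⟩
      unfold st
      omega
    rw [w', h.c_cor a, c_non fun v s x => b ⟨v, (S.vx_φ d).symm.trans x.1, x.2.1⟩, e1, z, h.bN]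
    group

theorem one {μ : ℕ} (hμ : μ < X.N) (hs : X.In μ s) (ht : X.In μ t)
    (e : X.w' S d = (X.f μ s)⁻¹ * X.f (μ + 1) t ∨ X.w' S d = (X.f (μ + 1) s)⁻¹ * X.f μ t) :
    X.One S d μ := by
  obtain ⟨x, y, z⟩ := (h.mv μ hμ).inn s t hs.1 hs.2 ht.1 ht.2
  rw [← x, ← y] at e
  unfold One
  rcases e with e | e <;> rcases z with z | z <;> rw [e, z]
  · left; group
  · right; group
  · right; group
  · left; group

theorem half (o : X.Off S d) (a : X.Cor S d u s) : (X.Sb S d ∨ X.Exc S d) ∨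
    ∃ m t pos, m ≤ (X.w d).norm ∧ Run X.L (X.w d).toWord s m t pos ∧
      (∀ j < m, (X.P d j ↔ X.At (pos j))) ∧ X.Brk t := by
  obtain ⟨m, t, pos, l, r, p, q | ⟨rfl, q⟩⟩ := h.run o a.2.2.1
  · exact Or.inr ⟨m, t, pos, l, r, p, q⟩
  have sb : ∀ μ, X.w' S d = (X.f μ s)⁻¹ * X.f μ t → X.Sb S d := fun μ e =>
    ⟨fun j => X.B μ (pos j), by
      rw [e, ← F_len _ le_rfl]; exact (r.eq (A := X.B μ) fun _ _ => Iff.rfl).symm⟩
  left
  rcases h.full o a r p q with e | ⟨v, μ, b, l, n1, n2, e⟩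
  · exact Or.inl (sb _ e)
  by_cases hs : X.In μ s
  · by_cases ht : X.In μ t
    · exact Or.inr ⟨u, v, s, t, μ, a, b, l, hs, ht, n1, n2, h.one l hs ht e⟩
    · have := (h.mv μ l).out t ht
      exact Or.inl (e.elim (fun e => sb μ (this ▸ e)) fun e => sb (μ + 1) (this ▸ e))
  · have := (h.mv μ l).out s hs
    exact Or.inl (e.elim (fun e => sb (μ + 1) (this ▸ e)) fun e => sb μ (this ▸ e))

theorem cls1 (o : X.Off S d) (a : X.Cor S d u s) : X.Sb S d ∨ X.Exc S d := by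
  rcases h.half o a with x | ⟨m, t, pos, l, r, p, q⟩
  · exact x
  have fin : ∀ Q : ℕ → Prop, (∀ j < m, (Q j ↔ X.At (pos j))) →
      FreeGroup.mk (sel (X.w d).toWord Q) = X.w1 d * X.c S (S.φ d) → X.Sb S d := by
    intro Q hQ e
    obtain ⟨Q', -, e'⟩ := r.resel (A' := X.B (X.st u)) l hQ (h.brk (min_le_left _ _) q)
    exact ⟨Q', by rw [e', e, w', h.c_cor a, mul_assoc]; rfl⟩
  by_cases b : ∃ v s', X.Cor S (S.α d) v s'
  swap
  · push Not at b
    exact Or.inl (fin _ p (by rw [h.c_φ o, c_non b, mul_one]; rfl))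
  obtain ⟨v, s', b⟩ := b
  rcases h.half (off_α o) b with x | ⟨m2, t2, pos2, l2, r2, p2, q2⟩
  · exact x.imp h.sb_α h.exc_α
  obtain ⟨m3, t3, l3, l4, r3, q3⟩ : ∃ m3 t3, m3 ≤ m2 ∧ m + m3 ≤ (X.w d).norm ∧
      Run X.L (X.w (S.α d)).toWord s' m3 t3 pos2 ∧ X.Brk t3 := by
    by_cases c : m + m2 ≤ (X.w d).norm
    · exact ⟨m2, t2, le_rfl, c, r2, q2⟩
    obtain ⟨t3, r3⟩ := r2.le (m' := (X.w d).norm - m) (by omega)
    refine ⟨_, t3, by omega, by omega, r3, ?_⟩
    have e : X.g t3 = X.g t := by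
      have e1 := h.pot d u v ⟨a.1, b.1⟩ a.2.1 b.2.1
      have e2 := F_split (X.w d).toWord m
      rw [FreeGroup.mk_toWord, ← word_α h.val.toPre] at e2
      rw [g_run r3, g_run r, ← a.2.2.2, ← b.2.2.2, eq_mul_inv_iff_mul_eq.1 e2 |>.symm]
      conv_rhs => rw [← mul_assoc]; enter [1, 2]; rw [e1]
      simp [FreeGroup.norm]
    have := h.g_inj (r3.bd (by
      have := norm_α h.val.toPre d
      unfold FreeGroup.norm at *; omega) (h.sh.nb _ _ b.2.2.1).2) (r.bd l (h.sh.nb _ _ a.2.2.1).2) e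
    exact this ▸ q
  obtain ⟨Q2, x, y⟩ := r3.resel (A' := X.B (X.st v)) (l3.trans l2) (fun j hj => p2 j (by omega))
    (h.brk (min_le_left _ _) q3)
  refine Or.inl (fin (fun j => Q2 ((X.w d).toWord.length - 1 - j)) (fun j hj => ?_) ?_)
  · have l4' : m + m3 ≤ (X.w d).toWord.length := l4
    exact (x _ (by omega)).trans ((h.sh.symm d j o (by omega)).trans (p j hj))
  · have y' : FreeGroup.mk (sel (X.w (S.α d)).toWord Q2) = (X.c S (S.α d))⁻¹ * X.w1 (S.α d) := by
      rw [y, h.c_cor b]; rfl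
    rw [word_α h.val.toPre, sel_invRev _ fun j _ => Iff.rfl, ← FreeGroup.inv_mk, h.w1_α o,
      ← mul_inv_rev] at y'
    rw [h.c_φ o]
    exact inv_injective y'

theorem cls (d : D) : X.Sb S d ∨ X.Exc S d := by
  by_cases o : X.Off S d
  · by_cases a : ∃ u s, X.Cor S d u s
    · obtain ⟨u, s, a⟩ := a
      exact h.cls1 o a
    by_cases b : ∃ u s, X.Cor S (S.α d) u s
    · obtain ⟨u, s, b⟩ := b
      exact (h.cls1 (off_α o) b).imp h.sb_α h.exc_α
    push Not at a b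
    exact Or.inl ⟨X.P d, by rw [w', h.c_φ o, c_non a, c_non b, inv_one, one_mul, mul_one]; rfl⟩
  · obtain ⟨i, hi, rfl | rfl⟩ := not_not.1 o
    · exact Or.inl ⟨_, (h.w_path hi).1⟩
    · exact Or.inl (h.sb_α (by rw [S.αα]; exact ⟨_, (h.w_path hi).1⟩))

omit h in
theorem sb_sub (a : X.Sb S d) : (X.w' S d).toWord.Sublist (X.w d).toWord := by
  obtain ⟨Q, e⟩ := a
  rw [e]
  exact (toWord_mk_sublist _).trans (sel_sublist _ _)

omit h in
theorem one_lab {μ : ℕ} (a : X.One S d μ) {x : Lab k} (hx : x ∈ labs (X.w' S d)) :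
    ∃ b, X.L[X.lo μ]? = some (x, b) :=
  olet_labs (a.elim (fun e => Or.inl (e ▸ hx)) fun e => Or.inr (e ▸ hx))

omit h in
theorem one_norm {μ : ℕ} (a : X.One S d μ) : (X.w' S d).norm ≤ 1 := by
  rcases a with e | e <;> rw [e]
  · exact olet_norm _
  · rw [FreeGroup.norm_inv_eq]; exact olet_norm _

/-- the other darts at a vertex where a letter is moved -/
theorem around [Finite D] {μ : ℕ} (a : X.Cor S d u s) (hμ : μ < X.N) (hs : X.In μ s)
    (n : X.Nr u μ) (he : S.vx e = some u) {x y : Lab k} {b : Bool}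
    (hx : X.L[X.lo μ]? = some (x, b)) (hy : y ∈ labs (X.w' S e)) :
    y = x ∨ (x ∈ labs (X.w e) ∧ y ∈ labs (X.w e)) := by
  have off : ∀ e, S.vx e = some u → X.Off S e := by
    rintro e he ⟨i, hi, rfl | rfl⟩
    · have := h.pl i hi.le
      rw [Option.some.inj ((h.pe i hi).1.symm.trans he)] at this
      unfold Nr at n; omega
    · have := h.pl (i + 1) hi
      rw [Option.some.inj ((h.pe i hi).2.symm.trans he)] at this
      unfold Nr at n; omega
  have a' : X.Cor S e u s := sc_ind (R := fun e => X.Cor S e u s)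
    (fun e x => (h.cor_σ (off e x.1)).2 x) (S.vx_cyc d e u a.1 he) a
  have one : X.One S e μ → y = x := fun z => by
    obtain ⟨b', z⟩ := one_lab z hy
    exact (Prod.mk.inj (Option.some.inj (z.symm.trans hx))).1
  have uq : ∀ ν, X.Nr u ν → ν = μ := fun ν z => by unfold Nr at *; omega
  rcases h.cls e with sb | ⟨u', v, s', t, ν, c1, -, -, -, -, c2, -, c3⟩
  swap
  · obtain rfl : u' = u := Option.some.inj (c1.1.symm.trans he)
    exact Or.inl (one (uq ν c2 ▸ c3))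
  obtain ⟨m, t, pos, l, r, p, q⟩ := h.run (off e he) a'.2.2.1
  by_cases c : ∃ j < m, pos j = X.lo μ ∨ pos j = X.hi μ
  · obtain ⟨j, hj, c⟩ := c
    refine Or.inr ⟨r.lab hj (b := b) ?_, ((sb_sub sb).map _).subset hy⟩
    rcases c with c | c <;> rw [c]
    · exact hx
    · exact (h.mv μ hμ).eq.symm.trans hx
  push Not at c
  have ht : X.In μ t := r.stay hs.1 hs.2 c
  obtain ⟨rfl, q'⟩ := q.resolve_left ((h.mv μ hμ).nob t ht.1 ht.2)
  rcases h.full (off e he) a' r p q' with z | ⟨v, ν, -, -, n1, -, z⟩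
  · obtain ⟨x1, x2, -⟩ := (h.mv μ hμ).inn s t hs.1 hs.2 ht.1 ht.2
    have : X.st u = μ ∨ X.st u = μ + 1 := by unfold Nr st at *; omega
    have z1 : X.w' S e = 1 := by
      rcases this with k1 | k1 <;> rw [z, k1]
      · rw [x1, inv_mul_cancel]
      · rw [x2, inv_mul_cancel]
    rw [z1] at hy
    simp [labs] at hy
  · rw [uq ν n1] at z
    exact Or.inl (one (h.one hμ hs ht z))

theorem valid [Finite D] : S.Valid (X.w' S) := by
  have pre := h.val.toPre
  have tt : ∀ e, S.IsT e → X.w' S e = X.w e := fun e he => by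
    have n : ∀ e, S.IsT e → X.c S e = 1 := fun e he => c_non fun v s x => by
      have := he.vx.symm.trans x.1
      simp at this
    rw [w', n e he, n _ ((S.isT_φ e).2 he), inv_one, one_mul, mul_one, w1, sel_all,
      FreeGroup.mk_toWord]
    intro j hj
    have : (X.w e).toWord.length = 1 := isT_norm pre he
    obtain rfl : j = 0 := by omega
    exact h.sh.term e he
  have t0 : ∀ i, S.IsT (S.term i) := fun i => ⟨i, Perm.SameCycle.refl _ _⟩
  obtain ⟨θ, hθ⟩ := h.sh.pot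
  refine ⟨⟨h.w_inv, ⟨fun d => θ d * X.c S d, fun d hd => ?_⟩, fun i => ?_, fun i => ?_,
    fun i => ?_, fun i => ?_⟩, fun d rd => ?_, fun d e i rd re q m m' => ?_⟩
  · beta_reduce
    rw [← hθ d hd, w', w1]; group
  · rw [tt _ (t0 i), pre.t0]
  · rw [tt _ ((S.isT_φ _).2 (t0 i)), pre.t1]
  · rw [tt _ ((S.isT_φ _).2 ((S.isT_φ _).2 (t0 i))), pre.t2]
  · rw [tt _ ((S.isT_φ _).2 ((S.isT_φ _).2 ((S.isT_φ _).2 (t0 i)))), pre.t3]
  · rcases h.cls d with sb | ⟨u, v, s, t, μ, -, -, -, -, -, -, -, o⟩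
    · exact (h.val.edge d rd).sublist ((sb_sub sb).map _)
    · have : (labs (X.w' S d)).length ≤ 1 := by simpa [labs, FreeGroup.norm] using one_norm o
      match labs (X.w' S d), this with
      | [], _ => exact List.Pairwise.nil
      | [_], _ => exact List.pairwise_singleton _ _
  · rcases h.cls d with sb | ⟨u, v, s, t, μ, a, -, l, hs, -, n, -, o⟩
    · rcases h.cls e with sb' | ⟨u, v, s, t, μ, a, -, l, hs, -, n, -, o⟩
      · exact h.val.vert d e i rd re q (((sb_sub sb).map _).subset m) (((sb_sub sb').map _).subset m')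
      · obtain ⟨b, z⟩ := one_lab o m'
        rcases h.around a l hs n (q.trans a.1) z m with y | y
        · simp at y
        · exact h.val.vert d d i rd rd rfl y.2 y.1
    · obtain ⟨b, z⟩ := one_lab o m
      rcases h.around a l hs n (q.symm.trans a.1) z m' with y | y
      · simp at y
      · exact h.val.vert e e i re re rfl y.1 y.2

theorem drop (l : X.N < X.L.length) : ∃ i < X.r, (X.w' S (X.dd i)).norm < (X.w (X.dd i)).norm := by
  by_contra c
  push Not at c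
  have key : ∀ i ≤ X.r, (pw X.w X.dd i).length ≤ (sel (pw X.w X.dd i) X.Ab).length := by
    intro i
    induction i with
    | zero => simp [pw]
    | succ i ih =>
      intro hi
      have := c i hi
      rw [(h.w_path hi).1] at this
      have := this.trans FreeGroup.norm_mk_le
      have := ih (by omega)
      rw [pw_succ, sel_append, List.length_append, List.length_append]
      unfold off FreeGroup.norm at *
      omega
  have e := h.sh.pre _ h.sh.brk.2.1
  rw [sel_take, sel_take, List.take_length] at e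
  have := h.sh.len
  have := key _ le_rfl
  rw [← e] at this
  unfold L at l
  omega

end Ok

end Dt

end TB3

open TB3 in
theorem tb (tb1 : TB1St) : TBSt := by
  classical
  obtain ⟨h, tb1⟩ := tb1
  refine ⟨h + 1, fun k V D _ G U S w lev Λ l₀ Fr hp dd pv r top val min lip pot free ⟨x, y, hxy⟩
    pe pl inj red long big => ?_⟩
  have two : 2 * tw h k ≤ tw (h + 1) k := two_mul_le_two_pow _
  have vs : ∀ {d e u}, S.toHMap.σ.SameCycle d e → S.vx d = some u → S.vx e = some u :=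
    fun {d e u} c a => sc_ind (R := fun e => S.vx e = some u) (fun e x => (S.vx_σ e).trans x) c a
  have nt : ∀ {d u}, S.vx d = some u → ¬S.IsT d := fun a t => by
    have := t.vx.symm.trans a
    simp at this
  have iv : ∀ {d i j}, i ≤ r → j ≤ r → S.vx d = some (pv i) → S.vx d = some (pv j) → i = j :=
    fun hi hj a b => inj _ hi _ hj (Option.some.inj (a.symm.trans b))
  have sp : SPath S dd r := by
    refine ⟨Nat.pos_of_ne_zero ?_, fun i hi => ⟨nt (pe i hi).1, nt (pe i hi).2⟩,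
      fun i hi j hj => ⟨fun e => iv hi.le hj.le (pe i hi).1 (e ▸ (pe j hj).1), fun e => ?_⟩,
      fun i hi => S.vx_cyc _ _ _ (pe i (by omega)).2 (pe _ hi).1,
      fun i hi => ⟨fun e c => nt (vs c (pe _ hi).1), ?_⟩⟩
    · rintro rfl
      simp [pw] at long
    · have a := iv hi.le hj (pe i hi).1 (e ▸ (pe j hj).2)
      have b := iv hi hj.le (pe i hi).2 (by rw [e, S.αα]; exact (pe j hj).1)
      omega
    · rintro e ⟨j, hj, rfl | rfl⟩ c
      · exact Or.inl (by rw [iv hj.le hi.le (pe j hj).1 (vs c (pe _ hi).1)])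
      · have := iv hj hi.le (pe j hj).2 (vs c (pe _ hi).1)
        exact Or.inr (by rw [show j = i by omega])
  have gap : ∀ z : FG k, ∃ q, ∀ s ≤ (pw w dd r).length,
      z = hp (pv 0) * F (pw w dd r) (fun _ => True) s → s = q := by
    intro z
    by_cases c : ∃ s ≤ (pw w dd r).length, z = hp (pv 0) * F (pw w dd r) (fun _ => True) s
    · obtain ⟨q, hq, e⟩ := c
      exact ⟨q, fun s hs e' => take_inj red hs hq (mul_left_cancel (e'.symm.trans e))⟩
    · exact ⟨0, fun s hs e => absurd ⟨s, hs, e⟩ c⟩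
  obtain ⟨g₁, q₁⟩ := gap x
  obtain ⟨g₂, q₂⟩ := gap y
  obtain ⟨Brk, At, Ab, P, Tp, sh⟩ := tb1 k V D G U S w dd r g₁ g₂ top val min sp red
  obtain ⟨B, lo, hi, b0, bN, mv⟩ := moves sh.brk.2.1 sh.pre sh.len
  let X : Dt k V D := ⟨w, lev, Λ, l₀, Fr, hp, dd, pv, r, tw h k, Brk, At, Ab, P, Tp, B, lo, hi⟩
  have ok : X.Ok S g₁ g₂ := ⟨val, lip, pot, pe, pl, red, by show l₀ + 2 * tw h k ≤ Λ; omega, sh,
    fun a ha l s hs e => (hxy a ha l).elim
      (fun z => q₁ s hs (z.symm.trans e) ▸ sh.brk.2.2.1)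
      fun z => q₂ s hs (z.symm.trans e) ▸ sh.brk.2.2.2, b0, bN, mv⟩
  refine ⟨X.w' S, ok.valid, fun d u v e hu hv => ?_,
    ok.drop (by show tw h k < (pw w dd r).length; omega), fun d => ?_⟩
  · rcases ok.cls d with sb | ⟨u', v', s, t, μ, a, -⟩
    · have := Dt.Ok.sb_sub sb
      rw [show X.w d = 1 from free d u v e hu hv] at this
      simpa using this
    · exact absurd (Option.some.inj (e.1.symm.trans a.1) ▸ hu) (ok.nfr a)
  · rcases ok.cls d with sb | ⟨u, v, s, t, μ, a, b, -, -, -, n1, n2, o⟩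
    · exact Or.inl (Dt.Ok.sb_sub sb)
    · refine Or.inr ⟨Dt.Ok.one_norm o, u, v, ⟨a.1, b.1⟩, ?_, ?_, a.2.1, b.2.1⟩
      · have : lev u = l₀ + 2 * μ + 1 ∨ lev u = l₀ + 2 * μ + 2 := n1
        omega
      · have : lev v = l₀ + 2 * μ + 1 ∨ lev v = l₀ + 2 * μ + 2 := n2
        omega

end Pool.Agent.Lib.MP_c1f5fe_lc
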