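import Pool.Agent.Lib.MP_c1f5fe_lc.SpecB
import Pool.Agent.Lib.MP_c1f5fe_lc.Tb

/-! Tight solutions: a solution of least weight has short geodesic words at level zero. -/

namespace Pool.Agent.Lib.MP_c1f5fe_lc

namespace Tight

open FreeGroup (invRev IsReduced)

variable {k : ℕ} {V D : Type} {G : SimpleGraph V} {U : Set V}

theorem red_word {L : List (Let k)} (h : IsReduced L) : (FreeGroup.mk L).toWord = L :=
  FreeGroup.toWord_mk.trans h.reduce_eq

theorem red_inv {L : List (Let k)} (h : IsReduced L) : IsReduced (invRev L) := by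
  rw [← red_word h, ← FreeGroup.toWord_inv]
  exact FreeGroup.isReduced_toWord

theorem red_pre {L L' : List (Let k)} (h : IsReduced L') (p : L <+: L') : IsReduced L := by
  obtain ⟨t, rfl⟩ := p
  exact List.IsChain.left_of_append h

theorem inv_sub {L L' : List (Let k)} (h : L.Sublist L') : (invRev L).Sublist (invRev L') :=
  (h.map _).reverse

theorem inv_sing (x : Let k) : invRev [x] = [linv x] := rfl

theorem E.rev {S : Sk k G U D} {d : D} {u v : V} (h : S.E d u v) : S.E (S.α d) v u :=
  ⟨h.2, by rw [S.αα]; exact h.1⟩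

/-- walks through vertices of level at most `l`, with the word read along them -/
inductive Wk (S : Sk k G U D) (w : D → FG k) (lev : V → ℕ) (l : ℕ) (a : V) :
    V → List (Let k) → Prop
  | nil : lev a ≤ l → Wk S w lev l a a []
  | snoc {b c : V} {L : List (Let k)} (d : D) : Wk S w lev l a b L → S.E d b c → lev c ≤ l →
      Wk S w lev l a c (L ++ (w d).toWord)

variable {S : Sk k G U D} {w : D → FG k} {lev : V → ℕ} {Λ l l' : ℕ} {a b c : V}
  {L L' : List (Let k)} {hp : V → FG k} {Fr : Set V}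

theorem Wk.mono (h : Wk S w lev l a b L) (p : l ≤ l') : Wk S w lev l' a b L := by
  induction h with
  | nil q => exact .nil (q.trans p)
  | snoc d _ e q ih => exact .snoc d ih e (q.trans p)

theorem Wk.right (h : Wk S w lev l a b L) : lev b ≤ l := by
  cases h with
  | nil q => exact q
  | snoc d _ e q => exact q

theorem Wk.left (h : Wk S w lev l a b L) : lev a ≤ l := by
  induction h with
  | nil q => exact q
  | snoc d _ e q ih => exact ih

theorem Wk.trans (h : Wk S w lev l a b L) (h' : Wk S w lev l b c L') :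
    Wk S w lev l a c (L ++ L') := by
  induction h' with
  | nil q => rwa [List.append_nil]
  | snoc d _ e q ih => rw [← List.append_assoc]; exact .snoc d ih e q

theorem Wk.rev (hw : S.Pre w) (h : Wk S w lev l a b L) : Wk S w lev l b a (invRev L) := by
  induction h with
  | nil q => exact .nil q
  | snoc d h e q ih =>
    have := (Wk.snoc (w := w) (S.α d) (.nil q) (E.rev e) h.right).trans ih
    rwa [List.nil_append, hw.inv, FreeGroup.toWord_inv, ← FreeGroup.invRev_append] at this

theorem Wk.pot (pot : S.PotOn w {v | lev v ≤ Λ} hp) (p : l ≤ Λ) (h : Wk S w lev l a b L) :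
    hp a * FreeGroup.mk L = hp b := by
  induction h with
  | nil q => exact mul_one _
  | snoc d h e q ih =>
    rw [← FreeGroup.mul_mk, ← mul_assoc, ih, FreeGroup.mk_toWord,
      pot d _ _ e (h.right.trans p) (q.trans p), mul_inv_cancel_left]

theorem Wk.last (h : Wk S w lev l a b L) : ∀ {L₀ : List (Let k)} {ε : Let k}, L = L₀ ++ [ε] →
    ∃ e u v, S.E e u v ∧ lev u ≤ l ∧ w e ≠ 1 ∧ Wk S w lev l v b [] := by
  induction h with
  | nil q => intro L₀ ε e; simp at e
  | snoc d h e q ih =>
    intro L₀ ε e'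
    by_cases t : w d = 1
    · rw [t, FreeGroup.toWord_one, List.append_nil] at e'
      obtain ⟨f, u, v, p1, p2, p3, p4⟩ := ih e'
      have := Wk.snoc d p4 e q
      rw [t] at this
      exact ⟨f, u, v, p1, p2, p3, this⟩
    · exact ⟨d, _, _, e, h.right, t, .nil q⟩

theorem pw_succ (dd : ℕ → D) (r : ℕ) : pw w dd (r + 1) = pw w dd r ++ (w (dd r)).toWord := by
  simp [pw, List.range_succ]

theorem pw_pre (dd : ℕ → D) {i r : ℕ} (h : i ≤ r) : pw w dd i <+: pw w dd r := by
  induction h with
  | refl => exact ⟨[], List.append_nil _⟩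
  | step _ ih => rw [pw_succ]; exact ih.trans ⟨_, rfl⟩

theorem pw_congr {dd dd' : ℕ → D} {r : ℕ} (h : ∀ i < r, dd i = dd' i) :
    pw w dd r = pw w dd' r := by
  induction r with
  | zero => rfl
  | succ r ih => rw [pw_succ, pw_succ, ih fun i p => h i (by omega), h r (by omega)]

theorem Wk.path (pot : S.PotOn w {v | lev v ≤ Λ} hp) (p : l ≤ Λ) (d₀ : D)
    (h : Wk S w lev l a b L) : IsReduced L → ∃ (r : ℕ) (dd : ℕ → D) (pv : ℕ → V),
      (∀ i < r, S.E (dd i) (pv i) (pv (i + 1))) ∧ (∀ i ≤ r, Wk S w lev l a (pv i) (pw w dd i)) ∧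
      (∀ i ≤ r, ∀ j ≤ r, pv i = pv j → i = j) ∧ pv r = b ∧ pw w dd r = L := by
  induction h with
  | nil q =>
    intro _
    refine ⟨0, fun _ => d₀, fun _ => a, fun i h => absurd h (Nat.not_lt_zero _), fun i h => ?_,
      fun i h j h' _ => by omega, rfl, rfl⟩
    obtain rfl : i = 0 := by omega
    exact .nil q
  | @snoc b c L d h e q ih =>
    intro red
    classical
    obtain ⟨r, dd, pv, p1, p2, p3, p4, p5⟩ := ih (red_pre red ⟨_, rfl⟩)
    by_cases m : ∃ i ≤ r, pv i = c
    · obtain ⟨i, hi, m⟩ := m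
      refine ⟨i, dd, pv, fun j h => p1 j (by omega), fun j h => p2 j (by omega),
        fun j h j' h' => p3 j (by omega) j' (by omega), m, ?_⟩
      have a1 := (p2 i hi).pot pot p
      have a2 := (Wk.snoc d h e q).pot pot p
      rw [m, ← a2, mul_left_cancel_iff] at a1
      have r1 : IsReduced (pw w dd i) :=
        red_pre red ((p5 ▸ pw_pre dd hi).trans ⟨_, rfl⟩)
      rw [← red_word r1, a1, red_word red]
    · have c1 : ∀ i ≤ r, pw w (Function.update dd r d) i = pw w dd i := fun i h =>
        pw_congr fun j h' => Function.update_of_ne (by omega) _ _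
      have c2 : pw w (Function.update dd r d) (r + 1) = L ++ (w d).toWord := by
        rw [pw_succ, c1 r le_rfl, p5, Function.update_self]
      have c3 : ∀ i ≤ r, Function.update pv (r + 1) c i = pv i := fun i h =>
        Function.update_of_ne (by omega) _ _
      refine ⟨r + 1, Function.update dd r d, Function.update pv (r + 1) c, fun i h => ?_,
        fun i h' => ?_, fun i h j h' e => ?_, Function.update_self _ _ _, c2⟩
      · rcases Nat.lt_succ_iff_lt_or_eq.1 h with h | rfl
        · rw [Function.update_of_ne h.ne, c3 i h.le, c3 (i + 1) h]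
          exact p1 i h
        · rw [Function.update_self, Function.update_self, c3 i le_rfl, p4]
          exact e
      · rcases Nat.le_succ_iff.1 h' with h' | rfl
        · rw [c1 i h', c3 i h']
          exact p2 i h'
        · rw [c2, Function.update_self]
          exact .snoc d h e q
      · rcases Nat.le_succ_iff.1 h with h | rfl <;> rcases Nat.le_succ_iff.1 h' with h' | rfl
        · rw [c3 i h, c3 j h'] at e
          exact p3 i h j h' e
        · rw [c3 i h, Function.update_self] at e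
          exact absurd ⟨i, h, e⟩ m
        · rw [c3 j h', Function.update_self] at e
          exact absurd ⟨j, h', e.symm⟩ m
        · rfl

/-- the larger level of the ends -/
def ml (S : Sk k G U D) (lev : V → ℕ) (Λ : ℕ) (d : D) : ℕ :=
  max ((S.vx d).elim (Λ + 1) lev) ((S.vx (S.α d)).elim (Λ + 1) lev)

theorem ml_eq {d : D} {u v : V} (h : S.E d u v) : ml S lev Λ d = max (lev u) (lev v) := by
  rw [ml, h.1, h.2]; rfl

def Phi [Fintype D] (S : Sk k G U D) (lev : V → ℕ) (Λ : ℕ) (w : D → FG k) : ℕ :=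
  ∑ d, (Fintype.card D + 1) ^ (Λ + 1 - ml S lev Λ d) * (w d).norm

theorem drop [Fintype D] {w' : D → FG k} (p : l ≤ Λ) (d₀ : D) (h0 : (w' d₀).norm < (w d₀).norm)
    (h1 : ml S lev Λ d₀ ≤ l)
    (h : ∀ d, (w' d).norm ≤ (w d).norm ∨ ((w' d).norm ≤ 1 ∧ l < ml S lev Λ d)) :
    Phi S lev Λ w' < Phi S lev Λ w := by
  classical
  set n := Fintype.card D with hn
  set c := (n + 1) ^ (Λ - l) with hc
  have c0 : 0 < c := pow_pos (Nat.succ_pos _) _
  have key : ∑ d, ((n + 1) ^ (Λ + 1 - ml S lev Λ d) * (w' d).norm +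
      if d = d₀ then (n + 1) * c else 0) ≤
      ∑ d, ((n + 1) ^ (Λ + 1 - ml S lev Λ d) * (w d).norm + c) := by
    refine Finset.sum_le_sum fun d _ => ?_
    split_ifs with e
    · subst e
      have a1 : (n + 1) * c ≤ (n + 1) ^ (Λ + 1 - ml S lev Λ d) := by
        rw [hc, ← pow_succ']
        exact Nat.pow_le_pow_right (by omega) (by omega)
      have a2 := Nat.mul_le_mul_left ((n + 1) ^ (Λ + 1 - ml S lev Λ d)) (Nat.succ_le_of_lt h0)
      rw [Nat.mul_succ] at a2
      omega
    · rcases h d with h | ⟨h, h'⟩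
      · have := Nat.mul_le_mul_left ((n + 1) ^ (Λ + 1 - ml S lev Λ d)) h
        omega
      · have a1 : (n + 1) ^ (Λ + 1 - ml S lev Λ d) ≤ c :=
          Nat.pow_le_pow_right (by omega) (by omega)
        have := Nat.mul_le_mul_left ((n + 1) ^ (Λ + 1 - ml S lev Λ d)) h
        omega
  rw [Finset.sum_add_distrib, Finset.sum_add_distrib, Finset.sum_ite_eq', if_pos (Finset.mem_univ _),
    Finset.sum_const, Finset.card_univ, smul_eq_mul, ← hn, Nat.add_mul] at key
  unfold Phi
  rw [← hn]
  omega

theorem min_of [Fintype D] (hF : S.FreeOn w Fr)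
    (hm : ∀ w', S.Valid w' → S.FreeOn w' Fr → Phi S lev Λ w ≤ Phi S lev Λ w') : S.Min w := by
  intro w' v sub
  have f : S.FreeOn w' Fr := fun d x y e p q => by
    have := sub d
    rwa [hF d x y e p q, FreeGroup.toWord_one, List.sublist_nil, FreeGroup.toWord_eq_nil_iff] at this
  funext d
  by_contra ne
  refine absurd (hm w' v f) (not_le.2 (Finset.sum_lt_sum
    (fun e _ => Nat.mul_le_mul_left _ (sub e).length_le) ⟨d, Finset.mem_univ _, ?_⟩))
  refine Nat.mul_lt_mul_of_pos_left (lt_of_le_of_ne (sub d).length_le fun e => ne ?_)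
    (pow_pos (Nat.succ_pos _) _)
  exact FreeGroup.toWord_injective ((sub d).eq_of_length e)

theorem switch (hV : S.Valid w) (hF : S.FreeOn w Fr) (Y N : Set V) (ε : Let k) (YN : Y ⊆ N)
    (ha : ∀ d y, S.vx d = some y → y ∈ Y → ∃ z, S.vx (S.α d) = some z ∧
      ((z ∈ Y ∧ w d = 1) ∨ (z ∉ Y ∧ z ∈ N ∧ w d = 1 ∧ l < lev z) ∨
        (z ∉ Y ∧ ∃ t, (w d).toWord = linv ε :: t)))
    (hb : ∀ d z, S.vx d = some z → z ∈ N → w d = 1 ∨ ∃ t, (w d).toWord = linv ε :: t)
    (hc : ∀ y ∈ Y, y ∉ Fr) :
    ∃ w', S.Valid w' ∧ S.FreeOn w' Fr ∧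
      (∀ d y, S.vx d = some y → y ∈ Y → w d ≠ 1 → (w' d).norm < (w d).norm) ∧
      ∀ d, (w' d).norm ≤ (w d).norm ∨ ((w' d).norm ≤ 1 ∧ l < ml S lev Λ d) := by
  classical
  let c : D → FG k := fun d => if ∃ y ∈ Y, S.vx d = some y then FreeGroup.mk [linv ε] else 1
  let w' : D → FG k := fun d => (c d)⁻¹ * w d * c (S.φ d)
  have pre : S.Pre w' := hV.toPre.switch c (fun d => by simp only [c, S.vx_σ])
    fun d t => if_neg (by rintro ⟨y, -, e⟩; rw [t.vx] at e; cases e)
  have cY : ∀ d y, S.vx d = some y → y ∈ Y → c d = FreeGroup.mk [linv ε] :=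
    fun d y e m => if_pos ⟨y, m, e⟩
  have cN : ∀ d y, S.vx d = some y → y ∉ Y → c d = 1 := fun d y e m => if_neg (by
    rintro ⟨y', m', e'⟩
    rw [e] at e'
    cases e'
    exact m m')
  have tl : ∀ d y z t, S.vx d = some y → y ∈ Y → S.vx (S.α d) = some z → z ∉ Y →
      (w d).toWord = linv ε :: t → (w' d).toWord = t := by
    intro d y z t e m e' m' ht
    have r : IsReduced t := List.IsChain.tail (ht ▸ FreeGroup.isReduced_toWord (x := w d) :
      IsReduced (linv ε :: t))
    have : w d = FreeGroup.mk [linv ε] * FreeGroup.mk t := by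
      rw [FreeGroup.mul_mk, List.singleton_append, ← ht, FreeGroup.mk_toWord]
    simp only [w']
    rw [cY d y e m, cN _ z ((S.vx_φ d).trans e') m', this, inv_mul_cancel_left, mul_one,
      red_word r]
  let R : D → Prop := fun d => (w' d).toWord.Sublist (w d).toWord ∨
    (l < ml S lev Λ d ∧ (∃ u v, S.E d u v ∧ u ∈ N ∧ v ∈ N) ∧
      ∃ b, (w' d).toWord = [(ε.1, b)])
  have RY : ∀ d y, S.vx d = some y → y ∈ Y → R d := by
    intro d y e m
    obtain ⟨z, e', h | h | ⟨h, t, ht⟩⟩ := ha d y e m
    · left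
      simp only [w']
      rw [cY d y e m, cY _ z ((S.vx_φ d).trans e') h.1, h.2, mul_one, inv_mul_cancel]
    · right
      refine ⟨?_, ⟨y, z, ⟨e, e'⟩, YN m, h.2.1⟩, ε.2, ?_⟩
      · rw [ml_eq ⟨e, e'⟩]
        exact lt_max_of_lt_right h.2.2.2
      · simp only [w']
        rw [cY d y e m, cN _ z ((S.vx_φ d).trans e') h.1, h.2.2.1, mul_one, mul_one,
          FreeGroup.toWord_inv, red_word IsReduced.singleton, inv_sing]
        simp [linv]
    · left
      rw [tl d y z t e m e' h ht, ht]
      exact List.sublist_cons_self _ _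
  have RA : ∀ d, R d := by
    intro d
    by_cases p : ∃ y ∈ Y, S.vx d = some y
    · obtain ⟨y, m, e⟩ := p
      exact RY d y e m
    by_cases q : ∃ y ∈ Y, S.vx (S.α d) = some y
    · obtain ⟨y, m, e⟩ := q
      have e1 : (w' d).toWord = invRev (w' (S.α d)).toWord := by
        rw [← FreeGroup.toWord_inv, pre.inv, inv_inv]
      have e2 : (w d).toWord = invRev (w (S.α d)).toWord := by
        rw [← FreeGroup.toWord_inv, hV.inv, inv_inv]
      rcases RY _ y e m with h | ⟨h1, ⟨u, v, h2, h3, h4⟩, b, h5⟩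
      · left
        rw [e1, e2]
        exact inv_sub h
      · right
        have h6 := E.rev h2
        rw [S.αα] at h6
        refine ⟨?_, ⟨v, u, h6, h4, h3⟩, !b, ?_⟩
        · rw [ml_eq h6, max_comm, ← ml_eq (Λ := Λ) h2]
          exact h1
        · rw [e1, h5]
          rfl
    · left
      have a1 : c d = 1 := if_neg p
      have a2 : c (S.φ d) = 1 := if_neg (by rwa [S.vx_φ])
      simp only [w']
      rw [a1, a2, inv_one, one_mul, mul_one]
  have Q : ∀ f u, S.real f → S.vx f = some u → u ∈ N → ∀ x ∈ labs (w' f), x.1 = ε.1.1 →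
      x = ε.1 := by
    intro f u r e m x hx e1
    rcases RA f with h | ⟨-, -, b, h⟩
    · have hx : x ∈ labs (w f) := (h.map Prod.fst).subset hx
      rcases hb f u e m with t | ⟨t, ht⟩
      · simp [labs, t] at hx
      · have pw := hV.edge f r
        unfold labs at hx pw
        rw [ht, List.map_cons] at hx pw
        rcases List.mem_cons.1 hx with hx | hx
        · exact hx
        · have := (List.pairwise_cons.1 pw).1 x hx
          refine absurd this ?_
          have := S.ok_idx x.1 ε.1.2 x.2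
          rwa [show (x.1, ε.1.2) = ε.1 by rw [e1]] at this
    · unfold labs at hx
      rw [h] at hx
      simpa using hx
  refine ⟨w', ⟨pre, fun d r => ?_, fun d e i r r' ev h h' => ?_⟩, fun d u v e p q => ?_,
    fun d y e m ne => ?_, fun d => ?_⟩
  · rcases RA d with h | ⟨-, -, b, h⟩
    · exact (hV.edge d r).sublist (h.map Prod.fst)
    · unfold labs
      rw [h]
      exact List.pairwise_singleton _ _
  · rcases RA d with s | ⟨-, ⟨u, v, a1, a2, -⟩, b, s⟩
    · rcases RA e with s' | ⟨-, ⟨u, v, a1, a2, -⟩, b, s'⟩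
      · exact hV.vert d e i r r' ev ((s.map Prod.fst).subset h) ((s'.map Prod.fst).subset h')
      · have a3 : (i, true) = ε.1 := by
          unfold labs at h'
          rw [s'] at h'
          simpa using h'
        have a4 := Q d u r (ev.trans a1.1) a2 _ h (by rw [← a3])
        rw [← a3] at a4
        cases a4
    · have a3 : (i, false) = ε.1 := by
        unfold labs at h
        rw [s] at h
        simpa using h
      have a4 := Q e u r' (ev.symm.trans a1.1) a2 _ h' (by rw [← a3])
      rw [← a3] at a4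
      cases a4
  · simp only [w']
    rw [cN d u e.1 fun m => hc u m p, cN _ v ((S.vx_φ d).trans e.2) fun m => hc v m q,
      hF d u v e p q, inv_one, one_mul, mul_one]
  · obtain ⟨z, e', h | h | ⟨h, t, ht⟩⟩ := ha d y e m
    · exact absurd h.2 ne
    · exact absurd h.2.2.1 ne
    · unfold FreeGroup.norm
      rw [tl d y z t e m e' h ht, ht]
      exact Nat.lt_succ_self _
  · rcases RA d with h | ⟨h, -, b, h'⟩
    · exact Or.inl h.length_le
    · refine Or.inr ⟨?_, h⟩
      unfold FreeGroup.norm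
      rw [h']
      exact le_rfl

theorem grow [Fintype D] (hV : S.Valid w) (hF : S.FreeOn w Fr) (lip : S.Lip lev Λ Fr)
    (pot : S.PotOn w {v | lev v ≤ Λ} hp)
    (hm : ∀ w', S.Valid w' → S.FreeOn w' Fr → Phi S lev Λ w ≤ Phi S lev Λ w')
    (p : l + 3 ≤ Λ) (h : Wk S w lev l a b L) (red : IsReduced L) (ne : L ≠ []) :
    ∃ z L', Wk S w lev (l + 3) a z (L ++ L') ∧ IsReduced (L ++ L') ∧ (z ∈ Fr ∨ L' ≠ []) := by
  by_contra no
  obtain ⟨L₀, ε, e0⟩ : ∃ L₀ ε, L = L₀ ++ [ε] :=
    ⟨L.dropLast, L.getLast ne, (List.dropLast_append_getLast ne).symm⟩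
  have nf : ∀ z, Wk S w lev (l + 2) b z [] → z ∉ Fr := fun z hz m =>
    no ⟨z, [], (h.mono (by omega)).trans (hz.mono (by omega)), by rwa [List.append_nil], Or.inl m⟩
  have hb : ∀ d z, S.vx d = some z → Wk S w lev (l + 2) b z [] →
      w d = 1 ∨ ∃ t, (w d).toWord = linv ε :: t := by
    intro d z e hz
    have := hz.right
    obtain ⟨z', e', lz⟩ := lip d z e (nf z hz) (by omega)
    cases ht : (w d).toWord with
    | nil => exact Or.inl (FreeGroup.toWord_eq_nil_iff.1 ht)
    | cons x t =>
      right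
      by_contra nx
      have nx : x ≠ linv ε := fun e => nx ⟨t, by rw [e]⟩
      have wk := (h.mono (show l ≤ l + 3 by omega)).trans
        (Wk.snoc d (hz.mono (by omega)) ⟨e, e'⟩ (by omega))
      rw [List.nil_append, ht] at wk
      refine no ⟨z', x :: t, wk, ?_, Or.inr (List.cons_ne_nil _ _)⟩
      have r : IsReduced (x :: t) := ht ▸ FreeGroup.isReduced_toWord
      rw [e0] at red ⊢
      rw [List.append_assoc, List.singleton_append]
      refine List.isChain_split.2 ⟨red, FreeGroup.isReduced_cons_cons.2 ⟨fun e1 => ?_, r⟩⟩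
      by_contra e2
      refine nx (Prod.ext e1.symm ?_)
      show x.2 = !ε.2
      revert e2
      cases x.2 <;> cases ε.2 <;> simp
  obtain ⟨w', v', f', s1, s2⟩ := switch (l := l) (lev := lev) (Λ := Λ) hV hF
    {y | Wk S w lev (l + 1) b y []} {y | Wk S w lev (l + 2) b y []} ε
    (fun y m => Wk.mono m (by omega)) (fun d y e m => by
      have m : Wk S w lev (l + 1) b y [] := m
      have := m.right
      obtain ⟨z, e', lz⟩ := lip d y e (nf y (m.mono (by omega))) (by omega)
      refine ⟨z, e', ?_⟩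
      by_cases t : w d = 1
      · by_cases zY : Wk S w lev (l + 1) b z []
        · exact Or.inl ⟨zY, t⟩
        · refine Or.inr (Or.inl ⟨zY, ?_, t, ?_⟩)
          · have := Wk.snoc d (m.mono (show l + 1 ≤ l + 2 by omega)) ⟨e, e'⟩ (by omega)
            rwa [t] at this
          · by_contra lt
            have := Wk.snoc d m ⟨e, e'⟩ (by omega)
            rw [t] at this
            exact zY this
      · refine Or.inr (Or.inr ⟨fun zY => t ?_,
          (hb d y e (m.mono (by omega))).resolve_left t⟩)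
        have zY : Wk S w lev (l + 1) b z [] := zY
        have a1 := m.pot pot (by omega)
        have a2 := zY.pot pot (by omega)
        rw [pot d y z ⟨e, e'⟩ (show lev y ≤ Λ by omega) (show lev z ≤ Λ by omega), ← a1, ← a2,
          inv_mul_cancel])
    hb fun y m => nf y (Wk.mono m (by omega))
  obtain ⟨e, u, v, p1, p2, p3, p4⟩ := h.last e0
  refine absurd (hm w' v' f') (not_le.2 (drop (l := l) (by omega) (S.α e)
    (s1 _ v p1.2 ((p4.rev hV.toPre).mono (by omega)) ?_) ?_ s2))
  · rwa [hV.inv, ne_eq, inv_eq_one]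
  · rw [ml_eq (E.rev p1)]
    exact max_le p4.left p2

theorem grows [Fintype D] (hV : S.Valid w) (hF : S.FreeOn w Fr) (lip : S.Lip lev Λ Fr)
    (pot : S.PotOn w {v | lev v ≤ Λ} hp)
    (hm : ∀ w', S.Valid w' → S.FreeOn w' Fr → Phi S lev Λ w ≤ Phi S lev Λ w')
    (h : Wk S w lev l a b L) (red : IsReduced L) (ne : L ≠ []) (j : ℕ) (p : l + 3 * j ≤ Λ) :
    ∃ z L', Wk S w lev (l + 3 * j) a z (L ++ L') ∧ IsReduced (L ++ L') ∧
      (z ∈ Fr ∨ j ≤ L'.length) := by
  induction j with
  | zero => exact ⟨b, [], by rwa [List.append_nil], by rwa [List.append_nil], Or.inr le_rfl⟩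
  | succ j ih =>
    obtain ⟨z, L', a1, a2, a3 | a3⟩ := ih (by omega)
    · exact ⟨z, L', a1.mono (by omega), a2, Or.inl a3⟩
    · obtain ⟨z', L'', b1, b2, b3⟩ := grow hV hF lip pot hm (by omega) a1 a2 (by simp [ne])
      rw [List.append_assoc] at b1 b2
      refine ⟨z', L' ++ L'', b1, b2, b3.imp_right fun n => ?_⟩
      have := List.length_pos_iff.2 n
      rw [List.length_append]
      omega

end Tight

open Tight in
theorem tst : MinSt → TBSt → TSt := by
  rintro - ⟨h, hT⟩
  obtain ⟨h', hb⟩ : TB (fun k : ℕ => k) fun k => 7 * tw h k + 6 :=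
    ((TB.const 7).mul (TB.tw h (TB.self' _))).add (TB.const 6)
  refine ⟨h', fun k V D _ G U S w₀ lev Λ Fr top hΛ lip _ two v₀ f₀ => ?_⟩
  classical
  have := Fintype.ofFinite D
  have hb : 7 * tw h k + 6 ≤ tw h' k := hb k
  have ex : ∃ n, ∃ w, S.Valid w ∧ S.FreeOn w Fr ∧ Phi S lev Λ w = n := ⟨_, w₀, v₀, f₀, rfl⟩
  obtain ⟨w, hV, hF, e⟩ := Nat.find_spec ex
  have hm : ∀ w', S.Valid w' → S.FreeOn w' Fr → Phi S lev Λ w ≤ Phi S lev Λ w' :=
    fun w' a b => e ▸ Nat.find_min' ex ⟨w', a, b, rfl⟩
  have mn : S.Min w := min_of hF hm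
  refine ⟨w, hV, mn, hF, fun hp pot d u v ed lu lv ne => ?_⟩
  have short : ∀ a b L, Wk S w lev (6 * tw h k + 6) a b L → FreeGroup.IsReduced L →
      L.length ≤ tw h k := by
    intro a b L wk red
    by_contra lt
    obtain ⟨r, dd, pv, p1, p2, p3, -, p5⟩ := wk.path pot (by omega) d red
    obtain ⟨w', a1, a2, ⟨i, ir, a3⟩, a4⟩ := hT k V D G U S w lev Λ (6 * tw h k + 6) Fr hp dd pv r
      top hV mn lip pot hF (two w hp hV hF pot) p1 (fun i p => (p2 i p).right) p3
      (by rw [p5, red_word red]) (by rw [p5]; omega) (by omega)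
    refine absurd (hm w' a1 a2) (not_le.2 (drop (l := 6 * tw h k + 6) (by omega) (dd i) a3 ?_
      fun e => (a4 e).imp (fun s => s.length_le) ?_))
    · rw [ml_eq (p1 i ir)]
      exact max_le (p2 i ir.le).right (p2 (i + 1) ir).right
    · rintro ⟨b1, x, y, b2, b3, -⟩
      refine ⟨b1, ?_⟩
      rw [ml_eq b2]
      exact lt_max_of_lt_left b3
  have w0 : Wk S w lev 0 u v (w d).toWord := Wk.snoc d (.nil lu.le) ed lv.le
  have n0 : (w d).toWord ≠ [] := fun e => ne (FreeGroup.toWord_eq_nil_iff.1 e)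
  obtain ⟨z, L₁, a1, a2, a3⟩ := grows hV hF lip pot hm w0 FreeGroup.isReduced_toWord n0
    (tw h k + 1) (by omega)
  have zF : z ∈ Fr := a3.resolve_right fun l => by
    have := short _ _ _ (a1.mono (by omega)) a2
    rw [List.length_append] at this
    omega
  obtain ⟨z', L₂, b1, b2, b3⟩ := grows hV hF lip pot hm (a1.rev hV.toPre) (red_inv a2)
    (fun e => n0 (by
      have := congrArg List.length e
      rw [FreeGroup.invRev_length, List.length_append, List.length_nil] at this
      exact List.length_eq_zero_iff.1 (by omega)))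
    (tw h k + 1) (by omega)
  have sh := short _ _ _ (b1.mono (by omega)) b2
  have zF' : z' ∈ Fr := b3.resolve_right fun l => by
    rw [List.length_append] at sh
    omega
  have c1 := b1.pot pot (by omega)
  have c2 := (a1.rev hV.toPre).pot pot (by omega)
  have c3 := w0.pot pot (by omega)
  have c4 : ((hp z)⁻¹ * hp z').toWord = FreeGroup.invRev ((w d).toWord ++ L₁) ++ L₂ := by
    rw [← c1, inv_mul_cancel_left, red_word b2]
  have l1 := b1.left
  have l2 := b1.right
  refine ⟨z, zF, z', zF', by omega, by omega, ?_, (FreeGroup.invRev ((w d).toWord ++ L₁)).length,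
    (FreeGroup.invRev L₁).length, ?_, ?_⟩
  · unfold FreeGroup.norm
    rw [c4]
    omega
  · rw [c4, List.take_left, c2]
  · rw [c4, FreeGroup.invRev_append, List.append_assoc, List.take_left, ← c3, ← c2,
      FreeGroup.invRev_append, ← FreeGroup.mul_mk, ← FreeGroup.inv_mk (L := (w d).toWord)]
    group

end Pool.Agent.Lib.MP_c1f5fe_lc
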