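import Pool.Agent.Lib.MP_c1f5fe_lc.SpecB
import Pool.Agent.Lib.MP_c1f5fe_lc.Tb

/-! Unbreakable sets and the main dichotomy. -/

namespace Pool.Agent.Lib.MP_c1f5fe_lc

open Equiv Function Relation

namespace UnbL

section comp
variable {V : Type} {G : SimpleGraph V}

/-- the component of `x` inside `X` -/
def cp (G : SimpleGraph V) (X : Set V) (x : V) : Set V :=
  {y | ReflTransGen (fun a b => G.Adj a b ∧ a ∈ X ∧ b ∈ X) x y}

lemma cp_self (X : Set V) (x : V) : x ∈ cp G X x := ReflTransGen.refl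

lemma cp_sub {X : Set V} {x : V} (hx : x ∈ X) : cp G X x ⊆ X := by
  intro y hy
  induction hy with
  | refl => exact hx
  | tail _ h _ => exact h.2.2

lemma cp_nb {X : Set V} {x : V} (hx : x ∈ X) : nb G (cp G X x) ⊆ nb G X := by
  rintro v ⟨h1, y, h2, h3⟩
  refine ⟨fun h4 => h1 (ReflTransGen.tail h2 ⟨h3, cp_sub hx h2, h4⟩), y, cp_sub hx h2, h3⟩

lemma cp_cn (X : Set V) (x : V) : Cn G (cp G X x) := by
  have key : ∀ y ∈ cp G X x, ReflTransGen
      (fun a b => G.Adj a b ∧ a ∈ cp G X x ∧ b ∈ cp G X x) x y := by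
    intro y hy
    induction hy with
    | refl => exact ReflTransGen.refl
    | tail h1 h2 ih => exact ih.tail ⟨h2.1, h1, ReflTransGen.tail h1 h2⟩
  refine ⟨⟨x, cp_self X x⟩, fun a ha b hb => ReflTransGen.trans ?_ (key b hb)⟩
  have h := key a ha
  clear ha
  induction h with
  | refl => exact ReflTransGen.refl
  | tail _ h2 ih => exact ReflTransGen.head ⟨h2.1.symm, h2.2.2, h2.2.1⟩ ih

lemma comp_sub {T Y Y' : Set V} (h : Comp G T Y) (h' : Comp G T Y') {v : V} (hv : v ∈ Y)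
    (hv' : v ∈ Y') : Y ⊆ Y' := by
  intro y hy
  have := h.1.2 v hv y hy
  clear hy
  induction this with
  | refl => exact hv'
  | tail _ h2 ih =>
    by_contra h3
    exact Set.disjoint_left.1 h.2.1 h2.2.2 (h'.2.2 ⟨h3, _, ih, h2.1⟩)

lemma pre [Finite V] {k τ N : ℕ} {U T : Set V} (hM : ManyAt k G U τ N) (hT : T.ncard ≤ τ)
    (Y : Fin N → Set V) (hi : Injective Y) (hY : ∀ i, Comp G T (Y i)) :
    ∃ j ≤ N, RedIn k G U (⋃ i : Fin N, ⋃ _ : i.val < j, Y i) := by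
  refine (hM (fun j => ⋃ i : Fin N, ⋃ _ : i.val < j.val, Y i) (fun j => ?_) ?_).elim
    fun j hj => ⟨j, Nat.lt_succ_iff.1 j.2, hj⟩
  · refine le_trans (Set.ncard_le_ncard ?_) hT
    rintro v ⟨h1, x, h2, h3⟩
    simp only [Set.mem_iUnion, not_exists] at h1 h2
    obtain ⟨i, h4, h5⟩ := h2
    exact (hY i).2.2 ⟨h1 i h4, x, h5, h3⟩
  · refine StrictMono.injective fun j j' hj => Set.ncard_lt_ncard ⟨?_, fun h => ?_⟩
    · intro v hv
      simp only [Set.mem_iUnion] at hv ⊢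
      obtain ⟨i, h4, h5⟩ := hv
      exact ⟨i, lt_trans h4 hj, h5⟩
    · have h1 : j.val < N := by have := j'.2; have : j.val < j'.val := hj; omega
      obtain ⟨v, hv⟩ := (hY ⟨j, h1⟩).1.1
      have h2 : v ∈ ⋃ i : Fin N, ⋃ _ : i.val < j'.val, Y i :=
        Set.mem_iUnion.2 ⟨⟨j, h1⟩, Set.mem_iUnion.2 ⟨hj, hv⟩⟩
      have h3 := h h2
      simp only [Set.mem_iUnion] at h3
      obtain ⟨i, h4, h5⟩ := h3
      have h6 := hi (Set.Subset.antisymm (comp_sub (hY i) (hY ⟨j, h1⟩) h5 hv)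
        (comp_sub (hY ⟨j, h1⟩) (hY i) hv h5))
      rw [h6] at h4
      exact lt_irrefl _ h4

lemma many [Finite V] {k τ N c s : ℕ} {U Z X : Set V} (hM : ManyAt k G U τ N)
    (hX : Disjoint X Z) (hn : (nb G X).ncard ≤ τ) (hc : ∀ x ∈ X, (cp G X x).ncard ≤ c)
    (h1 : c ≤ s) (h2 : τ ≤ s) (h3 : N ≤ s) (hl : c * 2 ^ τ * N < X.ncard) : OutB k G U Z s := by
  classical
  haveI := Fintype.ofFinite V
  let C : Finset (Set V) := X.toFinset.image (cp G X)
  have hC : X.ncard ≤ c * C.card := by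
    rw [Set.ncard_eq_toFinset_card']
    refine Finset.card_le_mul_card_image _ c fun Y hY => ?_
    obtain ⟨x, hx, rfl⟩ := Finset.mem_image.1 hY
    refine le_trans ?_ (hc x (Set.mem_toFinset.1 hx))
    rw [Set.ncard_eq_toFinset_card']
    refine Finset.card_le_card fun y hy => ?_
    rw [Set.mem_toFinset, ← (Finset.mem_filter.1 hy).2]
    exact cp_self X y
  have hP : (nb G X).toFinset.powerset.card * N < C.card := by
    rw [Finset.card_powerset, ← Set.ncard_eq_toFinset_card']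
    have h4 : 2 ^ (nb G X).ncard * N ≤ 2 ^ τ * N :=
      Nat.mul_le_mul_right _ (Nat.pow_le_pow_right (by norm_num) hn)
    refine lt_of_le_of_lt h4 (Nat.lt_of_mul_lt_mul_left (a := c) ?_)
    rw [← mul_assoc]
    omega
  obtain ⟨T, -, hT⟩ := Finset.exists_lt_card_fiber_of_mul_lt_card_of_maps_to
    (f := fun Y : Set V => (nb G Y).toFinset) (s := C) (t := (nb G X).toFinset.powerset)
    (fun Y hY => by
      obtain ⟨x, hx, rfl⟩ := Finset.mem_image.1 hY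
      exact Finset.mem_powerset.2 (Set.toFinset_subset_toFinset.2
        (cp_nb (Set.mem_toFinset.1 hx)))) hP
  set F := C.filter fun Y : Set V => (nb G Y).toFinset = T with hF
  have hmem : ∀ Y ∈ F, Cn G Y ∧ Y.ncard ≤ s ∧ Disjoint Y Z ∧ (nb G Y).ncard ≤ τ ∧
      nb G Y = (T : Set V) := by
    intro Y hY
    obtain ⟨h4, h5⟩ := Finset.mem_filter.1 hY
    obtain ⟨x, hx, rfl⟩ := Finset.mem_image.1 h4
    have hx' := Set.mem_toFinset.1 hx
    exact ⟨cp_cn X x, (hc x hx').trans h1, hX.mono_left (cp_sub hx'),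
      (Set.ncard_le_ncard (cp_nb hx')).trans hn, by rw [← h5, Set.coe_toFinset]⟩
  obtain ⟨K, hK⟩ : F.Nonempty := Finset.card_pos.1 (by omega)
  obtain ⟨k1, k2, -, k4, k5⟩ := hmem K hK
  let e := F.equivFin
  refine ⟨K, N, k1, k2, k4.trans h2, h3,
    ⟨fun i => (e.symm (i.castLE hT.le)).1, fun i j hij => ?_, fun i => ?_⟩,
    fun Y hi hY => pre hM k4 Y hi hY⟩
  · exact Fin.castLE_injective _ (e.symm.injective (Subtype.ext hij))
  · obtain ⟨a1, a2, a3, -, a5⟩ := hmem _ (e.symm (i.castLE hT.le)).2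
    refine ⟨⟨a1, ?_, by rw [a5, k5]⟩, a2, a3⟩
    rw [k5, ← a5]
    exact Set.disjoint_left.2 fun v h h' => h'.1 h

lemma outA_mono {k s s' : ℕ} {U Z : Set V} (h : OutA k G U Z s) (l : s ≤ s') : OutA k G U Z s' :=
  let ⟨X, a, b, c, d, e⟩ := h; ⟨X, a, b, c.trans l, d.trans l, e⟩

lemma outB_mono {k s s' : ℕ} {U Z : Set V} (h : OutB k G U Z s) (l : s ≤ s') :
    OutB k G U Z s' := by
  obtain ⟨K, q, a, b, c, d, ⟨Y, e, f⟩, g⟩ := h
  exact ⟨K, q, a, b.trans l, c.trans l, d.trans l,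
    ⟨Y, e, fun i => ⟨(f i).1, (f i).2.1.trans l, (f i).2.2⟩⟩, g⟩

lemma cn_induce {X : Set V} (h : Cn G X) : Cn (G.induce X) Set.univ := by
  obtain ⟨⟨x, hx⟩, h⟩ := h
  refine ⟨⟨⟨x, hx⟩, trivial⟩, fun a _ b _ => ?_⟩
  obtain ⟨b, hb⟩ := b
  have := h a a.2 b hb
  induction this with
  | refl => exact ReflTransGen.refl
  | tail _ h2 ih => exact (ih h2.2.1 trivial).tail ⟨h2.1, trivial, trivial⟩

lemma sol_mono {k : ℕ} {U U' : Set V} (h : Sol k G U) (l : U' ⊆ U) : Sol k G U' := by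
  obtain ⟨D, _, S, w, h1, h2⟩ := h
  refine ⟨D, inferInstance, { S with cap := fun d z a b => S.cap d z a (l b) }, w, h1,
    ⟨⟨h2.inv, h2.pot, h2.t0, h2.t1, h2.t2, h2.t3⟩, h2.edge, h2.vert⟩⟩

lemma nb_sub {D : Type} {Z : Set V} {R r : ℕ} (F : Flat G Z R D) (hr : r + 1 ≤ R)
    (hZ : F.Zc r ⊆ Z) : nb G (F.Zc r) ⊆ Z := by
  rintro u ⟨-, v, hv, ha⟩
  refine F.closed v (hZ hv) ?_ ha
  rintro ⟨i, hi⟩
  have up : ∀ t, r + 1 + t ≤ R → ∀ d, F.L.vx d = v → F.O (r + 1 + t) d := by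
    intro t
    induction t with
    | zero => exact fun _ d hd => F.rings.nest r hr d (by rw [hd]; exact hv)
    | succ t ih => exact fun h d hd => F.rings.nest _ h d ⟨d, ih (by omega) d hd, rfl⟩
  obtain ⟨d, ⟨d1, d2⟩, -⟩ := F.L.ex _ _ ((F.rings.cyc R le_rfl).adj (i - 1))
  have h1 := ((F.rings.bd R le_rfl d).2 ⟨i - 1, d1, d2⟩).2
  have h2 := up (R - (r + 1)) (by omega) (F.L.α d) (by rw [d2, sub_add_cancel, hi])
  rw [Nat.add_sub_cancel' hr] at h2
  exact h1 h2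

end comp

/-- the thresholds -/
def sq (h₀ h₁ y : ℕ) : ℕ → ℕ
  | 0 => 0
  | i + 1 => sq h₀ h₁ y i + tw h₁ (sq h₀ h₁ y i * 2 ^ y * tw h₀ y + y)

lemma sq_mono (h₀ h₁ y : ℕ) : Monotone (sq h₀ h₁ y) :=
  monotone_nat_of_le_succ fun _ => Nat.le_add_right _ _

lemma sq_bb (h₀ h₁ : ℕ) :
    BB (fun y : ℕ => y) fun y => sq h₀ h₁ y (tw h₀ y + 1) + tw h₀ y + y := by
  obtain ⟨h₂, hh⟩ : TB (fun p : ℕ × ℕ => p.1 + p.2)
      fun p => p.1 + tw h₁ (p.1 * 2 ^ p.2 * tw h₀ p.2 + p.2) := by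
    apply_rules (transparency := .reducible) (maxDepth := 99) [TB.add, TB.mul, TB.tw, TB.pow,
      TB.const, TB.fst, TB.snd]
  have h1 : BB (fun y : ℕ => y) fun y => tw h₀ y := (BB.self' _).tw h₀
  exact ((BB.seq h₂ (sq h₀ h₁) (BB.self' _) h1.succ (BB.const 0)
    (fun y n => hh (sq h₀ h₁ y n, y))).add h1).add (BB.self' _)

end UnbL

open UnbL

theorem unb : ManySt → UnbSt := by
  rintro ⟨h₀, hM⟩ h₁
  obtain ⟨h, hh⟩ := sq_bb h₀ h₁
  refine ⟨h, fun k τ V _ G U Z hZ hV => ?_⟩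
  classical
  have hM := hM k τ V G U
  have hh := hh (k + τ)
  beta_reduce at hh
  set y := k + τ with hy
  set N := tw h₀ y with hN
  set S := bg h y with hS
  by_cases c1 : ∀ i : Fin (N + 1), ∃ X, Cn G X ∧ Disjoint X Z ∧ (nb G X).ncard ≤ τ ∧
      sq h₀ h₁ y i < X.ncard ∧ X.ncard ≤ sq h₀ h₁ y (i + 1)
  · choose X x1 x2 x3 x4 x5 using c1
    obtain ⟨i, hi⟩ := hM X x3 (StrictMono.injective fun i j hij =>
      lt_of_le_of_lt ((x5 i).trans (sq_mono _ _ _ hij)) (x4 j))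
    refine Or.inl ⟨X i, x1 i, x2 i, ?_, ?_, hi⟩
    · have := (x5 i).trans (sq_mono h₀ h₁ y (show i.val + 1 ≤ N + 1 from i.2))
      omega
    · have := x3 i
      omega
  right
  by_cases c2 : OutB k G U Z S
  · exact Or.inl c2
  right
  push Not at c1
  obtain ⟨i, gap⟩ := c1
  set c := sq h₀ h₁ y i with hc
  have e1 : sq h₀ h₁ y (i + 1) = c + tw h₁ (c * 2 ^ y * N + y) := rfl
  have e2 : sq h₀ h₁ y (i + 1) ≤ sq h₀ h₁ y (N + 1) := sq_mono _ _ _ i.2
  have e3 := le_tw h₁ (c * 2 ^ y * N + y)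
  have e4 : c * 2 ^ τ * N ≤ c * 2 ^ y * N :=
    Nat.mul_le_mul_right _ (Nat.mul_le_mul_left _ (Nat.pow_le_pow_right (by norm_num) (by omega)))
  have small : ∀ X, Disjoint X Z → (nb G X).ncard ≤ τ →
      (∀ x ∈ X, (cp G X x).ncard ≤ sq h₀ h₁ y (i + 1)) → X.ncard ≤ c * 2 ^ y * N := by
    intro X a1 a2 a3
    by_contra a4
    refine c2 (many (c := c) hM a1 a2 (fun x hx => ?_) (by omega) (by omega) (by omega) (by omega))
    by_contra a5
    have := gap _ (cp_cn X x) (a1.mono_left (cp_sub hx))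
      ((Set.ncard_le_ncard (cp_nb hx)).trans a2) (by omega)
    have := a3 x hx
    omega
  have ex : ∃ n, ∃ A, Cn G A ∧ Disjoint A Z ∧ (nb G A).ncard ≤ τ ∧
      sq h₀ h₁ y (i + 1) < A.ncard ∧ A.ncard = n := by
    by_contra hn
    push Not at hn
    have a2 : (nb G Zᶜ).ncard ≤ τ := le_trans (Set.ncard_le_ncard fun v hv => not_not.1 hv.1) hZ
    have a1 := small Zᶜ disjoint_compl_left a2 fun x hx => by
      by_contra a5
      exact hn _ _ (cp_cn Zᶜ x) (disjoint_compl_left.mono_left (cp_sub hx))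
        ((Set.ncard_le_ncard (cp_nb hx)).trans a2) (by omega) rfl
    have a3 := Set.ncard_add_ncard_compl Z
    omega
  obtain ⟨A, a1, a2, a3, a4, a5⟩ := Nat.find_spec ex
  refine ⟨A, c * 2 ^ y * N, by omega, a2, ⟨a1, a3, fun X hX hn => ?_⟩, ?_⟩
  · refine small X (a2.mono_left hX.1) hn fun x hx => ?_
    by_contra a6
    refine Nat.find_min ex (m := (cp G X x).ncard) ?_ ⟨_, cp_cn X x,
      (a2.mono_left hX.1).mono_left (cp_sub hx), (Set.ncard_le_ncard (cp_nb hx)).trans hn,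
      by omega, rfl⟩
    rw [← a5]
    exact Set.ncard_lt_ncard (lt_of_le_of_lt (cp_sub hx) hX)
  · rw [add_assoc, ← hy]
    omega

theorem lst (k2 : K2) (np : NonPl) (many : ManySt) (pick : PickSt) (shell : ShellSt)
    (mono : MonoSt) (cell : CellSt) (cover : CoverSt) (fr : FlatRedSt) : LSt := by
  obtain ⟨hm, many⟩ := many
  obtain ⟨hp, pick⟩ := pick
  obtain ⟨hf, fr⟩ := fr
  obtain ⟨h₀, hh⟩ : TB (fun k : ℕ => k) fun k =>
      24 * ((tw hm (k + (tw hf k + 4)) + 1) * (tw hf k + 4 + 2 + 1) + 1) + 100 := by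
    apply_rules (transparency := .reducible) (maxDepth := 99) [TB.add, TB.mul, TB.tw,
      TB.const, TB.self']
  refine ⟨h₀, hp, fun k τ c V _ G U A hP hτ hA hl => ?_⟩
  have hh := hh k
  beta_reduce at hh
  set n := tw hf k + 4 with hn
  set N := tw hm (k + n) with hN
  set R := (N + 1) * (n + 2 + 1) + 1 with hR
  have hnR : n ≤ R := by
    have : 1 * (n + 2 + 1) ≤ (N + 1) * (n + 2 + 1) := Nat.mul_le_mul_right _ (by omega)
    omega
  obtain ⟨hI, -, D, _, S, w, hT, hw⟩ := hP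
  obtain ⟨Z, z1, z2, z3, D₁, _, ⟨F⟩⟩ := pick k τ c R V D G U S A hT hA (by omega) hl
  have e1 := le_tw hp (c + k + τ)
  rcases shell k (n + 2) n N R V D₁ G U Z F (many k n V G U) le_rfl (by omega) with
    ⟨X, x1, x2, x3, x4⟩ | ⟨a, P, a1, a2⟩
  · exact ⟨X, x1.trans z1, x2, (Set.ncard_le_ncard x1).trans z2, by omega, x4⟩
  have pl := np.plon S Z z3
  obtain ⟨col, hcol⟩ := mono a (a + (n + 2)) n R V D₁ G Z F P (by omega) a1 a2
  obtain ⟨β, hβ⟩ := cell a (a + n + 1) n R V D₁ G Z F col (by omega) (by omega) (by omega) pl hcol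
  obtain ⟨y1, y2, rad, ang, y3, y4, y5⟩ := cover a n n R V D₁ G Z F β (by omega) (by omega) pl hβ
  refine ⟨F.Zc (a + n), y2.trans z1, y1, (Set.ncard_le_ncard y2).trans z2,
    (Set.ncard_le_ncard (nb_sub F (by omega) y2)).trans z2, fun t b _ hb => ?_⟩
  refine fr k t n n _ (pieceOf G U (F.Zc (a + n)) b) rad ang (by omega) (by omega) y3 y4
    (fun v s hs => y5 v ⟨b s, ?_, hs⟩) (cn_induce y1) (fun x hx y hy => hI x.1 hx y.1 hy) ?_
  · have : b s ∈ nb G (F.Zc (a + n)) := hb ▸ Set.mem_range_self s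
    exact this.1
  · refine sol_mono (k2.subsol S _ y1 (k2.mono S Z _ y2 z3)) fun z hz => ⟨hz.1, fun u hu => ?_⟩
    by_contra h
    have := y5 z ⟨u, h, hu⟩
    have := hz.2
    omega

theorem mainst : UnbSt → LSt → MainSt := by
  rintro hU ⟨h₀, h₁, hL⟩
  obtain ⟨h, hU⟩ := hU h₁
  have b1 : BB (fun p : ℕ × ℕ => p.1 + p.2) fun p => p.1 + max p.2 (tw h₀ p.1) :=
    BB.of_TB (TB.fst.add (TB.snd.max (TB.fst.tw h₀)))
  obtain ⟨h', hh⟩ := ((b1.bg h).add b1).tw h₁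
  refine ⟨h', fun k z V _ G U Z hP hZ hV => ?_⟩
  have hh := hh (k, z)
  dsimp only at hh
  set τ := max z (tw h₀ k) with hτ
  have e1 := le_tw h₁ (bg h (k + τ) + (k + τ))
  have e2 : bg h (k + τ) ≤ bg h' (k + z) := by omega
  rcases hU k τ V G U Z (hZ.trans (le_max_left _ _)) (by omega) with c | c | ⟨A, c, a1, a2, a3, a4⟩
  · exact Or.inl (outA_mono c e2)
  · exact Or.inr (outB_mono c e2)
  · obtain ⟨X, x1, x2, x3, x4, x5⟩ := hL k τ c V G U A hP (le_max_right _ _) a3 a4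
    have e3 : tw h₁ (c + k + τ) ≤ bg h' (k + z) := (tw_mono_right h₁ (by omega)).trans hh
    exact Or.inl ⟨X, x2, a2.mono_left x1, x3.trans e3, x4.trans e3, x5⟩

end Pool.Agent.Lib.MP_c1f5fe_lc
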