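import Pool.Agent.Lib.MP_c1f5fe_lc.SpecC

/-! Exchange of the part of a solution that lies inside a frame. -/

namespace Pool.Agent.Lib.MP_c1f5fe_lc

open Equiv Function Relation

namespace ZSwap

theorem next_fun {V : Type} {n : ℕ} {c : ZMod n → V} {A : Set V} {i j j' : ZMod n}
    (h : NextS c A i j) (h' : NextS c A i j') : j = j' := by
  obtain ⟨m, m0, rfl, a, b⟩ := h
  obtain ⟨m', m0', rfl, a', b'⟩ := h'
  rcases lt_trichotomy m m' with l | l | l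
  · exact absurd a (b' m m0 l)
  · rw [l]
  · exact absurd a' (b m' m0' l)

theorem next_inj {V : Type} {n : ℕ} {c : ZMod n → V} {A : Set V} {i i' j : ZMod n}
    (hi : c i ∈ A) (hi' : c i' ∈ A) (h : NextS c A i j) (h' : NextS c A i' j) : i = i' := by
  obtain ⟨m, m0, e, -, b⟩ := h
  obtain ⟨m', m0', e', -, b'⟩ := h'
  have key : ∀ {a a' : ZMod n} {p q : ℕ}, p < q → a + p = a' + q → a' + (q - p : ℕ) = a := by
    intro a a' p q l e
    rw [Nat.cast_sub l.le]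
    linear_combination -e
  rcases lt_trichotomy m m' with l | l | l
  · exact absurd (key l (e.symm.trans e') ▸ hi) (b' (m' - m) (by omega) (by omega))
  · subst l
    exact add_right_cancel (e.symm.trans e')
  · exact absurd (key l (e'.symm.trans e) ▸ hi') (b (m - m') (by omega) (by omega))

section sk
variable {k : ℕ} {V D : Type} {G : SimpleGraph V} {U : Set V} {S : Sk k G U D} {K : Set V}

theorem sc_vx [Finite D] {d e : D} (h : S.toHMap.σ.SameCycle d e) : S.vx e = S.vx d := by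
  obtain ⟨n, -, rfl⟩ := h.exists_pow_eq'
  clear h
  induction n with
  | zero => rfl
  | succ n ih => rw [pow_succ', Perm.mul_apply, HMap.σ_apply, S.vx_σ, ih]

theorem xk_φ (d : D) : S.XK K (S.φ d) ↔ S.XK K d := by
  simp only [Sk.XK, Perm.sameCycle_apply_left]

theorem xk_tail {d : D} {v : V} (h : S.vx d = some v) (hv : v ∈ K) : S.XK K d :=
  ⟨d, v, Perm.SameCycle.refl _ _, h, hv⟩

theorem xk_head {d : D} {v : V} (h : S.vx (S.α d) = some v) (hv : v ∈ K) : S.XK K d :=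
  (xk_φ d).1 (xk_tail ((S.vx_φ d).trans h) hv)

theorem xk_term {d : D} (h : S.XK K d) : ¬S.IsT d := by
  rintro ⟨i, s⟩
  obtain ⟨e, v, s', h, -⟩ := h
  rw [S.term_vx i e (s.trans s')] at h
  simp at h

theorem bk_α {d : D} (h : S.BK K d) : S.BK K (S.α d) := by
  unfold Sk.BK HMap.Bi at h ⊢
  rw [S.αα]
  exact fun c => h c.symm

theorem bk_edges : S.toHMap.Edges (S.BK K) := fun q h =>
  ⟨bk_α h, fun e => h (by rw [e])⟩

theorem bk_col : S.toHMap.Col (S.BK K) (S.XK K) :=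
  ⟨xk_φ, fun _ h => (not_not.1 h).symm⟩

theorem bk_of {d : D} (h : S.XK K d) (h' : ¬S.XK K (S.α d)) : S.BK K d := fun c => h' (c.1 h)

theorem bk_not {d : D} (b : S.BK K d) (h : S.XK K d) : ¬S.XK K (S.α d) := fun c =>
  b ⟨fun _ => c, fun _ => h⟩

theorem bk_not' {d : D} (b : S.BK K d) (h : ¬S.XK K d) : S.XK K (S.α d) := by
  by_contra c
  exact b ⟨fun x => absurd x h, fun x => absurd x c⟩

theorem not_real {d : D} (h : S.vx d = none) : ¬S.real d := fun r => by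
  obtain ⟨u, v, a, -⟩ := S.real_adj d r
  rw [h] at a
  simp at a

theorem nx_vx [Finite D] (k3 : K3) {d : D} (b : S.BK K d) :
    S.BK K (S.toHMap.nx (S.BK K) d) ∧ (S.XK K d ↔ S.XK K (S.toHMap.nx (S.BK K) d)) ∧
      S.vx (S.toHMap.nx (S.BK K) d) = S.vx (S.α d) := by
  obtain ⟨a, r, s, -⟩ := k3.nx_q S.toHMap _ bk_edges d b
  exact ⟨a, k3.reg_col _ _ _ bk_col _ _ r, (sc_vx s).trans (S.vx_φ d)⟩

end sk

section one
variable {k t l : ℕ} {I K₁ D : Type} {P : Piece t I} {C : Ctx t K₁}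
  {S : Sk k (glue P C) (glueU P C) D} {c : ZMod l → I} {K : Set I}

theorem adj_inl (hK : ∀ x ∈ K, ∀ s, ¬P.att x s) {x : I} (hx : x ∈ K) {v : I ⊕ K₁}
    (a : (glue P C).Adj (.inl x) v) : ∃ y, v = .inl y ∧ P.G.Adj x y := by
  rcases v with y | y
  · exact ⟨y, rfl, a⟩
  · obtain ⟨s, a, -⟩ := a
    exact absurd a (hK x hx s)

theorem nb_inl (hK : ∀ x ∈ K, ∀ s, ¬P.att x s) {v : I ⊕ K₁}
    (h : v ∈ nb (glue P C) (Sum.inl '' K)) : ∃ y, v = .inl y ∧ y ∈ nb P.G K := by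
  obtain ⟨n, _, ⟨x, hx, rfl⟩, a⟩ := h
  obtain ⟨y, rfl, a⟩ := adj_inl hK hx a
  exact ⟨y, rfl, fun c => n ⟨y, c, rfl⟩, x, hx, a⟩

theorem nb_iff (hK : ∀ x ∈ K, ∀ s, ¬P.att x s) (y : I) :
    Sum.inl y ∈ nb (glue P C) (Sum.inl '' K) ↔ y ∈ nb P.G K := by
  constructor
  · intro h
    obtain ⟨y', e, h⟩ := nb_inl hK h
    rwa [Sum.inl.inj e]
  · rintro ⟨n, x, hx, a⟩
    refine ⟨?_, .inl x, ⟨x, hx, rfl⟩, a⟩
    rintro ⟨y', c, e⟩
    exact n (Sum.inl.inj e ▸ c)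

/-- `d` is the chord at position `i` -/
def At (S : Sk k (glue P C) (glueU P C) D) (c : ZMod l → I) (K : Set I) (d : D) (i : ZMod l) :
    Prop :=
  S.XK (Sum.inl '' K) d ∧ ¬S.XK (Sum.inl '' K) (S.α d) ∧ S.vx d = some (.inl (c i)) ∧
    c i ∈ nb P.G K

theorem At.bk {d : D} {i : ZMod l} (h : At S c K d i) : S.BK (Sum.inl '' K) d := bk_of h.1 h.2.1

theorem bi' (hK : ∀ x ∈ K, ∀ s, ¬P.att x s) (H : Hg S (Sum.inl ∘ c) (Sum.inl '' K)) {d : D}
    (h : S.XK (Sum.inl '' K) d) (h' : ¬S.XK (Sum.inl '' K) (S.α d)) :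
    (S.vx d = none ∧ S.vx (S.α d) = none) ∨ (¬S.real d ∧ ∃ i j, At S c K d i ∧
      S.vx (S.α d) = some (.inl (c j)) ∧ c j ∈ nb P.G K ∧ NextS c (nb P.G K) i j) := by
  rcases H.bi d h h' with o | ⟨r, i, j, e, a, m, m0, e', b, b'⟩
  · exact Or.inl o
  · exact Or.inr ⟨r, i, j, ⟨h, h', e.1, (nb_iff hK _).1 a⟩, e.2, (nb_iff hK _).1 b, m, m0, e',
      (nb_iff hK _).1 b, fun x x0 xm o => b' x x0 xm ((nb_iff hK _).2 o)⟩

theorem at_ex (hK : ∀ x ∈ K, ∀ s, ¬P.att x s) (H : Hg S (Sum.inl ∘ c) (Sum.inl '' K))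
    {i : ZMod l} (h : c i ∈ nb P.G K) : ∃ d, At S c K d i := by
  obtain ⟨d, ⟨a, b, e⟩, -⟩ := H.z_ex i ((nb_iff hK _).2 h)
  exact ⟨d, a, b, e, h⟩

theorem at_uniq (hK : ∀ x ∈ K, ∀ s, ¬P.att x s) (H : Hg S (Sum.inl ∘ c) (Sum.inl '' K))
    {i : ZMod l} {d e : D} (h : At S c K d i) (h' : At S c K e i) : d = e :=
  (H.z_ex i ((nb_iff hK _).2 h.2.2.2)).unique ⟨h.1, h.2.1, h.2.2.1⟩ ⟨h'.1, h'.2.1, h'.2.2.1⟩

theorem at_idx (hc : Injective c) {i j : ZMod l} {d : D} (h : At S c K d i) (h' : At S c K d j) :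
    i = j :=
  hc (Sum.inl.inj (Option.some.inj (h.2.2.1.symm.trans h'.2.2.1)))

theorem at_head (hc : Injective c) (hK : ∀ x ∈ K, ∀ s, ¬P.att x s)
    (H : Hg S (Sum.inl ∘ c) (Sum.inl '' K)) {i : ZMod l} {d : D} (h : At S c K d i) :
    ¬S.real d ∧ ∃ j, S.vx (S.α d) = some (.inl (c j)) ∧ c j ∈ nb P.G K ∧
      NextS c (nb P.G K) i j := by
  rcases bi' hK H h.1 h.2.1 with ⟨o, -⟩ | ⟨r, i', j, a, b⟩
  · rw [h.2.2.1] at o
    simp at o
  · obtain rfl := at_idx hc h a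
    exact ⟨r, j, b⟩

theorem at_nx [Finite D] (k3 : K3) (hc : Injective c) (hK : ∀ x ∈ K, ∀ s, ¬P.att x s)
    (H : Hg S (Sum.inl ∘ c) (Sum.inl '' K)) {i j : ZMod l} {d : D} (h : At S c K d i)
    (n : NextS c (nb P.G K) i j) : At S c K (S.toHMap.nx (S.BK (Sum.inl '' K)) d) j := by
  obtain ⟨-, j', a, b, n'⟩ := at_head hc hK H h
  obtain rfl := next_fun n n'
  obtain ⟨p, q, r⟩ := nx_vx k3 h.bk
  exact ⟨q.1 h.1, bk_not p (q.1 h.1), r.trans a, b⟩

theorem at_nx' [Finite D] (k3 : K3) (hc : Injective c) (hK : ∀ x ∈ K, ∀ s, ¬P.att x s)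
    (H : Hg S (Sum.inl ∘ c) (Sum.inl '' K)) {j : ZMod l} {d : D} (h : At S c K (S.α d) j) :
    ∃ i, At S c K (S.α (S.toHMap.nx (S.BK (Sum.inl '' K)) d)) i ∧ NextS c (nb P.G K) i j := by
  have b : S.BK (Sum.inl '' K) d := by simpa only [S.αα] using bk_α h.bk
  have x : ¬S.XK (Sum.inl '' K) d := by simpa only [S.αα] using h.2.1
  obtain ⟨p, q, r⟩ := nx_vx k3 b
  have x' := fun o => x (q.2 o)
  rw [h.2.2.1] at r
  rcases bi' hK H (bk_not' p x') (by rwa [S.αα]) with ⟨-, o⟩ | ⟨-, i, j', a, e, -, n⟩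
  · rw [S.αα, r] at o
    simp at o
  · rw [S.αα, r] at e
    obtain rfl := hc (Sum.inl.inj (Option.some.inj e))
    exact ⟨i, a, n⟩

theorem at_reg [Finite D] (k3 : K3) (h3 : 3 ≤ l) (hc : Injective c)
    (hK : ∀ x ∈ K, ∀ s, ¬P.att x s) (H : Hg S (Sum.inl ∘ c) (Sum.inl '' K)) {i j : ZMod l}
    {d e : D} (h : At S c K d i) (h' : At S c K e j) :
    S.toHMap.Reg (S.BK (Sum.inl '' K)) d e := by
  have : NeZero l := ⟨by omega⟩
  have key : ∀ (m : ℕ) (i : ZMod l) (d : D), At S c K d i → j = i + m →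
      S.toHMap.Reg (S.BK (Sum.inl '' K)) d e := by
    intro m
    induction m using Nat.strong_induction_on with
    | _ m ih =>
      intro i d h E
      rcases Nat.eq_zero_or_pos m with rfl | m0
      · obtain rfl : j = i := by simpa using E
        rw [at_uniq hK H h h']
        exact EqvGen.refl _
      · obtain ⟨-, j', -, -, n⟩ := at_head hc hK H h
        have a := at_nx k3 hc hK H h n
        obtain ⟨p, p0, rfl, -, b⟩ := n
        have le : p ≤ m := by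
          by_contra o
          exact b m m0 (by omega) (E ▸ h'.2.2.2)
        exact EqvGen.trans _ _ _ (k3.nx_q S.toHMap _ bk_edges d h.bk).2.1
          (ih (m - p) (by omega) _ _ a (by rw [E, Nat.cast_sub le]; ring))
  exact key (j - i).val i d h (by simp)

theorem lab_inl (hK : ∀ x ∈ K, ∀ s, ¬P.att x s) (H : Hg S (Sum.inl ∘ c) (Sum.inl '' K)) {d : D}
    {v : I ⊕ K₁} (h : S.XK (Sum.inl '' K) d) (e : S.vx d = some v) :
    ∃ x, v = .inl x ∧ (x ∈ K ∨ x ∈ nb P.G K) := by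
  rcases H.lab d v h e with ⟨x, hx, rfl⟩ | o
  · exact ⟨x, rfl, Or.inl hx⟩
  · obtain ⟨y, rfl, o'⟩ := nb_inl hK o
    exact ⟨y, rfl, Or.inr o'⟩

theorem real_inl (hK : ∀ x ∈ K, ∀ s, ¬P.att x s) (H : Hg S (Sum.inl ∘ c) (Sum.inl '' K)) {d : D}
    (h : S.XK (Sum.inl '' K) d) (r : S.real d) : ∃ x y, S.vx d = some (.inl x) ∧
      S.vx (S.α d) = some (.inl y) ∧ P.G.Adj x y ∧ (x ∈ K ∨ y ∈ K) := by
  obtain ⟨u, v, h1, h2, a⟩ := S.real_adj d r
  rcases H.real d u v h r ⟨h1, h2⟩ with ⟨x, hx, rfl⟩ | ⟨y, hy, rfl⟩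
  · obtain ⟨y, rfl, a'⟩ := adj_inl hK hx a
    exact ⟨x, y, h1, h2, a', Or.inl hx⟩
  · obtain ⟨x, rfl, a'⟩ := adj_inl hK hy a.symm
    exact ⟨x, y, h1, h2, a'.symm, Or.inr hy⟩

end one

/-- forget the vertices of the context -/
def fgt (K₁ : Type) {I K₂ : Type} (o : Option (I ⊕ K₂)) : Option (I ⊕ K₁) :=
  o.bind (Sum.elim (fun x => some (.inl x)) fun _ => none)

theorem fg_some {I K₁ K₂ : Type} {o : Option (I ⊕ K₂)} {v : I ⊕ K₁} (h : fgt K₁ o = some v) :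
    ∃ x, o = some (.inl x) ∧ v = .inl x := by
  rcases o with _ | x | y <;> simp [fgt] at h
  exact ⟨x, rfl, h.symm⟩

theorem fg_eq {I K₁ K₂ : Type} {o : Option (I ⊕ K₂)} {x : I} (h : fgt K₁ o = some (.inl x)) :
    o = some (.inl x) := by
  obtain ⟨y, rfl, e⟩ := fg_some h
  rw [Sum.inl.inj e]

theorem fg_inl {I K₁ K₂ : Type} {o : Option (I ⊕ K₂)} {x : I} (h : o = some (.inl x)) :
    fgt K₁ o = some (.inl x) := by rw [h]; rfl

end ZSwap

open ZSwap in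
theorem zswap (_ : K1) (k3 : K3) (sw : SwapSt) (gt : GoodTrSt) : ZSwapSt := by
  intro k t l I K₁ D₁ K₂ D₂ _ _ _ P C₁ C₂ S₁ w₁ S₂ w₂ c K R fr hK H₁ H₂ val₁ val₂ hok hR tot₁ tot₂
    hb hw hw' hinv
  have hc := fr.cyc.inj
  have h3 := fr.cyc.three
  obtain ⟨θ₁, hθ₁⟩ := val₁.pot
  obtain ⟨θ₂, hθ₂⟩ := val₂.pot
  have ne : ∀ {x y x' y' i}, R x y → At S₁ c K x' i → At S₂ c K y' i → (x = x' ↔ y = y') := by
    intro x y x' y' i r a b
    obtain ⟨-, n1, -, n2, -⟩ := hR x y r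
    refine iff_of_false ?_ ?_ <;> rintro rfl
    · rw [a.2.2.1] at n1; simp at n1
    · rw [b.2.2.1] at n2; simp at n2
  have ee : ∀ {x y x' y' i i'}, At S₁ c K x i → At S₂ c K y i → At S₁ c K x' i' →
      At S₂ c K y' i' → (x = x' ↔ y = y') := by
    intro x y x' y' i i' a b a' b'
    constructor <;> rintro rfl
    · obtain rfl := at_idx hc a a'
      exact at_uniq hK H₂ b b'
    · obtain rfl := at_idx hc b b'
      exact at_uniq hK H₁ a a'
  have aa : ∀ {x y x' y'}, (S₁.α x = S₁.α x' ↔ S₂.α y = S₂.α y') → (x = x' ↔ y = y') := by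
    intro x y x' y' h
    rwa [S₁.α.injective.eq_iff, S₂.α.injective.eq_iff] at h
  have ea : ∀ {x y x' y' i i'}, At S₁ c K x i → At S₂ c K y i → At S₁ c K (S₁.α x') i' →
      At S₂ c K (S₂.α y') i' → (x = x' ↔ y = y') := by
    intro x y x' y' i i' a b a' b'
    refine iff_of_false ?_ ?_ <;> rintro rfl
    exacts [a.2.1 a'.1, b.2.1 b'.1]
  have rc : ∀ {x y x' y' i}, R x y → At S₁ c K x' i → At S₂ c K y' i →
      S₁.toHMap.Reg (S₁.BK (Sum.inl '' K)) x x' → S₂.toHMap.Reg (S₂.BK (Sum.inl '' K)) y y' := by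
    intro x y x' y' i r a b g
    obtain ⟨-, -, -, -, cl, -, -, -, z⟩ := hR x y r
    obtain ⟨z, z1, z2, z3⟩ := z ⟨x', a.bk, by rw [a.2.2.1]; simp, g⟩
    have xz := (k3.reg_col _ _ _ bk_col _ _ z3).1 (cl.1 ((k3.reg_col _ _ _ bk_col _ _ g).2 a.1))
    rcases bi' hK H₂ xz (bk_not z1 xz) with ⟨o, -⟩ | ⟨-, j, -, e, -⟩
    · exact absurd o z2
    · exact EqvGen.trans _ _ _ z3 (at_reg k3 h3 hc hK H₂ e b)
  obtain ⟨S, gl, top, v1, v2, -, -, val⟩ := sw k _ D₁ D₂ (glue P C₁) (glueU P C₁) S₁.ok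
    S₁.toHMap (S₁.BK (Sum.inl '' K)) (fun d => ¬S₁.XK (Sum.inl '' K) d) S₁.vx S₁.real w₁
    S₂.toHMap (S₂.BK (Sum.inl '' K)) (S₂.XK (Sum.inl '' K)) (fun d => fgt K₁ (S₂.vx d)) S₂.real w₂
    (fun x y => R x y ∨ (∃ i, At S₁ c K x i ∧ At S₂ c K y i) ∨
      ∃ i, At S₁ c K (S₁.α x) i ∧ At S₂ c K (S₂.α y) i) S₁.term
    { con₁ := H₁.top.1
      con₂ := H₂.top.1
      e₁ := bk_edges
      e₂ := bk_edges
      c₁ := ⟨fun d => not_congr (xk_φ d), fun d h => not_congr (bk_col.2 d h)⟩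
      c₂ := bk_col
      dom := by
        rintro x y (r | ⟨i, a, b⟩ | ⟨i, a, b⟩)
        · exact ⟨(hR x y r).1, (hR x y r).2.2.1⟩
        · exact ⟨a.bk, b.bk⟩
        · exact ⟨by simpa only [S₁.αα] using bk_α a.bk, by simpa only [S₂.αα] using bk_α b.bk⟩
      tot₁ := by
        intro x q
        by_cases h : S₁.XK (Sum.inl '' K) x
        · rcases bi' hK H₁ h (bk_not q h) with ⟨o, -⟩ | ⟨-, i, -, a, -⟩
          · exact (tot₁ x q o).imp fun _ => Or.inl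
          · obtain ⟨y, b⟩ := at_ex hK H₂ a.2.2.2
            exact ⟨y, Or.inr (Or.inl ⟨i, a, b⟩)⟩
        · rcases bi' hK H₁ (bk_not' q h) (by rwa [S₁.αα]) with ⟨-, o⟩ | ⟨-, i, -, a, -⟩
          · exact (tot₁ x q (by rwa [S₁.αα] at o)).imp fun _ => Or.inl
          · obtain ⟨y, b⟩ := at_ex hK H₂ a.2.2.2
            exact ⟨S₂.α y, Or.inr (Or.inr ⟨i, a, by rwa [S₂.αα]⟩)⟩
      tot₂ := by
        intro y q
        by_cases h : S₂.XK (Sum.inl '' K) y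
        · rcases bi' hK H₂ h (bk_not q h) with ⟨o, -⟩ | ⟨-, i, -, a, -⟩
          · exact (tot₂ y q o).imp fun _ => Or.inl
          · obtain ⟨x, b⟩ := at_ex hK H₁ a.2.2.2
            exact ⟨x, Or.inr (Or.inl ⟨i, b, a⟩)⟩
        · rcases bi' hK H₂ (bk_not' q h) (by rwa [S₂.αα]) with ⟨-, o⟩ | ⟨-, i, -, a, -⟩
          · exact (tot₂ y q (by rwa [S₂.αα] at o)).imp fun _ => Or.inl
          · obtain ⟨x, b⟩ := at_ex hK H₁ a.2.2.2
            exact ⟨S₁.α x, Or.inr (Or.inr ⟨i, by rwa [S₁.αα], a⟩)⟩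
      bij := by
        rintro x y x' y' (r | ⟨i, a, b⟩ | ⟨i, a, b⟩) (r' | ⟨i', a', b'⟩ | ⟨i', a', b'⟩)
        · exact (hb x y x' y' r r').1
        · exact ne r a' b'
        · exact aa (ne (hR x y r).2.2.2.2.2.2.1 a' b')
        · rw [eq_comm, eq_comm (a := y)]; exact ne r' a b
        · exact ee a b a' b'
        · exact ea a b a' b'
        · rw [eq_comm, eq_comm (a := y)]; exact aa (ne (hR x' y' r').2.2.2.2.2.2.1 a b)
        · rw [eq_comm, eq_comm (a := y)]; exact ea a' b' a b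
        · exact aa (ee a b a' b')
      al := by
        rintro x y (r | ⟨i, a, b⟩ | h)
        · exact Or.inl (hR x y r).2.2.2.2.2.2.1
        · exact Or.inr (Or.inr ⟨i, by rwa [S₁.αα], by rwa [S₂.αα]⟩)
        · exact Or.inr (Or.inl h)
      nx := by
        rintro x y (r | ⟨i, a, b⟩ | ⟨j, a, b⟩)
        · exact Or.inl (hR x y r).2.2.2.2.2.2.2.1
        · obtain ⟨-, j, -, -, n⟩ := at_head hc hK H₁ a
          exact Or.inr (Or.inl ⟨j, at_nx k3 hc hK H₁ a n, at_nx k3 hc hK H₂ b n⟩)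
        · obtain ⟨i, a', n⟩ := at_nx' k3 hc hK H₁ a
          obtain ⟨i', b', n'⟩ := at_nx' k3 hc hK H₂ b
          obtain rfl := next_inj a'.2.2.2 b'.2.2.2 n n'
          exact Or.inr (Or.inr ⟨i, a', b'⟩)
      col := by
        rintro x y (r | ⟨i, a, b⟩ | ⟨i, a, b⟩)
        · exact not_congr (hR x y r).2.2.2.2.1
        · exact not_congr (iff_of_true a.1 b.1)
        · exact iff_of_true (by simpa only [S₁.αα] using a.2.1)
            (by simpa only [S₂.αα] using b.2.1)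
      reg := by
        intro x y x' y' r r' h g
        have h1 : S₁.XK (Sum.inl '' K) x := not_not.1 h
        have h2 := (k3.reg_col _ _ _ bk_col _ _ g).1 h1
        rcases r with r | ⟨i, a, b⟩ | ⟨i, a, b⟩
        · rcases r' with r' | ⟨i', a', b'⟩ | ⟨i', a', b'⟩
          · exact (hb x y x' y' r r').2 g
          · exact rc r a' b' g
          · exact absurd (by rwa [S₁.αα]) a'.2.1
        · rcases r' with r' | ⟨i', a', b'⟩ | ⟨i', a', b'⟩
          · exact EqvGen.symm _ _ (rc r' a b (EqvGen.symm _ _ g))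
          · exact at_reg k3 h3 hc hK H₂ b b'
          · exact absurd (by rwa [S₁.αα]) a'.2.1
        · exact absurd (by rwa [S₁.αα]) a.2.1
      flag := by
        obtain ⟨i, -, -, a, -⟩ := fr.two
        obtain ⟨d, b⟩ := at_ex hK H₁ a
        exact Or.inl ⟨d, b.bk⟩ }
    { vx_σ := S₁.vx_σ
      vx_cyc := fun d e v _ _ => S₁.vx_cyc d e v
      real_α := fun d _ => S₁.real_α d
      real_adj := fun d _ => S₁.real_adj d
      uniq := fun d e _ _ r r' E E' => by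
        obtain ⟨u, v, h1, h2, a⟩ := S₁.real_adj d r
        exact (S₁.real_ex u v a).unique ⟨r, h1, h2⟩ ⟨r', E ▸ h1, E' ▸ h2⟩
      inv := fun d _ => val₁.inv d
      pot := ⟨θ₁, fun d _ => hθ₁ d⟩
      edge := fun d _ => val₁.edge d
      vert := fun d e i _ _ => val₁.vert d e i
      cap := fun d z _ => S₁.cap d z }
    { vx_σ := fun d => by rw [HMap.σ_apply, S₂.vx_σ]
      vx_cyc := fun d e v _ _ h h' => by
        obtain ⟨x, h1, rfl⟩ := fg_some h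
        exact S₂.vx_cyc d e _ h1 (fg_eq h')
      real_α := fun d _ => S₂.real_α d
      real_adj := fun d h r => by
        obtain ⟨x, y, h1, h2, a, -⟩ := real_inl hK H₂ h r
        exact ⟨.inl x, .inl y, fg_inl h1, fg_inl h2, a⟩
      uniq := fun d e h _ r r' E E' => by
        obtain ⟨x, y, h1, h2, a, -⟩ := real_inl hK H₂ h r
        exact (S₂.real_ex (.inl x) (.inl y) a).unique ⟨r, h1, h2⟩
          ⟨r', fg_eq (E.symm.trans (fg_inl h1)), fg_eq (E'.symm.trans (fg_inl h2))⟩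
      inv := fun d _ => val₂.inv d
      pot := ⟨θ₂, fun d h _ => hθ₂ d (xk_term h)⟩
      edge := fun d _ r => hok ▸ val₂.edge d r
      vert := fun d e i h _ r r' E => by
        obtain ⟨x, y, h1, -⟩ := real_inl hK H₂ h r
        exact val₂.vert d e i r r' (h1.trans (fg_eq (E.symm.trans (fg_inl h1))).symm)
      cap := fun d z hd h hz => by
        obtain ⟨x, h1, rfl⟩ := fg_some h
        obtain ⟨a, b, u, v, h2, h3, e⟩ := S₂.cap d (.inl x) h1 hz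
        obtain ⟨u, rfl, -⟩ := lab_inl hK H₂ ((xk_φ _).2 hd) h2
        obtain ⟨v, rfl, -⟩ := lab_inl hK H₂ ((xk_φ _).2 ((xk_φ _).2 hd)) h3
        exact ⟨a, b, .inl u, .inl v, fg_inl h2, fg_inl h3, e⟩ }
    (by
      rintro x y (r | ⟨i, a, b⟩ | ⟨i, a, b⟩)
      · obtain ⟨-, n1, -, n2, -, e, -⟩ := hR x y r
        exact ⟨by rw [n1, n2]; rfl, iff_of_false (not_real n1) (not_real n2), e⟩
      · exact ⟨a.2.2.1.trans (fg_inl b.2.2.1).symm,
          iff_of_false (at_head hc hK H₁ a).1 (at_head hc hK H₂ b).1,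
          hw x y _ a.1 a.bk b.1 b.bk a.2.2.1 b.2.2.1⟩
      · obtain ⟨r1, j, e1, -, n⟩ := at_head hc hK H₁ a
        obtain ⟨r2, j', e2, -, n'⟩ := at_head hc hK H₂ b
        obtain rfl := next_fun n n'
        rw [S₁.αα] at e1
        rw [S₂.αα] at e2
        refine ⟨e1.trans (fg_inl e2).symm,
          iff_of_false (fun o => r1 (S₁.real_α x o)) fun o => r2 (S₂.real_α y o), ?_⟩
        have := hw _ _ _ a.1 a.bk b.1 b.bk a.2.2.1 b.2.2.1
        rwa [val₁.inv, val₂.inv, inv_inj] at this)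
    (by
      intro u v a
      obtain ⟨d, ⟨r, h1, h2⟩, -⟩ := S₁.real_ex u v a
      by_cases h : S₁.XK (Sum.inl '' K) d
      · obtain ⟨x, y, e1, e2, a', o⟩ := real_inl hK H₁ h r
        obtain ⟨e, ⟨r', e3, e4⟩, -⟩ := S₂.real_ex (.inl x) (.inl y) a'
        refine Or.inr ⟨e, ?_, r', by rw [fg_inl e3, ← e1, h1], by rw [fg_inl e4, ← e2, h2]⟩
        rcases o with o | o
        exacts [xk_tail e3 ⟨x, o, rfl⟩, xk_head e4 ⟨y, o, rfl⟩]
      · exact Or.inl ⟨d, h, r, h1, h2⟩)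
    (fun d e hd he _ r' E E' => by
      obtain ⟨x, y, e1, e2, -, o⟩ := real_inl hK H₂ he r'
      rcases o with o | o
      exacts [hd (xk_tail (E.trans (fg_inl e1)) ⟨x, o, rfl⟩),
        hd (xk_head (E'.trans (fg_inl e2)) ⟨y, o, rfl⟩)])
    (fun d e v hd he h h' => by
      obtain ⟨x, h1, rfl⟩ := fg_some h'
      obtain ⟨x', e', o⟩ := lab_inl hK H₂ he h1
      obtain rfl := Sum.inl.inj e'
      rcases o with o | o
      · exact (hd (xk_tail h ⟨x, o, rfl⟩)).elim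
      · obtain ⟨i, rfl⟩ := fr.sep o
        obtain ⟨q, b⟩ := at_ex hK H₁ o
        exact ⟨q, b.bk, b.2.2.1⟩)
    (fun d e i b hd he r r' E h h' => by
      obtain ⟨x, y, e1, e2, a, o⟩ := real_inl hK H₂ he r'
      have e0 := E.trans (fg_inl e1)
      have nx : x ∉ K := fun o => hd (xk_tail e0 ⟨x, o, rfl⟩)
      have hy := o.resolve_left nx
      obtain ⟨j, rfl⟩ := fr.sep ⟨nx, y, hy, a.symm⟩
      obtain ⟨d', ⟨r'', e3, e4⟩, -⟩ := S₁.real_ex (.inl (c j)) (.inl y) a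
      rw [← hw' d' e j y r'' r' ⟨e3, e4⟩ ⟨e1, e2⟩ hy] at h'
      cases b
      · exact val₁.vert d d' i r r'' (e0.trans e3.symm) h h'
      · exact val₁.vert d' d i r'' r (e3.trans e0.symm) h' h)
    (fun i => ⟨fun o => xk_term o ⟨i, Perm.SameCycle.refl _ _⟩, S₁.term_vx i,
      S₁.term_four i, val₁.t0 i, val₁.t1 i, val₁.t2 i, val₁.t3 i⟩)
    S₁.ok_symm S₁.ok_idx S₁.ok_once (by
      have h1 := H₁.top.2
      simp only [not_not]
      change _ ≤ _ - S₁.toHMap.inv (S₁.BK (Sum.inl '' K)) (S₁.XK (Sum.inl '' K)) + _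
      omega)
  refine ⟨_, inferInstance, S, _, top, val, fun Z hZ => ?_⟩
  have xz : ∀ d, (∃ u ∈ Z, S₂.vx d = some (Sum.inl u)) → S₂.XK (Sum.inl '' K) d := by
    rintro d ⟨u, hu, e⟩
    exact xk_tail e ⟨u, hZ hu, rfl⟩
  refine gt k k I _ _ _ _ _ _ _ _ S₂ S Sum.inl Sum.inl Z (fun d h => .inr ⟨d, xz d h⟩)
    Sum.inl_injective Sum.inl_injective
    (fun u hu v a => (adj_inl hK (hZ hu) a).imp fun _ h => h.1) (fun _ _ _ => Iff.rfl)
    (fun d h d' h' e => congrArg Subtype.val (Sum.inr.inj e))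
    (fun d h x e => (v2 _).trans (fg_inl e)) (fun d h x e => ?_) (fun d h h' => ?_)
    (fun d h h' => gl.α₂₂ _ _ rfl) (fun d' u hu e => ?_)
  · rw [← S.vx_φ, gl.φ₂ ⟨d, xz d h⟩ ⟨S₂.φ d, (xk_φ d).2 (xz d h)⟩ rfl, v2]
    exact fg_inl ((S₂.vx_φ d).trans e)
  · have a : S₂.XK (Sum.inl '' K) (S₂.α d) := (xk_φ _).1 (xz _ h')
    rw [HMap.σ_apply, gl.α₂₂ ⟨d, xz d h⟩ ⟨S₂.α d, a⟩ rfl]
    exact gl.φ₂ _ _ rfl
  · rcases d' with d | d
    · exact (d.2 (xk_tail ((v1 d).symm.trans e) ⟨u, hZ hu, rfl⟩)).elim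
    · exact ⟨d.1, ⟨u, hu, fg_eq ((v2 d).symm.trans e)⟩, rfl⟩

end Pool.Agent.Lib.MP_c1f5fe_lc
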