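import Pool.Agent.Lib.MP_c1f5fe_lc.SpecC
import Pool.Agent.Lib.MP_c1f5fe_lc.Tb

/-! Strips without curves and zones crossed by one bundle. -/

namespace Pool.Agent.Lib.MP_c1f5fe_lc

open Equiv Function Relation

namespace ZoneL

lemma ad_neg {m : ℕ} (x : ZMod m) : ad (-x) = ad x := ZMod.natAbs_valMinAbs_neg x

lemma ad_add {m : ℕ} (x y : ZMod m) : ad (x + y) ≤ ad x + ad y :=
  (ZMod.natAbs_valMinAbs_add_le x y).trans (Int.natAbs_add_le _ _)

lemma ad_nat {m j : ℕ} (h : j ≤ m / 2) : ad (j : ZMod m) = j := by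
  rw [ad, ZMod.valMinAbs_natCast_of_le_half h, Int.natAbs_natCast]

lemma ad_eq {m : ℕ} (x : ZMod m) : x = (ad x : ℕ) ∨ x = -((ad x : ℕ) : ZMod m) := by
  have h := ZMod.coe_valMinAbs x
  rcases Int.natAbs_eq x.valMinAbs with e | e
  · rw [e, Int.cast_natCast] at h; exact Or.inl h.symm
  · rw [e, Int.cast_neg, Int.cast_natCast] at h; exact Or.inr h.symm

lemma ad_zero {m : ℕ} : ad (0 : ZMod m) = 0 := by simp [ad]

lemma ad_one {m : ℕ} (h : 4 ≤ m) : ad (1 : ZMod m) = 1 := by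
  simpa using ad_nat (m := m) (j := 1) (by omega)

lemma ad_two {m : ℕ} (h : 4 ≤ m) : ad (2 : ZMod m) = 2 := by
  simpa using ad_nat (m := m) (j := 2) (by omega)

variable {k : ℕ} {V D : Type} {G : SimpleGraph V} {U : Set V}

lemma lip {n m : ℕ} {rad : V → ℕ} {ang : V → ZMod m} (c : Cyl G n m rad ang) (hm : 4 ≤ m)
    {u v : V} (h : G.Adj u v) (h1 : 2 ≤ rad u) (h2 : rad u + 1 ≤ n) :
    rad u ≤ rad v + 1 ∧ rad v ≤ rad u + 1 ∧ ad (ang u) ≤ ad (ang v) + 1 ∧
      ad (ang v) ≤ ad (ang u) + 1 ∧ (ang v = ang u ∨ ang v = ang u + 1 ∨ ang u = ang v + 1) := by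
  have a := c.lip u v h
  have b := c.lip v u h.symm
  have e := c.lipa u v h (by omega) (by omega) (by omega) (by omega)
  have key : ∀ x : ZMod m, ad (x + 1) ≤ ad x + 1 ∧ ad x ≤ ad (x + 1) + 1 := fun x => by
    have p := ad_add x 1
    have q := ad_add (x + 1) (-1)
    rw [ad_neg, ad_one hm, add_neg_cancel_right] at q
    rw [ad_one hm] at p
    exact ⟨p, q⟩
  refine ⟨a, b, ?_, ?_, e⟩ <;> rcases e with e | e | e <;> rw [e]
  · omega
  · exact (key _).2
  · exact (key _).1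
  · omega
  · exact (key _).1
  · exact (key _).2

lemma walk (S : Sk k G U D) {A : Set V} (hA : Cn G A) (P : V → Prop)
    (h : ∀ d x y, S.E d x y → x ∈ A → y ∈ A → P x → P y) {a b : V} (ha : a ∈ A) (hb : b ∈ A)
    (p : P a) : P b := by
  have := hA.2 a ha b hb
  clear hb
  induction this with
  | refl => exact p
  | tail _ e ih =>
    obtain ⟨d, ⟨-, e1, e2⟩, -⟩ := S.real_ex _ _ e.1
    exact h d _ _ ⟨e1, e2⟩ e.2.1 e.2.2 ih

lemma pre_inv (g : FG k) (p : ℕ) : ∃ q ≤ g.toWord.length,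
    g * FreeGroup.mk ((g⁻¹).toWord.take p) = FreeGroup.mk (g.toWord.take q) := by
  have e : g.toWord = FreeGroup.invRev ((g⁻¹).toWord.drop p) ++
      FreeGroup.invRev ((g⁻¹).toWord.take p) := by
    rw [← FreeGroup.invRev_append, List.take_append_drop, FreeGroup.toWord_inv,
      FreeGroup.invRev_invRev]
  refine ⟨(FreeGroup.invRev ((g⁻¹).toWord.drop p)).length, ?_, ?_⟩
  · conv_rhs => rw [e]
    simp
  · conv_rhs => rw [e]
    rw [List.take_left, ← FreeGroup.inv_mk, eq_inv_iff_mul_eq_one, mul_assoc, FreeGroup.mul_mk,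
      List.take_append_drop, FreeGroup.mk_toWord, mul_inv_cancel]

end ZoneL

open ZoneL

theorem strip : K6 → FlatSt → TSt → StripSt := by
  rintro - fl ⟨h₀, ts⟩
  refine ⟨3 + h₀, fun k V D _ G U S w₀ n m rad ang r a b top val cyl hm h1 h2 good => ?_⟩
  have hT : 3 + tw h₀ k ≤ tw (3 + h₀) k := by rw [tw_add]; exact add_le_tw _ _
  generalize tw (3 + h₀) k = T at *
  obtain ⟨T, rfl⟩ : ∃ T', T = T' + 3 := ⟨T - 3, by omega⟩
  have m4 : 4 ≤ m := by omega
  have pot : ∀ w, S.Pre w → ∃ hp, S.PotOn w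
      {v | max (max (rad v - r) (r - rad v) - a) (ad (ang v) - b) ≤ T} hp := by
    intro w hw
    obtain ⟨hp, e⟩ := fl.pot S n m rad ang r (a + T) ((m / 2 : ℕ) : ZMod m) cyl m4 (by omega)
      (by omega) good w hw
    have sub : ∀ v, max (max (rad v - r) (r - rad v) - a) (ad (ang v) - b) ≤ T →
        v ∈ band rad r (a + T) ∧ 2 ≤ ad (ang v - ((m / 2 : ℕ) : ZMod m)) := fun v hv => by
      have p := ad_add (ang v) (-(ang v - ((m / 2 : ℕ) : ZMod m)))
      rw [ad_neg, show ang v + -(ang v - ((m / 2 : ℕ) : ZMod m)) = ((m / 2 : ℕ) : ZMod m) by ring,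
        ad_nat le_rfl] at p
      refine ⟨⟨by omega, by omega⟩, by omega⟩
    exact ⟨hp, fun d u v he hu hv => e d u v he (sub u hu) (sub v hv)⟩
  obtain ⟨w, hv, -, -, hw⟩ := ts k V D G U S w₀
    (fun v => max (max (rad v - r) (r - rad v) - a) (ad (ang v) - b)) T ∅ top (by omega)
    (fun d u hu _ l => by
      dsimp only at l ⊢
      obtain ⟨v, e, adj⟩ := good.1 d u hu ⟨by omega, by omega⟩
      obtain ⟨l1, l2, l3, l4, -⟩ := lip cyl m4 adj (by omega) (by omega)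
      exact ⟨v, e, by omega⟩) pot (fun _ _ _ _ _ => ⟨1, 1, fun _ h => h.elim⟩) val
    (fun _ _ _ _ h => h.elim)
  obtain ⟨hp, e⟩ := pot w hv.toPre
  refine ⟨w, hv, fun d u v he ⟨⟨a1, a2⟩, a3⟩ ⟨⟨b1, b2⟩, b3⟩ => not_not.1 fun ne => ?_⟩
  obtain ⟨_, h, -⟩ := hw hp e d u v he (by omega) (by omega) ne
  exact h

open Classical in
theorem zone : K6 → FlatSt → TSt → StripSt → ZoneSt := by
  rintro k6 fl ⟨h₀, ts⟩ ⟨h₁, st⟩
  obtain ⟨h, hh⟩ : TB (fun k : ℕ => k) fun k => 2 * (2 + tw h₁ k) + tw h₀ k + 8 := by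
    apply_rules (transparency := .reducible) (maxDepth := 99) [TB.add, TB.mul, TB.tw, TB.const,
      TB.self']
  refine ⟨h, fun k V D _ G U S w₀ n m rad ang r a top val cyl hm h1 h2 good => ?_⟩
  have hT := hh k
  dsimp only at hT
  generalize tw h k = T at *
  have m4 : 4 ≤ m := by omega
  obtain ⟨w₁, v₁, f₁⟩ := st k V D G U S w₀ n m rad ang r (a + T - tw h₁ k) 2 top val cyl
    (by omega) (by omega) (by omega) (by rwa [show a + T - tw h₁ k + tw h₁ k = a + T by omega])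
  set L := tw h₀ k with hL
  set lev : V → ℕ := fun v =>
    if 2 ≤ ad (ang v) then max (rad v - r) (r - rad v) - a else L + 1 with hlev
  have hW : ∀ v c, c ≤ L → (lev v ≤ c ↔ v ∈ band rad r (a + c) ∧ 2 ≤ ad (ang v)) := by
    intro v c hc
    simp only [hlev, band, Set.mem_ofPred_eq]
    split_ifs <;> omega
  set Fr : Set V := {v | v ∈ band rad r (a + L) ∧ ad (ang v) ≤ 2} with hFr
  have pot : ∀ w, S.Pre w → ∃ hp, S.PotOn w {v | lev v ≤ L} hp := by
    intro w hw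
    obtain ⟨hp, e⟩ := fl.pot S n m rad ang r (a + T - 3) 0 cyl m4 (by omega) (by omega)
      (by rwa [show a + T - 3 + 3 = a + T by omega]) w hw
    have sub : ∀ v, lev v ≤ L → v ∈ band rad r (a + T - 3) ∧ 2 ≤ ad (ang v - 0) := fun v hv => by
      obtain ⟨⟨p, q⟩, s⟩ := (hW v L le_rfl).1 hv
      exact ⟨⟨by omega, by omega⟩, by rwa [sub_zero]⟩
    exact ⟨hp, fun d u v he hu hv => e d u v he (sub u hu) (sub v hv)⟩
  have col : ∀ w hp, S.FreeOn w Fr → S.PotOn w {v | lev v ≤ L} hp → ∀ j, ad j = 2 →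
      ∃ x, ∀ v ∈ band rad r (a + L), ang v = j → hp v = x := by
    intro w hp fr po j hj
    have cn := k6.rect G n m rad ang (r - (a + L)) (r + (a + L)) 0 j cyl (by omega) (by omega)
      (by omega)
    have mem : ∀ v, v ∈ {v | r - (a + L) ≤ rad v ∧ rad v ≤ r + (a + L) ∧
        ∃ t : ℕ, t ≤ 0 ∧ ang v = j + t} ↔ v ∈ band rad r (a + L) ∧ ang v = j := fun v => by
      simp only [band, Set.mem_ofPred_eq, Nat.le_zero, exists_eq_left, Nat.cast_zero, add_zero]
      rw [and_assoc, tsub_le_iff_right]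
    obtain ⟨v₀, h0⟩ := cn.1
    refine ⟨hp v₀, fun v b e => walk S cn (fun v => hp v = hp v₀) ?_ h0 ((mem v).2 ⟨b, e⟩) rfl⟩
    intro d x y he hx hy p
    obtain ⟨x1, x2⟩ := (mem x).1 hx
    obtain ⟨y1, y2⟩ := (mem y).1 hy
    have := po d x y he ((hW x L le_rfl).2 ⟨x1, by rw [x2, hj]⟩)
      ((hW y L le_rfl).2 ⟨y1, by rw [y2, hj]⟩)
    rw [fr d x y he ⟨x1, by rw [x2, hj]⟩ ⟨y1, by rw [y2, hj]⟩, eq_comm, inv_mul_eq_one] at this
    rw [← this, p]
  have two : ∀ v ∈ Fr, lev v ≤ L → ang v = 2 ∨ ang v = -2 := fun v hv l => by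
    have := ad_eq (ang v)
    rwa [le_antisymm hv.2 ((hW v L le_rfl).1 l).2, Nat.cast_ofNat] at this
  have a2 : ad (2 : ZMod m) = 2 := ad_two m4
  have a2' : ad (-2 : ZMod m) = 2 := by rw [ad_neg, a2]
  obtain ⟨w, hv, mn, fr, hw⟩ := ts k V D G U S w₁ lev L Fr top le_rfl
    (fun d u hu nf l => by
      obtain ⟨⟨p, q⟩, s⟩ := (hW u L le_rfl).1 l.le
      obtain ⟨v, e, adj⟩ := good.1 d u hu ⟨by omega, by omega⟩
      obtain ⟨l1, l2, l3, l4, -⟩ := lip cyl m4 adj (by omega) (by omega)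
      have s3 : ¬ad (ang u) ≤ 2 := fun c => nf ⟨⟨p, q⟩, c⟩
      obtain ⟨⟨p', q'⟩, -⟩ := (hW u (lev u) l.le).1 le_rfl
      exact ⟨v, e, (hW v _ l).2 ⟨⟨by omega, by omega⟩, by omega⟩⟩) pot
    (fun w hp _ fr po => by
      obtain ⟨x, hx⟩ := col w hp fr po 2 a2
      obtain ⟨y, hy⟩ := col w hp fr po (-2) a2'
      exact ⟨x, y, fun v hv l => (two v hv l).imp (hx v hv.1) (hy v hv.1)⟩) v₁
    (fun d u v he ⟨⟨p, q⟩, s⟩ ⟨⟨p', q'⟩, s'⟩ =>
      f₁ d u v he ⟨⟨by omega, by omega⟩, s⟩ ⟨⟨by omega, by omega⟩, s'⟩)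
  obtain ⟨hp, po⟩ := pot w hv.toPre
  obtain ⟨x, hx⟩ := col w hp fr po 2 a2
  obtain ⟨y, hy⟩ := col w hp fr po (-2) a2'
  set u := (x⁻¹ * y).toWord with hu
  have up : ∀ v ∈ band rad r a, v ∈ band rad r (a + L) := fun v ⟨p, q⟩ => ⟨by omega, by omega⟩
  have cross : ∀ d s t, S.E d s t → s ∈ band rad r a → 2 ≤ ad (ang s) → t ∈ band rad r a →
      2 ≤ ad (ang t) → hp s = hp t ∨
        (u.length ≤ L ∧ ∃ q ≤ u.length, hp t = x * FreeGroup.mk (u.take q)) := by
    intro d s t he s1 s2 t1 t2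
    by_cases e : hp s = hp t
    · exact Or.inl e
    have ne : w d ≠ 1 := by
      rw [po d s t he ((hW s L le_rfl).2 ⟨up s s1, s2⟩) ((hW t L le_rfl).2 ⟨up t t1, t2⟩)]
      exact fun c => e (inv_mul_eq_one.1 c)
    obtain ⟨c, c1, c', c2, c3, c4, nm, p, q, e1, e2⟩ := hw hp po d s t he
      (Nat.le_zero.1 ((hW s 0 (Nat.zero_le _)).2 ⟨s1, s2⟩))
      (Nat.le_zero.1 ((hW t 0 (Nat.zero_le _)).2 ⟨t1, t2⟩)) ne
    have cc : hp c ≠ hp c' := fun z => e (by rw [e1, e2, z]; simp)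
    right
    rcases (two c c1 c3).imp (hx c c1.1) (hy c c1.1) with z | z <;>
      rcases (two c' c2 c4).imp (hx c' c2.1) (hy c' c2.1) with z' | z'
    · exact absurd (z.trans z'.symm) cc
    · rw [z, z'] at nm e2
      exact ⟨nm, min q u.length, min_le_right _ _, by rw [e2, ← List.take_eq_take_min]⟩
    · rw [z, z', show y⁻¹ * x = (x⁻¹ * y)⁻¹ by group] at nm e2
      obtain ⟨q', l, e3⟩ := pre_inv (x⁻¹ * y) q
      exact ⟨by rwa [FreeGroup.norm_inv_eq] at nm, q', l, by rw [e2, ← e3]; group⟩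
    · exact absurd (z.trans z'.symm) cc
  have cn := k6.rect G n m rad ang (r - a) (r + a) (m - 2 * 2) (2 : ℕ) cyl (by omega) (by omega)
    (by omega)
  have mem : ∀ v, v ∈ {v | r - a ≤ rad v ∧ rad v ≤ r + a ∧
      ∃ t : ℕ, t ≤ m - 2 * 2 ∧ ang v = (2 : ℕ) + t} ↔ v ∈ band rad r a ∧ 2 ≤ ad (ang v) := fun v => by
    simp only [band, Set.mem_ofPred_eq, k6.ad_ge m 2 (ang v) (by omega) (by omega)]
    rw [and_assoc, tsub_le_iff_right]
  obtain ⟨v₀, r0, e0⟩ := (cyl.cell r 2 (by omega) (by omega)).1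
  obtain ⟨v₁, r1, e1⟩ := (cyl.cell r (-2) (by omega) (by omega)).1
  have b0 : v₀ ∈ band rad r a := ⟨by omega, by omega⟩
  have b1 : v₁ ∈ band rad r a := ⟨by omega, by omega⟩
  have x0 := hx v₀ (up _ b0) e0
  have all : ∀ v ∈ band rad r a, 2 ≤ ad (ang v) →
      ∃ q ≤ u.length, hp v = x * FreeGroup.mk (u.take q) := fun v p q =>
    walk S cn (fun v => ∃ q ≤ u.length, hp v = x * FreeGroup.mk (u.take q))
      (fun d s t he hs ht ih => by
        rcases cross d s t he ((mem s).1 hs).1 ((mem s).1 hs).2 ((mem t).1 ht).1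
          ((mem t).1 ht).2 with e | e
        · rwa [← e]
        · exact e.2) ((mem v₀).2 ⟨b0, by rw [e0, a2]⟩) ((mem v).2 ⟨p, q⟩)
      ⟨0, Nat.zero_le _, by rw [x0]; simp [← FreeGroup.one_eq_mk]⟩
  have len : u.length ≤ L := by
    by_contra c
    have : hp v₁ = x := walk S cn (fun v => hp v = x) (fun d s t he hs ht ih => by
      rcases cross d s t he ((mem s).1 hs).1 ((mem s).1 hs).2 ((mem t).1 ht).1
        ((mem t).1 ht).2 with e | e
      · rwa [← e]
      · exact absurd e.1 c) ((mem v₀).2 ⟨b0, by rw [e0, a2]⟩) ((mem v₁).2 ⟨b1, by rw [e1, a2']⟩) x0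
    rw [hy v₁ (up _ b1) e1] at this
    apply c
    simp [hu, this]
  have lr : ∀ z : ZMod m, z = -1 ∨ z = -2 → ¬(z = 1 ∨ z = 2) := by
    have key : ∀ j : ℕ, 0 < j → j ≤ 4 → (j : ZMod m) ≠ 0 := fun j j0 j4 e => by
      have := ad_nat (m := m) (j := j) (by omega)
      rw [e, ad_zero] at this
      omega
    rintro z (rfl | rfl) (e | e)
    · exact key 2 (by omega) (by omega) (by push_cast; linear_combination -e)
    · exact key 3 (by omega) (by omega) (by push_cast; linear_combination -e)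
    · exact key 3 (by omega) (by omega) (by push_cast; linear_combination -e)
    · exact key 4 (by omega) (by omega) (by push_cast; linear_combination -e)
  have ex : ∀ v, ∃ p ≤ u.length, (ang v = 1 ∨ ang v = 2 → p = 0) ∧
      (ang v = -1 ∨ ang v = -2 → p = u.length) ∧
      (v ∈ band rad r a → 2 ≤ ad (ang v) → hp v = x * FreeGroup.mk (u.take p)) := by
    intro v
    by_cases c1 : ang v = 1 ∨ ang v = 2
    · refine ⟨0, Nat.zero_le _, fun _ => rfl, fun c => absurd c1 (lr _ c), fun p q => ?_⟩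
      rcases c1 with c | c
      · rw [c, ad_one m4] at q; omega
      · rw [hx v (up v p) c]; simp [← FreeGroup.one_eq_mk]
    by_cases c2 : ang v = -1 ∨ ang v = -2
    · refine ⟨u.length, le_rfl, fun c => absurd c c1, fun _ => rfl, fun p q => ?_⟩
      rcases c2 with c | c
      · rw [c, ad_neg, ad_one m4] at q; omega
      · rw [hy v (up v p) c, List.take_length, hu, FreeGroup.mk_toWord]; group
    by_cases c3 : v ∈ band rad r a ∧ 2 ≤ ad (ang v)
    · obtain ⟨q, l, e⟩ := all v c3.1 c3.2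
      exact ⟨q, l, fun c => absurd c c1, fun c => absurd c c2, fun _ _ => e⟩
    · exact ⟨0, Nat.zero_le _, fun c => absurd c c1, fun c => absurd c c2,
        fun p q => absurd ⟨p, q⟩ c3⟩
  choose pos p1 p2 p3 p4 using ex
  refine ⟨w, u, pos, hv, mn, by omega, by rw [hu, FreeGroup.mk_toWord], p1,
    fun d s t he hs ht => fr d s t he ⟨up s hs.1, hs.2⟩ ⟨up t ht.1, ht.2⟩, ?_,
    fun v _ => p2 v, fun v _ => p3 v⟩
  have one : ∀ s t, G.Adj s t → s ∈ band rad r a → ad (ang s) = 1 → 1 ≤ ad (ang t) →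
      ad (ang t) ≤ 2 ∧ pos s = pos t := by
    intro s t adj ⟨s1, s2⟩ s3 t3
    obtain ⟨-, -, -, l, e⟩ := lip cyl m4 adj (by omega) (by omega)
    have t0 : ang t ≠ 0 := fun c => by rw [c, ad_zero] at t3; omega
    refine ⟨by omega, ?_⟩
    have z := ad_eq (ang s)
    rw [s3, Nat.cast_one] at z
    rcases z with z | z
    · rw [p2 s (Or.inl z), p2 t]
      rcases e with e | e | e
      · exact Or.inl (e.trans z)
      · exact Or.inr (by rw [e, z]; ring)
      · exact absurd (by linear_combination z - e) t0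
    · rw [p3 s (Or.inl z), p3 t]
      rcases e with e | e | e
      · exact Or.inl (e.trans z)
      · exact absurd (by linear_combination z + e) t0
      · exact Or.inr (by linear_combination z - e)
  rintro d s t he ⟨s1, s2⟩ ⟨t1, t2⟩
  dsimp only
  have adj : G.Adj s t := by
    obtain ⟨v, e, adj⟩ := good.1 d s he.1 ⟨by have := s1.1; omega, by have := s1.2; omega⟩
    rwa [Option.some.inj (e.symm.trans he.2)] at adj
  by_cases c1 : ad (ang s) = 1
  · obtain ⟨l, e⟩ := one s t adj s1 c1 t2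
    rw [fr d s t he ⟨up s s1, by omega⟩ ⟨up t t1, l⟩, e, inv_mul_cancel]
  by_cases c2 : ad (ang t) = 1
  · obtain ⟨l, e⟩ := one t s adj.symm t1 c2 s2
    rw [fr d s t he ⟨up s s1, l⟩ ⟨up t t1, by omega⟩, e, inv_mul_cancel]
  rw [po d s t he ((hW s L le_rfl).2 ⟨up s s1, by omega⟩) ((hW t L le_rfl).2 ⟨up t t1, by omega⟩),
    p4 s s1 (by omega), p4 t t1 (by omega)]
  group

end Pool.Agent.Lib.MP_c1f5fe_lc
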