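import Pool.Agent.Lib.MP_c1f5fe_lc.Asm
import Pool.Agent.Lib.MP_c1f5fe_lc.Kit1
import Pool.Agent.Lib.MP_c1f5fe_lc.Kit2
import Pool.Agent.Lib.MP_c1f5fe_lc.PL2
import Pool.Agent.Lib.MP_c1f5fe_lc.Reg
import Pool.Agent.Lib.MP_c1f5fe_lc.Hom
import Pool.Agent.Lib.MP_c1f5fe_lc.Kit5
import Pool.Agent.Lib.MP_c1f5fe_lc.Kit6
import Pool.Agent.Lib.MP_c1f5fe_lc.Ord
import Pool.Agent.Lib.MP_c1f5fe_lc.Star
import Pool.Agent.Lib.MP_c1f5fe_lc.Disk
import Pool.Agent.Lib.MP_c1f5fe_lc.AltT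
import Pool.Agent.Lib.MP_c1f5fe_lc.ND
import Pool.Agent.Lib.MP_c1f5fe_lc.NDH
import Pool.Agent.Lib.MP_c1f5fe_lc.B4
import Pool.Agent.Lib.MP_c1f5fe_lc.Nielsen
import Pool.Agent.Lib.MP_c1f5fe_lc.N1
import Pool.Agent.Lib.MP_c1f5fe_lc.Match
import Pool.Agent.Lib.MP_c1f5fe_lc.Cut
import Pool.Agent.Lib.MP_c1f5fe_lc.TB1
import Pool.Agent.Lib.MP_c1f5fe_lc.E1
import Pool.Agent.Lib.MP_c1f5fe_lc.TB3
import Pool.Agent.Lib.MP_c1f5fe_lc.Tight
import Pool.Agent.Lib.MP_c1f5fe_lc.Ops1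
import Pool.Agent.Lib.MP_c1f5fe_lc.Ops2
import Pool.Agent.Lib.MP_c1f5fe_lc.Ops3
import Pool.Agent.Lib.MP_c1f5fe_lc.Glue
import Pool.Agent.Lib.MP_c1f5fe_lc.Prep1
import Pool.Agent.Lib.MP_c1f5fe_lc.Prep2
import Pool.Agent.Lib.MP_c1f5fe_lc.CMH
import Pool.Agent.Lib.MP_c1f5fe_lc.HMC
import Pool.Agent.Lib.MP_c1f5fe_lc.Bas
import Pool.Agent.Lib.MP_c1f5fe_lc.Comp
import Pool.Agent.Lib.MP_c1f5fe_lc.Norm
import Pool.Agent.Lib.MP_c1f5fe_lc.FSwap
import Pool.Agent.Lib.MP_c1f5fe_lc.Fin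
import Pool.Agent.Lib.MP_c1f5fe_lc.Near
import Pool.Agent.Lib.MP_c1f5fe_lc.Flat
import Pool.Agent.Lib.MP_c1f5fe_lc.Fr0
import Pool.Agent.Lib.MP_c1f5fe_lc.FrZ
import Pool.Agent.Lib.MP_c1f5fe_lc.Hug
import Pool.Agent.Lib.MP_c1f5fe_lc.Zone
import Pool.Agent.Lib.MP_c1f5fe_lc.Comb
import Pool.Agent.Lib.MP_c1f5fe_lc.ZSwap
import Pool.Agent.Lib.MP_c1f5fe_lc.Rep
import Pool.Agent.Lib.MP_c1f5fe_lc.CapIn
import Pool.Agent.Lib.MP_c1f5fe_lc.Fill
import Pool.Agent.Lib.MP_c1f5fe_lc.FlatRed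
import Pool.Agent.Lib.MP_c1f5fe_lc.Net
import Pool.Agent.Lib.MP_c1f5fe_lc.Ball
import Pool.Agent.Lib.MP_c1f5fe_lc.Ring
import Pool.Agent.Lib.MP_c1f5fe_lc.Pick
import Pool.Agent.Lib.MP_c1f5fe_lc.Shell
import Pool.Agent.Lib.MP_c1f5fe_lc.Mono
import Pool.Agent.Lib.MP_c1f5fe_lc.Cell
import Pool.Agent.Lib.MP_c1f5fe_lc.Unb
import Pool.Agent.Lib.MP_c1f5fe_lc.AlgKit
import Pool.Agent.Lib.MP_c1f5fe_lc.AlgFinal
import Pool.Agent.Lib.MP_c1f5fe_lc.AlgDec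
import Pool.Agent.Lib.MP_c1f5fe_lc.AlgFind
import Pool.Agent.Lib.MP_c1f5fe_lc.AlgCand
import Pool.Agent.Lib.MP_c1f5fe_lc.AlgLoop

/-! All steps together. -/

namespace Pool.Agent.Lib.MP_c1f5fe_lc

theorem main_fpt : FPT := by
  have K1 := k1
  have K2 := k2 K1
  have K3 := k3 K1 (pl2 K1)
  have K4 := k4 K1
  have K5 := k5 K1 K3 K4
  have ord := ord K1
  have unord := unord K1
  have star := star K1 ord
  have np := nonpl K1 K2 unord star
  have t1 := t1_of (nd disk (alt np)) (ndh K1 K2 K4 ord unord cd)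
  have cut := cut K1 (mat K1) minst
  have tb1 := tb1 K1 K5 (n1 nst) cut
  have e1 := e1 minst tb1
  have tst := tst minst (tb tb1)
  have mch := mch K1 K2
  have move := move K1
  have absorb := absorb K1
  have swap := swap_st (glue_st K1 K3)
  have prep := prep K1 mch (prep1 K1 K2 K3 absorb demote)
  have cmh := cmh K1 ord minst cut
  have hmc := hmc K1 K5 unord absorb (connect K1 K2)
  have bas := bas demote
  have many := many (fin K1 K3 (norm K1 K3 mch move minst e1 prep) (fswap swap)) bas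
  have near := near np
  have flat := flat K1 K2 K3 star near k6
  have fr0 := fr0 np k6
  have hug := hug K1 K2 K3 K5 mch move
  have strip := strip k6 flat tst
  have rep := rep K2 K3 k6 np prep e1 flat (frz k6 fr0) hug (zone k6 flat tst strip) (comb k6)
    (zswap K1 K3 swap goodtr) goodtr
  have fr := flatred K2 k6 np bas rep (frd k6 fr0) strip (capin K1 K2 K3 swap)
    (fill K1 K2 K3 bas mch absorb demote swap hug)
  have pick := pick K1 K2 (tangle K2) (net K1 part) (ball K1 K4) (ring K1 K4)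
  have main := mainst (unb many)
    (lst K2 np many pick shell (mono K1 K2 K4) (cell np) (cover near) fr)
  have dec := dec ka prep minst e1
  exact fpt_of t1 t2 cmh hmc (comp K2 np bas demote cmh hmc) (top ka bas (loop ka main dec
    (cand ka) (step ka bas (find ka bas (bound bas main) dec)))) (final ka)

end Pool.Agent.Lib.MP_c1f5fe_lc
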