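import Pool.Agent.Lib.MP_c1f5fe_lc.SpecB

/-! Walks in a planar map, discs bounded by a cycle, and a colouring of the faces. -/

namespace Pool.Agent.Lib.MP_c1f5fe_lc

open Equiv Function Relation

namespace Mono

variable {V D : Type} {H : SimpleGraph V}

theorem change [Finite D] {π : Perm D} {p : D → Prop} {x y : D} (h : π.SameCycle x y)
    (hx : p x) (hy : ¬p y) : ∃ z, π.SameCycle x z ∧ p z ∧ ¬p (π z) := by
  obtain ⟨n, -, e⟩ := h.exists_pow_eq'
  by_contra hc
  push Not at hc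
  have key : ∀ k : ℕ, p ((π ^ k) x) := by
    intro k
    induction k with
    | zero => simpa using hx
    | succ k ih =>
      rw [pow_succ', Perm.mul_apply]
      exact hc _ ⟨(k : ℤ), by simp⟩ ih
  exact hy (e ▸ key n)

theorem inv_sc [Finite D] {π : Perm D} {p : D → Prop} (hp : ∀ d, p (π d) ↔ p d) {x y : D}
    (h : π.SameCycle x y) : p x ↔ p y := by
  constructor
  · intro hx
    by_contra hy
    obtain ⟨z, -, a, b⟩ := change h hx hy
    exact b ((hp z).2 a)
  · intro hy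
    by_contra hx
    obtain ⟨z, -, a, b⟩ := change h.symm hy hx
    exact b ((hp z).2 a)

theorem vx_φ (L : LM H D) (d : D) : L.vx (L.φ d) = L.vx (L.α d) := by
  rw [← L.vx_σ (L.α d), L.αα]

theorem dart_eq (L : LM H D) {d e : D} (h1 : L.vx d = L.vx e)
    (h2 : L.vx (L.α d) = L.vx (L.α e)) : d = e :=
  (L.ex _ _ (L.adj e)).unique ⟨h1, h2⟩ ⟨rfl, rfl⟩

theorem vx_sc [Finite D] (L : LM H D) {d e : D} (h : L.toHMap.σ.SameCycle d e) :
    L.vx d = L.vx e :=
  (inv_sc (p := fun x => L.vx d = L.vx x) (fun x => by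
    rw [HMap.σ_apply, L.vx_σ]) h).1 rfl

/-- a change of colour around a vertex -/
theorem vchange [Finite D] (L : LM H D) {p : D → Prop} (hp : ∀ d, p (L.φ d) ↔ p d) {d e : D}
    (h : L.vx d = L.vx e) (hd : p d) (he : ¬p e) :
    ∃ x, L.vx x = L.vx d ∧ p x ∧ ¬p (L.α x) := by
  obtain ⟨x, a, b, c⟩ := change (L.vx_cyc d e h) hd he
  exact ⟨x, (vx_sc L a).symm, b, fun q => c ((hp _).2 q)⟩

theorem con [Finite D] {G : SimpleGraph V} {Z : Set V} (L : LM (rst G Z) D) (hZ : Cn G Z)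
    {p : D → Prop} (h1 : ∀ d, p (L.φ d) ↔ p d) (h2 : ∀ d, p d → p (L.α d)) {d e : D}
    (hd : p d) : p e := by
  have loc : ∀ x y, L.vx x = L.vx y → p x → p y := by
    intro x y h hx
    by_contra hy
    obtain ⟨z, -, a, b⟩ := vchange L h1 h hx hy
    exact b (h2 z a)
  have key : ∀ v, ReflTransGen (fun x y => G.Adj x y ∧ x ∈ Z ∧ y ∈ Z) (L.vx d) v →
      ∀ e, L.vx e = v → p e := by
    intro v h
    induction h with
    | refl => exact fun e h => loc d e h.symm hd
    | tail _ h ih =>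
      intro e he
      obtain ⟨f, ⟨f1, f2⟩, -⟩ := L.ex _ _ h
      exact loc (L.α f) e (f2.trans he.symm) (h2 f (ih f f1))
  exact key _ (hZ.2 _ (L.adj d).2.1 _ (L.adj e).2.1) e rfl

/-- a set of faces bounded by a cycle -/
structure Bd (L : LM H D) (X : D → Prop) {n : ℕ} (c : ZMod n → V) : Prop where
  phi : ∀ d, X (L.φ d) ↔ X d
  cyc : Cyc H c
  bd : ∀ d, (X d ∧ ¬X (L.α d)) ↔ ∃ i, L.vx d = c i ∧ L.vx (L.α d) = c (i + 1)

namespace Bd
variable {L : LM H D} {X : D → Prop} {n : ℕ} {c : ZMod n → V}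

theorem flip (h : Bd L X c) : Bd L (fun d => ¬X d) fun i => c (-i) where
  phi d := not_congr (h.phi d)
  cyc := ⟨h.cyc.three, h.cyc.inj.comp neg_injective, fun i => by
    have := (h.cyc.adj (-(i + 1))).symm
    rwa [show -(i + 1) + 1 = -i by ring] at this⟩
  bd d := by
    have := h.bd (L.α d)
    rw [L.αα] at this
    rw [not_not, and_comm, this]
    constructor
    · rintro ⟨i, a, b⟩
      exact ⟨-(i + 1), by rw [neg_neg, b], by rw [a]; congr 1; ring⟩
    · rintro ⟨i, a, b⟩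
      exact ⟨-(i + 1), b, by rw [a]; congr 1; ring⟩

theorem ex (h : Bd L X c) (i : ZMod n) :
    ∃ d, L.vx d = c i ∧ L.vx (L.α d) = c (i + 1) ∧ X d ∧ ¬X (L.α d) := by
  obtain ⟨d, ⟨a, b⟩, -⟩ := L.ex _ _ (h.cyc.adj i)
  exact ⟨d, a, b, (h.bd d).2 ⟨i, a, b⟩⟩

theorem out (h : Bd L X c) (i : ZMod n) : ∃ e, L.vx e = c i ∧ ¬X e := by
  obtain ⟨d, a, -, -, b⟩ := h.ex i
  exact ⟨L.φ (L.α d), (L.vx_σ d).trans a, fun q => b ((h.phi _).1 q)⟩

theorem mem (h : Bd L X c) (i : ZMod n) : c i ∈ L.Zc X := by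
  obtain ⟨d, a, -, b, -⟩ := h.ex i
  exact ⟨d, b, a⟩

theorem head (h : Bd L X c) {d : D} (hd : X d) : L.vx (L.α d) ∈ L.Zc X :=
  ⟨L.φ d, (h.phi d).2 hd, vx_φ L d⟩

theorem ring [Finite D] (h : Bd L X c) {e : D} (he : ¬X e) (hv : L.vx e ∈ L.Zc X) :
    L.vx e ∈ Set.range c := by
  obtain ⟨d, hd, q⟩ := hv
  obtain ⟨x, a, b⟩ := vchange L h.phi q hd he
  obtain ⟨i, r, -⟩ := (h.bd x).1 b
  exact ⟨i, by rw [← r, a, q]⟩

theorem ring' [Finite D] (h : Bd L X c) {e : D} (he : ¬(X e ∧ X (L.α e)))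
    (hv : L.vx e ∈ L.Zc X) : L.vx e ∈ Set.range c := by
  by_cases q : X e
  · obtain ⟨i, r, -⟩ := (h.bd e).1 ⟨q, fun t => he ⟨q, t⟩⟩
    exact ⟨i, r.symm⟩
  · exact h.ring q hv

theorem loc [Finite D] (h : Bd L X c) {π : D → Prop} (hπ : ∀ d, π (L.φ d) ↔ π d) {e e' : D}
    (hv : L.vx e = L.vx e')
    (hi : ∀ d, L.vx d = L.vx e → X d → X (L.α d) → (π d ↔ π (L.α d))) (he : X e) (he' : X e')
    (hp : π e) : π e' := by
  by_contra hq
  obtain ⟨x, a, ⟨b1, b2⟩, b3⟩ := vchange L (p := fun d => π d ∧ X d)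
    (fun d => and_congr (hπ d) (h.phi d)) hv ⟨hp, he⟩ fun t => hq t.1
  obtain ⟨y, a', ⟨c1, c2⟩, c3⟩ := vchange L (p := fun d => ¬π d ∧ X d)
    (fun d => and_congr (not_congr (hπ d)) (h.phi d)) hv.symm ⟨hq, he'⟩ fun t => t.1 hp
  obtain ⟨i, i1, i2⟩ := (h.bd x).1 ⟨b2, fun t => b3 ⟨(hi x a b2 t).1 b1, t⟩⟩
  obtain ⟨k, k1, k2⟩ := (h.bd y).1
    ⟨c2, fun t => c3 ⟨fun s => c1 ((hi y (a'.trans hv.symm) c2 t).2 s), t⟩⟩
  have ik : i = k := h.cyc.inj (by rw [← i1, ← k1, a, a', hv])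
  subst ik
  exact c1 (dart_eq L (i1.trans k1.symm) (i2.trans k2.symm) ▸ b1)

end Bd

theorem Bd.const [Finite D] {G : SimpleGraph V} {Z : Set V} {L : LM (rst G Z) D}
    {X : D → Prop} {n : ℕ} {c : ZMod n → V} (h : Bd L X c) (hZ : Cn G Z) {π : D → Prop}
    (hπ : ∀ d, π (L.φ d) ↔ π d) (hi : ∀ d, X d → X (L.α d) → (π d ↔ π (L.α d))) {e e' : D}
    (he : X e) (he' : X e') : π e ↔ π e' := by
  have : NeZero n := ⟨by have := h.cyc.three; omega⟩
  have exb : ∀ ρ : D → Prop, (∀ d, ρ (L.φ d) ↔ ρ d) → (∀ d, X d → X (L.α d) → (ρ d ↔ ρ (L.α d))) →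
      ∀ e, X e → ρ e → ∃ i x, L.vx x = c i ∧ X x ∧ ρ x := by
    intro ρ h1 h2 e he hp
    by_contra hc
    obtain ⟨o, -, ho⟩ := h.out 0
    refine ho (con L hZ (p := fun d => ρ d ∧ X d) (fun d => and_congr (h1 d) (h.phi d))
      (fun d hd => ?_) (d := e) (e := o) ⟨hp, he⟩).2
    by_cases t : X (L.α d)
    · exact ⟨(h2 d hd.2 t).1 hd.1, t⟩
    · obtain ⟨i, a, -⟩ := (h.bd d).1 ⟨hd.2, t⟩
      exact absurd ⟨i, d, a, hd.2, hd.1⟩ hc
  have all : ∀ ρ : D → Prop, (∀ d, ρ (L.φ d) ↔ ρ d) → (∀ d, X d → X (L.α d) → (ρ d ↔ ρ (L.α d))) →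
      ∀ e e', X e → X e' → ρ e → ρ e' := by
    intro ρ h1 h2 e e' he he' hp
    by_contra hq
    obtain ⟨i, x, x1, x2, x3⟩ := exb ρ h1 h2 e he hp
    obtain ⟨k, y, y1, y2, y3⟩ := exb (fun d => ¬ρ d) (fun d => not_congr (h1 d))
      (fun d a b => not_congr (h2 d a b)) e' he' hq
    have key : ∀ t : ℕ, ∀ z, L.vx z = c (i + t) → X z → ρ z := by
      intro t
      induction t with
      | zero =>
        intro z z1 z2
        exact h.loc h1 (x1.trans (by simpa using z1.symm)) (fun d _ => h2 d) x2 z2 x3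
      | succ t ih =>
        intro z z1 z2
        obtain ⟨d, a, b, f, -⟩ := h.ex (i + t)
        refine h.loc h1 (e := L.φ d) ?_ (fun d _ => h2 d) ((h.phi d).2 f) z2
          ((h1 d).2 (ih d a f))
        rw [vx_φ, b, z1]; push_cast; rw [add_assoc]
    exact y3 (key (k - i).val y (by rw [ZMod.natCast_zmod_val, y1]; congr 1; ring) y2)
  exact ⟨all π hπ hi e e' he he', all π hπ hi e' e he' he⟩

/-- one step along a dart with property `p` -/
def St (L : LM H D) (p : D → Prop) (u v : V) : Prop :=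
  ∃ d, p d ∧ L.vx d = u ∧ L.vx (L.α d) = v

open Classical in
structure Ch [Fintype D] (L : LM H D) (Y : D → ZMod 2) (x z : V) : Prop where
  sym : ∀ d, Y (L.α d) = Y d
  sum : ∀ v, (∑ d, if L.vx d = v then Y d else 0) =
    (if x = v then 1 else 0) + if z = v then 1 else 0

theorem two (a : ZMod 2) : a + a = 0 := by revert a; decide

theorem Ch.refl [Fintype D] (L : LM H D) (x : V) : Ch L (fun _ => 0) x x :=
  ⟨fun _ => rfl, fun v => by rw [two]; simp⟩

theorem Ch.symm [Fintype D] {L : LM H D} {Y : D → ZMod 2} {x z : V} (h : Ch L Y x z) :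
    Ch L Y z x := ⟨h.sym, fun v => by rw [h.sum, add_comm]⟩

theorem Ch.trans [Fintype D] {L : LM H D} {Y Y' : D → ZMod 2} {x y z : V} (h : Ch L Y x y)
    (h' : Ch L Y' y z) : Ch L (fun d => Y d + Y' d) x z := by
  classical
  refine ⟨fun d => by rw [h.sym, h'.sym], fun v => ?_⟩
  have : ∀ d, (if L.vx d = v then Y d + Y' d else 0) =
      (if L.vx d = v then Y d else 0) + if L.vx d = v then Y' d else 0 := by
    intro d; split_ifs <;> simp
  rw [Finset.sum_congr rfl fun d _ => this d, Finset.sum_add_distrib]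
  have a := h.sum v
  have b := h'.sum v
  convert congrArg₂ (· + ·) a b using 1
  rw [add_assoc, ← add_assoc _ _ (if z = v then _ else _), two, zero_add]

open Classical in
theorem Ch.edge [Fintype D] (L : LM H D) (e : D) :
    Ch L (fun d => (if d = e then 1 else 0) + if d = L.α e then 1 else 0) (L.vx e)
      (L.vx (L.α e)) := by
  refine ⟨fun d => ?_, fun v => ?_⟩
  · have a : L.α d = e ↔ d = L.α e := ⟨fun h => by rw [← h, L.αα], fun h => by rw [h, L.αα]⟩
    simp only [a, L.α.injective.eq_iff]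
    rw [add_comm]
  · have : ∀ d, (if L.vx d = v then ((if d = e then 1 else 0) + if d = L.α e then 1 else 0 :
        ZMod 2) else 0) = (if d = e then (if L.vx e = v then 1 else 0) else 0) +
          if d = L.α e then (if L.vx (L.α e) = v then 1 else 0) else 0 := by
      intro d
      by_cases q : L.vx d = v
      · rw [if_pos q]
        congr 1 <;> split_ifs <;> simp_all
      · rw [if_neg q]
        have a : (if d = e then (if L.vx e = v then 1 else 0) else 0 : ZMod 2) = 0 := by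
          split_ifs <;> simp_all
        have b : (if d = L.α e then (if L.vx (L.α e) = v then 1 else 0) else 0 : ZMod 2) = 0 := by
          split_ifs <;> simp_all
        rw [a, b, add_zero]
    rw [Finset.sum_congr rfl fun d _ => this d, Finset.sum_add_distrib]
    simp

theorem Ch.cob (k4 : K4) [Fintype D] {L : LM H D} (hg : L.toHMap.eg = 0) {Y : D → ZMod 2}
    {x : V} (h : Ch L Y x x) :
    ∃ π : D → Prop, (∀ d, π (L.φ d) ↔ π d) ∧ ∀ d, Y d = 0 ↔ (π d ↔ π (L.α d)) := by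
  classical
  obtain ⟨π, h1, h2⟩ := k4.cob L.toHMap (fun d => Y d ≠ 0) hg
    (fun q hq => ⟨fun t => hq ((h.sym q).symm.trans t), fun t => (L.adj q).ne (by rw [t])⟩) (fun d => by
      rw [← ZMod.natCast_eq_zero_iff_even, Nat.card_eq_fintype_card, Fintype.card_subtype,
        Finset.card_filter]
      have s := h.sum (L.vx d)
      rw [two] at s
      refine Eq.trans ?_ s
      push_cast
      refine Finset.sum_congr rfl fun e _ => ?_
      have a : L.toHMap.σ.SameCycle d e ↔ L.vx e = L.vx d :=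
        ⟨fun t => (vx_sc L t).symm, fun t => L.vx_cyc _ _ t.symm⟩
      have b : ∀ y : ZMod 2, y ≠ 0 → y = 1 := by decide
      by_cases q : L.vx e = L.vx d <;> by_cases r : Y e = 0
      · simp [q, r]
      · simp [a, q, b _ r]
      · simp [a, q]
      · simp [a, q])
  exact ⟨π, h1, fun d => by have := h2 d; tauto⟩

theorem Ch.walk [Fintype D] (L : LM H D) {p : D → Prop} {x z : V}
    (h : ReflTransGen (St L p) x z) :
    ∃ Y, Ch L Y x z ∧ ∀ d, ¬p d → ¬p (L.α d) → Y d = 0 := by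
  classical
  induction h with
  | refl => exact ⟨_, Ch.refl L x, fun _ _ _ => rfl⟩
  | tail _ s ih =>
    obtain ⟨Y, a, b⟩ := ih
    obtain ⟨e, e1, rfl, rfl⟩ := s
    refine ⟨_, a.trans (Ch.edge L e), fun d d1 d2 => ?_⟩
    rw [b d d1 d2, if_neg fun t : d = e => d1 (t ▸ e1),
      if_neg fun t : d = L.α e => d2 (by rw [t, L.αα]; exact e1)]
    simp

theorem Ch.arc [Fintype D] {L : LM H D} {X : D → Prop} {n : ℕ} {c : ZMod n → V} (h : Bd L X c)
    (i : ZMod n) (t : ℕ) (ht : t ≤ n) :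
    ∃ Y, Ch L Y (c i) (c (i + t)) ∧ (∀ d, (X d ↔ X (L.α d)) → Y d = 0) ∧
      ∀ d j, L.vx d = c j → L.vx (L.α d) = c (j + 1) → (Y d = 0 ↔ ¬(j - i).val < t) := by
  classical
  have : NeZero n := ⟨by have := h.cyc.three; omega⟩
  induction t with
  | zero => exact ⟨_, by simpa using Ch.refl L (c i), fun _ _ => rfl, fun _ _ _ _ => by simp⟩
  | succ t ih =>
    obtain ⟨Y, a, b, f⟩ := ih (by omega)
    obtain ⟨e, e1, e2, e3, e4⟩ := h.ex (i + t)
    have g := Ch.edge L e
    rw [e1, e2] at g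
    refine ⟨_, by push_cast; rw [← add_assoc]; exact a.trans g, fun d hd => ?_, fun d j d1 d2 => ?_⟩
    · rw [b d hd, if_neg fun t => e4 (by subst t; exact hd.1 e3),
        if_neg fun t => e4 (by subst t; rw [L.αα] at hd; exact hd.2 e3)]
      simp
    · have x := (h.bd d).2 ⟨j, d1, d2⟩
      rw [if_neg fun t : d = L.α e => e4 (t ▸ x.1), add_zero]
      have y : d = e ↔ (j - i).val = t := by
        constructor
        · rintro rfl
          have : j = i + t := h.cyc.inj (d1.symm.trans e1)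
          rw [this, add_sub_cancel_left, ZMod.val_cast_of_lt (by omega)]
        · intro q
          have : j = i + t := by rw [← q, ZMod.natCast_zmod_val]; ring
          subst this
          exact dart_eq L (d1.trans e1.symm) (d2.trans e2.symm)
      have z := f d j d1 d2
      by_cases q : d = e
      · rw [if_pos q, z.2 (by rw [y.1 q]; omega), y.1 q]
        simp
      · rw [if_neg q, add_zero, z]
        have := mt y.2 q
        omega

/-- a walk between two points of the cycle, closed by an arc, bounds a set of faces -/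
theorem jordan (k4 : K4) [Finite D] {L : LM H D} (hg : L.toHMap.eg = 0) {X : D → Prop} {n : ℕ}
    {c : ZMod n → V} (h : Bd L X c) {p : D → Prop} {i k : ZMod n}
    (W : ReflTransGen (St L p) (c i) (c k)) :
    ∃ π : D → Prop, (∀ d, π (L.φ d) ↔ π d) ∧
      (∀ d, (X d ↔ X (L.α d)) → ¬p d → ¬p (L.α d) → (π d ↔ π (L.α d))) ∧
      ∀ d j, L.vx d = c j → L.vx (L.α d) = c (j + 1) → ¬p d → ¬p (L.α d) →
        ((π d ↔ π (L.α d)) ↔ ¬(j - i).val < (k - i).val) := by
  have : NeZero n := ⟨by have := h.cyc.three; omega⟩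
  have := Fintype.ofFinite D
  obtain ⟨Y, a, b⟩ := Ch.walk L W
  obtain ⟨Y', a', b', c'⟩ := Ch.arc h i (k - i).val (ZMod.val_lt _).le
  rw [ZMod.natCast_zmod_val, add_sub_cancel] at a'
  obtain ⟨π, h1, h2⟩ := (a.trans a'.symm).cob k4 hg
  refine ⟨π, h1, fun d x y z => (h2 d).1 (by rw [b d y z, b' d x, add_zero]),
    fun d j x y z w => ?_⟩
  rw [← h2, b d z w, zero_add, c' d j x y]

end Mono

end Pool.Agent.Lib.MP_c1f5fe_lc
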