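import Pool.Agent.Lib.MP_c1f5fe_lc.SpecA

/-! Chord diagrams in which chords cross exactly when their colours differ. -/

namespace Pool.Agent.Lib.MP_c1f5fe_lc

namespace NDH

open List

theorem altN (a a' b b' : ℕ) : altO a a' b b' ↔
    ¬((min a a' < b ∧ b < max a a') ↔ (min a a' < b' ∧ b' < max a a')) := Iff.rfl

theorem pw_idx {X : Type} [DecidableEq X] {l : List X} (nd : l.Nodup) :
    l.Pairwise fun a b => l.idxOf a < l.idxOf b := by
  rw [pairwise_iff_getElem]
  intro i j hi hj h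
  rwa [nd.idxOf_getElem, nd.idxOf_getElem]

theorem pw_ne {X : Type} {l : List X} {p : X → ℕ} (h : l.Pairwise fun a b => p a < p b)
    {x y : X} (hx : x ∈ l) (hy : y ∈ l) (n : x ≠ y) : p x ≠ p y := by
  obtain ⟨i, hi, rfl⟩ := getElem_of_mem hx
  obtain ⟨j, hj, rfl⟩ := getElem_of_mem hy
  rcases lt_trichotomy i j with k | k | k
  · exact (pairwise_iff_getElem.1 h i j hi hj k).ne
  · subst k; exact absurd rfl n
  · exact (pairwise_iff_getElem.1 h j i hj hi k).ne'

theorem core {X : Type} (l : List X) (p : X → ℕ) (κ : X → X) (c : X → Bool)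
    (pw : l.Pairwise fun a b => p a < p b)
    (hκ : ∀ x ∈ l, κ x ∈ l ∧ κ x ≠ x ∧ κ (κ x) = x ∧ c (κ x) = c x)
    (alt : ∀ x ∈ l, ∀ y ∈ l, y ≠ x → y ≠ κ x →
      (altO (p x) (p (κ x)) (p y) (p (κ y)) ↔ c x ≠ c y))
    (x₀ y₀ : X) (hx : x₀ ∈ l) (hy : y₀ ∈ l) (cx : c x₀ = false) (cy : c y₀ = true)
    (mn : ∀ z ∈ l, p x₀ ≤ p z) (mx : ∀ z ∈ l, p z ≤ p y₀) :
    ∃ A B : List X, (∀ x ∈ A, c x = false) ∧ (∀ x ∈ B, c x = true) ∧
      l = A ++ B ++ A.reverse.map κ ++ B.reverse.map κ := by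
  have k1 : ∀ x ∈ l, κ x ∈ l := fun x h => (hκ x h).1
  have k2 : ∀ x ∈ l, p (κ x) ≠ p x := fun x h => pw_ne pw (k1 x h) h (hκ x h).2.1
  have k3 : ∀ x ∈ l, κ (κ x) = x := fun x h => (hκ x h).2.2.1
  have k4 : ∀ x ∈ l, c (κ x) = c x := fun x h => (hκ x h).2.2.2
  have cr : ∀ x ∈ l, ∀ y ∈ l, c x ≠ c y → altO (p x) (p (κ x)) (p y) (p (κ y)) ∧
      p x ≠ p y ∧ p x ≠ p (κ y) ∧ p (κ x) ≠ p y ∧ p (κ x) ≠ p (κ y) := by
    intro x hx y hy n
    refine ⟨(alt x hx y hy (fun e => n (e ▸ rfl)) (fun e => n (by rw [e, k4 x hx]))).2 n,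
      pw_ne pw hx hy fun e => n (e ▸ rfl), pw_ne pw hx (k1 y hy) fun e => n (by rw [e, k4 y hy]),
      pw_ne pw (k1 x hx) hy fun e => n (by rw [← e, k4 x hx]),
      pw_ne pw (k1 x hx) (k1 y hy) fun e => n (by rw [← k4 x hx, e, k4 y hy])⟩
  have nc : ∀ x ∈ l, ∀ y ∈ l, c x = c y → (p y = p x ∧ p (κ y) = p (κ x)) ∨
      (p y = p (κ x) ∧ p (κ y) = p x) ∨ (¬altO (p x) (p (κ x)) (p y) (p (κ y)) ∧
      p x ≠ p y ∧ p x ≠ p (κ y) ∧ p (κ x) ≠ p y ∧ p (κ x) ≠ p (κ y)) := by
    intro x hx y hy e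
    by_cases h1 : y = x
    · exact .inl ⟨by rw [h1], by rw [h1]⟩
    by_cases h2 : y = κ x
    · exact .inr (.inl ⟨by rw [h2], by rw [h2, k3 x hx]⟩)
    refine .inr (.inr ⟨fun a => (alt x hx y hy h1 h2).1 a e, pw_ne pw hx hy (Ne.symm h1),
      pw_ne pw hx (k1 y hy) fun q => h2 (by rw [q, k3 y hy]),
      pw_ne pw (k1 x hx) hy (Ne.symm h2),
      pw_ne pw (k1 x hx) (k1 y hy) fun q => h1 (by rw [← k3 y hy, ← q, k3 x hx])⟩)
  have c0 := cr x₀ hx y₀ hy (by simp [cx, cy])
  have b1 := mn _ (k1 x₀ hx)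
  have b2 := mn _ (k1 y₀ hy)
  have b3 := mx _ (k1 x₀ hx)
  have b4 := mx _ (k1 y₀ hy)
  have b5 := k2 x₀ hx
  have b6 := k2 y₀ hy
  have F1 : ∀ x ∈ l, c x = false →
      (p x < p (κ y₀) ∧ p (κ y₀) < p (κ x) ∧ p (κ x) ≤ p (κ x₀)) ∨
        (p (κ x) < p (κ y₀) ∧ p (κ y₀) < p x ∧ p x ≤ p (κ x₀)) := by
    intro x h e
    have a1 := cr x h y₀ hy (by simp [e, cy])
    have a2 := nc x₀ hx x h (by rw [e, cx])
    have a3 := mn x h
    have a4 := mn _ (k1 x h)
    have a5 := mx x h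
    have a6 := mx _ (k1 x h)
    have a7 := k2 x h
    simp only [altN] at a1 a2 c0
    omega
  have T1 : ∀ y ∈ l, c y = true →
      (p (κ y₀) ≤ p y ∧ p y < p (κ x₀) ∧ p (κ x₀) < p (κ y)) ∨
        (p (κ y₀) ≤ p (κ y) ∧ p (κ y) < p (κ x₀) ∧ p (κ x₀) < p y) := by
    intro x h e
    have a1 := cr x₀ hx x h (by simp [e, cx])
    have a2 := nc y₀ hy x h (by rw [e, cy])
    have a3 := mn x h
    have a4 := mn _ (k1 x h)
    have a5 := mx x h
    have a6 := mx _ (k1 x h)
    have a7 := k2 x h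
    simp only [altN] at a1 a2 c0
    omega
  let A := l.filter fun x => p x < p (κ y₀)
  let B := l.filter fun x => c x = true ∧ p x < p (κ x₀)
  have mA : ∀ x, x ∈ A ↔ x ∈ l ∧ p x < p (κ y₀) := fun x => by simp [A]
  have mB : ∀ x, x ∈ B ↔ x ∈ l ∧ c x = true ∧ p x < p (κ x₀) := fun x => by simp [B]
  have cA : ∀ x ∈ A, c x = false := by
    intro x h
    obtain ⟨h1, h2⟩ := (mA x).1 h
    by_contra n
    have := T1 x h1 (by simpa using n)
    simp only [altN] at c0
    omega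
  have A1 : ∀ x ∈ A, p x < p (κ y₀) ∧ p (κ y₀) < p (κ x) ∧ p (κ x) ≤ p (κ x₀) := by
    intro x h
    have := F1 x ((mA x).1 h).1 (cA x h)
    have := ((mA x).1 h).2
    omega
  have B1 : ∀ x ∈ B, p (κ y₀) ≤ p x ∧ p x < p (κ x₀) ∧ p (κ x₀) < p (κ x) := by
    intro x h
    have := T1 x ((mB x).1 h).1 ((mB x).1 h).2.1
    have := ((mB x).1 h).2.2
    omega
  refine ⟨A, B, cA, fun x h => ((mB x).1 h).2.1, ?_⟩
  have : Std.Antisymm fun a b : X => p a < p b := ⟨fun a b h h' => absurd h (not_lt.2 h'.le)⟩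
  have : Std.Irrefl fun a b : X => p a < p b := ⟨fun a h => lt_irrefl _ h⟩
  refine pw.eq_of_mem_iff ?_ fun x => ⟨fun h => ?_, fun h => ?_⟩
  · have pA : A.Pairwise fun a b => p a < p b := pw.sublist filter_sublist
    have pB : B.Pairwise fun a b => p a < p b := pw.sublist filter_sublist
    simp only [pairwise_append, pairwise_map, pairwise_reverse, mem_append, mem_map, mem_reverse]
    refine ⟨⟨⟨pA, pB, fun a ha b hb => ?_⟩, pA.imp_of_mem fun {a b} ha hb h => ?_, ?_⟩,
      pB.imp_of_mem fun {a b} ha hb h => ?_, ?_⟩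
    · have := A1 a ha
      have := B1 b hb
      omega
    · have := A1 a ha
      have := A1 b hb
      have := nc a ((mA a).1 ha).1 b ((mA b).1 hb).1 (by rw [cA a ha, cA b hb])
      simp only [altN] at this
      omega
    · rintro a (ha | ha) _ ⟨b, hb, rfl⟩
      · have := A1 a ha
        have := A1 b hb
        omega
      · have := B1 a ha
        have := A1 b hb
        have := cr b ((mA b).1 hb).1 a ((mB a).1 ha).1 (by simp [cA b hb, ((mB a).1 ha).2.1])
        simp only [altN] at this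
        omega
    · have := B1 a ha
      have := B1 b hb
      have := nc a ((mB a).1 ha).1 b ((mB b).1 hb).1
        (by rw [((mB a).1 ha).2.1, ((mB b).1 hb).2.1])
      simp only [altN] at this
      omega
    · rintro a ((ha | ha) | ⟨a, ha, rfl⟩) _ ⟨b, hb, rfl⟩
      · have := A1 a ha
        have := B1 b hb
        omega
      · have := B1 a ha
        have := B1 b hb
        omega
      · have := A1 a ha
        have := B1 b hb
        omega
  · simp only [mem_append, mem_map, mem_reverse]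
    cases e : c x
    · rcases F1 x h e with q | q
      · exact .inl (.inl (.inl ((mA x).2 ⟨h, q.1⟩)))
      · exact .inl (.inr ⟨κ x, (mA _).2 ⟨k1 x h, q.1⟩, k3 x h⟩)
    · rcases T1 x h e with q | q
      · exact .inl (.inl (.inr ((mB x).2 ⟨h, e, q.2.1⟩)))
      · exact .inr ⟨κ x, (mB _).2 ⟨k1 x h, by rw [k4 x h, e], q.2.1⟩, k3 x h⟩
  · simp only [mem_append, mem_map, mem_reverse] at h
    rcases h with ((h | h) | ⟨a, h, rfl⟩) | ⟨a, h, rfl⟩
    · exact ((mA x).1 h).1
    · exact ((mB x).1 h).1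
    · exact k1 a ((mA a).1 h).1
    · exact k1 a ((mB a).1 h).1

theorem step (n : ℕ) (c : ℕ → Bool) (i j : ℕ) (hij : i ≤ j) (hj : j < n) (ci : c i = true)
    (cj : c j = false) : ∃ r, r + 1 < n ∧ c r = true ∧ c (r + 1) = false := by
  induction j, hij using Nat.le_induction with
  | base => simp [ci] at cj
  | succ j hij ih =>
    cases e : c j
    · exact ih (by omega) e
    · exact ⟨j, hj, e, cj⟩

end NDH

open NDH List in
theorem cd : CDSt := by
  intro X _ l κ c nd hκ both alt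
  obtain ⟨x₁, hx₁, cx₁⟩ := both false
  obtain ⟨y₁, hy₁, cy₁⟩ := both true
  have ix : ∀ x ∈ l, l.idxOf x < l.length := fun x h => idxOf_lt_length_of_mem h
  have ex : ∃ x₀ ∈ l, ∃ y₀ ∈ l, c x₀ = false ∧ c y₀ = true ∧
      (l.idxOf y₀ + 1 = l.idxOf x₀ ∨ (l.idxOf x₀ = 0 ∧ l.idxOf y₀ + 1 = l.length)) := by
    have n0 := ix x₁ hx₁
    let c' : ℕ → Bool := fun i => c (l.getD i x₁)
    have hc : ∀ x ∈ l, c' (l.idxOf x) = c x := fun x h => by
      simp only [c', getD_eq_getElem _ _ (ix x h), getElem_idxOf]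
    by_cases h : ∃ r, r + 1 < l.length ∧ c' r = true ∧ c' (r + 1) = false
    · obtain ⟨r, h1, h2, h3⟩ := h
      refine ⟨l[r + 1], getElem_mem _, l[r], getElem_mem _, ?_, ?_, .inl ?_⟩
      · simpa only [c', getD_eq_getElem _ _ h1] using h3
      · simpa only [c', getD_eq_getElem _ _ (show r < l.length by omega)] using h2
      · rw [nd.idxOf_getElem, nd.idxOf_getElem]
    · refine ⟨l[0], getElem_mem _, l[l.length - 1], getElem_mem _, ?_, ?_, .inr ⟨?_, ?_⟩⟩
      · by_contra n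
        refine h (step l.length c' 0 (l.idxOf x₁) (Nat.zero_le _) n0 ?_ ((hc x₁ hx₁).trans cx₁))
        simpa only [c', getD_eq_getElem _ _ (show 0 < l.length by omega), Bool.not_eq_false]
          using n
      · by_contra n
        refine h (step l.length c' (l.idxOf y₁) (l.length - 1) (by have := ix y₁ hy₁; omega)
          (by omega) ((hc y₁ hy₁).trans cy₁) ?_)
        simpa only [c', getD_eq_getElem _ _ (show l.length - 1 < l.length by omega),
          Bool.not_eq_true] using n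
      · rw [nd.idxOf_getElem]
      · rw [nd.idxOf_getElem]; omega
  obtain ⟨x₀, hx, y₀, hy, cx, cy, hr⟩ := ex
  let r := l.idxOf x₀
  let p : X → ℕ := fun x => if l.idxOf x < r then l.idxOf x + l.length else l.idxOf x
  have hp : ∀ x, (l.idxOf x < r ∧ p x = l.idxOf x + l.length) ∨
      (r ≤ l.idxOf x ∧ p x = l.idxOf x) := fun x => by
    simp only [p]
    split_ifs with h
    · exact .inl ⟨h, rfl⟩
    · exact .inr ⟨not_lt.1 h, rfl⟩
  have rl : r < l.length := ix x₀ hx
  have mem : ∀ x, x ∈ l.drop r ++ l.take r ↔ x ∈ l := fun x => by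
    rw [mem_append, or_comm, ← mem_append, take_append_drop]
  have mt : ∀ x ∈ l.take r, l.idxOf x < r := fun x h => by
    obtain ⟨i, hi, rfl⟩ := getElem_of_mem h
    rw [getElem_take, nd.idxOf_getElem]
    rw [length_take] at hi
    omega
  have md : ∀ x ∈ l.drop r, r ≤ l.idxOf x := fun x h => by
    obtain ⟨i, hi, rfl⟩ := getElem_of_mem h
    rw [getElem_drop, nd.idxOf_getElem]
    omega
  refine (core (l.drop r ++ l.take r) p κ c ?_
    (fun x h => by rw [mem] at h ⊢; exact hκ x h) ?_ x₀ y₀ ((mem _).2 hx) ((mem _).2 hy) cx cy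
    ?_ ?_).elim fun A ⟨B, hA, hB, e⟩ =>
      ⟨A, B, hA, hB, r, by rw [← e, rotate_eq_drop_append_take rl.le]⟩
  · rw [pairwise_append]
    refine ⟨((pw_idx nd).sublist (drop_sublist r l)).imp_of_mem fun {a b} ha hb h => ?_,
      ((pw_idx nd).sublist (take_sublist r l)).imp_of_mem fun {a b} ha hb h => ?_,
      fun a ha b hb => ?_⟩
    · have := md a ha
      have := md b hb
      have := hp a
      have := hp b
      omega
    · have := mt a ha
      have := mt b hb
      have := hp a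
      have := hp b
      omega
    · have := md a ha
      have := mt b hb
      have := hp a
      have := hp b
      have := ix a (mem_of_mem_drop ha)
      omega
  · intro x h y h' n n'
    rw [mem] at h h'
    rw [← alt x h y h' n n']
    obtain ⟨k1, k2, k3, -⟩ := hκ x h
    obtain ⟨k4, k5, k6, -⟩ := hκ y h'
    have := hp x
    have := hp y
    have := hp (κ x)
    have := hp (κ y)
    have := ix x h
    have := ix y h'
    have := ix _ k1
    have := ix _ k4
    have := pw_ne (pw_idx nd) h' h n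
    have := pw_ne (pw_idx nd) h' k1 n'
    have := pw_ne (pw_idx nd) k4 h fun q => n' (by rw [← q, k6])
    have := pw_ne (pw_idx nd) k4 k1 fun q => n (by rw [← k6, q, k3])
    simp only [altN]
    omega
  · intro z h
    rw [mem] at h
    have := hp x₀
    have := hp z
    omega
  · intro z h
    rw [mem] at h
    have := hp y₀
    have := hp z
    have := ix z h
    omega

end Pool.Agent.Lib.MP_c1f5fe_lc
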