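import Pool.Agent.Lib.MP_c1f5fe_lc.NDH1
import Pool.Agent.Lib.MP_50b5c6_lc.NpQ
import Pool.Agent.Lib.MP_50b5c6_lc.NpPix

/-! From a drawn incidence structure to an order in which neither kind of class crosses. -/

namespace Pool.Agent.Lib.MP_c1f5fe_lc

namespace NDH

open Equiv Function Set
open Pool.Agent.Lib.MP_50b5c6_lc.Np (NC Pl)

theorem pull {D Z : Type} (j : D → Z) (inj : Injective j) (L : List Z) (nd : L.Nodup)
    (h : ∀ d, j d ∈ L) : ∃ M : List D, M.Nodup ∧ (∀ d, d ∈ M) ∧ (M.map j).Sublist L := by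
  classical
  have : (L.filter fun z => z ∈ range j) ∈ range (List.map j) := by
    rw [Set.range_list_map]
    intro x hx
    simpa using (List.mem_filter.1 hx).2
  obtain ⟨M, e⟩ := this
  refine ⟨M, List.Nodup.of_map j (e ▸ nd.filter _), fun d => ?_, e ▸ List.filter_sublist⟩
  have : j d ∈ M.map j := e ▸ List.mem_filter.2 ⟨h d, by simp⟩
  obtain ⟨x, hx, q⟩ := List.mem_map.1 this
  exact inj q ▸ hx

theorem nc_pull {D Z B : Type} {j : D → Z} {f : Z → B} {L : List Z} {M : List D}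
    (s : (M.map j).Sublist L) (h : NC f L) : NC (fun d => f (j d)) M :=
  fun a b c d k => h (j a) (j b) (j c) (j d) ((k.map j).trans s)

theorem form_sc {D : Type} [DecidableEq D] (L : List D) (nd : L.Nodup) (x y : D) (hx : x ∈ L)
    (hy : y ∈ L) : L.formPerm.SameCycle x y := by
  obtain ⟨i, hi, rfl⟩ := List.getElem_of_mem hx
  obtain ⟨j, hj, rfl⟩ := List.getElem_of_mem hy
  refine ⟨((j + L.length - i : ℕ) : ℤ), ?_⟩
  rw [zpow_natCast, List.formPerm_pow_apply_getElem L nd _ i hi]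
  congr 1
  rw [show i + (j + L.length - i) = j + L.length by omega, Nat.add_mod_right, Nat.mod_eq_of_lt hj]

theorem sc_tr {D D' : Type} [Finite D] (a : Perm D) (a' : Perm D') (j : D' → D) (P : D' → Prop)
    (inj : Injective j) (h : ∀ x, P x → P (a' x) ∧ j (a' x) = a (j x)) (x y : D') (hx : P x)
    (s : a.SameCycle (j x) (j y)) : a'.SameCycle x y := by
  obtain ⟨n, -, e⟩ := s.exists_pow_eq'
  have : ∀ m : ℕ, P ((a' ^ m) x) ∧ j ((a' ^ m) x) = (a ^ m) (j x) := by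
    intro m
    induction m with
    | zero => exact ⟨hx, rfl⟩
    | succ m ih =>
      rw [pow_succ', pow_succ', Perm.mul_apply, Perm.mul_apply, ← ih.2]
      exact h _ ih.1
  exact ⟨(n : ℤ), inj (by rw [zpow_natCast, (this n).2, e])⟩

theorem nxt_q {D : Type} {π : Perm D} {Q : D → Prop} {x y : D} (h : Nxt π Q x y) : Q y := by
  obtain ⟨_, _, _, h, _⟩ := h
  exact h

theorem cyc (k1 : K1) {D B : Type} [Finite D] (π a : Perm D) (F : D → B)
    (hπ : ∀ x y, π.SameCycle x y) (h : ∀ d, Nxt π (fun e => F e = F d) d (a d)) (x y : D) :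
    a.SameCycle x y ↔ F x = F y := by
  constructor
  · intro s
    obtain ⟨n, -, rfl⟩ := s.exists_pow_eq'
    induction n with
    | zero => rfl
    | succ n ih =>
      rw [pow_succ', Perm.mul_apply, nxt_q (h _), ← ih (Perm.sameCycle_pow_right.2 (.refl _ _))]
  · intro e
    refine sc_tr (ret π fun z => F z = F x) a id (fun z => F z = F x) injective_id
      (fun z hz => ⟨(nxt_q (h z)).trans hz, ?_⟩) x y rfl
      ((k1.sc_ret π (fun z => F z = F x) x y rfl e.symm).2 (hπ x y))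
    have := h z
    rw [hz] at this
    exact this.unique (ret_nxt π hz)

theorem half {D : Type} [Finite D] (a : Perm (D × Bool)) (h : ∀ x, (a x).2 = x.2) (t : Bool) :
    ∃ a₁ : Perm D, ∀ d, a (d, t) = (a₁ d, t) := by
  have inj : Injective fun d => (a (d, t)).1 := fun d e q =>
    congrArg Prod.fst (a.injective (Prod.ext q ((h (d, t)).trans (h (e, t)).symm)))
  exact ⟨Equiv.ofBijective _ (Finite.injective_iff_bijective.1 inj),
    fun d => Prod.ext rfl (h _)⟩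

theorem bip (k1 : K1) (ord : OrdSt) (unord : UnordSt) {D A B : Type} [Finite D] (f : D → A)
    (g : D → B) (inj : ∀ d e, f d = f e → g d = g e → d = e) (R : A ⊕ B → A ⊕ B → Prop)
    (hR : ∀ d, R (.inl (f d)) (.inr (g d))) (pl : Pl R) :
    ∃ L : List D, L.Nodup ∧ (∀ d, d ∈ L) ∧ NC f L ∧ NC g L := by
  classical
  obtain ⟨L₀, nd, hL, n1, n2⟩ := pl
  let j : D × Bool → (A ⊕ B) × (A ⊕ B) := fun x =>
    if x.2 then (.inr (g x.1), .inl (f x.1)) else (.inl (f x.1), .inr (g x.1))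
  have ji : Injective j := by
    rintro ⟨d, _ | _⟩ ⟨e, _ | _⟩ h <;> simp [j] at h
    · rw [inj d e h.1 h.2]
    · rw [inj d e h.2 h.1]
  obtain ⟨M, ndM, all, s⟩ := pull j ji L₀ nd (by
    rintro ⟨d, _ | _⟩
    · exact (hL _ _ (hR d)).1
    · exact (hL _ _ (hR d)).2)
  have m2 : NC Prod.fst M := (nc_pull s n2).congr (by
    rintro ⟨d, _ | _⟩ - ⟨e, _ | _⟩ - <;> simp [j] <;>
      exact ⟨fun h => inj _ _ (by tauto) (by tauto), fun h => by simp [h]⟩)
  obtain ⟨⟨a, ha⟩, ⟨b, hb⟩, eg0⟩ := unord _ _ _ M _ _ ndM all (nc_pull s n1) m2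
  have sc := fun x y => @form_sc _ (fun a b => Classical.propDecidable (a = b)) M ndM x y
    (all x) (all y)
  have ca := cyc k1 _ a _ sc ha
  have cb := cyc k1 _ b⁻¹ Prod.fst sc fun d => by
    have h := hb (b⁻¹ d)
    rw [show b (b⁻¹ d) = d by simp] at h
    rw [h.2]
    exact h.1
  have hb' : ∀ d t, b (d, t) = (d, !t) := by
    intro d t
    have e1 : (b (d, t)).1 = d := (hb (d, t)).2
    by_contra n
    have e2 : b (d, t) = (d, t) := by
      refine Prod.ext e1 ?_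
      by_contra n'
      exact n (Prod.ext e1 (by simpa using Bool.eq_not_of_ne n'))
    have := (Perm.sameCycle_inv.1 ((cb (d, t) (d, !t)).2 rfl)).eq_of_left e2
    simp at this
  have a2 : ∀ x, (a x).2 = x.2 := by
    rintro ⟨d, t⟩
    have := nxt_q (ha (d, t))
    rcases h : a (d, t) with ⟨e, u⟩
    rw [h] at this
    cases t <;> cases u <;> simp [j] at this ⊢
  obtain ⟨a₁, h₁⟩ := half a a2 false
  obtain ⟨b₁, h₂⟩ := half a a2 true
  have e0 : eg b₁ a₁ = 0 := by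
    refine le_antisymm ?_ (k1.eg_nonneg _ _)
    rw [← k1.eg_mul, ← eg0 a b ha hb, k1.eg_comm a b, ← k1.eg_mul b a]
    refine (k1.eg_emb (ret (b * a) fun x => x.2 = false) a⁻¹ _ _ (fun d => (d, false))
      (fun _ _ h => congrArg Prod.fst h) (fun d => ?_) fun d => ?_).trans (k1.eg_ret _ _ _)
    · refine (ret_nxt (b * a) (Q := fun x => x.2 = false) rfl).unique
        ⟨2, by norm_num, ?_, rfl, fun m m0 m2 => ?_⟩
      · simp only [pow_two, Perm.mul_apply, h₁, h₂, hb', Bool.not_false, Bool.not_true]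
      · obtain rfl : m = 1 := by omega
        simp [h₁, hb']
    · rw [Perm.inv_eq_iff_eq, h₁]
      simp
  obtain ⟨L, q1, q2, q3, q4, -⟩ := ord D b₁ a₁ e0
  refine ⟨L, q1, q2, q4.congr fun x _ y _ => ?_, q3.congr fun x _ y _ => ?_⟩
  · rw [Quotient.eq]
    refine ⟨fun h => ?_, fun h => sc_tr a a₁ (fun d => (d, false)) (fun _ => True)
      (fun _ _ h => congrArg Prod.fst h) (fun d _ => ⟨trivial, (h₁ d).symm⟩) x y trivial
      ((ca _ _).2 (by simp [j, h]))⟩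
    obtain ⟨n, -, rfl⟩ := Perm.SameCycle.exists_pow_eq' h
    induction n with
    | zero => rfl
    | succ n ih =>
      have := nxt_q (ha ((a₁ ^ n) x, false))
      rw [h₁] at this
      rw [pow_succ', Perm.mul_apply, ih (q2 _) (Perm.sameCycle_pow_right.2 (.refl _ _))]
      simpa [j] using this.symm
  · rw [Quotient.eq]
    refine ⟨fun h => ?_, fun h => sc_tr a b₁ (fun d => (d, true)) (fun _ => True)
      (fun _ _ h => congrArg Prod.fst h) (fun d _ => ⟨trivial, (h₂ d).symm⟩) x y trivial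
      ((ca _ _).2 (by simp [j, h]))⟩
    obtain ⟨n, -, rfl⟩ := Perm.SameCycle.exists_pow_eq' h
    induction n with
    | zero => rfl
    | succ n ih =>
      have := nxt_q (ha ((b₁ ^ n) x, true))
      rw [h₂] at this
      rw [pow_succ', Perm.mul_apply, ih (q2 _) (Perm.sameCycle_pow_right.2 (.refl _ _))]
      simpa [j] using this.symm

theorem hyp (k1 : K1) (ord : OrdSt) (unord : UnordSt) {D A B : Type} [Finite D] [Finite A]
    [Finite B] (f : D → A) (g : D → B) (c : D → ℝ → ℂ) (Z : D → Set ℂ)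
    (inj : ∀ d e, f d = f e → g d = g e → d = e)
    (cc : ∀ d, ContinuousOn (c d) (Icc 0 1)) (c0 : ∀ d e, f d = f e → c d 0 = c e 0)
    (h1 : ∀ d e s t, 0 ≤ s → s < 1 → 0 ≤ t → t < 1 → c d s = c e t →
      (d = e ∧ s = t) ∨ (s = 0 ∧ t = 0 ∧ f d = f e))
    (hZ : ∀ d, IsCompact (Z d) ∧ IsPreconnected (Z d) ∧ c d 1 ∈ Z d)
    (h2 : ∀ d e t, 0 ≤ t → t < 1 → c d t ∉ Z e)
    (h3 : ∀ d e, (Z d ∩ Z e).Nonempty ↔ g d = g e) :
    ∃ L : List D, L.Nodup ∧ (∀ d, d ∈ L) ∧ NC f L ∧ NC g L := by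
  have ck : ∀ d (u v : ℝ), 0 ≤ u → v ≤ 1 → IsCompact (c d '' Icc u v) ∧
      IsPreconnected (c d '' Icc u v) := fun d u v hu hv =>
    ⟨isCompact_Icc.image_of_continuousOn ((cc d).mono (Icc_subset_Icc hu hv)),
      isPreconnected_Icc.image _ ((cc d).mono (Icc_subset_Icc hu hv))⟩
  let U : D → Set ℂ := fun d => c d '' Icc 0 (1 / 3)
  let T : D → Set ℂ := fun d => c d '' Icc (1 / 3) (2 / 3)
  let W : D → Set ℂ := fun d => c d '' Icc (2 / 3) 1 ∪ Z d
  have hW : ∀ d, IsCompact (W d) ∧ IsPreconnected (W d) := fun d =>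
    ⟨(ck d _ _ (by norm_num) le_rfl).1.union (hZ d).1,
      (ck d _ _ (by norm_num) le_rfl).2.union (c d 1) ⟨1, ⟨by norm_num, le_rfl⟩, rfl⟩ (hZ d).2.2
        (hZ d).2.1⟩
  have mW : ∀ d z, z ∈ W d → (∃ t, 2 / 3 ≤ t ∧ t < 1 ∧ c d t = z) ∨ z ∈ Z d := by
    rintro d z (⟨t, ⟨t1, t2⟩, rfl⟩ | h)
    · rcases t2.lt_or_eq with h | rfl
      · exact .inl ⟨t, t1, h, rfl⟩
      · exact .inr (hZ d).2.2
    · exact .inr h
  have un : ∀ {I : Type} (F : D → I) (Y : D → Set ℂ) (i : I),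
      (∀ d, IsCompact (Y d) ∧ IsPreconnected (Y d)) → (∀ d e, F d = F e → (Y d ∩ Y e).Nonempty) →
      IsCompact (⋃ d : {d // F d = i}, Y d) ∧ IsPreconnected (⋃ d : {d // F d = i}, Y d) := by
    intro I F Y i hY ne
    refine ⟨isCompact_iUnion fun d => (hY d).1, isPreconnected_of_forall_pair ?_⟩
    intro x hx y hy
    obtain ⟨d, hd⟩ := mem_iUnion.1 hx
    obtain ⟨e, he⟩ := mem_iUnion.1 hy
    exact ⟨Y d ∪ Y e, union_subset (subset_iUnion (fun d : {d // F d = i} => Y d) d)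
      (subset_iUnion (fun d : {d // F d = i} => Y d) e), .inl hd, .inr he,
      (hY d).2.union' (ne d e (d.2.trans e.2.symm)) (hY e).2⟩
  let S : A ⊕ B → Set ℂ := Sum.elim (fun a => ⋃ d : {d // f d = a}, U d)
    fun b => ⋃ d : {d // g d = b}, W d
  have UW : ∀ d e z, z ∈ U d → z ∈ W e → False := by
    rintro d e _ ⟨s, ⟨s1, s2⟩, rfl⟩ h
    rcases mW e _ h with ⟨t, t1, t2, h⟩ | h
    · rcases h1 d e s t s1 (by linarith) (by linarith) t2 h.symm with ⟨-, q⟩ | ⟨-, q, -⟩ <;>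
        linarith
    · exact h2 d e s s1 (by linarith) h
  refine bip k1 ord unord f g inj _ (fun d => ⟨Sum.inl_ne_inr, d, rfl, rfl⟩)
    (MP_50b5c6_lc.Np.touch MP_50b5c6_lc.Np.minor MP_50b5c6_lc.Np.grid (A ⊕ B) D
      (fun d => .inl (f d)) (fun d => .inr (g d)) S T ?_
      (fun d => ck d _ _ (by norm_num) (by norm_num)) ?_ ?_ ?_ fun d => ⟨?_, ?_⟩)
  · rintro (a | b)
    · exact un f U a (fun d => ck d _ _ le_rfl (by norm_num)) fun d e h =>
        ⟨c d 0, ⟨0, ⟨le_rfl, by norm_num⟩, rfl⟩, ⟨0, ⟨le_rfl, by norm_num⟩, (c0 d e h).symm⟩⟩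
    · exact un g W b hW fun d e h => ((h3 d e).2 h).mono
        (inter_subset_inter subset_union_right subset_union_right)
  · rintro (a | b) (a' | b') n <;> refine Set.disjoint_left.2 fun z hz hz' => ?_ <;>
      obtain ⟨⟨d, rfl⟩, hd⟩ := mem_iUnion.1 hz <;> obtain ⟨⟨e, rfl⟩, he⟩ := mem_iUnion.1 hz'
    · obtain ⟨s, ⟨s1, s2⟩, rfl⟩ := hd
      obtain ⟨t, ⟨t1, t2⟩, h⟩ := he
      rcases h1 d e s t s1 (by linarith) t1 (by linarith) h.symm with ⟨rfl, -⟩ | ⟨-, -, q⟩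
      · exact n rfl
      · exact n (congrArg _ q)
    · exact UW d e z hd he
    · exact UW e d z he hd
    · rcases mW d z hd with ⟨s, s1, s2, rfl⟩ | hd <;> rcases mW e _ he with ⟨t, t1, t2, h⟩ | h
      · rcases h1 d e s t (by linarith) s2 (by linarith) t2 h.symm with ⟨rfl, -⟩ | ⟨q, -⟩
        · exact n rfl
        · linarith
      · exact h2 d e s (by linarith) s2 h
      · exact h2 e d t (by linarith) t2 (h ▸ hd)
      · exact n (congrArg _ ((h3 d e).1 ⟨z, hd, h⟩))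
  · intro d e n
    refine Set.disjoint_left.2 ?_
    rintro _ ⟨s, ⟨s1, s2⟩, rfl⟩ ⟨t, ⟨t1, t2⟩, h⟩
    rcases h1 d e s t (by linarith) (by linarith) (by linarith) (by linarith) h.symm with
      ⟨q, -⟩ | ⟨q, -⟩
    · exact n q
    · linarith
  · rintro d (a | b) n n' <;> refine Set.disjoint_left.2 ?_ <;>
      rintro _ ⟨s, ⟨s1, s2⟩, rfl⟩ hz <;> obtain ⟨⟨e, rfl⟩, he⟩ := mem_iUnion.1 hz
    · obtain ⟨t, ⟨t1, t2⟩, h⟩ := he
      rcases h1 d e s t (by linarith) (by linarith) t1 (by linarith) h.symm with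
        ⟨rfl, -⟩ | ⟨q, -⟩
      · exact n rfl
      · linarith
    · rcases mW e _ he with ⟨t, t1, t2, h⟩ | h
      · rcases h1 d e s t (by linarith) (by linarith) (by linarith) t2 h.symm with
          ⟨rfl, -⟩ | ⟨q, -⟩
        · exact n' rfl
        · linarith
      · exact h2 d e s (by linarith) (by linarith) h
  · exact ⟨c d (1 / 3), ⟨_, ⟨le_rfl, by norm_num⟩, rfl⟩,
      mem_iUnion.2 ⟨⟨d, rfl⟩, _, ⟨by norm_num, le_rfl⟩, rfl⟩⟩
  · exact ⟨c d (2 / 3), ⟨_, ⟨by norm_num, le_rfl⟩, rfl⟩,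
      mem_iUnion.2 ⟨⟨d, rfl⟩, .inl ⟨_, ⟨le_rfl, by norm_num⟩, rfl⟩⟩⟩

end NDH

end Pool.Agent.Lib.MP_c1f5fe_lc
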