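import Pool.Agent.Lib.MP_c1f5fe_lc.NDH2

/-! The rotation at the hub of a wheel alternates like the rim. -/

namespace Pool.Agent.Lib.MP_c1f5fe_lc

namespace NDH

open Function Relation
open Pool.Agent.Lib.MP_50b5c6_lc.Np (NC Pl)

theorem sub_of_pw {D : Type} [DecidableEq D] {L M : List D} (nd : L.Nodup)
    (h : M.Pairwise fun a b => L.idxOf a < L.idxOf b) (s : M ⊆ L) : M.Sublist L := by
  have : Std.Antisymm fun a b : D => L.idxOf a < L.idxOf b :=
    ⟨fun a b h h' => absurd h (not_lt.2 h'.le)⟩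
  have : Std.Irrefl fun a b : D => L.idxOf a < L.idxOf b := ⟨fun a h => lt_irrefl _ h⟩
  exact List.sublist_of_subperm_of_pairwise (List.subperm_of_subset h.nodup s) h (pw_idx nd)

theorem idx_tr {X Z : Type} [DecidableEq X] [DecidableEq Z] {W : Type} (l : List X) (L : List Z)
    (M : List W) (u : W → X) (v : W → Z) (nl : l.Nodup) (nL : L.Nodup) (hu : Injective u)
    (s1 : l.Sublist (M.map u)) (s2 : (M.map v).Sublist L) (x y : W) (hx : u x ∈ l) (hy : u y ∈ l) :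
    l.idxOf (u x) < l.idxOf (u y) ↔ L.idxOf (v x) < L.idxOf (v y) := by
  have key : ∀ x y, u x ∈ l → u y ∈ l → l.idxOf (u x) < l.idxOf (u y) →
      L.idxOf (v x) < L.idxOf (v y) := by
    intro x y hx hy h
    have a1 : [u x, u y].Sublist l := sub_of_pw nl (by simpa using h) (by simp [hx, hy])
    obtain ⟨m, a2, e⟩ := List.sublist_map_iff.1 (a1.trans s1)
    have e' : m = [x, y] := (List.map_injective_iff.2 hu (a₁ := [x, y]) e).symm
    subst e'
    exact (pw_idx nL).forall_sublist ((a2.map v).trans s2)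
  refine ⟨key x y hx hy, fun h => ?_⟩
  rcases lt_trichotomy (l.idxOf (u x)) (l.idxOf (u y)) with k | k | k
  · exact k
  · obtain rfl := hu ((List.idxOf_inj hx).1 k)
    exact absurd h (lt_irrefl _)
  · exact absurd (key y x hy hx k) (not_lt.2 h.le)

/-- one if `u` comes before `v` -/
def Eb {D : Type} (p : D → ℕ) (u v : D) : ℕ := if p u < p v then 1 else 0

/-- the pairs do not alternate -/
def NA {D : Type} (p : D → ℕ) (a b c d : D) : Prop :=
  (Eb p a c + Eb p b c + Eb p a d + Eb p b d) % 2 = 0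

theorem chord {D B : Type} [DecidableEq D] {L : List D} (nd : L.Nodup) (all : ∀ d, d ∈ L)
    {F : D → B} (h : NC F L) {u v d e : D} (h1 : F u = F v) (h2 : F d = F e) (n : F u ≠ F d) :
    NA (fun x => L.idxOf x) u v d e := by
  have k : ∀ a b c d, F a = F c → F b = F d → F a ≠ F b →
      ¬(L.idxOf a < L.idxOf b ∧ L.idxOf b < L.idxOf c ∧ L.idxOf c < L.idxOf d) := by
    rintro a b c d q1 q2 q3 ⟨l1, l2, l3⟩
    refine q3 (h a b c d (sub_of_pw nd ?_ fun x _ => all x) q1 q2)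
    simp only [List.pairwise_cons, List.mem_cons, List.not_mem_nil, or_false, forall_eq_or_imp,
      forall_eq, IsEmpty.forall_iff, implies_true, List.Pairwise.nil, and_true]
    omega
  have ne : ∀ a b, F a ≠ F b → L.idxOf a ≠ L.idxOf b := fun a b q e =>
    q (congrArg F ((List.idxOf_inj (all a)).1 e))
  have n1 := ne u d n
  have n2 := ne u e (h2 ▸ n)
  have n3 := ne v d (h1 ▸ n)
  have n4 := ne v e (h1 ▸ h2 ▸ n)
  have c1 := k u d v e h1 h2 n
  have c2 := k u e v d h1 h2.symm (h2 ▸ n)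
  have c3 := k v d u e h1.symm h2 (h1 ▸ n)
  have c4 := k v e u d h1.symm h2.symm (h1 ▸ h2 ▸ n)
  have c5 := k d u e v h2 h1 n.symm
  have c6 := k e u d v h2.symm h1 (h2 ▸ n.symm)
  have c7 := k d v e u h2 h1.symm (h1 ▸ n.symm)
  have c8 := k e v d u h2.symm h1.symm (h1 ▸ h2 ▸ n.symm)
  simp only [NA, Eb]
  split_ifs <;> omega

theorem ex_nx {R I : Type} [Finite R] (hub : R → I) (θ : R → ℝ) (c : ℝ)
    (hc : ∀ x y, θ x < θ y + c) : ∃ (nx : R → R) (θ' : R → ℝ), ∀ r, hub (nx r) = hub r ∧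
      θ r < θ' r ∧ (∀ z, hub z = hub r → θ r < θ z → θ' r ≤ θ z) ∧
      (∀ z, hub z = hub r → θ' r ≤ θ z + c) ∧
      (θ' r = θ (nx r) ∨ (θ' r = θ (nx r) + c ∧ ∀ z, hub z = hub r → θ z ≤ θ r)) := by
  have : ∀ r, ∃ (y : R) (t : ℝ), hub y = hub r ∧
      θ r < t ∧ (∀ z, hub z = hub r → θ r < θ z → t ≤ θ z) ∧
      (∀ z, hub z = hub r → t ≤ θ z + c) ∧
      (t = θ y ∨ (t = θ y + c ∧ ∀ z, hub z = hub r → θ z ≤ θ r)) := by
    intro r
    by_cases h : ∃ z, hub z = hub r ∧ θ r < θ z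
    · obtain ⟨y, hy, m⟩ := Set.exists_min_image {z | hub z = hub r ∧ θ r < θ z} θ
        (Set.toFinite _) h
      exact ⟨y, θ y, hy.1, hy.2, fun z a b => m z ⟨a, b⟩, fun z _ => (hc y z).le, .inl rfl⟩
    · obtain ⟨y, hy, m⟩ := Set.exists_min_image {z | hub z = hub r} θ (Set.toFinite _) ⟨r, rfl⟩
      exact ⟨y, θ y + c, hy, hc r y, fun z a b => absurd ⟨z, a, b⟩ h,
        fun z a => by linarith [m z a], .inr ⟨rfl, fun z a => not_lt.1 fun b => h ⟨z, a, b⟩⟩⟩
  choose nx θ' h using this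
  exact ⟨nx, θ', h⟩

theorem altO_iff {B : Type} [LinearOrder B] {a a' b b' : B} (h1 : a ≠ b) (h2 : a' ≠ b)
    (h3 : a ≠ b') (h4 : a' ≠ b') :
    altO a a' b b' ↔ ¬((a < b ↔ a' < b) ↔ (a < b' ↔ a' < b')) := by
  unfold altO
  simp only [min_lt_iff, lt_max_iff]
  have e1 : b < a ↔ ¬a < b := ⟨fun h => not_lt.2 h.le, fun h => (not_lt.1 h).lt_of_ne h1.symm⟩
  have e2 : b < a' ↔ ¬a' < b := ⟨fun h => not_lt.2 h.le, fun h => (not_lt.1 h).lt_of_ne h2.symm⟩
  have e3 : b' < a ↔ ¬a < b' := ⟨fun h => not_lt.2 h.le, fun h => (not_lt.1 h).lt_of_ne h3.symm⟩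
  have e4 : b' < a' ↔ ¬a' < b' :=
    ⟨fun h => not_lt.2 h.le, fun h => (not_lt.1 h).lt_of_ne h4.symm⟩
  rw [e1, e2, e3, e4]
  by_cases a < b <;> by_cases a' < b <;> by_cases a < b' <;> by_cases a' < b' <;> simp [*]

theorem wheel {R I : Type} [Finite R] (hub : R → I) (θ : R → ℝ) (c : ℝ) (nx : R → R)
    (θ' : R → ℝ) (p : R → ℕ) (pi : Injective p) (θi : ∀ x y, hub x = hub y → θ x = θ y → x = y)
    (hn : ∀ r, hub (nx r) = hub r ∧
      θ r < θ' r ∧ (∀ z, hub z = hub r → θ r < θ z → θ' r ≤ θ z) ∧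
      (∀ z, hub z = hub r → θ' r ≤ θ z + c) ∧
      (θ' r = θ (nx r) ∨ (θ' r = θ (nx r) + c ∧ ∀ z, hub z = hub r → θ z ≤ θ r)))
    (loc : ∀ r s, hub r = hub s → r ≠ s → r ≠ nx s → nx r ≠ s → nx r ≠ nx s →
      NA p r (nx r) s (nx s))
    (a a' b b' : R) (e1 : hub a' = hub a) (e2 : hub b = hub a) (e3 : hub b' = hub a)
    (n0 : a ≠ a') (n1 : a ≠ b) (n2 : a' ≠ b) (n3 : a ≠ b') (n4 : a' ≠ b') (n5 : b ≠ b') :
    altO (p a) (p a') (p b) (p b') ↔ altO (θ a) (θ a') (θ b) (θ b') := by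
  let Re : (R → Prop) → R → R → Prop := fun J =>
    ReflTransGen fun x y => hub x = hub a ∧ J x ∧ J y ∧ y = nx x
  have up : ∀ (J : R → Prop) (y : R), hub y = hub a → ∀ (m : ℕ) (x : R),
      {z | θ x < θ z}.ncard = m → hub x = hub a → θ x ≤ θ y →
      (∀ z, hub z = hub a → θ x ≤ θ z → θ z ≤ θ y → J z) → Re J x y := by
    intro J y hy m
    induction m using Nat.strong_induction_on with
    | _ m ih =>
      intro x hm hx l hJ
      rcases l.lt_or_eq with l | l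
      · obtain ⟨q1, q2, q3, -, q5 | ⟨-, q5⟩⟩ := hn x
        · have q4 := q3 y (hy.trans hx.symm) l
          rw [q5] at q2 q4
          refine ReflTransGen.head ⟨hx, hJ x hx le_rfl l.le, hJ _ (q1.trans hx) q2.le q4, rfl⟩
            (ih _ ?_ (nx x) rfl (q1.trans hx) q4 fun z a b c => hJ z a (q2.le.trans b) c)
          rw [← hm]
          exact Set.ncard_lt_ncard ⟨fun z hz => q2.trans hz, fun k => lt_irrefl (θ (nx x)) (k q2)⟩
        · exact absurd l (not_lt.2 (q5 y (hy.trans hx.symm)))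
      · rw [θi x y (hx.trans hy.symm) l]
  have up' : ∀ (J : R → Prop) (x y : R), hub x = hub a → hub y = hub a → θ x ≤ θ y →
      (∀ z, hub z = hub a → θ x ≤ θ z → θ z ≤ θ y → J z) → Re J x y :=
    fun J x y hx hy l hJ => up J y hy _ x rfl hx l hJ
  have wrap : ∀ (J : R → Prop) (x y : R), hub x = hub a → hub y = hub a → θ y < θ x →
      (∀ z, hub z = hub a → θ x ≤ θ z ∨ θ z ≤ θ y → J z) → Re J x y := by
    intro J x y hx hy l hJ
    obtain ⟨m, hm, mx⟩ := Set.exists_max_image {z | hub z = hub a} θ (Set.toFinite _) ⟨a, rfl⟩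
    obtain ⟨q1, q2, -, q4, q5 | ⟨q5, -⟩⟩ := hn m
    · exact absurd (q5 ▸ q2) (not_lt.2 (mx _ (q1.trans hm)))
    · have q6 : θ (nx m) ≤ θ y := by linarith [q4 y (hy.trans hm.symm)]
      exact ((up' J x m hx hm (mx x hx) fun z a b _ => hJ z a (.inl b)).tail
        ⟨hm, hJ m hm (.inl (mx x hx)), hJ _ (q1.trans hm) (.inr q6), rfl⟩).trans
        (up' J _ y (q1.trans hm) hy q6 fun z a _ b => hJ z a (.inr b))
  have dis : ∀ (J J' : R → Prop) (x y u v : R), (∀ z, J z → ¬J' z) → Re J x y → Re J' u v →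
      NA p x y u v := by
    intro J J' x y u v hJ r1 r2
    induction r1 with
    | refl => unfold NA; omega
    | @tail y _ _ s ih =>
      obtain ⟨s1, s2, s3, rfl⟩ := s
      have : NA p y (nx y) u v := by
        clear ih
        induction r2 with
        | refl => unfold NA; omega
        | @tail v _ _ t ih =>
          obtain ⟨t1, t2, t3, rfl⟩ := t
          have := loc y v (s1.trans t1.symm) (fun e => hJ y s2 (e ▸ t2))
            (fun e => hJ y s2 (e ▸ t3)) (fun e => hJ _ s3 (e ▸ t2)) (fun e => hJ _ s3 (e ▸ t3))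
          unfold NA at *
          omega
      unfold NA at *
      omega
  have srt : ∀ w x y z, hub w = hub a → hub x = hub a → hub y = hub a → hub z = hub a →
      θ w < θ x → θ x < θ y → θ y < θ z → NA p w x y z ∧ NA p x y z w := by
    intro w x y z hw hx hy hz l1 l2 l3
    exact ⟨dis (fun t => θ t ≤ θ x) (fun t => θ y ≤ θ t) w x y z (fun t a b => by linarith)
      (up' _ w x hw hx l1.le fun _ _ _ k => k) (up' _ y z hy hz l3.le fun _ _ k _ => k),
      dis (fun t => θ x ≤ θ t ∧ θ t ≤ θ y) (fun t => θ z ≤ θ t ∨ θ t ≤ θ w) x y z w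
        (fun t a b => by rcases b with b | b <;> linarith [a.1, a.2])
        (up' _ x y hx hy l2.le fun _ _ k k' => ⟨k, k'⟩)
        (wrap _ z w hz hw (by linarith) fun _ _ k => k)⟩
  have p0 := pi.ne n0
  have p1 := pi.ne n1
  have p2 := pi.ne n2
  have p3 := pi.ne n3
  have p4 := pi.ne n4
  have p5 := pi.ne n5
  have t0 : θ a ≠ θ a' := fun e => n0 (θi _ _ e1.symm e)
  have t1 : θ a ≠ θ b := fun e => n1 (θi _ _ e2.symm e)
  have t2 : θ a' ≠ θ b := fun e => n2 (θi _ _ (e1.trans e2.symm) e)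
  have t3 : θ a ≠ θ b' := fun e => n3 (θi _ _ e3.symm e)
  have t4 : θ a' ≠ θ b' := fun e => n4 (θi _ _ (e1.trans e3.symm) e)
  have t5 : θ b ≠ θ b' := fun e => n5 (θi _ _ (e2.trans e3.symm) e)
  rw [altO_iff p1 p2 p3 p4, altO_iff t1 t2 t3 t4]
  have fin : ∀ w x y z, hub w = hub a → hub x = hub a → hub y = hub a → hub z = hub a →
      θ w < θ x → θ x < θ y → θ y < θ z →
      ((p w < p y ↔ p x < p y) ↔ (p w < p z ↔ p x < p z)) ∧
      ((p x < p z ↔ p y < p z) ↔ (p x < p w ↔ p y < p w)) := by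
    intro w x y z hw hx hy hz l1 l2 l3
    obtain ⟨k1, k2⟩ := srt w x y z hw hx hy hz l1 l2 l3
    unfold NA Eb at k1 k2
    constructor
    · split_ifs at k1 <;> omega
    · split_ifs at k2 <;> omega
  have e0 : hub a = hub a := rfl
  rcases t0.lt_or_gt with s0 | s0 <;> rcases t1.lt_or_gt with s1 | s1 <;>
    rcases t2.lt_or_gt with s2 | s2 <;> rcases t3.lt_or_gt with s3 | s3 <;>
    rcases t4.lt_or_gt with s4 | s4 <;> rcases t5.lt_or_gt with s5 | s5 <;>
    first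
    | (exfalso; linarith)
    | (simp only [s1, s2, s3, s4, s1.not_gt, s2.not_gt, s3.not_gt, s4.not_gt, iff_self,
         iff_true, iff_false, not_true_eq_false, not_false_eq_true, not_not]
       first
       | (have := fin a a' b b' e0 e1 e2 e3 ‹_› ‹_› ‹_›; omega)
       | (have := fin a a' b' b e0 e1 e3 e2 ‹_› ‹_› ‹_›; omega)
       | (have := fin a b a' b' e0 e2 e1 e3 ‹_› ‹_› ‹_›; omega)
       | (have := fin a b b' a' e0 e2 e3 e1 ‹_› ‹_› ‹_›; omega)
       | (have := fin a b' a' b e0 e3 e1 e2 ‹_› ‹_› ‹_›; omega)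
       | (have := fin a b' b a' e0 e3 e2 e1 ‹_› ‹_› ‹_›; omega)
       | (have := fin a' a b b' e1 e0 e2 e3 ‹_› ‹_› ‹_›; omega)
       | (have := fin a' a b' b e1 e0 e3 e2 ‹_› ‹_› ‹_›; omega)
       | (have := fin a' b a b' e1 e2 e0 e3 ‹_› ‹_› ‹_›; omega)
       | (have := fin a' b b' a e1 e2 e3 e0 ‹_› ‹_› ‹_›; omega)
       | (have := fin a' b' a b e1 e3 e0 e2 ‹_› ‹_› ‹_›; omega)
       | (have := fin a' b' b a e1 e3 e2 e0 ‹_› ‹_› ‹_›; omega)
       | (have := fin b a a' b' e2 e0 e1 e3 ‹_› ‹_› ‹_›; omega)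
       | (have := fin b a b' a' e2 e0 e3 e1 ‹_› ‹_› ‹_›; omega)
       | (have := fin b a' a b' e2 e1 e0 e3 ‹_› ‹_› ‹_›; omega)
       | (have := fin b a' b' a e2 e1 e3 e0 ‹_› ‹_› ‹_›; omega)
       | (have := fin b b' a a' e2 e3 e0 e1 ‹_› ‹_› ‹_›; omega)
       | (have := fin b b' a' a e2 e3 e1 e0 ‹_› ‹_› ‹_›; omega)
       | (have := fin b' a a' b e3 e0 e1 e2 ‹_› ‹_› ‹_›; omega)
       | (have := fin b' a b a' e3 e0 e2 e1 ‹_› ‹_› ‹_›; omega)
       | (have := fin b' a' a b e3 e1 e0 e2 ‹_› ‹_› ‹_›; omega)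
       | (have := fin b' a' b a e3 e1 e2 e0 ‹_› ‹_› ‹_›; omega)
       | (have := fin b' b a a' e3 e2 e0 e1 ‹_› ‹_› ‹_›; omega)
       | (have := fin b' b a' a e3 e2 e1 e0 ‹_› ‹_› ‹_›; omega))

end NDH

end Pool.Agent.Lib.MP_c1f5fe_lc
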