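import Pool.Agent.Lib.MP_c1f5fe_lc.SpecA

/-! From parametrised edges with exit times to a drawing in normal form. -/

namespace Pool.Agent.Lib.MP_c1f5fe_lc

open Set Function

namespace NDa

/-- parametrised edges, disjoint discs, and the time of the last exit from each disc -/
structure Mid (k : ℕ) {V : Type} (G : SimpleGraph V) where
  pos : V → ℂ
  pos_inj : Injective pos
  P : V → V → ℝ → ℂ
  In : V → V → Fin k → Bool → Prop
  h : Fin k → ℂ ≃ₜ ℂ
  ex : V → V → Fin k → ℝ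
  cont : ∀ u v, G.Adj u v → ContinuousOn (P u v) (Icc 0 1)
  inj : ∀ u v, G.Adj u v → InjOn (P u v) (Icc 0 1)
  rev : ∀ u v t, G.Adj u v → P v u t = P u v (1 - t)
  start : ∀ u v, G.Adj u v → P u v 0 = pos u
  vtx : ∀ u v t w, G.Adj u v → t ∈ Ioo (0 : ℝ) 1 → P u v t ≠ pos w
  adj : ∀ u v i b, In u v i b → G.Adj u v
  sym : ∀ u v i b, In u v i b → In v u i b
  fn : ∀ u v i b b', In u v i b → In u v i b' → b = b'
  lt1 : ∀ u v i b, In u v i b → ex u v i < 1
  gt1 : ∀ u v i b, In u v i b → 1 < ex u v i + ex v u i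
  bd : ∀ u v i b, In u v i b → ‖(h i).symm (P u v (ex u v i))‖ = 1
  ord : ∀ u v i j b b', In u v i b → In u v j b' → i ≠ j →
    ex u v i + ex v u j < 1 ∨ ex u v j + ex v u i < 1
  off : ∀ u v t i, G.Adj u v → t ∈ Icc (0 : ℝ) 1 → (∃ x y b, In x y i b) →
    ‖(h i).symm (P u v t)‖ ≤ 1 → (∃ b, In u v i b) ∧ t ≤ ex u v i
  crs : ∀ u v u' v' s t, G.Adj u v → G.Adj u' v' → s(u, v) ≠ s(u', v') → s ∈ Icc (0 : ℝ) 1 →
    t ∈ Icc (0 : ℝ) 1 → P u v s = P u' v' t →
    P u v s ∈ range pos ∨ ∃ i b, In u v i b ∧ s < ex u v i ∧ 1 - s < ex v u i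
  disj : ∀ i j z, (∃ x y b, In x y i b) → (∃ x y b, In x y j b) → ‖(h i).symm z‖ ≤ 1 →
    ‖(h j).symm z‖ ≤ 1 → i = j
  nov : ∀ i v, (∃ x y b, In x y i b) → 1 < ‖(h i).symm (pos v)‖
  alt : ∀ u v u' v' i b b', In u v i b → In u' v' i b' → s(u, v) ≠ s(u', v') →
    (Alt ((h i).symm (P u v (ex u v i))) ((h i).symm (P v u (ex v u i)))
      ((h i).symm (P u' v' (ex u' v' i))) ((h i).symm (P v' u' (ex v' u' i))) ↔ b ≠ b')
  both : ∀ i b, (∃ x y b, In x y i b) → ∃ u v, In u v i b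
  once : ∀ u v u' v' i j x y, i ≠ j → In u v i x → In u v j y → In u' v' i (!x) →
    ¬In u' v' j (!y)
  vert : ∀ u v v' i, In u v i false → ¬In u v' i true

variable {V : Type} {G : SimpleGraph V}

theorem Mid.mono {m k : ℕ} (M : Mid m G) (hmk : m ≤ k) : Nonempty (Mid k G) := by
  classical
  have hf : Injective (Fin.castLE hmk) := Fin.castLE_injective hmk
  refine ⟨{
    pos := M.pos, pos_inj := M.pos_inj, P := M.P
    In := fun u v j b => ∃ i, Fin.castLE hmk i = j ∧ M.In u v i b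
    h := extend (Fin.castLE hmk) M.h fun _ => Homeomorph.refl ℂ
    ex := fun u v => extend (Fin.castLE hmk) (M.ex u v) fun _ => 0
    cont := M.cont, inj := M.inj, rev := M.rev, start := M.start, vtx := M.vtx
    adj := ?_, sym := ?_, fn := ?_, lt1 := ?_, gt1 := ?_, bd := ?_, ord := ?_, off := ?_
    crs := ?_, disj := ?_, nov := ?_, alt := ?_, both := ?_, once := ?_, vert := ?_ }⟩
  · rintro u v _ b ⟨i, rfl, hi⟩
    exact M.adj _ _ _ _ hi
  · rintro u v _ b ⟨i, rfl, hi⟩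
    exact ⟨i, rfl, M.sym _ _ _ _ hi⟩
  · rintro u v _ b b' ⟨i, rfl, hi⟩ ⟨j, hj, hj'⟩
    obtain rfl := hf hj
    exact M.fn _ _ _ _ _ hi hj'
  · rintro u v _ b ⟨i, rfl, hi⟩
    simpa only [hf.extend_apply] using M.lt1 _ _ _ _ hi
  · rintro u v _ b ⟨i, rfl, hi⟩
    simpa only [hf.extend_apply] using M.gt1 _ _ _ _ hi
  · rintro u v _ b ⟨i, rfl, hi⟩
    simpa only [hf.extend_apply] using M.bd _ _ _ _ hi
  · rintro u v _ _ b b' ⟨i, rfl, hi⟩ ⟨j, rfl, hj⟩ hij
    simpa only [hf.extend_apply] using M.ord _ _ _ _ _ _ hi hj fun e => hij (by rw [e])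
  · rintro u v t _ huv ht ⟨x, y, b, i, rfl, hi⟩ hn
    simp only [hf.extend_apply] at hn ⊢
    obtain ⟨⟨b', hb'⟩, h2⟩ := M.off u v t i huv ht ⟨x, y, b, hi⟩ hn
    exact ⟨⟨b', i, rfl, hb'⟩, h2⟩
  · intro u v u' v' s t huv huv' hne hs ht he
    rcases M.crs u v u' v' s t huv huv' hne hs ht he with h | ⟨i, b, h1, h2, h3⟩
    · exact .inl h
    · refine .inr ⟨Fin.castLE hmk i, b, ⟨i, rfl, h1⟩, ?_, ?_⟩
      · simpa only [hf.extend_apply] using h2
      · simpa only [hf.extend_apply] using h3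
  · rintro _ _ z ⟨x, y, b, i, rfl, hi⟩ ⟨x', y', b', j, rfl, hj⟩ h1 h2
    simp only [hf.extend_apply] at h1 h2
    rw [M.disj i j z ⟨x, y, b, hi⟩ ⟨x', y', b', hj⟩ h1 h2]
  · rintro _ v ⟨x, y, b, i, rfl, hi⟩
    simpa only [hf.extend_apply] using M.nov i v ⟨x, y, b, hi⟩
  · rintro u v u' v' _ b b' ⟨i, rfl, hi⟩ ⟨j, hj, hj'⟩ hne
    obtain rfl := hf hj
    simpa only [hf.extend_apply] using M.alt _ _ _ _ _ _ _ hi hj' hne
  · rintro _ b ⟨x, y, b', i, rfl, hi⟩
    obtain ⟨u, v, h⟩ := M.both i b ⟨x, y, b', hi⟩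
    exact ⟨u, v, i, rfl, h⟩
  · rintro u v u' v' _ _ x y hij ⟨i, rfl, hi⟩ ⟨j, rfl, hj⟩ ⟨i', e1, hi'⟩ ⟨j', e2, hj'⟩
    obtain rfl := hf e1
    obtain rfl := hf e2
    exact M.once _ _ _ _ _ _ _ _ (fun e => hij (by rw [e])) hi hj hi' hj'
  · rintro u v v' _ ⟨i, rfl, hi⟩ ⟨j, hj, hj'⟩
    obtain rfl := hf hj
    exact M.vert _ _ _ _ hi hj'

variable {k : ℕ} (M : Mid k G)

theorem Mid.exists_lab : ∃ lab : V → V → List (Lab k),
    (∀ u v x, x ∈ lab u v ↔ M.In u v x.1 x.2) ∧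
    (∀ u v, (lab u v).Pairwise fun x y => M.ex u v x.1 + M.ex v u y.1 < 1) := by
  classical
  have key : ∀ u v, ∃ l : List (Lab k), (∀ x, x ∈ l ↔ M.In u v x.1 x.2) ∧
      l.Pairwise fun x y => M.ex u v x.1 + M.ex v u y.1 < 1 := by
    intro u v
    let s : Finset (Lab k) := Finset.univ.filter fun x => M.In u v x.1 x.2
    let l := s.toList.mergeSort fun x y => decide (M.ex u v x.1 ≤ M.ex u v y.1)
    have hp : l.Perm s.toList := List.mergeSort_perm _ _
    have hm : ∀ x, x ∈ l ↔ M.In u v x.1 x.2 := fun x => by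
      rw [hp.mem_iff]; simp [s]
    have hn : l.Nodup := hp.nodup_iff.2 s.nodup_toList
    have hs : l.Pairwise fun x y => decide (M.ex u v x.1 ≤ M.ex u v y.1) = true := by
      refine List.pairwise_mergeSort ?_ ?_ _
      · intro a b c h1 h2
        simp only [decide_eq_true_eq] at *
        exact h1.trans h2
      · intro a b
        simp only [Bool.or_eq_true, decide_eq_true_eq]
        exact le_total _ _
    refine ⟨l, hm, ?_⟩
    refine (hs.and hn).imp_of_mem ?_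
    rintro x y hx hy ⟨h1, h2⟩
    simp only [decide_eq_true_eq] at h1
    rw [hm] at hx hy
    have hne : x.1 ≠ y.1 := fun e => h2 (Prod.ext e (M.fn u v y.1 _ _ (e ▸ hx) hy))
    rcases M.ord u v _ _ _ _ hx hy hne with h | h
    · exact h
    · have := M.gt1 _ _ _ _ hx
      linarith
  choose lab h1 h2 using key
  exact ⟨lab, h1, h2⟩

section
variable {lab : V → V → List (Lab k)} (h1 : ∀ u v x, x ∈ lab u v ↔ M.In u v x.1 x.2)
  (h2 : ∀ u v, (lab u v).Pairwise fun x y => M.ex u v x.1 + M.ex v u y.1 < 1)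
include h1 h2

theorem Mid.idx (u v : V) : ((lab u v).map Prod.fst).Nodup := by
  rw [List.Nodup, List.pairwise_map]
  refine (h2 u v).imp_of_mem ?_
  intro x y hx _ h e
  have := M.gt1 _ _ _ _ ((h1 _ _ _).1 hx)
  rw [← e] at h
  linarith

theorem Mid.lrev (u v : V) : lab v u = (lab u v).reverse := by
  refine List.Perm.eq_of_pairwise (le := fun x y => M.ex v u x.1 + M.ex u v y.1 < 1) ?_
    (h2 v u) ?_ ?_
  · intro a b ha hb h3 h4
    have := M.gt1 _ _ _ _ ((h1 _ _ _).1 ha)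
    have := M.gt1 _ _ _ _ ((h1 _ _ _).1 (List.mem_reverse.1 hb))
    linarith
  · rw [List.pairwise_reverse]
    exact (h2 u v).imp fun h => by linarith
  · rw [List.perm_ext_iff_of_nodup (M.idx h1 h2 v u).of_map
      (List.nodup_reverse.2 (M.idx h1 h2 u v).of_map)]
    intro a
    rw [List.mem_reverse, h1, h1]
    exact ⟨M.sym _ _ _ _, M.sym _ _ _ _⟩

end

/-- the time at which the segment number `n` starts -/
noncomputable def Mid.st (lab : V → V → List (Lab k)) (u v : V) (n : ℕ) : ℝ :=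
  if n = 0 then 0 else ((lab u v)[n - 1]?).elim 0 fun x => M.ex u v x.1

theorem Mid.st_zero (lab : V → V → List (Lab k)) (u v : V) : M.st lab u v 0 = 0 := by
  simp [Mid.st]

theorem Mid.st_succ {lab : V → V → List (Lab k)} {u v : V} {p : ℕ} {x : Lab k}
    (h : (lab u v)[p]? = some x) : M.st lab u v (p + 1) = M.ex u v x.1 := by
  simp [Mid.st, h]

section
variable {lab : V → V → List (Lab k)} (h1 : ∀ u v x, x ∈ lab u v ↔ M.In u v x.1 x.2)
  (h2 : ∀ u v, (lab u v).Pairwise fun x y => M.ex u v x.1 + M.ex v u y.1 < 1)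
include h1 h2

theorem Mid.len (u v : V) : (lab v u).length = (lab u v).length := by
  rw [M.lrev h1 h2 u v, List.length_reverse]

theorem Mid.get_rev {u v : V} {p : ℕ} {x : Lab k} (h : (lab u v)[p]? = some x) :
    (lab v u)[(lab u v).length - 1 - p]? = some x := by
  have hp : p < (lab u v).length := (List.getElem?_eq_some_iff.1 h).1
  rw [M.lrev h1 h2 u v, List.getElem?_reverse (by omega), ← h]
  congr 1
  omega

theorem Mid.st_rev {u v : V} {p : ℕ} {x : Lab k} (h : (lab u v)[p]? = some x) :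
    M.st lab v u ((lab u v).length - p) = M.ex v u x.1 := by
  have hp : p < (lab u v).length := (List.getElem?_eq_some_iff.1 h).1
  rw [← M.st_succ (M.get_rev h1 h2 h)]
  congr 1
  omega

omit h1 in
theorem Mid.pw {u v : V} {p q : ℕ} {x y : Lab k} (hx : (lab u v)[p]? = some x)
    (hy : (lab u v)[q]? = some y) (hpq : p < q) : M.ex u v x.1 + M.ex v u y.1 < 1 := by
  obtain ⟨hp, rfl⟩ := List.getElem?_eq_some_iff.1 hx
  obtain ⟨hq, rfl⟩ := List.getElem?_eq_some_iff.1 hy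
  exact List.pairwise_iff_getElem.1 (h2 u v) p q hp hq hpq

omit h2 in
theorem Mid.inx {u v : V} {p : ℕ} {x : Lab k} (hx : (lab u v)[p]? = some x) :
    M.In u v x.1 x.2 :=
  (h1 _ _ _).1 (List.mem_of_getElem? hx)

theorem Mid.ex_lt {u v : V} {p n : ℕ} {x : Lab k} (hx : (lab u v)[p]? = some x)
    (hpn : p + 1 < n) (hn : n ≤ (lab u v).length) : M.ex u v x.1 < M.st lab u v n := by
  obtain ⟨q, rfl⟩ : ∃ q, n = q + 1 := ⟨n - 1, by omega⟩
  have hy : (lab u v)[q]? = some (lab u v)[q] := List.getElem?_eq_getElem (by omega)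
  rw [M.st_succ hy]
  have := M.pw h2 hx hy (by omega)
  have := M.gt1 _ _ _ _ (M.inx h1 hy)
  linarith

theorem Mid.ex_le {u v : V} {p n : ℕ} {x : Lab k} (hx : (lab u v)[p]? = some x)
    (hpn : p < n) (hn : n ≤ (lab u v).length) : M.ex u v x.1 ≤ M.st lab u v n := by
  rcases Nat.lt_or_ge (p + 1) n with h | h
  · exact (M.ex_lt h1 h2 hx h hn).le
  · obtain rfl : n = p + 1 := by omega
    rw [M.st_succ hx]

omit h2 in
theorem Mid.st_bd {u v : V} {n : ℕ} (hn : n ≤ (lab u v).length) :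
    0 ≤ M.st lab u v n ∧ M.st lab u v n < 1 := by
  rcases n with _ | q
  · simp [M.st_zero]
  · have hy : (lab u v)[q]? = some (lab u v)[q] := List.getElem?_eq_getElem (by omega)
    rw [M.st_succ hy]
    have h3 := M.inx h1 hy
    have := M.gt1 _ _ _ _ h3
    have := M.lt1 _ _ _ _ h3
    have := M.lt1 _ _ _ _ (M.sym _ _ _ _ h3)
    constructor <;> linarith

theorem Mid.st_add {u v : V} {n : ℕ} (hn : n ≤ (lab u v).length) :
    M.st lab u v n + M.st lab v u ((lab u v).length - n) < 1 := by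
  rcases n with _ | q
  · have := (M.st_bd h1 (u := v) (v := u) (n := (lab u v).length - 0)
      (by rw [M.len h1 h2]; omega)).2
    rw [M.st_zero]
    linarith
  · rcases hn.eq_or_lt with h | h
    · have := (M.st_bd h1 hn).2
      rw [← h, Nat.sub_self, M.st_zero]
      linarith
    · have hx : (lab u v)[q]? = some (lab u v)[q] := List.getElem?_eq_getElem (by omega)
      have hy : (lab u v)[q + 1]? = some (lab u v)[q + 1] := List.getElem?_eq_getElem h
      rw [M.st_succ hx, M.st_rev h1 h2 hy]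
      exact M.pw h2 hx hy (by omega)

theorem Mid.st_gap {u v : V} {n n' : ℕ} (h : n < n') (hn : n' ≤ (lab u v).length) :
    1 < M.st lab v u ((lab u v).length - n) + M.st lab u v n' := by
  have hx : (lab u v)[n]? = some (lab u v)[n] := List.getElem?_eq_getElem (by omega)
  rw [M.st_rev h1 h2 hx]
  have := M.ex_le h1 h2 hx h hn
  have := M.gt1 _ _ _ _ (M.inx h1 hx)
  linarith

end

/-- the time on the edge of the point with parameter `t` on a segment -/
noncomputable def Mid.tm (lab : V → V → List (Lab k)) (x : Sg V) (t : ℝ) : ℝ :=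
  M.st lab x.1 x.2.1 x.2.2 +
    t * (1 - M.st lab x.2.1 x.1 ((lab x.1 x.2.1).length - x.2.2) - M.st lab x.1 x.2.1 x.2.2)

theorem node_eq {lab : V → V → List (Lab k)} {u v : V} {n : ℕ} {i : Fin k} :
    node lab (u, v, n) = .inr (some i) ↔ ∃ p b, n = p + 1 ∧ (lab u v)[p]? = some (i, b) := by
  rcases n with _ | q
  · simp [node]
  · simp [node]

section
variable {lab : V → V → List (Lab k)} (h1 : ∀ u v x, x ∈ lab u v ↔ M.In u v x.1 x.2)
  (h2 : ∀ u v, (lab u v).Pairwise fun x y => M.ex u v x.1 + M.ex v u y.1 < 1)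
include h1 h2

theorem Mid.tm_opp {x : Sg V} (hx : IsSg G lab x) (t : ℝ) :
    M.tm lab (opp lab x) t = 1 - M.tm lab x (1 - t) := by
  obtain ⟨u, v, n⟩ := x
  have hn : n ≤ (lab u v).length := hx.2
  simp only [Mid.tm, opp]
  rw [M.len h1 h2 u v, show (lab u v).length - ((lab u v).length - n) = n by omega]
  ring

theorem Mid.opp_sg {x : Sg V} (hx : IsSg G lab x) : IsSg G lab (opp lab x) :=
  ⟨hx.1.symm, by simp only [opp]; rw [M.len h1 h2 x.1 x.2.1]; omega⟩

theorem Mid.opp_opp {x : Sg V} (hx : IsSg G lab x) : opp lab (opp lab x) = x := by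
  obtain ⟨u, v, n⟩ := x
  have hn : n ≤ (lab u v).length := hx.2
  simp only [opp]
  rw [M.len h1 h2 u v, show (lab u v).length - ((lab u v).length - n) = n by omega]

theorem Mid.tm_lo {x : Sg V} (hx : IsSg G lab x) {t : ℝ} (ht : 0 ≤ t) :
    M.st lab x.1 x.2.1 x.2.2 ≤ M.tm lab x t := by
  have := M.st_add h1 h2 hx.2
  unfold Mid.tm
  nlinarith

theorem Mid.tm_hi {x : Sg V} (hx : IsSg G lab x) {t : ℝ} (ht : t ≤ 1) :
    M.tm lab x t ≤ 1 - M.st lab x.2.1 x.1 ((lab x.1 x.2.1).length - x.2.2) := by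
  have := M.st_add h1 h2 hx.2
  unfold Mid.tm
  nlinarith

theorem Mid.tm_mem {x : Sg V} (hx : IsSg G lab x) {t : ℝ} (ht : t ∈ Icc (0 : ℝ) 1) :
    M.tm lab x t ∈ Icc (0 : ℝ) 1 := by
  have a1 := M.tm_lo h1 h2 hx ht.1
  have a2 := M.tm_hi h1 h2 hx ht.2
  have a3 := (M.st_bd h1 hx.2).1
  have a4 := (M.st_bd h1 (M.opp_sg h1 h2 hx).2).1
  simp only [opp] at a4
  constructor <;> linarith

theorem Mid.tm_inj {x : Sg V} (hx : IsSg G lab x) {s t : ℝ} (h : M.tm lab x s = M.tm lab x t) :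
    s = t := by
  have := M.st_add h1 h2 hx.2
  unfold Mid.tm at h
  exact mul_right_cancel₀ (by linarith) (add_left_cancel h)

/-- a segment that is before the last exit from a disc starts there or is before it -/
theorem Mid.half {u v : V} {n p : ℕ} {y : Lab k} {t : ℝ} (hx : IsSg G lab (u, v, n))
    (hy : (lab u v)[p]? = some y) (hp : p < n) (ht : 0 ≤ t)
    (h : M.tm lab (u, v, n) t ≤ M.ex u v y.1) : t = 0 ∧ n = p + 1 := by
  have a1 := M.tm_lo h1 h2 hx ht
  have a2 := M.ex_le h1 h2 hy hp hx.2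
  simp only at a1
  constructor
  · refine M.tm_inj h1 h2 hx ?_
    have : M.tm lab (u, v, n) 0 = M.st lab u v n := by simp [Mid.tm]
    linarith
  · by_contra hn
    have := M.ex_lt h1 h2 hy (n := n) (by omega) hx.2
    linarith

theorem Mid.both_half {u v : V} {n : ℕ} {i : Fin k} {b : Bool} {t : ℝ}
    (hx : IsSg G lab (u, v, n)) (hi : M.In u v i b) (ht : t ∈ Icc (0 : ℝ) 1)
    (a1 : M.tm lab (u, v, n) t ≤ M.ex u v i) (a2 : 1 - M.tm lab (u, v, n) t ≤ M.ex v u i) :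
    (t = 0 ∧ ∃ p, n = p + 1 ∧ (lab u v)[p]? = some (i, b)) ∨
      (t = 1 ∧ ∃ p, (lab u v).length - n = p + 1 ∧ (lab v u)[p]? = some (i, b)) := by
  obtain ⟨p, hp⟩ := List.getElem?_of_mem ((h1 u v (i, b)).2 hi)
  have hp' : p < (lab u v).length := (List.getElem?_eq_some_iff.1 hp).1
  rcases Nat.lt_or_ge p n with h | h
  · obtain ⟨e1, e2⟩ := M.half h1 h2 hx hp h ht.1 a1
    exact .inl ⟨e1, p, e2, hp⟩
  · have e := M.tm_opp h1 h2 hx (1 - t)
    rw [sub_sub_cancel] at e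
    obtain ⟨e1, e2⟩ := M.half h1 h2 (t := 1 - t) (M.opp_sg h1 h2 hx) (M.get_rev h1 h2 hp)
      (by show (lab u v).length - 1 - p < (lab u v).length - n; omega) (by linarith [ht.2])
      (le_of_eq_of_le e a2)
    exact .inr ⟨by linarith, _, e2, M.get_rev h1 h2 hp⟩

theorem Mid.same {u v : V} {n n' : ℕ} {s t : ℝ} (hx : IsSg G lab (u, v, n))
    (hy : IsSg G lab (u, v, n')) (hs : s ∈ Icc (0 : ℝ) 1) (ht : t ∈ Icc (0 : ℝ) 1)
    (h : M.P u v (M.tm lab (u, v, n) s) = M.P u v (M.tm lab (u, v, n') t)) : n' = n ∧ t = s := by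
  have e := M.inj u v hx.1 (M.tm_mem h1 h2 hx hs) (M.tm_mem h1 h2 hy ht) h
  have a1 := M.tm_lo h1 h2 hx hs.1
  have a2 := M.tm_hi h1 h2 hx hs.2
  have a3 := M.tm_lo h1 h2 hy ht.1
  have a4 := M.tm_hi h1 h2 hy ht.2
  simp only at a1 a2 a3 a4
  rcases lt_trichotomy n n' with c | c | c
  · have := M.st_gap h1 h2 c hy.2
    linarith
  · subst c
    exact ⟨rfl, (M.tm_inj h1 h2 hx e).symm⟩
  · have := M.st_gap h1 h2 c hx.2
    linarith

theorem Mid.pos_uniq {u v : V} {p q : ℕ} {i : Fin k} {b b' : Bool}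
    (hp : (lab u v)[p]? = some (i, b)) (hq : (lab u v)[q]? = some (i, b')) : p = q := by
  have := M.gt1 _ _ _ _ (M.inx h1 hp)
  rcases lt_trichotomy p q with c | c | c
  · have := M.pw h2 hp hq c
    linarith
  · exact c
  · have := M.pw h2 hq hp c
    linarith

theorem Mid.tm_kap {u v : V} {p : ℕ} {y : Lab k} (hy : (lab u v)[p]? = some y) :
    M.tm lab (kap lab (u, v, p + 1)) 0 = M.ex v u y.1 := by
  have hp : p < (lab u v).length := (List.getElem?_eq_some_iff.1 hy).1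
  simp only [Mid.tm, kap, zero_mul, add_zero]
  rw [← M.st_rev h1 h2 hy]
  congr 1
  omega

end

theorem Mid.nd (M : Mid k G) : Nonempty (ND k G) := by
  obtain ⟨lab, h1, h2⟩ := M.exists_lab
  have us : ∀ i, Used G lab i → ∃ x y b, M.In x y i b := by
    rintro i ⟨u, v, b, -, h⟩
    exact ⟨u, v, b, (h1 _ _ _).1 h⟩
  have t0 : ∀ x, M.tm lab x 0 = M.st lab x.1 x.2.1 x.2.2 := fun x => by simp [Mid.tm]
  have rv : ∀ x t, IsSg G lab x → M.P x.2.1 x.1 (M.tm lab (opp lab x) t) =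
      M.P x.1 x.2.1 (M.tm lab x (1 - t)) := fun x t hx => by
    rw [M.tm_opp h1 h2 hx, M.rev _ _ _ hx.1, sub_sub_cancel]
  refine ⟨{
    lab := lab
    ok := ⟨fun u v _ => M.lrev h1 h2 u v, fun u v _ => M.idx h1 h2 u v, ?_, ?_⟩
    pos := M.pos, pos_inj := M.pos_inj, h := M.h
    γ := fun x t => M.P x.1 x.2.1 (M.tm lab x t)
    cont := ?_, rev := fun x t hx => rv x t hx, start0 := ?_, start1 := ?_, vtx := ?_, off := ?_
    inj := ?_
    disj := fun i j z hi hj => M.disj i j z (us i hi) (us j hj)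
    nov := fun i v hi => M.nov i v (us i hi)
    alt := ?_, both := ?_ }⟩
  · intro u v u' v' i j x y _ _ hij a1 a2 a3 a4
    rw [h1] at a1 a2 a3 a4
    exact M.once _ _ _ _ _ _ _ _ hij a1 a2 a3 a4
  · intro u v v' i _ _ a1 a2
    rw [h1] at a1 a2
    exact M.vert _ _ _ _ a1 a2
  · intro x hx
    refine (M.cont _ _ hx.1).comp (Continuous.continuousOn ?_) fun t ht => M.tm_mem h1 h2 hx ht
    unfold Mid.tm
    fun_prop
  · intro x hx h0
    simp only [t0, h0, M.st_zero]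
    exact M.start _ _ hx.1
  · rintro ⟨u, v, n⟩ i _ hn
    obtain ⟨p, b, rfl, hp⟩ := node_eq.1 hn
    simp only [t0, M.st_succ hp]
    exact M.bd _ _ _ _ (M.inx h1 hp)
  · intro x t w hx ht
    refine M.vtx _ _ _ _ hx.1 ?_
    have a0 := M.st_add h1 h2 hx.2
    have a3 := (M.st_bd h1 hx.2).1
    have a4 := (M.st_bd h1 (M.opp_sg h1 h2 hx).2).1
    simp only [opp] at a4
    obtain ⟨b1, b2⟩ := ht
    unfold Mid.tm
    constructor <;> nlinarith
  · rintro ⟨u, v, n⟩ t i hx ht hi hn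
    have hm := M.tm_mem h1 h2 hx ht
    obtain ⟨⟨b, hb⟩, a1⟩ := M.off u v _ i hx.1 hm (us i hi) hn
    obtain ⟨-, a2⟩ := M.off v u (1 - M.tm lab (u, v, n) t) i hx.1.symm
      ⟨by linarith [hm.2], by linarith [hm.1]⟩ (us i hi)
      (by rw [M.rev _ _ _ hx.1, sub_sub_cancel]; exact hn)
    rcases M.both_half h1 h2 hx hb ht a1 a2 with ⟨e, p, e1, e2⟩ | ⟨e, p, e1, e2⟩
    · exact .inl ⟨e, node_eq.2 ⟨p, b, e1, e2⟩⟩
    · exact .inr ⟨e, node_eq.2 ⟨p, b, e1, e2⟩⟩
  · rintro ⟨u, v, n⟩ ⟨u', v', n'⟩ s t hx hy hs ht he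
    by_cases c : s(u, v) = s(u', v')
    · rcases Sym2.eq_iff.1 c with ⟨rfl, rfl⟩ | ⟨rfl, rfl⟩
      · obtain ⟨e1, e2⟩ := M.same h1 h2 hx hy hs ht he
        exact .inl ⟨by rw [e1], e2⟩
      · have e := rv (v, u, n') (1 - t) hy
        rw [sub_sub_cancel] at e
        obtain ⟨e1, e2⟩ := M.same h1 h2 hx (M.opp_sg h1 h2 hy) hs
          (t := 1 - t) ⟨by linarith [ht.2], by linarith [ht.1]⟩ (he.trans e.symm)
        refine .inr (.inl ⟨?_, by linarith⟩)
        rw [← M.opp_opp h1 h2 hy]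
        congr 1
        exact Prod.ext rfl (Prod.ext rfl e1)
    · rcases M.crs u v u' v' _ _ hx.1 hy.1 c (M.tm_mem h1 h2 hx hs) (M.tm_mem h1 h2 hy ht) he
        with h | ⟨i, b, hi, a1, a2⟩
      · exact .inr (.inr h)
      · exfalso
        rcases M.both_half h1 h2 hx hi hs a1.le a2.le with ⟨rfl, p, rfl, e2⟩ | ⟨rfl, p, e1, e2⟩
        · rw [t0, M.st_succ e2] at a1
          exact lt_irrefl _ a1
        · have e := M.tm_opp h1 h2 hx 0
          rw [sub_zero, t0] at e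
          simp only [opp] at e
          rw [e1, M.st_succ e2] at e
          exact absurd a2 (by rw [← e]; exact lt_irrefl _)
  · rintro ⟨u, v, n⟩ ⟨u', v', n'⟩ i hx hy hn hn' c1 c2
    obtain ⟨p, b, rfl, hp⟩ := node_eq.1 hn
    obtain ⟨q, b', rfl, hq⟩ := node_eq.1 hn'
    have hne : s(u, v) ≠ s(u', v') := by
      intro c
      rcases Sym2.eq_iff.1 c with ⟨rfl, rfl⟩ | ⟨rfl, rfl⟩
      · exact c1 (by rw [M.pos_uniq h1 h2 hp hq])
      · have hp' : p < (lab u v).length := (List.getElem?_eq_some_iff.1 hp).1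
        have := M.pos_uniq h1 h2 (M.get_rev h1 h2 hp) hq
        refine c2 (Prod.ext rfl (Prod.ext rfl ?_))
        simp only [kap]
        omega
    have key := M.alt u v u' v' i b b' (M.inx h1 hp) (M.inx h1 hq) hne
    have l1 : lb lab (u, v, p + 1) = some (i, b) := hp
    have l2 : lb lab (u', v', q + 1) = some (i, b') := hq
    rw [M.tm_kap h1 h2 hp, M.tm_kap h1 h2 hq, t0, t0, M.st_succ hp, M.st_succ hq, l1, l2]
    simp only [ne_eq, Option.some.injEq, Prod.mk.injEq, true_and]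
    exact key
  · intro i b hi
    obtain ⟨u, v, h⟩ := M.both i b (us i hi)
    exact ⟨u, v, M.adj _ _ _ _ h, (h1 u v (i, b)).2 h⟩

end NDa

end Pool.Agent.Lib.MP_c1f5fe_lc
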