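import Pool.Agent.Lib.MP_c1f5fe_lc.SpecA
import Pool.Agent.Lib.MP_d32f96_gt.All

/-! Plane topology for the normal form: disjoint discs and alternation across an annulus. -/

namespace Pool.Agent.Lib.MP_c1f5fe_lc

open Set Function Metric Bornology

namespace NDb

theorem disc {U K : Set ℂ} (hU : IsClosed U) (hUc : IsPreconnected U) (hUb : IsBounded Uᶜ)
    (hK : IsCompact K) (hKc : IsPreconnected K) (hne : K.Nonempty) (hd : Disjoint K U) :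
    ∃ h : ℂ ≃ₜ ℂ, (∀ z ∈ K, ‖h.symm z‖ < 1) ∧ ∀ z ∈ U, 1 < ‖h.symm z‖ := by
  obtain ⟨x, hx⟩ := hne
  have hKU : K ⊆ Uᶜ := hd.subset_compl_right
  have hsub : connectedComponentIn Uᶜ x ⊆ Uᶜ := connectedComponentIn_subset _ _
  have hKO : K ⊆ connectedComponentIn Uᶜ x := hKc.subset_connectedComponentIn hx hKU
  obtain ⟨h, -, h1, h2⟩ := MP_d32f96_gt.tJS K _ hK hU.isOpen_compl.connectedComponentIn
    (hUb.subset hsub) isPreconnected_connectedComponentIn ⟨x, hKO hx⟩ hKO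
  refine ⟨h, fun z hz => ?_, fun z hz => ?_⟩
  · obtain ⟨w, hw, rfl⟩ := h1 hz
    simpa using hw
  · by_contra hn
    have h3 : z ∈ MP_d32f96_gt.fill (connectedComponentIn Uᶜ x) :=
      h2 ⟨h.symm z, by simpa using hn, by simp⟩
    have h4 : U ⊆ connectedComponentIn (connectedComponentIn Uᶜ x)ᶜ z :=
      hUc.subset_connectedComponentIn hz fun y hy h' => hsub h' hy
    have h5 : IsBounded U := IsBounded.subset h3 h4
    have h6 := h5.union hUb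
    rw [union_compl_self] at h6
    exact NormedSpace.unbounded_univ ℝ ℂ h6

theorem le_eq (h : ℂ ≃ₜ ℂ) : {z | ‖h.symm z‖ ≤ 1} = h '' closedBall 0 1 := by
  ext z
  constructor
  · intro hz
    exact ⟨h.symm z, by simpa using hz, by simp⟩
  · rintro ⟨w, hw, rfl⟩
    simpa using hw

theorem ge_eq (h : ℂ ≃ₜ ℂ) : {z | 1 ≤ ‖h.symm z‖} = h '' {z | 1 ≤ ‖z‖} := by
  ext z
  constructor
  · intro hz
    exact ⟨h.symm z, hz, by simp⟩
  · rintro ⟨w, hw, rfl⟩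
    simpa using hw

theorem le_compact (h : ℂ ≃ₜ ℂ) : IsCompact {z | ‖h.symm z‖ ≤ 1} := by
  rw [le_eq]
  exact (isCompact_closedBall _ _).image h.continuous

theorem le_conn (h : ℂ ≃ₜ ℂ) : IsPreconnected {z | ‖h.symm z‖ ≤ 1} := by
  rw [le_eq]
  exact (convex_closedBall _ _).isPreconnected.image _ h.continuous.continuousOn

theorem ge_conn (h : ℂ ≃ₜ ℂ) : IsPreconnected {z | 1 ≤ ‖h.symm z‖} := by
  rw [ge_eq]
  exact (MP_d32f96_gt.preconn_out 1).image _ h.continuous.continuousOn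

theorem ge_closed (h : ℂ ≃ₜ ℂ) : IsClosed {z | 1 ≤ ‖h.symm z‖} :=
  isClosed_le continuous_const h.symm.continuous.norm

/-- a connected set together with connected sets that meet it -/
theorem conn_union {ι : Type} {A : Set ℂ} {B : ι → Set ℂ} (hA : IsPreconnected A)
    (hB : ∀ i, IsPreconnected (B i)) (hm : ∀ i, (B i).Nonempty → (A ∩ B i).Nonempty)
    (hne : A.Nonempty) : IsPreconnected (A ∪ ⋃ i, B i) := by
  obtain ⟨x, hx⟩ := hne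
  refine isPreconnected_of_forall x ?_
  rintro y (hy | hy)
  · exact ⟨A, subset_union_left, hx, hy, hA⟩
  · obtain ⟨i, hi⟩ := mem_iUnion.1 hy
    exact ⟨A ∪ B i, union_subset_union_right _ (subset_iUnion _ i), .inl hx, .inr hi,
      hA.union' (hm i ⟨y, hi⟩) (hB i)⟩

theorem discs {ι : Type} [Finite ι] {U K : ι → Set ℂ} (hU : ∀ i, IsClosed (U i))
    (hUc : ∀ i, IsPreconnected (U i)) (hUb : ∀ i, IsBounded (U i)ᶜ) (hK : ∀ i, IsCompact (K i))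
    (hKc : ∀ i, IsPreconnected (K i)) (hne : ∀ i, (K i).Nonempty)
    (hd : ∀ i, Disjoint (K i) (U i)) (hs : ∀ i j, i ≠ j → K i ⊆ U j) :
    ∃ h : ι → ℂ ≃ₜ ℂ, (∀ i, ∀ z ∈ K i, ‖(h i).symm z‖ < 1) ∧
      (∀ i, ∀ z ∈ U i, 1 < ‖(h i).symm z‖) ∧
      ∀ i j z, ‖(h i).symm z‖ ≤ 1 → ‖(h j).symm z‖ ≤ 1 → i = j := by
  classical
  have key : ∀ s : Finset ι, ∃ h : ι → ℂ ≃ₜ ℂ, (∀ i ∈ s, ∀ z ∈ K i, ‖(h i).symm z‖ < 1) ∧
      (∀ i ∈ s, ∀ z ∈ U i, 1 < ‖(h i).symm z‖) ∧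
      ∀ i ∈ s, ∀ j ∈ s, ∀ z, ‖(h i).symm z‖ ≤ 1 → ‖(h j).symm z‖ ≤ 1 → i = j := by
    intro s
    induction s using Finset.induction_on with
    | empty => exact ⟨fun _ => Homeomorph.refl ℂ, by simp, by simp, by simp⟩
    | insert j s hj ih =>
      obtain ⟨h, h1, h2, h3⟩ := ih
      have hun : (U j).Nonempty := by
        by_contra hn
        have := hUb j
        rw [not_nonempty_iff_eq_empty.1 hn, compl_empty] at this
        exact NormedSpace.unbounded_univ ℝ ℂ this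
      obtain ⟨g, g1, g2⟩ := disc (U := U j ∪ ⋃ i : s, {z | ‖(h i).symm z‖ ≤ 1}) (K := K j)
        ((hU j).union (isClosed_iUnion_of_finite fun i => (le_compact _).isClosed))
        (conn_union (hUc j) (fun i => le_conn _) (fun i _ => by
          obtain ⟨x, hx⟩ := hne i
          exact ⟨x, hs i j (fun e => hj (e ▸ i.2)) hx, (h1 i i.2 x hx).le⟩) hun)
        ((hUb j).subset (compl_subset_compl.2 subset_union_left)) (hK j) (hKc j) (hne j) (by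
          rw [disjoint_union_right, disjoint_iUnion_right]
          refine ⟨hd j, fun i => disjoint_left.2 fun z hz hz' => ?_⟩
          exact absurd (h2 i i.2 z (hs j i (fun e => hj (e ▸ i.2)) hz)) (not_lt.2 hz'))
      have hne' : ∀ i ∈ s, i ≠ j := fun i hi e => hj (e ▸ hi)
      refine ⟨update h j g, ?_, ?_, ?_⟩
      · intro i hi z hz
        rcases Finset.mem_insert.1 hi with rfl | hi
        · rw [update_self]; exact g1 z hz
        · rw [update_of_ne (hne' i hi)]; exact h1 i hi z hz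
      · intro i hi z hz
        rcases Finset.mem_insert.1 hi with rfl | hi
        · rw [update_self]; exact g2 z (.inl hz)
        · rw [update_of_ne (hne' i hi)]; exact h2 i hi z hz
      · intro i hi i' hi' z a1 a2
        rcases Finset.mem_insert.1 hi with e | hi <;> rcases Finset.mem_insert.1 hi' with e' | hi'
        · rw [e, e']
        · rw [e, update_self] at a1
          rw [update_of_ne (hne' _ hi')] at a2
          exact absurd (g2 z (.inr (mem_iUnion.2 ⟨⟨i', hi'⟩, a2⟩))) (not_lt.2 a1)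
        · rw [e', update_self] at a2
          rw [update_of_ne (hne' _ hi)] at a1
          exact absurd (g2 z (.inr (mem_iUnion.2 ⟨⟨i, hi⟩, a1⟩))) (not_lt.2 a2)
        · rw [update_of_ne (hne' _ hi)] at a1
          rw [update_of_ne (hne' _ hi')] at a2
          exact h3 i hi i' hi' z a1 a2
  haveI := Fintype.ofFinite ι
  obtain ⟨h, h1, h2, h3⟩ := key Finset.univ
  exact ⟨h, fun i => h1 i (Finset.mem_univ _), fun i => h2 i (Finset.mem_univ _),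
    fun i j => h3 i (Finset.mem_univ _) j (Finset.mem_univ _)⟩

theorem arc_facts {A : Set ℂ} {p q : ℂ} (h : IsArc A p q) :
    IsCompact A ∧ IsPreconnected A ∧ p ∈ A ∧ q ∈ A := by
  obtain ⟨γ, hc, -, rfl, rfl, rfl⟩ := h
  exact ⟨isCompact_Icc.image_of_continuousOn hc, isPreconnected_Icc.image _ hc,
    ⟨0, by simp, rfl⟩, ⟨1, by simp, rfl⟩⟩

/-- `T` joins the point `p` of one circle to the point `q` of another one -/
structure Tail (g h : ℂ ≃ₜ ℂ) (T : Set ℂ) (p q : ℂ) : Prop where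
  cpt : IsCompact T
  con : IsPreconnected T
  pm : p ∈ T
  qm : q ∈ T
  p1 : ‖g.symm p‖ = 1
  q1 : ‖h.symm q‖ = 1
  pu : ∀ z ∈ T, ‖g.symm z‖ = 1 → z = p
  qu : ∀ z ∈ T, ‖h.symm z‖ = 1 → z = q

theorem Tail.symm {g h : ℂ ≃ₜ ℂ} {T : Set ℂ} {p q : ℂ} (t : Tail g h T p q) : Tail h g T q p :=
  ⟨t.cpt, t.con, t.qm, t.pm, t.q1, t.p1, t.qu, t.pu⟩

theorem transfer (hA : AltSt) (R : ℝ → Prop)
    (hR : ∀ (A B : Set ℂ) (a a' b b' : ℂ), IsCompact A → IsPreconnected A → IsCompact B →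
      IsPreconnected B → Disjoint A B → (∀ z ∈ A ∪ B, R ‖z‖) → a ∈ A → a' ∈ A → b ∈ B →
      b' ∈ B → ‖a‖ = 1 → ‖a'‖ = 1 → ‖b‖ = 1 → ‖b'‖ = 1 → ¬Alt a a' b b')
    {g h : ℂ ≃ₜ ℂ} {T₁ T₂ T₃ T₄ : Set ℂ} {p₁ p₂ p₃ p₄ q₁ q₂ q₃ q₄ : ℂ}
    (t₁ : Tail g h T₁ p₁ q₁) (t₂ : Tail g h T₂ p₂ q₂) (t₃ : Tail g h T₃ p₃ q₃)
    (t₄ : Tail g h T₄ p₄ q₄) (d₁ : Disjoint T₁ T₂) (d₂ : Disjoint T₃ T₄)
    (d : Disjoint (T₁ ∪ T₂) (T₃ ∪ T₄)) (hT : ∀ z ∈ T₁ ∪ T₂ ∪ (T₃ ∪ T₄), R ‖g.symm z‖)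
    (hc : ∀ z, ‖h.symm z‖ = 1 → R ‖g.symm z‖)
    (hn : ¬Alt (h.symm q₁) (h.symm q₂) (h.symm q₃) (h.symm q₄)) :
    ¬Alt (g.symm p₁) (g.symm p₂) (g.symm p₃) (g.symm p₄) := by
  have n12 : q₁ ≠ q₂ := fun e => disjoint_left.1 d₁ t₁.qm (e ▸ t₂.qm)
  have n34 : q₃ ≠ q₄ := fun e => disjoint_left.1 d₂ t₃.qm (e ▸ t₄.qm)
  have n13 : q₁ ≠ q₃ := fun e => disjoint_left.1 d (.inl t₁.qm) (.inl (e ▸ t₃.qm))
  have n14 : q₁ ≠ q₄ := fun e => disjoint_left.1 d (.inl t₁.qm) (.inr (e ▸ t₄.qm))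
  have n23 : q₂ ≠ q₃ := fun e => disjoint_left.1 d (.inr t₂.qm) (.inl (e ▸ t₃.qm))
  have n24 : q₂ ≠ q₄ := fun e => disjoint_left.1 d (.inr t₂.qm) (.inr (e ▸ t₄.qm))
  obtain ⟨A, B, hA', hB', hAB, hs⟩ := hA.arcs _ _ _ _ t₁.q1 t₂.q1 t₃.q1 t₄.q1
    (by simp [n12, n13, n14, n23, n24, n34]) hn
  obtain ⟨A1, A2, A3, A4⟩ := arc_facts hA'
  obtain ⟨B1, B2, B3, B4⟩ := arc_facts hB'
  have mk : ∀ {S T T' : Set ℂ} {p q p' q' : ℂ}, IsCompact S → IsPreconnected S → h.symm q ∈ S →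
      h.symm q' ∈ S → Tail g h T p q → Tail g h T' p' q' →
      IsCompact (g.symm '' (T ∪ h '' S ∪ T')) ∧ IsPreconnected (g.symm '' (T ∪ h '' S ∪ T')) := by
    intro S T T' p q p' q' s1 s2 s3 s4 t t'
    refine ⟨((t.cpt.union (s1.image h.continuous)).union t'.cpt).image g.symm.continuous,
      IsPreconnected.image ?_ _ g.symm.continuous.continuousOn⟩
    have u1 : IsPreconnected (T ∪ h '' S) := IsPreconnected.union q t.qm ⟨_, s3, by simp⟩ t.con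
      (s2.image _ h.continuous.continuousOn)
    exact IsPreconnected.union q' (.inr ⟨_, s4, by simp⟩) t'.qm u1 t'.con
  obtain ⟨c1, c2⟩ := mk A1 A2 A3 A4 t₁ t₂
  obtain ⟨c3, c4⟩ := mk B1 B2 B3 B4 t₃ t₄
  have ab := disjoint_left.1 hAB
  have dd := disjoint_left.1 d
  refine hR _ _ _ _ _ _ c1 c2 c3 c4 ?_ ?_ ⟨_, .inl (.inl t₁.pm), rfl⟩ ⟨_, .inr t₂.pm, rfl⟩
    ⟨_, .inl (.inl t₃.pm), rfl⟩ ⟨_, .inr t₄.pm, rfl⟩ t₁.p1 t₂.p1 t₃.p1 t₄.p1
  · rw [disjoint_image_iff g.symm.injective, disjoint_left]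
    rintro z ((a | ⟨w, a, rfl⟩) | a) ((b | ⟨w', b, e⟩) | b)
    · exact dd (.inl a) (.inl b)
    · have := t₁.qu z a (by rw [← e]; simpa using hs w' (.inr b))
      refine ab A3 ?_
      rwa [← this, ← e, h.symm_apply_apply]
    · exact dd (.inl a) (.inr b)
    · have := t₃.qu _ b (by simpa using hs w (.inl a))
      refine ab a ?_
      rwa [← this, h.symm_apply_apply] at B3
    · exact ab a (h.injective e ▸ b)
    · have := t₄.qu _ b (by simpa using hs w (.inl a))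
      refine ab a ?_
      rwa [← this, h.symm_apply_apply] at B4
    · exact dd (.inr a) (.inl b)
    · have := t₂.qu z a (by rw [← e]; simpa using hs w' (.inr b))
      refine ab A4 ?_
      rwa [← this, ← e, h.symm_apply_apply]
    · exact dd (.inr a) (.inr b)
  · rintro _ (⟨z, (a | ⟨w, a, rfl⟩) | a, rfl⟩ | ⟨z, (a | ⟨w, a, rfl⟩) | a, rfl⟩)
    · exact hT z (.inl (.inl a))
    · exact hc _ (by simpa using hs w (.inl a))
    · exact hT z (.inl (.inr a))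
    · exact hT z (.inr (.inl a))
    · exact hc _ (by simpa using hs w (.inr a))
    · exact hT z (.inr (.inr a))

theorem annulus (hA : AltSt) {g h : ℂ ≃ₜ ℂ} {T₁ T₂ T₃ T₄ : Set ℂ}
    {p₁ p₂ p₃ p₄ q₁ q₂ q₃ q₄ : ℂ}
    (t₁ : Tail g h T₁ p₁ q₁) (t₂ : Tail g h T₂ p₂ q₂) (t₃ : Tail g h T₃ p₃ q₃)
    (t₄ : Tail g h T₄ p₄ q₄) (d₁ : Disjoint T₁ T₂) (d₂ : Disjoint T₃ T₄)
    (d : Disjoint (T₁ ∪ T₂) (T₃ ∪ T₄))
    (hT : ∀ z ∈ T₁ ∪ T₂ ∪ (T₃ ∪ T₄), ‖g.symm z‖ ≤ 1 ∧ 1 ≤ ‖h.symm z‖)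
    (hc : ∀ z, 1 ≤ ‖g.symm z‖ → 1 < ‖h.symm z‖) :
    Alt (h.symm q₁) (h.symm q₂) (h.symm q₃) (h.symm q₄) ↔
      Alt (g.symm p₁) (g.symm p₂) (g.symm p₃) (g.symm p₄) := by
  rw [← not_iff_not]
  constructor
  · refine transfer hA (· ≤ 1) hA.ins t₁ t₂ t₃ t₄ d₁ d₂ d (fun z hz => (hT z hz).1) ?_
    intro z hz
    by_contra hn
    exact (hc z (not_le.1 hn).le).ne' hz
  · exact transfer hA (1 ≤ ·) hA.out t₁.symm t₂.symm t₃.symm t₄.symm d₁ d₂ d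
      (fun z hz => (hT z hz).2) fun z hz => (hc z hz.ge).le

/-- the last time at which `P` is in `S` -/
noncomputable def last (P : ℝ → ℂ) (S : Set ℂ) : ℝ := sSup {t | t ∈ Icc (0 : ℝ) 1 ∧ P t ∈ S}

theorem le_last {P : ℝ → ℂ} {S : Set ℂ} {t : ℝ} (ht : t ∈ Icc (0 : ℝ) 1) (h : P t ∈ S) :
    t ≤ last P S :=
  le_csSup ⟨1, fun _ hx => hx.1.2⟩ ⟨ht, h⟩

theorem last_mem {P : ℝ → ℂ} {S : Set ℂ} (hP : ContinuousOn P (Icc 0 1)) (hS : IsClosed S)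
    {t : ℝ} (ht : t ∈ Icc (0 : ℝ) 1) (h : P t ∈ S) :
    last P S ∈ Icc (0 : ℝ) 1 ∧ P (last P S) ∈ S := by
  have hc : IsClosed {t | t ∈ Icc (0 : ℝ) 1 ∧ P t ∈ S} :=
    hP.preimage_isClosed_of_isClosed isClosed_Icc hS
  exact hc.csSup_mem ⟨t, ht, h⟩ ⟨1, fun _ hx => hx.1.2⟩

theorem last_bd {P : ℝ → ℂ} (h : ℂ ≃ₜ ℂ) (hP : ContinuousOn P (Icc 0 1))
    (h1 : 1 < ‖h.symm (P 1)‖) {t : ℝ} (ht : t ∈ Icc (0 : ℝ) 1) (hm : ‖h.symm (P t)‖ ≤ 1) :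
    last P {z | ‖h.symm z‖ ≤ 1} ∈ Ico (0 : ℝ) 1 ∧
      ‖h.symm (P (last P {z | ‖h.symm z‖ ≤ 1}))‖ = 1 := by
  obtain ⟨a1, a2⟩ := last_mem hP (le_compact h).isClosed ht hm
  set L := last P {z | ‖h.symm z‖ ≤ 1} with hL
  have a3 : L < 1 := lt_of_le_of_ne a1.2 fun e => by
    rw [e] at a2
    exact absurd h1 (not_lt.2 a2)
  refine ⟨⟨a1.1, a3⟩, ?_⟩
  have hc : ContinuousOn (fun t => ‖h.symm (P t)‖) (Icc L 1) :=
    (h.symm.continuous.norm.comp_continuousOn hP).mono (Icc_subset_Icc_left a1.1)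
  obtain ⟨s, hs, e⟩ := intermediate_value_Icc a3.le hc ⟨a2, h1.le⟩
  have : s ≤ L := le_last ⟨a1.1.trans hs.1, hs.2⟩ (le_of_eq e)
  rw [← le_antisymm this hs.1]
  exact e

end NDb

end Pool.Agent.Lib.MP_c1f5fe_lc
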