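import Pool.Agent.Lib.MP_c1f5fe_lc.NDa
import Pool.Agent.Lib.MP_c1f5fe_lc.NDb

/-! Shrinking the pseudodisks to pairwise disjoint discs. -/

namespace Pool.Agent.Lib.MP_c1f5fe_lc

open Set Function Metric Bornology

namespace NDc

open NDa NDb

/-- parametrised edges together with the pseudodisks of the bundled crossings -/
structure Pre (m : ℕ) {V : Type} (G : SimpleGraph V) where
  pos : V → ℂ
  pos_inj : Injective pos
  P : V → V → ℝ → ℂ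
  In : V → V → Fin m → Bool → Prop
  g : Fin m → ℂ ≃ₜ ℂ
  C : Fin m → Set ℂ
  cont : ∀ u v, G.Adj u v → ContinuousOn (P u v) (Icc 0 1)
  inj : ∀ u v, G.Adj u v → InjOn (P u v) (Icc 0 1)
  rev : ∀ u v t, G.Adj u v → P v u t = P u v (1 - t)
  start : ∀ u v, G.Adj u v → P u v 0 = pos u
  vtx : ∀ u v t w, G.Adj u v → t ∈ Ioo (0 : ℝ) 1 → P u v t ≠ pos w
  adj : ∀ u v i b, In u v i b → G.Adj u v
  sym : ∀ u v i b, In u v i b → In v u i b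
  fn : ∀ u v i b b', In u v i b → In u v i b' → b = b'
  cls : ∀ i, IsClosed (C i)
  Cin : ∀ i, ∀ z ∈ C i, ‖(g i).symm z‖ < 1
  Cout : ∀ i j, ∀ z ∈ C j, ‖(g i).symm z‖ ≤ 1 → j = i
  nov : ∀ i v, 1 < ‖(g i).symm (pos v)‖
  meet : ∀ u v t i, G.Adj u v → t ∈ Icc (0 : ℝ) 1 → ‖(g i).symm (P u v t)‖ ≤ 1 →
    ∃ b, In u v i b
  crs : ∀ u v u' v' s t, G.Adj u v → G.Adj u' v' → s(u, v) ≠ s(u', v') → s ∈ Icc (0 : ℝ) 1 →
    t ∈ Icc (0 : ℝ) 1 → P u v s = P u' v' t → P u v s ∈ range pos ∨ ∃ i, P u v s ∈ C i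
  pair : ∀ u v u' v' i b, In u v i b → In u' v' i (!b) → ∃ p ∈ C i, p ∈ P u v '' Icc 0 1 ∧
    p ∈ P u' v' '' Icc 0 1 ∧ ProperCross (P u v '' Icc 0 1) (P u' v' '' Icc 0 1) p
  one : ∀ u v u' v', G.Adj u v → G.Adj u' v' → s(u, v) ≠ s(u', v') →
    (P u v '' Icc 0 1 ∩ P u' v' '' Icc 0 1).Subsingleton
  same : ∀ u v u' v' i b z, In u v i b → In u' v' i b → s(u, v) ≠ s(u', v') →
    z ∈ P u v '' Icc 0 1 → z ∈ P u' v' '' Icc 0 1 → 1 < ‖(g i).symm z‖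
  conn : ∀ u v i b, In u v i b → IsPreconnected (P u v '' Icc 0 1 ∩ {z | ‖(g i).symm z‖ ≤ 1})
  two : ∀ u v i, G.Adj u v → (P u v '' Icc 0 1 ∩ {z | ‖(g i).symm z‖ = 1}).encard ≤ 2
  both : ∀ i b, ∃ u v, In u v i b

variable {V : Type} {G : SimpleGraph V} {m : ℕ} (Q : Pre m G)

theorem flip {t : ℝ} (ht : t ∈ Icc (0 : ℝ) 1) : 1 - t ∈ Icc (0 : ℝ) 1 :=
  ⟨by linarith [ht.2], by linarith [ht.1]⟩

namespace Pre

noncomputable def β (u v : V) (i : Fin m) : ℝ := last (Q.P u v) (Q.C i)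

noncomputable def τ (u v : V) (i : Fin m) : ℝ := last (Q.P u v) {z | ‖(Q.g i).symm z‖ ≤ 1}

variable {Q} {u v u' v' : V} {i j : Fin m} {b b' : Bool} {s t : ℝ}

theorem rev' (h : G.Adj u v) (t : ℝ) : Q.P v u (1 - t) = Q.P u v t := by
  rw [Q.rev _ _ _ h, sub_sub_cancel]

theorem stop (h : G.Adj u v) : Q.P u v 1 = Q.pos v := by
  rw [← Q.start v u h.symm, Q.rev _ _ _ h, sub_zero]

theorem ne_of (h : Q.In u v i b) (h' : Q.In u' v' i (!b)) : s(u, v) ≠ s(u', v') := by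
  intro c
  rcases Sym2.eq_iff.1 c with ⟨rfl, rfl⟩ | ⟨rfl, rfl⟩
  · simpa using Q.fn _ _ _ _ _ h h'
  · simpa using Q.fn _ _ _ _ _ h (Q.sym _ _ _ _ h')

theorem β_spec (h : Q.In u v i b) : Q.β u v i ∈ Icc (0 : ℝ) 1 ∧ Q.P u v (Q.β u v i) ∈ Q.C i := by
  obtain ⟨x, y, hxy⟩ := Q.both i (!b)
  obtain ⟨p, hp, ⟨t, ht, rfl⟩, -⟩ := Q.pair _ _ _ _ _ _ h hxy
  exact last_mem (Q.cont _ _ (Q.adj _ _ _ _ h)) (Q.cls i) ht hp

theorem β_le (h : G.Adj u v) (ht : t ∈ Icc (0 : ℝ) 1) (hc : Q.P u v t ∈ Q.C i) :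
    t ≤ Q.β u v i ∧ 1 - t ≤ Q.β v u i :=
  ⟨le_last ht hc, le_last (flip ht) (by rw [rev' h]; exact hc)⟩

theorem β_ge (h : Q.In u v i b) : 1 ≤ Q.β u v i + Q.β v u i := by
  have := (β_le (Q.adj _ _ _ _ h) (β_spec h).1 (β_spec h).2).2
  linarith

theorem τ_spec (h : Q.In u v i b) :
    Q.τ u v i ∈ Ico (0 : ℝ) 1 ∧ ‖(Q.g i).symm (Q.P u v (Q.τ u v i))‖ = 1 :=
  last_bd (Q.g i) (Q.cont _ _ (Q.adj _ _ _ _ h))
    (by rw [stop (Q.adj _ _ _ _ h)]; exact Q.nov _ _) (β_spec h).1 (Q.Cin _ _ (β_spec h).2).le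

theorem τ_le (h : G.Adj u v) (ht : t ∈ Icc (0 : ℝ) 1) (hc : ‖(Q.g i).symm (Q.P u v t)‖ ≤ 1) :
    t ≤ Q.τ u v i ∧ 1 - t ≤ Q.τ v u i :=
  ⟨le_last ht hc, le_last (flip ht) (by rw [rev' h]; exact hc)⟩

theorem β_lt (h : Q.In u v i b) : Q.β u v i < Q.τ u v i := by
  have a := Q.Cin _ _ (β_spec h).2
  refine lt_of_le_of_ne (τ_le (Q.adj _ _ _ _ h) (β_spec h).1 a.le).1 fun e => ?_
  rw [e, (τ_spec h).2] at a
  exact lt_irrefl _ a

theorem inD (h : Q.In u v i b) (a1 : t ≤ Q.τ u v i) (a2 : 1 - t ≤ Q.τ v u i) :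
    ‖(Q.g i).symm (Q.P u v t)‖ ≤ 1 := by
  have ha := Q.adj _ _ _ _ h
  obtain ⟨b1, b2⟩ := τ_spec h
  obtain ⟨b3, b4⟩ := τ_spec (Q.sym _ _ _ _ h)
  have t0 : 0 ≤ t := by linarith [b3.2]
  have t1 : t ≤ 1 := by linarith [b1.2]
  have hc := Q.cont _ _ ha
  obtain ⟨z, hz, ⟨s, hs, rfl⟩, s', hs', e⟩ := isPreconnected_closed_iff.1 (Q.conn _ _ _ _ h)
    (Q.P u v '' Icc 0 t) (Q.P u v '' Icc t 1)
    (isCompact_Icc.image_of_continuousOn (hc.mono (Icc_subset_Icc_right t1))).isClosed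
    (isCompact_Icc.image_of_continuousOn (hc.mono (Icc_subset_Icc_left t0))).isClosed
    (by
      rintro _ ⟨⟨s, hs, rfl⟩, -⟩
      rcases le_total s t with c | c
      · exact .inl ⟨s, ⟨hs.1, c⟩, rfl⟩
      · exact .inr ⟨s, ⟨c, hs.2⟩, rfl⟩)
    ⟨Q.P u v (1 - Q.τ v u i), ⟨⟨_, flip ⟨b3.1, b3.2.le⟩, rfl⟩, by
      rw [← Q.rev _ _ _ ha]; exact b4.le⟩, _, ⟨by linarith [b3.2], by linarith⟩, rfl⟩
    ⟨Q.P u v (Q.τ u v i), ⟨⟨_, ⟨b1.1, b1.2.le⟩, rfl⟩, b2.le⟩, _, ⟨a1, b1.2.le⟩, rfl⟩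
  have := Q.inj _ _ ha ⟨t0.trans hs'.1, hs'.2⟩ ⟨hs.1, hs.2.trans t1⟩ e
  have e2 : s = t := le_antisymm hs.2 (this ▸ hs'.1)
  rw [← e2]
  exact hz.2

theorem τ_gt (h : Q.In u v i b) : 1 < Q.τ u v i + Q.τ v u i := by
  have := β_ge h
  have := β_lt h
  have := β_lt (Q.sym _ _ _ _ h)
  linarith

theorem bd_uniq (h : Q.In u v i b) (ht : t ∈ Icc (0 : ℝ) 1)
    (hn : ‖(Q.g i).symm (Q.P u v t)‖ = 1) : t = Q.τ u v i ∨ t = 1 - Q.τ v u i := by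
  by_contra c
  rw [not_or] at c
  have ha := Q.adj _ _ _ _ h
  obtain ⟨b1, b2⟩ := τ_spec h
  obtain ⟨b3, b4⟩ := τ_spec (Q.sym _ _ _ _ h)
  have m1 : Q.τ u v i ∈ Icc (0 : ℝ) 1 := ⟨b1.1, b1.2.le⟩
  have m2 : 1 - Q.τ v u i ∈ Icc (0 : ℝ) 1 := flip ⟨b3.1, b3.2.le⟩
  have e3 : ({Q.P u v t, Q.P u v (Q.τ u v i), Q.P u v (1 - Q.τ v u i)} : Set ℂ).encard = 3 :=
    encard_eq_three.2 ⟨_, _, _, fun e => c.1 (Q.inj _ _ ha ht m1 e),
      fun e => c.2 (Q.inj _ _ ha ht m2 e),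
      fun e => by have := Q.inj _ _ ha m1 m2 e; linarith [τ_gt h], rfl⟩
  have := (encard_le_encard (s := {Q.P u v t, Q.P u v (Q.τ u v i), Q.P u v (1 - Q.τ v u i)})
    (by
      rintro z (rfl | rfl | rfl)
      · exact ⟨⟨_, ht, rfl⟩, hn⟩
      · exact ⟨⟨_, m1, rfl⟩, b2⟩
      · exact ⟨⟨_, m2, rfl⟩, by rw [← Q.rev _ _ _ ha]; exact b4⟩)).trans (Q.two u v i ha)
  rw [e3] at this
  exact absurd this (by decide)

theorem piece_mem (h : Q.In u v i b) (ht : t ∈ Icc (1 - Q.β v u i) (Q.β u v i)) :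
    t ∈ Icc (0 : ℝ) 1 :=
  ⟨by linarith [ht.1, (β_spec (Q.sym _ _ _ _ h)).1.2], ht.2.trans (β_spec h).1.2⟩

theorem piece_lt (h : Q.In u v i b) (ht : t ∈ Icc (1 - Q.β v u i) (Q.β u v i)) :
    ‖(Q.g i).symm (Q.P u v t)‖ < 1 := by
  have a1 := β_lt h
  have a2 := β_lt (Q.sym _ _ _ _ h)
  refine lt_of_le_of_ne (inD h (by linarith [ht.2]) (by linarith [ht.1])) fun e => ?_
  rcases bd_uniq h (piece_mem h ht) e with c | c <;> linarith [ht.1, ht.2]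

theorem sep (h : Q.In u v i b) (h' : Q.In u v j b') (hij : i ≠ j) :
    Q.β u v i + Q.β v u j < 1 ∨ Q.β u v j + Q.β v u i < 1 := by
  have key : ∀ {i j b b'}, Q.In u v i b → Q.In u v j b' → i ≠ j →
      1 - Q.β v u j ∉ Icc (1 - Q.β v u i) (Q.β u v i) := by
    intro i j b b' h h' hij c
    have := piece_lt h c
    rw [← Q.rev _ _ _ (Q.adj _ _ _ _ h)] at this
    exact hij (Q.Cout _ _ _ (β_spec (Q.sym _ _ _ _ h')).2 this.le).symm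
  have k1 := key h h' hij
  have k2 := key h' h hij.symm
  by_contra c
  rw [not_or, not_lt, not_lt] at c
  rcases le_total (Q.β v u i) (Q.β v u j) with d | d
  · exact k2 ⟨by linarith, by linarith [c.2]⟩
  · exact k1 ⟨by linarith, by linarith [c.1]⟩

theorem piece_le (h : Q.In u v i b) (ht : t ∈ Icc (1 - Q.β v u i) (Q.β u v i))
    (h' : G.Adj u' v') (hs : s ∈ Icc (0 : ℝ) 1) (e : Q.P u v t = Q.P u' v' s) :
    s ≤ Q.β u' v' i := by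
  have ha := Q.adj _ _ _ _ h
  by_cases c : s(u, v) = s(u', v')
  · rcases Sym2.eq_iff.1 c with ⟨rfl, rfl⟩ | ⟨rfl, rfl⟩
    · rw [← Q.inj _ _ ha (piece_mem h ht) hs e]
      exact ht.2
    · rw [Q.rev _ _ _ ha] at e
      have := Q.inj _ _ ha (piece_mem h ht) (flip hs) e
      linarith [ht.1]
  · rcases Q.crs _ _ _ _ _ _ ha h' c (piece_mem h ht) hs e with ⟨w, hw⟩ | ⟨j, hj⟩
    · have := piece_lt h ht
      rw [← hw] at this
      exact absurd (Q.nov i w) (not_lt.2 this.le)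
    · obtain rfl := Q.Cout _ _ _ hj (piece_lt h ht).le
      exact (β_le h' hs (e ▸ hj)).1

variable (Q) in
def K (i : Fin m) : Set ℂ :=
  ⋃ x : {x : V × V × Bool // Q.In x.1 x.2.1 i x.2.2},
    Q.P x.1.1 x.1.2.1 '' Icc (1 - Q.β x.1.2.1 x.1.1 i) (Q.β x.1.1 x.1.2.1 i)

variable (Q) in
def U (i : Fin m) : Set ℂ :=
  {z | 1 ≤ ‖(Q.g i).symm z‖} ∪
    ⋃ x : {x : V × V × Fin m // (∃ b, Q.In x.1 x.2.1 i b) ∧ (∃ b, Q.In x.1 x.2.1 x.2.2 b) ∧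
        Q.β x.1 x.2.1 i + Q.β x.2.1 x.1 x.2.2 < 1},
      Q.P x.1.1 x.1.2.1 '' Icc ((Q.β x.1.1 x.1.2.1 i + 1 - Q.β x.1.2.1 x.1.1 x.1.2.2) / 2) 1

theorem mem_K (h : Q.In u v i b) (ht : t ∈ Icc (1 - Q.β v u i) (Q.β u v i)) :
    Q.P u v t ∈ Q.K i :=
  mem_iUnion.2 ⟨⟨(u, v, b), h⟩, t, ht, rfl⟩

theorem mem_U (h : Q.In u v i b) (h' : Q.In u v j b') (hl : Q.β u v i + Q.β v u j < 1)
    (ht : t ∈ Icc ((Q.β u v i + 1 - Q.β v u j) / 2) 1) : Q.P u v t ∈ Q.U i :=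
  .inr (mem_iUnion.2 ⟨⟨(u, v, j), ⟨b, h⟩, ⟨b', h'⟩, hl⟩, t, ht, rfl⟩)

theorem K_conn (i : Fin m) : IsPreconnected (Q.K i) ∧ (Q.K i).Nonempty := by
  have pc : ∀ {u v b}, Q.In u v i b →
      IsPreconnected (Q.P u v '' Icc (1 - Q.β v u i) (Q.β u v i)) := fun h =>
    isPreconnected_Icc.image _ ((Q.cont _ _ (Q.adj _ _ _ _ h)).mono fun t ht => piece_mem h ht)
  have pm : ∀ {u v b p}, Q.In u v i b → p ∈ Q.C i → p ∈ Q.P u v '' Icc 0 1 →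
      p ∈ Q.P u v '' Icc (1 - Q.β v u i) (Q.β u v i) := by
    rintro u v b _ h hp ⟨t, ht, rfl⟩
    have := β_le (Q.adj _ _ _ _ h) ht hp
    exact ⟨t, ⟨by linarith [this.2], this.1⟩, rfl⟩
  have ps : ∀ {u v b}, Q.In u v i b → Q.P u v '' Icc (1 - Q.β v u i) (Q.β u v i) ⊆ Q.K i := by
    rintro u v b h _ ⟨t, ht, rfl⟩
    exact mem_K h ht
  obtain ⟨u₀, v₀, h₀⟩ := Q.both i false
  obtain ⟨u₁, v₁, h₁⟩ := Q.both i true
  obtain ⟨p, hp, p₀, p₁, -⟩ := Q.pair _ _ _ _ _ _ h₀ h₁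
  refine ⟨isPreconnected_of_forall p fun y hy => ?_, p, ps h₀ (pm h₀ hp p₀)⟩
  obtain ⟨⟨⟨u, v, b⟩, h⟩, hy⟩ := mem_iUnion.1 hy
  obtain ⟨x, w, hx, hpx⟩ : ∃ x w, Q.In x w i (!b) ∧ p ∈ Q.P x w '' Icc 0 1 := by
    cases b
    · exact ⟨u₁, v₁, h₁, p₁⟩
    · exact ⟨u₀, v₀, h₀, p₀⟩
  obtain ⟨q, hq, q₀, q₁, -⟩ := Q.pair _ _ _ _ _ _ h hx
  exact ⟨_ ∪ _, union_subset (ps h) (ps hx), .inr (pm hx hp hpx), .inl hy,
    IsPreconnected.union q (pm h hq q₀) (pm hx hq q₁) (pc h) (pc hx)⟩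

theorem exists_discs [Finite V] : ∃ h : Fin m → ℂ ≃ₜ ℂ, (∀ i, ∀ z ∈ Q.K i, ‖(h i).symm z‖ < 1) ∧
    (∀ i, ∀ z ∈ Q.U i, 1 < ‖(h i).symm z‖) ∧
    ∀ i j z, ‖(h i).symm z‖ ≤ 1 → ‖(h j).symm z‖ ≤ 1 → i = j := by
  have lo : ∀ {u v i j b b'}, Q.In u v i b → Q.In u v j b' →
      Icc ((Q.β u v i + 1 - Q.β v u j) / 2) 1 ⊆ Icc (0 : ℝ) 1 := fun h h' =>
    Icc_subset_Icc_left (by linarith [(β_spec h).1.1, (β_spec (Q.sym _ _ _ _ h')).1.2])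
  refine discs (fun i => ?_) (fun i => ?_) (fun i => ?_) (fun i => ?_) (fun i => (K_conn i).1)
    (fun i => (K_conn i).2) (fun i => ?_) fun i j hij => ?_
  · refine (ge_closed _).union (isClosed_iUnion_of_finite ?_)
    rintro ⟨⟨u, v, j⟩, ⟨b, h⟩, ⟨b', h'⟩, hl⟩
    exact (isCompact_Icc.image_of_continuousOn
      ((Q.cont _ _ (Q.adj _ _ _ _ h)).mono (lo h h'))).isClosed
  · refine conn_union (ge_conn _) ?_ ?_ ⟨Q.g i 1, by simp⟩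
    · rintro ⟨⟨u, v, j⟩, ⟨b, h⟩, ⟨b', h'⟩, hl⟩
      exact isPreconnected_Icc.image _ ((Q.cont _ _ (Q.adj _ _ _ _ h)).mono (lo h h'))
    · rintro ⟨⟨u, v, j⟩, ⟨b, h⟩, ⟨b', h'⟩, hl⟩ ⟨_, t, ht, rfl⟩
      refine ⟨Q.P u v 1, ?_, 1, ⟨ht.1.trans ht.2, le_rfl⟩, rfl⟩
      rw [stop (Q.adj _ _ _ _ h)]
      exact (Q.nov _ _).le
  · refine (le_compact (Q.g i)).isBounded.subset fun z hz => ?_
    by_contra c
    exact hz (.inl (not_le.1 c : 1 < ‖(Q.g i).symm z‖).le)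
  · refine isCompact_iUnion ?_
    rintro ⟨⟨u, v, b⟩, h⟩
    exact isCompact_Icc.image_of_continuousOn
      ((Q.cont _ _ (Q.adj _ _ _ _ h)).mono fun t ht => piece_mem h ht)
  · refine disjoint_left.2 fun z hz hz' => ?_
    obtain ⟨⟨⟨u, v, b⟩, h⟩, t, ht, rfl⟩ := mem_iUnion.1 hz
    rcases hz' with c | c
    · exact absurd (piece_lt h ht) (not_lt.2 c)
    · obtain ⟨⟨⟨u', v', j⟩, ⟨b₁, h₁⟩, ⟨b₂, h₂⟩, hl⟩, s, hs, e⟩ := mem_iUnion.1 c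
      have := piece_le h ht (Q.adj _ _ _ _ h₁) (lo h₁ h₂ hs) e.symm
      have a := hs.1
      simp only at hl a this
      linarith
  · intro z hz
    obtain ⟨⟨⟨u, v, b⟩, h⟩, t, ht, rfl⟩ := mem_iUnion.1 hz
    simp only at h ht ⊢
    have ha := Q.adj _ _ _ _ h
    have hm := piece_mem h ht
    rcases le_total 1 ‖(Q.g j).symm (Q.P u v t)‖ with c | c
    · exact .inl c
    · obtain ⟨b', h'⟩ := Q.meet _ _ _ _ ha hm c
      rcases sep h h' hij with d | d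
      · rw [← rev' ha]
        exact mem_U (Q.sym _ _ _ _ h') (Q.sym _ _ _ _ h) (by linarith)
          ⟨by linarith [ht.2], by linarith [hm.1]⟩
      · exact mem_U h' h d ⟨by linarith [ht.1], hm.2⟩

theorem outer_arc (h : Q.In u v i b) :
    IsArc (Q.g i ⁻¹' (Q.P u v '' Icc 0 1) ∩ closedBall 0 1)
      ((Q.g i).symm (Q.P u v (Q.τ u v i))) ((Q.g i).symm (Q.P v u (Q.τ v u i))) ∧
    Q.g i ⁻¹' (Q.P u v '' Icc 0 1) ∩ sphere 0 1 =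
      {(Q.g i).symm (Q.P u v (Q.τ u v i)), (Q.g i).symm (Q.P v u (Q.τ v u i))} := by
  have ha := Q.adj _ _ _ _ h
  obtain ⟨b1, b2⟩ := τ_spec h
  obtain ⟨b3, b4⟩ := τ_spec (Q.sym _ _ _ _ h)
  have gt := τ_gt h
  constructor
  · have hm : ∀ t ∈ Icc (0 : ℝ) 1, Q.τ u v i + t * (1 - Q.τ v u i - Q.τ u v i) ≤ Q.τ u v i ∧
        1 - Q.τ v u i ≤ Q.τ u v i + t * (1 - Q.τ v u i - Q.τ u v i) := fun t ht => by
      constructor <;> nlinarith [ht.1, ht.2]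
    have hm' : ∀ t ∈ Icc (0 : ℝ) 1, Q.τ u v i + t * (1 - Q.τ v u i - Q.τ u v i) ∈
        Icc (0 : ℝ) 1 := fun t ht =>
      ⟨by linarith [(hm t ht).2, b3.2], by linarith [(hm t ht).1, b1.2]⟩
    refine ⟨fun t => (Q.g i).symm (Q.P u v (Q.τ u v i + t * (1 - Q.τ v u i - Q.τ u v i))),
      ?_, ?_, by simp, ?_, ?_⟩
    · exact (Q.g i).symm.continuous.comp_continuousOn
        ((Q.cont _ _ ha).comp (Continuous.continuousOn (by fun_prop)) hm')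
    · intro s hs t ht e
      have := Q.inj _ _ ha (hm' s hs) (hm' t ht) ((Q.g i).symm.injective e)
      exact mul_right_cancel₀ (by linarith) (add_left_cancel this)
    · rw [Q.rev _ _ _ ha]
      show (Q.g i).symm (Q.P u v _) = (Q.g i).symm (Q.P u v _)
      congr 2
      ring
    · ext z
      constructor
      · rintro ⟨t, ht, rfl⟩
        refine ⟨⟨_, hm' t ht, by simp⟩, ?_⟩
        rw [mem_closedBall_zero_iff]
        exact inD h (hm t ht).1 (by linarith [(hm t ht).2])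
      · rintro ⟨⟨t, ht, e⟩, hz⟩
        have hz' : ‖(Q.g i).symm (Q.P u v t)‖ ≤ 1 := by rw [e]; simpa using hz
        obtain ⟨a1, a2⟩ := τ_le ha ht hz'
        have hp : 0 < Q.τ u v i + Q.τ v u i - 1 := by linarith
        refine ⟨(Q.τ u v i - t) / (Q.τ u v i + Q.τ v u i - 1),
          ⟨div_nonneg (by linarith) hp.le, (div_le_one hp).2 (by linarith)⟩, ?_⟩
        have : Q.τ u v i + (Q.τ u v i - t) / (Q.τ u v i + Q.τ v u i - 1) *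
            (1 - Q.τ v u i - Q.τ u v i) = t := by
          field_simp
          ring
        simp only [this, e, Homeomorph.symm_apply_apply]
  · ext z
    constructor
    · rintro ⟨⟨t, ht, e⟩, hz⟩
      have hz' : ‖(Q.g i).symm (Q.P u v t)‖ = 1 := by rw [e]; simpa using hz
      rcases bd_uniq h ht hz' with c | c
      · left
        rw [← c, e, Homeomorph.symm_apply_apply]
      · right
        rw [mem_singleton_iff, Q.rev _ _ _ ha, ← c, e, Homeomorph.symm_apply_apply]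
    · rintro (rfl | rfl)
      · exact ⟨⟨_, ⟨b1.1, b1.2.le⟩, by simp⟩, by simpa using b2⟩
      · exact ⟨⟨_, flip ⟨b3.1, b3.2.le⟩, by simp [Q.rev _ _ _ ha]⟩, by simpa using b4⟩

theorem outer_alt (hA : AltSt) (h : Q.In u v i b) (h' : Q.In u' v' i b')
    (hne : s(u, v) ≠ s(u', v')) :
    Alt ((Q.g i).symm (Q.P u v (Q.τ u v i))) ((Q.g i).symm (Q.P v u (Q.τ v u i)))
      ((Q.g i).symm (Q.P u' v' (Q.τ u' v' i))) ((Q.g i).symm (Q.P v' u' (Q.τ v' u' i))) ↔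
      b ≠ b' := by
  obtain ⟨a1, a2⟩ := outer_arc h
  obtain ⟨a3, a4⟩ := outer_arc h'
  constructor
  · rintro hal rfl
    obtain ⟨c1, c2, c3, c4⟩ := arc_facts a1
    obtain ⟨d1, d2, d3, d4⟩ := arc_facts a3
    refine hA.ins _ _ _ _ _ _ c1 c2 d1 d2 (disjoint_left.2 fun z hz hz' => ?_) ?_ c3 c4 d3 d4
      (τ_spec h).2 (τ_spec (Q.sym _ _ _ _ h)).2 (τ_spec h').2 (τ_spec (Q.sym _ _ _ _ h')).2 hal
    · have := Q.same _ _ _ _ _ _ _ h h' hne hz.1 hz'.1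
      rw [Homeomorph.symm_apply_apply] at this
      exact absurd (mem_closedBall_zero_iff.1 hz.2) (not_le.2 this)
    · rintro z (hz | hz) <;> exact mem_closedBall_zero_iff.1 hz.2
  · intro hb
    obtain rfl : b' = !b := by cases b <;> cases b' <;> simp_all
    obtain ⟨p, hp, p₀, p₁, Φ, f0, f1, f2⟩ := Q.pair _ _ _ _ _ _ h h'
    refine hA.cross _ _ _ _ _ _ ((Q.g i).symm p) a1 a3 a2 a4 ?_ (Q.Cin _ _ hp)
      ⟨Φ.transHomeomorph (Q.g i).symm, f0, by simp [f1], fun z hz => ?_⟩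
    · ext z
      constructor
      · rintro ⟨hz, -⟩
        have := Q.one _ _ _ _ (Q.adj _ _ _ _ h) (Q.adj _ _ _ _ h') hne hz ⟨p₀, p₁⟩
        rw [mem_singleton_iff, ← this, Homeomorph.symm_apply_apply]
      · rintro rfl
        exact ⟨⟨by simpa using p₀, by simpa using p₁⟩,
          mem_closedBall_zero_iff.2 (Q.Cin _ _ hp).le⟩
    · simpa using f2 z hz

section
variable {h : Fin m → ℂ ≃ₜ ℂ} (hK : ∀ i, ∀ z ∈ Q.K i, ‖(h i).symm z‖ < 1)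
  (hU : ∀ i, ∀ z ∈ Q.U i, 1 < ‖(h i).symm z‖)

variable (Q h) in
noncomputable def ex (u v : V) (i : Fin m) : ℝ := last (Q.P u v) {z | ‖(h i).symm z‖ ≤ 1}

theorem ex_le (ht : t ∈ Icc (0 : ℝ) 1) (hc : ‖(h i).symm (Q.P u v t)‖ ≤ 1) :
    t ≤ Q.ex h u v i :=
  le_last ht hc

include hU in
theorem inner {z : ℂ} (hz : ‖(h i).symm z‖ ≤ 1) : ‖(Q.g i).symm z‖ < 1 := by
  by_contra c
  exact absurd (hU i z (.inl (not_lt.1 c))) (not_lt.2 hz)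

include hK hU

omit hU in
theorem β_in (hi : Q.In u v i b) : ‖(h i).symm (Q.P u v (Q.β u v i))‖ < 1 :=
  hK _ _ (mem_K hi ⟨by linarith [β_ge hi], le_rfl⟩)

theorem ex_spec (hi : Q.In u v i b) :
    Q.ex h u v i ∈ Ico (0 : ℝ) 1 ∧ ‖(h i).symm (Q.P u v (Q.ex h u v i))‖ = 1 :=
  last_bd (h i) (Q.cont _ _ (Q.adj _ _ _ _ hi))
    (by rw [stop (Q.adj _ _ _ _ hi)]; exact hU _ _ (.inl (Q.nov _ _).le)) (β_spec hi).1
    (β_in hK hi).le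

theorem β_lt_ex (hi : Q.In u v i b) : Q.β u v i < Q.ex h u v i := by
  have a := β_in hK hi
  refine lt_of_le_of_ne (ex_le (β_spec hi).1 a.le) fun e => ?_
  rw [e, (ex_spec hK hU hi).2] at a
  exact lt_irrefl _ a

theorem ex_gt (hi : Q.In u v i b) : 1 < Q.ex h u v i + Q.ex h v u i := by
  have := β_ge hi
  have := β_lt_ex hK hU hi
  have := β_lt_ex hK hU (Q.sym _ _ _ _ hi)
  linarith

theorem ex_le_τ (hi : Q.In u v i b) : Q.ex h u v i ≤ Q.τ u v i := by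
  obtain ⟨a1, a2⟩ := ex_spec hK hU hi
  exact (τ_le (Q.adj _ _ _ _ hi) ⟨a1.1, a1.2.le⟩ (inner hU a2.le).le).1

theorem tail_sub (hi : Q.In u v i b) : Icc (Q.ex h u v i) (Q.τ u v i) ⊆ Icc (0 : ℝ) 1 :=
  Icc_subset_Icc (ex_spec hK hU hi).1.1 (τ_spec hi).1.2.le

theorem tail (hi : Q.In u v i b) : Tail (Q.g i) (h i) (Q.P u v '' Icc (Q.ex h u v i) (Q.τ u v i))
    (Q.P u v (Q.τ u v i)) (Q.P u v (Q.ex h u v i)) := by
  have hc := (Q.cont _ _ (Q.adj _ _ _ _ hi)).mono (tail_sub hK hU hi)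
  have le := ex_le_τ hK hU hi
  refine ⟨isCompact_Icc.image_of_continuousOn hc, isPreconnected_Icc.image _ hc,
    ⟨_, ⟨le, le_rfl⟩, rfl⟩, ⟨_, ⟨le_rfl, le⟩, rfl⟩, (τ_spec hi).2, (ex_spec hK hU hi).2, ?_, ?_⟩
  · rintro _ ⟨s, hs, rfl⟩ hn
    rcases bd_uniq hi (tail_sub hK hU hi hs) hn with c | c
    · rw [c]
    · have := β_ge hi
      have := β_lt_ex hK hU hi
      have := β_lt (Q.sym _ _ _ _ hi)
      linarith [hs.1]
  · rintro _ ⟨s, hs, rfl⟩ hn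
    rw [le_antisymm (ex_le (tail_sub hK hU hi hs) hn.le) hs.1]

theorem tail_norm (hi : Q.In u v i b) {z : ℂ}
    (hz : z ∈ Q.P u v '' Icc (Q.ex h u v i) (Q.τ u v i)) :
    ‖(Q.g i).symm z‖ ≤ 1 ∧ 1 ≤ ‖(h i).symm z‖ := by
  obtain ⟨s, hs, rfl⟩ := hz
  constructor
  · have := ex_gt hK hU hi
    have := ex_le_τ hK hU (Q.sym _ _ _ _ hi)
    exact inD hi hs.2 (by linarith [hs.1])
  · by_contra c
    rw [not_le] at c
    rw [le_antisymm (ex_le (tail_sub hK hU hi hs) c.le) hs.1, (ex_spec hK hU hi).2] at c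
    exact lt_irrefl _ c

theorem tail_d1 (hi : Q.In u v i b) : Disjoint (Q.P u v '' Icc (Q.ex h u v i) (Q.τ u v i))
    (Q.P v u '' Icc (Q.ex h v u i) (Q.τ v u i)) := by
  rw [disjoint_left]
  rintro _ ⟨s, hs, rfl⟩ ⟨t, ht, e⟩
  have ha := Q.adj _ _ _ _ hi
  rw [Q.rev _ _ _ ha] at e
  have := Q.inj _ _ ha (flip (tail_sub hK hU (Q.sym _ _ _ _ hi) ht)) (tail_sub hK hU hi hs) e
  linarith [ex_gt hK hU hi, hs.1, ht.1]

theorem tail_d2 (hi : Q.In u v i b) (hi' : Q.In u' v' i b') (hne : s(u, v) ≠ s(u', v')) :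
    Disjoint (Q.P u v '' Icc (Q.ex h u v i) (Q.τ u v i))
      (Q.P u' v' '' Icc (Q.ex h u' v' i) (Q.τ u' v' i)) := by
  rw [disjoint_left]
  rintro _ ⟨s, hs, rfl⟩ ⟨t, ht, e⟩
  have ha := Q.adj _ _ _ _ hi
  have hn := (tail_norm hK hU hi ⟨s, hs, rfl⟩).1
  rcases Q.crs _ _ _ _ _ _ ha (Q.adj _ _ _ _ hi') hne (tail_sub hK hU hi hs)
    (tail_sub hK hU hi' ht) e.symm with ⟨w, hw⟩ | ⟨j, hj⟩
  · rw [← hw] at hn
    exact absurd (Q.nov i w) (not_lt.2 hn)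
  · obtain rfl := Q.Cout _ _ _ hj hn
    linarith [(β_le ha (tail_sub hK hU hi hs) hj).1, β_lt_ex hK hU hi, hs.1]

theorem inner_alt (hA : AltSt) (hi : Q.In u v i b) (hi' : Q.In u' v' i b')
    (hne : s(u, v) ≠ s(u', v')) :
    Alt ((h i).symm (Q.P u v (Q.ex h u v i))) ((h i).symm (Q.P v u (Q.ex h v u i)))
      ((h i).symm (Q.P u' v' (Q.ex h u' v' i))) ((h i).symm (Q.P v' u' (Q.ex h v' u' i))) ↔
      b ≠ b' := by
  have si := Q.sym _ _ _ _ hi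
  have si' := Q.sym _ _ _ _ hi'
  rw [← outer_alt hA hi hi' hne]
  refine annulus hA (tail hK hU hi) (tail hK hU si) (tail hK hU hi') (tail hK hU si')
    (tail_d1 hK hU hi) (tail_d1 hK hU hi') ?_ ?_ fun z hz => hU _ _ (.inl hz)
  · rw [disjoint_union_left, disjoint_union_right, disjoint_union_right]
    exact ⟨⟨tail_d2 hK hU hi hi' hne, tail_d2 hK hU hi si' (by rwa [Sym2.eq_swap (a := v')])⟩,
      tail_d2 hK hU si hi' (by rwa [Sym2.eq_swap (a := v)]),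
      tail_d2 hK hU si si' (by rwa [Sym2.eq_swap (a := v), Sym2.eq_swap (a := v')])⟩
  · rintro z ((hz | hz) | hz | hz)
    · exact tail_norm hK hU hi hz
    · exact tail_norm hK hU si hz
    · exact tail_norm hK hU hi' hz
    · exact tail_norm hK hU si' hz

theorem ex_mid (hi : Q.In u v i b) (hj : Q.In u v j b') (hl : Q.β u v i + Q.β v u j < 1) :
    Q.ex h u v i < (Q.β u v i + 1 - Q.β v u j) / 2 := by
  by_contra c
  obtain ⟨a1, a2⟩ := ex_spec hK hU hi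
  exact (hU _ _ (mem_U hi hj hl ⟨not_lt.1 c, a1.2.le⟩)).ne' a2

theorem ex_sep (hi : Q.In u v i b) (hj : Q.In u v j b') (hl : Q.β u v i + Q.β v u j < 1) :
    Q.ex h u v i + Q.ex h v u j < 1 := by
  have := ex_mid hK hU hi hj hl
  have := ex_mid hK hU (Q.sym _ _ _ _ hj) (Q.sym _ _ _ _ hi) (by linarith)
  linarith

end

theorem mid [Finite V] (Q : Pre m G) (hA : AltSt) : Nonempty (Mid m G) := by
  obtain ⟨h, hK, hU, hd⟩ := Q.exists_discs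
  refine ⟨{
    pos := Q.pos, pos_inj := Q.pos_inj, P := Q.P, In := Q.In, h := h, ex := Q.ex h
    cont := Q.cont, inj := Q.inj, rev := Q.rev, start := Q.start, vtx := Q.vtx, adj := Q.adj
    sym := Q.sym, fn := Q.fn
    lt1 := fun u v i b hi => (ex_spec hK hU hi).1.2
    gt1 := fun u v i b hi => ex_gt hK hU hi
    bd := fun u v i b hi => (ex_spec hK hU hi).2
    ord := fun u v i j b b' hi hj hij =>
      (sep hi hj hij).imp (ex_sep hK hU hi hj) (ex_sep hK hU hj hi)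
    off := fun u v t i ha ht _ hn => ⟨Q.meet u v t i ha ht (inner hU hn).le, ex_le ht hn⟩
    crs := ?_
    disj := fun i j z _ _ => hd i j z
    nov := fun i v _ => hU _ _ (.inl (Q.nov i v).le)
    alt := fun u v u' v' i b b' hi hi' hne => inner_alt hK hU hA hi hi' hne
    both := fun i b _ => Q.both i b
    once := ?_, vert := ?_ }⟩
  · intro u v u' v' s t ha ha' hne hs ht e
    refine (Q.crs u v u' v' s t ha ha' hne hs ht e).imp_right ?_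
    rintro ⟨i, hi⟩
    obtain ⟨b, hb⟩ := Q.meet u v s i ha hs (Q.Cin _ _ hi).le
    obtain ⟨a1, a2⟩ := β_le ha hs hi
    exact ⟨i, b, hb, a1.trans_lt (β_lt_ex hK hU hb),
      a2.trans_lt (β_lt_ex hK hU (Q.sym _ _ _ _ hb))⟩
  · intro u v u' v' i j x y hij a1 a2 a3 a4
    obtain ⟨p, hp, p₀, p₁, -⟩ := Q.pair _ _ _ _ _ _ a1 a3
    obtain ⟨q, hq, q₀, q₁, -⟩ := Q.pair _ _ _ _ _ _ a2 a4
    obtain rfl := Q.one _ _ _ _ (Q.adj _ _ _ _ a1) (Q.adj _ _ _ _ a3) (ne_of a1 a3) ⟨p₀, p₁⟩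
      ⟨q₀, q₁⟩
    exact hij (Q.Cout _ _ _ hp (Q.Cin _ _ hq).le)
  · intro u v v' i a1 a2
    obtain ⟨p, hp, p₀, p₁, -⟩ := Q.pair _ _ _ _ _ _ a1 a2
    have b1 := Q.adj _ _ _ _ a1
    have b2 := Q.adj _ _ _ _ a2
    obtain rfl := Q.one _ _ _ _ b1 b2 (ne_of a1 a2) (x := Q.pos u)
      ⟨⟨0, by simp, Q.start _ _ b1⟩, 0, by simp, Q.start _ _ b2⟩ ⟨p₀, p₁⟩
    exact absurd (Q.nov i u) (not_lt.2 (Q.Cin _ _ hp).le)

end Pre

end NDc

end Pool.Agent.Lib.MP_c1f5fe_lc
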