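import Pool.Agent.Lib.MP_c1f5fe_lc.NetA

/-! Forests in multigraphs, balls of low degree, greedy choice. -/

namespace Pool.Agent.Lib.MP_c1f5fe_lc

open Equiv Function Relation

namespace Net

section forest
variable {W D : Type}

def rn (s t : D → W) (K : D → Prop) (R : Set W) : ℕ → Set W
  | 0 => R
  | n + 1 => rn s t K R n ∪
      {w | ∃ d, K d ∧ ((s d = w ∧ t d ∈ rn s t K R n) ∨ (t d = w ∧ s d ∈ rn s t K R n))}

structure Forest (s t : D → W) (K : D → Prop) (R : Set W) (lev : W → ℕ) (f : W → D)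
    (par : W → W) : Prop where
  le : ∀ w n, w ∈ rn s t K R n → lev w ≤ n
  zero : ∀ w, lev w = 0 → w ∈ R
  up : ∀ w, lev w ≠ 0 → K (f w) ∧ lev (par w) < lev w ∧
    ((s (f w) = w ∧ t (f w) = par w) ∨ (t (f w) = w ∧ s (f w) = par w))

theorem forest_ex [Nonempty D] (s t : D → W) (K : D → Prop) (R : Set W)
    (h : ∀ w, ∃ n, w ∈ rn s t K R n) : ∃ lev f par, Forest s t K R lev f par := by
  classical
  have key : ∀ w, ∃ (d : D) (u : W), Nat.find (h w) ≠ 0 → K d ∧ Nat.find (h u) < Nat.find (h w) ∧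
      ((s d = w ∧ t d = u) ∨ (t d = w ∧ s d = u)) := by
    intro w
    by_cases z : Nat.find (h w) = 0
    · exact ⟨Classical.arbitrary D, w, fun k => absurd z k⟩
    obtain ⟨n, hn⟩ := Nat.exists_eq_succ_of_ne_zero z
    have a := Nat.find_spec (h w)
    have b := Nat.find_min (h w) (m := n) (by omega)
    rw [hn] at a
    rcases a with a | ⟨d, k, a | a⟩
    · exact absurd a b
    · exact ⟨d, t d, fun _ => ⟨k, by have := Nat.find_min' (h _) a.2; omega, Or.inl ⟨a.1, rfl⟩⟩⟩
    · exact ⟨d, s d, fun _ => ⟨k, by have := Nat.find_min' (h _) a.2; omega, Or.inr ⟨a.1, rfl⟩⟩⟩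
  choose f par hf using key
  refine ⟨fun w => Nat.find (h w), f, par, fun w n k => Nat.find_min' _ k, fun w k => ?_, hf⟩
  have a := Nat.find_spec (h w)
  rw [k] at a
  exact a

variable {s t : D → W} {K : D → Prop} {R : Set W} {lev : W → ℕ} {f : W → D} {par : W → W}

theorem Forest.other (F : Forest s t K R lev f par) {w u : W} (hw : lev w ≠ 0)
    (h : s (f w) = u ∨ t (f w) = u) (ne : u ≠ w) : u = par w := by
  rcases (F.up w hw).2.2 with a | a <;> rcases h with h | h
  · exact absurd (h.symm.trans a.1) ne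
  · exact h.symm.trans a.2
  · exact h.symm.trans a.2
  · exact absurd (h.symm.trans a.1) ne

theorem Forest.own (F : Forest s t K R lev f par) {w : W} (hw : lev w ≠ 0) :
    s (f w) = w ∨ t (f w) = w := (F.up w hw).2.2.imp (·.1) (·.1)

theorem Forest.inj (F : Forest s t K R lev f par) : Set.InjOn f {w | lev w ≠ 0} := by
  intro w hw u hu e
  by_contra ne
  have a := F.other hw (e ▸ F.own hu) (Ne.symm ne)
  have b := F.other hu (e ▸ F.own hw) ne
  have c := (F.up w hw).2.1
  have d := (F.up u hu).2.1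
  rw [← a] at c
  rw [← b] at d
  omega

theorem Forest.card [Finite W] (F : Forest s t K R lev f par) :
    Nat.card W ≤ (f '' {w | lev w ≠ 0}).ncard + R.ncard := by
  rw [F.inj.ncard_image, ← Set.ncard_univ]
  refine le_trans (Set.ncard_le_ncard fun w _ => ?_) (Set.ncard_union_le _ _)
  by_cases k : lev w = 0
  · exact Or.inr (F.zero w k)
  · exact Or.inl k

theorem Forest.card' [Finite W] [Finite D] (F : Forest s t K R lev f par) :
    Nat.card W ≤ {d | K d}.ncard + R.ncard := by
  refine F.card.trans (Nat.add_le_add_right (Set.ncard_le_ncard ?_) _)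
  rintro _ ⟨w, hw, rfl⟩
  exact (F.up w hw).1

theorem Forest.desc (F : Forest s t K R lev f par) {L : ℕ} (hL : ∀ w, lev w ≤ L) {Y : D → Prop}
    (hY : ∀ d n, Y d → s d = n ∨ t d = n → ∃ d', d' ≠ d ∧ Y d' ∧ (s d' = n ∨ t d' = n)) (k : ℕ) :
    ∀ n, L - lev n ≤ k → lev n ≠ 0 → Y (f n) → ∃ d, Y d ∧ d ∉ f '' {w | lev w ≠ 0} ∧
      ∃ j ≤ L - lev n, par^[j] (s d) = n ∨ par^[j] (t d) = n := by
  induction k using Nat.strong_induction_on with
  | _ k ih =>
    intro n hk hn y
    obtain ⟨d, d1, d2, d3⟩ := hY _ n y (F.own hn)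
    by_cases m : d ∈ f '' {w | lev w ≠ 0}
    · obtain ⟨n', hn', rfl⟩ := m
      have e : n = par n' := F.other hn' d3 fun e => d1 (by rw [e])
      have l := (F.up n' hn').2.1
      rw [← e] at l
      have := hL n'
      obtain ⟨x, x1, x2, j, x3, x4⟩ := ih (L - lev n') (by omega) n' le_rfl hn' d2
      refine ⟨x, x1, x2, j + 1, by omega, ?_⟩
      rw [iterate_succ_apply', iterate_succ_apply']
      exact x4.imp (fun g => by rw [g, e]) fun g => by rw [g, e]
    · exact ⟨d, d2, m, 0, Nat.zero_le _, d3⟩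

theorem Forest.count [Finite D] (F : Forest s t K R lev f par) {L : ℕ} (hL : ∀ w, lev w ≤ L)
    {Y : D → Prop}
    (hY : ∀ d n, Y d → s d = n ∨ t d = n → ∃ d', d' ≠ d ∧ Y d' ∧ (s d' = n ∨ t d' = n)) :
    {d | Y d}.ncard ≤ {d | Y d ∧ d ∉ f '' {w | lev w ≠ 0}}.ncard * (2 * L + 1) := by
  refine cover (fun d => insert d (((fun j => f (par^[j] (s d))) '' Set.Iio L) ∪
    ((fun j => f (par^[j] (t d))) '' Set.Iio L))) _ (Set.toFinite _) _ (fun x hx => ?_)
    fun d _ => ?_
  · by_cases m : x ∈ f '' {w | lev w ≠ 0}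
    · obtain ⟨n, hn, rfl⟩ := m
      obtain ⟨d, d1, d2, j, d3, d4⟩ := F.desc hL hY _ n le_rfl hn hx
      have := hL n
      have jl : j < L := by
        have : lev n ≠ 0 := hn
        omega
      refine ⟨d, ⟨d1, d2⟩, Or.inr ?_⟩
      rcases d4 with g | g
      · exact Or.inl ⟨j, jl, by simp only [g]⟩
      · exact Or.inr ⟨j, jl, by simp only [g]⟩
    · exact ⟨x, ⟨hx, m⟩, Or.inl rfl⟩
  · have c : (Set.Iio L).ncard = L := by
      rw [← Finset.coe_range, Set.ncard_coe_finset, Finset.card_range]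
    have a := Set.ncard_image_le (f := fun j => f (par^[j] (s d))) (Set.finite_Iio L)
    have b := Set.ncard_image_le (f := fun j => f (par^[j] (t d))) (Set.finite_Iio L)
    refine (Set.ncard_insert_le _ _).trans ?_
    have := Set.ncard_union_le ((fun j => f (par^[j] (s d))) '' Set.Iio L)
      ((fun j => f (par^[j] (t d))) '' Set.Iio L)
    omega

end forest

section low
variable {V : Type} (Γ : SimpleGraph V) (low : V → Prop) (x : V)

def lr : ℕ → Set V
  | 0 => {x}
  | n + 1 => lr n ∪ {y | ∃ z ∈ lr n, low z ∧ Γ.Adj z y}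

variable {Γ low}

theorem lr_card [Finite V] {Δ : ℕ} (h : ∀ z, low z → (Γ.neighborSet z).ncard ≤ Δ) (n : ℕ) :
    (lr Γ low x n).ncard ≤ (Δ + 1) ^ n := by
  induction n with
  | zero => simp [lr]
  | succ n ih =>
    have a := cover (fun z => {y | low z ∧ Γ.Adj z y}) Δ (Set.toFinite (lr Γ low x n))
      {y | ∃ z ∈ lr Γ low x n, low z ∧ Γ.Adj z y} (fun y hy => hy) fun z _ => by
        by_cases k : low z
        · exact le_trans (Set.ncard_le_ncard fun y hy => hy.2) (h z k)
        · simp [k]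
    have b := Nat.mul_le_mul_right Δ ih
    refine (Set.ncard_union_le _ _).trans ?_
    rw [pow_succ, mul_add]
    omega

theorem pred (hc : Γ.Connected) {y : V} {n : ℕ} (h : Γ.dist x y = n + 1) :
    ∃ y', Γ.Adj y' y ∧ Γ.dist x y' ≤ n := by
  obtain ⟨p, hp⟩ := hc.exists_walk_length_eq_dist y x
  rw [SimpleGraph.dist_comm, h] at hp
  cases p with
  | nil => simp at hp
  | cons a q =>
    refine ⟨_, a.symm, ?_⟩
    rw [SimpleGraph.dist_comm]
    have := SimpleGraph.dist_le q
    simp only [SimpleGraph.Walk.length_cons] at hp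
    omega

theorem lr_mem (hc : Γ.Connected) (n : ℕ) : ∀ y, Γ.dist x y ≤ n →
    (∀ z, Γ.dist x z + Γ.dist z y ≤ n → low z) → y ∈ lr Γ low x n := by
  induction n with
  | zero =>
    intro y h _
    exact ((hc.dist_eq_zero_iff).1 (Nat.le_zero.1 h)).symm
  | succ n ih =>
    intro y h k
    by_cases l : Γ.dist x y ≤ n
    · exact Or.inl (ih y l fun z hz => k z (by omega))
    obtain ⟨y', a, b⟩ := pred x hc (y := y) (n := n) (by omega)
    have c : Γ.dist y' y = 1 := SimpleGraph.dist_eq_one_iff_adj.2 a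
    refine Or.inr ⟨y', ih y' b fun z hz => k z ?_, k y' (by omega), a⟩
    have := hc.dist_triangle (u := z) (v := y') (w := y)
    omega

theorem rn_dist {D : Type} (hc : Γ.Connected) {s t : D → V} {R : Set V}
    (h : ∀ a b, Γ.Adj a b → ∃ d, (s d = a ∧ t d = b) ∨ (s d = b ∧ t d = a)) (hx : x ∈ R) (n : ℕ) :
    ∀ y, Γ.dist x y ≤ n → y ∈ rn s t (fun _ => True) R n := by
  induction n with
  | zero =>
    intro y h
    rw [← (hc.dist_eq_zero_iff).1 (Nat.le_zero.1 h)]
    exact hx
  | succ n ih =>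
    intro y l'
    by_cases l : Γ.dist x y ≤ n
    · exact Or.inl (ih y l)
    obtain ⟨y', a, b⟩ := pred x hc (y := y) (n := n) (by omega)
    obtain ⟨d, e | e⟩ := h _ _ a
    · exact Or.inr ⟨d, trivial, Or.inr ⟨e.2, e.1 ▸ ih y' b⟩⟩
    · exact Or.inr ⟨d, trivial, Or.inl ⟨e.1, e.2 ▸ ih y' b⟩⟩

end low

theorem greedy {V : Type} [Finite V] (near : V → V → Prop) (hs : ∀ a b, near a b → near b a)
    (b p : ℕ) : ∀ S : Set V, (∀ x ∈ S, {y | y ∈ S ∧ near x y}.ncard ≤ b) → p * b < S.ncard →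
      ∃ x : Fin p → V, (∀ i, x i ∈ S) ∧ ∀ i j, i ≠ j → ¬near (x i) (x j) := by
  induction p with
  | zero => intro S _ _; exact ⟨Fin.elim0, fun i => i.elim0, fun i => i.elim0⟩
  | succ p ih =>
    intro S h l
    obtain ⟨a, ha⟩ : S.Nonempty := Set.nonempty_of_ncard_ne_zero (by omega)
    have c : S.ncard ≤ {y | y ∈ S ∧ ¬near a y}.ncard + {y | y ∈ S ∧ near a y}.ncard :=
      (Set.ncard_le_ncard fun y hy => by by_cases k : near a y <;> simp [hy, k]).trans
        (Set.ncard_union_le _ _)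
    have d := h a ha
    rw [add_mul] at l
    obtain ⟨x, x1, x2⟩ := ih {y | y ∈ S ∧ ¬near a y} (fun x hx => by
      refine le_trans (Set.ncard_le_ncard ?_) (h x hx.1)
      exact fun y hy => ⟨hy.1.1, hy.2⟩) (by omega)
    refine ⟨Fin.cons a x, fun i => ?_, fun i j ne => ?_⟩
    · refine Fin.cases ha (fun i => (x1 i).1) i
    · induction i using Fin.cases with
      | zero =>
        induction j using Fin.cases with
        | zero => exact absurd rfl ne
        | succ j => exact (x1 j).2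
      | succ i =>
        induction j using Fin.cases with
        | zero => exact fun k => (x1 i).2 (hs _ _ k)
        | succ j => exact x2 i j fun e => ne (by rw [e])

/-- double counting -/
theorem dbl {W D : Type} [Finite W] [Finite D] (s t : D → W) (K : Set D) (H : Set W) (b : ℕ)
    (h : ∀ w ∈ H, b ≤ {d | d ∈ K ∧ (s d = w ∨ t d = w)}.ncard) : H.ncard * b ≤ 2 * K.ncard := by
  classical
  have := Fintype.ofFinite D
  have key : ∀ r : D → W, ∑ w ∈ H.toFinite.toFinset, {d | d ∈ K ∧ r d = w}.ncard ≤ K.ncard := by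
    intro r
    have a := Finset.card_eq_sum_card_fiberwise (f := r)
      (s := Finset.univ.filter fun d => d ∈ K ∧ r d ∈ H) (t := H.toFinite.toFinset)
      (fun d hd => by simpa using (Finset.mem_filter.1 hd).2.2)
    have b : ∑ w ∈ H.toFinite.toFinset, {d | d ∈ K ∧ r d = w}.ncard =
        (Finset.univ.filter fun d => d ∈ K ∧ r d ∈ H).card := by
      rw [a]
      refine Finset.sum_congr rfl fun w hw => ?_
      rw [← Set.ncard_coe_finset]
      congr 1
      ext d
      have : w ∈ H := by simpa using hw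
      simp only [Set.mem_ofPred_eq, Finset.coe_filter, Finset.mem_filter, Finset.mem_univ,
        true_and]
      exact ⟨fun k => ⟨⟨k.1, k.2 ▸ this⟩, k.2⟩, fun k => ⟨k.1.1, k.2⟩⟩
    rw [b, ← Set.ncard_coe_finset]
    exact Set.ncard_le_ncard fun d hd => (Finset.mem_filter.1 hd).2.1
  have c : ∑ w ∈ H.toFinite.toFinset, b ≤ ∑ w ∈ H.toFinite.toFinset,
      ({d | d ∈ K ∧ s d = w}.ncard + {d | d ∈ K ∧ t d = w}.ncard) := by
    refine Finset.sum_le_sum fun w hw => (h w (by simpa using hw)).trans ?_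
    refine le_trans (Set.ncard_le_ncard fun d hd => ?_) (Set.ncard_union_le _ _)
    exact hd.2.imp (fun k => ⟨hd.1, k⟩) fun k => ⟨hd.1, k⟩
  rw [Finset.sum_add_distrib, Finset.sum_const, smul_eq_mul,
    ← Set.ncard_eq_toFinset_card H H.toFinite] at c
  have := key s
  have := key t
  omega

end Net

end Pool.Agent.Lib.MP_c1f5fe_lc
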