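import Pool.Agent.Lib.MP_c1f5fe_lc.TB1b

/-! Good gaps and their number. -/

namespace Pool.Agent.Lib.MP_c1f5fe_lc.TB1

open Equiv Function Relation Sel

theorem ncard_le_rel {A B : Type} {s : Set A} {t : Set B} (R : A → B → Prop)
    (h1 : ∀ a ∈ s, ∃ b ∈ t, R a b) (h2 : ∀ a ∈ s, ∀ a' ∈ s, ∀ b, R a b → R a' b → a = a')
    (ht : t.Finite) : s.Finite ∧ s.ncard ≤ t.ncard := by
  classical
  rcases s.eq_empty_or_nonempty with rfl | ⟨a0, h0⟩
  · simp
  have : Nonempty B := ⟨(h1 a0 h0).choose⟩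
  choose! f hf hf' using h1
  have inj : Set.InjOn f s := fun a ha a' ha' e => h2 a ha a' ha' _ (hf' a ha) (e ▸ hf' a' ha')
  exact ⟨Set.Finite.of_injOn (fun a ha => hf a ha) inj ht,
    Set.ncard_le_ncard_of_injOn f hf inj ht⟩

theorem fol_red {A : Type} [DecidableEq A] {L : List (A × Bool)}
    (h : (FreeGroup.mk L).toWord = L) {p q : Bool × ℕ} (f : Fol p q) (hp : p.2 < L.length)
    (hq : q.2 < L.length) : ptl L p ≠ (ptl L q).map linv := by
  obtain ⟨b, s⟩ := p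
  obtain ⟨b', s'⟩ := q
  obtain ⟨e, f⟩ := f
  simp only at e
  subst e
  cases b'
  · simp only [Bool.false_eq_true, if_false] at f
    subst f
    simp only [ptl, Bool.false_eq_true, if_false, map_linv_linv]
    intro e
    apply red_adj h hp
    rw [← e, map_linv_linv]
  · simp only [if_true] at f
    subst f
    simp only [ptl, if_true]
    intro e
    apply red_adj h hq
    rw [e, map_linv_linv]

theorem fol_left {p p' q : Bool × ℕ} (f : Fol p q) (f' : Fol p' q) : p = p' := by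
  obtain ⟨b, s⟩ := p
  obtain ⟨b', s'⟩ := p'
  obtain ⟨c, t⟩ := q
  obtain ⟨e, f⟩ := f
  obtain ⟨e', f'⟩ := f'
  simp only at e e'
  subst e
  subst e'
  cases c <;> simp at f f' ⊢ <;> omega

theorem fol_or {n : ℕ} {p : Bool × ℕ} (hp : p.2 < n) : (∃ q, Fol p q ∧ q.2 < n) ∨
    (if p.1 then p.2 + 1 else p.2) = if p.1 then n else 0 := by
  obtain ⟨b, s⟩ := p
  cases b
  · rcases Nat.eq_zero_or_pos s with rfl | l
    · simp
    · exact Or.inl ⟨(false, s - 1), ⟨rfl, by simp; omega⟩, by simp at hp ⊢; omega⟩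
  · by_cases l : s + 1 < n
    · exact Or.inl ⟨(true, s + 1), ⟨rfl, by simp⟩, l⟩
    · right; simp at hp ⊢; omega

variable {k : ℕ} {V D : Type} {G : SimpleGraph V} {U : Set V} [Finite D]

/-- the region has exactly two marked darts -/
def Good (S : Sk k G U D) (w : D → FG k) (dd : ℕ → D) (r : ℕ) (H : HMap (Seg w)) (q : Seg w) :
    Prop :=
  ∃ e, e ≠ q ∧ QD S dd r e.1.1 ∧ BD S w dd r e ∧ H.Reg (fun z => QD S dd r z.1.1) q e ∧
    ∀ e', QD S dd r e'.1.1 → BD S w dd r e' → H.Reg (fun z => QD S dd r z.1.1) q e' →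
      e' = q ∨ e' = e

def Cst (S : Sk k G U D) (w : D → FG k) (dd : ℕ → D) (r : ℕ) (H : HMap (Seg w))
    (fs : Perm (Seg w)) (p : Bool × ℕ) : Prop :=
  ¬∃ q x y, Pt S w dd r p x ∧ Ar H fs (QD S dd r) x y ∧ Pt S w dd r q y

def TS (S : Sk k G U D) (w : D → FG k) : Set (Seg w) := {x | S.IsT x.1.1 ∨ S.IsT (S.α x.1.1)}

variable {S : Sk k G U D} {w : D → FG k} {dd : ℕ → D} {r : ℕ} {H : HMap (Seg w)}
  {fs μ : Perm (Seg w)}

theorem ts_card (hw : S.Pre w) : (TS S w).ncard ≤ 16 * k := by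
  have := (ncard_le_rel (s := TS S w) (t := (Set.univ : Set (Fin k × Fin 4 × Bool × Fin 2)))
    (fun x b => x.1 = (if b.2.2.1 then (S.φ ^ b.2.1.1) (S.term b.1)
      else S.α ((S.φ ^ b.2.1.1) (S.term b.1)), b.2.2.2.1)) ?_
    (fun a _ a' _ b e e' => Subtype.ext (e.trans e'.symm)) Set.finite_univ).2
  · rw [Set.ncard_univ] at this
    simp at this
    omega
  · have key : ∀ d, S.IsT d → ∃ i, ∃ a : Fin 4, d = (S.φ ^ a.1) (S.term i) := by
      intro d h
      obtain ⟨i, e | e | e | e⟩ := isT_cases h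
      exacts [⟨i, 0, e⟩, ⟨i, 1, e⟩, ⟨i, 2, e⟩, ⟨i, 3, e⟩]
    rintro ⟨⟨d, j⟩, hj⟩ (h | h)
    · obtain ⟨i, a, e⟩ := key d h
      have := isT_norm hw h
      exact ⟨(i, a, true, ⟨j, Nat.lt_succ_of_le (le_of_le_of_eq hj this)⟩), trivial, by
        simp [← e]⟩
    · obtain ⟨i, a, e⟩ := key _ h
      have := isT_norm hw h
      rw [norm_α hw] at this
      exact ⟨(i, a, false, ⟨j, Nat.lt_succ_of_le (le_of_le_of_eq hj this)⟩), trivial, by
        simp only at e; simp [← e, S.αα]⟩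

section
variable (C : Cut S w H fs μ) (hw : S.Pre w) (sp : SPath S dd r)
  (red : (FreeGroup.mk (pw w dd r)).toWord = pw w dd r)
include C hw sp

theorem Pt.back {p : Bool × ℕ} {x y : Seg w} (h : Pt S w dd r p x)
    (a : Ar H fs (QD S dd r) x y) : ¬S.IsT y.1.1 ∧ MP_c1f5fe_lc.slet y =
      (ptl (pw w dd r) p).map linv ∧ Ar H fs (QD S dd r) y x := by
  obtain ⟨h1, h2, h3, -⟩ := a.back C hw qd_α qd_t (onp_nt sp h.onp).1 (h.isLt hw)
  exact ⟨h1, by rw [h2, h.slet hw], h3 (Or.inl h.onp)⟩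

theorem fol_reg {p p' : Bool × ℕ} {x x' : Seg w} (h : Pt S w dd r p x) (h' : Pt S w dd r p' x')
    (f : Fol p p') : H.Reg (fun z => QD S dd r z.1.1) (fs x) x' := by
  have g := h.gp' C hw
  have g' := h'.gp
  obtain ⟨e, f⟩ := f
  rw [e] at g'
  refine gp_reg C hw sp g ?_
  convert g' using 1
  cases hb : p.1 <;> simp [hb] at f ⊢ <;> omega

omit hw sp in
theorem ar_qb {x y : Seg w} (l : Lt x) (a : Ar H fs (QD S dd r) x y) :
    QD S dd r (fs y).1.1 ∧ BD S w dd r (fs y) ∧ 1 ≤ (fs y).1.2 := by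
  obtain ⟨-, h2, h3⟩ := a.lt C l
  have : 1 ≤ (fs y).1.2 := by rw [h3]; simp
  exact ⟨by rw [h3]; exact h2, Or.inl this, this⟩

include red

theorem fol_ne {p p' : Bool × ℕ} {x x' y' : Seg w} (h : Pt S w dd r p x)
    (h' : Pt S w dd r p' x') (f : Fol p p') (a : Ar H fs (QD S dd r) x' y') : y' ≠ x := by
  rintro rfl
  have := (h'.back C hw sp a).2.1
  rw [h.slet hw] at this
  exact fol_red red f h.lt h'.lt this

theorem good_two {p p' : Bool × ℕ} {x x' y' : Seg w} (h : Pt S w dd r p x)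
    (h' : Pt S w dd r p' x') (f : Fol p p') (a : Ar H fs (QD S dd r) x' y')
    (g : Good S w dd r H (fs x)) (e : Seg w) (q : QD S dd r e.1.1) (b : BD S w dd r e)
    (R : H.Reg (fun z => QD S dd r z.1.1) (fs x) e) : e = fs x ∨ e = fs y' := by
  obtain ⟨e0, -, -, -, -, g⟩ := g
  obtain ⟨q1, b1, -⟩ := ar_qb C (h'.isLt hw) a
  rcases g _ q1 b1 (EqvGen.trans _ _ _ (fol_reg C hw sp h h' f) a.reg) with E | E
  · exact absurd (fs.injective E) (fol_ne C hw sp red h h' f a)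
  · rw [E]; exact g e q b R

theorem good_fol {p p' q' : Bool × ℕ} {x x' y' : Seg w} (h : Pt S w dd r p x)
    (h' : Pt S w dd r p' x') (f : Fol p p') (a : Ar H fs (QD S dd r) x' y')
    (g : Good S w dd r H (fs x)) (hq : Pt S w dd r q' y') :
    ∃ q y, Pt S w dd r q y ∧ Fol q' q ∧ Ar H fs (QD S dd r) x y := by
  have two := good_two C hw sp red h h' f a g
  have R : H.Reg (fun z => QD S dd r z.1.1) (fs x) (fs y') :=
    EqvGen.trans _ _ _ (fol_reg C hw sp h h' f) a.reg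
  rcases fol_or hq.lt with ⟨q, fq, lq⟩ | E
  · obtain ⟨y, hy⟩ := pt_ex (S := S) hw lq
    obtain ⟨z, az⟩ := ar_ex C qd_t (hy.isLt hw) (QD := QD S dd r)
    obtain ⟨q1, b1, -⟩ := ar_qb C (hy.isLt hw) az
    rcases two _ q1 b1 (EqvGen.trans _ _ _ R (EqvGen.trans _ _ _ (fol_reg C hw sp hq hy fq)
      az.reg)) with E | E <;> obtain rfl := fs.injective E
    · exact ⟨q, y, hy, fq, (hy.back C hw sp az).2.2⟩
    · obtain rfl := (hy.back C hw sp az).2.2.unique (h'.back C hw sp a).2.2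
      obtain rfl := hy.uniq' sp h'
      obtain rfl := fol_left fq f
      exact absurd (hq.uniq h) (fol_ne C hw sp red h h' f a)
  · have g' := hq.gp' C hw
    rw [E] at g'
    obtain ⟨e, e0, q1, b1, R1⟩ := gp_end C hw sp g'
    rcases two e q1 b1 (EqvGen.trans _ _ _ R R1) with rfl | rfl
    · rw [C.fs_lt _ (h.isLt hw)] at e0; simp at e0
    · rw [C.fs_lt _ (hq.isLt hw)] at e0; simp at e0

omit red in
theorem qb_cases {q : Seg w} (hq : QD S dd r q.1.1) (b : BD S w dd r q) :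
    q ∈ TS S w ∨ q = sg0 w (dd 0) ∨ q = sg0 w (S.α (dd (r - 1))) ∨
      ∃ p x, Pt S w dd r p x ∧ q = fs x := by
  rcases hq with o | t
  swap
  · exact Or.inl t
  right
  by_cases l : 1 ≤ q.1.2
  · obtain ⟨x, rfl⟩ := fs.surjective q
    have lx := lt_of_fs C l
    rw [C.fs_lt x lx] at o
    obtain ⟨p, hp⟩ := pt_of hw o lx
    exact Or.inr (Or.inr ⟨p, x, hp, rfl⟩)
  · have n : ¬Inn S dd r q.1.1 := b.resolve_left l
    rw [eq_sg0 (x := q) (by omega)]
    obtain ⟨i, hi, e | e⟩ := o <;> rw [e] at n ⊢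
    · rcases Nat.eq_zero_or_pos i with rfl | p
      · exact Or.inl rfl
      · exact absurd ⟨i - 1, by omega, by rw [show i - 1 + 1 = i by omega]⟩ n
    · by_cases p : i + 1 < r
      · exact absurd ⟨i, p, (sp.link i p).symm⟩ n
      · rw [show i = r - 1 by omega]; exact Or.inr (Or.inl rfl)

theorem mono_card : ({q : Seg w | QD S dd r q.1.1 ∧ BD S w dd r q ∧
    H.Disc (fun z => QD S dd r z.1.1) q ∧ ∀ e, QD S dd r e.1.1 → BD S w dd r e →
      H.Reg (fun z => QD S dd r z.1.1) q e → e = q}).ncard ≤ 16 * k + 4 := by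
  have one : ∀ p, (fs '' {x | Pt S w dd r p x}).ncard ≤ 1 := fun p => by
    rw [Set.ncard_le_one_iff]
    rintro _ _ ⟨x, hx, rfl⟩ ⟨y, hy, rfl⟩
    rw [Pt.uniq hx hy]
  refine le_trans (Set.ncard_le_ncard (t := ((TS S w ∪ {sg0 w (dd 0), sg0 w (S.α (dd (r - 1)))}) ∪
    fs '' {x | Pt S w dd r (true, (pw w dd r).length - 1) x}) ∪
    fs '' {x | Pt S w dd r (false, 0) x}) ?_) ?_
  · rintro q ⟨hq, b, -, o⟩
    rcases qb_cases C hw sp hq b with t | t | t | ⟨p, x, hp, rfl⟩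
    · exact Or.inl (Or.inl (Or.inl t))
    · exact Or.inl (Or.inl (Or.inr (Or.inl t)))
    · exact Or.inl (Or.inl (Or.inr (Or.inr t)))
    rcases fol_or hp.lt with ⟨p', f, l⟩ | E
    · obtain ⟨x', h'⟩ := pt_ex (S := S) hw l
      obtain ⟨y', a⟩ := ar_ex C qd_t (h'.isLt hw) (QD := QD S dd r)
      obtain ⟨q1, b1, -⟩ := ar_qb C (h'.isLt hw) a
      exact absurd (fs.injective (o _ q1 b1
        (EqvGen.trans _ _ _ (fol_reg C hw sp hp h' f) a.reg))) (fol_ne C hw sp red hp h' f a)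
    · obtain ⟨b, s⟩ := p
      cases b
      · obtain rfl : s = 0 := by simpa using E
        exact Or.inr ⟨x, hp, rfl⟩
      · obtain rfl : s = (pw w dd r).length - 1 := by simp at E; omega
        exact Or.inl (Or.inr ⟨x, hp, rfl⟩)
  · have h1 := ts_card hw
    have h2 := Set.ncard_union_le (TS S w) {sg0 w (dd 0), sg0 w (S.α (dd (r - 1)))}
    have h3 : ({sg0 w (dd 0), sg0 w (S.α (dd (r - 1)))} : Set (Seg w)).ncard ≤ 2 :=
      (Set.ncard_insert_le _ _).trans (by simp)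
    refine (Set.ncard_union_le _ _).trans ?_
    have h4 := Set.ncard_union_le (TS S w ∪ {sg0 w (dd 0), sg0 w (S.α (dd (r - 1)))})
      (fs '' {x | Pt S w dd r (true, (pw w dd r).length - 1) x})
    have h5 := one (true, (pw w dd r).length - 1)
    have h6 := one (false, 0)
    omega

omit red in
theorem at_card (k1 : K1) :
    ncycAt H.σ (fun d => QD S dd r d.1.1 ∧ BD S w dd r d) ≤ 16 * k + 2 := by
  have := k1.at_le H.σ (fun d => QD S dd r d.1.1 ∧ BD S w dd r d)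
    (Sum.elim (fun x : TS S w => x.1)
      fun b : Bool => if b then sg0 w (dd 0) else sg0 w (S.α (dd (r - 1)))) ?_
  · rw [Nat.card_sum, Nat.card_coe_set_eq] at this
    have h1 := ts_card hw
    simp at this
    omega
  · rintro q ⟨hq, b⟩
    rcases qb_cases C hw sp hq b with t | t | t | ⟨p, x, hp, rfl⟩
    · exact ⟨.inl ⟨q, t⟩, Perm.SameCycle.refl _ _⟩
    · exact ⟨.inr true, by rw [t]; exact Perm.SameCycle.refl _ _⟩
    · exact ⟨.inr false, by rw [t]; exact Perm.SameCycle.refl _ _⟩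
    · obtain ⟨i, x₀, e, s⟩ := node_sc C (x := fs x) (by rw [C.fs_lt _ (hp.isLt hw)]; simp)
      exact ⟨.inl ⟨x₀, Or.inl (by rw [e]; exact ⟨i, Perm.SameCycle.refl _ _⟩)⟩, s⟩

omit red in
theorem reach_b (q : Seg w) (hq : QD S dd r q.1.1) :
    ∃ n : ℕ, BD S w dd r ((H.nx fun z => QD S dd r z.1.1)^[n] q) := by
  have hl : ∀ q : Seg w, QD S dd r q.1.1 → Lt q →
      BD S w dd r ((H.nx fun z => QD S dd r z.1.1) q) := fun q hq l =>
    Or.inl (sc_pos C (nxt_sc (nx_nxt C hq)) (by rw [C.α_eq]; unfold Lt at l; simp only; omega))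
  have st : ∀ d e, QD S dd r d → QD S dd r e →
      Nxt H.σ (fun z => QD S dd r z.1.1) (H.α (sgn w d)) (sg0 w e) →
      (∃ n : ℕ, BD S w dd r ((H.nx fun z => QD S dd r z.1.1)^[n] (sgn w e))) →
      ∃ n : ℕ, BD S w dd r ((H.nx fun z => QD S dd r z.1.1)^[n] (sgn w d)) := by
    rintro d e qd qe N ⟨n, hn⟩
    have E := Nxt.unique (nx_nxt C (x := sgn w d) qd) N
    by_cases l : Lt (sg0 w e)
    · exact ⟨2, by
        rw [show (2 : ℕ) = 1 + 1 from rfl, iterate_succ_apply, E]; exact hl _ qe l⟩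
    · have : sg0 w e = sgn w e := Subtype.ext (Prod.ext rfl (nlt l))
      exact ⟨n + 1, by rwa [iterate_succ_apply, E, this]⟩
  by_cases l : Lt q
  · exact ⟨1, hl q hq l⟩
  have e : q = sgn w q.1.1 := Subtype.ext (Prod.ext rfl (nlt l))
  rcases hq with ⟨i, hi, o | o⟩ | t
  · rw [e, o]
    obtain ⟨m, hm⟩ : ∃ m, i + m + 1 = r := ⟨r - 1 - i, by omega⟩
    clear o
    induction m generalizing i with
    | zero =>
      refine ⟨1, (end_nx C (Or.inl ⟨i, hi, Or.inl rfl⟩) ?_).2⟩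
      rw [show i = r - 1 by omega]
      exact not_inn_last sp
    | succ m ih =>
      exact st _ _ (Or.inl ⟨i, hi, Or.inl rfl⟩) (Or.inl ⟨i + 1, by omega, Or.inl rfl⟩)
        (nxt_top C sp (by omega)) (ih (i + 1) (by omega) (by omega))
  · rw [e, o]
    clear o
    induction i with
    | zero =>
      refine ⟨1, (end_nx C (Or.inl ⟨0, hi, Or.inr rfl⟩) ?_).2⟩
      rw [S.αα]
      exact not_inn_first sp
    | succ m ih =>
      exact st _ _ (Or.inl ⟨m + 1, hi, Or.inr rfl⟩) (Or.inl ⟨m, by omega, Or.inr rfl⟩)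
        (nxt_bot C sp hi) (ih (by omega))
  · exact ⟨0, Or.inr (not_inn_t sp t)⟩

theorem bad_card (k1 : K1) (k5 : K5) : ({q : Seg w | QD S dd r q.1.1 ∧ BD S w dd r q ∧
    ¬Good S w dd r H q}).ncard ≤ 160 * k + 16 := by
  have h := k5.countB H (fun z => QD S dd r z.1.1) (BD S w dd r) C.con ?_
    ⟨sg0 w (dd 0), Or.inl ⟨0, sp.pos, Or.inl rfl⟩⟩ ?_ ?_ (reach_b C hw sp)
  · have h1 := mono_card C hw sp red
    have h2 := at_card C hw sp k1
    have h3 := C.chi
    rw [← Nat.card_coe_set_eq] at h1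
    have h4 : ({q : Seg w | QD S dd r q.1.1 ∧ BD S w dd r q ∧ ¬Good S w dd r H q}).ncard ≤
        ({q : Seg w | QD S dd r q.1.1 ∧ BD S w dd r q ∧
          ¬(H.Disc (fun z => QD S dd r z.1.1) q ∧ Good S w dd r H q)}).ncard :=
      Set.ncard_le_ncard fun q hq => ⟨hq.1, hq.2.1, fun g => hq.2.2 g.2⟩
    rw [← Nat.card_coe_set_eq
      {q : Seg w | QD S dd r q.1.1 ∧ BD S w dd r q ∧
          ¬(H.Disc (fun z => QD S dd r z.1.1) q ∧ Good S w dd r H q)}] at h4
    change (Nat.card ↑{q : Seg w | QD S dd r q.1.1 ∧ BD S w dd r q ∧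
          ¬(H.Disc (fun z => QD S dd r z.1.1) q ∧ Good S w dd r H q)} : ℤ) ≤
      6 * (ncycAt H.σ (fun d => QD S dd r d.1.1 ∧ BD S w dd r d) - H.chi) +
      4 * Nat.card ↑{q : Seg w | QD S dd r q.1.1 ∧ BD S w dd r q ∧
        H.Disc (fun z => QD S dd r z.1.1) q ∧ ∀ e, QD S dd r e.1.1 → BD S w dd r e →
        H.Reg (fun z => QD S dd r z.1.1) q e → e = q} at h
    omega
  · intro q hq
    refine ⟨by beta_reduce; rw [C.α_eq]; exact qd_α _ hq, fun e => ?_⟩
    have e1 : S.α q.1.1 = q.1.1 := by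
      have := C.α_eq q
      rw [e] at this
      exact (congrArg Prod.fst this).symm
    have e2 := fix_one hw e1
    rcases hq with ⟨i, hi, o | o⟩ | t | t
    · rw [o] at e1; exact (sp.inj i hi i hi).2 e1.symm
    · rw [o, S.αα] at e1; exact (sp.inj i hi i hi).2 e1
    · have := isT_norm hw t
      rw [e2] at this; simp at this
    · have := isT_norm hw t
      rw [e1, e2] at this; simp at this
  · intro d
    by_cases l : 1 ≤ d.1.2
    · exact ⟨fun _ => Or.inl l, fun _ => Or.inl (sc_pos C ⟨1, by simp⟩ l)⟩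
    · rw [eq_sg0 (x := d) (by omega), σ_sg0 C]
      simp [BD, sg0, Inn]
  · intro q hq nb
    have l : ¬1 ≤ q.1.2 := fun l => nb (Or.inl l)
    obtain ⟨i, hi, s⟩ : Inn S dd r q.1.1 := by
      by_contra n; exact nb (Or.inr n)
    have o : OnP S.toHMap dd r q.1.1 :=
      hq.resolve_right fun t => not_inn_t sp t ⟨i, hi, s⟩
    rw [eq_sg0 (x := q) (by omega)]
    have ne := (sp.inj (i + 1) hi i (by omega)).2
    rcases (sp.inner i hi).2 _ o s with e | e <;> rw [e]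
    · exact ⟨sg0 w (S.α (dd i)), Or.inl ⟨i, by omega, Or.inr rfl⟩,
        fun E => ne (congrArg (fun x : Seg w => x.1.1) E).symm, sc_sg0' C (sp.link i hi).symm⟩
    · exact ⟨sg0 w (dd (i + 1)), Or.inl ⟨i + 1, hi, Or.inl rfl⟩,
        fun E => ne (congrArg (fun x : Seg w => x.1.1) E), sc_sg0' C (sp.link i hi)⟩

theorem bp_card (k1 : K1) (k5 : K5) :
    ({p | ∃ x, Pt S w dd r p x ∧ (Cst S w dd r H fs p ∨ ¬Good S w dd r H (fs x))}).Finite ∧
    ({p | ∃ x, Pt S w dd r p x ∧ (Cst S w dd r H fs p ∨ ¬Good S w dd r H (fs x))}).ncard ≤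
      176 * k + 16 := by
  have h1 := ncard_le_rel (s := {p | ∃ x, Pt S w dd r p x ∧ Cst S w dd r H fs p}) (t := TS S w)
    (fun p y => ∃ x, Pt S w dd r p x ∧ Ar H fs (QD S dd r) x y) ?_ ?_ (Set.toFinite _)
  have h2 := ncard_le_rel (s := {p | ∃ x, Pt S w dd r p x ∧ ¬Good S w dd r H (fs x)})
    (t := {q : Seg w | QD S dd r q.1.1 ∧ BD S w dd r q ∧ ¬Good S w dd r H q})
    (fun p y => ∃ x, Pt S w dd r p x ∧ y = fs x) ?_ ?_ (Set.toFinite _)
  · have e : {p | ∃ x, Pt S w dd r p x ∧ (Cst S w dd r H fs p ∨ ¬Good S w dd r H (fs x))} =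
        {p | ∃ x, Pt S w dd r p x ∧ Cst S w dd r H fs p} ∪
          {p | ∃ x, Pt S w dd r p x ∧ ¬Good S w dd r H (fs x)} := by
      ext p
      simp only [Set.mem_setOf_eq, Set.mem_union, and_or_left, exists_or]
    rw [e]
    refine ⟨h1.1.union h2.1, (Set.ncard_union_le _ _).trans ?_⟩
    have := ts_card hw
    have := bad_card C hw sp red k1 k5
    omega
  · rintro p ⟨x, hx, g⟩
    have := C.fs_lt x (hx.isLt hw)
    exact ⟨fs x, ⟨by rw [this]; exact Or.inl hx.onp, Or.inl (by rw [this]; simp), g⟩, x, hx, rfl⟩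
  · rintro p - p' - y ⟨x, hx, rfl⟩ ⟨x', hx', e⟩
    obtain rfl := fs.injective e
    exact hx.uniq' sp hx'
  · rintro p ⟨x, hx, c⟩
    obtain ⟨y, a⟩ := ar_ex C qd_t (hx.isLt hw) (QD := QD S dd r)
    obtain ⟨l, q, -⟩ := a.lt C (hx.isLt hw)
    refine ⟨y, q.resolve_left fun o => ?_, x, hx, a⟩
    obtain ⟨p', hp'⟩ := pt_of hw o l
    exact c ⟨p', x, y, hx, a, hp'⟩
  · rintro p - p' - y ⟨x, hx, a⟩ ⟨x', hx', a'⟩
    obtain rfl := (hx.back C hw sp a).2.2.unique (hx'.back C hw sp a').2.2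
    exact hx.uniq' sp hx'

end

end Pool.Agent.Lib.MP_c1f5fe_lc.TB1
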