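import Pool.Agent.Lib.MP_c1f5fe_lc.SpecC
import Pool.Agent.Lib.MP_c1f5fe_lc.TB1c

/-! Normal form, first step: no face touches both sides. -/

namespace Pool.Agent.Lib.MP_c1f5fe_lc.Norm

open Equiv Function Relation Sel TB1

theorem closed_sc {X : Type} [Finite X] {π : Perm X} {R : X → Prop} (hR : ∀ x, R x → R (π x))
    {a e : X} (h : π.SameCycle a e) (ha : R a) : R e := by
  obtain ⟨n, -, rfl⟩ := h.exists_pow_eq'
  clear h
  induction n with
  | zero => simpa using ha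
  | succ n ih => rw [pow_succ', Perm.mul_apply]; exact hR _ ih

variable {k t : ℕ} {I K : Type} {P : Piece t I} {C : Ctx t K}

section defs
variable {D : Type} (S : Sk k (glue P C) (glueU P C) D)

def Inl (d : D) : Prop := ∃ x, S.vx d = some (.inl x)

def Out (d : D) : Prop := ∃ y, S.vx d = some (.inr y) ∧ y ∉ Set.range C.β

def NI (n : ℕ) : Prop :=
  ∃ T : Set D, T.ncard ≤ n ∧ ∀ d, ¬Inl S d → ¬Out S d → ∃ e ∈ T, S.toHMap.σ.SameCycle e d

def PA : Prop := ∀ d, Inl S d → ¬Out S (S.α d)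

def Mix : Set D := {d | Inl S d ∧ ∃ e, S.φ.SameCycle d e ∧ Out S e}

end defs

variable {D : Type} {S : Sk k (glue P C) (glueU P C) D}

theorem inl_congr {D' : Type} {S' : Sk k (glue P C) (glueU P C) D'} {d : D} {e : D'}
    (h : S'.vx e = S.vx d) : Inl S' e ↔ Inl S d := by unfold Inl; rw [h]

theorem out_congr {D' : Type} {S' : Sk k (glue P C) (glueU P C) D'} {d : D} {e : D'}
    (h : S'.vx e = S.vx d) : Out S' e ↔ Out S d := by unfold Out; rw [h]

theorem Inl.not_out {d : D} (h : Inl S d) : ¬Out S d := by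
  obtain ⟨x, h⟩ := h
  rintro ⟨y, h', -⟩
  rw [h] at h'
  simp at h'

theorem ni_mch [Finite D] {n : ℕ} {p q : Unit → D} {S' : Sk k (glue P C) (glueU P C) (D ⊕ Unit × Bool)}
    (M : MCh S p q S') (h : NI S n) : NI S' n := by
  obtain ⟨T, hT, h⟩ := h
  refine ⟨Sum.inl '' T, (Set.ncard_image_le (Set.toFinite _)).trans hT, ?_⟩
  have key : ∀ d, ¬Inl S' (.inl d) → ¬Out S' (.inl d) →
      ∃ e ∈ Sum.inl '' T, S'.toHMap.σ.SameCycle e (.inl d) := fun d a b => by
    obtain ⟨e, he, s⟩ := h d (fun c => a ((inl_congr (M.vx_inl d)).2 c))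
      (fun c => b ((out_congr (M.vx_inl d)).2 c))
    exact ⟨_, ⟨e, he, rfl⟩, (M.sc _ _).2 s⟩
  rintro (d | ⟨j, b⟩) a1 a2
  · exact key d a1 a2
  · have v := S'.vx_σ (.inr (j, b))
    have : ∃ d, S'.toHMap.σ (.inr (j, b)) = .inl d := by
      rw [HMap.σ_apply, M.α_inr]
      cases b
      exacts [⟨_, M.φ_t j⟩, ⟨_, M.φ_f j⟩]
    obtain ⟨d, e⟩ := this
    rw [← HMap.σ_apply, e] at v
    obtain ⟨u, hu, s⟩ := key d (fun c => a1 ((inl_congr v).1 c)) (fun c => a2 ((out_congr v).1 c))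
    rw [← e] at s
    exact ⟨u, hu, by simpa using s⟩

theorem ni_same {n : ℕ} {S' : Sk k (glue P C) (glueU P C) D} (M : Same S S') (h : NI S n) :
    NI S' n := by
  obtain ⟨T, hT, h⟩ := h
  refine ⟨T, hT, fun d a b => ?_⟩
  obtain ⟨e, he, s⟩ := h d (fun c => a ((inl_congr (by rw [M.vx])).2 c))
    (fun c => b ((out_congr (by rw [M.vx])).2 c))
  exact ⟨e, he, (M.sc _ _).2 s⟩

theorem ni_nf [Finite D] {b : ℕ} (h : S.Nf b) : NI S (b + t) := by
  choose g hg using fun (s : Fin t) (h : ∃ d, S.vx d = some (.inr (C.β s))) => h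
  refine ⟨{d | S.Non d} ∪ {d | ∃ s h, d = g s h}, (Set.ncard_union_le _ _).trans ?_, ?_⟩
  · have h1 := h.non
    have h2 := (ncard_le_rel (s := {d | ∃ s h, d = g s h}) (t := (Set.univ : Set (Fin t)))
      (fun d s => ∃ h, d = g s h) (fun d ⟨s, h⟩ => ⟨s, trivial, h⟩)
      (fun _ _ _ _ _ ⟨_, e⟩ ⟨_, e'⟩ => e.trans e'.symm) Set.finite_univ).2
    rw [← Nat.card_coe_set_eq]
    simp only [Set.ncard_univ, Nat.card_eq_fintype_card, Fintype.card_fin] at h2
    exact add_le_add h1 h2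
  · intro d a b
    rcases e : S.vx d with _ | x | y
    · exact ⟨d, Or.inl (Or.inl e), Perm.SameCycle.refl _ _⟩
    · exact absurd ⟨x, e⟩ a
    · obtain ⟨s, rfl⟩ : y ∈ Set.range C.β := by
        by_contra n; exact b ⟨y, e, n⟩
      exact ⟨g s ⟨d, e⟩, Or.inr ⟨s, _, rfl⟩, S.vx_cyc _ _ _ (hg s _) e⟩

theorem pa_nf {b : ℕ} (h : S.Nf b) : PA S := by
  rintro d ⟨x, hx⟩ ⟨y, hy, n⟩
  obtain ⟨s, -, e⟩ := h.p2 d _ _ ⟨hx, hy⟩
  exact n ⟨s, e⟩

theorem stepA [Finite D] (mc : MChordSt) {n : ℕ} {w : D → FG k} (top : S.Top) (val : S.Valid w)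
    (pa : PA S) (ni : NI S n) (ne : (Mix S).Nonempty) :
    ∃ (S' : Sk k (glue P C) (glueU P C) (D ⊕ Unit × Bool)) (w' : _ → FG k), S'.Top ∧ S'.Valid w' ∧
      PA S' ∧ NI S' n ∧ (Mix S').ncard < (Mix S).ncard := by
  obtain ⟨d, hd, e, s, he⟩ := ne
  obtain ⟨a, na, ia, sa⟩ : ∃ a, ¬Inl S a ∧ Inl S (S.φ a) ∧ S.φ.SameCycle a e := by
    obtain ⟨z, m, m0, e1, iz, hm⟩ := exists_nxt (Q := Inl S) s.symm hd
    obtain ⟨m, rfl⟩ : ∃ l, m = l + 1 := ⟨m - 1, by omega⟩
    refine ⟨(S.φ ^ m) e, ?_, by rwa [← Perm.mul_apply, ← pow_succ', e1],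
      Perm.SameCycle.symm ⟨m, by simp⟩⟩
    rcases Nat.eq_zero_or_pos m with rfl | p
    · exact fun c => c.not_out he
    · exact hm m p (by omega)
  obtain ⟨c, m, m0, e1, nc, hm⟩ := exists_nxt (Q := fun x => ¬Inl S x) (Perm.SameCycle.refl S.φ a) na
  obtain ⟨m, rfl⟩ : ∃ l, m = l + 1 := ⟨m - 1, by omega⟩
  have run : ∀ i, 0 < i → i ≤ m → Inl S ((S.φ ^ i) a) := fun i a b =>
    not_not.1 (hm i a (by omega))
  have m1 : 0 < m := by
    rcases Nat.eq_zero_or_pos m with rfl | p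
    · simp at e1; exact absurd (e1 ▸ ia) nc
    · exact p
  have oa : ¬Out S a := by
    have := pa (S.α a) ((inl_congr (S.vx_φ a)).1 ia)
    rwa [S.αα] at this
  rw [pow_succ', Perm.mul_apply] at e1
  have oc : ¬Out S c := fun o =>
    pa _ (run m m1 le_rfl) ((out_congr (S.vx_φ _)).1 (e1.symm ▸ o))
  have ac : c ≠ a := by
    rintro rfl
    obtain ⟨i, hi, rfl⟩ := closed_sc (R := fun x => ∃ i ≤ m, x = (S.φ ^ i) c) (by
      rintro _ ⟨i, hi, rfl⟩
      rcases hi.lt_or_eq with l | rfl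
      · exact ⟨i + 1, l, by rw [pow_succ', Perm.mul_apply]⟩
      · exact ⟨0, Nat.zero_le _, e1⟩) sa ⟨0, Nat.zero_le _, rfl⟩
    rcases Nat.eq_zero_or_pos i with rfl | p
    · exact oa he
    · exact (run i p hi).not_out he
  have sp : S.φ.SameCycle (S.φ⁻¹ a) a := ⟨1, by simp⟩
  obtain ⟨S', M⟩ := mc k _ D Unit _ _ S (fun _ => S.φ⁻¹ a) (fun _ => (S.φ ^ m) a)
    (fun _ => ⟨fun h => ac (by rw [← e1, ← h]; simp), sp.trans ⟨m, by simp⟩, fun h => by
      obtain ⟨y, hy, -⟩ := he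
      obtain ⟨i, h⟩ := h
      rw [S.term_vx i e (h.trans (sp.trans sa))] at hy
      simp at hy⟩) (fun _ _ _ => rfl) (fun _ => Or.inl fun u z su hz hU => by
      have h3 := (S.cap u z hz hU).2.1
      have h4 : S.φ (S.φ (S.φ a)) = a :=
        closed_sc (R := fun x => S.φ (S.φ (S.φ x)) = x) (fun x h => by rw [h]) (su.symm.trans sp) h3
      rcases closed_sc (R := fun x => x = a ∨ x = S.φ a ∨ x = S.φ (S.φ a)) (by
        rintro x (rfl | rfl | rfl)
        exacts [Or.inr (Or.inl rfl), Or.inr (Or.inr rfl), Or.inl h4]) sa (Or.inl rfl)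
        with rfl | rfl | rfl
      · exact oa he
      · exact ia.not_out he
      · exact pa _ ia ((out_congr (S.vx_φ _)).1 he))
  obtain ⟨θ, hθ⟩ := val.pot
  have vt := M.vx_t ()
  have vf := M.vx_f ()
  rw [show S.φ (S.φ⁻¹ a) = a by simp] at vt
  rw [e1] at vf
  have ni' : ∀ x, ¬Inl S' (.inr x) := by
    rintro ⟨⟨⟩, _ | _⟩
    exacts [fun h => nc ((inl_congr vf).1 h), fun h => na ((inl_congr vt).1 h)]
  have no' : ∀ x, ¬Out S' (.inr x) := by
    rintro ⟨⟨⟩, _ | _⟩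
    exacts [fun h => oc ((out_congr vf).1 h), fun h => oa ((out_congr vt).1 h)]
  refine ⟨S', _, ⟨M.con top.1, by rw [M.chi]; exact top.2⟩, M.valid w θ val hθ, ?_, ni_mch M ni, ?_⟩
  · rintro (x | x) h
    · rw [M.α_inl, out_congr (M.vx_inl _)]
      exact pa x ((inl_congr (M.vx_inl _)).1 h)
    · exact absurd h (ni' x)
  · have mem : S.φ a ∈ Mix S := ⟨ia, e, by simpa using sa, he⟩
    refine lt_of_le_of_lt (Set.ncard_le_ncard (t := Sum.inl '' (Mix S \ {S.φ a})) ?_)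
      (lt_of_le_of_lt (Set.ncard_image_le (Set.toFinite _))
        (Set.ncard_diff_singleton_lt_of_mem mem))
    rintro (x | x) ⟨h, y | y, sy, oy⟩
    · refine ⟨x, ⟨⟨(inl_congr (M.vx_inl _)).1 h, y, M.face _ _ sy, (out_congr (M.vx_inl _)).1 oy⟩,
        ?_⟩, rfl⟩
      rintro rfl
      have := closed_sc (R := fun x => x = .inr ((), false) ∨ ∃ i ≤ m, x = .inl ((S.φ ^ i) a)) (by
        rintro _ (rfl | ⟨i, hi, rfl⟩)
        · exact Or.inr ⟨0, Nat.zero_le _, by rw [M.φ_f]; simp⟩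
        rcases hi.lt_or_eq with l | rfl
        · have r1 := run (i + 1) (by omega) l
          rw [pow_succ', Perm.mul_apply] at r1
          refine Or.inr ⟨i + 1, l, ?_⟩
          rw [M.φ_inl, pow_succ', Perm.mul_apply]
          refine fun _ => ⟨fun h => na ?_, fun h => nc ?_⟩
          · rw [h] at r1; simpa using r1
          · rw [h, e1] at r1; exact r1
        · exact Or.inl (M.φ_q ())) sy (Or.inr ⟨1, m1, by simp⟩)
      rcases this with h | ⟨i, hi, h⟩
      · simp at h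
      · obtain rfl := Sum.inl.inj h
        rw [out_congr (M.vx_inl _)] at oy
        rcases Nat.eq_zero_or_pos i with rfl | p
        · exact oa oy
        · exact (run i p hi).not_out oy
    · exact absurd oy (no' y)
    · exact absurd h (ni' x)
    · exact absurd h (ni' x)

theorem colour (mc : MChordSt) {n : ℕ} (m : ℕ) : ∀ (D : Type) [Finite D]
    (S : Sk k (glue P C) (glueU P C) D) (w : D → FG k), S.Top → S.Valid w → PA S → NI S n →
    (Mix S).ncard = m → ∃ (D : Type) (_ : Finite D) (S : Sk k (glue P C) (glueU P C) D)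
      (w : D → FG k) (X : D → Prop), S.Top ∧ S.Valid w ∧ ColX S X ∧ NI S n := by
  induction m using Nat.strong_induction_on with
  | _ m ih =>
    intro D _ S w top val pa ni e
    rcases (Mix S).eq_empty_or_nonempty with h | h
    · refine ⟨D, inferInstance, S, w, fun d => ∃ e, S.φ.SameCycle d e ∧ Inl S e, top, val,
        ⟨fun d => by simp, fun d x h => ⟨d, Perm.SameCycle.refl _ _, x, h⟩, ?_, ?_⟩, ni⟩
      · rintro d y hy n ⟨e, s, he⟩
        exact (Set.eq_empty_iff_forall_notMem.1 h) e ⟨he, d, s.symm, y, hy, n⟩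
      · rintro d ⟨i, hi⟩ ⟨e, s, x, he⟩
        rw [S.term_vx i e (hi.trans s)] at he
        simp at he
    · obtain ⟨S', w', a, b, c, d, l⟩ := stepA mc top val pa ni h
      exact ih _ (e ▸ l) _ S' w' a b c d rfl

end Pool.Agent.Lib.MP_c1f5fe_lc.Norm
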