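import Pool.Agent.Lib.MP_c1f5fe_lc.Norm1

/-! Normal form, second step: moves that lower the number of bichromatic darts. -/

namespace Pool.Agent.Lib.MP_c1f5fe_lc.Norm

open Equiv Function Relation Sel TB1

theorem disc_pot {k : ℕ} {V D : Type} [Finite D] {G : SimpleGraph V} {U : Set V} {S : Sk k G U D}
    {w : D → FG k} (hw : S.Pre w) {Q : D → Prop} (qa : ∀ d, Q d → Q (S.α d)) {x : D}
    (h : S.toHMap.Disc Q x) (nt : ∀ d, S.toHMap.Reg Q x d → ¬S.IsT d) :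
    ∃ η : D → FG k, ∀ q, Q q → S.toHMap.Reg Q x q → η q * w q = η (S.toHMap.nx Q q) := by
  obtain ⟨θ, hθ⟩ := hw.pot
  obtain ⟨η, h1, h2⟩ := h.2 k w θ (fun d _ _ => hw.inv d) fun d r => hθ d (nt d r)
  refine ⟨η, fun q hq r => ?_⟩
  have N := ret_nxt S.toHMap.σ (qa q hq)
  have key := nxt_ind (C := fun z => S.toHMap.Reg Q x (S.toHMap.σ z) →
    η (S.toHMap.σ z) = η (S.toHMap.nx Q q)) N (fun z e _ => by rw [e]; rfl) (by
      intro z nq _ ih r
      have r1 : S.toHMap.Reg Q x (S.α (S.toHMap.σ z)) :=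
        EqvGen.trans _ _ _ r (EqvGen.rel _ _ (Or.inr ⟨nq, rfl⟩))
      have := h2 _ r1 fun c => nq (by have := qa _ c; rwa [S.αα] at this)
      rw [S.αα] at this
      rw [this]
      exact ih (EqvGen.trans _ _ _ r1 (EqvGen.rel _ _ (Or.inl rfl))))
  rw [HMap.σ_apply, S.αα] at key
  rw [h1 q r]
  exact key (EqvGen.trans _ _ _ r (EqvGen.rel _ _ (Or.inl rfl)))

theorem col_nxt {D : Type} {M : HMap D} {X : D → Prop} (h : ∀ d, X (M.φ d) ↔ X d) {x y : D}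
    (N : Nxt M.σ (M.Bi X) x y) : X y ↔ X (M.α x) := by
  have := nxt_ind (C := fun z => X y ↔ X (M.σ z)) N (fun z e => by rw [e]) (by
    intro z nb _ ih
    rw [ih, M.σ_apply (M.σ z), h]
    exact (not_not.1 nb).symm)
  rw [this, M.σ_apply, h]

theorem bi_α {D : Type} {M : HMap D} {X : D → Prop} {d : D} (h : M.Bi X d) : M.Bi X (M.α d) := by
  unfold HMap.Bi at *
  rw [M.αα]
  tauto

variable {k t : ℕ} {I K : Type}

def St (k : ℕ) (P : Piece t I) (C : Ctx t K) (n m : ℕ) : Prop :=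
  ∃ (D : Type) (_ : Finite D) (S : Sk k (glue P C) (glueU P C) D) (w : D → FG k) (X : D → Prop),
    S.Top ∧ S.Valid w ∧ ColX S X ∧ NI S n ∧ {d | S.toHMap.Bi X d}.ncard = m

variable {P : Piece t I} {C : Ctx t K} {D : Type} [Finite D] {S : Sk k (glue P C) (glueU P C) D}
  {w : D → FG k} {X : D → Prop} {n : ℕ}

theorem same_st {S' : Sk k (glue P C) (glueU P C) D} (M : Same S S') (top : S.Top)
    (val : S'.Valid w) (cx : ColX S X) (ni : NI S n) (h : ∀ d, X (S'.φ d) ↔ X d)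
    (h1 : ∀ d, S'.toHMap.Bi X d → S.toHMap.Bi X d) {x : D} (h2 : S.toHMap.Bi X x)
    (h3 : ¬S'.toHMap.Bi X x) : ∃ m < {d | S.toHMap.Bi X d}.ncard, St k P C n m :=
  ⟨_, Set.ncard_lt_ncard ⟨h1, fun c => h3 (c h2)⟩, D, inferInstance, S', w, X,
    ⟨M.con top.1, by rw [M.chi]; exact top.2⟩, val,
    ⟨h, fun d x e => cx.inl d x (by rwa [M.vx] at e), fun d x e => cx.inr d x (by rwa [M.vx] at e),
      fun d e => cx.term d ((M.isT d).1 e)⟩, ni_same M ni, rfl⟩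

open Classical in
theorem move2 (k1 : K1) (mv : MoveSt) (top : S.Top) (val : S.Valid w) (cx : ColX S X) (ni : NI S n)
    {x y : D} (bx : S.toHMap.Bi X x) (rx : ¬S.real x) (tx : ¬S.IsT x) (wx : w x = 1)
    (sx : S.toHMap.σ.SameCycle x (S.α x)) (N : Nxt S.toHMap.σ (S.toHMap.Bi X) x y)
    (ne : y ≠ S.α x) (f : ¬S.φ.SameCycle x (S.α y)) (ty : ¬S.IsT (S.α y))
    (nc : S.NoCap (S.α y)) : ∃ m < {d | S.toHMap.Bi X d}.ncard, St k P C n m := by
  have c1 := col_nxt cx.phi N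
  have c2 : S.toHMap.Bi X y := nxt_q N
  have c3 : X (S.α y) ↔ X x := by unfold HMap.Bi at *; tauto
  have ax : S.α x ≠ x := fun e => bx (by rw [e])
  obtain ⟨S', M, e1, e2, v⟩ := mv.m2 S x (S.α y) ax (fun e => by
    rw [S.α.injective e] at c1; exact bx c1) rx tx ty f nc sx (by rw [S.αα]; exact nxt_sc N) (by
      rw [S.αα]
      obtain ⟨h1, -, -, -, h2⟩ := k1.sc_same S.toHMap.σ x (S.α x) ax.symm sx
      intro s
      refine h1 (s.trans ((h2 y).2 ?_).symm)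
      obtain ⟨j, j0, e, -, hj⟩ := N
      exact ⟨j, j0, e, fun m a b e => hj m a b (e ▸ bi_α bx)⟩)
  refine same_st M top (v w val wx) cx ni (fun d => ?_) (fun d h => ?_) bx ?_
  · rw [e1, Perm.mul_apply, cx.phi, swap_apply_def]
    split_ifs with h h'
    · rw [h, c3]
    · rw [h', c3]
    · rfl
  · unfold HMap.Bi at *
    rw [e2, Perm.mul_apply, swap_apply_def] at h
    split_ifs at h with h1 h2
    · rw [S.αα, h1] at h; simp at h
    · rw [h2] at h; simp at h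
    · exact h
  · unfold HMap.Bi
    rw [e2, Perm.mul_apply, swap_apply_left, S.αα]
    simp

theorem mch_nxt {k : ℕ} {V D : Type} {G : SimpleGraph V} {U : Set V} {S : Sk k G U D}
    {p q : Unit → D} {S' : Sk k G U (D ⊕ Unit × Bool)} (M : MCh S p q S') {B : D → Prop}
    {B' : D ⊕ Unit × Bool → Prop} (h1 : ∀ d, B' (.inl d) ↔ B d) (h2 : ∀ x, ¬B' (.inr x)) {x y : D}
    (N : Nxt S.toHMap.σ B x y) : Nxt S'.toHMap.σ B' (.inl x) (.inl y) := by
  have st : ∀ d, S'.toHMap.σ (.inl d) = .inl (S.toHMap.σ d) ∨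
      ∃ z, S'.toHMap.σ (.inl d) = .inr z ∧ S'.toHMap.σ (.inr z) = .inl (S.toHMap.σ d) := by
    intro d
    simp only [HMap.σ_apply, M.α_inl]
    by_cases a : S.α d = p ()
    · exact Or.inr ⟨((), true), by rw [a, M.φ_p], by rw [M.α_inr, a]; exact M.φ_f _⟩
    by_cases b : S.α d = q ()
    · exact Or.inr ⟨((), false), by rw [b, M.φ_q], by rw [M.α_inr, b]; exact M.φ_t _⟩
    · exact Or.inl (M.φ_inl _ fun _ => ⟨a, b⟩)
  have qy := (h1 y).2 (nxt_q N)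
  refine nxt_ind (C := fun z => Nxt S'.toHMap.σ B' (.inl z) (.inl y)) N ?_ ?_
  · intro z e
    rcases st z with s | ⟨u, s, s'⟩
    · rw [← e, ← s]; exact nxt_one (by rwa [s, e])
    · rw [nxt_step (by rw [s]; exact h2 u), s, ← e, ← s']
      exact nxt_one (by rwa [s', e])
  · intro z nb _ ih
    rcases st z with s | ⟨u, s, s'⟩
    · rwa [nxt_step (by rwa [s, h1]), s]
    · rwa [nxt_step (by rw [s]; exact h2 u), s, nxt_step (by rwa [s', h1]), s']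

theorem move2' (k1 : K1) (mc : MChordSt) (mv : MoveSt) (ind : Indep (glue P C) (glueU P C))
    (top : S.Top) (val : S.Valid w) (cx : ColX S X) (ni : NI S n)
    {x y : D} (bx : S.toHMap.Bi X x) (rx : ¬S.real x) (tx : ¬S.IsT x) (wx : w x = 1)
    (sx : S.toHMap.σ.SameCycle x (S.α x)) (N : Nxt S.toHMap.σ (S.toHMap.Bi X) x y)
    (ne : y ≠ S.α x) (f : ¬S.φ.SameCycle x (S.α y)) (ty : ¬S.IsT (S.α y))
    (ry : ¬S.real (S.α y)) : ∃ m < {d | S.toHMap.Bi X d}.ncard, St k P C n m := by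
  by_cases nc : S.NoCap (S.α y)
  · exact move2 k1 mv top val cx ni bx rx tx wx sx N ne f ty nc
  obtain ⟨e, z, se, hz, hU⟩ : ∃ e z, S.φ.SameCycle (S.α y) e ∧ S.vx e = some z ∧ z ∈ glueU P C := by
    by_contra c
    exact nc fun e z a b h => c ⟨e, z, a, b, h⟩
  obtain ⟨re, h3, u, u', hu, hu', -⟩ := S.cap e z hz hU
  have r2 : S.real (S.φ (S.φ e)) := by
    have := S.real_α _ (S.cap (S.α (S.φ (S.φ e))) z (by rw [← S.vx_φ, h3, hz]) hU).1
    rwa [S.αα] at this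
  have ep : S.α y = S.φ e := by
    rcases closed_sc (R := fun x => x = e ∨ x = S.φ e ∨ x = S.φ (S.φ e)) (by
      rintro x (rfl | rfl | rfl)
      exacts [Or.inr (Or.inl rfl), Or.inr (Or.inr rfl), Or.inl h3]) se.symm (Or.inl rfl)
      with h | h | h
    · exact absurd (h ▸ re) ry
    · exact h
    · exact absurd (h ▸ r2) ry
  have nu : ∀ v, S.vx (S.φ e) = some v ∨ S.vx (S.φ (S.φ e)) = some v → v ∉ glueU P C := by
    rintro v (h | h) hv
    · obtain ⟨a, b, ha, hb, ab⟩ := S.real_adj e re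
      rw [← S.vx_φ, h] at hb
      rw [hz] at ha
      obtain rfl := Option.some.inj ha
      obtain rfl := Option.some.inj hb
      exact ind _ hU _ hv ab
    · obtain ⟨a, b, ha, hb, ab⟩ := S.real_adj _ r2
      rw [← S.vx_φ, h3, hz] at hb
      rw [h] at ha
      obtain rfl := Option.some.inj ha
      obtain rfl := Option.some.inj hb
      exact ind _ hv _ hU ab
  obtain ⟨S', M⟩ := mc k _ D Unit _ _ S (fun _ => e) (fun _ => S.φ e)
    (fun _ => ⟨fun h => ry (by rw [ep, ← h]; exact re), ⟨1, by simp⟩,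
      fun h => ty (by rw [ep]; exact (S.isT_φ e).2 h)⟩) (fun _ _ _ => rfl)
    (fun _ => Or.inr ⟨rfl, ⟨z, hU, hz⟩, nu⟩)
  obtain ⟨θ, hθ⟩ := val.pot
  set X' : D ⊕ Unit × Bool → Prop := Sum.elim X fun _ => X e with hX
  have b1 : ∀ d, S'.toHMap.Bi X' (.inl d) ↔ S.toHMap.Bi X d := fun d => by
    unfold HMap.Bi; rw [M.α_inl]; rfl
  have b2 : ∀ x, ¬S'.toHMap.Bi X' (.inr x) := fun ⟨j, b⟩ => by
    unfold HMap.Bi; rw [M.α_inr]; simp [hX]
  have cx' : ColX S' X' := by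
    refine ⟨?_, ?_, ?_, ?_⟩
    · rintro (d | ⟨⟨⟩, _ | _⟩)
      · by_cases a : d = e
        · rw [a, M.φ_p ()]; rfl
        by_cases b : d = S.φ e
        · rw [b, M.φ_q ()]; exact (cx.phi e).symm
        · rw [M.φ_inl d fun _ => ⟨a, b⟩]; exact cx.phi d
      · rw [M.φ_f]; exact cx.phi e
      · rw [M.φ_t]; exact (cx.phi _).trans (cx.phi e)
    · rintro (d | ⟨⟨⟩, _ | _⟩) v h
      · exact cx.inl d v (M.vx_inl d ▸ h)
      · exact (cx.phi e).1 ((cx.phi _).1 (cx.inl _ v (M.vx_f () ▸ h)))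
      · exact (cx.phi e).1 (cx.inl _ v (M.vx_t () ▸ h))
    · rintro (d | ⟨⟨⟩, _ | _⟩) v h hv
      · exact cx.inr d v (M.vx_inl d ▸ h) hv
      · exact fun c => cx.inr _ v (M.vx_f () ▸ h) hv ((cx.phi _).2 ((cx.phi e).2 c))
      · exact fun c => cx.inr _ v (M.vx_t () ▸ h) hv ((cx.phi e).2 c)
    · rintro (d | x) h
      · exact cx.term d ((M.isT_inl d).1 h)
      · exact absurd h (M.isT_inr x)
  have cd : {d | S'.toHMap.Bi X' d}.ncard = {d | S.toHMap.Bi X d}.ncard := by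
    rw [← Set.ncard_image_of_injective {d | S.toHMap.Bi X d}
      (Sum.inl_injective (β := Unit × Bool))]
    congr 1
    ext (d | x)
    · simp [b1]
    · simp [b2]
  rw [← cd]
  refine move2 k1 mv ⟨M.con top.1, by rw [M.chi]; exact top.2⟩ (M.valid w θ val hθ) cx'
    (ni_mch M ni) (x := .inl x) (y := .inl y) ((b1 x).2 bx) (by rwa [M.real_inl])
    (by rwa [M.isT_inl]) wx (by rwa [M.α_inl, M.sc]) (mch_nxt M b1 b2 N)
    (by rw [M.α_inl]; simpa using ne) (by rw [M.α_inl]; exact fun c => f (M.face _ _ c))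
    (by rwa [M.α_inl, M.isT_inl]) ?_
  intro u v su hv
  rw [M.α_inl, ep] at su
  rcases closed_sc (R := fun x => x = .inl (S.φ e) ∨ x = .inr ((), false)) (by
    rintro x (rfl | rfl)
    exacts [Or.inr (M.φ_q ()), Or.inl (M.φ_f ())]) su (Or.inl rfl) with rfl | rfl
  · exact nu v (Or.inl (M.vx_inl _ ▸ hv))
  · exact nu v (Or.inr (M.vx_f () ▸ hv))

theorem move3 (mv : MoveSt) (top : S.Top) (val : S.Valid w) (cx : ColX S X) (ni : NI S n)
    {Q : D → Prop} (qa : ∀ d, Q d → Q (S.α d)) (qb : ∀ d, Q d → ¬S.real d → S.toHMap.Bi X d)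
    {r₁ r₂ r₃ : D} (q1 : Q r₁) (q2 : Q r₂) (q3 : Q r₃) (n1 : ¬S.real r₁) (n2 : ¬S.real r₂)
    (n3 : ¬S.real r₃) (c1 : X (S.α r₁) ↔ X r₂) (c3 : X r₃ ↔ X (S.α r₂)) (e1 : S.α r₁ ≠ r₂)
    (e3 : r₃ ≠ S.α r₂) (e13 : r₁ ≠ r₃)
    (N1 : Nxt S.toHMap.σ Q r₁ r₂) (N2 : Nxt S.toHMap.σ Q r₂ r₃)
    (N3 : Nxt S.toHMap.σ Q (S.α r₃) (S.α r₂)) (N4 : Nxt S.toHMap.σ Q (S.α r₂) (S.α r₁))
    (w1 : w r₁ = w r₂) (w2 : w r₂ = w r₃) : ∃ m < {d | S.toHMap.Bi X d}.ncard, St k P C n m := by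
  have b1 := qb _ q1 n1
  have b2 := qb _ q2 n2
  have b3 := qb _ q3 n3
  have na : ∀ d, ¬S.real d → ¬S.real (S.α d) := fun d h c => h (by
    have := S.real_α _ c; rwa [S.αα] at this)
  have df : ∀ a b, ¬(X a ↔ X b) → a ≠ b := fun a b h e => h (by rw [e])
  obtain ⟨S', M, f, a1, a3, a2, a, v⟩ := mv.m3 S r₁ r₂ r₃ Q (by
    have g1 : r₁ ≠ S.α r₂ := fun e => e1 (by rw [e, S.αα])
    have g2 : r₂ ≠ S.α r₃ := fun e => e3 (by rw [e, S.αα])
    have g3 : S.α r₁ ≠ S.α r₃ := fun e => e13 (S.α.injective e)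
    unfold HMap.Bi at b1 b2 b3
    simp only [List.nodup_cons, List.mem_cons, List.not_mem_nil, or_false, not_or,
      List.nodup_nil, and_true, not_false_eq_true]
    refine ⟨⟨df _ _ ?_, e13, df _ _ ?_, g1, df _ _ ?_⟩, ⟨df _ _ ?_, e1.symm, df _ _ ?_, g2⟩,
      ⟨df _ _ ?_, e3, df _ _ ?_⟩, ⟨df _ _ ?_, g3⟩, df _ _ ?_⟩ <;> tauto) (by
    simp only [List.mem_cons, List.not_mem_nil, or_false]
    rintro d (rfl | rfl | rfl | rfl | rfl | rfl)
    exacts [⟨q1, n1⟩, ⟨q2, n2⟩, ⟨q3, n3⟩, ⟨qa _ q1, na _ n1⟩, ⟨qa _ q2, na _ n2⟩,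
      ⟨qa _ q3, na _ n3⟩]) N1 N2 N3 N4
  refine same_st M top (v w val w1 w2) cx ni (fun d => by rw [f]; exact cx.phi d)
    (fun d h => ?_) b1 ?_
  · by_cases m : d ∈ [r₁, r₂, r₃, S.α r₁, S.α r₂, S.α r₃]
    · simp only [List.mem_cons, List.not_mem_nil, or_false] at m
      rcases m with rfl | rfl | rfl | rfl | rfl | rfl
      exacts [b1, b2, b3, bi_α b1, bi_α b2, bi_α b3]
    · unfold HMap.Bi at *
      rwa [a d m] at h
  · unfold HMap.Bi at *
    rw [a1]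
    tauto

end Pool.Agent.Lib.MP_c1f5fe_lc.Norm
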