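import Pool.Agent.Lib.MP_c1f5fe_lc.Ops2

/-! One chord in each of several faces. -/

namespace Pool.Agent.Lib.MP_c1f5fe_lc

open Equiv Function Relation

namespace Ops1
open Kit1 Ops2

section perm
variable {D J : Type} [Finite D]

omit [Finite D] in
theorem card_proj {D' : Type} (r' : Setoid D') (r : Setoid D) (π : D' → D) (hs : Surjective π)
    (h : ∀ z z', r' z z' ↔ r (π z) (π z')) : Nat.card (Quotient r') = Nat.card (Quotient r) := by
  refine Nat.card_eq_of_bijective (Quotient.map (sa := r') (sb := r) π fun x y e => (h x y).1 e)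
    ⟨fun a b => ?_, fun c => ?_⟩
  · induction a using Quotient.inductionOn
    induction b using Quotient.inductionOn
    exact fun e => Quotient.sound ((h _ _).2 (Quotient.exact e))
  · induction c using Quotient.inductionOn with
    | h d =>
      obtain ⟨z, rfl⟩ := hs d
      exact ⟨Quotient.mk _ z, rfl⟩

theorem multi (φ : Perm D) (p q : J → D) (h1 : ∀ j, p j ≠ q j ∧ φ.SameCycle (p j) (q j))
    (h2 : ∀ j j', φ.SameCycle (p j) (p j') → j = j') (T : Finset J) :
    ∃ s : Perm D, (∀ j ∈ T, s (p j) = q j ∧ s (q j) = p j) ∧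
      (∀ d, (∀ j ∈ T, d ≠ p j ∧ d ≠ q j) → s d = d) ∧ ncyc (φ * s) = ncyc φ + T.card ∧
      (∀ a b, (φ * s).SameCycle a b → φ.SameCycle a b) ∧
      (∀ a b, (∀ j ∈ T, ¬φ.SameCycle a (p j)) → φ.SameCycle a b → (φ * s).SameCycle a b) ∧
      ∀ j ∈ T, ¬(φ * s).SameCycle (p j) (q j) := by
  classical
  induction T using Finset.induction_on with
  | empty => exact ⟨1, by simp, by simp, by simp, by simp, by simp, by simp⟩
  | insert i T hi ih =>
    obtain ⟨s, a1, a2, a3, a4, a5, a6⟩ := ih
    have far : ∀ d, φ.SameCycle d (p i) → ∀ j ∈ T, ¬φ.SameCycle d (p j) := fun d hd j hj e =>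
      hi (h2 i j (hd.symm.trans e) ▸ hj)
    have far' : ∀ d, φ.SameCycle d (p i) → ∀ j ∈ T, d ≠ p j ∧ d ≠ q j := fun d hd j hj =>
      ⟨fun e => far d hd j hj (e.sameCycle _),
        fun e => far d hd j hj ((e.sameCycle _).trans (h1 j).2.symm)⟩
    have s0 : (φ * s).SameCycle (p i) (q i) := a5 _ _ (far _ (.refl _ _)) (h1 i).2
    obtain ⟨b1, b2, b3, -, -⟩ := sc_same (φ * s) (p i) (q i) (h1 i).1 s0
    refine ⟨s * swap (p i) (q i), fun j hj => ?_, fun d hd => ?_, ?_, fun a b e => ?_,
      fun a b ha e => ?_, fun j hj => ?_⟩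
    · rcases Finset.mem_insert.1 hj with rfl | hj
      · exact ⟨(sw_x _ _ _).trans (a2 _ (far' _ (h1 j).2.symm)),
          (sw_y _ _ _).trans (a2 _ (far' _ (.refl _ _)))⟩
      · have c1 := far' _ (.refl _ _) j hj
        have c2 := far' _ (h1 i).2.symm j hj
        exact ⟨(sw_z _ _ _ c1.1.symm c2.1.symm).trans (a1 j hj).1,
          (sw_z _ _ _ c1.2.symm c2.2.symm).trans (a1 j hj).2⟩
    · have c := hd i (Finset.mem_insert_self _ _)
      exact (sw_z _ _ _ c.1 c.2).trans (a2 d fun j hj => hd j (Finset.mem_insert_of_mem hj))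
    · rw [← mul_assoc, swap_same _ _ _ (h1 i).1 s0, a3, Finset.card_insert_of_notMem hi, add_assoc]
    · rw [← mul_assoc] at e
      exact a4 _ _ (b2 _ _ e)
    · rw [← mul_assoc]
      exact b3 a b (fun e => ha i (Finset.mem_insert_self _ _) (a4 _ _ e))
        (a5 a b (fun j hj => ha j (Finset.mem_insert_of_mem hj)) e)
    · rw [← mul_assoc]
      rcases Finset.mem_insert.1 hj with rfl | hj
      · exact b1
      · exact fun e => a6 j hj (b2 _ _ e)

/-- the other dart of a chord -/
def flp : Perm (J × Bool) :=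
  Involutive.toPerm (fun x => (x.1, !x.2)) fun x => by simp

theorem flp_apply (x : J × Bool) : flp x = (x.1, !x.2) := rfl

theorem flp_flp (x : J × Bool) : flp (flp x) = x := by simp [flp_apply]

theorem ncyc_flp [Finite J] : ncyc (flp : Perm (J × Bool)) = Nat.card J := by
  rw [← ncyc_one]
  refine card_proj _ _ Prod.fst (fun j => ⟨(j, true), rfl⟩) fun z z' => ?_
  change flp.SameCycle z z' ↔ (1 : Perm J).SameCycle z.1 z'.1
  rw [Perm.sameCycle_one]
  refine ⟨fun h => sc_ind (P := fun y : J × Bool => z.1 = y.1) h rfl fun _ h => h, fun h => ?_⟩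
  obtain ⟨j, b⟩ := z
  obtain ⟨j', b'⟩ := z'
  obtain rfl : j = j' := h
  by_cases e : b = b'
  · rw [e]
  · have : (j, b') = flp (j, b) := by
      rw [flp_apply]; cases b <;> cases b' <;> simp_all
    rw [this]
    exact sc_step _ _

open Classical in
/-- exchange the marked darts with the new ones -/
noncomputable def exch {X : Type} (e : X → D) (he : Injective e) : Perm (D ⊕ X) :=
  Involutive.toPerm (Sum.elim (fun d => if h : ∃ x, e x = d then .inr h.choose else .inl d)
    fun x => .inl (e x)) (by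
      rintro (d | x)
      · by_cases h : ∃ x, e x = d
        · simp only [Sum.elim_inl, dif_pos h, Sum.elim_inr, h.choose_spec]
        · simp only [Sum.elim_inl, dif_neg h]
      · have h : ∃ y, e y = e x := ⟨x, rfl⟩
        simp only [Sum.elim_inl, dif_pos h, Sum.elim_inr, he h.choose_spec])

omit [Finite D] in
theorem exch_inr {X : Type} (e : X → D) (he : Injective e) (x : X) :
    exch e he (.inr x) = .inl (e x) := rfl

omit [Finite D] in
theorem exch_e {X : Type} (e : X → D) (he : Injective e) (x : X) :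
    exch e he (.inl (e x)) = .inr x :=
  (exch_inr e he x).symm ▸ Involutive.toPerm_involutive _ (Sum.inr x)

omit [Finite D] in
theorem exch_inl {X : Type} (e : X → D) (he : Injective e) {d : D} (h : ¬∃ x, e x = d) :
    exch e he (.inl d) = .inl d := dif_neg h

/-- cycles of a permutation in which new points are inserted -/
theorem sc_ins {X : Type} [Finite X] {π : Perm D} {π' : Perm (D ⊕ X)} {g : X → D}
    (h1 : ∀ x, π' (.inr x) = .inl (g x))
    (h2 : ∀ d, π' (.inl d) = .inl (π d) ∨ ∃ x, π' (.inl d) = .inr x ∧ g x = π d) (z z' : D ⊕ X) :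
    π'.SameCycle z z' ↔ π.SameCycle (Sum.elim id g z) (Sum.elim id g z') := by
  have k1 : ∀ z, π'.SameCycle z (.inl (Sum.elim id g z)) := by
    rintro (d | x)
    · exact .refl _ _
    · exact h1 x ▸ sc_step _ _
  have k2 : ∀ d, π'.SameCycle (.inl d) (.inl (π d)) := fun d => by
    rcases h2 d with e | ⟨x, e, e'⟩
    · exact e ▸ sc_step _ _
    · exact (sc_step _ _).trans (e ▸ e' ▸ k1 (.inr x))
  constructor
  · intro h
    refine sc_ind (P := fun y => π.SameCycle (Sum.elim id g z) (Sum.elim id g y)) h (.refl _ _) ?_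
    rintro (d | x) hy
    · rcases h2 d with e | ⟨x, e, e'⟩
      · rw [e]; exact hy.trans (sc_step _ _)
      · rw [e]; exact hy.trans (e'.symm ▸ sc_step _ _ : π.SameCycle d (g x))
    · rw [h1]; exact hy
  · intro h
    exact ((k1 z).trans (sc_ind (P := fun y => π'.SameCycle (.inl (Sum.elim id g z)) (.inl y)) h
      (.refl _ _) fun y hy => hy.trans (k2 y))).trans (k1 z').symm

end perm

end Ops1

open Kit1 Ops2 Ops1 in
theorem mch (k1 : K1) (_ : K2) : MChordSt := by
  intro k V D J _ _ G U S p q h1 h2 h3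
  classical
  have := Fintype.ofFinite J
  obtain ⟨s, s1, s2, s3, s4, -, s6⟩ := multi S.φ p q (fun j => ⟨(h1 j).1, (h1 j).2.1⟩) h2
    Finset.univ
  let e : J × Bool → D := fun x => if x.2 then q x.1 else p x.1
  have et : ∀ j, e (j, true) = q j := fun _ => rfl
  have ef : ∀ j, e (j, false) = p j := fun _ => rfl
  have es : ∀ x, S.φ.SameCycle (p x.1) (e x) := by
    rintro ⟨j, _ | _⟩
    · exact .refl _ _
    · exact (h1 j).2.1
  have he : Injective e := by
    rintro ⟨j, b⟩ ⟨j', b'⟩ h
    obtain rfl : j = j' := h2 j j' ((es (j, b)).trans (h ▸ (es (j', b')).symm))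
    cases b <;> cases b'
    exacts [rfl, absurd h (h1 j).1, absurd h.symm (h1 j).1, rfl]
  have se : ∀ x, s (e x) = e (flp x) := by
    rintro ⟨j, _ | _⟩
    · exact (s1 j (Finset.mem_univ _)).1
    · exact (s1 j (Finset.mem_univ _)).2
  have ne : ∀ {d}, (∀ j, d ≠ p j ∧ d ≠ q j) → ¬∃ x, e x = d := by
    rintro d h ⟨⟨j, _ | _⟩, rfl⟩
    · exact (h j).1 rfl
    · exact (h j).2 rfl
  have sn : ∀ {d}, (¬∃ x, e x = d) → s d = d := fun h =>
    s2 _ fun j _ => ⟨fun a => h ⟨(j, false), a.symm⟩, fun a => h ⟨(j, true), a.symm⟩⟩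
  let M : HMap (D ⊕ J × Bool) :=
    ⟨Perm.sumCongr S.φ flp * exch e he, Perm.sumCongr S.α flp, by
      rintro (d | x)
      · simp [S.αα]
      · simp [flp_flp]⟩
  have a1 : ∀ d, M.α (.inl d) = .inl (S.α d) := fun _ => rfl
  have a2 : ∀ x, M.α (.inr x) = .inr (flp x) := fun _ => rfl
  have f1 : ∀ x, M.φ (.inr x) = .inl (S.φ (e x)) := fun _ => rfl
  have f2 : ∀ x, M.φ (.inl (e x)) = .inr (flp x) := fun x => by
    change Perm.sumCongr S.φ flp (exch e he _) = _
    rw [exch_e]; rfl
  have f3 : ∀ {d}, (¬∃ x, e x = d) → M.φ (.inl d) = .inl (S.φ d) := fun h => by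
    change Perm.sumCongr S.φ flp (exch e he _) = _
    rw [exch_inl e he h]; rfl
  let g : J × Bool → D := fun x => S.φ (e (flp x))
  let π : D ⊕ J × Bool → D := Sum.elim id g
  have hπ : Surjective π := fun d => ⟨.inl d, rfl⟩
  have hσ : ∀ z z', M.σ.SameCycle z z' ↔ S.toHMap.σ.SameCycle (π z) (π z') := by
    refine sc_ins (fun x => f1 (flp x)) fun d => ?_
    by_cases h : ∃ x, e x = S.α d
    · obtain ⟨x, h⟩ := h
      refine Or.inr ⟨flp x, ?_, ?_⟩
      · rw [HMap.σ_apply, a1, ← h, f2]
      · change S.φ (e (flp (flp x))) = S.φ (S.α d)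
        rw [flp_flp, h]
    · exact Or.inl (f3 h)
  have hφ : ∀ z z', M.φ.SameCycle z z' ↔ (S.φ * s).SameCycle (Sum.elim id (fun x => S.φ (e x)) z)
      (Sum.elim id (fun x => S.φ (e x)) z') := by
    refine sc_ins f1 fun d => ?_
    by_cases h : ∃ x, e x = d
    · obtain ⟨x, rfl⟩ := h
      exact Or.inr ⟨flp x, f2 x, by rw [Perm.mul_apply, se]⟩
    · exact Or.inl (by rw [f3 h, Perm.mul_apply, sn h])
  have off : ∀ {d d'}, (∀ j, ¬S.φ.SameCycle d (p j)) → S.φ.SameCycle d d' →
      M.φ (.inl d') = .inl (S.φ d') := fun h h' => f3 (by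
    rintro ⟨x, rfl⟩
    exact h _ (h'.trans (es x).symm))
  have face' : ∀ d z, (∀ j, ¬S.φ.SameCycle d (p j)) →
      (M.φ.SameCycle (.inl d) z ↔ ∃ e', z = .inl e' ∧ S.φ.SameCycle d e') := by
    intro d z h
    constructor
    · intro hz
      refine sc_ind (P := fun z => ∃ e', z = .inl e' ∧ S.φ.SameCycle d e') hz ⟨d, rfl, .refl _ _⟩ ?_
      rintro _ ⟨y, rfl, hy⟩
      exact ⟨_, off h hy, hy.trans (sc_step _ _)⟩
    · rintro ⟨y, rfl, hy⟩
      exact (sc_ind (P := fun y => S.φ.SameCycle d y ∧ M.φ.SameCycle (.inl d) (.inl y)) hy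
        ⟨.refl _ _, .refl _ _⟩ fun y hy => ⟨hy.1.trans (sc_step _ _),
          off h hy.1 ▸ hy.2.trans (sc_step _ _)⟩).2
  have tf : ∀ i j, ¬S.φ.SameCycle (S.term i) (p j) := fun i j h => (h1 j).2.2 ⟨i, h⟩
  have q1 : ∀ i, M.φ (.inl (S.term i)) = .inl (S.φ (S.term i)) := fun i => off (tf i) (.refl _ _)
  have q2 : ∀ i, M.φ (.inl (S.φ (S.term i))) = .inl (S.φ (S.φ (S.term i))) := fun i =>
    off (tf i) (sc_step _ _)
  have q3 : ∀ i, M.φ (.inl (S.φ (S.φ (S.term i)))) = .inl (S.φ (S.φ (S.φ (S.term i)))) := fun i =>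
    off (tf i) ((sc_step _ _).trans (sc_step _ _))
  have q4 : ∀ i, M.φ (.inl (S.φ (S.φ (S.φ (S.term i))))) =
      .inl (S.φ (S.φ (S.φ (S.φ (S.term i))))) := fun i =>
    off (tf i) (((sc_step _ _).trans (sc_step _ _)).trans (sc_step _ _))
  have gs : ∀ x, S.φ.SameCycle (p x.1) (g x) := fun x => (es (flp x)).trans (sc_step _ _)
  have hc : ∀ z z', Conn M.φ M.α z z' ↔ Conn S.φ S.α (π z) (π z') := by
    have cf : ∀ {a b}, S.φ.SameCycle a b → Conn S.φ S.α a b := fun h => conn_sc _ _ _ _ (Or.inl h)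
    have cs : ∀ {a b}, S.toHMap.σ.SameCycle (π a) (π b) → Conn M.φ M.α a b := fun h =>
      conn_sc _ _ _ _ (Or.inr (Or.inr (Or.inl ((hσ _ _).2 h))))
    intro z z'
    constructor
    · refine conn_le (r := fun a b => Conn S.φ S.α (π a) (π b))
        ⟨fun _ => conn_rfl _ _ _, conn_symm, conn_trans⟩ ?_ ?_
      · rintro (d | x)
        · by_cases h : ∃ x, e x = d
          · obtain ⟨x, rfl⟩ := h
            rw [f2]
            exact cf ((es x).symm.trans (gs (flp x)))
          · rw [f3 h]; exact conn_a _ _ d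
        · rw [f1]; exact cf ((gs x).symm.trans ((es x).trans (sc_step _ _)))
      · rintro (d | x)
        · exact conn_b _ _ d
        · exact cf ((gs x).symm.trans (gs (flp x)))
    · intro h
      refine conn_trans (conn_trans (cs (b := .inl (π z)) (.refl _ _)) ?_)
        (cs (a := .inl (π z')) (.refl _ _))
      refine conn_le (r := fun a b => Conn M.φ M.α (.inl a) (.inl b))
        ⟨fun _ => conn_rfl _ _ _, conn_symm, conn_trans⟩ (fun d => ?_) (fun d => conn_b _ _ _) h
      refine conn_trans (conn_b _ _ _) (cs ?_)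
      have := sc_step S.toHMap.σ (S.α d)
      rwa [HMap.σ_apply, S.αα] at this
  have hchi : M.chi = S.toHMap.chi := by
    have e1 : ncyc (M.φ * M.α) = ncyc (S.φ * S.α) := card_proj _ _ π hπ hσ
    have e2 : ncyc M.φ = ncyc (S.φ * s) := card_proj _ _ _ (fun d => ⟨.inl d, rfl⟩) hφ
    have e3 : ncyc M.α = ncyc S.α + ncyc flp := k1.ncyc_sum _ _
    change chi M.φ M.α = chi S.φ S.α
    rw [chi, chi, e1, e2, e3, s3, ncyc_flp, Nat.card_sum, Nat.card_prod, Finset.card_univ,
      ← Nat.card_eq_fintype_card, Nat.card_eq_fintype_card (α := Bool), Fintype.card_bool]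
    push_cast
    ring
  let S' : Sk k G U (D ⊕ J × Bool) :=
    { toHMap := M
      vx := fun z => S.vx (π z)
      real := Sum.elim S.real fun _ => False
      term := fun i => .inl (S.term i)
      ok := S.ok
      vx_σ := fun z => vx_sc S ((hσ _ _).1 (sc_step M.σ z))
      vx_cyc := fun d e v a b => (hσ _ _).2 (S.vx_cyc _ _ v a b)
      real_α := by
        rintro (d | x) h
        exacts [S.real_α d h, h]
      real_adj := by
        rintro (d | x) h
        exacts [S.real_adj d h, h.elim]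
      real_ex := fun u v h => by
        obtain ⟨d, hd, hu⟩ := S.real_ex u v h
        refine ⟨.inl d, hd, ?_⟩
        rintro (d' | x) h
        exacts [congrArg _ (hu d' h), h.1.elim]
      term_vx := fun i z h => by
        obtain ⟨y, rfl, hy⟩ := (face' _ _ (tf i)).1 h
        exact S.term_vx i y hy
      term_four := fun i => by rw [q1, q2, q3, q4, S.term_four]
      ok_symm := S.ok_symm
      ok_idx := S.ok_idx
      ok_once := S.ok_once
      cap := by
        rintro (d | ⟨j, b⟩) z a hz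
        · obtain ⟨r, c3, y, y', v1, v2, adj⟩ := S.cap d z a hz
          by_cases h : ∃ j, S.φ.SameCycle d (p j)
          · obtain ⟨j, h⟩ := h
            rcases h3 j with c | ⟨c1, ⟨z', hz', c2⟩, c4⟩
            · exact absurd hz (c d z h.symm a)
            obtain rfl : d = p j := by
              rcases tri_cases (S.cap _ z' c2 hz').2.1 h.symm with b | b | b
              · exact b
              · exact absurd hz (c4 z (Or.inl (by rw [c1, ← b]; exact a)))
              · exact absurd hz (c4 z (Or.inr (by rw [c1, ← b]; exact a)))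
            have n3 : ¬∃ x, e x = S.φ (S.φ (p j)) := by
              rintro ⟨⟨j', b⟩, hx⟩
              obtain rfl : j' = j := h2 _ _ ((es (j', b)).trans
                (hx ▸ ((sc_step _ _).trans (sc_step _ _)).symm))
              cases b
              · exact c4 z (Or.inr (by rw [c1, ← hx]; exact a)) hz
              · exact (h1 j').1 (S.φ.injective ((c1.symm.trans hx).trans (by rw [c1])))
            have m1 : M.φ (.inl (p j)) = .inr (j, true) := f2 (j, false)
            have m2 : M.φ (.inr (j, true)) = .inl (S.φ (S.φ (p j))) := by rw [f1, et, c1]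
            rw [m1, m2, f3 n3, c3]
            exact ⟨r, rfl, y, y', v1, v2, adj⟩
          · have h' : ∀ j, ¬S.φ.SameCycle d (p j) := fun j a => h ⟨j, a⟩
            rw [off h' (.refl _ _), off h' (sc_step _ _),
              off h' ((sc_step _ _).trans (sc_step _ _)), c3]
            exact ⟨r, rfl, y, y', v1, v2, adj⟩
        · exfalso
          rcases h3 j with c | ⟨c1, -, c4⟩
          · exact c _ z (gs (j, b)) a hz
          · cases b
            · exact c4 z (Or.inr a) hz
            · exact c4 z (Or.inl (by rw [c1]; exact a)) hz }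
  have tl : ∀ d, S'.IsT (.inl d) ↔ S.IsT d := fun d => exists_congr fun i =>
    (face' _ _ (tf i)).trans ⟨fun ⟨_, a, b⟩ => Sum.inl.inj a ▸ b, fun h => ⟨d, rfl, h⟩⟩
  refine ⟨S', a1, fun j b => a2 (j, b), fun j => f2 (j, false), fun j => f2 (j, true),
    fun j => f1 (j, true), fun j => f1 (j, false), fun d h => f3 (ne h), fun _ => rfl,
    fun _ => rfl, fun _ => rfl, fun _ => Iff.rfl, fun _ h => h, fun _ => rfl, rfl, hchi, ?_,
    fun h z z' => (hc z z').2 (h _ _), fun d e => hσ _ _, fun d e h => s4 _ _ ((hφ _ _).1 h),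
    face', fun j h => s6 j (Finset.mem_univ _) ((hφ _ _).1 h), tl, ?_, fun w θ hw hθ => ?_⟩
  · have e1 : ncomp M.φ M.α = ncomp S.φ S.α := card_proj _ _ π hπ hc
    change 2 * (ncomp M.φ M.α : ℤ) - M.chi = 2 * (ncomp S.φ S.α : ℤ) - S.toHMap.chi
    rw [e1, hchi]
  · rintro x ⟨i, h⟩
    obtain ⟨y, a, -⟩ := (face' _ _ (tf i)).1 h
    cases a
  · refine ⟨⟨?_, ⟨fun z => θ (π z), ?_⟩, hw.t0, fun i => ?_, fun i => ?_, fun i => ?_⟩, ?_, ?_⟩
    · rintro (d | ⟨j, _ | _⟩)
      · exact hw.inv d
      · simp [S', a2, flp_apply]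
      · simp [S', a2, flp_apply]
    · rintro (d | ⟨j, _ | _⟩) hd
      · have := hθ d fun a => hd ((tl d).2 a)
        change θ d * w d = θ (π (M.φ (.inl d)))
        by_cases h : ∃ x, e x = d
        · obtain ⟨x, rfl⟩ := h
          rw [f2, this]
          change _ = θ (S.φ (e (flp (flp x))))
          rw [flp_flp]
        · rw [f3 h, this]; rfl
      · exact mul_inv_cancel_left _ _
      · exact mul_inv_cancel_left _ _
    · change Sum.elim w _ (M.φ (.inl (S.term i))) = _
      rw [q1]; exact hw.t1 i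
    · change Sum.elim w _ (M.φ (M.φ (.inl (S.term i)))) = _
      rw [q1, q2]; exact hw.t2 i
    · change Sum.elim w _ (M.φ (M.φ (M.φ (.inl (S.term i))))) = _
      rw [q1, q2, q3]; exact hw.t3 i
    · rintro (d | x) h
      exacts [hw.edge d h, h.elim]
    · rintro (d | x) (d' | x') i h h'
      exacts [hw.vert d d' i h h', h'.elim, h.elim, h.elim]

end Pool.Agent.Lib.MP_c1f5fe_lc
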