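import Pool.Agent.Lib.MP_c1f5fe_lc.SpecA

/-! Planar orders, part one: refinement of a permutation along non crossing classes. -/

namespace Pool.Agent.Lib.MP_c1f5fe_lc

open Equiv Function Relation

namespace Ord

variable {D B : Type}

/-- `a` sends every point to the next point of its class -/
def Rf (π : Perm D) (f : D → B) (a : Perm D) : Prop :=
  ∀ d, Nxt π (fun e => f e = f d) d (a d)

/-- `π'` is induced by `π` on its cycles -/
def Ref (π π' : Perm D) : Prop := ∀ d, Nxt π (π'.SameCycle d) d (π' d)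

/-- from `x` one meets `y` not later than `z` -/
def Bt (π : Perm D) (x y z : D) : Prop := Nxt π (fun e => e = y ∨ e = z) x y

/-- the classes of `f` do not cross on the cycles of `π` -/
def NCf (π : Perm D) (f : D → B) : Prop :=
  ∀ x x' y y', f x = f x' → f y = f y' → π.SameCycle x y' → Bt π x y x' → Bt π x x' y' →
    f x = f y

lemma pow_pow (π : Perm D) (m n : ℕ) (x : D) : (π ^ m) ((π ^ n) x) = (π ^ (m + n)) x := by
  rw [pow_add, Perm.mul_apply]

lemma nxt_sc {π : Perm D} {Q : D → Prop} {x y : D} (h : Nxt π Q x y) : π.SameCycle x y := by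
  obtain ⟨n, -, e, -, -⟩ := h
  exact ⟨n, by simpa using e⟩

lemma nxt_q {π : Perm D} {Q : D → Prop} {x y : D} (h : Nxt π Q x y) : Q y := by
  obtain ⟨n, -, -, e, -⟩ := h
  exact e

lemma nxt_mono {π : Perm D} {Q Q' : D → Prop} {x y : D} (h : Nxt π Q x y) (hy : Q' y)
    (hq : ∀ e, π.SameCycle x e → Q' e → Q e) : Nxt π Q' x y := by
  obtain ⟨n, n0, e, -, hm⟩ := h
  exact ⟨n, n0, e, hy, fun m m0 l q => hm m m0 l (hq _ ⟨m, by simp⟩ q)⟩

lemma nxt_up {π π' : Perm D} {P Q : D → Prop} (hP : ∀ d, P d → Nxt π P d (π' d))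
    (hQ : ∀ e, Q e → P e) {d e : D} (hd : P d) (h : Nxt π' Q d e) : Nxt π Q d e := by
  obtain ⟨n, n0, rfl, q, hm⟩ := h
  have hp : ∀ n : ℕ, P ((π' ^ n) d) := by
    intro n
    induction n with
    | zero => simpa using hd
    | succ n ih => rw [pow_succ', Perm.mul_apply]; exact nxt_q (hP _ ih)
  have key : ∀ n : ℕ, (∀ m, 0 < m → m < n + 1 → ¬Q ((π' ^ m) d)) →
      ∃ N : ℕ, 0 < N ∧ (π ^ N) d = (π' ^ (n + 1)) d ∧ ∀ m, 0 < m → m < N → ¬Q ((π ^ m) d) := by
    intro n
    induction n with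
    | zero =>
      intro _
      obtain ⟨t, t0, e, -, ht⟩ := hP d hd
      exact ⟨t, t0, by simpa using e, fun m m0 l q => ht m m0 l (hQ _ q)⟩
    | succ n ih =>
      intro h
      obtain ⟨N, N0, e, hN⟩ := ih fun m m0 l => h m m0 (by omega)
      obtain ⟨t, t0, e', -, ht⟩ := hP _ (hp (n + 1))
      refine ⟨t + N, by omega, ?_, ?_⟩
      · rw [← pow_pow, e, e', pow_succ' π' (n + 1), Perm.mul_apply]
      · intro m m0 l
        rcases lt_trichotomy m N with l' | rfl | l'
        · exact hN m m0 l'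
        · rw [e]; exact h (n + 1) (by omega) (by omega)
        · have : (π ^ m) d = (π ^ (m - N)) ((π' ^ (n + 1)) d) := by
            rw [← e, pow_pow, Nat.sub_add_cancel l'.le]
          rw [this]
          exact fun q => ht (m - N) (by omega) (by omega) (hQ _ q)
  obtain ⟨n, rfl⟩ : ∃ k, n = k + 1 := ⟨n - 1, by omega⟩
  obtain ⟨N, N0, e, hN⟩ := key n hm
  exact ⟨N, N0, e, q, hN⟩

lemma nxt_down [Finite D] {π π' : Perm D} {P Q : D → Prop} (hP : ∀ d, P d → Nxt π P d (π' d))
    (hQ : ∀ e, Q e → P e) {d e : D} (hd : P d) (hs : π'.SameCycle d e) (h : Nxt π Q d e) :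
    Nxt π' Q d e := by
  obtain ⟨z, hz⟩ := exists_nxt (Q := Q) hs (nxt_q h)
  rwa [h.unique (nxt_up hP hQ hd hz)]

lemma Ref.at {π π' : Perm D} (h : Ref π π') (d0 : D) :
    ∀ d, π'.SameCycle d0 d → Nxt π (π'.SameCycle d0) d (π' d) := fun d hd =>
  nxt_mono (h d) (hd.trans ⟨1, by simp⟩) fun _ _ q => hd.symm.trans q

lemma Ref.up {π π' : Perm D} (h : Ref π π') {Q : D → Prop} {d e : D}
    (hQ : ∀ e, Q e → π'.SameCycle d e) (hn : Nxt π' Q d e) : Nxt π Q d e :=
  nxt_up (h.at d) hQ (Perm.SameCycle.refl _ _) hn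

lemma Ref.down [Finite D] {π π' : Perm D} (h : Ref π π') {Q : D → Prop} {d e : D}
    (hs : π'.SameCycle d e) (hn : Nxt π Q d e) : Nxt π' Q d e := by
  have h1 : Nxt π (fun z => Q z ∧ π'.SameCycle d z) d e :=
    nxt_mono hn ⟨nxt_q hn, hs⟩ fun _ _ q => q.1
  have h2 := nxt_down (h.at d) (fun _ q => q.2) (Perm.SameCycle.refl _ _) hs h1
  exact nxt_mono h2 (nxt_q hn) fun _ s q => ⟨q, s⟩

lemma sc_of_step [Finite D] {π a : Perm D} (h : ∀ d, π.SameCycle d (a d)) {x y : D}
    (hs : a.SameCycle x y) : π.SameCycle x y := by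
  obtain ⟨n, -, rfl⟩ := hs.exists_pow_eq'
  clear hs
  induction n with
  | zero => exact Perm.SameCycle.refl _ _
  | succ n ih => rw [pow_succ', Perm.mul_apply]; exact ih.trans (h _)

lemma Ref.trans [Finite D] {c π a : Perm D} (h : Ref c π) (h' : Ref π a) : Ref c a := fun d =>
  h.up (fun _ q => sc_of_step (fun z => nxt_sc (h' z)) q) (h' d)

lemma Ref.refl (π : Perm D) : Ref π π := fun d =>
  ⟨1, one_pos, by simp, ⟨1, by simp⟩, fun m m0 l => by omega⟩

lemma NCf.down [Finite D] {π π' : Perm D} {f : D → B} (h : Ref π π') (hn : NCf π f) :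
    NCf π' f := by
  intro x x' y y' e1 e2 s b1 b2
  refine hn x x' y y' e1 e2 (sc_of_step (fun z => nxt_sc (h z)) s) (h.up ?_ b1) (h.up ?_ b2)
  · rintro e (rfl | rfl)
    · exact nxt_sc b1
    · exact nxt_sc b2
  · rintro e (rfl | rfl)
    · exact nxt_sc b2
    · exact s

section
variable [Finite D] [DecidableEq D]

lemma ref_swap_aux (k : K1) (π : Perm D) {x y : D} (ne : x ≠ y) (s : π.SameCycle x y) :
    Nxt π ((π * swap x y).SameCycle x) x (π y) := by
  obtain ⟨h1, -, -, -, h5⟩ := k.sc_same π x y ne s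
  obtain ⟨j, j0, e, hj⟩ := (h5 y).1 (Perm.SameCycle.refl _ _)
  refine ⟨j + 1, by omega, by rw [pow_succ', Perm.mul_apply, e], ⟨1, by simp⟩, ?_⟩
  intro m m0 l q
  exact h1 (q.trans ((h5 _).2 ⟨m, m0, rfl, fun i i0 li => hj i i0 (by omega)⟩).symm)

lemma ref_swap (k : K1) (π : Perm D) {x y : D} (ne : x ≠ y) (s : π.SameCycle x y) :
    Ref π (π * swap x y) := by
  intro d
  by_cases h1 : d = x
  · subst h1
    simpa using ref_swap_aux k π ne s
  · by_cases h2 : d = y
    · subst h2
      have := ref_swap_aux k π ne.symm s.symm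
      rw [swap_comm] at this
      simpa using this
    · refine ⟨1, one_pos, by simp [swap_apply_of_ne_of_ne h1 h2], ⟨1, by simp⟩,
        fun m m0 l => by omega⟩

lemma split_step (k : K1) {π a : Perm D} {f : D → B} (hr : Rf π f a) (hn : NCf π f) {x : D}
    (hx : π x ≠ a x) :
    x ≠ π⁻¹ (a x) ∧ π.SameCycle x (π⁻¹ (a x)) ∧ Rf (π * swap x (π⁻¹ (a x))) f a := by
  set y := π⁻¹ (a x) with hy
  have hy' : π y = a x := by simp [hy]
  have ne : x ≠ y := fun e => hx (by rw [← hy', ← e])
  have s : π.SameCycle x y := by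
    have := nxt_sc (hr x)
    rw [← hy'] at this
    exact this.trans (Perm.SameCycle.symm ⟨1, by simp⟩)
  refine ⟨ne, s, fun d => (ref_swap k π ne s).down ?_ (hr d)⟩
  obtain ⟨h1, h2, h3, h4, h5⟩ := k.sc_same π x y ne s
  by_cases hd : π.SameCycle d x
  swap
  · exact h3 d _ hd (nxt_sc (hr d))
  have hn1 := ref_swap_aux k π ne s
  rw [hy'] at hn1
  obtain ⟨n, n0, e, -, hm⟩ := hr x
  have key : ∀ z z', f z = f z' → (π * swap x y).SameCycle y z →
      (π * swap x y).SameCycle x z' → False := by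
    intro z z' ef hz hz'
    obtain ⟨j, j0, ej, hj⟩ := (h5 z).1 hz
    have hax : (π * swap x y).SameCycle x (a x) := nxt_q hn1
    have hzx : ¬(π * swap x y).SameCycle x z := fun q => h1 (q.trans hz.symm)
    have hin : ∀ m, 0 < m → m ≤ j → ¬(π * swap x y).SameCycle x ((π ^ m) x) := by
      intro m m0 l q
      exact h1 (q.trans ((h5 _).2 ⟨m, m0, rfl, fun i i0 li => hj i i0 (by omega)⟩).symm)
    have jn : j < n := by
      by_contra hc
      exact hin n n0 (by omega) (e ▸ hax)
    have hf : f z ≠ f x := ej ▸ hm j j0 jn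
    have b2 : Bt π x (a x) z' := nxt_mono hn1 (Or.inl rfl) (by
      rintro e - (rfl | rfl)
      · exact hax
      · exact hz')
    have b1 : Bt π x z (a x) := by
      classical
      have ex : ∃ i : ℕ, 0 < i ∧ (π ^ i) x = z := ⟨j, j0, ej⟩
      refine ⟨Nat.find ex, (Nat.find_spec ex).1, (Nat.find_spec ex).2, Or.inl rfl, ?_⟩
      rintro m m0 l (q | q)
      · exact Nat.find_min ex l ⟨m0, q⟩
      · have : Nat.find ex ≤ j := Nat.find_min' ex ⟨j0, ej⟩
        exact hin m m0 (by omega) (q ▸ hax)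
    exact hf (hn x (a x) z z' (nxt_q (hr x)).symm ef (h2 _ _ hz') b1 b2).symm
  have hd' : π.SameCycle (a d) x := (nxt_sc (hr d)).symm.trans hd
  rcases h4 d hd with p | p <;> rcases h4 (a d) hd' with q | q
  · exact p.symm.trans q
  · exact (key (a d) d (nxt_q (Q := fun e => f e = f d) (hr d)) q p).elim
  · exact (key d (a d) (nxt_q (hr d)).symm p q).elim
  · exact p.symm.trans q

lemma split (k : K1) {a : Perm D} {f : D → B} (b : Perm D) :
    ∀ (n : ℕ) (π : Perm D), {d | π d ≠ a d}.ncard = n → Rf π f a → NCf π f → eg a b ≤ eg π b := by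
  intro n
  induction n using Nat.strong_induction_on with
  | _ n ih =>
    intro π hc hr hn
    by_cases h : ∃ x, π x ≠ a x
    · obtain ⟨x, hx⟩ := h
      obtain ⟨ne, s, hr'⟩ := split_step k hr hn hx
      refine le_trans (ih _ ?_ _ rfl hr' (hn.down (ref_swap k π ne s))) (k.eg_split π b _ _ s)
      rw [← hc]
      refine Set.ncard_lt_ncard ⟨?_, ?_⟩ (Set.toFinite _)
      · intro d hd
        simp only [Set.mem_ofPred_eq, Perm.mul_apply] at hd ⊢
        by_cases h1 : d = x
        · exact h1 ▸ hx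
        · by_cases h2 : d = π⁻¹ (a x)
          · intro e
            rw [h2] at e
            simp only [Perm.coe_inv, apply_symm_apply, EmbeddingLike.apply_eq_iff_eq] at e
            exact ne e
          · rwa [swap_apply_of_ne_of_ne h1 h2] at hd
      · intro hs
        have := hs hx
        simp at this
    · push Not at h
      rw [show π = a from Equiv.ext h]

end

lemma ncomp_le [Finite D] {a b a' b' : Perm D} (h : ∀ x y, Conn a b x y → Conn a' b' x y) :
    ncomp a' b' ≤ ncomp a b := by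
  unfold ncomp
  refine Nat.card_le_card_of_surjective (Quotient.map id h) ?_
  intro q
  induction q using Quotient.inductionOn with
  | _ x => exact ⟨Quotient.mk _ x, rfl⟩

lemma ncomp_le_ncyc [Finite D] (k : K1) (a b : Perm D) : ncomp a b ≤ ncyc a := by
  unfold ncomp ncyc
  refine Nat.card_le_card_of_surjective
    (Quotient.map id fun x y h => k.conn_sc a b x y (Or.inl h)) ?_
  intro q
  induction q using Quotient.inductionOn with
  | _ x => exact ⟨Quotient.mk _ x, rfl⟩

lemma ncyc_le_ncomp [Finite D] {a b : Perm D} (h : ∀ t, a.SameCycle t (b t)) :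
    ncyc a ≤ ncomp a b := by
  unfold ncomp ncyc
  have : ∀ x y, Conn a b x y → a.SameCycle x y := by
    intro x y c
    induction c with
    | rel x y r =>
      rcases r with rfl | rfl
      · exact ⟨1, by simp⟩
      · exact h x
    | refl x => exact Perm.SameCycle.refl _ _
    | symm x y _ ih => exact ih.symm
    | trans x y z _ _ i1 i2 => exact i1.trans i2
  refine Nat.card_le_card_of_surjective (Quotient.map id this) ?_
  intro q
  induction q using Quotient.inductionOn with
  | _ x => exact ⟨Quotient.mk _ x, rfl⟩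

lemma eg_self [Finite D] (k : K1) (c : Perm D) : eg c c⁻¹ = 0 := by
  refine le_antisymm ?_ (k.eg_nonneg _ _)
  have := ncomp_le_ncyc k c c⁻¹
  unfold eg chi
  rw [mul_inv_cancel, k.ncyc_one, k.ncyc_inv]
  omega

lemma merge_step [Finite D] [DecidableEq D] (k : K1) (a b : Perm D) {x0 y0 : D}
    (h0 : ¬a.SameCycle x0 y0) : ∃ x y, ¬a.SameCycle x y ∧ eg (a * swap x y) b ≤ eg a b := by
  have hm : ∀ x y : D, a * Equiv.swap x y * b = a * b * Equiv.swap (b⁻¹ x) (b⁻¹ y) := by
    intro x y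
    rw [mul_assoc, swap_mul_eq_mul_swap, mul_assoc]
  by_cases h : ∃ u v, (a * b).SameCycle u v ∧ ¬a.SameCycle (b u) (b v)
  · obtain ⟨u, v, h1, h2⟩ := h
    refine ⟨b u, b v, h2, ?_⟩
    have ne : u ≠ v := fun e => h2 (e ▸ Perm.SameCycle.refl _ _)
    have e1 := k.swap_diff a _ _ h2
    have e2 := k.swap_same (a * b) u v ne h1
    have e3 : ncomp (a * swap (b u) (b v)) b ≤ ncomp a b := by
      refine ncomp_le (k.conn_congr _ _ _ _ (fun x => ?_) fun x => EqvGen.rel _ _ (Or.inr rfl))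
      exact k.conn_sc _ _ _ _ (Or.inl ((k.sc_diff a _ _ _ _ h2).2 (Or.inl ⟨1, by simp⟩)))
    unfold eg chi
    rw [hm]
    simp only [Perm.coe_inv, symm_apply_apply]
    omega
  · push Not at h
    refine ⟨x0, y0, h0, ?_⟩
    have hb : ∀ t, a.SameCycle t (b t) := by
      intro t
      have := h (b⁻¹ (a⁻¹ t)) t ⟨1, by simp⟩
      simp only [Perm.coe_inv, apply_symm_apply] at this
      exact Perm.SameCycle.trans ⟨-1, by simp⟩ this
    have e1 := k.swap_diff a _ _ h0
    have e2 := k.swap_diff (a * b) (b⁻¹ x0) (b⁻¹ y0) fun q => h0 (by simpa using h _ _ q)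
    have e3 := ncomp_le_ncyc k (a * swap x0 y0) b
    have e4 := ncyc_le_ncomp hb
    unfold eg chi
    rw [hm]
    omega

lemma merge [Finite D] (k : K1) (b : Perm D) : ∀ (n : ℕ) (a : Perm D), ncyc a = n →
    ∃ c : Perm D, (∀ x y, c.SameCycle x y) ∧ Ref c a ∧ eg c b ≤ eg a b ∧
      ∀ b', eg a b' ≤ eg c b' := by
  classical
  intro n
  induction n using Nat.strong_induction_on with
  | _ n ih =>
    intro a hc
    by_cases h : ∀ x y, a.SameCycle x y
    · exact ⟨a, h, Ref.refl a, le_rfl, fun _ => le_rfl⟩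
    · push Not at h
      obtain ⟨x0, y0, h0⟩ := h
      obtain ⟨x, y, h1, h2⟩ := merge_step k a b h0
      have e1 := k.swap_diff a _ _ h1
      obtain ⟨c, c1, c2, c3, c4⟩ := ih _ (by omega) (a * swap x y) rfl
      have ne : x ≠ y := fun e => h1 (e ▸ Perm.SameCycle.refl _ _)
      have s : (a * swap x y).SameCycle x y := (k.sc_diff a x y x y h1).2
        (Or.inr ⟨Or.inl (Perm.SameCycle.refl _ _), Or.inr (Perm.SameCycle.refl _ _)⟩)
      have ea : a * swap x y * swap x y = a := by rw [mul_assoc, swap_mul_self, mul_one]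
      have r := ref_swap k _ ne s
      rw [ea] at r
      refine ⟨c, c1, c2.trans r, c3.trans h2, fun b' => le_trans ?_ (c4 b')⟩
      have := k.eg_split _ b' _ _ s
      rwa [ea] at this

end Ord

end Pool.Agent.Lib.MP_c1f5fe_lc
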