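import Pool.Agent.Lib.MP_c1f5fe_lc.SpecC

/-! Removing darts from a solution. -/

namespace Pool.Agent.Lib.MP_c1f5fe_lc

open Equiv Function Relation

namespace Prep1

variable {k : ℕ} {V D : Type} {G : SimpleGraph V} {U : Set V}

theorem nxt_val {B : Type} {π : Perm D} {A : D → Prop} {f : D → B}
    (h : ∀ r, ¬A r → f (π r) = f r) {x y : D} (n : Nxt π A x y) : f y = f (π x) := by
  obtain ⟨n, n0, rfl, -, hn⟩ := n
  have key : ∀ m, m + 1 ≤ n → f ((π ^ (m + 1)) x) = f (π x) := by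
    intro m
    induction m with
    | zero => simp
    | succ m ih =>
      intro l
      rw [pow_succ', Perm.mul_apply, h _ (hn (m + 1) (by omega) (by omega)), ih (by omega)]
  obtain ⟨m, rfl⟩ : ∃ m, n = m + 1 := ⟨n - 1, by omega⟩
  exact key m le_rfl

theorem nxt_sc {π : Perm D} {A : D → Prop} {x y : D} (n : Nxt π A x y) : π.SameCycle x y := by
  obtain ⟨n, -, rfl, -⟩ := n
  exact ⟨n, by simp⟩

theorem sc_ind [Finite D] {π : Perm D} {P : D → Prop} (h : ∀ d, P d → P (π d)) {x y : D}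
    (c : π.SameCycle x y) (hx : P x) : P y := by
  classical
  obtain ⟨n, -, -, rfl⟩ := c.exists_pow_eq''
  clear c
  induction n with
  | zero => simpa using hx
  | succ n ih => rw [pow_succ', Perm.mul_apply]; exact h _ ih

theorem sc_step (π : Perm D) (d : D) : π.SameCycle d (π d) := ⟨1, by simp⟩

theorem vx_sc [Finite D] (S : Sk k G U D) {d e : D} (h : S.toHMap.σ.SameCycle d e) :
    S.vx e = S.vx d :=
  sc_ind (P := fun e => S.vx e = S.vx d) (fun x hx => (S.vx_σ x).trans hx) h rfl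

theorem closed [Finite D] {M : HMap D} (c : M.Con) {P : D → Prop} (h1 : ∀ d, P d → P (M.φ d))
    (h2 : ∀ d, P d → P (M.α d)) {x : D} (hx : P x) (y : D) : P y := by
  have key : ∀ a b, Conn M.φ M.α a b → (P a ↔ P b) := by
    intro a b h
    induction h with
    | rel a b h =>
      rcases h with rfl | rfl
      · exact ⟨h1 a, sc_ind h1 (sc_step M.φ a).symm⟩
      · exact ⟨h2 a, fun h => M.αα a ▸ h2 _ h⟩
    | refl => rfl
    | symm _ _ _ ih => exact ih.symm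
    | trans _ _ _ _ _ i1 i2 => exact i1.trans i2
  exact (key x y (c x y)).1 hx

theorem isT_cases [Finite D] (S : Sk k G U D) {d : D} (h : S.IsT d) : ∃ i, d = S.term i ∨
    d = S.φ (S.term i) ∨ d = S.φ (S.φ (S.term i)) ∨ d = S.φ (S.φ (S.φ (S.term i))) := by
  obtain ⟨i, h⟩ := h
  refine ⟨i, sc_ind (P := fun d => d = S.term i ∨ d = S.φ (S.term i) ∨
    d = S.φ (S.φ (S.term i)) ∨ d = S.φ (S.φ (S.φ (S.term i)))) ?_ h (.inl rfl)⟩
  rintro d (rfl | rfl | rfl | rfl)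
  · simp
  · simp
  · simp
  · exact .inl (S.term_four i)

theorem isT_ne [Finite D] {S : Sk k G U D} {w : D → FG k} (v : S.Pre w) {d : D} (h : S.IsT d) :
    w d ≠ 1 := by
  obtain ⟨i, rfl | rfl | rfl | rfl⟩ := isT_cases S h
  · rw [v.t0]; exact FreeGroup.of_ne_one _
  · rw [v.t1]; exact FreeGroup.of_ne_one _
  · rw [v.t2]; simp
  · rw [v.t3]; simp

theorem fix_one {S : Sk k G U D} {w : D → FG k} (v : S.Pre w) {d : D} (h : S.α d = d) :
    w d = 1 := by
  have := v.inv d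
  rw [h] at this
  have h2 : w d ^ 2 = 1 := by rw [pow_two]; nth_rewrite 1 [this]; simp
  exact (pow_eq_one_iff_left two_ne_zero).1 h2

theorem adj_ne (S : Sk k G U D) {d : D} (h : S.AdjD Set.univ d) : S.α d ≠ d := by
  obtain ⟨u, v, ⟨h1, h2⟩, a, -⟩ := h
  intro e
  rw [e, h1] at h2
  exact a.ne (Option.some.inj h2)

theorem real_adjD (S : Sk k G U D) {d : D} (h : S.real d) : S.AdjD Set.univ d := by
  obtain ⟨u, v, h1, h2, a⟩ := S.real_adj d h
  exact ⟨u, v, ⟨h1, h2⟩, a, trivial, trivial⟩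

theorem third_adjD (S : Sk k G U D) {c : D} {z : V} (h : S.vx c = some z) (hz : z ∈ U) :
    S.AdjD Set.univ (S.φ c) := by
  obtain ⟨-, -, y, y', h1, h2, a⟩ := S.cap c z h hz
  exact ⟨y, y', ⟨h1, by rw [← S.vx_φ, h2]⟩, a, trivial, trivial⟩

theorem last_real (S : Sk k G U D) {c : D} {z : V} (h : S.vx c = some z) (hz : z ∈ U) :
    S.real (S.φ (S.φ c)) := by
  obtain ⟨-, e, -⟩ := S.cap c z h hz
  have h1 : S.vx (S.α (S.φ (S.φ c))) = some z := by rw [← S.vx_φ, e, h]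
  have := S.real_α _ (S.cap _ z h1 hz).1
  rwa [S.αα] at this

theorem sub_nxt {D₀ : Type} {M : HMap D} {A : D → Prop} {M₀ : HMap D₀} {ι : D₀ → D}
    (s : M.Sub A M₀ ι) (x : D₀) : Nxt M.σ A (M.α (ι x)) (ι (M₀.φ x)) := by
  have := s.si (M₀.α x)
  rwa [s.al, HMap.σ_apply, M₀.αα] at this

/-- a smaller solution -/
def Sm (k : ℕ) (G : SimpleGraph V) (U : Set V) (n : ℕ) : Prop :=
  ∃ (D : Type) (_ : Finite D) (S : Sk k G U D) (w : D → FG k),
    Nat.card D < n ∧ S.Top ∧ S.Valid w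

theorem remove (k1 : K1) (k2 : K2) [Finite D] (S : Sk k G U D) {w : D → FG k} (t : S.Top)
    (v : S.Valid w) (A : D → Prop) (hα : ∀ d, A d → A (S.α d)) (hr : ∀ d, S.real d → A d)
    (hT : ∀ d, S.IsT d → A d) (hc : ∀ d z, S.vx d = some z → z ∈ U → A (S.φ d))
    (h0 : ∃ d, A d) (h1 : ∃ d, ¬A d)
    (hcon : ∀ r, ¬A r → ∃ x y, A x ∧ A y ∧ S.toHMap.σ.SameCycle r x ∧
      S.toHMap.σ.SameCycle (S.α r) y ∧ EqvGen (fun a b => A a ∧ A b ∧
        (b = S.φ a ∨ b = S.α a ∨ S.toHMap.σ.SameCycle a b)) x y)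
    (θ : D → FG k) (hθ : ∀ d, ¬S.IsT d → θ d * w d = θ (S.φ d))
    (hθ' : ∀ r, ¬A r → θ (S.toHMap.σ r) = θ r) : Sm k G U (Nat.card D) := by
  obtain ⟨M₀, s⟩ := k2.sub_ex S.toHMap A hα
  have hφ : ∀ x : {d // A d}, A (S.φ x.1) → (M₀.φ x).1 = S.φ x.1 := fun x h =>
    k2.sub_φ _ _ _ _ x s h
  have ha : ∀ x : {d // A d}, (M₀.α x).1 = S.α x.1 := s.al
  have t0 : ∀ i, S.IsT (S.term i) := fun i => ⟨i, Perm.SameCycle.refl _ _⟩
  have hφT : ∀ x : {d // A d}, S.IsT x.1 → (M₀.φ x).1 = S.φ x.1 := fun x h =>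
    hφ x (hT _ ((S.isT_φ _).2 h))
  have hT1 : ∀ x : {d // A d}, S.IsT x.1 → S.IsT (M₀.φ x).1 := fun x h => by
    rw [hφT x h]; exact (S.isT_φ _).2 h
  have hsc : ∀ x y : {d // A d}, S.IsT x.1 → S.φ.SameCycle x.1 y.1 → M₀.φ.SameCycle x y := by
    intro x y hx c
    obtain ⟨z, hz, e⟩ := sc_ind (P := fun d => ∃ z : {d // A d},
      (M₀.φ.SameCycle x z ∧ S.IsT z.1) ∧ z.1 = d) (by
        rintro _ ⟨z, hz, rfl⟩
        exact ⟨M₀.φ z, ⟨hz.1.trans (sc_step _ _), hT1 z hz.2⟩, hφT z hz.2⟩) c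
      ⟨x, ⟨Perm.SameCycle.refl _ _, hx⟩, rfl⟩
    exact Subtype.ext e ▸ hz.1
  let S₀ : Sk k G U {d // A d} :=
    { toHMap := M₀
      vx := fun x => S.vx x.1
      real := fun x => S.real x.1
      term := fun i => ⟨S.term i, hT _ (t0 i)⟩
      ok := S.ok
      vx_σ := fun x => vx_sc S (nxt_sc (s.si x))
      vx_cyc := fun x y u h h' => (k2.sub_sc _ _ _ _ x y s).2 (S.vx_cyc _ _ u h h')
      real_α := fun x h => by rw [ha]; exact S.real_α _ h
      real_adj := fun x h => by rw [ha]; exact S.real_adj _ h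
      real_ex := fun u u' a => by
        obtain ⟨d, hd, hu⟩ := S.real_ex u u' a
        exact ⟨⟨d, hr d hd.1⟩, by simpa [ha] using hd,
          fun y hy => Subtype.ext (hu _ (by simpa [ha] using hy))⟩
      term_vx := fun i x c => (sc_ind (P := fun x => S.IsT x.1) hT1 c (t0 i)).vx
      term_four := fun i => Subtype.ext (by
        rw [hφT _ (hT1 _ (hT1 _ (hT1 _ (t0 i)))), hφT _ (hT1 _ (hT1 _ (t0 i))),
          hφT _ (hT1 _ (t0 i)), hφT _ (t0 i)]
        exact S.term_four i)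
      ok_symm := S.ok_symm
      ok_idx := S.ok_idx
      ok_once := S.ok_once
      cap := fun x z h hz => by
        obtain ⟨r, e, hy⟩ := S.cap _ z h hz
        have e1 := hφ x (hc _ z h hz)
        have e2 : (M₀.φ (M₀.φ x)).1 = S.φ (S.φ x.1) := by
          rw [hφ _ (e1 ▸ hr _ (last_real S h hz)), e1]
        refine ⟨r, Subtype.ext ?_, by rwa [e1, e2]⟩
        rw [hφ _ (by rw [e2, e]; exact x.2), e2, e] }
  have c1 : ∀ x y : {d // A d}, S.toHMap.σ.SameCycle x.1 y.1 → Conn M₀.φ M₀.α x y :=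
    fun x y c => k1.conn_sc _ _ x y (.inr (.inr (.inl ((k2.sub_sc _ _ _ _ x y s).2 c))))
  have c2 : ∀ a b, EqvGen (fun a b => A a ∧ A b ∧
      (b = S.φ a ∨ b = S.α a ∨ S.toHMap.σ.SameCycle a b)) a b →
      (A a ↔ A b) ∧ ∀ h h', Conn M₀.φ M₀.α ⟨a, h⟩ ⟨b, h'⟩ := by
    intro a b e
    induction e with
    | rel a b e =>
      refine ⟨⟨fun _ => e.2.1, fun _ => e.1⟩, fun h h' => ?_⟩
      rcases e.2.2 with rfl | rfl | c
      · exact .rel _ _ (.inl (Subtype.ext (hφ ⟨a, h⟩ h').symm))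
      · exact .rel _ _ (.inr (Subtype.ext (ha ⟨a, h⟩).symm))
      · exact c1 _ _ c
    | refl => exact ⟨Iff.rfl, fun _ _ => .refl _⟩
    | symm _ _ _ ih => exact ⟨ih.1.symm, fun h h' => .symm _ _ (ih.2 h' h)⟩
    | trans _ _ _ _ _ i1 i2 =>
      exact ⟨i1.1.trans i2.1, fun h h' => .trans _ _ _ (i1.2 h (i1.1.1 h)) (i2.2 _ h')⟩
  have hit : ∀ d, ∃ x : {d // A d}, S.toHMap.σ.SameCycle d x.1 := fun d => by
    by_cases h : A d
    · exact ⟨⟨d, h⟩, Perm.SameCycle.refl _ _⟩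
    · obtain ⟨x, -, hx, -, c, -⟩ := hcon d h
      exact ⟨⟨x, hx⟩, c⟩
  have c3 : ∀ (d : D) (x y : {d // A d}), S.toHMap.σ.SameCycle d x.1 →
      S.toHMap.σ.SameCycle (S.α d) y.1 → Conn M₀.φ M₀.α x y := by
    intro d x y p q
    by_cases h : A d
    · exact .trans _ _ _ (c1 x ⟨d, h⟩ p.symm) (.trans _ _ _ (.rel _ _ (.inr rfl))
        (c1 _ y (by rw [ha]; exact q)))
    · obtain ⟨x', y', hx, hy, p', q', e⟩ := hcon d h
      exact .trans _ _ _ (c1 x ⟨x', hx⟩ (p.symm.trans p'))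
        (.trans _ _ _ ((c2 _ _ e).2 hx hy) (c1 _ y (q'.symm.trans q)))
  have con : M₀.Con := by
    have key : ∀ d e, Conn S.φ S.α d e → ∀ x y : {d // A d}, S.toHMap.σ.SameCycle d x.1 →
        S.toHMap.σ.SameCycle e y.1 → Conn M₀.φ M₀.α x y := by
      intro d e c
      induction c with
      | rel d e c =>
        intro x y p q
        rcases c with rfl | rfl
        · refine c3 d x y p (Perm.SameCycle.trans ?_ q)
          have := sc_step S.toHMap.σ (S.α d)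
          rwa [HMap.σ_apply, S.αα] at this
        · exact c3 d x y p q
      | refl => exact fun x y p q => c1 x y (p.symm.trans q)
      | symm _ _ _ ih => exact fun x y p q => .symm _ _ (ih y x q p)
      | trans _ e _ _ _ i1 i2 =>
        intro x y p q
        obtain ⟨z, hz⟩ := hit e
        exact .trans _ _ _ (i1 x z p hz) (i2 z y hz q)
    exact fun x y => key _ _ (t.1 x.1 y.1) x y (Perm.SameCycle.refl _ _) (Perm.SameCycle.refl _ _)
  obtain ⟨d₀, hd₀⟩ := h0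
  have : Nonempty D := ⟨d₀⟩
  have : Nonempty {d // A d} := ⟨⟨d₀, hd₀⟩⟩
  refine ⟨{d // A d}, inferInstance, S₀, fun x => w x.1, ?_, ⟨con, ?_⟩,
    ⟨⟨fun x => ?_, ⟨fun x => θ x.1, fun x hx => ?_⟩, v.t0, fun i => ?_, fun i => ?_,
      fun i => ?_⟩, fun x => v.edge _, fun x y => v.vert _ _⟩⟩
  · obtain ⟨d, hd⟩ := h1
    exact Finite.card_subtype_lt hd
  · have e1 := k2.sub_eg _ _ _ _ s
    have e2 := (k1.ncomp_one _ _).1 con
    have e3 := (k1.ncomp_one _ _).1 t.1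
    have e4 := t.2
    simp only [HMap.eg, eg, HMap.chi, e2, e3] at e1 e4
    show _ ≤ chi M₀.φ M₀.α
    omega
  · show w (M₀.α x).1 = _
    rw [ha, v.inv]
  · show θ x.1 * w x.1 = θ (M₀.φ x).1
    rw [nxt_val hθ' (sub_nxt s x), HMap.σ_apply, S.αα]
    refine hθ _ fun ⟨i, c⟩ => hx ⟨i, hsc _ _ (t0 i) c⟩
  · show w (M₀.φ _).1 = _
    rw [hφT _ (t0 i)]; exact v.t1 i
  · show w (M₀.φ (M₀.φ _)).1 = _
    rw [hφT _ (hT1 _ (t0 i)), hφT _ (t0 i)]; exact v.t2 i
  · show w (M₀.φ (M₀.φ (M₀.φ _))).1 = _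
    rw [hφT _ (hT1 _ (hT1 _ (t0 i))), hφT _ (hT1 _ (t0 i)), hφT _ (t0 i)]; exact v.t3 i

theorem drop (k1 : K1) (k2 : K2) [Finite D] (S : Sk k G U D) {w : D → FG k} (t : S.Top)
    (v : S.Valid w) {x : D} (hx : S.α x = x) (hφ : S.φ x ≠ x) : Sm k G U (Nat.card D) := by
  obtain ⟨θ, hθ⟩ := v.pot
  have w1 := fix_one v.toPre hx
  have nT : ¬S.IsT x := fun h => isT_ne v.toPre h w1
  have hσ : S.toHMap.σ x = S.φ x := by rw [HMap.σ_apply, hx]
  refine remove k1 k2 S t v (· ≠ x) (fun d h e => h (by rw [← S.αα d, e, hx]))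
    (fun d h e => adj_ne S (real_adjD S h) (e ▸ hx)) (fun d h e => nT (e ▸ h))
    (fun d z h hz e => adj_ne S (third_adjD S h hz) (e ▸ hx)) ⟨_, hφ⟩ ⟨x, by simp⟩
    (fun r hr => ?_) θ hθ fun r hr => ?_
  · obtain rfl : r = x := by simpa using hr
    exact ⟨_, _, hφ, hφ, hσ ▸ sc_step _ _, by rw [hx]; exact hσ ▸ sc_step _ _, .refl _⟩
  · obtain rfl : r = x := by simpa using hr
    rw [hσ, ← hθ _ nT, w1, mul_one]

theorem delete (k1 : K1) (k2 : K2) [Finite D] (S : Sk k G U D) {w : D → FG k} (t : S.Top)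
    (v : S.Valid w) (core : ∃ d, S.real d ∨ S.IsT d) {e : D} (nr : ¬S.real e) (nT : ¬S.IsT e)
    (nT' : ¬S.IsT (S.α e)) (nc : ∀ d z, S.vx d = some z → z ∈ U → S.φ d ≠ e ∧ S.φ d ≠ S.α e)
    (df : ¬S.φ.SameCycle e (S.α e)) : Sm k G U (Nat.card D) := by
  classical
  obtain ⟨θ, hθ⟩ := v.pot
  have nr' : ¬S.real (S.α e) := fun h => nr (S.αα e ▸ S.real_α _ h)
  set A : D → Prop := fun d => d ≠ e ∧ d ≠ S.α e with hA
  have hα : ∀ d, A d → A (S.α d) := fun d h =>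
    ⟨fun c => h.2 (by rw [← c, S.αα]), fun c => h.1 (S.α.injective c)⟩
  have hr : ∀ d, S.real d → A d := fun d h => ⟨fun c => nr (c ▸ h), fun c => nr' (c ▸ h)⟩
  have hT : ∀ d, S.IsT d → A d := fun d h => ⟨fun c => nT (c ▸ h), fun c => nT' (c ▸ h)⟩
  have h0 : ∃ d, A d := core.imp fun d h => h.elim (hr d) (hT d)
  have path : ∀ a, ¬S.φ.SameCycle a (S.α a) → (∀ d, A d ↔ d ≠ a ∧ d ≠ S.α a) → S.φ a ≠ a →
      ∃ x y, A x ∧ A y ∧ S.toHMap.σ.SameCycle a x ∧ S.toHMap.σ.SameCycle (S.α a) y ∧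
        EqvGen (fun a b => A a ∧ A b ∧
          (b = S.φ a ∨ b = S.α a ∨ S.toHMap.σ.SameCycle a b)) x y := by
    intro a da hAa ne
    obtain ⟨z, n, n0, en, ez, hn⟩ := exists_nxt (Q := (· = a)) (Perm.SameCycle.refl S.φ a) rfl
    replace en : (S.φ ^ n) a = a := en.trans ez
    have hin : ∀ m, 0 < m → m < n → A ((S.φ ^ m) a) := fun m m0 l =>
      (hAa _).2 ⟨hn m m0 l, fun c => da ⟨m, by simpa using c⟩⟩
    have n1 : n ≠ 1 := fun c => ne (by simpa [c] using en)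
    have walk : ∀ m, m + 1 < n → EqvGen (fun a b => A a ∧ A b ∧
        (b = S.φ a ∨ b = S.α a ∨ S.toHMap.σ.SameCycle a b)) (S.φ a) ((S.φ ^ (m + 1)) a) := by
      intro m
      induction m with
      | zero => intro _; simpa using EqvGen.refl _
      | succ m ih =>
        intro l
        exact .trans _ _ _ (ih (by omega)) (.rel _ _ ⟨hin _ (by omega) (by omega),
          hin _ (by omega) l, .inl (by rw [pow_succ' S.φ (m + 1), Perm.mul_apply])⟩)
    obtain ⟨m, rfl⟩ : ∃ m, n = m + 2 := ⟨n - 2, by omega⟩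
    have hp := hin (m + 1) (by omega) (by omega)
    refine ⟨S.α ((S.φ ^ (m + 1)) a), S.φ a, hα _ hp, by simpa using hin 1 one_pos (by omega),
      ?_, ?_, .symm _ _ (.trans _ _ _ (walk m (by omega))
        (.rel _ _ ⟨hp, hα _ hp, .inr (.inl rfl)⟩))⟩
    · have := sc_step S.toHMap.σ (S.α ((S.φ ^ (m + 1)) a))
      rw [HMap.σ_apply, S.αα, ← Perm.mul_apply S.φ, ← pow_succ', en] at this
      exact this.symm
    · have := sc_step S.toHMap.σ (S.α a)
      rwa [HMap.σ_apply, S.αα] at this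
  have one : ∃ x y, A x ∧ A y ∧ S.toHMap.σ.SameCycle e x ∧ S.toHMap.σ.SameCycle (S.α e) y ∧
      EqvGen (fun a b => A a ∧ A b ∧
        (b = S.φ a ∨ b = S.α a ∨ S.toHMap.σ.SameCycle a b)) x y := by
    by_cases h1 : S.φ e = e
    · by_cases h2 : S.φ (S.α e) = S.α e
      · obtain ⟨d, hd⟩ := h0
        have := closed t.1 (P := fun d => d = e ∨ d = S.α e)
          (by rintro _ (rfl | rfl) <;> simp [h1, h2])
          (by rintro _ (rfl | rfl) <;> simp [S.αα]) (.inl rfl) d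
        exact absurd this (not_or.2 hd)
      · obtain ⟨x, y, hx, hy, p, q, c⟩ := path (S.α e) (by rw [S.αα]; exact fun c => df c.symm)
          (fun d => by rw [S.αα]; exact and_comm) h2
        exact ⟨y, x, hy, hx, S.αα e ▸ q, p, .symm _ _ c⟩
    · exact path e df (fun _ => Iff.rfl) h1
  refine remove k1 k2 S t v A hα hr hT nc h0 ⟨e, by simp [hA]⟩ (fun r h => ?_)
    (fun d => (if S.φ.SameCycle (S.α e) d then θ (S.φ e) * (θ (S.α e))⁻¹ else 1) * θ d)
    (fun d hd => ?_) fun r h => ?_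
  · have : r = e ∨ r = S.α e := by simp only [hA] at h; tauto
    rcases this with rfl | rfl
    · exact one
    · obtain ⟨x, y, hx, hy, p, q, c⟩ := one
      exact ⟨y, x, hy, hx, q, by rw [S.αα]; exact p, .symm _ _ c⟩
  · simp only [Perm.sameCycle_apply_right, mul_assoc, hθ d hd]
  · have : r = e ∨ r = S.α e := by simp only [hA] at h; tauto
    have df' : ¬S.φ.SameCycle (S.α e) e := fun c => df c.symm
    rcases this with rfl | rfl
    · simp only [HMap.σ_apply, Perm.sameCycle_apply_right, Perm.SameCycle.refl, if_true, df',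
        if_false]
      rw [← hθ _ nT', ← hθ _ nT, v.inv]; group
    · simp only [HMap.σ_apply, S.αα, Perm.sameCycle_apply_right, Perm.SameCycle.refl, if_true,
        df', if_false]
      group

theorem absorb (k1 : K1) (k2 : K2) (ab : AbsorbSt) [Finite D] (S : Sk k G U D) {w : D → FG k}
    (t : S.Top) (v : S.Valid w) {d : D} (hv : S.vx d = none)
    (hT : ∀ e, S.toHMap.σ.SameCycle d e → ¬S.IsT e) (nl : ¬S.toHMap.σ.SameCycle d (S.α d)) :
    Sm k G U (Nat.card D) := by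
  classical
  obtain ⟨S', e1, e2, -, -, -, -, e3, -, e4, -, -, -, e5⟩ := ab k V D G U S (· = d)
    (fun e => if S.toHMap.σ.SameCycle d e then 1 else 0)
    (fun e => by simp only [Perm.sameCycle_apply_right]) (by
      rintro _ rfl
      exact ⟨hv, by simp [nl, Perm.SameCycle.refl], hT, fun e h _ => h.symm⟩)
  obtain ⟨c, -, -, -, v'⟩ := e5 w v
  refine drop k1 k2 S' ⟨fun a b => (e4 a b).2 (t.1 a b), e3 ▸ t.2⟩ v' (e2 d (.inl rfl)) ?_
  rw [e1]
  intro h
  have := sc_step S.toHMap.σ (S.α d)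
  rw [HMap.σ_apply, S.αα, h] at this
  exact nl this.symm

end Prep1

end Pool.Agent.Lib.MP_c1f5fe_lc
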