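import Pool.Agent.Lib.MP_c1f5fe_lc.SpecA

/-! Regions of a map cut along a set of edges: elementary facts and counting identities. -/

namespace Pool.Agent.Lib.MP_c1f5fe_lc

open Equiv Function Relation

namespace Reg

variable {D : Type}

theorem card_eq (P : D → Prop) : Nat.card {d // P d} = {d | P d}.ncard :=
  Nat.card_coe_set_eq {d | P d}

theorem card_congr {P P' : D → Prop} (h : ∀ d, P d ↔ P' d) :
    Nat.card {d // P d} = Nat.card {d // P' d} := by
  have : P = P' := funext fun d => propext (h d)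
  rw [this]

theorem card_or [Finite D] (P P' : D → Prop) (h : ∀ d, P d → ¬P' d) :
    Nat.card {d // P d ∨ P' d} = Nat.card {d // P d} + Nat.card {d // P' d} := by
  rw [card_eq, card_eq, card_eq, ← Set.ncard_union_eq]
  · rfl
  · exact Set.disjoint_left.2 fun d a b => h d a b

theorem card_split [Finite D] (P Y : D → Prop) :
    Nat.card {d // P d} = Nat.card {d // P d ∧ Y d} + Nat.card {d // P d ∧ ¬Y d} := by
  rw [← card_or _ _ fun d a b => b.2 a.2]
  exact card_congr fun d => by tauto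

theorem card_mono [Finite D] {P P' : D → Prop} (h : ∀ d, P d → P' d) :
    Nat.card {d // P d} ≤ Nat.card {d // P' d} := by
  rw [card_eq, card_eq]
  exact Set.ncard_le_ncard h

theorem card_zero {P : D → Prop} (h : ∀ d, ¬P d) : Nat.card {d // P d} = 0 := by
  have : IsEmpty {d // P d} := ⟨fun x => h _ x.2⟩
  exact Nat.card_of_isEmpty

theorem card_univ : Nat.card {_d : D // True} = Nat.card D :=
  Nat.card_congr (Equiv.subtypeUnivEquiv fun _ => trivial)

theorem on_pred (π : Perm D) {P P' : D → Prop} (h : ∀ d, P d ↔ P' d) :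
    ncycOn π P = ncycOn π P' := by
  have : P = P' := funext fun d => propext (h d)
  rw [this]

theorem at_pred (π : Perm D) {P P' : D → Prop} (h : ∀ d, P d ↔ P' d) :
    ncycAt π P = ncycAt π P' := by
  have : P = P' := funext fun d => propext (h d)
  rw [this]

theorem on_zero (π : Perm D) {P : D → Prop} (h : ∀ d, ¬P d) : ncycOn π P = 0 := by
  unfold ncycOn
  apply card_zero
  intro c hc
  obtain ⟨d, rfl⟩ := Quotient.exists_rep c
  exact h d (hc d rfl)

theorem ret_iff [Finite D] (π : Perm D) (Q : D → Prop) (d : D) : Q (ret π Q d) ↔ Q d := by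
  by_cases h : Q d
  · obtain ⟨_, _, _, h', _⟩ := ret_nxt π h
    exact iff_of_true h' h
  · rw [ret_not π h]

section k1
variable (k : K1) [Finite D]
include k

theorem on_univ (π : Perm D) : ncycOn π (fun _ => True) = ncyc π := by
  rw [k.on_eq_at π _ fun _ => Iff.rfl, k.at_univ]

theorem ncyc_sub (π : Perm D) (X : D → Prop) (h : ∀ d, X (π d) ↔ X d) :
    ncyc (π.subtypePerm h) = ncycOn π X := by
  rw [← on_univ k]
  refine k.on_map _ _ _ _ Subtype.val (fun x y _ _ e => Subtype.ext e) (fun y => ?_) fun x _ => ?_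
  · exact ⟨fun hy => ⟨⟨y, hy⟩, trivial, rfl⟩, fun ⟨x, _, e⟩ => e ▸ x.2⟩
  · exact ⟨iff_of_true trivial ((h _).2 x.2), fun _ => rfl⟩

theorem at_img (π : Perm D) (P : D → Prop) :
    ncycAt π P = (Quotient.mk (Perm.SameCycle.setoid π) '' {d | P d}).ncard :=
  k.at_eq π P _ fun _ _ _ _ => Quotient.eq

theorem at_ret (π : Perm D) (Q P : D → Prop) (h : ∀ d, P d → Q d) :
    ncycAt (ret π Q) P = ncycAt π P := by
  rw [at_img k π]
  exact k.at_eq _ P _ fun d e a b => Quotient.eq.trans (k.sc_ret π Q d e (h d a) (h e b)).symm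

theorem on_split (π : Perm D) (X Q : D → Prop) (h : ∀ d, X (π d) ↔ X d) :
    ncycOn π X = ncycOn π (fun d => X d ∧ ¬Q d) + ncycAt π fun d => X d ∧ Q d := by
  have e1 := k.ncyc_on_at π X
  have e2 := k.ncyc_on_at π fun d => X d ∧ Q d
  have e3 := k.on_or π (fun d => ¬X d) (fun d => X d ∧ ¬Q d) (fun d a b => a b.1)
    (fun d a b => a ((h d).1 b.1)) fun d a b => b ((h d).2 a.1)
  have e4 : ncycOn π (fun d => ¬(X d ∧ Q d)) = ncycOn π fun d => ¬X d ∨ X d ∧ ¬Q d :=
    on_pred π fun d => by tauto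
  rw [k.on_eq_at π X h]
  omega

theorem at_add (π : Perm D) (P P' : D → Prop)
    (h : ∀ d e, P d → P' e → ¬π.SameCycle d e) :
    ncycAt π (fun d => P d ∨ P' d) = ncycAt π P + ncycAt π P' := by
  rw [at_img k, at_img k, at_img k, ← Set.ncard_union_eq, ← Set.image_union]
  · rfl
  · rw [Set.disjoint_left]
    rintro _ ⟨d, a, rfl⟩ ⟨e, b, hc⟩
    exact h d e a b (Quotient.eq.1 hc.symm)

theorem at_pos (π : Perm D) (P : D → Prop) {d : D} (h : P d) : 1 ≤ ncycAt π P := by
  rw [at_img k]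
  exact (Set.ncard_pos (Set.toFinite _)).2 ⟨_, d, h, rfl⟩

theorem at_sc (π : Perm D) (P : D → Prop) (h : ncycAt π P ≤ 1) {d e : D} (a : P d) (b : P e) :
    π.SameCycle d e := by
  rw [at_img k, Set.ncard_le_one_iff (Set.toFinite _)] at h
  exact Quotient.eq.1 (h ⟨d, a, rfl⟩ ⟨e, b, rfl⟩)

end k1

variable (M : HMap D) (Q : D → Prop)

theorem reg_φ (d : D) : M.Reg Q d (M.φ d) := EqvGen.rel _ _ (Or.inl rfl)

theorem reg_α {d : D} (h : ¬Q d) : M.Reg Q d (M.α d) := EqvGen.rel _ _ (Or.inr ⟨h, rfl⟩)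

theorem reg_σ1 {d : D} (h : ¬Q d) : M.Reg Q d (M.σ d) :=
  EqvGen.trans _ _ _ (reg_α M Q h) (reg_φ M Q _)

theorem reg_col (X : D → Prop) (h : M.Col Q X) (d e : D) (r : M.Reg Q d e) : X d ↔ X e := by
  induction r with
  | rel x y r =>
    rcases r with rfl | ⟨a, rfl⟩
    · exact (h.1 x).symm
    · exact (h.2 x a).symm
  | refl => rfl
  | symm _ _ _ ih => exact ih.symm
  | trans _ _ _ _ _ a b => exact a.trans b

theorem col_reg (q : D) : M.Col Q (M.Reg Q q) :=
  ⟨fun d => ⟨fun h => .trans _ _ _ h (.symm _ _ (reg_φ M Q d)), fun h => .trans _ _ _ h (reg_φ M Q d)⟩,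
    fun _ a => ⟨fun h => .trans _ _ _ h (.symm _ _ (reg_α M Q a)),
      fun h => .trans _ _ _ h (reg_α M Q a)⟩⟩

theorem col_not {X : D → Prop} (h : M.Col Q X) : M.Col Q fun d => ¬X d :=
  ⟨fun d => not_congr (h.1 d), fun d a => not_congr (h.2 d a)⟩

theorem col_and {X Y : D → Prop} (h : M.Col Q X) (h' : M.Col Q Y) : M.Col Q fun d => X d ∧ Y d :=
  ⟨fun d => and_congr (h.1 d) (h'.1 d), fun d a => and_congr (h.2 d a) (h'.2 d a)⟩

theorem col_univ : M.Col Q fun _ => True := ⟨fun _ => Iff.rfl, fun _ _ => Iff.rfl⟩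

theorem hit (hc : M.Con) (hq : ∃ q, Q q) (d : D) : ∃ q, Q q ∧ M.Reg Q d q := by
  by_contra hn
  have n : ∀ q, M.Reg Q d q → ¬Q q := fun q a b => hn ⟨q, b, a⟩
  have c := col_reg M Q d
  have key : ∀ x y, Conn M.φ M.α x y → (M.Reg Q d x ↔ M.Reg Q d y) := by
    intro x y r
    induction r with
    | rel x y r =>
      rcases r with rfl | rfl
      · exact (c.1 x).symm
      · refine ⟨fun a => (c.2 x (n x a)).2 a, fun a => ?_⟩
        have := (c.2 _ (n _ a)).2 a
        rwa [M.αα] at this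
    | refl => rfl
    | symm _ _ _ ih => exact ih.symm
    | trans _ _ _ _ _ a b => exact a.trans b
  obtain ⟨q, hq⟩ := hq
  exact n q ((key d q (hc d q)).1 (.refl _)) hq

theorem reg_σ [Finite D] (d e : D) (h : M.σ.SameCycle d e)
    (n : ∀ x, M.σ.SameCycle d x → ¬Q x) : M.Reg Q d e := by
  obtain ⟨m, rfl⟩ := h.exists_nat_pow_eq
  induction m with
  | zero => exact .refl _
  | succ m ih =>
    have s : M.σ.SameCycle d ((M.σ ^ m) d) := ⟨m, by simp⟩
    rw [pow_succ', Perm.mul_apply]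
    exact .trans _ _ _ (ih s) (reg_σ1 M Q (n _ s))

theorem σ_α (d : D) : M.σ (M.α d) = M.φ d := by rw [M.σ_apply, M.αα]

variable {Q}

theorem q_iff (h : ∀ q, Q q → Q (M.α q)) (d : D) : Q (M.α d) ↔ Q d :=
  ⟨fun a => by simpa [M.αα] using h _ a, h d⟩

open Classical in
theorem cut_inv (h : ∀ q, Q q → Q (M.α q)) :
    Function.Involutive fun d => if Q d then d else M.α d := fun d => by
  by_cases a : Q d
  · simp [a]
  · have := mt (q_iff M h d).1 a
    simp [a, this, M.αα]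

/-- the map in which the edges of `Q` are cut -/
noncomputable def cut (h : ∀ q, Q q → Q (M.α q)) : HMap D where
  φ := M.φ
  α := Function.Involutive.toPerm _ (cut_inv M h)
  αα := cut_inv M h

variable (h : ∀ q, Q q → Q (M.α q))

theorem cut_φ : (cut M h).φ = M.φ := rfl

theorem cut_α_q {d : D} (a : Q d) : (cut M h).α d = d := if_pos a

theorem cut_α_n {d : D} (a : ¬Q d) : (cut M h).α d = M.α d := if_neg a

theorem cut_σ_q {d : D} (a : Q d) : (cut M h).σ d = M.φ d := by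
  rw [HMap.σ_apply, cut_α_q M h a, cut_φ]

theorem cut_σ_n {d : D} (a : ¬Q d) : (cut M h).σ d = M.σ d := by
  rw [HMap.σ_apply, cut_α_n M h a, cut_φ, M.σ_apply]

theorem reg_cut_α (d : D) : M.Reg Q d ((cut M h).α d) := by
  by_cases a : Q d
  · rw [cut_α_q M h a]; exact .refl _
  · rw [cut_α_n M h a]; exact reg_α M Q a

theorem reg_cut_σ (d : D) : M.Reg Q d ((cut M h).σ d) :=
  .trans _ _ _ (reg_cut_α M h d) (reg_φ M Q _)

theorem reg_sc [Finite D] {d e : D} (s : (cut M h).σ.SameCycle d e) : M.Reg Q d e := by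
  obtain ⟨m, rfl⟩ := s.exists_nat_pow_eq
  clear s
  induction m with
  | zero => exact .refl _
  | succ m ih =>
    rw [pow_succ', Perm.mul_apply]
    exact .trans _ _ _ ih (reg_cut_σ M h _)

theorem ret_cut [Finite D] {q : D} (a : Q q) : ret (cut M h).σ Q q = M.nx Q q := by
  obtain ⟨n, n0, e, hq, hm⟩ := ret_nxt M.σ (h q a)
  have key : ∀ m, m + 1 ≤ n → ((cut M h).σ ^ (m + 1)) q = (M.σ ^ (m + 1)) (M.α q) := by
    intro m
    induction m with
    | zero => intro _; simp [cut_σ_q M h a, σ_α]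
    | succ m ih =>
      intro l
      rw [pow_succ', Perm.mul_apply, ih (by omega), cut_σ_n M h (hm _ (by omega) (by omega)),
        pow_succ' M.σ (m + 1), Perm.mul_apply]
  have key' : ∀ m, 0 < m → m ≤ n → ((cut M h).σ ^ m) q = (M.σ ^ m) (M.α q) := by
    intro m m0 l
    obtain ⟨j, rfl⟩ : ∃ j, m = j + 1 := ⟨m - 1, by omega⟩
    exact key j l
  refine (ret_nxt _ a).unique ⟨n, n0, (key' n n0 le_rfl).trans e, hq, fun m m0 l => ?_⟩
  rw [key' m m0 l.le]
  exact hm m m0 l

include h in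
theorem nx_q [Finite D] (q : D) (a : Q q) :
    Q (M.nx Q q) ∧ M.Reg Q q (M.nx Q q) ∧ M.σ.SameCycle (M.φ q) (M.nx Q q) ∧
      (Q (M.φ q) → M.nx Q q = M.φ q) := by
  refine ⟨(ret_iff _ _ _).2 (h q a), ?_, ?_, fun b => ?_⟩
  · rw [← ret_cut M h a]
    obtain ⟨n, -, e, -⟩ := ret_nxt (cut M h).σ a
    exact reg_sc M h ⟨n, by rw [← e]; simp⟩
  · obtain ⟨n, -, e, -⟩ := ret_nxt M.σ (h q a)
    rw [← σ_α, Perm.sameCycle_apply_left]
    exact ⟨n, by rw [HMap.nx, ← e]; simp⟩
  · exact (ret_nxt M.σ (h q a)).unique ⟨1, one_pos, by simp [σ_α], b, fun m a b => by omega⟩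

theorem nx_inj [Finite D] (q e : D) (a : M.nx Q q = M.nx Q e) : q = e :=
  M.α.injective ((ret M.σ Q).injective a)

end Reg

end Pool.Agent.Lib.MP_c1f5fe_lc
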