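import Pool.Agent.Lib.MP_c1f5fe_lc.SpecC

/-! Small lemmas for the representative step. -/

namespace Pool.Agent.Lib.MP_c1f5fe_lc

open Equiv Function Relation

namespace RepA

section gen
variable {k : ℕ} {V D : Type} {G : SimpleGraph V} {U : Set V}

theorem good_mono (k2 : K2) [Finite D] (S : Sk k G U D) {Z Z' : Set V} (h : Z' ⊆ Z)
    (g : S.Good Z) : S.Good Z' :=
  ⟨fun d u e hu => g.1 d u e (h hu), k2.mono S Z Z' h g.2⟩

theorem bad_count (k2 : K2) [Finite D] (S : Sk k G U D) {b N : ℕ} (top : S.Top) (nf : S.Nf b)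
    (Z : Fin N → Set V) (hZ : Pairwise (Disjoint on Z)) :
    {i | ¬S.Good (Z i)}.ncard ≤ b + 2 * k := by
  classical
  have e : {i | ¬S.Good (Z i)} = {i | ¬S.Full (Z i)} ∪ {i | ¬S.PlanarOn (Z i)} := by
    ext i; simp only [Sk.Good, Set.mem_ofPred_eq, Set.mem_union]; tauto
  rw [e]
  refine (Set.ncard_union_le _ _).trans (Nat.add_le_add ?_ ?_)
  · have h : ∀ i : {i | ¬S.Full (Z i)}, ∃ d : {d // S.Non d}, ∃ u ∈ Z i.1, S.vx d.1 = some u := by
      rintro ⟨i, hi⟩
      simp only [Set.mem_ofPred_eq, Sk.Full, not_forall] at hi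
      obtain ⟨d, u, e, hu, hn⟩ := hi
      refine ⟨⟨d, Or.inr ?_⟩, u, hu, e⟩
      cases hv : S.vx (S.α d) with
      | none => rfl
      | some v => exact absurd ⟨v, hv, nf.p2 d u v ⟨e, hv⟩⟩ hn
    choose g hg using h
    have inj : Injective g := by
      intro i j e
      obtain ⟨u, hu, e1⟩ := hg i
      obtain ⟨v, hv, e2⟩ := hg j
      rw [e, e2] at e1
      cases e1
      by_contra ne
      exact Set.disjoint_left.1 (hZ fun h => ne (Subtype.ext h)) hu hv
    rw [← Nat.card_coe_set_eq]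
    exact (Nat.card_le_card_of_injective g inj).trans nf.non
  · rw [← Nat.card_coe_set_eq]
    let e := Finite.equivFin {i | ¬S.PlanarOn (Z i)}
    refine k2.count S _ (fun j => Z (e.symm j).1) (k2.top_eg S top) ?_ fun j => (e.symm j).2
    intro i j ne
    exact hZ fun h => ne (e.symm.injective (Subtype.ext h))

theorem frame_orient {l : ℕ} {c : ZMod l → V} {K : Set V} (h : Frame G U c K) (o : Bool) :
    Frame G U (orient o c) K := by
  cases o
  · have e : orient false c = fun i => c (-i) := by funext i; simp [orient]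
    rw [e]
    refine ⟨⟨h.cyc.three, fun i j e => neg_injective (h.cyc.inj e), fun i => ?_⟩,
      fun i j a => ?_, fun i => h.free _, fun i => h.off _, fun v hv => ?_, ?_⟩
    · have := (h.cyc.adj (-(i + 1))).symm
      rwa [show -(i + 1) + 1 = -i by ring] at this
    · rcases h.ind _ _ a with e | e
      · right; linear_combination e
      · left; linear_combination e
    · obtain ⟨i, rfl⟩ := h.sep hv
      exact ⟨-i, by simp⟩
    · obtain ⟨i, j, ne, a, b⟩ := h.two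
      exact ⟨-i, -j, fun e => ne (neg_injective e), by simpa using a, by simpa using b⟩
  · have e : orient true c = c := by funext i; simp [orient]
    rwa [e]

theorem range_orient {l : ℕ} (c : ZMod l → V) (o : Bool) :
    Set.range (orient o c) = Set.range c := by
  ext v
  constructor
  · rintro ⟨i, rfl⟩; exact ⟨_, rfl⟩
  · rintro ⟨i, rfl⟩
    cases o
    · exact ⟨-i, by simp [orient]⟩
    · exact ⟨i, by simp [orient]⟩

theorem nextS_unique {l : ℕ} {c : ZMod l → V} {T : Set V} {i j j' : ZMod l} (h : NextS c T i j)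
    (h' : NextS c T i j') : j = j' := by
  obtain ⟨m, m0, rfl, a, hm⟩ := h
  obtain ⟨m', m0', rfl, a', hm'⟩ := h'
  rcases lt_trichotomy m m' with l | l | l
  · exact absurd a (hm' m m0 l)
  · rw [l]
  · exact absurd a' (hm m' m0' l)

/-- the potential near a vertex of the ring -/
noncomputable def hs {m : ℕ} (x : ZMod m) (u : List (Let k)) (p : ℕ) : FG k :=
  if ad x ≤ 1 then 1 else FreeGroup.mk (u.take p)

theorem pot_nr (k6 : K6) {S : Sk k G U D} {w : D → FG k} {m : ℕ} {rad : V → ℕ}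
    {ang : V → ZMod m} {r : ℕ} {u : List (Let k)} {pos : V → ℕ} (m0 : 0 < m)
    (z : ZF S w rad ang r 3 u pos) {s : V} (hs' : s ∈ band rad r 1) :
    S.PotOn w (Nr rad ang s) fun v => hs (ang s) u (pos v) := by
  have key : ∀ v ∈ Nr rad ang s, v ∈ band rad r 3 ∧ ad (ang v) ≤ ad (ang s) + 1 ∧
      ad (ang s) ≤ ad (ang v) + 1 := by
    rintro v ⟨a, b, c⟩
    obtain ⟨a', b'⟩ := hs'
    refine ⟨⟨by omega, by omega⟩, ?_⟩
    rcases c with c | c | c
    · rw [c]; omega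
    · rw [c]; exact k6.ad_lip m _ m0
    · rw [c]; exact (k6.ad_lip m _ m0).symm
  intro d a b e ha hb
  obtain ⟨a1, a2, a3⟩ := key a ha
  obtain ⟨b1, b2, b3⟩ := key b hb
  by_cases h : ad (ang s) ≤ 1
  · simp only [hs, h, if_true, inv_one, mul_one]
    exact z.free d a b e ⟨a1, by omega⟩ ⟨b1, by omega⟩
  · simp only [hs, h, if_false]
    exact z.main d a b e ⟨a1, by omega⟩ ⟨b1, by omega⟩

theorem nr_self {m : ℕ} (rad : V → ℕ) (ang : V → ZMod m) (s : V) : s ∈ Nr rad ang s :=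
  ⟨by omega, by omega, Or.inl rfl⟩

theorem nr_adj {n m : ℕ} {rad : V → ℕ} {ang : V → ZMod m} (cy : Cyl G n m rad ang) {s v : V}
    (a : G.Adj s v) (h1 : 2 ≤ rad s) (h2 : rad s + 1 ≤ n) : v ∈ Nr rad ang s := by
  have x := cy.lip s v a
  have y := cy.lip v s a.symm
  exact ⟨x, y, cy.lipa s v a (by omega) (by omega) (by omega) (by omega)⟩

theorem good_lnk (gt : GoodTrSt) {D' : Type} [Finite D] [Finite D'] {S : Sk k G U D}
    {S' : Sk k G U D'} {C Z : Set V} {f : D → D'} (lk : Lnk S S' C f) (hZ : Disjoint Z C)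
    (g : S.Good Z) : S'.Good Z := by
  have := gt k k V V V D D' G U G U S S' id id Z (fun d _ => f d) injective_id injective_id
    (fun u _ v _ => ⟨v, rfl⟩) (fun u _ x => Iff.rfl) (fun d _ d' _ e => lk.inj e)
    (fun d _ x e => by rw [lk.vx]; exact e)
    (fun d _ x e => by rw [lk.al, lk.vx]; exact e)
    (fun d h _ => lk.si d (by
      obtain ⟨u, hu, e⟩ := h
      intro v hv e'
      rw [e] at e'
      cases e'
      exact Set.disjoint_left.1 hZ hu hv))
    (fun d _ _ => lk.al d)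
    (fun d' u hu e => by
      rcases lk.new d' with ⟨d, rfl⟩ | ⟨-, a, ha, b, -, e', -⟩
      · exact ⟨d, ⟨u, hu, by rw [← lk.vx]; exact e⟩, rfl⟩
      · rw [e] at e'
        cases e'
        exact absurd ha (Set.disjoint_left.1 hZ hu))
    (by simpa using g)
  simpa using this

theorem edges_bk (S : Sk k G U D) (K : Set V) : S.toHMap.Edges (S.BK K) := by
  intro q h
  simp only [Sk.BK, HMap.Bi] at h ⊢
  refine ⟨?_, fun e => h (by rw [e])⟩
  rw [S.αα]
  tauto

theorem col_bk (S : Sk k G U D) (K : Set V) : S.toHMap.Col (S.BK K) (S.XK K) := by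
  refine ⟨fun d => ?_, fun d h => ?_⟩
  · simp only [Sk.XK, Perm.sameCycle_apply_left]
  · simp only [Sk.BK, HMap.Bi, not_not] at h
    exact h.symm

theorem bk_none {S : Sk k G U D} {l : ℕ} {c : ZMod l → V} {K : Set V} (hg : Hg S c K) {x : D}
    (h : S.BK K x) (e : S.vx x = none) : S.vx (S.α x) = none := by
  simp only [Sk.BK, HMap.Bi] at h
  by_cases a : S.XK K x
  · rcases hg.bi x a (fun b => h ⟨fun _ => b, fun _ => a⟩) with ⟨-, b⟩ | ⟨-, i, j, b, -⟩
    · exact b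
    · rw [b.1] at e; cases e
  · have b : S.XK K (S.α x) := by tauto
    rcases hg.bi (S.α x) b (by rw [S.αα]; exact a) with ⟨b, -⟩ | ⟨-, i, j, b, -⟩
    · exact b
    · have := b.2
      rw [S.αα, e] at this
      cases this

theorem vx_sc [Finite D] (S : Sk k G U D) {d e : D} (h : S.toHMap.σ.SameCycle d e) :
    S.vx e = S.vx d := by
  obtain ⟨n, -, rfl⟩ := h.exists_pow_eq'
  clear h
  induction n with
  | zero => rfl
  | succ n ih => rw [pow_succ', Perm.mul_apply, HMap.σ_apply, S.vx_σ, ih]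

theorem nx_none (k3 : K3) [Finite D] {S : Sk k G U D} {l : ℕ} {c : ZMod l → V} {K : Set V}
    (hg : Hg S c K) {x : D} (h : S.BK K x) (e : S.vx x = none) :
    S.BK K (S.toHMap.nx (S.BK K) x) ∧ S.vx (S.toHMap.nx (S.BK K) x) = none := by
  obtain ⟨a, -, b, -⟩ := k3.nx_q S.toHMap (S.BK K) (edges_bk S K) x h
  exact ⟨a, by rw [vx_sc S b, S.vx_φ, bk_none hg h e]⟩

theorem inv_le (k3 : K3) [Finite D] {S : Sk k G U D} {l b : ℕ} {c : ZMod l → V} {K : Set V}
    (hg : Hg S c K) (fr : Frame G U c K) (ρ : D → Fin b → Prop)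
    (tot : ∀ x, S.BK K x → S.vx x = none → ∃ j, ρ x j)
    (inj : ∀ x x' j, ρ x j → ρ x' j → x = x') :
    S.toHMap.inv (S.BK K) (S.XK K) ≤ (b + l : ℕ) := by
  classical
  have : NeZero l := ⟨by have := fr.cyc.three; omega⟩
  obtain ⟨i₀, -, -, h₀, -⟩ := fr.two
  obtain ⟨q₀, ⟨x₀, y₀, -⟩, -⟩ := hg.z_ex i₀ h₀
  let τ : D → Fin b ⊕ ZMod l → Prop := fun q j => Sum.elim (ρ q)
    (fun i => c i ∈ nb G K ∧ S.XK K q ∧ ¬S.XK K (S.α q) ∧ S.vx q = some (c i)) j
  have h : ∀ j, ∃ g, ∀ q, τ q j → g = q := by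
    intro j
    by_cases ex : ∃ q, τ q j
    · obtain ⟨q, hq⟩ := ex
      refine ⟨q, fun q' hq' => ?_⟩
      rcases j with j | i
      · exact inj _ _ j hq hq'
      · exact (hg.z_ex i hq.1).unique hq.2 hq'.2
    · exact ⟨q₀, fun q hq => absurd ⟨q, hq⟩ ex⟩
  choose g hg' using h
  have := k3.inv_le S.toHMap (S.BK K) (S.XK K) g hg.top.1 (edges_bk S K) (col_bk S K)
    ⟨q₀, fun h => y₀ (h.1 x₀)⟩ (by
      intro q a x
      have y : ¬S.XK K (S.α q) := fun y => a ⟨fun _ => y, fun _ => x⟩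
      rcases hg.bi q x y with ⟨e, -⟩ | ⟨-, i, j, e, hi, -⟩
      · obtain ⟨j, hj⟩ := tot q a e
        exact ⟨.inl j, by rw [hg' (.inl j) q hj]; exact EqvGen.refl _⟩
      · exact ⟨.inr i, by rw [hg' (.inr i) q ⟨hi, x, y, e.1⟩]; exact EqvGen.refl _⟩)
  simpa [Nat.card_sum, Nat.card_zmod] using this

end gen

section glue
variable {t : ℕ} {I K : Type} (P : Piece t I) (C : Ctx t K)

theorem band_glue (rad : I → ℕ) {n r a : ℕ} (h : r + a ≤ n) :
    band (Sum.elim rad fun _ : K => n + 1) r a = Sum.inl '' band rad r a := by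
  ext (x | y)
  · simp [band]
  · simp only [band, Set.mem_ofPred_eq, Sum.elim_inr, Set.mem_image, reduceCtorEq, and_false,
      exists_false, iff_false]
    omega

theorem nb_glue {X : Set I} (h : ∀ x ∈ X, ∀ s, ¬P.att x s) :
    nb (glue P C) (Sum.inl '' X) = Sum.inl '' nb P.G X := by
  ext (x | y)
  · constructor
    · rintro ⟨a, _, ⟨z, hz, rfl⟩, b⟩
      exact ⟨x, ⟨fun c => a ⟨x, c, rfl⟩, z, hz, b⟩, rfl⟩
    · rintro ⟨x', ⟨a, z, hz, b⟩, e⟩
      cases e
      exact ⟨by simpa using a, _, ⟨z, hz, rfl⟩, b⟩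
  · constructor
    · rintro ⟨-, _, ⟨z, hz, rfl⟩, s, b, -⟩
      exact absurd b (h z hz s)
    · simp

theorem frame_glue {l : ℕ} {c : ZMod l → I} {X : Set I} (fr : Frame P.G P.U c X)
    (h : ∀ x ∈ X, ∀ s, ¬P.att x s) :
    Frame (glue P C) (glueU P C) (Sum.inl ∘ c) (Sum.inl '' X) := by
  refine ⟨⟨fr.cyc.three, Sum.inl_injective.comp fr.cyc.inj, fr.cyc.adj⟩, fr.ind, fr.free,
    fun i => by simpa using fr.off i, ?_, ?_⟩
  · rw [nb_glue P C h]
    rintro _ ⟨x, hx, rfl⟩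
    obtain ⟨i, rfl⟩ := fr.sep hx
    exact ⟨i, rfl⟩
  · rw [nb_glue P C h]
    obtain ⟨i, j, ne, a, b⟩ := fr.two
    exact ⟨i, j, ne, ⟨_, a, rfl⟩, ⟨_, b, rfl⟩⟩

theorem cn_glue {X : Set I} (h : Cn P.G X) : Cn (glue P C) (Sum.inl '' X) := by
  refine ⟨h.1.image _, ?_⟩
  rintro _ ⟨a, ha, rfl⟩ _ ⟨b, hb, rfl⟩
  have := h.2 a ha b hb
  clear hb
  induction this with
  | refl => exact .refl
  | tail p e ih => exact ih.tail ⟨e.1, ⟨_, e.2.1, rfl⟩, ⟨_, e.2.2, rfl⟩⟩

theorem nextS_glue {l : ℕ} {c : ZMod l → I} {T : Set I} {i j : ZMod l}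
    (h : NextS (Sum.inl ∘ c : ZMod l → I ⊕ K) (Sum.inl '' T) i j) : NextS c T i j := by
  obtain ⟨m, m0, e, a, hm⟩ := h
  exact ⟨m, m0, e, by simpa using a, fun l a b => by simpa using hm l a b⟩

end glue

/-! ### tables -/

def tab {A D : Type} {b : ℕ} (ρ : D → Fin b → Prop) (p : A → D → D → Prop) :
    A → Fin b → Fin b → Prop := fun a j j' => ∃ x x', ρ x j ∧ ρ x' j' ∧ p a x x'

theorem tab_tr {A D D' : Type} {b : ℕ} {ρ : D → Fin b → Prop} {p : A → D → D → Prop}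
    {ρ' : D' → Fin b → Prop} {p' : A → D' → D' → Prop} (e : tab ρ p = tab ρ' p')
    (inj : ∀ x x' j, ρ' x j → ρ' x' j → x = x') {a : A} {x x' : D} {y y' : D'} {j j' : Fin b}
    (h1 : ρ x j) (h2 : ρ x' j') (h3 : ρ' y j) (h4 : ρ' y' j') (h : p a x x') : p' a y y' := by
  have : tab ρ' p' a j j' := e ▸ ⟨x, x', h1, h2, h⟩
  obtain ⟨z, z', a1, a2, a3⟩ := this
  rwa [inj _ _ _ a1 h3, inj _ _ _ a2 h4] at a3

theorem tab_dom {A D D' : Type} {b : ℕ} {ρ : D → Fin b → Prop} {p : A → D → D → Prop}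
    {ρ' : D' → Fin b → Prop} {p' : A → D' → D' → Prop} (e : tab ρ p = tab ρ' p') {a : A} {x : D}
    {j : Fin b} (h1 : ρ x j) (h : p a x x) : ∃ y, ρ' y j := by
  have : tab ρ' p' a j j := e ▸ ⟨x, x, h1, h1, h⟩
  obtain ⟨z, -, a1, -⟩ := this
  exact ⟨z, a1⟩

theorem list_eq {A : Type} {u v : List A} {N : ℕ} (hu : u.length ≤ N) (hv : v.length ≤ N)
    (h : ∀ (i : Fin N) a, u[i.1]? = some a ↔ v[i.1]? = some a) : u = v := by
  apply List.ext_getElem?
  intro i
  by_cases l : i < N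
  · exact Option.ext (h ⟨i, l⟩)
  · rw [List.getElem?_eq_none (by omega), List.getElem?_eq_none (by omega)]

end RepA

end Pool.Agent.Lib.MP_c1f5fe_lc
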