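import Pool.Agent.Lib.MP_c1f5fe_lc.RepA

/-! Solutions prepared at a zone, and the exchange of their insides. -/

namespace Pool.Agent.Lib.MP_c1f5fe_lc

open Equiv Function Relation

namespace RepB
open RepA

structure Dat {t : ℕ} {I K : Type} (k b : ℕ) (P : Piece t I) (C : Ctx t K) : Type 1 where
  D : Type
  fD : Finite D
  S : Sk k (glue P C) (glueU P C) D
  w : D → FG k
  u : List (Let k)
  pos : I ⊕ K → ℕ
  D' : Type
  fD' : Finite D'
  S' : Sk k (glue P C) (glueU P C) D'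
  f : D → D'
  ρ : D' → Fin b → Prop

attribute [instance] Dat.fD Dat.fD'

abbrev radG {I : Type} (K : Type) (n : ℕ) (rad : I → ℕ) : I ⊕ K → ℕ :=
  Sum.elim rad fun _ => n + 1

abbrev angG {I : Type} (K : Type) {m : ℕ} (ang : I → ZMod m) : I ⊕ K → ZMod m :=
  Sum.elim ang fun _ => 0

variable {k b t : ℕ} {I K K₁ K₂ : Type} {P : Piece t I} {C : Ctx t K} {C₁ : Ctx t K₁}
  {C₂ : Ctx t K₂}

structure OK (x : Dat k b P C) (n : ℕ) {m : ℕ} (rad : I → ℕ) (ang : I → ZMod m) (r A L E : ℕ)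
    {l : ℕ} (c : ZMod l → I) (X : Set I) : Prop where
  top : x.S.Top
  nf : x.S.Nf b
  val : x.S.Valid x.w
  nrm : ∀ d, (x.w d).norm ≤ E
  len : x.u.length ≤ L
  full : x.S.Full (band (radG K n rad) r A)
  zf : ZF x.S x.w (radG K n rad) (angG K ang) r A x.u x.pos
  hg : Hg x.S' (Sum.inl ∘ c) (Sum.inl '' X)
  lk : Lnk x.S x.S' (Set.range (Sum.inl ∘ c)) x.f
  wd : ∀ w, x.S.Valid w →
    (∀ i, ∃ H, x.S.PotOn w (Nr (radG K n rad) (angG K ang) (.inl (c i))) H) →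
    ∃ w', x.S'.Valid w' ∧ (∀ d, w' (x.f d) = w d) ∧
      ∀ z s s' H, x.S'.XK (Sum.inl '' X) z → ¬x.S'.XK (Sum.inl '' X) (x.S'.α z) →
        x.S'.E z s s' → x.S.PotOn w (Nr (radG K n rad) (angG K ang) s) H →
        w' z = (H s)⁻¹ * H s'
  tot : ∀ y, x.S'.BK (Sum.inl '' X) y → x.S'.vx y = none → ∃ j, x.ρ y j
  dom : ∀ y j, x.ρ y j → x.S'.BK (Sum.inl '' X) y ∧ x.S'.vx y = none
  inj : ∀ y y' j, x.ρ y j → x.ρ y' j → y = y'
  fn : ∀ y j j', x.ρ y j → x.ρ y j' → j = j'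

def pp (x : Dat k b P C) (X : Set I) (E : ℕ) : Fin 6 ⊕ Fin E × Let k → x.D' → x.D' → Prop
  | .inl i, y, y' =>
    match i.1 with
    | 0 => True
    | 1 => y' = x.S'.α y
    | 2 => y' = x.S'.toHMap.nx (x.S'.BK (Sum.inl '' X)) y
    | 3 => x.S'.XK (Sum.inl '' X) y
    | 4 => x.S'.toHMap.Reg (x.S'.BK (Sum.inl '' X)) y y'
    | _ => ∃ z, x.S'.BK (Sum.inl '' X) z ∧ x.S'.vx z ≠ none ∧
        x.S'.toHMap.Reg (x.S'.BK (Sum.inl '' X)) y z
  | .inr p, y, _ => ∃ d, x.f d = y ∧ (x.w d).toWord[p.1.1]? = some p.2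

noncomputable def iv (x : Dat k b P C) (X : Set I) : ℤ :=
  x.S'.toHMap.inv (x.S'.BK (Sum.inl '' X)) (x.S'.XK (Sum.inl '' X))

section
variable {n m : ℕ} {rad : I → ℕ} {ang : I → ZMod m} {r A L E l : ℕ} {c : ZMod l → I} {X : Set I}

theorem band_mono {V : Type} (rad : V → ℕ) {r a a' : ℕ} (h : a ≤ a') :
    band rad r a ⊆ band rad r a' :=
  fun v hv => ⟨by have := hv.1; omega, by have := hv.2; omega⟩

theorem OK.old {x : Dat k b P C} (o : OK x n rad ang r A L E c X) {y : x.D'}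
    (h : x.S'.vx y = none ∨ x.S'.real y) : ∃ d, x.f d = y := by
  rcases o.lk.new y with e | ⟨nr, a, -, b, -, e, -⟩
  · exact e
  · rcases h with h | h
    · rw [h] at e; cases e
    · exact absurd h nr

theorem comb1 (k6 : K6) (cb : CombSt) {x₁ : Dat k b P C₁} {x₂ : Dat k b P C₂}
    (o₁ : OK x₁ n rad ang r A L E c X) (o₂ : OK x₂ n rad ang r A L E c X)
    (cy : Cyl P.G n m rad ang) (att : ∀ v s, P.att v s → rad v = n)
    (hc : ∀ i, c i ∈ band rad r 1) (m8 : 8 ≤ m) (h1 : A < r) (h2 : r + A ≤ n)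
    (h3 : 2 * L + 9 ≤ A) (eu : x₁.u = x₂.u) (eok : x₁.S.ok = x₂.S.ok) :
    ∃ w', x₁.S'.Valid w' ∧ (∀ d, x₁.S.vx d = none → w' (x₁.f d) = x₁.w d) ∧
      ∀ z i v, (x₁.S'.XK (Sum.inl '' X) z ∧ ¬x₁.S'.XK (Sum.inl '' X) (x₁.S'.α z)) ∨
        x₁.S'.real z → x₁.S'.E z (.inl (c i)) (.inl v) →
        w' z = (hs (ang (c i)) x₁.u (min (x₁.pos (.inl (c i))) (x₂.pos (.inl (c i)))))⁻¹ *
          hs (ang (c i)) x₁.u (min (x₁.pos (.inl v)) (x₂.pos (.inl v))) := by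
  have cy₁ := k6.glue P C₁ n m rad ang cy att
  have pk := cb.posOf x₂.S x₂.w _ _ r A x₂.u x₂.pos o₂.val o₂.zf
  have onl : ∀ v : I ⊕ K₁, v ∈ band (radG K₁ n rad) r A → ∃ a, v = .inl a := by
    intro v hv
    rw [band_glue rad h2] at hv
    obtain ⟨a, -, rfl⟩ := hv
    exact ⟨a, rfl⟩
  have len := o₁.len
  obtain ⟨w₁, v₁, z₁, n₁⟩ := cb.comb x₁.S x₁.w n m (radG K₁ n rad) (angG K₁ ang) r A 3 x₁.u
    x₁.pos (Sum.elim (fun v => x₂.pos (.inl v)) fun _ => 0) o₁.val cy₁ m8 h1 h2 (by omega)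
    o₁.full o₁.zf
    (by
      rw [eu, eok]
      constructor
      · intro x hx y hy a
        obtain ⟨x, rfl⟩ := onl x hx.1
        obtain ⟨y, rfl⟩ := onl y hy.1
        exact pk.edge (.inl x) hx (.inl y) hy a
      · intro x hx y hy z hz a a'
        obtain ⟨x, rfl⟩ := onl x hx.1
        obtain ⟨y, rfl⟩ := onl y hy.1
        obtain ⟨z, rfl⟩ := onl z hz.1
        exact pk.vert (.inl x) hx (.inl y) hy (.inl z) hz a a')
    (by
      intro v hv a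
      obtain ⟨v, rfl⟩ := onl v hv
      rw [eu]
      exact (o₂.zf.right (.inl v) hv a).ge)
  have pn := fun i => pot_nr k6 (by omega) z₁ (s := .inl (c i)) (hc i)
  obtain ⟨w', v', e', ch⟩ := o₁.wd w₁ v₁ fun i => ⟨_, pn i⟩
  refine ⟨w', v', fun d h => by rw [e', n₁ d (Or.inl h)], ?_⟩
  rintro z i v (⟨a, a'⟩ | a) e
  · exact ch z _ _ _ a a' e (pn i)
  · obtain ⟨d, rfl⟩ := o₁.old (Or.inr a)
    have e₀ : x₁.S.E d (.inl (c i)) (.inl v) :=
      ⟨by rw [← o₁.lk.vx]; exact e.1, by rw [← o₁.lk.vx, ← o₁.lk.al]; exact e.2⟩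
    have hb := hc i
    rw [e']
    exact pn i d _ _ e₀ (nr_self _ _ _) (nr_adj cy₁ (o₁.nf.p2 d _ _ e₀)
      (by have := hb.1; show 2 ≤ rad (c i); omega)
      (by have := hb.2; show rad (c i) + 1 ≤ n; omega))

theorem swap (k3 : K3) (k6 : K6) (cb : CombSt) (zs : ZSwapSt) (gt : GoodTrSt) [Finite I]
    {x₁ : Dat k b P C₁} {x₂ : Dat k b P C₂}
    (o₁ : OK x₁ n rad ang r A L E c X) (o₂ : OK x₂ n rad ang r A L E c X)
    (cy : Cyl P.G n m rad ang) (att : ∀ v s, P.att v s → rad v = n) (fr : Frame P.G P.U c X)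
    (hc : ∀ i, c i ∈ band rad r 1) (hX : ∀ v ∈ X, rad v ≤ r + 2) (m8 : 8 ≤ m) (h1 : A < r)
    (h2 : r + A ≤ n) (h3 : 2 * L + 9 ≤ A) (eu : x₁.u = x₂.u) (eok : x₁.S.ok = x₂.S.ok)
    (et : tab x₁.ρ (pp x₁ X E) = tab x₂.ρ (pp x₂ X E)) (hi : iv x₁ X ≤ iv x₂ X) :
    ∃ (D : Type) (_ : Finite D) (S : Sk k (glue P C₁) (glueU P C₁) D) (w : D → FG k),
      S.Top ∧ S.Valid w ∧ ∀ Z ⊆ X, x₂.S.Good (Sum.inl '' Z) → S.Good (Sum.inl '' Z) := by
  have na : ∀ x ∈ X, ∀ s, ¬P.att x s := fun x hx s h => by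
    have := hX x hx
    have := att x s h
    omega
  obtain ⟨w₁, v₁, a₁, b₁⟩ := comb1 k6 cb o₁ o₂ cy att hc m8 h1 h2 h3 eu eok
  obtain ⟨w₂, v₂, a₂, b₂⟩ := comb1 k6 cb o₂ o₁ cy att hc m8 h1 h2 h3 eu.symm eok.symm
  have d₁ : ∀ x j, x₁.ρ x j → ∃ y, x₂.ρ y j := fun x j h => tab_dom et (a := .inl 0) h trivial
  have d₂ : ∀ y j, x₂.ρ y j → ∃ x, x₁.ρ x j := fun x j h =>
    tab_dom et.symm (a := .inl 0) h trivial
  have both : ∀ x y i v, (x₁.S'.XK (Sum.inl '' X) x ∧ ¬x₁.S'.XK (Sum.inl '' X) (x₁.S'.α x)) ∨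
      x₁.S'.real x → (x₂.S'.XK (Sum.inl '' X) y ∧ ¬x₂.S'.XK (Sum.inl '' X) (x₂.S'.α y)) ∨
      x₂.S'.real y → x₁.S'.E x (.inl (c i)) (.inl v) → x₂.S'.E y (.inl (c i)) (.inl v) →
      w₁ x = w₂ y := by
    intro x y i v p q e e'
    rw [b₁ x i v p e, b₂ y i v q e', eu, min_comm (x₁.pos _), min_comm (x₁.pos _)]
  obtain ⟨D, fD, S, w, tp, vl, gd⟩ := zs k t l I K₁ x₁.D' K₂ x₂.D' P C₁ C₂ x₁.S' w₁ x₂.S' w₂ c X
    (fun x y => ∃ j, x₁.ρ x j ∧ x₂.ρ y j) fr na o₁.hg o₂.hg v₁ v₂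
    (by rw [o₁.lk.ok, o₂.lk.ok, eok])
    (by
      rintro x y ⟨j, p, q⟩
      obtain ⟨p1, p2⟩ := o₁.dom x j p
      obtain ⟨q1, q2⟩ := o₂.dom y j q
      refine ⟨p1, p2, q1, q2, ⟨fun h => tab_tr et o₂.inj (a := .inl 3) p p q q h,
        fun h => tab_tr et.symm o₁.inj (a := .inl 3) q q p p h⟩, ?_, ?_, ?_,
        fun h => tab_tr et o₂.inj (a := .inl 5) p p q q h⟩
      · obtain ⟨d, rfl⟩ := o₁.old (Or.inl p2)
        obtain ⟨e, rfl⟩ := o₂.old (Or.inl q2)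
        rw [a₁ d (by rw [← o₁.lk.vx]; exact p2), a₂ e (by rw [← o₂.lk.vx]; exact q2)]
        refine FreeGroup.toWord_injective (list_eq (o₁.nrm d) (o₂.nrm e) fun i a => ⟨?_, ?_⟩)
        · intro h
          obtain ⟨e', u, v⟩ := tab_tr et o₂.inj (a := .inr (i, a)) p p q q ⟨d, rfl, h⟩
          rw [← o₂.lk.inj u]; exact v
        · intro h
          obtain ⟨e', u, v⟩ := tab_tr et.symm o₁.inj (a := .inr (i, a)) q q p p ⟨e, rfl, h⟩
          rw [← o₁.lk.inj u]; exact v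
      · obtain ⟨j', p'⟩ := o₁.tot _ (edges_bk _ _ x p1).1 (bk_none o₁.hg p1 p2)
        obtain ⟨y', q'⟩ := d₁ _ _ p'
        have : y' = x₂.S'.α y := tab_tr et o₂.inj (a := .inl 1) p p' q q' rfl
        exact ⟨j', p', this ▸ q'⟩
      · obtain ⟨j', p'⟩ := o₁.tot _ (nx_none k3 o₁.hg p1 p2).1 (nx_none k3 o₁.hg p1 p2).2
        obtain ⟨y', q'⟩ := d₁ _ _ p'
        have : y' = x₂.S'.toHMap.nx (x₂.S'.BK (Sum.inl '' X)) y :=
          tab_tr et o₂.inj (a := .inl 2) p p' q q' rfl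
        exact ⟨j', p', this ▸ q'⟩)
    (by
      intro x p1 p2
      obtain ⟨j, p⟩ := o₁.tot x p1 p2
      obtain ⟨y, q⟩ := d₁ _ _ p
      exact ⟨y, j, p, q⟩)
    (by
      intro y p1 p2
      obtain ⟨j, q⟩ := o₂.tot y p1 p2
      obtain ⟨x, p⟩ := d₂ _ _ q
      exact ⟨x, j, p, q⟩)
    (by
      rintro x y x' y' ⟨j, p, q⟩ ⟨j', p', q'⟩
      refine ⟨⟨?_, ?_⟩, fun h => tab_tr et o₂.inj (a := .inl 4) p p' q q' h⟩
      · rintro rfl
        exact o₂.inj _ _ _ q (o₁.fn _ _ _ p' p ▸ q')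
      · rintro rfl
        exact o₁.inj _ _ _ p (o₂.fn _ _ _ q' q ▸ p'))
    (by
      intro x y s p1 p2 q1 q2 e e'
      have p3 : ¬x₁.S'.XK (Sum.inl '' X) (x₁.S'.α x) := fun h => p2 ⟨fun _ => h, fun _ => p1⟩
      have q3 : ¬x₂.S'.XK (Sum.inl '' X) (x₂.S'.α y) := fun h => q2 ⟨fun _ => h, fun _ => q1⟩
      rcases o₁.hg.bi x p1 p3 with ⟨h, -⟩ | ⟨-, i, j, f, -, g⟩
      · rw [h] at e; cases e
      rcases o₂.hg.bi y q1 q3 with ⟨h, -⟩ | ⟨-, i', j', f', -, g'⟩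
      · rw [h] at e'; cases e'
      have u : c i = s := Sum.inl_injective (Option.some_injective _ (f.1.symm.trans e))
      have u' : c i' = s := Sum.inl_injective (Option.some_injective _ (f'.1.symm.trans e'))
      obtain rfl : i = i' := fr.cyc.inj (u.trans u'.symm)
      rw [nb_glue P _ na] at g g'
      obtain rfl : j = j' := nextS_unique (nextS_glue g) (nextS_glue g')
      exact both x y i (c j) (Or.inl ⟨p1, p3⟩) (Or.inl ⟨q1, q3⟩) f f')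
    (fun x y i v p q e e' _ => both x y i v (Or.inr p) (Or.inr q) e e') hi
  refine ⟨D, fD, S, w, tp, vl, fun Z hZ g => gd Z hZ (good_lnk gt o₂.lk ?_ g)⟩
  rw [Set.disjoint_left]
  rintro _ ⟨z, hz, rfl⟩ ⟨i, e⟩
  exact fr.off i (Sum.inl_injective e ▸ hZ hz)

theorem OK.iv_le (k3 : K3) {x : Dat k b P C} (o : OK x n rad ang r A L E c X)
    (fr : Frame P.G P.U c X) (na : ∀ x ∈ X, ∀ s, ¬P.att x s) : iv x X ≤ (b + l : ℕ) :=
  inv_le k3 o.hg (frame_glue P C fr na) x.ρ o.tot o.inj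

theorem exist (k2 : K2) (k6 : K6) (fl : FlatSt) (hug : HugSt) [Finite I] [Finite K] {D : Type}
    [fD : Finite D] (S : Sk k (glue P C) (glueU P C) D) (top : S.Top) (nf : S.Nf b)
    (ind : Indep (glue P C) (glueU P C))
    (cy : Cyl P.G n m rad ang) (att : ∀ v s, P.att v s → rad v = n) (fr : Frame P.G P.U c X)
    (hc : ∀ i, c i ∈ band rad r 1) (hX : ∀ v ∈ X, rad v ≤ r + 2)
    (cn : Cn P.G (X ∩ band rad r 3)) (m8 : 8 ≤ m) (h1 : A < r)
    (h2 : r + A ≤ n) (h3 : 3 ≤ A) (gd : S.Good (band (radG K n rad) r A))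
    (hz : ∃ w u pos, S.Valid w ∧ S.Min w ∧ u.length ≤ L ∧
      ZF S w (radG K n rad) (angG K ang) r A u pos)
    (he : ∀ w, S.Valid w → S.Min w → ∀ d, (w d).norm ≤ E) :
    ∃ (o : Bool) (x : Dat k b P C), OK x n rad ang r A L E (orient o c) X := by
  classical
  have na : ∀ x ∈ X, ∀ s, ¬P.att x s := fun x hx s h => by
    have := hX x hx
    have := att x s h
    omega
  have cy₁ : Cyl (glue P C) n m (radG K n rad) (angG K ang) := k6.glue P C n m rad ang cy att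
  have g3 : S.Good (band (radG K n rad) r 3) :=
    good_mono k2 S (band_mono _ h3) gd
  obtain ⟨w, u, pos, vl, mn, ln, zf⟩ := hz
  obtain ⟨o, D', fD', S', f, hg, lk, wd⟩ := hug k l (I ⊕ K) D (glue P C) (glueU P C) S
    (Sum.inl ∘ c) (Sum.inl '' X) (band (radG K n rad) r 3) (Nr (radG K n rad) (angG K ang)) top
    nf.p2 nf.p3 g3.2
    (by
      have := k6.rows _ n m _ _ (r - 3) (r + 3) (by omega) cy₁ (by omega) (by omega) (by omega)
      convert this using 1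
      ext v
      simp only [band, Set.mem_ofPred_eq]
      omega)
    (frame_glue P C fr na) ind
    (by
      rw [band_glue rad (by omega), ← Set.image_inter Sum.inl_injective]
      exact cn_glue P C cn)
    (by
      intro d e i h sc
      obtain ⟨v, a, b⟩ := fl.near S n m _ _ r 1 cy₁ (by omega) (by omega) (by omega) g3 d e _ h
        (hc i) sc
      refine ⟨v, a, b, ?_⟩
      obtain ⟨p, q⟩ := hc i
      obtain ⟨p', q', -⟩ := b
      change rad (c i) ≤ radG K n rad v + 1 at p'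
      change radG K n rad v ≤ rad (c i) + 1 at q'
      exact ⟨by omega, by omega⟩)
  obtain ⟨e⟩ : Nonempty ({d // S.Non d} ↪ Fin b) := by
    have := Fintype.ofFinite {d // S.Non d}
    apply Function.Embedding.nonempty_of_card_le
    rw [Fintype.card_fin, ← Nat.card_eq_fintype_card]
    exact nf.non
  refine ⟨o, ⟨D, fD, S, w, u, pos, D', fD', S', f, fun y j => S'.BK (Sum.inl '' X) y ∧
    S'.vx y = none ∧ ∃ d : {d // S.Non d}, f d.1 = y ∧ e d = j⟩, top, nf, vl, he w vl mn, ln,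
    gd.1, zf, hg, ?_, fun w' v' h => wd w' v' fun i => ?_, ?_, fun y j h => ⟨h.1, h.2.1⟩, ?_, ?_⟩
  · have : Set.range (Sum.inl ∘ orient o c : ZMod l → I ⊕ K) = Set.range (Sum.inl ∘ c) :=
      range_orient (Sum.inl ∘ c) o
    rw [this]
    exact lk
  · obtain ⟨i', e'⟩ : c i ∈ Set.range (orient o c) := by rw [range_orient]; exact ⟨i, rfl⟩
    have := h i'
    rw [e'] at this
    exact this
  · intro y p q
    rcases lk.new y with ⟨d, rfl⟩ | ⟨-, a, -, b, -, h, -⟩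
    · exact ⟨e ⟨d, Or.inl (by rw [← lk.vx]; exact q)⟩, p, q, _, rfl, rfl⟩
    · exact absurd (q.symm.trans h) (by simp)
  · rintro y y' j ⟨-, -, d, rfl, rfl⟩ ⟨-, -, d', rfl, h⟩
    rw [e.injective h]
  · rintro y j j' ⟨-, -, d, rfl, rfl⟩ ⟨-, -, d', h, rfl⟩
    rw [Subtype.ext (lk.inj h)]

end

end RepB

end Pool.Agent.Lib.MP_c1f5fe_lc
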