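import Pool.Agent.Lib.MP_c1f5fe_lc.SpecB
import Pool.Agent.Lib.MP_c1f5fe_lc.Tb

/-! Selections of letters, reduced words. -/

namespace Pool.Agent.Lib.MP_c1f5fe_lc.Sel

open Equiv Function Relation

variable {A : Type}

open Classical in
theorem sel_aux (l : List A) (P : ℕ → Prop) (n : ℕ) :
    ((l.zipIdx n).filter fun p => P p.2).map Prod.fst = sel l fun j => P (n + j) := by
  induction l generalizing n P with
  | nil => simp [sel]
  | cons a l ih =>
    have h1 := ih P (n + 1)
    have h2 := ih (fun j => P (n + j)) 1
    simp only [sel, List.zipIdx_cons, List.filter_cons, Nat.zero_add, Nat.add_zero] at h1 h2 ⊢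
    have e : (fun p : A × ℕ => decide (P (n + 1 + p.2))) =
        fun p : A × ℕ => decide (P (n + (1 + p.2))) := by
      funext p; rw [Nat.add_assoc]
    by_cases h : P n <;> simp [h, h1, h2, e]

@[simp] theorem sel_nil (P : ℕ → Prop) : sel ([] : List A) P = [] := by simp [sel]

theorem sel_cons_pos (a : A) (l : List A) {P : ℕ → Prop} (h : P 0) :
    sel (a :: l) P = a :: sel l fun j => P (j + 1) := by
  have := sel_aux l P 1
  simp only [Nat.add_comm 1] at this
  rw [← this]
  simp [sel, List.zipIdx_cons, h]

theorem sel_cons_neg (a : A) (l : List A) {P : ℕ → Prop} (h : ¬P 0) :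
    sel (a :: l) P = sel l fun j => P (j + 1) := by
  have := sel_aux l P 1
  simp only [Nat.add_comm 1] at this
  rw [← this]
  simp [sel, List.zipIdx_cons, h]

theorem sel_congr (l : List A) {P P' : ℕ → Prop} (h : ∀ j < l.length, (P j ↔ P' j)) :
    sel l P = sel l P' := by
  induction l generalizing P P' with
  | nil => simp
  | cons a l ih =>
    have h0 := h 0 (by simp)
    have ht : sel l (fun j => P (j + 1)) = sel l fun j => P' (j + 1) :=
      ih fun j hj => h (j + 1) (by simpa using hj)
    by_cases p : P 0
    · rw [sel_cons_pos a l p, sel_cons_pos a l (h0.1 p), ht]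
    · rw [sel_cons_neg a l p, sel_cons_neg a l (fun q => p (h0.2 q)), ht]

theorem sel_append (l l' : List A) (P : ℕ → Prop) :
    sel (l ++ l') P = sel l P ++ sel l' fun j => P (l.length + j) := by
  induction l generalizing P with
  | nil => simp
  | cons a l ih =>
    have e : (fun j => P (l.length + j + 1)) = fun j => P ((a :: l).length + j) := by
      funext j; congr 1; simp; omega
    by_cases p : P 0
    · rw [List.cons_append, sel_cons_pos a _ p, sel_cons_pos a _ p, ih, e]; rfl
    · rw [List.cons_append, sel_cons_neg a _ p, sel_cons_neg a _ p, ih, e]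

theorem sel_sublist (l : List A) (P : ℕ → Prop) : (sel l P).Sublist l := by
  induction l generalizing P with
  | nil => simp
  | cons a l ih =>
    by_cases p : P 0
    · rw [sel_cons_pos a _ p]; exact (ih _).cons_cons a
    · rw [sel_cons_neg a _ p]; exact (ih _).cons a

theorem sel_all (l : List A) {P : ℕ → Prop} (h : ∀ j < l.length, P j) : sel l P = l := by
  induction l generalizing P with
  | nil => simp
  | cons a l ih =>
    rw [sel_cons_pos a _ (h 0 (by simp)), ih fun j hj => h (j + 1) (by simpa using hj)]

theorem sel_none (l : List A) {P : ℕ → Prop} (h : ∀ j < l.length, ¬P j) : sel l P = [] := by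
  induction l generalizing P with
  | nil => simp
  | cons a l ih =>
    rw [sel_cons_neg a _ (h 0 (by simp)), ih fun j hj => h (j + 1) (by simpa using hj)]

theorem sel_map {B : Type} (f : A → B) (l : List A) (P : ℕ → Prop) :
    sel (l.map f) P = (sel l P).map f := by
  induction l generalizing P with
  | nil => simp
  | cons a l ih =>
    by_cases p : P 0
    · rw [List.map_cons, sel_cons_pos _ _ p, sel_cons_pos _ _ p, ih, List.map_cons]
    · rw [List.map_cons, sel_cons_neg _ _ p, sel_cons_neg _ _ p, ih]

theorem sel_reverse (l : List A) (P : ℕ → Prop) :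
    sel l.reverse P = (sel l fun j => P (l.length - 1 - j)).reverse := by
  induction l generalizing P with
  | nil => simp
  | cons a l ih =>
    rw [List.reverse_cons, sel_append, ih]
    have e : sel l (fun j => P (l.length - 1 - j)) =
        sel l fun j => P ((a :: l).length - 1 - (j + 1)) :=
      sel_congr l fun j _ => by
        have : l.length - 1 - j = (a :: l).length - 1 - (j + 1) := by simp; omega
        rw [this]
    by_cases p : P l.length
    · rw [sel_cons_pos a [] (by simpa using p), sel_cons_pos a l (by simpa using p), e]; simp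
    · rw [sel_cons_neg a [] (by simpa using p), sel_cons_neg a l (by simpa using p), e]; simp

theorem invRev_eq (l : List (A × Bool)) : FreeGroup.invRev l = (l.map linv).reverse := rfl

theorem sel_invRev (l : List (A × Bool)) {P P' : ℕ → Prop}
    (h : ∀ j < l.length, (P' (l.length - 1 - j) ↔ P j)) :
    sel (FreeGroup.invRev l) P' = FreeGroup.invRev (sel l P) := by
  rw [invRev_eq, invRev_eq, sel_reverse, sel_map, List.length_map, sel_congr l h]

@[simp] theorem linv_linv (x : A × Bool) : linv (linv x) = x := by simp [linv]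

theorem linv_ne (x : A × Bool) : linv x ≠ x := by
  intro h
  have := congrArg Prod.snd h
  simp [linv] at this

theorem map_linv_linv (o : Option (A × Bool)) : (o.map linv).map linv = o := by
  cases o <;> simp

theorem invRev_get (l : List (A × Bool)) {j : ℕ} (h : j < l.length) :
    (FreeGroup.invRev l)[l.length - 1 - j]? = l[j]?.map linv := by
  rw [invRev_eq, List.getElem?_reverse (by simp; omega), List.getElem?_map, List.length_map]
  congr 2; omega

/-- a reduced word has no letter followed by its inverse -/
theorem red_adj [DecidableEq A] {l : List (A × Bool)} (h : (FreeGroup.mk l).toWord = l) {j : ℕ}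
    (hj : j + 1 < l.length) : l[j + 1]? ≠ l[j]?.map linv := by
  have r : FreeGroup.IsReduced l := h ▸ FreeGroup.isReduced_toWord
  have := List.isChain_iff_getElem.1 r j hj
  rw [List.getElem?_eq_getElem hj, List.getElem?_eq_getElem (by omega)]
  intro e
  simp only [Option.map_some, Option.some.injEq] at e
  rw [e] at this
  simp [linv] at this

theorem toWord_mk_sublist [DecidableEq A] (l : List (A × Bool)) :
    (FreeGroup.mk l).toWord.Sublist l := by
  rw [FreeGroup.toWord_mk]
  exact FreeGroup.reduce.red.sublist

theorem eq_one_of_inv {g : FreeGroup A} (h : g = g⁻¹) : g = 1 := by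
  have : g ^ 2 = 1 ^ 2 := by
    rw [one_pow, pow_two]; nth_rewrite 1 [h]; exact inv_mul_cancel g
  exact pow_left_injective (by norm_num) this

section sk
variable {k : ℕ} {V D : Type} {G : SimpleGraph V} {U : Set V} {S : Sk k G U D} {w : D → FG k}

theorem norm_α (h : S.Pre w) (d : D) : (w (S.α d)).norm = (w d).norm := by
  rw [h.inv, FreeGroup.norm_inv_eq]

theorem word_α (h : S.Pre w) (d : D) :
    (w (S.α d)).toWord = FreeGroup.invRev (w d).toWord := by
  rw [h.inv, FreeGroup.toWord_inv]

theorem isT_cases [Finite D] {d : D} (h : S.IsT d) : ∃ i, d = S.term i ∨ d = S.φ (S.term i) ∨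
    d = S.φ (S.φ (S.term i)) ∨ d = S.φ (S.φ (S.φ (S.term i))) := by
  obtain ⟨i, h⟩ := h
  obtain ⟨n, -, rfl⟩ := h.exists_pow_eq'
  refine ⟨i, ?_⟩
  clear h
  induction n with
  | zero => simp
  | succ n ih =>
    rw [pow_succ', Perm.mul_apply]
    rcases ih with e | e | e | e <;> rw [e]
    · simp
    · simp
    · simp
    · simp [S.term_four]

theorem isT_word [Finite D] (h : S.Pre w) {d : D} (hd : S.IsT d) :
    ∃ x, (w d).toWord = [x] := by
  obtain ⟨i, e | e | e | e⟩ := isT_cases hd <;> rw [e]
  · exact ⟨_, by rw [h.t0, FreeGroup.toWord_of]⟩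
  · exact ⟨_, by rw [h.t1, FreeGroup.toWord_of]⟩
  · exact ⟨_, by rw [h.t2, FreeGroup.toWord_inv, FreeGroup.toWord_of]; rfl⟩
  · exact ⟨_, by rw [h.t3, FreeGroup.toWord_inv, FreeGroup.toWord_of]; rfl⟩

theorem isT_norm [Finite D] (h : S.Pre w) {d : D} (hd : S.IsT d) : (w d).norm = 1 := by
  obtain ⟨x, e⟩ := isT_word h hd
  rw [FreeGroup.norm, e]; rfl

theorem fix_one (h : S.Pre w) {d : D} (e : S.α d = d) : w d = 1 :=
  eq_one_of_inv (by rw [← h.inv, e])

end sk

end Pool.Agent.Lib.MP_c1f5fe_lc.Sel
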