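import Pool.Agent.Lib.MP_c1f5fe_lc.Core

/-! Statements of the steps, part A: permutations, maps, planarity, topology. -/

namespace Pool.Agent.Lib.MP_c1f5fe_lc

open Equiv Function Relation
open Pool.Agent.Lib.MP_50b5c6_lc.Np (NC Pl)

/-! ### bounds -/

def TB {A : Type} (κ f : A → ℕ) : Prop := ∃ h, ∀ a, f a ≤ tw h (κ a)

def BB {A : Type} (κ f : A → ℕ) : Prop := ∃ h, ∀ a, f a ≤ bg h (κ a)

/-! ### cycles of permutations -/

structure K1 : Prop where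
  swap_same : ∀ {D : Type} [Finite D] [DecidableEq D] (π : Perm D) (x y : D), x ≠ y →
    π.SameCycle x y → ncyc (π * Equiv.swap x y) = ncyc π + 1
  swap_diff : ∀ {D : Type} [Finite D] [DecidableEq D] (π : Perm D) (x y : D),
    ¬π.SameCycle x y → ncyc (π * Equiv.swap x y) + 1 = ncyc π
  sc_diff : ∀ {D : Type} [Finite D] [DecidableEq D] (π : Perm D) (x y a b : D),
    ¬π.SameCycle x y → ((π * Equiv.swap x y).SameCycle a b ↔ π.SameCycle a b ∨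
      ((π.SameCycle a x ∨ π.SameCycle a y) ∧ (π.SameCycle b x ∨ π.SameCycle b y)))
  sc_same : ∀ {D : Type} [Finite D] [DecidableEq D] (π : Perm D) (x y : D), x ≠ y →
    π.SameCycle x y → ¬(π * Equiv.swap x y).SameCycle x y ∧
      (∀ a b, (π * Equiv.swap x y).SameCycle a b → π.SameCycle a b) ∧
      (∀ a b, ¬π.SameCycle a x → π.SameCycle a b → (π * Equiv.swap x y).SameCycle a b) ∧
      (∀ a, π.SameCycle a x →
        (π * Equiv.swap x y).SameCycle x a ∨ (π * Equiv.swap x y).SameCycle y a) ∧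
      ∀ a, (π * Equiv.swap x y).SameCycle y a ↔
        ∃ j : ℕ, 0 < j ∧ (π ^ j) x = a ∧ ∀ m : ℕ, 0 < m → m < j → (π ^ m) x ≠ y
  eg_nonneg : ∀ {D : Type} [Finite D] (a b : Perm D), 0 ≤ eg a b
  ncomp_one : ∀ {D : Type} [Finite D] [Nonempty D] (a b : Perm D),
    (∀ x y, Conn a b x y) ↔ ncomp a b = 1
  chi_le : ∀ {D : Type} [Finite D] (a b : Perm D), (∀ x y, Conn a b x y) → chi a b ≤ 2
  ncyc_inv : ∀ {D : Type} (a : Perm D), ncyc a⁻¹ = ncyc a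
  ncyc_comm : ∀ {D : Type} (a b : Perm D), ncyc (a * b) = ncyc (b * a)
  ncyc_one : ∀ {D : Type}, ncyc (1 : Perm D) = Nat.card D
  conn_congr : ∀ {D : Type} [Finite D] (a b a' b' : Perm D), (∀ x, Conn a b x (a' x)) →
    (∀ x, Conn a b x (b' x)) → ∀ x y, Conn a' b' x y → Conn a b x y
  conn_sc : ∀ {D : Type} [Finite D] (a b : Perm D) (x y : D),
    (a.SameCycle x y ∨ b.SameCycle x y ∨ (a * b).SameCycle x y ∨ (b * a).SameCycle x y) →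
      Conn a b x y
  eg_comm : ∀ {D : Type} [Finite D] (a b : Perm D), eg a b = eg b a
  eg_inv : ∀ {D : Type} [Finite D] (a b : Perm D), eg a⁻¹ b⁻¹ = eg a b
  eg_mul : ∀ {D : Type} [Finite D] (a b : Perm D), eg (a * b) b⁻¹ = eg a b
  eg_split : ∀ {D : Type} [Finite D] [DecidableEq D] (a b : Perm D) (x y : D),
    a.SameCycle x y → eg (a * Equiv.swap x y) b ≤ eg a b
  sc_ret : ∀ {D : Type} [Finite D] (π : Perm D) (Q : D → Prop) (x y : D), Q x → Q y →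
    ((ret π Q).SameCycle x y ↔ π.SameCycle x y)
  eg_ret : ∀ {D : Type} [Finite D] (a b : Perm D) (Q : D → Prop), eg (ret a Q) b ≤ eg a b
  ncyc_ret : ∀ {D : Type} [Finite D] (π : Perm D) (Q : D → Prop),
    ncyc (ret π Q) = ncycAt π Q + Nat.card {d // ¬Q d}
  ncyc_on_at : ∀ {D : Type} [Finite D] (π : Perm D) (Q : D → Prop),
    ncyc π = ncycAt π Q + ncycOn π fun d => ¬Q d
  on_eq_at : ∀ {D : Type} [Finite D] (π : Perm D) (Q : D → Prop), (∀ d, Q (π d) ↔ Q d) →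
    ncycOn π Q = ncycAt π Q
  on_congr : ∀ {D : Type} [Finite D] (π π' : Perm D) (Q : D → Prop),
    (∀ d, Q d → π d = π' d) → ncycOn π Q = ncycOn π' Q
  on_or : ∀ {D : Type} [Finite D] (π : Perm D) (P Q : D → Prop), (∀ d, P d → ¬Q d) →
    (∀ d, P d → ¬Q (π d)) → (∀ d, Q d → ¬P (π d)) →
    ncycOn π (fun d => P d ∨ Q d) = ncycOn π P + ncycOn π Q
  on_map : ∀ {D D' : Type} [Finite D] [Finite D'] (π : Perm D) (π' : Perm D') (P : D → Prop)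
    (P' : D' → Prop) (f : D → D'), (∀ x y, P x → P y → f x = f y → x = y) →
    (∀ y, P' y ↔ ∃ x, P x ∧ f x = y) →
    (∀ x, P x → (P (π x) ↔ P' (π' (f x))) ∧ (P (π x) → f (π x) = π' (f x))) →
    ncycOn π P = ncycOn π' P'
  le_at : ∀ {D B : Type} [Finite D] (π : Perm D) (Q : D → Prop) (f : D → B),
    (∀ d, f (π d) = f d) → (f '' {d | Q d}).ncard ≤ ncycAt π Q
  at_le : ∀ {D J : Type} [Finite D] [Finite J] (π : Perm D) (Q : D → Prop) (g : J → D),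
    (∀ d, Q d → ∃ j, π.SameCycle (g j) d) → ncycAt π Q ≤ Nat.card J
  at_eq : ∀ {D B : Type} [Finite D] (π : Perm D) (Q : D → Prop) (f : D → B),
    (∀ d e, Q d → Q e → (f d = f e ↔ π.SameCycle d e)) → ncycAt π Q = (f '' {d | Q d}).ncard
  at_univ : ∀ {D : Type} (π : Perm D), ncycAt π (fun _ => True) = ncyc π
  ncyc_conj : ∀ {D D' : Type} (e : D ≃ D') (a : Perm D) (a' : Perm D'),
    (∀ x, a' (e x) = e (a x)) → ncyc a' = ncyc a
  eg_conj : ∀ {D D' : Type} (e : D ≃ D') (a b : Perm D) (a' b' : Perm D'),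
    (∀ x, a' (e x) = e (a x)) → (∀ x, b' (e x) = e (b x)) →
      chi a' b' = chi a b ∧ ncomp a' b' = ncomp a b
  invol : ∀ {D : Type} [Finite D] (a : Perm D) (Q : D → Prop), (∀ x, a (a x) = x) →
    (∀ x, Q x → Q (a x)) →
    2 * ncycOn a Q = Nat.card {x // Q x} + Nat.card {x // Q x ∧ a x = x}
  long : ∀ {D : Type} [Finite D] (a : Perm D) (Q : D → Prop) (n : ℕ),
    (∀ x, Q x → ∀ j : ℕ, 0 < j → j < n → (a ^ j) x ≠ x) → n * ncycOn a Q ≤ Nat.card {x // Q x}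
  ncyc_sum : ∀ {D D' : Type} [Finite D] [Finite D'] (a : Perm D) (a' : Perm D'),
    ncyc (Perm.sumCongr a a') = ncyc a + ncyc a'
  eg_add : ∀ {D D₀ D₁ : Type} [Finite D] (a b : Perm D) (a₀ b₀ : Perm D₀) (a₁ b₁ : Perm D₁)
    (i₀ : D₀ → D) (i₁ : D₁ → D), Bijective (Sum.elim i₀ i₁) → (∀ x, a (i₀ x) = i₀ (a₀ x)) →
    (∀ x, b (i₀ x) = i₀ (b₀ x)) → (∀ x, a (i₁ x) = i₁ (a₁ x)) → (∀ x, b (i₁ x) = i₁ (b₁ x)) →
    chi a b = chi a₀ b₀ + chi a₁ b₁ ∧ ncomp a b = ncomp a₀ b₀ + ncomp a₁ b₁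
  eg_emb : ∀ {D D₀ : Type} [Finite D] (a b : Perm D) (a₀ b₀ : Perm D₀) (i₀ : D₀ → D),
    Injective i₀ → (∀ x, a (i₀ x) = i₀ (a₀ x)) → (∀ x, b (i₀ x) = i₀ (b₀ x)) →
    eg a₀ b₀ ≤ eg a b

/-! ### submaps -/

structure K2 : Prop where
  sub_ex : ∀ {D : Type} [Finite D] (M : HMap D) (A : D → Prop), (∀ d, A d → A (M.α d)) →
    ∃ M₀ : HMap {d // A d}, M.Sub A M₀ Subtype.val
  sub_eg : ∀ {D D₀ : Type} [Finite D] (M : HMap D) (A : D → Prop) (M₀ : HMap D₀) (ι : D₀ → D),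
    M.Sub A M₀ ι → M₀.eg ≤ M.eg
  sub_trans : ∀ {D D₀ D₁ : Type} [Finite D] (M : HMap D) (A : D → Prop) (M₀ : HMap D₀)
    (ι : D₀ → D) (B : D₀ → Prop) (M₁ : HMap D₁) (κ : D₁ → D₀), M.Sub A M₀ ι → M₀.Sub B M₁ κ →
    M.Sub (fun d => ∃ x, B x ∧ ι x = d) M₁ (ι ∘ κ)
  sub_le : ∀ {D D₀ D₁ : Type} [Finite D] (M : HMap D) (A B : D → Prop) (M₀ : HMap D₀)
    (ι : D₀ → D) (M₁ : HMap D₁) (κ : D₁ → D), M.Sub A M₀ ι → M.Sub B M₁ κ → (∀ d, B d → A d) →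
    ∃ μ : D₁ → D₀, (∀ x, ι (μ x) = κ x) ∧ M₀.Sub (fun x => B (ι x)) M₁ μ
  sub_φ : ∀ {D D₀ : Type} (M : HMap D) (A : D → Prop) (M₀ : HMap D₀) (ι : D₀ → D) (x : D₀),
    M.Sub A M₀ ι → A (M.φ (ι x)) → ι (M₀.φ x) = M.φ (ι x)
  sub_sc : ∀ {D D₀ : Type} [Finite D] (M : HMap D) (A : D → Prop) (M₀ : HMap D₀) (ι : D₀ → D)
    (x y : D₀), M.Sub A M₀ ι → (M₀.σ.SameCycle x y ↔ M.σ.SameCycle (ι x) (ι y))
  sub_con : ∀ {k : ℕ} {V D D₀ : Type} [Finite D] {G : SimpleGraph V} {U : Set V}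
    (S : Sk k G U D) (Z : Set V) (M₀ : HMap D₀) (ι : D₀ → D), Cn G Z →
    S.toHMap.Sub (S.AdjD Z) M₀ ι → M₀.Con
  top_eg : ∀ {k : ℕ} {V D : Type} [Finite D] {G : SimpleGraph V} {U : Set V}
    (S : Sk k G U D), S.Top → S.toHMap.eg ≤ 2 * k
  count : ∀ {k : ℕ} {V D : Type} [Finite D] {G : SimpleGraph V} {U : Set V} (S : Sk k G U D)
    (n : ℕ) (Z : Fin n → Set V), S.toHMap.eg ≤ 2 * k → Pairwise (Disjoint on Z) →
    (∀ i, ¬S.PlanarOn (Z i)) → n ≤ 2 * k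
  mono : ∀ {k : ℕ} {V D : Type} [Finite D] {G : SimpleGraph V} {U : Set V} (S : Sk k G U D)
    (Z Z' : Set V), Z' ⊆ Z → S.PlanarOn Z → S.PlanarOn Z'
  /-- the planar model of a connected set with an edge is a solution without terminals -/
  clean : ∀ {k : ℕ} {V D D₀ : Type} [Finite D] {G : SimpleGraph V} {U : Set V}
    (S : Sk k G U D) (X : Set V) (M₀ : HMap D₀) (ι : D₀ → D), Cn G X →
    (∃ u ∈ X, ∃ v ∈ X, G.Adj u v) → S.toHMap.Sub (S.AdjD X) M₀ ι → M₀.eg = 0 →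
    ∃ S₀ : Sk 0 (rst G X) {z | z ∈ U ∧ G.neighborSet z ⊆ X} D₀, S₀.toHMap = M₀ ∧ S₀.Top ∧
      (∀ x, S₀.vx x = S.vx (ι x)) ∧ (∀ x, S₀.real x ↔ S.real (ι x)) ∧ ∀ x, S₀.AdjD X x
  subsol : ∀ {k : ℕ} {V D : Type} [Finite D] {G : SimpleGraph V} {U : Set V} (S : Sk k G U D)
    (X : Set V), Cn G X → S.PlanarOn X →
    Sol 0 (G.induce X) {z | z.1 ∈ U ∧ G.neighborSet z.1 ⊆ X}
  capnb : ∀ {k : ℕ} {V D : Type} [Finite D] {G : SimpleGraph V} {U : Set V} (_ : Sk k G U D)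
    (z : V), z ∈ U → (G.neighborSet z).Nonempty → Cn G (G.neighborSet z)
  chord_con : ∀ {D : Type} [Finite D] (M : HMap D) (p q : D), p ≠ q →
    (∀ d e, Conn M.φ M.α d e ∨ Conn M.φ M.α d p ∧ Conn M.φ M.α e q ∨
      Conn M.φ M.α d q ∧ Conn M.φ M.α e p) → (M.chord p q).Con
  chord_same : ∀ {D : Type} [Finite D] (M : HMap D) (p q : D), p ≠ q → M.φ.SameCycle p q →
    (M.chord p q).chi = M.chi ∧ (M.chord p q).eg = M.eg
  chord_diff : ∀ {D : Type} [Finite D] (M : HMap D) (p q : D), ¬M.φ.SameCycle p q →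
    (M.chord p q).chi = M.chi - 2 ∧ (¬Conn M.φ M.α p q → (M.chord p q).eg = M.eg)
  chord_σ : ∀ {D : Type} [Finite D] (M : HMap D) (p q : D), p ≠ q →
    (∀ d e, (M.chord p q).σ.SameCycle (.inl d) (.inl e) ↔ M.σ.SameCycle d e) ∧
      (M.chord p q).σ (.inr true) = .inl (M.φ p) ∧ (M.chord p q).σ (.inr false) = .inl (M.φ q)
  chord_φ : ∀ {D : Type} [Finite D] (M : HMap D) (p q : D), p ≠ q →
    (∀ d e, ¬M.φ.SameCycle d p → ¬M.φ.SameCycle d q →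
      ((M.chord p q).φ.SameCycle (.inl d) e ↔ ∃ e', e = .inl e' ∧ M.φ.SameCycle d e')) ∧
    (M.φ.SameCycle p q → ∀ d e, (M.chord p q).φ.SameCycle (.inl d) (.inl e) →
      M.φ.SameCycle d e) ∧
    (M.φ.SameCycle p q → ¬(M.chord p q).φ.SameCycle (.inl p) (.inl q))

/-! ### regions -/

/-- on the sphere, a cocycle that is trivial on all faces but one is a coboundary -/
def PL2St : Prop :=
  ∀ (D H : Type) [Finite D] [Group H] (M : HMap D) (w θ : D → H) (d₀ : D), M.Con → 2 ≤ M.chi →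
    (∀ d, w (M.α d) = (w d)⁻¹) → (∀ d, M.α d = d → w d = 1) →
    (∀ d, ¬M.φ.SameCycle d₀ d → θ d * w d = θ (M.φ d)) →
    ∃ c : D → H, (∀ d, c (M.σ d) = c d) ∧ ∀ d, c d * w d = c (M.α d)

/-- `X` is a union of regions -/
def HMap.Col {D : Type} (M : HMap D) (Q X : D → Prop) : Prop :=
  (∀ d, X (M.φ d) ↔ X d) ∧ ∀ d, ¬Q d → (X (M.α d) ↔ X d)

/-- the edges of `Q` form a connected graph -/
def HMap.QCon {D : Type} (M : HMap D) (Q : D → Prop) : Prop :=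
  ∀ q e, Q q → Q e →
    EqvGen (fun x y => Q x ∧ Q y ∧ (y = M.α x ∨ M.σ.SameCycle x y)) q e

structure K3 : Prop where
  hit : ∀ {D : Type} [Finite D] (M : HMap D) (Q : D → Prop), M.Con → (∃ q, Q q) →
    ∀ d, ∃ q, Q q ∧ M.Reg Q d q
  nx_q : ∀ {D : Type} [Finite D] (M : HMap D) (Q : D → Prop), M.Edges Q → ∀ q, Q q →
    Q (M.nx Q q) ∧ M.Reg Q q (M.nx Q q) ∧ M.σ.SameCycle (M.φ q) (M.nx Q q) ∧
      (Q (M.φ q) → M.nx Q q = M.φ q)
  nx_inj : ∀ {D : Type} [Finite D] (M : HMap D) (Q : D → Prop), M.Edges Q → ∀ q e, Q q → Q e →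
    M.nx Q q = M.nx Q e → q = e
  reg_col : ∀ {D : Type} (M : HMap D) (Q X : D → Prop), M.Col Q X → ∀ d e, M.Reg Q d e →
    (X d ↔ X e)
  col_reg : ∀ {D : Type} (M : HMap D) (Q : D → Prop) (q : D), M.Col Q (M.Reg Q q)
  reg_σ : ∀ {D : Type} [Finite D] (M : HMap D) (Q : D → Prop) (d e : D), M.σ.SameCycle d e →
    (∀ x, M.σ.SameCycle d x → ¬Q x) → M.Reg Q d e
  lb : ∀ {D J : Type} [Finite D] [Finite J] (M : HMap D) (Q : D → Prop) (g : J → D), M.Con →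
    M.Edges Q → (∃ q, Q q) → (∀ q, Q q → ∃ j, M.Reg Q (g j) q) →
    2 * M.chi + Nat.card {q // Q q} - 2 * ncycAt M.σ Q ≤ 2 * Nat.card J
  count : ∀ {D : Type} [Finite D] (M : HMap D) (Q : D → Prop), M.Con → M.Edges Q →
    (∃ q, Q q) →
    (Nat.card {q // Q q ∧ ¬(M.Disc Q q ∧ M.nx Q q ≠ q ∧ M.nx Q (M.nx Q q) = q)} : ℤ) ≤
      6 * (ncycAt M.σ Q - M.chi) + 4 * Nat.card {q // Q q ∧ M.Disc Q q ∧ M.nx Q q = q}
  all : ∀ {D : Type} [Finite D] (M : HMap D) (Q : D → Prop), M.Con → 2 ≤ M.chi → M.Edges Q →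
    M.QCon Q → ∀ q, Q q → M.Disc Q q
  inv_sum : ∀ {D : Type} [Finite D] (M : HMap D) (Q X : D → Prop), (∀ q, Q q → Q (M.α q)) →
    M.Col Q X → M.chi = M.inv Q X + M.inv Q (fun d => ¬X d) + ncycOn M.α Q + ncycAt M.σ Q -
      Nat.card {q // Q q}
  inv_le : ∀ {D J : Type} [Finite D] [Finite J] (M : HMap D) (Q X : D → Prop) (g : J → D),
    M.Con → M.Edges Q → M.Col Q X → (∃ q, Q q) → (∀ q, Q q → X q → ∃ j, M.Reg Q (g j) q) →
    M.inv Q X ≤ Nat.card J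
  /-- a region with invariant one is a disc -/
  disc_of : ∀ {D : Type} [Finite D] (M : HMap D) (Q : D → Prop) (q : D), M.Edges Q → Q q →
    1 ≤ M.inv Q (M.Reg Q q) → M.Disc Q q

/-! ### homology over two elements -/

structure K4 : Prop where
  gen : ∀ {D : Type} [Finite D] (a b : Perm D) (N : ℕ) (Y : Fin N → D → Prop),
    (∀ i, Ev a (Y i) ∧ Ev b (Y i)) → 2 ^ (eg a b).toNat < N →
    ∃ i j, i ≠ j ∧ ∃ π : D → Prop, (∀ d, π (b (a d)) ↔ π d) ∧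
      ∀ d, ¬(Y i d ↔ Y j d) ↔ ¬(π d ↔ π (b d))
  rad : ∀ {D : Type} [Finite D] (M : HMap D) (N : ℕ) (Y : Fin N → D → Prop),
    (∀ i, Ev M.σ (Y i) ∧ Ev M.φ (Y i)) → 2 ^ M.eg.toNat < N →
    ∃ i j, i ≠ j ∧ ∃ π : D → Prop, (∀ d, π (M.α d) ↔ π d) ∧
      ∀ d, ¬(Y i (M.φ d) ↔ Y j (M.φ d)) ↔ ¬(π d ↔ π (M.φ d))
  rad0 : ∀ {D : Type} [Finite D] (M : HMap D) (Y : D → Prop), M.eg = 0 → Ev M.σ Y → Ev M.φ Y →
    ∃ π : D → Prop, (∀ d, π (M.α d) ↔ π d) ∧ ∀ d, Y (M.φ d) ↔ ¬(π d ↔ π (M.φ d))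
  cob : ∀ {D : Type} [Finite D] (M : HMap D) (Y : D → Prop), M.eg = 0 → M.Edges Y → Ev M.σ Y →
    ∃ π : D → Prop, (∀ d, π (M.φ d) ↔ π d) ∧ ∀ d, Y d ↔ ¬(π d ↔ π (M.α d))

/-! ### planar orders -/

open Classical in
def OrdSt : Prop :=
  ∀ (D : Type) [Finite D] (a b : Perm D), eg a b = 0 →
    ∃ L : List D, L.Nodup ∧ (∀ d, d ∈ L) ∧
      NC (Quotient.mk (Perm.SameCycle.setoid a)) L ∧ NC (Quotient.mk (Perm.SameCycle.setoid b)) L ∧
      ∀ d, ∃ n, (L.filter fun e => a.SameCycle d e) ~r List.iterate a d n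

open Classical in
def UnordSt : Prop :=
  ∀ (D B C : Type) [Finite D] (L : List D) (f : D → B) (g : D → C), L.Nodup → (∀ d, d ∈ L) →
    NC f L → NC g L →
    (∃ a : Perm D, ∀ d, Nxt L.formPerm (fun e => f e = f d) d (a d)) ∧
    (∃ b : Perm D, ∀ d, Nxt L.formPerm (fun e => g e = g d) (b d) d ∧ g (b d) = g d) ∧
    ∀ a b : Perm D, (∀ d, Nxt L.formPerm (fun e => f e = f d) d (a d)) →
      (∀ d, Nxt L.formPerm (fun e => g e = g d) (b d) d ∧ g (b d) = g d) → eg a b = 0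

/-- the graph of a labelled map with one more vertex in every face -/
def starG {D V : Type} (M : HMap D) (vx : D → Option V) :
    SimpleGraph (V ⊕ Quotient (Perm.SameCycle.setoid M.φ)) :=
  SimpleGraph.fromRel fun x y =>
    (∃ d u v, vx d = some u ∧ vx (M.α d) = some v ∧ x = .inl u ∧ y = .inl v) ∨
      ∃ d u, vx d = some u ∧ x = .inl u ∧ y = .inr (Quotient.mk _ d)

def StarSt : Prop :=
  ∀ (D V : Type) [Finite D] (M : HMap D) (vx : D → Option V), M.eg = 0 →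
    (∀ d, vx (M.σ d) = vx d) → (∀ d e v, vx d = some v → vx e = some v → M.σ.SameCycle d e) →
    Pl (starG M vx).Adj

/-- `A` and `B` are joined by an edge -/
def Tch {V : Type} (G : SimpleGraph V) (A B : Set V) : Prop := ∃ u ∈ A, ∃ v ∈ B, G.Adj u v

structure NonPl : Prop where
  k5 : ∀ {V : Type} (G : SimpleGraph V) (β : Fin 5 → Set V), (∀ i, Cn G (β i)) →
    Pairwise (Disjoint on β) → (∀ i j, i < j → Tch G (β i) (β j)) → ¬Pl G.Adj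
  k33 : ∀ {V : Type} (G : SimpleGraph V) (β : Fin 3 ⊕ Fin 3 → Set V), (∀ i, Cn G (β i)) →
    Pairwise (Disjoint on β) → (∀ i j, Tch G (β (.inl i)) (β (.inr j))) → ¬Pl G.Adj
  /-- a planar connected graph is a solution without terminals -/
  sol : ∀ {V : Type} [Finite V] (G : SimpleGraph V), Pl G.Adj → G.Preconnected → Sol 0 G ∅
  plon : ∀ {k : ℕ} {V D : Type} [Finite D] {G : SimpleGraph V} {U : Set V} (S : Sk k G U D)
    (Z : Set V), S.PlanarOn Z → PlOn G Z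

/-! ### topology -/

/-- `b`, `b'` are separated by `a`, `a'` -/
def altO {B : Type} [LinearOrder B] (a a' b b' : B) : Prop :=
  ¬((min a a' < b ∧ b < max a a') ↔ (min a a' < b' ∧ b' < max a a'))

def Alt (a a' b b' : ℂ) : Prop := altO a.arg a'.arg b.arg b'.arg

def DiskSt : Prop :=
  ∀ D : Set ℂ, Nonempty (D ≃ₜ Metric.closedBall (0 : ℂ) 1) →
    ∃ h : ℂ ≃ₜ ℂ, h '' Metric.closedBall 0 1 = D

structure AltSt : Prop where
  ins : ∀ (A B : Set ℂ) (a a' b b' : ℂ), IsCompact A → IsPreconnected A → IsCompact B →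
    IsPreconnected B → Disjoint A B → (∀ z ∈ A ∪ B, ‖z‖ ≤ 1) → a ∈ A → a' ∈ A → b ∈ B → b' ∈ B →
    ‖a‖ = 1 → ‖a'‖ = 1 → ‖b‖ = 1 → ‖b'‖ = 1 → ¬Alt a a' b b'
  out : ∀ (A B : Set ℂ) (a a' b b' : ℂ), IsCompact A → IsPreconnected A → IsCompact B →
    IsPreconnected B → Disjoint A B → (∀ z ∈ A ∪ B, 1 ≤ ‖z‖) → a ∈ A → a' ∈ A → b ∈ B → b' ∈ B →
    ‖a‖ = 1 → ‖a'‖ = 1 → ‖b‖ = 1 → ‖b'‖ = 1 → ¬Alt a a' b b'
  arcs : ∀ a a' b b' : ℂ, ‖a‖ = 1 → ‖a'‖ = 1 → ‖b‖ = 1 → ‖b'‖ = 1 → [a, a', b, b'].Nodup →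
    ¬Alt a a' b b' → ∃ A B : Set ℂ, IsArc A a a' ∧ IsArc B b b' ∧ Disjoint A B ∧
      ∀ z ∈ A ∪ B, ‖z‖ = 1
  cross : ∀ (A B : Set ℂ) (a a' b b' p : ℂ), IsArc (A ∩ Metric.closedBall 0 1) a a' →
    IsArc (B ∩ Metric.closedBall 0 1) b b' → A ∩ Metric.sphere 0 1 = {a, a'} →
    B ∩ Metric.sphere 0 1 = {b, b'} → A ∩ B ∩ Metric.closedBall 0 1 = {p} → ‖p‖ < 1 →
    ProperCross A B p → Alt a a' b b'

def Used {k : ℕ} {V : Type} (G : SimpleGraph V) (lab : V → V → List (Lab k)) (i : Fin k) : Prop :=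
  ∃ u v b, G.Adj u v ∧ (i, b) ∈ lab u v

/-- a drawing in normal form: disjoint discs and the pieces of the edges between them -/
structure ND (k : ℕ) {V : Type} (G : SimpleGraph V) where
  lab : V → V → List (Lab k)
  ok : LabOK G lab
  pos : V → ℂ
  pos_inj : Injective pos
  h : Fin k → ℂ ≃ₜ ℂ
  γ : Sg V → ℝ → ℂ
  cont : ∀ x, IsSg G lab x → ContinuousOn (γ x) (Set.Icc 0 1)
  rev : ∀ x t, IsSg G lab x → γ (opp lab x) t = γ x (1 - t)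
  start0 : ∀ x, IsSg G lab x → x.2.2 = 0 → γ x 0 = pos x.1
  start1 : ∀ x i, IsSg G lab x → node lab x = .inr (some i) → ‖(h i).symm (γ x 0)‖ = 1
  vtx : ∀ x t v, IsSg G lab x → t ∈ Set.Ioo (0 : ℝ) 1 → γ x t ≠ pos v
  off : ∀ x t i, IsSg G lab x → t ∈ Set.Icc (0 : ℝ) 1 → Used G lab i →
    ‖(h i).symm (γ x t)‖ ≤ 1 → (t = 0 ∧ node lab x = .inr (some i)) ∨
      (t = 1 ∧ node lab (opp lab x) = .inr (some i))
  inj : ∀ x y s t, IsSg G lab x → IsSg G lab y → s ∈ Set.Icc (0 : ℝ) 1 →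
    t ∈ Set.Icc (0 : ℝ) 1 → γ x s = γ y t →
    (y = x ∧ t = s) ∨ (y = opp lab x ∧ t = 1 - s) ∨ γ x s ∈ Set.range pos
  disj : ∀ i j z, Used G lab i → Used G lab j → ‖(h i).symm z‖ ≤ 1 → ‖(h j).symm z‖ ≤ 1 → i = j
  nov : ∀ i v, Used G lab i → 1 < ‖(h i).symm (pos v)‖
  alt : ∀ x y i, IsSg G lab x → IsSg G lab y → node lab x = .inr (some i) →
    node lab y = .inr (some i) → y ≠ x → y ≠ kap lab x →
    (Alt ((h i).symm (γ x 0)) ((h i).symm (γ (kap lab x) 0)) ((h i).symm (γ y 0))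
      ((h i).symm (γ (kap lab y) 0)) ↔ lb lab x ≠ lb lab y)
  both : ∀ i b, Used G lab i → ∃ u v, G.Adj u v ∧ (i, b) ∈ lab u v

def NDSt : Prop :=
  ∀ (k : ℕ) (V : Type) [Finite V] (G : SimpleGraph V), bc G ≤ k → Nonempty (ND k G)

def NDHSt : Prop :=
  ∀ (k : ℕ) (V : Type) [Finite V] (G : SimpleGraph V), Nonempty (ND k G) → HM k G

/-- chord diagrams in which chords cross exactly when their colours differ -/
def CDSt : Prop :=
  ∀ (X : Type) [DecidableEq X] (l : List X) (κ : X → X) (c : X → Bool), l.Nodup →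
    (∀ x ∈ l, κ x ∈ l ∧ κ x ≠ x ∧ κ (κ x) = x ∧ c (κ x) = c x) →
    (∀ b, ∃ x ∈ l, c x = b) →
    (∀ x ∈ l, ∀ y ∈ l, y ≠ x → y ≠ κ x →
      (altO (l.idxOf x) (l.idxOf (κ x)) (l.idxOf y) (l.idxOf (κ y)) ↔ c x ≠ c y)) →
    ∃ A B : List X, (∀ x ∈ A, c x = false) ∧ (∀ x ∈ B, c x = true) ∧
      l ~r A ++ B ++ A.reverse.map κ ++ B.reverse.map κ

def T1St : Prop :=
  ∀ (k : ℕ) (V : Type) [Finite V] (G : SimpleGraph V), bc G ≤ k → HM k G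

def T2St : Prop :=
  ∀ (k : ℕ) (V : Type) [Finite V] (G : SimpleGraph V), HM k G → bc G ≤ k

end Pool.Agent.Lib.MP_c1f5fe_lc
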