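import Pool.Agent.Lib.MP_c1f5fe_lc.SpecA

/-! Statements of the steps, part B: words, operations on maps, finding a cylinder. -/

namespace Pool.Agent.Lib.MP_c1f5fe_lc

open Equiv Function Relation
open Pool.Agent.Lib.MP_50b5c6_lc.Np (NC Pl)

/-! ### more on maps -/

/-- connected along darts -/
def DCn {D V : Type} (M : HMap D) (vx : D → Option V) (A : Set V) : Prop :=
  ∀ a ∈ A, ∀ b ∈ A, ReflTransGen
    (fun x y => x ∈ A ∧ y ∈ A ∧ ∃ d, vx d = some x ∧ vx (M.α d) = some y) a b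

structure K5 : Prop where
  eg_fix : ∀ {D : Type} [Finite D] (a b : Perm D) (Q : D → Prop), (∀ x, ¬Q x → b x = x) →
    eg (ret a Q) b = eg a b
  /-- corners of a face do not alternate between two disjoint connected sets -/
  face : ∀ {D V : Type} [Finite D] (M : HMap D) (vx : D → Option V) (A B : Set V), M.eg = 0 →
    (∀ d, vx (M.σ d) = vx d) → (∀ d e v, vx d = some v → vx e = some v → M.σ.SameCycle d e) →
    Disjoint A B → DCn M vx A → DCn M vx B → ∀ (d : D) (i j l : ℕ), 0 < i → i < j → j < l →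
    (∀ t, 0 < t → t ≤ l → (M.φ ^ t) d ≠ d) → (∃ a ∈ A, vx d = some a) →
    (∃ b ∈ B, vx ((M.φ ^ i) d) = some b) → (∃ a ∈ A, vx ((M.φ ^ j) d) = some a) →
    (∃ b ∈ B, vx ((M.φ ^ l) d) = some b) → False
  /-- the ends of the darts around a vertex do not alternate -/
  vert : ∀ {D V : Type} [Finite D] (M : HMap D) (vx : D → Option V) (A B : Set V), M.eg = 0 →
    (∀ d, vx (M.σ d) = vx d) → (∀ d e v, vx d = some v → vx e = some v → M.σ.SameCycle d e) →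
    Disjoint A B → DCn M vx A → DCn M vx B → ∀ (d : D) (i j l : ℕ), 0 < i → i < j → j < l →
    (∀ t, 0 < t → t ≤ l → (M.σ ^ t) d ≠ d) → (∀ z, vx d = some z → z ∉ A ∧ z ∉ B) →
    (∃ a ∈ A, vx (M.α d) = some a) → (∃ b ∈ B, vx (M.α ((M.σ ^ i) d)) = some b) →
    (∃ a ∈ A, vx (M.α ((M.σ ^ j) d)) = some a) → (∃ b ∈ B, vx (M.α ((M.σ ^ l) d)) = some b) →
    False
  /-- the count of regions when only the darts with tail in `B` are counted -/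
  countB : ∀ {D : Type} [Finite D] (M : HMap D) (Q B : D → Prop), M.Con → M.Edges Q →
    (∃ q, Q q) → (∀ d, B (M.σ d) ↔ B d) →
    (∀ q, Q q → ¬B q → ∃ e, Q e ∧ e ≠ q ∧ M.σ.SameCycle q e) →
    (∀ q, Q q → ∃ n : ℕ, B ((M.nx Q)^[n] q)) →
    (Nat.card {q // Q q ∧ B q ∧ ¬(M.Disc Q q ∧ ∃ e, e ≠ q ∧ Q e ∧ B e ∧ M.Reg Q q e ∧
        ∀ e', Q e' → B e' → M.Reg Q q e' → e' = q ∨ e' = e)} : ℤ) ≤
      6 * (ncycAt M.σ (fun d => Q d ∧ B d) - M.chi) +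
        4 * Nat.card {q // Q q ∧ B q ∧ M.Disc Q q ∧ ∀ e, Q e → B e → M.Reg Q q e → e = q}

/-! ### words -/

/-- value of a word in variables -/
def evw {X A : Type} (val : X → List (A × Bool)) (l : List (X × Bool)) : List (A × Bool) :=
  l.flatMap fun p => if p.2 then val p.1 else FreeGroup.invRev (val p.1)

/-- quadratic systems of equations in a free monoid with involution have short subsolutions -/
def NSt : Prop :=
  ∃ h, ∀ (X A : Type) [DecidableEq X] (E : List (List (X × Bool) × List (X × Bool)))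
    (Fz : X → Prop) (val : X → List (A × Bool)),
    (∀ x, ((E.flatMap fun e => e.1 ++ e.2).map Prod.fst).count x ≤ 2) →
    (∀ x, Fz x → (val x).length = 1) → (∀ e ∈ E, evw val e.1 = evw val e.2) →
    ∃ val' : X → List (A × Bool), (∀ x, (val' x).Sublist (val x)) ∧
      (∀ x, Fz x → val' x = val x) ∧ (∀ e ∈ E, evw val' e.1 = evw val' e.2) ∧
      ∀ x, (val' x).length ≤ tw h ((E.flatMap fun e => e.1 ++ e.2).length + E.length)

/-- the letter read at a point: side `true` reads forwards, side `false` backwards -/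
def ptl {A : Type} (U : List (A × Bool)) (p : Bool × ℕ) : Option (A × Bool) :=
  if p.1 then U[p.2]? else U[p.2]?.map linv

/-- `q` follows `p` in the direction of its side -/
def Fol (p q : Bool × ℕ) : Prop := q.1 = p.1 ∧ if p.1 then q.2 = p.2 + 1 else p.2 = q.2 + 1

def N1St : Prop :=
  ∃ h, ∀ (A : Type) (U : List (A × Bool)) (ν : Bool × ℕ → Bool × ℕ) (Cst : Bool × ℕ → Prop)
    (Brk : ℕ → Prop) (b : ℕ), {s | Brk s}.Finite → {s | Brk s}.ncard ≤ b → Brk 0 →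
    Brk U.length →
    (∀ p, p.2 < U.length → ¬Cst p → (ν p).2 < U.length ∧ ¬Cst (ν p) ∧ ν (ν p) = p ∧ ν p ≠ p ∧
      ptl U (ν p) = (ptl U p).map linv) →
    (∀ p q, p.2 < U.length → q.2 < U.length → Fol p q → ¬Brk (max p.2 q.2) →
      ¬Cst p ∧ ¬Cst q ∧ Fol (ν q) (ν p)) →
    ∃ Kp : Bool × ℕ → Prop, (∀ p, p.2 < U.length → Cst p → Kp p) ∧
      (∀ p, p.2 < U.length → ¬Cst p → Kp p → Kp (ν p)) ∧
      (∀ s, Brk s → sel U (fun j => Kp (true, j) ∧ j < s) = sel U fun j => Kp (false, j) ∧ j < s) ∧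
      (sel U fun j => Kp (true, j)).length ≤ tw h b

def olet {k : ℕ} (o : Option (Let k)) : FG k := o.elim 1 fun x => FreeGroup.mk [x]

open Classical in
/-- a cancellation of trivial cyclic words -/
def MatchSt : Prop :=
  ∀ (X : Type) [Finite X] (k : ℕ) (fs : Perm X) (lt : X → Option (Let k)) (θ : X → FG k),
    (∀ x, θ x * olet (lt x) = θ (fs x)) →
    ∃ μ : Perm X, (∀ x, μ (μ x) = x) ∧ (∀ x, lt (μ x) = (lt x).map linv) ∧
      (∀ x, lt x = none → μ x = x) ∧ (∀ x, fs.SameCycle x (μ x)) ∧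
      2 * ncyc (fs * μ) = 2 * ncyc fs + Nat.card {x // lt x ≠ none} ∧
      ∀ P : X → Prop, (∀ x, P x → P (μ x)) →
        ∃ θ' : X → FG k, ∀ x, θ' x * (if P x then olet (lt x) else 1) = θ' (fs x)

abbrev Seg {k : ℕ} {D : Type} (w : D → FG k) : Type := {p : D × ℕ // p.2 ≤ (w p.1).norm}

/-- the letter at the end of a segment -/
def slet {k : ℕ} {D : Type} {w : D → FG k} (x : Seg w) : Option (Let k) :=
  (w x.1.1).toWord[x.1.2]?

/-- the label at the start of a segment -/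
def slab {k : ℕ} {D : Type} (w : D → FG k) (x : D × ℕ) : Option (Lab k) :=
  (labs (w x.1))[x.2 - 1]?

/-- the map cut along the curves -/
structure Cut {k : ℕ} {V D : Type} {G : SimpleGraph V} {U : Set V} (S : Sk k G U D)
    (w : D → FG k) (H : HMap (Seg w)) (fs μ : Perm (Seg w)) : Prop where
  φ_eq : H.φ = fs * μ
  α_eq : ∀ x, (H.α x).1 = (S.α x.1.1, (w x.1.1).norm - x.1.2)
  fs_lt : ∀ x, x.1.2 < (w x.1.1).norm → (fs x).1 = (x.1.1, x.1.2 + 1)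
  fs_eq : ∀ x, x.1.2 = (w x.1.1).norm → (fs x).1 = (S.φ x.1.1, 0)
  μ_eq : ∀ x, x.1.2 = (w x.1.1).norm → μ x = x
  μ_t : ∀ x, S.IsT x.1.1 → x.1.2 = 0 → S.φ (μ x).1.1 = x.1.1 ∧ (μ x).1.2 = 0
  μ_n : ∀ x, ¬S.IsT x.1.1 → S.φ.SameCycle x.1.1 (μ x).1.1 ∧ μ (μ x) = x ∧
    slet (μ x) = (slet x).map linv
  con : H.Con
  chi : 2 ≤ H.chi
  node : ∀ i, ∃ (x₀ : Seg w) (A B : List (D × ℕ)) (n : ℕ), x₀.1 = (S.term i, 1) ∧
    (List.iterate H.σ x₀ n).map Subtype.val =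
      A ++ B ++ (A.reverse.map fun p => (S.α p.1, (w p.1).norm - p.2 + 1)) ++
        (B.reverse.map fun p => (S.α p.1, (w p.1).norm - p.2 + 1)) ∧
    (List.iterate H.σ x₀ n).Nodup ∧ (H.σ ^ n) x₀ = x₀ ∧
    (∀ p ∈ A, 1 ≤ p.2 ∧ slab w p = some (i, false)) ∧
    (∀ p ∈ B, 1 ≤ p.2 ∧ slab w p = some (i, true)) ∧
    ∀ (x : Seg w) b, 1 ≤ x.1.2 → slab w x.1 = some (i, b) → x ∈ List.iterate H.σ x₀ n
  sel : ∀ P : D → ℕ → Prop,
    (∀ x : Seg w, ¬S.IsT x.1.1 → x.1.2 < (w x.1.1).norm → P x.1.1 x.1.2 →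
      P (μ x).1.1 (μ x).1.2) →
    ∃ θ : D → FG k, ∀ d, ¬S.IsT d →
      θ d * FreeGroup.mk (sel (w d).toWord (P d)) = θ (S.φ d)

def CutSt : Prop :=
  ∀ (k : ℕ) (V D : Type) [Finite D] (G : SimpleGraph V) (U : Set V) (S : Sk k G U D)
    (w : D → FG k), S.Top → S.Valid w → S.Min w →
    ∃ (H : HMap (Seg w)) (fs μ : Perm (Seg w)), Cut S w H fs μ

def MinSt : Prop :=
  ∀ (k : ℕ) (V D : Type) [Finite D] (G : SimpleGraph V) (U : Set V) (S : Sk k G U D)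
    (w : D → FG k), S.Valid w →
    (∀ w', S.Pre w' → (∀ d, (w' d).toWord.Sublist (w d).toWord) → S.Valid w') ∧
    ∃ w', S.Valid w' ∧ S.Min w' ∧ ∀ d, (w' d).toWord.Sublist (w d).toWord

section path
variable {k : ℕ} {D : Type}

def pw (w : D → FG k) (dd : ℕ → D) (r : ℕ) : List (Let k) :=
  (List.range r).flatMap fun i => (w (dd i)).toWord

def off (w : D → FG k) (dd : ℕ → D) (i : ℕ) : ℕ := (pw w dd i).length

def OnP (M : HMap D) (dd : ℕ → D) (r : ℕ) (d : D) : Prop := ∃ i < r, d = dd i ∨ d = M.α (dd i)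

/-- a path of darts whose inner vertices are met once -/
structure SPath {V : Type} {G : SimpleGraph V} {U : Set V} (S : Sk k G U D) (dd : ℕ → D)
    (r : ℕ) : Prop where
  pos : 0 < r
  nt : ∀ i < r, ¬S.IsT (dd i) ∧ ¬S.IsT (S.α (dd i))
  inj : ∀ i < r, ∀ j < r, (dd i = dd j → i = j) ∧ dd i ≠ S.α (dd j)
  link : ∀ i, i + 1 < r → S.toHMap.σ.SameCycle (S.α (dd i)) (dd (i + 1))
  inner : ∀ i, i + 1 < r → (∀ e, S.toHMap.σ.SameCycle (dd (i + 1)) e → ¬S.IsT e) ∧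
    ∀ e, OnP S.toHMap dd r e → S.toHMap.σ.SameCycle (dd (i + 1)) e →
      e = dd (i + 1) ∨ e = S.α (dd i)

/-- a short reconnection of the curves across a path -/
structure Short {V : Type} {G : SimpleGraph V} {U : Set V} (S : Sk k G U D) (w : D → FG k)
    (dd : ℕ → D) (r g₁ g₂ N : ℕ) (Brk At Ab : ℕ → Prop) (P Tp : D → ℕ → Prop) : Prop where
  brk : Brk 0 ∧ Brk (pw w dd r).length ∧ Brk g₁ ∧ Brk g₂
  pre : ∀ s, Brk s →
    sel (pw w dd r) (fun j => At j ∧ j < s) = sel (pw w dd r) fun j => Ab j ∧ j < s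
  len : (sel (pw w dd r) At).length ≤ N
  pot : ∃ θ : D → FG k, ∀ d, ¬S.IsT d →
    θ d * FreeGroup.mk (sel (w d).toWord (P d)) = θ (S.φ d)
  term : ∀ d, S.IsT d → P d 0
  symm : ∀ d j, ¬OnP S.toHMap dd r d → j < (w d).norm →
    (P (S.α d) ((w d).norm - 1 - j) ↔ P d j)
  top : ∀ i < r, ∀ j < (w (dd i)).norm, (P (dd i) j ↔ At (off w dd i + j))
  bot : ∀ i < r, ∀ j < (w (dd i)).norm,
    (P (S.α (dd i)) ((w (dd i)).norm - 1 - j) ↔ Ab (off w dd i + j))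
  nb : ∀ d s, Tp d s → ¬Brk s ∧ s ≤ (pw w dd r).length
  run : ∀ d s, Tp d s → ¬OnP S.toHMap dd r d →
    (∃ m ≤ (w d).norm,
      (∀ j < m, (w d).toWord[j]? = (pw w dd r)[s + j]? ∧ (P d j ↔ At (s + j))) ∧
      (Brk (s + m) ∨ (m = (w d).norm ∧ Tp (S.φ d) (s + m)))) ∨
    ∃ m ≤ (w d).norm, m ≤ s ∧
      (∀ j < m, (w d).toWord[j]? = ((pw w dd r)[s - 1 - j]?).map linv ∧
        (P d j ↔ At (s - 1 - j))) ∧
      (Brk (s - m) ∨ (m = (w d).norm ∧ Tp (S.φ d) (s - m)))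
  rot : ∀ d s, ¬OnP S.toHMap dd r d → (Tp (S.toHMap.σ d) s ↔ Tp d s)
  up : ∀ i < r, (¬Brk (off w dd i) → Tp (dd i) (off w dd i)) ∧
    (¬Brk (off w dd (i + 1)) → Tp (S.φ (dd i)) (off w dd (i + 1)))
  down : ∀ i < r, ¬Tp (S.α (dd i)) (off w dd (i + 1)) ∧ ¬Tp (S.φ (S.α (dd i))) (off w dd i)

end path

def TB1St : Prop :=
  ∃ h, ∀ (k : ℕ) (V D : Type) [Finite D] (G : SimpleGraph V) (U : Set V) (S : Sk k G U D)
    (w : D → FG k) (dd : ℕ → D) (r g₁ g₂ : ℕ), S.Top → S.Valid w → S.Min w → SPath S dd r →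
    (FreeGroup.mk (pw w dd r)).toWord = pw w dd r →
    ∃ Brk At Ab P Tp, Short S w dd r g₁ g₂ (tw h k) Brk At Ab P Tp

def E1St : Prop :=
  ∃ h, ∀ (k : ℕ) (V D : Type) [Finite D] (G : SimpleGraph V) (U : Set V) (S : Sk k G U D)
    (w : D → FG k), S.Top → S.Valid w → S.Min w → ∀ d, (w d).norm ≤ tw h k

namespace Sk
variable {k : ℕ} {V D : Type} {G : SimpleGraph V} {U : Set V} (S : Sk k G U D)

/-- darts from vertices of low level outside `Fr` end at vertices of about the same level -/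
def Lip (lev : V → ℕ) (Λ : ℕ) (Fr : Set V) : Prop :=
  ∀ d u, S.vx d = some u → u ∉ Fr → lev u < Λ →
    ∃ v, S.vx (S.α d) = some v ∧ lev v ≤ lev u + 1

def PotOn (w : D → FG k) (W : Set V) (h : V → FG k) : Prop :=
  ∀ d u v, S.E d u v → u ∈ W → v ∈ W → w d = (h u)⁻¹ * h v

def FreeOn (w : D → FG k) (Fr : Set V) : Prop := ∀ d u v, S.E d u v → u ∈ Fr → v ∈ Fr → w d = 1

end Sk

/-- a long reduced path can be shortened at the cost of letters at higher levels -/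
def TBSt : Prop :=
  ∃ h, ∀ (k : ℕ) (V D : Type) [Finite D] (G : SimpleGraph V) (U : Set V) (S : Sk k G U D)
    (w : D → FG k) (lev : V → ℕ) (Λ l₀ : ℕ) (Fr : Set V) (hp : V → FG k) (dd : ℕ → D)
    (pv : ℕ → V) (r : ℕ), S.Top → S.Valid w → S.Min w → S.Lip lev Λ Fr →
    S.PotOn w {v | lev v ≤ Λ} hp → S.FreeOn w Fr →
    (∃ x y, ∀ a ∈ Fr, lev a ≤ Λ → hp a = x ∨ hp a = y) →
    (∀ i < r, S.E (dd i) (pv i) (pv (i + 1))) → (∀ i ≤ r, lev (pv i) ≤ l₀) →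
    (∀ i ≤ r, ∀ j ≤ r, pv i = pv j → i = j) →
    (FreeGroup.mk (pw w dd r)).toWord = pw w dd r → tw h k < (pw w dd r).length →
    l₀ + tw h k ≤ Λ →
    ∃ w', S.Valid w' ∧ S.FreeOn w' Fr ∧ (∃ i < r, (w' (dd i)).norm < (w (dd i)).norm) ∧
      ∀ d, (w' d).toWord.Sublist (w d).toWord ∨ ((w' d).norm ≤ 1 ∧
        ∃ u v, S.E d u v ∧ l₀ < lev u ∧ l₀ < lev v ∧ lev u ≤ Λ ∧ lev v ≤ Λ)

/-- tight solutions -/
def TSt : Prop :=
  ∃ h, ∀ (k : ℕ) (V D : Type) [Finite D] (G : SimpleGraph V) (U : Set V) (S : Sk k G U D)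
    (w₀ : D → FG k) (lev : V → ℕ) (Λ : ℕ) (Fr : Set V), S.Top → tw h k ≤ Λ →
    S.Lip lev Λ Fr → (∀ w, S.Pre w → ∃ hp, S.PotOn w {v | lev v ≤ Λ} hp) →
    (∀ w hp, S.Valid w → S.FreeOn w Fr → S.PotOn w {v | lev v ≤ Λ} hp →
      ∃ x y, ∀ a ∈ Fr, lev a ≤ Λ → hp a = x ∨ hp a = y) →
    S.Valid w₀ → S.FreeOn w₀ Fr →
    ∃ w, S.Valid w ∧ S.Min w ∧ S.FreeOn w Fr ∧
      ∀ hp, S.PotOn w {v | lev v ≤ Λ} hp → ∀ d u v, S.E d u v → lev u = 0 → lev v = 0 →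
        w d ≠ 1 → ∃ a ∈ Fr, ∃ a' ∈ Fr, lev a ≤ Λ ∧ lev a' ≤ Λ ∧
          ((hp a)⁻¹ * hp a').norm ≤ tw h k ∧ ∃ p q,
          hp u = hp a * FreeGroup.mk (((hp a)⁻¹ * hp a').toWord.take p) ∧
          hp v = hp a * FreeGroup.mk (((hp a)⁻¹ * hp a').toWord.take q)

/-! ### finding a cylinder -/

/-- the map of a simple graph -/
structure LM {V : Type} (H : SimpleGraph V) (D : Type) extends HMap D where
  vx : D → V
  vx_σ : ∀ d, vx (φ (α d)) = vx d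
  vx_cyc : ∀ d e, vx d = vx e → toHMap.σ.SameCycle d e
  adj : ∀ d, H.Adj (vx d) (vx (α d))
  ex : ∀ u v, H.Adj u v → ∃! d, vx d = u ∧ vx (α d) = v

namespace HMap
variable {D : Type} (M : HMap D)

/-- every colouring of the edges with few changes has a small colour -/
def Tg (θ c : ℕ) : Prop :=
  ∀ π : D → Prop, (∀ d, π (M.α d) ↔ π d) → Nat.card {d // ¬(π d ↔ π (M.φ d))} ≤ θ →
    Nat.card {d // π d} ≤ c ∨ Nat.card {d // ¬π d} ≤ c

def ball (x : M.Node) (r : ℕ) (d : D) : Prop :=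
  M.rg.dist x (M.rv d) ≤ r ∧ M.rg.dist x (M.rf d) ≤ r

/-- even sets of corners in the ball bound small sets of edges -/
def GB (x : M.Node) (ρ s : ℕ) : Prop :=
  ∀ Y : D → Prop, (∀ d, Y d → M.ball x ρ d) → Ev M.σ Y → Ev M.φ Y →
    ∃ π : D → Prop, (∀ d, π (M.α d) ↔ π d) ∧ (∀ d, Y (M.φ d) ↔ ¬(π d ↔ π (M.φ d))) ∧
      Nat.card {d // π d} ≤ s

end HMap

structure Unb {V : Type} (G : SimpleGraph V) (A : Set V) (τ c : ℕ) : Prop where
  cn : Cn G A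
  le : (nb G A).ncard ≤ τ
  small : ∀ X, X ⊂ A → (nb G X).ncard ≤ τ → X.ncard ≤ c

/-- the edges with an end in `A` -/
def meet {V : Type} (G : SimpleGraph V) (A : Set V) : SimpleGraph V where
  Adj x y := G.Adj x y ∧ (x ∈ A ∨ y ∈ A)
  symm := ⟨fun _ _ h => ⟨h.1.symm, h.2.symm⟩⟩
  loopless := ⟨fun x h => G.loopless.1 x h.1⟩

def TangleSt : Prop :=
  ∀ (k : ℕ) (V D : Type) [Finite V] [Finite D] (G : SimpleGraph V) (U : Set V) (S : Sk k G U D)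
    (A : Set V) (τ c : ℕ), Unb G A τ c → 2 ≤ A.ncard →
    ∃ (D₀ : Type) (_ : Finite D₀) (L : LM (meet G A) D₀) (ι : D₀ → D),
      S.toHMap.Sub (fun d => S.real d ∧ ∃ u v, S.E d u v ∧ (u ∈ A ∨ v ∈ A)) L.toHMap ι ∧
      (∀ x, S.vx (ι x) = some (L.vx x)) ∧ L.toHMap.Con ∧ L.toHMap.Tg (τ / 2) ((c + τ) ^ 2) ∧
      A.ncard ≤ Nat.card D₀

def PartSt : Prop :=
  ∀ (V : Type) [Finite V] (Γ : SimpleGraph V) (N : ℕ), Γ.Connected →
    (∀ v, (Γ.neighborSet v).ncard ≤ 4) → 0 < N → N ≤ Nat.card V →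
    ∃ p : V → V, ∀ v, Cn Γ {u | p u = p v} ∧ N ≤ {u | p u = p v}.ncard ∧
      {u | p u = p v}.ncard ≤ 6 * N

def NetSt : Prop :=
  ∃ h, ∀ (D : Type) [Finite D] (M : HMap D) (g θ c ρ p : ℕ), M.Con → (∀ d, M.α d ≠ d) →
    M.eg ≤ g → M.Tg θ c → 6 * ρ + 12 ≤ θ → tw h (c + g + ρ + p) < Nat.card D →
    ∃ x : Fin p → D, (∀ i j, i ≠ j → 2 * ρ < M.rg.dist (M.rv (x i)) (M.rv (x j))) ∧
      ∀ i, Nat.card {d // M.ball (M.rv (x i)) ρ d} ≤ tw h (c + g + ρ)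

def BallSt : Prop :=
  ∀ (D : Type) [Finite D] (M : HMap D) (g θ c ρ b p : ℕ) (x : Fin p → M.Node), M.Con →
    M.eg ≤ g → M.Tg θ c → 4 * ρ + 4 ≤ θ → 3 * c < Nat.card D →
    (∀ i j, i ≠ j → 2 * ρ < M.rg.dist (x i) (x j)) →
    (∀ i, Nat.card {d // M.ball (x i) ρ d} ≤ b) →
    (∀ i, ¬M.GB (x i) ρ (c * b)) → p ≤ 2 ^ g * (4 * c + 8)

/-- the vertices of a set of faces -/
def LM.Zc {V D : Type} {H : SimpleGraph V} (L : LM H D) (O : D → Prop) : Set V :=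
  {v | ∃ d, O d ∧ L.vx d = v}

/-- nested discs bounded by cycles -/
structure Rings {V D : Type} {H : SimpleGraph V} (L : LM H D) (R : ℕ) (O : ℕ → D → Prop)
    (len : ℕ → ℕ) (c : ∀ r, ZMod (len r) → V) : Prop where
  phi : ∀ r ≤ R, ∀ d, O r (L.φ d) ↔ O r d
  cyc : ∀ r ≤ R, Cyc H (c r)
  bd : ∀ r ≤ R, ∀ d, (O r d ∧ ¬O r (L.α d)) ↔
    ∃ i, L.vx d = c r i ∧ L.vx (L.α d) = c r (i + 1)
  nest : ∀ r < R, ∀ d, L.vx d ∈ L.Zc (O r) → O (r + 1) d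
  tight : ∀ r < R, ∀ d, O (r + 1) d → ¬O (r + 1) (L.α d) →
    ¬O r d ∧ ∃ e i, L.φ.SameCycle d e ∧ L.vx e = c r i

def RingSt : Prop :=
  ∀ (V D : Type) [Finite D] (H : SimpleGraph V) (L : LM H D) (x : D) (ρ s b R : ℕ),
    L.toHMap.Con → L.toHMap.GB (L.toHMap.rv x) ρ s →
    Nat.card {d // L.toHMap.ball (L.toHMap.rv x) ρ d} ≤ b → 2 * R + 4 ≤ ρ →
    4 * (s + b) < Nat.card D →
    ∃ O len c, Rings L R O len c ∧ Nat.card {d // O R d} ≤ s + b ∧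
      (∀ d, L.vx d = L.vx x → O R d) ∧
      ∀ d, O R d → ¬O R (L.α d) → L.toHMap.ball (L.toHMap.rv x) ρ d

/-- a planar disc with rings -/
structure Flat {V : Type} (G : SimpleGraph V) (Z : Set V) (R : ℕ) (D : Type) where
  L : LM (rst G Z) D
  O : ℕ → D → Prop
  len : ℕ → ℕ
  c : ∀ r, ZMod (len r) → V
  eg : L.toHMap.eg = 0
  rings : Rings L R O len c
  cover : L.Zc (O R) = Z
  closed : ∀ v ∈ Z, v ∉ Set.range (c R) → G.neighborSet v ⊆ Z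
  cn : Cn G Z

def Flat.Zc {V D : Type} {G : SimpleGraph V} {Z : Set V} {R : ℕ} (F : Flat G Z R D) (r : ℕ) :
    Set V := F.L.Zc (F.O r)

def PickSt : Prop :=
  ∃ h, ∀ (k τ c R : ℕ) (V D : Type) [Finite V] [Finite D] (G : SimpleGraph V) (U : Set V)
    (S : Sk k G U D) (A : Set V), S.Top → Unb G A τ c → 24 * R + 100 ≤ τ →
    tw h (c + k + τ) < A.ncard →
    ∃ Z ⊆ A, Z.ncard ≤ tw h (c + k + τ) ∧ S.PlanarOn Z ∧
      ∃ (D₁ : Type) (_ : Finite D₁), Nonempty (Flat G Z R D₁)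

/-- disjoint paths from ring `a` to ring `b` -/
structure Rails {V D : Type} {G : SimpleGraph V} {Z : Set V} {R : ℕ} (F : Flat G Z R D)
    (a b m : ℕ) (P : Fin m → List V) : Prop where
  chain : ∀ j, (P j).IsChain G.Adj
  head : ∀ j, ∃ i, (P j).head? = some (F.c a i)
  last : ∀ j, ∃ i, (P j).getLast? = some (F.c b i)
  disj : ∀ j j' v, v ∈ P j → v ∈ P j' → j = j'
  mem : ∀ j, ∀ v ∈ P j, v ∈ F.Zc b ∧ (v ∈ F.Zc a → v ∈ Set.range (F.c a))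

def ShellSt : Prop :=
  ∀ (k n m N R : ℕ) (V D : Type) [Finite V] [Finite D] (G : SimpleGraph V) (U Z : Set V)
    (F : Flat G Z R D), ManyAt k G U m N → (N + 1) * (n + 1) + 1 ≤ R → 0 < n →
    (∃ X ⊆ Z, Cn G X ∧ (nb G X).ncard ≤ m ∧ RedIn k G U X) ∨
      ∃ a P, a + n ≤ R ∧ Rails F a (a + n) m P

structure Cols {V D : Type} {G : SimpleGraph V} {Z : Set V} {R : ℕ} (F : Flat G Z R D)
    (a b m : ℕ) (col : Fin m → ℕ → Set V) : Prop where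
  cn : ∀ j r, a ≤ r → r ≤ b → Cn G (col j r)
  disj : ∀ j j' r r' v, a ≤ r → r ≤ b → a ≤ r' → r' ≤ b → v ∈ col j r → v ∈ col j' r' → j = j'
  lev : ∀ j r v, a ≤ r → r ≤ b → v ∈ col j r →
    v ∈ F.Zc r ∧ (a < r → v ∉ F.Zc (r - 1)) ∧ (r = a → v ∈ Set.range (F.c a))
  arc : ∀ j r, a ≤ r → r ≤ b → ∃ (s : ZMod (F.len r)) (l : ℕ),
    ∀ i, F.c r i ∈ col j r ↔ ∃ t : ℕ, t ≤ l ∧ i = s + t
  ver : ∀ j r, a ≤ r → r < b → Tch G (col j r) (col j (r + 1))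

def MonoSt : Prop :=
  ∀ (a b m R : ℕ) (V D : Type) [Finite V] [Finite D] (G : SimpleGraph V) (Z : Set V)
    (F : Flat G Z R D) (P : Fin m → List V), a ≤ b → b ≤ R → Rails F a b m P →
    ∃ col, Cols F a b m col

structure Cells {V D : Type} {G : SimpleGraph V} {Z : Set V} {R : ℕ} (F : Flat G Z R D)
    (a b : ℕ) {m : ℕ} (β : ℕ → ZMod m → Set V) : Prop where
  grid : Grid G Z a b β
  lev : ∀ r j v, a ≤ r → r ≤ b → v ∈ β r j → v ∈ F.Zc r ∧ (a < r → v ∉ F.Zc (r - 1))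
  ring : ∀ r i, a ≤ r → r ≤ b → ∃ j, F.c r i ∈ β r j

def CellSt : Prop :=
  ∀ (a b m R : ℕ) (V D : Type) [Finite V] [Finite D] (G : SimpleGraph V) (Z : Set V)
    (F : Flat G Z R D) (col : Fin m → ℕ → Set V), 4 ≤ m → a ≤ b → b + 1 ≤ R → PlOn G Z →
    Cols F a (b + 1) m col → ∃ β : ℕ → ZMod m → Set V, Cells F a b β

/-- cells joined outside the grid are close -/
def NearSt : Prop :=
  ∀ (V : Type) (H : SimpleGraph V) (X : Set V) (i₀ i₁ m : ℕ) (β : ℕ → ZMod m → Set V)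
    (i i' : ℕ) (j j' : ZMod m), 4 ≤ m → Pl H.Adj → Grid H X i₀ i₁ β → i₀ ≤ i → i ≤ i₁ →
    i₀ ≤ i' → i' ≤ i₁ →
    (Tch H (β i j) (β i' j') ∨ ∃ W, Cn H W ∧
      (∀ r l, i₀ ≤ r → r ≤ i₁ → Disjoint W (β r l)) ∧ Tch H W (β i j) ∧ Tch H W (β i' j')) →
    i ≤ i' + 1 ∧ i' ≤ i + 1 ∧ (i₀ < i → i < i₁ → j' = j ∨ j' = j + 1 ∨ j = j' + 1)

def CoverSt : Prop :=
  ∀ (a n m R : ℕ) (V D : Type) [Finite V] [Finite D] (G : SimpleGraph V) (Z : Set V)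
    (F : Flat G Z R D) (β : ℕ → ZMod m → Set V), 4 ≤ m → a + n + 1 ≤ R → PlOn G Z →
    Cells F a (a + n + 1) β →
    Cn G (F.Zc (a + n)) ∧ F.Zc (a + n) ⊆ Z ∧
      ∃ (rad : F.Zc (a + n) → ℕ) (ang : F.Zc (a + n) → ZMod m),
        Cyl (G.induce (F.Zc (a + n))) n m rad ang ∧ (∀ v, rad v ≤ n) ∧
        ∀ v, (∃ u, u ∉ F.Zc (a + n) ∧ G.Adj v.1 u) → rad v = n

def ManySt : Prop :=
  ∃ h, ∀ (k τ : ℕ) (V : Type) [Finite V] (G : SimpleGraph V) (U : Set V),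
    ManyAt k G U τ (tw h (k + τ))

def UnbSt : Prop :=
  ∀ h₁ : ℕ, ∃ h, ∀ (k τ : ℕ) (V : Type) [Finite V] (G : SimpleGraph V) (U Z : Set V),
    Z.ncard ≤ τ → bg h (k + τ) < Nat.card V →
    OutA k G U Z (bg h (k + τ)) ∨ OutB k G U Z (bg h (k + τ)) ∨
      ∃ A c, c ≤ bg h (k + τ) ∧ Disjoint A Z ∧ Unb G A τ c ∧ tw h₁ (c + k + τ) < A.ncard

def FlatRedSt : Prop :=
  ∃ h, ∀ (k t n m : ℕ) (I : Type) [Finite I] (P : Piece t I) (rad : I → ℕ) (ang : I → ZMod m),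
    tw h k ≤ n → tw h k ≤ m → Cyl P.G n m rad ang → (∀ v, rad v ≤ n) →
    (∀ v s, P.att v s → rad v = n) → Cn P.G Set.univ → Indep P.G P.U →
    Sol 0 P.G {z | z ∈ P.U ∧ rad z < n} → Red k P

/-- a large unbreakable set contains a small reducible set -/
def LSt : Prop :=
  ∃ h₀ h₁, ∀ (k τ c : ℕ) (V : Type) [Finite V] (G : SimpleGraph V) (U A : Set V), PP k G U →
    tw h₀ k ≤ τ → Unb G A τ c → tw h₁ (c + k + τ) < A.ncard →
    ∃ X ⊆ A, Cn G X ∧ X.ncard ≤ tw h₁ (c + k + τ) ∧ (nb G X).ncard ≤ tw h₁ (c + k + τ) ∧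
      RedIn k G U X

def MainSt : Prop :=
  ∃ h, ∀ (k z : ℕ) (V : Type) [Finite V] (G : SimpleGraph V) (U Z : Set V), PP k G U →
    Z.ncard ≤ z → bg h (k + z) < Nat.card V →
    OutA k G U Z (bg h (k + z)) ∨ OutB k G U Z (bg h (k + z))

end Pool.Agent.Lib.MP_c1f5fe_lc
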