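import Pool.Agent.Lib.MP_c1f5fe_lc.SpecB

/-! Statements of the steps, part C: operations, finite index, flat reduction. -/

namespace Pool.Agent.Lib.MP_c1f5fe_lc

open Equiv Function Relation
open Pool.Agent.Lib.MP_50b5c6_lc.Np (NC Pl)

section ops
variable {k : ℕ} {V D : Type} {G : SimpleGraph V} {U : Set V}

/-- the face of `d` has no corner at a cap -/
def Sk.NoCap (S : Sk k G U D) (d : D) : Prop :=
  ∀ e z, S.φ.SameCycle d e → S.vx e = some z → z ∉ U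

/-- one chord in each of several faces -/
structure MCh {J : Type} (S : Sk k G U D) (p q : J → D) (S' : Sk k G U (D ⊕ J × Bool)) :
    Prop where
  α_inl : ∀ d, S'.α (.inl d) = .inl (S.α d)
  α_inr : ∀ j b, S'.α (.inr (j, b)) = .inr (j, !b)
  φ_p : ∀ j, S'.φ (.inl (p j)) = .inr (j, true)
  φ_q : ∀ j, S'.φ (.inl (q j)) = .inr (j, false)
  φ_t : ∀ j, S'.φ (.inr (j, true)) = .inl (S.φ (q j))
  φ_f : ∀ j, S'.φ (.inr (j, false)) = .inl (S.φ (p j))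
  φ_inl : ∀ d, (∀ j, d ≠ p j ∧ d ≠ q j) → S'.φ (.inl d) = .inl (S.φ d)
  vx_inl : ∀ d, S'.vx (.inl d) = S.vx d
  vx_t : ∀ j, S'.vx (.inr (j, true)) = S.vx (S.φ (p j))
  vx_f : ∀ j, S'.vx (.inr (j, false)) = S.vx (S.φ (q j))
  real_inl : ∀ d, S'.real (.inl d) ↔ S.real d
  real_inr : ∀ x, ¬S'.real (.inr x)
  term : ∀ i, S'.term i = .inl (S.term i)
  ok : S'.ok = S.ok
  chi : S'.toHMap.chi = S.toHMap.chi
  eg : S'.toHMap.eg = S.toHMap.eg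
  con : S.toHMap.Con → S'.toHMap.Con
  sc : ∀ d e, S'.toHMap.σ.SameCycle (.inl d) (.inl e) ↔ S.toHMap.σ.SameCycle d e
  face : ∀ d e, S'.φ.SameCycle (.inl d) (.inl e) → S.φ.SameCycle d e
  face' : ∀ d e, (∀ j, ¬S.φ.SameCycle d (p j)) →
    (S'.φ.SameCycle (.inl d) e ↔ ∃ e', e = .inl e' ∧ S.φ.SameCycle d e')
  split : ∀ j, ¬S'.φ.SameCycle (.inl (p j)) (.inl (q j))
  isT_inl : ∀ d, S'.IsT (.inl d) ↔ S.IsT d
  isT_inr : ∀ x, ¬S'.IsT (.inr x)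
  valid : ∀ w θ : D → FG k, S.Valid w → (∀ d, ¬S.IsT d → θ d * w d = θ (S.φ d)) →
    S'.Valid (Sum.elim w fun x => if x.2 then (θ (S.φ (p x.1)))⁻¹ * θ (S.φ (q x.1))
      else (θ (S.φ (q x.1)))⁻¹ * θ (S.φ (p x.1)))

def MChordSt : Prop :=
  ∀ (k : ℕ) (V D J : Type) [Finite D] [Finite J] (G : SimpleGraph V) (U : Set V)
    (S : Sk k G U D) (p q : J → D), (∀ j, p j ≠ q j ∧ S.φ.SameCycle (p j) (q j) ∧ ¬S.IsT (p j)) →
    (∀ j j', S.φ.SameCycle (p j) (p j') → j = j') →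
    (∀ j, S.NoCap (p j) ∨ (q j = S.φ (p j) ∧ (∃ z ∈ U, S.vx (p j) = some z) ∧
      ∀ y, S.vx (q j) = some y ∨ S.vx (S.φ (q j)) = some y → y ∉ U)) →
    ∃ S', MCh S p q S'

/-- same darts, labels and vertices -/
structure Same (S S' : Sk k G U D) : Prop where
  vx : S'.vx = S.vx
  real : S'.real = S.real
  term : S'.term = S.term
  ok : S'.ok = S.ok
  chi : S'.toHMap.chi = S.toHMap.chi
  con : S.toHMap.Con → S'.toHMap.Con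
  sc : ∀ d e, S'.toHMap.σ.SameCycle d e ↔ S.toHMap.σ.SameCycle d e
  isT : ∀ d, S'.IsT d ↔ S.IsT d

end ops

open Classical in
structure MoveSt : Prop where
  /-- move a closed run of a face to another corner of the same vertex -/
  mv : ∀ {k : ℕ} {V D : Type} [Finite D] {G : SimpleGraph V} {U : Set V} (S : Sk k G U D)
    (a q p : D), a ≠ q → S.φ.SameCycle a q → ¬S.φ.SameCycle a p → ¬S.IsT a → ¬S.IsT p →
    S.NoCap a → S.NoCap p → S.toHMap.σ.SameCycle (S.α a) (S.α q) →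
    S.toHMap.σ.SameCycle (S.α a) (S.α p) →
    ¬(S.toHMap.σ * Equiv.swap (S.α a) (S.α q)).SameCycle (S.α q) (S.α p) →
    ∃ S' : Sk k G U D, Same S S' ∧ S'.φ = S.φ * Equiv.swap a q * Equiv.swap q p ∧ S'.α = S.α ∧
      ∀ w θ : D → FG k, S.Valid w → (∀ d, ¬S.IsT d → θ d * w d = θ (S.φ d)) →
        θ (S.φ a) = θ (S.φ q) → S'.Valid w
  /-- open a loop and join its inside to another face -/
  m2 : ∀ {k : ℕ} {V D : Type} [Finite D] {G : SimpleGraph V} {U : Set V} (S : Sk k G U D)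
    (x p : D), S.α x ≠ x → p ≠ S.α x → ¬S.real x → ¬S.IsT x → ¬S.IsT p →
    ¬S.φ.SameCycle x p → S.NoCap p → S.toHMap.σ.SameCycle x (S.α x) →
    S.toHMap.σ.SameCycle x (S.α p) →
    ¬(S.toHMap.σ * Equiv.swap x (S.α x)).SameCycle x (S.α p) →
    ∃ S' : Sk k G U D, Same S S' ∧ S'.φ = S.φ * Equiv.swap x p ∧
      S'.α = S.α * Equiv.swap x (S.α x) ∧ ∀ w, S.Valid w → w x = 1 → S'.Valid w
  /-- exchange two neighbouring pages of a book -/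
  m3 : ∀ {k : ℕ} {V D : Type} [Finite D] {G : SimpleGraph V} {U : Set V} (S : Sk k G U D)
    (r₁ r₂ r₃ : D) (Q : D → Prop), [r₁, r₂, r₃, S.α r₁, S.α r₂, S.α r₃].Nodup →
    (∀ d ∈ [r₁, r₂, r₃, S.α r₁, S.α r₂, S.α r₃], Q d ∧ ¬S.real d) →
    Nxt S.toHMap.σ Q r₁ r₂ → Nxt S.toHMap.σ Q r₂ r₃ → Nxt S.toHMap.σ Q (S.α r₃) (S.α r₂) →
    Nxt S.toHMap.σ Q (S.α r₂) (S.α r₁) →
    ∃ S' : Sk k G U D, Same S S' ∧ S'.φ = S.φ ∧ S'.α r₁ = S.α r₂ ∧ S'.α r₃ = S.α r₁ ∧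
      S'.α r₂ = S.α r₃ ∧ (∀ d, d ∉ [r₁, r₂, r₃, S.α r₁, S.α r₂, S.α r₃] → S'.α d = S.α d) ∧
      ∀ w, S.Valid w → w r₁ = w r₂ → w r₂ = w r₃ → S'.Valid w

/-- contract a forest of edges that start at unlabelled vertices -/
def AbsorbSt : Prop :=
  ∀ (k : ℕ) (V D : Type) [Finite D] (G : SimpleGraph V) (U : Set V) (S : Sk k G U D)
    (Y : D → Prop) (rk : D → ℕ), (∀ d, rk (S.toHMap.σ d) = rk d) →
    (∀ d, Y d → S.vx d = none ∧ rk (S.α d) < rk d ∧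
      (∀ e, S.toHMap.σ.SameCycle d e → ¬S.IsT e) ∧
      ∀ e, Y e → S.toHMap.σ.SameCycle d e → d = e) →
    ∃ S' : Sk k G U D, S'.φ = S.φ ∧ (∀ d, Y d ∨ Y (S.α d) → S'.α d = d) ∧
      (∀ d, ¬Y d → ¬Y (S.α d) → S'.α d = S.α d) ∧ S'.real = S.real ∧ S'.term = S.term ∧
      S'.ok = S.ok ∧ S'.toHMap.chi = S.toHMap.chi ∧ S'.toHMap.eg = S.toHMap.eg ∧
      (∀ d e, Conn S'.φ S'.α d e ↔ Conn S.φ S.α d e) ∧
      (∀ d e, S.toHMap.σ.SameCycle d e → S'.toHMap.σ.SameCycle d e) ∧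
      (∀ d, Y d → S'.toHMap.σ.SameCycle d (S.α d)) ∧
      (∀ d, (∀ e, Y e → ¬S.toHMap.σ.SameCycle e d) → S'.vx d = S.vx d) ∧
      ∀ w, S.Valid w → ∃ c : D → FG k, (∀ d, c (S.toHMap.σ d) = c d) ∧
        (∀ d, (∀ e, Y e → ¬S.toHMap.σ.SameCycle e d) → c d = 1) ∧
        (∀ d, Y d → c d = w d * c (S.α d)) ∧ S'.Valid fun d => (c d)⁻¹ * w d * c (S.φ d)

/-- forget or rename vertices -/
def DemoteSt : Prop :=
  ∀ (k : ℕ) (V V' D : Type) (G : SimpleGraph V) (U : Set V) (G' : SimpleGraph V') (U' : Set V')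
    (S : Sk k G U D) (l : V → Option V'), (∀ u v x, l u = some x → l v = some x → u = v) →
    (∀ x y, G'.Adj x y → ∃ u v, l u = some x ∧ l v = some y ∧ G.Adj u v) →
    (∀ z z', l z = some z' → z' ∈ U' → z ∈ U ∧
      (∀ y, G.Adj z y → ∃ y', l y = some y' ∧ G'.Adj z' y') ∧
      ∀ y₁ y₂ x₁ x₂, G.Adj z y₁ → G.Adj z y₂ → G.Adj y₁ y₂ → l y₁ = some x₁ → l y₂ = some x₂ →
        G'.Adj x₁ x₂) →
    ∃ S' : Sk k G' U' D, S'.toHMap = S.toHMap ∧ (∀ d, S'.vx d = (S.vx d).bind l) ∧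
      (∀ d, S'.real d ↔ S.real d ∧ ∃ x y, S'.E d x y ∧ G'.Adj x y) ∧ S'.term = S.term ∧
      S'.ok = S.ok ∧ ∀ w, S.Valid w → S'.Valid w

def ConnectSt : Prop :=
  ∀ (k : ℕ) (V D : Type) [Finite D] (G : SimpleGraph V) (S : Sk k G ∅ D) (w : D → FG k),
    S.Valid w → S.toHMap.eg ≤ 2 * k → (∀ d, ∃ e, Conn S.φ S.α d e ∧ ¬S.IsT e) → Sol k G ∅

/-- two maps with kept colours and the same boundary graph -/
structure Ifc {D₁ D₂ : Type} [Finite D₁] [Finite D₂] (M₁ : HMap D₁) (Q₁ X₁ : D₁ → Prop)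
    (M₂ : HMap D₂) (Q₂ X₂ : D₂ → Prop) (R : D₁ → D₂ → Prop) : Prop where
  con₁ : M₁.Con
  con₂ : M₂.Con
  e₁ : M₁.Edges Q₁
  e₂ : M₂.Edges Q₂
  c₁ : M₁.Col Q₁ X₁
  c₂ : M₂.Col Q₂ X₂
  dom : ∀ x y, R x y → Q₁ x ∧ Q₂ y
  tot₁ : ∀ x, Q₁ x → ∃ y, R x y
  tot₂ : ∀ y, Q₂ y → ∃ x, R x y
  bij : ∀ x y x' y', R x y → R x' y' → (x = x' ↔ y = y')
  al : ∀ x y, R x y → R (M₁.α x) (M₂.α y)
  nx : ∀ x y, R x y → R (M₁.nx Q₁ x) (M₂.nx Q₂ y)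
  col : ∀ x y, R x y → (X₁ x ↔ ¬X₂ y)
  reg : ∀ x y x' y', R x y → R x' y' → ¬X₁ x → M₁.Reg Q₁ x x' → M₂.Reg Q₂ y y'
  flag : (∃ q, Q₁ q) ∨ (∀ d, ¬X₁ d) ∨ ∀ d, ¬X₂ d

structure Glued {D₁ D₂ : Type} (M₁ : HMap D₁) (Q₁ X₁ : D₁ → Prop) (M₂ : HMap D₂)
    (Q₂ X₂ : D₂ → Prop) (R : D₁ → D₂ → Prop) (M : HMap ({d // X₁ d} ⊕ {d // X₂ d})) : Prop where
  φ₁ : ∀ d e : {d // X₁ d}, e.1 = M₁.φ d.1 → M.φ (.inl d) = .inl e
  φ₂ : ∀ d e : {d // X₂ d}, e.1 = M₂.φ d.1 → M.φ (.inr d) = .inr e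
  α₁₁ : ∀ d e : {d // X₁ d}, e.1 = M₁.α d.1 → M.α (.inl d) = .inl e
  α₂₂ : ∀ d e : {d // X₂ d}, e.1 = M₂.α d.1 → M.α (.inr d) = .inr e
  α₁₂ : ∀ (d : {d // X₁ d}) (e : {d // X₂ d}), R (M₁.α d.1) e.1 → M.α (.inl d) = .inr e
  α₂₁ : ∀ (d : {d // X₁ d}) (e : {d // X₂ d}), R d.1 (M₂.α e.1) → M.α (.inr e) = .inl d
  sc₁ : ∀ d e : {d // X₁ d}, M₁.σ.SameCycle d.1 e.1 → M.σ.SameCycle (.inl d) (.inl e)
  sc₂ : ∀ d e : {d // X₂ d}, M₂.σ.SameCycle d.1 e.1 → M.σ.SameCycle (.inr d) (.inr e)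
  sc₁₂ : ∀ (d : {d // X₁ d}) (e : {d // X₂ d}) x y, R x y → M₁.σ.SameCycle x d.1 →
    M₂.σ.SameCycle y e.1 → M.σ.SameCycle (.inl d) (.inr e)
  con : M.Con
  chi : M.chi = M₁.chi - M₁.inv Q₁ (fun d => ¬X₁ d) + M₂.inv Q₂ X₂

def GlueSt : Prop :=
  ∀ (D₁ D₂ : Type) [Finite D₁] [Finite D₂] (M₁ : HMap D₁) (Q₁ X₁ : D₁ → Prop) (M₂ : HMap D₂)
    (Q₂ X₂ : D₂ → Prop) (R : D₁ → D₂ → Prop), Ifc M₁ Q₁ X₁ M₂ Q₂ X₂ R →
    ∃ M, Glued M₁ Q₁ X₁ M₂ Q₂ X₂ R M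

/-- the conditions of a solution on the kept colour `X` of a map -/
structure Side {k : ℕ} {V D : Type} (G : SimpleGraph V) (U : Set V) (ok : Lab k → Lab k → Prop)
    (M : HMap D) (Q X T : D → Prop) (vx : D → Option V) (real : D → Prop) (w : D → FG k) :
    Prop where
  vx_σ : ∀ d, vx (M.σ d) = vx d
  vx_cyc : ∀ d e v, X d ∨ Q d → X e ∨ Q e → vx d = some v → vx e = some v → M.σ.SameCycle d e
  real_α : ∀ d, X d → real d → real (M.α d)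
  real_adj : ∀ d, X d → real d → ∃ u v, vx d = some u ∧ vx (M.α d) = some v ∧ G.Adj u v
  uniq : ∀ d e, X d → X e → real d → real e → vx d = vx e → vx (M.α d) = vx (M.α e) → d = e
  inv : ∀ d, X d → w (M.α d) = (w d)⁻¹
  pot : ∃ θ : D → FG k, ∀ d, X d → ¬T d → θ d * w d = θ (M.φ d)
  edge : ∀ d, X d → real d → (labs (w d)).Pairwise ok
  vert : ∀ d e i, X d → X e → real d → real e → vx d = vx e → (i, false) ∈ labs (w d) →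
    (i, true) ∉ labs (w e)
  cap : ∀ d z, X d → vx d = some z → z ∈ U → real d ∧ M.φ (M.φ (M.φ d)) = d ∧
    ∃ y y', vx (M.φ d) = some y ∧ vx (M.φ (M.φ d)) = some y' ∧ G.Adj y y'

def SwapSt : Prop :=
  ∀ (k : ℕ) (V D₁ D₂ : Type) [Finite D₁] [Finite D₂] (G : SimpleGraph V) (U : Set V)
    (ok : Lab k → Lab k → Prop) (M₁ : HMap D₁) (Q₁ X₁ : D₁ → Prop) (vx₁ : D₁ → Option V)
    (real₁ : D₁ → Prop) (w₁ : D₁ → FG k) (M₂ : HMap D₂) (Q₂ X₂ : D₂ → Prop)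
    (vx₂ : D₂ → Option V) (real₂ : D₂ → Prop) (w₂ : D₂ → FG k) (R : D₁ → D₂ → Prop)
    (tm : Fin k → D₁), Ifc M₁ Q₁ X₁ M₂ Q₂ X₂ R →
    Side G U ok M₁ Q₁ X₁ (fun d => ∃ i, M₁.φ.SameCycle (tm i) d) vx₁ real₁ w₁ →
    Side G U ok M₂ Q₂ X₂ (fun _ => False) vx₂ real₂ w₂ →
    (∀ x y, R x y → vx₁ x = vx₂ y ∧ (real₁ x ↔ real₂ y) ∧ w₁ x = w₂ y) →
    (∀ u v, G.Adj u v → (∃ d, X₁ d ∧ real₁ d ∧ vx₁ d = some u ∧ vx₁ (M₁.α d) = some v) ∨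
      ∃ d, X₂ d ∧ real₂ d ∧ vx₂ d = some u ∧ vx₂ (M₂.α d) = some v) →
    (∀ d e, X₁ d → X₂ e → real₁ d → real₂ e → vx₁ d = vx₂ e →
      vx₁ (M₁.α d) ≠ vx₂ (M₂.α e)) →
    (∀ d e v, X₁ d → X₂ e → vx₁ d = some v → vx₂ e = some v → ∃ q, Q₁ q ∧ vx₁ q = some v) →
    (∀ d e i b, X₁ d → X₂ e → real₁ d → real₂ e → vx₁ d = vx₂ e → (i, b) ∈ labs (w₁ d) →
      (i, !b) ∉ labs (w₂ e)) →
    (∀ i, X₁ (tm i) ∧ (∀ d, M₁.φ.SameCycle (tm i) d → vx₁ d = none) ∧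
      M₁.φ (M₁.φ (M₁.φ (M₁.φ (tm i)))) = tm i ∧ w₁ (tm i) = .of (i, false) ∧
      w₁ (M₁.φ (tm i)) = .of (i, true) ∧ w₁ (M₁.φ (M₁.φ (tm i))) = (.of (i, false))⁻¹ ∧
      w₁ (M₁.φ (M₁.φ (M₁.φ (tm i)))) = (.of (i, true))⁻¹) →
    (∀ x y, ok x y → ok y x) → (∀ i x y, ¬ok (i, x) (i, y)) →
    (∀ i j x y, i ≠ j → ok (i, x) (j, y) → ¬ok (i, !x) (j, !y)) →
    2 - 2 * (k : ℤ) ≤ M₁.chi - M₁.inv Q₁ (fun d => ¬X₁ d) + M₂.inv Q₂ X₂ →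
    ∃ S : Sk k G U ({d // X₁ d} ⊕ {d // X₂ d}), Glued M₁ Q₁ X₁ M₂ Q₂ X₂ R S.toHMap ∧ S.Top ∧
      (∀ d, S.vx (.inl d) = vx₁ d.1) ∧ (∀ d, S.vx (.inr d) = vx₂ d.1) ∧
      (∀ d, S.real (.inl d) ↔ real₁ d.1) ∧ (∀ d, S.real (.inr d) ↔ real₂ d.1) ∧
      S.Valid (Sum.elim (fun d => w₁ d.1) fun d => w₂ d.1)

/-- goodness passes along a map of darts that keeps the rotations at the vertices of `Z` -/
def GoodTrSt : Prop :=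
  ∀ (k k' : ℕ) (I V V' D D' : Type) [Finite D] [Finite D'] (G : SimpleGraph V) (U : Set V)
    (G' : SimpleGraph V') (U' : Set V') (S : Sk k G U D) (S' : Sk k' G' U' D') (e : I → V)
    (e' : I → V') (Z : Set I) (f : ∀ d : D, (∃ u ∈ Z, S.vx d = some (e u)) → D'),
    Injective e → Injective e' →
    (∀ u ∈ Z, ∀ v, G.Adj (e u) v → ∃ x, v = e x) →
    (∀ u ∈ Z, ∀ x, G.Adj (e u) (e x) ↔ G'.Adj (e' u) (e' x)) →
    (∀ d h d' h', f d h = f d' h' → d = d') →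
    (∀ d h x, S.vx d = some (e x) → S'.vx (f d h) = some (e' x)) →
    (∀ d h x, S.vx (S.α d) = some (e x) → S'.vx (S'.α (f d h)) = some (e' x)) →
    (∀ d h h', S'.toHMap.σ (f d h) = f (S.toHMap.σ d) h') →
    (∀ d h h', S'.α (f d h) = f (S.α d) h') →
    (∀ d' u, u ∈ Z → S'.vx d' = some (e' u) → ∃ d h, f d h = d') →
    S.Good (e '' Z) → S'.Good (e' '' Z)

/-! ### normal forms -/

def Prep1St : Prop :=
  ∀ (k : ℕ) (V : Type) [Finite V] (G : SimpleGraph V) (U : Set V), Sol k G U →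
    Nat.card G.ConnectedComponent ≤ 2 * k + 1 →
    ∃ (D : Type) (_ : Finite D) (S : Sk k G U D) (w : D → FG k), S.Top ∧ S.Valid w ∧
      Nat.card {d // ¬S.AdjD Set.univ d} ≤ 24 * k + 1 ∧
      Nat.card D ≤ 3 * Nat.card G.Dart + 24 * k + 1 ∧ ∀ d, S.α d = d → S.vx d = none

def PrepSt : Prop :=
  ∃ h, ∀ (k : ℕ) (V : Type) [Finite V] (G : SimpleGraph V) (U : Set V), Sol k G U →
    Nat.card G.ConnectedComponent ≤ 2 * k + 1 →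
    ∃ (D : Type) (_ : Finite D) (S : Sk k G U D) (w : D → FG k), S.Top ∧ S.Valid w ∧
      S.Nf (tw h k)

def CMHSt : Prop :=
  ∀ (k : ℕ) (V : Type) [Finite V] (G : SimpleGraph V), Sol k G ∅ → HM k G

def HMCSt : Prop :=
  ∀ (k : ℕ) (V : Type) [Finite V] (G : SimpleGraph V), HM k G → Sol k G ∅

/-- the union of the components that are not planar -/
def npl {V : Type} (G : SimpleGraph V) : Set V :=
  {v | ¬PP 0 (G.induce {u | G.Reachable v u}) ∅}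

def CompSt : Prop :=
  ∀ (k : ℕ) (V : Type) [Finite V] (G : SimpleGraph V),
    Sol k G ∅ ↔ PP k (G.induce (npl G)) ∅

/-! ### finite index -/

section fin
variable {k t : ℕ} {I K D : Type} {P : Piece t I} {C : Ctx t K}

structure ColX (S : Sk k (glue P C) (glueU P C) D) (X : D → Prop) : Prop where
  phi : ∀ d, X (S.φ d) ↔ X d
  inl : ∀ d x, S.vx d = some (.inl x) → X d
  inr : ∀ d y, S.vx d = some (.inr y) → y ∉ Set.range C.β → ¬X d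
  term : ∀ d, S.IsT d → ¬X d

def Qs (S : Sk k (glue P C) (glueU P C) D) (X : D → Prop) (d : D) : Prop :=
  S.toHMap.Bi X d ∨ (S.real d ∧ ∃ s s', S.E d (.inr (C.β s)) (.inr (C.β s')))

end fin

def NormSt : Prop :=
  ∃ h, ∀ (k t : ℕ) (I K : Type) [Finite I] [Finite K] (P : Piece t I) (C : Ctx t K),
    PP k (glue P C) (glueU P C) →
    ∃ (D : Type) (_ : Finite D) (S : Sk k (glue P C) (glueU P C) D) (w : D → FG k)
      (X : D → Prop), S.Top ∧ S.Valid w ∧ ColX S X ∧ Nat.card {d // Qs S X d} ≤ tw h (k + t) ∧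
      ∀ d, (w d).norm ≤ tw h (k + t)

structure FMatch {k t : ℕ} {I₁ K₁ D₁ I₂ K₂ D₂ : Type} [Finite D₁] [Finite D₂] {P₁ : Piece t I₁}
    {C₁ : Ctx t K₁} {P₂ : Piece t I₂} {C₂ : Ctx t K₂} (S₁ : Sk k (glue P₁ C₁) (glueU P₁ C₁) D₁)
    (w₁ : D₁ → FG k) (X₁ : D₁ → Prop) (S₂ : Sk k (glue P₂ C₂) (glueU P₂ C₂) D₂)
    (w₂ : D₂ → FG k) (X₂ : D₂ → Prop) (R : D₁ → D₂ → Prop) : Prop where
  dom : ∀ x y, R x y → Qs S₁ X₁ x ∧ Qs S₂ X₂ y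
  tot₁ : ∀ x, Qs S₁ X₁ x → ∃ y, R x y
  tot₂ : ∀ y, Qs S₂ X₂ y → ∃ x, R x y
  bij : ∀ x y x' y', R x y → R x' y' → (x = x' ↔ y = y')
  al : ∀ x y, R x y → R (S₁.α x) (S₂.α y)
  nx : ∀ x y, R x y → R (S₁.toHMap.nx (Qs S₁ X₁) x) (S₂.toHMap.nx (Qs S₂ X₂) y)
  col : ∀ x y, R x y → (X₁ x ↔ X₂ y)
  real : ∀ x y, R x y → (S₁.real x ↔ S₂.real y)
  lab : ∀ x y s, R x y → (S₁.vx x = some (.inr (C₁.β s)) ↔ S₂.vx y = some (.inr (C₂.β s)))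
  word : ∀ x y, R x y → w₁ x = w₂ y
  reg : ∀ x y x' y', R x y → R x' y' → S₁.toHMap.Reg (Qs S₁ X₁) x x' →
    S₂.toHMap.Reg (Qs S₂ X₂) y y'
  inv : S₁.toHMap.inv (Qs S₁ X₁) X₁ ≤ S₂.toHMap.inv (Qs S₂ X₂) X₂
  ok : S₁.ok = S₂.ok
  has : ∀ s, (∃ e, X₂ e ∧ S₂.vx e = some (.inr (C₂.β s))) →
    ∃ d, X₁ d ∧ S₁.vx d = some (.inr (C₁.β s))
  lx : ∀ s l, (∃ e, X₂ e ∧ S₂.real e ∧ S₂.vx e = some (.inr (C₂.β s)) ∧ l ∈ labs (w₂ e)) →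
    ∃ d, X₁ d ∧ S₁.real d ∧ S₁.vx d = some (.inr (C₁.β s)) ∧ l ∈ labs (w₁ d)
  flag : (∃ e, X₂ e) → ∃ d, X₁ d
  cap : ∀ s, C₁.β s ∈ C₁.U → C₂.β s ∈ C₂.U
  adj : ∀ s s', C₂.G.Adj (C₂.β s) (C₂.β s') → C₁.G.Adj (C₁.β s) (C₁.β s')

def FSwapSt : Prop :=
  ∀ (k t : ℕ) (I₁ K₁ D₁ I₂ K₂ D₂ : Type) [Finite D₁] [Finite D₂] (P₁ : Piece t I₁)
    (C₁ : Ctx t K₁) (P₂ : Piece t I₂) (C₂ : Ctx t K₂) (S₁ : Sk k (glue P₁ C₁) (glueU P₁ C₁) D₁)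
    (w₁ : D₁ → FG k) (X₁ : D₁ → Prop) (S₂ : Sk k (glue P₂ C₂) (glueU P₂ C₂) D₂)
    (w₂ : D₂ → FG k) (X₂ : D₂ → Prop) (R : D₁ → D₂ → Prop), S₁.Top → S₁.Valid w₁ → ColX S₁ X₁ →
    S₂.Top → S₂.Valid w₂ → ColX S₂ X₂ → FMatch S₁ w₁ X₁ S₂ w₂ X₂ R →
    Sol k (glue P₂ C₁) (glueU P₂ C₁)

def FinSt : Prop :=
  ∃ h, ∀ (k t N : ℕ) (I : Fin N → Type) [∀ i, Finite (I i)] (P : ∀ i, Piece t (I i)),
    tw h (k + t) < N → ∃ i j, i ≠ j ∧ Equi k (P i) (P j)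

structure BasSt : Prop where
  iso : ∀ (k : ℕ) {V V' : Type} (G : SimpleGraph V) (U : Set V) (G' : SimpleGraph V')
    (U' : Set V') (e : V ≃ V'), (∀ u v, G.Adj u v ↔ G'.Adj (e u) (e v)) →
    (∀ v, v ∈ U ↔ e v ∈ U') → (Sol k G U ↔ Sol k G' U') ∧ (PP k G U ↔ PP k G' U')
  mono : ∀ (k : ℕ) {V : Type} (G : SimpleGraph V) (U U' : Set V), U' ⊆ U → Sol k G U → Sol k G U'
  dec : ∀ (k t : ℕ) {V : Type} (G : SimpleGraph V) (U X : Set V) (b : Fin t → V)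
    (hb : Injective b) (hX : ∀ s, b s ∉ X), nb G X ⊆ Set.range b →
    (PP k G U ↔ PP k (glue (pieceOf G U X b) (ctxOf G U X b hb hX))
      (glueU (pieceOf G U X b) (ctxOf G U X b hb hX)))
  piso : ∀ (k t : ℕ) {I I' : Type} (P : Piece t I) (P' : Piece t I') (e : I ≃ I'),
    (∀ u v, P.G.Adj u v ↔ P'.G.Adj (e u) (e v)) → (∀ v s, P.att v s ↔ P'.att (e v) s) →
    (∀ v, v ∈ P.U ↔ e v ∈ P'.U) → Equi k P P'
  redIn : ∀ (k t : ℕ) {V : Type} (G : SimpleGraph V) (U X : Set V) (b : Fin t → V),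
    Injective b → Set.range b = nb G X → Red k (pieceOf G U X b) → RedIn k G U X

def BoundSt : Prop :=
  ∃ h, ∀ (k t : ℕ) (I I' : Type) [Finite I] [Finite I'] (P : Piece t I) (P' : Piece t I'),
    EquiB k (bg h (k + t + Nat.card I + Nat.card I')) P P' → Equi k P P'

/-! ### flat pieces -/

structure K6 : Prop where
  union : ∀ {V : Type} (G : SimpleGraph V) (A B : Set V), Cn G A → Cn G B →
    (A ∩ B).Nonempty ∨ Tch G A B → Cn G (A ∪ B)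
  rect : ∀ {V : Type} (G : SimpleGraph V) (n m : ℕ) (rad : V → ℕ) (ang : V → ZMod m)
    (i i' l : ℕ) (j : ZMod m), Cyl G n m rad ang → 1 ≤ i → i ≤ i' → i' ≤ n →
    Cn G {v | i ≤ rad v ∧ rad v ≤ i' ∧ ∃ t : ℕ, t ≤ l ∧ ang v = j + t}
  rows : ∀ {V : Type} (G : SimpleGraph V) (n m : ℕ) (rad : V → ℕ) (ang : V → ZMod m)
    (i i' : ℕ), 0 < m → Cyl G n m rad ang → 1 ≤ i → i ≤ i' → i' ≤ n →
    Cn G {v | i ≤ rad v ∧ rad v ≤ i'}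
  grid : ∀ {V : Type} (G : SimpleGraph V) (n m : ℕ) (rad : V → ℕ) (ang : V → ZMod m)
    (i i' : ℕ), Cyl G n m rad ang → 1 ≤ i → i' ≤ n →
    Grid G {v | i ≤ rad v ∧ rad v ≤ i'} i i' fun r j => {v | rad v = r ∧ ang v = j}
  glue : ∀ {t : ℕ} {I K : Type} (P : Piece t I) (C : Ctx t K) (n m : ℕ) (rad : I → ℕ)
    (ang : I → ZMod m), Cyl P.G n m rad ang → (∀ v s, P.att v s → rad v = n) →
    Cyl (glue P C) n m (Sum.elim rad fun _ => n + 1) (Sum.elim ang fun _ => 0)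
  ad_lip : ∀ (m : ℕ) (x : ZMod m), 0 < m → ad (x + 1) ≤ ad x + 1 ∧ ad x ≤ ad (x + 1) + 1
  ad_le : ∀ (m b : ℕ) (x : ZMod m), 2 * b < m →
    (ad x ≤ b ↔ ∃ t : ℕ, t ≤ 2 * b ∧ x = -(b : ZMod m) + t)
  ad_ge : ∀ (m b : ℕ) (x : ZMod m), 2 * b ≤ m → 0 < b →
    (b ≤ ad x ↔ ∃ t : ℕ, t ≤ m - 2 * b ∧ x = (b : ZMod m) + t)

/-- close in both coordinates -/
def Nr {V : Type} {m : ℕ} (rad : V → ℕ) (ang : V → ZMod m) (u : V) : Set V :=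
  {v | rad u ≤ rad v + 1 ∧ rad v ≤ rad u + 1 ∧
    (ang v = ang u ∨ ang v = ang u + 1 ∨ ang u = ang v + 1)}

structure FlatSt : Prop where
  near : ∀ {k : ℕ} {V D : Type} [Finite D] {G : SimpleGraph V} {U : Set V} (S : Sk k G U D)
    (n m : ℕ) (rad : V → ℕ) (ang : V → ZMod m) (r a : ℕ), Cyl G n m rad ang → 4 ≤ m →
    a + 2 < r → r + a + 2 ≤ n → S.Good (band rad r (a + 2)) →
    ∀ d e u, S.vx d = some u → u ∈ band rad r a → S.φ.SameCycle d e →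
      ∃ v, S.vx e = some v ∧ v ∈ Nr rad ang u
  pot : ∀ {k : ℕ} {V D : Type} [Finite D] {G : SimpleGraph V} {U : Set V} (S : Sk k G U D)
    (n m : ℕ) (rad : V → ℕ) (ang : V → ZMod m) (r a : ℕ) (j : ZMod m), Cyl G n m rad ang →
    4 ≤ m → a + 3 < r → r + a + 3 ≤ n → S.Good (band rad r (a + 3)) → ∀ w, S.Pre w →
    ∃ hp, S.PotOn w {v | v ∈ band rad r a ∧ 2 ≤ ad (ang v - j)} hp

def Fr0St : Prop :=
  ∀ (V : Type) [Finite V] (G : SimpleGraph V) (U : Set V) (T : ZMod 8 → Set V)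
    (A B : Set V) (R : ZMod 8 → Set V), Pl G.Adj → Indep G U →
    (∀ i, ∀ z ∈ T i, z ∈ U → Cn G (G.neighborSet z)) →
    (∀ i, Cn G (T i) ∧ Tch G (T i) (T (i + 1))) →
    (∀ i j, j ≠ i → j ≠ i + 1 → i ≠ j + 1 → Disjoint (T i ∪ nb G (T i)) (T j ∪ nb G (T j)) ∧
      ¬Tch G (T i ∪ nb G (T i)) (T j ∪ nb G (T j))) →
    Cn G A → Cn G B → Disjoint A B →
    (∀ i, Disjoint (A ∪ B) (T i ∪ nb G (T i))) →
    (∀ i ∈ ({0, 2, 4, 6} : Set (ZMod 8)), Cn G (R i) ∧ Disjoint (A ∪ B) (R i) ∧ Tch G A (R i) ∧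
      Tch G B (R i) ∧ (R i ∩ T i).Nonempty ∧
      (∀ j, j ≠ i → Disjoint (R i) (T j ∪ nb G (T j))) ∧
      ∀ j ∈ ({0, 2, 4, 6} : Set (ZMod 8)), j ≠ i → Disjoint (R i) (R j)) →
    ∃ (l : ℕ) (c : ZMod l → V) (K : Set V), Frame G U c K ∧ Cn G K ∧ A ⊆ K ∧ Disjoint K B ∧
      ∀ x, ∃ i, c x ∈ T i ∪ nb G (T i)

def FrZSt : Prop :=
  ∀ (V : Type) [Finite V] (G : SimpleGraph V) (U : Set V) (n m : ℕ) (rad : V → ℕ)
    (ang : V → ZMod m) (r : ℕ), Pl G.Adj → Indep G U →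
    (∀ z ∈ U, rad z < n → (G.neighborSet z).Nonempty → Cn G (G.neighborSet z)) →
    Cn G Set.univ → Cyl G n m rad ang → 64 ≤ m → 3 < r → r + 3 ≤ n →
    ∃ (l : ℕ) (c : ZMod l → V) (K : Set V), Frame G U c K ∧ (∀ x, c x ∈ band rad r 1) ∧
      (∀ v, rad v + 3 ≤ r → v ∈ K) ∧ (∀ v ∈ K, rad v ≤ r + 2) ∧
      ∀ a, 3 ≤ a → a < r → Cn G (K ∩ band rad r a)

def FrDSt : Prop :=
  ∀ (V : Type) [Finite V] (G : SimpleGraph V) (U : Set V) (n m : ℕ) (rad : V → ℕ)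
    (ang : V → ZMod m) (r : ℕ), Pl G.Adj → Indep G U →
    (∀ z ∈ U, rad z < n → (G.neighborSet z).Nonempty → Cn G (G.neighborSet z)) →
    Cn G Set.univ → Cyl G n m rad ang → 64 ≤ m → 11 < r → r + 11 ≤ n →
    ∃ (l : ℕ) (c : ZMod l → V) (K : Set V), Frame G U c K ∧ Cn G K ∧
      (∀ v, v ∉ K → v ∈ band rad r 10 ∧ ad (ang v) ≤ 10) ∧
      (∃ x y, x ≠ y ∧ x ∉ K ∧ y ∉ K ∧ x ∉ Set.range c ∧ y ∉ Set.range c) ∧
      ∀ a, 11 ≤ a → a < r → r + a ≤ n → Cn G (K ∩ band rad r a)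

/-- the face of `d` touches `K` -/
def Sk.XK {k : ℕ} {V D : Type} {G : SimpleGraph V} {U : Set V} (S : Sk k G U D) (K : Set V)
    (d : D) : Prop := ∃ e v, S.φ.SameCycle d e ∧ S.vx e = some v ∧ v ∈ K

/-- the faces at `K` are bounded by chords along the cycle and by unlabelled edges -/
structure Hg {k : ℕ} {V D : Type} {G : SimpleGraph V} {U : Set V} (S : Sk k G U D) {l : ℕ}
    (c : ZMod l → V) (K : Set V) : Prop where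
  top : S.Top
  bi : ∀ d, S.XK K d → ¬S.XK K (S.α d) → (S.vx d = none ∧ S.vx (S.α d) = none) ∨
    (¬S.real d ∧ ∃ i j, S.E d (c i) (c j) ∧ c i ∈ nb G K ∧ NextS c (nb G K) i j)
  z_ex : ∀ i, c i ∈ nb G K → ∃! d, S.XK K d ∧ ¬S.XK K (S.α d) ∧ S.vx d = some (c i)
  lab : ∀ d v, S.XK K d → S.vx d = some v → v ∈ K ∨ v ∈ nb G K
  real : ∀ d u v, S.XK K d → S.real d → S.E d u v → u ∈ K ∨ v ∈ K

structure Lnk {k : ℕ} {V D D' : Type} {G : SimpleGraph V} {U : Set V} (S : Sk k G U D)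
    (S' : Sk k G U D') (C : Set V) (f : D → D') : Prop where
  inj : Injective f
  al : ∀ d, S'.α (f d) = f (S.α d)
  vx : ∀ d, S'.vx (f d) = S.vx d
  real : ∀ d, S'.real (f d) ↔ S.real d
  ok : S'.ok = S.ok
  si : ∀ d, (∀ v ∈ C, S.vx d ≠ some v) → S'.toHMap.σ (f d) = f (S.toHMap.σ d)
  new : ∀ d', (∃ d, f d = d') ∨ (¬S'.real d' ∧ ∃ u ∈ C, ∃ v ∈ C, S'.E d' u v)

def HugSt : Prop :=
  ∀ (k l : ℕ) (V D : Type) [Finite V] [Finite D] (G : SimpleGraph V) (U : Set V)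
    (S : Sk k G U D) (c : ZMod l → V) (K Zn : Set V) (Nb : V → Set V), S.Top → S.P2 → S.P3 →
    S.PlanarOn Zn → Cn G Zn → Frame G U c K → Indep G U → Cn G (K ∩ Zn) →
    (∀ d e i, S.vx d = some (c i) → S.φ.SameCycle d e →
      ∃ v, S.vx e = some v ∧ v ∈ Nb (c i) ∧ v ∈ Zn) →
    ∃ (o : Bool) (D' : Type) (_ : Finite D') (S' : Sk k G U D') (f : D → D'),
      Hg S' (orient o c) K ∧ Lnk S S' (Set.range c) f ∧
      ∀ w, S.Valid w → (∀ i, ∃ H, S.PotOn w (Nb (c i)) H) →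
        ∃ w', S'.Valid w' ∧ (∀ d, w' (f d) = w d) ∧
          ∀ z s s' H, S'.XK K z → ¬S'.XK K (S'.α z) → S'.E z s s' → S.PotOn w (Nb s) H →
            w' z = (H s)⁻¹ * H s'

def StripSt : Prop :=
  ∃ h, ∀ (k : ℕ) (V D : Type) [Finite D] (G : SimpleGraph V) (U : Set V) (S : Sk k G U D)
    (w₀ : D → FG k) (n m : ℕ) (rad : V → ℕ) (ang : V → ZMod m) (r a b : ℕ), S.Top →
    S.Valid w₀ → Cyl G n m rad ang → 2 * (b + tw h k) ≤ m → a + tw h k < r →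
    r + a + tw h k ≤ n → S.Good (band rad r (a + tw h k)) →
    ∃ w, S.Valid w ∧ S.FreeOn w {v | v ∈ band rad r a ∧ ad (ang v) ≤ b}

/-- all curves cross the band as one bundle with word `u` -/
structure ZF {k : ℕ} {V D : Type} {G : SimpleGraph V} {U : Set V} (S : Sk k G U D)
    (w : D → FG k) {m : ℕ} (rad : V → ℕ) (ang : V → ZMod m) (r a : ℕ) (u : List (Let k))
    (pos : V → ℕ) : Prop where
  red : (FreeGroup.mk u).toWord = u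
  le : ∀ v, pos v ≤ u.length
  free : S.FreeOn w {v | v ∈ band rad r a ∧ ad (ang v) ≤ 2}
  main : S.PotOn w {v | v ∈ band rad r a ∧ 1 ≤ ad (ang v)} fun v => FreeGroup.mk (u.take (pos v))
  left : ∀ v ∈ band rad r a, ang v = 1 ∨ ang v = 2 → pos v = 0
  right : ∀ v ∈ band rad r a, ang v = -1 ∨ ang v = -2 → pos v = u.length

def ZoneSt : Prop :=
  ∃ h, ∀ (k : ℕ) (V D : Type) [Finite D] (G : SimpleGraph V) (U : Set V) (S : Sk k G U D)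
    (w₀ : D → FG k) (n m : ℕ) (rad : V → ℕ) (ang : V → ZMod m) (r a : ℕ), S.Top →
    S.Valid w₀ → Cyl G n m rad ang → tw h k ≤ m → a + tw h k < r → r + a + tw h k ≤ n →
    S.Good (band rad r (a + tw h k)) →
    ∃ w u pos, S.Valid w ∧ S.Min w ∧ u.length ≤ tw h k ∧ ZF S w rad ang r a u pos

/-- the labels between two positions -/
def btw {k : ℕ} (u : List (Let k)) (p q : ℕ) : List (Lab k) :=
  ((u.take (max p q)).drop (min p q)).map Prod.fst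

structure PosOK {k : ℕ} {V : Type} (G : SimpleGraph V) (B : Set V) (ok : Lab k → Lab k → Prop)
    (u : List (Let k)) (pos : V → ℕ) : Prop where
  edge : ∀ x ∈ B, ∀ y ∈ B, G.Adj x y → (btw u (pos x) (pos y)).Pairwise ok
  vert : ∀ x ∈ B, ∀ y ∈ B, ∀ z ∈ B, G.Adj x y → G.Adj x z → ∀ i,
    (i, false) ∈ btw u (pos y) (pos z) → (i, true) ∉ btw u (pos y) (pos z)

structure CombSt : Prop where
  posOf : ∀ {k : ℕ} {V D : Type} {G : SimpleGraph V} {U : Set V} (S : Sk k G U D)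
    (w : D → FG k) {m : ℕ} (rad : V → ℕ) (ang : V → ZMod m) (r a : ℕ) (u : List (Let k))
    (pos : V → ℕ), S.Valid w → ZF S w rad ang r a u pos →
    PosOK G {v | v ∈ band rad r a ∧ 1 ≤ ad (ang v)} S.ok u pos
  comb : ∀ {k : ℕ} {V D : Type} {G : SimpleGraph V} {U : Set V} (S : Sk k G U D)
    (w : D → FG k) (n m : ℕ) (rad : V → ℕ) (ang : V → ZMod m) (r a a₀ : ℕ) (u : List (Let k))
    (pos pos' : V → ℕ), S.Valid w → Cyl G n m rad ang → 8 ≤ m → a < r → r + a ≤ n →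
    a₀ + 2 * u.length + 6 ≤ a → S.Full (band rad r a) → ZF S w rad ang r a u pos →
    PosOK G {v | v ∈ band rad r a ∧ 1 ≤ ad (ang v)} S.ok u pos' →
    (∀ v ∈ band rad r a, ang v = -1 ∨ ang v = -2 → u.length ≤ pos' v) →
    ∃ w', S.Valid w' ∧ ZF S w' rad ang r a₀ u (fun v => min (pos v) (pos' v)) ∧
      ∀ d, S.Non d → w' d = w d

/-- bichromatic darts -/
def Sk.BK {k : ℕ} {V D : Type} {G : SimpleGraph V} {U : Set V} (S : Sk k G U D) (K : Set V) :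
    D → Prop := S.toHMap.Bi (S.XK K)

def ZSwapSt : Prop :=
  ∀ (k t l : ℕ) (I K₁ D₁ K₂ D₂ : Type) [Finite I] [Finite D₁] [Finite D₂] (P : Piece t I)
    (C₁ : Ctx t K₁) (C₂ : Ctx t K₂) (S₁ : Sk k (glue P C₁) (glueU P C₁) D₁) (w₁ : D₁ → FG k)
    (S₂ : Sk k (glue P C₂) (glueU P C₂) D₂) (w₂ : D₂ → FG k) (c : ZMod l → I) (K : Set I)
    (R : D₁ → D₂ → Prop), Frame P.G P.U c K → (∀ x ∈ K, ∀ s, ¬P.att x s) →
    Hg S₁ (Sum.inl ∘ c) (Sum.inl '' K) → Hg S₂ (Sum.inl ∘ c) (Sum.inl '' K) →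
    S₁.Valid w₁ → S₂.Valid w₂ → S₁.ok = S₂.ok →
    (∀ x y, R x y → S₁.BK (Sum.inl '' K) x ∧ S₁.vx x = none ∧ S₂.BK (Sum.inl '' K) y ∧
      S₂.vx y = none ∧ (S₁.XK (Sum.inl '' K) x ↔ S₂.XK (Sum.inl '' K) y) ∧ w₁ x = w₂ y ∧
      R (S₁.α x) (S₂.α y) ∧
      R (S₁.toHMap.nx (S₁.BK (Sum.inl '' K)) x) (S₂.toHMap.nx (S₂.BK (Sum.inl '' K)) y) ∧
      ((∃ z, S₁.BK (Sum.inl '' K) z ∧ S₁.vx z ≠ none ∧
          S₁.toHMap.Reg (S₁.BK (Sum.inl '' K)) x z) →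
        ∃ z, S₂.BK (Sum.inl '' K) z ∧ S₂.vx z ≠ none ∧
          S₂.toHMap.Reg (S₂.BK (Sum.inl '' K)) y z)) →
    (∀ x, S₁.BK (Sum.inl '' K) x → S₁.vx x = none → ∃ y, R x y) →
    (∀ y, S₂.BK (Sum.inl '' K) y → S₂.vx y = none → ∃ x, R x y) →
    (∀ x y x' y', R x y → R x' y' → (x = x' ↔ y = y') ∧
      (S₁.toHMap.Reg (S₁.BK (Sum.inl '' K)) x x' → S₂.toHMap.Reg (S₂.BK (Sum.inl '' K)) y y')) →
    (∀ x y s, S₁.XK (Sum.inl '' K) x → S₁.BK (Sum.inl '' K) x → S₂.XK (Sum.inl '' K) y →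
      S₂.BK (Sum.inl '' K) y → S₁.vx x = some (.inl s) → S₂.vx y = some (.inl s) →
      w₁ x = w₂ y) →
    (∀ x y i v, S₁.real x → S₂.real y → S₁.E x (.inl (c i)) (.inl v) →
      S₂.E y (.inl (c i)) (.inl v) → v ∈ K → w₁ x = w₂ y) →
    S₁.toHMap.inv (S₁.BK (Sum.inl '' K)) (S₁.XK (Sum.inl '' K)) ≤
      S₂.toHMap.inv (S₂.BK (Sum.inl '' K)) (S₂.XK (Sum.inl '' K)) →
    ∃ (D : Type) (_ : Finite D) (S : Sk k (glue P C₁) (glueU P C₁) D) (w : D → FG k),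
      S.Top ∧ S.Valid w ∧ ∀ Z ⊆ K, S₂.Good (Sum.inl '' Z) → S.Good (Sum.inl '' Z)

def RepSt : Prop :=
  ∃ h, ∀ (k a t n m : ℕ) (I : Type) [Finite I] (P : Piece t I) (rad : I → ℕ) (ang : I → ZMod m),
    tw h (k + a) ≤ n → tw h k ≤ m → Cyl P.G n m rad ang → (∀ v s, P.att v s → rad v = n) →
    Cn P.G Set.univ → Indep P.G P.U → Sol 0 P.G {z | z ∈ P.U ∧ rad z < n} →
    ∃ r, a < r ∧ r + a < n ∧ ∀ (K : Type) [Finite K] (C : Ctx t K),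
      PP k (glue P C) (glueU P C) →
      ∃ (D : Type) (_ : Finite D) (S : Sk k (glue P C) (glueU P C) D) (w : D → FG k),
        S.Top ∧ S.Valid w ∧ S.Good (Sum.inl '' band rad r a)

def CapInSt : Prop :=
  ∀ (k l : ℕ) (V D : Type) [Finite V] [Finite D] (G : SimpleGraph V) (U : Set V)
    (S : Sk k G U D) (w : D → FG k) (c : ZMod l → V) (K Zn : Set V), S.Top → S.Valid w →
    S.Good Zn → Cn G Zn → Frame G U c K → Cn G (K ∩ Zn) →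
    (∀ v, v ∉ K → v ∈ Zn ∧ G.neighborSet v ⊆ Zn) → S.FreeOn w (Set.range c) →
    Sol k (capG G K c) (capU U K c)

def FillSt : Prop :=
  ∀ (k l : ℕ) (V V₀ : Type) [Finite V] [Finite V₀] (G : SimpleGraph V) (U : Set V)
    (G₀ : SimpleGraph V₀) (U₀ : Set V₀) (e : V₀ → V) (c : ZMod l → V₀) (K : Set V),
    Injective e → (∀ x y, G₀.Adj x y ↔ G.Adj (e x) (e y)) → (∀ v, v ∉ K → v ∈ Set.range e) →
    Frame G U (e ∘ c) K → Frame G₀ U₀ c (e ⁻¹' K) → nb G K = e '' nb G₀ (e ⁻¹' K) →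
    Cn G₀ (e ⁻¹' K) → Cn G₀ Set.univ → Indep G₀ U₀ → Sol 0 G₀ U₀ →
    (∀ x, e x ∉ K → e x ∈ U → x ∈ U₀) →
    Sol k (capG G K (e ∘ c)) (capU U K (e ∘ c)) → Sol k G U

end Pool.Agent.Lib.MP_c1f5fe_lc
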