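import Pool.Agent.Lib.MP_c1f5fe_lc.SpecC
import Pool.Agent.Lib.Complexity.Bridge

/-! Statements of the steps, part D: the algorithm. -/

namespace Pool.Agent.Lib.MP_c1f5fe_lc

open Function
open Pool.Agent.Lib.Complexity

/-- polynomial time once a padding of size `bg h (κ a)` is given -/
def FP {A B : Type} [Enc A] [Enc B] (κ : A → ℕ) (f : A → B) : Prop :=
  ∃ (h : ℕ) (F : A × ℕ → B), PT F ∧ ∀ a p, bg h (κ a) ≤ p → F (a, p) = f a

open Classical in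
def FD {A : Type} [Enc A] (κ : A → ℕ) (p : A → Prop) : Prop := FP κ fun a => decide (p a)

open Classical in
structure KA : Prop where
  of_pt : ∀ {A B : Type} [Enc A] [Enc B] (κ : A → ℕ) {f : A → B}, PT f → FP κ f
  mono : ∀ {A B : Type} [Enc A] [Enc B] {κ κ' : A → ℕ} {f : A → B}, BB κ κ' → FP κ' f → FP κ f
  comp : ∀ {A B C : Type} [Enc A] [Enc B] [Enc C] {κ : A → ℕ} {κ' : B → ℕ} {g : B → C}
    {f : A → B}, FP κ' g → FP κ f → BB κ (fun a => κ' (f a)) → FP κ fun a => g (f a)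
  pair : ∀ {A B C : Type} [Enc A] [Enc B] [Enc C] {κ : A → ℕ} {f : A → B} {g : A → C},
    FP κ f → FP κ g → FP κ fun a => (f a, g a)
  bg : ∀ h, FP (fun n : ℕ => n) (bg h)
  tw : ∀ h, FP (fun n : ℕ => n) (tw h)
  ite : ∀ {A B : Type} [Enc A] [Enc B] {κ κ₁ κ₂ μ : A → ℕ} {c : A → Prop} {f g : A → B},
    FD κ c → FP κ₁ f → FP κ₂ g → BB κ μ → (∀ a, c a → κ₁ a ≤ μ a) → (∀ a, ¬c a → κ₂ a ≤ μ a) →
    FP κ fun a => if c a then f a else g a
  map : ∀ {A B C : Type} [Enc A] [Enc B] [Enc C] {κ μ : A → ℕ} {κ' : A × B → ℕ}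
    {l : A → List B} {g : A × B → C}, FP κ l → FP κ' g → BB κ μ →
    (∀ a, ∀ b ∈ l a, κ' (a, b) ≤ μ a) → FP κ fun a => (l a).map fun b => g (a, b)
  iter : ∀ {A S : Type} [Enc A] [Enc S] {κ μ : A → ℕ} {κ' : A × S → ℕ} {step : A × S → S}
    {init : A → S} {n bd : A → ℕ}, FP κ' step → FP κ init → FP κ n → FP κ bd → BB κ μ →
    (∀ a i, i ≤ n a → κ' (a, (fun s => step (a, s))^[i] (init a)) ≤ μ a ∧
      sz ((fun s => step (a, s))^[i] (init a)) ≤ bd a) →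
    FP κ fun a => (fun s => step (a, s))^[n a] (init a)
  enum : ∀ (B : Type) [Enc B] [Rd B], ∃ en : ℕ → List B, FP (fun n : ℕ => n) en ∧
    ∀ n b, b ∈ en n ↔ sz b ≤ n
  fd_of : ∀ {A : Type} [Enc A] {κ : A → ℕ} {p : A → Prop} {f : A → Bool}, FP κ f →
    (∀ a, p a ↔ f a = true) → FD κ p
  fd_not : ∀ {A : Type} [Enc A] {κ : A → ℕ} {p : A → Prop}, FD κ p → FD κ fun a => ¬p a
  fd_and : ∀ {A : Type} [Enc A] {κ : A → ℕ} {p q : A → Prop}, FD κ p → FD κ q →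
    FD κ fun a => p a ∧ q a
  fd_or : ∀ {A : Type} [Enc A] {κ : A → ℕ} {p q : A → Prop}, FD κ p → FD κ q →
    FD κ fun a => p a ∨ q a
  fd_imp : ∀ {A : Type} [Enc A] {κ : A → ℕ} {p q : A → Prop}, FD κ p → FD κ q →
    FD κ fun a => p a → q a
  ex_mem : ∀ {A B : Type} [Enc A] [Enc B] {κ μ : A → ℕ} {κ' : A × B → ℕ} {l : A → List B}
    {p : A × B → Prop}, FP κ l → FD κ' p → BB κ μ → (∀ a, ∀ b ∈ l a, κ' (a, b) ≤ μ a) →
    FD κ fun a => ∃ b ∈ l a, p (a, b)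
  all_mem : ∀ {A B : Type} [Enc A] [Enc B] {κ μ : A → ℕ} {κ' : A × B → ℕ} {l : A → List B}
    {p : A × B → Prop}, FP κ l → FD κ' p → BB κ μ → (∀ a, ∀ b ∈ l a, κ' (a, b) ≤ μ a) →
    FD κ fun a => ∀ b ∈ l a, p (a, b)
  ex_sz : ∀ {A B : Type} [Enc A] [Enc B] [Rd B] {κ μ f : A → ℕ} {κ' : A × B → ℕ}
    {p : A × B → Prop}, FP κ f → BB κ f → FD κ' p → BB κ μ →
    (∀ a b, sz b ≤ f a → κ' (a, b) ≤ μ a) → FD κ fun a => ∃ b, sz b ≤ f a ∧ p (a, b)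
  all_sz : ∀ {A B : Type} [Enc A] [Enc B] [Rd B] {κ μ f : A → ℕ} {κ' : A × B → ℕ}
    {p : A × B → Prop}, FP κ f → BB κ f → FD κ' p → BB κ μ →
    (∀ a b, sz b ≤ f a → κ' (a, b) ≤ μ a) → FD κ fun a => ∀ b, sz b ≤ f a → p (a, b)
  find : ∀ {A B : Type} [Enc A] [Enc B] {κ μ : A → ℕ} {κ' : A × B → ℕ} {l : A → List B}
    {p : A × B → Prop}, FP κ l → FD κ' p → BB κ μ → (∀ a, ∀ b ∈ l a, κ' (a, b) ≤ μ a) →
    FP κ fun a => (l a).find? fun b => decide (p (a, b))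
  filter : ∀ {A B : Type} [Enc A] [Enc B] {κ μ : A → ℕ} {κ' : A × B → ℕ} {l : A → List B}
    {p : A × B → Prop}, FP κ l → FD κ' p → BB κ μ → (∀ a, ∀ b ∈ l a, κ' (a, b) ≤ μ a) →
    FP κ fun a => (l a).filter fun b => decide (p (a, b))

/-- the parameter of an input -/
def par (l : List Bool) : ℕ := (l.takeWhile id).length

open Classical in
def FinalSt : Prop :=
  ∀ dec : List Bool → Bool, FP par dec →
    (∀ (k n : ℕ) (G : SimpleGraph (Fin n)), dec (code k n G) = decide (bc G ≤ k)) → FPT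

/-- number of vertices, edges, caps -/
abbrev Ins : Type := ℕ × List (ℕ × ℕ) × List ℕ

def gOf (x : Ins) : SimpleGraph (Fin x.1) :=
  SimpleGraph.fromRel fun u v => (u.val, v.val) ∈ x.2.1

def uOf (x : Ins) : Set (Fin x.1) := {v | v.val ∈ x.2.2}

def PPI (k : ℕ) (x : Ins) : Prop := PP k (gOf x) (uOf x)

/-- an instance and its attachments -/
abbrev PIns : Type := Ins × List (ℕ × ℕ)

def pOf (t : ℕ) (y : PIns) : Piece t (Fin y.1.1) where
  G := gOf y.1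
  att v s := (v.val, s.val) ∈ y.2
  U := uOf y.1

def setOf' (x : Ins) (l : List ℕ) : Set (Fin x.1) := {v | v.val ∈ l}

def DecSt : Prop := FD (fun a : ℕ × Ins => a.1 + a.2.1) fun a => PPI a.1 a.2

def FindSt : Prop :=
  ∃ find : ℕ × ℕ × PIns → Option PIns, FP (fun a => a.1 + a.2.1 + a.2.2.1.1) find ∧
    ∀ k t y, (∀ y', find (k, t, y) = some y' →
      y'.1.1 < y.1.1 ∧ Equi k (pOf t y) (pOf t y')) ∧ (find (k, t, y) = none → ¬Red k (pOf t y))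

def CandSt : Prop :=
  ∃ cand : ℕ × Ins → List (List ℕ), FP (fun a => a.1) cand ∧
    ∀ s x, (∀ l ∈ cand (s, x), l.Nodup ∧ (∀ v ∈ l, v < x.1) ∧ l.length ≤ s * s + s ∧
        (nb (gOf x) (setOf' x l)).ncard ≤ s) ∧
      ∀ k, OutA k (gOf x) (uOf x) ∅ s ∨ OutB k (gOf x) (uOf x) ∅ s →
        ∃ l ∈ cand (s, x), RedIn k (gOf x) (uOf x) (setOf' x l)

/-- one round: a smaller equivalent instance, or none is found -/
def StepSt : Prop :=
  ∃ step : ℕ × Ins × List ℕ → Option Ins,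
    FP (fun a => a.1 + a.2.2.length + (nb (gOf a.2.1) (setOf' a.2.1 a.2.2)).ncard) step ∧
    ∀ k x l, l.Nodup → (∀ v ∈ l, v < x.1) →
      (∀ x', step (k, x, l) = some x' → x'.1 < x.1 ∧ sz x' ≤ 8 * (x.1 + 1) ^ 3 ∧
        (PPI k x ↔ PPI k x')) ∧
      (step (k, x, l) = none → ¬RedIn k (gOf x) (uOf x) (setOf' x l))

def LoopSt : Prop := FD (fun a : ℕ × Ins => a.1) fun a => PPI a.1 a.2

open Classical in
def TopSt : Prop :=
  ∃ dec : List Bool → Bool, FP par dec ∧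
    ∀ (k n : ℕ) (G : SimpleGraph (Fin n)), dec (code k n G) = decide (PP k (G.induce (npl G)) ∅)

end Pool.Agent.Lib.MP_c1f5fe_lc
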