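import Pool.Agent.Lib.MP_c1f5fe_lc.Sel

/-! The cut map: segments, curves. -/

namespace Pool.Agent.Lib.MP_c1f5fe_lc.TB1

open Equiv Function Relation Sel

instance finSeg {k : ℕ} {D : Type} [Finite D] (w : D → FG k) : Finite (Seg w) :=
  Finite.of_injective
    (fun x : Seg w => (⟨x.1.1, ⟨x.1.2, Nat.lt_succ_of_le x.2⟩⟩ : Σ d, Fin ((w d).norm + 1)))
    (by
      rintro ⟨⟨d, j⟩, h⟩ ⟨⟨e, l⟩, h'⟩ E
      simp only [Sigma.mk.injEq] at E
      obtain ⟨rfl, E⟩ := E
      simpa using E)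

section nxt
variable {X : Type} {π : Perm X} {Q : X → Prop} {x y : X}

theorem nxt_q (h : Nxt π Q x y) : Q y := by
  obtain ⟨_, _, _, h, _⟩ := h; exact h

theorem nxt_sc (h : Nxt π Q x y) : π.SameCycle x y := by
  obtain ⟨n, _, rfl, _, _⟩ := h
  exact ⟨n, by simp⟩

theorem nxt_one (h : Q (π x)) : Nxt π Q x (π x) :=
  ⟨1, one_pos, by simp, h, fun m a b => by omega⟩

theorem nxt_step (h : ¬Q (π x)) : Nxt π Q x y ↔ Nxt π Q (π x) y := by
  constructor
  · rintro ⟨n, n0, e, q, hn⟩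
    obtain ⟨m, rfl⟩ : ∃ m, n = m + 1 := ⟨n - 1, by omega⟩
    rw [pow_succ, Perm.mul_apply] at e
    refine ⟨m, ?_, e, q, fun l l0 ll => ?_⟩
    · rcases Nat.eq_zero_or_pos m with rfl | m0
      · simp at e; exact absurd (e ▸ q) h
      · exact m0
    · have := hn (l + 1) (by omega) (by omega)
      rwa [pow_succ, Perm.mul_apply] at this
  · rintro ⟨n, n0, e, q, hn⟩
    refine ⟨n + 1, by omega, by rwa [pow_succ, Perm.mul_apply], q, fun l l0 ll => ?_⟩
    obtain ⟨m, rfl⟩ : ∃ m, l = m + 1 := ⟨l - 1, by omega⟩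
    rw [pow_succ, Perm.mul_apply]
    rcases Nat.eq_zero_or_pos m with rfl | m0
    · simpa using h
    · exact hn m m0 (by omega)

theorem nxt_ind {C : X → Prop} (h : Nxt π Q x y) (b : ∀ x, π x = y → C x)
    (s : ∀ x, ¬Q (π x) → Nxt π Q (π x) y → C (π x) → C x) : C x := by
  obtain ⟨n, n0, e, q, hn⟩ := h
  induction n generalizing x with
  | zero => omega
  | succ m ih =>
    rcases Nat.eq_zero_or_pos m with rfl | m0
    · exact b x (by simpa using e)
    · have nq : ¬Q (π x) := by simpa using hn 1 one_pos (by omega)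
      have h2 : ∀ l : ℕ, 0 < l → l < m → ¬Q ((π ^ l) (π x)) := fun l l0 ll => by
        have := hn (l + 1) (by omega) (by omega)
        rwa [pow_succ, Perm.mul_apply] at this
      rw [pow_succ, Perm.mul_apply] at e
      exact s x nq ⟨m, m0, e, q, h2⟩ (ih m0 e h2)

theorem nxt_self [Finite X] (h : Nxt π Q x x) (s : π.SameCycle x y) (q : Q y) : y = x := by
  obtain ⟨n, n0, e, -, hn⟩ := h
  obtain ⟨m, -, rfl⟩ := s.exists_pow_eq'
  clear s
  induction m using Nat.strong_induction_on with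
  | _ m ih =>
    rcases Nat.eq_zero_or_pos m with rfl | m0
    · simp
    by_cases l : m < n
    · exact absurd q (hn m m0 l)
    · have : (π ^ m) x = (π ^ (m - n)) x := by
        conv_lhs => rw [show m = m - n + n by omega, pow_add, Perm.mul_apply, e]
      rw [this] at q ⊢
      exact ih _ (by omega) q

end nxt

theorem nxt_reg {X : Type} (M : HMap X) {Q : X → Prop} {x y : X} (h : Nxt M.σ Q (M.α x) y) :
    M.Reg Q x y := by
  have key : M.Reg Q (M.σ (M.α x)) y := by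
    refine nxt_ind (C := fun z => M.Reg Q (M.σ z) y) h (fun z e => e ▸ EqvGen.refl _) ?_
    intro z nq _ ih
    refine EqvGen.trans _ _ _ (EqvGen.trans _ _ _ (EqvGen.rel _ _ (Or.inr ⟨nq, rfl⟩))
      (EqvGen.rel _ _ (Or.inl rfl))) ih
  rw [M.σ_apply, M.αα] at key
  exact EqvGen.trans _ _ _ (EqvGen.rel _ _ (Or.inl rfl)) key

variable {k : ℕ} {V D : Type} [Finite D] {G : SimpleGraph V} {U : Set V} {S : Sk k G U D}
  {w : D → FG k} {H : HMap (Seg w)} {fs μ : Perm (Seg w)}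

/-- the segment ends at a letter -/
def Lt (x : Seg w) : Prop := x.1.2 < (w x.1.1).norm

def sg0 (w : D → FG k) (d : D) : Seg w := ⟨(d, 0), Nat.zero_le _⟩

def sgn (w : D → FG k) (d : D) : Seg w := ⟨(d, (w d).norm), le_rfl⟩

omit [Finite D] in
theorem eq_sg0 {x : Seg w} (h : x.1.2 = 0) : x = sg0 w x.1.1 :=
  Subtype.ext (Prod.ext rfl h)

omit [Finite D] in
theorem nlt {x : Seg w} (h : ¬Lt x) : x.1.2 = (w x.1.1).norm := le_antisymm x.2 (not_lt.1 h)

omit [Finite D] in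
theorem slet_lt {x : Seg w} : Lt x ↔ slet x ≠ none := by
  simp [Lt, slet, FreeGroup.norm]

section
variable (C : Cut S w H fs μ) (hw : S.Pre w)
include C

omit [Finite D] in
theorem φ_app (x : Seg w) : H.φ x = fs (μ x) := by rw [C.φ_eq]; rfl

omit [Finite D] in
theorem lt_of_fs {y : Seg w} (h : 1 ≤ (fs y).1.2) : Lt y := by
  by_contra n
  rw [C.fs_eq y (nlt n)] at h
  simp at h

omit [Finite D] in
theorem φ_sgn (d : D) : H.φ (sgn w d) = sg0 w (S.φ d) := by
  rw [φ_app C, C.μ_eq _ rfl]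
  exact Subtype.ext (C.fs_eq _ rfl)

omit [Finite D] in
theorem α_sgn (d : D) : H.α (sgn w d) = sg0 w (S.α d) :=
  Subtype.ext (by rw [C.α_eq]; simp [sgn, sg0])

omit [Finite D] in
theorem α_sg0 (d : D) : H.α (sg0 w d) = sgn w (S.α d) := by
  have := α_sgn C (S.α d)
  rw [S.αα] at this
  rw [← this, H.αα]

omit [Finite D] in
theorem σ_sg0 (d : D) : H.σ (sg0 w d) = sg0 w (S.toHMap.σ d) := by
  rw [H.σ_apply, α_sg0 C, φ_sgn C]; rfl

omit [Finite D] in
theorem pow_sg0 (d : D) (m : ℕ) : (H.σ ^ m) (sg0 w d) = sg0 w ((S.toHMap.σ ^ m) d) := by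
  induction m with
  | zero => rfl
  | succ m ih => rw [pow_succ', pow_succ', Perm.mul_apply, Perm.mul_apply, ih, σ_sg0 C]

theorem sc_sg0 {d : D} {y : Seg w} (h : H.σ.SameCycle (sg0 w d) y) :
    ∃ e, y = sg0 w e ∧ S.toHMap.σ.SameCycle d e := by
  obtain ⟨m, -, rfl⟩ := h.exists_pow_eq'
  exact ⟨_, pow_sg0 C d m, m, by simp⟩

theorem sc_sg0' {d e : D} (h : S.toHMap.σ.SameCycle d e) : H.σ.SameCycle (sg0 w d) (sg0 w e) := by
  obtain ⟨m, -, rfl⟩ := h.exists_pow_eq'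
  exact ⟨m, by simpa using pow_sg0 C d m⟩

theorem sc_pos {x y : Seg w} (h : H.σ.SameCycle x y) (p : 1 ≤ x.1.2) : 1 ≤ y.1.2 := by
  by_contra n
  rw [eq_sg0 (x := y) (by omega)] at h
  obtain ⟨e, rfl, -⟩ := sc_sg0 C h.symm
  simp [sg0] at p

theorem node_sc {x : Seg w} (p : 1 ≤ x.1.2) :
    ∃ i, ∃ x₀ : Seg w, x₀.1 = (S.term i, 1) ∧ H.σ.SameCycle x₀ x := by
  have hl : x.1.2 - 1 < (labs (w x.1.1)).length := by
    have := x.2
    simp only [labs, List.length_map]
    unfold FreeGroup.norm at this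
    omega
  obtain ⟨⟨i, b⟩, e⟩ : ∃ l, slab w x.1 = some l := ⟨_, List.getElem?_eq_getElem hl⟩
  obtain ⟨x₀, A, B, n, h0, -, -, -, -, -, hm⟩ := C.node i
  obtain ⟨m, -, e⟩ := List.mem_iterate.1 (hm x b p e)
  exact ⟨i, x₀, h0, m, by rw [e, zpow_natCast, Perm.coe_pow]⟩

omit [Finite D] in
theorem mu_lt {x : Seg w} (t : ¬S.IsT x.1.1) (l : Lt x) : Lt (μ x) := by
  rw [slet_lt] at l ⊢
  rw [(C.μ_n x t).2.2]
  simpa using l

omit [Finite D] in
theorem mu_nt {x : Seg w} (t : ¬S.IsT x.1.1) : ¬S.IsT (μ x).1.1 := by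
  rintro ⟨i, h⟩
  exact t ⟨i, h.trans (C.μ_n x t).1.symm⟩

include hw

omit [Finite D] in
theorem io_val {x : Seg w} (l : Lt x) :
    (H.α (fs x)).1 = (S.α x.1.1, (w x.1.1).norm - 1 - x.1.2) := by
  rw [C.α_eq, C.fs_lt x l]
  simp only [Prod.mk.injEq, true_and]
  omega

omit [Finite D] in
theorem io_lt {x : Seg w} (l : Lt x) : Lt (H.α (fs x)) := by
  unfold Lt at *
  rw [io_val C hw l]
  simp only [norm_α hw]
  omega

omit [Finite D] in
theorem fs_io {x : Seg w} (l : Lt x) : fs (H.α (fs x)) = H.α x := by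
  apply Subtype.ext
  rw [C.fs_lt _ (io_lt C hw l), io_val C hw l, C.α_eq]
  unfold Lt at l
  simp only [Prod.mk.injEq, true_and]
  omega

omit [Finite D] in
theorem slet_io {x : Seg w} (l : Lt x) : slet (H.α (fs x)) = (slet x).map linv := by
  unfold slet
  rw [io_val C hw l]
  simp only [word_α hw]
  exact invRev_get _ l

end

/-- the curve through the letter of `x` arrives at the letter of `y` -/
def Ar (H : HMap (Seg w)) (fs : Perm (Seg w)) (QD : D → Prop) (x y : Seg w) : Prop :=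
  Nxt H.σ (fun z => QD z.1.1) (H.α x) (fs y)

section
variable (C : Cut S w H fs μ) (hw : S.Pre w) {QD : D → Prop} (qa : ∀ d, QD d → QD (S.α d))
  (qt : ∀ d, S.IsT d → QD d)

omit [Finite D] in
theorem Ar.unique {x y y' : Seg w} (h : Ar H fs QD x y) (h' : Ar H fs QD x y') : y = y' :=
  fs.injective (Nxt.unique h h')

omit [Finite D] in
theorem Ar.reg {x y : Seg w} (h : Ar H fs QD x y) : H.Reg (fun z => QD z.1.1) x (fs y) :=
  nxt_reg H h

include C qt in
theorem ar_ex {x : Seg w} (l : Lt x) : ∃ y, Ar H fs QD x y := by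
  have p : 1 ≤ (H.α x).1.2 := by
    rw [C.α_eq]; unfold Lt at l; simp only; omega
  obtain ⟨i, x₀, e, s⟩ := node_sc C p
  obtain ⟨z, hz⟩ := exists_nxt (Q := fun z : Seg w => QD z.1.1) s.symm
    (by rw [e]; exact qt _ ⟨i, Perm.SameCycle.refl _ _⟩)
  exact ⟨fs.symm z, by unfold Ar; rwa [Equiv.apply_symm_apply]⟩

include C in
theorem Ar.lt {x y : Seg w} (l : Lt x) (h : Ar H fs QD x y) :
    Lt y ∧ QD y.1.1 ∧ (fs y).1 = (y.1.1, y.1.2 + 1) := by
  have p : 1 ≤ (H.α x).1.2 := by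
    rw [C.α_eq]; unfold Lt at l; simp only; omega
  have l' := lt_of_fs C (sc_pos C (nxt_sc h) p)
  have := nxt_q h
  simp only [C.fs_lt y l'] at this
  exact ⟨l', this, C.fs_lt y l'⟩

omit [Finite D] in
include C in
theorem ar_one {x : Seg w} (t : ¬S.IsT x.1.1) (l : Lt x) (q : QD (μ x).1.1) :
    Ar H fs QD x (μ x) := by
  have e : H.σ (H.α x) = fs (μ x) := by rw [H.σ_apply, H.αα, φ_app C]
  unfold Ar
  rw [← e]
  apply nxt_one
  rw [e, C.fs_lt _ (mu_lt C t l)]
  exact q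

omit [Finite D] in
include C in
theorem ar_step {x y : Seg w} (t : ¬S.IsT x.1.1) (l : Lt x) (q : ¬QD (μ x).1.1) :
    Ar H fs QD x y ↔ Ar H fs QD (H.α (fs (μ x))) y := by
  have e : H.σ (H.α x) = fs (μ x) := by rw [H.σ_apply, H.αα, φ_app C]
  unfold Ar
  rw [H.αα, ← e]
  apply nxt_step
  rw [e, C.fs_lt _ (mu_lt C t l)]
  exact q

include C hw qa qt in
theorem Ar.back {x y : Seg w} (t : ¬S.IsT x.1.1) (l : Lt x) (h : Ar H fs QD x y) :
    ¬S.IsT y.1.1 ∧ slet y = (slet x).map linv ∧ (QD x.1.1 → Ar H fs QD y x) ∧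
      ∀ z, ¬QD x.1.1 → Ar H fs QD (H.α (fs x)) z → Ar H fs QD y z := by
  have key : ∀ u : Seg w, Nxt H.σ (fun z => QD z.1.1) u (fs y) → ¬S.IsT (H.α u).1.1 →
      Lt (H.α u) → ¬S.IsT y.1.1 ∧ slet y = (slet (H.α u)).map linv ∧
      (QD (H.α u).1.1 → Ar H fs QD y (H.α u)) ∧
      ∀ z, ¬QD (H.α u).1.1 → Ar H fs QD (H.α (fs (H.α u))) z → Ar H fs QD y z := by
    intro u hu
    refine nxt_ind (C := fun u => ¬S.IsT (H.α u).1.1 →
      Lt (H.α u) → ¬S.IsT y.1.1 ∧ slet y = (slet (H.α u)).map linv ∧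
      (QD (H.α u).1.1 → Ar H fs QD y (H.α u)) ∧
      ∀ z, ¬QD (H.α u).1.1 → Ar H fs QD (H.α (fs (H.α u))) z → Ar H fs QD y z) hu ?_ ?_
    · intro u e t l
      rw [H.σ_apply, φ_app C] at e
      generalize H.α u = x at *
      obtain rfl := fs.injective e
      have mm := (C.μ_n x t).2.1
      refine ⟨mu_nt C t, (C.μ_n x t).2.2, fun q => ?_, fun z q hz => ?_⟩
      · have := ar_one (QD := QD) C (mu_nt C t) (mu_lt C t l) (by rwa [mm])
        rwa [mm] at this
      · rw [ar_step C (mu_nt C t) (mu_lt C t l) (by rwa [mm]), mm]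
        exact hz
    · intro u nq _ ih t l
      rw [H.σ_apply, φ_app C] at nq ih
      generalize H.α u = x at *
      have mm := (C.μ_n x t).2.1
      have ml := mu_lt C t l
      have mt := mu_nt C t
      rw [C.fs_lt _ ml] at nq
      have nq' : ¬QD (H.α (fs (μ x))).1.1 := by
        rw [io_val C hw ml]
        intro q
        have := qa _ q
        rw [S.αα] at this
        exact nq this
      obtain ⟨a, b, -, c⟩ := ih (fun t => nq' (qt _ t)) (io_lt C hw ml)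
      rw [fs_io C hw ml, H.αα] at c
      refine ⟨a, ?_, fun q => c _ nq' ?_, fun z q hz => c _ nq' ?_⟩
      · rw [b, slet_io C hw ml, map_linv_linv, (C.μ_n x t).2.2]
      · have := ar_one (QD := QD) C mt ml (by rwa [mm])
        rwa [mm] at this
      · rw [ar_step C mt ml (by rwa [mm]), mm]
        exact hz
  have := key (H.α x) h
  rw [H.αα] at this
  exact this t l

end

end Pool.Agent.Lib.MP_c1f5fe_lc.TB1
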