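import Pool.Agent.Lib.MP_c1f5fe_lc.TB1a

/-! Points and gaps on the two sides of a path. -/

namespace Pool.Agent.Lib.MP_c1f5fe_lc.TB1

open Equiv Function Relation Sel

section off
variable {k : ℕ} {D : Type} (w : D → FG k) (dd : ℕ → D)

theorem pw_succ (i : ℕ) : pw w dd (i + 1) = pw w dd i ++ (w (dd i)).toWord := by
  simp [pw, List.range_succ]

theorem off_zero : off w dd 0 = 0 := by simp [off, pw]

theorem off_succ (i : ℕ) : off w dd (i + 1) = off w dd i + (w (dd i)).norm := by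
  simp [off, pw_succ, FreeGroup.norm]

theorem off_mono {i j : ℕ} (h : i ≤ j) : off w dd i ≤ off w dd j := by
  induction h with
  | refl => exact le_rfl
  | step _ ih => rw [off_succ]; omega

theorem pw_get {r i j : ℕ} (hi : i < r) (hj : j < (w (dd i)).norm) :
    (pw w dd r)[off w dd i + j]? = (w (dd i)).toWord[j]? := by
  induction r with
  | zero => omega
  | succ r ih =>
    rw [pw_succ]
    rcases Nat.lt_succ_iff_lt_or_eq.1 hi with l | rfl
    · have h1 := off_mono w dd (show i + 1 ≤ r from l)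
      rw [off_succ] at h1
      rw [List.getElem?_append_left (by unfold off at *; omega), ih l]
    · rw [List.getElem?_append_right (by unfold off; omega)]
      simp [off]

theorem off_ex {r s : ℕ} (h : s < off w dd r) :
    ∃ i < r, ∃ j < (w (dd i)).norm, s = off w dd i + j := by
  induction r with
  | zero => rw [off_zero] at h; omega
  | succ r ih =>
    rw [off_succ] at h
    by_cases l : s < off w dd r
    · obtain ⟨i, hi, e⟩ := ih l
      exact ⟨i, by omega, e⟩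
    · exact ⟨r, by omega, s - off w dd r, by omega, by omega⟩

theorem off_uniq {i i' j j' : ℕ} (hj : j < (w (dd i)).norm) (hj' : j' < (w (dd i')).norm)
    (e : off w dd i + j = off w dd i' + j') : i = i' := by
  rcases lt_trichotomy i i' with l | l | l
  · have h1 := off_mono w dd (show i + 1 ≤ i' from l)
    rw [off_succ] at h1
    omega
  · exact l
  · have h1 := off_mono w dd (show i' + 1 ≤ i from l)
    rw [off_succ] at h1
    omega

end off

variable {k : ℕ} {V D : Type} {G : SimpleGraph V} {U : Set V}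

section defs
variable (S : Sk k G U D) (w : D → FG k) (dd : ℕ → D) (r : ℕ)

def QD (d : D) : Prop := OnP S.toHMap dd r d ∨ S.IsT d ∨ S.IsT (S.α d)

def Inn (d : D) : Prop := ∃ i, i + 1 < r ∧ S.toHMap.σ.SameCycle (dd (i + 1)) d

def BD (x : Seg w) : Prop := 1 ≤ x.1.2 ∨ ¬Inn S dd r x.1.1

def Pt (p : Bool × ℕ) (x : Seg w) : Prop :=
  ∃ i < r, ∃ j < (w (dd i)).norm, p.2 = off w dd i + j ∧
    x.1 = if p.1 then (dd i, j) else (S.α (dd i), (w (dd i)).norm - 1 - j)

def Gp (b : Bool) (s : ℕ) (x : Seg w) : Prop :=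
  ∃ i < r, ∃ j ≤ (w (dd i)).norm, s = off w dd i + j ∧
    x.1 = if b then (dd i, j) else (S.α (dd i), (w (dd i)).norm - j)

end defs

variable {S : Sk k G U D} {w : D → FG k} {dd : ℕ → D} {r : ℕ} {H : HMap (Seg w)}
  {fs μ : Perm (Seg w)}

theorem onp_α {d : D} (h : OnP S.toHMap dd r d) : OnP S.toHMap dd r (S.α d) := by
  obtain ⟨i, hi, e | e⟩ := h
  · exact ⟨i, hi, Or.inr (by rw [e])⟩
  · exact ⟨i, hi, Or.inl (by rw [e, S.αα])⟩

theorem qd_α (d : D) (h : QD S dd r d) : QD S dd r (S.α d) := by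
  rcases h with h | h | h
  · exact Or.inl (onp_α h)
  · exact Or.inr (Or.inr (by rwa [S.αα]))
  · exact Or.inr (Or.inl h)

theorem qd_t (d : D) (h : S.IsT d) : QD S dd r d := Or.inr (Or.inl h)

theorem onp_nt (sp : SPath S dd r) {d : D} (h : OnP S.toHMap dd r d) :
    ¬S.IsT d ∧ ¬S.IsT (S.α d) := by
  obtain ⟨i, hi, rfl | rfl⟩ := h
  · exact sp.nt i hi
  · rw [S.αα]; exact (sp.nt i hi).symm

theorem pt_ex (hw : S.Pre w) {p : Bool × ℕ} (h : p.2 < (pw w dd r).length) :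
    ∃ x, Pt S w dd r p x := by
  obtain ⟨i, hi, j, hj, e⟩ := off_ex w dd (r := r) h
  obtain ⟨b, s⟩ := p
  cases b
  · exact ⟨⟨(S.α (dd i), (w (dd i)).norm - 1 - j), by simp only [norm_α hw]; omega⟩,
      i, hi, j, hj, e, rfl⟩
  · exact ⟨⟨(dd i, j), hj.le⟩, i, hi, j, hj, e, rfl⟩

theorem Pt.lt {p : Bool × ℕ} {x : Seg w} (h : Pt S w dd r p x) : p.2 < (pw w dd r).length := by
  obtain ⟨i, hi, j, hj, e, -⟩ := h
  have h1 := off_mono w dd (show i + 1 ≤ r from hi)
  rw [off_succ] at h1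
  unfold off at *
  omega

theorem Pt.onp {p : Bool × ℕ} {x : Seg w} (h : Pt S w dd r p x) : OnP S.toHMap dd r x.1.1 := by
  obtain ⟨i, hi, j, hj, -, e⟩ := h
  refine ⟨i, hi, ?_⟩
  rw [e]
  cases p.1 <;> simp

theorem Pt.isLt (hw : S.Pre w) {p : Bool × ℕ} {x : Seg w} (h : Pt S w dd r p x) : Lt x := by
  obtain ⟨i, hi, j, hj, -, e⟩ := h
  unfold Lt
  rw [e]
  cases p.1
  · simp [norm_α hw]; omega
  · simpa using hj

theorem Pt.slet (hw : S.Pre w) {p : Bool × ℕ} {x : Seg w} (h : Pt S w dd r p x) :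
    slet x = ptl (pw w dd r) p := by
  obtain ⟨i, hi, j, hj, e', e⟩ := h
  unfold MP_c1f5fe_lc.slet ptl
  rw [e, e', pw_get w dd hi hj]
  cases p.1
  · simp only [Bool.false_eq_true, if_false, word_α hw]
    exact invRev_get _ hj
  · simp

theorem Pt.uniq {p : Bool × ℕ} {x y : Seg w} (h : Pt S w dd r p x) (h' : Pt S w dd r p y) :
    x = y := by
  obtain ⟨i, hi, j, hj, e, e1⟩ := h
  obtain ⟨i', hi', j', hj', e', e2⟩ := h'
  obtain rfl := off_uniq w dd hj hj' (e.symm.trans e')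
  obtain rfl : j = j' := by omega
  exact Subtype.ext (e1.trans e2.symm)

theorem Pt.uniq' (sp : SPath S dd r) {p q : Bool × ℕ} {x : Seg w} (h : Pt S w dd r p x)
    (h' : Pt S w dd r q x) : p = q := by
  obtain ⟨i, hi, j, hj, e, e1⟩ := h
  obtain ⟨i', hi', j', hj', e', e2⟩ := h'
  obtain ⟨b, s⟩ := p
  obtain ⟨b', s'⟩ := q
  rw [e1] at e2
  cases b <;> cases b' <;> simp only [Bool.false_eq_true, if_false, if_true, Prod.mk.injEq] at *
  · obtain rfl := (sp.inj i hi i' hi').1 (S.α.injective e2.1)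
    exact ⟨trivial, by omega⟩
  · exact absurd e2.1.symm (sp.inj i' hi' i hi).2
  · exact absurd e2.1 (sp.inj i hi i' hi').2
  · obtain rfl := (sp.inj i hi i' hi').1 e2.1
    exact ⟨trivial, by omega⟩

theorem pt_of (hw : S.Pre w) {x : Seg w} (h : OnP S.toHMap dd r x.1.1) (l : Lt x) :
    ∃ p, Pt S w dd r p x := by
  obtain ⟨⟨d, j⟩, hx⟩ := x
  obtain ⟨i, hi, rfl | rfl⟩ := h
  · exact ⟨(true, off w dd i + j), i, hi, j, l, rfl, rfl⟩
  · have l' : j < (w (dd i)).norm := by simpa [Lt, norm_α hw] using l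
    refine ⟨(false, off w dd i + ((w (dd i)).norm - 1 - j)), i, hi, _, by omega, rfl, ?_⟩
    simp only [Bool.false_eq_true, if_false, Prod.mk.injEq, true_and]
    omega

theorem Pt.gp {p : Bool × ℕ} {x : Seg w} (h : Pt S w dd r p x) :
    Gp S w dd r p.1 (if p.1 then p.2 else p.2 + 1) x := by
  obtain ⟨i, hi, j, hj, e, e1⟩ := h
  obtain ⟨b, s⟩ := p
  cases b
  · refine ⟨i, hi, j + 1, hj, by simp only [Bool.false_eq_true, if_false, if_true] at e ⊢; omega, ?_⟩
    rw [e1]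
    simp only [Bool.false_eq_true, if_false, Prod.mk.injEq, true_and]
    omega
  · exact ⟨i, hi, j, hj.le, e, e1⟩

theorem Pt.gp' (C : Cut S w H fs μ) (hw : S.Pre w) {p : Bool × ℕ} {x : Seg w}
    (h : Pt S w dd r p x) : Gp S w dd r p.1 (if p.1 then p.2 + 1 else p.2) (fs x) := by
  have l := C.fs_lt x (h.isLt hw)
  obtain ⟨i, hi, j, hj, e, e1⟩ := h
  obtain ⟨b, s⟩ := p
  cases b
  · refine ⟨i, hi, j, hj.le, e, ?_⟩
    rw [l, e1]
    simp only [Bool.false_eq_true, if_false, Prod.mk.injEq, true_and]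
    omega
  · refine ⟨i, hi, j + 1, hj, by simp only [Bool.false_eq_true, if_false, if_true] at e ⊢; omega, ?_⟩
    rw [l, e1]
    rfl

theorem Pt.io (C : Cut S w H fs μ) (hw : S.Pre w) {s : ℕ} {x : Seg w}
    (h : Pt S w dd r (true, s) x) : Pt S w dd r (false, s) (H.α (fs x)) := by
  have l := io_val C hw (h.isLt hw)
  obtain ⟨i, hi, j, hj, e, e1⟩ := h
  refine ⟨i, hi, j, hj, e, ?_⟩
  rw [l, e1]
  rfl

variable [Finite D]

theorem inner_nxt (C : Cut S w H fs μ) (sp : SPath S dd r) {i : ℕ} (hi : i + 1 < r) {a b : D}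
    (h : (a = dd (i + 1) ∧ b = S.α (dd i)) ∨ (b = dd (i + 1) ∧ a = S.α (dd i))) :
    Nxt H.σ (fun z => QD S dd r z.1.1) (sg0 w a) (sg0 w b) := by
  have l := sp.link i hi
  have sa : S.toHMap.σ.SameCycle (dd (i + 1)) a := by
    rcases h with ⟨rfl, -⟩ | ⟨-, rfl⟩
    exacts [Perm.SameCycle.refl _ _, l.symm]
  have sb : S.toHMap.σ.SameCycle (dd (i + 1)) b := by
    rcases h with ⟨-, rfl⟩ | ⟨rfl, -⟩
    exacts [l.symm, Perm.SameCycle.refl _ _]
  have qb : QD S dd r b := by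
    rcases h with ⟨-, rfl⟩ | ⟨rfl, -⟩
    exacts [Or.inl ⟨i, by omega, Or.inr rfl⟩, Or.inl ⟨i + 1, hi, Or.inl rfl⟩]
  have ne : b ≠ a := by
    have := (sp.inj (i + 1) hi i (by omega)).2
    rcases h with ⟨rfl, rfl⟩ | ⟨rfl, rfl⟩
    exacts [this.symm, this]
  have sab := sc_sg0' C (sa.symm.trans sb)
  obtain ⟨z, hz⟩ := exists_nxt (Q := fun z : Seg w => QD S dd r z.1.1) sab qb
  obtain ⟨e, rfl, se⟩ := sc_sg0 C (nxt_sc hz)
  have se' := sa.trans se
  obtain ⟨i1, i2⟩ := sp.inner i hi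
  have : e = a ∨ e = b := by
    rcases nxt_q hz with q | q | q
    · have := i2 e q se'
      rcases h with ⟨rfl, rfl⟩ | ⟨rfl, rfl⟩
      exacts [this, this.symm]
    · exact absurd q (i1 e se')
    · exact absurd ((S.isT_φ _).2 q) (i1 (S.toHMap.σ e) (by simpa using se'))
  rcases this with rfl | rfl
  · exact absurd (congrArg (fun x : Seg w => x.1.1) (nxt_self hz sab qb)) ne
  · exact hz

theorem nxt_top (C : Cut S w H fs μ) (sp : SPath S dd r) {i : ℕ} (hi : i + 1 < r) :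
    Nxt H.σ (fun z => QD S dd r z.1.1) (H.α (sgn w (dd i))) (sg0 w (dd (i + 1))) := by
  rw [α_sgn C]; exact inner_nxt C sp hi (Or.inr ⟨rfl, rfl⟩)

theorem nxt_bot (C : Cut S w H fs μ) (sp : SPath S dd r) {i : ℕ} (hi : i + 1 < r) :
    Nxt H.σ (fun z => QD S dd r z.1.1) (H.α (sgn w (S.α (dd (i + 1))))) (sg0 w (S.α (dd i))) := by
  rw [α_sgn C, S.αα]; exact inner_nxt C sp hi (Or.inl ⟨rfl, rfl⟩)

theorem gp_reg (C : Cut S w H fs μ) (hw : S.Pre w) (sp : SPath S dd r) {b : Bool} {s : ℕ}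
    {x y : Seg w} (h : Gp S w dd r b s x) (h' : Gp S w dd r b s y) :
    H.Reg (fun z => QD S dd r z.1.1) x y := by
  have key : ∀ m i j j' (x y : Seg w), i + m < r → j ≤ (w (dd i)).norm →
      j' ≤ (w (dd (i + m))).norm → off w dd i + j = off w dd (i + m) + j' →
      (x.1 = if b then (dd i, j) else (S.α (dd i), (w (dd i)).norm - j)) →
      (y.1 = if b then (dd (i + m), j') else (S.α (dd (i + m)), (w (dd (i + m))).norm - j')) →
      H.Reg (fun z => QD S dd r z.1.1) x y := by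
    intro m
    induction m with
    | zero =>
      intro i j j' x y _ _ _ e e1 e2
      obtain rfl : j = j' := by simpa using e
      obtain rfl : x = y := Subtype.ext (e1.trans e2.symm)
      exact EqvGen.refl _
    | succ m ih =>
      intro i j j' x y hi hj hj' e e1 e2
      have h1 := off_mono w dd (show i + 1 ≤ i + (m + 1) by omega)
      rw [off_succ] at h1
      obtain rfl : j = (w (dd i)).norm := by omega
      have a : i + (m + 1) = i + 1 + m := by omega
      rw [a] at hi hj' e e2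
      cases b
      · refine EqvGen.trans _ (sgn w (S.α (dd (i + 1)))) _ ?_
          (ih (i + 1) 0 j' _ y hi (Nat.zero_le _) hj' (by rw [off_succ]; exact e)
            (by simp [sgn, norm_α hw]) e2)
        obtain rfl : x = sg0 w (S.α (dd i)) := Subtype.ext (by simpa [sg0] using e1)
        exact (nxt_reg H (nxt_bot C sp (by omega))).symm
      · refine EqvGen.trans _ (sg0 w (dd (i + 1))) _ ?_
          (ih (i + 1) 0 j' _ y hi (Nat.zero_le _) hj' (by rw [off_succ]; exact e) rfl e2)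
        obtain rfl : x = sgn w (dd i) := Subtype.ext e1
        exact nxt_reg H (nxt_top C sp (by omega))
  obtain ⟨i, hi, j, hj, e, e1⟩ := h
  obtain ⟨i', hi', j', hj', e', e2⟩ := h'
  rcases le_total i i' with l | l
  · obtain ⟨m, rfl⟩ := Nat.exists_eq_add_of_le l
    exact key m i j j' x y hi' hj hj' (e.symm.trans e') e1 e2
  · obtain ⟨m, rfl⟩ := Nat.exists_eq_add_of_le l
    exact (key m i' j' j y x hi hj' hj (e'.symm.trans e) e2 e1).symm

omit [Finite D] in
theorem not_inn_first (sp : SPath S dd r) : ¬Inn S dd r (dd 0) := by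
  rintro ⟨i, hi, s⟩
  rcases (sp.inner i hi).2 _ ⟨0, sp.pos, Or.inl rfl⟩ s with e | e
  · have := (sp.inj 0 sp.pos _ hi).1 e
    omega
  · exact (sp.inj 0 sp.pos i (by omega)).2 e

omit [Finite D] in
theorem not_inn_last (sp : SPath S dd r) : ¬Inn S dd r (S.α (dd (r - 1))) := by
  rintro ⟨i, hi, s⟩
  have p := sp.pos
  rcases (sp.inner i hi).2 _ ⟨r - 1, by omega, Or.inr rfl⟩ s with e | e
  · exact (sp.inj _ hi (r - 1) (by omega)).2 e.symm
  · have := (sp.inj (r - 1) (by omega) i (by omega)).1 (S.α.injective e)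
    omega

omit [Finite D] in
theorem not_inn_t (sp : SPath S dd r) {d : D} (h : S.IsT d ∨ S.IsT (S.α d)) : ¬Inn S dd r d := by
  rintro ⟨i, hi, s⟩
  rcases h with h | h
  · exact (sp.inner i hi).1 d s h
  · exact (sp.inner i hi).1 (S.toHMap.σ d) (by simpa using s) ((S.isT_φ _).2 h)

theorem end_nx (C : Cut S w H fs μ) {d : D} (q : QD S dd r d) (n : ¬Inn S dd r (S.α d)) :
    (H.nx (fun z => QD S dd r z.1.1) (sgn w d)).1.2 = 0 ∧
      BD S w dd r (H.nx (fun z => QD S dd r z.1.1) (sgn w d)) := by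
  have h := ret_nxt H.σ (Q := fun z => QD S dd r z.1.1) (x := H.α (sgn w d))
    (by rw [α_sgn C]; exact qd_α d q)
  have s := nxt_sc h
  conv at s => arg 2; rw [α_sgn C]
  obtain ⟨e, e1, se⟩ := sc_sg0 C s
  unfold HMap.nx
  rw [e1]
  exact ⟨rfl, Or.inr fun ⟨i, hi, s⟩ => n ⟨i, hi, s.trans se.symm⟩⟩

theorem nx_nxt (C : Cut S w H fs μ) {x : Seg w} (q : QD S dd r x.1.1) :
    Nxt H.σ (fun z => QD S dd r z.1.1) (H.α x) (H.nx (fun z => QD S dd r z.1.1) x) :=
  ret_nxt H.σ (Q := fun z => QD S dd r z.1.1) (by rw [C.α_eq]; exact qd_α _ q)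

theorem gp_end (C : Cut S w H fs μ) (hw : S.Pre w) (sp : SPath S dd r) {b : Bool} {x : Seg w}
    (h : Gp S w dd r b (if b then (pw w dd r).length else 0) x) :
    ∃ e : Seg w, e.1.2 = 0 ∧ QD S dd r e.1.1 ∧ BD S w dd r e ∧
      H.Reg (fun z => QD S dd r z.1.1) x e := by
  have p := sp.pos
  have key : ∀ d, QD S dd r d → ¬Inn S dd r (S.α d) →
      Gp S w dd r b (if b then (pw w dd r).length else 0) (sgn w d) →
      ∃ e : Seg w, e.1.2 = 0 ∧ QD S dd r e.1.1 ∧ BD S w dd r e ∧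
        H.Reg (fun z => QD S dd r z.1.1) x e := fun d q n g =>
    ⟨_, (end_nx C q n).1, nxt_q (Q := fun z : Seg w => QD S dd r z.1.1)
      (nx_nxt C (x := sgn w d) q), (end_nx C q n).2,
      EqvGen.trans _ _ _ (gp_reg C hw sp h g) (nxt_reg H (nx_nxt C (x := sgn w d) q))⟩
  cases b
  · refine key (S.α (dd 0)) (Or.inl ⟨0, p, Or.inr rfl⟩) (by rw [S.αα]; exact not_inn_first sp)
      ⟨0, p, 0, Nat.zero_le _, by simp [off_zero], by simp [sgn, norm_α hw]⟩
  · refine key (dd (r - 1)) (Or.inl ⟨r - 1, by omega, Or.inl rfl⟩) (not_inn_last sp)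
      ⟨r - 1, by omega, _, le_rfl, ?_, rfl⟩
    rw [← off_succ, show r - 1 + 1 = r by omega]
    rfl

end Pool.Agent.Lib.MP_c1f5fe_lc.TB1
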