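import Pool.Agent.Lib.MP_c1f5fe_lc.Sel

/-! Prefixes of selections, runs, and moving one selected position at a time. -/

namespace Pool.Agent.Lib.MP_c1f5fe_lc.TB3

open Equiv Function Relation Sel

variable {k : ℕ}

theorem sel_take {A : Type} (W : List A) (Q : ℕ → Prop) (m : ℕ) :
    sel W (fun j => Q j ∧ j < m) = sel (W.take m) Q := by
  conv_lhs => rw [← List.take_append_drop m W]
  rw [sel_append, sel_none (W.drop m), List.append_nil]
  · refine sel_congr _ fun j hj => ?_
    have : j < m := by simp at hj; omega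
    simp [this]
  · intro j hj
    simp at hj ⊢
    omega

/-- the product of the selected letters before `m` -/
noncomputable def F (W : List (Let k)) (Q : ℕ → Prop) (m : ℕ) : FG k :=
  FreeGroup.mk (sel W fun j => Q j ∧ j < m)

variable {W U : List (Let k)} {Q Q' A A' Brk : ℕ → Prop} {m s t : ℕ}

theorem F_zero (W : List (Let k)) (Q : ℕ → Prop) : F W Q 0 = 1 := by
  rw [F, sel_none _ (by simp)]; rfl

theorem F_pos (W : List (Let k)) (h : Q m) : F W Q (m + 1) = F W Q m * olet W[m]? := by
  rw [F, F, sel_take, sel_take, List.take_add_one, sel_append, ← FreeGroup.mul_mk]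
  congr 1
  cases e : W[m]? with
  | none => rfl
  | some x =>
    have : m < W.length := (List.getElem?_eq_some_iff.1 e).1
    rw [Option.toList_some, sel_all]
    · rfl
    · intro j hj
      obtain rfl : j = 0 := by simpa using hj
      simpa [min_eq_left this.le] using h

theorem F_neg (W : List (Let k)) (h : ¬Q m) : F W Q (m + 1) = F W Q m := by
  unfold F
  congr 1
  refine sel_congr _ fun j _ => ⟨fun a => ⟨a.1, ?_⟩, fun a => ⟨a.1, by omega⟩⟩
  rcases Nat.lt_succ_iff_lt_or_eq.1 a.2 with e | e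
  · exact e
  · exact absurd (e ▸ a.1) h

theorem F_len (Q : ℕ → Prop) (h : W.length ≤ m) : F W Q m = FreeGroup.mk (sel W Q) := by
  rw [F, sel_take, List.take_of_length_le h]

theorem F_congr (h : ∀ j < m, j < W.length → (Q j ↔ Q' j)) : F W Q m = F W Q' m := by
  unfold F
  congr 1
  exact sel_congr _ fun j hj => ⟨fun a => ⟨(h j a.2 hj).1 a.1, a.2⟩, fun a => ⟨(h j a.2 hj).2 a.1, a.2⟩⟩

theorem F_top (W : List (Let k)) (m : ℕ) : F W (fun _ => True) m = FreeGroup.mk (W.take m) := by
  rw [F, sel_take, sel_all _ fun _ _ => trivial]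

theorem F_tail (W : List (Let k)) (h : ∀ j, m ≤ j → (Q j ↔ Q' j)) (i : ℕ) :
    (F W Q m)⁻¹ * F W Q (m + i) = (F W Q' m)⁻¹ * F W Q' (m + i) := by
  induction i with
  | zero => simp
  | succ i ih =>
    by_cases q : Q (m + i)
    · rw [← add_assoc, F_pos W q, F_pos W ((h _ (by omega)).1 q), ← mul_assoc, ih, mul_assoc]
    · rw [← add_assoc, F_neg W q, F_neg W fun a => q ((h _ (by omega)).2 a), ih]

theorem olet_map (o : Option (Let k)) : olet (o.map linv) = (olet o)⁻¹ := by
  cases o with
  | none => simp [olet]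
  | some x => simp [olet, FreeGroup.inv_mk, FreeGroup.invRev, linv]

theorem olet_labs {o : Option (Let k)} {x : Lab k} (h : x ∈ labs (olet o) ∨ x ∈ labs (olet o)⁻¹) :
    ∃ b, o = some (x, b) := by
  cases o with
  | none => simp [olet, labs] at h
  | some y =>
    have e : (olet (some y)).toWord = [y] := by simp [olet]
    simp only [labs, FreeGroup.toWord_inv, e] at h
    refine ⟨y.2, ?_⟩
    have : x = y.1 := by simpa [FreeGroup.invRev] using h
    rw [this]

theorem olet_norm (o : Option (Let k)) : (olet o).norm ≤ 1 := by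
  cases o with
  | none => simp [olet]
  | some y => exact FreeGroup.norm_mk_le

theorem F_split (W : List (Let k)) (m : ℕ) : FreeGroup.mk W =
    F W (fun _ => True) m * (F (FreeGroup.invRev W) (fun _ => True) (W.length - m))⁻¹ := by
  rw [F_top, F_top, FreeGroup.inv_mk, FreeGroup.mul_mk]
  congr 1
  conv_lhs => rw [← List.take_append_drop m W]
  congr 1
  conv_rhs => rw [← List.take_append_drop m W, FreeGroup.invRev_append]
  rw [List.take_append_drop, List.take_left' (by simp), FreeGroup.invRev_invRev]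

/-- the first `m` letters of `W` are read along `U` from the gap `s` to the gap `t` -/
def Run (U W : List (Let k)) (s m t : ℕ) (pos : ℕ → ℕ) : Prop :=
  (t = s + m ∧ ∀ j < m, pos j = s + j ∧ W[j]? = U[pos j]?) ∨
    (t + m = s ∧ ∀ j < m, pos j = s - 1 - j ∧ W[j]? = (U[pos j]?).map linv)

variable {pos : ℕ → ℕ}

theorem Run.le (h : Run U W s m t pos) {m' : ℕ} (l : m' ≤ m) : ∃ t', Run U W s m' t' pos := by
  rcases h with ⟨-, h⟩ | ⟨e, h⟩
  · exact ⟨_, Or.inl ⟨rfl, fun j hj => h j (by omega)⟩⟩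
  · exact ⟨s - m', Or.inr ⟨by omega, fun j hj => h j (by omega)⟩⟩

theorem Run.bd (h : Run U W s m t pos) (hm : m ≤ W.length) (hs : s ≤ U.length) :
    t ≤ U.length := by
  rcases h with ⟨e, h⟩ | ⟨e, -⟩
  · rcases Nat.eq_zero_or_pos m with z | z
    · omega
    · obtain ⟨a, b⟩ := h (m - 1) (by omega)
      rw [List.getElem?_eq_getElem (by omega), a] at b
      have := (List.getElem?_eq_some_iff.1 b.symm).1
      omega
  · omega

theorem Run.eq (h : Run U W s m t pos) (hQ : ∀ j < m, (Q j ↔ A (pos j))) :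
    F W Q m = (F U A s)⁻¹ * F U A t := by
  induction m generalizing t with
  | zero =>
    have : t = s := by rcases h with h | h <;> omega
    rw [this, F_zero]; simp
  | succ m ih =>
    have q := hQ m (by omega)
    rcases h with ⟨e, h⟩ | ⟨e, h⟩
    · have i := ih (t := s + m) (Or.inl ⟨rfl, fun j hj => h j (by omega)⟩) fun j hj => hQ j (by omega)
      obtain ⟨a, b⟩ := h m (by omega)
      rw [a] at q b
      rw [e, ← add_assoc]
      by_cases c : Q m
      · rw [F_pos W c, F_pos U (q.1 c), i, b, mul_assoc]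
      · rw [F_neg W c, F_neg U fun x => c (q.2 x), i]
    · have i := ih (t := t + 1) (Or.inr ⟨by omega, fun j hj => h j (by omega)⟩)
        fun j hj => hQ j (by omega)
      obtain ⟨a, b⟩ := h m (by omega)
      have a' : pos m = t := by omega
      rw [a'] at q b
      by_cases c : Q m
      · rw [F_pos W c, i, F_pos U (q.1 c), b, olet_map]; group
      · rw [F_neg W c, i, F_neg U fun x => c (q.2 x)]

/-- a new selection on the first `m` letters -/
theorem Run.resel (h : Run U W s m t pos) (hm : m ≤ W.length) (hQ : ∀ j < m, (Q j ↔ A (pos j)))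
    (e : F U A' t = F U A t) : ∃ Q' : ℕ → Prop, (∀ j, m ≤ j → (Q' j ↔ Q j)) ∧
      FreeGroup.mk (sel W Q') = ((F U A s)⁻¹ * F U A' s)⁻¹ * FreeGroup.mk (sel W Q) := by
  refine ⟨fun j => (j < m ∧ A' (pos j)) ∨ (m ≤ j ∧ Q j), fun j hj => by simp [hj, not_lt.2 hj], ?_⟩
  have h1 := F_tail W (m := m) (Q := fun j => (j < m ∧ A' (pos j)) ∨ (m ≤ j ∧ Q j)) (Q' := Q)
    (fun j hj => by simp [hj, not_lt.2 hj]) (W.length - m)
  rw [F_len (m := m + (W.length - m)) _ (by omega), F_len (m := m + (W.length - m)) _ (by omega),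
    h.eq hQ, h.eq (A := A') fun j hj => by simp [hj, not_le.2 hj], e] at h1
  rw [inv_mul_eq_iff_eq_mul.1 h1]
  group

/-- a run that avoids two positions stays between them -/
theorem Run.stay (h : Run U W s m t pos) {lo hi : ℕ} (h1 : lo < s) (h2 : s ≤ hi)
    (hp : ∀ j < m, pos j ≠ lo ∧ pos j ≠ hi) : lo < t ∧ t ≤ hi := by
  rcases h with ⟨e, h⟩ | ⟨e, h⟩
  · refine ⟨by omega, not_lt.1 fun l => (hp (hi - s) (by omega)).2 ?_⟩
    rw [(h _ (by omega)).1]; omega
  · refine ⟨not_le.1 fun l => (hp (s - 1 - lo) (by omega)).1 ?_, by omega⟩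
    rw [(h _ (by omega)).1]; omega

theorem Run.lab (h : Run U W s m t pos) {j : ℕ} (hj : j < m) {x : Lab k} {b : Bool}
    (e : U[pos j]? = some (x, b)) : x ∈ W.map Prod.fst := by
  rcases h with ⟨-, h⟩ | ⟨-, h⟩
  · exact List.mem_map.2 ⟨_, List.mem_of_getElem? ((h j hj).2.trans e), rfl⟩
  · have := (h j hj).2
    rw [e] at this
    exact List.mem_map.2 ⟨_, List.mem_of_getElem? this, rfl⟩

/-- the prefixes before and after a move between the positions `lo` and `hi` -/
structure Mv (U : List (Let k)) (Brk : ℕ → Prop) (f f' : ℕ → FG k) (lo hi : ℕ) : Prop where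
  out : ∀ t, ¬(lo < t ∧ t ≤ hi) → f t = f' t
  inn : ∀ s t, lo < s → s ≤ hi → lo < t → t ≤ hi → f s = f t ∧ f' s = f' t ∧
    (f' s = f s * olet U[lo]? ∨ f s = f' s * olet U[lo]?)
  nob : ∀ t, lo < t → t ≤ hi → ¬Brk t
  eq : U[lo]? = U[hi]?

theorem Mv.symm {f f' : ℕ → FG k} {lo hi : ℕ} (h : Mv U Brk f f' lo hi) : Mv U Brk f' f lo hi :=
  ⟨fun t a => (h.out t a).symm, fun s t a b c d =>
    ⟨(h.inn s t a b c d).2.1, (h.inn s t a b c d).1, (h.inn s t a b c d).2.2.symm⟩, h.nob, h.eq⟩

theorem mv_of {lo hi : ℕ} (l : lo < hi) (e : U[lo]? = U[hi]?)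
    (h : ∀ j, j ≠ lo → j ≠ hi → (A j ↔ A' j)) (hn : ∀ j, lo < j → j < hi → ¬A j) (a1 : A lo)
    (a2 : ¬A hi) (a3 : ¬A' lo) (a4 : A' hi) (hb : ∀ t, lo < t → t ≤ hi → ¬Brk t) :
    Mv U Brk (F U A) (F U A') lo hi := by
  have h1 : ∀ t ≤ lo, F U A t = F U A' t := fun t ht =>
    F_congr fun j hj _ => h j (by omega) (by omega)
  have h2 : ∀ i, lo + 1 + i ≤ hi → F U A (lo + 1 + i) = F U A lo * olet U[lo]? ∧
      F U A' (lo + 1 + i) = F U A lo := by
    intro i
    induction i with
    | zero => exact fun _ => ⟨F_pos U a1, (F_neg U a3).trans (h1 lo le_rfl).symm⟩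
    | succ i ih =>
      intro hi'
      have n := hn (lo + 1 + i) (by omega) (by omega)
      rw [← add_assoc, F_neg U n, F_neg U fun x => n ((h _ (by omega) (by omega)).2 x)]
      exact ih (by omega)
  have h3 : ∀ t, lo < t → t ≤ hi → F U A t = F U A lo * olet U[lo]? ∧ F U A' t = F U A lo := by
    intro t a b
    have := h2 (t - (lo + 1)) (by omega)
    rwa [show lo + 1 + (t - (lo + 1)) = t by omega] at this
  have h4 : F U A (hi + 1) = F U A' (hi + 1) := by
    rw [F_neg U a2, F_pos U a4, (h3 hi l le_rfl).1, (h3 hi l le_rfl).2, e]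
  refine ⟨fun t ht => ?_, fun s t a b c d => ?_, hb, e⟩
  · by_cases c : t ≤ lo
    · exact h1 t c
    · have := F_tail U (m := hi + 1) (Q := A) (Q' := A') (fun j hj => h j (by omega) (by omega))
        (t - (hi + 1))
      rw [show hi + 1 + (t - (hi + 1)) = t by omega, h4] at this
      exact mul_left_cancel this
  · rw [(h3 s a b).1, (h3 s a b).2, (h3 t c d).1, (h3 t c d).2]
    exact ⟨rfl, rfl, Or.inr rfl⟩

/-- the selected positions in increasing order -/
theorem enum {α : Type} (U : List α) : ∀ A : ℕ → Prop, ∃ x : ℕ → ℕ,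
    (∀ i j, i < j → j < (sel U A).length → x i < x j) ∧
    (∀ j < U.length, (A j ↔ ∃ i < (sel U A).length, x i = j)) ∧
    (∀ i < (sel U A).length, (sel U A)[i]? = U[x i]?) ∧
    ∀ s, ∀ i < (sel U A).length, (x i < s ↔ i < (sel U fun j => A j ∧ j < s).length) := by
  induction U with
  | nil => exact fun A => ⟨id, by simp, by simp, by simp, by simp⟩
  | cons a l ih =>
    intro A
    obtain ⟨x, h1, h2, h3, h4⟩ := ih fun j => A (j + 1)
    have z : (sel (a :: l) fun j => A j ∧ j < 0) = [] := sel_none _ (by simp)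
    have sc : ∀ s, (sel l fun j => A (j + 1) ∧ j + 1 < s + 1) = sel l fun j => A (j + 1) ∧ j < s :=
      fun s => sel_congr _ fun j _ => by simp
    by_cases p : A 0
    · rw [sel_cons_pos a l p]
      refine ⟨fun i => Nat.casesOn i 0 fun i => x i + 1, ?_, ?_, ?_, ?_⟩
      · rintro (_ | i) (_ | j) l1 l2
        · omega
        · simp
        · omega
        · simpa using h1 i j (by omega) (by simpa using l2)
      · rintro (_ | j) hj
        · exact ⟨fun _ => ⟨0, by simp, rfl⟩, fun _ => p⟩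
        · rw [h2 j (by simpa using hj)]
          constructor
          · rintro ⟨i, a, b⟩
            exact ⟨i + 1, by simpa using a, by simpa using b⟩
          · rintro ⟨_ | i, a, b⟩
            · simp at b
            · exact ⟨i, by simpa using a, by simpa using b⟩
      · rintro (_ | i) hi
        · simp
        · simpa using h3 i (by simpa using hi)
      · rintro (_ | s) i hi
        · rw [z]; simp
        · rw [sel_cons_pos a l (P := fun j => A j ∧ j < s + 1) ⟨p, by omega⟩, sc]
          cases i with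
          | zero => simp
          | succ i => simpa using h4 s i (by simpa using hi)
    · rw [sel_cons_neg a l p]
      refine ⟨fun i => x i + 1, fun i j a b => by simpa using h1 i j a b, ?_,
        fun i hi => by simpa using h3 i hi, ?_⟩
      · rintro (_ | j) hj
        · simp [p]
        · simpa using h2 j (by simpa using hj)
      · rintro (_ | s) i hi
        · rw [z]; simp
        · rw [sel_cons_neg a l (P := fun j => A j ∧ j < s + 1) fun q => p q.1, sc]
          simpa using h4 s i hi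

theorem step {L : ℕ} {x y : ℕ → ℕ} (hx : ∀ i j, i < j → j < L → x i < x j)
    (hy : ∀ i j, i < j → j < L → y i < y j) (hne : ∃ i < L, x i ≠ y i) :
    ∃ i < L, x i ≠ y i ∧ (∀ j < i, x j < y i) ∧ ∀ j, i < j → j < L → y i < x j := by
  classical
  by_cases c : ∃ i, i < L ∧ y i < x i
  · obtain ⟨a, b⟩ := Nat.find_spec c
    refine ⟨Nat.find c, a, b.ne', fun j hj => ?_, fun j l1 l2 => b.trans (hx _ _ l1 l2)⟩
    have := Nat.find_min c hj
    have := hy j _ hj a
    omega
  · push Not at c
    obtain ⟨i, hi, hm⟩ := Set.exists_max_image {i | i < L ∧ x i ≠ y i} id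
      ((Set.finite_lt_nat L).subset fun _ h => h.1) hne
    refine ⟨i, hi.1, hi.2, fun j hj => (hx j i hj hi.1).trans_le (c i hi.1), fun j l1 l2 => ?_⟩
    have : x j = y j := by_contra fun n => absurd (hm j ⟨l2, n⟩) (by simpa using l1)
    rw [this]
    exact hy _ _ l1 l2

theorem homo {L : ℕ} {y : ℕ → ℕ} (hy : ∀ i j, i < j → j < L → y i < y j) (M : ℕ) :
    ∀ x : ℕ → ℕ, (∀ i j, i < j → j < L → x i < x j) →
    (∀ i < L, U[x i]? = U[y i]? ∧ ∀ s, Brk s → (x i < s ↔ y i < s)) →
    ((Finset.range L).filter fun i => x i ≠ y i).card ≤ M →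
    ∃ B : ℕ → ℕ → Prop, B 0 = (fun j => ∃ i < L, x i = j) ∧ B M = (fun j => ∃ i < L, y i = j) ∧
      ∀ μ < M, ∃ lo hi, Mv U Brk (F U (B μ)) (F U (B (μ + 1))) lo hi := by
  have same : ∀ (x : ℕ → ℕ) (M : ℕ), (∀ i < L, x i = y i) →
      ∃ B : ℕ → ℕ → Prop, B 0 = (fun j => ∃ i < L, x i = j) ∧ B M = (fun j => ∃ i < L, y i = j) ∧
      ∀ μ < M, ∃ lo hi, Mv U Brk (F U (B μ)) (F U (B (μ + 1))) lo hi := by
    intro x M h
    refine ⟨fun _ j => ∃ i < L, y i = j, ?_, rfl, fun μ _ => ⟨0, 0, fun _ _ => rfl,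
      fun s t a b => by omega, fun t a b => by omega, rfl⟩⟩
    funext j
    exact propext ⟨fun ⟨i, a, b⟩ => ⟨i, a, (h i a).trans b⟩, fun ⟨i, a, b⟩ => ⟨i, a, (h i a).symm.trans b⟩⟩
  induction M with
  | zero =>
    intro x _ _ c
    refine same x 0 fun i hi => by_contra fun n => ?_
    have : 0 < ((Finset.range L).filter fun i => x i ≠ y i).card :=
      Finset.card_pos.2 ⟨i, Finset.mem_filter.2 ⟨Finset.mem_range.2 hi, n⟩⟩
    omega
  | succ M ih =>
    intro x hx h c
    by_cases q : ∃ i < L, x i ≠ y i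
    swap
    · push Not at q
      exact same x _ q
    obtain ⟨i, hi, ne, s1, s2⟩ := step hx hy q
    have u1 : update x i (y i) i = y i := update_self ..
    have u2 : ∀ j, j ≠ i → update x i (y i) j = x j := fun j n => update_of_ne n ..
    obtain ⟨B, b0, bM, bs⟩ := ih (update x i (y i)) (fun a b l1 l2 => by
        by_cases e1 : a = i
        · rw [e1, u1, u2 b (by omega)]; exact s2 b (by omega) l2
        by_cases e2 : b = i
        · rw [e2, u1, u2 a e1]; exact s1 a (by omega)
        rw [u2 a e1, u2 b e2]; exact hx a b l1 l2)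
      (fun a ha => by
        by_cases e1 : a = i
        · rw [e1, u1]; exact ⟨rfl, fun _ _ => Iff.rfl⟩
        · rw [u2 a e1]; exact h a ha)
      (by
        have : ((Finset.range L).filter fun j => update x i (y i) j ≠ y j) ⊆
            ((Finset.range L).filter fun j => x j ≠ y j).erase i := by
          intro j hj
          obtain ⟨a, b⟩ := Finset.mem_filter.1 hj
          have n : j ≠ i := fun e => b (e ▸ u1)
          exact Finset.mem_erase.2 ⟨n, Finset.mem_filter.2 ⟨a, u2 j n ▸ b⟩⟩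
        have := Finset.card_le_card this
        rw [Finset.card_erase_of_mem (Finset.mem_filter.2 ⟨Finset.mem_range.2 hi, ne⟩)] at this
        omega)
    refine ⟨fun μ => Nat.casesOn μ (fun j => ∃ i < L, x i = j) B, rfl, bM, ?_⟩
    rintro (_ | μ) hμ
    swap
    · exact bs μ (by omega)
    show ∃ lo hi, Mv U Brk (F U fun j => ∃ i < L, x i = j) (F U (B 0)) lo hi
    rw [b0]
    have o : ∀ a < L, a ≠ i → (x a < x i ∧ x a < y i) ∨ (x i < x a ∧ y i < x a) := by
      intro a ha n
      rcases lt_or_gt_of_ne n with l | l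
      · exact Or.inl ⟨hx a i l hi, s1 a l⟩
      · exact Or.inr ⟨hx i a l ha, s2 a l ha⟩
    have m1 : ∀ j, (∃ a < L, x a = j) ↔ j = x i ∨ ∃ a < L, a ≠ i ∧ x a = j := fun j =>
      ⟨fun ⟨a, ha, e⟩ => (em (a = i)).elim (fun z => Or.inl (z ▸ e.symm)) fun z => Or.inr ⟨a, ha, z, e⟩,
        fun z => z.elim (fun e => ⟨i, hi, e.symm⟩) fun ⟨a, ha, _, e⟩ => ⟨a, ha, e⟩⟩
    have m2 : ∀ j, (∃ a < L, update x i (y i) a = j) ↔ j = y i ∨ ∃ a < L, a ≠ i ∧ x a = j := fun j =>
      ⟨fun ⟨a, ha, e⟩ => (em (a = i)).elim (fun z => Or.inl (by rw [← e, z, u1]))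
          fun z => Or.inr ⟨a, ha, z, (u2 a z).symm.trans e⟩,
        fun z => z.elim (fun e => ⟨i, hi, u1.trans e.symm⟩)
          fun ⟨a, ha, n, e⟩ => ⟨a, ha, (u2 a n).trans e⟩⟩
    have nb : ∀ j, min (x i) (y i) ≤ j → j ≤ max (x i) (y i) → ¬∃ a < L, a ≠ i ∧ x a = j := by
      rintro j l1 l2 ⟨a, ha, n, rfl⟩
      have := o a ha n
      omega
    simp only [m1, m2]
    rcases lt_or_gt_of_ne ne with l | l
    · refine ⟨x i, y i, mv_of l (h i hi).1 (fun j a b => by simp [a, b]) (fun j a b => ?_) (Or.inl rfl)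
        ?_ ?_ (Or.inl rfl) fun t a b c => by have := (h i hi).2 t c; omega⟩
      · exact fun z => z.elim (by omega) (nb j (by omega) (by omega))
      · exact fun z => z.elim (by omega) (nb _ (by omega) (by omega))
      · exact fun z => z.elim (by omega) (nb _ (by omega) (by omega))
    · refine ⟨y i, x i, (mv_of l (h i hi).1.symm (fun j a b => by simp [a, b]) (fun j a b => ?_)
        (Or.inl rfl) ?_ ?_ (Or.inl rfl) fun t a b c => by have := (h i hi).2 t c; omega).symm⟩
      · exact fun z => z.elim (by omega) (nb j (by omega) (by omega))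
      · exact fun z => z.elim (by omega) (nb _ (by omega) (by omega))
      · exact fun z => z.elim (by omega) (nb _ (by omega) (by omega))

/-- two selections with the same prefixes at the breaks are joined by single moves -/
theorem moves {At Ab : ℕ → Prop} {N : ℕ} (hb : Brk U.length)
    (pre : ∀ s, Brk s → sel U (fun j => At j ∧ j < s) = sel U fun j => Ab j ∧ j < s)
    (len : (sel U At).length ≤ N) : ∃ (B : ℕ → ℕ → Prop) (lo hi : ℕ → ℕ),
      F U (B 0) = F U Ab ∧ F U (B N) = F U At ∧
      ∀ μ < N, Mv U Brk (F U (B μ)) (F U (B (μ + 1))) (lo μ) (hi μ) := by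
  have e : sel U Ab = sel U At := by
    have := pre _ hb
    rwa [sel_take, sel_take, List.take_length, eq_comm] at this
  obtain ⟨x, x1, x2, x3, x4⟩ := enum U Ab
  obtain ⟨y, y1, y2, y3, y4⟩ := enum U At
  rw [e] at x1 x2 x3 x4
  obtain ⟨B, b0, bN, bs⟩ := homo (U := U) (Brk := Brk) y1 N x x1
    (fun i hi => ⟨(x3 i hi).symm.trans (y3 i hi), fun s hs => by
      rw [x4 s i hi, y4 s i hi, pre s hs]⟩)
    ((Finset.card_filter_le _ _).trans (by simpa using len))
  choose! lo hi bs using bs
  refine ⟨B, lo, hi, ?_, ?_, bs⟩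
  · funext s
    rw [b0]
    exact F_congr fun j _ hj => (x2 j hj).symm
  · funext s
    rw [bN]
    exact F_congr fun j _ hj => (y2 j hj).symm

end Pool.Agent.Lib.MP_c1f5fe_lc.TB3
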